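import Pool.Agent.H188.Seq.Data

namespace Pool.Agent.H188.Seq

theorem c_d0 : chk R920 d0 17 [E.k 0, E.k 0, E.k 0] 1 [] true = true := by
  decide +kernel
theorem c_d7 : chk R920 d7 15 [E.k 0, E.k 1, E.k 1, E.k 0, E.k 0] 2 [] true = true := by
  decide +kernel
theorem c_d8 : chk R920 d8 15 [E.k 1, E.k 1, E.k 1, E.k 0, E.k 0] 2 [] true = true := by
  decide +kernel
theorem c_d12 : chk R920 d12 14 [E.k 0, E.k 2, E.k 1, E.k 1, E.k 0, E.k 0] 3 [] true = true := by
  decide +kernel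
theorem c_d26 : chk R920 d26 15 [E.k 2, E.k 1, E.k 1, E.k 0, E.k 0] 3 [0] true = true := by
  decide +kernel
theorem c_d27 : chk R920 d27 16 [E.k 0, E.k 1, E.k 0, E.k 0] 2 [] true = true := by
  decide +kernel
theorem c_d40 : chk R920 d40 15 [E.k 0, E.k 2, E.k 1, E.k 0, E.k 0] 3 [] true = true := by
  decide +kernel
theorem c_d45 : chk R920 d45 14 [E.k 0, E.k 1, E.k 2, E.k 1, E.k 0, E.k 0] 3 [] true = true := by
  decide +kernel
theorem c_d59 : chk R920 d59 15 [E.k 1, E.k 2, E.k 1, E.k 0, E.k 0] 3 [0] true = true := by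
  decide +kernel
theorem c_d60 : chk R920 d60 15 [E.k 2, E.k 2, E.k 1, E.k 0, E.k 0] 3 [] true = true := by
  decide +kernel
theorem c_d67 : chk R920 d67 14 [E.k 0, E.k 3, E.k 2, E.k 1, E.k 0, E.k 0] 4 [] true = true := by
  decide +kernel
theorem c_d75 : chk R920 d75 14 [E.k 1, E.k 3, E.k 2, E.k 1, E.k 0, E.k 0] 4 [] true = true := by
  decide +kernel
theorem c_d84 : chk R920 d84 14 [E.k 3, E.k 3, E.k 2, E.k 1, E.k 0, E.k 0] 4 [] true = true := by
  decide +kernel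
theorem c_d93 : chk R920 d93 15 [E.k 3, E.k 2, E.k 1, E.k 0, E.k 0] 4 [3,1,0] true = true := by
  decide +kernel
theorem c_d100 : chk R920 d100 15 [E.k 1, E.k 0, E.k 0, E.k 1, E.k 0] 2 [] true = true := by
  decide +kernel
theorem c_d101 : chk R920 d101 15 [E.k 0, E.k 0, E.k 0, E.k 1, E.k 0] 2 [] true = true := by
  decide +kernel
theorem c_d105 : chk R920 d105 14 [E.k 1, E.k 2, E.k 0, E.k 0, E.k 1, E.k 0] 3 [] true = true := by
  decide +kernel

end Pool.Agent.H188.Seq
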