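import Pool.Agent.H188.Seq.Data

namespace Pool.Agent.H188.Seq

theorem c_d119 : chk R920 d119 15 [E.k 2, E.k 0, E.k 0, E.k 1, E.k 0] 3 [1] true = true := by
  decide +kernel
theorem c_d120 : chk R920 d120 16 [E.k 1, E.k 0, E.k 1, E.k 0] 2 [] false = true := by
  decide +kernel
theorem c_d126 : chk R920 d126 14 [E.k 0, E.k 0, E.k 2, E.k 0, E.k 1, E.k 0] 3 [] false = true := by
  decide +kernel
theorem c_d131 : chk R920 d131 13 [E.k 0, E.k 1, E.k 0, E.k 2, E.k 0, E.k 1, E.k 0] 3 [] false = true := by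
  decide +kernel
theorem c_d147 : chk R920 d147 14 [E.k 1, E.k 0, E.k 2, E.k 0, E.k 1, E.k 0] 3 [0] false = true := by
  decide +kernel
theorem c_d156 : chk R920 d156 15 [E.k 0, E.k 2, E.k 0, E.k 1, E.k 0] 3 [1,0] false = true := by
  decide +kernel
theorem c_d161 : chk R920 d161 14 [E.k 1, E.k 1, E.k 2, E.k 0, E.k 1, E.k 0] 3 [] false = true := by
  decide +kernel
theorem c_d173 : chk R920 d173 15 [E.k 1, E.k 2, E.k 0, E.k 1, E.k 0] 3 [1] false = true := by
  decide +kernel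
theorem c_d174 : chk R920 d174 15 [E.k 2, E.k 2, E.k 0, E.k 1, E.k 0] 3 [] false = true := by
  decide +kernel
theorem c_d182 : chk R920 d182 14 [E.k 0, E.k 3, E.k 2, E.k 0, E.k 1, E.k 0] 4 [] false = true := by
  decide +kernel
theorem c_d192 : chk R920 d192 14 [E.k 1, E.k 3, E.k 2, E.k 0, E.k 1, E.k 0] 4 [] false = true := by
  decide +kernel
theorem c_d201 : chk R920 d201 14 [E.k 3, E.k 3, E.k 2, E.k 0, E.k 1, E.k 0] 4 [] true = true := by
  decide +kernel
theorem c_d210 : chk R920 d210 15 [E.k 3, E.k 2, E.k 0, E.k 1, E.k 0] 4 [3,1,0] true = true := by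
  decide +kernel

end Pool.Agent.H188.Seq
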