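import Pool.Agent.H188.Seq.Data

namespace Pool.Agent.H188.Seq

theorem c_d211 : chk R920 d211 17 [E.k 1, E.k 1, E.k 0] 2 [] false = true := by
  decide +kernel
theorem c_d218 : chk R920 d218 13 [E.k 0, E.k 1, E.k 1, E.k 0, E.k 2, E.k 1, E.k 0] 3 [] false = true := by
  decide +kernel
theorem c_d223 : chk R920 d223 13 [E.k 2, E.k 1, E.k 1, E.k 0, E.k 2, E.k 1, E.k 0] 3 [] false = true := by
  decide +kernel
theorem c_d236 : chk R920 d236 14 [E.k 1, E.k 1, E.k 0, E.k 2, E.k 1, E.k 0] 3 [2,0] false = true := by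
  decide +kernel
theorem c_d237 : chk R920 d237 14 [E.k 0, E.k 1, E.k 0, E.k 2, E.k 1, E.k 0] 3 [] false = true := by
  decide +kernel
theorem c_d238 : chk R920 d238 14 [E.k 2, E.k 1, E.k 0, E.k 2, E.k 1, E.k 0] 3 [] false = true := by
  decide +kernel
theorem c_d249 : chk R920 d249 13 [E.k 0, E.k 3, E.k 1, E.k 0, E.k 2, E.k 1, E.k 0] 4 [] false = true := by
  decide +kernel
theorem c_d265 : chk R920 d265 13 [E.k 1, E.k 3, E.k 1, E.k 0, E.k 2, E.k 1, E.k 0] 4 [] false = true := by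
  decide +kernel
theorem c_d281 : chk R920 d281 13 [E.k 2, E.k 3, E.k 1, E.k 0, E.k 2, E.k 1, E.k 0] 4 [] false = true := by
  decide +kernel
theorem c_d297 : chk R920 d297 14 [E.k 3, E.k 1, E.k 0, E.k 2, E.k 1, E.k 0] 4 [2,1,0] false = true := by
  decide +kernel
theorem c_d302 : chk R920 d302 13 [E.k 0, E.k 1, E.k 2, E.k 0, E.k 2, E.k 1, E.k 0] 3 [] false = true := by
  decide +kernel
theorem c_d307 : chk R920 d307 13 [E.k 2, E.k 1, E.k 2, E.k 0, E.k 2, E.k 1, E.k 0] 3 [] false = true := by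
  decide +kernel
theorem c_d320 : chk R920 d320 14 [E.k 1, E.k 2, E.k 0, E.k 2, E.k 1, E.k 0] 3 [2,0] false = true := by
  decide +kernel
theorem c_d327 : chk R920 d327 13 [E.k 0, E.k 2, E.k 2, E.k 0, E.k 2, E.k 1, E.k 0] 3 [] false = true := by
  decide +kernel
theorem c_d334 : chk R920 d334 13 [E.k 1, E.k 2, E.k 2, E.k 0, E.k 2, E.k 1, E.k 0] 3 [] false = true := by
  decide +kernel
theorem c_d347 : chk R920 d347 14 [E.k 2, E.k 2, E.k 0, E.k 2, E.k 1, E.k 0] 3 [1,0] false = true := by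
  decide +kernel

end Pool.Agent.H188.Seq
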