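import Pool.Agent.H188.Seq.Data

namespace Pool.Agent.H188.Seq

theorem c_d348 : chk R920 d348 14 [E.k 0, E.k 2, E.k 0, E.k 2, E.k 1, E.k 0] 3 [] false = true := by
  decide +kernel
theorem c_d357 : chk R920 d357 13 [E.k 0, E.k 3, E.k 2, E.k 0, E.k 2, E.k 1, E.k 0] 4 [] false = true := by
  decide +kernel
theorem c_d373 : chk R920 d373 13 [E.k 1, E.k 3, E.k 2, E.k 0, E.k 2, E.k 1, E.k 0] 4 [] false = true := by
  decide +kernel
theorem c_d389 : chk R920 d389 13 [E.k 2, E.k 3, E.k 2, E.k 0, E.k 2, E.k 1, E.k 0] 4 [] false = true := by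
  decide +kernel
theorem c_d404 : chk R920 d404 14 [E.k 3, E.k 2, E.k 0, E.k 2, E.k 1, E.k 0] 4 [2,1,0] false = true := by
  decide +kernel
theorem c_d405 : chk R920 d405 15 [E.k 0, E.k 0, E.k 2, E.k 1, E.k 0] 3 [] false = true := by
  decide +kernel
theorem c_d417 : chk R920 d417 13 [E.k 0, E.k 1, E.k 3, E.k 0, E.k 2, E.k 1, E.k 0] 4 [] false = true := by
  decide +kernel
theorem c_d429 : chk R920 d429 13 [E.k 2, E.k 1, E.k 3, E.k 0, E.k 2, E.k 1, E.k 0] 4 [] false = true := by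
  decide +kernel
theorem c_d443 : chk R920 d443 13 [E.k 3, E.k 1, E.k 3, E.k 0, E.k 2, E.k 1, E.k 0] 4 [] false = true := by
  decide +kernel
theorem c_d458 : chk R920 d458 14 [E.k 1, E.k 3, E.k 0, E.k 2, E.k 1, E.k 0] 4 [3,2,0] false = true := by
  decide +kernel
theorem c_d470 : chk R920 d470 13 [E.k 0, E.k 2, E.k 3, E.k 0, E.k 2, E.k 1, E.k 0] 4 [] false = true := by
  decide +kernel

end Pool.Agent.H188.Seq
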