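import Pool.Agent.H188.Seq.Data

namespace Pool.Agent.H188.Seq

theorem c_d485 : chk R920 d485 13 [E.k 1, E.k 2, E.k 3, E.k 0, E.k 2, E.k 1, E.k 0] 4 [] false = true := by
  decide +kernel
theorem c_d499 : chk R920 d499 13 [E.k 3, E.k 2, E.k 3, E.k 0, E.k 2, E.k 1, E.k 0] 4 [] false = true := by
  decide +kernel
theorem c_d514 : chk R920 d514 14 [E.k 2, E.k 3, E.k 0, E.k 2, E.k 1, E.k 0] 4 [3,1,0] false = true := by
  decide +kernel
theorem c_d527 : chk R920 d527 13 [E.k 0, E.k 3, E.k 3, E.k 0, E.k 2, E.k 1, E.k 0] 4 [] false = true := by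
  decide +kernel
theorem c_d543 : chk R920 d543 13 [E.k 1, E.k 3, E.k 3, E.k 0, E.k 2, E.k 1, E.k 0] 4 [] false = true := by
  decide +kernel
theorem c_d560 : chk R920 d560 13 [E.k 2, E.k 3, E.k 3, E.k 0, E.k 2, E.k 1, E.k 0] 4 [] false = true := by
  decide +kernel
theorem c_d576 : chk R920 d576 14 [E.k 3, E.k 3, E.k 0, E.k 2, E.k 1, E.k 0] 4 [2,1,0] false = true := by
  decide +kernel
theorem c_d577 : chk R920 d577 14 [E.k 0, E.k 3, E.k 0, E.k 2, E.k 1, E.k 0] 4 [] false = true := by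
  decide +kernel
theorem c_d588 : chk R920 d588 13 [E.k 0, E.k 4, E.k 3, E.k 0, E.k 2, E.k 1, E.k 0] 5 [] false = true := by
  decide +kernel
theorem c_d605 : chk R920 d605 13 [E.k 1, E.k 4, E.k 3, E.k 0, E.k 2, E.k 1, E.k 0] 5 [] false = true := by
  decide +kernel

end Pool.Agent.H188.Seq
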