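import Pool.Agent.H188.Seq.Data

namespace Pool.Agent.H188.Seq

theorem c_d622 : chk R920 d622 13 [E.k 2, E.k 4, E.k 3, E.k 0, E.k 2, E.k 1, E.k 0] 5 [] false = true := by
  decide +kernel
theorem c_d637 : chk R920 d637 14 [E.k 4, E.k 3, E.k 0, E.k 2, E.k 1, E.k 0] 5 [2,1,0] false = true := by
  decide +kernel
theorem c_d643 : chk R920 d643 14 [E.k 0, E.k 0, E.k 2, E.k 2, E.k 1, E.k 0] 3 [] false = true := by
  decide +kernel
theorem c_d650 : chk R920 d650 13 [E.k 0, E.k 1, E.k 0, E.k 2, E.k 2, E.k 1, E.k 0] 3 [] false = true := by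
  decide +kernel
theorem c_d665 : chk R920 d665 14 [E.k 1, E.k 0, E.k 2, E.k 2, E.k 1, E.k 0] 3 [0] false = true := by
  decide +kernel
theorem c_d674 : chk R920 d674 15 [E.k 0, E.k 2, E.k 2, E.k 1, E.k 0] 3 [1,0] false = true := by
  decide +kernel
theorem c_d679 : chk R920 d679 14 [E.k 0, E.k 1, E.k 2, E.k 2, E.k 1, E.k 0] 3 [] false = true := by
  decide +kernel
theorem c_d684 : chk R920 d684 14 [E.k 1, E.k 1, E.k 2, E.k 2, E.k 1, E.k 0] 3 [] false = true := by
  decide +kernel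
theorem c_d696 : chk R920 d696 15 [E.k 1, E.k 2, E.k 2, E.k 1, E.k 0] 3 [1,0] false = true := by
  decide +kernel
theorem c_d697 : chk R920 d697 15 [E.k 2, E.k 2, E.k 2, E.k 1, E.k 0] 3 [] false = true := by
  decide +kernel
theorem c_d706 : chk R920 d706 14 [E.k 0, E.k 3, E.k 2, E.k 2, E.k 1, E.k 0] 4 [] false = true := by
  decide +kernel
theorem c_d714 : chk R920 d714 14 [E.k 1, E.k 3, E.k 2, E.k 2, E.k 1, E.k 0] 4 [] true = true := by
  decide +kernel

end Pool.Agent.H188.Seq
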