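import Pool.Agent.H188.Seq.Data

namespace Pool.Agent.H188.Seq

theorem c_d723 : chk R920 d723 14 [E.k 3, E.k 3, E.k 2, E.k 2, E.k 1, E.k 0] 4 [] true = true := by
  decide +kernel
theorem c_d732 : chk R920 d732 15 [E.k 3, E.k 2, E.k 2, E.k 1, E.k 0] 4 [3,1,0] true = true := by
  decide +kernel
theorem c_d733 : chk R920 d733 16 [E.k 1, E.k 2, E.k 1, E.k 0] 3 [] false = true := by
  decide +kernel
theorem c_d742 : chk R920 d742 14 [E.k 0, E.k 0, E.k 3, E.k 2, E.k 1, E.k 0] 4 [] false = true := by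
  decide +kernel
theorem c_d757 : chk R920 d757 13 [E.k 0, E.k 1, E.k 0, E.k 3, E.k 2, E.k 1, E.k 0] 4 [] false = true := by
  decide +kernel
theorem c_d767 : chk R920 d767 13 [E.k 2, E.k 1, E.k 0, E.k 3, E.k 2, E.k 1, E.k 0] 4 [] false = true := by
  decide +kernel
theorem c_d779 : chk R920 d779 13 [E.k 3, E.k 1, E.k 0, E.k 3, E.k 2, E.k 1, E.k 0] 4 [] false = true := by
  decide +kernel
theorem c_d794 : chk R920 d794 14 [E.k 1, E.k 0, E.k 3, E.k 2, E.k 1, E.k 0] 4 [3,2,0] false = true := by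
  decide +kernel
theorem c_d802 : chk R920 d802 14 [E.k 2, E.k 0, E.k 3, E.k 2, E.k 1, E.k 0] 4 [] true = true := by
  decide +kernel
theorem c_d811 : chk R920 d811 15 [E.k 0, E.k 3, E.k 2, E.k 1, E.k 0] 4 [2,1,0] true = true := by
  decide +kernel
theorem c_d819 : chk R920 d819 14 [E.k 0, E.k 1, E.k 3, E.k 2, E.k 1, E.k 0] 4 [] false = true := by
  decide +kernel
theorem c_d827 : chk R920 d827 14 [E.k 1, E.k 1, E.k 3, E.k 2, E.k 1, E.k 0] 4 [] false = true := by
  decide +kernel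

end Pool.Agent.H188.Seq
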