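import Pool.Agent.H188.Seq.Data

namespace Pool.Agent.H188.Seq

theorem c_d840 : chk R920 d840 15 [E.k 1, E.k 3, E.k 2, E.k 1, E.k 0] 4 [1,0] false = true := by
  decide +kernel
theorem c_d851 : chk R920 d851 14 [E.k 0, E.k 2, E.k 3, E.k 2, E.k 1, E.k 0] 4 [] false = true := by
  decide +kernel
theorem c_d859 : chk R920 d859 14 [E.k 1, E.k 2, E.k 3, E.k 2, E.k 1, E.k 0] 4 [] true = true := by
  decide +kernel
theorem c_d868 : chk R920 d868 14 [E.k 2, E.k 2, E.k 3, E.k 2, E.k 1, E.k 0] 4 [] true = true := by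
  decide +kernel
theorem c_d878 : chk R920 d878 15 [E.k 2, E.k 3, E.k 2, E.k 1, E.k 0] 4 [2,1,0] true = true := by
  decide +kernel
theorem c_d879 : chk R920 d879 15 [E.k 3, E.k 3, E.k 2, E.k 1, E.k 0] 4 [] false = true := by
  decide +kernel
theorem c_d889 : chk R920 d889 14 [E.k 0, E.k 4, E.k 3, E.k 2, E.k 1, E.k 0] 5 [] false = true := by
  decide +kernel
theorem c_d900 : chk R920 d900 14 [E.k 1, E.k 4, E.k 3, E.k 2, E.k 1, E.k 0] 5 [] false = true := by
  decide +kernel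
theorem c_d909 : chk R920 d909 14 [E.k 2, E.k 4, E.k 3, E.k 2, E.k 1, E.k 0] 5 [] true = true := by
  decide +kernel
theorem c_d919 : chk R920 d919 15 [E.k 4, E.k 3, E.k 2, E.k 1, E.k 0] 5 [2,1,0] true = true := by
  decide +kernel

end Pool.Agent.H188.Seq
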