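import Pool.Agent.H188.Seq.C0
import Pool.Agent.H188.Seq.C1
import Pool.Agent.H188.Seq.C2
import Pool.Agent.H188.Seq.C3
import Pool.Agent.H188.Seq.C4
import Pool.Agent.H188.Seq.C5
import Pool.Agent.H188.Seq.C6
import Pool.Agent.H188.Seq.C7

namespace Pool.Agent.H188.Seq

theorem chk_ts {R y n : T} {fuel : Nat} {K : List E} {cnt j c : Nat} {ex : List Nat} {top : Bool}
    (h1 : Nat.blt j cnt = true) (hc : cnt - 1 - j = c)
    (h2 : chk R y fuel (E.k c :: K) cnt [] top = true)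
    (h3 : chk R n (fuel + 1) K cnt (c :: ex) top = true) :
    chk R (T.ts j y n) (fuel + 1) K cnt ex top = true := by
  subst hc
  show band (Nat.blt j cnt) (band (chk R y fuel (E.k (cnt - 1 - j) :: K) cnt [] top)
    (chk R n (fuel + 1) K cnt ((cnt - 1 - j) :: ex) top)) = true
  rw [h1, h2, h3]

theorem chk_nw {R t : T} {fuel : Nat} {K : List E} {cnt : Nat} {ex : List Nat} {top : Bool}
    (h1 : Nat.ble cnt 4 = true) (h2 : allex cnt ex = true)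
    (h3 : chk R t fuel (E.k cnt :: K) (cnt + 1) [] top = true) :
    chk R (T.nw t) (fuel + 1) K cnt ex top = true := by
  show band (Nat.ble cnt 4) (band (allex cnt ex)
    (chk R t fuel (E.k cnt :: K) (cnt + 1) [] top)) = true
  rw [h1, h2, h3]

theorem chk_sk {R t : T} {fuel : Nat} {K : List E} {cnt : Nat} {ex : List Nat} {top : Bool}
    (h3 : chk R t fuel (E.u ex :: K) cnt [] top = true) :
    chk R (T.sk t) (fuel + 1) K cnt ex top = true := h3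

theorem chk_tp {R t : T} {fuel : Nat} {K : List E} {cnt : Nat} {ex : List Nat} {top : Bool}
    (h3 : chk R t fuel K cnt ex true = true) :
    chk R (T.tp t) fuel K cnt ex top = true := h3

theorem root_ok : chk R920 R920 20 [] 0 [] false = true :=
  (chk_nw rfl rfl (chk_ts (c := 0) rfl rfl (chk_tp (chk_ts (c := 0) rfl rfl c_d0 (chk_nw rfl rfl (chk_ts (c := 1) rfl rfl (chk_ts (c := 0) rfl rfl c_d7 (chk_ts (c := 1) rfl rfl c_d8 (chk_nw rfl rfl (chk_ts (c := 0) rfl rfl c_d12 c_d26)))) (chk_ts (c := 0) rfl rfl c_d27 (chk_nw rfl rfl (chk_ts (c := 0) rfl rfl c_d40 (chk_ts (c := 1) rfl rfl (chk_ts (c := 0) rfl rfl c_d45 c_d59) (chk_ts (c := 2) rfl rfl c_d60 (chk_nw rfl rfl (chk_ts (c := 0) rfl rfl c_d67 (chk_ts (c := 1) rfl rfl c_d75 (chk_ts (c := 3) rfl rfl c_d84 c_d93))))))))))))) (chk_nw rfl rfl (chk_ts (c := 0) rfl rfl (chk_ts (c := 0) rfl rfl (chk_tp (chk_ts (c := 1) rfl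 rfl c_d100 (chk_ts (c := 0) rfl rfl c_d101 (chk_nw rfl rfl (chk_ts (c := 1) rfl rfl c_d105 c_d119))))) (chk_ts (c := 1) rfl rfl c_d120 (chk_nw rfl rfl (chk_ts (c := 0) rfl rfl (chk_ts (c := 0) rfl rfl c_d126 (chk_ts (c := 1) rfl rfl (chk_ts (c := 0) rfl rfl c_d131 c_d147) c_d156)) (chk_ts (c := 1) rfl rfl (chk_ts (c := 1) rfl rfl c_d161 c_d173) (chk_ts (c := 2) rfl rfl c_d174 (chk_nw rfl rfl (chk_ts (c := 0) rfl rfl c_d182 (chk_ts (c := 1) rfl rfl c_d192 (chk_tp (chk_ts (c := 3) rfl rfl c_d201 c_d210))))))))))) (chk_ts (c := 1) rfl rfl c_d211 (chk_nw rfl rfl (chk_ts (c := 0) rfl rfl (chk_ts (c := 1) rfl rfl (chk_ts (c := 1) rfl rfl (chk_ts (c := 0) rfl rfl c_d218 (chk_ts (c := 2) rfl rfl c_d223 c_d236)) (chk_ts (c := 0) rfl rfl c_d237 (chk_ts (c := 2) rfl rfl c_d238 (chk_nw rfl rfl (chk_ts (c := 0) rfl rfl c_d249 (chk_ts (c := 1) rfl rfl c_d265 (chk_ts (c := 2) rfl rfl c_d281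 c_d297))))))) (chk_ts (c := 2) rfl rfl (chk_ts (c := 1) rfl rfl (chk_ts (c := 0) rfl rfl c_d302 (chk_ts (c := 2) rfl rfl c_d307 c_d320)) (chk_ts (c := 2) rfl rfl (chk_ts (c := 0) rfl rfl c_d327 (chk_ts (c := 1) rfl rfl c_d334 c_d347)) (chk_ts (c := 0) rfl rfl c_d348 (chk_nw rfl rfl (chk_ts (c := 0) rfl rfl c_d357 (chk_ts (c := 1) rfl rfl c_d373 (chk_ts (c := 2) rfl rfl c_d389 c_d404))))))) (chk_ts (c := 0) rfl rfl c_d405 (chk_nw rfl rfl (chk_ts (c := 1) rfl rfl (chk_ts (c := 0) rfl rfl c_d417 (chk_ts (c := 2) rfl rfl c_d429 (chk_ts (c := 3) rfl rfl c_d443 c_d458))) (chk_ts (c := 2) rfl rfl (chk_ts (c := 0) rfl rfl c_d470 (chk_ts (c := 1) rfl rfl c_d485 (chk_ts (c := 3) rfl rfl c_d499 c_d514))) (chk_ts (c := 3) rfl rfl (chk_ts (c := 0) rfl rfl c_d527 (chk_ts (c := 1) rfl rfl c_d543 (chk_ts (c := 2) rfl rfl c_d560 c_d576))) (chk_ts (c := 0) rfl rfl c_d577 (chk_nw rfl rfl (chk_ts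 (c := 0) rfl rfl c_d588 (chk_ts (c := 1) rfl rfl c_d605 (chk_ts (c := 2) rfl rfl c_d622 c_d637)))))))))))) (chk_ts (c := 2) rfl rfl (chk_ts (c := 0) rfl rfl (chk_ts (c := 0) rfl rfl c_d643 (chk_ts (c := 1) rfl rfl (chk_ts (c := 0) rfl rfl c_d650 c_d665) c_d674)) (chk_ts (c := 1) rfl rfl (chk_ts (c := 0) rfl rfl c_d679 (chk_ts (c := 1) rfl rfl c_d684 c_d696)) (chk_ts (c := 2) rfl rfl c_d697 (chk_nw rfl rfl (chk_ts (c := 0) rfl rfl c_d706 (chk_tp (chk_ts (c := 1) rfl rfl c_d714 (chk_ts (c := 3) rfl rfl c_d723 c_d732)))))))) (chk_ts (c := 1) rfl rfl c_d733 (chk_nw rfl rfl (chk_ts (c := 0) rfl rfl (chk_ts (c := 0) rfl rfl c_d742 (chk_ts (c := 1) rfl rfl (chk_ts (c := 0) rfl rfl c_d757 (chk_ts (c := 2) rfl rfl c_d767 (chk_ts (c := 3) rfl rfl c_d779 c_d794))) (chk_tp (chk_ts (c := 2) rfl rfl c_d802 c_d811)))) (chk_ts (c := 1) rfl rfl (chk_ts (c := 0) rfl rfl c_d819 (chk_ts (c :=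 1) rfl rfl c_d827 c_d840)) (chk_ts (c := 2) rfl rfl (chk_ts (c := 0) rfl rfl c_d851 (chk_tp (chk_ts (c := 1) rfl rfl c_d859 (chk_ts (c := 2) rfl rfl c_d868 c_d878)))) (chk_ts (c := 3) rfl rfl c_d879 (chk_nw rfl rfl (chk_ts (c := 0) rfl rfl c_d889 (chk_ts (c := 1) rfl rfl c_d900 (chk_tp (chk_ts (c := 2) rfl rfl c_d909 c_d919)))))))))))))))))))

end Pool.Agent.H188.Seq
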