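import Pool.Agent.H188.Seq.Tree

namespace Pool.Agent.H188.Seq

def d0 : T := (T.im (nat_lit 1) (nat_lit 1))
def d1 : T := (T.ts (nat_lit 0) (T.ts (nat_lit 2) (T.ts (nat_lit 2) (T.ls (nat_lit 3) (nat_lit 4)) (T.ts (nat_lit 1) (T.ls (nat_lit 2) (nat_lit 3)) (T.ts (nat_lit 0) (T.im (nat_lit 5) (nat_lit 3)) (T.nw (T.ls (nat_lit 2) (nat_lit 4)))))) (T.ts (nat_lit 1) (T.ts (nat_lit 2) (T.ls (nat_lit 2) (nat_lit 3)) (T.ts (nat_lit 1) (T.ls (nat_lit 2) (nat_lit 3)) (T.ts (nat_lit 0) (T.im (nat_lit 7) (nat_lit 2)) (T.nw (T.ls (nat_lit 2) (nat_lit 4)))))) (T.ts (nat_lit 0) (T.im (nat_lit 7) (nat_lit 1)) (T.nw (T.ts (nat_lit 3) (T.ls (nat_lit 2) (nat_lit 4)) (T.ts (nat_lit 2) (T.ls (nat_lit 2) (nat_lit 3)) (T.ts (nat_lit 0) (T.ls (nat_lit 2) (nat_lit 4)) (T.ts (nat_lit 1) (T.im (nat_lit 7) (nat_lit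 2)) (T.nw (T.ls (nat_lit 2) (nat_lit 3))))))))))) (T.ts (nat_lit 2) (T.im (nat_lit 5) (nat_lit 2)) (T.nw (T.ts (nat_lit 3) (T.ts (nat_lit 3) (T.ls (nat_lit 2) (nat_lit 4)) (T.ts (nat_lit 2) (T.ls (nat_lit 2) (nat_lit 3)) (T.ts (nat_lit 1) (T.im (nat_lit 5) (nat_lit 3)) (T.ts (nat_lit 0) (T.im (nat_lit 7) (nat_lit 2)) (T.nw (T.ls (nat_lit 2) (nat_lit 3))))))) (T.ts (nat_lit 2) (T.ts (nat_lit 3) (T.ls (nat_lit 2) (nat_lit 3)) (T.ts (nat_lit 2) (T.ls (nat_lit 2) (nat_lit 3)) (T.ts (nat_lit 1) (T.ls (nat_lit 3) (nat_lit 4)) (T.ts (nat_lit 0) (T.im (nat_lit 7) (nat_lit 2)) (T.nw (T.ls (nat_lit 2) (nat_lit 3))))))) (T.ts (nat_lit 1) (T.ts (nat_lit 3) (T.ls (nat_lit 3) (nat_lit 4)) (T.ts (nat_lit 2) (T.ls (nat_lit 2) (nat_lit 3)) (T.ts (nat_lit 1) (T.ls (nat_lit 3) (nat_lit 4)) (T.ts (nat_lit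 0) (T.im (nat_lit 7) (nat_lit 2)) (T.nw (T.ls (nat_lit 2) (nat_lit 3))))))) (T.ts (nat_lit 0) (T.im (nat_lit 7) (nat_lit 1)) (T.nw (T.ts (nat_lit 4) (T.ls (nat_lit 2) (nat_lit 3)) (T.ts (nat_lit 3) (T.ls (nat_lit 2) (nat_lit 3)) (T.ts (nat_lit 2) (T.ls (nat_lit 3) (nat_lit 4)) (T.ts (nat_lit 0) (T.ls (nat_lit 2) (nat_lit 3)) (T.ts (nat_lit 1) (T.im (nat_lit 7) (nat_lit 2)) T.ie)))))))))))))
def d2 : T := (T.ts (nat_lit 0) (T.ts (nat_lit 1) (T.im (nat_lit 3) (nat_lit 3)) (T.ts (nat_lit 0) (T.im (nat_lit 1) (nat_lit 4)) (T.nw (T.ts (nat_lit 2) (T.ts (nat_lit 2) (T.ls (nat_lit 3) (nat_lit 4)) (T.ts (nat_lit 1) (T.im (nat_lit 5) (nat_lit 3)) (T.ts (nat_lit 0) (T.im (nat_lit 7) (nat_lit 2)) (T.nw (T.ls (nat_lit 2) (nat_lit 4)))))) (T.ts (nat_lit 1) (T.ts (nat_lit 2) (T.ls (nat_lit 2) (nat_lit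 3)) (T.ts (nat_lit 1) (T.ls (nat_lit 2) (nat_lit 3)) (T.ts (nat_lit 0) (T.im (nat_lit 7) (nat_lit 2)) (T.nw (T.ls (nat_lit 2) (nat_lit 4)))))) (T.ts (nat_lit 0) (T.im (nat_lit 7) (nat_lit 1)) (T.nw (T.ts (nat_lit 3) (T.ls (nat_lit 2) (nat_lit 4)) (T.ts (nat_lit 2) (T.ls (nat_lit 2) (nat_lit 3)) (T.ts (nat_lit 0) (T.ls (nat_lit 2) (nat_lit 4)) (T.ts (nat_lit 1) (T.im (nat_lit 7) (nat_lit 2)) (T.nw (T.ls (nat_lit 2) (nat_lit 3)))))))))))))) (T.ts (nat_lit 1) (T.im (nat_lit 5) (nat_lit 1)) (T.nw (T.ts (nat_lit 1) (T.ts (nat_lit 2) (T.ts (nat_lit 2) (T.im (nat_lit 3) (nat_lit 4)) (T.ts (nat_lit 1) (T.im (nat_lit 7) (nat_lit 2)) (T.ts (nat_lit 0) (T.im (nat_lit 5) (nat_lit 3)) (T.nw (T.ls (nat_lit 2) (nat_lit 4)))))) (T.ts (nat_lit 0) (T.ts (nat_lit 2) (T.ls (nat_lit 3) (nat_lit 4)) (T.ts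 (nat_lit 0) (T.ls (nat_lit 3) (nat_lit 4)) (T.ts (nat_lit 1) (T.im (nat_lit 7) (nat_lit 2)) (T.nw (T.ls (nat_lit 2) (nat_lit 4)))))) (T.ts (nat_lit 1) (T.im (nat_lit 7) (nat_lit 1)) (T.nw (T.ts (nat_lit 3) (T.ls (nat_lit 2) (nat_lit 4)) (T.ts (nat_lit 1) (T.ls (nat_lit 3) (nat_lit 4)) (T.ts (nat_lit 0) (T.ls (nat_lit 2) (nat_lit 4)) (T.ts (nat_lit 2) (T.im (nat_lit 7) (nat_lit 2)) (T.nw (T.ls (nat_lit 2) (nat_lit 3))))))))))) d1))))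
def d3 : T := (T.ts (nat_lit 1) (T.ts (nat_lit 2) (T.ts (nat_lit 2) (T.ls (nat_lit 2) (nat_lit 3)) (T.ts (nat_lit 1) (T.im (nat_lit 7) (nat_lit 2)) (T.ts (nat_lit 0) (T.im (nat_lit 3) (nat_lit 4)) (T.nw (T.ls (nat_lit 1) (nat_lit 2)))))) (T.ts (nat_lit 0) (T.ts (nat_lit 0) (T.ls (nat_lit 1) (nat_lit 3)) (T.ts (nat_lit 2) (T.im (nat_lit 5) (nat_lit 3)) (T.ts (nat_lit 1) (T.im (nat_lit 7) (nat_lit 2)) (T.nw (T.ls (nat_lit 1) (nat_lit 2)))))) (T.ts (nat_lit 1) (T.im (nat_lit 7) (nat_lit 1)) (T.nw (T.ts (nat_lit 3) (T.ls (nat_lit 1) (nat_lit 2)) (T.ts (nat_lit 1) (T.ls (nat_lit 1) (nat_lit 3)) (T.ts (nat_lit 0) (T.ls (nat_lit 1) (nat_lit 2)) (T.ts (nat_lit 2) (T.im (nat_lit 7) (nat_lit 2)) (T.nw (T.ls (nat_lit 1) (nat_lit 2))))))))))) (T.ts (nat_lit 0) (T.im (nat_lit 5) (nat_lit 2)) (T.nw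 (T.ts (nat_lit 3) (T.ts (nat_lit 3) (T.ls (nat_lit 1) (nat_lit 2)) (T.ts (nat_lit 2) (T.ls (nat_lit 2) (nat_lit 3)) (T.ts (nat_lit 1) (T.ls (nat_lit 1) (nat_lit 3)) (T.ts (nat_lit 0) (T.im (nat_lit 7) (nat_lit 2)) (T.nw (T.ls (nat_lit 1) (nat_lit 2))))))) (T.ts (nat_lit 2) (T.ts (nat_lit 3) (T.ls (nat_lit 2) (nat_lit 3)) (T.ts (nat_lit 2) (T.ls (nat_lit 2) (nat_lit 3)) (T.ts (nat_lit 1) (T.ls (nat_lit 1) (nat_lit 3)) (T.ts (nat_lit 0) (T.im (nat_lit 7) (nat_lit 2)) (T.nw (T.ls (nat_lit 1) (nat_lit 2))))))) (T.ts (nat_lit 1) (T.ts (nat_lit 2) (T.ls (nat_lit 2) (nat_lit 3)) (T.ts (nat_lit 1) (T.ls (nat_lit 1) (nat_lit 3)) (T.ts (nat_lit 3) (T.im (nat_lit 5) (nat_lit 3)) (T.ts (nat_lit 0) (T.im (nat_lit 7) (nat_lit 2)) (T.nw (T.ls (nat_lit 1) (nat_lit 2))))))) (T.ts (nat_lit 0) (T.im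 (nat_lit 7) (nat_lit 1)) (T.nw (T.ts (nat_lit 4) (T.ls (nat_lit 1) (nat_lit 2)) (T.ts (nat_lit 3) (T.ls (nat_lit 2) (nat_lit 3)) (T.ts (nat_lit 2) (T.ls (nat_lit 1) (nat_lit 3)) (T.ts (nat_lit 0) (T.ls (nat_lit 1) (nat_lit 2)) (T.ts (nat_lit 1) (T.im (nat_lit 7) (nat_lit 2)) T.ie)))))))))))))
def d4 : T := (T.ts (nat_lit 1) (T.ts (nat_lit 2) (T.ts (nat_lit 2) (T.ls (nat_lit 2) (nat_lit 3)) (T.ts (nat_lit 1) (T.im (nat_lit 7) (nat_lit 2)) (T.ts (nat_lit 0) (T.im (nat_lit 3) (nat_lit 4)) (T.nw (T.ls (nat_lit 1) (nat_lit 2)))))) (T.ts (nat_lit 0) (T.ts (nat_lit 2) (T.ls (nat_lit 1) (nat_lit 3)) (T.ts (nat_lit 0) (T.ls (nat_lit 1) (nat_lit 3)) (T.ts (nat_lit 1) (T.im (nat_lit 5) (nat_lit 3)) (T.nw (T.ls (nat_lit 1) (nat_lit 2)))))) (T.ts (nat_lit 1) (T.im (nat_lit 7) (nat_lit 1)) (T.nw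 (T.ts (nat_lit 3) (T.ls (nat_lit 1) (nat_lit 2)) (T.ts (nat_lit 1) (T.ls (nat_lit 1) (nat_lit 3)) (T.ts (nat_lit 0) (T.ls (nat_lit 1) (nat_lit 2)) (T.ts (nat_lit 2) (T.im (nat_lit 7) (nat_lit 2)) (T.nw (T.ls (nat_lit 1) (nat_lit 2))))))))))) (T.ts (nat_lit 2) (T.im (nat_lit 3) (nat_lit 3)) (T.ts (nat_lit 0) (T.im (nat_lit 5) (nat_lit 2)) (T.nw (T.ts (nat_lit 3) (T.ts (nat_lit 3) (T.ls (nat_lit 1) (nat_lit 2)) (T.ts (nat_lit 2) (T.ls (nat_lit 2) (nat_lit 3)) (T.ts (nat_lit 1) (T.ls (nat_lit 1) (nat_lit 3)) (T.ts (nat_lit 0) (T.im (nat_lit 7) (nat_lit 2)) (T.nw (T.ls (nat_lit 1) (nat_lit 2))))))) (T.ts (nat_lit 2) (T.ts (nat_lit 3) (T.ls (nat_lit 2) (nat_lit 3)) (T.ts (nat_lit 2) (T.ls (nat_lit 2) (nat_lit 3)) (T.ts (nat_lit 1) (T.ls (nat_lit 1) (nat_lit 3)) (T.ts (nat_lit 0) (T.im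 (nat_lit 7) (nat_lit 2)) (T.nw (T.ls (nat_lit 1) (nat_lit 2))))))) (T.ts (nat_lit 1) (T.ts (nat_lit 3) (T.ls (nat_lit 1) (nat_lit 3)) (T.ts (nat_lit 1) (T.ls (nat_lit 1) (nat_lit 3)) (T.ts (nat_lit 2) (T.im (nat_lit 5) (nat_lit 3)) (T.ts (nat_lit 0) (T.im (nat_lit 7) (nat_lit 2)) (T.nw (T.ls (nat_lit 1) (nat_lit 2))))))) (T.ts (nat_lit 0) (T.im (nat_lit 7) (nat_lit 1)) (T.nw (T.ts (nat_lit 4) (T.ls (nat_lit 1) (nat_lit 2)) (T.ts (nat_lit 3) (T.ls (nat_lit 2) (nat_lit 3)) (T.ts (nat_lit 2) (T.ls (nat_lit 1) (nat_lit 3)) (T.ts (nat_lit 0) (T.ls (nat_lit 1) (nat_lit 2)) (T.ts (nat_lit 1) (T.im (nat_lit 7) (nat_lit 2)) T.ie))))))))))))))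
def d5 : T := (T.ts (nat_lit 0) (T.ts (nat_lit 3) (T.ts (nat_lit 3) (T.ls (nat_lit 1) (nat_lit 2)) (T.ts (nat_lit 2) (T.ls (nat_lit 2) (nat_lit 3)) (T.ts (nat_lit 1) (T.ls (nat_lit 1) (nat_lit 3)) (T.ts (nat_lit 0) (T.im (nat_lit 7) (nat_lit 2)) (T.nw (T.ls (nat_lit 1) (nat_lit 2))))))) (T.ts (nat_lit 2) (T.ts (nat_lit 3) (T.ls (nat_lit 2) (nat_lit 3)) (T.ts (nat_lit 2) (T.ls (nat_lit 2) (nat_lit 3)) (T.ts (nat_lit 1) (T.ls (nat_lit 1) (nat_lit 3)) (T.ts (nat_lit 0) (T.im (nat_lit 7) (nat_lit 2)) (T.nw (T.ls (nat_lit 1) (nat_lit 2))))))) (T.ts (nat_lit 1) (T.ts (nat_lit 3) (T.ls (nat_lit 1) (nat_lit 3)) (T.ts (nat_lit 2) (T.ls (nat_lit 2) (nat_lit 3)) (T.ts (nat_lit 1) (T.ls (nat_lit 1) (nat_lit 3)) (T.ts (nat_lit 0) (T.im (nat_lit 5) (nat_lit 3)) (T.nw (T.ls (nat_lit 1) (nat_lit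 2))))))) (T.ts (nat_lit 0) (T.im (nat_lit 7) (nat_lit 1)) (T.nw (T.ts (nat_lit 4) (T.ls (nat_lit 1) (nat_lit 2)) (T.ts (nat_lit 3) (T.ls (nat_lit 2) (nat_lit 3)) (T.ts (nat_lit 2) (T.ls (nat_lit 1) (nat_lit 3)) (T.ts (nat_lit 0) (T.ls (nat_lit 1) (nat_lit 2)) (T.ts (nat_lit 1) (T.im (nat_lit 7) (nat_lit 2)) T.ie)))))))))) (T.ts (nat_lit 1) (T.im (nat_lit 5) (nat_lit 2)) (T.nw (T.ts (nat_lit 4) (T.ts (nat_lit 4) (T.ls (nat_lit 1) (nat_lit 2)) (T.ts (nat_lit 3) (T.ls (nat_lit 2) (nat_lit 3)) (T.ts (nat_lit 2) (T.ls (nat_lit 1) (nat_lit 3)) (T.ts (nat_lit 1) (T.ls (nat_lit 1) (nat_lit 2)) (T.ts (nat_lit 0) (T.im (nat_lit 7) (nat_lit 2)) T.ie))))) (T.ts (nat_lit 3) (T.ts (nat_lit 4) (T.ls (nat_lit 2) (nat_lit 3)) (T.ts (nat_lit 3) (T.ls (nat_lit 2) (nat_lit 3)) (T.ts (nat_lit 2) (T.ls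 (nat_lit 1) (nat_lit 3)) (T.ts (nat_lit 1) (T.ls (nat_lit 1) (nat_lit 2)) (T.ts (nat_lit 0) (T.im (nat_lit 7) (nat_lit 2)) T.ie))))) (T.ts (nat_lit 2) (T.ts (nat_lit 4) (T.ls (nat_lit 1) (nat_lit 3)) (T.ts (nat_lit 3) (T.ls (nat_lit 2) (nat_lit 3)) (T.ts (nat_lit 2) (T.ls (nat_lit 1) (nat_lit 3)) (T.ts (nat_lit 1) (T.im (nat_lit 5) (nat_lit 3)) (T.ts (nat_lit 0) (T.im (nat_lit 7) (nat_lit 2)) T.ie))))) (T.ts (nat_lit 1) (T.ts (nat_lit 4) (T.ls (nat_lit 1) (nat_lit 2)) (T.ts (nat_lit 3) (T.ls (nat_lit 2) (nat_lit 3)) (T.ts (nat_lit 2) (T.ls (nat_lit 1) (nat_lit 3)) (T.ts (nat_lit 1) (T.ls (nat_lit 1) (nat_lit 2)) (T.ts (nat_lit 0) (T.im (nat_lit 7) (nat_lit 2)) T.ie))))) (T.ts (nat_lit 0) (T.im (nat_lit 7) (nat_lit 1)) T.ie))))))))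
def d6 : T := (T.ts (nat_lit 3) (T.ts (nat_lit 2) (T.ts (nat_lit 2) (T.ls (nat_lit 2) (nat_lit 3)) (T.ts (nat_lit 1) (T.ls (nat_lit 1) (nat_lit 3)) (T.ts (nat_lit 0) (T.ls (nat_lit 1) (nat_lit 2)) (T.ts (nat_lit 3) (T.im (nat_lit 7) (nat_lit 2)) (T.nw (T.ls (nat_lit 1) (nat_lit 2))))))) (T.ts (nat_lit 1) (T.ts (nat_lit 2) (T.ls (nat_lit 2) (nat_lit 3)) (T.ts (nat_lit 1) (T.ls (nat_lit 1) (nat_lit 3)) (T.ts (nat_lit 3) (T.im (nat_lit 7) (nat_lit 2)) (T.ts (nat_lit 0) (T.im (nat_lit 5) (nat_lit 3)) (T.nw (T.ls (nat_lit 1) (nat_lit 2))))))) (T.ts (nat_lit 0) (T.ts (nat_lit 2) (T.ls (nat_lit 2) (nat_lit 3)) (T.ts (nat_lit 1) (T.ls (nat_lit 1) (nat_lit 3)) (T.ts (nat_lit 0) (T.ls (nat_lit 1) (nat_lit 2)) (T.ts (nat_lit 3) (T.im (nat_lit 7) (nat_lit 2)) (T.nw (T.ls (nat_lit 1) (nat_lit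 2))))))) (T.ts (nat_lit 3) (T.im (nat_lit 7) (nat_lit 1)) (T.nw (T.ts (nat_lit 3) (T.ls (nat_lit 2) (nat_lit 3)) (T.ts (nat_lit 2) (T.ls (nat_lit 1) (nat_lit 3)) (T.ts (nat_lit 1) (T.ls (nat_lit 1) (nat_lit 2)) (T.ts (nat_lit 0) (T.ls (nat_lit 1) (nat_lit 2)) (T.ts (nat_lit 4) (T.im (nat_lit 7) (nat_lit 2)) T.ie)))))))))) (T.ts (nat_lit 2) (T.ts (nat_lit 3) (T.ts (nat_lit 3) (T.ls (nat_lit 2) (nat_lit 3)) (T.ts (nat_lit 0) (T.ls (nat_lit 1) (nat_lit 2)) (T.ts (nat_lit 2) (T.im (nat_lit 7) (nat_lit 2)) (T.ts (nat_lit 1) (T.im (nat_lit 3) (nat_lit 4)) (T.nw (T.ls (nat_lit 1) (nat_lit 2))))))) (T.ts (nat_lit 1) (T.ts (nat_lit 3) (T.ls (nat_lit 1) (nat_lit 3)) (T.ts (nat_lit 1) (T.ls (nat_lit 1) (nat_lit 3)) (T.ts (nat_lit 2) (T.im (nat_lit 7) (nat_lit 2)) (T.ts (nat_lit 0) (T.im (nat_lit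 5) (nat_lit 3)) (T.nw (T.ls (nat_lit 1) (nat_lit 2))))))) (T.ts (nat_lit 0) (T.ts (nat_lit 3) (T.ls (nat_lit 1) (nat_lit 2)) (T.ts (nat_lit 1) (T.ls (nat_lit 1) (nat_lit 3)) (T.ts (nat_lit 0) (T.ls (nat_lit 1) (nat_lit 2)) (T.ts (nat_lit 2) (T.im (nat_lit 7) (nat_lit 2)) (T.nw (T.ls (nat_lit 1) (nat_lit 2))))))) (T.ts (nat_lit 2) (T.im (nat_lit 7) (nat_lit 1)) (T.nw (T.ts (nat_lit 4) (T.ls (nat_lit 1) (nat_lit 2)) (T.ts (nat_lit 2) (T.ls (nat_lit 1) (nat_lit 3)) (T.ts (nat_lit 1) (T.ls (nat_lit 1) (nat_lit 2)) (T.ts (nat_lit 0) (T.ls (nat_lit 1) (nat_lit 2)) (T.ts (nat_lit 3) (T.im (nat_lit 7) (nat_lit 2)) T.ie)))))))))) d5))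
def d7 : T := (T.ts (nat_lit 1) d2 (T.ts (nat_lit 0) (T.im (nat_lit 1) (nat_lit 3)) (T.nw (T.ts (nat_lit 2) (T.ts (nat_lit 2) (T.ts (nat_lit 1) (T.ts (nat_lit 1) (T.ls (nat_lit 3) (nat_lit 4)) (T.ts (nat_lit 0) (T.ls (nat_lit 1) (nat_lit 3)) (T.ts (nat_lit 2) (T.im (nat_lit 7) (nat_lit 2)) (T.nw (T.ls (nat_lit 1) (nat_lit 2)))))) (T.ts (nat_lit 0) (T.ts (nat_lit 1) (T.ls (nat_lit 2) (nat_lit 3)) (T.ts (nat_lit 0) (T.ls (nat_lit 1) (nat_lit 3)) (T.ts (nat_lit 2) (T.im (nat_lit 5) (nat_lit 3)) (T.nw (T.ls (nat_lit 1) (nat_lit 2)))))) (T.ts (nat_lit 2) (T.im (nat_lit 7) (nat_lit 1)) (T.nw (T.ts (nat_lit 2) (T.ls (nat_lit 2) (nat_lit 3)) (T.ts (nat_lit 1) (T.ls (nat_lit 1) (nat_lit 3)) (T.ts (nat_lit 0) (T.ls (nat_lit 1) (nat_lit 2)) (T.ts (nat_lit 3) (T.im (nat_lit 7) (nat_lit 2)) (T.nw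 (T.ls (nat_lit 1) (nat_lit 2))))))))))) d3) (T.ts (nat_lit 1) d4 (T.ts (nat_lit 0) (T.im (nat_lit 5) (nat_lit 1)) (T.nw d6)))))))
def d8 : T := (T.im (nat_lit 3) (nat_lit 1))
def d9 : T := (T.ts (nat_lit 0) (T.ts (nat_lit 2) (T.ts (nat_lit 2) (T.ls (nat_lit 1) (nat_lit 3)) (T.ts (nat_lit 1) (T.ls (nat_lit 2) (nat_lit 3)) (T.ts (nat_lit 0) (T.im (nat_lit 5) (nat_lit 3)) (T.nw (T.ls (nat_lit 1) (nat_lit 2)))))) (T.ts (nat_lit 1) (T.ts (nat_lit 2) (T.ls (nat_lit 2) (nat_lit 3)) (T.ts (nat_lit 1) (T.ls (nat_lit 2) (nat_lit 3)) (T.ts (nat_lit 0) (T.im (nat_lit 7) (nat_lit 2)) (T.nw (T.ls (nat_lit 1) (nat_lit 2)))))) (T.ts (nat_lit 0) (T.im (nat_lit 7) (nat_lit 1)) (T.nw (T.ts (nat_lit 3) (T.ls (nat_lit 1) (nat_lit 2)) (T.ts (nat_lit 2) (T.ls (nat_lit 2) (nat_lit 3)) (T.ts (nat_lit 0) (T.ls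 (nat_lit 1) (nat_lit 2)) (T.ts (nat_lit 1) (T.im (nat_lit 7) (nat_lit 2)) (T.nw (T.ls (nat_lit 1) (nat_lit 2))))))))))) (T.ts (nat_lit 2) (T.im (nat_lit 5) (nat_lit 2)) (T.nw (T.ts (nat_lit 3) (T.ts (nat_lit 3) (T.ls (nat_lit 1) (nat_lit 2)) (T.ts (nat_lit 2) (T.ls (nat_lit 2) (nat_lit 3)) (T.ts (nat_lit 1) (T.im (nat_lit 5) (nat_lit 3)) (T.ts (nat_lit 0) (T.im (nat_lit 7) (nat_lit 2)) (T.nw (T.ls (nat_lit 1) (nat_lit 2))))))) (T.ts (nat_lit 2) (T.ts (nat_lit 3) (T.ls (nat_lit 2) (nat_lit 3)) (T.ts (nat_lit 2) (T.ls (nat_lit 2) (nat_lit 3)) (T.ts (nat_lit 1) (T.ls (nat_lit 1) (nat_lit 3)) (T.ts (nat_lit 0) (T.im (nat_lit 7) (nat_lit 2)) (T.nw (T.ls (nat_lit 1) (nat_lit 2))))))) (T.ts (nat_lit 1) (T.ts (nat_lit 3) (T.ls (nat_lit 1) (nat_lit 3)) (T.ts (nat_lit 2) (T.ls (nat_lit 2) (nat_lit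 3)) (T.ts (nat_lit 1) (T.ls (nat_lit 1) (nat_lit 3)) (T.ts (nat_lit 0) (T.im (nat_lit 7) (nat_lit 2)) (T.nw (T.ls (nat_lit 1) (nat_lit 2))))))) (T.ts (nat_lit 0) (T.im (nat_lit 7) (nat_lit 1)) (T.nw (T.ts (nat_lit 4) (T.ls (nat_lit 1) (nat_lit 2)) (T.ts (nat_lit 3) (T.ls (nat_lit 2) (nat_lit 3)) (T.ts (nat_lit 2) (T.ls (nat_lit 1) (nat_lit 3)) (T.ts (nat_lit 0) (T.ls (nat_lit 1) (nat_lit 2)) (T.ts (nat_lit 1) (T.im (nat_lit 7) (nat_lit 2)) T.ie)))))))))))))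
def d10 : T := (T.ts (nat_lit 0) (T.ts (nat_lit 3) (T.ts (nat_lit 3) (T.ls (nat_lit 1) (nat_lit 2)) (T.ts (nat_lit 2) (T.ls (nat_lit 2) (nat_lit 3)) (T.ts (nat_lit 1) (T.ls (nat_lit 1) (nat_lit 3)) (T.ts (nat_lit 0) (T.im (nat_lit 5) (nat_lit 3)) (T.nw (T.ls (nat_lit 1) (nat_lit 2))))))) (T.ts (nat_lit 2) (T.ts (nat_lit 3) (T.ls (nat_lit 2) (nat_lit 3)) (T.ts (nat_lit 2) (T.ls (nat_lit 2) (nat_lit 3)) (T.ts (nat_lit 1) (T.ls (nat_lit 1) (nat_lit 3)) (T.ts (nat_lit 0) (T.im (nat_lit 7) (nat_lit 2)) (T.nw (T.ls (nat_lit 1) (nat_lit 2))))))) (T.ts (nat_lit 1) (T.ts (nat_lit 3) (T.ls (nat_lit 1) (nat_lit 3)) (T.ts (nat_lit 2) (T.ls (nat_lit 2) (nat_lit 3)) (T.ts (nat_lit 1) (T.ls (nat_lit 1) (nat_lit 3)) (T.ts (nat_lit 0) (T.im (nat_lit 7) (nat_lit 2)) (T.nw (T.ls (nat_lit 1) (nat_lit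 2))))))) (T.ts (nat_lit 0) (T.im (nat_lit 7) (nat_lit 1)) (T.nw (T.ts (nat_lit 4) (T.ls (nat_lit 1) (nat_lit 2)) (T.ts (nat_lit 3) (T.ls (nat_lit 2) (nat_lit 3)) (T.ts (nat_lit 2) (T.ls (nat_lit 1) (nat_lit 3)) (T.ts (nat_lit 0) (T.ls (nat_lit 1) (nat_lit 2)) (T.ts (nat_lit 1) (T.im (nat_lit 7) (nat_lit 2)) T.ie)))))))))) (T.ts (nat_lit 3) (T.im (nat_lit 5) (nat_lit 2)) (T.nw (T.ts (nat_lit 4) (T.ts (nat_lit 4) (T.ls (nat_lit 1) (nat_lit 2)) (T.ts (nat_lit 3) (T.ls (nat_lit 2) (nat_lit 3)) (T.ts (nat_lit 2) (T.ls (nat_lit 1) (nat_lit 3)) (T.ts (nat_lit 1) (T.im (nat_lit 5) (nat_lit 3)) (T.ts (nat_lit 0) (T.im (nat_lit 7) (nat_lit 2)) T.ie))))) (T.ts (nat_lit 3) (T.ts (nat_lit 4) (T.ls (nat_lit 2) (nat_lit 3)) (T.ts (nat_lit 3) (T.ls (nat_lit 2) (nat_lit 3)) (T.ts (nat_lit 2) (T.ls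 (nat_lit 1) (nat_lit 3)) (T.ts (nat_lit 1) (T.ls (nat_lit 1) (nat_lit 2)) (T.ts (nat_lit 0) (T.im (nat_lit 7) (nat_lit 2)) T.ie))))) (T.ts (nat_lit 2) (T.ts (nat_lit 4) (T.ls (nat_lit 1) (nat_lit 3)) (T.ts (nat_lit 3) (T.ls (nat_lit 2) (nat_lit 3)) (T.ts (nat_lit 2) (T.ls (nat_lit 1) (nat_lit 3)) (T.ts (nat_lit 1) (T.ls (nat_lit 1) (nat_lit 2)) (T.ts (nat_lit 0) (T.im (nat_lit 7) (nat_lit 2)) T.ie))))) (T.ts (nat_lit 1) (T.ts (nat_lit 4) (T.ls (nat_lit 1) (nat_lit 2)) (T.ts (nat_lit 3) (T.ls (nat_lit 2) (nat_lit 3)) (T.ts (nat_lit 2) (T.ls (nat_lit 1) (nat_lit 3)) (T.ts (nat_lit 1) (T.ls (nat_lit 1) (nat_lit 2)) (T.ts (nat_lit 0) (T.im (nat_lit 7) (nat_lit 2)) T.ie))))) (T.ts (nat_lit 0) (T.im (nat_lit 7) (nat_lit 1)) T.ie))))))))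
def d11 : T := (T.ts (nat_lit 2) (T.ts (nat_lit 3) (T.ts (nat_lit 3) (T.ls (nat_lit 2) (nat_lit 3)) (T.ts (nat_lit 1) (T.ls (nat_lit 1) (nat_lit 3)) (T.ts (nat_lit 2) (T.im (nat_lit 7) (nat_lit 2)) (T.ts (nat_lit 0) (T.im (nat_lit 5) (nat_lit 3)) (T.nw (T.ls (nat_lit 1) (nat_lit 2))))))) (T.ts (nat_lit 1) (T.ts (nat_lit 1) (T.ls (nat_lit 1) (nat_lit 3)) (T.ts (nat_lit 0) (T.ls (nat_lit 1) (nat_lit 2)) (T.ts (nat_lit 3) (T.im (nat_lit 3) (nat_lit 4)) (T.ts (nat_lit 2) (T.im (nat_lit 7) (nat_lit 2)) (T.nw (T.ls (nat_lit 1) (nat_lit 2))))))) (T.ts (nat_lit 0) (T.ts (nat_lit 3) (T.ls (nat_lit 1) (nat_lit 2)) (T.ts (nat_lit 1) (T.ls (nat_lit 1) (nat_lit 3)) (T.ts (nat_lit 0) (T.ls (nat_lit 1) (nat_lit 2)) (T.ts (nat_lit 2) (T.im (nat_lit 7) (nat_lit 2)) (T.nw (T.ls (nat_lit 1) (nat_lit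 2))))))) (T.ts (nat_lit 2) (T.im (nat_lit 7) (nat_lit 1)) (T.nw (T.ts (nat_lit 4) (T.ls (nat_lit 1) (nat_lit 2)) (T.ts (nat_lit 2) (T.ls (nat_lit 1) (nat_lit 3)) (T.ts (nat_lit 1) (T.ls (nat_lit 1) (nat_lit 2)) (T.ts (nat_lit 0) (T.ls (nat_lit 1) (nat_lit 2)) (T.ts (nat_lit 3) (T.im (nat_lit 7) (nat_lit 2)) T.ie)))))))))) (T.ts (nat_lit 1) (T.ts (nat_lit 3) (T.ts (nat_lit 3) (T.ls (nat_lit 1) (nat_lit 3)) (T.ts (nat_lit 2) (T.ls (nat_lit 2) (nat_lit 3)) (T.ts (nat_lit 1) (T.im (nat_lit 7) (nat_lit 2)) (T.ts (nat_lit 0) (T.im (nat_lit 5) (nat_lit 3)) (T.nw (T.ls (nat_lit 1) (nat_lit 2))))))) (T.ts (nat_lit 2) (T.ts (nat_lit 3) (T.ls (nat_lit 2) (nat_lit 3)) (T.ts (nat_lit 2) (T.ls (nat_lit 2) (nat_lit 3)) (T.ts (nat_lit 0) (T.ls (nat_lit 1) (nat_lit 2)) (T.ts (nat_lit 1) (T.im (nat_lit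 7) (nat_lit 2)) (T.nw (T.ls (nat_lit 1) (nat_lit 2))))))) (T.ts (nat_lit 0) (T.ts (nat_lit 3) (T.ls (nat_lit 1) (nat_lit 2)) (T.ts (nat_lit 2) (T.ls (nat_lit 2) (nat_lit 3)) (T.ts (nat_lit 0) (T.ls (nat_lit 1) (nat_lit 2)) (T.ts (nat_lit 1) (T.im (nat_lit 7) (nat_lit 2)) (T.nw (T.ls (nat_lit 1) (nat_lit 2))))))) (T.ts (nat_lit 1) (T.im (nat_lit 7) (nat_lit 1)) (T.nw (T.ts (nat_lit 4) (T.ls (nat_lit 1) (nat_lit 2)) (T.ts (nat_lit 3) (T.ls (nat_lit 2) (nat_lit 3)) (T.ts (nat_lit 1) (T.ls (nat_lit 1) (nat_lit 2)) (T.ts (nat_lit 0) (T.ls (nat_lit 1) (nat_lit 2)) (T.ts (nat_lit 2) (T.im (nat_lit 7) (nat_lit 2)) T.ie)))))))))) d10))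
def d12 : T := (T.ts (nat_lit 1) (T.ts (nat_lit 2) (T.im (nat_lit 5) (nat_lit 2)) (T.ts (nat_lit 1) (T.im (nat_lit 1) (nat_lit 4)) (T.ts (nat_lit 0) (T.im (nat_lit 3) (nat_lit 3)) (T.nw (T.ts (nat_lit 3) (T.ts (nat_lit 3) (T.ls (nat_lit 1) (nat_lit 2)) (T.ts (nat_lit 1) (T.ls (nat_lit 1) (nat_lit 3)) (T.ts (nat_lit 2) (T.im (nat_lit 5) (nat_lit 3)) (T.ts (nat_lit 0) (T.im (nat_lit 7) (nat_lit 2)) (T.nw (T.ls (nat_lit 1) (nat_lit 2))))))) (T.ts (nat_lit 2) (T.ts (nat_lit 3) (T.ls (nat_lit 2) (nat_lit 3)) (T.ts (nat_lit 2) (T.ls (nat_lit 2) (nat_lit 3)) (T.ts (nat_lit 1) (T.ls (nat_lit 1) (nat_lit 3)) (T.ts (nat_lit 0) (T.im (nat_lit 7) (nat_lit 2)) (T.nw (T.ls (nat_lit 1) (nat_lit 2))))))) (T.ts (nat_lit 1) (T.ts (nat_lit 3) (T.ls (nat_lit 1) (nat_lit 3)) (T.ts (nat_lit 2) (T.ls (nat_lit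 2) (nat_lit 3)) (T.ts (nat_lit 1) (T.ls (nat_lit 1) (nat_lit 3)) (T.ts (nat_lit 0) (T.im (nat_lit 7) (nat_lit 2)) (T.nw (T.ls (nat_lit 1) (nat_lit 2))))))) (T.ts (nat_lit 0) (T.im (nat_lit 7) (nat_lit 1)) (T.nw (T.ts (nat_lit 4) (T.ls (nat_lit 1) (nat_lit 2)) (T.ts (nat_lit 3) (T.ls (nat_lit 2) (nat_lit 3)) (T.ts (nat_lit 2) (T.ls (nat_lit 1) (nat_lit 3)) (T.ts (nat_lit 0) (T.ls (nat_lit 1) (nat_lit 2)) (T.ts (nat_lit 1) (T.im (nat_lit 7) (nat_lit 2)) T.ie)))))))))))))) (T.ts (nat_lit 0) (T.ts (nat_lit 1) (T.ts (nat_lit 2) (T.ts (nat_lit 2) (T.ls (nat_lit 2) (nat_lit 3)) (T.ts (nat_lit 1) (T.im (nat_lit 7) (nat_lit 2)) (T.ts (nat_lit 0) (T.im (nat_lit 5) (nat_lit 3)) (T.nw (T.ls (nat_lit 1) (nat_lit 2)))))) (T.ts (nat_lit 0) (T.ts (nat_lit 0) (T.ls (nat_lit 1) (nat_lit 3)) (T.ts (nat_lit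 2) (T.im (nat_lit 3) (nat_lit 4)) (T.ts (nat_lit 1) (T.im (nat_lit 7) (nat_lit 2)) (T.nw (T.ls (nat_lit 1) (nat_lit 2)))))) (T.ts (nat_lit 1) (T.im (nat_lit 7) (nat_lit 1)) (T.nw (T.ts (nat_lit 3) (T.ls (nat_lit 1) (nat_lit 2)) (T.ts (nat_lit 1) (T.ls (nat_lit 1) (nat_lit 3)) (T.ts (nat_lit 0) (T.ls (nat_lit 1) (nat_lit 2)) (T.ts (nat_lit 2) (T.im (nat_lit 7) (nat_lit 2)) (T.nw (T.ls (nat_lit 1) (nat_lit 2))))))))))) d9) (T.ts (nat_lit 2) (T.im (nat_lit 5) (nat_lit 1)) (T.nw d11))))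
def d13 : T := (T.ts (nat_lit 1) (T.ts (nat_lit 2) (T.ts (nat_lit 2) (T.ls (nat_lit 2) (nat_lit 3)) (T.ts (nat_lit 0) (T.ls (nat_lit 1) (nat_lit 3)) (T.ts (nat_lit 1) (T.im (nat_lit 7) (nat_lit 2)) (T.nw (T.ls (nat_lit 1) (nat_lit 2)))))) (T.ts (nat_lit 0) (T.ts (nat_lit 2) (T.im (nat_lit 5) (nat_lit 3)) (T.ts (nat_lit 1) (T.im (nat_lit 7) (nat_lit 2)) (T.ts (nat_lit 0) (T.im (nat_lit 3) (nat_lit 4)) (T.nw (T.ls (nat_lit 1) (nat_lit 2)))))) (T.ts (nat_lit 1) (T.im (nat_lit 7) (nat_lit 1)) (T.nw (T.ts (nat_lit 3) (T.ls (nat_lit 1) (nat_lit 2)) (T.ts (nat_lit 1) (T.ls (nat_lit 1) (nat_lit 3)) (T.ts (nat_lit 0) (T.ls (nat_lit 1) (nat_lit 2)) (T.ts (nat_lit 2) (T.im (nat_lit 7) (nat_lit 2)) (T.nw (T.ls (nat_lit 1) (nat_lit 2))))))))))) (T.ts (nat_lit 0) (T.im (nat_lit 5) (nat_lit 2))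 (T.nw (T.ts (nat_lit 3) (T.ts (nat_lit 3) (T.ls (nat_lit 1) (nat_lit 2)) (T.ts (nat_lit 2) (T.ls (nat_lit 2) (nat_lit 3)) (T.ts (nat_lit 1) (T.ls (nat_lit 1) (nat_lit 3)) (T.ts (nat_lit 0) (T.im (nat_lit 7) (nat_lit 2)) (T.nw (T.ls (nat_lit 1) (nat_lit 2))))))) (T.ts (nat_lit 2) (T.ts (nat_lit 3) (T.ls (nat_lit 2) (nat_lit 3)) (T.ts (nat_lit 2) (T.ls (nat_lit 2) (nat_lit 3)) (T.ts (nat_lit 1) (T.ls (nat_lit 1) (nat_lit 3)) (T.ts (nat_lit 0) (T.im (nat_lit 7) (nat_lit 2)) (T.nw (T.ls (nat_lit 1) (nat_lit 2))))))) (T.ts (nat_lit 1) (T.ts (nat_lit 2) (T.ls (nat_lit 2) (nat_lit 3)) (T.ts (nat_lit 1) (T.ls (nat_lit 1) (nat_lit 3)) (T.ts (nat_lit 3) (T.im (nat_lit 5) (nat_lit 3)) (T.ts (nat_lit 0) (T.im (nat_lit 7) (nat_lit 2)) (T.nw (T.ls (nat_lit 1) (nat_lit 2))))))) (T.ts (nat_lit 0)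 (T.im (nat_lit 7) (nat_lit 1)) (T.nw (T.ts (nat_lit 4) (T.ls (nat_lit 1) (nat_lit 2)) (T.ts (nat_lit 3) (T.ls (nat_lit 2) (nat_lit 3)) (T.ts (nat_lit 2) (T.ls (nat_lit 1) (nat_lit 3)) (T.ts (nat_lit 0) (T.ls (nat_lit 1) (nat_lit 2)) (T.ts (nat_lit 1) (T.im (nat_lit 7) (nat_lit 2)) T.ie)))))))))))))
def d14 : T := (T.ts (nat_lit 1) (T.ts (nat_lit 2) (T.ts (nat_lit 2) (T.ls (nat_lit 2) (nat_lit 3)) (T.ts (nat_lit 0) (T.ls (nat_lit 1) (nat_lit 3)) (T.ts (nat_lit 1) (T.im (nat_lit 7) (nat_lit 2)) (T.nw (T.ls (nat_lit 1) (nat_lit 2)))))) (T.ts (nat_lit 0) (T.ts (nat_lit 2) (T.ls (nat_lit 1) (nat_lit 3)) (T.ts (nat_lit 1) (T.im (nat_lit 5) (nat_lit 3)) (T.ts (nat_lit 0) (T.im (nat_lit 3) (nat_lit 4)) (T.nw (T.ls (nat_lit 1) (nat_lit 2)))))) (T.ts (nat_lit 1) (T.im (nat_lit 7) (nat_lit 1))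 (T.nw (T.ts (nat_lit 3) (T.ls (nat_lit 1) (nat_lit 2)) (T.ts (nat_lit 1) (T.ls (nat_lit 1) (nat_lit 3)) (T.ts (nat_lit 0) (T.ls (nat_lit 1) (nat_lit 2)) (T.ts (nat_lit 2) (T.im (nat_lit 7) (nat_lit 2)) (T.nw (T.ls (nat_lit 1) (nat_lit 2))))))))))) (T.ts (nat_lit 0) (T.im (nat_lit 3) (nat_lit 3)) (T.nw (T.ts (nat_lit 3) (T.ts (nat_lit 3) (T.ls (nat_lit 1) (nat_lit 2)) (T.ts (nat_lit 2) (T.ls (nat_lit 2) (nat_lit 3)) (T.ts (nat_lit 1) (T.ls (nat_lit 1) (nat_lit 3)) (T.ts (nat_lit 0) (T.im (nat_lit 7) (nat_lit 2)) (T.nw (T.ls (nat_lit 1) (nat_lit 2))))))) (T.ts (nat_lit 2) (T.ts (nat_lit 3) (T.ls (nat_lit 2) (nat_lit 3)) (T.ts (nat_lit 2) (T.ls (nat_lit 2) (nat_lit 3)) (T.ts (nat_lit 1) (T.ls (nat_lit 1) (nat_lit 3)) (T.ts (nat_lit 0) (T.im (nat_lit 7) (nat_lit 2)) (T.nw (T.ls (nat_lit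 1) (nat_lit 2))))))) (T.ts (nat_lit 1) (T.ts (nat_lit 3) (T.ls (nat_lit 1) (nat_lit 3)) (T.ts (nat_lit 1) (T.ls (nat_lit 1) (nat_lit 3)) (T.ts (nat_lit 2) (T.im (nat_lit 5) (nat_lit 3)) (T.ts (nat_lit 0) (T.im (nat_lit 7) (nat_lit 2)) (T.nw (T.ls (nat_lit 1) (nat_lit 2))))))) (T.ts (nat_lit 0) (T.im (nat_lit 7) (nat_lit 1)) (T.nw (T.ts (nat_lit 4) (T.ls (nat_lit 1) (nat_lit 2)) (T.ts (nat_lit 3) (T.ls (nat_lit 2) (nat_lit 3)) (T.ts (nat_lit 2) (T.ls (nat_lit 1) (nat_lit 3)) (T.ts (nat_lit 0) (T.ls (nat_lit 1) (nat_lit 2)) (T.ts (nat_lit 1) (T.im (nat_lit 7) (nat_lit 2)) T.ie)))))))))))))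
def d15 : T := (T.ts (nat_lit 0) (T.ts (nat_lit 3) (T.ts (nat_lit 3) (T.ls (nat_lit 1) (nat_lit 2)) (T.ts (nat_lit 2) (T.ls (nat_lit 2) (nat_lit 3)) (T.ts (nat_lit 1) (T.ls (nat_lit 1) (nat_lit 3)) (T.ts (nat_lit 0) (T.im (nat_lit 7) (nat_lit 2)) (T.nw (T.ls (nat_lit 1) (nat_lit 2))))))) (T.ts (nat_lit 2) (T.ts (nat_lit 3) (T.ls (nat_lit 2) (nat_lit 3)) (T.ts (nat_lit 2) (T.ls (nat_lit 2) (nat_lit 3)) (T.ts (nat_lit 1) (T.ls (nat_lit 1) (nat_lit 3)) (T.ts (nat_lit 0) (T.im (nat_lit 7) (nat_lit 2)) (T.nw (T.ls (nat_lit 1) (nat_lit 2))))))) (T.ts (nat_lit 1) (T.ts (nat_lit 3) (T.ls (nat_lit 1) (nat_lit 3)) (T.ts (nat_lit 2) (T.ls (nat_lit 2) (nat_lit 3)) (T.ts (nat_lit 1) (T.ls (nat_lit 1) (nat_lit 3)) (T.ts (nat_lit 0) (T.im (nat_lit 5) (nat_lit 3)) (T.nw (T.ls (nat_lit 1) (nat_lit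 2))))))) (T.ts (nat_lit 0) (T.im (nat_lit 7) (nat_lit 1)) (T.nw (T.ts (nat_lit 4) (T.ls (nat_lit 1) (nat_lit 2)) (T.ts (nat_lit 3) (T.ls (nat_lit 2) (nat_lit 3)) (T.ts (nat_lit 2) (T.ls (nat_lit 1) (nat_lit 3)) (T.ts (nat_lit 0) (T.ls (nat_lit 1) (nat_lit 2)) (T.ts (nat_lit 1) (T.im (nat_lit 7) (nat_lit 2)) T.ie)))))))))) (T.ts (nat_lit 1) (T.im (nat_lit 5) (nat_lit 2)) (T.nw (T.ts (nat_lit 4) (T.ts (nat_lit 4) (T.ls (nat_lit 1) (nat_lit 2)) (T.ts (nat_lit 3) (T.ls (nat_lit 2) (nat_lit 3)) (T.ts (nat_lit 2) (T.ls (nat_lit 1) (nat_lit 3)) (T.ts (nat_lit 1) (T.ls (nat_lit 1) (nat_lit 2)) (T.ts (nat_lit 0) (T.im (nat_lit 7) (nat_lit 2)) T.ie))))) (T.ts (nat_lit 3) (T.ts (nat_lit 4) (T.ls (nat_lit 2) (nat_lit 3)) (T.ts (nat_lit 3) (T.ls (nat_lit 2) (nat_lit 3)) (T.ts (nat_lit 2) (T.ls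 (nat_lit 1) (nat_lit 3)) (T.ts (nat_lit 1) (T.ls (nat_lit 1) (nat_lit 2)) (T.ts (nat_lit 0) (T.im (nat_lit 7) (nat_lit 2)) T.ie))))) (T.ts (nat_lit 2) (T.ts (nat_lit 4) (T.ls (nat_lit 1) (nat_lit 3)) (T.ts (nat_lit 3) (T.ls (nat_lit 2) (nat_lit 3)) (T.ts (nat_lit 2) (T.ls (nat_lit 1) (nat_lit 3)) (T.ts (nat_lit 1) (T.im (nat_lit 5) (nat_lit 3)) (T.ts (nat_lit 0) (T.im (nat_lit 7) (nat_lit 2)) T.ie))))) (T.ts (nat_lit 1) (T.ts (nat_lit 4) (T.ls (nat_lit 1) (nat_lit 2)) (T.ts (nat_lit 3) (T.ls (nat_lit 2) (nat_lit 3)) (T.ts (nat_lit 2) (T.ls (nat_lit 1) (nat_lit 3)) (T.ts (nat_lit 1) (T.ls (nat_lit 1) (nat_lit 2)) (T.ts (nat_lit 0) (T.im (nat_lit 7) (nat_lit 2)) T.ie))))) (T.ts (nat_lit 0) (T.im (nat_lit 7) (nat_lit 1)) T.ie))))))))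
def d16 : T := (T.ts (nat_lit 3) (T.ts (nat_lit 2) (T.ts (nat_lit 2) (T.ls (nat_lit 2) (nat_lit 3)) (T.ts (nat_lit 1) (T.ls (nat_lit 1) (nat_lit 3)) (T.ts (nat_lit 0) (T.ls (nat_lit 1) (nat_lit 2)) (T.ts (nat_lit 3) (T.im (nat_lit 7) (nat_lit 2)) (T.nw (T.ls (nat_lit 1) (nat_lit 2))))))) (T.ts (nat_lit 1) (T.ts (nat_lit 2) (T.ls (nat_lit 2) (nat_lit 3)) (T.ts (nat_lit 1) (T.ls (nat_lit 1) (nat_lit 3)) (T.ts (nat_lit 3) (T.im (nat_lit 7) (nat_lit 2)) (T.ts (nat_lit 0) (T.im (nat_lit 5) (nat_lit 3)) (T.nw (T.ls (nat_lit 1) (nat_lit 2))))))) (T.ts (nat_lit 0) (T.ts (nat_lit 2) (T.ls (nat_lit 2) (nat_lit 3)) (T.ts (nat_lit 1) (T.ls (nat_lit 1) (nat_lit 3)) (T.ts (nat_lit 0) (T.ls (nat_lit 1) (nat_lit 2)) (T.ts (nat_lit 3) (T.im (nat_lit 7) (nat_lit 2)) (T.nw (T.ls (nat_lit 1) (nat_lit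 2))))))) (T.ts (nat_lit 3) (T.im (nat_lit 7) (nat_lit 1)) (T.nw (T.ts (nat_lit 3) (T.ls (nat_lit 2) (nat_lit 3)) (T.ts (nat_lit 2) (T.ls (nat_lit 1) (nat_lit 3)) (T.ts (nat_lit 1) (T.ls (nat_lit 1) (nat_lit 2)) (T.ts (nat_lit 0) (T.ls (nat_lit 1) (nat_lit 2)) (T.ts (nat_lit 4) (T.im (nat_lit 7) (nat_lit 2)) T.ie)))))))))) (T.ts (nat_lit 2) (T.ts (nat_lit 3) (T.ts (nat_lit 3) (T.ls (nat_lit 2) (nat_lit 3)) (T.ts (nat_lit 1) (T.ls (nat_lit 1) (nat_lit 3)) (T.ts (nat_lit 0) (T.ls (nat_lit 1) (nat_lit 2)) (T.ts (nat_lit 2) (T.im (nat_lit 7) (nat_lit 2)) (T.nw (T.ls (nat_lit 1) (nat_lit 2))))))) (T.ts (nat_lit 1) (T.ts (nat_lit 3) (T.ls (nat_lit 1) (nat_lit 3)) (T.ts (nat_lit 2) (T.im (nat_lit 7) (nat_lit 2)) (T.ts (nat_lit 1) (T.im (nat_lit 3) (nat_lit 4)) (T.ts (nat_lit 0) (T.im (nat_lit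 5) (nat_lit 3)) (T.nw (T.ls (nat_lit 1) (nat_lit 2))))))) (T.ts (nat_lit 0) (T.ts (nat_lit 3) (T.ls (nat_lit 1) (nat_lit 2)) (T.ts (nat_lit 1) (T.ls (nat_lit 1) (nat_lit 3)) (T.ts (nat_lit 0) (T.ls (nat_lit 1) (nat_lit 2)) (T.ts (nat_lit 2) (T.im (nat_lit 7) (nat_lit 2)) (T.nw (T.ls (nat_lit 1) (nat_lit 2))))))) (T.ts (nat_lit 2) (T.im (nat_lit 7) (nat_lit 1)) (T.nw (T.ts (nat_lit 4) (T.ls (nat_lit 1) (nat_lit 2)) (T.ts (nat_lit 2) (T.ls (nat_lit 1) (nat_lit 3)) (T.ts (nat_lit 1) (T.ls (nat_lit 1) (nat_lit 2)) (T.ts (nat_lit 0) (T.ls (nat_lit 1) (nat_lit 2)) (T.ts (nat_lit 3) (T.im (nat_lit 7) (nat_lit 2)) T.ie)))))))))) d15))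
def d17 : T := (T.ts (nat_lit 2) (T.ts (nat_lit 2) (T.ts (nat_lit 1) (T.ts (nat_lit 1) (T.ls (nat_lit 3) (nat_lit 4)) (T.ts (nat_lit 0) (T.ls (nat_lit 1) (nat_lit 3)) (T.ts (nat_lit 2) (T.im (nat_lit 7) (nat_lit 2)) (T.nw (T.ls (nat_lit 1) (nat_lit 2)))))) (T.ts (nat_lit 0) (T.ts (nat_lit 1) (T.ls (nat_lit 2) (nat_lit 3)) (T.ts (nat_lit 0) (T.ls (nat_lit 1) (nat_lit 3)) (T.ts (nat_lit 2) (T.im (nat_lit 5) (nat_lit 3)) (T.nw (T.ls (nat_lit 1) (nat_lit 2)))))) (T.ts (nat_lit 2) (T.im (nat_lit 7) (nat_lit 1)) (T.nw (T.ts (nat_lit 2) (T.ls (nat_lit 2) (nat_lit 3)) (T.ts (nat_lit 1) (T.ls (nat_lit 1) (nat_lit 3)) (T.ts (nat_lit 0) (T.ls (nat_lit 1) (nat_lit 2)) (T.ts (nat_lit 3) (T.im (nat_lit 7) (nat_lit 2)) (T.nw (T.ls (nat_lit 1) (nat_lit 2))))))))))) d13) (T.ts (nat_lit 1) (T.ts (nat_lit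 2) (T.ts (nat_lit 1) (T.ts (nat_lit 1) (T.ls (nat_lit 2) (nat_lit 3)) (T.ts (nat_lit 0) (T.ls (nat_lit 1) (nat_lit 3)) (T.ts (nat_lit 2) (T.im (nat_lit 7) (nat_lit 2)) (T.nw (T.ls (nat_lit 1) (nat_lit 2)))))) (T.ts (nat_lit 0) (T.ts (nat_lit 0) (T.ls (nat_lit 1) (nat_lit 3)) (T.ts (nat_lit 2) (T.im (nat_lit 7) (nat_lit 2)) (T.ts (nat_lit 1) (T.im (nat_lit 5) (nat_lit 3)) (T.nw (T.ls (nat_lit 1) (nat_lit 2)))))) (T.ts (nat_lit 2) (T.im (nat_lit 7) (nat_lit 1)) (T.nw (T.ts (nat_lit 2) (T.ls (nat_lit 2) (nat_lit 3)) (T.ts (nat_lit 1) (T.ls (nat_lit 1) (nat_lit 3)) (T.ts (nat_lit 0) (T.ls (nat_lit 1) (nat_lit 2)) (T.ts (nat_lit 3) (T.im (nat_lit 7) (nat_lit 2)) (T.nw (T.ls (nat_lit 1) (nat_lit 2))))))))))) d14) (T.ts (nat_lit 0) (T.im (nat_lit 5) (nat_lit 1)) (T.nw d16))))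
def d18 : T := (T.ts (nat_lit 1) (T.ts (nat_lit 3) (T.ts (nat_lit 3) (T.ls (nat_lit 1) (nat_lit 3)) (T.ts (nat_lit 2) (T.ls (nat_lit 2) (nat_lit 3)) (T.ts (nat_lit 0) (T.ls (nat_lit 1) (nat_lit 2)) (T.ts (nat_lit 1) (T.im (nat_lit 7) (nat_lit 2)) (T.nw (T.ls (nat_lit 1) (nat_lit 2))))))) (T.ts (nat_lit 2) (T.ts (nat_lit 3) (T.ls (nat_lit 2) (nat_lit 3)) (T.ts (nat_lit 2) (T.ls (nat_lit 2) (nat_lit 3)) (T.ts (nat_lit 0) (T.ls (nat_lit 1) (nat_lit 2)) (T.ts (nat_lit 1) (T.im (nat_lit 7) (nat_lit 2)) (T.nw (T.ls (nat_lit 1) (nat_lit 2))))))) (T.ts (nat_lit 0) (T.ts (nat_lit 2) (T.ls (nat_lit 2) (nat_lit 3)) (T.ts (nat_lit 0) (T.ls (nat_lit 1) (nat_lit 2)) (T.ts (nat_lit 3) (T.im (nat_lit 5) (nat_lit 3)) (T.ts (nat_lit 1) (T.im (nat_lit 7) (nat_lit 2)) (T.nw (T.ls (nat_lit 1) (nat_lit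 2))))))) (T.ts (nat_lit 1) (T.im (nat_lit 7) (nat_lit 1)) (T.nw (T.ts (nat_lit 4) (T.ls (nat_lit 1) (nat_lit 2)) (T.ts (nat_lit 3) (T.ls (nat_lit 2) (nat_lit 3)) (T.ts (nat_lit 1) (T.ls (nat_lit 1) (nat_lit 2)) (T.ts (nat_lit 0) (T.ls (nat_lit 1) (nat_lit 2)) (T.ts (nat_lit 2) (T.im (nat_lit 7) (nat_lit 2)) T.ie)))))))))) (T.ts (nat_lit 0) (T.im (nat_lit 5) (nat_lit 2)) (T.nw (T.ts (nat_lit 4) (T.ts (nat_lit 4) (T.ls (nat_lit 1) (nat_lit 2)) (T.ts (nat_lit 3) (T.ls (nat_lit 2) (nat_lit 3)) (T.ts (nat_lit 2) (T.ls (nat_lit 1) (nat_lit 3)) (T.ts (nat_lit 1) (T.ls (nat_lit 1) (nat_lit 2)) (T.ts (nat_lit 0) (T.im (nat_lit 7) (nat_lit 2)) T.ie))))) (T.ts (nat_lit 3) (T.ts (nat_lit 4) (T.ls (nat_lit 2) (nat_lit 3)) (T.ts (nat_lit 3) (T.ls (nat_lit 2) (nat_lit 3)) (T.ts (nat_lit 2) (T.ls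 (nat_lit 1) (nat_lit 3)) (T.ts (nat_lit 1) (T.ls (nat_lit 1) (nat_lit 2)) (T.ts (nat_lit 0) (T.im (nat_lit 7) (nat_lit 2)) T.ie))))) (T.ts (nat_lit 2) (T.ts (nat_lit 4) (T.ls (nat_lit 1) (nat_lit 3)) (T.ts (nat_lit 3) (T.ls (nat_lit 2) (nat_lit 3)) (T.ts (nat_lit 2) (T.ls (nat_lit 1) (nat_lit 3)) (T.ts (nat_lit 1) (T.ls (nat_lit 1) (nat_lit 2)) (T.ts (nat_lit 0) (T.im (nat_lit 7) (nat_lit 2)) T.ie))))) (T.ts (nat_lit 1) (T.ts (nat_lit 3) (T.ls (nat_lit 2) (nat_lit 3)) (T.ts (nat_lit 2) (T.ls (nat_lit 1) (nat_lit 3)) (T.ts (nat_lit 1) (T.ls (nat_lit 1) (nat_lit 2)) (T.ts (nat_lit 4) (T.im (nat_lit 5) (nat_lit 3)) (T.ts (nat_lit 0) (T.im (nat_lit 7) (nat_lit 2)) T.ie))))) (T.ts (nat_lit 0) (T.im (nat_lit 7) (nat_lit 1)) T.ie))))))))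
def d19 : T := (T.ts (nat_lit 3) (T.ts (nat_lit 2) (T.ts (nat_lit 2) (T.ls (nat_lit 2) (nat_lit 4)) (T.ts (nat_lit 1) (T.ls (nat_lit 1) (nat_lit 3)) (T.ts (nat_lit 0) (T.ls (nat_lit 1) (nat_lit 2)) (T.ts (nat_lit 3) (T.im (nat_lit 7) (nat_lit 2)) (T.nw (T.ls (nat_lit 1) (nat_lit 2))))))) (T.ts (nat_lit 1) (T.ts (nat_lit 2) (T.ls (nat_lit 2) (nat_lit 3)) (T.ts (nat_lit 1) (T.ls (nat_lit 1) (nat_lit 3)) (T.ts (nat_lit 0) (T.ls (nat_lit 1) (nat_lit 2)) (T.ts (nat_lit 3) (T.im (nat_lit 7) (nat_lit 2)) (T.nw (T.ls (nat_lit 1) (nat_lit 2))))))) (T.ts (nat_lit 0) (T.ts (nat_lit 2) (T.ls (nat_lit 2) (nat_lit 3)) (T.ts (nat_lit 1) (T.ls (nat_lit 1) (nat_lit 3)) (T.ts (nat_lit 0) (T.ls (nat_lit 1) (nat_lit 2)) (T.ts (nat_lit 3) (T.im (nat_lit 5) (nat_lit 3)) (T.nw (T.ls (nat_lit 1) (nat_lit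 2))))))) (T.ts (nat_lit 3) (T.im (nat_lit 7) (nat_lit 1)) (T.nw (T.ts (nat_lit 3) (T.ls (nat_lit 2) (nat_lit 3)) (T.ts (nat_lit 2) (T.ls (nat_lit 1) (nat_lit 3)) (T.ts (nat_lit 1) (T.ls (nat_lit 1) (nat_lit 2)) (T.ts (nat_lit 0) (T.ls (nat_lit 1) (nat_lit 2)) (T.ts (nat_lit 4) (T.im (nat_lit 7) (nat_lit 2)) T.ie)))))))))) (T.ts (nat_lit 2) (T.ts (nat_lit 3) (T.ts (nat_lit 3) (T.ls (nat_lit 2) (nat_lit 3)) (T.ts (nat_lit 1) (T.ls (nat_lit 1) (nat_lit 3)) (T.ts (nat_lit 0) (T.ls (nat_lit 1) (nat_lit 2)) (T.ts (nat_lit 2) (T.im (nat_lit 7) (nat_lit 2)) (T.nw (T.ls (nat_lit 1) (nat_lit 2))))))) (T.ts (nat_lit 1) (T.ts (nat_lit 3) (T.ls (nat_lit 1) (nat_lit 3)) (T.ts (nat_lit 1) (T.ls (nat_lit 1) (nat_lit 3)) (T.ts (nat_lit 2) (T.im (nat_lit 7) (nat_lit 2)) (T.ts (nat_lit 0) (T.im (nat_lit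 3) (nat_lit 4)) (T.nw (T.ls (nat_lit 1) (nat_lit 2))))))) (T.ts (nat_lit 0) (T.ts (nat_lit 1) (T.ls (nat_lit 1) (nat_lit 3)) (T.ts (nat_lit 0) (T.ls (nat_lit 1) (nat_lit 2)) (T.ts (nat_lit 3) (T.im (nat_lit 5) (nat_lit 3)) (T.ts (nat_lit 2) (T.im (nat_lit 7) (nat_lit 2)) (T.nw (T.ls (nat_lit 1) (nat_lit 2))))))) (T.ts (nat_lit 2) (T.im (nat_lit 7) (nat_lit 1)) (T.nw (T.ts (nat_lit 4) (T.ls (nat_lit 1) (nat_lit 2)) (T.ts (nat_lit 2) (T.ls (nat_lit 1) (nat_lit 3)) (T.ts (nat_lit 1) (T.ls (nat_lit 1) (nat_lit 2)) (T.ts (nat_lit 0) (T.ls (nat_lit 1) (nat_lit 2)) (T.ts (nat_lit 3) (T.im (nat_lit 7) (nat_lit 2)) T.ie)))))))))) d18))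
def d20 : T := (T.ts (nat_lit 2) (T.ts (nat_lit 3) (T.ts (nat_lit 3) (T.ls (nat_lit 2) (nat_lit 3)) (T.ts (nat_lit 1) (T.ls (nat_lit 1) (nat_lit 3)) (T.ts (nat_lit 0) (T.ls (nat_lit 1) (nat_lit 2)) (T.ts (nat_lit 2) (T.im (nat_lit 7) (nat_lit 2)) (T.nw (T.ls (nat_lit 1) (nat_lit 2))))))) (T.ts (nat_lit 1) (T.ts (nat_lit 3) (T.ls (nat_lit 1) (nat_lit 3)) (T.ts (nat_lit 1) (T.ls (nat_lit 1) (nat_lit 3)) (T.ts (nat_lit 2) (T.im (nat_lit 7) (nat_lit 2)) (T.ts (nat_lit 0) (T.im (nat_lit 3) (nat_lit 4)) (T.nw (T.ls (nat_lit 1) (nat_lit 2))))))) (T.ts (nat_lit 0) (T.ts (nat_lit 3) (T.ls (nat_lit 1) (nat_lit 2)) (T.ts (nat_lit 1) (T.ls (nat_lit 1) (nat_lit 3)) (T.ts (nat_lit 0) (T.ls (nat_lit 1) (nat_lit 2)) (T.ts (nat_lit 2) (T.im (nat_lit 5) (nat_lit 3)) (T.nw (T.ls (nat_lit 1) (nat_lit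 2))))))) (T.ts (nat_lit 2) (T.im (nat_lit 7) (nat_lit 1)) (T.nw (T.ts (nat_lit 4) (T.ls (nat_lit 1) (nat_lit 2)) (T.ts (nat_lit 2) (T.ls (nat_lit 1) (nat_lit 3)) (T.ts (nat_lit 1) (T.ls (nat_lit 1) (nat_lit 2)) (T.ts (nat_lit 0) (T.ls (nat_lit 1) (nat_lit 2)) (T.ts (nat_lit 3) (T.im (nat_lit 7) (nat_lit 2)) T.ie)))))))))) (T.ts (nat_lit 1) (T.im (nat_lit 3) (nat_lit 3)) (T.ts (nat_lit 0) (T.im (nat_lit 5) (nat_lit 2)) (T.nw (T.ts (nat_lit 4) (T.ts (nat_lit 4) (T.ls (nat_lit 1) (nat_lit 2)) (T.ts (nat_lit 3) (T.ls (nat_lit 2) (nat_lit 3)) (T.ts (nat_lit 2) (T.ls (nat_lit 1) (nat_lit 3)) (T.ts (nat_lit 1) (T.ls (nat_lit 1) (nat_lit 2)) (T.ts (nat_lit 0) (T.im (nat_lit 7) (nat_lit 2)) T.ie))))) (T.ts (nat_lit 3) (T.ts (nat_lit 4) (T.ls (nat_lit 2) (nat_lit 3)) (T.ts (nat_lit 3) (T.ls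 (nat_lit 2) (nat_lit 3)) (T.ts (nat_lit 2) (T.ls (nat_lit 1) (nat_lit 3)) (T.ts (nat_lit 1) (T.ls (nat_lit 1) (nat_lit 2)) (T.ts (nat_lit 0) (T.im (nat_lit 7) (nat_lit 2)) T.ie))))) (T.ts (nat_lit 2) (T.ts (nat_lit 4) (T.ls (nat_lit 1) (nat_lit 3)) (T.ts (nat_lit 3) (T.ls (nat_lit 2) (nat_lit 3)) (T.ts (nat_lit 2) (T.ls (nat_lit 1) (nat_lit 3)) (T.ts (nat_lit 1) (T.ls (nat_lit 1) (nat_lit 2)) (T.ts (nat_lit 0) (T.im (nat_lit 7) (nat_lit 2)) T.ie))))) (T.ts (nat_lit 1) (T.ts (nat_lit 4) (T.ls (nat_lit 1) (nat_lit 2)) (T.ts (nat_lit 2) (T.ls (nat_lit 1) (nat_lit 3)) (T.ts (nat_lit 1) (T.ls (nat_lit 1) (nat_lit 2)) (T.ts (nat_lit 3) (T.im (nat_lit 5) (nat_lit 3)) (T.ts (nat_lit 0) (T.im (nat_lit 7) (nat_lit 2)) T.ie))))) (T.ts (nat_lit 0) (T.im (nat_lit 7) (nat_lit 1)) T.ie)))))))))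
def d21 : T := (T.ts (nat_lit 1) (T.ts (nat_lit 3) (T.ts (nat_lit 3) (T.ls (nat_lit 1) (nat_lit 3)) (T.ts (nat_lit 2) (T.ls (nat_lit 2) (nat_lit 3)) (T.ts (nat_lit 0) (T.ls (nat_lit 1) (nat_lit 2)) (T.ts (nat_lit 1) (T.im (nat_lit 7) (nat_lit 2)) (T.nw (T.ls (nat_lit 1) (nat_lit 2))))))) (T.ts (nat_lit 2) (T.ts (nat_lit 3) (T.ls (nat_lit 2) (nat_lit 3)) (T.ts (nat_lit 2) (T.ls (nat_lit 2) (nat_lit 3)) (T.ts (nat_lit 0) (T.ls (nat_lit 1) (nat_lit 2)) (T.ts (nat_lit 1) (T.im (nat_lit 7) (nat_lit 2)) (T.nw (T.ls (nat_lit 1) (nat_lit 2))))))) (T.ts (nat_lit 0) (T.ts (nat_lit 3) (T.ls (nat_lit 1) (nat_lit 2)) (T.ts (nat_lit 2) (T.ls (nat_lit 2) (nat_lit 3)) (T.ts (nat_lit 0) (T.ls (nat_lit 1) (nat_lit 2)) (T.ts (nat_lit 1) (T.im (nat_lit 5) (nat_lit 3)) (T.nw (T.ls (nat_lit 1) (nat_lit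 2))))))) (T.ts (nat_lit 1) (T.im (nat_lit 7) (nat_lit 1)) (T.nw (T.ts (nat_lit 4) (T.ls (nat_lit 1) (nat_lit 2)) (T.ts (nat_lit 3) (T.ls (nat_lit 2) (nat_lit 3)) (T.ts (nat_lit 1) (T.ls (nat_lit 1) (nat_lit 2)) (T.ts (nat_lit 0) (T.ls (nat_lit 1) (nat_lit 2)) (T.ts (nat_lit 2) (T.im (nat_lit 7) (nat_lit 2)) T.ie)))))))))) (T.ts (nat_lit 0) (T.im (nat_lit 5) (nat_lit 2)) (T.nw (T.ts (nat_lit 4) (T.ts (nat_lit 4) (T.ls (nat_lit 1) (nat_lit 2)) (T.ts (nat_lit 3) (T.ls (nat_lit 2) (nat_lit 3)) (T.ts (nat_lit 2) (T.ls (nat_lit 1) (nat_lit 3)) (T.ts (nat_lit 1) (T.ls (nat_lit 1) (nat_lit 2)) (T.ts (nat_lit 0) (T.im (nat_lit 7) (nat_lit 2)) T.ie))))) (T.ts (nat_lit 3) (T.ts (nat_lit 4) (T.ls (nat_lit 2) (nat_lit 3)) (T.ts (nat_lit 3) (T.ls (nat_lit 2) (nat_lit 3)) (T.ts (nat_lit 2) (T.ls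 (nat_lit 1) (nat_lit 3)) (T.ts (nat_lit 1) (T.ls (nat_lit 1) (nat_lit 2)) (T.ts (nat_lit 0) (T.im (nat_lit 7) (nat_lit 2)) T.ie))))) (T.ts (nat_lit 2) (T.ts (nat_lit 4) (T.ls (nat_lit 1) (nat_lit 3)) (T.ts (nat_lit 3) (T.ls (nat_lit 2) (nat_lit 3)) (T.ts (nat_lit 2) (T.ls (nat_lit 1) (nat_lit 3)) (T.ts (nat_lit 1) (T.ls (nat_lit 1) (nat_lit 2)) (T.ts (nat_lit 0) (T.im (nat_lit 7) (nat_lit 2)) T.ie))))) (T.ts (nat_lit 1) (T.ts (nat_lit 4) (T.ls (nat_lit 1) (nat_lit 2)) (T.ts (nat_lit 3) (T.ls (nat_lit 2) (nat_lit 3)) (T.ts (nat_lit 1) (T.ls (nat_lit 1) (nat_lit 2)) (T.ts (nat_lit 2) (T.im (nat_lit 5) (nat_lit 3)) (T.ts (nat_lit 0) (T.im (nat_lit 7) (nat_lit 2)) T.ie))))) (T.ts (nat_lit 0) (T.im (nat_lit 7) (nat_lit 1)) T.ie))))))))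
def d22 : T := (T.ts (nat_lit 3) (T.ts (nat_lit 2) (T.ts (nat_lit 2) (T.ls (nat_lit 2) (nat_lit 3)) (T.ts (nat_lit 1) (T.ls (nat_lit 1) (nat_lit 3)) (T.ts (nat_lit 0) (T.ls (nat_lit 1) (nat_lit 2)) (T.ts (nat_lit 3) (T.im (nat_lit 7) (nat_lit 2)) (T.nw (T.ls (nat_lit 1) (nat_lit 2))))))) (T.ts (nat_lit 1) (T.ts (nat_lit 2) (T.ls (nat_lit 2) (nat_lit 3)) (T.ts (nat_lit 1) (T.ls (nat_lit 1) (nat_lit 3)) (T.ts (nat_lit 0) (T.ls (nat_lit 1) (nat_lit 2)) (T.ts (nat_lit 3) (T.im (nat_lit 7) (nat_lit 2)) (T.nw (T.ls (nat_lit 1) (nat_lit 2))))))) (T.ts (nat_lit 0) (T.ts (nat_lit 2) (T.ls (nat_lit 2) (nat_lit 3)) (T.ts (nat_lit 0) (T.ls (nat_lit 1) (nat_lit 2)) (T.ts (nat_lit 3) (T.im (nat_lit 7) (nat_lit 2)) (T.ts (nat_lit 1) (T.im (nat_lit 5) (nat_lit 3)) (T.nw (T.ls (nat_lit 1) (nat_lit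 2))))))) (T.ts (nat_lit 3) (T.im (nat_lit 7) (nat_lit 1)) (T.nw (T.ts (nat_lit 3) (T.ls (nat_lit 2) (nat_lit 3)) (T.ts (nat_lit 2) (T.ls (nat_lit 1) (nat_lit 3)) (T.ts (nat_lit 1) (T.ls (nat_lit 1) (nat_lit 2)) (T.ts (nat_lit 0) (T.ls (nat_lit 1) (nat_lit 2)) (T.ts (nat_lit 4) (T.im (nat_lit 7) (nat_lit 2)) T.ie)))))))))) (T.ts (nat_lit 2) (T.ts (nat_lit 3) (T.ts (nat_lit 3) (T.ls (nat_lit 2) (nat_lit 3)) (T.ts (nat_lit 1) (T.ls (nat_lit 1) (nat_lit 3)) (T.ts (nat_lit 0) (T.ls (nat_lit 1) (nat_lit 2)) (T.ts (nat_lit 2) (T.im (nat_lit 7) (nat_lit 2)) (T.nw (T.ls (nat_lit 1) (nat_lit 2))))))) (T.ts (nat_lit 1) (T.ts (nat_lit 3) (T.ls (nat_lit 1) (nat_lit 3)) (T.ts (nat_lit 1) (T.ls (nat_lit 1) (nat_lit 3)) (T.ts (nat_lit 2) (T.im (nat_lit 7) (nat_lit 2)) (T.ts (nat_lit 0) (T.im (nat_lit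 3) (nat_lit 4)) (T.nw (T.ls (nat_lit 1) (nat_lit 2))))))) (T.ts (nat_lit 0) (T.ts (nat_lit 3) (T.ls (nat_lit 1) (nat_lit 2)) (T.ts (nat_lit 0) (T.ls (nat_lit 1) (nat_lit 2)) (T.ts (nat_lit 2) (T.im (nat_lit 7) (nat_lit 2)) (T.ts (nat_lit 1) (T.im (nat_lit 5) (nat_lit 3)) (T.nw (T.ls (nat_lit 1) (nat_lit 2))))))) (T.ts (nat_lit 2) (T.im (nat_lit 7) (nat_lit 1)) (T.nw (T.ts (nat_lit 4) (T.ls (nat_lit 1) (nat_lit 2)) (T.ts (nat_lit 2) (T.ls (nat_lit 1) (nat_lit 3)) (T.ts (nat_lit 1) (T.ls (nat_lit 1) (nat_lit 2)) (T.ts (nat_lit 0) (T.ls (nat_lit 1) (nat_lit 2)) (T.ts (nat_lit 3) (T.im (nat_lit 7) (nat_lit 2)) T.ie)))))))))) d21))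
def d23 : T := (T.ts (nat_lit 2) (T.ts (nat_lit 4) (T.ts (nat_lit 4) (T.ls (nat_lit 1) (nat_lit 3)) (T.ts (nat_lit 3) (T.ls (nat_lit 2) (nat_lit 3)) (T.ts (nat_lit 1) (T.ls (nat_lit 1) (nat_lit 2)) (T.ts (nat_lit 0) (T.ls (nat_lit 1) (nat_lit 2)) (T.ts (nat_lit 2) (T.im (nat_lit 7) (nat_lit 2)) T.ie))))) (T.ts (nat_lit 3) (T.ts (nat_lit 4) (T.ls (nat_lit 2) (nat_lit 3)) (T.ts (nat_lit 3) (T.ls (nat_lit 2) (nat_lit 3)) (T.ts (nat_lit 1) (T.ls (nat_lit 1) (nat_lit 2)) (T.ts (nat_lit 0) (T.ls (nat_lit 1) (nat_lit 2)) (T.ts (nat_lit 2) (T.im (nat_lit 7) (nat_lit 2)) T.ie))))) (T.ts (nat_lit 1) (T.ts (nat_lit 4) (T.ls (nat_lit 1) (nat_lit 2)) (T.ts (nat_lit 3) (T.ls (nat_lit 2) (nat_lit 3)) (T.ts (nat_lit 1) (T.ls (nat_lit 1) (nat_lit 2)) (T.ts (nat_lit 2) (T.im (nat_lit 7) (nat_lit 2))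 (T.ts (nat_lit 0) (T.im (nat_lit 5) (nat_lit 3)) T.ie))))) (T.ts (nat_lit 0) (T.ts (nat_lit 4) (T.ls (nat_lit 1) (nat_lit 2)) (T.ts (nat_lit 3) (T.ls (nat_lit 2) (nat_lit 3)) (T.ts (nat_lit 1) (T.ls (nat_lit 1) (nat_lit 2)) (T.ts (nat_lit 0) (T.ls (nat_lit 1) (nat_lit 2)) (T.ts (nat_lit 2) (T.im (nat_lit 7) (nat_lit 2)) T.ie))))) (T.ts (nat_lit 2) (T.im (nat_lit 7) (nat_lit 1)) T.ie))))) (T.ts (nat_lit 0) (T.ts (nat_lit 4) (T.ts (nat_lit 4) (T.ls (nat_lit 1) (nat_lit 2)) (T.ts (nat_lit 3) (T.ls (nat_lit 2) (nat_lit 3)) (T.ts (nat_lit 2) (T.ls (nat_lit 1) (nat_lit 3)) (T.ts (nat_lit 1) (T.ls (nat_lit 1) (nat_lit 2)) (T.ts (nat_lit 0) (T.im (nat_lit 7) (nat_lit 2)) T.ie))))) (T.ts (nat_lit 3) (T.ts (nat_lit 4) (T.ls (nat_lit 2) (nat_lit 3)) (T.ts (nat_lit 3) (T.ls (nat_lit 2) (nat_lit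 3)) (T.ts (nat_lit 2) (T.ls (nat_lit 1) (nat_lit 3)) (T.ts (nat_lit 1) (T.ls (nat_lit 1) (nat_lit 2)) (T.ts (nat_lit 0) (T.im (nat_lit 7) (nat_lit 2)) T.ie))))) (T.ts (nat_lit 2) (T.ts (nat_lit 4) (T.ls (nat_lit 1) (nat_lit 3)) (T.ts (nat_lit 3) (T.ls (nat_lit 2) (nat_lit 3)) (T.ts (nat_lit 2) (T.ls (nat_lit 1) (nat_lit 3)) (T.ts (nat_lit 1) (T.ls (nat_lit 1) (nat_lit 2)) (T.ts (nat_lit 0) (T.im (nat_lit 7) (nat_lit 2)) T.ie))))) (T.ts (nat_lit 1) (T.ts (nat_lit 4) (T.ls (nat_lit 1) (nat_lit 2)) (T.ts (nat_lit 3) (T.ls (nat_lit 2) (nat_lit 3)) (T.ts (nat_lit 2) (T.ls (nat_lit 1) (nat_lit 3)) (T.ts (nat_lit 1) (T.ls (nat_lit 1) (nat_lit 2)) (T.ts (nat_lit 0) (T.im (nat_lit 5) (nat_lit 3)) T.ie))))) (T.ts (nat_lit 0) (T.im (nat_lit 7) (nat_lit 1)) T.ie))))) (T.ts (nat_lit 1) (T.im (nat_lit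 5) (nat_lit 2)) T.ie)))
def d24 : T := (T.ts (nat_lit 4) (T.ts (nat_lit 3) (T.ts (nat_lit 3) (T.ls (nat_lit 2) (nat_lit 3)) (T.ts (nat_lit 2) (T.ls (nat_lit 1) (nat_lit 3)) (T.ts (nat_lit 1) (T.ls (nat_lit 1) (nat_lit 2)) (T.ts (nat_lit 0) (T.ls (nat_lit 1) (nat_lit 2)) (T.ts (nat_lit 4) (T.im (nat_lit 7) (nat_lit 2)) T.ie))))) (T.ts (nat_lit 2) (T.ts (nat_lit 3) (T.ls (nat_lit 2) (nat_lit 3)) (T.ts (nat_lit 2) (T.ls (nat_lit 1) (nat_lit 3)) (T.ts (nat_lit 1) (T.ls (nat_lit 1) (nat_lit 2)) (T.ts (nat_lit 0) (T.ls (nat_lit 1) (nat_lit 2)) (T.ts (nat_lit 4) (T.im (nat_lit 7) (nat_lit 2)) T.ie))))) (T.ts (nat_lit 1) (T.ts (nat_lit 3) (T.ls (nat_lit 2) (nat_lit 3)) (T.ts (nat_lit 2) (T.ls (nat_lit 1) (nat_lit 3)) (T.ts (nat_lit 1) (T.ls (nat_lit 1) (nat_lit 2)) (T.ts (nat_lit 4) (T.im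 (nat_lit 7) (nat_lit 2)) (T.ts (nat_lit 0) (T.im (nat_lit 5) (nat_lit 3)) T.ie))))) (T.ts (nat_lit 0) (T.ts (nat_lit 3) (T.ls (nat_lit 2) (nat_lit 3)) (T.ts (nat_lit 2) (T.ls (nat_lit 1) (nat_lit 3)) (T.ts (nat_lit 1) (T.ls (nat_lit 1) (nat_lit 2)) (T.ts (nat_lit 0) (T.ls (nat_lit 1) (nat_lit 2)) (T.ts (nat_lit 4) (T.im (nat_lit 7) (nat_lit 2)) T.ie))))) (T.ts (nat_lit 4) (T.im (nat_lit 7) (nat_lit 1)) T.ie))))) (T.ts (nat_lit 3) (T.ts (nat_lit 4) (T.ts (nat_lit 4) (T.ls (nat_lit 2) (nat_lit 3)) (T.ts (nat_lit 2) (T.ls (nat_lit 1) (nat_lit 3)) (T.ts (nat_lit 1) (T.ls (nat_lit 1) (nat_lit 2)) (T.ts (nat_lit 0) (T.ls (nat_lit 1) (nat_lit 2)) (T.ts (nat_lit 3) (T.im (nat_lit 7) (nat_lit 2)) T.ie))))) (T.ts (nat_lit 2) (T.ts (nat_lit 4) (T.ls (nat_lit 1) (nat_lit 3)) (T.ts (nat_lit 2)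 (T.ls (nat_lit 1) (nat_lit 3)) (T.ts (nat_lit 0) (T.ls (nat_lit 1) (nat_lit 2)) (T.ts (nat_lit 3) (T.im (nat_lit 7) (nat_lit 2)) (T.ts (nat_lit 1) (T.im (nat_lit 3) (nat_lit 4)) T.ie))))) (T.ts (nat_lit 1) (T.ts (nat_lit 4) (T.ls (nat_lit 1) (nat_lit 2)) (T.ts (nat_lit 2) (T.ls (nat_lit 1) (nat_lit 3)) (T.ts (nat_lit 1) (T.ls (nat_lit 1) (nat_lit 2)) (T.ts (nat_lit 3) (T.im (nat_lit 7) (nat_lit 2)) (T.ts (nat_lit 0) (T.im (nat_lit 5) (nat_lit 3)) T.ie))))) (T.ts (nat_lit 0) (T.ts (nat_lit 4) (T.ls (nat_lit 1) (nat_lit 2)) (T.ts (nat_lit 2) (T.ls (nat_lit 1) (nat_lit 3)) (T.ts (nat_lit 1) (T.ls (nat_lit 1) (nat_lit 2)) (T.ts (nat_lit 0) (T.ls (nat_lit 1) (nat_lit 2)) (T.ts (nat_lit 3) (T.im (nat_lit 7) (nat_lit 2)) T.ie))))) (T.ts (nat_lit 3) (T.im (nat_lit 7) (nat_lit 1)) T.ie)))))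 d23))
def d25 : T := (T.ts (nat_lit 1) (T.im (nat_lit 3) (nat_lit 2)) (T.nw (T.ts (nat_lit 3) d19 (T.ts (nat_lit 2) (T.ts (nat_lit 3) (T.ts (nat_lit 2) (T.ts (nat_lit 2) (T.ls (nat_lit 2) (nat_lit 3)) (T.ts (nat_lit 1) (T.ls (nat_lit 1) (nat_lit 3)) (T.ts (nat_lit 0) (T.ls (nat_lit 1) (nat_lit 2)) (T.ts (nat_lit 3) (T.im (nat_lit 7) (nat_lit 2)) (T.nw (T.ls (nat_lit 1) (nat_lit 2))))))) (T.ts (nat_lit 1) (T.ts (nat_lit 2) (T.ls (nat_lit 2) (nat_lit 3)) (T.ts (nat_lit 1) (T.ls (nat_lit 1) (nat_lit 3)) (T.ts (nat_lit 0) (T.ls (nat_lit 1) (nat_lit 2)) (T.ts (nat_lit 3) (T.im (nat_lit 7) (nat_lit 2)) (T.nw (T.ls (nat_lit 1) (nat_lit 2))))))) (T.ts (nat_lit 0) (T.ts (nat_lit 1) (T.ls (nat_lit 1) (nat_lit 3)) (T.ts (nat_lit 0) (T.ls (nat_lit 1) (nat_lit 2)) (T.ts (nat_lit 3) (T.im (nat_lit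 7) (nat_lit 2)) (T.ts (nat_lit 2) (T.im (nat_lit 5) (nat_lit 3)) (T.nw (T.ls (nat_lit 1) (nat_lit 2))))))) (T.ts (nat_lit 3) (T.im (nat_lit 7) (nat_lit 1)) (T.nw (T.ts (nat_lit 3) (T.ls (nat_lit 2) (nat_lit 3)) (T.ts (nat_lit 2) (T.ls (nat_lit 1) (nat_lit 3)) (T.ts (nat_lit 1) (T.ls (nat_lit 1) (nat_lit 2)) (T.ts (nat_lit 0) (T.ls (nat_lit 1) (nat_lit 2)) (T.ts (nat_lit 4) (T.im (nat_lit 7) (nat_lit 2)) T.ie)))))))))) d20) (T.ts (nat_lit 1) d22 (T.ts (nat_lit 0) (T.im (nat_lit 5) (nat_lit 1)) (T.nw d24)))))))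
def d26 : T := (T.ts (nat_lit 0) d17 d25)
def d27 : T := (T.im (nat_lit 1) (nat_lit 2))
def d28 : T := (T.ts (nat_lit 1) (T.ts (nat_lit 2) (T.ts (nat_lit 2) (T.ls (nat_lit 3) (nat_lit 4)) (T.ts (nat_lit 0) (T.ls (nat_lit 1) (nat_lit 3)) (T.ts (nat_lit 1) (T.im (nat_lit 5) (nat_lit 3)) (T.nw (T.ls (nat_lit 1) (nat_lit 4)))))) (T.ts (nat_lit 0) (T.ts (nat_lit 2) (T.ls (nat_lit 1) (nat_lit 3)) (T.ts (nat_lit 0) (T.ls (nat_lit 1) (nat_lit 3)) (T.ts (nat_lit 1) (T.im (nat_lit 7) (nat_lit 2)) (T.nw (T.ls (nat_lit 1) (nat_lit 4)))))) (T.ts (nat_lit 1) (T.im (nat_lit 7) (nat_lit 1)) (T.nw (T.ts (nat_lit 3) (T.ls (nat_lit 1) (nat_lit 4)) (T.ts (nat_lit 1) (T.ls (nat_lit 1) (nat_lit 3)) (T.ts (nat_lit 0) (T.ls (nat_lit 1) (nat_lit 4)) (T.ts (nat_lit 2) (T.im (nat_lit 7) (nat_lit 2)) (T.nw (T.ls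 (nat_lit 1) (nat_lit 3))))))))))) (T.ts (nat_lit 2) (T.im (nat_lit 5) (nat_lit 2)) (T.ts (nat_lit 0) (T.im (nat_lit 1) (nat_lit 4)) (T.nw (T.ts (nat_lit 3) (T.ts (nat_lit 3) (T.ls (nat_lit 1) (nat_lit 4)) (T.ts (nat_lit 1) (T.ls (nat_lit 1) (nat_lit 3)) (T.ts (nat_lit 2) (T.im (nat_lit 5) (nat_lit 3)) (T.ts (nat_lit 0) (T.im (nat_lit 7) (nat_lit 2)) (T.nw (T.ls (nat_lit 1) (nat_lit 3))))))) (T.ts (nat_lit 2) (T.ts (nat_lit 3) (T.ls (nat_lit 3) (nat_lit 4)) (T.ts (nat_lit 2) (T.ls (nat_lit 3) (nat_lit 4)) (T.ts (nat_lit 1) (T.ls (nat_lit 1) (nat_lit 3)) (T.ts (nat_lit 0) (T.im (nat_lit 7) (nat_lit 2)) (T.nw (T.ls (nat_lit 1) (nat_lit 3))))))) (T.ts (nat_lit 1) (T.ts (nat_lit 3) (T.ls (nat_lit 1) (nat_lit 3)) (T.ts (nat_lit 2) (T.ls (nat_lit 3) (nat_lit 4)) (T.ts (nat_lit 1) (T.ls (nat_lit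 1) (nat_lit 3)) (T.ts (nat_lit 0) (T.im (nat_lit 7) (nat_lit 2)) (T.nw (T.ls (nat_lit 1) (nat_lit 3))))))) (T.ts (nat_lit 0) (T.im (nat_lit 7) (nat_lit 1)) (T.nw (T.ts (nat_lit 4) (T.ls (nat_lit 1) (nat_lit 3)) (T.ts (nat_lit 3) (T.ls (nat_lit 3) (nat_lit 4)) (T.ts (nat_lit 2) (T.ls (nat_lit 1) (nat_lit 3)) (T.ts (nat_lit 0) (T.ls (nat_lit 1) (nat_lit 3)) (T.ts (nat_lit 1) (T.im (nat_lit 7) (nat_lit 2)) T.ie))))))))))))))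
def d29 : T := (T.ts (nat_lit 0) (T.ts (nat_lit 2) (T.ts (nat_lit 1) (T.ls (nat_lit 3) (nat_lit 4)) (T.ts (nat_lit 2) (T.im (nat_lit 3) (nat_lit 4)) (T.ts (nat_lit 0) (T.im (nat_lit 5) (nat_lit 3)) (T.nw (T.ls (nat_lit 1) (nat_lit 4)))))) (T.ts (nat_lit 1) (T.ts (nat_lit 2) (T.ls (nat_lit 3) (nat_lit 4)) (T.ts (nat_lit 1) (T.ls (nat_lit 3) (nat_lit 4)) (T.ts (nat_lit 0) (T.im (nat_lit 7) (nat_lit 2)) (T.nw (T.ls (nat_lit 1) (nat_lit 4)))))) (T.ts (nat_lit 0) (T.im (nat_lit 7) (nat_lit 1)) (T.nw (T.ts (nat_lit 3) (T.ls (nat_lit 1) (nat_lit 4)) (T.ts (nat_lit 2) (T.ls (nat_lit 3) (nat_lit 4)) (T.ts (nat_lit 0) (T.ls (nat_lit 1) (nat_lit 4)) (T.ts (nat_lit 1) (T.im (nat_lit 7) (nat_lit 2)) (T.nw (T.ls (nat_lit 1) (nat_lit 3))))))))))) (T.ts (nat_lit 2) (T.im (nat_lit 3) (nat_lit 3))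 (T.nw (T.ts (nat_lit 3) (T.ts (nat_lit 3) (T.ls (nat_lit 1) (nat_lit 4)) (T.ts (nat_lit 2) (T.ls (nat_lit 3) (nat_lit 4)) (T.ts (nat_lit 1) (T.im (nat_lit 5) (nat_lit 3)) (T.ts (nat_lit 0) (T.im (nat_lit 7) (nat_lit 2)) (T.nw (T.ls (nat_lit 1) (nat_lit 3))))))) (T.ts (nat_lit 2) (T.ts (nat_lit 3) (T.ls (nat_lit 3) (nat_lit 4)) (T.ts (nat_lit 2) (T.ls (nat_lit 3) (nat_lit 4)) (T.ts (nat_lit 1) (T.ls (nat_lit 1) (nat_lit 3)) (T.ts (nat_lit 0) (T.im (nat_lit 7) (nat_lit 2)) (T.nw (T.ls (nat_lit 1) (nat_lit 3))))))) (T.ts (nat_lit 1) (T.ts (nat_lit 3) (T.ls (nat_lit 1) (nat_lit 3)) (T.ts (nat_lit 2) (T.ls (nat_lit 3) (nat_lit 4)) (T.ts (nat_lit 1) (T.ls (nat_lit 1) (nat_lit 3)) (T.ts (nat_lit 0) (T.im (nat_lit 7) (nat_lit 2)) (T.nw (T.ls (nat_lit 1) (nat_lit 3))))))) (T.ts (nat_lit 0)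 (T.im (nat_lit 7) (nat_lit 1)) (T.nw (T.ts (nat_lit 4) (T.ls (nat_lit 1) (nat_lit 3)) (T.ts (nat_lit 3) (T.ls (nat_lit 3) (nat_lit 4)) (T.ts (nat_lit 2) (T.ls (nat_lit 1) (nat_lit 3)) (T.ts (nat_lit 0) (T.ls (nat_lit 1) (nat_lit 3)) (T.ts (nat_lit 1) (T.im (nat_lit 7) (nat_lit 2)) T.ie)))))))))))))
def d30 : T := (T.ts (nat_lit 0) (T.ts (nat_lit 3) (T.ts (nat_lit 3) (T.ls (nat_lit 1) (nat_lit 4)) (T.ts (nat_lit 2) (T.ls (nat_lit 3) (nat_lit 4)) (T.ts (nat_lit 1) (T.ls (nat_lit 1) (nat_lit 3)) (T.ts (nat_lit 0) (T.im (nat_lit 5) (nat_lit 3)) (T.nw (T.ls (nat_lit 1) (nat_lit 3))))))) (T.ts (nat_lit 2) (T.ts (nat_lit 3) (T.ls (nat_lit 3) (nat_lit 4)) (T.ts (nat_lit 2) (T.ls (nat_lit 3) (nat_lit 4)) (T.ts (nat_lit 1) (T.ls (nat_lit 1) (nat_lit 3)) (T.ts (nat_lit 0) (T.im (nat_lit 7) (nat_lit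 2)) (T.nw (T.ls (nat_lit 1) (nat_lit 3))))))) (T.ts (nat_lit 1) (T.ts (nat_lit 3) (T.ls (nat_lit 1) (nat_lit 3)) (T.ts (nat_lit 2) (T.ls (nat_lit 3) (nat_lit 4)) (T.ts (nat_lit 1) (T.ls (nat_lit 1) (nat_lit 3)) (T.ts (nat_lit 0) (T.im (nat_lit 7) (nat_lit 2)) (T.nw (T.ls (nat_lit 1) (nat_lit 3))))))) (T.ts (nat_lit 0) (T.im (nat_lit 7) (nat_lit 1)) (T.nw (T.ts (nat_lit 4) (T.ls (nat_lit 1) (nat_lit 3)) (T.ts (nat_lit 3) (T.ls (nat_lit 3) (nat_lit 4)) (T.ts (nat_lit 2) (T.ls (nat_lit 1) (nat_lit 3)) (T.ts (nat_lit 0) (T.ls (nat_lit 1) (nat_lit 3)) (T.ts (nat_lit 1) (T.im (nat_lit 7) (nat_lit 2)) T.ie)))))))))) (T.ts (nat_lit 3) (T.im (nat_lit 5) (nat_lit 2)) (T.nw (T.ts (nat_lit 4) (T.ts (nat_lit 4) (T.ls (nat_lit 1) (nat_lit 3)) (T.ts (nat_lit 3) (T.ls (nat_lit 3) (nat_lit 4)) (T.ts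 (nat_lit 2) (T.ls (nat_lit 1) (nat_lit 3)) (T.ts (nat_lit 1) (T.im (nat_lit 5) (nat_lit 3)) (T.ts (nat_lit 0) (T.im (nat_lit 7) (nat_lit 2)) T.ie))))) (T.ts (nat_lit 3) (T.ts (nat_lit 4) (T.ls (nat_lit 3) (nat_lit 4)) (T.ts (nat_lit 3) (T.ls (nat_lit 3) (nat_lit 4)) (T.ts (nat_lit 2) (T.ls (nat_lit 1) (nat_lit 3)) (T.ts (nat_lit 1) (T.ls (nat_lit 1) (nat_lit 4)) (T.ts (nat_lit 0) (T.im (nat_lit 7) (nat_lit 2)) T.ie))))) (T.ts (nat_lit 2) (T.ts (nat_lit 4) (T.ls (nat_lit 1) (nat_lit 3)) (T.ts (nat_lit 3) (T.ls (nat_lit 3) (nat_lit 4)) (T.ts (nat_lit 2) (T.ls (nat_lit 1) (nat_lit 3)) (T.ts (nat_lit 1) (T.ls (nat_lit 1) (nat_lit 4)) (T.ts (nat_lit 0) (T.im (nat_lit 7) (nat_lit 2)) T.ie))))) (T.ts (nat_lit 1) (T.ts (nat_lit 4) (T.ls (nat_lit 1) (nat_lit 4)) (T.ts (nat_lit 3) (T.ls (nat_lit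 3) (nat_lit 4)) (T.ts (nat_lit 2) (T.ls (nat_lit 1) (nat_lit 3)) (T.ts (nat_lit 1) (T.ls (nat_lit 1) (nat_lit 4)) (T.ts (nat_lit 0) (T.im (nat_lit 7) (nat_lit 2)) T.ie))))) (T.ts (nat_lit 0) (T.im (nat_lit 7) (nat_lit 1)) T.ie))))))))
def d31 : T := (T.ts (nat_lit 2) (T.ts (nat_lit 3) (T.ts (nat_lit 3) (T.ls (nat_lit 3) (nat_lit 4)) (T.ts (nat_lit 1) (T.ls (nat_lit 1) (nat_lit 3)) (T.ts (nat_lit 2) (T.im (nat_lit 7) (nat_lit 2)) (T.ts (nat_lit 0) (T.im (nat_lit 5) (nat_lit 3)) (T.nw (T.ls (nat_lit 1) (nat_lit 3))))))) (T.ts (nat_lit 1) (T.ts (nat_lit 3) (T.ls (nat_lit 1) (nat_lit 3)) (T.ts (nat_lit 1) (T.ls (nat_lit 1) (nat_lit 3)) (T.ts (nat_lit 0) (T.ls (nat_lit 1) (nat_lit 4)) (T.ts (nat_lit 2) (T.im (nat_lit 7) (nat_lit 2)) (T.nw (T.ls (nat_lit 1) (nat_lit 3))))))) (T.ts (nat_lit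 0) (T.ts (nat_lit 3) (T.ls (nat_lit 1) (nat_lit 4)) (T.ts (nat_lit 1) (T.ls (nat_lit 1) (nat_lit 3)) (T.ts (nat_lit 0) (T.ls (nat_lit 1) (nat_lit 4)) (T.ts (nat_lit 2) (T.im (nat_lit 7) (nat_lit 2)) (T.nw (T.ls (nat_lit 1) (nat_lit 3))))))) (T.ts (nat_lit 2) (T.im (nat_lit 7) (nat_lit 1)) (T.nw (T.ts (nat_lit 4) (T.ls (nat_lit 1) (nat_lit 3)) (T.ts (nat_lit 2) (T.ls (nat_lit 1) (nat_lit 3)) (T.ts (nat_lit 1) (T.ls (nat_lit 1) (nat_lit 4)) (T.ts (nat_lit 0) (T.ls (nat_lit 1) (nat_lit 3)) (T.ts (nat_lit 3) (T.im (nat_lit 7) (nat_lit 2)) T.ie)))))))))) (T.ts (nat_lit 1) (T.ts (nat_lit 3) (T.ts (nat_lit 2) (T.ls (nat_lit 3) (nat_lit 4)) (T.ts (nat_lit 3) (T.im (nat_lit 3) (nat_lit 4)) (T.ts (nat_lit 1) (T.im (nat_lit 7) (nat_lit 2)) (T.ts (nat_lit 0) (T.im (nat_lit 5) (nat_lit 3)) (T.nw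 (T.ls (nat_lit 1) (nat_lit 3))))))) (T.ts (nat_lit 2) (T.ts (nat_lit 3) (T.ls (nat_lit 3) (nat_lit 4)) (T.ts (nat_lit 2) (T.ls (nat_lit 3) (nat_lit 4)) (T.ts (nat_lit 0) (T.ls (nat_lit 1) (nat_lit 4)) (T.ts (nat_lit 1) (T.im (nat_lit 7) (nat_lit 2)) (T.nw (T.ls (nat_lit 1) (nat_lit 3))))))) (T.ts (nat_lit 0) (T.ts (nat_lit 3) (T.ls (nat_lit 1) (nat_lit 4)) (T.ts (nat_lit 2) (T.ls (nat_lit 3) (nat_lit 4)) (T.ts (nat_lit 0) (T.ls (nat_lit 1) (nat_lit 4)) (T.ts (nat_lit 1) (T.im (nat_lit 7) (nat_lit 2)) (T.nw (T.ls (nat_lit 1) (nat_lit 3))))))) (T.ts (nat_lit 1) (T.im (nat_lit 7) (nat_lit 1)) (T.nw (T.ts (nat_lit 4) (T.ls (nat_lit 1) (nat_lit 3)) (T.ts (nat_lit 3) (T.ls (nat_lit 3) (nat_lit 4)) (T.ts (nat_lit 1) (T.ls (nat_lit 1) (nat_lit 4)) (T.ts (nat_lit 0) (T.ls (nat_lit 1) (nat_lit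 3)) (T.ts (nat_lit 2) (T.im (nat_lit 7) (nat_lit 2)) T.ie)))))))))) d30))
def d32 : T := (T.ts (nat_lit 1) (T.ts (nat_lit 3) (T.ts (nat_lit 3) (T.ls (nat_lit 1) (nat_lit 3)) (T.ts (nat_lit 2) (T.ls (nat_lit 2) (nat_lit 3)) (T.ts (nat_lit 1) (T.im (nat_lit 7) (nat_lit 2)) (T.ts (nat_lit 0) (T.im (nat_lit 3) (nat_lit 4)) (T.nw (T.ls (nat_lit 1) (nat_lit 2))))))) (T.ts (nat_lit 2) (T.ts (nat_lit 3) (T.ls (nat_lit 2) (nat_lit 3)) (T.ts (nat_lit 2) (T.ls (nat_lit 2) (nat_lit 3)) (T.ts (nat_lit 0) (T.ls (nat_lit 1) (nat_lit 2)) (T.ts (nat_lit 1) (T.im (nat_lit 7) (nat_lit 2)) (T.nw (T.ls (nat_lit 1) (nat_lit 2))))))) (T.ts (nat_lit 0) (T.ts (nat_lit 2) (T.ls (nat_lit 2) (nat_lit 3)) (T.ts (nat_lit 0) (T.ls (nat_lit 1) (nat_lit 2)) (T.ts (nat_lit 3) (T.im (nat_lit 5) (nat_lit 3)) (T.ts (nat_lit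 1) (T.im (nat_lit 7) (nat_lit 2)) (T.nw (T.ls (nat_lit 1) (nat_lit 2))))))) (T.ts (nat_lit 1) (T.im (nat_lit 7) (nat_lit 1)) (T.nw (T.ts (nat_lit 4) (T.ls (nat_lit 1) (nat_lit 2)) (T.ts (nat_lit 3) (T.ls (nat_lit 2) (nat_lit 3)) (T.ts (nat_lit 1) (T.ls (nat_lit 1) (nat_lit 2)) (T.ts (nat_lit 0) (T.ls (nat_lit 1) (nat_lit 2)) (T.ts (nat_lit 2) (T.im (nat_lit 7) (nat_lit 2)) T.ie)))))))))) (T.ts (nat_lit 0) (T.im (nat_lit 5) (nat_lit 2)) (T.nw (T.ts (nat_lit 4) (T.ts (nat_lit 4) (T.ls (nat_lit 1) (nat_lit 2)) (T.ts (nat_lit 3) (T.ls (nat_lit 2) (nat_lit 3)) (T.ts (nat_lit 2) (T.ls (nat_lit 1) (nat_lit 3)) (T.ts (nat_lit 1) (T.ls (nat_lit 1) (nat_lit 2)) (T.ts (nat_lit 0) (T.im (nat_lit 7) (nat_lit 2)) T.ie))))) (T.ts (nat_lit 3) (T.ts (nat_lit 4) (T.ls (nat_lit 2) (nat_lit 3)) (T.ts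 (nat_lit 3) (T.ls (nat_lit 2) (nat_lit 3)) (T.ts (nat_lit 2) (T.ls (nat_lit 1) (nat_lit 3)) (T.ts (nat_lit 1) (T.ls (nat_lit 1) (nat_lit 2)) (T.ts (nat_lit 0) (T.im (nat_lit 7) (nat_lit 2)) T.ie))))) (T.ts (nat_lit 2) (T.ts (nat_lit 4) (T.ls (nat_lit 1) (nat_lit 3)) (T.ts (nat_lit 3) (T.ls (nat_lit 2) (nat_lit 3)) (T.ts (nat_lit 2) (T.ls (nat_lit 1) (nat_lit 3)) (T.ts (nat_lit 1) (T.ls (nat_lit 1) (nat_lit 2)) (T.ts (nat_lit 0) (T.im (nat_lit 7) (nat_lit 2)) T.ie))))) (T.ts (nat_lit 1) (T.ts (nat_lit 3) (T.ls (nat_lit 2) (nat_lit 3)) (T.ts (nat_lit 2) (T.ls (nat_lit 1) (nat_lit 3)) (T.ts (nat_lit 1) (T.ls (nat_lit 1) (nat_lit 2)) (T.ts (nat_lit 4) (T.im (nat_lit 5) (nat_lit 3)) (T.ts (nat_lit 0) (T.im (nat_lit 7) (nat_lit 2)) T.ie))))) (T.ts (nat_lit 0) (T.im (nat_lit 7) (nat_lit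 1)) T.ie))))))))
def d33 : T := (T.ts (nat_lit 3) (T.ts (nat_lit 2) (T.ts (nat_lit 2) (T.ls (nat_lit 2) (nat_lit 3)) (T.ts (nat_lit 1) (T.ls (nat_lit 1) (nat_lit 4)) (T.ts (nat_lit 0) (T.ls (nat_lit 1) (nat_lit 2)) (T.ts (nat_lit 3) (T.im (nat_lit 7) (nat_lit 2)) (T.nw (T.ls (nat_lit 1) (nat_lit 2))))))) (T.ts (nat_lit 1) (T.ts (nat_lit 2) (T.ls (nat_lit 2) (nat_lit 3)) (T.ts (nat_lit 1) (T.ls (nat_lit 1) (nat_lit 3)) (T.ts (nat_lit 0) (T.ls (nat_lit 1) (nat_lit 2)) (T.ts (nat_lit 3) (T.im (nat_lit 7) (nat_lit 2)) (T.nw (T.ls (nat_lit 1) (nat_lit 2))))))) (T.ts (nat_lit 0) (T.ts (nat_lit 2) (T.ls (nat_lit 2) (nat_lit 3)) (T.ts (nat_lit 1) (T.ls (nat_lit 1) (nat_lit 3)) (T.ts (nat_lit 0) (T.ls (nat_lit 1) (nat_lit 2)) (T.ts (nat_lit 3) (T.im (nat_lit 5) (nat_lit 3)) (T.nw (T.ls (nat_lit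 1) (nat_lit 2))))))) (T.ts (nat_lit 3) (T.im (nat_lit 7) (nat_lit 1)) (T.nw (T.ts (nat_lit 3) (T.ls (nat_lit 2) (nat_lit 3)) (T.ts (nat_lit 2) (T.ls (nat_lit 1) (nat_lit 3)) (T.ts (nat_lit 1) (T.ls (nat_lit 1) (nat_lit 2)) (T.ts (nat_lit 0) (T.ls (nat_lit 1) (nat_lit 2)) (T.ts (nat_lit 4) (T.im (nat_lit 7) (nat_lit 2)) T.ie)))))))))) (T.ts (nat_lit 2) (T.ts (nat_lit 3) (T.ts (nat_lit 3) (T.ls (nat_lit 2) (nat_lit 3)) (T.ts (nat_lit 1) (T.ls (nat_lit 1) (nat_lit 3)) (T.ts (nat_lit 0) (T.ls (nat_lit 1) (nat_lit 2)) (T.ts (nat_lit 2) (T.im (nat_lit 7) (nat_lit 2)) (T.nw (T.ls (nat_lit 1) (nat_lit 2))))))) (T.ts (nat_lit 1) (T.ts (nat_lit 1) (T.ls (nat_lit 1) (nat_lit 3)) (T.ts (nat_lit 0) (T.ls (nat_lit 1) (nat_lit 2)) (T.ts (nat_lit 3) (T.im (nat_lit 1) (nat_lit 5)) (T.ts (nat_lit 2)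 (T.im (nat_lit 7) (nat_lit 2)) (T.nw (T.ls (nat_lit 1) (nat_lit 2))))))) (T.ts (nat_lit 0) (T.ts (nat_lit 1) (T.ls (nat_lit 1) (nat_lit 3)) (T.ts (nat_lit 0) (T.ls (nat_lit 1) (nat_lit 2)) (T.ts (nat_lit 3) (T.im (nat_lit 5) (nat_lit 3)) (T.ts (nat_lit 2) (T.im (nat_lit 7) (nat_lit 2)) (T.nw (T.ls (nat_lit 1) (nat_lit 2))))))) (T.ts (nat_lit 2) (T.im (nat_lit 7) (nat_lit 1)) (T.nw (T.ts (nat_lit 4) (T.ls (nat_lit 1) (nat_lit 2)) (T.ts (nat_lit 2) (T.ls (nat_lit 1) (nat_lit 3)) (T.ts (nat_lit 1) (T.ls (nat_lit 1) (nat_lit 2)) (T.ts (nat_lit 0) (T.ls (nat_lit 1) (nat_lit 2)) (T.ts (nat_lit 3) (T.im (nat_lit 7) (nat_lit 2)) T.ie)))))))))) d32))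
def d34 : T := (T.ts (nat_lit 1) (T.ts (nat_lit 3) (T.ts (nat_lit 3) (T.ls (nat_lit 1) (nat_lit 3)) (T.ts (nat_lit 2) (T.ls (nat_lit 2) (nat_lit 3)) (T.ts (nat_lit 1) (T.im (nat_lit 7) (nat_lit 2)) (T.ts (nat_lit 0) (T.im (nat_lit 3) (nat_lit 4)) (T.nw (T.ls (nat_lit 1) (nat_lit 2))))))) (T.ts (nat_lit 2) (T.ts (nat_lit 3) (T.ls (nat_lit 2) (nat_lit 3)) (T.ts (nat_lit 2) (T.ls (nat_lit 2) (nat_lit 3)) (T.ts (nat_lit 0) (T.ls (nat_lit 1) (nat_lit 2)) (T.ts (nat_lit 1) (T.im (nat_lit 7) (nat_lit 2)) (T.nw (T.ls (nat_lit 1) (nat_lit 2))))))) (T.ts (nat_lit 0) (T.ts (nat_lit 3) (T.ls (nat_lit 1) (nat_lit 2)) (T.ts (nat_lit 0) (T.ls (nat_lit 1) (nat_lit 2)) (T.ts (nat_lit 2) (T.im (nat_lit 5) (nat_lit 3)) (T.ts (nat_lit 1) (T.im (nat_lit 7) (nat_lit 2)) (T.nw (T.ls (nat_lit 1) (nat_lit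 2))))))) (T.ts (nat_lit 1) (T.im (nat_lit 7) (nat_lit 1)) (T.nw (T.ts (nat_lit 4) (T.ls (nat_lit 1) (nat_lit 2)) (T.ts (nat_lit 3) (T.ls (nat_lit 2) (nat_lit 3)) (T.ts (nat_lit 1) (T.ls (nat_lit 1) (nat_lit 2)) (T.ts (nat_lit 0) (T.ls (nat_lit 1) (nat_lit 2)) (T.ts (nat_lit 2) (T.im (nat_lit 7) (nat_lit 2)) T.ie)))))))))) (T.ts (nat_lit 0) (T.im (nat_lit 5) (nat_lit 2)) (T.nw (T.ts (nat_lit 4) (T.ts (nat_lit 4) (T.ls (nat_lit 1) (nat_lit 2)) (T.ts (nat_lit 3) (T.ls (nat_lit 2) (nat_lit 3)) (T.ts (nat_lit 2) (T.ls (nat_lit 1) (nat_lit 3)) (T.ts (nat_lit 1) (T.ls (nat_lit 1) (nat_lit 2)) (T.ts (nat_lit 0) (T.im (nat_lit 7) (nat_lit 2)) T.ie))))) (T.ts (nat_lit 3) (T.ts (nat_lit 4) (T.ls (nat_lit 2) (nat_lit 3)) (T.ts (nat_lit 3) (T.ls (nat_lit 2) (nat_lit 3)) (T.ts (nat_lit 2) (T.ls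 (nat_lit 1) (nat_lit 3)) (T.ts (nat_lit 1) (T.ls (nat_lit 1) (nat_lit 2)) (T.ts (nat_lit 0) (T.im (nat_lit 7) (nat_lit 2)) T.ie))))) (T.ts (nat_lit 2) (T.ts (nat_lit 4) (T.ls (nat_lit 1) (nat_lit 3)) (T.ts (nat_lit 3) (T.ls (nat_lit 2) (nat_lit 3)) (T.ts (nat_lit 2) (T.ls (nat_lit 1) (nat_lit 3)) (T.ts (nat_lit 1) (T.ls (nat_lit 1) (nat_lit 2)) (T.ts (nat_lit 0) (T.im (nat_lit 7) (nat_lit 2)) T.ie))))) (T.ts (nat_lit 1) (T.ts (nat_lit 4) (T.ls (nat_lit 1) (nat_lit 2)) (T.ts (nat_lit 2) (T.ls (nat_lit 1) (nat_lit 3)) (T.ts (nat_lit 1) (T.ls (nat_lit 1) (nat_lit 2)) (T.ts (nat_lit 3) (T.im (nat_lit 5) (nat_lit 3)) (T.ts (nat_lit 0) (T.im (nat_lit 7) (nat_lit 2)) T.ie))))) (T.ts (nat_lit 0) (T.im (nat_lit 7) (nat_lit 1)) T.ie))))))))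
def d35 : T := (T.ts (nat_lit 3) (T.ts (nat_lit 2) (T.ts (nat_lit 2) (T.ls (nat_lit 2) (nat_lit 3)) (T.ts (nat_lit 1) (T.ls (nat_lit 1) (nat_lit 3)) (T.ts (nat_lit 0) (T.ls (nat_lit 1) (nat_lit 2)) (T.ts (nat_lit 3) (T.im (nat_lit 7) (nat_lit 2)) (T.nw (T.ls (nat_lit 1) (nat_lit 2))))))) (T.ts (nat_lit 1) (T.ts (nat_lit 2) (T.ls (nat_lit 2) (nat_lit 3)) (T.ts (nat_lit 1) (T.ls (nat_lit 1) (nat_lit 3)) (T.ts (nat_lit 0) (T.ls (nat_lit 1) (nat_lit 2)) (T.ts (nat_lit 3) (T.im (nat_lit 7) (nat_lit 2)) (T.nw (T.ls (nat_lit 1) (nat_lit 2))))))) (T.ts (nat_lit 0) (T.ts (nat_lit 1) (T.ls (nat_lit 1) (nat_lit 3)) (T.ts (nat_lit 0) (T.ls (nat_lit 1) (nat_lit 2)) (T.ts (nat_lit 3) (T.im (nat_lit 7) (nat_lit 2)) (T.ts (nat_lit 2) (T.im (nat_lit 5) (nat_lit 3)) (T.nw (T.ls (nat_lit 1) (nat_lit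 2))))))) (T.ts (nat_lit 3) (T.im (nat_lit 7) (nat_lit 1)) (T.nw (T.ts (nat_lit 3) (T.ls (nat_lit 2) (nat_lit 3)) (T.ts (nat_lit 2) (T.ls (nat_lit 1) (nat_lit 3)) (T.ts (nat_lit 1) (T.ls (nat_lit 1) (nat_lit 2)) (T.ts (nat_lit 0) (T.ls (nat_lit 1) (nat_lit 2)) (T.ts (nat_lit 4) (T.im (nat_lit 7) (nat_lit 2)) T.ie)))))))))) (T.ts (nat_lit 2) (T.ts (nat_lit 3) (T.ts (nat_lit 3) (T.ls (nat_lit 2) (nat_lit 3)) (T.ts (nat_lit 1) (T.ls (nat_lit 1) (nat_lit 3)) (T.ts (nat_lit 0) (T.ls (nat_lit 1) (nat_lit 2)) (T.ts (nat_lit 2) (T.im (nat_lit 7) (nat_lit 2)) (T.nw (T.ls (nat_lit 1) (nat_lit 2))))))) (T.ts (nat_lit 1) (T.ts (nat_lit 3) (T.ls (nat_lit 1) (nat_lit 3)) (T.ts (nat_lit 1) (T.ls (nat_lit 1) (nat_lit 3)) (T.ts (nat_lit 0) (T.ls (nat_lit 1) (nat_lit 2)) (T.ts (nat_lit 2) (T.im (nat_lit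 7) (nat_lit 2)) (T.nw (T.ls (nat_lit 1) (nat_lit 2))))))) (T.ts (nat_lit 0) (T.ts (nat_lit 3) (T.ls (nat_lit 1) (nat_lit 2)) (T.ts (nat_lit 1) (T.ls (nat_lit 1) (nat_lit 3)) (T.ts (nat_lit 0) (T.ls (nat_lit 1) (nat_lit 2)) (T.ts (nat_lit 2) (T.im (nat_lit 5) (nat_lit 3)) (T.nw (T.ls (nat_lit 1) (nat_lit 2))))))) (T.ts (nat_lit 2) (T.im (nat_lit 7) (nat_lit 1)) (T.nw (T.ts (nat_lit 4) (T.ls (nat_lit 1) (nat_lit 2)) (T.ts (nat_lit 2) (T.ls (nat_lit 1) (nat_lit 3)) (T.ts (nat_lit 1) (T.ls (nat_lit 1) (nat_lit 2)) (T.ts (nat_lit 0) (T.ls (nat_lit 1) (nat_lit 2)) (T.ts (nat_lit 3) (T.im (nat_lit 7) (nat_lit 2)) T.ie)))))))))) d34))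
def d36 : T := (T.ts (nat_lit 1) (T.ts (nat_lit 3) (T.ts (nat_lit 3) (T.ls (nat_lit 1) (nat_lit 3)) (T.ts (nat_lit 2) (T.ls (nat_lit 2) (nat_lit 3)) (T.ts (nat_lit 1) (T.im (nat_lit 7) (nat_lit 2)) (T.ts (nat_lit 0) (T.im (nat_lit 3) (nat_lit 4)) (T.nw (T.ls (nat_lit 1) (nat_lit 2))))))) (T.ts (nat_lit 2) (T.ts (nat_lit 3) (T.ls (nat_lit 2) (nat_lit 3)) (T.ts (nat_lit 2) (T.ls (nat_lit 2) (nat_lit 3)) (T.ts (nat_lit 0) (T.ls (nat_lit 1) (nat_lit 2)) (T.ts (nat_lit 1) (T.im (nat_lit 7) (nat_lit 2)) (T.nw (T.ls (nat_lit 1) (nat_lit 2))))))) (T.ts (nat_lit 0) (T.ts (nat_lit 3) (T.ls (nat_lit 1) (nat_lit 2)) (T.ts (nat_lit 2) (T.ls (nat_lit 2) (nat_lit 3)) (T.ts (nat_lit 0) (T.ls (nat_lit 1) (nat_lit 2)) (T.ts (nat_lit 1) (T.im (nat_lit 5) (nat_lit 3)) (T.nw (T.ls (nat_lit 1) (nat_lit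 2))))))) (T.ts (nat_lit 1) (T.im (nat_lit 7) (nat_lit 1)) (T.nw (T.ts (nat_lit 4) (T.ls (nat_lit 1) (nat_lit 2)) (T.ts (nat_lit 3) (T.ls (nat_lit 2) (nat_lit 3)) (T.ts (nat_lit 1) (T.ls (nat_lit 1) (nat_lit 2)) (T.ts (nat_lit 0) (T.ls (nat_lit 1) (nat_lit 2)) (T.ts (nat_lit 2) (T.im (nat_lit 7) (nat_lit 2)) T.ie)))))))))) (T.ts (nat_lit 3) (T.im (nat_lit 3) (nat_lit 3)) (T.ts (nat_lit 0) (T.im (nat_lit 5) (nat_lit 2)) (T.nw (T.ts (nat_lit 4) (T.ts (nat_lit 4) (T.ls (nat_lit 1) (nat_lit 2)) (T.ts (nat_lit 3) (T.ls (nat_lit 2) (nat_lit 3)) (T.ts (nat_lit 2) (T.ls (nat_lit 1) (nat_lit 3)) (T.ts (nat_lit 1) (T.ls (nat_lit 1) (nat_lit 2)) (T.ts (nat_lit 0) (T.im (nat_lit 7) (nat_lit 2)) T.ie))))) (T.ts (nat_lit 3) (T.ts (nat_lit 4) (T.ls (nat_lit 2) (nat_lit 3)) (T.ts (nat_lit 3) (T.ls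 (nat_lit 2) (nat_lit 3)) (T.ts (nat_lit 2) (T.ls (nat_lit 1) (nat_lit 3)) (T.ts (nat_lit 1) (T.ls (nat_lit 1) (nat_lit 2)) (T.ts (nat_lit 0) (T.im (nat_lit 7) (nat_lit 2)) T.ie))))) (T.ts (nat_lit 2) (T.ts (nat_lit 4) (T.ls (nat_lit 1) (nat_lit 3)) (T.ts (nat_lit 3) (T.ls (nat_lit 2) (nat_lit 3)) (T.ts (nat_lit 2) (T.ls (nat_lit 1) (nat_lit 3)) (T.ts (nat_lit 1) (T.ls (nat_lit 1) (nat_lit 2)) (T.ts (nat_lit 0) (T.im (nat_lit 7) (nat_lit 2)) T.ie))))) (T.ts (nat_lit 1) (T.ts (nat_lit 4) (T.ls (nat_lit 1) (nat_lit 2)) (T.ts (nat_lit 3) (T.ls (nat_lit 2) (nat_lit 3)) (T.ts (nat_lit 1) (T.ls (nat_lit 1) (nat_lit 2)) (T.ts (nat_lit 2) (T.im (nat_lit 5) (nat_lit 3)) (T.ts (nat_lit 0) (T.im (nat_lit 7) (nat_lit 2)) T.ie))))) (T.ts (nat_lit 0) (T.im (nat_lit 7) (nat_lit 1)) T.ie)))))))))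
def d37 : T := (T.ts (nat_lit 2) (T.ts (nat_lit 4) (T.ts (nat_lit 4) (T.ls (nat_lit 1) (nat_lit 3)) (T.ts (nat_lit 3) (T.ls (nat_lit 2) (nat_lit 3)) (T.ts (nat_lit 0) (T.ls (nat_lit 1) (nat_lit 2)) (T.ts (nat_lit 2) (T.im (nat_lit 7) (nat_lit 2)) (T.ts (nat_lit 1) (T.im (nat_lit 3) (nat_lit 4)) T.ie))))) (T.ts (nat_lit 3) (T.ts (nat_lit 4) (T.ls (nat_lit 2) (nat_lit 3)) (T.ts (nat_lit 3) (T.ls (nat_lit 2) (nat_lit 3)) (T.ts (nat_lit 1) (T.ls (nat_lit 1) (nat_lit 2)) (T.ts (nat_lit 0) (T.ls (nat_lit 1) (nat_lit 2)) (T.ts (nat_lit 2) (T.im (nat_lit 7) (nat_lit 2)) T.ie))))) (T.ts (nat_lit 1) (T.ts (nat_lit 4) (T.ls (nat_lit 1) (nat_lit 2)) (T.ts (nat_lit 3) (T.ls (nat_lit 2) (nat_lit 3)) (T.ts (nat_lit 1) (T.ls (nat_lit 1) (nat_lit 2)) (T.ts (nat_lit 2) (T.im (nat_lit 7) (nat_lit 2))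 (T.ts (nat_lit 0) (T.im (nat_lit 5) (nat_lit 3)) T.ie))))) (T.ts (nat_lit 0) (T.ts (nat_lit 4) (T.ls (nat_lit 1) (nat_lit 2)) (T.ts (nat_lit 3) (T.ls (nat_lit 2) (nat_lit 3)) (T.ts (nat_lit 1) (T.ls (nat_lit 1) (nat_lit 2)) (T.ts (nat_lit 0) (T.ls (nat_lit 1) (nat_lit 2)) (T.ts (nat_lit 2) (T.im (nat_lit 7) (nat_lit 2)) T.ie))))) (T.ts (nat_lit 2) (T.im (nat_lit 7) (nat_lit 1)) T.ie))))) (T.ts (nat_lit 0) (T.ts (nat_lit 4) (T.ts (nat_lit 4) (T.ls (nat_lit 1) (nat_lit 2)) (T.ts (nat_lit 3) (T.ls (nat_lit 2) (nat_lit 3)) (T.ts (nat_lit 2) (T.ls (nat_lit 1) (nat_lit 3)) (T.ts (nat_lit 1) (T.ls (nat_lit 1) (nat_lit 2)) (T.ts (nat_lit 0) (T.im (nat_lit 7) (nat_lit 2)) T.ie))))) (T.ts (nat_lit 3) (T.ts (nat_lit 4) (T.ls (nat_lit 2) (nat_lit 3)) (T.ts (nat_lit 3) (T.ls (nat_lit 2) (nat_lit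 3)) (T.ts (nat_lit 2) (T.ls (nat_lit 1) (nat_lit 3)) (T.ts (nat_lit 1) (T.ls (nat_lit 1) (nat_lit 2)) (T.ts (nat_lit 0) (T.im (nat_lit 7) (nat_lit 2)) T.ie))))) (T.ts (nat_lit 2) (T.ts (nat_lit 4) (T.ls (nat_lit 1) (nat_lit 3)) (T.ts (nat_lit 3) (T.ls (nat_lit 2) (nat_lit 3)) (T.ts (nat_lit 2) (T.ls (nat_lit 1) (nat_lit 3)) (T.ts (nat_lit 1) (T.ls (nat_lit 1) (nat_lit 2)) (T.ts (nat_lit 0) (T.im (nat_lit 7) (nat_lit 2)) T.ie))))) (T.ts (nat_lit 1) (T.ts (nat_lit 4) (T.ls (nat_lit 1) (nat_lit 2)) (T.ts (nat_lit 3) (T.ls (nat_lit 2) (nat_lit 3)) (T.ts (nat_lit 2) (T.ls (nat_lit 1) (nat_lit 3)) (T.ts (nat_lit 1) (T.ls (nat_lit 1) (nat_lit 2)) (T.ts (nat_lit 0) (T.im (nat_lit 5) (nat_lit 3)) T.ie))))) (T.ts (nat_lit 0) (T.im (nat_lit 7) (nat_lit 1)) T.ie))))) (T.ts (nat_lit 1) (T.im (nat_lit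 5) (nat_lit 2)) T.ie)))
def d38 : T := (T.ts (nat_lit 4) (T.ts (nat_lit 3) (T.ts (nat_lit 3) (T.ls (nat_lit 2) (nat_lit 3)) (T.ts (nat_lit 2) (T.ls (nat_lit 1) (nat_lit 3)) (T.ts (nat_lit 1) (T.ls (nat_lit 1) (nat_lit 2)) (T.ts (nat_lit 0) (T.ls (nat_lit 1) (nat_lit 2)) (T.ts (nat_lit 4) (T.im (nat_lit 7) (nat_lit 2)) T.ie))))) (T.ts (nat_lit 2) (T.ts (nat_lit 3) (T.ls (nat_lit 2) (nat_lit 3)) (T.ts (nat_lit 2) (T.ls (nat_lit 1) (nat_lit 3)) (T.ts (nat_lit 1) (T.ls (nat_lit 1) (nat_lit 2)) (T.ts (nat_lit 0) (T.ls (nat_lit 1) (nat_lit 2)) (T.ts (nat_lit 4) (T.im (nat_lit 7) (nat_lit 2)) T.ie))))) (T.ts (nat_lit 1) (T.ts (nat_lit 3) (T.ls (nat_lit 2) (nat_lit 3)) (T.ts (nat_lit 2) (T.ls (nat_lit 1) (nat_lit 3)) (T.ts (nat_lit 1) (T.ls (nat_lit 1) (nat_lit 2)) (T.ts (nat_lit 4) (T.im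 (nat_lit 7) (nat_lit 2)) (T.ts (nat_lit 0) (T.im (nat_lit 5) (nat_lit 3)) T.ie))))) (T.ts (nat_lit 0) (T.ts (nat_lit 3) (T.ls (nat_lit 2) (nat_lit 3)) (T.ts (nat_lit 2) (T.ls (nat_lit 1) (nat_lit 3)) (T.ts (nat_lit 1) (T.ls (nat_lit 1) (nat_lit 2)) (T.ts (nat_lit 0) (T.ls (nat_lit 1) (nat_lit 2)) (T.ts (nat_lit 4) (T.im (nat_lit 7) (nat_lit 2)) T.ie))))) (T.ts (nat_lit 4) (T.im (nat_lit 7) (nat_lit 1)) T.ie))))) (T.ts (nat_lit 3) (T.ts (nat_lit 4) (T.ts (nat_lit 4) (T.ls (nat_lit 2) (nat_lit 3)) (T.ts (nat_lit 2) (T.ls (nat_lit 1) (nat_lit 3)) (T.ts (nat_lit 1) (T.ls (nat_lit 1) (nat_lit 2)) (T.ts (nat_lit 0) (T.ls (nat_lit 1) (nat_lit 2)) (T.ts (nat_lit 3) (T.im (nat_lit 7) (nat_lit 2)) T.ie))))) (T.ts (nat_lit 2) (T.ts (nat_lit 4) (T.ls (nat_lit 1) (nat_lit 3)) (T.ts (nat_lit 2)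 (T.ls (nat_lit 1) (nat_lit 3)) (T.ts (nat_lit 1) (T.ls (nat_lit 1) (nat_lit 2)) (T.ts (nat_lit 0) (T.ls (nat_lit 1) (nat_lit 2)) (T.ts (nat_lit 3) (T.im (nat_lit 7) (nat_lit 2)) T.ie))))) (T.ts (nat_lit 1) (T.ts (nat_lit 4) (T.ls (nat_lit 1) (nat_lit 2)) (T.ts (nat_lit 2) (T.ls (nat_lit 1) (nat_lit 3)) (T.ts (nat_lit 1) (T.ls (nat_lit 1) (nat_lit 2)) (T.ts (nat_lit 3) (T.im (nat_lit 7) (nat_lit 2)) (T.ts (nat_lit 0) (T.im (nat_lit 5) (nat_lit 3)) T.ie))))) (T.ts (nat_lit 0) (T.ts (nat_lit 4) (T.ls (nat_lit 1) (nat_lit 2)) (T.ts (nat_lit 2) (T.ls (nat_lit 1) (nat_lit 3)) (T.ts (nat_lit 1) (T.ls (nat_lit 1) (nat_lit 2)) (T.ts (nat_lit 0) (T.ls (nat_lit 1) (nat_lit 2)) (T.ts (nat_lit 3) (T.im (nat_lit 7) (nat_lit 2)) T.ie))))) (T.ts (nat_lit 3) (T.im (nat_lit 7) (nat_lit 1)) T.ie)))))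 d37))
def d39 : T := (T.ts (nat_lit 0) (T.im (nat_lit 3) (nat_lit 2)) (T.nw (T.ts (nat_lit 3) d33 (T.ts (nat_lit 2) d35 (T.ts (nat_lit 1) (T.ts (nat_lit 2) (T.ts (nat_lit 3) (T.ts (nat_lit 3) (T.ls (nat_lit 2) (nat_lit 3)) (T.ts (nat_lit 1) (T.ls (nat_lit 1) (nat_lit 3)) (T.ts (nat_lit 0) (T.ls (nat_lit 1) (nat_lit 2)) (T.ts (nat_lit 2) (T.im (nat_lit 7) (nat_lit 2)) (T.nw (T.ls (nat_lit 1) (nat_lit 2))))))) (T.ts (nat_lit 1) (T.ts (nat_lit 3) (T.ls (nat_lit 1) (nat_lit 3)) (T.ts (nat_lit 1) (T.ls (nat_lit 1) (nat_lit 3)) (T.ts (nat_lit 0) (T.ls (nat_lit 1) (nat_lit 2)) (T.ts (nat_lit 2) (T.im (nat_lit 7) (nat_lit 2)) (T.nw (T.ls (nat_lit 1) (nat_lit 2))))))) (T.ts (nat_lit 0) (T.ts (nat_lit 3) (T.ls (nat_lit 1) (nat_lit 2)) (T.ts (nat_lit 0) (T.ls (nat_lit 1) (nat_lit 2)) (T.ts (nat_lit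 2) (T.im (nat_lit 7) (nat_lit 2)) (T.ts (nat_lit 1) (T.im (nat_lit 5) (nat_lit 3)) (T.nw (T.ls (nat_lit 1) (nat_lit 2))))))) (T.ts (nat_lit 2) (T.im (nat_lit 7) (nat_lit 1)) (T.nw (T.ts (nat_lit 4) (T.ls (nat_lit 1) (nat_lit 2)) (T.ts (nat_lit 2) (T.ls (nat_lit 1) (nat_lit 3)) (T.ts (nat_lit 1) (T.ls (nat_lit 1) (nat_lit 2)) (T.ts (nat_lit 0) (T.ls (nat_lit 1) (nat_lit 2)) (T.ts (nat_lit 3) (T.im (nat_lit 7) (nat_lit 2)) T.ie)))))))))) d36) (T.ts (nat_lit 0) (T.im (nat_lit 5) (nat_lit 1)) (T.nw d38)))))))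
def d40 : T := (T.ts (nat_lit 2) (T.ts (nat_lit 1) d28 (T.ts (nat_lit 0) (T.ts (nat_lit 1) (T.ts (nat_lit 2) (T.ts (nat_lit 2) (T.ls (nat_lit 3) (nat_lit 4)) (T.ts (nat_lit 1) (T.im (nat_lit 7) (nat_lit 2)) (T.ts (nat_lit 0) (T.im (nat_lit 5) (nat_lit 3)) (T.nw (T.ls (nat_lit 1) (nat_lit 4)))))) (T.ts (nat_lit 0) (T.ts (nat_lit 2) (T.ls (nat_lit 1) (nat_lit 3)) (T.ts (nat_lit 0) (T.ls (nat_lit 1) (nat_lit 3)) (T.ts (nat_lit 1) (T.im (nat_lit 7) (nat_lit 2)) (T.nw (T.ls (nat_lit 1) (nat_lit 4)))))) (T.ts (nat_lit 1) (T.im (nat_lit 7) (nat_lit 1)) (T.nw (T.ts (nat_lit 3) (T.ls (nat_lit 1) (nat_lit 4)) (T.ts (nat_lit 1) (T.ls (nat_lit 1) (nat_lit 3)) (T.ts (nat_lit 0) (T.ls (nat_lit 1) (nat_lit 4)) (T.ts (nat_lit 2) (T.im (nat_lit 7) (nat_lit 2)) (T.nw (T.ls (nat_lit 1) (nat_lit 3)))))))))))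 d29) (T.ts (nat_lit 2) (T.im (nat_lit 5) (nat_lit 1)) (T.nw d31)))) (T.ts (nat_lit 1) (T.im (nat_lit 1) (nat_lit 3)) d39))
def d41 : T := (T.ts (nat_lit 1) (T.ts (nat_lit 2) (T.ts (nat_lit 2) (T.ls (nat_lit 2) (nat_lit 3)) (T.ts (nat_lit 0) (T.ls (nat_lit 1) (nat_lit 3)) (T.ts (nat_lit 1) (T.im (nat_lit 5) (nat_lit 3)) (T.nw (T.ls (nat_lit 1) (nat_lit 2)))))) (T.ts (nat_lit 0) (T.ts (nat_lit 2) (T.ls (nat_lit 1) (nat_lit 3)) (T.ts (nat_lit 0) (T.ls (nat_lit 1) (nat_lit 3)) (T.ts (nat_lit 1) (T.im (nat_lit 7) (nat_lit 2)) (T.nw (T.ls (nat_lit 1) (nat_lit 2)))))) (T.ts (nat_lit 1) (T.im (nat_lit 7) (nat_lit 1)) (T.nw (T.ts (nat_lit 3) (T.ls (nat_lit 1) (nat_lit 2)) (T.ts (nat_lit 1) (T.ls (nat_lit 1) (nat_lit 3)) (T.ts (nat_lit 0) (T.ls (nat_lit 1) (nat_lit 2)) (T.ts (nat_lit 2) (T.im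 (nat_lit 7) (nat_lit 2)) (T.nw (T.ls (nat_lit 1) (nat_lit 2))))))))))) (T.ts (nat_lit 2) (T.im (nat_lit 5) (nat_lit 2)) (T.ts (nat_lit 0) (T.im (nat_lit 1) (nat_lit 4)) (T.nw (T.ts (nat_lit 3) (T.ts (nat_lit 3) (T.ls (nat_lit 1) (nat_lit 2)) (T.ts (nat_lit 1) (T.ls (nat_lit 1) (nat_lit 3)) (T.ts (nat_lit 2) (T.im (nat_lit 5) (nat_lit 3)) (T.ts (nat_lit 0) (T.im (nat_lit 7) (nat_lit 2)) (T.nw (T.ls (nat_lit 1) (nat_lit 2))))))) (T.ts (nat_lit 2) (T.ts (nat_lit 3) (T.ls (nat_lit 2) (nat_lit 3)) (T.ts (nat_lit 2) (T.ls (nat_lit 2) (nat_lit 3)) (T.ts (nat_lit 1) (T.ls (nat_lit 1) (nat_lit 3)) (T.ts (nat_lit 0) (T.im (nat_lit 7) (nat_lit 2)) (T.nw (T.ls (nat_lit 1) (nat_lit 2))))))) (T.ts (nat_lit 1) (T.ts (nat_lit 3) (T.ls (nat_lit 1) (nat_lit 3)) (T.ts (nat_lit 2) (T.ls (nat_lit 2) (nat_lit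 3)) (T.ts (nat_lit 1) (T.ls (nat_lit 1) (nat_lit 3)) (T.ts (nat_lit 0) (T.im (nat_lit 7) (nat_lit 2)) (T.nw (T.ls (nat_lit 1) (nat_lit 2))))))) (T.ts (nat_lit 0) (T.im (nat_lit 7) (nat_lit 1)) (T.nw (T.ts (nat_lit 4) (T.ls (nat_lit 1) (nat_lit 2)) (T.ts (nat_lit 3) (T.ls (nat_lit 2) (nat_lit 3)) (T.ts (nat_lit 2) (T.ls (nat_lit 1) (nat_lit 3)) (T.ts (nat_lit 0) (T.ls (nat_lit 1) (nat_lit 2)) (T.ts (nat_lit 1) (T.im (nat_lit 7) (nat_lit 2)) T.ie))))))))))))))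
def d42 : T := (T.ts (nat_lit 0) (T.ts (nat_lit 2) (T.ts (nat_lit 2) (T.ls (nat_lit 1) (nat_lit 3)) (T.ts (nat_lit 1) (T.ls (nat_lit 2) (nat_lit 3)) (T.ts (nat_lit 0) (T.im (nat_lit 5) (nat_lit 3)) (T.nw (T.ls (nat_lit 1) (nat_lit 2)))))) (T.ts (nat_lit 1) (T.ts (nat_lit 1) (T.ls (nat_lit 2) (nat_lit 3)) (T.ts (nat_lit 2) (T.im (nat_lit 3) (nat_lit 4)) (T.ts (nat_lit 0) (T.im (nat_lit 7) (nat_lit 2)) (T.nw (T.ls (nat_lit 1) (nat_lit 2)))))) (T.ts (nat_lit 0) (T.im (nat_lit 7) (nat_lit 1)) (T.nw (T.ts (nat_lit 3) (T.ls (nat_lit 1) (nat_lit 2)) (T.ts (nat_lit 2) (T.ls (nat_lit 2) (nat_lit 3)) (T.ts (nat_lit 0) (T.ls (nat_lit 1) (nat_lit 2)) (T.ts (nat_lit 1) (T.im (nat_lit 7) (nat_lit 2)) (T.nw (T.ls (nat_lit 1) (nat_lit 2))))))))))) (T.ts (nat_lit 2) (T.im (nat_lit 5) (nat_lit 2))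 (T.ts (nat_lit 1) (T.im (nat_lit 3) (nat_lit 3)) (T.nw (T.ts (nat_lit 3) (T.ts (nat_lit 3) (T.ls (nat_lit 1) (nat_lit 2)) (T.ts (nat_lit 2) (T.ls (nat_lit 2) (nat_lit 3)) (T.ts (nat_lit 1) (T.im (nat_lit 5) (nat_lit 3)) (T.ts (nat_lit 0) (T.im (nat_lit 7) (nat_lit 2)) (T.nw (T.ls (nat_lit 1) (nat_lit 2))))))) (T.ts (nat_lit 2) (T.ts (nat_lit 3) (T.ls (nat_lit 2) (nat_lit 3)) (T.ts (nat_lit 2) (T.ls (nat_lit 2) (nat_lit 3)) (T.ts (nat_lit 1) (T.ls (nat_lit 1) (nat_lit 3)) (T.ts (nat_lit 0) (T.im (nat_lit 7) (nat_lit 2)) (T.nw (T.ls (nat_lit 1) (nat_lit 2))))))) (T.ts (nat_lit 1) (T.ts (nat_lit 3) (T.ls (nat_lit 1) (nat_lit 3)) (T.ts (nat_lit 2) (T.ls (nat_lit 2) (nat_lit 3)) (T.ts (nat_lit 1) (T.ls (nat_lit 1) (nat_lit 3)) (T.ts (nat_lit 0) (T.im (nat_lit 7) (nat_lit 2)) (T.nw (T.ls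 (nat_lit 1) (nat_lit 2))))))) (T.ts (nat_lit 0) (T.im (nat_lit 7) (nat_lit 1)) (T.nw (T.ts (nat_lit 4) (T.ls (nat_lit 1) (nat_lit 2)) (T.ts (nat_lit 3) (T.ls (nat_lit 2) (nat_lit 3)) (T.ts (nat_lit 2) (T.ls (nat_lit 1) (nat_lit 3)) (T.ts (nat_lit 0) (T.ls (nat_lit 1) (nat_lit 2)) (T.ts (nat_lit 1) (T.im (nat_lit 7) (nat_lit 2)) T.ie))))))))))))))
def d43 : T := (T.ts (nat_lit 0) (T.ts (nat_lit 3) (T.ts (nat_lit 3) (T.ls (nat_lit 1) (nat_lit 2)) (T.ts (nat_lit 2) (T.ls (nat_lit 2) (nat_lit 3)) (T.ts (nat_lit 1) (T.ls (nat_lit 1) (nat_lit 3)) (T.ts (nat_lit 0) (T.im (nat_lit 5) (nat_lit 3)) (T.nw (T.ls (nat_lit 1) (nat_lit 2))))))) (T.ts (nat_lit 2) (T.ts (nat_lit 3) (T.ls (nat_lit 2) (nat_lit 3)) (T.ts (nat_lit 2) (T.ls (nat_lit 2) (nat_lit 3)) (T.ts (nat_lit 1) (T.ls (nat_lit 1) (nat_lit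 3)) (T.ts (nat_lit 0) (T.im (nat_lit 7) (nat_lit 2)) (T.nw (T.ls (nat_lit 1) (nat_lit 2))))))) (T.ts (nat_lit 1) (T.ts (nat_lit 3) (T.ls (nat_lit 1) (nat_lit 3)) (T.ts (nat_lit 2) (T.ls (nat_lit 2) (nat_lit 3)) (T.ts (nat_lit 1) (T.ls (nat_lit 1) (nat_lit 3)) (T.ts (nat_lit 0) (T.im (nat_lit 7) (nat_lit 2)) (T.nw (T.ls (nat_lit 1) (nat_lit 2))))))) (T.ts (nat_lit 0) (T.im (nat_lit 7) (nat_lit 1)) (T.nw (T.ts (nat_lit 4) (T.ls (nat_lit 1) (nat_lit 2)) (T.ts (nat_lit 3) (T.ls (nat_lit 2) (nat_lit 3)) (T.ts (nat_lit 2) (T.ls (nat_lit 1) (nat_lit 3)) (T.ts (nat_lit 0) (T.ls (nat_lit 1) (nat_lit 2)) (T.ts (nat_lit 1) (T.im (nat_lit 7) (nat_lit 2)) T.ie)))))))))) (T.ts (nat_lit 3) (T.im (nat_lit 5) (nat_lit 2)) (T.nw (T.ts (nat_lit 4) (T.ts (nat_lit 4) (T.ls (nat_lit 1) (nat_lit 2)) (T.ts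 (nat_lit 3) (T.ls (nat_lit 2) (nat_lit 3)) (T.ts (nat_lit 2) (T.ls (nat_lit 1) (nat_lit 3)) (T.ts (nat_lit 1) (T.im (nat_lit 5) (nat_lit 3)) (T.ts (nat_lit 0) (T.im (nat_lit 7) (nat_lit 2)) T.ie))))) (T.ts (nat_lit 3) (T.ts (nat_lit 4) (T.ls (nat_lit 2) (nat_lit 3)) (T.ts (nat_lit 3) (T.ls (nat_lit 2) (nat_lit 3)) (T.ts (nat_lit 2) (T.ls (nat_lit 1) (nat_lit 3)) (T.ts (nat_lit 1) (T.ls (nat_lit 1) (nat_lit 2)) (T.ts (nat_lit 0) (T.im (nat_lit 7) (nat_lit 2)) T.ie))))) (T.ts (nat_lit 2) (T.ts (nat_lit 4) (T.ls (nat_lit 1) (nat_lit 3)) (T.ts (nat_lit 3) (T.ls (nat_lit 2) (nat_lit 3)) (T.ts (nat_lit 2) (T.ls (nat_lit 1) (nat_lit 3)) (T.ts (nat_lit 1) (T.ls (nat_lit 1) (nat_lit 2)) (T.ts (nat_lit 0) (T.im (nat_lit 7) (nat_lit 2)) T.ie))))) (T.ts (nat_lit 1) (T.ts (nat_lit 4) (T.ls (nat_lit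 1) (nat_lit 2)) (T.ts (nat_lit 3) (T.ls (nat_lit 2) (nat_lit 3)) (T.ts (nat_lit 2) (T.ls (nat_lit 1) (nat_lit 3)) (T.ts (nat_lit 1) (T.ls (nat_lit 1) (nat_lit 2)) (T.ts (nat_lit 0) (T.im (nat_lit 7) (nat_lit 2)) T.ie))))) (T.ts (nat_lit 0) (T.im (nat_lit 7) (nat_lit 1)) T.ie))))))))
def d44 : T := (T.ts (nat_lit 2) (T.ts (nat_lit 3) (T.ts (nat_lit 3) (T.ls (nat_lit 2) (nat_lit 3)) (T.ts (nat_lit 1) (T.ls (nat_lit 1) (nat_lit 3)) (T.ts (nat_lit 2) (T.im (nat_lit 7) (nat_lit 2)) (T.ts (nat_lit 0) (T.im (nat_lit 5) (nat_lit 3)) (T.nw (T.ls (nat_lit 1) (nat_lit 2))))))) (T.ts (nat_lit 1) (T.ts (nat_lit 3) (T.ls (nat_lit 1) (nat_lit 3)) (T.ts (nat_lit 1) (T.ls (nat_lit 1) (nat_lit 3)) (T.ts (nat_lit 0) (T.ls (nat_lit 1) (nat_lit 2)) (T.ts (nat_lit 2) (T.im (nat_lit 7) (nat_lit 2)) (T.nw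 (T.ls (nat_lit 1) (nat_lit 2))))))) (T.ts (nat_lit 0) (T.ts (nat_lit 3) (T.ls (nat_lit 1) (nat_lit 2)) (T.ts (nat_lit 1) (T.ls (nat_lit 1) (nat_lit 3)) (T.ts (nat_lit 0) (T.ls (nat_lit 1) (nat_lit 2)) (T.ts (nat_lit 2) (T.im (nat_lit 7) (nat_lit 2)) (T.nw (T.ls (nat_lit 1) (nat_lit 2))))))) (T.ts (nat_lit 2) (T.im (nat_lit 7) (nat_lit 1)) (T.nw (T.ts (nat_lit 4) (T.ls (nat_lit 1) (nat_lit 2)) (T.ts (nat_lit 2) (T.ls (nat_lit 1) (nat_lit 3)) (T.ts (nat_lit 1) (T.ls (nat_lit 1) (nat_lit 2)) (T.ts (nat_lit 0) (T.ls (nat_lit 1) (nat_lit 2)) (T.ts (nat_lit 3) (T.im (nat_lit 7) (nat_lit 2)) T.ie)))))))))) (T.ts (nat_lit 1) (T.ts (nat_lit 3) (T.ts (nat_lit 3) (T.ls (nat_lit 1) (nat_lit 3)) (T.ts (nat_lit 2) (T.ls (nat_lit 2) (nat_lit 3)) (T.ts (nat_lit 1) (T.im (nat_lit 7) (nat_lit 2)) (T.ts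 (nat_lit 0) (T.im (nat_lit 5) (nat_lit 3)) (T.nw (T.ls (nat_lit 1) (nat_lit 2))))))) (T.ts (nat_lit 2) (T.ts (nat_lit 2) (T.ls (nat_lit 2) (nat_lit 3)) (T.ts (nat_lit 0) (T.ls (nat_lit 1) (nat_lit 2)) (T.ts (nat_lit 3) (T.im (nat_lit 3) (nat_lit 4)) (T.ts (nat_lit 1) (T.im (nat_lit 7) (nat_lit 2)) (T.nw (T.ls (nat_lit 1) (nat_lit 2))))))) (T.ts (nat_lit 0) (T.ts (nat_lit 3) (T.ls (nat_lit 1) (nat_lit 2)) (T.ts (nat_lit 2) (T.ls (nat_lit 2) (nat_lit 3)) (T.ts (nat_lit 0) (T.ls (nat_lit 1) (nat_lit 2)) (T.ts (nat_lit 1) (T.im (nat_lit 7) (nat_lit 2)) (T.nw (T.ls (nat_lit 1) (nat_lit 2))))))) (T.ts (nat_lit 1) (T.im (nat_lit 7) (nat_lit 1)) (T.nw (T.ts (nat_lit 4) (T.ls (nat_lit 1) (nat_lit 2)) (T.ts (nat_lit 3) (T.ls (nat_lit 2) (nat_lit 3)) (T.ts (nat_lit 1) (T.ls (nat_lit 1) (nat_lit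 2)) (T.ts (nat_lit 0) (T.ls (nat_lit 1) (nat_lit 2)) (T.ts (nat_lit 2) (T.im (nat_lit 7) (nat_lit 2)) T.ie)))))))))) d43))
def d45 : T := (T.ts (nat_lit 1) d41 (T.ts (nat_lit 0) d42 (T.ts (nat_lit 2) (T.im (nat_lit 5) (nat_lit 1)) (T.nw d44))))
def d46 : T := (T.ts (nat_lit 0) (T.ts (nat_lit 2) (T.ts (nat_lit 2) (T.ls (nat_lit 1) (nat_lit 3)) (T.ts (nat_lit 1) (T.ls (nat_lit 2) (nat_lit 3)) (T.ts (nat_lit 0) (T.im (nat_lit 7) (nat_lit 2)) (T.nw (T.ls (nat_lit 1) (nat_lit 2)))))) (T.ts (nat_lit 1) (T.ts (nat_lit 2) (T.im (nat_lit 5) (nat_lit 3)) (T.ts (nat_lit 1) (T.im (nat_lit 3) (nat_lit 4)) (T.ts (nat_lit 0) (T.im (nat_lit 7) (nat_lit 2)) (T.nw (T.ls (nat_lit 1) (nat_lit 2)))))) (T.ts (nat_lit 0) (T.im (nat_lit 7) (nat_lit 1)) (T.nw (T.ts (nat_lit 3) (T.ls (nat_lit 1) (nat_lit 2))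 (T.ts (nat_lit 2) (T.ls (nat_lit 2) (nat_lit 3)) (T.ts (nat_lit 0) (T.ls (nat_lit 1) (nat_lit 2)) (T.ts (nat_lit 1) (T.im (nat_lit 7) (nat_lit 2)) (T.nw (T.ls (nat_lit 1) (nat_lit 2))))))))))) (T.ts (nat_lit 1) (T.im (nat_lit 5) (nat_lit 2)) (T.nw (T.ts (nat_lit 3) (T.ts (nat_lit 3) (T.ls (nat_lit 1) (nat_lit 2)) (T.ts (nat_lit 2) (T.ls (nat_lit 2) (nat_lit 3)) (T.ts (nat_lit 1) (T.ls (nat_lit 1) (nat_lit 3)) (T.ts (nat_lit 0) (T.im (nat_lit 7) (nat_lit 2)) (T.nw (T.ls (nat_lit 1) (nat_lit 2))))))) (T.ts (nat_lit 2) (T.ts (nat_lit 2) (T.ls (nat_lit 2) (nat_lit 3)) (T.ts (nat_lit 1) (T.ls (nat_lit 1) (nat_lit 3)) (T.ts (nat_lit 3) (T.im (nat_lit 5) (nat_lit 3)) (T.ts (nat_lit 0) (T.im (nat_lit 7) (nat_lit 2)) (T.nw (T.ls (nat_lit 1) (nat_lit 2))))))) (T.ts (nat_lit 1) (T.ts (nat_lit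 3) (T.ls (nat_lit 1) (nat_lit 3)) (T.ts (nat_lit 2) (T.ls (nat_lit 2) (nat_lit 3)) (T.ts (nat_lit 1) (T.ls (nat_lit 1) (nat_lit 3)) (T.ts (nat_lit 0) (T.im (nat_lit 7) (nat_lit 2)) (T.nw (T.ls (nat_lit 1) (nat_lit 2))))))) (T.ts (nat_lit 0) (T.im (nat_lit 7) (nat_lit 1)) (T.nw (T.ts (nat_lit 4) (T.ls (nat_lit 1) (nat_lit 2)) (T.ts (nat_lit 3) (T.ls (nat_lit 2) (nat_lit 3)) (T.ts (nat_lit 2) (T.ls (nat_lit 1) (nat_lit 3)) (T.ts (nat_lit 0) (T.ls (nat_lit 1) (nat_lit 2)) (T.ts (nat_lit 1) (T.im (nat_lit 7) (nat_lit 2)) T.ie)))))))))))))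
def d47 : T := (T.ts (nat_lit 0) (T.ts (nat_lit 2) (T.ts (nat_lit 2) (T.ls (nat_lit 1) (nat_lit 3)) (T.ts (nat_lit 1) (T.ls (nat_lit 2) (nat_lit 3)) (T.ts (nat_lit 0) (T.im (nat_lit 7) (nat_lit 2)) (T.nw (T.ls (nat_lit 1) (nat_lit 2)))))) (T.ts (nat_lit 1) (T.ts (nat_lit 2) (T.ls (nat_lit 2) (nat_lit 3)) (T.ts (nat_lit 1) (T.im (nat_lit 3) (nat_lit 4)) (T.ts (nat_lit 0) (T.im (nat_lit 5) (nat_lit 3)) (T.nw (T.ls (nat_lit 1) (nat_lit 2)))))) (T.ts (nat_lit 0) (T.im (nat_lit 7) (nat_lit 1)) (T.nw (T.ts (nat_lit 3) (T.ls (nat_lit 1) (nat_lit 2)) (T.ts (nat_lit 2) (T.ls (nat_lit 2) (nat_lit 3)) (T.ts (nat_lit 0) (T.ls (nat_lit 1) (nat_lit 2)) (T.ts (nat_lit 1) (T.im (nat_lit 7) (nat_lit 2)) (T.nw (T.ls (nat_lit 1) (nat_lit 2))))))))))) (T.ts (nat_lit 1) (T.im (nat_lit 3) (nat_lit 3))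 (T.nw (T.ts (nat_lit 3) (T.ts (nat_lit 3) (T.ls (nat_lit 1) (nat_lit 2)) (T.ts (nat_lit 2) (T.ls (nat_lit 2) (nat_lit 3)) (T.ts (nat_lit 1) (T.ls (nat_lit 1) (nat_lit 3)) (T.ts (nat_lit 0) (T.im (nat_lit 7) (nat_lit 2)) (T.nw (T.ls (nat_lit 1) (nat_lit 2))))))) (T.ts (nat_lit 2) (T.ts (nat_lit 3) (T.ls (nat_lit 2) (nat_lit 3)) (T.ts (nat_lit 2) (T.ls (nat_lit 2) (nat_lit 3)) (T.ts (nat_lit 1) (T.im (nat_lit 5) (nat_lit 3)) (T.ts (nat_lit 0) (T.im (nat_lit 7) (nat_lit 2)) (T.nw (T.ls (nat_lit 1) (nat_lit 2))))))) (T.ts (nat_lit 1) (T.ts (nat_lit 3) (T.ls (nat_lit 1) (nat_lit 3)) (T.ts (nat_lit 2) (T.ls (nat_lit 2) (nat_lit 3)) (T.ts (nat_lit 1) (T.ls (nat_lit 1) (nat_lit 3)) (T.ts (nat_lit 0) (T.im (nat_lit 7) (nat_lit 2)) (T.nw (T.ls (nat_lit 1) (nat_lit 2))))))) (T.ts (nat_lit 0)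 (T.im (nat_lit 7) (nat_lit 1)) (T.nw (T.ts (nat_lit 4) (T.ls (nat_lit 1) (nat_lit 2)) (T.ts (nat_lit 3) (T.ls (nat_lit 2) (nat_lit 3)) (T.ts (nat_lit 2) (T.ls (nat_lit 1) (nat_lit 3)) (T.ts (nat_lit 0) (T.ls (nat_lit 1) (nat_lit 2)) (T.ts (nat_lit 1) (T.im (nat_lit 7) (nat_lit 2)) T.ie)))))))))))))
def d48 : T := (T.ts (nat_lit 0) (T.ts (nat_lit 3) (T.ts (nat_lit 3) (T.ls (nat_lit 1) (nat_lit 2)) (T.ts (nat_lit 2) (T.ls (nat_lit 2) (nat_lit 3)) (T.ts (nat_lit 1) (T.ls (nat_lit 1) (nat_lit 3)) (T.ts (nat_lit 0) (T.im (nat_lit 7) (nat_lit 2)) (T.nw (T.ls (nat_lit 1) (nat_lit 2))))))) (T.ts (nat_lit 2) (T.ts (nat_lit 3) (T.ls (nat_lit 2) (nat_lit 3)) (T.ts (nat_lit 2) (T.ls (nat_lit 2) (nat_lit 3)) (T.ts (nat_lit 1) (T.ls (nat_lit 1) (nat_lit 3)) (T.ts (nat_lit 0) (T.im (nat_lit 5) (nat_lit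 3)) (T.nw (T.ls (nat_lit 1) (nat_lit 2))))))) (T.ts (nat_lit 1) (T.ts (nat_lit 3) (T.ls (nat_lit 1) (nat_lit 3)) (T.ts (nat_lit 2) (T.ls (nat_lit 2) (nat_lit 3)) (T.ts (nat_lit 1) (T.ls (nat_lit 1) (nat_lit 3)) (T.ts (nat_lit 0) (T.im (nat_lit 7) (nat_lit 2)) (T.nw (T.ls (nat_lit 1) (nat_lit 2))))))) (T.ts (nat_lit 0) (T.im (nat_lit 7) (nat_lit 1)) (T.nw (T.ts (nat_lit 4) (T.ls (nat_lit 1) (nat_lit 2)) (T.ts (nat_lit 3) (T.ls (nat_lit 2) (nat_lit 3)) (T.ts (nat_lit 2) (T.ls (nat_lit 1) (nat_lit 3)) (T.ts (nat_lit 0) (T.ls (nat_lit 1) (nat_lit 2)) (T.ts (nat_lit 1) (T.im (nat_lit 7) (nat_lit 2)) T.ie)))))))))) (T.ts (nat_lit 2) (T.im (nat_lit 5) (nat_lit 2)) (T.nw (T.ts (nat_lit 4) (T.ts (nat_lit 4) (T.ls (nat_lit 1) (nat_lit 2)) (T.ts (nat_lit 3) (T.ls (nat_lit 2) (nat_lit 3)) (T.ts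 (nat_lit 2) (T.ls (nat_lit 1) (nat_lit 3)) (T.ts (nat_lit 1) (T.ls (nat_lit 1) (nat_lit 2)) (T.ts (nat_lit 0) (T.im (nat_lit 7) (nat_lit 2)) T.ie))))) (T.ts (nat_lit 3) (T.ts (nat_lit 4) (T.ls (nat_lit 2) (nat_lit 3)) (T.ts (nat_lit 3) (T.ls (nat_lit 2) (nat_lit 3)) (T.ts (nat_lit 2) (T.ls (nat_lit 1) (nat_lit 3)) (T.ts (nat_lit 1) (T.im (nat_lit 5) (nat_lit 3)) (T.ts (nat_lit 0) (T.im (nat_lit 7) (nat_lit 2)) T.ie))))) (T.ts (nat_lit 2) (T.ts (nat_lit 4) (T.ls (nat_lit 1) (nat_lit 3)) (T.ts (nat_lit 3) (T.ls (nat_lit 2) (nat_lit 3)) (T.ts (nat_lit 2) (T.ls (nat_lit 1) (nat_lit 3)) (T.ts (nat_lit 1) (T.ls (nat_lit 1) (nat_lit 2)) (T.ts (nat_lit 0) (T.im (nat_lit 7) (nat_lit 2)) T.ie))))) (T.ts (nat_lit 1) (T.ts (nat_lit 4) (T.ls (nat_lit 1) (nat_lit 2)) (T.ts (nat_lit 3) (T.ls (nat_lit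 2) (nat_lit 3)) (T.ts (nat_lit 2) (T.ls (nat_lit 1) (nat_lit 3)) (T.ts (nat_lit 1) (T.ls (nat_lit 1) (nat_lit 2)) (T.ts (nat_lit 0) (T.im (nat_lit 7) (nat_lit 2)) T.ie))))) (T.ts (nat_lit 0) (T.im (nat_lit 7) (nat_lit 1)) T.ie))))))))
def d49 : T := (T.ts (nat_lit 3) (T.ts (nat_lit 2) (T.ts (nat_lit 2) (T.ls (nat_lit 2) (nat_lit 3)) (T.ts (nat_lit 1) (T.ls (nat_lit 1) (nat_lit 3)) (T.ts (nat_lit 3) (T.im (nat_lit 7) (nat_lit 2)) (T.ts (nat_lit 0) (T.im (nat_lit 5) (nat_lit 3)) (T.nw (T.ls (nat_lit 1) (nat_lit 2))))))) (T.ts (nat_lit 1) (T.ts (nat_lit 2) (T.ls (nat_lit 2) (nat_lit 3)) (T.ts (nat_lit 1) (T.ls (nat_lit 1) (nat_lit 3)) (T.ts (nat_lit 0) (T.ls (nat_lit 1) (nat_lit 2)) (T.ts (nat_lit 3) (T.im (nat_lit 7) (nat_lit 2)) (T.nw (T.ls (nat_lit 1) (nat_lit 2))))))) (T.ts (nat_lit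 0) (T.ts (nat_lit 2) (T.ls (nat_lit 2) (nat_lit 3)) (T.ts (nat_lit 1) (T.ls (nat_lit 1) (nat_lit 3)) (T.ts (nat_lit 0) (T.ls (nat_lit 1) (nat_lit 2)) (T.ts (nat_lit 3) (T.im (nat_lit 7) (nat_lit 2)) (T.nw (T.ls (nat_lit 1) (nat_lit 2))))))) (T.ts (nat_lit 3) (T.im (nat_lit 7) (nat_lit 1)) (T.nw (T.ts (nat_lit 3) (T.ls (nat_lit 2) (nat_lit 3)) (T.ts (nat_lit 2) (T.ls (nat_lit 1) (nat_lit 3)) (T.ts (nat_lit 1) (T.ls (nat_lit 1) (nat_lit 2)) (T.ts (nat_lit 0) (T.ls (nat_lit 1) (nat_lit 2)) (T.ts (nat_lit 4) (T.im (nat_lit 7) (nat_lit 2)) T.ie)))))))))) (T.ts (nat_lit 1) (T.ts (nat_lit 3) (T.ts (nat_lit 3) (T.ls (nat_lit 1) (nat_lit 3)) (T.ts (nat_lit 2) (T.ls (nat_lit 2) (nat_lit 3)) (T.ts (nat_lit 0) (T.ls (nat_lit 1) (nat_lit 2)) (T.ts (nat_lit 1) (T.im (nat_lit 7) (nat_lit 2)) (T.nw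 (T.ls (nat_lit 1) (nat_lit 2))))))) (T.ts (nat_lit 2) (T.ts (nat_lit 3) (T.ls (nat_lit 2) (nat_lit 3)) (T.ts (nat_lit 2) (T.im (nat_lit 3) (nat_lit 4)) (T.ts (nat_lit 1) (T.im (nat_lit 7) (nat_lit 2)) (T.ts (nat_lit 0) (T.im (nat_lit 5) (nat_lit 3)) (T.nw (T.ls (nat_lit 1) (nat_lit 2))))))) (T.ts (nat_lit 0) (T.ts (nat_lit 3) (T.ls (nat_lit 1) (nat_lit 2)) (T.ts (nat_lit 2) (T.ls (nat_lit 2) (nat_lit 3)) (T.ts (nat_lit 0) (T.ls (nat_lit 1) (nat_lit 2)) (T.ts (nat_lit 1) (T.im (nat_lit 7) (nat_lit 2)) (T.nw (T.ls (nat_lit 1) (nat_lit 2))))))) (T.ts (nat_lit 1) (T.im (nat_lit 7) (nat_lit 1)) (T.nw (T.ts (nat_lit 4) (T.ls (nat_lit 1) (nat_lit 2)) (T.ts (nat_lit 3) (T.ls (nat_lit 2) (nat_lit 3)) (T.ts (nat_lit 1) (T.ls (nat_lit 1) (nat_lit 2)) (T.ts (nat_lit 0) (T.ls (nat_lit 1) (nat_lit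 2)) (T.ts (nat_lit 2) (T.im (nat_lit 7) (nat_lit 2)) T.ie)))))))))) d48))
def d50 : T := (T.ts (nat_lit 2) (T.ts (nat_lit 2) (T.ts (nat_lit 1) (T.ts (nat_lit 1) (T.ls (nat_lit 2) (nat_lit 3)) (T.ts (nat_lit 0) (T.ls (nat_lit 3) (nat_lit 4)) (T.ts (nat_lit 2) (T.im (nat_lit 5) (nat_lit 3)) (T.nw (T.ls (nat_lit 1) (nat_lit 2)))))) (T.ts (nat_lit 0) (T.ts (nat_lit 1) (T.ls (nat_lit 2) (nat_lit 3)) (T.ts (nat_lit 0) (T.ls (nat_lit 1) (nat_lit 3)) (T.ts (nat_lit 2) (T.im (nat_lit 7) (nat_lit 2)) (T.nw (T.ls (nat_lit 1) (nat_lit 2)))))) (T.ts (nat_lit 2) (T.im (nat_lit 7) (nat_lit 1)) (T.nw (T.ts (nat_lit 2) (T.ls (nat_lit 2) (nat_lit 3)) (T.ts (nat_lit 1) (T.ls (nat_lit 1) (nat_lit 3)) (T.ts (nat_lit 0) (T.ls (nat_lit 1) (nat_lit 2)) (T.ts (nat_lit 3) (T.im (nat_lit 7) (nat_lit 2)) (T.nw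 (T.ls (nat_lit 1) (nat_lit 2))))))))))) d46) (T.ts (nat_lit 0) (T.ts (nat_lit 2) (T.ts (nat_lit 1) (T.ts (nat_lit 1) (T.ls (nat_lit 2) (nat_lit 3)) (T.ts (nat_lit 2) (T.im (nat_lit 7) (nat_lit 2)) (T.ts (nat_lit 0) (T.im (nat_lit 5) (nat_lit 3)) (T.nw (T.ls (nat_lit 1) (nat_lit 2)))))) (T.ts (nat_lit 0) (T.ts (nat_lit 1) (T.ls (nat_lit 2) (nat_lit 3)) (T.ts (nat_lit 0) (T.ls (nat_lit 1) (nat_lit 3)) (T.ts (nat_lit 2) (T.im (nat_lit 7) (nat_lit 2)) (T.nw (T.ls (nat_lit 1) (nat_lit 2)))))) (T.ts (nat_lit 2) (T.im (nat_lit 7) (nat_lit 1)) (T.nw (T.ts (nat_lit 2) (T.ls (nat_lit 2) (nat_lit 3)) (T.ts (nat_lit 1) (T.ls (nat_lit 1) (nat_lit 3)) (T.ts (nat_lit 0) (T.ls (nat_lit 1) (nat_lit 2)) (T.ts (nat_lit 3) (T.im (nat_lit 7) (nat_lit 2)) (T.nw (T.ls (nat_lit 1) (nat_lit 2))))))))))) d47)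 (T.ts (nat_lit 1) (T.im (nat_lit 5) (nat_lit 1)) (T.nw d49))))
def d51 : T := (T.ts (nat_lit 1) (T.ts (nat_lit 3) (T.ts (nat_lit 3) (T.ls (nat_lit 1) (nat_lit 3)) (T.ts (nat_lit 2) (T.ls (nat_lit 2) (nat_lit 3)) (T.ts (nat_lit 0) (T.ls (nat_lit 1) (nat_lit 2)) (T.ts (nat_lit 1) (T.im (nat_lit 7) (nat_lit 2)) (T.nw (T.ls (nat_lit 1) (nat_lit 2))))))) (T.ts (nat_lit 2) (T.ts (nat_lit 3) (T.ls (nat_lit 2) (nat_lit 3)) (T.ts (nat_lit 2) (T.ls (nat_lit 2) (nat_lit 3)) (T.ts (nat_lit 1) (T.im (nat_lit 7) (nat_lit 2)) (T.ts (nat_lit 0) (T.im (nat_lit 3) (nat_lit 4)) (T.nw (T.ls (nat_lit 1) (nat_lit 2))))))) (T.ts (nat_lit 0) (T.ts (nat_lit 2) (T.ls (nat_lit 2) (nat_lit 3)) (T.ts (nat_lit 0) (T.ls (nat_lit 1) (nat_lit 2)) (T.ts (nat_lit 3) (T.im (nat_lit 5) (nat_lit 3)) (T.ts (nat_lit 1)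 (T.im (nat_lit 7) (nat_lit 2)) (T.nw (T.ls (nat_lit 1) (nat_lit 2))))))) (T.ts (nat_lit 1) (T.im (nat_lit 7) (nat_lit 1)) (T.nw (T.ts (nat_lit 4) (T.ls (nat_lit 1) (nat_lit 2)) (T.ts (nat_lit 3) (T.ls (nat_lit 2) (nat_lit 3)) (T.ts (nat_lit 1) (T.ls (nat_lit 1) (nat_lit 2)) (T.ts (nat_lit 0) (T.ls (nat_lit 1) (nat_lit 2)) (T.ts (nat_lit 2) (T.im (nat_lit 7) (nat_lit 2)) T.ie)))))))))) (T.ts (nat_lit 0) (T.im (nat_lit 5) (nat_lit 2)) (T.nw (T.ts (nat_lit 4) (T.ts (nat_lit 4) (T.ls (nat_lit 1) (nat_lit 2)) (T.ts (nat_lit 3) (T.ls (nat_lit 2) (nat_lit 3)) (T.ts (nat_lit 2) (T.ls (nat_lit 1) (nat_lit 3)) (T.ts (nat_lit 1) (T.ls (nat_lit 1) (nat_lit 2)) (T.ts (nat_lit 0) (T.im (nat_lit 7) (nat_lit 2)) T.ie))))) (T.ts (nat_lit 3) (T.ts (nat_lit 4) (T.ls (nat_lit 2) (nat_lit 3)) (T.ts (nat_lit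 3) (T.ls (nat_lit 2) (nat_lit 3)) (T.ts (nat_lit 2) (T.ls (nat_lit 1) (nat_lit 3)) (T.ts (nat_lit 1) (T.ls (nat_lit 1) (nat_lit 2)) (T.ts (nat_lit 0) (T.im (nat_lit 7) (nat_lit 2)) T.ie))))) (T.ts (nat_lit 2) (T.ts (nat_lit 4) (T.ls (nat_lit 1) (nat_lit 3)) (T.ts (nat_lit 3) (T.ls (nat_lit 2) (nat_lit 3)) (T.ts (nat_lit 2) (T.ls (nat_lit 1) (nat_lit 3)) (T.ts (nat_lit 1) (T.ls (nat_lit 1) (nat_lit 2)) (T.ts (nat_lit 0) (T.im (nat_lit 7) (nat_lit 2)) T.ie))))) (T.ts (nat_lit 1) (T.ts (nat_lit 3) (T.ls (nat_lit 2) (nat_lit 3)) (T.ts (nat_lit 2) (T.ls (nat_lit 1) (nat_lit 3)) (T.ts (nat_lit 1) (T.ls (nat_lit 1) (nat_lit 2)) (T.ts (nat_lit 4) (T.im (nat_lit 5) (nat_lit 3)) (T.ts (nat_lit 0) (T.im (nat_lit 7) (nat_lit 2)) T.ie))))) (T.ts (nat_lit 0) (T.im (nat_lit 7) (nat_lit 1)) T.ie))))))))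
def d52 : T := (T.ts (nat_lit 3) (T.ts (nat_lit 2) (T.ts (nat_lit 2) (T.ls (nat_lit 2) (nat_lit 3)) (T.ts (nat_lit 1) (T.ls (nat_lit 1) (nat_lit 4)) (T.ts (nat_lit 0) (T.ls (nat_lit 1) (nat_lit 2)) (T.ts (nat_lit 3) (T.im (nat_lit 7) (nat_lit 2)) (T.nw (T.ls (nat_lit 1) (nat_lit 2))))))) (T.ts (nat_lit 1) (T.ts (nat_lit 2) (T.ls (nat_lit 2) (nat_lit 3)) (T.ts (nat_lit 1) (T.ls (nat_lit 1) (nat_lit 3)) (T.ts (nat_lit 0) (T.ls (nat_lit 1) (nat_lit 2)) (T.ts (nat_lit 3) (T.im (nat_lit 7) (nat_lit 2)) (T.nw (T.ls (nat_lit 1) (nat_lit 2))))))) (T.ts (nat_lit 0) (T.ts (nat_lit 2) (T.ls (nat_lit 2) (nat_lit 3)) (T.ts (nat_lit 1) (T.ls (nat_lit 1) (nat_lit 3)) (T.ts (nat_lit 0) (T.ls (nat_lit 1) (nat_lit 2)) (T.ts (nat_lit 3) (T.im (nat_lit 5) (nat_lit 3)) (T.nw (T.ls (nat_lit 1) (nat_lit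 2))))))) (T.ts (nat_lit 3) (T.im (nat_lit 7) (nat_lit 1)) (T.nw (T.ts (nat_lit 3) (T.ls (nat_lit 2) (nat_lit 3)) (T.ts (nat_lit 2) (T.ls (nat_lit 1) (nat_lit 3)) (T.ts (nat_lit 1) (T.ls (nat_lit 1) (nat_lit 2)) (T.ts (nat_lit 0) (T.ls (nat_lit 1) (nat_lit 2)) (T.ts (nat_lit 4) (T.im (nat_lit 7) (nat_lit 2)) T.ie)))))))))) (T.ts (nat_lit 2) (T.ts (nat_lit 3) (T.ts (nat_lit 3) (T.ls (nat_lit 2) (nat_lit 3)) (T.ts (nat_lit 1) (T.ls (nat_lit 1) (nat_lit 3)) (T.ts (nat_lit 0) (T.ls (nat_lit 1) (nat_lit 2)) (T.ts (nat_lit 2) (T.im (nat_lit 7) (nat_lit 2)) (T.nw (T.ls (nat_lit 1) (nat_lit 2))))))) (T.ts (nat_lit 1) (T.ts (nat_lit 3) (T.ls (nat_lit 1) (nat_lit 3)) (T.ts (nat_lit 1) (T.ls (nat_lit 1) (nat_lit 3)) (T.ts (nat_lit 0) (T.ls (nat_lit 1) (nat_lit 2)) (T.ts (nat_lit 2) (T.im (nat_lit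 1) (nat_lit 5)) (T.nw (T.ls (nat_lit 1) (nat_lit 2))))))) (T.ts (nat_lit 0) (T.ts (nat_lit 1) (T.ls (nat_lit 1) (nat_lit 3)) (T.ts (nat_lit 0) (T.ls (nat_lit 1) (nat_lit 2)) (T.ts (nat_lit 3) (T.im (nat_lit 5) (nat_lit 3)) (T.ts (nat_lit 2) (T.im (nat_lit 7) (nat_lit 2)) (T.nw (T.ls (nat_lit 1) (nat_lit 2))))))) (T.ts (nat_lit 2) (T.im (nat_lit 7) (nat_lit 1)) (T.nw (T.ts (nat_lit 4) (T.ls (nat_lit 1) (nat_lit 2)) (T.ts (nat_lit 2) (T.ls (nat_lit 1) (nat_lit 3)) (T.ts (nat_lit 1) (T.ls (nat_lit 1) (nat_lit 2)) (T.ts (nat_lit 0) (T.ls (nat_lit 1) (nat_lit 2)) (T.ts (nat_lit 3) (T.im (nat_lit 7) (nat_lit 2)) T.ie)))))))))) d51))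
def d53 : T := (T.ts (nat_lit 1) (T.ts (nat_lit 3) (T.ts (nat_lit 3) (T.ls (nat_lit 1) (nat_lit 3)) (T.ts (nat_lit 2) (T.ls (nat_lit 2) (nat_lit 3)) (T.ts (nat_lit 0) (T.ls (nat_lit 1) (nat_lit 2)) (T.ts (nat_lit 1) (T.im (nat_lit 7) (nat_lit 2)) (T.nw (T.ls (nat_lit 1) (nat_lit 2))))))) (T.ts (nat_lit 2) (T.ts (nat_lit 3) (T.ls (nat_lit 2) (nat_lit 3)) (T.ts (nat_lit 2) (T.ls (nat_lit 2) (nat_lit 3)) (T.ts (nat_lit 1) (T.im (nat_lit 7) (nat_lit 2)) (T.ts (nat_lit 0) (T.im (nat_lit 3) (nat_lit 4)) (T.nw (T.ls (nat_lit 1) (nat_lit 2))))))) (T.ts (nat_lit 0) (T.ts (nat_lit 3) (T.ls (nat_lit 1) (nat_lit 2)) (T.ts (nat_lit 0) (T.ls (nat_lit 1) (nat_lit 2)) (T.ts (nat_lit 2) (T.im (nat_lit 5) (nat_lit 3)) (T.ts (nat_lit 1) (T.im (nat_lit 7) (nat_lit 2)) (T.nw (T.ls (nat_lit 1) (nat_lit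 2))))))) (T.ts (nat_lit 1) (T.im (nat_lit 7) (nat_lit 1)) (T.nw (T.ts (nat_lit 4) (T.ls (nat_lit 1) (nat_lit 2)) (T.ts (nat_lit 3) (T.ls (nat_lit 2) (nat_lit 3)) (T.ts (nat_lit 1) (T.ls (nat_lit 1) (nat_lit 2)) (T.ts (nat_lit 0) (T.ls (nat_lit 1) (nat_lit 2)) (T.ts (nat_lit 2) (T.im (nat_lit 7) (nat_lit 2)) T.ie)))))))))) (T.ts (nat_lit 0) (T.im (nat_lit 5) (nat_lit 2)) (T.nw (T.ts (nat_lit 4) (T.ts (nat_lit 4) (T.ls (nat_lit 1) (nat_lit 2)) (T.ts (nat_lit 3) (T.ls (nat_lit 2) (nat_lit 3)) (T.ts (nat_lit 2) (T.ls (nat_lit 1) (nat_lit 3)) (T.ts (nat_lit 1) (T.ls (nat_lit 1) (nat_lit 2)) (T.ts (nat_lit 0) (T.im (nat_lit 7) (nat_lit 2)) T.ie))))) (T.ts (nat_lit 3) (T.ts (nat_lit 4) (T.ls (nat_lit 2) (nat_lit 3)) (T.ts (nat_lit 3) (T.ls (nat_lit 2) (nat_lit 3)) (T.ts (nat_lit 2) (T.ls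 (nat_lit 1) (nat_lit 3)) (T.ts (nat_lit 1) (T.ls (nat_lit 1) (nat_lit 2)) (T.ts (nat_lit 0) (T.im (nat_lit 7) (nat_lit 2)) T.ie))))) (T.ts (nat_lit 2) (T.ts (nat_lit 4) (T.ls (nat_lit 1) (nat_lit 3)) (T.ts (nat_lit 3) (T.ls (nat_lit 2) (nat_lit 3)) (T.ts (nat_lit 2) (T.ls (nat_lit 1) (nat_lit 3)) (T.ts (nat_lit 1) (T.ls (nat_lit 1) (nat_lit 2)) (T.ts (nat_lit 0) (T.im (nat_lit 7) (nat_lit 2)) T.ie))))) (T.ts (nat_lit 1) (T.ts (nat_lit 4) (T.ls (nat_lit 1) (nat_lit 2)) (T.ts (nat_lit 2) (T.ls (nat_lit 1) (nat_lit 3)) (T.ts (nat_lit 1) (T.ls (nat_lit 1) (nat_lit 2)) (T.ts (nat_lit 3) (T.im (nat_lit 5) (nat_lit 3)) (T.ts (nat_lit 0) (T.im (nat_lit 7) (nat_lit 2)) T.ie))))) (T.ts (nat_lit 0) (T.im (nat_lit 7) (nat_lit 1)) T.ie))))))))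
def d54 : T := (T.ts (nat_lit 3) (T.ts (nat_lit 2) (T.ts (nat_lit 2) (T.ls (nat_lit 2) (nat_lit 3)) (T.ts (nat_lit 1) (T.ls (nat_lit 1) (nat_lit 3)) (T.ts (nat_lit 0) (T.ls (nat_lit 1) (nat_lit 2)) (T.ts (nat_lit 3) (T.im (nat_lit 7) (nat_lit 2)) (T.nw (T.ls (nat_lit 1) (nat_lit 2))))))) (T.ts (nat_lit 1) (T.ts (nat_lit 2) (T.ls (nat_lit 2) (nat_lit 3)) (T.ts (nat_lit 1) (T.ls (nat_lit 1) (nat_lit 3)) (T.ts (nat_lit 0) (T.ls (nat_lit 1) (nat_lit 2)) (T.ts (nat_lit 3) (T.im (nat_lit 7) (nat_lit 2)) (T.nw (T.ls (nat_lit 1) (nat_lit 2))))))) (T.ts (nat_lit 0) (T.ts (nat_lit 1) (T.ls (nat_lit 1) (nat_lit 3)) (T.ts (nat_lit 0) (T.ls (nat_lit 1) (nat_lit 2)) (T.ts (nat_lit 3) (T.im (nat_lit 7) (nat_lit 2)) (T.ts (nat_lit 2) (T.im (nat_lit 5) (nat_lit 3)) (T.nw (T.ls (nat_lit 1) (nat_lit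 2))))))) (T.ts (nat_lit 3) (T.im (nat_lit 7) (nat_lit 1)) (T.nw (T.ts (nat_lit 3) (T.ls (nat_lit 2) (nat_lit 3)) (T.ts (nat_lit 2) (T.ls (nat_lit 1) (nat_lit 3)) (T.ts (nat_lit 1) (T.ls (nat_lit 1) (nat_lit 2)) (T.ts (nat_lit 0) (T.ls (nat_lit 1) (nat_lit 2)) (T.ts (nat_lit 4) (T.im (nat_lit 7) (nat_lit 2)) T.ie)))))))))) (T.ts (nat_lit 2) (T.ts (nat_lit 3) (T.ts (nat_lit 3) (T.ls (nat_lit 2) (nat_lit 3)) (T.ts (nat_lit 1) (T.ls (nat_lit 1) (nat_lit 3)) (T.ts (nat_lit 0) (T.ls (nat_lit 1) (nat_lit 2)) (T.ts (nat_lit 2) (T.im (nat_lit 7) (nat_lit 2)) (T.nw (T.ls (nat_lit 1) (nat_lit 2))))))) (T.ts (nat_lit 1) (T.ts (nat_lit 3) (T.ls (nat_lit 1) (nat_lit 3)) (T.ts (nat_lit 1) (T.ls (nat_lit 1) (nat_lit 3)) (T.ts (nat_lit 0) (T.ls (nat_lit 1) (nat_lit 2)) (T.ts (nat_lit 2) (T.im (nat_lit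 7) (nat_lit 2)) (T.nw (T.ls (nat_lit 1) (nat_lit 2))))))) (T.ts (nat_lit 0) (T.ts (nat_lit 3) (T.ls (nat_lit 1) (nat_lit 2)) (T.ts (nat_lit 1) (T.ls (nat_lit 1) (nat_lit 3)) (T.ts (nat_lit 0) (T.ls (nat_lit 1) (nat_lit 2)) (T.ts (nat_lit 2) (T.im (nat_lit 5) (nat_lit 3)) (T.nw (T.ls (nat_lit 1) (nat_lit 2))))))) (T.ts (nat_lit 2) (T.im (nat_lit 7) (nat_lit 1)) (T.nw (T.ts (nat_lit 4) (T.ls (nat_lit 1) (nat_lit 2)) (T.ts (nat_lit 2) (T.ls (nat_lit 1) (nat_lit 3)) (T.ts (nat_lit 1) (T.ls (nat_lit 1) (nat_lit 2)) (T.ts (nat_lit 0) (T.ls (nat_lit 1) (nat_lit 2)) (T.ts (nat_lit 3) (T.im (nat_lit 7) (nat_lit 2)) T.ie)))))))))) d53))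
def d55 : T := (T.ts (nat_lit 1) (T.ts (nat_lit 3) (T.ts (nat_lit 3) (T.ls (nat_lit 1) (nat_lit 3)) (T.ts (nat_lit 2) (T.ls (nat_lit 2) (nat_lit 3)) (T.ts (nat_lit 0) (T.ls (nat_lit 1) (nat_lit 2)) (T.ts (nat_lit 1) (T.im (nat_lit 7) (nat_lit 2)) (T.nw (T.ls (nat_lit 1) (nat_lit 2))))))) (T.ts (nat_lit 2) (T.ts (nat_lit 3) (T.ls (nat_lit 2) (nat_lit 3)) (T.ts (nat_lit 2) (T.ls (nat_lit 2) (nat_lit 3)) (T.ts (nat_lit 1) (T.im (nat_lit 7) (nat_lit 2)) (T.ts (nat_lit 0) (T.im (nat_lit 3) (nat_lit 4)) (T.nw (T.ls (nat_lit 1) (nat_lit 2))))))) (T.ts (nat_lit 0) (T.ts (nat_lit 3) (T.ls (nat_lit 1) (nat_lit 2)) (T.ts (nat_lit 2) (T.ls (nat_lit 2) (nat_lit 3)) (T.ts (nat_lit 0) (T.ls (nat_lit 1) (nat_lit 2)) (T.ts (nat_lit 1) (T.im (nat_lit 5) (nat_lit 3)) (T.nw (T.ls (nat_lit 1) (nat_lit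 2))))))) (T.ts (nat_lit 1) (T.im (nat_lit 7) (nat_lit 1)) (T.nw (T.ts (nat_lit 4) (T.ls (nat_lit 1) (nat_lit 2)) (T.ts (nat_lit 3) (T.ls (nat_lit 2) (nat_lit 3)) (T.ts (nat_lit 1) (T.ls (nat_lit 1) (nat_lit 2)) (T.ts (nat_lit 0) (T.ls (nat_lit 1) (nat_lit 2)) (T.ts (nat_lit 2) (T.im (nat_lit 7) (nat_lit 2)) T.ie)))))))))) (T.ts (nat_lit 2) (T.im (nat_lit 3) (nat_lit 3)) (T.ts (nat_lit 0) (T.im (nat_lit 5) (nat_lit 2)) (T.nw (T.ts (nat_lit 4) (T.ts (nat_lit 4) (T.ls (nat_lit 1) (nat_lit 2)) (T.ts (nat_lit 3) (T.ls (nat_lit 2) (nat_lit 3)) (T.ts (nat_lit 2) (T.ls (nat_lit 1) (nat_lit 3)) (T.ts (nat_lit 1) (T.ls (nat_lit 1) (nat_lit 2)) (T.ts (nat_lit 0) (T.im (nat_lit 7) (nat_lit 2)) T.ie))))) (T.ts (nat_lit 3) (T.ts (nat_lit 4) (T.ls (nat_lit 2) (nat_lit 3)) (T.ts (nat_lit 3) (T.ls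 (nat_lit 2) (nat_lit 3)) (T.ts (nat_lit 2) (T.ls (nat_lit 1) (nat_lit 3)) (T.ts (nat_lit 1) (T.ls (nat_lit 1) (nat_lit 2)) (T.ts (nat_lit 0) (T.im (nat_lit 7) (nat_lit 2)) T.ie))))) (T.ts (nat_lit 2) (T.ts (nat_lit 4) (T.ls (nat_lit 1) (nat_lit 3)) (T.ts (nat_lit 3) (T.ls (nat_lit 2) (nat_lit 3)) (T.ts (nat_lit 2) (T.ls (nat_lit 1) (nat_lit 3)) (T.ts (nat_lit 1) (T.ls (nat_lit 1) (nat_lit 2)) (T.ts (nat_lit 0) (T.im (nat_lit 7) (nat_lit 2)) T.ie))))) (T.ts (nat_lit 1) (T.ts (nat_lit 4) (T.ls (nat_lit 1) (nat_lit 2)) (T.ts (nat_lit 3) (T.ls (nat_lit 2) (nat_lit 3)) (T.ts (nat_lit 1) (T.ls (nat_lit 1) (nat_lit 2)) (T.ts (nat_lit 2) (T.im (nat_lit 5) (nat_lit 3)) (T.ts (nat_lit 0) (T.im (nat_lit 7) (nat_lit 2)) T.ie))))) (T.ts (nat_lit 0) (T.im (nat_lit 7) (nat_lit 1)) T.ie)))))))))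
def d56 : T := (T.ts (nat_lit 2) (T.ts (nat_lit 4) (T.ts (nat_lit 4) (T.ls (nat_lit 1) (nat_lit 3)) (T.ts (nat_lit 3) (T.ls (nat_lit 2) (nat_lit 3)) (T.ts (nat_lit 1) (T.ls (nat_lit 1) (nat_lit 2)) (T.ts (nat_lit 0) (T.ls (nat_lit 1) (nat_lit 2)) (T.ts (nat_lit 2) (T.im (nat_lit 7) (nat_lit 2)) T.ie))))) (T.ts (nat_lit 3) (T.ts (nat_lit 4) (T.ls (nat_lit 2) (nat_lit 3)) (T.ts (nat_lit 3) (T.ls (nat_lit 2) (nat_lit 3)) (T.ts (nat_lit 0) (T.ls (nat_lit 1) (nat_lit 2)) (T.ts (nat_lit 2) (T.im (nat_lit 7) (nat_lit 2)) (T.ts (nat_lit 1) (T.im (nat_lit 3) (nat_lit 4)) T.ie))))) (T.ts (nat_lit 1) (T.ts (nat_lit 4) (T.ls (nat_lit 1) (nat_lit 2)) (T.ts (nat_lit 3) (T.ls (nat_lit 2) (nat_lit 3)) (T.ts (nat_lit 1) (T.ls (nat_lit 1) (nat_lit 2)) (T.ts (nat_lit 2) (T.im (nat_lit 7) (nat_lit 2))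 (T.ts (nat_lit 0) (T.im (nat_lit 5) (nat_lit 3)) T.ie))))) (T.ts (nat_lit 0) (T.ts (nat_lit 4) (T.ls (nat_lit 1) (nat_lit 2)) (T.ts (nat_lit 3) (T.ls (nat_lit 2) (nat_lit 3)) (T.ts (nat_lit 1) (T.ls (nat_lit 1) (nat_lit 2)) (T.ts (nat_lit 0) (T.ls (nat_lit 1) (nat_lit 2)) (T.ts (nat_lit 2) (T.im (nat_lit 7) (nat_lit 2)) T.ie))))) (T.ts (nat_lit 2) (T.im (nat_lit 7) (nat_lit 1)) T.ie))))) (T.ts (nat_lit 0) (T.ts (nat_lit 4) (T.ts (nat_lit 4) (T.ls (nat_lit 1) (nat_lit 2)) (T.ts (nat_lit 3) (T.ls (nat_lit 2) (nat_lit 3)) (T.ts (nat_lit 2) (T.ls (nat_lit 1) (nat_lit 3)) (T.ts (nat_lit 1) (T.ls (nat_lit 1) (nat_lit 2)) (T.ts (nat_lit 0) (T.im (nat_lit 7) (nat_lit 2)) T.ie))))) (T.ts (nat_lit 3) (T.ts (nat_lit 4) (T.ls (nat_lit 2) (nat_lit 3)) (T.ts (nat_lit 3) (T.ls (nat_lit 2) (nat_lit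 3)) (T.ts (nat_lit 2) (T.ls (nat_lit 1) (nat_lit 3)) (T.ts (nat_lit 1) (T.ls (nat_lit 1) (nat_lit 2)) (T.ts (nat_lit 0) (T.im (nat_lit 7) (nat_lit 2)) T.ie))))) (T.ts (nat_lit 2) (T.ts (nat_lit 4) (T.ls (nat_lit 1) (nat_lit 3)) (T.ts (nat_lit 3) (T.ls (nat_lit 2) (nat_lit 3)) (T.ts (nat_lit 2) (T.ls (nat_lit 1) (nat_lit 3)) (T.ts (nat_lit 1) (T.ls (nat_lit 1) (nat_lit 2)) (T.ts (nat_lit 0) (T.im (nat_lit 7) (nat_lit 2)) T.ie))))) (T.ts (nat_lit 1) (T.ts (nat_lit 4) (T.ls (nat_lit 1) (nat_lit 2)) (T.ts (nat_lit 3) (T.ls (nat_lit 2) (nat_lit 3)) (T.ts (nat_lit 2) (T.ls (nat_lit 1) (nat_lit 3)) (T.ts (nat_lit 1) (T.ls (nat_lit 1) (nat_lit 2)) (T.ts (nat_lit 0) (T.im (nat_lit 5) (nat_lit 3)) T.ie))))) (T.ts (nat_lit 0) (T.im (nat_lit 7) (nat_lit 1)) T.ie))))) (T.ts (nat_lit 1) (T.im (nat_lit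 5) (nat_lit 2)) T.ie)))
def d57 : T := (T.ts (nat_lit 4) (T.ts (nat_lit 3) (T.ts (nat_lit 3) (T.ls (nat_lit 2) (nat_lit 3)) (T.ts (nat_lit 2) (T.ls (nat_lit 1) (nat_lit 3)) (T.ts (nat_lit 1) (T.ls (nat_lit 1) (nat_lit 2)) (T.ts (nat_lit 0) (T.ls (nat_lit 1) (nat_lit 2)) (T.ts (nat_lit 4) (T.im (nat_lit 7) (nat_lit 2)) T.ie))))) (T.ts (nat_lit 2) (T.ts (nat_lit 3) (T.ls (nat_lit 2) (nat_lit 3)) (T.ts (nat_lit 2) (T.ls (nat_lit 1) (nat_lit 3)) (T.ts (nat_lit 1) (T.ls (nat_lit 1) (nat_lit 2)) (T.ts (nat_lit 0) (T.ls (nat_lit 1) (nat_lit 2)) (T.ts (nat_lit 4) (T.im (nat_lit 7) (nat_lit 2)) T.ie))))) (T.ts (nat_lit 1) (T.ts (nat_lit 3) (T.ls (nat_lit 2) (nat_lit 3)) (T.ts (nat_lit 2) (T.ls (nat_lit 1) (nat_lit 3)) (T.ts (nat_lit 1) (T.ls (nat_lit 1) (nat_lit 2)) (T.ts (nat_lit 4) (T.im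 (nat_lit 7) (nat_lit 2)) (T.ts (nat_lit 0) (T.im (nat_lit 5) (nat_lit 3)) T.ie))))) (T.ts (nat_lit 0) (T.ts (nat_lit 3) (T.ls (nat_lit 2) (nat_lit 3)) (T.ts (nat_lit 2) (T.ls (nat_lit 1) (nat_lit 3)) (T.ts (nat_lit 1) (T.ls (nat_lit 1) (nat_lit 2)) (T.ts (nat_lit 0) (T.ls (nat_lit 1) (nat_lit 2)) (T.ts (nat_lit 4) (T.im (nat_lit 7) (nat_lit 2)) T.ie))))) (T.ts (nat_lit 4) (T.im (nat_lit 7) (nat_lit 1)) T.ie))))) (T.ts (nat_lit 3) (T.ts (nat_lit 4) (T.ts (nat_lit 4) (T.ls (nat_lit 2) (nat_lit 3)) (T.ts (nat_lit 2) (T.ls (nat_lit 1) (nat_lit 3)) (T.ts (nat_lit 1) (T.ls (nat_lit 1) (nat_lit 2)) (T.ts (nat_lit 0) (T.ls (nat_lit 1) (nat_lit 2)) (T.ts (nat_lit 3) (T.im (nat_lit 7) (nat_lit 2)) T.ie))))) (T.ts (nat_lit 2) (T.ts (nat_lit 4) (T.ls (nat_lit 1) (nat_lit 3)) (T.ts (nat_lit 2)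 (T.ls (nat_lit 1) (nat_lit 3)) (T.ts (nat_lit 1) (T.ls (nat_lit 1) (nat_lit 2)) (T.ts (nat_lit 0) (T.ls (nat_lit 1) (nat_lit 2)) (T.ts (nat_lit 3) (T.im (nat_lit 7) (nat_lit 2)) T.ie))))) (T.ts (nat_lit 1) (T.ts (nat_lit 4) (T.ls (nat_lit 1) (nat_lit 2)) (T.ts (nat_lit 2) (T.ls (nat_lit 1) (nat_lit 3)) (T.ts (nat_lit 1) (T.ls (nat_lit 1) (nat_lit 2)) (T.ts (nat_lit 3) (T.im (nat_lit 7) (nat_lit 2)) (T.ts (nat_lit 0) (T.im (nat_lit 5) (nat_lit 3)) T.ie))))) (T.ts (nat_lit 0) (T.ts (nat_lit 4) (T.ls (nat_lit 1) (nat_lit 2)) (T.ts (nat_lit 2) (T.ls (nat_lit 1) (nat_lit 3)) (T.ts (nat_lit 1) (T.ls (nat_lit 1) (nat_lit 2)) (T.ts (nat_lit 0) (T.ls (nat_lit 1) (nat_lit 2)) (T.ts (nat_lit 3) (T.im (nat_lit 7) (nat_lit 2)) T.ie))))) (T.ts (nat_lit 3) (T.im (nat_lit 7) (nat_lit 1)) T.ie)))))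 d56))
def d58 : T := (T.ts (nat_lit 0) (T.im (nat_lit 3) (nat_lit 2)) (T.nw (T.ts (nat_lit 3) d52 (T.ts (nat_lit 2) d54 (T.ts (nat_lit 1) (T.ts (nat_lit 3) (T.ts (nat_lit 2) (T.ts (nat_lit 2) (T.ls (nat_lit 2) (nat_lit 3)) (T.ts (nat_lit 1) (T.ls (nat_lit 1) (nat_lit 3)) (T.ts (nat_lit 0) (T.ls (nat_lit 1) (nat_lit 2)) (T.ts (nat_lit 3) (T.im (nat_lit 7) (nat_lit 2)) (T.nw (T.ls (nat_lit 1) (nat_lit 2))))))) (T.ts (nat_lit 1) (T.ts (nat_lit 2) (T.ls (nat_lit 2) (nat_lit 3)) (T.ts (nat_lit 1) (T.ls (nat_lit 1) (nat_lit 3)) (T.ts (nat_lit 0) (T.ls (nat_lit 1) (nat_lit 2)) (T.ts (nat_lit 3) (T.im (nat_lit 7) (nat_lit 2)) (T.nw (T.ls (nat_lit 1) (nat_lit 2))))))) (T.ts (nat_lit 0) (T.ts (nat_lit 2) (T.ls (nat_lit 2) (nat_lit 3)) (T.ts (nat_lit 0) (T.ls (nat_lit 1) (nat_lit 2)) (T.ts (nat_lit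 3) (T.im (nat_lit 7) (nat_lit 2)) (T.ts (nat_lit 1) (T.im (nat_lit 5) (nat_lit 3)) (T.nw (T.ls (nat_lit 1) (nat_lit 2))))))) (T.ts (nat_lit 3) (T.im (nat_lit 7) (nat_lit 1)) (T.nw (T.ts (nat_lit 3) (T.ls (nat_lit 2) (nat_lit 3)) (T.ts (nat_lit 2) (T.ls (nat_lit 1) (nat_lit 3)) (T.ts (nat_lit 1) (T.ls (nat_lit 1) (nat_lit 2)) (T.ts (nat_lit 0) (T.ls (nat_lit 1) (nat_lit 2)) (T.ts (nat_lit 4) (T.im (nat_lit 7) (nat_lit 2)) T.ie)))))))))) d55) (T.ts (nat_lit 0) (T.im (nat_lit 5) (nat_lit 1)) (T.nw d57)))))))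
def d59 : T := (T.ts (nat_lit 1) d50 d58)
def d60 : T := (T.im (nat_lit 3) (nat_lit 1))
def d61 : T := (T.ts (nat_lit 0) (T.ts (nat_lit 3) (T.ts (nat_lit 3) (T.ls (nat_lit 1) (nat_lit 2)) (T.ts (nat_lit 1) (T.ls (nat_lit 1) (nat_lit 3)) (T.ts (nat_lit 2) (T.im (nat_lit 5) (nat_lit 3)) (T.ts (nat_lit 0) (T.im (nat_lit 7) (nat_lit 2)) (T.nw (T.ls (nat_lit 1) (nat_lit 2))))))) (T.ts (nat_lit 2) (T.ts (nat_lit 3) (T.ls (nat_lit 2) (nat_lit 3)) (T.ts (nat_lit 2) (T.ls (nat_lit 2) (nat_lit 3)) (T.ts (nat_lit 1) (T.ls (nat_lit 1) (nat_lit 3)) (T.ts (nat_lit 0) (T.im (nat_lit 7) (nat_lit 2)) (T.nw (T.ls (nat_lit 1) (nat_lit 2))))))) (T.ts (nat_lit 1) (T.ts (nat_lit 3) (T.ls (nat_lit 1) (nat_lit 3)) (T.ts (nat_lit 2) (T.ls (nat_lit 2) (nat_lit 3)) (T.ts (nat_lit 1) (T.ls (nat_lit 1) (nat_lit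 3)) (T.ts (nat_lit 0) (T.im (nat_lit 7) (nat_lit 2)) (T.nw (T.ls (nat_lit 1) (nat_lit 2))))))) (T.ts (nat_lit 0) (T.im (nat_lit 7) (nat_lit 1)) (T.nw (T.ts (nat_lit 4) (T.ls (nat_lit 1) (nat_lit 2)) (T.ts (nat_lit 3) (T.ls (nat_lit 2) (nat_lit 3)) (T.ts (nat_lit 2) (T.ls (nat_lit 1) (nat_lit 3)) (T.ts (nat_lit 0) (T.ls (nat_lit 1) (nat_lit 2)) (T.ts (nat_lit 1) (T.im (nat_lit 7) (nat_lit 2)) T.ie)))))))))) (T.ts (nat_lit 3) (T.im (nat_lit 5) (nat_lit 2)) (T.ts (nat_lit 1) (T.im (nat_lit 1) (nat_lit 4)) (T.nw (T.ts (nat_lit 4) (T.ts (nat_lit 4) (T.ls (nat_lit 1) (nat_lit 2)) (T.ts (nat_lit 2) (T.ls (nat_lit 1) (nat_lit 3)) (T.ts (nat_lit 1) (T.ls (nat_lit 1) (nat_lit 2)) (T.ts (nat_lit 3) (T.im (nat_lit 5) (nat_lit 3)) (T.ts (nat_lit 0) (T.im (nat_lit 7) (nat_lit 2)) T.ie))))) (T.ts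 (nat_lit 3) (T.ts (nat_lit 4) (T.ls (nat_lit 2) (nat_lit 3)) (T.ts (nat_lit 3) (T.ls (nat_lit 2) (nat_lit 3)) (T.ts (nat_lit 2) (T.ls (nat_lit 1) (nat_lit 3)) (T.ts (nat_lit 1) (T.ls (nat_lit 1) (nat_lit 2)) (T.ts (nat_lit 0) (T.im (nat_lit 7) (nat_lit 2)) T.ie))))) (T.ts (nat_lit 2) (T.ts (nat_lit 4) (T.ls (nat_lit 1) (nat_lit 3)) (T.ts (nat_lit 3) (T.ls (nat_lit 2) (nat_lit 3)) (T.ts (nat_lit 2) (T.ls (nat_lit 1) (nat_lit 3)) (T.ts (nat_lit 1) (T.ls (nat_lit 1) (nat_lit 2)) (T.ts (nat_lit 0) (T.im (nat_lit 7) (nat_lit 2)) T.ie))))) (T.ts (nat_lit 1) (T.ts (nat_lit 4) (T.ls (nat_lit 1) (nat_lit 2)) (T.ts (nat_lit 3) (T.ls (nat_lit 2) (nat_lit 3)) (T.ts (nat_lit 2) (T.ls (nat_lit 1) (nat_lit 3)) (T.ts (nat_lit 1) (T.ls (nat_lit 1) (nat_lit 2)) (T.ts (nat_lit 0) (T.im (nat_lit 7) (nat_lit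 2)) T.ie))))) (T.ts (nat_lit 0) (T.im (nat_lit 7) (nat_lit 1)) T.ie)))))))))
def d62 : T := (T.ts (nat_lit 1) (T.ts (nat_lit 3) (T.ts (nat_lit 3) (T.ls (nat_lit 1) (nat_lit 3)) (T.ts (nat_lit 2) (T.ls (nat_lit 2) (nat_lit 3)) (T.ts (nat_lit 0) (T.ls (nat_lit 1) (nat_lit 2)) (T.ts (nat_lit 1) (T.im (nat_lit 5) (nat_lit 3)) (T.nw (T.ls (nat_lit 1) (nat_lit 2))))))) (T.ts (nat_lit 2) (T.ts (nat_lit 3) (T.ls (nat_lit 2) (nat_lit 3)) (T.ts (nat_lit 2) (T.ls (nat_lit 2) (nat_lit 3)) (T.ts (nat_lit 0) (T.ls (nat_lit 1) (nat_lit 2)) (T.ts (nat_lit 1) (T.im (nat_lit 7) (nat_lit 2)) (T.nw (T.ls (nat_lit 1) (nat_lit 2))))))) (T.ts (nat_lit 0) (T.ts (nat_lit 2) (T.ls (nat_lit 2) (nat_lit 3)) (T.ts (nat_lit 0) (T.ls (nat_lit 1) (nat_lit 2)) (T.ts (nat_lit 3) (T.im (nat_lit 3) (nat_lit 4)) (T.ts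 (nat_lit 1) (T.im (nat_lit 7) (nat_lit 2)) (T.nw (T.ls (nat_lit 1) (nat_lit 2))))))) (T.ts (nat_lit 1) (T.im (nat_lit 7) (nat_lit 1)) (T.nw (T.ts (nat_lit 4) (T.ls (nat_lit 1) (nat_lit 2)) (T.ts (nat_lit 3) (T.ls (nat_lit 2) (nat_lit 3)) (T.ts (nat_lit 1) (T.ls (nat_lit 1) (nat_lit 2)) (T.ts (nat_lit 0) (T.ls (nat_lit 1) (nat_lit 2)) (T.ts (nat_lit 2) (T.im (nat_lit 7) (nat_lit 2)) T.ie)))))))))) (T.ts (nat_lit 3) (T.im (nat_lit 5) (nat_lit 2)) (T.ts (nat_lit 0) (T.im (nat_lit 3) (nat_lit 3)) (T.nw (T.ts (nat_lit 4) (T.ts (nat_lit 4) (T.ls (nat_lit 1) (nat_lit 2)) (T.ts (nat_lit 3) (T.ls (nat_lit 2) (nat_lit 3)) (T.ts (nat_lit 1) (T.ls (nat_lit 1) (nat_lit 2)) (T.ts (nat_lit 2) (T.im (nat_lit 5) (nat_lit 3)) (T.ts (nat_lit 0) (T.im (nat_lit 7) (nat_lit 2)) T.ie))))) (T.ts (nat_lit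 3) (T.ts (nat_lit 4) (T.ls (nat_lit 2) (nat_lit 3)) (T.ts (nat_lit 3) (T.ls (nat_lit 2) (nat_lit 3)) (T.ts (nat_lit 2) (T.ls (nat_lit 1) (nat_lit 3)) (T.ts (nat_lit 1) (T.ls (nat_lit 1) (nat_lit 2)) (T.ts (nat_lit 0) (T.im (nat_lit 7) (nat_lit 2)) T.ie))))) (T.ts (nat_lit 2) (T.ts (nat_lit 4) (T.ls (nat_lit 1) (nat_lit 3)) (T.ts (nat_lit 3) (T.ls (nat_lit 2) (nat_lit 3)) (T.ts (nat_lit 2) (T.ls (nat_lit 1) (nat_lit 3)) (T.ts (nat_lit 1) (T.ls (nat_lit 1) (nat_lit 2)) (T.ts (nat_lit 0) (T.im (nat_lit 7) (nat_lit 2)) T.ie))))) (T.ts (nat_lit 1) (T.ts (nat_lit 4) (T.ls (nat_lit 1) (nat_lit 2)) (T.ts (nat_lit 3) (T.ls (nat_lit 2) (nat_lit 3)) (T.ts (nat_lit 2) (T.ls (nat_lit 1) (nat_lit 3)) (T.ts (nat_lit 1) (T.ls (nat_lit 1) (nat_lit 2)) (T.ts (nat_lit 0) (T.im (nat_lit 7) (nat_lit 2))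 T.ie))))) (T.ts (nat_lit 0) (T.im (nat_lit 7) (nat_lit 1)) T.ie)))))))))
def d63 : T := (T.ts (nat_lit 0) (T.ts (nat_lit 3) (T.ts (nat_lit 3) (T.ls (nat_lit 1) (nat_lit 2)) (T.ts (nat_lit 2) (T.ls (nat_lit 2) (nat_lit 3)) (T.ts (nat_lit 1) (T.ls (nat_lit 1) (nat_lit 3)) (T.ts (nat_lit 0) (T.im (nat_lit 5) (nat_lit 3)) (T.nw (T.ls (nat_lit 1) (nat_lit 2))))))) (T.ts (nat_lit 2) (T.ts (nat_lit 3) (T.ls (nat_lit 2) (nat_lit 3)) (T.ts (nat_lit 2) (T.ls (nat_lit 2) (nat_lit 3)) (T.ts (nat_lit 1) (T.ls (nat_lit 1) (nat_lit 3)) (T.ts (nat_lit 0) (T.im (nat_lit 7) (nat_lit 2)) (T.nw (T.ls (nat_lit 1) (nat_lit 2))))))) (T.ts (nat_lit 1) (T.ts (nat_lit 3) (T.ls (nat_lit 1) (nat_lit 3)) (T.ts (nat_lit 2) (T.ls (nat_lit 2) (nat_lit 3)) (T.ts (nat_lit 1) (T.ls (nat_lit 1) (nat_lit 3)) (T.ts (nat_lit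 0) (T.im (nat_lit 7) (nat_lit 2)) (T.nw (T.ls (nat_lit 1) (nat_lit 2))))))) (T.ts (nat_lit 0) (T.im (nat_lit 7) (nat_lit 1)) (T.nw (T.ts (nat_lit 4) (T.ls (nat_lit 1) (nat_lit 2)) (T.ts (nat_lit 3) (T.ls (nat_lit 2) (nat_lit 3)) (T.ts (nat_lit 2) (T.ls (nat_lit 1) (nat_lit 3)) (T.ts (nat_lit 0) (T.ls (nat_lit 1) (nat_lit 2)) (T.ts (nat_lit 1) (T.im (nat_lit 7) (nat_lit 2)) T.ie)))))))))) (T.ts (nat_lit 3) (T.im (nat_lit 5) (nat_lit 2)) (T.nw (T.ts (nat_lit 4) (T.ts (nat_lit 4) (T.ls (nat_lit 1) (nat_lit 2)) (T.ts (nat_lit 3) (T.ls (nat_lit 2) (nat_lit 3)) (T.ts (nat_lit 2) (T.ls (nat_lit 1) (nat_lit 3)) (T.ts (nat_lit 1) (T.im (nat_lit 5) (nat_lit 3)) (T.ts (nat_lit 0) (T.im (nat_lit 7) (nat_lit 2)) T.ie))))) (T.ts (nat_lit 3) (T.ts (nat_lit 4) (T.ls (nat_lit 2) (nat_lit 3)) (T.ts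 (nat_lit 3) (T.ls (nat_lit 2) (nat_lit 3)) (T.ts (nat_lit 2) (T.ls (nat_lit 1) (nat_lit 3)) (T.ts (nat_lit 1) (T.ls (nat_lit 1) (nat_lit 2)) (T.ts (nat_lit 0) (T.im (nat_lit 7) (nat_lit 2)) T.ie))))) (T.ts (nat_lit 2) (T.ts (nat_lit 4) (T.ls (nat_lit 1) (nat_lit 3)) (T.ts (nat_lit 3) (T.ls (nat_lit 2) (nat_lit 3)) (T.ts (nat_lit 2) (T.ls (nat_lit 1) (nat_lit 3)) (T.ts (nat_lit 1) (T.ls (nat_lit 1) (nat_lit 2)) (T.ts (nat_lit 0) (T.im (nat_lit 7) (nat_lit 2)) T.ie))))) (T.ts (nat_lit 1) (T.ts (nat_lit 4) (T.ls (nat_lit 1) (nat_lit 2)) (T.ts (nat_lit 3) (T.ls (nat_lit 2) (nat_lit 3)) (T.ts (nat_lit 2) (T.ls (nat_lit 1) (nat_lit 3)) (T.ts (nat_lit 1) (T.ls (nat_lit 1) (nat_lit 2)) (T.ts (nat_lit 0) (T.im (nat_lit 7) (nat_lit 2)) T.ie))))) (T.ts (nat_lit 0) (T.im (nat_lit 7) (nat_lit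 1)) T.ie))))))))
def d64 : T := (T.ts (nat_lit 2) (T.ts (nat_lit 3) (T.ts (nat_lit 3) (T.ls (nat_lit 2) (nat_lit 3)) (T.ts (nat_lit 1) (T.ls (nat_lit 1) (nat_lit 3)) (T.ts (nat_lit 2) (T.im (nat_lit 7) (nat_lit 2)) (T.ts (nat_lit 0) (T.im (nat_lit 5) (nat_lit 3)) (T.nw (T.ls (nat_lit 1) (nat_lit 2))))))) (T.ts (nat_lit 1) (T.ts (nat_lit 3) (T.ls (nat_lit 1) (nat_lit 3)) (T.ts (nat_lit 1) (T.ls (nat_lit 1) (nat_lit 3)) (T.ts (nat_lit 0) (T.ls (nat_lit 1) (nat_lit 2)) (T.ts (nat_lit 2) (T.im (nat_lit 7) (nat_lit 2)) (T.nw (T.ls (nat_lit 1) (nat_lit 2))))))) (T.ts (nat_lit 0) (T.ts (nat_lit 3) (T.ls (nat_lit 1) (nat_lit 2)) (T.ts (nat_lit 1) (T.ls (nat_lit 1) (nat_lit 3)) (T.ts (nat_lit 0) (T.ls (nat_lit 1) (nat_lit 2)) (T.ts (nat_lit 2) (T.im (nat_lit 7) (nat_lit 2)) (T.nw (T.ls (nat_lit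 1) (nat_lit 2))))))) (T.ts (nat_lit 2) (T.im (nat_lit 7) (nat_lit 1)) (T.nw (T.ts (nat_lit 4) (T.ls (nat_lit 1) (nat_lit 2)) (T.ts (nat_lit 2) (T.ls (nat_lit 1) (nat_lit 3)) (T.ts (nat_lit 1) (T.ls (nat_lit 1) (nat_lit 2)) (T.ts (nat_lit 0) (T.ls (nat_lit 1) (nat_lit 2)) (T.ts (nat_lit 3) (T.im (nat_lit 7) (nat_lit 2)) T.ie)))))))))) (T.ts (nat_lit 1) (T.ts (nat_lit 3) (T.ts (nat_lit 3) (T.ls (nat_lit 1) (nat_lit 3)) (T.ts (nat_lit 2) (T.ls (nat_lit 2) (nat_lit 3)) (T.ts (nat_lit 1) (T.im (nat_lit 7) (nat_lit 2)) (T.ts (nat_lit 0) (T.im (nat_lit 5) (nat_lit 3)) (T.nw (T.ls (nat_lit 1) (nat_lit 2))))))) (T.ts (nat_lit 2) (T.ts (nat_lit 3) (T.ls (nat_lit 2) (nat_lit 3)) (T.ts (nat_lit 2) (T.ls (nat_lit 2) (nat_lit 3)) (T.ts (nat_lit 0) (T.ls (nat_lit 1) (nat_lit 2)) (T.ts (nat_lit 1)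 (T.im (nat_lit 7) (nat_lit 2)) (T.nw (T.ls (nat_lit 1) (nat_lit 2))))))) (T.ts (nat_lit 0) (T.ts (nat_lit 2) (T.ls (nat_lit 2) (nat_lit 3)) (T.ts (nat_lit 0) (T.ls (nat_lit 1) (nat_lit 2)) (T.ts (nat_lit 3) (T.im (nat_lit 3) (nat_lit 4)) (T.ts (nat_lit 1) (T.im (nat_lit 7) (nat_lit 2)) (T.nw (T.ls (nat_lit 1) (nat_lit 2))))))) (T.ts (nat_lit 1) (T.im (nat_lit 7) (nat_lit 1)) (T.nw (T.ts (nat_lit 4) (T.ls (nat_lit 1) (nat_lit 2)) (T.ts (nat_lit 3) (T.ls (nat_lit 2) (nat_lit 3)) (T.ts (nat_lit 1) (T.ls (nat_lit 1) (nat_lit 2)) (T.ts (nat_lit 0) (T.ls (nat_lit 1) (nat_lit 2)) (T.ts (nat_lit 2) (T.im (nat_lit 7) (nat_lit 2)) T.ie)))))))))) d63))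
def d65 : T := (T.ts (nat_lit 1) (T.ts (nat_lit 4) (T.ts (nat_lit 4) (T.ls (nat_lit 1) (nat_lit 2)) (T.ts (nat_lit 3) (T.ls (nat_lit 2) (nat_lit 3)) (T.ts (nat_lit 2) (T.ls (nat_lit 1) (nat_lit 3)) (T.ts (nat_lit 1) (T.im (nat_lit 7) (nat_lit 2)) (T.ts (nat_lit 0) (T.im (nat_lit 5) (nat_lit 3)) T.ie))))) (T.ts (nat_lit 3) (T.ts (nat_lit 4) (T.ls (nat_lit 2) (nat_lit 3)) (T.ts (nat_lit 3) (T.ls (nat_lit 2) (nat_lit 3)) (T.ts (nat_lit 2) (T.ls (nat_lit 1) (nat_lit 3)) (T.ts (nat_lit 0) (T.ls (nat_lit 1) (nat_lit 2)) (T.ts (nat_lit 1) (T.im (nat_lit 7) (nat_lit 2)) T.ie))))) (T.ts (nat_lit 2) (T.ts (nat_lit 4) (T.ls (nat_lit 1) (nat_lit 3)) (T.ts (nat_lit 3) (T.ls (nat_lit 2) (nat_lit 3)) (T.ts (nat_lit 2) (T.ls (nat_lit 1) (nat_lit 3)) (T.ts (nat_lit 0) (T.ls (nat_lit 1) (nat_lit 2))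 (T.ts (nat_lit 1) (T.im (nat_lit 7) (nat_lit 2)) T.ie))))) (T.ts (nat_lit 0) (T.ts (nat_lit 4) (T.ls (nat_lit 1) (nat_lit 2)) (T.ts (nat_lit 3) (T.ls (nat_lit 2) (nat_lit 3)) (T.ts (nat_lit 2) (T.ls (nat_lit 1) (nat_lit 3)) (T.ts (nat_lit 0) (T.ls (nat_lit 1) (nat_lit 2)) (T.ts (nat_lit 1) (T.im (nat_lit 7) (nat_lit 2)) T.ie))))) (T.ts (nat_lit 1) (T.im (nat_lit 7) (nat_lit 1)) T.ie))))) (T.ts (nat_lit 0) (T.ts (nat_lit 4) (T.ts (nat_lit 4) (T.ls (nat_lit 1) (nat_lit 2)) (T.ts (nat_lit 3) (T.ls (nat_lit 2) (nat_lit 3)) (T.ts (nat_lit 2) (T.ls (nat_lit 1) (nat_lit 3)) (T.ts (nat_lit 1) (T.ls (nat_lit 1) (nat_lit 2)) (T.ts (nat_lit 0) (T.im (nat_lit 5) (nat_lit 3)) T.ie))))) (T.ts (nat_lit 3) (T.ts (nat_lit 4) (T.ls (nat_lit 2) (nat_lit 3)) (T.ts (nat_lit 3) (T.ls (nat_lit 2) (nat_lit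 3)) (T.ts (nat_lit 2) (T.ls (nat_lit 1) (nat_lit 3)) (T.ts (nat_lit 1) (T.ls (nat_lit 1) (nat_lit 2)) (T.ts (nat_lit 0) (T.im (nat_lit 7) (nat_lit 2)) T.ie))))) (T.ts (nat_lit 2) (T.ts (nat_lit 4) (T.ls (nat_lit 1) (nat_lit 3)) (T.ts (nat_lit 3) (T.ls (nat_lit 2) (nat_lit 3)) (T.ts (nat_lit 2) (T.ls (nat_lit 1) (nat_lit 3)) (T.ts (nat_lit 1) (T.ls (nat_lit 1) (nat_lit 2)) (T.ts (nat_lit 0) (T.im (nat_lit 7) (nat_lit 2)) T.ie))))) (T.ts (nat_lit 1) (T.ts (nat_lit 4) (T.ls (nat_lit 1) (nat_lit 2)) (T.ts (nat_lit 3) (T.ls (nat_lit 2) (nat_lit 3)) (T.ts (nat_lit 2) (T.ls (nat_lit 1) (nat_lit 3)) (T.ts (nat_lit 1) (T.ls (nat_lit 1) (nat_lit 2)) (T.ts (nat_lit 0) (T.im (nat_lit 7) (nat_lit 2)) T.ie))))) (T.ts (nat_lit 0) (T.im (nat_lit 7) (nat_lit 1)) T.ie))))) (T.ts (nat_lit 4) (T.im (nat_lit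 5) (nat_lit 2)) T.ie)))
def d66 : T := (T.ts (nat_lit 3) (T.ts (nat_lit 4) (T.ts (nat_lit 4) (T.ls (nat_lit 2) (nat_lit 3)) (T.ts (nat_lit 2) (T.ls (nat_lit 1) (nat_lit 3)) (T.ts (nat_lit 1) (T.ls (nat_lit 1) (nat_lit 2)) (T.ts (nat_lit 3) (T.im (nat_lit 7) (nat_lit 2)) (T.ts (nat_lit 0) (T.im (nat_lit 5) (nat_lit 3)) T.ie))))) (T.ts (nat_lit 2) (T.ts (nat_lit 4) (T.ls (nat_lit 1) (nat_lit 3)) (T.ts (nat_lit 2) (T.ls (nat_lit 1) (nat_lit 3)) (T.ts (nat_lit 1) (T.ls (nat_lit 1) (nat_lit 2)) (T.ts (nat_lit 0) (T.ls (nat_lit 1) (nat_lit 2)) (T.ts (nat_lit 3) (T.im (nat_lit 7) (nat_lit 2)) T.ie))))) (T.ts (nat_lit 1) (T.ts (nat_lit 4) (T.ls (nat_lit 1) (nat_lit 2)) (T.ts (nat_lit 2) (T.ls (nat_lit 1) (nat_lit 3)) (T.ts (nat_lit 1) (T.ls (nat_lit 1) (nat_lit 2)) (T.ts (nat_lit 0) (T.ls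 (nat_lit 1) (nat_lit 2)) (T.ts (nat_lit 3) (T.im (nat_lit 7) (nat_lit 2)) T.ie))))) (T.ts (nat_lit 0) (T.ts (nat_lit 4) (T.ls (nat_lit 1) (nat_lit 2)) (T.ts (nat_lit 2) (T.ls (nat_lit 1) (nat_lit 3)) (T.ts (nat_lit 1) (T.ls (nat_lit 1) (nat_lit 2)) (T.ts (nat_lit 0) (T.ls (nat_lit 1) (nat_lit 2)) (T.ts (nat_lit 3) (T.im (nat_lit 7) (nat_lit 2)) T.ie))))) (T.ts (nat_lit 3) (T.im (nat_lit 7) (nat_lit 1)) T.ie))))) (T.ts (nat_lit 2) (T.ts (nat_lit 4) (T.ts (nat_lit 4) (T.ls (nat_lit 1) (nat_lit 3)) (T.ts (nat_lit 3) (T.ls (nat_lit 2) (nat_lit 3)) (T.ts (nat_lit 1) (T.ls (nat_lit 1) (nat_lit 2)) (T.ts (nat_lit 2) (T.im (nat_lit 7) (nat_lit 2)) (T.ts (nat_lit 0) (T.im (nat_lit 5) (nat_lit 3)) T.ie))))) (T.ts (nat_lit 3) (T.ts (nat_lit 4) (T.ls (nat_lit 2) (nat_lit 3)) (T.ts (nat_lit 3)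 (T.ls (nat_lit 2) (nat_lit 3)) (T.ts (nat_lit 1) (T.ls (nat_lit 1) (nat_lit 2)) (T.ts (nat_lit 0) (T.ls (nat_lit 1) (nat_lit 2)) (T.ts (nat_lit 2) (T.im (nat_lit 7) (nat_lit 2)) T.ie))))) (T.ts (nat_lit 1) (T.ts (nat_lit 3) (T.ls (nat_lit 2) (nat_lit 3)) (T.ts (nat_lit 1) (T.ls (nat_lit 1) (nat_lit 2)) (T.ts (nat_lit 0) (T.ls (nat_lit 1) (nat_lit 2)) (T.ts (nat_lit 4) (T.im (nat_lit 3) (nat_lit 4)) (T.ts (nat_lit 2) (T.im (nat_lit 7) (nat_lit 2)) T.ie))))) (T.ts (nat_lit 0) (T.ts (nat_lit 4) (T.ls (nat_lit 1) (nat_lit 2)) (T.ts (nat_lit 3) (T.ls (nat_lit 2) (nat_lit 3)) (T.ts (nat_lit 1) (T.ls (nat_lit 1) (nat_lit 2)) (T.ts (nat_lit 0) (T.ls (nat_lit 1) (nat_lit 2)) (T.ts (nat_lit 2) (T.im (nat_lit 7) (nat_lit 2)) T.ie))))) (T.ts (nat_lit 2) (T.im (nat_lit 7) (nat_lit 1)) T.ie)))))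 d65))
def d67 : T := (T.ts (nat_lit 2) (T.ts (nat_lit 2) (T.ts (nat_lit 3) (T.ts (nat_lit 3) (T.ls (nat_lit 2) (nat_lit 3)) (T.ts (nat_lit 1) (T.ls (nat_lit 1) (nat_lit 3)) (T.ts (nat_lit 0) (T.ls (nat_lit 1) (nat_lit 2)) (T.ts (nat_lit 2) (T.im (nat_lit 5) (nat_lit 3)) (T.nw (T.ls (nat_lit 1) (nat_lit 2))))))) (T.ts (nat_lit 1) (T.ts (nat_lit 3) (T.ls (nat_lit 1) (nat_lit 3)) (T.ts (nat_lit 1) (T.ls (nat_lit 1) (nat_lit 3)) (T.ts (nat_lit 0) (T.ls (nat_lit 1) (nat_lit 2)) (T.ts (nat_lit 2) (T.im (nat_lit 7) (nat_lit 2)) (T.nw (T.ls (nat_lit 1) (nat_lit 2))))))) (T.ts (nat_lit 0) (T.ts (nat_lit 3) (T.ls (nat_lit 1) (nat_lit 2)) (T.ts (nat_lit 1) (T.ls (nat_lit 1) (nat_lit 3)) (T.ts (nat_lit 0) (T.ls (nat_lit 1) (nat_lit 2)) (T.ts (nat_lit 2) (T.im (nat_lit 7) (nat_lit 2)) (T.nw (T.ls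 (nat_lit 1) (nat_lit 2))))))) (T.ts (nat_lit 2) (T.im (nat_lit 7) (nat_lit 1)) (T.nw (T.ts (nat_lit 4) (T.ls (nat_lit 1) (nat_lit 2)) (T.ts (nat_lit 2) (T.ls (nat_lit 1) (nat_lit 3)) (T.ts (nat_lit 1) (T.ls (nat_lit 1) (nat_lit 2)) (T.ts (nat_lit 0) (T.ls (nat_lit 1) (nat_lit 2)) (T.ts (nat_lit 3) (T.im (nat_lit 7) (nat_lit 2)) T.ie)))))))))) d61) (T.ts (nat_lit 1) (T.ts (nat_lit 2) (T.ts (nat_lit 3) (T.ts (nat_lit 3) (T.ls (nat_lit 2) (nat_lit 3)) (T.ts (nat_lit 0) (T.ls (nat_lit 1) (nat_lit 2)) (T.ts (nat_lit 2) (T.im (nat_lit 7) (nat_lit 2)) (T.ts (nat_lit 1) (T.im (nat_lit 5) (nat_lit 3)) (T.nw (T.ls (nat_lit 1) (nat_lit 2))))))) (T.ts (nat_lit 1) (T.ts (nat_lit 3) (T.ls (nat_lit 1) (nat_lit 3)) (T.ts (nat_lit 1) (T.ls (nat_lit 1) (nat_lit 3)) (T.ts (nat_lit 0) (T.ls (nat_lit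 1) (nat_lit 2)) (T.ts (nat_lit 2) (T.im (nat_lit 7) (nat_lit 2)) (T.nw (T.ls (nat_lit 1) (nat_lit 2))))))) (T.ts (nat_lit 0) (T.ts (nat_lit 3) (T.ls (nat_lit 1) (nat_lit 2)) (T.ts (nat_lit 1) (T.ls (nat_lit 1) (nat_lit 3)) (T.ts (nat_lit 0) (T.ls (nat_lit 1) (nat_lit 2)) (T.ts (nat_lit 2) (T.im (nat_lit 7) (nat_lit 2)) (T.nw (T.ls (nat_lit 1) (nat_lit 2))))))) (T.ts (nat_lit 2) (T.im (nat_lit 7) (nat_lit 1)) (T.nw (T.ts (nat_lit 4) (T.ls (nat_lit 1) (nat_lit 2)) (T.ts (nat_lit 2) (T.ls (nat_lit 1) (nat_lit 3)) (T.ts (nat_lit 1) (T.ls (nat_lit 1) (nat_lit 2)) (T.ts (nat_lit 0) (T.ls (nat_lit 1) (nat_lit 2)) (T.ts (nat_lit 3) (T.im (nat_lit 7) (nat_lit 2)) T.ie)))))))))) d62) (T.ts (nat_lit 0) d64 (T.ts (nat_lit 3) (T.im (nat_lit 5) (nat_lit 1)) (T.nw d66)))))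
def d68 : T := (T.ts (nat_lit 0) (T.ts (nat_lit 3) (T.ts (nat_lit 3) (T.ls (nat_lit 1) (nat_lit 2)) (T.ts (nat_lit 2) (T.ls (nat_lit 2) (nat_lit 3)) (T.ts (nat_lit 1) (T.ls (nat_lit 1) (nat_lit 3)) (T.ts (nat_lit 0) (T.im (nat_lit 7) (nat_lit 2)) (T.nw (T.ls (nat_lit 1) (nat_lit 2))))))) (T.ts (nat_lit 2) (T.ts (nat_lit 2) (T.ls (nat_lit 2) (nat_lit 3)) (T.ts (nat_lit 1) (T.ls (nat_lit 1) (nat_lit 3)) (T.ts (nat_lit 3) (T.im (nat_lit 5) (nat_lit 3)) (T.ts (nat_lit 0) (T.im (nat_lit 7) (nat_lit 2)) (T.nw (T.ls (nat_lit 1) (nat_lit 2))))))) (T.ts (nat_lit 1) (T.ts (nat_lit 3) (T.ls (nat_lit 1) (nat_lit 3)) (T.ts (nat_lit 2) (T.ls (nat_lit 2) (nat_lit 3)) (T.ts (nat_lit 1) (T.ls (nat_lit 1) (nat_lit 3)) (T.ts (nat_lit 0) (T.im (nat_lit 7) (nat_lit 2)) (T.nw (T.ls (nat_lit 1) (nat_lit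 2))))))) (T.ts (nat_lit 0) (T.im (nat_lit 7) (nat_lit 1)) (T.nw (T.ts (nat_lit 4) (T.ls (nat_lit 1) (nat_lit 2)) (T.ts (nat_lit 3) (T.ls (nat_lit 2) (nat_lit 3)) (T.ts (nat_lit 2) (T.ls (nat_lit 1) (nat_lit 3)) (T.ts (nat_lit 0) (T.ls (nat_lit 1) (nat_lit 2)) (T.ts (nat_lit 1) (T.im (nat_lit 7) (nat_lit 2)) T.ie)))))))))) (T.ts (nat_lit 2) (T.im (nat_lit 5) (nat_lit 2)) (T.nw (T.ts (nat_lit 4) (T.ts (nat_lit 4) (T.ls (nat_lit 1) (nat_lit 2)) (T.ts (nat_lit 3) (T.ls (nat_lit 2) (nat_lit 3)) (T.ts (nat_lit 2) (T.ls (nat_lit 1) (nat_lit 3)) (T.ts (nat_lit 1) (T.ls (nat_lit 1) (nat_lit 2)) (T.ts (nat_lit 0) (T.im (nat_lit 7) (nat_lit 2)) T.ie))))) (T.ts (nat_lit 3) (T.ts (nat_lit 3) (T.ls (nat_lit 2) (nat_lit 3)) (T.ts (nat_lit 2) (T.ls (nat_lit 1) (nat_lit 3)) (T.ts (nat_lit 1) (T.ls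 (nat_lit 1) (nat_lit 2)) (T.ts (nat_lit 4) (T.im (nat_lit 5) (nat_lit 3)) (T.ts (nat_lit 0) (T.im (nat_lit 7) (nat_lit 2)) T.ie))))) (T.ts (nat_lit 2) (T.ts (nat_lit 4) (T.ls (nat_lit 1) (nat_lit 3)) (T.ts (nat_lit 3) (T.ls (nat_lit 2) (nat_lit 3)) (T.ts (nat_lit 2) (T.ls (nat_lit 1) (nat_lit 3)) (T.ts (nat_lit 1) (T.ls (nat_lit 1) (nat_lit 2)) (T.ts (nat_lit 0) (T.im (nat_lit 7) (nat_lit 2)) T.ie))))) (T.ts (nat_lit 1) (T.ts (nat_lit 4) (T.ls (nat_lit 1) (nat_lit 2)) (T.ts (nat_lit 3) (T.ls (nat_lit 2) (nat_lit 3)) (T.ts (nat_lit 2) (T.ls (nat_lit 1) (nat_lit 3)) (T.ts (nat_lit 1) (T.ls (nat_lit 1) (nat_lit 2)) (T.ts (nat_lit 0) (T.im (nat_lit 7) (nat_lit 2)) T.ie))))) (T.ts (nat_lit 0) (T.im (nat_lit 7) (nat_lit 1)) T.ie))))))))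
def d69 : T := (T.ts (nat_lit 3) (T.ts (nat_lit 2) (T.ts (nat_lit 2) (T.ls (nat_lit 2) (nat_lit 3)) (T.ts (nat_lit 1) (T.ls (nat_lit 3) (nat_lit 4)) (T.ts (nat_lit 0) (T.ls (nat_lit 1) (nat_lit 2)) (T.ts (nat_lit 3) (T.im (nat_lit 5) (nat_lit 3)) (T.nw (T.ls (nat_lit 1) (nat_lit 2))))))) (T.ts (nat_lit 1) (T.ts (nat_lit 2) (T.ls (nat_lit 2) (nat_lit 3)) (T.ts (nat_lit 1) (T.ls (nat_lit 1) (nat_lit 3)) (T.ts (nat_lit 0) (T.ls (nat_lit 1) (nat_lit 2)) (T.ts (nat_lit 3) (T.im (nat_lit 7) (nat_lit 2)) (T.nw (T.ls (nat_lit 1) (nat_lit 2))))))) (T.ts (nat_lit 0) (T.ts (nat_lit 2) (T.ls (nat_lit 2) (nat_lit 3)) (T.ts (nat_lit 1) (T.ls (nat_lit 1) (nat_lit 3)) (T.ts (nat_lit 0) (T.ls (nat_lit 1) (nat_lit 2)) (T.ts (nat_lit 3) (T.im (nat_lit 7) (nat_lit 2)) (T.nw (T.ls (nat_lit 1) (nat_lit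 2))))))) (T.ts (nat_lit 3) (T.im (nat_lit 7) (nat_lit 1)) (T.nw (T.ts (nat_lit 3) (T.ls (nat_lit 2) (nat_lit 3)) (T.ts (nat_lit 2) (T.ls (nat_lit 1) (nat_lit 3)) (T.ts (nat_lit 1) (T.ls (nat_lit 1) (nat_lit 2)) (T.ts (nat_lit 0) (T.ls (nat_lit 1) (nat_lit 2)) (T.ts (nat_lit 4) (T.im (nat_lit 7) (nat_lit 2)) T.ie)))))))))) (T.ts (nat_lit 1) (T.ts (nat_lit 3) (T.ts (nat_lit 3) (T.ls (nat_lit 1) (nat_lit 3)) (T.ts (nat_lit 2) (T.ls (nat_lit 2) (nat_lit 3)) (T.ts (nat_lit 0) (T.ls (nat_lit 1) (nat_lit 2)) (T.ts (nat_lit 1) (T.im (nat_lit 7) (nat_lit 2)) (T.nw (T.ls (nat_lit 1) (nat_lit 2))))))) (T.ts (nat_lit 2) (T.ts (nat_lit 2) (T.ls (nat_lit 2) (nat_lit 3)) (T.ts (nat_lit 0) (T.ls (nat_lit 1) (nat_lit 2)) (T.ts (nat_lit 3) (T.im (nat_lit 5) (nat_lit 3)) (T.ts (nat_lit 1) (T.im (nat_lit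 7) (nat_lit 2)) (T.nw (T.ls (nat_lit 1) (nat_lit 2))))))) (T.ts (nat_lit 0) (T.ts (nat_lit 3) (T.ls (nat_lit 1) (nat_lit 2)) (T.ts (nat_lit 0) (T.ls (nat_lit 1) (nat_lit 2)) (T.ts (nat_lit 2) (T.im (nat_lit 3) (nat_lit 4)) (T.ts (nat_lit 1) (T.im (nat_lit 7) (nat_lit 2)) (T.nw (T.ls (nat_lit 1) (nat_lit 2))))))) (T.ts (nat_lit 1) (T.im (nat_lit 7) (nat_lit 1)) (T.nw (T.ts (nat_lit 4) (T.ls (nat_lit 1) (nat_lit 2)) (T.ts (nat_lit 3) (T.ls (nat_lit 2) (nat_lit 3)) (T.ts (nat_lit 1) (T.ls (nat_lit 1) (nat_lit 2)) (T.ts (nat_lit 0) (T.ls (nat_lit 1) (nat_lit 2)) (T.ts (nat_lit 2) (T.im (nat_lit 7) (nat_lit 2)) T.ie)))))))))) d68))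
def d70 : T := (T.ts (nat_lit 1) (T.ts (nat_lit 3) (T.ts (nat_lit 3) (T.ls (nat_lit 1) (nat_lit 3)) (T.ts (nat_lit 2) (T.ls (nat_lit 2) (nat_lit 3)) (T.ts (nat_lit 0) (T.ls (nat_lit 1) (nat_lit 2)) (T.ts (nat_lit 1) (T.im (nat_lit 7) (nat_lit 2)) (T.nw (T.ls (nat_lit 1) (nat_lit 2))))))) (T.ts (nat_lit 2) (T.ts (nat_lit 3) (T.ls (nat_lit 2) (nat_lit 3)) (T.ts (nat_lit 2) (T.ls (nat_lit 2) (nat_lit 3)) (T.ts (nat_lit 0) (T.ls (nat_lit 1) (nat_lit 2)) (T.ts (nat_lit 1) (T.im (nat_lit 5) (nat_lit 3)) (T.nw (T.ls (nat_lit 1) (nat_lit 2))))))) (T.ts (nat_lit 0) (T.ts (nat_lit 3) (T.ls (nat_lit 1) (nat_lit 2)) (T.ts (nat_lit 0) (T.ls (nat_lit 1) (nat_lit 2)) (T.ts (nat_lit 2) (T.im (nat_lit 3) (nat_lit 4)) (T.ts (nat_lit 1) (T.im (nat_lit 7) (nat_lit 2)) (T.nw (T.ls (nat_lit 1) (nat_lit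 2))))))) (T.ts (nat_lit 1) (T.im (nat_lit 7) (nat_lit 1)) (T.nw (T.ts (nat_lit 4) (T.ls (nat_lit 1) (nat_lit 2)) (T.ts (nat_lit 3) (T.ls (nat_lit 2) (nat_lit 3)) (T.ts (nat_lit 1) (T.ls (nat_lit 1) (nat_lit 2)) (T.ts (nat_lit 0) (T.ls (nat_lit 1) (nat_lit 2)) (T.ts (nat_lit 2) (T.im (nat_lit 7) (nat_lit 2)) T.ie)))))))))) (T.ts (nat_lit 2) (T.im (nat_lit 5) (nat_lit 2)) (T.ts (nat_lit 0) (T.im (nat_lit 3) (nat_lit 3)) (T.nw (T.ts (nat_lit 4) (T.ts (nat_lit 4) (T.ls (nat_lit 1) (nat_lit 2)) (T.ts (nat_lit 3) (T.ls (nat_lit 2) (nat_lit 3)) (T.ts (nat_lit 2) (T.ls (nat_lit 1) (nat_lit 3)) (T.ts (nat_lit 1) (T.ls (nat_lit 1) (nat_lit 2)) (T.ts (nat_lit 0) (T.im (nat_lit 7) (nat_lit 2)) T.ie))))) (T.ts (nat_lit 3) (T.ts (nat_lit 4) (T.ls (nat_lit 2) (nat_lit 3)) (T.ts (nat_lit 3) (T.ls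 (nat_lit 2) (nat_lit 3)) (T.ts (nat_lit 1) (T.ls (nat_lit 1) (nat_lit 2)) (T.ts (nat_lit 2) (T.im (nat_lit 5) (nat_lit 3)) (T.ts (nat_lit 0) (T.im (nat_lit 7) (nat_lit 2)) T.ie))))) (T.ts (nat_lit 2) (T.ts (nat_lit 4) (T.ls (nat_lit 1) (nat_lit 3)) (T.ts (nat_lit 3) (T.ls (nat_lit 2) (nat_lit 3)) (T.ts (nat_lit 2) (T.ls (nat_lit 1) (nat_lit 3)) (T.ts (nat_lit 1) (T.ls (nat_lit 1) (nat_lit 2)) (T.ts (nat_lit 0) (T.im (nat_lit 7) (nat_lit 2)) T.ie))))) (T.ts (nat_lit 1) (T.ts (nat_lit 4) (T.ls (nat_lit 1) (nat_lit 2)) (T.ts (nat_lit 3) (T.ls (nat_lit 2) (nat_lit 3)) (T.ts (nat_lit 2) (T.ls (nat_lit 1) (nat_lit 3)) (T.ts (nat_lit 1) (T.ls (nat_lit 1) (nat_lit 2)) (T.ts (nat_lit 0) (T.im (nat_lit 7) (nat_lit 2)) T.ie))))) (T.ts (nat_lit 0) (T.im (nat_lit 7) (nat_lit 1)) T.ie)))))))))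
def d71 : T := (T.ts (nat_lit 0) (T.ts (nat_lit 3) (T.ts (nat_lit 3) (T.ls (nat_lit 1) (nat_lit 2)) (T.ts (nat_lit 2) (T.ls (nat_lit 2) (nat_lit 3)) (T.ts (nat_lit 1) (T.ls (nat_lit 1) (nat_lit 3)) (T.ts (nat_lit 0) (T.im (nat_lit 7) (nat_lit 2)) (T.nw (T.ls (nat_lit 1) (nat_lit 2))))))) (T.ts (nat_lit 2) (T.ts (nat_lit 3) (T.ls (nat_lit 2) (nat_lit 3)) (T.ts (nat_lit 2) (T.ls (nat_lit 2) (nat_lit 3)) (T.ts (nat_lit 1) (T.ls (nat_lit 1) (nat_lit 3)) (T.ts (nat_lit 0) (T.im (nat_lit 5) (nat_lit 3)) (T.nw (T.ls (nat_lit 1) (nat_lit 2))))))) (T.ts (nat_lit 1) (T.ts (nat_lit 3) (T.ls (nat_lit 1) (nat_lit 3)) (T.ts (nat_lit 2) (T.ls (nat_lit 2) (nat_lit 3)) (T.ts (nat_lit 1) (T.ls (nat_lit 1) (nat_lit 3)) (T.ts (nat_lit 0) (T.im (nat_lit 7) (nat_lit 2)) (T.nw (T.ls (nat_lit 1) (nat_lit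 2))))))) (T.ts (nat_lit 0) (T.im (nat_lit 7) (nat_lit 1)) (T.nw (T.ts (nat_lit 4) (T.ls (nat_lit 1) (nat_lit 2)) (T.ts (nat_lit 3) (T.ls (nat_lit 2) (nat_lit 3)) (T.ts (nat_lit 2) (T.ls (nat_lit 1) (nat_lit 3)) (T.ts (nat_lit 0) (T.ls (nat_lit 1) (nat_lit 2)) (T.ts (nat_lit 1) (T.im (nat_lit 7) (nat_lit 2)) T.ie)))))))))) (T.ts (nat_lit 2) (T.im (nat_lit 5) (nat_lit 2)) (T.nw (T.ts (nat_lit 4) (T.ts (nat_lit 4) (T.ls (nat_lit 1) (nat_lit 2)) (T.ts (nat_lit 3) (T.ls (nat_lit 2) (nat_lit 3)) (T.ts (nat_lit 2) (T.ls (nat_lit 1) (nat_lit 3)) (T.ts (nat_lit 1) (T.ls (nat_lit 1) (nat_lit 2)) (T.ts (nat_lit 0) (T.im (nat_lit 7) (nat_lit 2)) T.ie))))) (T.ts (nat_lit 3) (T.ts (nat_lit 4) (T.ls (nat_lit 2) (nat_lit 3)) (T.ts (nat_lit 3) (T.ls (nat_lit 2) (nat_lit 3)) (T.ts (nat_lit 2) (T.ls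 (nat_lit 1) (nat_lit 3)) (T.ts (nat_lit 1) (T.im (nat_lit 5) (nat_lit 3)) (T.ts (nat_lit 0) (T.im (nat_lit 7) (nat_lit 2)) T.ie))))) (T.ts (nat_lit 2) (T.ts (nat_lit 4) (T.ls (nat_lit 1) (nat_lit 3)) (T.ts (nat_lit 3) (T.ls (nat_lit 2) (nat_lit 3)) (T.ts (nat_lit 2) (T.ls (nat_lit 1) (nat_lit 3)) (T.ts (nat_lit 1) (T.ls (nat_lit 1) (nat_lit 2)) (T.ts (nat_lit 0) (T.im (nat_lit 7) (nat_lit 2)) T.ie))))) (T.ts (nat_lit 1) (T.ts (nat_lit 4) (T.ls (nat_lit 1) (nat_lit 2)) (T.ts (nat_lit 3) (T.ls (nat_lit 2) (nat_lit 3)) (T.ts (nat_lit 2) (T.ls (nat_lit 1) (nat_lit 3)) (T.ts (nat_lit 1) (T.ls (nat_lit 1) (nat_lit 2)) (T.ts (nat_lit 0) (T.im (nat_lit 7) (nat_lit 2)) T.ie))))) (T.ts (nat_lit 0) (T.im (nat_lit 7) (nat_lit 1)) T.ie))))))))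
def d72 : T := (T.ts (nat_lit 3) (T.ts (nat_lit 2) (T.ts (nat_lit 2) (T.ls (nat_lit 2) (nat_lit 3)) (T.ts (nat_lit 1) (T.ls (nat_lit 1) (nat_lit 3)) (T.ts (nat_lit 3) (T.im (nat_lit 7) (nat_lit 2)) (T.ts (nat_lit 0) (T.im (nat_lit 5) (nat_lit 3)) (T.nw (T.ls (nat_lit 1) (nat_lit 2))))))) (T.ts (nat_lit 1) (T.ts (nat_lit 2) (T.ls (nat_lit 2) (nat_lit 3)) (T.ts (nat_lit 1) (T.ls (nat_lit 1) (nat_lit 3)) (T.ts (nat_lit 0) (T.ls (nat_lit 1) (nat_lit 2)) (T.ts (nat_lit 3) (T.im (nat_lit 7) (nat_lit 2)) (T.nw (T.ls (nat_lit 1) (nat_lit 2))))))) (T.ts (nat_lit 0) (T.ts (nat_lit 2) (T.ls (nat_lit 2) (nat_lit 3)) (T.ts (nat_lit 1) (T.ls (nat_lit 1) (nat_lit 3)) (T.ts (nat_lit 0) (T.ls (nat_lit 1) (nat_lit 2)) (T.ts (nat_lit 3) (T.im (nat_lit 7) (nat_lit 2)) (T.nw (T.ls (nat_lit 1) (nat_lit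 2))))))) (T.ts (nat_lit 3) (T.im (nat_lit 7) (nat_lit 1)) (T.nw (T.ts (nat_lit 3) (T.ls (nat_lit 2) (nat_lit 3)) (T.ts (nat_lit 2) (T.ls (nat_lit 1) (nat_lit 3)) (T.ts (nat_lit 1) (T.ls (nat_lit 1) (nat_lit 2)) (T.ts (nat_lit 0) (T.ls (nat_lit 1) (nat_lit 2)) (T.ts (nat_lit 4) (T.im (nat_lit 7) (nat_lit 2)) T.ie)))))))))) (T.ts (nat_lit 1) (T.ts (nat_lit 3) (T.ts (nat_lit 3) (T.ls (nat_lit 1) (nat_lit 3)) (T.ts (nat_lit 2) (T.ls (nat_lit 2) (nat_lit 3)) (T.ts (nat_lit 0) (T.ls (nat_lit 1) (nat_lit 2)) (T.ts (nat_lit 1) (T.im (nat_lit 7) (nat_lit 2)) (T.nw (T.ls (nat_lit 1) (nat_lit 2))))))) (T.ts (nat_lit 2) (T.ts (nat_lit 3) (T.ls (nat_lit 2) (nat_lit 3)) (T.ts (nat_lit 2) (T.ls (nat_lit 2) (nat_lit 3)) (T.ts (nat_lit 1) (T.im (nat_lit 7) (nat_lit 2)) (T.ts (nat_lit 0) (T.im (nat_lit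 5) (nat_lit 3)) (T.nw (T.ls (nat_lit 1) (nat_lit 2))))))) (T.ts (nat_lit 0) (T.ts (nat_lit 3) (T.ls (nat_lit 1) (nat_lit 2)) (T.ts (nat_lit 0) (T.ls (nat_lit 1) (nat_lit 2)) (T.ts (nat_lit 2) (T.im (nat_lit 3) (nat_lit 4)) (T.ts (nat_lit 1) (T.im (nat_lit 7) (nat_lit 2)) (T.nw (T.ls (nat_lit 1) (nat_lit 2))))))) (T.ts (nat_lit 1) (T.im (nat_lit 7) (nat_lit 1)) (T.nw (T.ts (nat_lit 4) (T.ls (nat_lit 1) (nat_lit 2)) (T.ts (nat_lit 3) (T.ls (nat_lit 2) (nat_lit 3)) (T.ts (nat_lit 1) (T.ls (nat_lit 1) (nat_lit 2)) (T.ts (nat_lit 0) (T.ls (nat_lit 1) (nat_lit 2)) (T.ts (nat_lit 2) (T.im (nat_lit 7) (nat_lit 2)) T.ie)))))))))) d71))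
def d73 : T := (T.ts (nat_lit 1) (T.ts (nat_lit 4) (T.ts (nat_lit 4) (T.ls (nat_lit 1) (nat_lit 2)) (T.ts (nat_lit 3) (T.ls (nat_lit 2) (nat_lit 3)) (T.ts (nat_lit 2) (T.ls (nat_lit 1) (nat_lit 3)) (T.ts (nat_lit 0) (T.ls (nat_lit 1) (nat_lit 2)) (T.ts (nat_lit 1) (T.im (nat_lit 7) (nat_lit 2)) T.ie))))) (T.ts (nat_lit 3) (T.ts (nat_lit 4) (T.ls (nat_lit 2) (nat_lit 3)) (T.ts (nat_lit 3) (T.ls (nat_lit 2) (nat_lit 3)) (T.ts (nat_lit 2) (T.ls (nat_lit 1) (nat_lit 3)) (T.ts (nat_lit 1) (T.im (nat_lit 7) (nat_lit 2)) (T.ts (nat_lit 0) (T.im (nat_lit 5) (nat_lit 3)) T.ie))))) (T.ts (nat_lit 2) (T.ts (nat_lit 4) (T.ls (nat_lit 1) (nat_lit 3)) (T.ts (nat_lit 3) (T.ls (nat_lit 2) (nat_lit 3)) (T.ts (nat_lit 2) (T.ls (nat_lit 1) (nat_lit 3)) (T.ts (nat_lit 0) (T.ls (nat_lit 1) (nat_lit 2))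 (T.ts (nat_lit 1) (T.im (nat_lit 7) (nat_lit 2)) T.ie))))) (T.ts (nat_lit 0) (T.ts (nat_lit 4) (T.ls (nat_lit 1) (nat_lit 2)) (T.ts (nat_lit 3) (T.ls (nat_lit 2) (nat_lit 3)) (T.ts (nat_lit 2) (T.ls (nat_lit 1) (nat_lit 3)) (T.ts (nat_lit 0) (T.ls (nat_lit 1) (nat_lit 2)) (T.ts (nat_lit 1) (T.im (nat_lit 7) (nat_lit 2)) T.ie))))) (T.ts (nat_lit 1) (T.im (nat_lit 7) (nat_lit 1)) T.ie))))) (T.ts (nat_lit 0) (T.ts (nat_lit 4) (T.ts (nat_lit 4) (T.ls (nat_lit 1) (nat_lit 2)) (T.ts (nat_lit 3) (T.ls (nat_lit 2) (nat_lit 3)) (T.ts (nat_lit 2) (T.ls (nat_lit 1) (nat_lit 3)) (T.ts (nat_lit 1) (T.ls (nat_lit 1) (nat_lit 2)) (T.ts (nat_lit 0) (T.im (nat_lit 7) (nat_lit 2)) T.ie))))) (T.ts (nat_lit 3) (T.ts (nat_lit 4) (T.ls (nat_lit 2) (nat_lit 3)) (T.ts (nat_lit 3) (T.ls (nat_lit 2) (nat_lit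 3)) (T.ts (nat_lit 2) (T.ls (nat_lit 1) (nat_lit 3)) (T.ts (nat_lit 1) (T.ls (nat_lit 1) (nat_lit 2)) (T.ts (nat_lit 0) (T.im (nat_lit 5) (nat_lit 3)) T.ie))))) (T.ts (nat_lit 2) (T.ts (nat_lit 4) (T.ls (nat_lit 1) (nat_lit 3)) (T.ts (nat_lit 3) (T.ls (nat_lit 2) (nat_lit 3)) (T.ts (nat_lit 2) (T.ls (nat_lit 1) (nat_lit 3)) (T.ts (nat_lit 1) (T.ls (nat_lit 1) (nat_lit 2)) (T.ts (nat_lit 0) (T.im (nat_lit 7) (nat_lit 2)) T.ie))))) (T.ts (nat_lit 1) (T.ts (nat_lit 4) (T.ls (nat_lit 1) (nat_lit 2)) (T.ts (nat_lit 3) (T.ls (nat_lit 2) (nat_lit 3)) (T.ts (nat_lit 2) (T.ls (nat_lit 1) (nat_lit 3)) (T.ts (nat_lit 1) (T.ls (nat_lit 1) (nat_lit 2)) (T.ts (nat_lit 0) (T.im (nat_lit 7) (nat_lit 2)) T.ie))))) (T.ts (nat_lit 0) (T.im (nat_lit 7) (nat_lit 1)) T.ie))))) (T.ts (nat_lit 3) (T.im (nat_lit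 5) (nat_lit 2)) T.ie)))
def d74 : T := (T.ts (nat_lit 4) (T.ts (nat_lit 3) (T.ts (nat_lit 3) (T.ls (nat_lit 2) (nat_lit 3)) (T.ts (nat_lit 2) (T.ls (nat_lit 1) (nat_lit 3)) (T.ts (nat_lit 1) (T.ls (nat_lit 1) (nat_lit 2)) (T.ts (nat_lit 4) (T.im (nat_lit 7) (nat_lit 2)) (T.ts (nat_lit 0) (T.im (nat_lit 5) (nat_lit 3)) T.ie))))) (T.ts (nat_lit 2) (T.ts (nat_lit 3) (T.ls (nat_lit 2) (nat_lit 3)) (T.ts (nat_lit 2) (T.ls (nat_lit 1) (nat_lit 3)) (T.ts (nat_lit 1) (T.ls (nat_lit 1) (nat_lit 2)) (T.ts (nat_lit 0) (T.ls (nat_lit 1) (nat_lit 2)) (T.ts (nat_lit 4) (T.im (nat_lit 7) (nat_lit 2)) T.ie))))) (T.ts (nat_lit 1) (T.ts (nat_lit 3) (T.ls (nat_lit 2) (nat_lit 3)) (T.ts (nat_lit 2) (T.ls (nat_lit 1) (nat_lit 3)) (T.ts (nat_lit 1) (T.ls (nat_lit 1) (nat_lit 2)) (T.ts (nat_lit 0) (T.ls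 (nat_lit 1) (nat_lit 2)) (T.ts (nat_lit 4) (T.im (nat_lit 7) (nat_lit 2)) T.ie))))) (T.ts (nat_lit 0) (T.ts (nat_lit 3) (T.ls (nat_lit 2) (nat_lit 3)) (T.ts (nat_lit 2) (T.ls (nat_lit 1) (nat_lit 3)) (T.ts (nat_lit 1) (T.ls (nat_lit 1) (nat_lit 2)) (T.ts (nat_lit 0) (T.ls (nat_lit 1) (nat_lit 2)) (T.ts (nat_lit 4) (T.im (nat_lit 7) (nat_lit 2)) T.ie))))) (T.ts (nat_lit 4) (T.im (nat_lit 7) (nat_lit 1)) T.ie))))) (T.ts (nat_lit 2) (T.ts (nat_lit 4) (T.ts (nat_lit 4) (T.ls (nat_lit 1) (nat_lit 3)) (T.ts (nat_lit 3) (T.ls (nat_lit 2) (nat_lit 3)) (T.ts (nat_lit 1) (T.ls (nat_lit 1) (nat_lit 2)) (T.ts (nat_lit 0) (T.ls (nat_lit 1) (nat_lit 2)) (T.ts (nat_lit 2) (T.im (nat_lit 7) (nat_lit 2)) T.ie))))) (T.ts (nat_lit 3) (T.ts (nat_lit 4) (T.ls (nat_lit 2) (nat_lit 3)) (T.ts (nat_lit 3)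 (T.ls (nat_lit 2) (nat_lit 3)) (T.ts (nat_lit 1) (T.ls (nat_lit 1) (nat_lit 2)) (T.ts (nat_lit 2) (T.im (nat_lit 7) (nat_lit 2)) (T.ts (nat_lit 0) (T.im (nat_lit 5) (nat_lit 3)) T.ie))))) (T.ts (nat_lit 1) (T.ts (nat_lit 4) (T.ls (nat_lit 1) (nat_lit 2)) (T.ts (nat_lit 1) (T.ls (nat_lit 1) (nat_lit 2)) (T.ts (nat_lit 0) (T.ls (nat_lit 1) (nat_lit 2)) (T.ts (nat_lit 3) (T.im (nat_lit 3) (nat_lit 4)) (T.ts (nat_lit 2) (T.im (nat_lit 7) (nat_lit 2)) T.ie))))) (T.ts (nat_lit 0) (T.ts (nat_lit 4) (T.ls (nat_lit 1) (nat_lit 2)) (T.ts (nat_lit 3) (T.ls (nat_lit 2) (nat_lit 3)) (T.ts (nat_lit 1) (T.ls (nat_lit 1) (nat_lit 2)) (T.ts (nat_lit 0) (T.ls (nat_lit 1) (nat_lit 2)) (T.ts (nat_lit 2) (T.im (nat_lit 7) (nat_lit 2)) T.ie))))) (T.ts (nat_lit 2) (T.im (nat_lit 7) (nat_lit 1)) T.ie)))))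 d73))
def d75 : T := (T.ts (nat_lit 3) d69 (T.ts (nat_lit 1) (T.ts (nat_lit 3) (T.ts (nat_lit 2) (T.ts (nat_lit 2) (T.ls (nat_lit 2) (nat_lit 3)) (T.ts (nat_lit 0) (T.ls (nat_lit 1) (nat_lit 2)) (T.ts (nat_lit 3) (T.im (nat_lit 7) (nat_lit 2)) (T.ts (nat_lit 1) (T.im (nat_lit 5) (nat_lit 3)) (T.nw (T.ls (nat_lit 1) (nat_lit 2))))))) (T.ts (nat_lit 1) (T.ts (nat_lit 2) (T.ls (nat_lit 2) (nat_lit 3)) (T.ts (nat_lit 1) (T.ls (nat_lit 1) (nat_lit 3)) (T.ts (nat_lit 0) (T.ls (nat_lit 1) (nat_lit 2)) (T.ts (nat_lit 3) (T.im (nat_lit 7) (nat_lit 2)) (T.nw (T.ls (nat_lit 1) (nat_lit 2))))))) (T.ts (nat_lit 0) (T.ts (nat_lit 2) (T.ls (nat_lit 2) (nat_lit 3)) (T.ts (nat_lit 1) (T.ls (nat_lit 1) (nat_lit 3)) (T.ts (nat_lit 0) (T.ls (nat_lit 1) (nat_lit 2)) (T.ts (nat_lit 3) (T.im (nat_lit 7)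 (nat_lit 2)) (T.nw (T.ls (nat_lit 1) (nat_lit 2))))))) (T.ts (nat_lit 3) (T.im (nat_lit 7) (nat_lit 1)) (T.nw (T.ts (nat_lit 3) (T.ls (nat_lit 2) (nat_lit 3)) (T.ts (nat_lit 2) (T.ls (nat_lit 1) (nat_lit 3)) (T.ts (nat_lit 1) (T.ls (nat_lit 1) (nat_lit 2)) (T.ts (nat_lit 0) (T.ls (nat_lit 1) (nat_lit 2)) (T.ts (nat_lit 4) (T.im (nat_lit 7) (nat_lit 2)) T.ie)))))))))) d70) (T.ts (nat_lit 0) d72 (T.ts (nat_lit 2) (T.im (nat_lit 5) (nat_lit 1)) (T.nw d74)))))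
def d76 : T := (T.ts (nat_lit 1) (T.ts (nat_lit 3) (T.ts (nat_lit 3) (T.ls (nat_lit 1) (nat_lit 3)) (T.ts (nat_lit 2) (T.ls (nat_lit 2) (nat_lit 3)) (T.ts (nat_lit 0) (T.ls (nat_lit 1) (nat_lit 2)) (T.ts (nat_lit 1) (T.im (nat_lit 7) (nat_lit 2)) (T.nw (T.ls (nat_lit 1) (nat_lit 2))))))) (T.ts (nat_lit 2) (T.ts (nat_lit 3) (T.ls (nat_lit 2) (nat_lit 3)) (T.ts (nat_lit 2) (T.ls (nat_lit 2) (nat_lit 3)) (T.ts (nat_lit 0) (T.ls (nat_lit 1) (nat_lit 2)) (T.ts (nat_lit 1) (T.im (nat_lit 7) (nat_lit 2)) (T.nw (T.ls (nat_lit 1) (nat_lit 2))))))) (T.ts (nat_lit 0) (T.ts (nat_lit 2) (T.ls (nat_lit 2) (nat_lit 3)) (T.ts (nat_lit 3) (T.im (nat_lit 5) (nat_lit 3)) (T.ts (nat_lit 1) (T.im (nat_lit 7) (nat_lit 2)) (T.ts (nat_lit 0) (T.im (nat_lit 3) (nat_lit 4)) (T.nw (T.ls (nat_lit 1) (nat_lit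 2))))))) (T.ts (nat_lit 1) (T.im (nat_lit 7) (nat_lit 1)) (T.nw (T.ts (nat_lit 4) (T.ls (nat_lit 1) (nat_lit 2)) (T.ts (nat_lit 3) (T.ls (nat_lit 2) (nat_lit 3)) (T.ts (nat_lit 1) (T.ls (nat_lit 1) (nat_lit 2)) (T.ts (nat_lit 0) (T.ls (nat_lit 1) (nat_lit 2)) (T.ts (nat_lit 2) (T.im (nat_lit 7) (nat_lit 2)) T.ie)))))))))) (T.ts (nat_lit 0) (T.im (nat_lit 5) (nat_lit 2)) (T.nw (T.ts (nat_lit 4) (T.ts (nat_lit 4) (T.ls (nat_lit 1) (nat_lit 2)) (T.ts (nat_lit 3) (T.ls (nat_lit 2) (nat_lit 3)) (T.ts (nat_lit 2) (T.ls (nat_lit 1) (nat_lit 3)) (T.ts (nat_lit 1) (T.ls (nat_lit 1) (nat_lit 2)) (T.ts (nat_lit 0) (T.im (nat_lit 7) (nat_lit 2)) T.ie))))) (T.ts (nat_lit 3) (T.ts (nat_lit 4) (T.ls (nat_lit 2) (nat_lit 3)) (T.ts (nat_lit 3) (T.ls (nat_lit 2) (nat_lit 3)) (T.ts (nat_lit 2) (T.ls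 (nat_lit 1) (nat_lit 3)) (T.ts (nat_lit 1) (T.ls (nat_lit 1) (nat_lit 2)) (T.ts (nat_lit 0) (T.im (nat_lit 7) (nat_lit 2)) T.ie))))) (T.ts (nat_lit 2) (T.ts (nat_lit 4) (T.ls (nat_lit 1) (nat_lit 3)) (T.ts (nat_lit 3) (T.ls (nat_lit 2) (nat_lit 3)) (T.ts (nat_lit 2) (T.ls (nat_lit 1) (nat_lit 3)) (T.ts (nat_lit 1) (T.ls (nat_lit 1) (nat_lit 2)) (T.ts (nat_lit 0) (T.im (nat_lit 7) (nat_lit 2)) T.ie))))) (T.ts (nat_lit 1) (T.ts (nat_lit 3) (T.ls (nat_lit 2) (nat_lit 3)) (T.ts (nat_lit 2) (T.ls (nat_lit 1) (nat_lit 3)) (T.ts (nat_lit 1) (T.ls (nat_lit 1) (nat_lit 2)) (T.ts (nat_lit 4) (T.im (nat_lit 5) (nat_lit 3)) (T.ts (nat_lit 0) (T.im (nat_lit 7) (nat_lit 2)) T.ie))))) (T.ts (nat_lit 0) (T.im (nat_lit 7) (nat_lit 1)) T.ie))))))))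
def d77 : T := (T.ts (nat_lit 3) (T.ts (nat_lit 2) (T.ts (nat_lit 2) (T.ls (nat_lit 2) (nat_lit 3)) (T.ts (nat_lit 1) (T.ls (nat_lit 1) (nat_lit 4)) (T.ts (nat_lit 0) (T.ls (nat_lit 1) (nat_lit 2)) (T.ts (nat_lit 3) (T.im (nat_lit 7) (nat_lit 2)) (T.nw (T.ls (nat_lit 1) (nat_lit 2))))))) (T.ts (nat_lit 1) (T.ts (nat_lit 2) (T.ls (nat_lit 2) (nat_lit 3)) (T.ts (nat_lit 1) (T.ls (nat_lit 1) (nat_lit 3)) (T.ts (nat_lit 0) (T.ls (nat_lit 1) (nat_lit 2)) (T.ts (nat_lit 3) (T.im (nat_lit 7) (nat_lit 2)) (T.nw (T.ls (nat_lit 1) (nat_lit 2))))))) (T.ts (nat_lit 0) (T.ts (nat_lit 2) (T.ls (nat_lit 2) (nat_lit 3)) (T.ts (nat_lit 1) (T.ls (nat_lit 1) (nat_lit 3)) (T.ts (nat_lit 0) (T.ls (nat_lit 1) (nat_lit 2)) (T.ts (nat_lit 3) (T.im (nat_lit 5) (nat_lit 3)) (T.nw (T.ls (nat_lit 1) (nat_lit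 2))))))) (T.ts (nat_lit 3) (T.im (nat_lit 7) (nat_lit 1)) (T.nw (T.ts (nat_lit 3) (T.ls (nat_lit 2) (nat_lit 3)) (T.ts (nat_lit 2) (T.ls (nat_lit 1) (nat_lit 3)) (T.ts (nat_lit 1) (T.ls (nat_lit 1) (nat_lit 2)) (T.ts (nat_lit 0) (T.ls (nat_lit 1) (nat_lit 2)) (T.ts (nat_lit 4) (T.im (nat_lit 7) (nat_lit 2)) T.ie)))))))))) (T.ts (nat_lit 2) (T.ts (nat_lit 3) (T.ts (nat_lit 3) (T.ls (nat_lit 2) (nat_lit 3)) (T.ts (nat_lit 1) (T.ls (nat_lit 1) (nat_lit 3)) (T.ts (nat_lit 0) (T.ls (nat_lit 1) (nat_lit 2)) (T.ts (nat_lit 2) (T.im (nat_lit 7) (nat_lit 2)) (T.nw (T.ls (nat_lit 1) (nat_lit 2))))))) (T.ts (nat_lit 1) (T.ts (nat_lit 3) (T.ls (nat_lit 1) (nat_lit 3)) (T.ts (nat_lit 1) (T.ls (nat_lit 1) (nat_lit 3)) (T.ts (nat_lit 2) (T.im (nat_lit 7) (nat_lit 2)) (T.ts (nat_lit 0) (T.im (nat_lit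 1) (nat_lit 5)) (T.nw (T.ls (nat_lit 1) (nat_lit 2))))))) (T.ts (nat_lit 0) (T.ts (nat_lit 1) (T.ls (nat_lit 1) (nat_lit 3)) (T.ts (nat_lit 0) (T.ls (nat_lit 1) (nat_lit 2)) (T.ts (nat_lit 3) (T.im (nat_lit 5) (nat_lit 3)) (T.ts (nat_lit 2) (T.im (nat_lit 7) (nat_lit 2)) (T.nw (T.ls (nat_lit 1) (nat_lit 2))))))) (T.ts (nat_lit 2) (T.im (nat_lit 7) (nat_lit 1)) (T.nw (T.ts (nat_lit 4) (T.ls (nat_lit 1) (nat_lit 2)) (T.ts (nat_lit 2) (T.ls (nat_lit 1) (nat_lit 3)) (T.ts (nat_lit 1) (T.ls (nat_lit 1) (nat_lit 2)) (T.ts (nat_lit 0) (T.ls (nat_lit 1) (nat_lit 2)) (T.ts (nat_lit 3) (T.im (nat_lit 7) (nat_lit 2)) T.ie)))))))))) d76))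
def d78 : T := (T.ts (nat_lit 1) (T.ts (nat_lit 3) (T.ts (nat_lit 3) (T.ls (nat_lit 1) (nat_lit 3)) (T.ts (nat_lit 2) (T.ls (nat_lit 2) (nat_lit 3)) (T.ts (nat_lit 0) (T.ls (nat_lit 1) (nat_lit 2)) (T.ts (nat_lit 1) (T.im (nat_lit 7) (nat_lit 2)) (T.nw (T.ls (nat_lit 1) (nat_lit 2))))))) (T.ts (nat_lit 2) (T.ts (nat_lit 3) (T.ls (nat_lit 2) (nat_lit 3)) (T.ts (nat_lit 2) (T.ls (nat_lit 2) (nat_lit 3)) (T.ts (nat_lit 0) (T.ls (nat_lit 1) (nat_lit 2)) (T.ts (nat_lit 1) (T.im (nat_lit 7) (nat_lit 2)) (T.nw (T.ls (nat_lit 1) (nat_lit 2))))))) (T.ts (nat_lit 0) (T.ts (nat_lit 3) (T.ls (nat_lit 1) (nat_lit 2)) (T.ts (nat_lit 2) (T.im (nat_lit 5) (nat_lit 3)) (T.ts (nat_lit 1) (T.im (nat_lit 7) (nat_lit 2)) (T.ts (nat_lit 0) (T.im (nat_lit 3) (nat_lit 4)) (T.nw (T.ls (nat_lit 1) (nat_lit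 2))))))) (T.ts (nat_lit 1) (T.im (nat_lit 7) (nat_lit 1)) (T.nw (T.ts (nat_lit 4) (T.ls (nat_lit 1) (nat_lit 2)) (T.ts (nat_lit 3) (T.ls (nat_lit 2) (nat_lit 3)) (T.ts (nat_lit 1) (T.ls (nat_lit 1) (nat_lit 2)) (T.ts (nat_lit 0) (T.ls (nat_lit 1) (nat_lit 2)) (T.ts (nat_lit 2) (T.im (nat_lit 7) (nat_lit 2)) T.ie)))))))))) (T.ts (nat_lit 0) (T.im (nat_lit 5) (nat_lit 2)) (T.nw (T.ts (nat_lit 4) (T.ts (nat_lit 4) (T.ls (nat_lit 1) (nat_lit 2)) (T.ts (nat_lit 3) (T.ls (nat_lit 2) (nat_lit 3)) (T.ts (nat_lit 2) (T.ls (nat_lit 1) (nat_lit 3)) (T.ts (nat_lit 1) (T.ls (nat_lit 1) (nat_lit 2)) (T.ts (nat_lit 0) (T.im (nat_lit 7) (nat_lit 2)) T.ie))))) (T.ts (nat_lit 3) (T.ts (nat_lit 4) (T.ls (nat_lit 2) (nat_lit 3)) (T.ts (nat_lit 3) (T.ls (nat_lit 2) (nat_lit 3)) (T.ts (nat_lit 2) (T.ls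 (nat_lit 1) (nat_lit 3)) (T.ts (nat_lit 1) (T.ls (nat_lit 1) (nat_lit 2)) (T.ts (nat_lit 0) (T.im (nat_lit 7) (nat_lit 2)) T.ie))))) (T.ts (nat_lit 2) (T.ts (nat_lit 4) (T.ls (nat_lit 1) (nat_lit 3)) (T.ts (nat_lit 3) (T.ls (nat_lit 2) (nat_lit 3)) (T.ts (nat_lit 2) (T.ls (nat_lit 1) (nat_lit 3)) (T.ts (nat_lit 1) (T.ls (nat_lit 1) (nat_lit 2)) (T.ts (nat_lit 0) (T.im (nat_lit 7) (nat_lit 2)) T.ie))))) (T.ts (nat_lit 1) (T.ts (nat_lit 4) (T.ls (nat_lit 1) (nat_lit 2)) (T.ts (nat_lit 2) (T.ls (nat_lit 1) (nat_lit 3)) (T.ts (nat_lit 1) (T.ls (nat_lit 1) (nat_lit 2)) (T.ts (nat_lit 3) (T.im (nat_lit 5) (nat_lit 3)) (T.ts (nat_lit 0) (T.im (nat_lit 7) (nat_lit 2)) T.ie))))) (T.ts (nat_lit 0) (T.im (nat_lit 7) (nat_lit 1)) T.ie))))))))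
def d79 : T := (T.ts (nat_lit 3) (T.ts (nat_lit 2) (T.ts (nat_lit 2) (T.ls (nat_lit 2) (nat_lit 3)) (T.ts (nat_lit 1) (T.ls (nat_lit 1) (nat_lit 3)) (T.ts (nat_lit 0) (T.ls (nat_lit 1) (nat_lit 2)) (T.ts (nat_lit 3) (T.im (nat_lit 7) (nat_lit 2)) (T.nw (T.ls (nat_lit 1) (nat_lit 2))))))) (T.ts (nat_lit 1) (T.ts (nat_lit 2) (T.ls (nat_lit 2) (nat_lit 3)) (T.ts (nat_lit 1) (T.ls (nat_lit 1) (nat_lit 3)) (T.ts (nat_lit 0) (T.ls (nat_lit 1) (nat_lit 2)) (T.ts (nat_lit 3) (T.im (nat_lit 7) (nat_lit 2)) (T.nw (T.ls (nat_lit 1) (nat_lit 2))))))) (T.ts (nat_lit 0) (T.ts (nat_lit 1) (T.ls (nat_lit 1) (nat_lit 3)) (T.ts (nat_lit 0) (T.ls (nat_lit 1) (nat_lit 2)) (T.ts (nat_lit 3) (T.im (nat_lit 7) (nat_lit 2)) (T.ts (nat_lit 2) (T.im (nat_lit 5) (nat_lit 3)) (T.nw (T.ls (nat_lit 1) (nat_lit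 2))))))) (T.ts (nat_lit 3) (T.im (nat_lit 7) (nat_lit 1)) (T.nw (T.ts (nat_lit 3) (T.ls (nat_lit 2) (nat_lit 3)) (T.ts (nat_lit 2) (T.ls (nat_lit 1) (nat_lit 3)) (T.ts (nat_lit 1) (T.ls (nat_lit 1) (nat_lit 2)) (T.ts (nat_lit 0) (T.ls (nat_lit 1) (nat_lit 2)) (T.ts (nat_lit 4) (T.im (nat_lit 7) (nat_lit 2)) T.ie)))))))))) (T.ts (nat_lit 2) (T.ts (nat_lit 3) (T.ts (nat_lit 3) (T.ls (nat_lit 2) (nat_lit 3)) (T.ts (nat_lit 1) (T.ls (nat_lit 1) (nat_lit 3)) (T.ts (nat_lit 0) (T.ls (nat_lit 1) (nat_lit 2)) (T.ts (nat_lit 2) (T.im (nat_lit 7) (nat_lit 2)) (T.nw (T.ls (nat_lit 1) (nat_lit 2))))))) (T.ts (nat_lit 1) (T.ts (nat_lit 3) (T.ls (nat_lit 1) (nat_lit 3)) (T.ts (nat_lit 1) (T.ls (nat_lit 1) (nat_lit 3)) (T.ts (nat_lit 0) (T.ls (nat_lit 1) (nat_lit 2)) (T.ts (nat_lit 2) (T.im (nat_lit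 7) (nat_lit 2)) (T.nw (T.ls (nat_lit 1) (nat_lit 2))))))) (T.ts (nat_lit 0) (T.ts (nat_lit 3) (T.ls (nat_lit 1) (nat_lit 2)) (T.ts (nat_lit 1) (T.ls (nat_lit 1) (nat_lit 3)) (T.ts (nat_lit 0) (T.ls (nat_lit 1) (nat_lit 2)) (T.ts (nat_lit 2) (T.im (nat_lit 5) (nat_lit 3)) (T.nw (T.ls (nat_lit 1) (nat_lit 2))))))) (T.ts (nat_lit 2) (T.im (nat_lit 7) (nat_lit 1)) (T.nw (T.ts (nat_lit 4) (T.ls (nat_lit 1) (nat_lit 2)) (T.ts (nat_lit 2) (T.ls (nat_lit 1) (nat_lit 3)) (T.ts (nat_lit 1) (T.ls (nat_lit 1) (nat_lit 2)) (T.ts (nat_lit 0) (T.ls (nat_lit 1) (nat_lit 2)) (T.ts (nat_lit 3) (T.im (nat_lit 7) (nat_lit 2)) T.ie)))))))))) d78))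
def d80 : T := (T.ts (nat_lit 1) (T.ts (nat_lit 3) (T.ts (nat_lit 3) (T.ls (nat_lit 1) (nat_lit 3)) (T.ts (nat_lit 2) (T.ls (nat_lit 2) (nat_lit 3)) (T.ts (nat_lit 0) (T.ls (nat_lit 1) (nat_lit 2)) (T.ts (nat_lit 1) (T.im (nat_lit 7) (nat_lit 2)) (T.nw (T.ls (nat_lit 1) (nat_lit 2))))))) (T.ts (nat_lit 2) (T.ts (nat_lit 3) (T.ls (nat_lit 2) (nat_lit 3)) (T.ts (nat_lit 2) (T.ls (nat_lit 2) (nat_lit 3)) (T.ts (nat_lit 0) (T.ls (nat_lit 1) (nat_lit 2)) (T.ts (nat_lit 1) (T.im (nat_lit 7) (nat_lit 2)) (T.nw (T.ls (nat_lit 1) (nat_lit 2))))))) (T.ts (nat_lit 0) (T.ts (nat_lit 3) (T.ls (nat_lit 1) (nat_lit 2)) (T.ts (nat_lit 2) (T.ls (nat_lit 2) (nat_lit 3)) (T.ts (nat_lit 1) (T.im (nat_lit 5) (nat_lit 3)) (T.ts (nat_lit 0) (T.im (nat_lit 3) (nat_lit 4)) (T.nw (T.ls (nat_lit 1) (nat_lit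 2))))))) (T.ts (nat_lit 1) (T.im (nat_lit 7) (nat_lit 1)) (T.nw (T.ts (nat_lit 4) (T.ls (nat_lit 1) (nat_lit 2)) (T.ts (nat_lit 3) (T.ls (nat_lit 2) (nat_lit 3)) (T.ts (nat_lit 1) (T.ls (nat_lit 1) (nat_lit 2)) (T.ts (nat_lit 0) (T.ls (nat_lit 1) (nat_lit 2)) (T.ts (nat_lit 2) (T.im (nat_lit 7) (nat_lit 2)) T.ie)))))))))) (T.ts (nat_lit 0) (T.im (nat_lit 3) (nat_lit 3)) (T.nw (T.ts (nat_lit 4) (T.ts (nat_lit 4) (T.ls (nat_lit 1) (nat_lit 2)) (T.ts (nat_lit 3) (T.ls (nat_lit 2) (nat_lit 3)) (T.ts (nat_lit 2) (T.ls (nat_lit 1) (nat_lit 3)) (T.ts (nat_lit 1) (T.ls (nat_lit 1) (nat_lit 2)) (T.ts (nat_lit 0) (T.im (nat_lit 7) (nat_lit 2)) T.ie))))) (T.ts (nat_lit 3) (T.ts (nat_lit 4) (T.ls (nat_lit 2) (nat_lit 3)) (T.ts (nat_lit 3) (T.ls (nat_lit 2) (nat_lit 3)) (T.ts (nat_lit 2) (T.ls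 (nat_lit 1) (nat_lit 3)) (T.ts (nat_lit 1) (T.ls (nat_lit 1) (nat_lit 2)) (T.ts (nat_lit 0) (T.im (nat_lit 7) (nat_lit 2)) T.ie))))) (T.ts (nat_lit 2) (T.ts (nat_lit 4) (T.ls (nat_lit 1) (nat_lit 3)) (T.ts (nat_lit 3) (T.ls (nat_lit 2) (nat_lit 3)) (T.ts (nat_lit 2) (T.ls (nat_lit 1) (nat_lit 3)) (T.ts (nat_lit 1) (T.ls (nat_lit 1) (nat_lit 2)) (T.ts (nat_lit 0) (T.im (nat_lit 7) (nat_lit 2)) T.ie))))) (T.ts (nat_lit 1) (T.ts (nat_lit 4) (T.ls (nat_lit 1) (nat_lit 2)) (T.ts (nat_lit 3) (T.ls (nat_lit 2) (nat_lit 3)) (T.ts (nat_lit 1) (T.ls (nat_lit 1) (nat_lit 2)) (T.ts (nat_lit 2) (T.im (nat_lit 5) (nat_lit 3)) (T.ts (nat_lit 0) (T.im (nat_lit 7) (nat_lit 2)) T.ie))))) (T.ts (nat_lit 0) (T.im (nat_lit 7) (nat_lit 1)) T.ie))))))))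
def d81 : T := (T.ts (nat_lit 3) (T.ts (nat_lit 2) (T.ts (nat_lit 2) (T.ls (nat_lit 2) (nat_lit 3)) (T.ts (nat_lit 1) (T.ls (nat_lit 1) (nat_lit 3)) (T.ts (nat_lit 0) (T.ls (nat_lit 1) (nat_lit 2)) (T.ts (nat_lit 3) (T.im (nat_lit 7) (nat_lit 2)) (T.nw (T.ls (nat_lit 1) (nat_lit 2))))))) (T.ts (nat_lit 1) (T.ts (nat_lit 2) (T.ls (nat_lit 2) (nat_lit 3)) (T.ts (nat_lit 1) (T.ls (nat_lit 1) (nat_lit 3)) (T.ts (nat_lit 0) (T.ls (nat_lit 1) (nat_lit 2)) (T.ts (nat_lit 3) (T.im (nat_lit 7) (nat_lit 2)) (T.nw (T.ls (nat_lit 1) (nat_lit 2))))))) (T.ts (nat_lit 0) (T.ts (nat_lit 2) (T.ls (nat_lit 2) (nat_lit 3)) (T.ts (nat_lit 0) (T.ls (nat_lit 1) (nat_lit 2)) (T.ts (nat_lit 3) (T.im (nat_lit 7) (nat_lit 2)) (T.ts (nat_lit 1) (T.im (nat_lit 5) (nat_lit 3)) (T.nw (T.ls (nat_lit 1) (nat_lit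 2))))))) (T.ts (nat_lit 3) (T.im (nat_lit 7) (nat_lit 1)) (T.nw (T.ts (nat_lit 3) (T.ls (nat_lit 2) (nat_lit 3)) (T.ts (nat_lit 2) (T.ls (nat_lit 1) (nat_lit 3)) (T.ts (nat_lit 1) (T.ls (nat_lit 1) (nat_lit 2)) (T.ts (nat_lit 0) (T.ls (nat_lit 1) (nat_lit 2)) (T.ts (nat_lit 4) (T.im (nat_lit 7) (nat_lit 2)) T.ie)))))))))) (T.ts (nat_lit 2) (T.ts (nat_lit 3) (T.ts (nat_lit 3) (T.ls (nat_lit 2) (nat_lit 3)) (T.ts (nat_lit 1) (T.ls (nat_lit 1) (nat_lit 3)) (T.ts (nat_lit 0) (T.ls (nat_lit 1) (nat_lit 2)) (T.ts (nat_lit 2) (T.im (nat_lit 7) (nat_lit 2)) (T.nw (T.ls (nat_lit 1) (nat_lit 2))))))) (T.ts (nat_lit 1) (T.ts (nat_lit 3) (T.ls (nat_lit 1) (nat_lit 3)) (T.ts (nat_lit 1) (T.ls (nat_lit 1) (nat_lit 3)) (T.ts (nat_lit 0) (T.ls (nat_lit 1) (nat_lit 2)) (T.ts (nat_lit 2) (T.im (nat_lit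 7) (nat_lit 2)) (T.nw (T.ls (nat_lit 1) (nat_lit 2))))))) (T.ts (nat_lit 0) (T.ts (nat_lit 3) (T.ls (nat_lit 1) (nat_lit 2)) (T.ts (nat_lit 0) (T.ls (nat_lit 1) (nat_lit 2)) (T.ts (nat_lit 2) (T.im (nat_lit 7) (nat_lit 2)) (T.ts (nat_lit 1) (T.im (nat_lit 5) (nat_lit 3)) (T.nw (T.ls (nat_lit 1) (nat_lit 2))))))) (T.ts (nat_lit 2) (T.im (nat_lit 7) (nat_lit 1)) (T.nw (T.ts (nat_lit 4) (T.ls (nat_lit 1) (nat_lit 2)) (T.ts (nat_lit 2) (T.ls (nat_lit 1) (nat_lit 3)) (T.ts (nat_lit 1) (T.ls (nat_lit 1) (nat_lit 2)) (T.ts (nat_lit 0) (T.ls (nat_lit 1) (nat_lit 2)) (T.ts (nat_lit 3) (T.im (nat_lit 7) (nat_lit 2)) T.ie)))))))))) d80))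
def d82 : T := (T.ts (nat_lit 2) (T.ts (nat_lit 4) (T.ts (nat_lit 4) (T.ls (nat_lit 1) (nat_lit 3)) (T.ts (nat_lit 3) (T.ls (nat_lit 2) (nat_lit 3)) (T.ts (nat_lit 1) (T.ls (nat_lit 1) (nat_lit 2)) (T.ts (nat_lit 0) (T.ls (nat_lit 1) (nat_lit 2)) (T.ts (nat_lit 2) (T.im (nat_lit 7) (nat_lit 2)) T.ie))))) (T.ts (nat_lit 3) (T.ts (nat_lit 4) (T.ls (nat_lit 2) (nat_lit 3)) (T.ts (nat_lit 3) (T.ls (nat_lit 2) (nat_lit 3)) (T.ts (nat_lit 1) (T.ls (nat_lit 1) (nat_lit 2)) (T.ts (nat_lit 0) (T.ls (nat_lit 1) (nat_lit 2)) (T.ts (nat_lit 2) (T.im (nat_lit 7) (nat_lit 2)) T.ie))))) (T.ts (nat_lit 1) (T.ts (nat_lit 4) (T.ls (nat_lit 1) (nat_lit 2)) (T.ts (nat_lit 3) (T.ls (nat_lit 2) (nat_lit 3)) (T.ts (nat_lit 2) (T.im (nat_lit 7) (nat_lit 2)) (T.ts (nat_lit 1) (T.im (nat_lit 3) (nat_lit 4))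 (T.ts (nat_lit 0) (T.im (nat_lit 5) (nat_lit 3)) T.ie))))) (T.ts (nat_lit 0) (T.ts (nat_lit 4) (T.ls (nat_lit 1) (nat_lit 2)) (T.ts (nat_lit 3) (T.ls (nat_lit 2) (nat_lit 3)) (T.ts (nat_lit 1) (T.ls (nat_lit 1) (nat_lit 2)) (T.ts (nat_lit 0) (T.ls (nat_lit 1) (nat_lit 2)) (T.ts (nat_lit 2) (T.im (nat_lit 7) (nat_lit 2)) T.ie))))) (T.ts (nat_lit 2) (T.im (nat_lit 7) (nat_lit 1)) T.ie))))) (T.ts (nat_lit 0) (T.ts (nat_lit 4) (T.ts (nat_lit 4) (T.ls (nat_lit 1) (nat_lit 2)) (T.ts (nat_lit 3) (T.ls (nat_lit 2) (nat_lit 3)) (T.ts (nat_lit 2) (T.ls (nat_lit 1) (nat_lit 3)) (T.ts (nat_lit 1) (T.ls (nat_lit 1) (nat_lit 2)) (T.ts (nat_lit 0) (T.im (nat_lit 7) (nat_lit 2)) T.ie))))) (T.ts (nat_lit 3) (T.ts (nat_lit 4) (T.ls (nat_lit 2) (nat_lit 3)) (T.ts (nat_lit 3) (T.ls (nat_lit 2) (nat_lit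 3)) (T.ts (nat_lit 2) (T.ls (nat_lit 1) (nat_lit 3)) (T.ts (nat_lit 1) (T.ls (nat_lit 1) (nat_lit 2)) (T.ts (nat_lit 0) (T.im (nat_lit 7) (nat_lit 2)) T.ie))))) (T.ts (nat_lit 2) (T.ts (nat_lit 4) (T.ls (nat_lit 1) (nat_lit 3)) (T.ts (nat_lit 3) (T.ls (nat_lit 2) (nat_lit 3)) (T.ts (nat_lit 2) (T.ls (nat_lit 1) (nat_lit 3)) (T.ts (nat_lit 1) (T.ls (nat_lit 1) (nat_lit 2)) (T.ts (nat_lit 0) (T.im (nat_lit 7) (nat_lit 2)) T.ie))))) (T.ts (nat_lit 1) (T.ts (nat_lit 4) (T.ls (nat_lit 1) (nat_lit 2)) (T.ts (nat_lit 3) (T.ls (nat_lit 2) (nat_lit 3)) (T.ts (nat_lit 2) (T.ls (nat_lit 1) (nat_lit 3)) (T.ts (nat_lit 1) (T.ls (nat_lit 1) (nat_lit 2)) (T.ts (nat_lit 0) (T.im (nat_lit 5) (nat_lit 3)) T.ie))))) (T.ts (nat_lit 0) (T.im (nat_lit 7) (nat_lit 1)) T.ie))))) (T.ts (nat_lit 1) (T.im (nat_lit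 5) (nat_lit 2)) T.ie)))
def d83 : T := (T.ts (nat_lit 4) (T.ts (nat_lit 3) (T.ts (nat_lit 3) (T.ls (nat_lit 2) (nat_lit 3)) (T.ts (nat_lit 2) (T.ls (nat_lit 1) (nat_lit 3)) (T.ts (nat_lit 1) (T.ls (nat_lit 1) (nat_lit 2)) (T.ts (nat_lit 0) (T.ls (nat_lit 1) (nat_lit 2)) (T.ts (nat_lit 4) (T.im (nat_lit 7) (nat_lit 2)) T.ie))))) (T.ts (nat_lit 2) (T.ts (nat_lit 3) (T.ls (nat_lit 2) (nat_lit 3)) (T.ts (nat_lit 2) (T.ls (nat_lit 1) (nat_lit 3)) (T.ts (nat_lit 1) (T.ls (nat_lit 1) (nat_lit 2)) (T.ts (nat_lit 0) (T.ls (nat_lit 1) (nat_lit 2)) (T.ts (nat_lit 4) (T.im (nat_lit 7) (nat_lit 2)) T.ie))))) (T.ts (nat_lit 1) (T.ts (nat_lit 3) (T.ls (nat_lit 2) (nat_lit 3)) (T.ts (nat_lit 2) (T.ls (nat_lit 1) (nat_lit 3)) (T.ts (nat_lit 1) (T.ls (nat_lit 1) (nat_lit 2)) (T.ts (nat_lit 4) (T.im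 (nat_lit 7) (nat_lit 2)) (T.ts (nat_lit 0) (T.im (nat_lit 5) (nat_lit 3)) T.ie))))) (T.ts (nat_lit 0) (T.ts (nat_lit 3) (T.ls (nat_lit 2) (nat_lit 3)) (T.ts (nat_lit 2) (T.ls (nat_lit 1) (nat_lit 3)) (T.ts (nat_lit 1) (T.ls (nat_lit 1) (nat_lit 2)) (T.ts (nat_lit 0) (T.ls (nat_lit 1) (nat_lit 2)) (T.ts (nat_lit 4) (T.im (nat_lit 7) (nat_lit 2)) T.ie))))) (T.ts (nat_lit 4) (T.im (nat_lit 7) (nat_lit 1)) T.ie))))) (T.ts (nat_lit 3) (T.ts (nat_lit 4) (T.ts (nat_lit 4) (T.ls (nat_lit 2) (nat_lit 3)) (T.ts (nat_lit 2) (T.ls (nat_lit 1) (nat_lit 3)) (T.ts (nat_lit 1) (T.ls (nat_lit 1) (nat_lit 2)) (T.ts (nat_lit 0) (T.ls (nat_lit 1) (nat_lit 2)) (T.ts (nat_lit 3) (T.im (nat_lit 7) (nat_lit 2)) T.ie))))) (T.ts (nat_lit 2) (T.ts (nat_lit 4) (T.ls (nat_lit 1) (nat_lit 3)) (T.ts (nat_lit 2)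 (T.ls (nat_lit 1) (nat_lit 3)) (T.ts (nat_lit 1) (T.ls (nat_lit 1) (nat_lit 2)) (T.ts (nat_lit 0) (T.ls (nat_lit 1) (nat_lit 2)) (T.ts (nat_lit 3) (T.im (nat_lit 7) (nat_lit 2)) T.ie))))) (T.ts (nat_lit 1) (T.ts (nat_lit 4) (T.ls (nat_lit 1) (nat_lit 2)) (T.ts (nat_lit 2) (T.ls (nat_lit 1) (nat_lit 3)) (T.ts (nat_lit 1) (T.ls (nat_lit 1) (nat_lit 2)) (T.ts (nat_lit 3) (T.im (nat_lit 7) (nat_lit 2)) (T.ts (nat_lit 0) (T.im (nat_lit 5) (nat_lit 3)) T.ie))))) (T.ts (nat_lit 0) (T.ts (nat_lit 4) (T.ls (nat_lit 1) (nat_lit 2)) (T.ts (nat_lit 2) (T.ls (nat_lit 1) (nat_lit 3)) (T.ts (nat_lit 1) (T.ls (nat_lit 1) (nat_lit 2)) (T.ts (nat_lit 0) (T.ls (nat_lit 1) (nat_lit 2)) (T.ts (nat_lit 3) (T.im (nat_lit 7) (nat_lit 2)) T.ie))))) (T.ts (nat_lit 3) (T.im (nat_lit 7) (nat_lit 1)) T.ie)))))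 d82))
def d84 : T := (T.ts (nat_lit 3) d77 (T.ts (nat_lit 2) d79 (T.ts (nat_lit 1) d81 (T.ts (nat_lit 0) (T.im (nat_lit 5) (nat_lit 1)) (T.nw d83)))))
def d85 : T := (T.ts (nat_lit 2) (T.ts (nat_lit 4) (T.ts (nat_lit 4) (T.ls (nat_lit 1) (nat_lit 3)) (T.ts (nat_lit 3) (T.ls (nat_lit 2) (nat_lit 3)) (T.ts (nat_lit 1) (T.ls (nat_lit 1) (nat_lit 2)) (T.ts (nat_lit 0) (T.ls (nat_lit 1) (nat_lit 2)) (T.ts (nat_lit 2) (T.im (nat_lit 7) (nat_lit 2)) T.ie))))) (T.ts (nat_lit 3) (T.ts (nat_lit 4) (T.ls (nat_lit 2) (nat_lit 3)) (T.ts (nat_lit 3) (T.ls (nat_lit 2) (nat_lit 3)) (T.ts (nat_lit 1) (T.ls (nat_lit 1) (nat_lit 2)) (T.ts (nat_lit 0) (T.ls (nat_lit 1) (nat_lit 2)) (T.ts (nat_lit 2) (T.im (nat_lit 7) (nat_lit 2)) T.ie))))) (T.ts (nat_lit 1) (T.ts (nat_lit 4) (T.ls (nat_lit 1) (nat_lit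 2)) (T.ts (nat_lit 3) (T.ls (nat_lit 2) (nat_lit 3)) (T.ts (nat_lit 1) (T.ls (nat_lit 1) (nat_lit 2)) (T.ts (nat_lit 2) (T.im (nat_lit 7) (nat_lit 2)) (T.ts (nat_lit 0) (T.im (nat_lit 3) (nat_lit 4)) T.ie))))) (T.ts (nat_lit 0) (T.ts (nat_lit 3) (T.ls (nat_lit 2) (nat_lit 3)) (T.ts (nat_lit 1) (T.ls (nat_lit 1) (nat_lit 2)) (T.ts (nat_lit 0) (T.ls (nat_lit 1) (nat_lit 2)) (T.ts (nat_lit 4) (T.im (nat_lit 5) (nat_lit 3)) (T.ts (nat_lit 2) (T.im (nat_lit 7) (nat_lit 2)) T.ie))))) (T.ts (nat_lit 2) (T.im (nat_lit 7) (nat_lit 1)) T.ie))))) (T.ts (nat_lit 1) (T.ts (nat_lit 4) (T.ts (nat_lit 4) (T.ls (nat_lit 1) (nat_lit 2)) (T.ts (nat_lit 3) (T.ls (nat_lit 2) (nat_lit 3)) (T.ts (nat_lit 2) (T.ls (nat_lit 1) (nat_lit 3)) (T.ts (nat_lit 0) (T.ls (nat_lit 1) (nat_lit 2)) (T.ts (nat_lit 1)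 (T.im (nat_lit 7) (nat_lit 2)) T.ie))))) (T.ts (nat_lit 3) (T.ts (nat_lit 4) (T.ls (nat_lit 2) (nat_lit 3)) (T.ts (nat_lit 3) (T.ls (nat_lit 2) (nat_lit 3)) (T.ts (nat_lit 2) (T.ls (nat_lit 1) (nat_lit 3)) (T.ts (nat_lit 0) (T.ls (nat_lit 1) (nat_lit 2)) (T.ts (nat_lit 1) (T.im (nat_lit 7) (nat_lit 2)) T.ie))))) (T.ts (nat_lit 2) (T.ts (nat_lit 4) (T.ls (nat_lit 1) (nat_lit 3)) (T.ts (nat_lit 3) (T.ls (nat_lit 2) (nat_lit 3)) (T.ts (nat_lit 2) (T.ls (nat_lit 1) (nat_lit 3)) (T.ts (nat_lit 0) (T.ls (nat_lit 1) (nat_lit 2)) (T.ts (nat_lit 1) (T.im (nat_lit 7) (nat_lit 2)) T.ie))))) (T.ts (nat_lit 0) (T.ts (nat_lit 3) (T.ls (nat_lit 2) (nat_lit 3)) (T.ts (nat_lit 2) (T.ls (nat_lit 1) (nat_lit 3)) (T.ts (nat_lit 0) (T.ls (nat_lit 1) (nat_lit 2)) (T.ts (nat_lit 4) (T.im (nat_lit 5) (nat_lit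 3)) (T.ts (nat_lit 1) (T.im (nat_lit 7) (nat_lit 2)) T.ie))))) (T.ts (nat_lit 1) (T.im (nat_lit 7) (nat_lit 1)) T.ie))))) (T.ts (nat_lit 0) (T.im (nat_lit 5) (nat_lit 2)) T.ie)))
def d86 : T := (T.ts (nat_lit 4) (T.ts (nat_lit 3) (T.ts (nat_lit 3) (T.ls (nat_lit 2) (nat_lit 3)) (T.ts (nat_lit 2) (T.ls (nat_lit 1) (nat_lit 3)) (T.ts (nat_lit 1) (T.ls (nat_lit 1) (nat_lit 2)) (T.ts (nat_lit 0) (T.ls (nat_lit 1) (nat_lit 2)) (T.ts (nat_lit 4) (T.im (nat_lit 7) (nat_lit 2)) T.ie))))) (T.ts (nat_lit 2) (T.ts (nat_lit 3) (T.ls (nat_lit 2) (nat_lit 3)) (T.ts (nat_lit 2) (T.ls (nat_lit 1) (nat_lit 3)) (T.ts (nat_lit 1) (T.ls (nat_lit 1) (nat_lit 2)) (T.ts (nat_lit 0) (T.ls (nat_lit 1) (nat_lit 2)) (T.ts (nat_lit 4) (T.im (nat_lit 7) (nat_lit 2)) T.ie))))) (T.ts (nat_lit 1) (T.ts (nat_lit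 3) (T.ls (nat_lit 2) (nat_lit 3)) (T.ts (nat_lit 2) (T.ls (nat_lit 1) (nat_lit 3)) (T.ts (nat_lit 1) (T.ls (nat_lit 1) (nat_lit 2)) (T.ts (nat_lit 0) (T.ls (nat_lit 1) (nat_lit 2)) (T.ts (nat_lit 4) (T.im (nat_lit 7) (nat_lit 2)) T.ie))))) (T.ts (nat_lit 0) (T.ts (nat_lit 3) (T.ls (nat_lit 2) (nat_lit 3)) (T.ts (nat_lit 2) (T.ls (nat_lit 1) (nat_lit 3)) (T.ts (nat_lit 1) (T.ls (nat_lit 1) (nat_lit 2)) (T.ts (nat_lit 0) (T.ls (nat_lit 1) (nat_lit 2)) (T.ts (nat_lit 4) (T.im (nat_lit 5) (nat_lit 3)) T.ie))))) (T.ts (nat_lit 4) (T.im (nat_lit 7) (nat_lit 1)) T.ie))))) (T.ts (nat_lit 3) (T.ts (nat_lit 4) (T.ts (nat_lit 4) (T.ls (nat_lit 2) (nat_lit 3)) (T.ts (nat_lit 2) (T.ls (nat_lit 1) (nat_lit 3)) (T.ts (nat_lit 1) (T.ls (nat_lit 1) (nat_lit 2)) (T.ts (nat_lit 0) (T.ls (nat_lit 1)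 (nat_lit 2)) (T.ts (nat_lit 3) (T.im (nat_lit 7) (nat_lit 2)) T.ie))))) (T.ts (nat_lit 2) (T.ts (nat_lit 4) (T.ls (nat_lit 1) (nat_lit 3)) (T.ts (nat_lit 2) (T.ls (nat_lit 1) (nat_lit 3)) (T.ts (nat_lit 0) (T.ls (nat_lit 1) (nat_lit 2)) (T.ts (nat_lit 3) (T.im (nat_lit 7) (nat_lit 2)) (T.ts (nat_lit 1) (T.im (nat_lit 1) (nat_lit 5)) T.ie))))) (T.ts (nat_lit 1) (T.ts (nat_lit 4) (T.ls (nat_lit 1) (nat_lit 2)) (T.ts (nat_lit 2) (T.ls (nat_lit 1) (nat_lit 3)) (T.ts (nat_lit 1) (T.ls (nat_lit 1) (nat_lit 2)) (T.ts (nat_lit 0) (T.ls (nat_lit 1) (nat_lit 2)) (T.ts (nat_lit 3) (T.im (nat_lit 7) (nat_lit 2)) T.ie))))) (T.ts (nat_lit 0) (T.ts (nat_lit 2) (T.ls (nat_lit 1) (nat_lit 3)) (T.ts (nat_lit 1) (T.ls (nat_lit 1) (nat_lit 2)) (T.ts (nat_lit 0) (T.ls (nat_lit 1) (nat_lit 2)) (T.ts (nat_lit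 4) (T.im (nat_lit 5) (nat_lit 3)) (T.ts (nat_lit 3) (T.im (nat_lit 7) (nat_lit 2)) T.ie))))) (T.ts (nat_lit 3) (T.im (nat_lit 7) (nat_lit 1)) T.ie))))) d85))
def d87 : T := (T.ts (nat_lit 2) (T.ts (nat_lit 4) (T.ts (nat_lit 4) (T.ls (nat_lit 1) (nat_lit 3)) (T.ts (nat_lit 3) (T.ls (nat_lit 2) (nat_lit 3)) (T.ts (nat_lit 1) (T.ls (nat_lit 1) (nat_lit 2)) (T.ts (nat_lit 0) (T.ls (nat_lit 1) (nat_lit 2)) (T.ts (nat_lit 2) (T.im (nat_lit 7) (nat_lit 2)) T.ie))))) (T.ts (nat_lit 3) (T.ts (nat_lit 4) (T.ls (nat_lit 2) (nat_lit 3)) (T.ts (nat_lit 3) (T.ls (nat_lit 2) (nat_lit 3)) (T.ts (nat_lit 1) (T.ls (nat_lit 1) (nat_lit 2)) (T.ts (nat_lit 0) (T.ls (nat_lit 1) (nat_lit 2)) (T.ts (nat_lit 2) (T.im (nat_lit 7) (nat_lit 2)) T.ie))))) (T.ts (nat_lit 1) (T.ts (nat_lit 4) (T.ls (nat_lit 1)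 (nat_lit 2)) (T.ts (nat_lit 3) (T.ls (nat_lit 2) (nat_lit 3)) (T.ts (nat_lit 1) (T.ls (nat_lit 1) (nat_lit 2)) (T.ts (nat_lit 2) (T.im (nat_lit 7) (nat_lit 2)) (T.ts (nat_lit 0) (T.im (nat_lit 3) (nat_lit 4)) T.ie))))) (T.ts (nat_lit 0) (T.ts (nat_lit 4) (T.ls (nat_lit 1) (nat_lit 2)) (T.ts (nat_lit 1) (T.ls (nat_lit 1) (nat_lit 2)) (T.ts (nat_lit 0) (T.ls (nat_lit 1) (nat_lit 2)) (T.ts (nat_lit 3) (T.im (nat_lit 5) (nat_lit 3)) (T.ts (nat_lit 2) (T.im (nat_lit 7) (nat_lit 2)) T.ie))))) (T.ts (nat_lit 2) (T.im (nat_lit 7) (nat_lit 1)) T.ie))))) (T.ts (nat_lit 1) (T.ts (nat_lit 4) (T.ts (nat_lit 4) (T.ls (nat_lit 1) (nat_lit 2)) (T.ts (nat_lit 3) (T.ls (nat_lit 2) (nat_lit 3)) (T.ts (nat_lit 2) (T.ls (nat_lit 1) (nat_lit 3)) (T.ts (nat_lit 0) (T.ls (nat_lit 1) (nat_lit 2)) (T.ts (nat_lit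 1) (T.im (nat_lit 7) (nat_lit 2)) T.ie))))) (T.ts (nat_lit 3) (T.ts (nat_lit 4) (T.ls (nat_lit 2) (nat_lit 3)) (T.ts (nat_lit 3) (T.ls (nat_lit 2) (nat_lit 3)) (T.ts (nat_lit 2) (T.ls (nat_lit 1) (nat_lit 3)) (T.ts (nat_lit 0) (T.ls (nat_lit 1) (nat_lit 2)) (T.ts (nat_lit 1) (T.im (nat_lit 7) (nat_lit 2)) T.ie))))) (T.ts (nat_lit 2) (T.ts (nat_lit 4) (T.ls (nat_lit 1) (nat_lit 3)) (T.ts (nat_lit 3) (T.ls (nat_lit 2) (nat_lit 3)) (T.ts (nat_lit 2) (T.ls (nat_lit 1) (nat_lit 3)) (T.ts (nat_lit 0) (T.ls (nat_lit 1) (nat_lit 2)) (T.ts (nat_lit 1) (T.im (nat_lit 7) (nat_lit 2)) T.ie))))) (T.ts (nat_lit 0) (T.ts (nat_lit 4) (T.ls (nat_lit 1) (nat_lit 2)) (T.ts (nat_lit 2) (T.ls (nat_lit 1) (nat_lit 3)) (T.ts (nat_lit 0) (T.ls (nat_lit 1) (nat_lit 2)) (T.ts (nat_lit 3) (T.im (nat_lit 5)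 (nat_lit 3)) (T.ts (nat_lit 1) (T.im (nat_lit 7) (nat_lit 2)) T.ie))))) (T.ts (nat_lit 1) (T.im (nat_lit 7) (nat_lit 1)) T.ie))))) (T.ts (nat_lit 0) (T.im (nat_lit 5) (nat_lit 2)) T.ie)))
def d88 : T := (T.ts (nat_lit 4) (T.ts (nat_lit 3) (T.ts (nat_lit 3) (T.ls (nat_lit 2) (nat_lit 3)) (T.ts (nat_lit 2) (T.ls (nat_lit 1) (nat_lit 3)) (T.ts (nat_lit 1) (T.ls (nat_lit 1) (nat_lit 2)) (T.ts (nat_lit 0) (T.ls (nat_lit 1) (nat_lit 2)) (T.ts (nat_lit 4) (T.im (nat_lit 7) (nat_lit 2)) T.ie))))) (T.ts (nat_lit 2) (T.ts (nat_lit 3) (T.ls (nat_lit 2) (nat_lit 3)) (T.ts (nat_lit 2) (T.ls (nat_lit 1) (nat_lit 3)) (T.ts (nat_lit 1) (T.ls (nat_lit 1) (nat_lit 2)) (T.ts (nat_lit 0) (T.ls (nat_lit 1) (nat_lit 2)) (T.ts (nat_lit 4) (T.im (nat_lit 7) (nat_lit 2)) T.ie))))) (T.ts (nat_lit 1) (T.ts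 (nat_lit 3) (T.ls (nat_lit 2) (nat_lit 3)) (T.ts (nat_lit 2) (T.ls (nat_lit 1) (nat_lit 3)) (T.ts (nat_lit 1) (T.ls (nat_lit 1) (nat_lit 2)) (T.ts (nat_lit 0) (T.ls (nat_lit 1) (nat_lit 2)) (T.ts (nat_lit 4) (T.im (nat_lit 7) (nat_lit 2)) T.ie))))) (T.ts (nat_lit 0) (T.ts (nat_lit 2) (T.ls (nat_lit 1) (nat_lit 3)) (T.ts (nat_lit 1) (T.ls (nat_lit 1) (nat_lit 2)) (T.ts (nat_lit 0) (T.ls (nat_lit 1) (nat_lit 2)) (T.ts (nat_lit 4) (T.im (nat_lit 7) (nat_lit 2)) (T.ts (nat_lit 3) (T.im (nat_lit 5) (nat_lit 3)) T.ie))))) (T.ts (nat_lit 4) (T.im (nat_lit 7) (nat_lit 1)) T.ie))))) (T.ts (nat_lit 3) (T.ts (nat_lit 4) (T.ts (nat_lit 4) (T.ls (nat_lit 2) (nat_lit 3)) (T.ts (nat_lit 2) (T.ls (nat_lit 1) (nat_lit 3)) (T.ts (nat_lit 1) (T.ls (nat_lit 1) (nat_lit 2)) (T.ts (nat_lit 0) (T.ls (nat_lit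 1) (nat_lit 2)) (T.ts (nat_lit 3) (T.im (nat_lit 7) (nat_lit 2)) T.ie))))) (T.ts (nat_lit 2) (T.ts (nat_lit 4) (T.ls (nat_lit 1) (nat_lit 3)) (T.ts (nat_lit 2) (T.ls (nat_lit 1) (nat_lit 3)) (T.ts (nat_lit 1) (T.ls (nat_lit 1) (nat_lit 2)) (T.ts (nat_lit 0) (T.ls (nat_lit 1) (nat_lit 2)) (T.ts (nat_lit 3) (T.im (nat_lit 7) (nat_lit 2)) T.ie))))) (T.ts (nat_lit 1) (T.ts (nat_lit 4) (T.ls (nat_lit 1) (nat_lit 2)) (T.ts (nat_lit 2) (T.ls (nat_lit 1) (nat_lit 3)) (T.ts (nat_lit 1) (T.ls (nat_lit 1) (nat_lit 2)) (T.ts (nat_lit 0) (T.ls (nat_lit 1) (nat_lit 2)) (T.ts (nat_lit 3) (T.im (nat_lit 7) (nat_lit 2)) T.ie))))) (T.ts (nat_lit 0) (T.ts (nat_lit 4) (T.ls (nat_lit 1) (nat_lit 2)) (T.ts (nat_lit 2) (T.ls (nat_lit 1) (nat_lit 3)) (T.ts (nat_lit 1) (T.ls (nat_lit 1) (nat_lit 2)) (T.ts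 (nat_lit 0) (T.ls (nat_lit 1) (nat_lit 2)) (T.ts (nat_lit 3) (T.im (nat_lit 5) (nat_lit 3)) T.ie))))) (T.ts (nat_lit 3) (T.im (nat_lit 7) (nat_lit 1)) T.ie))))) d87))
def d89 : T := (T.ts (nat_lit 3) (T.ts (nat_lit 4) (T.ts (nat_lit 4) (T.ls (nat_lit 2) (nat_lit 3)) (T.ts (nat_lit 2) (T.ls (nat_lit 1) (nat_lit 3)) (T.ts (nat_lit 1) (T.ls (nat_lit 1) (nat_lit 2)) (T.ts (nat_lit 0) (T.ls (nat_lit 1) (nat_lit 2)) (T.ts (nat_lit 3) (T.im (nat_lit 7) (nat_lit 2)) T.ie))))) (T.ts (nat_lit 2) (T.ts (nat_lit 4) (T.ls (nat_lit 1) (nat_lit 3)) (T.ts (nat_lit 2) (T.ls (nat_lit 1) (nat_lit 3)) (T.ts (nat_lit 1) (T.ls (nat_lit 1) (nat_lit 2)) (T.ts (nat_lit 0) (T.ls (nat_lit 1) (nat_lit 2)) (T.ts (nat_lit 3) (T.im (nat_lit 7) (nat_lit 2)) T.ie))))) (T.ts (nat_lit 1) (T.ts (nat_lit 4) (T.ls (nat_lit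 1) (nat_lit 2)) (T.ts (nat_lit 2) (T.ls (nat_lit 1) (nat_lit 3)) (T.ts (nat_lit 1) (T.ls (nat_lit 1) (nat_lit 2)) (T.ts (nat_lit 0) (T.ls (nat_lit 1) (nat_lit 2)) (T.ts (nat_lit 3) (T.im (nat_lit 7) (nat_lit 2)) T.ie))))) (T.ts (nat_lit 0) (T.ts (nat_lit 4) (T.ls (nat_lit 1) (nat_lit 2)) (T.ts (nat_lit 1) (T.ls (nat_lit 1) (nat_lit 2)) (T.ts (nat_lit 0) (T.ls (nat_lit 1) (nat_lit 2)) (T.ts (nat_lit 3) (T.im (nat_lit 7) (nat_lit 2)) (T.ts (nat_lit 2) (T.im (nat_lit 5) (nat_lit 3)) T.ie))))) (T.ts (nat_lit 3) (T.im (nat_lit 7) (nat_lit 1)) T.ie))))) (T.ts (nat_lit 2) (T.ts (nat_lit 4) (T.ts (nat_lit 4) (T.ls (nat_lit 1) (nat_lit 3)) (T.ts (nat_lit 3) (T.ls (nat_lit 2) (nat_lit 3)) (T.ts (nat_lit 1) (T.ls (nat_lit 1) (nat_lit 2)) (T.ts (nat_lit 0) (T.ls (nat_lit 1) (nat_lit 2)) (T.ts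 (nat_lit 2) (T.im (nat_lit 7) (nat_lit 2)) T.ie))))) (T.ts (nat_lit 3) (T.ts (nat_lit 4) (T.ls (nat_lit 2) (nat_lit 3)) (T.ts (nat_lit 3) (T.ls (nat_lit 2) (nat_lit 3)) (T.ts (nat_lit 1) (T.ls (nat_lit 1) (nat_lit 2)) (T.ts (nat_lit 0) (T.ls (nat_lit 1) (nat_lit 2)) (T.ts (nat_lit 2) (T.im (nat_lit 7) (nat_lit 2)) T.ie))))) (T.ts (nat_lit 1) (T.ts (nat_lit 4) (T.ls (nat_lit 1) (nat_lit 2)) (T.ts (nat_lit 3) (T.ls (nat_lit 2) (nat_lit 3)) (T.ts (nat_lit 1) (T.ls (nat_lit 1) (nat_lit 2)) (T.ts (nat_lit 2) (T.im (nat_lit 7) (nat_lit 2)) (T.ts (nat_lit 0) (T.im (nat_lit 3) (nat_lit 4)) T.ie))))) (T.ts (nat_lit 0) (T.ts (nat_lit 4) (T.ls (nat_lit 1) (nat_lit 2)) (T.ts (nat_lit 3) (T.ls (nat_lit 2) (nat_lit 3)) (T.ts (nat_lit 1) (T.ls (nat_lit 1) (nat_lit 2)) (T.ts (nat_lit 0) (T.ls (nat_lit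 1) (nat_lit 2)) (T.ts (nat_lit 2) (T.im (nat_lit 5) (nat_lit 3)) T.ie))))) (T.ts (nat_lit 2) (T.im (nat_lit 7) (nat_lit 1)) T.ie))))) (T.ts (nat_lit 1) (T.im (nat_lit 3) (nat_lit 3)) (T.ts (nat_lit 0) (T.im (nat_lit 5) (nat_lit 2)) T.ie))))
def d90 : T := (T.ts (nat_lit 2) (T.ts (nat_lit 4) (T.ts (nat_lit 4) (T.ls (nat_lit 1) (nat_lit 3)) (T.ts (nat_lit 3) (T.ls (nat_lit 2) (nat_lit 3)) (T.ts (nat_lit 1) (T.ls (nat_lit 1) (nat_lit 2)) (T.ts (nat_lit 0) (T.ls (nat_lit 1) (nat_lit 2)) (T.ts (nat_lit 2) (T.im (nat_lit 7) (nat_lit 2)) T.ie))))) (T.ts (nat_lit 3) (T.ts (nat_lit 4) (T.ls (nat_lit 2) (nat_lit 3)) (T.ts (nat_lit 3) (T.ls (nat_lit 2) (nat_lit 3)) (T.ts (nat_lit 1) (T.ls (nat_lit 1) (nat_lit 2)) (T.ts (nat_lit 0) (T.ls (nat_lit 1) (nat_lit 2)) (T.ts (nat_lit 2) (T.im (nat_lit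 7) (nat_lit 2)) T.ie))))) (T.ts (nat_lit 1) (T.ts (nat_lit 4) (T.ls (nat_lit 1) (nat_lit 2)) (T.ts (nat_lit 3) (T.ls (nat_lit 2) (nat_lit 3)) (T.ts (nat_lit 1) (T.ls (nat_lit 1) (nat_lit 2)) (T.ts (nat_lit 2) (T.im (nat_lit 7) (nat_lit 2)) (T.ts (nat_lit 0) (T.im (nat_lit 3) (nat_lit 4)) T.ie))))) (T.ts (nat_lit 0) (T.ts (nat_lit 4) (T.ls (nat_lit 1) (nat_lit 2)) (T.ts (nat_lit 3) (T.ls (nat_lit 2) (nat_lit 3)) (T.ts (nat_lit 0) (T.ls (nat_lit 1) (nat_lit 2)) (T.ts (nat_lit 2) (T.im (nat_lit 7) (nat_lit 2)) (T.ts (nat_lit 1) (T.im (nat_lit 5) (nat_lit 3)) T.ie))))) (T.ts (nat_lit 2) (T.im (nat_lit 7) (nat_lit 1)) T.ie))))) (T.ts (nat_lit 1) (T.ts (nat_lit 4) (T.ts (nat_lit 4) (T.ls (nat_lit 1) (nat_lit 2)) (T.ts (nat_lit 3) (T.ls (nat_lit 2) (nat_lit 3)) (T.ts (nat_lit 2) (T.ls (nat_lit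 1) (nat_lit 3)) (T.ts (nat_lit 0) (T.ls (nat_lit 1) (nat_lit 2)) (T.ts (nat_lit 1) (T.im (nat_lit 7) (nat_lit 2)) T.ie))))) (T.ts (nat_lit 3) (T.ts (nat_lit 4) (T.ls (nat_lit 2) (nat_lit 3)) (T.ts (nat_lit 3) (T.ls (nat_lit 2) (nat_lit 3)) (T.ts (nat_lit 2) (T.ls (nat_lit 1) (nat_lit 3)) (T.ts (nat_lit 0) (T.ls (nat_lit 1) (nat_lit 2)) (T.ts (nat_lit 1) (T.im (nat_lit 7) (nat_lit 2)) T.ie))))) (T.ts (nat_lit 2) (T.ts (nat_lit 4) (T.ls (nat_lit 1) (nat_lit 3)) (T.ts (nat_lit 3) (T.ls (nat_lit 2) (nat_lit 3)) (T.ts (nat_lit 2) (T.ls (nat_lit 1) (nat_lit 3)) (T.ts (nat_lit 0) (T.ls (nat_lit 1) (nat_lit 2)) (T.ts (nat_lit 1) (T.im (nat_lit 7) (nat_lit 2)) T.ie))))) (T.ts (nat_lit 0) (T.ts (nat_lit 4) (T.ls (nat_lit 1) (nat_lit 2)) (T.ts (nat_lit 3) (T.ls (nat_lit 2) (nat_lit 3)) (T.ts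 (nat_lit 2) (T.ls (nat_lit 1) (nat_lit 3)) (T.ts (nat_lit 0) (T.ls (nat_lit 1) (nat_lit 2)) (T.ts (nat_lit 1) (T.im (nat_lit 5) (nat_lit 3)) T.ie))))) (T.ts (nat_lit 1) (T.im (nat_lit 7) (nat_lit 1)) T.ie))))) (T.ts (nat_lit 0) (T.im (nat_lit 5) (nat_lit 2)) T.ie)))
def d91 : T := (T.ts (nat_lit 4) (T.ts (nat_lit 3) (T.ts (nat_lit 3) (T.ls (nat_lit 2) (nat_lit 3)) (T.ts (nat_lit 2) (T.ls (nat_lit 1) (nat_lit 3)) (T.ts (nat_lit 1) (T.ls (nat_lit 1) (nat_lit 2)) (T.ts (nat_lit 0) (T.ls (nat_lit 1) (nat_lit 2)) (T.ts (nat_lit 4) (T.im (nat_lit 7) (nat_lit 2)) T.ie))))) (T.ts (nat_lit 2) (T.ts (nat_lit 3) (T.ls (nat_lit 2) (nat_lit 3)) (T.ts (nat_lit 2) (T.ls (nat_lit 1) (nat_lit 3)) (T.ts (nat_lit 1) (T.ls (nat_lit 1) (nat_lit 2)) (T.ts (nat_lit 0) (T.ls (nat_lit 1) (nat_lit 2)) (T.ts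 (nat_lit 4) (T.im (nat_lit 7) (nat_lit 2)) T.ie))))) (T.ts (nat_lit 1) (T.ts (nat_lit 3) (T.ls (nat_lit 2) (nat_lit 3)) (T.ts (nat_lit 2) (T.ls (nat_lit 1) (nat_lit 3)) (T.ts (nat_lit 1) (T.ls (nat_lit 1) (nat_lit 2)) (T.ts (nat_lit 0) (T.ls (nat_lit 1) (nat_lit 2)) (T.ts (nat_lit 4) (T.im (nat_lit 7) (nat_lit 2)) T.ie))))) (T.ts (nat_lit 0) (T.ts (nat_lit 3) (T.ls (nat_lit 2) (nat_lit 3)) (T.ts (nat_lit 2) (T.ls (nat_lit 1) (nat_lit 3)) (T.ts (nat_lit 0) (T.ls (nat_lit 1) (nat_lit 2)) (T.ts (nat_lit 4) (T.im (nat_lit 7) (nat_lit 2)) (T.ts (nat_lit 1) (T.im (nat_lit 5) (nat_lit 3)) T.ie))))) (T.ts (nat_lit 4) (T.im (nat_lit 7) (nat_lit 1)) T.ie))))) (T.ts (nat_lit 3) (T.ts (nat_lit 4) (T.ts (nat_lit 4) (T.ls (nat_lit 2) (nat_lit 3)) (T.ts (nat_lit 2) (T.ls (nat_lit 1) (nat_lit 3))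 (T.ts (nat_lit 1) (T.ls (nat_lit 1) (nat_lit 2)) (T.ts (nat_lit 0) (T.ls (nat_lit 1) (nat_lit 2)) (T.ts (nat_lit 3) (T.im (nat_lit 7) (nat_lit 2)) T.ie))))) (T.ts (nat_lit 2) (T.ts (nat_lit 4) (T.ls (nat_lit 1) (nat_lit 3)) (T.ts (nat_lit 2) (T.ls (nat_lit 1) (nat_lit 3)) (T.ts (nat_lit 1) (T.ls (nat_lit 1) (nat_lit 2)) (T.ts (nat_lit 0) (T.ls (nat_lit 1) (nat_lit 2)) (T.ts (nat_lit 3) (T.im (nat_lit 7) (nat_lit 2)) T.ie))))) (T.ts (nat_lit 1) (T.ts (nat_lit 4) (T.ls (nat_lit 1) (nat_lit 2)) (T.ts (nat_lit 2) (T.ls (nat_lit 1) (nat_lit 3)) (T.ts (nat_lit 1) (T.ls (nat_lit 1) (nat_lit 2)) (T.ts (nat_lit 0) (T.ls (nat_lit 1) (nat_lit 2)) (T.ts (nat_lit 3) (T.im (nat_lit 7) (nat_lit 2)) T.ie))))) (T.ts (nat_lit 0) (T.ts (nat_lit 4) (T.ls (nat_lit 1) (nat_lit 2)) (T.ts (nat_lit 2) (T.ls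 (nat_lit 1) (nat_lit 3)) (T.ts (nat_lit 0) (T.ls (nat_lit 1) (nat_lit 2)) (T.ts (nat_lit 3) (T.im (nat_lit 7) (nat_lit 2)) (T.ts (nat_lit 1) (T.im (nat_lit 5) (nat_lit 3)) T.ie))))) (T.ts (nat_lit 3) (T.im (nat_lit 7) (nat_lit 1)) T.ie))))) d90))
def d92 : T := (T.ts (nat_lit 3) d88 (T.ts (nat_lit 2) (T.ts (nat_lit 4) (T.ts (nat_lit 3) (T.ts (nat_lit 3) (T.ls (nat_lit 2) (nat_lit 3)) (T.ts (nat_lit 2) (T.ls (nat_lit 1) (nat_lit 3)) (T.ts (nat_lit 1) (T.ls (nat_lit 1) (nat_lit 2)) (T.ts (nat_lit 0) (T.ls (nat_lit 1) (nat_lit 2)) (T.ts (nat_lit 4) (T.im (nat_lit 7) (nat_lit 2)) T.ie))))) (T.ts (nat_lit 2) (T.ts (nat_lit 3) (T.ls (nat_lit 2) (nat_lit 3)) (T.ts (nat_lit 2) (T.ls (nat_lit 1) (nat_lit 3)) (T.ts (nat_lit 1) (T.ls (nat_lit 1) (nat_lit 2)) (T.ts (nat_lit 0) (T.ls (nat_lit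 1) (nat_lit 2)) (T.ts (nat_lit 4) (T.im (nat_lit 7) (nat_lit 2)) T.ie))))) (T.ts (nat_lit 1) (T.ts (nat_lit 3) (T.ls (nat_lit 2) (nat_lit 3)) (T.ts (nat_lit 2) (T.ls (nat_lit 1) (nat_lit 3)) (T.ts (nat_lit 1) (T.ls (nat_lit 1) (nat_lit 2)) (T.ts (nat_lit 0) (T.ls (nat_lit 1) (nat_lit 2)) (T.ts (nat_lit 4) (T.im (nat_lit 7) (nat_lit 2)) T.ie))))) (T.ts (nat_lit 0) (T.ts (nat_lit 3) (T.ls (nat_lit 2) (nat_lit 3)) (T.ts (nat_lit 1) (T.ls (nat_lit 1) (nat_lit 2)) (T.ts (nat_lit 0) (T.ls (nat_lit 1) (nat_lit 2)) (T.ts (nat_lit 4) (T.im (nat_lit 7) (nat_lit 2)) (T.ts (nat_lit 2) (T.im (nat_lit 5) (nat_lit 3)) T.ie))))) (T.ts (nat_lit 4) (T.im (nat_lit 7) (nat_lit 1)) T.ie))))) d89) (T.ts (nat_lit 1) d91 (T.ts (nat_lit 0) (T.im (nat_lit 5) (nat_lit 1)) T.ie))))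
def d93 : T := (T.ts (nat_lit 1) (T.im (nat_lit 3) (nat_lit 2)) (T.nw (T.ts (nat_lit 4) d86 d92)))
def d94 : T := (T.ts (nat_lit 0) (T.ts (nat_lit 2) (T.ts (nat_lit 2) (T.ls (nat_lit 2) (nat_lit 3)) (T.ts (nat_lit 1) (T.ls (nat_lit 3) (nat_lit 4)) (T.ts (nat_lit 0) (T.im (nat_lit 7) (nat_lit 2)) (T.nw (T.ls (nat_lit 2) (nat_lit 4)))))) (T.ts (nat_lit 1) (T.ts (nat_lit 2) (T.ls (nat_lit 2) (nat_lit 3)) (T.ts (nat_lit 1) (T.ls (nat_lit 2) (nat_lit 3)) (T.ts (nat_lit 0) (T.im (nat_lit 5) (nat_lit 3)) (T.nw (T.ls (nat_lit 2) (nat_lit 4)))))) (T.ts (nat_lit 0) (T.im (nat_lit 7) (nat_lit 1)) (T.nw (T.ts (nat_lit 3) (T.ls (nat_lit 2) (nat_lit 4)) (T.ts (nat_lit 2) (T.ls (nat_lit 2) (nat_lit 3)) (T.ts (nat_lit 0) (T.ls (nat_lit 2) (nat_lit 4)) (T.ts (nat_lit 1) (T.im (nat_lit 7) (nat_lit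 2)) (T.nw (T.ls (nat_lit 2) (nat_lit 3))))))))))) (T.ts (nat_lit 1) (T.im (nat_lit 5) (nat_lit 2)) (T.nw (T.ts (nat_lit 3) (T.ts (nat_lit 3) (T.ls (nat_lit 2) (nat_lit 3)) (T.ts (nat_lit 2) (T.ls (nat_lit 2) (nat_lit 4)) (T.ts (nat_lit 1) (T.ls (nat_lit 3) (nat_lit 4)) (T.ts (nat_lit 0) (T.im (nat_lit 7) (nat_lit 2)) (T.nw (T.ls (nat_lit 2) (nat_lit 3))))))) (T.ts (nat_lit 2) (T.ts (nat_lit 3) (T.ls (nat_lit 2) (nat_lit 3)) (T.ts (nat_lit 2) (T.ls (nat_lit 2) (nat_lit 3)) (T.ts (nat_lit 1) (T.im (nat_lit 5) (nat_lit 3)) (T.ts (nat_lit 0) (T.im (nat_lit 7) (nat_lit 2)) (T.nw (T.ls (nat_lit 2) (nat_lit 3))))))) (T.ts (nat_lit 1) (T.ts (nat_lit 3) (T.ls (nat_lit 3) (nat_lit 4)) (T.ts (nat_lit 2) (T.ls (nat_lit 2) (nat_lit 3)) (T.ts (nat_lit 1) (T.ls (nat_lit 3) (nat_lit 4)) (T.ts (nat_lit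 0) (T.im (nat_lit 7) (nat_lit 2)) (T.nw (T.ls (nat_lit 2) (nat_lit 3))))))) (T.ts (nat_lit 0) (T.im (nat_lit 7) (nat_lit 1)) (T.nw (T.ts (nat_lit 4) (T.ls (nat_lit 2) (nat_lit 3)) (T.ts (nat_lit 3) (T.ls (nat_lit 2) (nat_lit 3)) (T.ts (nat_lit 2) (T.ls (nat_lit 3) (nat_lit 4)) (T.ts (nat_lit 0) (T.ls (nat_lit 2) (nat_lit 3)) (T.ts (nat_lit 1) (T.im (nat_lit 7) (nat_lit 2)) T.ie)))))))))))))
def d95 : T := (T.ts (nat_lit 1) (T.ts (nat_lit 1) (T.im (nat_lit 1) (nat_lit 4)) (T.ts (nat_lit 0) (T.im (nat_lit 3) (nat_lit 3)) (T.nw (T.ts (nat_lit 2) (T.ts (nat_lit 2) (T.ls (nat_lit 2) (nat_lit 3)) (T.ts (nat_lit 1) (T.ls (nat_lit 3) (nat_lit 4)) (T.ts (nat_lit 0) (T.im (nat_lit 7) (nat_lit 2)) (T.nw (T.ls (nat_lit 2) (nat_lit 4)))))) (T.ts (nat_lit 1) (T.ts (nat_lit 1) (T.ls (nat_lit 2)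 (nat_lit 3)) (T.ts (nat_lit 2) (T.im (nat_lit 5) (nat_lit 3)) (T.ts (nat_lit 0) (T.im (nat_lit 7) (nat_lit 2)) (T.nw (T.ls (nat_lit 2) (nat_lit 4)))))) (T.ts (nat_lit 0) (T.im (nat_lit 7) (nat_lit 1)) (T.nw (T.ts (nat_lit 3) (T.ls (nat_lit 2) (nat_lit 4)) (T.ts (nat_lit 2) (T.ls (nat_lit 2) (nat_lit 3)) (T.ts (nat_lit 0) (T.ls (nat_lit 2) (nat_lit 4)) (T.ts (nat_lit 1) (T.im (nat_lit 7) (nat_lit 2)) (T.nw (T.ls (nat_lit 2) (nat_lit 3)))))))))))))) (T.ts (nat_lit 0) (T.im (nat_lit 5) (nat_lit 1)) (T.nw (T.ts (nat_lit 2) (T.ts (nat_lit 1) (T.ts (nat_lit 2) (T.im (nat_lit 7) (nat_lit 2)) (T.ts (nat_lit 1) (T.im (nat_lit 3) (nat_lit 4)) (T.ts (nat_lit 0) (T.im (nat_lit 5) (nat_lit 3)) (T.nw (T.ls (nat_lit 2) (nat_lit 4)))))) (T.ts (nat_lit 0) (T.ts (nat_lit 1) (T.ls (nat_lit 2) (nat_lit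 3)) (T.ts (nat_lit 0) (T.ls (nat_lit 3) (nat_lit 4)) (T.ts (nat_lit 2) (T.im (nat_lit 7) (nat_lit 2)) (T.nw (T.ls (nat_lit 2) (nat_lit 4)))))) (T.ts (nat_lit 2) (T.im (nat_lit 7) (nat_lit 1)) (T.nw (T.ts (nat_lit 2) (T.ls (nat_lit 2) (nat_lit 3)) (T.ts (nat_lit 1) (T.ls (nat_lit 3) (nat_lit 4)) (T.ts (nat_lit 0) (T.ls (nat_lit 2) (nat_lit 4)) (T.ts (nat_lit 3) (T.im (nat_lit 7) (nat_lit 2)) (T.nw (T.ls (nat_lit 2) (nat_lit 3))))))))))) d94))))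
def d96 : T := (T.ts (nat_lit 2) (T.ts (nat_lit 1) (T.ts (nat_lit 1) (T.ls (nat_lit 2) (nat_lit 3)) (T.ts (nat_lit 2) (T.im (nat_lit 7) (nat_lit 2)) (T.ts (nat_lit 0) (T.im (nat_lit 3) (nat_lit 4)) (T.nw (T.ls (nat_lit 2) (nat_lit 4)))))) (T.ts (nat_lit 0) (T.ts (nat_lit 1) (T.ls (nat_lit 2) (nat_lit 3)) (T.ts (nat_lit 0) (T.ls (nat_lit 3) (nat_lit 4)) (T.ts (nat_lit 2) (T.im (nat_lit 5) (nat_lit 3)) (T.nw (T.ls (nat_lit 2) (nat_lit 4)))))) (T.ts (nat_lit 2) (T.im (nat_lit 7) (nat_lit 1)) (T.nw (T.ts (nat_lit 2) (T.ls (nat_lit 2) (nat_lit 3)) (T.ts (nat_lit 1) (T.ls (nat_lit 3) (nat_lit 4)) (T.ts (nat_lit 0) (T.ls (nat_lit 2) (nat_lit 4)) (T.ts (nat_lit 3) (T.im (nat_lit 7) (nat_lit 2)) (T.nw (T.ls (nat_lit 2) (nat_lit 3))))))))))) (T.ts (nat_lit 1) (T.im (nat_lit 3) (nat_lit 3))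 (T.ts (nat_lit 0) (T.im (nat_lit 5) (nat_lit 2)) (T.nw (T.ts (nat_lit 3) (T.ts (nat_lit 3) (T.ls (nat_lit 2) (nat_lit 3)) (T.ts (nat_lit 2) (T.ls (nat_lit 2) (nat_lit 4)) (T.ts (nat_lit 1) (T.ls (nat_lit 3) (nat_lit 4)) (T.ts (nat_lit 0) (T.im (nat_lit 7) (nat_lit 2)) (T.nw (T.ls (nat_lit 2) (nat_lit 3))))))) (T.ts (nat_lit 2) (T.ts (nat_lit 3) (T.ls (nat_lit 2) (nat_lit 3)) (T.ts (nat_lit 2) (T.ls (nat_lit 2) (nat_lit 3)) (T.ts (nat_lit 1) (T.ls (nat_lit 3) (nat_lit 4)) (T.ts (nat_lit 0) (T.im (nat_lit 7) (nat_lit 2)) (T.nw (T.ls (nat_lit 2) (nat_lit 3))))))) (T.ts (nat_lit 1) (T.ts (nat_lit 2) (T.ls (nat_lit 2) (nat_lit 3)) (T.ts (nat_lit 1) (T.ls (nat_lit 3) (nat_lit 4)) (T.ts (nat_lit 3) (T.im (nat_lit 5) (nat_lit 3)) (T.ts (nat_lit 0) (T.im (nat_lit 7) (nat_lit 2)) (T.nw (T.ls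 (nat_lit 2) (nat_lit 3))))))) (T.ts (nat_lit 0) (T.im (nat_lit 7) (nat_lit 1)) (T.nw (T.ts (nat_lit 4) (T.ls (nat_lit 2) (nat_lit 3)) (T.ts (nat_lit 3) (T.ls (nat_lit 2) (nat_lit 3)) (T.ts (nat_lit 2) (T.ls (nat_lit 3) (nat_lit 4)) (T.ts (nat_lit 0) (T.ls (nat_lit 2) (nat_lit 3)) (T.ts (nat_lit 1) (T.im (nat_lit 7) (nat_lit 2)) T.ie))))))))))))))
def d97 : T := (T.ts (nat_lit 1) (T.ts (nat_lit 2) (T.ts (nat_lit 2) (T.ls (nat_lit 2) (nat_lit 3)) (T.ts (nat_lit 0) (T.ls (nat_lit 3) (nat_lit 4)) (T.ts (nat_lit 1) (T.im (nat_lit 7) (nat_lit 2)) (T.nw (T.ls (nat_lit 2) (nat_lit 4)))))) (T.ts (nat_lit 0) (T.ts (nat_lit 2) (T.ls (nat_lit 3) (nat_lit 4)) (T.ts (nat_lit 0) (T.ls (nat_lit 3) (nat_lit 4)) (T.ts (nat_lit 1) (T.im (nat_lit 5) (nat_lit 3)) (T.nw (T.ls (nat_lit 2) (nat_lit 4))))))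 (T.ts (nat_lit 1) (T.im (nat_lit 7) (nat_lit 1)) (T.nw (T.ts (nat_lit 3) (T.ls (nat_lit 2) (nat_lit 4)) (T.ts (nat_lit 1) (T.ls (nat_lit 3) (nat_lit 4)) (T.ts (nat_lit 0) (T.ls (nat_lit 2) (nat_lit 4)) (T.ts (nat_lit 2) (T.im (nat_lit 7) (nat_lit 2)) (T.nw (T.ls (nat_lit 2) (nat_lit 3))))))))))) (T.ts (nat_lit 0) (T.im (nat_lit 5) (nat_lit 2)) (T.nw (T.ts (nat_lit 3) (T.ts (nat_lit 3) (T.ls (nat_lit 2) (nat_lit 3)) (T.ts (nat_lit 2) (T.ls (nat_lit 2) (nat_lit 4)) (T.ts (nat_lit 1) (T.ls (nat_lit 3) (nat_lit 4)) (T.ts (nat_lit 0) (T.im (nat_lit 7) (nat_lit 2)) (T.nw (T.ls (nat_lit 2) (nat_lit 3))))))) (T.ts (nat_lit 2) (T.ts (nat_lit 3) (T.ls (nat_lit 2) (nat_lit 3)) (T.ts (nat_lit 2) (T.ls (nat_lit 2) (nat_lit 3)) (T.ts (nat_lit 1) (T.ls (nat_lit 3) (nat_lit 4)) (T.ts (nat_lit 0)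 (T.im (nat_lit 7) (nat_lit 2)) (T.nw (T.ls (nat_lit 2) (nat_lit 3))))))) (T.ts (nat_lit 1) (T.ts (nat_lit 3) (T.ls (nat_lit 3) (nat_lit 4)) (T.ts (nat_lit 1) (T.ls (nat_lit 3) (nat_lit 4)) (T.ts (nat_lit 2) (T.im (nat_lit 5) (nat_lit 3)) (T.ts (nat_lit 0) (T.im (nat_lit 7) (nat_lit 2)) (T.nw (T.ls (nat_lit 2) (nat_lit 3))))))) (T.ts (nat_lit 0) (T.im (nat_lit 7) (nat_lit 1)) (T.nw (T.ts (nat_lit 4) (T.ls (nat_lit 2) (nat_lit 3)) (T.ts (nat_lit 3) (T.ls (nat_lit 2) (nat_lit 3)) (T.ts (nat_lit 2) (T.ls (nat_lit 3) (nat_lit 4)) (T.ts (nat_lit 0) (T.ls (nat_lit 2) (nat_lit 3)) (T.ts (nat_lit 1) (T.im (nat_lit 7) (nat_lit 2)) T.ie)))))))))))))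
def d98 : T := (T.ts (nat_lit 0) (T.ts (nat_lit 3) (T.ts (nat_lit 3) (T.ls (nat_lit 2) (nat_lit 3)) (T.ts (nat_lit 2) (T.ls (nat_lit 2) (nat_lit 4)) (T.ts (nat_lit 1) (T.ls (nat_lit 3) (nat_lit 4)) (T.ts (nat_lit 0) (T.im (nat_lit 7) (nat_lit 2)) (T.nw (T.ls (nat_lit 2) (nat_lit 3))))))) (T.ts (nat_lit 2) (T.ts (nat_lit 3) (T.ls (nat_lit 2) (nat_lit 3)) (T.ts (nat_lit 2) (T.ls (nat_lit 2) (nat_lit 3)) (T.ts (nat_lit 1) (T.ls (nat_lit 3) (nat_lit 4)) (T.ts (nat_lit 0) (T.im (nat_lit 7) (nat_lit 2)) (T.nw (T.ls (nat_lit 2) (nat_lit 3))))))) (T.ts (nat_lit 1) (T.ts (nat_lit 3) (T.ls (nat_lit 3) (nat_lit 4)) (T.ts (nat_lit 2) (T.ls (nat_lit 2) (nat_lit 3)) (T.ts (nat_lit 1) (T.ls (nat_lit 3) (nat_lit 4)) (T.ts (nat_lit 0) (T.im (nat_lit 5) (nat_lit 3)) (T.nw (T.ls (nat_lit 2) (nat_lit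 3))))))) (T.ts (nat_lit 0) (T.im (nat_lit 7) (nat_lit 1)) (T.nw (T.ts (nat_lit 4) (T.ls (nat_lit 2) (nat_lit 3)) (T.ts (nat_lit 3) (T.ls (nat_lit 2) (nat_lit 3)) (T.ts (nat_lit 2) (T.ls (nat_lit 3) (nat_lit 4)) (T.ts (nat_lit 0) (T.ls (nat_lit 2) (nat_lit 3)) (T.ts (nat_lit 1) (T.im (nat_lit 7) (nat_lit 2)) T.ie)))))))))) (T.ts (nat_lit 1) (T.im (nat_lit 5) (nat_lit 2)) (T.nw (T.ts (nat_lit 4) (T.ts (nat_lit 4) (T.ls (nat_lit 2) (nat_lit 3)) (T.ts (nat_lit 3) (T.ls (nat_lit 2) (nat_lit 3)) (T.ts (nat_lit 2) (T.ls (nat_lit 3) (nat_lit 4)) (T.ts (nat_lit 1) (T.ls (nat_lit 2) (nat_lit 4)) (T.ts (nat_lit 0) (T.im (nat_lit 7) (nat_lit 2)) T.ie))))) (T.ts (nat_lit 3) (T.ts (nat_lit 4) (T.ls (nat_lit 2) (nat_lit 3)) (T.ts (nat_lit 3) (T.ls (nat_lit 2) (nat_lit 3)) (T.ts (nat_lit 2) (T.ls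 (nat_lit 3) (nat_lit 4)) (T.ts (nat_lit 1) (T.ls (nat_lit 2) (nat_lit 4)) (T.ts (nat_lit 0) (T.im (nat_lit 7) (nat_lit 2)) T.ie))))) (T.ts (nat_lit 2) (T.ts (nat_lit 4) (T.ls (nat_lit 3) (nat_lit 4)) (T.ts (nat_lit 3) (T.ls (nat_lit 2) (nat_lit 3)) (T.ts (nat_lit 2) (T.ls (nat_lit 3) (nat_lit 4)) (T.ts (nat_lit 1) (T.im (nat_lit 5) (nat_lit 3)) (T.ts (nat_lit 0) (T.im (nat_lit 7) (nat_lit 2)) T.ie))))) (T.ts (nat_lit 1) (T.ts (nat_lit 4) (T.ls (nat_lit 2) (nat_lit 4)) (T.ts (nat_lit 3) (T.ls (nat_lit 2) (nat_lit 3)) (T.ts (nat_lit 2) (T.ls (nat_lit 3) (nat_lit 4)) (T.ts (nat_lit 1) (T.ls (nat_lit 2) (nat_lit 4)) (T.ts (nat_lit 0) (T.im (nat_lit 7) (nat_lit 2)) T.ie))))) (T.ts (nat_lit 0) (T.im (nat_lit 7) (nat_lit 1)) T.ie))))))))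
def d99 : T := (T.ts (nat_lit 3) (T.ts (nat_lit 2) (T.ts (nat_lit 2) (T.ls (nat_lit 2) (nat_lit 3)) (T.ts (nat_lit 0) (T.ls (nat_lit 2) (nat_lit 4)) (T.ts (nat_lit 3) (T.im (nat_lit 7) (nat_lit 2)) (T.ts (nat_lit 1) (T.im (nat_lit 3) (nat_lit 4)) (T.nw (T.ls (nat_lit 2) (nat_lit 3))))))) (T.ts (nat_lit 1) (T.ts (nat_lit 2) (T.ls (nat_lit 2) (nat_lit 3)) (T.ts (nat_lit 1) (T.ls (nat_lit 3) (nat_lit 4)) (T.ts (nat_lit 3) (T.im (nat_lit 7) (nat_lit 2)) (T.ts (nat_lit 0) (T.im (nat_lit 5) (nat_lit 3)) (T.nw (T.ls (nat_lit 2) (nat_lit 3))))))) (T.ts (nat_lit 0) (T.ts (nat_lit 2) (T.ls (nat_lit 2) (nat_lit 3)) (T.ts (nat_lit 1) (T.ls (nat_lit 3) (nat_lit 4)) (T.ts (nat_lit 0) (T.ls (nat_lit 2) (nat_lit 4)) (T.ts (nat_lit 3) (T.im (nat_lit 7) (nat_lit 2)) (T.nw (T.ls (nat_lit 2) (nat_lit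 3))))))) (T.ts (nat_lit 3) (T.im (nat_lit 7) (nat_lit 1)) (T.nw (T.ts (nat_lit 3) (T.ls (nat_lit 2) (nat_lit 3)) (T.ts (nat_lit 2) (T.ls (nat_lit 3) (nat_lit 4)) (T.ts (nat_lit 1) (T.ls (nat_lit 2) (nat_lit 4)) (T.ts (nat_lit 0) (T.ls (nat_lit 2) (nat_lit 3)) (T.ts (nat_lit 4) (T.im (nat_lit 7) (nat_lit 2)) T.ie)))))))))) (T.ts (nat_lit 2) (T.ts (nat_lit 3) (T.ts (nat_lit 3) (T.ls (nat_lit 2) (nat_lit 3)) (T.ts (nat_lit 1) (T.ls (nat_lit 3) (nat_lit 4)) (T.ts (nat_lit 0) (T.ls (nat_lit 2) (nat_lit 4)) (T.ts (nat_lit 2) (T.im (nat_lit 7) (nat_lit 2)) (T.nw (T.ls (nat_lit 2) (nat_lit 3))))))) (T.ts (nat_lit 1) (T.ts (nat_lit 3) (T.ls (nat_lit 3) (nat_lit 4)) (T.ts (nat_lit 1) (T.ls (nat_lit 3) (nat_lit 4)) (T.ts (nat_lit 2) (T.im (nat_lit 7) (nat_lit 2)) (T.ts (nat_lit 0) (T.im (nat_lit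 5) (nat_lit 3)) (T.nw (T.ls (nat_lit 2) (nat_lit 3))))))) (T.ts (nat_lit 0) (T.ts (nat_lit 3) (T.ls (nat_lit 2) (nat_lit 4)) (T.ts (nat_lit 1) (T.ls (nat_lit 3) (nat_lit 4)) (T.ts (nat_lit 0) (T.ls (nat_lit 2) (nat_lit 4)) (T.ts (nat_lit 2) (T.im (nat_lit 7) (nat_lit 2)) (T.nw (T.ls (nat_lit 2) (nat_lit 3))))))) (T.ts (nat_lit 2) (T.im (nat_lit 7) (nat_lit 1)) (T.nw (T.ts (nat_lit 4) (T.ls (nat_lit 2) (nat_lit 3)) (T.ts (nat_lit 2) (T.ls (nat_lit 3) (nat_lit 4)) (T.ts (nat_lit 1) (T.ls (nat_lit 2) (nat_lit 4)) (T.ts (nat_lit 0) (T.ls (nat_lit 2) (nat_lit 3)) (T.ts (nat_lit 3) (T.im (nat_lit 7) (nat_lit 2)) T.ie)))))))))) d98))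
def d100 : T := (T.ts (nat_lit 0) d95 (T.ts (nat_lit 1) (T.im (nat_lit 1) (nat_lit 3)) (T.nw (T.ts (nat_lit 2) d96 (T.ts (nat_lit 1) (T.ts (nat_lit 2) (T.ts (nat_lit 1) (T.ts (nat_lit 1) (T.ls (nat_lit 2) (nat_lit 3)) (T.ts (nat_lit 2) (T.im (nat_lit 7) (nat_lit 2)) (T.ts (nat_lit 0) (T.im (nat_lit 3) (nat_lit 4)) (T.nw (T.ls (nat_lit 2) (nat_lit 4)))))) (T.ts (nat_lit 0) (T.ts (nat_lit 0) (T.ls (nat_lit 3) (nat_lit 4)) (T.ts (nat_lit 2) (T.im (nat_lit 7) (nat_lit 2)) (T.ts (nat_lit 1) (T.im (nat_lit 5) (nat_lit 3)) (T.nw (T.ls (nat_lit 2) (nat_lit 4)))))) (T.ts (nat_lit 2) (T.im (nat_lit 7) (nat_lit 1)) (T.nw (T.ts (nat_lit 2) (T.ls (nat_lit 2) (nat_lit 3)) (T.ts (nat_lit 1) (T.ls (nat_lit 3) (nat_lit 4)) (T.ts (nat_lit 0) (T.ls (nat_lit 2) (nat_lit 4)) (T.ts (nat_lit 3) (T.im (nat_lit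 7) (nat_lit 2)) (T.nw (T.ls (nat_lit 2) (nat_lit 3))))))))))) d97) (T.ts (nat_lit 0) (T.im (nat_lit 5) (nat_lit 1)) (T.nw d99)))))))
def d101 : T := (T.im (nat_lit 3) (nat_lit 1))
def d102 : T := (T.ts (nat_lit 0) (T.ts (nat_lit 2) (T.ts (nat_lit 2) (T.ls (nat_lit 2) (nat_lit 3)) (T.ts (nat_lit 1) (T.ls (nat_lit 3) (nat_lit 4)) (T.ts (nat_lit 0) (T.im (nat_lit 7) (nat_lit 2)) (T.nw (T.ls (nat_lit 2) (nat_lit 4)))))) (T.ts (nat_lit 1) (T.ts (nat_lit 2) (T.ls (nat_lit 2) (nat_lit 3)) (T.ts (nat_lit 1) (T.ls (nat_lit 2) (nat_lit 3)) (T.ts (nat_lit 0) (T.im (nat_lit 5) (nat_lit 3)) (T.nw (T.ls (nat_lit 2) (nat_lit 4)))))) (T.ts (nat_lit 0) (T.im (nat_lit 7) (nat_lit 1)) (T.nw (T.ts (nat_lit 3) (T.ls (nat_lit 2) (nat_lit 4)) (T.ts (nat_lit 2) (T.ls (nat_lit 2) (nat_lit 3)) (T.ts (nat_lit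 0) (T.ls (nat_lit 2) (nat_lit 4)) (T.ts (nat_lit 1) (T.im (nat_lit 7) (nat_lit 2)) (T.nw (T.ls (nat_lit 2) (nat_lit 3))))))))))) (T.ts (nat_lit 1) (T.im (nat_lit 5) (nat_lit 2)) (T.nw (T.ts (nat_lit 3) (T.ts (nat_lit 3) (T.ls (nat_lit 2) (nat_lit 3)) (T.ts (nat_lit 2) (T.ls (nat_lit 2) (nat_lit 4)) (T.ts (nat_lit 1) (T.ls (nat_lit 3) (nat_lit 4)) (T.ts (nat_lit 0) (T.im (nat_lit 7) (nat_lit 2)) (T.nw (T.ls (nat_lit 2) (nat_lit 3))))))) (T.ts (nat_lit 2) (T.ts (nat_lit 3) (T.ls (nat_lit 2) (nat_lit 3)) (T.ts (nat_lit 2) (T.ls (nat_lit 2) (nat_lit 3)) (T.ts (nat_lit 1) (T.im (nat_lit 5) (nat_lit 3)) (T.ts (nat_lit 0) (T.im (nat_lit 7) (nat_lit 2)) (T.nw (T.ls (nat_lit 2) (nat_lit 3))))))) (T.ts (nat_lit 1) (T.ts (nat_lit 3) (T.ls (nat_lit 3) (nat_lit 4)) (T.ts (nat_lit 2) (T.ls (nat_lit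 2) (nat_lit 3)) (T.ts (nat_lit 1) (T.ls (nat_lit 3) (nat_lit 4)) (T.ts (nat_lit 0) (T.im (nat_lit 7) (nat_lit 2)) (T.nw (T.ls (nat_lit 2) (nat_lit 3))))))) (T.ts (nat_lit 0) (T.im (nat_lit 7) (nat_lit 1)) (T.nw (T.ts (nat_lit 4) (T.ls (nat_lit 2) (nat_lit 3)) (T.ts (nat_lit 3) (T.ls (nat_lit 2) (nat_lit 3)) (T.ts (nat_lit 2) (T.ls (nat_lit 3) (nat_lit 4)) (T.ts (nat_lit 0) (T.ls (nat_lit 2) (nat_lit 3)) (T.ts (nat_lit 1) (T.im (nat_lit 7) (nat_lit 2)) T.ie)))))))))))))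
def d103 : T := (T.ts (nat_lit 0) (T.ts (nat_lit 3) (T.ts (nat_lit 3) (T.ls (nat_lit 2) (nat_lit 3)) (T.ts (nat_lit 2) (T.ls (nat_lit 2) (nat_lit 4)) (T.ts (nat_lit 1) (T.ls (nat_lit 3) (nat_lit 4)) (T.ts (nat_lit 0) (T.im (nat_lit 7) (nat_lit 2)) (T.nw (T.ls (nat_lit 2) (nat_lit 3))))))) (T.ts (nat_lit 2) (T.ts (nat_lit 3) (T.ls (nat_lit 2) (nat_lit 3)) (T.ts (nat_lit 2) (T.ls (nat_lit 2) (nat_lit 3)) (T.ts (nat_lit 1) (T.ls (nat_lit 3) (nat_lit 4)) (T.ts (nat_lit 0) (T.im (nat_lit 5) (nat_lit 3)) (T.nw (T.ls (nat_lit 2) (nat_lit 3))))))) (T.ts (nat_lit 1) (T.ts (nat_lit 3) (T.ls (nat_lit 3) (nat_lit 4)) (T.ts (nat_lit 2) (T.ls (nat_lit 2) (nat_lit 3)) (T.ts (nat_lit 1) (T.ls (nat_lit 3) (nat_lit 4)) (T.ts (nat_lit 0) (T.im (nat_lit 7) (nat_lit 2)) (T.nw (T.ls (nat_lit 2) (nat_lit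 3))))))) (T.ts (nat_lit 0) (T.im (nat_lit 7) (nat_lit 1)) (T.nw (T.ts (nat_lit 4) (T.ls (nat_lit 2) (nat_lit 3)) (T.ts (nat_lit 3) (T.ls (nat_lit 2) (nat_lit 3)) (T.ts (nat_lit 2) (T.ls (nat_lit 3) (nat_lit 4)) (T.ts (nat_lit 0) (T.ls (nat_lit 2) (nat_lit 3)) (T.ts (nat_lit 1) (T.im (nat_lit 7) (nat_lit 2)) T.ie)))))))))) (T.ts (nat_lit 2) (T.im (nat_lit 5) (nat_lit 2)) (T.nw (T.ts (nat_lit 4) (T.ts (nat_lit 4) (T.ls (nat_lit 2) (nat_lit 3)) (T.ts (nat_lit 3) (T.ls (nat_lit 2) (nat_lit 3)) (T.ts (nat_lit 2) (T.ls (nat_lit 3) (nat_lit 4)) (T.ts (nat_lit 1) (T.ls (nat_lit 2) (nat_lit 4)) (T.ts (nat_lit 0) (T.im (nat_lit 7) (nat_lit 2)) T.ie))))) (T.ts (nat_lit 3) (T.ts (nat_lit 4) (T.ls (nat_lit 2) (nat_lit 3)) (T.ts (nat_lit 3) (T.ls (nat_lit 2) (nat_lit 3)) (T.ts (nat_lit 2) (T.ls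 (nat_lit 3) (nat_lit 4)) (T.ts (nat_lit 1) (T.im (nat_lit 5) (nat_lit 3)) (T.ts (nat_lit 0) (T.im (nat_lit 7) (nat_lit 2)) T.ie))))) (T.ts (nat_lit 2) (T.ts (nat_lit 4) (T.ls (nat_lit 3) (nat_lit 4)) (T.ts (nat_lit 3) (T.ls (nat_lit 2) (nat_lit 3)) (T.ts (nat_lit 2) (T.ls (nat_lit 3) (nat_lit 4)) (T.ts (nat_lit 1) (T.ls (nat_lit 2) (nat_lit 4)) (T.ts (nat_lit 0) (T.im (nat_lit 7) (nat_lit 2)) T.ie))))) (T.ts (nat_lit 1) (T.ts (nat_lit 4) (T.ls (nat_lit 2) (nat_lit 4)) (T.ts (nat_lit 3) (T.ls (nat_lit 2) (nat_lit 3)) (T.ts (nat_lit 2) (T.ls (nat_lit 3) (nat_lit 4)) (T.ts (nat_lit 1) (T.ls (nat_lit 2) (nat_lit 4)) (T.ts (nat_lit 0) (T.im (nat_lit 7) (nat_lit 2)) T.ie))))) (T.ts (nat_lit 0) (T.im (nat_lit 7) (nat_lit 1)) T.ie))))))))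
def d104 : T := (T.ts (nat_lit 3) (T.ts (nat_lit 2) (T.ts (nat_lit 2) (T.ls (nat_lit 2) (nat_lit 3)) (T.ts (nat_lit 1) (T.ls (nat_lit 3) (nat_lit 4)) (T.ts (nat_lit 3) (T.im (nat_lit 7) (nat_lit 2)) (T.ts (nat_lit 0) (T.im (nat_lit 5) (nat_lit 3)) (T.nw (T.ls (nat_lit 2) (nat_lit 3))))))) (T.ts (nat_lit 1) (T.ts (nat_lit 1) (T.ls (nat_lit 3) (nat_lit 4)) (T.ts (nat_lit 0) (T.ls (nat_lit 2) (nat_lit 4)) (T.ts (nat_lit 3) (T.im (nat_lit 7) (nat_lit 2)) (T.ts (nat_lit 2) (T.im (nat_lit 3) (nat_lit 4)) (T.nw (T.ls (nat_lit 2) (nat_lit 3))))))) (T.ts (nat_lit 0) (T.ts (nat_lit 2) (T.ls (nat_lit 2) (nat_lit 3)) (T.ts (nat_lit 1) (T.ls (nat_lit 3) (nat_lit 4)) (T.ts (nat_lit 0) (T.ls (nat_lit 2) (nat_lit 4)) (T.ts (nat_lit 3) (T.im (nat_lit 7) (nat_lit 2)) (T.nw (T.ls (nat_lit 2) (nat_lit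 3))))))) (T.ts (nat_lit 3) (T.im (nat_lit 7) (nat_lit 1)) (T.nw (T.ts (nat_lit 3) (T.ls (nat_lit 2) (nat_lit 3)) (T.ts (nat_lit 2) (T.ls (nat_lit 3) (nat_lit 4)) (T.ts (nat_lit 1) (T.ls (nat_lit 2) (nat_lit 4)) (T.ts (nat_lit 0) (T.ls (nat_lit 2) (nat_lit 3)) (T.ts (nat_lit 4) (T.im (nat_lit 7) (nat_lit 2)) T.ie)))))))))) (T.ts (nat_lit 1) (T.ts (nat_lit 3) (T.ts (nat_lit 3) (T.ls (nat_lit 2) (nat_lit 3)) (T.ts (nat_lit 2) (T.ls (nat_lit 3) (nat_lit 4)) (T.ts (nat_lit 0) (T.ls (nat_lit 2) (nat_lit 4)) (T.ts (nat_lit 1) (T.im (nat_lit 7) (nat_lit 2)) (T.nw (T.ls (nat_lit 2) (nat_lit 3))))))) (T.ts (nat_lit 2) (T.ts (nat_lit 3) (T.ls (nat_lit 2) (nat_lit 3)) (T.ts (nat_lit 2) (T.ls (nat_lit 2) (nat_lit 3)) (T.ts (nat_lit 1) (T.im (nat_lit 7) (nat_lit 2)) (T.ts (nat_lit 0) (T.im (nat_lit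 5) (nat_lit 3)) (T.nw (T.ls (nat_lit 2) (nat_lit 3))))))) (T.ts (nat_lit 0) (T.ts (nat_lit 3) (T.ls (nat_lit 2) (nat_lit 4)) (T.ts (nat_lit 2) (T.ls (nat_lit 2) (nat_lit 3)) (T.ts (nat_lit 0) (T.ls (nat_lit 2) (nat_lit 4)) (T.ts (nat_lit 1) (T.im (nat_lit 7) (nat_lit 2)) (T.nw (T.ls (nat_lit 2) (nat_lit 3))))))) (T.ts (nat_lit 1) (T.im (nat_lit 7) (nat_lit 1)) (T.nw (T.ts (nat_lit 4) (T.ls (nat_lit 2) (nat_lit 3)) (T.ts (nat_lit 3) (T.ls (nat_lit 2) (nat_lit 3)) (T.ts (nat_lit 1) (T.ls (nat_lit 2) (nat_lit 4)) (T.ts (nat_lit 0) (T.ls (nat_lit 2) (nat_lit 3)) (T.ts (nat_lit 2) (T.im (nat_lit 7) (nat_lit 2)) T.ie)))))))))) d103))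
def d105 : T := (T.ts (nat_lit 2) (T.ts (nat_lit 2) (T.im (nat_lit 1) (nat_lit 4)) (T.ts (nat_lit 1) (T.im (nat_lit 5) (nat_lit 2)) (T.ts (nat_lit 0) (T.im (nat_lit 3) (nat_lit 3)) (T.nw (T.ts (nat_lit 3) (T.ts (nat_lit 3) (T.ls (nat_lit 2) (nat_lit 3)) (T.ts (nat_lit 2) (T.ls (nat_lit 2) (nat_lit 4)) (T.ts (nat_lit 1) (T.ls (nat_lit 3) (nat_lit 4)) (T.ts (nat_lit 0) (T.im (nat_lit 7) (nat_lit 2)) (T.nw (T.ls (nat_lit 2) (nat_lit 3))))))) (T.ts (nat_lit 2) (T.ts (nat_lit 2) (T.ls (nat_lit 2) (nat_lit 3)) (T.ts (nat_lit 1) (T.ls (nat_lit 3) (nat_lit 4)) (T.ts (nat_lit 3) (T.im (nat_lit 5) (nat_lit 3)) (T.ts (nat_lit 0) (T.im (nat_lit 7) (nat_lit 2)) (T.nw (T.ls (nat_lit 2) (nat_lit 3))))))) (T.ts (nat_lit 1) (T.ts (nat_lit 3) (T.ls (nat_lit 3) (nat_lit 4)) (T.ts (nat_lit 2) (T.ls (nat_lit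 2) (nat_lit 3)) (T.ts (nat_lit 1) (T.ls (nat_lit 3) (nat_lit 4)) (T.ts (nat_lit 0) (T.im (nat_lit 7) (nat_lit 2)) (T.nw (T.ls (nat_lit 2) (nat_lit 3))))))) (T.ts (nat_lit 0) (T.im (nat_lit 7) (nat_lit 1)) (T.nw (T.ts (nat_lit 4) (T.ls (nat_lit 2) (nat_lit 3)) (T.ts (nat_lit 3) (T.ls (nat_lit 2) (nat_lit 3)) (T.ts (nat_lit 2) (T.ls (nat_lit 3) (nat_lit 4)) (T.ts (nat_lit 0) (T.ls (nat_lit 2) (nat_lit 3)) (T.ts (nat_lit 1) (T.im (nat_lit 7) (nat_lit 2)) T.ie)))))))))))))) (T.ts (nat_lit 0) (T.ts (nat_lit 2) (T.ts (nat_lit 1) (T.ts (nat_lit 1) (T.ls (nat_lit 2) (nat_lit 3)) (T.ts (nat_lit 2) (T.im (nat_lit 7) (nat_lit 2)) (T.ts (nat_lit 0) (T.im (nat_lit 5) (nat_lit 3)) (T.nw (T.ls (nat_lit 2) (nat_lit 4)))))) (T.ts (nat_lit 0) (T.ts (nat_lit 0) (T.ls (nat_lit 3) (nat_lit 4)) (T.ts (nat_lit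 2) (T.im (nat_lit 7) (nat_lit 2)) (T.ts (nat_lit 1) (T.im (nat_lit 3) (nat_lit 4)) (T.nw (T.ls (nat_lit 2) (nat_lit 4)))))) (T.ts (nat_lit 2) (T.im (nat_lit 7) (nat_lit 1)) (T.nw (T.ts (nat_lit 2) (T.ls (nat_lit 2) (nat_lit 3)) (T.ts (nat_lit 1) (T.ls (nat_lit 3) (nat_lit 4)) (T.ts (nat_lit 0) (T.ls (nat_lit 2) (nat_lit 4)) (T.ts (nat_lit 3) (T.im (nat_lit 7) (nat_lit 2)) (T.nw (T.ls (nat_lit 2) (nat_lit 3))))))))))) d102) (T.ts (nat_lit 1) (T.im (nat_lit 5) (nat_lit 1)) (T.nw d104))))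
def d106 : T := (T.ts (nat_lit 1) (T.ts (nat_lit 2) (T.ts (nat_lit 2) (T.ls (nat_lit 3) (nat_lit 4)) (T.ts (nat_lit 0) (T.ls (nat_lit 3) (nat_lit 4)) (T.ts (nat_lit 1) (T.im (nat_lit 7) (nat_lit 2)) (T.nw (T.ls (nat_lit 2) (nat_lit 4)))))) (T.ts (nat_lit 0) (T.ts (nat_lit 0) (T.ls (nat_lit 3) (nat_lit 4)) (T.ts (nat_lit 2) (T.im (nat_lit 5) (nat_lit 3)) (T.ts (nat_lit 1) (T.im (nat_lit 7) (nat_lit 2)) (T.nw (T.ls (nat_lit 2) (nat_lit 4)))))) (T.ts (nat_lit 1) (T.im (nat_lit 7) (nat_lit 1)) (T.nw (T.ts (nat_lit 3) (T.ls (nat_lit 2) (nat_lit 4)) (T.ts (nat_lit 1) (T.ls (nat_lit 3) (nat_lit 4)) (T.ts (nat_lit 0) (T.ls (nat_lit 2) (nat_lit 4)) (T.ts (nat_lit 2) (T.im (nat_lit 7) (nat_lit 2)) (T.nw (T.ls (nat_lit 2) (nat_lit 3))))))))))) (T.ts (nat_lit 0) (T.im (nat_lit 3) (nat_lit 3))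 (T.nw (T.ts (nat_lit 3) (T.ts (nat_lit 3) (T.ls (nat_lit 2) (nat_lit 3)) (T.ts (nat_lit 2) (T.ls (nat_lit 2) (nat_lit 4)) (T.ts (nat_lit 1) (T.ls (nat_lit 3) (nat_lit 4)) (T.ts (nat_lit 0) (T.im (nat_lit 7) (nat_lit 2)) (T.nw (T.ls (nat_lit 2) (nat_lit 3))))))) (T.ts (nat_lit 2) (T.ts (nat_lit 3) (T.ls (nat_lit 2) (nat_lit 3)) (T.ts (nat_lit 2) (T.ls (nat_lit 2) (nat_lit 3)) (T.ts (nat_lit 1) (T.ls (nat_lit 3) (nat_lit 4)) (T.ts (nat_lit 0) (T.im (nat_lit 7) (nat_lit 2)) (T.nw (T.ls (nat_lit 2) (nat_lit 3))))))) (T.ts (nat_lit 1) (T.ts (nat_lit 2) (T.ls (nat_lit 2) (nat_lit 3)) (T.ts (nat_lit 1) (T.ls (nat_lit 3) (nat_lit 4)) (T.ts (nat_lit 3) (T.im (nat_lit 5) (nat_lit 3)) (T.ts (nat_lit 0) (T.im (nat_lit 7) (nat_lit 2)) (T.nw (T.ls (nat_lit 2) (nat_lit 3))))))) (T.ts (nat_lit 0)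 (T.im (nat_lit 7) (nat_lit 1)) (T.nw (T.ts (nat_lit 4) (T.ls (nat_lit 2) (nat_lit 3)) (T.ts (nat_lit 3) (T.ls (nat_lit 2) (nat_lit 3)) (T.ts (nat_lit 2) (T.ls (nat_lit 3) (nat_lit 4)) (T.ts (nat_lit 0) (T.ls (nat_lit 2) (nat_lit 3)) (T.ts (nat_lit 1) (T.im (nat_lit 7) (nat_lit 2)) T.ie)))))))))))))
def d107 : T := (T.ts (nat_lit 1) (T.ts (nat_lit 2) (T.ts (nat_lit 2) (T.ls (nat_lit 2) (nat_lit 3)) (T.ts (nat_lit 0) (T.ls (nat_lit 3) (nat_lit 4)) (T.ts (nat_lit 1) (T.im (nat_lit 7) (nat_lit 2)) (T.nw (T.ls (nat_lit 2) (nat_lit 4)))))) (T.ts (nat_lit 0) (T.ts (nat_lit 2) (T.ls (nat_lit 3) (nat_lit 4)) (T.ts (nat_lit 0) (T.ls (nat_lit 3) (nat_lit 4)) (T.ts (nat_lit 1) (T.im (nat_lit 5) (nat_lit 3)) (T.nw (T.ls (nat_lit 2) (nat_lit 4)))))) (T.ts (nat_lit 1) (T.im (nat_lit 7) (nat_lit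 1)) (T.nw (T.ts (nat_lit 3) (T.ls (nat_lit 2) (nat_lit 4)) (T.ts (nat_lit 1) (T.ls (nat_lit 3) (nat_lit 4)) (T.ts (nat_lit 0) (T.ls (nat_lit 2) (nat_lit 4)) (T.ts (nat_lit 2) (T.im (nat_lit 7) (nat_lit 2)) (T.nw (T.ls (nat_lit 2) (nat_lit 3))))))))))) (T.ts (nat_lit 0) (T.im (nat_lit 5) (nat_lit 2)) (T.nw (T.ts (nat_lit 3) (T.ts (nat_lit 3) (T.ls (nat_lit 2) (nat_lit 3)) (T.ts (nat_lit 2) (T.ls (nat_lit 2) (nat_lit 4)) (T.ts (nat_lit 1) (T.ls (nat_lit 3) (nat_lit 4)) (T.ts (nat_lit 0) (T.im (nat_lit 7) (nat_lit 2)) (T.nw (T.ls (nat_lit 2) (nat_lit 3))))))) (T.ts (nat_lit 2) (T.ts (nat_lit 3) (T.ls (nat_lit 2) (nat_lit 3)) (T.ts (nat_lit 2) (T.ls (nat_lit 2) (nat_lit 3)) (T.ts (nat_lit 1) (T.ls (nat_lit 3) (nat_lit 4)) (T.ts (nat_lit 0) (T.im (nat_lit 7) (nat_lit 2)) (T.nw (T.ls (nat_lit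 2) (nat_lit 3))))))) (T.ts (nat_lit 1) (T.ts (nat_lit 3) (T.ls (nat_lit 3) (nat_lit 4)) (T.ts (nat_lit 1) (T.ls (nat_lit 3) (nat_lit 4)) (T.ts (nat_lit 2) (T.im (nat_lit 5) (nat_lit 3)) (T.ts (nat_lit 0) (T.im (nat_lit 7) (nat_lit 2)) (T.nw (T.ls (nat_lit 2) (nat_lit 3))))))) (T.ts (nat_lit 0) (T.im (nat_lit 7) (nat_lit 1)) (T.nw (T.ts (nat_lit 4) (T.ls (nat_lit 2) (nat_lit 3)) (T.ts (nat_lit 3) (T.ls (nat_lit 2) (nat_lit 3)) (T.ts (nat_lit 2) (T.ls (nat_lit 3) (nat_lit 4)) (T.ts (nat_lit 0) (T.ls (nat_lit 2) (nat_lit 3)) (T.ts (nat_lit 1) (T.im (nat_lit 7) (nat_lit 2)) T.ie)))))))))))))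
def d108 : T := (T.ts (nat_lit 0) (T.ts (nat_lit 3) (T.ts (nat_lit 3) (T.ls (nat_lit 2) (nat_lit 3)) (T.ts (nat_lit 2) (T.ls (nat_lit 2) (nat_lit 4)) (T.ts (nat_lit 1) (T.ls (nat_lit 3) (nat_lit 4)) (T.ts (nat_lit 0) (T.im (nat_lit 7) (nat_lit 2)) (T.nw (T.ls (nat_lit 2) (nat_lit 3))))))) (T.ts (nat_lit 2) (T.ts (nat_lit 3) (T.ls (nat_lit 2) (nat_lit 3)) (T.ts (nat_lit 2) (T.ls (nat_lit 2) (nat_lit 3)) (T.ts (nat_lit 1) (T.ls (nat_lit 3) (nat_lit 4)) (T.ts (nat_lit 0) (T.im (nat_lit 7) (nat_lit 2)) (T.nw (T.ls (nat_lit 2) (nat_lit 3))))))) (T.ts (nat_lit 1) (T.ts (nat_lit 3) (T.ls (nat_lit 3) (nat_lit 4)) (T.ts (nat_lit 2) (T.ls (nat_lit 2) (nat_lit 3)) (T.ts (nat_lit 1) (T.ls (nat_lit 3) (nat_lit 4)) (T.ts (nat_lit 0) (T.im (nat_lit 5) (nat_lit 3)) (T.nw (T.ls (nat_lit 2) (nat_lit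 3))))))) (T.ts (nat_lit 0) (T.im (nat_lit 7) (nat_lit 1)) (T.nw (T.ts (nat_lit 4) (T.ls (nat_lit 2) (nat_lit 3)) (T.ts (nat_lit 3) (T.ls (nat_lit 2) (nat_lit 3)) (T.ts (nat_lit 2) (T.ls (nat_lit 3) (nat_lit 4)) (T.ts (nat_lit 0) (T.ls (nat_lit 2) (nat_lit 3)) (T.ts (nat_lit 1) (T.im (nat_lit 7) (nat_lit 2)) T.ie)))))))))) (T.ts (nat_lit 1) (T.im (nat_lit 5) (nat_lit 2)) (T.nw (T.ts (nat_lit 4) (T.ts (nat_lit 4) (T.ls (nat_lit 2) (nat_lit 3)) (T.ts (nat_lit 3) (T.ls (nat_lit 2) (nat_lit 3)) (T.ts (nat_lit 2) (T.ls (nat_lit 3) (nat_lit 4)) (T.ts (nat_lit 1) (T.ls (nat_lit 2) (nat_lit 4)) (T.ts (nat_lit 0) (T.im (nat_lit 7) (nat_lit 2)) T.ie))))) (T.ts (nat_lit 3) (T.ts (nat_lit 4) (T.ls (nat_lit 2) (nat_lit 3)) (T.ts (nat_lit 3) (T.ls (nat_lit 2) (nat_lit 3)) (T.ts (nat_lit 2) (T.ls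 (nat_lit 3) (nat_lit 4)) (T.ts (nat_lit 1) (T.ls (nat_lit 2) (nat_lit 4)) (T.ts (nat_lit 0) (T.im (nat_lit 7) (nat_lit 2)) T.ie))))) (T.ts (nat_lit 2) (T.ts (nat_lit 4) (T.ls (nat_lit 3) (nat_lit 4)) (T.ts (nat_lit 3) (T.ls (nat_lit 2) (nat_lit 3)) (T.ts (nat_lit 2) (T.ls (nat_lit 3) (nat_lit 4)) (T.ts (nat_lit 1) (T.im (nat_lit 5) (nat_lit 3)) (T.ts (nat_lit 0) (T.im (nat_lit 7) (nat_lit 2)) T.ie))))) (T.ts (nat_lit 1) (T.ts (nat_lit 4) (T.ls (nat_lit 2) (nat_lit 4)) (T.ts (nat_lit 3) (T.ls (nat_lit 2) (nat_lit 3)) (T.ts (nat_lit 2) (T.ls (nat_lit 3) (nat_lit 4)) (T.ts (nat_lit 1) (T.ls (nat_lit 2) (nat_lit 4)) (T.ts (nat_lit 0) (T.im (nat_lit 7) (nat_lit 2)) T.ie))))) (T.ts (nat_lit 0) (T.im (nat_lit 7) (nat_lit 1)) T.ie))))))))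
def d109 : T := (T.ts (nat_lit 3) (T.ts (nat_lit 2) (T.ts (nat_lit 2) (T.ls (nat_lit 2) (nat_lit 3)) (T.ts (nat_lit 1) (T.ls (nat_lit 3) (nat_lit 4)) (T.ts (nat_lit 0) (T.ls (nat_lit 2) (nat_lit 4)) (T.ts (nat_lit 3) (T.im (nat_lit 7) (nat_lit 2)) (T.nw (T.ls (nat_lit 2) (nat_lit 3))))))) (T.ts (nat_lit 1) (T.ts (nat_lit 2) (T.ls (nat_lit 2) (nat_lit 3)) (T.ts (nat_lit 3) (T.im (nat_lit 7) (nat_lit 2)) (T.ts (nat_lit 1) (T.im (nat_lit 3) (nat_lit 4)) (T.ts (nat_lit 0) (T.im (nat_lit 5) (nat_lit 3)) (T.nw (T.ls (nat_lit 2) (nat_lit 3))))))) (T.ts (nat_lit 0) (T.ts (nat_lit 2) (T.ls (nat_lit 2) (nat_lit 3)) (T.ts (nat_lit 1) (T.ls (nat_lit 3) (nat_lit 4)) (T.ts (nat_lit 0) (T.ls (nat_lit 2) (nat_lit 4)) (T.ts (nat_lit 3) (T.im (nat_lit 7) (nat_lit 2)) (T.nw (T.ls (nat_lit 2) (nat_lit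 3))))))) (T.ts (nat_lit 3) (T.im (nat_lit 7) (nat_lit 1)) (T.nw (T.ts (nat_lit 3) (T.ls (nat_lit 2) (nat_lit 3)) (T.ts (nat_lit 2) (T.ls (nat_lit 3) (nat_lit 4)) (T.ts (nat_lit 1) (T.ls (nat_lit 2) (nat_lit 4)) (T.ts (nat_lit 0) (T.ls (nat_lit 2) (nat_lit 3)) (T.ts (nat_lit 4) (T.im (nat_lit 7) (nat_lit 2)) T.ie)))))))))) (T.ts (nat_lit 2) (T.ts (nat_lit 3) (T.ts (nat_lit 3) (T.ls (nat_lit 2) (nat_lit 3)) (T.ts (nat_lit 1) (T.ls (nat_lit 3) (nat_lit 4)) (T.ts (nat_lit 0) (T.ls (nat_lit 2) (nat_lit 4)) (T.ts (nat_lit 2) (T.im (nat_lit 7) (nat_lit 2)) (T.nw (T.ls (nat_lit 2) (nat_lit 3))))))) (T.ts (nat_lit 1) (T.ts (nat_lit 3) (T.ls (nat_lit 3) (nat_lit 4)) (T.ts (nat_lit 1) (T.ls (nat_lit 3) (nat_lit 4)) (T.ts (nat_lit 2) (T.im (nat_lit 7) (nat_lit 2)) (T.ts (nat_lit 0) (T.im (nat_lit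 5) (nat_lit 3)) (T.nw (T.ls (nat_lit 2) (nat_lit 3))))))) (T.ts (nat_lit 0) (T.ts (nat_lit 3) (T.ls (nat_lit 2) (nat_lit 4)) (T.ts (nat_lit 1) (T.ls (nat_lit 3) (nat_lit 4)) (T.ts (nat_lit 0) (T.ls (nat_lit 2) (nat_lit 4)) (T.ts (nat_lit 2) (T.im (nat_lit 7) (nat_lit 2)) (T.nw (T.ls (nat_lit 2) (nat_lit 3))))))) (T.ts (nat_lit 2) (T.im (nat_lit 7) (nat_lit 1)) (T.nw (T.ts (nat_lit 4) (T.ls (nat_lit 2) (nat_lit 3)) (T.ts (nat_lit 2) (T.ls (nat_lit 3) (nat_lit 4)) (T.ts (nat_lit 1) (T.ls (nat_lit 2) (nat_lit 4)) (T.ts (nat_lit 0) (T.ls (nat_lit 2) (nat_lit 3)) (T.ts (nat_lit 3) (T.im (nat_lit 7) (nat_lit 2)) T.ie)))))))))) d108))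
def d110 : T := (T.ts (nat_lit 2) (T.ts (nat_lit 2) (T.ts (nat_lit 1) (T.ts (nat_lit 1) (T.ls (nat_lit 2) (nat_lit 3)) (T.ts (nat_lit 0) (T.ls (nat_lit 3) (nat_lit 4)) (T.ts (nat_lit 2) (T.im (nat_lit 7) (nat_lit 2)) (T.nw (T.ls (nat_lit 2) (nat_lit 4)))))) (T.ts (nat_lit 0) (T.ts (nat_lit 1) (T.ls (nat_lit 2) (nat_lit 3)) (T.ts (nat_lit 2) (T.im (nat_lit 5) (nat_lit 3)) (T.ts (nat_lit 0) (T.im (nat_lit 3) (nat_lit 4)) (T.nw (T.ls (nat_lit 2) (nat_lit 4)))))) (T.ts (nat_lit 2) (T.im (nat_lit 7) (nat_lit 1)) (T.nw (T.ts (nat_lit 2) (T.ls (nat_lit 2) (nat_lit 3)) (T.ts (nat_lit 1) (T.ls (nat_lit 3) (nat_lit 4)) (T.ts (nat_lit 0) (T.ls (nat_lit 2) (nat_lit 4)) (T.ts (nat_lit 3) (T.im (nat_lit 7) (nat_lit 2)) (T.nw (T.ls (nat_lit 2) (nat_lit 3))))))))))) d106) (T.ts (nat_lit 1) (T.ts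 (nat_lit 2) (T.ts (nat_lit 1) (T.ts (nat_lit 1) (T.ls (nat_lit 2) (nat_lit 3)) (T.ts (nat_lit 0) (T.ls (nat_lit 3) (nat_lit 4)) (T.ts (nat_lit 2) (T.im (nat_lit 7) (nat_lit 2)) (T.nw (T.ls (nat_lit 2) (nat_lit 4)))))) (T.ts (nat_lit 0) (T.ts (nat_lit 2) (T.im (nat_lit 7) (nat_lit 2)) (T.ts (nat_lit 1) (T.im (nat_lit 5) (nat_lit 3)) (T.ts (nat_lit 0) (T.im (nat_lit 3) (nat_lit 4)) (T.nw (T.ls (nat_lit 2) (nat_lit 4)))))) (T.ts (nat_lit 2) (T.im (nat_lit 7) (nat_lit 1)) (T.nw (T.ts (nat_lit 2) (T.ls (nat_lit 2) (nat_lit 3)) (T.ts (nat_lit 1) (T.ls (nat_lit 3) (nat_lit 4)) (T.ts (nat_lit 0) (T.ls (nat_lit 2) (nat_lit 4)) (T.ts (nat_lit 3) (T.im (nat_lit 7) (nat_lit 2)) (T.nw (T.ls (nat_lit 2) (nat_lit 3))))))))))) d107) (T.ts (nat_lit 0) (T.im (nat_lit 5) (nat_lit 1)) (T.nw d109))))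
def d111 : T := (T.ts (nat_lit 2) (T.ts (nat_lit 3) (T.ts (nat_lit 3) (T.ls (nat_lit 2) (nat_lit 4)) (T.ts (nat_lit 1) (T.ls (nat_lit 3) (nat_lit 4)) (T.ts (nat_lit 0) (T.ls (nat_lit 2) (nat_lit 4)) (T.ts (nat_lit 2) (T.im (nat_lit 7) (nat_lit 2)) (T.nw (T.ls (nat_lit 2) (nat_lit 3))))))) (T.ts (nat_lit 1) (T.ts (nat_lit 3) (T.ls (nat_lit 3) (nat_lit 4)) (T.ts (nat_lit 1) (T.ls (nat_lit 3) (nat_lit 4)) (T.ts (nat_lit 0) (T.ls (nat_lit 2) (nat_lit 4)) (T.ts (nat_lit 2) (T.im (nat_lit 7) (nat_lit 2)) (T.nw (T.ls (nat_lit 2) (nat_lit 3))))))) (T.ts (nat_lit 0) (T.ts (nat_lit 1) (T.ls (nat_lit 3) (nat_lit 4)) (T.ts (nat_lit 0) (T.ls (nat_lit 2) (nat_lit 4)) (T.ts (nat_lit 3) (T.im (nat_lit 5) (nat_lit 3)) (T.ts (nat_lit 2) (T.im (nat_lit 7) (nat_lit 2)) (T.nw (T.ls (nat_lit 2) (nat_lit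 3))))))) (T.ts (nat_lit 2) (T.im (nat_lit 7) (nat_lit 1)) (T.nw (T.ts (nat_lit 4) (T.ls (nat_lit 2) (nat_lit 3)) (T.ts (nat_lit 2) (T.ls (nat_lit 3) (nat_lit 4)) (T.ts (nat_lit 1) (T.ls (nat_lit 2) (nat_lit 4)) (T.ts (nat_lit 0) (T.ls (nat_lit 2) (nat_lit 3)) (T.ts (nat_lit 3) (T.im (nat_lit 7) (nat_lit 2)) T.ie)))))))))) (T.ts (nat_lit 1) (T.im (nat_lit 3) (nat_lit 3)) (T.ts (nat_lit 0) (T.im (nat_lit 5) (nat_lit 2)) (T.nw (T.ts (nat_lit 4) (T.ts (nat_lit 4) (T.ls (nat_lit 2) (nat_lit 3)) (T.ts (nat_lit 3) (T.ls (nat_lit 2) (nat_lit 3)) (T.ts (nat_lit 2) (T.ls (nat_lit 3) (nat_lit 4)) (T.ts (nat_lit 1) (T.ls (nat_lit 2) (nat_lit 4)) (T.ts (nat_lit 0) (T.im (nat_lit 7) (nat_lit 2)) T.ie))))) (T.ts (nat_lit 3) (T.ts (nat_lit 4) (T.ls (nat_lit 2) (nat_lit 3)) (T.ts (nat_lit 3) (T.ls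 (nat_lit 2) (nat_lit 3)) (T.ts (nat_lit 2) (T.ls (nat_lit 3) (nat_lit 4)) (T.ts (nat_lit 1) (T.ls (nat_lit 2) (nat_lit 4)) (T.ts (nat_lit 0) (T.im (nat_lit 7) (nat_lit 2)) T.ie))))) (T.ts (nat_lit 2) (T.ts (nat_lit 4) (T.ls (nat_lit 3) (nat_lit 4)) (T.ts (nat_lit 3) (T.ls (nat_lit 2) (nat_lit 3)) (T.ts (nat_lit 2) (T.ls (nat_lit 3) (nat_lit 4)) (T.ts (nat_lit 1) (T.ls (nat_lit 2) (nat_lit 4)) (T.ts (nat_lit 0) (T.im (nat_lit 7) (nat_lit 2)) T.ie))))) (T.ts (nat_lit 1) (T.ts (nat_lit 3) (T.ls (nat_lit 2) (nat_lit 3)) (T.ts (nat_lit 2) (T.ls (nat_lit 3) (nat_lit 4)) (T.ts (nat_lit 1) (T.ls (nat_lit 2) (nat_lit 4)) (T.ts (nat_lit 4) (T.im (nat_lit 5) (nat_lit 3)) (T.ts (nat_lit 0) (T.im (nat_lit 7) (nat_lit 2)) T.ie))))) (T.ts (nat_lit 0) (T.im (nat_lit 7) (nat_lit 1)) T.ie)))))))))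
def d112 : T := (T.ts (nat_lit 1) (T.ts (nat_lit 3) (T.ts (nat_lit 3) (T.ls (nat_lit 2) (nat_lit 3)) (T.ts (nat_lit 2) (T.ls (nat_lit 3) (nat_lit 4)) (T.ts (nat_lit 0) (T.ls (nat_lit 2) (nat_lit 4)) (T.ts (nat_lit 1) (T.im (nat_lit 7) (nat_lit 2)) (T.nw (T.ls (nat_lit 2) (nat_lit 3))))))) (T.ts (nat_lit 2) (T.ts (nat_lit 3) (T.ls (nat_lit 2) (nat_lit 3)) (T.ts (nat_lit 2) (T.ls (nat_lit 2) (nat_lit 3)) (T.ts (nat_lit 0) (T.ls (nat_lit 2) (nat_lit 4)) (T.ts (nat_lit 1) (T.im (nat_lit 7) (nat_lit 2)) (T.nw (T.ls (nat_lit 2) (nat_lit 3))))))) (T.ts (nat_lit 0) (T.ts (nat_lit 3) (T.ls (nat_lit 2) (nat_lit 4)) (T.ts (nat_lit 0) (T.ls (nat_lit 2) (nat_lit 4)) (T.ts (nat_lit 2) (T.im (nat_lit 5) (nat_lit 3)) (T.ts (nat_lit 1) (T.im (nat_lit 7) (nat_lit 2)) (T.nw (T.ls (nat_lit 2) (nat_lit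 3))))))) (T.ts (nat_lit 1) (T.im (nat_lit 7) (nat_lit 1)) (T.nw (T.ts (nat_lit 4) (T.ls (nat_lit 2) (nat_lit 3)) (T.ts (nat_lit 3) (T.ls (nat_lit 2) (nat_lit 3)) (T.ts (nat_lit 1) (T.ls (nat_lit 2) (nat_lit 4)) (T.ts (nat_lit 0) (T.ls (nat_lit 2) (nat_lit 3)) (T.ts (nat_lit 2) (T.im (nat_lit 7) (nat_lit 2)) T.ie)))))))))) (T.ts (nat_lit 0) (T.im (nat_lit 5) (nat_lit 2)) (T.nw (T.ts (nat_lit 4) (T.ts (nat_lit 4) (T.ls (nat_lit 2) (nat_lit 3)) (T.ts (nat_lit 3) (T.ls (nat_lit 2) (nat_lit 3)) (T.ts (nat_lit 2) (T.ls (nat_lit 3) (nat_lit 4)) (T.ts (nat_lit 1) (T.ls (nat_lit 2) (nat_lit 4)) (T.ts (nat_lit 0) (T.im (nat_lit 7) (nat_lit 2)) T.ie))))) (T.ts (nat_lit 3) (T.ts (nat_lit 4) (T.ls (nat_lit 2) (nat_lit 3)) (T.ts (nat_lit 3) (T.ls (nat_lit 2) (nat_lit 3)) (T.ts (nat_lit 2) (T.ls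 (nat_lit 3) (nat_lit 4)) (T.ts (nat_lit 1) (T.ls (nat_lit 2) (nat_lit 4)) (T.ts (nat_lit 0) (T.im (nat_lit 7) (nat_lit 2)) T.ie))))) (T.ts (nat_lit 2) (T.ts (nat_lit 4) (T.ls (nat_lit 3) (nat_lit 4)) (T.ts (nat_lit 3) (T.ls (nat_lit 2) (nat_lit 3)) (T.ts (nat_lit 2) (T.ls (nat_lit 3) (nat_lit 4)) (T.ts (nat_lit 1) (T.ls (nat_lit 2) (nat_lit 4)) (T.ts (nat_lit 0) (T.im (nat_lit 7) (nat_lit 2)) T.ie))))) (T.ts (nat_lit 1) (T.ts (nat_lit 4) (T.ls (nat_lit 2) (nat_lit 4)) (T.ts (nat_lit 2) (T.ls (nat_lit 3) (nat_lit 4)) (T.ts (nat_lit 1) (T.ls (nat_lit 2) (nat_lit 4)) (T.ts (nat_lit 3) (T.im (nat_lit 5) (nat_lit 3)) (T.ts (nat_lit 0) (T.im (nat_lit 7) (nat_lit 2)) T.ie))))) (T.ts (nat_lit 0) (T.im (nat_lit 7) (nat_lit 1)) T.ie))))))))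
def d113 : T := (T.ts (nat_lit 3) (T.ts (nat_lit 2) (T.ts (nat_lit 2) (T.ls (nat_lit 2) (nat_lit 3)) (T.ts (nat_lit 1) (T.ls (nat_lit 3) (nat_lit 4)) (T.ts (nat_lit 0) (T.ls (nat_lit 2) (nat_lit 4)) (T.ts (nat_lit 3) (T.im (nat_lit 7) (nat_lit 2)) (T.nw (T.ls (nat_lit 2) (nat_lit 3))))))) (T.ts (nat_lit 1) (T.ts (nat_lit 2) (T.ls (nat_lit 2) (nat_lit 3)) (T.ts (nat_lit 1) (T.ls (nat_lit 3) (nat_lit 4)) (T.ts (nat_lit 3) (T.im (nat_lit 7) (nat_lit 2)) (T.ts (nat_lit 0) (T.im (nat_lit 3) (nat_lit 4)) (T.nw (T.ls (nat_lit 2) (nat_lit 3))))))) (T.ts (nat_lit 0) (T.ts (nat_lit 1) (T.ls (nat_lit 3) (nat_lit 4)) (T.ts (nat_lit 0) (T.ls (nat_lit 2) (nat_lit 4)) (T.ts (nat_lit 3) (T.im (nat_lit 7) (nat_lit 2)) (T.ts (nat_lit 2) (T.im (nat_lit 5) (nat_lit 3)) (T.nw (T.ls (nat_lit 2) (nat_lit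 3))))))) (T.ts (nat_lit 3) (T.im (nat_lit 7) (nat_lit 1)) (T.nw (T.ts (nat_lit 3) (T.ls (nat_lit 2) (nat_lit 3)) (T.ts (nat_lit 2) (T.ls (nat_lit 3) (nat_lit 4)) (T.ts (nat_lit 1) (T.ls (nat_lit 2) (nat_lit 4)) (T.ts (nat_lit 0) (T.ls (nat_lit 2) (nat_lit 3)) (T.ts (nat_lit 4) (T.im (nat_lit 7) (nat_lit 2)) T.ie)))))))))) (T.ts (nat_lit 2) (T.ts (nat_lit 3) (T.ts (nat_lit 3) (T.ls (nat_lit 2) (nat_lit 3)) (T.ts (nat_lit 1) (T.ls (nat_lit 3) (nat_lit 4)) (T.ts (nat_lit 0) (T.ls (nat_lit 2) (nat_lit 4)) (T.ts (nat_lit 2) (T.im (nat_lit 7) (nat_lit 2)) (T.nw (T.ls (nat_lit 2) (nat_lit 3))))))) (T.ts (nat_lit 1) (T.ts (nat_lit 3) (T.ls (nat_lit 3) (nat_lit 4)) (T.ts (nat_lit 1) (T.ls (nat_lit 3) (nat_lit 4)) (T.ts (nat_lit 0) (T.ls (nat_lit 2) (nat_lit 4)) (T.ts (nat_lit 2) (T.im (nat_lit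 7) (nat_lit 2)) (T.nw (T.ls (nat_lit 2) (nat_lit 3))))))) (T.ts (nat_lit 0) (T.ts (nat_lit 3) (T.ls (nat_lit 2) (nat_lit 4)) (T.ts (nat_lit 1) (T.ls (nat_lit 3) (nat_lit 4)) (T.ts (nat_lit 0) (T.ls (nat_lit 2) (nat_lit 4)) (T.ts (nat_lit 2) (T.im (nat_lit 5) (nat_lit 3)) (T.nw (T.ls (nat_lit 2) (nat_lit 3))))))) (T.ts (nat_lit 2) (T.im (nat_lit 7) (nat_lit 1)) (T.nw (T.ts (nat_lit 4) (T.ls (nat_lit 2) (nat_lit 3)) (T.ts (nat_lit 2) (T.ls (nat_lit 3) (nat_lit 4)) (T.ts (nat_lit 1) (T.ls (nat_lit 2) (nat_lit 4)) (T.ts (nat_lit 0) (T.ls (nat_lit 2) (nat_lit 3)) (T.ts (nat_lit 3) (T.im (nat_lit 7) (nat_lit 2)) T.ie)))))))))) d112))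
def d114 : T := (T.ts (nat_lit 1) (T.ts (nat_lit 3) (T.ts (nat_lit 3) (T.ls (nat_lit 2) (nat_lit 3)) (T.ts (nat_lit 2) (T.ls (nat_lit 3) (nat_lit 4)) (T.ts (nat_lit 0) (T.ls (nat_lit 2) (nat_lit 4)) (T.ts (nat_lit 1) (T.im (nat_lit 7) (nat_lit 2)) (T.nw (T.ls (nat_lit 2) (nat_lit 3))))))) (T.ts (nat_lit 2) (T.ts (nat_lit 3) (T.ls (nat_lit 2) (nat_lit 3)) (T.ts (nat_lit 2) (T.ls (nat_lit 2) (nat_lit 3)) (T.ts (nat_lit 0) (T.ls (nat_lit 2) (nat_lit 4)) (T.ts (nat_lit 1) (T.im (nat_lit 7) (nat_lit 2)) (T.nw (T.ls (nat_lit 2) (nat_lit 3))))))) (T.ts (nat_lit 0) (T.ts (nat_lit 3) (T.ls (nat_lit 2) (nat_lit 4)) (T.ts (nat_lit 2) (T.ls (nat_lit 2) (nat_lit 3)) (T.ts (nat_lit 0) (T.ls (nat_lit 2) (nat_lit 4)) (T.ts (nat_lit 1) (T.im (nat_lit 5) (nat_lit 3)) (T.nw (T.ls (nat_lit 2) (nat_lit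 3))))))) (T.ts (nat_lit 1) (T.im (nat_lit 7) (nat_lit 1)) (T.nw (T.ts (nat_lit 4) (T.ls (nat_lit 2) (nat_lit 3)) (T.ts (nat_lit 3) (T.ls (nat_lit 2) (nat_lit 3)) (T.ts (nat_lit 1) (T.ls (nat_lit 2) (nat_lit 4)) (T.ts (nat_lit 0) (T.ls (nat_lit 2) (nat_lit 3)) (T.ts (nat_lit 2) (T.im (nat_lit 7) (nat_lit 2)) T.ie)))))))))) (T.ts (nat_lit 0) (T.im (nat_lit 5) (nat_lit 2)) (T.nw (T.ts (nat_lit 4) (T.ts (nat_lit 4) (T.ls (nat_lit 2) (nat_lit 3)) (T.ts (nat_lit 3) (T.ls (nat_lit 2) (nat_lit 3)) (T.ts (nat_lit 2) (T.ls (nat_lit 3) (nat_lit 4)) (T.ts (nat_lit 1) (T.ls (nat_lit 2) (nat_lit 4)) (T.ts (nat_lit 0) (T.im (nat_lit 7) (nat_lit 2)) T.ie))))) (T.ts (nat_lit 3) (T.ts (nat_lit 4) (T.ls (nat_lit 2) (nat_lit 3)) (T.ts (nat_lit 3) (T.ls (nat_lit 2) (nat_lit 3)) (T.ts (nat_lit 2) (T.ls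 (nat_lit 3) (nat_lit 4)) (T.ts (nat_lit 1) (T.ls (nat_lit 2) (nat_lit 4)) (T.ts (nat_lit 0) (T.im (nat_lit 7) (nat_lit 2)) T.ie))))) (T.ts (nat_lit 2) (T.ts (nat_lit 4) (T.ls (nat_lit 3) (nat_lit 4)) (T.ts (nat_lit 3) (T.ls (nat_lit 2) (nat_lit 3)) (T.ts (nat_lit 2) (T.ls (nat_lit 3) (nat_lit 4)) (T.ts (nat_lit 1) (T.ls (nat_lit 2) (nat_lit 4)) (T.ts (nat_lit 0) (T.im (nat_lit 7) (nat_lit 2)) T.ie))))) (T.ts (nat_lit 1) (T.ts (nat_lit 4) (T.ls (nat_lit 2) (nat_lit 4)) (T.ts (nat_lit 3) (T.ls (nat_lit 2) (nat_lit 3)) (T.ts (nat_lit 1) (T.ls (nat_lit 2) (nat_lit 4)) (T.ts (nat_lit 2) (T.im (nat_lit 5) (nat_lit 3)) (T.ts (nat_lit 0) (T.im (nat_lit 7) (nat_lit 2)) T.ie))))) (T.ts (nat_lit 0) (T.im (nat_lit 7) (nat_lit 1)) T.ie))))))))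
def d115 : T := (T.ts (nat_lit 3) (T.ts (nat_lit 2) (T.ts (nat_lit 2) (T.ls (nat_lit 2) (nat_lit 3)) (T.ts (nat_lit 1) (T.ls (nat_lit 3) (nat_lit 4)) (T.ts (nat_lit 0) (T.ls (nat_lit 2) (nat_lit 4)) (T.ts (nat_lit 3) (T.im (nat_lit 7) (nat_lit 2)) (T.nw (T.ls (nat_lit 2) (nat_lit 3))))))) (T.ts (nat_lit 1) (T.ts (nat_lit 2) (T.ls (nat_lit 2) (nat_lit 3)) (T.ts (nat_lit 1) (T.ls (nat_lit 3) (nat_lit 4)) (T.ts (nat_lit 3) (T.im (nat_lit 7) (nat_lit 2)) (T.ts (nat_lit 0) (T.im (nat_lit 3) (nat_lit 4)) (T.nw (T.ls (nat_lit 2) (nat_lit 3))))))) (T.ts (nat_lit 0) (T.ts (nat_lit 2) (T.ls (nat_lit 2) (nat_lit 3)) (T.ts (nat_lit 0) (T.ls (nat_lit 2) (nat_lit 4)) (T.ts (nat_lit 3) (T.im (nat_lit 7) (nat_lit 2)) (T.ts (nat_lit 1) (T.im (nat_lit 5) (nat_lit 3)) (T.nw (T.ls (nat_lit 2) (nat_lit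 3))))))) (T.ts (nat_lit 3) (T.im (nat_lit 7) (nat_lit 1)) (T.nw (T.ts (nat_lit 3) (T.ls (nat_lit 2) (nat_lit 3)) (T.ts (nat_lit 2) (T.ls (nat_lit 3) (nat_lit 4)) (T.ts (nat_lit 1) (T.ls (nat_lit 2) (nat_lit 4)) (T.ts (nat_lit 0) (T.ls (nat_lit 2) (nat_lit 3)) (T.ts (nat_lit 4) (T.im (nat_lit 7) (nat_lit 2)) T.ie)))))))))) (T.ts (nat_lit 2) (T.ts (nat_lit 3) (T.ts (nat_lit 3) (T.ls (nat_lit 2) (nat_lit 3)) (T.ts (nat_lit 1) (T.ls (nat_lit 3) (nat_lit 4)) (T.ts (nat_lit 0) (T.ls (nat_lit 2) (nat_lit 4)) (T.ts (nat_lit 2) (T.im (nat_lit 7) (nat_lit 2)) (T.nw (T.ls (nat_lit 2) (nat_lit 3))))))) (T.ts (nat_lit 1) (T.ts (nat_lit 3) (T.ls (nat_lit 3) (nat_lit 4)) (T.ts (nat_lit 1) (T.ls (nat_lit 3) (nat_lit 4)) (T.ts (nat_lit 0) (T.ls (nat_lit 2) (nat_lit 4)) (T.ts (nat_lit 2) (T.im (nat_lit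 7) (nat_lit 2)) (T.nw (T.ls (nat_lit 2) (nat_lit 3))))))) (T.ts (nat_lit 0) (T.ts (nat_lit 3) (T.ls (nat_lit 2) (nat_lit 4)) (T.ts (nat_lit 0) (T.ls (nat_lit 2) (nat_lit 4)) (T.ts (nat_lit 2) (T.im (nat_lit 7) (nat_lit 2)) (T.ts (nat_lit 1) (T.im (nat_lit 5) (nat_lit 3)) (T.nw (T.ls (nat_lit 2) (nat_lit 3))))))) (T.ts (nat_lit 2) (T.im (nat_lit 7) (nat_lit 1)) (T.nw (T.ts (nat_lit 4) (T.ls (nat_lit 2) (nat_lit 3)) (T.ts (nat_lit 2) (T.ls (nat_lit 3) (nat_lit 4)) (T.ts (nat_lit 1) (T.ls (nat_lit 2) (nat_lit 4)) (T.ts (nat_lit 0) (T.ls (nat_lit 2) (nat_lit 3)) (T.ts (nat_lit 3) (T.im (nat_lit 7) (nat_lit 2)) T.ie)))))))))) d114))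
def d116 : T := (T.ts (nat_lit 2) (T.ts (nat_lit 4) (T.ts (nat_lit 4) (T.ls (nat_lit 2) (nat_lit 3)) (T.ts (nat_lit 3) (T.ls (nat_lit 3) (nat_lit 4)) (T.ts (nat_lit 1) (T.ls (nat_lit 2) (nat_lit 4)) (T.ts (nat_lit 0) (T.ls (nat_lit 2) (nat_lit 3)) (T.ts (nat_lit 2) (T.im (nat_lit 7) (nat_lit 2)) T.ie))))) (T.ts (nat_lit 3) (T.ts (nat_lit 4) (T.ls (nat_lit 2) (nat_lit 3)) (T.ts (nat_lit 3) (T.ls (nat_lit 2) (nat_lit 3)) (T.ts (nat_lit 1) (T.ls (nat_lit 2) (nat_lit 4)) (T.ts (nat_lit 0) (T.ls (nat_lit 2) (nat_lit 3)) (T.ts (nat_lit 2) (T.im (nat_lit 7) (nat_lit 2)) T.ie))))) (T.ts (nat_lit 1) (T.ts (nat_lit 4) (T.ls (nat_lit 2) (nat_lit 4)) (T.ts (nat_lit 3) (T.ls (nat_lit 2) (nat_lit 3)) (T.ts (nat_lit 1) (T.ls (nat_lit 2) (nat_lit 4)) (T.ts (nat_lit 2) (T.im (nat_lit 7) (nat_lit 2))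 (T.ts (nat_lit 0) (T.im (nat_lit 5) (nat_lit 3)) T.ie))))) (T.ts (nat_lit 0) (T.ts (nat_lit 4) (T.ls (nat_lit 2) (nat_lit 3)) (T.ts (nat_lit 3) (T.ls (nat_lit 2) (nat_lit 3)) (T.ts (nat_lit 1) (T.ls (nat_lit 2) (nat_lit 4)) (T.ts (nat_lit 0) (T.ls (nat_lit 2) (nat_lit 3)) (T.ts (nat_lit 2) (T.im (nat_lit 7) (nat_lit 2)) T.ie))))) (T.ts (nat_lit 2) (T.im (nat_lit 7) (nat_lit 1)) T.ie))))) (T.ts (nat_lit 0) (T.ts (nat_lit 4) (T.ts (nat_lit 4) (T.ls (nat_lit 2) (nat_lit 3)) (T.ts (nat_lit 3) (T.ls (nat_lit 2) (nat_lit 3)) (T.ts (nat_lit 2) (T.ls (nat_lit 3) (nat_lit 4)) (T.ts (nat_lit 1) (T.ls (nat_lit 2) (nat_lit 4)) (T.ts (nat_lit 0) (T.im (nat_lit 7) (nat_lit 2)) T.ie))))) (T.ts (nat_lit 3) (T.ts (nat_lit 4) (T.ls (nat_lit 2) (nat_lit 3)) (T.ts (nat_lit 3) (T.ls (nat_lit 2) (nat_lit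 3)) (T.ts (nat_lit 2) (T.ls (nat_lit 3) (nat_lit 4)) (T.ts (nat_lit 1) (T.ls (nat_lit 2) (nat_lit 4)) (T.ts (nat_lit 0) (T.im (nat_lit 7) (nat_lit 2)) T.ie))))) (T.ts (nat_lit 2) (T.ts (nat_lit 4) (T.ls (nat_lit 3) (nat_lit 4)) (T.ts (nat_lit 3) (T.ls (nat_lit 2) (nat_lit 3)) (T.ts (nat_lit 2) (T.ls (nat_lit 3) (nat_lit 4)) (T.ts (nat_lit 1) (T.ls (nat_lit 2) (nat_lit 4)) (T.ts (nat_lit 0) (T.im (nat_lit 7) (nat_lit 2)) T.ie))))) (T.ts (nat_lit 1) (T.ts (nat_lit 4) (T.ls (nat_lit 2) (nat_lit 4)) (T.ts (nat_lit 3) (T.ls (nat_lit 2) (nat_lit 3)) (T.ts (nat_lit 2) (T.ls (nat_lit 3) (nat_lit 4)) (T.ts (nat_lit 1) (T.ls (nat_lit 2) (nat_lit 4)) (T.ts (nat_lit 0) (T.im (nat_lit 5) (nat_lit 3)) T.ie))))) (T.ts (nat_lit 0) (T.im (nat_lit 7) (nat_lit 1)) T.ie))))) (T.ts (nat_lit 1) (T.im (nat_lit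 5) (nat_lit 2)) T.ie)))
def d117 : T := (T.ts (nat_lit 4) (T.ts (nat_lit 3) (T.ts (nat_lit 3) (T.ls (nat_lit 2) (nat_lit 3)) (T.ts (nat_lit 2) (T.ls (nat_lit 3) (nat_lit 4)) (T.ts (nat_lit 1) (T.ls (nat_lit 2) (nat_lit 4)) (T.ts (nat_lit 0) (T.ls (nat_lit 2) (nat_lit 3)) (T.ts (nat_lit 4) (T.im (nat_lit 7) (nat_lit 2)) T.ie))))) (T.ts (nat_lit 2) (T.ts (nat_lit 3) (T.ls (nat_lit 2) (nat_lit 3)) (T.ts (nat_lit 2) (T.ls (nat_lit 3) (nat_lit 4)) (T.ts (nat_lit 0) (T.ls (nat_lit 2) (nat_lit 3)) (T.ts (nat_lit 4) (T.im (nat_lit 7) (nat_lit 2)) (T.ts (nat_lit 1) (T.im (nat_lit 3) (nat_lit 4)) T.ie))))) (T.ts (nat_lit 1) (T.ts (nat_lit 3) (T.ls (nat_lit 2) (nat_lit 3)) (T.ts (nat_lit 2) (T.ls (nat_lit 3) (nat_lit 4)) (T.ts (nat_lit 1) (T.ls (nat_lit 2) (nat_lit 4)) (T.ts (nat_lit 4) (T.im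 (nat_lit 7) (nat_lit 2)) (T.ts (nat_lit 0) (T.im (nat_lit 5) (nat_lit 3)) T.ie))))) (T.ts (nat_lit 0) (T.ts (nat_lit 3) (T.ls (nat_lit 2) (nat_lit 3)) (T.ts (nat_lit 2) (T.ls (nat_lit 3) (nat_lit 4)) (T.ts (nat_lit 1) (T.ls (nat_lit 2) (nat_lit 4)) (T.ts (nat_lit 0) (T.ls (nat_lit 2) (nat_lit 3)) (T.ts (nat_lit 4) (T.im (nat_lit 7) (nat_lit 2)) T.ie))))) (T.ts (nat_lit 4) (T.im (nat_lit 7) (nat_lit 1)) T.ie))))) (T.ts (nat_lit 3) (T.ts (nat_lit 4) (T.ts (nat_lit 4) (T.ls (nat_lit 2) (nat_lit 3)) (T.ts (nat_lit 2) (T.ls (nat_lit 3) (nat_lit 4)) (T.ts (nat_lit 1) (T.ls (nat_lit 2) (nat_lit 4)) (T.ts (nat_lit 0) (T.ls (nat_lit 2) (nat_lit 3)) (T.ts (nat_lit 3) (T.im (nat_lit 7) (nat_lit 2)) T.ie))))) (T.ts (nat_lit 2) (T.ts (nat_lit 4) (T.ls (nat_lit 3) (nat_lit 4)) (T.ts (nat_lit 2)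 (T.ls (nat_lit 3) (nat_lit 4)) (T.ts (nat_lit 1) (T.ls (nat_lit 2) (nat_lit 4)) (T.ts (nat_lit 0) (T.ls (nat_lit 2) (nat_lit 3)) (T.ts (nat_lit 3) (T.im (nat_lit 7) (nat_lit 2)) T.ie))))) (T.ts (nat_lit 1) (T.ts (nat_lit 4) (T.ls (nat_lit 2) (nat_lit 4)) (T.ts (nat_lit 2) (T.ls (nat_lit 3) (nat_lit 4)) (T.ts (nat_lit 1) (T.ls (nat_lit 2) (nat_lit 4)) (T.ts (nat_lit 3) (T.im (nat_lit 7) (nat_lit 2)) (T.ts (nat_lit 0) (T.im (nat_lit 5) (nat_lit 3)) T.ie))))) (T.ts (nat_lit 0) (T.ts (nat_lit 4) (T.ls (nat_lit 2) (nat_lit 3)) (T.ts (nat_lit 2) (T.ls (nat_lit 3) (nat_lit 4)) (T.ts (nat_lit 1) (T.ls (nat_lit 2) (nat_lit 4)) (T.ts (nat_lit 0) (T.ls (nat_lit 2) (nat_lit 3)) (T.ts (nat_lit 3) (T.im (nat_lit 7) (nat_lit 2)) T.ie))))) (T.ts (nat_lit 3) (T.im (nat_lit 7) (nat_lit 1)) T.ie)))))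 d116))
def d118 : T := (T.ts (nat_lit 2) (T.im (nat_lit 3) (nat_lit 2)) (T.nw (T.ts (nat_lit 3) (T.ts (nat_lit 3) (T.ts (nat_lit 2) (T.ts (nat_lit 2) (T.ls (nat_lit 2) (nat_lit 3)) (T.ts (nat_lit 1) (T.ls (nat_lit 3) (nat_lit 4)) (T.ts (nat_lit 0) (T.ls (nat_lit 2) (nat_lit 4)) (T.ts (nat_lit 3) (T.im (nat_lit 7) (nat_lit 2)) (T.nw (T.ls (nat_lit 2) (nat_lit 3))))))) (T.ts (nat_lit 1) (T.ts (nat_lit 2) (T.ls (nat_lit 2) (nat_lit 3)) (T.ts (nat_lit 1) (T.ls (nat_lit 3) (nat_lit 4)) (T.ts (nat_lit 3) (T.im (nat_lit 7) (nat_lit 2)) (T.ts (nat_lit 0) (T.im (nat_lit 3) (nat_lit 4)) (T.nw (T.ls (nat_lit 2) (nat_lit 3))))))) (T.ts (nat_lit 0) (T.ts (nat_lit 2) (T.ls (nat_lit 2) (nat_lit 3)) (T.ts (nat_lit 1) (T.ls (nat_lit 3) (nat_lit 4)) (T.ts (nat_lit 0) (T.ls (nat_lit 2) (nat_lit 4))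 (T.ts (nat_lit 3) (T.im (nat_lit 5) (nat_lit 3)) (T.nw (T.ls (nat_lit 2) (nat_lit 3))))))) (T.ts (nat_lit 3) (T.im (nat_lit 7) (nat_lit 1)) (T.nw (T.ts (nat_lit 3) (T.ls (nat_lit 2) (nat_lit 3)) (T.ts (nat_lit 2) (T.ls (nat_lit 3) (nat_lit 4)) (T.ts (nat_lit 1) (T.ls (nat_lit 2) (nat_lit 4)) (T.ts (nat_lit 0) (T.ls (nat_lit 2) (nat_lit 3)) (T.ts (nat_lit 4) (T.im (nat_lit 7) (nat_lit 2)) T.ie)))))))))) d111) (T.ts (nat_lit 2) d113 (T.ts (nat_lit 1) d115 (T.ts (nat_lit 0) (T.im (nat_lit 5) (nat_lit 1)) (T.nw d117)))))))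
def d119 : T := (T.ts (nat_lit 0) d110 d118)
def d120 : T := (T.im (nat_lit 1) (nat_lit 2))
def d121 : T := (T.ts (nat_lit 0) (T.ts (nat_lit 2) (T.ts (nat_lit 2) (T.im (nat_lit 3) (nat_lit 4)) (T.ts (nat_lit 1) (T.im (nat_lit 5) (nat_lit 3)) (T.ts (nat_lit 0) (T.im (nat_lit 7) (nat_lit 2)) (T.nw (T.ls (nat_lit 2) (nat_lit 4)))))) (T.ts (nat_lit 1) (T.ts (nat_lit 2) (T.ls (nat_lit 2) (nat_lit 3)) (T.ts (nat_lit 1) (T.ls (nat_lit 2) (nat_lit 3)) (T.ts (nat_lit 0) (T.im (nat_lit 7) (nat_lit 2)) (T.nw (T.ls (nat_lit 2) (nat_lit 4)))))) (T.ts (nat_lit 0) (T.im (nat_lit 7) (nat_lit 1)) (T.nw (T.ts (nat_lit 3) (T.ls (nat_lit 2) (nat_lit 4)) (T.ts (nat_lit 2) (T.ls (nat_lit 2) (nat_lit 3)) (T.ts (nat_lit 0) (T.ls (nat_lit 2) (nat_lit 4)) (T.ts (nat_lit 1) (T.im (nat_lit 7) (nat_lit 2)) (T.nw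 (T.ls (nat_lit 2) (nat_lit 3))))))))))) (T.ts (nat_lit 2) (T.im (nat_lit 5) (nat_lit 2)) (T.nw (T.ts (nat_lit 3) (T.ts (nat_lit 3) (T.ls (nat_lit 2) (nat_lit 3)) (T.ts (nat_lit 1) (T.ls (nat_lit 3) (nat_lit 4)) (T.ts (nat_lit 2) (T.im (nat_lit 5) (nat_lit 3)) (T.ts (nat_lit 0) (T.im (nat_lit 7) (nat_lit 2)) (T.nw (T.ls (nat_lit 2) (nat_lit 3))))))) (T.ts (nat_lit 2) (T.ts (nat_lit 3) (T.ls (nat_lit 2) (nat_lit 3)) (T.ts (nat_lit 2) (T.ls (nat_lit 2) (nat_lit 3)) (T.ts (nat_lit 1) (T.ls (nat_lit 3) (nat_lit 4)) (T.ts (nat_lit 0) (T.im (nat_lit 7) (nat_lit 2)) (T.nw (T.ls (nat_lit 2) (nat_lit 3))))))) (T.ts (nat_lit 1) (T.ts (nat_lit 3) (T.ls (nat_lit 3) (nat_lit 4)) (T.ts (nat_lit 2) (T.ls (nat_lit 2) (nat_lit 3)) (T.ts (nat_lit 1) (T.ls (nat_lit 3) (nat_lit 4)) (T.ts (nat_lit 0) (T.im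 (nat_lit 7) (nat_lit 2)) (T.nw (T.ls (nat_lit 2) (nat_lit 3))))))) (T.ts (nat_lit 0) (T.im (nat_lit 7) (nat_lit 1)) (T.nw (T.ts (nat_lit 4) (T.ls (nat_lit 2) (nat_lit 3)) (T.ts (nat_lit 3) (T.ls (nat_lit 2) (nat_lit 3)) (T.ts (nat_lit 2) (T.ls (nat_lit 3) (nat_lit 4)) (T.ts (nat_lit 0) (T.ls (nat_lit 2) (nat_lit 3)) (T.ts (nat_lit 1) (T.im (nat_lit 7) (nat_lit 2)) T.ie)))))))))))))
def d122 : T := (T.ts (nat_lit 0) (T.ts (nat_lit 2) (T.ts (nat_lit 1) (T.ls (nat_lit 3) (nat_lit 4)) (T.ts (nat_lit 2) (T.im (nat_lit 3) (nat_lit 4)) (T.ts (nat_lit 0) (T.im (nat_lit 5) (nat_lit 3)) (T.nw (T.ls (nat_lit 2) (nat_lit 4)))))) (T.ts (nat_lit 1) (T.ts (nat_lit 2) (T.ls (nat_lit 2) (nat_lit 3)) (T.ts (nat_lit 1) (T.ls (nat_lit 2) (nat_lit 3)) (T.ts (nat_lit 0) (T.im (nat_lit 7) (nat_lit 2)) (T.nw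 (T.ls (nat_lit 2) (nat_lit 4)))))) (T.ts (nat_lit 0) (T.im (nat_lit 7) (nat_lit 1)) (T.nw (T.ts (nat_lit 3) (T.ls (nat_lit 2) (nat_lit 4)) (T.ts (nat_lit 2) (T.ls (nat_lit 2) (nat_lit 3)) (T.ts (nat_lit 0) (T.ls (nat_lit 2) (nat_lit 4)) (T.ts (nat_lit 1) (T.im (nat_lit 7) (nat_lit 2)) (T.nw (T.ls (nat_lit 2) (nat_lit 3))))))))))) (T.ts (nat_lit 2) (T.im (nat_lit 3) (nat_lit 3)) (T.nw (T.ts (nat_lit 3) (T.ts (nat_lit 3) (T.ls (nat_lit 2) (nat_lit 3)) (T.ts (nat_lit 2) (T.ls (nat_lit 2) (nat_lit 4)) (T.ts (nat_lit 1) (T.im (nat_lit 5) (nat_lit 3)) (T.ts (nat_lit 0) (T.im (nat_lit 7) (nat_lit 2)) (T.nw (T.ls (nat_lit 2) (nat_lit 3))))))) (T.ts (nat_lit 2) (T.ts (nat_lit 3) (T.ls (nat_lit 2) (nat_lit 3)) (T.ts (nat_lit 2) (T.ls (nat_lit 2) (nat_lit 3)) (T.ts (nat_lit 1) (T.ls (nat_lit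 3) (nat_lit 4)) (T.ts (nat_lit 0) (T.im (nat_lit 7) (nat_lit 2)) (T.nw (T.ls (nat_lit 2) (nat_lit 3))))))) (T.ts (nat_lit 1) (T.ts (nat_lit 3) (T.ls (nat_lit 3) (nat_lit 4)) (T.ts (nat_lit 2) (T.ls (nat_lit 2) (nat_lit 3)) (T.ts (nat_lit 1) (T.ls (nat_lit 3) (nat_lit 4)) (T.ts (nat_lit 0) (T.im (nat_lit 7) (nat_lit 2)) (T.nw (T.ls (nat_lit 2) (nat_lit 3))))))) (T.ts (nat_lit 0) (T.im (nat_lit 7) (nat_lit 1)) (T.nw (T.ts (nat_lit 4) (T.ls (nat_lit 2) (nat_lit 3)) (T.ts (nat_lit 3) (T.ls (nat_lit 2) (nat_lit 3)) (T.ts (nat_lit 2) (T.ls (nat_lit 3) (nat_lit 4)) (T.ts (nat_lit 0) (T.ls (nat_lit 2) (nat_lit 3)) (T.ts (nat_lit 1) (T.im (nat_lit 7) (nat_lit 2)) T.ie)))))))))))))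
def d123 : T := (T.ts (nat_lit 0) (T.ts (nat_lit 3) (T.ts (nat_lit 3) (T.ls (nat_lit 2) (nat_lit 3)) (T.ts (nat_lit 2) (T.ls (nat_lit 2) (nat_lit 4)) (T.ts (nat_lit 1) (T.ls (nat_lit 3) (nat_lit 4)) (T.ts (nat_lit 0) (T.im (nat_lit 5) (nat_lit 3)) (T.nw (T.ls (nat_lit 2) (nat_lit 3))))))) (T.ts (nat_lit 2) (T.ts (nat_lit 3) (T.ls (nat_lit 2) (nat_lit 3)) (T.ts (nat_lit 2) (T.ls (nat_lit 2) (nat_lit 3)) (T.ts (nat_lit 1) (T.ls (nat_lit 3) (nat_lit 4)) (T.ts (nat_lit 0) (T.im (nat_lit 7) (nat_lit 2)) (T.nw (T.ls (nat_lit 2) (nat_lit 3))))))) (T.ts (nat_lit 1) (T.ts (nat_lit 3) (T.ls (nat_lit 3) (nat_lit 4)) (T.ts (nat_lit 2) (T.ls (nat_lit 2) (nat_lit 3)) (T.ts (nat_lit 1) (T.ls (nat_lit 3) (nat_lit 4)) (T.ts (nat_lit 0) (T.im (nat_lit 7) (nat_lit 2)) (T.nw (T.ls (nat_lit 2) (nat_lit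 3))))))) (T.ts (nat_lit 0) (T.im (nat_lit 7) (nat_lit 1)) (T.nw (T.ts (nat_lit 4) (T.ls (nat_lit 2) (nat_lit 3)) (T.ts (nat_lit 3) (T.ls (nat_lit 2) (nat_lit 3)) (T.ts (nat_lit 2) (T.ls (nat_lit 3) (nat_lit 4)) (T.ts (nat_lit 0) (T.ls (nat_lit 2) (nat_lit 3)) (T.ts (nat_lit 1) (T.im (nat_lit 7) (nat_lit 2)) T.ie)))))))))) (T.ts (nat_lit 3) (T.im (nat_lit 5) (nat_lit 2)) (T.nw (T.ts (nat_lit 4) (T.ts (nat_lit 4) (T.ls (nat_lit 2) (nat_lit 3)) (T.ts (nat_lit 3) (T.ls (nat_lit 2) (nat_lit 3)) (T.ts (nat_lit 2) (T.ls (nat_lit 3) (nat_lit 4)) (T.ts (nat_lit 1) (T.im (nat_lit 5) (nat_lit 3)) (T.ts (nat_lit 0) (T.im (nat_lit 7) (nat_lit 2)) T.ie))))) (T.ts (nat_lit 3) (T.ts (nat_lit 4) (T.ls (nat_lit 2) (nat_lit 3)) (T.ts (nat_lit 3) (T.ls (nat_lit 2) (nat_lit 3)) (T.ts (nat_lit 2) (T.ls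 (nat_lit 3) (nat_lit 4)) (T.ts (nat_lit 1) (T.ls (nat_lit 2) (nat_lit 4)) (T.ts (nat_lit 0) (T.im (nat_lit 7) (nat_lit 2)) T.ie))))) (T.ts (nat_lit 2) (T.ts (nat_lit 4) (T.ls (nat_lit 3) (nat_lit 4)) (T.ts (nat_lit 3) (T.ls (nat_lit 2) (nat_lit 3)) (T.ts (nat_lit 2) (T.ls (nat_lit 3) (nat_lit 4)) (T.ts (nat_lit 1) (T.ls (nat_lit 2) (nat_lit 4)) (T.ts (nat_lit 0) (T.im (nat_lit 7) (nat_lit 2)) T.ie))))) (T.ts (nat_lit 1) (T.ts (nat_lit 4) (T.ls (nat_lit 2) (nat_lit 4)) (T.ts (nat_lit 3) (T.ls (nat_lit 2) (nat_lit 3)) (T.ts (nat_lit 2) (T.ls (nat_lit 3) (nat_lit 4)) (T.ts (nat_lit 1) (T.ls (nat_lit 2) (nat_lit 4)) (T.ts (nat_lit 0) (T.im (nat_lit 7) (nat_lit 2)) T.ie))))) (T.ts (nat_lit 0) (T.im (nat_lit 7) (nat_lit 1)) T.ie))))))))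
def d124 : T := (T.ts (nat_lit 2) (T.ts (nat_lit 3) (T.ts (nat_lit 3) (T.ls (nat_lit 2) (nat_lit 3)) (T.ts (nat_lit 1) (T.ls (nat_lit 3) (nat_lit 4)) (T.ts (nat_lit 2) (T.im (nat_lit 7) (nat_lit 2)) (T.ts (nat_lit 0) (T.im (nat_lit 5) (nat_lit 3)) (T.nw (T.ls (nat_lit 2) (nat_lit 3))))))) (T.ts (nat_lit 1) (T.ts (nat_lit 3) (T.ls (nat_lit 3) (nat_lit 4)) (T.ts (nat_lit 1) (T.ls (nat_lit 3) (nat_lit 4)) (T.ts (nat_lit 0) (T.ls (nat_lit 2) (nat_lit 4)) (T.ts (nat_lit 2) (T.im (nat_lit 7) (nat_lit 2)) (T.nw (T.ls (nat_lit 2) (nat_lit 3))))))) (T.ts (nat_lit 0) (T.ts (nat_lit 3) (T.ls (nat_lit 2) (nat_lit 4)) (T.ts (nat_lit 1) (T.ls (nat_lit 3) (nat_lit 4)) (T.ts (nat_lit 0) (T.ls (nat_lit 2) (nat_lit 4)) (T.ts (nat_lit 2) (T.im (nat_lit 7) (nat_lit 2)) (T.nw (T.ls (nat_lit 2) (nat_lit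 3))))))) (T.ts (nat_lit 2) (T.im (nat_lit 7) (nat_lit 1)) (T.nw (T.ts (nat_lit 4) (T.ls (nat_lit 2) (nat_lit 3)) (T.ts (nat_lit 2) (T.ls (nat_lit 3) (nat_lit 4)) (T.ts (nat_lit 1) (T.ls (nat_lit 2) (nat_lit 4)) (T.ts (nat_lit 0) (T.ls (nat_lit 2) (nat_lit 3)) (T.ts (nat_lit 3) (T.im (nat_lit 7) (nat_lit 2)) T.ie)))))))))) (T.ts (nat_lit 1) (T.ts (nat_lit 3) (T.ts (nat_lit 2) (T.ls (nat_lit 3) (nat_lit 4)) (T.ts (nat_lit 3) (T.im (nat_lit 3) (nat_lit 4)) (T.ts (nat_lit 1) (T.im (nat_lit 7) (nat_lit 2)) (T.ts (nat_lit 0) (T.im (nat_lit 5) (nat_lit 3)) (T.nw (T.ls (nat_lit 2) (nat_lit 3))))))) (T.ts (nat_lit 2) (T.ts (nat_lit 3) (T.ls (nat_lit 2) (nat_lit 3)) (T.ts (nat_lit 2) (T.ls (nat_lit 2) (nat_lit 3)) (T.ts (nat_lit 0) (T.ls (nat_lit 2) (nat_lit 4)) (T.ts (nat_lit 1) (T.im (nat_lit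 7) (nat_lit 2)) (T.nw (T.ls (nat_lit 2) (nat_lit 3))))))) (T.ts (nat_lit 0) (T.ts (nat_lit 3) (T.ls (nat_lit 2) (nat_lit 4)) (T.ts (nat_lit 2) (T.ls (nat_lit 2) (nat_lit 3)) (T.ts (nat_lit 0) (T.ls (nat_lit 2) (nat_lit 4)) (T.ts (nat_lit 1) (T.im (nat_lit 7) (nat_lit 2)) (T.nw (T.ls (nat_lit 2) (nat_lit 3))))))) (T.ts (nat_lit 1) (T.im (nat_lit 7) (nat_lit 1)) (T.nw (T.ts (nat_lit 4) (T.ls (nat_lit 2) (nat_lit 3)) (T.ts (nat_lit 3) (T.ls (nat_lit 2) (nat_lit 3)) (T.ts (nat_lit 1) (T.ls (nat_lit 2) (nat_lit 4)) (T.ts (nat_lit 0) (T.ls (nat_lit 2) (nat_lit 3)) (T.ts (nat_lit 2) (T.im (nat_lit 7) (nat_lit 2)) T.ie)))))))))) d123))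
def d125 : T := (T.ts (nat_lit 1) (T.ts (nat_lit 1) (T.ts (nat_lit 2) (T.ts (nat_lit 2) (T.ls (nat_lit 2) (nat_lit 3)) (T.ts (nat_lit 0) (T.ls (nat_lit 3) (nat_lit 4)) (T.ts (nat_lit 1) (T.im (nat_lit 5) (nat_lit 3)) (T.nw (T.ls (nat_lit 2) (nat_lit 4)))))) (T.ts (nat_lit 0) (T.ts (nat_lit 2) (T.ls (nat_lit 3) (nat_lit 4)) (T.ts (nat_lit 0) (T.ls (nat_lit 3) (nat_lit 4)) (T.ts (nat_lit 1) (T.im (nat_lit 7) (nat_lit 2)) (T.nw (T.ls (nat_lit 2) (nat_lit 4)))))) (T.ts (nat_lit 1) (T.im (nat_lit 7) (nat_lit 1)) (T.nw (T.ts (nat_lit 3) (T.ls (nat_lit 2) (nat_lit 4)) (T.ts (nat_lit 1) (T.ls (nat_lit 3) (nat_lit 4)) (T.ts (nat_lit 0) (T.ls (nat_lit 2) (nat_lit 4)) (T.ts (nat_lit 2) (T.im (nat_lit 7) (nat_lit 2)) (T.nw (T.ls (nat_lit 2) (nat_lit 3))))))))))) d121) (T.ts (nat_lit 0) (T.ts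 (nat_lit 1) (T.ts (nat_lit 2) (T.ts (nat_lit 2) (T.ls (nat_lit 2) (nat_lit 3)) (T.ts (nat_lit 1) (T.im (nat_lit 7) (nat_lit 2)) (T.ts (nat_lit 0) (T.im (nat_lit 5) (nat_lit 3)) (T.nw (T.ls (nat_lit 2) (nat_lit 4)))))) (T.ts (nat_lit 0) (T.ts (nat_lit 2) (T.ls (nat_lit 3) (nat_lit 4)) (T.ts (nat_lit 0) (T.ls (nat_lit 3) (nat_lit 4)) (T.ts (nat_lit 1) (T.im (nat_lit 7) (nat_lit 2)) (T.nw (T.ls (nat_lit 2) (nat_lit 4)))))) (T.ts (nat_lit 1) (T.im (nat_lit 7) (nat_lit 1)) (T.nw (T.ts (nat_lit 3) (T.ls (nat_lit 2) (nat_lit 4)) (T.ts (nat_lit 1) (T.ls (nat_lit 3) (nat_lit 4)) (T.ts (nat_lit 0) (T.ls (nat_lit 2) (nat_lit 4)) (T.ts (nat_lit 2) (T.im (nat_lit 7) (nat_lit 2)) (T.nw (T.ls (nat_lit 2) (nat_lit 3))))))))))) d122) (T.ts (nat_lit 2) (T.im (nat_lit 5) (nat_lit 1)) (T.nw d124))))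
def d126 : T := (T.tp d125)
def d127 : T := (T.ts (nat_lit 0) (T.ts (nat_lit 3) (T.ts (nat_lit 2) (T.ts (nat_lit 3) (T.ts (nat_lit 1) (T.ts (nat_lit 3) (T.ts (nat_lit 2) (T.ts (nat_lit 3) (T.ts (nat_lit 3) (T.l1 (nat_lit 12300) (nat_lit 4) (nat_lit 20500)) (T.tp (T.sk (T.ls (nat_lit 3) (nat_lit 4))))) (T.tp (T.sk (T.ls (nat_lit 3) (nat_lit 4))))) (T.tp (T.sk (T.ls (nat_lit 3) (nat_lit 4))))) (T.tp (T.sk (T.ls (nat_lit 3) (nat_lit 4))))) (T.tp (T.sk (T.ls (nat_lit 3) (nat_lit 4))))) (T.tp (T.sk (T.ls (nat_lit 3) (nat_lit 4))))) (T.tp (T.sk (T.ls (nat_lit 3) (nat_lit 4))))) (T.tp (T.sk (T.ls (nat_lit 3) (nat_lit 4))))) (T.ts (nat_lit 3) (T.im (nat_lit 7) (nat_lit 2)) (T.nw (T.ts (nat_lit 4) (T.ts (nat_lit 3) (T.ts (nat_lit 4) (T.ts (nat_lit 2) (T.ts (nat_lit 4) (T.ts (nat_lit 3) (T.ts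 (nat_lit 4) (T.ts (nat_lit 4) (T.l1 (nat_lit 12300) (nat_lit 3) (nat_lit 20500)) (T.tp (T.sk (T.ls (nat_lit 3) (nat_lit 4))))) (T.tp (T.sk (T.ls (nat_lit 3) (nat_lit 4))))) (T.tp (T.sk (T.ls (nat_lit 3) (nat_lit 4))))) (T.tp (T.sk (T.ls (nat_lit 3) (nat_lit 4))))) (T.tp (T.sk (T.ls (nat_lit 3) (nat_lit 4))))) (T.tp (T.sk (T.ls (nat_lit 3) (nat_lit 4))))) (T.tp (T.sk (T.ls (nat_lit 3) (nat_lit 4))))) (T.tp (T.sk (T.ls (nat_lit 3) (nat_lit 4))))))))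
def d128 : T := (T.ts (nat_lit 1) (T.tp (T.ts (nat_lit 1) (T.ls (nat_lit 3) (nat_lit 4)) (T.ts (nat_lit 0) (T.ls (nat_lit 3) (nat_lit 4)) (T.ts (nat_lit 2) (T.im (nat_lit 5) (nat_lit 3)) (T.nw (T.ts (nat_lit 3) (T.ts (nat_lit 2) (T.im (nat_lit 7) (nat_lit 3)) (T.sk (T.ls (nat_lit 3) (nat_lit 4)))) (T.sk (T.ls (nat_lit 3) (nat_lit 4))))))))) (T.ts (nat_lit 0) (T.ts (nat_lit 1) (T.ls (nat_lit 3) (nat_lit 4)) (T.ts (nat_lit 0) (T.ls (nat_lit 3) (nat_lit 4)) (T.ts (nat_lit 2) (T.im (nat_lit 7) (nat_lit 2)) (T.nw (T.ts (nat_lit 3) (T.ts (nat_lit 2) (T.ts (nat_lit 3) (T.ts (nat_lit 1) (T.ts (nat_lit 3) (T.ts (nat_lit 2) (T.ts (nat_lit 3) (T.ts (nat_lit 3) (T.l1 (nat_lit 12300) (nat_lit 4) (nat_lit 20500)) (T.tp (T.sk (T.ls (nat_lit 3) (nat_lit 4))))) (T.tp (T.sk (T.ls (nat_lit 3) (nat_lit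 4))))) (T.tp (T.sk (T.ls (nat_lit 3) (nat_lit 4))))) (T.tp (T.sk (T.ls (nat_lit 3) (nat_lit 4))))) (T.tp (T.sk (T.ls (nat_lit 3) (nat_lit 4))))) (T.tp (T.sk (T.ls (nat_lit 3) (nat_lit 4))))) (T.tp (T.sk (T.ls (nat_lit 3) (nat_lit 4))))) (T.tp (T.sk (T.ls (nat_lit 3) (nat_lit 4))))))))) (T.ts (nat_lit 2) (T.im (nat_lit 7) (nat_lit 1)) (T.nw (T.ts (nat_lit 2) (T.ls (nat_lit 3) (nat_lit 4)) (T.ts (nat_lit 1) (T.ls (nat_lit 3) (nat_lit 4)) d127))))))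
def d129 : T := (T.ts (nat_lit 1) (T.ts (nat_lit 3) (T.ls (nat_lit 3) (nat_lit 4)) (T.ts (nat_lit 2) (T.ls (nat_lit 3) (nat_lit 4)) (T.ts (nat_lit 1) (T.ls (nat_lit 3) (nat_lit 4)) (T.ts (nat_lit 0) (T.im (nat_lit 7) (nat_lit 2)) (T.nw (T.ts (nat_lit 4) (T.ts (nat_lit 3) (T.ts (nat_lit 4) (T.ts (nat_lit 2) (T.ts (nat_lit 4) (T.ts (nat_lit 3) (T.ts (nat_lit 4) (T.ts (nat_lit 1) (T.l1 (nat_lit 12300) (nat_lit 3) (nat_lit 20500)) (T.tp (T.sk (T.ls (nat_lit 3) (nat_lit 4))))) (T.tp (T.sk (T.ls (nat_lit 3) (nat_lit 4))))) (T.tp (T.sk (T.ls (nat_lit 3) (nat_lit 4))))) (T.tp (T.sk (T.ls (nat_lit 3) (nat_lit 4))))) (T.tp (T.sk (T.ls (nat_lit 3) (nat_lit 4))))) (T.tp (T.sk (T.ls (nat_lit 3) (nat_lit 4))))) (T.tp (T.sk (T.ls (nat_lit 3) (nat_lit 4))))) (T.tp (T.sk (T.ls (nat_lit 3) (nat_lit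 4)))))))))) (T.ts (nat_lit 0) (T.im (nat_lit 7) (nat_lit 1)) (T.nw (T.ts (nat_lit 4) (T.tp (T.ts (nat_lit 3) (T.ts (nat_lit 4) (T.im (nat_lit 9) (nat_lit 2)) (T.sk (T.ls (nat_lit 3) (nat_lit 4)))) (T.sk (T.ls (nat_lit 3) (nat_lit 4))))) (T.ts (nat_lit 3) (T.ls (nat_lit 3) (nat_lit 4)) (T.ts (nat_lit 2) (T.ls (nat_lit 3) (nat_lit 4)) (T.ts (nat_lit 0) (T.ts (nat_lit 4) (T.ts (nat_lit 3) (T.ts (nat_lit 4) (T.ts (nat_lit 2) (T.ts (nat_lit 4) (T.ts (nat_lit 3) (T.ts (nat_lit 4) (T.ts (nat_lit 1) (T.l1 (nat_lit 12300) (nat_lit 3) (nat_lit 20500)) (T.tp (T.sk (T.ls (nat_lit 3) (nat_lit 4))))) (T.tp (T.sk (T.ls (nat_lit 3) (nat_lit 4))))) (T.tp (T.sk (T.ls (nat_lit 3) (nat_lit 4))))) (T.tp (T.sk (T.ls (nat_lit 3) (nat_lit 4))))) (T.tp (T.sk (T.ls (nat_lit 3) (nat_lit 4))))) (T.tp (T.sk (T.ls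 (nat_lit 3) (nat_lit 4))))) (T.tp (T.sk (T.ls (nat_lit 3) (nat_lit 4))))) (T.tp (T.sk (T.ls (nat_lit 3) (nat_lit 4))))) (T.tp (T.ts (nat_lit 1) (T.im (nat_lit 7) (nat_lit 2)) T.ie)))))))))
def d130 : T := (T.ts (nat_lit 3) (T.ts (nat_lit 3) (T.ls (nat_lit 3) (nat_lit 4)) (T.ts (nat_lit 2) (T.ts (nat_lit 3) (T.ts (nat_lit 1) (T.ts (nat_lit 3) (T.ts (nat_lit 2) (T.l1 (nat_lit 12300) (nat_lit 4) (nat_lit 20500)) (T.tp (T.sk (T.ls (nat_lit 3) (nat_lit 4))))) (T.tp (T.sk (T.ls (nat_lit 3) (nat_lit 4))))) (T.tp (T.sk (T.ls (nat_lit 3) (nat_lit 4))))) (T.tp (T.sk (T.ls (nat_lit 3) (nat_lit 4))))) (T.ts (nat_lit 1) (T.ls (nat_lit 3) (nat_lit 4)) (T.ts (nat_lit 0) (T.im (nat_lit 7) (nat_lit 2)) (T.nw (T.ts (nat_lit 4) (T.ts (nat_lit 3) (T.ts (nat_lit 4) (T.ts (nat_lit 2) (T.ts (nat_lit 4)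 (T.ts (nat_lit 3) (T.ts (nat_lit 4) (T.ts (nat_lit 1) (T.l1 (nat_lit 12300) (nat_lit 3) (nat_lit 20500)) (T.tp (T.sk (T.ls (nat_lit 3) (nat_lit 4))))) (T.tp (T.sk (T.ls (nat_lit 3) (nat_lit 4))))) (T.tp (T.sk (T.ls (nat_lit 3) (nat_lit 4))))) (T.tp (T.sk (T.ls (nat_lit 3) (nat_lit 4))))) (T.tp (T.sk (T.ls (nat_lit 3) (nat_lit 4))))) (T.tp (T.sk (T.ls (nat_lit 3) (nat_lit 4))))) (T.tp (T.sk (T.ls (nat_lit 3) (nat_lit 4))))) (T.tp (T.sk (T.ls (nat_lit 3) (nat_lit 4)))))))))) (T.ts (nat_lit 2) (T.ts (nat_lit 2) (T.ls (nat_lit 3) (nat_lit 4)) (T.ts (nat_lit 1) (T.ls (nat_lit 3) (nat_lit 4)) (T.ts (nat_lit 3) (T.im (nat_lit 5) (nat_lit 3)) (T.ts (nat_lit 0) (T.im (nat_lit 7) (nat_lit 2)) (T.nw (T.ts (nat_lit 4) (T.ts (nat_lit 3) (T.ts (nat_lit 4) (T.ts (nat_lit 2) (T.ts (nat_lit 4) (T.ts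 (nat_lit 3) (T.ts (nat_lit 4) (T.ts (nat_lit 1) (T.l1 (nat_lit 12300) (nat_lit 3) (nat_lit 20500)) (T.sk (T.lf (nat_lit 16569) (nat_lit 3) (nat_lit 20500) (nat_lit 4) (nat_lit 12300)))) (T.sk (T.lf (nat_lit 16569) (nat_lit 3) (nat_lit 20500) (nat_lit 4) (nat_lit 12300)))) (T.tp (T.sk (T.ls (nat_lit 3) (nat_lit 4))))) (T.tp (T.sk (T.ls (nat_lit 3) (nat_lit 4))))) (T.tp (T.sk (T.ls (nat_lit 3) (nat_lit 4))))) (T.tp (T.sk (T.ls (nat_lit 3) (nat_lit 4))))) (T.tp (T.sk (T.ls (nat_lit 3) (nat_lit 4))))) (T.tp (T.sk (T.ls (nat_lit 3) (nat_lit 4)))))))))) d129))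
def d131 : T := (T.ts (nat_lit 2) d128 (T.ts (nat_lit 1) (T.im (nat_lit 5) (nat_lit 2)) (T.ts (nat_lit 0) (T.im (nat_lit 1) (nat_lit 4)) (T.nw d130))))
def d132 : T := (T.ts (nat_lit 0) (T.ts (nat_lit 3) (T.ts (nat_lit 2) (T.ts (nat_lit 3) (T.ts (nat_lit 1) (T.ts (nat_lit 3) (T.ts (nat_lit 2) (T.ts (nat_lit 1) (T.ts (nat_lit 1) (T.l1 (nat_lit 12300) (nat_lit 4) (nat_lit 20500)) (T.tp (T.sk (T.ls (nat_lit 3) (nat_lit 4))))) (T.tp (T.sk (T.ls (nat_lit 3) (nat_lit 4))))) (T.tp (T.sk (T.ls (nat_lit 3) (nat_lit 4))))) (T.tp (T.sk (T.ls (nat_lit 3) (nat_lit 4))))) (T.tp (T.sk (T.ls (nat_lit 3) (nat_lit 4))))) (T.tp (T.sk (T.ls (nat_lit 3) (nat_lit 4))))) (T.tp (T.sk (T.ls (nat_lit 3) (nat_lit 4))))) (T.tp (T.sk (T.ls (nat_lit 3) (nat_lit 4))))) (T.ts (nat_lit 1) (T.im (nat_lit 7) (nat_lit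 2)) (T.nw (T.ts (nat_lit 4) (T.ts (nat_lit 3) (T.ts (nat_lit 4) (T.ts (nat_lit 2) (T.ts (nat_lit 4) (T.ts (nat_lit 3) (T.ts (nat_lit 2) (T.ts (nat_lit 2) (T.l1 (nat_lit 12300) (nat_lit 3) (nat_lit 20500)) (T.tp (T.sk (T.ls (nat_lit 3) (nat_lit 4))))) (T.tp (T.sk (T.ls (nat_lit 3) (nat_lit 4))))) (T.tp (T.sk (T.ls (nat_lit 3) (nat_lit 4))))) (T.tp (T.sk (T.ls (nat_lit 3) (nat_lit 4))))) (T.tp (T.sk (T.ls (nat_lit 3) (nat_lit 4))))) (T.tp (T.sk (T.ls (nat_lit 3) (nat_lit 4))))) (T.tp (T.sk (T.ls (nat_lit 3) (nat_lit 4))))) (T.tp (T.sk (T.ls (nat_lit 3) (nat_lit 4))))))))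
def d133 : T := (T.ts (nat_lit 2) (T.ts (nat_lit 2) (T.ls (nat_lit 3) (nat_lit 4)) (T.ts (nat_lit 1) (T.im (nat_lit 3) (nat_lit 4)) (T.ts (nat_lit 0) (T.im (nat_lit 7) (nat_lit 2)) (T.nw (T.ts (nat_lit 3) (T.ts (nat_lit 2) (T.ts (nat_lit 3) (T.ts (nat_lit 1) (T.ts (nat_lit 3) (T.ts (nat_lit 2) (T.ts (nat_lit 1) (T.ts (nat_lit 1) (T.l1 (nat_lit 12300) (nat_lit 4) (nat_lit 20500)) (T.tp (T.sk (T.ls (nat_lit 3) (nat_lit 4))))) (T.tp (T.sk (T.ls (nat_lit 3) (nat_lit 4))))) (T.tp (T.sk (T.ls (nat_lit 3) (nat_lit 4))))) (T.tp (T.sk (T.ls (nat_lit 3) (nat_lit 4))))) (T.tp (T.sk (T.ls (nat_lit 3) (nat_lit 4))))) (T.tp (T.sk (T.ls (nat_lit 3) (nat_lit 4))))) (T.tp (T.sk (T.ls (nat_lit 3) (nat_lit 4))))) (T.tp (T.sk (T.ls (nat_lit 3) (nat_lit 4))))))))) (T.ts (nat_lit 1) (T.ts (nat_lit 2) (T.ls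 (nat_lit 3) (nat_lit 4)) (T.ts (nat_lit 1) (T.ls (nat_lit 3) (nat_lit 4)) (T.ts (nat_lit 0) (T.im (nat_lit 5) (nat_lit 3)) (T.nw (T.ts (nat_lit 3) (T.ts (nat_lit 2) (T.ts (nat_lit 3) (T.ts (nat_lit 1) (T.ts (nat_lit 3) (T.ts (nat_lit 2) (T.ts (nat_lit 1) (T.ts (nat_lit 1) (T.l1 (nat_lit 12300) (nat_lit 4) (nat_lit 20500)) (T.sk (T.lf (nat_lit 16569) (nat_lit 3) (nat_lit 12300) (nat_lit 4) (nat_lit 20500)))) (T.sk (T.lf (nat_lit 16569) (nat_lit 3) (nat_lit 12300) (nat_lit 4) (nat_lit 20500)))) (T.tp (T.sk (T.ls (nat_lit 3) (nat_lit 4))))) (T.tp (T.sk (T.ls (nat_lit 3) (nat_lit 4))))) (T.tp (T.sk (T.ls (nat_lit 3) (nat_lit 4))))) (T.tp (T.sk (T.ls (nat_lit 3) (nat_lit 4))))) (T.tp (T.sk (T.ls (nat_lit 3) (nat_lit 4))))) (T.tp (T.sk (T.ls (nat_lit 3) (nat_lit 4))))))))) (T.ts (nat_lit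 0) (T.im (nat_lit 7) (nat_lit 1)) (T.nw (T.ts (nat_lit 3) (T.tp (T.ts (nat_lit 2) (T.ts (nat_lit 3) (T.im (nat_lit 9) (nat_lit 2)) (T.sk (T.ls (nat_lit 3) (nat_lit 4)))) (T.sk (T.ls (nat_lit 3) (nat_lit 4))))) (T.ts (nat_lit 2) (T.ls (nat_lit 3) (nat_lit 4)) d132))))))
def d134 : T := (T.ts (nat_lit 1) (T.ts (nat_lit 3) (T.ls (nat_lit 3) (nat_lit 4)) (T.ts (nat_lit 2) (T.ls (nat_lit 3) (nat_lit 4)) (T.ts (nat_lit 1) (T.ls (nat_lit 3) (nat_lit 4)) (T.ts (nat_lit 0) (T.im (nat_lit 7) (nat_lit 2)) (T.nw (T.ts (nat_lit 4) (T.ts (nat_lit 3) (T.ts (nat_lit 4) (T.ts (nat_lit 2) (T.ts (nat_lit 4) (T.ts (nat_lit 3) (T.ts (nat_lit 2) (T.ts (nat_lit 1) (T.l1 (nat_lit 12300) (nat_lit 3) (nat_lit 20500)) (T.tp (T.sk (T.ls (nat_lit 3) (nat_lit 4))))) (T.tp (T.sk (T.ls (nat_lit 3) (nat_lit 4)))))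 (T.tp (T.sk (T.ls (nat_lit 3) (nat_lit 4))))) (T.tp (T.sk (T.ls (nat_lit 3) (nat_lit 4))))) (T.tp (T.sk (T.ls (nat_lit 3) (nat_lit 4))))) (T.tp (T.sk (T.ls (nat_lit 3) (nat_lit 4))))) (T.tp (T.sk (T.ls (nat_lit 3) (nat_lit 4))))) (T.tp (T.sk (T.ls (nat_lit 3) (nat_lit 4)))))))))) (T.ts (nat_lit 0) (T.im (nat_lit 7) (nat_lit 1)) (T.nw (T.ts (nat_lit 4) (T.tp (T.ts (nat_lit 3) (T.ts (nat_lit 4) (T.im (nat_lit 9) (nat_lit 2)) (T.sk (T.ls (nat_lit 3) (nat_lit 4)))) (T.sk (T.ls (nat_lit 3) (nat_lit 4))))) (T.ts (nat_lit 3) (T.ls (nat_lit 3) (nat_lit 4)) (T.ts (nat_lit 2) (T.ls (nat_lit 3) (nat_lit 4)) (T.ts (nat_lit 0) (T.ts (nat_lit 4) (T.ts (nat_lit 3) (T.ts (nat_lit 4) (T.ts (nat_lit 2) (T.ts (nat_lit 4) (T.ts (nat_lit 3) (T.ts (nat_lit 2) (T.ts (nat_lit 1) (T.l1 (nat_lit 12300) (nat_lit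 3) (nat_lit 20500)) (T.tp (T.sk (T.ls (nat_lit 3) (nat_lit 4))))) (T.tp (T.sk (T.ls (nat_lit 3) (nat_lit 4))))) (T.tp (T.sk (T.ls (nat_lit 3) (nat_lit 4))))) (T.tp (T.sk (T.ls (nat_lit 3) (nat_lit 4))))) (T.tp (T.sk (T.ls (nat_lit 3) (nat_lit 4))))) (T.tp (T.sk (T.ls (nat_lit 3) (nat_lit 4))))) (T.tp (T.sk (T.ls (nat_lit 3) (nat_lit 4))))) (T.tp (T.sk (T.ls (nat_lit 3) (nat_lit 4))))) (T.tp (T.ts (nat_lit 1) (T.im (nat_lit 7) (nat_lit 2)) T.ie)))))))))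
def d135 : T := (T.ts (nat_lit 3) (T.ts (nat_lit 3) (T.ls (nat_lit 3) (nat_lit 4)) (T.ts (nat_lit 2) (T.ts (nat_lit 3) (T.ts (nat_lit 1) (T.ts (nat_lit 3) (T.ts (nat_lit 2) (T.l1 (nat_lit 12300) (nat_lit 4) (nat_lit 20500)) (T.tp (T.sk (T.ls (nat_lit 3) (nat_lit 4))))) (T.tp (T.sk (T.ls (nat_lit 3) (nat_lit 4))))) (T.tp (T.sk (T.ls (nat_lit 3) (nat_lit 4))))) (T.tp (T.sk (T.ls (nat_lit 3) (nat_lit 4))))) (T.ts (nat_lit 1) (T.ls (nat_lit 3) (nat_lit 4)) (T.ts (nat_lit 0) (T.im (nat_lit 7) (nat_lit 2)) (T.nw (T.ts (nat_lit 4) (T.ts (nat_lit 3) (T.ts (nat_lit 4) (T.ts (nat_lit 2) (T.ts (nat_lit 4) (T.ts (nat_lit 3) (T.ts (nat_lit 2) (T.ts (nat_lit 1) (T.l1 (nat_lit 12300) (nat_lit 3) (nat_lit 20500)) (T.tp (T.sk (T.ls (nat_lit 3) (nat_lit 4))))) (T.tp (T.sk (T.ls (nat_lit 3) (nat_lit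 4))))) (T.tp (T.sk (T.ls (nat_lit 3) (nat_lit 4))))) (T.tp (T.sk (T.ls (nat_lit 3) (nat_lit 4))))) (T.tp (T.sk (T.ls (nat_lit 3) (nat_lit 4))))) (T.tp (T.sk (T.ls (nat_lit 3) (nat_lit 4))))) (T.tp (T.sk (T.ls (nat_lit 3) (nat_lit 4))))) (T.tp (T.sk (T.ls (nat_lit 3) (nat_lit 4)))))))))) (T.ts (nat_lit 2) (T.ts (nat_lit 3) (T.ls (nat_lit 3) (nat_lit 4)) (T.ts (nat_lit 2) (T.ls (nat_lit 3) (nat_lit 4)) (T.ts (nat_lit 1) (T.im (nat_lit 5) (nat_lit 3)) (T.ts (nat_lit 0) (T.im (nat_lit 7) (nat_lit 2)) (T.nw (T.ts (nat_lit 4) (T.ts (nat_lit 3) (T.ts (nat_lit 4) (T.ts (nat_lit 2) (T.ts (nat_lit 4) (T.ts (nat_lit 3) (T.ts (nat_lit 2) (T.ts (nat_lit 1) (T.l1 (nat_lit 12300) (nat_lit 3) (nat_lit 20500)) (T.sk (T.lf (nat_lit 16569) (nat_lit 3) (nat_lit 20500) (nat_lit 4) (nat_lit 12300)))) (T.sk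 (T.lf (nat_lit 16569) (nat_lit 3) (nat_lit 20500) (nat_lit 4) (nat_lit 12300)))) (T.tp (T.sk (T.ls (nat_lit 3) (nat_lit 4))))) (T.tp (T.sk (T.ls (nat_lit 3) (nat_lit 4))))) (T.tp (T.sk (T.ls (nat_lit 3) (nat_lit 4))))) (T.tp (T.sk (T.ls (nat_lit 3) (nat_lit 4))))) (T.tp (T.sk (T.ls (nat_lit 3) (nat_lit 4))))) (T.tp (T.sk (T.ls (nat_lit 3) (nat_lit 4)))))))))) d134))
def d136 : T := (T.ts (nat_lit 0) (T.ts (nat_lit 3) (T.ts (nat_lit 2) (T.ts (nat_lit 3) (T.ts (nat_lit 1) (T.ts (nat_lit 3) (T.ts (nat_lit 2) (T.ts (nat_lit 0) (T.ts (nat_lit 3) (T.l1 (nat_lit 12300) (nat_lit 4) (nat_lit 20500)) (T.tp (T.sk (T.ls (nat_lit 3) (nat_lit 4))))) (T.tp (T.sk (T.ls (nat_lit 3) (nat_lit 4))))) (T.tp (T.sk (T.ls (nat_lit 3) (nat_lit 4))))) (T.tp (T.sk (T.ls (nat_lit 3) (nat_lit 4))))) (T.tp (T.sk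 (T.ls (nat_lit 3) (nat_lit 4))))) (T.tp (T.sk (T.ls (nat_lit 3) (nat_lit 4))))) (T.tp (T.sk (T.ls (nat_lit 3) (nat_lit 4))))) (T.tp (T.sk (T.ls (nat_lit 3) (nat_lit 4))))) (T.ts (nat_lit 3) (T.im (nat_lit 7) (nat_lit 2)) (T.nw (T.ts (nat_lit 4) (T.ts (nat_lit 3) (T.ts (nat_lit 4) (T.ts (nat_lit 2) (T.ts (nat_lit 4) (T.ts (nat_lit 3) (T.ts (nat_lit 1) (T.ts (nat_lit 4) (T.l1 (nat_lit 12300) (nat_lit 3) (nat_lit 20500)) (T.tp (T.sk (T.ls (nat_lit 3) (nat_lit 4))))) (T.tp (T.sk (T.ls (nat_lit 3) (nat_lit 4))))) (T.tp (T.sk (T.ls (nat_lit 3) (nat_lit 4))))) (T.tp (T.sk (T.ls (nat_lit 3) (nat_lit 4))))) (T.tp (T.sk (T.ls (nat_lit 3) (nat_lit 4))))) (T.tp (T.sk (T.ls (nat_lit 3) (nat_lit 4))))) (T.tp (T.sk (T.ls (nat_lit 3) (nat_lit 4))))) (T.tp (T.sk (T.ls (nat_lit 3) (nat_lit 4))))))))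
def d137 : T := (T.ts (nat_lit 0) (T.ts (nat_lit 3) (T.ts (nat_lit 2) (T.ts (nat_lit 3) (T.ts (nat_lit 1) (T.ts (nat_lit 3) (T.ts (nat_lit 2) (T.ts (nat_lit 0) (T.ts (nat_lit 3) (T.l1 (nat_lit 12300) (nat_lit 4) (nat_lit 20500)) (T.tp (T.sk (T.ls (nat_lit 3) (nat_lit 4))))) (T.tp (T.sk (T.ls (nat_lit 3) (nat_lit 4))))) (T.tp (T.sk (T.ls (nat_lit 3) (nat_lit 4))))) (T.tp (T.sk (T.ls (nat_lit 3) (nat_lit 4))))) (T.tp (T.sk (T.ls (nat_lit 3) (nat_lit 4))))) (T.tp (T.sk (T.ls (nat_lit 3) (nat_lit 4))))) (T.tp (T.sk (T.ls (nat_lit 3) (nat_lit 4))))) (T.tp (T.sk (T.ls (nat_lit 3) (nat_lit 4))))) (T.ts (nat_lit 3) (T.im (nat_lit 7) (nat_lit 2)) (T.nw (T.ts (nat_lit 4) (T.ts (nat_lit 3) (T.ts (nat_lit 4) (T.ts (nat_lit 2) (T.ts (nat_lit 4) (T.ts (nat_lit 3) (T.ts (nat_lit 1) (T.ts (nat_lit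 4) (T.l1 (nat_lit 12300) (nat_lit 3) (nat_lit 20500)) (T.tp (T.sk (T.ls (nat_lit 3) (nat_lit 4))))) (T.tp (T.sk (T.ls (nat_lit 3) (nat_lit 4))))) (T.tp (T.sk (T.ls (nat_lit 3) (nat_lit 4))))) (T.tp (T.sk (T.ls (nat_lit 3) (nat_lit 4))))) (T.tp (T.sk (T.ls (nat_lit 3) (nat_lit 4))))) (T.tp (T.sk (T.ls (nat_lit 3) (nat_lit 4))))) (T.tp (T.sk (T.ls (nat_lit 3) (nat_lit 4))))) (T.tp (T.sk (T.ls (nat_lit 3) (nat_lit 4))))))))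
def d138 : T := (T.ts (nat_lit 1) (T.ts (nat_lit 4) (T.ts (nat_lit 3) (T.ts (nat_lit 4) (T.ts (nat_lit 2) (T.ts (nat_lit 4) (T.ts (nat_lit 3) (T.ts (nat_lit 1) (T.ts (nat_lit 4) (T.l1 (nat_lit 12300) (nat_lit 4) (nat_lit 20500)) (T.tp (T.sk (T.ls (nat_lit 3) (nat_lit 4))))) (T.tp (T.sk (T.ls (nat_lit 3) (nat_lit 4))))) (T.tp (T.sk (T.ls (nat_lit 3) (nat_lit 4))))) (T.tp (T.sk (T.ls (nat_lit 3) (nat_lit 4))))) (T.tp (T.sk (T.ls (nat_lit 3) (nat_lit 4))))) (T.tp (T.sk (T.ls (nat_lit 3) (nat_lit 4))))) (T.tp (T.sk (T.ls (nat_lit 3) (nat_lit 4))))) (T.tp (T.sk (T.ls (nat_lit 3) (nat_lit 4))))) (T.ts (nat_lit 0) (T.ts (nat_lit 4) (T.ts (nat_lit 3) (T.ts (nat_lit 4) (T.ts (nat_lit 2) (T.ts (nat_lit 4) (T.ts (nat_lit 3) (T.ts (nat_lit 1) (T.ts (nat_lit 4) (T.l1 (nat_lit 12300) (nat_lit 3)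 (nat_lit 20500)) (T.tp (T.sk (T.ls (nat_lit 3) (nat_lit 4))))) (T.tp (T.sk (T.ls (nat_lit 3) (nat_lit 4))))) (T.tp (T.sk (T.ls (nat_lit 3) (nat_lit 4))))) (T.tp (T.sk (T.ls (nat_lit 3) (nat_lit 4))))) (T.tp (T.sk (T.ls (nat_lit 3) (nat_lit 4))))) (T.tp (T.sk (T.ls (nat_lit 3) (nat_lit 4))))) (T.tp (T.sk (T.ls (nat_lit 3) (nat_lit 4))))) (T.tp (T.sk (T.ls (nat_lit 3) (nat_lit 4))))) (T.tp (T.ts (nat_lit 4) (T.im (nat_lit 7) (nat_lit 2)) T.ie))))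
def d139 : T := (T.ts (nat_lit 0) (T.ts (nat_lit 3) (T.ts (nat_lit 2) (T.ts (nat_lit 3) (T.ts (nat_lit 1) (T.ts (nat_lit 3) (T.ts (nat_lit 2) (T.ts (nat_lit 0) (T.ts (nat_lit 1) (T.l1 (nat_lit 12300) (nat_lit 4) (nat_lit 20500)) (T.tp (T.sk (T.ls (nat_lit 3) (nat_lit 4))))) (T.tp (T.sk (T.ls (nat_lit 3) (nat_lit 4))))) (T.tp (T.sk (T.ls (nat_lit 3) (nat_lit 4))))) (T.tp (T.sk (T.ls (nat_lit 3) (nat_lit 4))))) (T.tp (T.sk (T.ls (nat_lit 3) (nat_lit 4))))) (T.tp (T.sk (T.ls (nat_lit 3) (nat_lit 4))))) (T.tp (T.sk (T.ls (nat_lit 3) (nat_lit 4))))) (T.tp (T.sk (T.ls (nat_lit 3) (nat_lit 4))))) (T.ts (nat_lit 2) (T.im (nat_lit 3) (nat_lit 4)) (T.ts (nat_lit 1) (T.im (nat_lit 7) (nat_lit 2)) (T.nw (T.ts (nat_lit 4) (T.ts (nat_lit 3) (T.ts (nat_lit 4) (T.ts (nat_lit 2) (T.ts (nat_lit 4)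 (T.ts (nat_lit 3) (T.ts (nat_lit 1) (T.ts (nat_lit 2) (T.l1 (nat_lit 12300) (nat_lit 3) (nat_lit 20500)) (T.tp (T.sk (T.ls (nat_lit 3) (nat_lit 4))))) (T.tp (T.sk (T.ls (nat_lit 3) (nat_lit 4))))) (T.tp (T.sk (T.ls (nat_lit 3) (nat_lit 4))))) (T.tp (T.sk (T.ls (nat_lit 3) (nat_lit 4))))) (T.tp (T.sk (T.ls (nat_lit 3) (nat_lit 4))))) (T.tp (T.sk (T.ls (nat_lit 3) (nat_lit 4))))) (T.tp (T.sk (T.ls (nat_lit 3) (nat_lit 4))))) (T.tp (T.sk (T.ls (nat_lit 3) (nat_lit 4)))))))))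
def d140 : T := (T.ts (nat_lit 0) (T.ts (nat_lit 3) (T.ts (nat_lit 2) (T.ts (nat_lit 3) (T.ts (nat_lit 1) (T.ts (nat_lit 3) (T.ts (nat_lit 2) (T.ts (nat_lit 0) (T.ts (nat_lit 1) (T.l1 (nat_lit 12300) (nat_lit 4) (nat_lit 20500)) (T.tp (T.sk (T.ls (nat_lit 3) (nat_lit 4))))) (T.tp (T.sk (T.ls (nat_lit 3) (nat_lit 4))))) (T.tp (T.sk (T.ls (nat_lit 3) (nat_lit 4))))) (T.tp (T.sk (T.ls (nat_lit 3) (nat_lit 4))))) (T.tp (T.sk (T.ls (nat_lit 3) (nat_lit 4))))) (T.tp (T.sk (T.ls (nat_lit 3) (nat_lit 4))))) (T.tp (T.sk (T.ls (nat_lit 3) (nat_lit 4))))) (T.tp (T.sk (T.ls (nat_lit 3) (nat_lit 4))))) (T.ts (nat_lit 1) (T.im (nat_lit 7) (nat_lit 2)) (T.nw (T.ts (nat_lit 4) (T.ts (nat_lit 3) (T.ts (nat_lit 4) (T.ts (nat_lit 2) (T.ts (nat_lit 4) (T.ts (nat_lit 3) (T.ts (nat_lit 1) (T.ts (nat_lit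 2) (T.l1 (nat_lit 12300) (nat_lit 3) (nat_lit 20500)) (T.tp (T.sk (T.ls (nat_lit 3) (nat_lit 4))))) (T.tp (T.sk (T.ls (nat_lit 3) (nat_lit 4))))) (T.tp (T.sk (T.ls (nat_lit 3) (nat_lit 4))))) (T.tp (T.sk (T.ls (nat_lit 3) (nat_lit 4))))) (T.tp (T.sk (T.ls (nat_lit 3) (nat_lit 4))))) (T.tp (T.sk (T.ls (nat_lit 3) (nat_lit 4))))) (T.tp (T.sk (T.ls (nat_lit 3) (nat_lit 4))))) (T.tp (T.sk (T.ls (nat_lit 3) (nat_lit 4))))))))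
def d141 : T := (T.ts (nat_lit 1) (T.ts (nat_lit 4) (T.ts (nat_lit 3) (T.ts (nat_lit 4) (T.ts (nat_lit 2) (T.ts (nat_lit 4) (T.ts (nat_lit 3) (T.ts (nat_lit 1) (T.ts (nat_lit 2) (T.l1 (nat_lit 12300) (nat_lit 4) (nat_lit 20500)) (T.tp (T.sk (T.ls (nat_lit 3) (nat_lit 4))))) (T.tp (T.sk (T.ls (nat_lit 3) (nat_lit 4))))) (T.tp (T.sk (T.ls (nat_lit 3) (nat_lit 4))))) (T.tp (T.sk (T.ls (nat_lit 3) (nat_lit 4))))) (T.tp (T.sk (T.ls (nat_lit 3) (nat_lit 4))))) (T.tp (T.sk (T.ls (nat_lit 3) (nat_lit 4))))) (T.tp (T.sk (T.ls (nat_lit 3) (nat_lit 4))))) (T.tp (T.sk (T.ls (nat_lit 3) (nat_lit 4))))) (T.ts (nat_lit 0) (T.ts (nat_lit 4) (T.ts (nat_lit 3) (T.ts (nat_lit 4) (T.ts (nat_lit 2) (T.ts (nat_lit 4) (T.ts (nat_lit 3) (T.ts (nat_lit 1) (T.ts (nat_lit 2) (T.l1 (nat_lit 12300) (nat_lit 3)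 (nat_lit 20500)) (T.tp (T.sk (T.ls (nat_lit 3) (nat_lit 4))))) (T.tp (T.sk (T.ls (nat_lit 3) (nat_lit 4))))) (T.tp (T.sk (T.ls (nat_lit 3) (nat_lit 4))))) (T.tp (T.sk (T.ls (nat_lit 3) (nat_lit 4))))) (T.tp (T.sk (T.ls (nat_lit 3) (nat_lit 4))))) (T.tp (T.sk (T.ls (nat_lit 3) (nat_lit 4))))) (T.tp (T.sk (T.ls (nat_lit 3) (nat_lit 4))))) (T.tp (T.sk (T.ls (nat_lit 3) (nat_lit 4))))) (T.tp (T.ts (nat_lit 2) (T.im (nat_lit 7) (nat_lit 2)) T.ie))))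
def d142 : T := (T.ts (nat_lit 2) (T.ts (nat_lit 3) (T.ls (nat_lit 3) (nat_lit 4)) (T.ts (nat_lit 2) (T.ls (nat_lit 3) (nat_lit 4)) (T.ts (nat_lit 1) (T.im (nat_lit 7) (nat_lit 2)) (T.ts (nat_lit 0) (T.im (nat_lit 5) (nat_lit 3)) (T.nw (T.ts (nat_lit 4) (T.ts (nat_lit 3) (T.ts (nat_lit 4) (T.ts (nat_lit 2) (T.ts (nat_lit 4) (T.ts (nat_lit 3) (T.ts (nat_lit 1) (T.ts (nat_lit 2) (T.l1 (nat_lit 12300) (nat_lit 3) (nat_lit 20500)) (T.sk (T.lf (nat_lit 16569) (nat_lit 3) (nat_lit 20500) (nat_lit 4) (nat_lit 12300)))) (T.sk (T.lf (nat_lit 16569) (nat_lit 3) (nat_lit 20500) (nat_lit 4) (nat_lit 12300)))) (T.tp (T.sk (T.ls (nat_lit 3) (nat_lit 4))))) (T.tp (T.sk (T.ls (nat_lit 3) (nat_lit 4))))) (T.tp (T.sk (T.ls (nat_lit 3) (nat_lit 4))))) (T.tp (T.sk (T.ls (nat_lit 3) (nat_lit 4))))) (T.tp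 (T.sk (T.ls (nat_lit 3) (nat_lit 4))))) (T.tp (T.sk (T.ls (nat_lit 3) (nat_lit 4)))))))))) (T.ts (nat_lit 0) (T.ts (nat_lit 3) (T.tp (T.ts (nat_lit 2) (T.ts (nat_lit 3) (T.im (nat_lit 9) (nat_lit 2)) (T.sk (T.ls (nat_lit 3) (nat_lit 4)))) (T.sk (T.ls (nat_lit 3) (nat_lit 4))))) (T.ts (nat_lit 2) (T.ls (nat_lit 3) (nat_lit 4)) d140)) (T.ts (nat_lit 1) (T.im (nat_lit 7) (nat_lit 1)) (T.nw (T.ts (nat_lit 4) (T.tp (T.ts (nat_lit 3) (T.ts (nat_lit 4) (T.im (nat_lit 9) (nat_lit 2)) (T.sk (T.ls (nat_lit 3) (nat_lit 4)))) (T.sk (T.ls (nat_lit 3) (nat_lit 4))))) (T.ts (nat_lit 3) (T.ls (nat_lit 3) (nat_lit 4)) d141))))))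
def d143 : T := (T.ts (nat_lit 1) (T.ts (nat_lit 3) (T.ls (nat_lit 3) (nat_lit 4)) (T.ts (nat_lit 2) (T.ls (nat_lit 3) (nat_lit 4)) (T.ts (nat_lit 1) (T.ls (nat_lit 3) (nat_lit 4)) (T.ts (nat_lit 0) (T.im (nat_lit 7) (nat_lit 2)) (T.nw (T.ts (nat_lit 4) (T.ts (nat_lit 3) (T.ts (nat_lit 4) (T.ts (nat_lit 2) (T.ts (nat_lit 4) (T.ts (nat_lit 3) (T.ts (nat_lit 1) (T.ts (nat_lit 1) (T.l1 (nat_lit 12300) (nat_lit 3) (nat_lit 20500)) (T.tp (T.sk (T.ls (nat_lit 3) (nat_lit 4))))) (T.tp (T.sk (T.ls (nat_lit 3) (nat_lit 4))))) (T.tp (T.sk (T.ls (nat_lit 3) (nat_lit 4))))) (T.tp (T.sk (T.ls (nat_lit 3) (nat_lit 4))))) (T.tp (T.sk (T.ls (nat_lit 3) (nat_lit 4))))) (T.tp (T.sk (T.ls (nat_lit 3) (nat_lit 4))))) (T.tp (T.sk (T.ls (nat_lit 3) (nat_lit 4))))) (T.tp (T.sk (T.ls (nat_lit 3) (nat_lit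 4)))))))))) (T.ts (nat_lit 0) (T.im (nat_lit 7) (nat_lit 1)) (T.nw (T.ts (nat_lit 4) (T.tp (T.ts (nat_lit 3) (T.ts (nat_lit 4) (T.im (nat_lit 9) (nat_lit 2)) (T.sk (T.ls (nat_lit 3) (nat_lit 4)))) (T.sk (T.ls (nat_lit 3) (nat_lit 4))))) (T.ts (nat_lit 3) (T.ls (nat_lit 3) (nat_lit 4)) (T.ts (nat_lit 2) (T.ls (nat_lit 3) (nat_lit 4)) (T.ts (nat_lit 0) (T.ts (nat_lit 4) (T.ts (nat_lit 3) (T.ts (nat_lit 4) (T.ts (nat_lit 2) (T.ts (nat_lit 4) (T.ts (nat_lit 3) (T.ts (nat_lit 1) (T.ts (nat_lit 1) (T.l1 (nat_lit 12300) (nat_lit 3) (nat_lit 20500)) (T.tp (T.sk (T.ls (nat_lit 3) (nat_lit 4))))) (T.tp (T.sk (T.ls (nat_lit 3) (nat_lit 4))))) (T.tp (T.sk (T.ls (nat_lit 3) (nat_lit 4))))) (T.tp (T.sk (T.ls (nat_lit 3) (nat_lit 4))))) (T.tp (T.sk (T.ls (nat_lit 3) (nat_lit 4))))) (T.tp (T.sk (T.ls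 (nat_lit 3) (nat_lit 4))))) (T.tp (T.sk (T.ls (nat_lit 3) (nat_lit 4))))) (T.tp (T.sk (T.ls (nat_lit 3) (nat_lit 4))))) (T.tp (T.ts (nat_lit 1) (T.im (nat_lit 7) (nat_lit 2)) T.ie)))))))))
def d144 : T := (T.ts (nat_lit 3) (T.ts (nat_lit 3) (T.ls (nat_lit 3) (nat_lit 4)) (T.ts (nat_lit 2) (T.ts (nat_lit 3) (T.ts (nat_lit 1) (T.ts (nat_lit 3) (T.ts (nat_lit 2) (T.l1 (nat_lit 12300) (nat_lit 4) (nat_lit 20500)) (T.tp (T.sk (T.ls (nat_lit 3) (nat_lit 4))))) (T.tp (T.sk (T.ls (nat_lit 3) (nat_lit 4))))) (T.tp (T.sk (T.ls (nat_lit 3) (nat_lit 4))))) (T.tp (T.sk (T.ls (nat_lit 3) (nat_lit 4))))) (T.ts (nat_lit 1) (T.ls (nat_lit 3) (nat_lit 4)) (T.ts (nat_lit 0) (T.im (nat_lit 7) (nat_lit 2)) (T.nw (T.ts (nat_lit 4) (T.ts (nat_lit 3) (T.ts (nat_lit 4) (T.ts (nat_lit 2) (T.ts (nat_lit 4)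 (T.ts (nat_lit 3) (T.ts (nat_lit 1) (T.ts (nat_lit 1) (T.l1 (nat_lit 12300) (nat_lit 3) (nat_lit 20500)) (T.tp (T.sk (T.ls (nat_lit 3) (nat_lit 4))))) (T.tp (T.sk (T.ls (nat_lit 3) (nat_lit 4))))) (T.tp (T.sk (T.ls (nat_lit 3) (nat_lit 4))))) (T.tp (T.sk (T.ls (nat_lit 3) (nat_lit 4))))) (T.tp (T.sk (T.ls (nat_lit 3) (nat_lit 4))))) (T.tp (T.sk (T.ls (nat_lit 3) (nat_lit 4))))) (T.tp (T.sk (T.ls (nat_lit 3) (nat_lit 4))))) (T.tp (T.sk (T.ls (nat_lit 3) (nat_lit 4)))))))))) (T.ts (nat_lit 2) (T.ts (nat_lit 3) (T.ls (nat_lit 3) (nat_lit 4)) (T.ts (nat_lit 2) (T.ls (nat_lit 3) (nat_lit 4)) (T.ts (nat_lit 1) (T.ls (nat_lit 3) (nat_lit 4)) (T.ts (nat_lit 0) (T.im (nat_lit 5) (nat_lit 3)) (T.nw (T.ts (nat_lit 4) (T.ts (nat_lit 3) (T.ts (nat_lit 4) (T.ts (nat_lit 2) (T.ts (nat_lit 4) (T.ts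 (nat_lit 3) (T.ts (nat_lit 1) (T.ts (nat_lit 1) (T.l1 (nat_lit 12300) (nat_lit 3) (nat_lit 20500)) (T.sk (T.lf (nat_lit 16569) (nat_lit 3) (nat_lit 20500) (nat_lit 4) (nat_lit 12300)))) (T.sk (T.lf (nat_lit 16569) (nat_lit 3) (nat_lit 20500) (nat_lit 4) (nat_lit 12300)))) (T.tp (T.sk (T.ls (nat_lit 3) (nat_lit 4))))) (T.tp (T.sk (T.ls (nat_lit 3) (nat_lit 4))))) (T.tp (T.sk (T.ls (nat_lit 3) (nat_lit 4))))) (T.tp (T.sk (T.ls (nat_lit 3) (nat_lit 4))))) (T.tp (T.sk (T.ls (nat_lit 3) (nat_lit 4))))) (T.tp (T.sk (T.ls (nat_lit 3) (nat_lit 4)))))))))) d143))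
def d145 : T := (T.ts (nat_lit 2) (T.ts (nat_lit 4) (T.ls (nat_lit 3) (nat_lit 4)) (T.ts (nat_lit 3) (T.ls (nat_lit 3) (nat_lit 4)) (T.ts (nat_lit 2) (T.ls (nat_lit 3) (nat_lit 4)) (T.ts (nat_lit 1) (T.ts (nat_lit 4) (T.ts (nat_lit 3) (T.ts (nat_lit 4) (T.ts (nat_lit 2) (T.ts (nat_lit 4) (T.ts (nat_lit 3) (T.ts (nat_lit 1) (T.ts (nat_lit 0) (T.l1 (nat_lit 12300) (nat_lit 4) (nat_lit 20500)) (T.tp (T.sk (T.ls (nat_lit 3) (nat_lit 4))))) (T.tp (T.sk (T.ls (nat_lit 3) (nat_lit 4))))) (T.tp (T.sk (T.ls (nat_lit 3) (nat_lit 4))))) (T.tp (T.sk (T.ls (nat_lit 3) (nat_lit 4))))) (T.tp (T.sk (T.ls (nat_lit 3) (nat_lit 4))))) (T.tp (T.sk (T.ls (nat_lit 3) (nat_lit 4))))) (T.tp (T.sk (T.ls (nat_lit 3) (nat_lit 4))))) (T.tp (T.sk (T.ls (nat_lit 3) (nat_lit 4))))) (T.tp (T.ts (nat_lit 0) (T.im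 (nat_lit 7) (nat_lit 2)) T.ie)))))) (T.ts (nat_lit 1) (T.ts (nat_lit 4) (T.tp (T.ts (nat_lit 3) (T.ts (nat_lit 4) (T.im (nat_lit 9) (nat_lit 2)) (T.sk (T.ls (nat_lit 3) (nat_lit 4)))) (T.sk (T.ls (nat_lit 3) (nat_lit 4))))) (T.ts (nat_lit 3) (T.ls (nat_lit 3) (nat_lit 4)) (T.ts (nat_lit 2) (T.ls (nat_lit 3) (nat_lit 4)) (T.ts (nat_lit 1) (T.ts (nat_lit 4) (T.ts (nat_lit 3) (T.ts (nat_lit 4) (T.ts (nat_lit 2) (T.ts (nat_lit 4) (T.ts (nat_lit 3) (T.ts (nat_lit 1) (T.ts (nat_lit 0) (T.l1 (nat_lit 12300) (nat_lit 4) (nat_lit 20500)) (T.tp (T.sk (T.ls (nat_lit 3) (nat_lit 4))))) (T.tp (T.sk (T.ls (nat_lit 3) (nat_lit 4))))) (T.tp (T.sk (T.ls (nat_lit 3) (nat_lit 4))))) (T.tp (T.sk (T.ls (nat_lit 3) (nat_lit 4))))) (T.tp (T.sk (T.ls (nat_lit 3) (nat_lit 4))))) (T.tp (T.sk (T.ls (nat_lit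 3) (nat_lit 4))))) (T.tp (T.sk (T.ls (nat_lit 3) (nat_lit 4))))) (T.tp (T.sk (T.ls (nat_lit 3) (nat_lit 4))))) (T.tp (T.ts (nat_lit 0) (T.im (nat_lit 7) (nat_lit 2)) T.ie)))))) (T.tp (T.ts (nat_lit 0) (T.im (nat_lit 7) (nat_lit 1)) T.ie))))
def d146 : T := (T.ts (nat_lit 4) (T.ts (nat_lit 4) (T.ls (nat_lit 3) (nat_lit 4)) (T.ts (nat_lit 3) (T.ts (nat_lit 4) (T.ts (nat_lit 2) (T.ts (nat_lit 4) (T.ts (nat_lit 3) (T.l1 (nat_lit 12300) (nat_lit 3) (nat_lit 20500)) (T.tp (T.sk (T.ls (nat_lit 3) (nat_lit 4))))) (T.tp (T.sk (T.ls (nat_lit 3) (nat_lit 4))))) (T.tp (T.sk (T.ls (nat_lit 3) (nat_lit 4))))) (T.tp (T.sk (T.ls (nat_lit 3) (nat_lit 4))))) (T.ts (nat_lit 2) (T.ls (nat_lit 3) (nat_lit 4)) (T.ts (nat_lit 1) (T.ts (nat_lit 4) (T.ts (nat_lit 3) (T.ts (nat_lit 4) (T.ts (nat_lit 2) (T.ts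 (nat_lit 4) (T.ts (nat_lit 3) (T.ts (nat_lit 1) (T.ts (nat_lit 0) (T.l1 (nat_lit 12300) (nat_lit 4) (nat_lit 20500)) (T.tp (T.sk (T.ls (nat_lit 3) (nat_lit 4))))) (T.tp (T.sk (T.ls (nat_lit 3) (nat_lit 4))))) (T.tp (T.sk (T.ls (nat_lit 3) (nat_lit 4))))) (T.tp (T.sk (T.ls (nat_lit 3) (nat_lit 4))))) (T.tp (T.sk (T.ls (nat_lit 3) (nat_lit 4))))) (T.tp (T.sk (T.ls (nat_lit 3) (nat_lit 4))))) (T.tp (T.sk (T.ls (nat_lit 3) (nat_lit 4))))) (T.tp (T.sk (T.ls (nat_lit 3) (nat_lit 4))))) (T.tp (T.ts (nat_lit 0) (T.im (nat_lit 7) (nat_lit 2)) T.ie)))))) (T.ts (nat_lit 3) (T.tp (T.ts (nat_lit 4) (T.ls (nat_lit 3) (nat_lit 4)) (T.ts (nat_lit 3) (T.ls (nat_lit 3) (nat_lit 4)) (T.ts (nat_lit 2) (T.ls (nat_lit 3) (nat_lit 4)) (T.ts (nat_lit 1) (T.im (nat_lit 5) (nat_lit 3)) (T.ts (nat_lit 0) (T.im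 (nat_lit 7) (nat_lit 2)) T.ie)))))) d145))
def d147 : T := (T.ts (nat_lit 0) (T.ts (nat_lit 0) d133 (T.ts (nat_lit 2) (T.im (nat_lit 3) (nat_lit 3)) (T.ts (nat_lit 1) (T.im (nat_lit 5) (nat_lit 2)) (T.nw d135)))) (T.ts (nat_lit 1) (T.im (nat_lit 5) (nat_lit 1)) (T.nw (T.ts (nat_lit 3) (T.ts (nat_lit 2) (T.tp (T.ts (nat_lit 2) (T.ls (nat_lit 3) (nat_lit 4)) (T.ts (nat_lit 1) (T.ls (nat_lit 3) (nat_lit 4)) (T.ts (nat_lit 3) (T.im (nat_lit 7) (nat_lit 2)) (T.ts (nat_lit 0) (T.im (nat_lit 5) (nat_lit 3)) (T.nw (T.ts (nat_lit 4) (T.ts (nat_lit 3) (T.im (nat_lit 7) (nat_lit 3)) (T.sk (T.ls (nat_lit 3) (nat_lit 4)))) (T.sk (T.ls (nat_lit 3) (nat_lit 4)))))))))) (T.ts (nat_lit 1) (T.ts (nat_lit 2) (T.ls (nat_lit 3) (nat_lit 4)) (T.ts (nat_lit 1) (T.ls (nat_lit 3) (nat_lit 4)) d136)) (T.ts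 (nat_lit 0) (T.ts (nat_lit 2) (T.ls (nat_lit 3) (nat_lit 4)) (T.ts (nat_lit 1) (T.ls (nat_lit 3) (nat_lit 4)) d137)) (T.ts (nat_lit 3) (T.im (nat_lit 7) (nat_lit 1)) (T.nw (T.ts (nat_lit 3) (T.ls (nat_lit 3) (nat_lit 4)) (T.ts (nat_lit 2) (T.ls (nat_lit 3) (nat_lit 4)) d138))))))) (T.ts (nat_lit 1) (T.ts (nat_lit 3) (T.ts (nat_lit 3) (T.ls (nat_lit 3) (nat_lit 4)) d139) d142) (T.ts (nat_lit 0) d144 (T.ts (nat_lit 2) (T.im (nat_lit 5) (nat_lit 2)) (T.nw d146))))))))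
def d148 : T := (T.ts (nat_lit 1) (T.ts (nat_lit 3) (T.ts (nat_lit 3) (T.ls (nat_lit 2) (nat_lit 3)) (T.ts (nat_lit 2) (T.ls (nat_lit 3) (nat_lit 4)) (T.ts (nat_lit 1) (T.im (nat_lit 7) (nat_lit 2)) (T.ts (nat_lit 0) (T.im (nat_lit 3) (nat_lit 4)) (T.nw (T.ls (nat_lit 2) (nat_lit 3))))))) (T.ts (nat_lit 2) (T.ts (nat_lit 3) (T.ls (nat_lit 2) (nat_lit 3)) (T.ts (nat_lit 2) (T.ls (nat_lit 2) (nat_lit 3)) (T.ts (nat_lit 0) (T.ls (nat_lit 2) (nat_lit 4)) (T.ts (nat_lit 1) (T.im (nat_lit 7) (nat_lit 2)) (T.nw (T.ls (nat_lit 2) (nat_lit 3))))))) (T.ts (nat_lit 0) (T.ts (nat_lit 2) (T.ls (nat_lit 2) (nat_lit 3)) (T.ts (nat_lit 0) (T.ls (nat_lit 2) (nat_lit 4)) (T.ts (nat_lit 3) (T.im (nat_lit 5) (nat_lit 3)) (T.ts (nat_lit 1) (T.im (nat_lit 7) (nat_lit 2)) (T.nw (T.ls (nat_lit 2) (nat_lit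 3))))))) (T.ts (nat_lit 1) (T.im (nat_lit 7) (nat_lit 1)) (T.nw (T.ts (nat_lit 4) (T.ls (nat_lit 2) (nat_lit 3)) (T.ts (nat_lit 3) (T.ls (nat_lit 2) (nat_lit 3)) (T.ts (nat_lit 1) (T.ls (nat_lit 2) (nat_lit 4)) (T.ts (nat_lit 0) (T.ls (nat_lit 2) (nat_lit 3)) (T.ts (nat_lit 2) (T.im (nat_lit 7) (nat_lit 2)) T.ie)))))))))) (T.ts (nat_lit 0) (T.im (nat_lit 5) (nat_lit 2)) (T.nw (T.ts (nat_lit 4) (T.ts (nat_lit 4) (T.ls (nat_lit 2) (nat_lit 3)) (T.ts (nat_lit 3) (T.ls (nat_lit 2) (nat_lit 3)) (T.ts (nat_lit 2) (T.ls (nat_lit 3) (nat_lit 4)) (T.ts (nat_lit 1) (T.ls (nat_lit 2) (nat_lit 4)) (T.ts (nat_lit 0) (T.im (nat_lit 7) (nat_lit 2)) T.ie))))) (T.ts (nat_lit 3) (T.ts (nat_lit 4) (T.ls (nat_lit 2) (nat_lit 3)) (T.ts (nat_lit 3) (T.ls (nat_lit 2) (nat_lit 3)) (T.ts (nat_lit 2) (T.ls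 (nat_lit 3) (nat_lit 4)) (T.ts (nat_lit 1) (T.ls (nat_lit 2) (nat_lit 4)) (T.ts (nat_lit 0) (T.im (nat_lit 7) (nat_lit 2)) T.ie))))) (T.ts (nat_lit 2) (T.ts (nat_lit 4) (T.ls (nat_lit 3) (nat_lit 4)) (T.ts (nat_lit 3) (T.ls (nat_lit 2) (nat_lit 3)) (T.ts (nat_lit 2) (T.ls (nat_lit 3) (nat_lit 4)) (T.ts (nat_lit 1) (T.ls (nat_lit 2) (nat_lit 4)) (T.ts (nat_lit 0) (T.im (nat_lit 7) (nat_lit 2)) T.ie))))) (T.ts (nat_lit 1) (T.ts (nat_lit 3) (T.ls (nat_lit 2) (nat_lit 3)) (T.ts (nat_lit 2) (T.ls (nat_lit 3) (nat_lit 4)) (T.ts (nat_lit 1) (T.ls (nat_lit 2) (nat_lit 4)) (T.ts (nat_lit 4) (T.im (nat_lit 5) (nat_lit 3)) (T.ts (nat_lit 0) (T.im (nat_lit 7) (nat_lit 2)) T.ie))))) (T.ts (nat_lit 0) (T.im (nat_lit 7) (nat_lit 1)) T.ie))))))))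
def d149 : T := (T.ts (nat_lit 2) (T.ts (nat_lit 3) (T.ts (nat_lit 3) (T.ls (nat_lit 2) (nat_lit 3)) (T.ts (nat_lit 1) (T.ts (nat_lit 3) (T.ts (nat_lit 2) (T.ts (nat_lit 3) (T.ts (nat_lit 1) (T.im (nat_lit 7) (nat_lit 4)) (T.sk (T.ls (nat_lit 2) (nat_lit 4)))) (T.sk (T.ls (nat_lit 2) (nat_lit 4)))) (T.sk (T.ls (nat_lit 2) (nat_lit 4)))) (T.sk (T.ls (nat_lit 2) (nat_lit 4)))) (T.ts (nat_lit 0) (T.ls (nat_lit 2) (nat_lit 4)) (T.ts (nat_lit 2) (T.im (nat_lit 7) (nat_lit 2)) (T.nw (T.ls (nat_lit 2) (nat_lit 3))))))) (T.ts (nat_lit 1) (T.ts (nat_lit 3) (T.ls (nat_lit 3) (nat_lit 4)) (T.ts (nat_lit 1) (T.ls (nat_lit 3) (nat_lit 4)) (T.ts (nat_lit 0) (T.ls (nat_lit 2) (nat_lit 4)) (T.ts (nat_lit 2) (T.im (nat_lit 7) (nat_lit 2)) (T.nw (T.ls (nat_lit 2) (nat_lit 3))))))) (T.ts (nat_lit 0)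 (T.ts (nat_lit 1) (T.ls (nat_lit 3) (nat_lit 4)) (T.ts (nat_lit 0) (T.ls (nat_lit 2) (nat_lit 4)) (T.ts (nat_lit 3) (T.im (nat_lit 5) (nat_lit 3)) (T.ts (nat_lit 2) (T.im (nat_lit 7) (nat_lit 2)) (T.nw (T.ls (nat_lit 2) (nat_lit 3))))))) (T.ts (nat_lit 2) (T.im (nat_lit 7) (nat_lit 1)) (T.nw (T.ts (nat_lit 4) (T.ls (nat_lit 2) (nat_lit 3)) (T.ts (nat_lit 2) (T.ls (nat_lit 3) (nat_lit 4)) (T.ts (nat_lit 1) (T.ls (nat_lit 2) (nat_lit 4)) (T.ts (nat_lit 0) (T.ls (nat_lit 2) (nat_lit 3)) (T.ts (nat_lit 3) (T.im (nat_lit 7) (nat_lit 2)) T.ie)))))))))) d148)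
def d150 : T := (T.ts (nat_lit 1) (T.ts (nat_lit 3) (T.ts (nat_lit 3) (T.ls (nat_lit 2) (nat_lit 3)) (T.ts (nat_lit 2) (T.ls (nat_lit 3) (nat_lit 4)) (T.ts (nat_lit 1) (T.im (nat_lit 7) (nat_lit 2)) (T.ts (nat_lit 0) (T.im (nat_lit 3) (nat_lit 4)) (T.nw (T.ls (nat_lit 2) (nat_lit 3))))))) (T.ts (nat_lit 2) (T.ts (nat_lit 3) (T.ls (nat_lit 2) (nat_lit 3)) (T.ts (nat_lit 2) (T.ls (nat_lit 2) (nat_lit 3)) (T.ts (nat_lit 0) (T.ls (nat_lit 2) (nat_lit 4)) (T.ts (nat_lit 1) (T.im (nat_lit 7) (nat_lit 2)) (T.nw (T.ls (nat_lit 2) (nat_lit 3))))))) (T.ts (nat_lit 0) (T.ts (nat_lit 3) (T.ls (nat_lit 2) (nat_lit 4)) (T.ts (nat_lit 0) (T.ls (nat_lit 2) (nat_lit 4)) (T.ts (nat_lit 2) (T.im (nat_lit 5) (nat_lit 3)) (T.ts (nat_lit 1) (T.im (nat_lit 7) (nat_lit 2)) (T.nw (T.ls (nat_lit 2) (nat_lit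 3))))))) (T.ts (nat_lit 1) (T.im (nat_lit 7) (nat_lit 1)) (T.nw (T.ts (nat_lit 4) (T.ls (nat_lit 2) (nat_lit 3)) (T.ts (nat_lit 3) (T.ls (nat_lit 2) (nat_lit 3)) (T.ts (nat_lit 1) (T.ls (nat_lit 2) (nat_lit 4)) (T.ts (nat_lit 0) (T.ls (nat_lit 2) (nat_lit 3)) (T.ts (nat_lit 2) (T.im (nat_lit 7) (nat_lit 2)) T.ie)))))))))) (T.ts (nat_lit 0) (T.im (nat_lit 5) (nat_lit 2)) (T.nw (T.ts (nat_lit 4) (T.ts (nat_lit 4) (T.ls (nat_lit 2) (nat_lit 3)) (T.ts (nat_lit 3) (T.ls (nat_lit 2) (nat_lit 3)) (T.ts (nat_lit 2) (T.ls (nat_lit 3) (nat_lit 4)) (T.ts (nat_lit 1) (T.ls (nat_lit 2) (nat_lit 4)) (T.ts (nat_lit 0) (T.im (nat_lit 7) (nat_lit 2)) T.ie))))) (T.ts (nat_lit 3) (T.ts (nat_lit 4) (T.ls (nat_lit 2) (nat_lit 3)) (T.ts (nat_lit 3) (T.ls (nat_lit 2) (nat_lit 3)) (T.ts (nat_lit 2) (T.ls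 (nat_lit 3) (nat_lit 4)) (T.ts (nat_lit 1) (T.ls (nat_lit 2) (nat_lit 4)) (T.ts (nat_lit 0) (T.im (nat_lit 7) (nat_lit 2)) T.ie))))) (T.ts (nat_lit 2) (T.ts (nat_lit 4) (T.ls (nat_lit 3) (nat_lit 4)) (T.ts (nat_lit 3) (T.ls (nat_lit 2) (nat_lit 3)) (T.ts (nat_lit 2) (T.ls (nat_lit 3) (nat_lit 4)) (T.ts (nat_lit 1) (T.ls (nat_lit 2) (nat_lit 4)) (T.ts (nat_lit 0) (T.im (nat_lit 7) (nat_lit 2)) T.ie))))) (T.ts (nat_lit 1) (T.ts (nat_lit 4) (T.ls (nat_lit 2) (nat_lit 4)) (T.ts (nat_lit 2) (T.ls (nat_lit 3) (nat_lit 4)) (T.ts (nat_lit 1) (T.ls (nat_lit 2) (nat_lit 4)) (T.ts (nat_lit 3) (T.im (nat_lit 5) (nat_lit 3)) (T.ts (nat_lit 0) (T.im (nat_lit 7) (nat_lit 2)) T.ie))))) (T.ts (nat_lit 0) (T.im (nat_lit 7) (nat_lit 1)) T.ie))))))))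
def d151 : T := (T.ts (nat_lit 3) (T.ts (nat_lit 2) (T.ts (nat_lit 2) (T.ls (nat_lit 2) (nat_lit 3)) (T.ts (nat_lit 1) (T.ls (nat_lit 3) (nat_lit 4)) (T.ts (nat_lit 0) (T.ls (nat_lit 2) (nat_lit 4)) (T.ts (nat_lit 3) (T.im (nat_lit 7) (nat_lit 2)) (T.nw (T.ls (nat_lit 2) (nat_lit 3))))))) (T.ts (nat_lit 1) (T.ts (nat_lit 2) (T.ls (nat_lit 2) (nat_lit 3)) (T.ts (nat_lit 1) (T.ls (nat_lit 3) (nat_lit 4)) (T.ts (nat_lit 0) (T.ls (nat_lit 2) (nat_lit 4)) (T.ts (nat_lit 3) (T.im (nat_lit 1) (nat_lit 5)) (T.nw (T.ls (nat_lit 2) (nat_lit 3))))))) (T.ts (nat_lit 0) (T.ts (nat_lit 1) (T.ls (nat_lit 3) (nat_lit 4)) (T.ts (nat_lit 0) (T.ls (nat_lit 2) (nat_lit 4)) (T.ts (nat_lit 3) (T.im (nat_lit 7) (nat_lit 2)) (T.ts (nat_lit 2) (T.im (nat_lit 5) (nat_lit 3)) (T.nw (T.ls (nat_lit 2) (nat_lit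 3))))))) (T.ts (nat_lit 3) (T.im (nat_lit 7) (nat_lit 1)) (T.nw (T.ts (nat_lit 3) (T.ls (nat_lit 2) (nat_lit 3)) (T.ts (nat_lit 2) (T.ls (nat_lit 3) (nat_lit 4)) (T.ts (nat_lit 1) (T.ls (nat_lit 2) (nat_lit 4)) (T.ts (nat_lit 0) (T.ls (nat_lit 2) (nat_lit 3)) (T.ts (nat_lit 4) (T.im (nat_lit 7) (nat_lit 2)) T.ie)))))))))) (T.ts (nat_lit 2) (T.ts (nat_lit 3) (T.ts (nat_lit 3) (T.ls (nat_lit 2) (nat_lit 3)) (T.ts (nat_lit 1) (T.ls (nat_lit 3) (nat_lit 4)) (T.ts (nat_lit 0) (T.ls (nat_lit 2) (nat_lit 4)) (T.ts (nat_lit 2) (T.im (nat_lit 7) (nat_lit 2)) (T.nw (T.ls (nat_lit 2) (nat_lit 3))))))) (T.ts (nat_lit 1) (T.ts (nat_lit 3) (T.ls (nat_lit 3) (nat_lit 4)) (T.ts (nat_lit 1) (T.ls (nat_lit 3) (nat_lit 4)) (T.ts (nat_lit 0) (T.ls (nat_lit 2) (nat_lit 4)) (T.ts (nat_lit 2) (T.im (nat_lit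 7) (nat_lit 2)) (T.nw (T.ls (nat_lit 2) (nat_lit 3))))))) (T.ts (nat_lit 0) (T.ts (nat_lit 3) (T.ls (nat_lit 2) (nat_lit 4)) (T.ts (nat_lit 1) (T.ls (nat_lit 3) (nat_lit 4)) (T.ts (nat_lit 0) (T.ls (nat_lit 2) (nat_lit 4)) (T.ts (nat_lit 2) (T.im (nat_lit 5) (nat_lit 3)) (T.nw (T.ls (nat_lit 2) (nat_lit 3))))))) (T.ts (nat_lit 2) (T.im (nat_lit 7) (nat_lit 1)) (T.nw (T.ts (nat_lit 4) (T.ls (nat_lit 2) (nat_lit 3)) (T.ts (nat_lit 2) (T.ls (nat_lit 3) (nat_lit 4)) (T.ts (nat_lit 1) (T.ls (nat_lit 2) (nat_lit 4)) (T.ts (nat_lit 0) (T.ls (nat_lit 2) (nat_lit 3)) (T.ts (nat_lit 3) (T.im (nat_lit 7) (nat_lit 2)) T.ie)))))))))) d150))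
def d152 : T := (T.ts (nat_lit 1) (T.ts (nat_lit 3) (T.ts (nat_lit 3) (T.ls (nat_lit 2) (nat_lit 3)) (T.ts (nat_lit 2) (T.ls (nat_lit 3) (nat_lit 4)) (T.ts (nat_lit 1) (T.im (nat_lit 7) (nat_lit 2)) (T.ts (nat_lit 0) (T.im (nat_lit 3) (nat_lit 4)) (T.nw (T.ls (nat_lit 2) (nat_lit 3))))))) (T.ts (nat_lit 2) (T.ts (nat_lit 3) (T.ls (nat_lit 2) (nat_lit 3)) (T.ts (nat_lit 2) (T.ls (nat_lit 2) (nat_lit 3)) (T.ts (nat_lit 0) (T.ls (nat_lit 2) (nat_lit 4)) (T.ts (nat_lit 1) (T.im (nat_lit 7) (nat_lit 2)) (T.nw (T.ls (nat_lit 2) (nat_lit 3))))))) (T.ts (nat_lit 0) (T.ts (nat_lit 3) (T.ls (nat_lit 2) (nat_lit 4)) (T.ts (nat_lit 2) (T.ls (nat_lit 2) (nat_lit 3)) (T.ts (nat_lit 0) (T.ls (nat_lit 2) (nat_lit 4)) (T.ts (nat_lit 1) (T.im (nat_lit 5) (nat_lit 3)) (T.nw (T.ls (nat_lit 2) (nat_lit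 3))))))) (T.ts (nat_lit 1) (T.im (nat_lit 7) (nat_lit 1)) (T.nw (T.ts (nat_lit 4) (T.ls (nat_lit 2) (nat_lit 3)) (T.ts (nat_lit 3) (T.ls (nat_lit 2) (nat_lit 3)) (T.ts (nat_lit 1) (T.ls (nat_lit 2) (nat_lit 4)) (T.ts (nat_lit 0) (T.ls (nat_lit 2) (nat_lit 3)) (T.ts (nat_lit 2) (T.im (nat_lit 7) (nat_lit 2)) T.ie)))))))))) (T.ts (nat_lit 3) (T.im (nat_lit 3) (nat_lit 3)) (T.ts (nat_lit 0) (T.im (nat_lit 5) (nat_lit 2)) (T.nw (T.ts (nat_lit 4) (T.ts (nat_lit 4) (T.ls (nat_lit 2) (nat_lit 3)) (T.ts (nat_lit 3) (T.ls (nat_lit 2) (nat_lit 3)) (T.ts (nat_lit 2) (T.ls (nat_lit 3) (nat_lit 4)) (T.ts (nat_lit 1) (T.ls (nat_lit 2) (nat_lit 4)) (T.ts (nat_lit 0) (T.im (nat_lit 7) (nat_lit 2)) T.ie))))) (T.ts (nat_lit 3) (T.ts (nat_lit 4) (T.ls (nat_lit 2) (nat_lit 3)) (T.ts (nat_lit 3) (T.ls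 (nat_lit 2) (nat_lit 3)) (T.ts (nat_lit 2) (T.ls (nat_lit 3) (nat_lit 4)) (T.ts (nat_lit 1) (T.ls (nat_lit 2) (nat_lit 4)) (T.ts (nat_lit 0) (T.im (nat_lit 7) (nat_lit 2)) T.ie))))) (T.ts (nat_lit 2) (T.ts (nat_lit 4) (T.ls (nat_lit 3) (nat_lit 4)) (T.ts (nat_lit 3) (T.ls (nat_lit 2) (nat_lit 3)) (T.ts (nat_lit 2) (T.ls (nat_lit 3) (nat_lit 4)) (T.ts (nat_lit 1) (T.ls (nat_lit 2) (nat_lit 4)) (T.ts (nat_lit 0) (T.im (nat_lit 7) (nat_lit 2)) T.ie))))) (T.ts (nat_lit 1) (T.ts (nat_lit 4) (T.ls (nat_lit 2) (nat_lit 4)) (T.ts (nat_lit 3) (T.ls (nat_lit 2) (nat_lit 3)) (T.ts (nat_lit 1) (T.ls (nat_lit 2) (nat_lit 4)) (T.ts (nat_lit 2) (T.im (nat_lit 5) (nat_lit 3)) (T.ts (nat_lit 0) (T.im (nat_lit 7) (nat_lit 2)) T.ie))))) (T.ts (nat_lit 0) (T.im (nat_lit 7) (nat_lit 1)) T.ie)))))))))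
def d153 : T := (T.ts (nat_lit 2) (T.ts (nat_lit 4) (T.ts (nat_lit 4) (T.ls (nat_lit 2) (nat_lit 3)) (T.ts (nat_lit 3) (T.ls (nat_lit 3) (nat_lit 4)) (T.ts (nat_lit 0) (T.ls (nat_lit 2) (nat_lit 3)) (T.ts (nat_lit 2) (T.im (nat_lit 7) (nat_lit 2)) (T.ts (nat_lit 1) (T.im (nat_lit 3) (nat_lit 4)) T.ie))))) (T.ts (nat_lit 3) (T.ts (nat_lit 4) (T.ls (nat_lit 2) (nat_lit 3)) (T.ts (nat_lit 3) (T.ls (nat_lit 2) (nat_lit 3)) (T.ts (nat_lit 1) (T.ls (nat_lit 2) (nat_lit 4)) (T.ts (nat_lit 0) (T.ls (nat_lit 2) (nat_lit 3)) (T.ts (nat_lit 2) (T.im (nat_lit 7) (nat_lit 2)) T.ie))))) (T.ts (nat_lit 1) (T.ts (nat_lit 4) (T.ls (nat_lit 2) (nat_lit 4)) (T.ts (nat_lit 3) (T.ls (nat_lit 2) (nat_lit 3)) (T.ts (nat_lit 1) (T.ls (nat_lit 2) (nat_lit 4)) (T.ts (nat_lit 2) (T.im (nat_lit 7) (nat_lit 2))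 (T.ts (nat_lit 0) (T.im (nat_lit 5) (nat_lit 3)) T.ie))))) (T.ts (nat_lit 0) (T.ts (nat_lit 4) (T.ls (nat_lit 2) (nat_lit 3)) (T.ts (nat_lit 3) (T.ls (nat_lit 2) (nat_lit 3)) (T.ts (nat_lit 1) (T.ls (nat_lit 2) (nat_lit 4)) (T.ts (nat_lit 0) (T.ls (nat_lit 2) (nat_lit 3)) (T.ts (nat_lit 2) (T.im (nat_lit 7) (nat_lit 2)) T.ie))))) (T.ts (nat_lit 2) (T.im (nat_lit 7) (nat_lit 1)) T.ie))))) (T.ts (nat_lit 0) (T.ts (nat_lit 4) (T.ts (nat_lit 4) (T.ls (nat_lit 2) (nat_lit 3)) (T.ts (nat_lit 3) (T.ls (nat_lit 2) (nat_lit 3)) (T.ts (nat_lit 2) (T.ls (nat_lit 3) (nat_lit 4)) (T.ts (nat_lit 1) (T.ls (nat_lit 2) (nat_lit 4)) (T.ts (nat_lit 0) (T.im (nat_lit 7) (nat_lit 2)) T.ie))))) (T.ts (nat_lit 3) (T.ts (nat_lit 4) (T.ls (nat_lit 2) (nat_lit 3)) (T.ts (nat_lit 3) (T.ls (nat_lit 2) (nat_lit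 3)) (T.ts (nat_lit 2) (T.ls (nat_lit 3) (nat_lit 4)) (T.ts (nat_lit 1) (T.ls (nat_lit 2) (nat_lit 4)) (T.ts (nat_lit 0) (T.im (nat_lit 7) (nat_lit 2)) T.ie))))) (T.ts (nat_lit 2) (T.ts (nat_lit 4) (T.ls (nat_lit 3) (nat_lit 4)) (T.ts (nat_lit 3) (T.ls (nat_lit 2) (nat_lit 3)) (T.ts (nat_lit 2) (T.ls (nat_lit 3) (nat_lit 4)) (T.ts (nat_lit 1) (T.ls (nat_lit 2) (nat_lit 4)) (T.ts (nat_lit 0) (T.im (nat_lit 7) (nat_lit 2)) T.ie))))) (T.ts (nat_lit 1) (T.ts (nat_lit 4) (T.ls (nat_lit 2) (nat_lit 4)) (T.ts (nat_lit 3) (T.ls (nat_lit 2) (nat_lit 3)) (T.ts (nat_lit 2) (T.ls (nat_lit 3) (nat_lit 4)) (T.ts (nat_lit 1) (T.ls (nat_lit 2) (nat_lit 4)) (T.ts (nat_lit 0) (T.im (nat_lit 5) (nat_lit 3)) T.ie))))) (T.ts (nat_lit 0) (T.im (nat_lit 7) (nat_lit 1)) T.ie))))) (T.ts (nat_lit 1) (T.im (nat_lit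 5) (nat_lit 2)) T.ie)))
def d154 : T := (T.ts (nat_lit 4) (T.ts (nat_lit 3) (T.ts (nat_lit 3) (T.ls (nat_lit 2) (nat_lit 3)) (T.ts (nat_lit 2) (T.ls (nat_lit 3) (nat_lit 4)) (T.ts (nat_lit 1) (T.ls (nat_lit 2) (nat_lit 4)) (T.ts (nat_lit 0) (T.ls (nat_lit 2) (nat_lit 3)) (T.ts (nat_lit 4) (T.im (nat_lit 7) (nat_lit 2)) T.ie))))) (T.ts (nat_lit 2) (T.ts (nat_lit 3) (T.ls (nat_lit 2) (nat_lit 3)) (T.ts (nat_lit 2) (T.ls (nat_lit 3) (nat_lit 4)) (T.ts (nat_lit 1) (T.ls (nat_lit 2) (nat_lit 4)) (T.ts (nat_lit 0) (T.ls (nat_lit 2) (nat_lit 3)) (T.ts (nat_lit 4) (T.im (nat_lit 7) (nat_lit 2)) T.ie))))) (T.ts (nat_lit 1) (T.ts (nat_lit 3) (T.ls (nat_lit 2) (nat_lit 3)) (T.ts (nat_lit 2) (T.ls (nat_lit 3) (nat_lit 4)) (T.ts (nat_lit 1) (T.ls (nat_lit 2) (nat_lit 4)) (T.ts (nat_lit 4) (T.im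 (nat_lit 7) (nat_lit 2)) (T.ts (nat_lit 0) (T.im (nat_lit 5) (nat_lit 3)) T.ie))))) (T.ts (nat_lit 0) (T.ts (nat_lit 3) (T.ls (nat_lit 2) (nat_lit 3)) (T.ts (nat_lit 2) (T.ls (nat_lit 3) (nat_lit 4)) (T.ts (nat_lit 1) (T.ls (nat_lit 2) (nat_lit 4)) (T.ts (nat_lit 0) (T.ls (nat_lit 2) (nat_lit 3)) (T.ts (nat_lit 4) (T.im (nat_lit 7) (nat_lit 2)) T.ie))))) (T.ts (nat_lit 4) (T.im (nat_lit 7) (nat_lit 1)) T.ie))))) (T.ts (nat_lit 3) (T.ts (nat_lit 4) (T.ts (nat_lit 4) (T.ls (nat_lit 2) (nat_lit 3)) (T.ts (nat_lit 2) (T.ls (nat_lit 3) (nat_lit 4)) (T.ts (nat_lit 1) (T.ls (nat_lit 2) (nat_lit 4)) (T.ts (nat_lit 0) (T.ls (nat_lit 2) (nat_lit 3)) (T.ts (nat_lit 3) (T.im (nat_lit 7) (nat_lit 2)) T.ie))))) (T.ts (nat_lit 2) (T.ts (nat_lit 4) (T.ls (nat_lit 3) (nat_lit 4)) (T.ts (nat_lit 2)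 (T.ls (nat_lit 3) (nat_lit 4)) (T.ts (nat_lit 1) (T.ls (nat_lit 2) (nat_lit 4)) (T.ts (nat_lit 0) (T.ls (nat_lit 2) (nat_lit 3)) (T.ts (nat_lit 3) (T.im (nat_lit 7) (nat_lit 2)) T.ie))))) (T.ts (nat_lit 1) (T.ts (nat_lit 4) (T.ls (nat_lit 2) (nat_lit 4)) (T.ts (nat_lit 2) (T.ls (nat_lit 3) (nat_lit 4)) (T.ts (nat_lit 1) (T.ls (nat_lit 2) (nat_lit 4)) (T.ts (nat_lit 3) (T.im (nat_lit 7) (nat_lit 2)) (T.ts (nat_lit 0) (T.im (nat_lit 5) (nat_lit 3)) T.ie))))) (T.ts (nat_lit 0) (T.ts (nat_lit 4) (T.ls (nat_lit 2) (nat_lit 3)) (T.ts (nat_lit 2) (T.ls (nat_lit 3) (nat_lit 4)) (T.ts (nat_lit 1) (T.ls (nat_lit 2) (nat_lit 4)) (T.ts (nat_lit 0) (T.ls (nat_lit 2) (nat_lit 3)) (T.ts (nat_lit 3) (T.im (nat_lit 7) (nat_lit 2)) T.ie))))) (T.ts (nat_lit 3) (T.im (nat_lit 7) (nat_lit 1)) T.ie)))))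 d153))
def d155 : T := (T.ts (nat_lit 3) (T.ts (nat_lit 3) (T.ts (nat_lit 2) (T.ts (nat_lit 2) (T.ls (nat_lit 2) (nat_lit 3)) (T.ts (nat_lit 1) (T.ls (nat_lit 3) (nat_lit 4)) (T.ts (nat_lit 0) (T.ls (nat_lit 2) (nat_lit 4)) (T.ts (nat_lit 3) (T.im (nat_lit 7) (nat_lit 2)) (T.nw (T.ls (nat_lit 2) (nat_lit 3))))))) (T.ts (nat_lit 1) (T.ts (nat_lit 2) (T.ls (nat_lit 2) (nat_lit 3)) (T.ts (nat_lit 1) (T.ls (nat_lit 3) (nat_lit 4)) (T.ts (nat_lit 0) (T.ls (nat_lit 2) (nat_lit 4)) (T.ts (nat_lit 3) (T.im (nat_lit 7) (nat_lit 2)) (T.nw (T.ls (nat_lit 2) (nat_lit 3))))))) (T.ts (nat_lit 0) (T.ts (nat_lit 2) (T.ls (nat_lit 2) (nat_lit 3)) (T.ts (nat_lit 1) (T.ls (nat_lit 3) (nat_lit 4)) (T.ts (nat_lit 0) (T.ls (nat_lit 2) (nat_lit 4)) (T.ts (nat_lit 3) (T.im (nat_lit 5) (nat_lit 3)) (T.nw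 (T.ls (nat_lit 2) (nat_lit 3))))))) (T.ts (nat_lit 3) (T.im (nat_lit 7) (nat_lit 1)) (T.nw (T.ts (nat_lit 3) (T.ls (nat_lit 2) (nat_lit 3)) (T.ts (nat_lit 2) (T.ls (nat_lit 3) (nat_lit 4)) (T.ts (nat_lit 1) (T.ls (nat_lit 2) (nat_lit 4)) (T.ts (nat_lit 0) (T.ls (nat_lit 2) (nat_lit 3)) (T.ts (nat_lit 4) (T.im (nat_lit 7) (nat_lit 2)) T.ie)))))))))) d149) (T.ts (nat_lit 2) d151 (T.ts (nat_lit 1) (T.ts (nat_lit 2) (T.ts (nat_lit 3) (T.ts (nat_lit 3) (T.ls (nat_lit 2) (nat_lit 3)) (T.ts (nat_lit 1) (T.ls (nat_lit 3) (nat_lit 4)) (T.ts (nat_lit 0) (T.ls (nat_lit 2) (nat_lit 4)) (T.ts (nat_lit 2) (T.im (nat_lit 7) (nat_lit 2)) (T.nw (T.ls (nat_lit 2) (nat_lit 3))))))) (T.ts (nat_lit 1) (T.ts (nat_lit 3) (T.ls (nat_lit 3) (nat_lit 4)) (T.ts (nat_lit 1) (T.ls (nat_lit 3) (nat_lit 4)) (T.ts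 (nat_lit 0) (T.ls (nat_lit 2) (nat_lit 4)) (T.ts (nat_lit 2) (T.im (nat_lit 7) (nat_lit 2)) (T.nw (T.ls (nat_lit 2) (nat_lit 3))))))) (T.ts (nat_lit 0) (T.ts (nat_lit 3) (T.ls (nat_lit 2) (nat_lit 4)) (T.ts (nat_lit 0) (T.ls (nat_lit 2) (nat_lit 4)) (T.ts (nat_lit 2) (T.im (nat_lit 7) (nat_lit 2)) (T.ts (nat_lit 1) (T.im (nat_lit 5) (nat_lit 3)) (T.nw (T.ls (nat_lit 2) (nat_lit 3))))))) (T.ts (nat_lit 2) (T.im (nat_lit 7) (nat_lit 1)) (T.nw (T.ts (nat_lit 4) (T.ls (nat_lit 2) (nat_lit 3)) (T.ts (nat_lit 2) (T.ls (nat_lit 3) (nat_lit 4)) (T.ts (nat_lit 1) (T.ls (nat_lit 2) (nat_lit 4)) (T.ts (nat_lit 0) (T.ls (nat_lit 2) (nat_lit 3)) (T.ts (nat_lit 3) (T.im (nat_lit 7) (nat_lit 2)) T.ie)))))))))) d152) (T.ts (nat_lit 0) (T.im (nat_lit 5) (nat_lit 1)) (T.nw d154)))))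
def d156 : T := (T.tp (T.ts (nat_lit 0) (T.im (nat_lit 3) (nat_lit 2)) (T.nw d155)))
def d157 : T := (T.ts (nat_lit 2) (T.ts (nat_lit 1) (T.ts (nat_lit 1) (T.ls (nat_lit 2) (nat_lit 3)) (T.ts (nat_lit 0) (T.ls (nat_lit 3) (nat_lit 4)) (T.ts (nat_lit 2) (T.im (nat_lit 5) (nat_lit 3)) (T.nw (T.ls (nat_lit 2) (nat_lit 4)))))) (T.ts (nat_lit 0) (T.ts (nat_lit 1) (T.ls (nat_lit 2) (nat_lit 3)) (T.ts (nat_lit 0) (T.ls (nat_lit 3) (nat_lit 4)) (T.ts (nat_lit 2) (T.im (nat_lit 7) (nat_lit 2)) (T.nw (T.ls (nat_lit 2) (nat_lit 4)))))) (T.ts (nat_lit 2) (T.im (nat_lit 7) (nat_lit 1)) (T.nw (T.ts (nat_lit 2) (T.ls (nat_lit 2) (nat_lit 3)) (T.ts (nat_lit 1) (T.ls (nat_lit 3) (nat_lit 4)) (T.ts (nat_lit 0) (T.ls (nat_lit 2) (nat_lit 4)) (T.ts (nat_lit 3) (T.im (nat_lit 7) (nat_lit 2)) (T.nw (T.ls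 (nat_lit 2) (nat_lit 3))))))))))) (T.ts (nat_lit 1) (T.im (nat_lit 5) (nat_lit 2)) (T.ts (nat_lit 0) (T.im (nat_lit 1) (nat_lit 4)) (T.nw (T.ts (nat_lit 3) (T.ts (nat_lit 3) (T.ls (nat_lit 2) (nat_lit 3)) (T.ts (nat_lit 2) (T.ls (nat_lit 2) (nat_lit 4)) (T.ts (nat_lit 1) (T.ls (nat_lit 3) (nat_lit 4)) (T.ts (nat_lit 0) (T.im (nat_lit 7) (nat_lit 2)) (T.nw (T.ls (nat_lit 2) (nat_lit 3))))))) (T.ts (nat_lit 2) (T.ts (nat_lit 2) (T.ls (nat_lit 2) (nat_lit 3)) (T.ts (nat_lit 1) (T.ls (nat_lit 3) (nat_lit 4)) (T.ts (nat_lit 3) (T.im (nat_lit 5) (nat_lit 3)) (T.ts (nat_lit 0) (T.im (nat_lit 7) (nat_lit 2)) (T.nw (T.ls (nat_lit 2) (nat_lit 3))))))) (T.ts (nat_lit 1) (T.ts (nat_lit 3) (T.ls (nat_lit 3) (nat_lit 4)) (T.ts (nat_lit 2) (T.ls (nat_lit 2) (nat_lit 3)) (T.ts (nat_lit 1) (T.ls (nat_lit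 3) (nat_lit 4)) (T.ts (nat_lit 0) (T.im (nat_lit 7) (nat_lit 2)) (T.nw (T.ls (nat_lit 2) (nat_lit 3))))))) (T.ts (nat_lit 0) (T.im (nat_lit 7) (nat_lit 1)) (T.nw (T.ts (nat_lit 4) (T.ls (nat_lit 2) (nat_lit 3)) (T.ts (nat_lit 3) (T.ls (nat_lit 2) (nat_lit 3)) (T.ts (nat_lit 2) (T.ls (nat_lit 3) (nat_lit 4)) (T.ts (nat_lit 0) (T.ls (nat_lit 2) (nat_lit 3)) (T.ts (nat_lit 1) (T.im (nat_lit 7) (nat_lit 2)) T.ie))))))))))))))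
def d158 : T := (T.ts (nat_lit 0) (T.ts (nat_lit 2) (T.ts (nat_lit 2) (T.ls (nat_lit 2) (nat_lit 3)) (T.ts (nat_lit 1) (T.ls (nat_lit 3) (nat_lit 4)) (T.ts (nat_lit 0) (T.im (nat_lit 7) (nat_lit 2)) (T.nw (T.ls (nat_lit 2) (nat_lit 4)))))) (T.ts (nat_lit 1) (T.ts (nat_lit 2) (T.ls (nat_lit 2) (nat_lit 3)) (T.ts (nat_lit 1) (T.im (nat_lit 3) (nat_lit 4)) (T.ts (nat_lit 0) (T.im (nat_lit 5) (nat_lit 3)) (T.nw (T.ls (nat_lit 2) (nat_lit 4)))))) (T.ts (nat_lit 0) (T.im (nat_lit 7) (nat_lit 1)) (T.nw (T.ts (nat_lit 3) (T.ls (nat_lit 2) (nat_lit 4)) (T.ts (nat_lit 2) (T.ls (nat_lit 2) (nat_lit 3)) (T.ts (nat_lit 0) (T.ls (nat_lit 2) (nat_lit 4)) (T.ts (nat_lit 1) (T.im (nat_lit 7) (nat_lit 2)) (T.nw (T.ls (nat_lit 2) (nat_lit 3))))))))))) (T.ts (nat_lit 1) (T.im (nat_lit 3) (nat_lit 3))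 (T.nw (T.ts (nat_lit 3) (T.ts (nat_lit 3) (T.ls (nat_lit 2) (nat_lit 3)) (T.ts (nat_lit 2) (T.ls (nat_lit 2) (nat_lit 4)) (T.ts (nat_lit 1) (T.ls (nat_lit 3) (nat_lit 4)) (T.ts (nat_lit 0) (T.im (nat_lit 7) (nat_lit 2)) (T.nw (T.ls (nat_lit 2) (nat_lit 3))))))) (T.ts (nat_lit 2) (T.ts (nat_lit 3) (T.ls (nat_lit 2) (nat_lit 3)) (T.ts (nat_lit 2) (T.ls (nat_lit 2) (nat_lit 3)) (T.ts (nat_lit 1) (T.im (nat_lit 5) (nat_lit 3)) (T.ts (nat_lit 0) (T.im (nat_lit 7) (nat_lit 2)) (T.nw (T.ls (nat_lit 2) (nat_lit 3))))))) (T.ts (nat_lit 1) (T.ts (nat_lit 3) (T.ls (nat_lit 3) (nat_lit 4)) (T.ts (nat_lit 2) (T.ls (nat_lit 2) (nat_lit 3)) (T.ts (nat_lit 1) (T.ls (nat_lit 3) (nat_lit 4)) (T.ts (nat_lit 0) (T.im (nat_lit 7) (nat_lit 2)) (T.nw (T.ls (nat_lit 2) (nat_lit 3))))))) (T.ts (nat_lit 0)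 (T.im (nat_lit 7) (nat_lit 1)) (T.nw (T.ts (nat_lit 4) (T.ls (nat_lit 2) (nat_lit 3)) (T.ts (nat_lit 3) (T.ls (nat_lit 2) (nat_lit 3)) (T.ts (nat_lit 2) (T.ls (nat_lit 3) (nat_lit 4)) (T.ts (nat_lit 0) (T.ls (nat_lit 2) (nat_lit 3)) (T.ts (nat_lit 1) (T.im (nat_lit 7) (nat_lit 2)) T.ie)))))))))))))
def d159 : T := (T.ts (nat_lit 0) (T.ts (nat_lit 3) (T.ts (nat_lit 3) (T.ls (nat_lit 2) (nat_lit 3)) (T.ts (nat_lit 2) (T.ls (nat_lit 2) (nat_lit 4)) (T.ts (nat_lit 1) (T.ls (nat_lit 3) (nat_lit 4)) (T.ts (nat_lit 0) (T.im (nat_lit 7) (nat_lit 2)) (T.nw (T.ls (nat_lit 2) (nat_lit 3))))))) (T.ts (nat_lit 2) (T.ts (nat_lit 3) (T.ls (nat_lit 2) (nat_lit 3)) (T.ts (nat_lit 2) (T.ls (nat_lit 2) (nat_lit 3)) (T.ts (nat_lit 1) (T.ls (nat_lit 3) (nat_lit 4)) (T.ts (nat_lit 0) (T.im (nat_lit 5)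 (nat_lit 3)) (T.nw (T.ls (nat_lit 2) (nat_lit 3))))))) (T.ts (nat_lit 1) (T.ts (nat_lit 3) (T.ls (nat_lit 3) (nat_lit 4)) (T.ts (nat_lit 2) (T.ls (nat_lit 2) (nat_lit 3)) (T.ts (nat_lit 1) (T.ls (nat_lit 3) (nat_lit 4)) (T.ts (nat_lit 0) (T.im (nat_lit 7) (nat_lit 2)) (T.nw (T.ls (nat_lit 2) (nat_lit 3))))))) (T.ts (nat_lit 0) (T.im (nat_lit 7) (nat_lit 1)) (T.nw (T.ts (nat_lit 4) (T.ls (nat_lit 2) (nat_lit 3)) (T.ts (nat_lit 3) (T.ls (nat_lit 2) (nat_lit 3)) (T.ts (nat_lit 2) (T.ls (nat_lit 3) (nat_lit 4)) (T.ts (nat_lit 0) (T.ls (nat_lit 2) (nat_lit 3)) (T.ts (nat_lit 1) (T.im (nat_lit 7) (nat_lit 2)) T.ie)))))))))) (T.ts (nat_lit 2) (T.im (nat_lit 5) (nat_lit 2)) (T.nw (T.ts (nat_lit 4) (T.ts (nat_lit 4) (T.ls (nat_lit 2) (nat_lit 3)) (T.ts (nat_lit 3) (T.ls (nat_lit 2) (nat_lit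 3)) (T.ts (nat_lit 2) (T.ls (nat_lit 3) (nat_lit 4)) (T.ts (nat_lit 1) (T.ls (nat_lit 2) (nat_lit 4)) (T.ts (nat_lit 0) (T.im (nat_lit 7) (nat_lit 2)) T.ie))))) (T.ts (nat_lit 3) (T.ts (nat_lit 4) (T.ls (nat_lit 2) (nat_lit 3)) (T.ts (nat_lit 3) (T.ls (nat_lit 2) (nat_lit 3)) (T.ts (nat_lit 2) (T.ls (nat_lit 3) (nat_lit 4)) (T.ts (nat_lit 1) (T.im (nat_lit 5) (nat_lit 3)) (T.ts (nat_lit 0) (T.im (nat_lit 7) (nat_lit 2)) T.ie))))) (T.ts (nat_lit 2) (T.ts (nat_lit 4) (T.ls (nat_lit 3) (nat_lit 4)) (T.ts (nat_lit 3) (T.ls (nat_lit 2) (nat_lit 3)) (T.ts (nat_lit 2) (T.ls (nat_lit 3) (nat_lit 4)) (T.ts (nat_lit 1) (T.ls (nat_lit 2) (nat_lit 4)) (T.ts (nat_lit 0) (T.im (nat_lit 7) (nat_lit 2)) T.ie))))) (T.ts (nat_lit 1) (T.ts (nat_lit 4) (T.ls (nat_lit 2) (nat_lit 4)) (T.ts (nat_lit 3)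 (T.ls (nat_lit 2) (nat_lit 3)) (T.ts (nat_lit 2) (T.ls (nat_lit 3) (nat_lit 4)) (T.ts (nat_lit 1) (T.ls (nat_lit 2) (nat_lit 4)) (T.ts (nat_lit 0) (T.im (nat_lit 7) (nat_lit 2)) T.ie))))) (T.ts (nat_lit 0) (T.im (nat_lit 7) (nat_lit 1)) T.ie))))))))
def d160 : T := (T.ts (nat_lit 3) (T.ts (nat_lit 2) (T.ts (nat_lit 2) (T.ls (nat_lit 2) (nat_lit 3)) (T.ts (nat_lit 1) (T.ls (nat_lit 3) (nat_lit 4)) (T.ts (nat_lit 3) (T.im (nat_lit 7) (nat_lit 2)) (T.ts (nat_lit 0) (T.im (nat_lit 5) (nat_lit 3)) (T.nw (T.ls (nat_lit 2) (nat_lit 3))))))) (T.ts (nat_lit 1) (T.ts (nat_lit 2) (T.ls (nat_lit 2) (nat_lit 3)) (T.ts (nat_lit 1) (T.ls (nat_lit 3) (nat_lit 4)) (T.ts (nat_lit 0) (T.ls (nat_lit 2) (nat_lit 4)) (T.ts (nat_lit 3) (T.im (nat_lit 7) (nat_lit 2)) (T.nw (T.ls (nat_lit 2) (nat_lit 3)))))))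 (T.ts (nat_lit 0) (T.ts (nat_lit 2) (T.ls (nat_lit 2) (nat_lit 3)) (T.ts (nat_lit 1) (T.ls (nat_lit 3) (nat_lit 4)) (T.ts (nat_lit 0) (T.ls (nat_lit 2) (nat_lit 4)) (T.ts (nat_lit 3) (T.im (nat_lit 7) (nat_lit 2)) (T.nw (T.ls (nat_lit 2) (nat_lit 3))))))) (T.ts (nat_lit 3) (T.im (nat_lit 7) (nat_lit 1)) (T.nw (T.ts (nat_lit 3) (T.ls (nat_lit 2) (nat_lit 3)) (T.ts (nat_lit 2) (T.ls (nat_lit 3) (nat_lit 4)) (T.ts (nat_lit 1) (T.ls (nat_lit 2) (nat_lit 4)) (T.ts (nat_lit 0) (T.ls (nat_lit 2) (nat_lit 3)) (T.ts (nat_lit 4) (T.im (nat_lit 7) (nat_lit 2)) T.ie)))))))))) (T.ts (nat_lit 1) (T.ts (nat_lit 3) (T.ts (nat_lit 3) (T.ls (nat_lit 2) (nat_lit 3)) (T.ts (nat_lit 2) (T.ls (nat_lit 3) (nat_lit 4)) (T.ts (nat_lit 0) (T.ls (nat_lit 2) (nat_lit 4)) (T.ts (nat_lit 1) (T.im (nat_lit 7) (nat_lit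 2)) (T.nw (T.ls (nat_lit 2) (nat_lit 3))))))) (T.ts (nat_lit 2) (T.ts (nat_lit 3) (T.ls (nat_lit 2) (nat_lit 3)) (T.ts (nat_lit 2) (T.im (nat_lit 3) (nat_lit 4)) (T.ts (nat_lit 1) (T.im (nat_lit 7) (nat_lit 2)) (T.ts (nat_lit 0) (T.im (nat_lit 5) (nat_lit 3)) (T.nw (T.ls (nat_lit 2) (nat_lit 3))))))) (T.ts (nat_lit 0) (T.ts (nat_lit 3) (T.ls (nat_lit 2) (nat_lit 4)) (T.ts (nat_lit 2) (T.ls (nat_lit 2) (nat_lit 3)) (T.ts (nat_lit 0) (T.ls (nat_lit 2) (nat_lit 4)) (T.ts (nat_lit 1) (T.im (nat_lit 7) (nat_lit 2)) (T.nw (T.ls (nat_lit 2) (nat_lit 3))))))) (T.ts (nat_lit 1) (T.im (nat_lit 7) (nat_lit 1)) (T.nw (T.ts (nat_lit 4) (T.ls (nat_lit 2) (nat_lit 3)) (T.ts (nat_lit 3) (T.ls (nat_lit 2) (nat_lit 3)) (T.ts (nat_lit 1) (T.ls (nat_lit 2) (nat_lit 4)) (T.ts (nat_lit 0) (T.ls (nat_lit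 2) (nat_lit 3)) (T.ts (nat_lit 2) (T.im (nat_lit 7) (nat_lit 2)) T.ie)))))))))) d159))
def d161 : T := (T.tp (T.ts (nat_lit 2) d157 (T.ts (nat_lit 0) (T.ts (nat_lit 2) (T.ts (nat_lit 1) (T.ts (nat_lit 1) (T.ls (nat_lit 2) (nat_lit 3)) (T.ts (nat_lit 2) (T.im (nat_lit 7) (nat_lit 2)) (T.ts (nat_lit 0) (T.im (nat_lit 5) (nat_lit 3)) (T.nw (T.ls (nat_lit 2) (nat_lit 4)))))) (T.ts (nat_lit 0) (T.ts (nat_lit 1) (T.ls (nat_lit 2) (nat_lit 3)) (T.ts (nat_lit 0) (T.ls (nat_lit 3) (nat_lit 4)) (T.ts (nat_lit 2) (T.im (nat_lit 7) (nat_lit 2)) (T.nw (T.ls (nat_lit 2) (nat_lit 4)))))) (T.ts (nat_lit 2) (T.im (nat_lit 7) (nat_lit 1)) (T.nw (T.ts (nat_lit 2) (T.ls (nat_lit 2) (nat_lit 3)) (T.ts (nat_lit 1) (T.ls (nat_lit 3) (nat_lit 4)) (T.ts (nat_lit 0) (T.ls (nat_lit 2) (nat_lit 4)) (T.ts (nat_lit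 3) (T.im (nat_lit 7) (nat_lit 2)) (T.nw (T.ls (nat_lit 2) (nat_lit 3))))))))))) d158) (T.ts (nat_lit 1) (T.im (nat_lit 5) (nat_lit 1)) (T.nw d160)))))
def d162 : T := (T.ts (nat_lit 1) (T.ts (nat_lit 3) (T.ts (nat_lit 2) (T.ts (nat_lit 3) (T.ts (nat_lit 1) (T.ts (nat_lit 2) (T.ts (nat_lit 0) (T.ts (nat_lit 3) (T.ts (nat_lit 2) (T.lf (nat_lit 16569) (nat_lit 3) (nat_lit 12300) (nat_lit 4) (nat_lit 20500)) (T.tp (T.sk (T.ls (nat_lit 2) (nat_lit 4))))) (T.tp (T.sk (T.ls (nat_lit 2) (nat_lit 4))))) (T.tp (T.sk (T.ls (nat_lit 2) (nat_lit 4))))) (T.tp (T.sk (T.ls (nat_lit 2) (nat_lit 4))))) (T.tp (T.sk (T.ls (nat_lit 2) (nat_lit 4))))) (T.tp (T.sk (T.ls (nat_lit 2) (nat_lit 4))))) (T.tp (T.sk (T.ls (nat_lit 2) (nat_lit 4))))) (T.tp (T.sk (T.ls (nat_lit 2) (nat_lit 4))))) (T.ts (nat_lit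 0) (T.ls (nat_lit 2) (nat_lit 4)) (T.ts (nat_lit 2) (T.im (nat_lit 7) (nat_lit 2)) (T.nw (T.ts (nat_lit 4) (T.ts (nat_lit 3) (T.ts (nat_lit 4) (T.ts (nat_lit 2) (T.ts (nat_lit 3) (T.ts (nat_lit 1) (T.ts (nat_lit 4) (T.ts (nat_lit 3) (T.lf (nat_lit 16569) (nat_lit 2) (nat_lit 20500) (nat_lit 3) (nat_lit 12300)) (T.tp (T.sk (T.ls (nat_lit 2) (nat_lit 4))))) (T.tp (T.sk (T.ls (nat_lit 2) (nat_lit 4))))) (T.tp (T.sk (T.ls (nat_lit 2) (nat_lit 4))))) (T.tp (T.sk (T.ls (nat_lit 2) (nat_lit 4))))) (T.tp (T.sk (T.ls (nat_lit 2) (nat_lit 4))))) (T.tp (T.sk (T.ls (nat_lit 2) (nat_lit 4))))) (T.tp (T.sk (T.ls (nat_lit 2) (nat_lit 4))))) (T.tp (T.sk (T.ls (nat_lit 2) (nat_lit 4)))))))))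
def d163 : T := (T.ts (nat_lit 1) (T.ts (nat_lit 3) (T.ts (nat_lit 2) (T.ts (nat_lit 3) (T.ts (nat_lit 1) (T.ts (nat_lit 2) (T.ts (nat_lit 0) (T.ts (nat_lit 3) (T.ts (nat_lit 2) (T.lf (nat_lit 16569) (nat_lit 3) (nat_lit 12300) (nat_lit 4) (nat_lit 20500)) (T.tp (T.sk (T.ls (nat_lit 2) (nat_lit 4))))) (T.tp (T.sk (T.ls (nat_lit 2) (nat_lit 4))))) (T.tp (T.sk (T.ls (nat_lit 2) (nat_lit 4))))) (T.tp (T.sk (T.ls (nat_lit 2) (nat_lit 4))))) (T.tp (T.sk (T.ls (nat_lit 2) (nat_lit 4))))) (T.tp (T.sk (T.ls (nat_lit 2) (nat_lit 4))))) (T.tp (T.sk (T.ls (nat_lit 2) (nat_lit 4))))) (T.tp (T.sk (T.ls (nat_lit 2) (nat_lit 4))))) (T.ts (nat_lit 0) (T.ls (nat_lit 2) (nat_lit 4)) (T.ts (nat_lit 3) (T.im (nat_lit 5) (nat_lit 3)) (T.ts (nat_lit 2) (T.im (nat_lit 7) (nat_lit 2)) (T.nw (T.ts (nat_lit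 4) (T.ts (nat_lit 3) (T.ts (nat_lit 4) (T.ts (nat_lit 2) (T.ts (nat_lit 3) (T.ts (nat_lit 1) (T.ts (nat_lit 4) (T.ts (nat_lit 3) (T.lf (nat_lit 16569) (nat_lit 2) (nat_lit 20500) (nat_lit 3) (nat_lit 12300)) (T.tp (T.sk (T.ls (nat_lit 2) (nat_lit 4))))) (T.tp (T.sk (T.ls (nat_lit 2) (nat_lit 4))))) (T.tp (T.sk (T.ls (nat_lit 2) (nat_lit 4))))) (T.tp (T.sk (T.ls (nat_lit 2) (nat_lit 4))))) (T.tp (T.sk (T.ls (nat_lit 2) (nat_lit 4))))) (T.tp (T.sk (T.ls (nat_lit 2) (nat_lit 4))))) (T.tp (T.sk (T.ls (nat_lit 2) (nat_lit 4))))) (T.tp (T.sk (T.ls (nat_lit 2) (nat_lit 4))))))))))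
def d164 : T := (T.ts (nat_lit 2) (T.ts (nat_lit 4) (T.ts (nat_lit 3) (T.ts (nat_lit 4) (T.ts (nat_lit 2) (T.ts (nat_lit 3) (T.ts (nat_lit 1) (T.ts (nat_lit 4) (T.ts (nat_lit 3) (T.lf (nat_lit 16569) (nat_lit 3) (nat_lit 12300) (nat_lit 4) (nat_lit 20500)) (T.tp (T.sk (T.ls (nat_lit 2) (nat_lit 4))))) (T.tp (T.sk (T.ls (nat_lit 2) (nat_lit 4))))) (T.tp (T.sk (T.ls (nat_lit 2) (nat_lit 4))))) (T.tp (T.sk (T.ls (nat_lit 2) (nat_lit 4))))) (T.tp (T.sk (T.ls (nat_lit 2) (nat_lit 4))))) (T.tp (T.sk (T.ls (nat_lit 2) (nat_lit 4))))) (T.tp (T.sk (T.ls (nat_lit 2) (nat_lit 4))))) (T.tp (T.sk (T.ls (nat_lit 2) (nat_lit 4))))) (T.ts (nat_lit 1) (T.ls (nat_lit 2) (nat_lit 4)) (T.ts (nat_lit 0) (T.ts (nat_lit 4) (T.ts (nat_lit 3) (T.ts (nat_lit 4) (T.ts (nat_lit 2) (T.ts (nat_lit 3) (T.ts (nat_lit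 1) (T.ts (nat_lit 4) (T.ts (nat_lit 3) (T.lf (nat_lit 16569) (nat_lit 2) (nat_lit 20500) (nat_lit 3) (nat_lit 12300)) (T.tp (T.sk (T.ls (nat_lit 2) (nat_lit 4))))) (T.tp (T.sk (T.ls (nat_lit 2) (nat_lit 4))))) (T.tp (T.sk (T.ls (nat_lit 2) (nat_lit 4))))) (T.tp (T.sk (T.ls (nat_lit 2) (nat_lit 4))))) (T.tp (T.sk (T.ls (nat_lit 2) (nat_lit 4))))) (T.tp (T.sk (T.ls (nat_lit 2) (nat_lit 4))))) (T.tp (T.sk (T.ls (nat_lit 2) (nat_lit 4))))) (T.tp (T.sk (T.ls (nat_lit 2) (nat_lit 4))))) (T.tp (T.ts (nat_lit 3) (T.im (nat_lit 7) (nat_lit 2)) T.ie)))))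
def d165 : T := (T.ts (nat_lit 3) (T.ts (nat_lit 3) (T.ls (nat_lit 2) (nat_lit 4)) (T.ts (nat_lit 1) (T.tp (T.ts (nat_lit 3) (T.ts (nat_lit 2) (T.ts (nat_lit 3) (T.ts (nat_lit 1) (T.im (nat_lit 7) (nat_lit 4)) (T.sk (T.ls (nat_lit 2) (nat_lit 4)))) (T.sk (T.ls (nat_lit 2) (nat_lit 4)))) (T.sk (T.ls (nat_lit 2) (nat_lit 4)))) (T.ts (nat_lit 2) (T.ls (nat_lit 2) (nat_lit 4)) (T.sk (T.ls (nat_lit 2) (nat_lit 4)))))) (T.ts (nat_lit 0) (T.ls (nat_lit 2) (nat_lit 4)) (T.ts (nat_lit 2) (T.im (nat_lit 7) (nat_lit 2)) (T.nw (T.ts (nat_lit 4) (T.ts (nat_lit 3) (T.ts (nat_lit 4) (T.ts (nat_lit 2) (T.ts (nat_lit 3) (T.ts (nat_lit 1) (T.ts (nat_lit 4) (T.ts (nat_lit 3) (T.lf (nat_lit 16569) (nat_lit 2) (nat_lit 20500) (nat_lit 3) (nat_lit 12300)) (T.tp (T.sk (T.ls (nat_lit 2) (nat_lit 4))))) (T.tp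 (T.sk (T.ls (nat_lit 2) (nat_lit 4))))) (T.tp (T.sk (T.ls (nat_lit 2) (nat_lit 4))))) (T.tp (T.sk (T.ls (nat_lit 2) (nat_lit 4))))) (T.tp (T.sk (T.ls (nat_lit 2) (nat_lit 4))))) (T.tp (T.sk (T.ls (nat_lit 2) (nat_lit 4))))) (T.tp (T.sk (T.ls (nat_lit 2) (nat_lit 4))))) (T.tp (T.sk (T.ls (nat_lit 2) (nat_lit 4)))))))))) (T.ts (nat_lit 1) (T.ts (nat_lit 3) (T.tp (T.ts (nat_lit 2) (T.ts (nat_lit 3) (T.im (nat_lit 9) (nat_lit 2)) (T.sk (T.ls (nat_lit 2) (nat_lit 4)))) (T.sk (T.ls (nat_lit 2) (nat_lit 4))))) d162) (T.ts (nat_lit 0) d163 (T.ts (nat_lit 2) (T.im (nat_lit 7) (nat_lit 1)) (T.nw (T.ts (nat_lit 4) (T.tp (T.ts (nat_lit 3) (T.ts (nat_lit 4) (T.im (nat_lit 9) (nat_lit 2)) (T.sk (T.ls (nat_lit 2) (nat_lit 4)))) (T.sk (T.ls (nat_lit 2) (nat_lit 4))))) d164))))))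
def d166 : T := (T.ts (nat_lit 1) (T.ts (nat_lit 3) (T.ts (nat_lit 3) (T.ls (nat_lit 2) (nat_lit 3)) (T.ts (nat_lit 2) (T.ls (nat_lit 3) (nat_lit 4)) (T.ts (nat_lit 0) (T.ls (nat_lit 2) (nat_lit 4)) (T.ts (nat_lit 1) (T.im (nat_lit 7) (nat_lit 2)) (T.nw (T.ls (nat_lit 2) (nat_lit 3))))))) (T.ts (nat_lit 2) (T.ts (nat_lit 3) (T.ls (nat_lit 2) (nat_lit 3)) (T.ts (nat_lit 2) (T.ls (nat_lit 2) (nat_lit 3)) (T.ts (nat_lit 1) (T.im (nat_lit 7) (nat_lit 2)) (T.ts (nat_lit 0) (T.im (nat_lit 3) (nat_lit 4)) (T.nw (T.ls (nat_lit 2) (nat_lit 3))))))) (T.ts (nat_lit 0) (T.ts (nat_lit 2) (T.ls (nat_lit 2) (nat_lit 3)) (T.ts (nat_lit 0) (T.ls (nat_lit 2) (nat_lit 4)) (T.ts (nat_lit 3) (T.im (nat_lit 5) (nat_lit 3)) (T.ts (nat_lit 1) (T.im (nat_lit 7) (nat_lit 2)) (T.nw (T.ls (nat_lit 2) (nat_lit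 3))))))) (T.ts (nat_lit 1) (T.im (nat_lit 7) (nat_lit 1)) (T.nw (T.ts (nat_lit 4) (T.ls (nat_lit 2) (nat_lit 3)) (T.ts (nat_lit 3) (T.ls (nat_lit 2) (nat_lit 3)) (T.ts (nat_lit 1) (T.ls (nat_lit 2) (nat_lit 4)) (T.ts (nat_lit 0) (T.ls (nat_lit 2) (nat_lit 3)) (T.ts (nat_lit 2) (T.im (nat_lit 7) (nat_lit 2)) T.ie)))))))))) (T.ts (nat_lit 0) (T.im (nat_lit 5) (nat_lit 2)) (T.nw (T.ts (nat_lit 4) (T.ts (nat_lit 4) (T.ls (nat_lit 2) (nat_lit 3)) (T.ts (nat_lit 3) (T.ls (nat_lit 2) (nat_lit 3)) (T.ts (nat_lit 2) (T.ls (nat_lit 3) (nat_lit 4)) (T.ts (nat_lit 1) (T.ls (nat_lit 2) (nat_lit 4)) (T.ts (nat_lit 0) (T.im (nat_lit 7) (nat_lit 2)) T.ie))))) (T.ts (nat_lit 3) (T.ts (nat_lit 4) (T.ls (nat_lit 2) (nat_lit 3)) (T.ts (nat_lit 3) (T.ls (nat_lit 2) (nat_lit 3)) (T.ts (nat_lit 2) (T.ls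 (nat_lit 3) (nat_lit 4)) (T.ts (nat_lit 1) (T.ls (nat_lit 2) (nat_lit 4)) (T.ts (nat_lit 0) (T.im (nat_lit 7) (nat_lit 2)) T.ie))))) (T.ts (nat_lit 2) (T.ts (nat_lit 4) (T.ls (nat_lit 3) (nat_lit 4)) (T.ts (nat_lit 3) (T.ls (nat_lit 2) (nat_lit 3)) (T.ts (nat_lit 2) (T.ls (nat_lit 3) (nat_lit 4)) (T.ts (nat_lit 1) (T.ls (nat_lit 2) (nat_lit 4)) (T.ts (nat_lit 0) (T.im (nat_lit 7) (nat_lit 2)) T.ie))))) (T.ts (nat_lit 1) (T.ts (nat_lit 3) (T.ls (nat_lit 2) (nat_lit 3)) (T.ts (nat_lit 2) (T.ls (nat_lit 3) (nat_lit 4)) (T.ts (nat_lit 1) (T.ls (nat_lit 2) (nat_lit 4)) (T.ts (nat_lit 4) (T.im (nat_lit 5) (nat_lit 3)) (T.ts (nat_lit 0) (T.im (nat_lit 7) (nat_lit 2)) T.ie))))) (T.ts (nat_lit 0) (T.im (nat_lit 7) (nat_lit 1)) T.ie))))))))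
def d167 : T := (T.ts (nat_lit 1) (T.ts (nat_lit 3) (T.ts (nat_lit 3) (T.ls (nat_lit 2) (nat_lit 3)) (T.ts (nat_lit 2) (T.ls (nat_lit 3) (nat_lit 4)) (T.ts (nat_lit 0) (T.ls (nat_lit 2) (nat_lit 4)) (T.ts (nat_lit 1) (T.im (nat_lit 7) (nat_lit 2)) (T.nw (T.ls (nat_lit 2) (nat_lit 3))))))) (T.ts (nat_lit 2) (T.ts (nat_lit 3) (T.ls (nat_lit 2) (nat_lit 3)) (T.ts (nat_lit 2) (T.ls (nat_lit 2) (nat_lit 3)) (T.ts (nat_lit 1) (T.im (nat_lit 7) (nat_lit 2)) (T.ts (nat_lit 0) (T.im (nat_lit 3) (nat_lit 4)) (T.nw (T.ls (nat_lit 2) (nat_lit 3))))))) (T.ts (nat_lit 0) (T.ts (nat_lit 3) (T.ls (nat_lit 2) (nat_lit 4)) (T.ts (nat_lit 0) (T.ls (nat_lit 2) (nat_lit 4)) (T.ts (nat_lit 2) (T.im (nat_lit 5) (nat_lit 3)) (T.ts (nat_lit 1) (T.im (nat_lit 7) (nat_lit 2)) (T.nw (T.ls (nat_lit 2) (nat_lit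 3))))))) (T.ts (nat_lit 1) (T.im (nat_lit 7) (nat_lit 1)) (T.nw (T.ts (nat_lit 4) (T.ls (nat_lit 2) (nat_lit 3)) (T.ts (nat_lit 3) (T.ls (nat_lit 2) (nat_lit 3)) (T.ts (nat_lit 1) (T.ls (nat_lit 2) (nat_lit 4)) (T.ts (nat_lit 0) (T.ls (nat_lit 2) (nat_lit 3)) (T.ts (nat_lit 2) (T.im (nat_lit 7) (nat_lit 2)) T.ie)))))))))) (T.ts (nat_lit 0) (T.im (nat_lit 5) (nat_lit 2)) (T.nw (T.ts (nat_lit 4) (T.ts (nat_lit 4) (T.ls (nat_lit 2) (nat_lit 3)) (T.ts (nat_lit 3) (T.ls (nat_lit 2) (nat_lit 3)) (T.ts (nat_lit 2) (T.ls (nat_lit 3) (nat_lit 4)) (T.ts (nat_lit 1) (T.ls (nat_lit 2) (nat_lit 4)) (T.ts (nat_lit 0) (T.im (nat_lit 7) (nat_lit 2)) T.ie))))) (T.ts (nat_lit 3) (T.ts (nat_lit 4) (T.ls (nat_lit 2) (nat_lit 3)) (T.ts (nat_lit 3) (T.ls (nat_lit 2) (nat_lit 3)) (T.ts (nat_lit 2) (T.ls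 (nat_lit 3) (nat_lit 4)) (T.ts (nat_lit 1) (T.ls (nat_lit 2) (nat_lit 4)) (T.ts (nat_lit 0) (T.im (nat_lit 7) (nat_lit 2)) T.ie))))) (T.ts (nat_lit 2) (T.ts (nat_lit 4) (T.ls (nat_lit 3) (nat_lit 4)) (T.ts (nat_lit 3) (T.ls (nat_lit 2) (nat_lit 3)) (T.ts (nat_lit 2) (T.ls (nat_lit 3) (nat_lit 4)) (T.ts (nat_lit 1) (T.ls (nat_lit 2) (nat_lit 4)) (T.ts (nat_lit 0) (T.im (nat_lit 7) (nat_lit 2)) T.ie))))) (T.ts (nat_lit 1) (T.ts (nat_lit 4) (T.ls (nat_lit 2) (nat_lit 4)) (T.ts (nat_lit 2) (T.ls (nat_lit 3) (nat_lit 4)) (T.ts (nat_lit 1) (T.ls (nat_lit 2) (nat_lit 4)) (T.ts (nat_lit 3) (T.im (nat_lit 5) (nat_lit 3)) (T.ts (nat_lit 0) (T.im (nat_lit 7) (nat_lit 2)) T.ie))))) (T.ts (nat_lit 0) (T.im (nat_lit 7) (nat_lit 1)) T.ie))))))))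
def d168 : T := (T.ts (nat_lit 3) (T.ts (nat_lit 2) (T.ts (nat_lit 2) (T.ls (nat_lit 2) (nat_lit 3)) (T.ts (nat_lit 1) (T.ls (nat_lit 3) (nat_lit 4)) (T.ts (nat_lit 0) (T.ls (nat_lit 2) (nat_lit 4)) (T.ts (nat_lit 3) (T.im (nat_lit 7) (nat_lit 2)) (T.nw (T.ls (nat_lit 2) (nat_lit 3))))))) (T.ts (nat_lit 1) (T.ts (nat_lit 1) (T.ls (nat_lit 3) (nat_lit 4)) (T.ts (nat_lit 0) (T.ls (nat_lit 2) (nat_lit 4)) (T.ts (nat_lit 3) (T.im (nat_lit 7) (nat_lit 2)) (T.ts (nat_lit 2) (T.im (nat_lit 1) (nat_lit 5)) (T.nw (T.ls (nat_lit 2) (nat_lit 3))))))) (T.ts (nat_lit 0) (T.ts (nat_lit 1) (T.ls (nat_lit 3) (nat_lit 4)) (T.ts (nat_lit 0) (T.ls (nat_lit 2) (nat_lit 4)) (T.ts (nat_lit 3) (T.im (nat_lit 7) (nat_lit 2)) (T.ts (nat_lit 2) (T.im (nat_lit 5) (nat_lit 3)) (T.nw (T.ls (nat_lit 2) (nat_lit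 3))))))) (T.ts (nat_lit 3) (T.im (nat_lit 7) (nat_lit 1)) (T.nw (T.ts (nat_lit 3) (T.ls (nat_lit 2) (nat_lit 3)) (T.ts (nat_lit 2) (T.ls (nat_lit 3) (nat_lit 4)) (T.ts (nat_lit 1) (T.ls (nat_lit 2) (nat_lit 4)) (T.ts (nat_lit 0) (T.ls (nat_lit 2) (nat_lit 3)) (T.ts (nat_lit 4) (T.im (nat_lit 7) (nat_lit 2)) T.ie)))))))))) (T.ts (nat_lit 2) (T.ts (nat_lit 3) (T.ts (nat_lit 3) (T.ls (nat_lit 2) (nat_lit 3)) (T.ts (nat_lit 1) (T.ls (nat_lit 3) (nat_lit 4)) (T.ts (nat_lit 0) (T.ls (nat_lit 2) (nat_lit 4)) (T.ts (nat_lit 2) (T.im (nat_lit 7) (nat_lit 2)) (T.nw (T.ls (nat_lit 2) (nat_lit 3))))))) (T.ts (nat_lit 1) (T.ts (nat_lit 3) (T.ls (nat_lit 3) (nat_lit 4)) (T.ts (nat_lit 1) (T.ls (nat_lit 3) (nat_lit 4)) (T.ts (nat_lit 0) (T.ls (nat_lit 2) (nat_lit 4)) (T.ts (nat_lit 2) (T.im (nat_lit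 7) (nat_lit 2)) (T.nw (T.ls (nat_lit 2) (nat_lit 3))))))) (T.ts (nat_lit 0) (T.ts (nat_lit 3) (T.ls (nat_lit 2) (nat_lit 4)) (T.ts (nat_lit 1) (T.ls (nat_lit 3) (nat_lit 4)) (T.ts (nat_lit 0) (T.ls (nat_lit 2) (nat_lit 4)) (T.ts (nat_lit 2) (T.im (nat_lit 5) (nat_lit 3)) (T.nw (T.ls (nat_lit 2) (nat_lit 3))))))) (T.ts (nat_lit 2) (T.im (nat_lit 7) (nat_lit 1)) (T.nw (T.ts (nat_lit 4) (T.ls (nat_lit 2) (nat_lit 3)) (T.ts (nat_lit 2) (T.ls (nat_lit 3) (nat_lit 4)) (T.ts (nat_lit 1) (T.ls (nat_lit 2) (nat_lit 4)) (T.ts (nat_lit 0) (T.ls (nat_lit 2) (nat_lit 3)) (T.ts (nat_lit 3) (T.im (nat_lit 7) (nat_lit 2)) T.ie)))))))))) d167))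
def d169 : T := (T.ts (nat_lit 1) (T.ts (nat_lit 3) (T.ts (nat_lit 3) (T.ls (nat_lit 2) (nat_lit 3)) (T.ts (nat_lit 2) (T.ls (nat_lit 3) (nat_lit 4)) (T.ts (nat_lit 0) (T.ls (nat_lit 2) (nat_lit 4)) (T.ts (nat_lit 1) (T.im (nat_lit 7) (nat_lit 2)) (T.nw (T.ls (nat_lit 2) (nat_lit 3))))))) (T.ts (nat_lit 2) (T.ts (nat_lit 3) (T.ls (nat_lit 2) (nat_lit 3)) (T.ts (nat_lit 2) (T.ls (nat_lit 2) (nat_lit 3)) (T.ts (nat_lit 1) (T.im (nat_lit 7) (nat_lit 2)) (T.ts (nat_lit 0) (T.im (nat_lit 3) (nat_lit 4)) (T.nw (T.ls (nat_lit 2) (nat_lit 3))))))) (T.ts (nat_lit 0) (T.ts (nat_lit 3) (T.ls (nat_lit 2) (nat_lit 4)) (T.ts (nat_lit 2) (T.ls (nat_lit 2) (nat_lit 3)) (T.ts (nat_lit 0) (T.ls (nat_lit 2) (nat_lit 4)) (T.ts (nat_lit 1) (T.im (nat_lit 5) (nat_lit 3)) (T.nw (T.ls (nat_lit 2) (nat_lit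 3))))))) (T.ts (nat_lit 1) (T.im (nat_lit 7) (nat_lit 1)) (T.nw (T.ts (nat_lit 4) (T.ls (nat_lit 2) (nat_lit 3)) (T.ts (nat_lit 3) (T.ls (nat_lit 2) (nat_lit 3)) (T.ts (nat_lit 1) (T.ls (nat_lit 2) (nat_lit 4)) (T.ts (nat_lit 0) (T.ls (nat_lit 2) (nat_lit 3)) (T.ts (nat_lit 2) (T.im (nat_lit 7) (nat_lit 2)) T.ie)))))))))) (T.ts (nat_lit 2) (T.im (nat_lit 3) (nat_lit 3)) (T.ts (nat_lit 0) (T.im (nat_lit 5) (nat_lit 2)) (T.nw (T.ts (nat_lit 4) (T.ts (nat_lit 4) (T.ls (nat_lit 2) (nat_lit 3)) (T.ts (nat_lit 3) (T.ls (nat_lit 2) (nat_lit 3)) (T.ts (nat_lit 2) (T.ls (nat_lit 3) (nat_lit 4)) (T.ts (nat_lit 1) (T.ls (nat_lit 2) (nat_lit 4)) (T.ts (nat_lit 0) (T.im (nat_lit 7) (nat_lit 2)) T.ie))))) (T.ts (nat_lit 3) (T.ts (nat_lit 4) (T.ls (nat_lit 2) (nat_lit 3)) (T.ts (nat_lit 3) (T.ls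 (nat_lit 2) (nat_lit 3)) (T.ts (nat_lit 2) (T.ls (nat_lit 3) (nat_lit 4)) (T.ts (nat_lit 1) (T.ls (nat_lit 2) (nat_lit 4)) (T.ts (nat_lit 0) (T.im (nat_lit 7) (nat_lit 2)) T.ie))))) (T.ts (nat_lit 2) (T.ts (nat_lit 4) (T.ls (nat_lit 3) (nat_lit 4)) (T.ts (nat_lit 3) (T.ls (nat_lit 2) (nat_lit 3)) (T.ts (nat_lit 2) (T.ls (nat_lit 3) (nat_lit 4)) (T.ts (nat_lit 1) (T.ls (nat_lit 2) (nat_lit 4)) (T.ts (nat_lit 0) (T.im (nat_lit 7) (nat_lit 2)) T.ie))))) (T.ts (nat_lit 1) (T.ts (nat_lit 4) (T.ls (nat_lit 2) (nat_lit 4)) (T.ts (nat_lit 3) (T.ls (nat_lit 2) (nat_lit 3)) (T.ts (nat_lit 1) (T.ls (nat_lit 2) (nat_lit 4)) (T.ts (nat_lit 2) (T.im (nat_lit 5) (nat_lit 3)) (T.ts (nat_lit 0) (T.im (nat_lit 7) (nat_lit 2)) T.ie))))) (T.ts (nat_lit 0) (T.im (nat_lit 7) (nat_lit 1)) T.ie)))))))))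
def d170 : T := (T.ts (nat_lit 2) (T.ts (nat_lit 4) (T.ts (nat_lit 4) (T.ls (nat_lit 2) (nat_lit 3)) (T.ts (nat_lit 3) (T.ls (nat_lit 3) (nat_lit 4)) (T.ts (nat_lit 1) (T.ls (nat_lit 2) (nat_lit 4)) (T.ts (nat_lit 0) (T.ls (nat_lit 2) (nat_lit 3)) (T.ts (nat_lit 2) (T.im (nat_lit 7) (nat_lit 2)) T.ie))))) (T.ts (nat_lit 3) (T.ts (nat_lit 4) (T.ls (nat_lit 2) (nat_lit 3)) (T.ts (nat_lit 3) (T.ls (nat_lit 2) (nat_lit 3)) (T.ts (nat_lit 0) (T.ls (nat_lit 2) (nat_lit 3)) (T.ts (nat_lit 2) (T.im (nat_lit 7) (nat_lit 2)) (T.ts (nat_lit 1) (T.im (nat_lit 3) (nat_lit 4)) T.ie))))) (T.ts (nat_lit 1) (T.ts (nat_lit 4) (T.ls (nat_lit 2) (nat_lit 4)) (T.ts (nat_lit 3) (T.ls (nat_lit 2) (nat_lit 3)) (T.ts (nat_lit 1) (T.ls (nat_lit 2) (nat_lit 4)) (T.ts (nat_lit 2) (T.im (nat_lit 7) (nat_lit 2))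 (T.ts (nat_lit 0) (T.im (nat_lit 5) (nat_lit 3)) T.ie))))) (T.ts (nat_lit 0) (T.ts (nat_lit 4) (T.ls (nat_lit 2) (nat_lit 3)) (T.ts (nat_lit 3) (T.ls (nat_lit 2) (nat_lit 3)) (T.ts (nat_lit 1) (T.ls (nat_lit 2) (nat_lit 4)) (T.ts (nat_lit 0) (T.ls (nat_lit 2) (nat_lit 3)) (T.ts (nat_lit 2) (T.im (nat_lit 7) (nat_lit 2)) T.ie))))) (T.ts (nat_lit 2) (T.im (nat_lit 7) (nat_lit 1)) T.ie))))) (T.ts (nat_lit 0) (T.ts (nat_lit 4) (T.ts (nat_lit 4) (T.ls (nat_lit 2) (nat_lit 3)) (T.ts (nat_lit 3) (T.ls (nat_lit 2) (nat_lit 3)) (T.ts (nat_lit 2) (T.ls (nat_lit 3) (nat_lit 4)) (T.ts (nat_lit 1) (T.ls (nat_lit 2) (nat_lit 4)) (T.ts (nat_lit 0) (T.im (nat_lit 7) (nat_lit 2)) T.ie))))) (T.ts (nat_lit 3) (T.ts (nat_lit 4) (T.ls (nat_lit 2) (nat_lit 3)) (T.ts (nat_lit 3) (T.ls (nat_lit 2) (nat_lit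 3)) (T.ts (nat_lit 2) (T.ls (nat_lit 3) (nat_lit 4)) (T.ts (nat_lit 1) (T.ls (nat_lit 2) (nat_lit 4)) (T.ts (nat_lit 0) (T.im (nat_lit 7) (nat_lit 2)) T.ie))))) (T.ts (nat_lit 2) (T.ts (nat_lit 4) (T.ls (nat_lit 3) (nat_lit 4)) (T.ts (nat_lit 3) (T.ls (nat_lit 2) (nat_lit 3)) (T.ts (nat_lit 2) (T.ls (nat_lit 3) (nat_lit 4)) (T.ts (nat_lit 1) (T.ls (nat_lit 2) (nat_lit 4)) (T.ts (nat_lit 0) (T.im (nat_lit 7) (nat_lit 2)) T.ie))))) (T.ts (nat_lit 1) (T.ts (nat_lit 4) (T.ls (nat_lit 2) (nat_lit 4)) (T.ts (nat_lit 3) (T.ls (nat_lit 2) (nat_lit 3)) (T.ts (nat_lit 2) (T.ls (nat_lit 3) (nat_lit 4)) (T.ts (nat_lit 1) (T.ls (nat_lit 2) (nat_lit 4)) (T.ts (nat_lit 0) (T.im (nat_lit 5) (nat_lit 3)) T.ie))))) (T.ts (nat_lit 0) (T.im (nat_lit 7) (nat_lit 1)) T.ie))))) (T.ts (nat_lit 1) (T.im (nat_lit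 5) (nat_lit 2)) T.ie)))
def d171 : T := (T.ts (nat_lit 4) (T.ts (nat_lit 3) (T.ts (nat_lit 3) (T.ls (nat_lit 2) (nat_lit 3)) (T.ts (nat_lit 2) (T.ls (nat_lit 3) (nat_lit 4)) (T.ts (nat_lit 1) (T.ls (nat_lit 2) (nat_lit 4)) (T.ts (nat_lit 0) (T.ls (nat_lit 2) (nat_lit 3)) (T.ts (nat_lit 4) (T.im (nat_lit 7) (nat_lit 2)) T.ie))))) (T.ts (nat_lit 2) (T.ts (nat_lit 3) (T.ls (nat_lit 2) (nat_lit 3)) (T.ts (nat_lit 2) (T.ls (nat_lit 3) (nat_lit 4)) (T.ts (nat_lit 1) (T.ls (nat_lit 2) (nat_lit 4)) (T.ts (nat_lit 0) (T.ls (nat_lit 2) (nat_lit 3)) (T.ts (nat_lit 4) (T.im (nat_lit 7) (nat_lit 2)) T.ie))))) (T.ts (nat_lit 1) (T.ts (nat_lit 3) (T.ls (nat_lit 2) (nat_lit 3)) (T.ts (nat_lit 2) (T.ls (nat_lit 3) (nat_lit 4)) (T.ts (nat_lit 1) (T.ls (nat_lit 2) (nat_lit 4)) (T.ts (nat_lit 4) (T.im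 (nat_lit 7) (nat_lit 2)) (T.ts (nat_lit 0) (T.im (nat_lit 5) (nat_lit 3)) T.ie))))) (T.ts (nat_lit 0) (T.ts (nat_lit 3) (T.ls (nat_lit 2) (nat_lit 3)) (T.ts (nat_lit 2) (T.ls (nat_lit 3) (nat_lit 4)) (T.ts (nat_lit 1) (T.ls (nat_lit 2) (nat_lit 4)) (T.ts (nat_lit 0) (T.ls (nat_lit 2) (nat_lit 3)) (T.ts (nat_lit 4) (T.im (nat_lit 7) (nat_lit 2)) T.ie))))) (T.ts (nat_lit 4) (T.im (nat_lit 7) (nat_lit 1)) T.ie))))) (T.ts (nat_lit 3) (T.ts (nat_lit 4) (T.ts (nat_lit 4) (T.ls (nat_lit 2) (nat_lit 3)) (T.ts (nat_lit 2) (T.ls (nat_lit 3) (nat_lit 4)) (T.ts (nat_lit 1) (T.ls (nat_lit 2) (nat_lit 4)) (T.ts (nat_lit 0) (T.ls (nat_lit 2) (nat_lit 3)) (T.ts (nat_lit 3) (T.im (nat_lit 7) (nat_lit 2)) T.ie))))) (T.ts (nat_lit 2) (T.ts (nat_lit 4) (T.ls (nat_lit 3) (nat_lit 4)) (T.ts (nat_lit 2)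 (T.ls (nat_lit 3) (nat_lit 4)) (T.ts (nat_lit 1) (T.ls (nat_lit 2) (nat_lit 4)) (T.ts (nat_lit 0) (T.ls (nat_lit 2) (nat_lit 3)) (T.ts (nat_lit 3) (T.im (nat_lit 7) (nat_lit 2)) T.ie))))) (T.ts (nat_lit 1) (T.ts (nat_lit 4) (T.ls (nat_lit 2) (nat_lit 4)) (T.ts (nat_lit 2) (T.ls (nat_lit 3) (nat_lit 4)) (T.ts (nat_lit 1) (T.ls (nat_lit 2) (nat_lit 4)) (T.ts (nat_lit 3) (T.im (nat_lit 7) (nat_lit 2)) (T.ts (nat_lit 0) (T.im (nat_lit 5) (nat_lit 3)) T.ie))))) (T.ts (nat_lit 0) (T.ts (nat_lit 4) (T.ls (nat_lit 2) (nat_lit 3)) (T.ts (nat_lit 2) (T.ls (nat_lit 3) (nat_lit 4)) (T.ts (nat_lit 1) (T.ls (nat_lit 2) (nat_lit 4)) (T.ts (nat_lit 0) (T.ls (nat_lit 2) (nat_lit 3)) (T.ts (nat_lit 3) (T.im (nat_lit 7) (nat_lit 2)) T.ie))))) (T.ts (nat_lit 3) (T.im (nat_lit 7) (nat_lit 1)) T.ie)))))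 d170))
def d172 : T := (T.ts (nat_lit 3) (T.ts (nat_lit 3) (T.tp (T.ts (nat_lit 2) (T.ts (nat_lit 2) (T.ls (nat_lit 2) (nat_lit 3)) (T.ts (nat_lit 1) (T.ls (nat_lit 3) (nat_lit 4)) (T.ts (nat_lit 0) (T.ls (nat_lit 2) (nat_lit 4)) (T.ts (nat_lit 3) (T.im (nat_lit 7) (nat_lit 2)) (T.nw (T.ls (nat_lit 2) (nat_lit 3))))))) (T.ts (nat_lit 1) (T.ts (nat_lit 2) (T.ls (nat_lit 2) (nat_lit 3)) (T.ts (nat_lit 1) (T.ls (nat_lit 3) (nat_lit 4)) (T.ts (nat_lit 0) (T.ls (nat_lit 2) (nat_lit 4)) (T.ts (nat_lit 3) (T.im (nat_lit 7) (nat_lit 2)) (T.nw (T.ls (nat_lit 2) (nat_lit 3))))))) (T.ts (nat_lit 0) (T.ts (nat_lit 2) (T.ls (nat_lit 2) (nat_lit 3)) (T.ts (nat_lit 1) (T.ls (nat_lit 3) (nat_lit 4)) (T.ts (nat_lit 0) (T.ls (nat_lit 2) (nat_lit 4)) (T.ts (nat_lit 3) (T.im (nat_lit 5) (nat_lit 3))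 (T.nw (T.ls (nat_lit 2) (nat_lit 3))))))) (T.ts (nat_lit 3) (T.im (nat_lit 7) (nat_lit 1)) (T.nw (T.ts (nat_lit 3) (T.ls (nat_lit 2) (nat_lit 3)) (T.ts (nat_lit 2) (T.ls (nat_lit 3) (nat_lit 4)) (T.ts (nat_lit 1) (T.ls (nat_lit 2) (nat_lit 4)) (T.ts (nat_lit 0) (T.ls (nat_lit 2) (nat_lit 3)) (T.ts (nat_lit 4) (T.im (nat_lit 7) (nat_lit 2)) T.ie))))))))))) (T.ts (nat_lit 2) d165 (T.tp d166))) (T.tp (T.ts (nat_lit 2) d168 (T.ts (nat_lit 1) (T.ts (nat_lit 3) (T.ts (nat_lit 2) (T.ts (nat_lit 2) (T.ls (nat_lit 2) (nat_lit 3)) (T.ts (nat_lit 1) (T.ls (nat_lit 3) (nat_lit 4)) (T.ts (nat_lit 0) (T.ls (nat_lit 2) (nat_lit 4)) (T.ts (nat_lit 3) (T.im (nat_lit 7) (nat_lit 2)) (T.nw (T.ls (nat_lit 2) (nat_lit 3))))))) (T.ts (nat_lit 1) (T.ts (nat_lit 2) (T.ls (nat_lit 2) (nat_lit 3)) (T.ts (nat_lit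 1) (T.ls (nat_lit 3) (nat_lit 4)) (T.ts (nat_lit 0) (T.ls (nat_lit 2) (nat_lit 4)) (T.ts (nat_lit 3) (T.im (nat_lit 7) (nat_lit 2)) (T.nw (T.ls (nat_lit 2) (nat_lit 3))))))) (T.ts (nat_lit 0) (T.ts (nat_lit 2) (T.ls (nat_lit 2) (nat_lit 3)) (T.ts (nat_lit 0) (T.ls (nat_lit 2) (nat_lit 4)) (T.ts (nat_lit 3) (T.im (nat_lit 7) (nat_lit 2)) (T.ts (nat_lit 1) (T.im (nat_lit 5) (nat_lit 3)) (T.nw (T.ls (nat_lit 2) (nat_lit 3))))))) (T.ts (nat_lit 3) (T.im (nat_lit 7) (nat_lit 1)) (T.nw (T.ts (nat_lit 3) (T.ls (nat_lit 2) (nat_lit 3)) (T.ts (nat_lit 2) (T.ls (nat_lit 3) (nat_lit 4)) (T.ts (nat_lit 1) (T.ls (nat_lit 2) (nat_lit 4)) (T.ts (nat_lit 0) (T.ls (nat_lit 2) (nat_lit 3)) (T.ts (nat_lit 4) (T.im (nat_lit 7) (nat_lit 2)) T.ie)))))))))) d169) (T.ts (nat_lit 0) (T.im (nat_lit 5) (nat_lit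 1)) (T.nw d171))))))
def d173 : T := (T.ts (nat_lit 2) (T.im (nat_lit 1) (nat_lit 3)) (T.ts (nat_lit 0) (T.im (nat_lit 3) (nat_lit 2)) (T.nw d172)))
def d174 : T := (T.im (nat_lit 3) (nat_lit 1))
def d175 : T := (T.ts (nat_lit 0) (T.ts (nat_lit 3) (T.ts (nat_lit 3) (T.ls (nat_lit 2) (nat_lit 3)) (T.ts (nat_lit 1) (T.ls (nat_lit 3) (nat_lit 4)) (T.ts (nat_lit 2) (T.im (nat_lit 5) (nat_lit 3)) (T.ts (nat_lit 0) (T.im (nat_lit 7) (nat_lit 2)) (T.nw (T.ls (nat_lit 2) (nat_lit 3))))))) (T.ts (nat_lit 2) (T.ts (nat_lit 3) (T.ls (nat_lit 2) (nat_lit 3)) (T.ts (nat_lit 2) (T.ls (nat_lit 2) (nat_lit 3)) (T.ts (nat_lit 1) (T.ls (nat_lit 3) (nat_lit 4)) (T.ts (nat_lit 0) (T.im (nat_lit 7) (nat_lit 2)) (T.nw (T.ls (nat_lit 2) (nat_lit 3))))))) (T.ts (nat_lit 1) (T.ts (nat_lit 3) (T.ls (nat_lit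 3) (nat_lit 4)) (T.ts (nat_lit 2) (T.ls (nat_lit 2) (nat_lit 3)) (T.ts (nat_lit 1) (T.ls (nat_lit 3) (nat_lit 4)) (T.ts (nat_lit 0) (T.im (nat_lit 7) (nat_lit 2)) (T.nw (T.ls (nat_lit 2) (nat_lit 3))))))) (T.ts (nat_lit 0) (T.im (nat_lit 7) (nat_lit 1)) (T.nw (T.ts (nat_lit 4) (T.ls (nat_lit 2) (nat_lit 3)) (T.ts (nat_lit 3) (T.ls (nat_lit 2) (nat_lit 3)) (T.ts (nat_lit 2) (T.ls (nat_lit 3) (nat_lit 4)) (T.ts (nat_lit 0) (T.ls (nat_lit 2) (nat_lit 3)) (T.ts (nat_lit 1) (T.im (nat_lit 7) (nat_lit 2)) T.ie)))))))))) (T.ts (nat_lit 3) (T.im (nat_lit 5) (nat_lit 2)) (T.nw (T.ts (nat_lit 4) (T.ts (nat_lit 4) (T.ls (nat_lit 2) (nat_lit 3)) (T.ts (nat_lit 2) (T.ls (nat_lit 3) (nat_lit 4)) (T.ts (nat_lit 1) (T.ls (nat_lit 2) (nat_lit 4)) (T.ts (nat_lit 3) (T.im (nat_lit 5) (nat_lit 3)) (T.ts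 (nat_lit 0) (T.im (nat_lit 7) (nat_lit 2)) T.ie))))) (T.ts (nat_lit 3) (T.ts (nat_lit 4) (T.ls (nat_lit 2) (nat_lit 3)) (T.ts (nat_lit 3) (T.ls (nat_lit 2) (nat_lit 3)) (T.ts (nat_lit 2) (T.ls (nat_lit 3) (nat_lit 4)) (T.ts (nat_lit 1) (T.ls (nat_lit 2) (nat_lit 4)) (T.ts (nat_lit 0) (T.im (nat_lit 7) (nat_lit 2)) T.ie))))) (T.ts (nat_lit 2) (T.ts (nat_lit 4) (T.ls (nat_lit 3) (nat_lit 4)) (T.ts (nat_lit 3) (T.ls (nat_lit 2) (nat_lit 3)) (T.ts (nat_lit 2) (T.ls (nat_lit 3) (nat_lit 4)) (T.ts (nat_lit 1) (T.ls (nat_lit 2) (nat_lit 4)) (T.ts (nat_lit 0) (T.im (nat_lit 7) (nat_lit 2)) T.ie))))) (T.ts (nat_lit 1) (T.ts (nat_lit 4) (T.ls (nat_lit 2) (nat_lit 4)) (T.ts (nat_lit 3) (T.ls (nat_lit 2) (nat_lit 3)) (T.ts (nat_lit 2) (T.ls (nat_lit 3) (nat_lit 4)) (T.ts (nat_lit 1) (T.ls (nat_lit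 2) (nat_lit 4)) (T.ts (nat_lit 0) (T.im (nat_lit 7) (nat_lit 2)) T.ie))))) (T.ts (nat_lit 0) (T.im (nat_lit 7) (nat_lit 1)) T.ie))))))))
def d176 : T := (T.ts (nat_lit 2) (T.ts (nat_lit 3) (T.ts (nat_lit 3) (T.ls (nat_lit 2) (nat_lit 3)) (T.ts (nat_lit 1) (T.ls (nat_lit 3) (nat_lit 4)) (T.ts (nat_lit 0) (T.ls (nat_lit 2) (nat_lit 4)) (T.ts (nat_lit 2) (T.im (nat_lit 5) (nat_lit 3)) (T.nw (T.ls (nat_lit 2) (nat_lit 3))))))) (T.ts (nat_lit 1) (T.ts (nat_lit 3) (T.ls (nat_lit 3) (nat_lit 4)) (T.ts (nat_lit 1) (T.ls (nat_lit 3) (nat_lit 4)) (T.ts (nat_lit 0) (T.ls (nat_lit 2) (nat_lit 4)) (T.ts (nat_lit 2) (T.im (nat_lit 7) (nat_lit 2)) (T.nw (T.ls (nat_lit 2) (nat_lit 3))))))) (T.ts (nat_lit 0) (T.ts (nat_lit 3) (T.ls (nat_lit 2) (nat_lit 4)) (T.ts (nat_lit 1) (T.ls (nat_lit 3) (nat_lit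 4)) (T.ts (nat_lit 0) (T.ls (nat_lit 2) (nat_lit 4)) (T.ts (nat_lit 2) (T.im (nat_lit 7) (nat_lit 2)) (T.nw (T.ls (nat_lit 2) (nat_lit 3))))))) (T.ts (nat_lit 2) (T.im (nat_lit 7) (nat_lit 1)) (T.nw (T.ts (nat_lit 4) (T.ls (nat_lit 2) (nat_lit 3)) (T.ts (nat_lit 2) (T.ls (nat_lit 3) (nat_lit 4)) (T.ts (nat_lit 1) (T.ls (nat_lit 2) (nat_lit 4)) (T.ts (nat_lit 0) (T.ls (nat_lit 2) (nat_lit 3)) (T.ts (nat_lit 3) (T.im (nat_lit 7) (nat_lit 2)) T.ie)))))))))) (T.ts (nat_lit 1) (T.ts (nat_lit 3) (T.ts (nat_lit 3) (T.ls (nat_lit 2) (nat_lit 3)) (T.ts (nat_lit 0) (T.ls (nat_lit 2) (nat_lit 4)) (T.ts (nat_lit 2) (T.im (nat_lit 5) (nat_lit 3)) (T.ts (nat_lit 1) (T.im (nat_lit 7) (nat_lit 2)) (T.nw (T.ls (nat_lit 2) (nat_lit 3))))))) (T.ts (nat_lit 2) (T.ts (nat_lit 3) (T.ls (nat_lit 2) (nat_lit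 3)) (T.ts (nat_lit 2) (T.ls (nat_lit 2) (nat_lit 3)) (T.ts (nat_lit 0) (T.ls (nat_lit 2) (nat_lit 4)) (T.ts (nat_lit 1) (T.im (nat_lit 7) (nat_lit 2)) (T.nw (T.ls (nat_lit 2) (nat_lit 3))))))) (T.ts (nat_lit 0) (T.ts (nat_lit 2) (T.ls (nat_lit 2) (nat_lit 3)) (T.ts (nat_lit 0) (T.ls (nat_lit 2) (nat_lit 4)) (T.ts (nat_lit 3) (T.im (nat_lit 3) (nat_lit 4)) (T.ts (nat_lit 1) (T.im (nat_lit 7) (nat_lit 2)) (T.nw (T.ls (nat_lit 2) (nat_lit 3))))))) (T.ts (nat_lit 1) (T.im (nat_lit 7) (nat_lit 1)) (T.nw (T.ts (nat_lit 4) (T.ls (nat_lit 2) (nat_lit 3)) (T.ts (nat_lit 3) (T.ls (nat_lit 2) (nat_lit 3)) (T.ts (nat_lit 1) (T.ls (nat_lit 2) (nat_lit 4)) (T.ts (nat_lit 0) (T.ls (nat_lit 2) (nat_lit 3)) (T.ts (nat_lit 2) (T.im (nat_lit 7) (nat_lit 2)) T.ie)))))))))) d175))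
def d177 : T := (T.ts (nat_lit 1) (T.ts (nat_lit 3) (T.ts (nat_lit 3) (T.ls (nat_lit 2) (nat_lit 3)) (T.ts (nat_lit 2) (T.ls (nat_lit 3) (nat_lit 4)) (T.ts (nat_lit 0) (T.ls (nat_lit 2) (nat_lit 4)) (T.ts (nat_lit 1) (T.im (nat_lit 5) (nat_lit 3)) (T.nw (T.ls (nat_lit 2) (nat_lit 3))))))) (T.ts (nat_lit 2) (T.ts (nat_lit 3) (T.ls (nat_lit 2) (nat_lit 3)) (T.ts (nat_lit 2) (T.ls (nat_lit 2) (nat_lit 3)) (T.ts (nat_lit 0) (T.ls (nat_lit 2) (nat_lit 4)) (T.ts (nat_lit 1) (T.im (nat_lit 7) (nat_lit 2)) (T.nw (T.ls (nat_lit 2) (nat_lit 3))))))) (T.ts (nat_lit 0) (T.ts (nat_lit 2) (T.ls (nat_lit 2) (nat_lit 3)) (T.ts (nat_lit 0) (T.ls (nat_lit 2) (nat_lit 4)) (T.ts (nat_lit 3) (T.im (nat_lit 3) (nat_lit 4)) (T.ts (nat_lit 1) (T.im (nat_lit 7) (nat_lit 2)) (T.nw (T.ls (nat_lit 2) (nat_lit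 3))))))) (T.ts (nat_lit 1) (T.im (nat_lit 7) (nat_lit 1)) (T.nw (T.ts (nat_lit 4) (T.ls (nat_lit 2) (nat_lit 3)) (T.ts (nat_lit 3) (T.ls (nat_lit 2) (nat_lit 3)) (T.ts (nat_lit 1) (T.ls (nat_lit 2) (nat_lit 4)) (T.ts (nat_lit 0) (T.ls (nat_lit 2) (nat_lit 3)) (T.ts (nat_lit 2) (T.im (nat_lit 7) (nat_lit 2)) T.ie)))))))))) (T.ts (nat_lit 3) (T.im (nat_lit 5) (nat_lit 2)) (T.ts (nat_lit 0) (T.im (nat_lit 3) (nat_lit 3)) (T.nw (T.ts (nat_lit 4) (T.ts (nat_lit 4) (T.ls (nat_lit 2) (nat_lit 3)) (T.ts (nat_lit 3) (T.ls (nat_lit 2) (nat_lit 3)) (T.ts (nat_lit 1) (T.ls (nat_lit 2) (nat_lit 4)) (T.ts (nat_lit 2) (T.im (nat_lit 5) (nat_lit 3)) (T.ts (nat_lit 0) (T.im (nat_lit 7) (nat_lit 2)) T.ie))))) (T.ts (nat_lit 3) (T.ts (nat_lit 4) (T.ls (nat_lit 2) (nat_lit 3)) (T.ts (nat_lit 3) (T.ls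 (nat_lit 2) (nat_lit 3)) (T.ts (nat_lit 2) (T.ls (nat_lit 3) (nat_lit 4)) (T.ts (nat_lit 1) (T.ls (nat_lit 2) (nat_lit 4)) (T.ts (nat_lit 0) (T.im (nat_lit 7) (nat_lit 2)) T.ie))))) (T.ts (nat_lit 2) (T.ts (nat_lit 4) (T.ls (nat_lit 3) (nat_lit 4)) (T.ts (nat_lit 3) (T.ls (nat_lit 2) (nat_lit 3)) (T.ts (nat_lit 2) (T.ls (nat_lit 3) (nat_lit 4)) (T.ts (nat_lit 1) (T.ls (nat_lit 2) (nat_lit 4)) (T.ts (nat_lit 0) (T.im (nat_lit 7) (nat_lit 2)) T.ie))))) (T.ts (nat_lit 1) (T.ts (nat_lit 4) (T.ls (nat_lit 2) (nat_lit 4)) (T.ts (nat_lit 3) (T.ls (nat_lit 2) (nat_lit 3)) (T.ts (nat_lit 2) (T.ls (nat_lit 3) (nat_lit 4)) (T.ts (nat_lit 1) (T.ls (nat_lit 2) (nat_lit 4)) (T.ts (nat_lit 0) (T.im (nat_lit 7) (nat_lit 2)) T.ie))))) (T.ts (nat_lit 0) (T.im (nat_lit 7) (nat_lit 1)) T.ie)))))))))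
def d178 : T := (T.ts (nat_lit 0) (T.ts (nat_lit 3) (T.ts (nat_lit 3) (T.ls (nat_lit 2) (nat_lit 3)) (T.ts (nat_lit 2) (T.ls (nat_lit 2) (nat_lit 4)) (T.ts (nat_lit 1) (T.ls (nat_lit 3) (nat_lit 4)) (T.ts (nat_lit 0) (T.im (nat_lit 5) (nat_lit 3)) (T.nw (T.ls (nat_lit 2) (nat_lit 3))))))) (T.ts (nat_lit 2) (T.ts (nat_lit 3) (T.ls (nat_lit 2) (nat_lit 3)) (T.ts (nat_lit 2) (T.ls (nat_lit 2) (nat_lit 3)) (T.ts (nat_lit 1) (T.ls (nat_lit 3) (nat_lit 4)) (T.ts (nat_lit 0) (T.im (nat_lit 7) (nat_lit 2)) (T.nw (T.ls (nat_lit 2) (nat_lit 3))))))) (T.ts (nat_lit 1) (T.ts (nat_lit 3) (T.ls (nat_lit 3) (nat_lit 4)) (T.ts (nat_lit 2) (T.ls (nat_lit 2) (nat_lit 3)) (T.ts (nat_lit 1) (T.ls (nat_lit 3) (nat_lit 4)) (T.ts (nat_lit 0) (T.im (nat_lit 7) (nat_lit 2)) (T.nw (T.ls (nat_lit 2) (nat_lit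 3))))))) (T.ts (nat_lit 0) (T.im (nat_lit 7) (nat_lit 1)) (T.nw (T.ts (nat_lit 4) (T.ls (nat_lit 2) (nat_lit 3)) (T.ts (nat_lit 3) (T.ls (nat_lit 2) (nat_lit 3)) (T.ts (nat_lit 2) (T.ls (nat_lit 3) (nat_lit 4)) (T.ts (nat_lit 0) (T.ls (nat_lit 2) (nat_lit 3)) (T.ts (nat_lit 1) (T.im (nat_lit 7) (nat_lit 2)) T.ie)))))))))) (T.ts (nat_lit 3) (T.im (nat_lit 5) (nat_lit 2)) (T.nw (T.ts (nat_lit 4) (T.ts (nat_lit 4) (T.ls (nat_lit 2) (nat_lit 3)) (T.ts (nat_lit 3) (T.ls (nat_lit 2) (nat_lit 3)) (T.ts (nat_lit 2) (T.ls (nat_lit 3) (nat_lit 4)) (T.ts (nat_lit 1) (T.im (nat_lit 5) (nat_lit 3)) (T.ts (nat_lit 0) (T.im (nat_lit 7) (nat_lit 2)) T.ie))))) (T.ts (nat_lit 3) (T.ts (nat_lit 4) (T.ls (nat_lit 2) (nat_lit 3)) (T.ts (nat_lit 3) (T.ls (nat_lit 2) (nat_lit 3)) (T.ts (nat_lit 2) (T.ls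 (nat_lit 3) (nat_lit 4)) (T.ts (nat_lit 1) (T.ls (nat_lit 2) (nat_lit 4)) (T.ts (nat_lit 0) (T.im (nat_lit 7) (nat_lit 2)) T.ie))))) (T.ts (nat_lit 2) (T.ts (nat_lit 4) (T.ls (nat_lit 3) (nat_lit 4)) (T.ts (nat_lit 3) (T.ls (nat_lit 2) (nat_lit 3)) (T.ts (nat_lit 2) (T.ls (nat_lit 3) (nat_lit 4)) (T.ts (nat_lit 1) (T.ls (nat_lit 2) (nat_lit 4)) (T.ts (nat_lit 0) (T.im (nat_lit 7) (nat_lit 2)) T.ie))))) (T.ts (nat_lit 1) (T.ts (nat_lit 4) (T.ls (nat_lit 2) (nat_lit 4)) (T.ts (nat_lit 3) (T.ls (nat_lit 2) (nat_lit 3)) (T.ts (nat_lit 2) (T.ls (nat_lit 3) (nat_lit 4)) (T.ts (nat_lit 1) (T.ls (nat_lit 2) (nat_lit 4)) (T.ts (nat_lit 0) (T.im (nat_lit 7) (nat_lit 2)) T.ie))))) (T.ts (nat_lit 0) (T.im (nat_lit 7) (nat_lit 1)) T.ie))))))))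
def d179 : T := (T.ts (nat_lit 2) (T.ts (nat_lit 3) (T.ts (nat_lit 3) (T.ls (nat_lit 2) (nat_lit 3)) (T.ts (nat_lit 1) (T.ls (nat_lit 3) (nat_lit 4)) (T.ts (nat_lit 2) (T.im (nat_lit 7) (nat_lit 2)) (T.ts (nat_lit 0) (T.im (nat_lit 5) (nat_lit 3)) (T.nw (T.ls (nat_lit 2) (nat_lit 3))))))) (T.ts (nat_lit 1) (T.ts (nat_lit 3) (T.ls (nat_lit 3) (nat_lit 4)) (T.ts (nat_lit 1) (T.ls (nat_lit 3) (nat_lit 4)) (T.ts (nat_lit 0) (T.ls (nat_lit 2) (nat_lit 4)) (T.ts (nat_lit 2) (T.im (nat_lit 7) (nat_lit 2)) (T.nw (T.ls (nat_lit 2) (nat_lit 3))))))) (T.ts (nat_lit 0) (T.ts (nat_lit 3) (T.ls (nat_lit 2) (nat_lit 4)) (T.ts (nat_lit 1) (T.ls (nat_lit 3) (nat_lit 4)) (T.ts (nat_lit 0) (T.ls (nat_lit 2) (nat_lit 4)) (T.ts (nat_lit 2) (T.im (nat_lit 7) (nat_lit 2)) (T.nw (T.ls (nat_lit 2) (nat_lit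 3))))))) (T.ts (nat_lit 2) (T.im (nat_lit 7) (nat_lit 1)) (T.nw (T.ts (nat_lit 4) (T.ls (nat_lit 2) (nat_lit 3)) (T.ts (nat_lit 2) (T.ls (nat_lit 3) (nat_lit 4)) (T.ts (nat_lit 1) (T.ls (nat_lit 2) (nat_lit 4)) (T.ts (nat_lit 0) (T.ls (nat_lit 2) (nat_lit 3)) (T.ts (nat_lit 3) (T.im (nat_lit 7) (nat_lit 2)) T.ie)))))))))) (T.ts (nat_lit 1) (T.ts (nat_lit 3) (T.ts (nat_lit 3) (T.ls (nat_lit 2) (nat_lit 3)) (T.ts (nat_lit 2) (T.ls (nat_lit 3) (nat_lit 4)) (T.ts (nat_lit 1) (T.im (nat_lit 7) (nat_lit 2)) (T.ts (nat_lit 0) (T.im (nat_lit 5) (nat_lit 3)) (T.nw (T.ls (nat_lit 2) (nat_lit 3))))))) (T.ts (nat_lit 2) (T.ts (nat_lit 3) (T.ls (nat_lit 2) (nat_lit 3)) (T.ts (nat_lit 2) (T.ls (nat_lit 2) (nat_lit 3)) (T.ts (nat_lit 0) (T.ls (nat_lit 2) (nat_lit 4)) (T.ts (nat_lit 1) (T.im (nat_lit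 7) (nat_lit 2)) (T.nw (T.ls (nat_lit 2) (nat_lit 3))))))) (T.ts (nat_lit 0) (T.ts (nat_lit 2) (T.ls (nat_lit 2) (nat_lit 3)) (T.ts (nat_lit 0) (T.ls (nat_lit 2) (nat_lit 4)) (T.ts (nat_lit 3) (T.im (nat_lit 3) (nat_lit 4)) (T.ts (nat_lit 1) (T.im (nat_lit 7) (nat_lit 2)) (T.nw (T.ls (nat_lit 2) (nat_lit 3))))))) (T.ts (nat_lit 1) (T.im (nat_lit 7) (nat_lit 1)) (T.nw (T.ts (nat_lit 4) (T.ls (nat_lit 2) (nat_lit 3)) (T.ts (nat_lit 3) (T.ls (nat_lit 2) (nat_lit 3)) (T.ts (nat_lit 1) (T.ls (nat_lit 2) (nat_lit 4)) (T.ts (nat_lit 0) (T.ls (nat_lit 2) (nat_lit 3)) (T.ts (nat_lit 2) (T.im (nat_lit 7) (nat_lit 2)) T.ie)))))))))) d178))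
def d180 : T := (T.ts (nat_lit 1) (T.ts (nat_lit 4) (T.ts (nat_lit 4) (T.ls (nat_lit 2) (nat_lit 3)) (T.ts (nat_lit 3) (T.ls (nat_lit 2) (nat_lit 4)) (T.ts (nat_lit 2) (T.ls (nat_lit 3) (nat_lit 4)) (T.ts (nat_lit 1) (T.im (nat_lit 7) (nat_lit 2)) (T.ts (nat_lit 0) (T.im (nat_lit 5) (nat_lit 3)) T.ie))))) (T.ts (nat_lit 3) (T.ts (nat_lit 4) (T.ls (nat_lit 2) (nat_lit 3)) (T.ts (nat_lit 3) (T.ls (nat_lit 2) (nat_lit 3)) (T.ts (nat_lit 2) (T.ls (nat_lit 3) (nat_lit 4)) (T.ts (nat_lit 0) (T.ls (nat_lit 2) (nat_lit 3)) (T.ts (nat_lit 1) (T.im (nat_lit 7) (nat_lit 2)) T.ie))))) (T.ts (nat_lit 2) (T.ts (nat_lit 4) (T.ls (nat_lit 3) (nat_lit 4)) (T.ts (nat_lit 3) (T.ls (nat_lit 2) (nat_lit 3)) (T.ts (nat_lit 2) (T.ls (nat_lit 3) (nat_lit 4)) (T.ts (nat_lit 0) (T.ls (nat_lit 2) (nat_lit 3))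 (T.ts (nat_lit 1) (T.im (nat_lit 7) (nat_lit 2)) T.ie))))) (T.ts (nat_lit 0) (T.ts (nat_lit 4) (T.ls (nat_lit 2) (nat_lit 3)) (T.ts (nat_lit 3) (T.ls (nat_lit 2) (nat_lit 3)) (T.ts (nat_lit 2) (T.ls (nat_lit 3) (nat_lit 4)) (T.ts (nat_lit 0) (T.ls (nat_lit 2) (nat_lit 3)) (T.ts (nat_lit 1) (T.im (nat_lit 7) (nat_lit 2)) T.ie))))) (T.ts (nat_lit 1) (T.im (nat_lit 7) (nat_lit 1)) T.ie))))) (T.ts (nat_lit 0) (T.ts (nat_lit 4) (T.ts (nat_lit 4) (T.ls (nat_lit 2) (nat_lit 3)) (T.ts (nat_lit 3) (T.ls (nat_lit 2) (nat_lit 3)) (T.ts (nat_lit 2) (T.ls (nat_lit 3) (nat_lit 4)) (T.ts (nat_lit 1) (T.ls (nat_lit 2) (nat_lit 4)) (T.ts (nat_lit 0) (T.im (nat_lit 5) (nat_lit 3)) T.ie))))) (T.ts (nat_lit 3) (T.ts (nat_lit 4) (T.ls (nat_lit 2) (nat_lit 3)) (T.ts (nat_lit 3) (T.ls (nat_lit 2) (nat_lit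 3)) (T.ts (nat_lit 2) (T.ls (nat_lit 3) (nat_lit 4)) (T.ts (nat_lit 1) (T.ls (nat_lit 2) (nat_lit 4)) (T.ts (nat_lit 0) (T.im (nat_lit 7) (nat_lit 2)) T.ie))))) (T.ts (nat_lit 2) (T.ts (nat_lit 4) (T.ls (nat_lit 3) (nat_lit 4)) (T.ts (nat_lit 3) (T.ls (nat_lit 2) (nat_lit 3)) (T.ts (nat_lit 2) (T.ls (nat_lit 3) (nat_lit 4)) (T.ts (nat_lit 1) (T.ls (nat_lit 2) (nat_lit 4)) (T.ts (nat_lit 0) (T.im (nat_lit 7) (nat_lit 2)) T.ie))))) (T.ts (nat_lit 1) (T.ts (nat_lit 4) (T.ls (nat_lit 2) (nat_lit 4)) (T.ts (nat_lit 3) (T.ls (nat_lit 2) (nat_lit 3)) (T.ts (nat_lit 2) (T.ls (nat_lit 3) (nat_lit 4)) (T.ts (nat_lit 1) (T.ls (nat_lit 2) (nat_lit 4)) (T.ts (nat_lit 0) (T.im (nat_lit 7) (nat_lit 2)) T.ie))))) (T.ts (nat_lit 0) (T.im (nat_lit 7) (nat_lit 1)) T.ie))))) (T.ts (nat_lit 4) (T.im (nat_lit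 5) (nat_lit 2)) T.ie)))
def d181 : T := (T.ts (nat_lit 3) (T.ts (nat_lit 4) (T.ts (nat_lit 4) (T.ls (nat_lit 2) (nat_lit 3)) (T.ts (nat_lit 2) (T.ls (nat_lit 3) (nat_lit 4)) (T.ts (nat_lit 1) (T.ls (nat_lit 2) (nat_lit 4)) (T.ts (nat_lit 3) (T.im (nat_lit 7) (nat_lit 2)) (T.ts (nat_lit 0) (T.im (nat_lit 5) (nat_lit 3)) T.ie))))) (T.ts (nat_lit 2) (T.ts (nat_lit 4) (T.ls (nat_lit 3) (nat_lit 4)) (T.ts (nat_lit 2) (T.ls (nat_lit 3) (nat_lit 4)) (T.ts (nat_lit 1) (T.ls (nat_lit 2) (nat_lit 4)) (T.ts (nat_lit 0) (T.ls (nat_lit 2) (nat_lit 3)) (T.ts (nat_lit 3) (T.im (nat_lit 7) (nat_lit 2)) T.ie))))) (T.ts (nat_lit 1) (T.ts (nat_lit 4) (T.ls (nat_lit 2) (nat_lit 4)) (T.ts (nat_lit 2) (T.ls (nat_lit 3) (nat_lit 4)) (T.ts (nat_lit 1) (T.ls (nat_lit 2) (nat_lit 4)) (T.ts (nat_lit 0) (T.ls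 (nat_lit 2) (nat_lit 3)) (T.ts (nat_lit 3) (T.im (nat_lit 7) (nat_lit 2)) T.ie))))) (T.ts (nat_lit 0) (T.ts (nat_lit 4) (T.ls (nat_lit 2) (nat_lit 3)) (T.ts (nat_lit 2) (T.ls (nat_lit 3) (nat_lit 4)) (T.ts (nat_lit 1) (T.ls (nat_lit 2) (nat_lit 4)) (T.ts (nat_lit 0) (T.ls (nat_lit 2) (nat_lit 3)) (T.ts (nat_lit 3) (T.im (nat_lit 7) (nat_lit 2)) T.ie))))) (T.ts (nat_lit 3) (T.im (nat_lit 7) (nat_lit 1)) T.ie))))) (T.ts (nat_lit 2) (T.ts (nat_lit 4) (T.ts (nat_lit 4) (T.ls (nat_lit 2) (nat_lit 3)) (T.ts (nat_lit 3) (T.ls (nat_lit 3) (nat_lit 4)) (T.ts (nat_lit 1) (T.ls (nat_lit 2) (nat_lit 4)) (T.ts (nat_lit 2) (T.im (nat_lit 7) (nat_lit 2)) (T.ts (nat_lit 0) (T.im (nat_lit 5) (nat_lit 3)) T.ie))))) (T.ts (nat_lit 3) (T.ts (nat_lit 4) (T.ls (nat_lit 2) (nat_lit 3)) (T.ts (nat_lit 3)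 (T.ls (nat_lit 2) (nat_lit 3)) (T.ts (nat_lit 1) (T.ls (nat_lit 2) (nat_lit 4)) (T.ts (nat_lit 0) (T.ls (nat_lit 2) (nat_lit 3)) (T.ts (nat_lit 2) (T.im (nat_lit 7) (nat_lit 2)) T.ie))))) (T.ts (nat_lit 1) (T.ts (nat_lit 3) (T.ls (nat_lit 2) (nat_lit 3)) (T.ts (nat_lit 1) (T.ls (nat_lit 2) (nat_lit 4)) (T.ts (nat_lit 0) (T.ls (nat_lit 2) (nat_lit 3)) (T.ts (nat_lit 4) (T.im (nat_lit 3) (nat_lit 4)) (T.ts (nat_lit 2) (T.im (nat_lit 7) (nat_lit 2)) T.ie))))) (T.ts (nat_lit 0) (T.ts (nat_lit 4) (T.ls (nat_lit 2) (nat_lit 3)) (T.ts (nat_lit 3) (T.ls (nat_lit 2) (nat_lit 3)) (T.ts (nat_lit 1) (T.ls (nat_lit 2) (nat_lit 4)) (T.ts (nat_lit 0) (T.ls (nat_lit 2) (nat_lit 3)) (T.ts (nat_lit 2) (T.im (nat_lit 7) (nat_lit 2)) T.ie))))) (T.ts (nat_lit 2) (T.im (nat_lit 7) (nat_lit 1)) T.ie)))))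 d180))
def d182 : T := (T.tp (T.ts (nat_lit 2) d176 (T.ts (nat_lit 1) (T.ts (nat_lit 2) (T.ts (nat_lit 3) (T.ts (nat_lit 3) (T.ls (nat_lit 2) (nat_lit 3)) (T.ts (nat_lit 0) (T.ls (nat_lit 2) (nat_lit 4)) (T.ts (nat_lit 2) (T.im (nat_lit 7) (nat_lit 2)) (T.ts (nat_lit 1) (T.im (nat_lit 5) (nat_lit 3)) (T.nw (T.ls (nat_lit 2) (nat_lit 3))))))) (T.ts (nat_lit 1) (T.ts (nat_lit 3) (T.ls (nat_lit 3) (nat_lit 4)) (T.ts (nat_lit 1) (T.ls (nat_lit 3) (nat_lit 4)) (T.ts (nat_lit 0) (T.ls (nat_lit 2) (nat_lit 4)) (T.ts (nat_lit 2) (T.im (nat_lit 7) (nat_lit 2)) (T.nw (T.ls (nat_lit 2) (nat_lit 3))))))) (T.ts (nat_lit 0) (T.ts (nat_lit 3) (T.ls (nat_lit 2) (nat_lit 4)) (T.ts (nat_lit 1) (T.ls (nat_lit 3) (nat_lit 4)) (T.ts (nat_lit 0) (T.ls (nat_lit 2) (nat_lit 4)) (T.ts (nat_lit 2) (T.im (nat_lit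 7) (nat_lit 2)) (T.nw (T.ls (nat_lit 2) (nat_lit 3))))))) (T.ts (nat_lit 2) (T.im (nat_lit 7) (nat_lit 1)) (T.nw (T.ts (nat_lit 4) (T.ls (nat_lit 2) (nat_lit 3)) (T.ts (nat_lit 2) (T.ls (nat_lit 3) (nat_lit 4)) (T.ts (nat_lit 1) (T.ls (nat_lit 2) (nat_lit 4)) (T.ts (nat_lit 0) (T.ls (nat_lit 2) (nat_lit 3)) (T.ts (nat_lit 3) (T.im (nat_lit 7) (nat_lit 2)) T.ie)))))))))) d177) (T.ts (nat_lit 0) d179 (T.ts (nat_lit 3) (T.im (nat_lit 5) (nat_lit 1)) (T.nw d181))))))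
def d183 : T := (T.ts (nat_lit 0) (T.ts (nat_lit 3) (T.ts (nat_lit 3) (T.ls (nat_lit 2) (nat_lit 3)) (T.ts (nat_lit 2) (T.ls (nat_lit 2) (nat_lit 4)) (T.ts (nat_lit 1) (T.ls (nat_lit 3) (nat_lit 4)) (T.ts (nat_lit 0) (T.im (nat_lit 7) (nat_lit 2)) (T.nw (T.ls (nat_lit 2) (nat_lit 3))))))) (T.ts (nat_lit 2) (T.ts (nat_lit 2) (T.ls (nat_lit 2) (nat_lit 3)) (T.ts (nat_lit 1) (T.ls (nat_lit 3) (nat_lit 4)) (T.ts (nat_lit 3) (T.im (nat_lit 5) (nat_lit 3)) (T.ts (nat_lit 0) (T.im (nat_lit 7) (nat_lit 2)) (T.nw (T.ls (nat_lit 2) (nat_lit 3))))))) (T.ts (nat_lit 1) (T.ts (nat_lit 3) (T.ls (nat_lit 3) (nat_lit 4)) (T.ts (nat_lit 2) (T.ls (nat_lit 2) (nat_lit 3)) (T.ts (nat_lit 1) (T.ls (nat_lit 3) (nat_lit 4)) (T.ts (nat_lit 0) (T.im (nat_lit 7) (nat_lit 2)) (T.nw (T.ls (nat_lit 2) (nat_lit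 3))))))) (T.ts (nat_lit 0) (T.im (nat_lit 7) (nat_lit 1)) (T.nw (T.ts (nat_lit 4) (T.ls (nat_lit 2) (nat_lit 3)) (T.ts (nat_lit 3) (T.ls (nat_lit 2) (nat_lit 3)) (T.ts (nat_lit 2) (T.ls (nat_lit 3) (nat_lit 4)) (T.ts (nat_lit 0) (T.ls (nat_lit 2) (nat_lit 3)) (T.ts (nat_lit 1) (T.im (nat_lit 7) (nat_lit 2)) T.ie)))))))))) (T.ts (nat_lit 2) (T.im (nat_lit 5) (nat_lit 2)) (T.ts (nat_lit 1) (T.im (nat_lit 1) (nat_lit 4)) (T.nw (T.ts (nat_lit 4) (T.ts (nat_lit 4) (T.ls (nat_lit 2) (nat_lit 3)) (T.ts (nat_lit 3) (T.ls (nat_lit 2) (nat_lit 3)) (T.ts (nat_lit 2) (T.ls (nat_lit 3) (nat_lit 4)) (T.ts (nat_lit 1) (T.ls (nat_lit 2) (nat_lit 4)) (T.ts (nat_lit 0) (T.im (nat_lit 7) (nat_lit 2)) T.ie))))) (T.ts (nat_lit 3) (T.ts (nat_lit 3) (T.ls (nat_lit 2) (nat_lit 3)) (T.ts (nat_lit 2) (T.ls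 (nat_lit 3) (nat_lit 4)) (T.ts (nat_lit 1) (T.ls (nat_lit 2) (nat_lit 4)) (T.ts (nat_lit 4) (T.im (nat_lit 5) (nat_lit 3)) (T.ts (nat_lit 0) (T.im (nat_lit 7) (nat_lit 2)) T.ie))))) (T.ts (nat_lit 2) (T.ts (nat_lit 4) (T.ls (nat_lit 3) (nat_lit 4)) (T.ts (nat_lit 3) (T.ls (nat_lit 2) (nat_lit 3)) (T.ts (nat_lit 2) (T.ls (nat_lit 3) (nat_lit 4)) (T.ts (nat_lit 1) (T.ls (nat_lit 2) (nat_lit 4)) (T.ts (nat_lit 0) (T.im (nat_lit 7) (nat_lit 2)) T.ie))))) (T.ts (nat_lit 1) (T.ts (nat_lit 4) (T.ls (nat_lit 2) (nat_lit 4)) (T.ts (nat_lit 3) (T.ls (nat_lit 2) (nat_lit 3)) (T.ts (nat_lit 2) (T.ls (nat_lit 3) (nat_lit 4)) (T.ts (nat_lit 1) (T.ls (nat_lit 2) (nat_lit 4)) (T.ts (nat_lit 0) (T.im (nat_lit 7) (nat_lit 2)) T.ie))))) (T.ts (nat_lit 0) (T.im (nat_lit 7) (nat_lit 1)) T.ie)))))))))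
def d184 : T := (T.ts (nat_lit 0) (T.ts (nat_lit 3) (T.ts (nat_lit 2) (T.ts (nat_lit 3) (T.ts (nat_lit 1) (T.ts (nat_lit 0) (T.ts (nat_lit 2) (T.ts (nat_lit 1) (T.ts (nat_lit 3) (T.lf (nat_lit 19131) (nat_lit 2) (nat_lit 16569) (nat_lit 4) (nat_lit 20500)) (T.tp (T.sk (T.ls (nat_lit 3) (nat_lit 4))))) (T.tp (T.sk (T.ls (nat_lit 3) (nat_lit 4))))) (T.tp (T.sk (T.ls (nat_lit 3) (nat_lit 4))))) (T.tp (T.sk (T.ls (nat_lit 3) (nat_lit 4))))) (T.tp (T.sk (T.ls (nat_lit 3) (nat_lit 4))))) (T.tp (T.sk (T.ls (nat_lit 3) (nat_lit 4))))) (T.tp (T.sk (T.ls (nat_lit 3) (nat_lit 4))))) (T.tp (T.sk (T.ls (nat_lit 3) (nat_lit 4))))) (T.ts (nat_lit 3) (T.im (nat_lit 7) (nat_lit 2)) (T.nw (T.ts (nat_lit 4) (T.ts (nat_lit 3) (T.ts (nat_lit 4) (T.ts (nat_lit 2) (T.ts (nat_lit 1) (T.ts (nat_lit 3) (T.ts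 (nat_lit 2) (T.ts (nat_lit 4) (T.lf (nat_lit 19131) (nat_lit 2) (nat_lit 16569) (nat_lit 3) (nat_lit 20500)) (T.tp (T.sk (T.ls (nat_lit 3) (nat_lit 4))))) (T.tp (T.sk (T.ls (nat_lit 3) (nat_lit 4))))) (T.tp (T.sk (T.ls (nat_lit 3) (nat_lit 4))))) (T.tp (T.sk (T.ls (nat_lit 3) (nat_lit 4))))) (T.tp (T.sk (T.ls (nat_lit 3) (nat_lit 4))))) (T.tp (T.sk (T.ls (nat_lit 3) (nat_lit 4))))) (T.tp (T.sk (T.ls (nat_lit 3) (nat_lit 4))))) (T.tp (T.sk (T.ls (nat_lit 3) (nat_lit 4))))))))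
def d185 : T := (T.ts (nat_lit 0) (T.ts (nat_lit 3) (T.ts (nat_lit 2) (T.ts (nat_lit 3) (T.ts (nat_lit 1) (T.ts (nat_lit 0) (T.ts (nat_lit 2) (T.ts (nat_lit 1) (T.ts (nat_lit 3) (T.lf (nat_lit 19131) (nat_lit 2) (nat_lit 16569) (nat_lit 4) (nat_lit 20500)) (T.tp (T.sk (T.ls (nat_lit 3) (nat_lit 4))))) (T.tp (T.sk (T.ls (nat_lit 3) (nat_lit 4))))) (T.tp (T.sk (T.ls (nat_lit 3) (nat_lit 4))))) (T.tp (T.sk (T.ls (nat_lit 3) (nat_lit 4))))) (T.tp (T.sk (T.ls (nat_lit 3) (nat_lit 4))))) (T.tp (T.sk (T.ls (nat_lit 3) (nat_lit 4))))) (T.tp (T.sk (T.ls (nat_lit 3) (nat_lit 4))))) (T.tp (T.sk (T.ls (nat_lit 3) (nat_lit 4))))) (T.ts (nat_lit 3) (T.im (nat_lit 7) (nat_lit 2)) (T.nw (T.ts (nat_lit 4) (T.ts (nat_lit 3) (T.ts (nat_lit 4) (T.ts (nat_lit 2) (T.ts (nat_lit 1) (T.ts (nat_lit 3) (T.ts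 (nat_lit 2) (T.ts (nat_lit 4) (T.lf (nat_lit 19131) (nat_lit 2) (nat_lit 16569) (nat_lit 3) (nat_lit 20500)) (T.tp (T.sk (T.ls (nat_lit 3) (nat_lit 4))))) (T.tp (T.sk (T.ls (nat_lit 3) (nat_lit 4))))) (T.tp (T.sk (T.ls (nat_lit 3) (nat_lit 4))))) (T.tp (T.sk (T.ls (nat_lit 3) (nat_lit 4))))) (T.tp (T.sk (T.ls (nat_lit 3) (nat_lit 4))))) (T.tp (T.sk (T.ls (nat_lit 3) (nat_lit 4))))) (T.tp (T.sk (T.ls (nat_lit 3) (nat_lit 4))))) (T.tp (T.sk (T.ls (nat_lit 3) (nat_lit 4))))))))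
def d186 : T := (T.ts (nat_lit 1) (T.ts (nat_lit 4) (T.ts (nat_lit 3) (T.ts (nat_lit 4) (T.ts (nat_lit 2) (T.ts (nat_lit 1) (T.ts (nat_lit 3) (T.ts (nat_lit 2) (T.ts (nat_lit 4) (T.lf (nat_lit 19131) (nat_lit 2) (nat_lit 16569) (nat_lit 4) (nat_lit 20500)) (T.tp (T.sk (T.ls (nat_lit 3) (nat_lit 4))))) (T.tp (T.sk (T.ls (nat_lit 3) (nat_lit 4))))) (T.tp (T.sk (T.ls (nat_lit 3) (nat_lit 4))))) (T.tp (T.sk (T.ls (nat_lit 3) (nat_lit 4))))) (T.tp (T.sk (T.ls (nat_lit 3) (nat_lit 4))))) (T.tp (T.sk (T.ls (nat_lit 3) (nat_lit 4))))) (T.tp (T.sk (T.ls (nat_lit 3) (nat_lit 4))))) (T.tp (T.sk (T.ls (nat_lit 3) (nat_lit 4))))) (T.ts (nat_lit 0) (T.ts (nat_lit 4) (T.ts (nat_lit 3) (T.ts (nat_lit 4) (T.ts (nat_lit 2) (T.ts (nat_lit 1) (T.ts (nat_lit 3) (T.ts (nat_lit 2) (T.ts (nat_lit 4) (T.lf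 (nat_lit 19131) (nat_lit 2) (nat_lit 16569) (nat_lit 3) (nat_lit 20500)) (T.tp (T.sk (T.ls (nat_lit 3) (nat_lit 4))))) (T.tp (T.sk (T.ls (nat_lit 3) (nat_lit 4))))) (T.tp (T.sk (T.ls (nat_lit 3) (nat_lit 4))))) (T.tp (T.sk (T.ls (nat_lit 3) (nat_lit 4))))) (T.tp (T.sk (T.ls (nat_lit 3) (nat_lit 4))))) (T.tp (T.sk (T.ls (nat_lit 3) (nat_lit 4))))) (T.tp (T.sk (T.ls (nat_lit 3) (nat_lit 4))))) (T.tp (T.sk (T.ls (nat_lit 3) (nat_lit 4))))) (T.tp (T.ts (nat_lit 4) (T.im (nat_lit 7) (nat_lit 2)) T.ie))))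
def d187 : T := (T.ts (nat_lit 1) (T.ts (nat_lit 3) (T.ts (nat_lit 3) (T.ls (nat_lit 2) (nat_lit 3)) (T.ts (nat_lit 2) (T.ls (nat_lit 3) (nat_lit 4)) (T.ts (nat_lit 0) (T.ls (nat_lit 2) (nat_lit 4)) (T.ts (nat_lit 1) (T.im (nat_lit 7) (nat_lit 2)) (T.nw (T.ls (nat_lit 2) (nat_lit 3))))))) (T.ts (nat_lit 2) (T.ts (nat_lit 3) (T.ls (nat_lit 2) (nat_lit 3)) (T.ts (nat_lit 2) (T.ls (nat_lit 2) (nat_lit 3)) (T.ts (nat_lit 0) (T.ls (nat_lit 2) (nat_lit 4)) (T.ts (nat_lit 1) (T.im (nat_lit 5) (nat_lit 3)) (T.nw (T.ls (nat_lit 2) (nat_lit 3))))))) (T.ts (nat_lit 0) (T.ts (nat_lit 3) (T.ls (nat_lit 2) (nat_lit 4)) (T.ts (nat_lit 0) (T.ls (nat_lit 2) (nat_lit 4)) (T.ts (nat_lit 2) (T.im (nat_lit 3) (nat_lit 4)) (T.ts (nat_lit 1) (T.im (nat_lit 7) (nat_lit 2)) (T.nw (T.ls (nat_lit 2) (nat_lit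 3))))))) (T.ts (nat_lit 1) (T.im (nat_lit 7) (nat_lit 1)) (T.nw (T.ts (nat_lit 4) (T.ls (nat_lit 2) (nat_lit 3)) (T.ts (nat_lit 3) (T.ls (nat_lit 2) (nat_lit 3)) (T.ts (nat_lit 1) (T.ls (nat_lit 2) (nat_lit 4)) (T.ts (nat_lit 0) (T.ls (nat_lit 2) (nat_lit 3)) (T.ts (nat_lit 2) (T.im (nat_lit 7) (nat_lit 2)) T.ie)))))))))) (T.ts (nat_lit 2) (T.im (nat_lit 5) (nat_lit 2)) (T.ts (nat_lit 0) (T.im (nat_lit 3) (nat_lit 3)) (T.nw (T.ts (nat_lit 4) (T.ts (nat_lit 4) (T.ls (nat_lit 2) (nat_lit 3)) (T.ts (nat_lit 3) (T.ls (nat_lit 2) (nat_lit 3)) (T.ts (nat_lit 2) (T.ls (nat_lit 3) (nat_lit 4)) (T.ts (nat_lit 1) (T.ls (nat_lit 2) (nat_lit 4)) (T.ts (nat_lit 0) (T.im (nat_lit 7) (nat_lit 2)) T.ie))))) (T.ts (nat_lit 3) (T.ts (nat_lit 4) (T.ls (nat_lit 2) (nat_lit 3)) (T.ts (nat_lit 3) (T.ls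 (nat_lit 2) (nat_lit 3)) (T.ts (nat_lit 1) (T.ls (nat_lit 2) (nat_lit 4)) (T.ts (nat_lit 2) (T.im (nat_lit 5) (nat_lit 3)) (T.ts (nat_lit 0) (T.im (nat_lit 7) (nat_lit 2)) T.ie))))) (T.ts (nat_lit 2) (T.ts (nat_lit 4) (T.ls (nat_lit 3) (nat_lit 4)) (T.ts (nat_lit 3) (T.ls (nat_lit 2) (nat_lit 3)) (T.ts (nat_lit 2) (T.ls (nat_lit 3) (nat_lit 4)) (T.ts (nat_lit 1) (T.ls (nat_lit 2) (nat_lit 4)) (T.ts (nat_lit 0) (T.im (nat_lit 7) (nat_lit 2)) T.ie))))) (T.ts (nat_lit 1) (T.ts (nat_lit 4) (T.ls (nat_lit 2) (nat_lit 4)) (T.ts (nat_lit 3) (T.ls (nat_lit 2) (nat_lit 3)) (T.ts (nat_lit 2) (T.ls (nat_lit 3) (nat_lit 4)) (T.ts (nat_lit 1) (T.ls (nat_lit 2) (nat_lit 4)) (T.ts (nat_lit 0) (T.im (nat_lit 7) (nat_lit 2)) T.ie))))) (T.ts (nat_lit 0) (T.im (nat_lit 7) (nat_lit 1)) T.ie)))))))))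
def d188 : T := (T.ts (nat_lit 0) (T.ts (nat_lit 3) (T.ts (nat_lit 3) (T.ls (nat_lit 2) (nat_lit 3)) (T.ts (nat_lit 2) (T.ls (nat_lit 2) (nat_lit 4)) (T.ts (nat_lit 1) (T.ls (nat_lit 3) (nat_lit 4)) (T.ts (nat_lit 0) (T.im (nat_lit 7) (nat_lit 2)) (T.nw (T.ls (nat_lit 2) (nat_lit 3))))))) (T.ts (nat_lit 2) (T.ts (nat_lit 3) (T.ls (nat_lit 2) (nat_lit 3)) (T.ts (nat_lit 2) (T.ls (nat_lit 2) (nat_lit 3)) (T.ts (nat_lit 1) (T.ls (nat_lit 3) (nat_lit 4)) (T.ts (nat_lit 0) (T.im (nat_lit 5) (nat_lit 3)) (T.nw (T.ls (nat_lit 2) (nat_lit 3))))))) (T.ts (nat_lit 1) (T.ts (nat_lit 3) (T.ls (nat_lit 3) (nat_lit 4)) (T.ts (nat_lit 2) (T.ls (nat_lit 2) (nat_lit 3)) (T.ts (nat_lit 1) (T.ls (nat_lit 3) (nat_lit 4)) (T.ts (nat_lit 0) (T.im (nat_lit 7) (nat_lit 2)) (T.nw (T.ls (nat_lit 2) (nat_lit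 3))))))) (T.ts (nat_lit 0) (T.im (nat_lit 7) (nat_lit 1)) (T.nw (T.ts (nat_lit 4) (T.ls (nat_lit 2) (nat_lit 3)) (T.ts (nat_lit 3) (T.ls (nat_lit 2) (nat_lit 3)) (T.ts (nat_lit 2) (T.ls (nat_lit 3) (nat_lit 4)) (T.ts (nat_lit 0) (T.ls (nat_lit 2) (nat_lit 3)) (T.ts (nat_lit 1) (T.im (nat_lit 7) (nat_lit 2)) T.ie)))))))))) (T.ts (nat_lit 2) (T.im (nat_lit 5) (nat_lit 2)) (T.nw (T.ts (nat_lit 4) (T.ts (nat_lit 4) (T.ls (nat_lit 2) (nat_lit 3)) (T.ts (nat_lit 3) (T.ls (nat_lit 2) (nat_lit 3)) (T.ts (nat_lit 2) (T.ls (nat_lit 3) (nat_lit 4)) (T.ts (nat_lit 1) (T.ls (nat_lit 2) (nat_lit 4)) (T.ts (nat_lit 0) (T.im (nat_lit 7) (nat_lit 2)) T.ie))))) (T.ts (nat_lit 3) (T.ts (nat_lit 4) (T.ls (nat_lit 2) (nat_lit 3)) (T.ts (nat_lit 3) (T.ls (nat_lit 2) (nat_lit 3)) (T.ts (nat_lit 2) (T.ls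 (nat_lit 3) (nat_lit 4)) (T.ts (nat_lit 1) (T.im (nat_lit 5) (nat_lit 3)) (T.ts (nat_lit 0) (T.im (nat_lit 7) (nat_lit 2)) T.ie))))) (T.ts (nat_lit 2) (T.ts (nat_lit 4) (T.ls (nat_lit 3) (nat_lit 4)) (T.ts (nat_lit 3) (T.ls (nat_lit 2) (nat_lit 3)) (T.ts (nat_lit 2) (T.ls (nat_lit 3) (nat_lit 4)) (T.ts (nat_lit 1) (T.ls (nat_lit 2) (nat_lit 4)) (T.ts (nat_lit 0) (T.im (nat_lit 7) (nat_lit 2)) T.ie))))) (T.ts (nat_lit 1) (T.ts (nat_lit 4) (T.ls (nat_lit 2) (nat_lit 4)) (T.ts (nat_lit 3) (T.ls (nat_lit 2) (nat_lit 3)) (T.ts (nat_lit 2) (T.ls (nat_lit 3) (nat_lit 4)) (T.ts (nat_lit 1) (T.ls (nat_lit 2) (nat_lit 4)) (T.ts (nat_lit 0) (T.im (nat_lit 7) (nat_lit 2)) T.ie))))) (T.ts (nat_lit 0) (T.im (nat_lit 7) (nat_lit 1)) T.ie))))))))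
def d189 : T := (T.ts (nat_lit 3) (T.ts (nat_lit 2) (T.ts (nat_lit 2) (T.ls (nat_lit 2) (nat_lit 3)) (T.ts (nat_lit 1) (T.ls (nat_lit 3) (nat_lit 4)) (T.ts (nat_lit 3) (T.im (nat_lit 7) (nat_lit 2)) (T.ts (nat_lit 0) (T.im (nat_lit 5) (nat_lit 3)) (T.nw (T.ls (nat_lit 2) (nat_lit 3))))))) (T.ts (nat_lit 1) (T.ts (nat_lit 2) (T.ls (nat_lit 2) (nat_lit 3)) (T.ts (nat_lit 1) (T.ls (nat_lit 3) (nat_lit 4)) (T.ts (nat_lit 0) (T.ls (nat_lit 2) (nat_lit 4)) (T.ts (nat_lit 3) (T.im (nat_lit 7) (nat_lit 2)) (T.nw (T.ls (nat_lit 2) (nat_lit 3))))))) (T.ts (nat_lit 0) (T.ts (nat_lit 2) (T.ls (nat_lit 2) (nat_lit 3)) (T.ts (nat_lit 1) (T.ls (nat_lit 3) (nat_lit 4)) (T.ts (nat_lit 0) (T.ls (nat_lit 2) (nat_lit 4)) (T.ts (nat_lit 3) (T.im (nat_lit 7) (nat_lit 2)) (T.nw (T.ls (nat_lit 2) (nat_lit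 3))))))) (T.ts (nat_lit 3) (T.im (nat_lit 7) (nat_lit 1)) (T.nw (T.ts (nat_lit 3) (T.ls (nat_lit 2) (nat_lit 3)) (T.ts (nat_lit 2) (T.ls (nat_lit 3) (nat_lit 4)) (T.ts (nat_lit 1) (T.ls (nat_lit 2) (nat_lit 4)) (T.ts (nat_lit 0) (T.ls (nat_lit 2) (nat_lit 3)) (T.ts (nat_lit 4) (T.im (nat_lit 7) (nat_lit 2)) T.ie)))))))))) (T.ts (nat_lit 1) (T.ts (nat_lit 3) (T.ts (nat_lit 3) (T.ls (nat_lit 2) (nat_lit 3)) (T.ts (nat_lit 2) (T.ls (nat_lit 3) (nat_lit 4)) (T.ts (nat_lit 0) (T.ls (nat_lit 2) (nat_lit 4)) (T.ts (nat_lit 1) (T.im (nat_lit 7) (nat_lit 2)) (T.nw (T.ls (nat_lit 2) (nat_lit 3))))))) (T.ts (nat_lit 2) (T.ts (nat_lit 3) (T.ls (nat_lit 2) (nat_lit 3)) (T.ts (nat_lit 2) (T.ls (nat_lit 2) (nat_lit 3)) (T.ts (nat_lit 1) (T.im (nat_lit 7) (nat_lit 2)) (T.ts (nat_lit 0) (T.im (nat_lit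 5) (nat_lit 3)) (T.nw (T.ls (nat_lit 2) (nat_lit 3))))))) (T.ts (nat_lit 0) (T.ts (nat_lit 3) (T.ls (nat_lit 2) (nat_lit 4)) (T.ts (nat_lit 0) (T.ls (nat_lit 2) (nat_lit 4)) (T.ts (nat_lit 2) (T.im (nat_lit 3) (nat_lit 4)) (T.ts (nat_lit 1) (T.im (nat_lit 7) (nat_lit 2)) (T.nw (T.ls (nat_lit 2) (nat_lit 3))))))) (T.ts (nat_lit 1) (T.im (nat_lit 7) (nat_lit 1)) (T.nw (T.ts (nat_lit 4) (T.ls (nat_lit 2) (nat_lit 3)) (T.ts (nat_lit 3) (T.ls (nat_lit 2) (nat_lit 3)) (T.ts (nat_lit 1) (T.ls (nat_lit 2) (nat_lit 4)) (T.ts (nat_lit 0) (T.ls (nat_lit 2) (nat_lit 3)) (T.ts (nat_lit 2) (T.im (nat_lit 7) (nat_lit 2)) T.ie)))))))))) d188))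
def d190 : T := (T.ts (nat_lit 1) (T.ts (nat_lit 4) (T.ts (nat_lit 4) (T.ls (nat_lit 2) (nat_lit 3)) (T.ts (nat_lit 3) (T.ls (nat_lit 2) (nat_lit 4)) (T.ts (nat_lit 2) (T.ls (nat_lit 3) (nat_lit 4)) (T.ts (nat_lit 0) (T.ls (nat_lit 2) (nat_lit 3)) (T.ts (nat_lit 1) (T.im (nat_lit 7) (nat_lit 2)) T.ie))))) (T.ts (nat_lit 3) (T.ts (nat_lit 4) (T.ls (nat_lit 2) (nat_lit 3)) (T.ts (nat_lit 3) (T.ls (nat_lit 2) (nat_lit 3)) (T.ts (nat_lit 2) (T.ls (nat_lit 3) (nat_lit 4)) (T.ts (nat_lit 1) (T.im (nat_lit 7) (nat_lit 2)) (T.ts (nat_lit 0) (T.im (nat_lit 5) (nat_lit 3)) T.ie))))) (T.ts (nat_lit 2) (T.ts (nat_lit 4) (T.ls (nat_lit 3) (nat_lit 4)) (T.ts (nat_lit 3) (T.ls (nat_lit 2) (nat_lit 3)) (T.ts (nat_lit 2) (T.ls (nat_lit 3) (nat_lit 4)) (T.ts (nat_lit 0) (T.ls (nat_lit 2) (nat_lit 3))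 (T.ts (nat_lit 1) (T.im (nat_lit 7) (nat_lit 2)) T.ie))))) (T.ts (nat_lit 0) (T.ts (nat_lit 4) (T.ls (nat_lit 2) (nat_lit 3)) (T.ts (nat_lit 3) (T.ls (nat_lit 2) (nat_lit 3)) (T.ts (nat_lit 2) (T.ls (nat_lit 3) (nat_lit 4)) (T.ts (nat_lit 0) (T.ls (nat_lit 2) (nat_lit 3)) (T.ts (nat_lit 1) (T.im (nat_lit 7) (nat_lit 2)) T.ie))))) (T.ts (nat_lit 1) (T.im (nat_lit 7) (nat_lit 1)) T.ie))))) (T.ts (nat_lit 0) (T.ts (nat_lit 4) (T.ts (nat_lit 4) (T.ls (nat_lit 2) (nat_lit 3)) (T.ts (nat_lit 3) (T.ls (nat_lit 2) (nat_lit 3)) (T.ts (nat_lit 2) (T.ls (nat_lit 3) (nat_lit 4)) (T.ts (nat_lit 1) (T.ls (nat_lit 2) (nat_lit 4)) (T.ts (nat_lit 0) (T.im (nat_lit 7) (nat_lit 2)) T.ie))))) (T.ts (nat_lit 3) (T.ts (nat_lit 4) (T.ls (nat_lit 2) (nat_lit 3)) (T.ts (nat_lit 3) (T.ls (nat_lit 2) (nat_lit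 3)) (T.ts (nat_lit 2) (T.ls (nat_lit 3) (nat_lit 4)) (T.ts (nat_lit 1) (T.ls (nat_lit 2) (nat_lit 4)) (T.ts (nat_lit 0) (T.im (nat_lit 5) (nat_lit 3)) T.ie))))) (T.ts (nat_lit 2) (T.ts (nat_lit 4) (T.ls (nat_lit 3) (nat_lit 4)) (T.ts (nat_lit 3) (T.ls (nat_lit 2) (nat_lit 3)) (T.ts (nat_lit 2) (T.ls (nat_lit 3) (nat_lit 4)) (T.ts (nat_lit 1) (T.ls (nat_lit 2) (nat_lit 4)) (T.ts (nat_lit 0) (T.im (nat_lit 7) (nat_lit 2)) T.ie))))) (T.ts (nat_lit 1) (T.ts (nat_lit 4) (T.ls (nat_lit 2) (nat_lit 4)) (T.ts (nat_lit 3) (T.ls (nat_lit 2) (nat_lit 3)) (T.ts (nat_lit 2) (T.ls (nat_lit 3) (nat_lit 4)) (T.ts (nat_lit 1) (T.ls (nat_lit 2) (nat_lit 4)) (T.ts (nat_lit 0) (T.im (nat_lit 7) (nat_lit 2)) T.ie))))) (T.ts (nat_lit 0) (T.im (nat_lit 7) (nat_lit 1)) T.ie))))) (T.ts (nat_lit 3) (T.im (nat_lit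 5) (nat_lit 2)) T.ie)))
def d191 : T := (T.ts (nat_lit 4) (T.ts (nat_lit 3) (T.ts (nat_lit 3) (T.ls (nat_lit 2) (nat_lit 3)) (T.ts (nat_lit 2) (T.ls (nat_lit 3) (nat_lit 4)) (T.ts (nat_lit 1) (T.ls (nat_lit 2) (nat_lit 4)) (T.ts (nat_lit 4) (T.im (nat_lit 7) (nat_lit 2)) (T.ts (nat_lit 0) (T.im (nat_lit 5) (nat_lit 3)) T.ie))))) (T.ts (nat_lit 2) (T.ts (nat_lit 3) (T.ls (nat_lit 2) (nat_lit 3)) (T.ts (nat_lit 2) (T.ls (nat_lit 3) (nat_lit 4)) (T.ts (nat_lit 1) (T.ls (nat_lit 2) (nat_lit 4)) (T.ts (nat_lit 0) (T.ls (nat_lit 2) (nat_lit 3)) (T.ts (nat_lit 4) (T.im (nat_lit 7) (nat_lit 2)) T.ie))))) (T.ts (nat_lit 1) (T.ts (nat_lit 3) (T.ls (nat_lit 2) (nat_lit 3)) (T.ts (nat_lit 2) (T.ls (nat_lit 3) (nat_lit 4)) (T.ts (nat_lit 1) (T.ls (nat_lit 2) (nat_lit 4)) (T.ts (nat_lit 0) (T.ls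 (nat_lit 2) (nat_lit 3)) (T.ts (nat_lit 4) (T.im (nat_lit 7) (nat_lit 2)) T.ie))))) (T.ts (nat_lit 0) (T.ts (nat_lit 3) (T.ls (nat_lit 2) (nat_lit 3)) (T.ts (nat_lit 2) (T.ls (nat_lit 3) (nat_lit 4)) (T.ts (nat_lit 1) (T.ls (nat_lit 2) (nat_lit 4)) (T.ts (nat_lit 0) (T.ls (nat_lit 2) (nat_lit 3)) (T.ts (nat_lit 4) (T.im (nat_lit 7) (nat_lit 2)) T.ie))))) (T.ts (nat_lit 4) (T.im (nat_lit 7) (nat_lit 1)) T.ie))))) (T.ts (nat_lit 2) (T.ts (nat_lit 4) (T.ts (nat_lit 4) (T.ls (nat_lit 2) (nat_lit 3)) (T.ts (nat_lit 3) (T.ls (nat_lit 3) (nat_lit 4)) (T.ts (nat_lit 1) (T.ls (nat_lit 2) (nat_lit 4)) (T.ts (nat_lit 0) (T.ls (nat_lit 2) (nat_lit 3)) (T.ts (nat_lit 2) (T.im (nat_lit 7) (nat_lit 2)) T.ie))))) (T.ts (nat_lit 3) (T.ts (nat_lit 4) (T.ls (nat_lit 2) (nat_lit 3)) (T.ts (nat_lit 3)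 (T.ls (nat_lit 2) (nat_lit 3)) (T.ts (nat_lit 1) (T.ls (nat_lit 2) (nat_lit 4)) (T.ts (nat_lit 2) (T.im (nat_lit 7) (nat_lit 2)) (T.ts (nat_lit 0) (T.im (nat_lit 5) (nat_lit 3)) T.ie))))) (T.ts (nat_lit 1) (T.ts (nat_lit 4) (T.ls (nat_lit 2) (nat_lit 4)) (T.ts (nat_lit 1) (T.ls (nat_lit 2) (nat_lit 4)) (T.ts (nat_lit 0) (T.ls (nat_lit 2) (nat_lit 3)) (T.ts (nat_lit 3) (T.im (nat_lit 3) (nat_lit 4)) (T.ts (nat_lit 2) (T.im (nat_lit 7) (nat_lit 2)) T.ie))))) (T.ts (nat_lit 0) (T.ts (nat_lit 4) (T.ls (nat_lit 2) (nat_lit 3)) (T.ts (nat_lit 3) (T.ls (nat_lit 2) (nat_lit 3)) (T.ts (nat_lit 1) (T.ls (nat_lit 2) (nat_lit 4)) (T.ts (nat_lit 0) (T.ls (nat_lit 2) (nat_lit 3)) (T.ts (nat_lit 2) (T.im (nat_lit 7) (nat_lit 2)) T.ie))))) (T.ts (nat_lit 2) (T.im (nat_lit 7) (nat_lit 1)) T.ie)))))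 d190))
def d192 : T := (T.ts (nat_lit 3) (T.tp (T.ts (nat_lit 3) (T.ts (nat_lit 2) (T.ts (nat_lit 2) (T.ls (nat_lit 2) (nat_lit 3)) (T.ts (nat_lit 1) (T.ls (nat_lit 3) (nat_lit 4)) (T.ts (nat_lit 0) (T.ls (nat_lit 2) (nat_lit 4)) (T.ts (nat_lit 3) (T.im (nat_lit 5) (nat_lit 3)) (T.nw (T.ls (nat_lit 2) (nat_lit 3))))))) (T.ts (nat_lit 1) (T.ts (nat_lit 2) (T.ls (nat_lit 2) (nat_lit 3)) (T.ts (nat_lit 1) (T.ls (nat_lit 3) (nat_lit 4)) (T.ts (nat_lit 0) (T.ls (nat_lit 2) (nat_lit 4)) (T.ts (nat_lit 3) (T.im (nat_lit 7) (nat_lit 2)) (T.nw (T.ls (nat_lit 2) (nat_lit 3))))))) (T.ts (nat_lit 0) (T.ts (nat_lit 2) (T.ls (nat_lit 2) (nat_lit 3)) (T.ts (nat_lit 1) (T.ls (nat_lit 3) (nat_lit 4)) (T.ts (nat_lit 0) (T.ls (nat_lit 2) (nat_lit 4)) (T.ts (nat_lit 3) (T.im (nat_lit 7) (nat_lit 2))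 (T.nw (T.ls (nat_lit 2) (nat_lit 3))))))) (T.ts (nat_lit 3) (T.im (nat_lit 7) (nat_lit 1)) (T.nw (T.ts (nat_lit 3) (T.ls (nat_lit 2) (nat_lit 3)) (T.ts (nat_lit 2) (T.ls (nat_lit 3) (nat_lit 4)) (T.ts (nat_lit 1) (T.ls (nat_lit 2) (nat_lit 4)) (T.ts (nat_lit 0) (T.ls (nat_lit 2) (nat_lit 3)) (T.ts (nat_lit 4) (T.im (nat_lit 7) (nat_lit 2)) T.ie)))))))))) d183)) (T.ts (nat_lit 1) (T.ts (nat_lit 3) (T.ts (nat_lit 2) (T.tp (T.ts (nat_lit 2) (T.ls (nat_lit 3) (nat_lit 4)) (T.ts (nat_lit 0) (T.ts (nat_lit 3) (T.ts (nat_lit 2) (T.im (nat_lit 7) (nat_lit 3)) (T.sk (T.ls (nat_lit 3) (nat_lit 4)))) (T.sk (T.ls (nat_lit 3) (nat_lit 4)))) (T.ts (nat_lit 3) (T.im (nat_lit 7) (nat_lit 2)) (T.ts (nat_lit 1) (T.im (nat_lit 5) (nat_lit 3)) (T.nw (T.ts (nat_lit 4) (T.ts (nat_lit 3) (T.im (nat_lit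 7) (nat_lit 3)) (T.sk (T.ls (nat_lit 3) (nat_lit 4)))) (T.sk (T.ls (nat_lit 3) (nat_lit 4)))))))))) (T.ts (nat_lit 1) (T.ts (nat_lit 2) (T.ls (nat_lit 3) (nat_lit 4)) (T.ts (nat_lit 1) (T.ls (nat_lit 3) (nat_lit 4)) d184)) (T.ts (nat_lit 0) (T.ts (nat_lit 2) (T.ls (nat_lit 3) (nat_lit 4)) (T.ts (nat_lit 1) (T.ls (nat_lit 3) (nat_lit 4)) d185)) (T.ts (nat_lit 3) (T.im (nat_lit 7) (nat_lit 1)) (T.nw (T.ts (nat_lit 3) (T.ls (nat_lit 3) (nat_lit 4)) (T.ts (nat_lit 2) (T.ls (nat_lit 3) (nat_lit 4)) d186))))))) (T.tp d187)) (T.tp (T.ts (nat_lit 0) d189 (T.ts (nat_lit 2) (T.im (nat_lit 5) (nat_lit 1)) (T.nw d191))))))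
def d193 : T := (T.ts (nat_lit 3) (T.ts (nat_lit 3) (T.ls (nat_lit 2) (nat_lit 3)) (T.ts (nat_lit 1) (T.ts (nat_lit 3) (T.ts (nat_lit 2) (T.ts (nat_lit 3) (T.ts (nat_lit 1) (T.im (nat_lit 7) (nat_lit 4)) (T.sk (T.ls (nat_lit 2) (nat_lit 4)))) (T.sk (T.ls (nat_lit 2) (nat_lit 4)))) (T.sk (T.ls (nat_lit 2) (nat_lit 4)))) (T.ts (nat_lit 0) (T.ls (nat_lit 2) (nat_lit 4)) (T.sk (T.ls (nat_lit 2) (nat_lit 4))))) (T.ts (nat_lit 0) (T.ls (nat_lit 2) (nat_lit 4)) (T.ts (nat_lit 2) (T.im (nat_lit 7) (nat_lit 2)) (T.nw (T.ls (nat_lit 2) (nat_lit 3))))))) (T.ts (nat_lit 1) (T.ts (nat_lit 3) (T.ls (nat_lit 3) (nat_lit 4)) (T.ts (nat_lit 1) (T.ls (nat_lit 3) (nat_lit 4)) (T.ts (nat_lit 0) (T.ls (nat_lit 2) (nat_lit 4)) (T.ts (nat_lit 2) (T.im (nat_lit 7) (nat_lit 2)) (T.nw (T.ls (nat_lit 2) (nat_lit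 3))))))) (T.ts (nat_lit 0) (T.ts (nat_lit 1) (T.ls (nat_lit 3) (nat_lit 4)) (T.ts (nat_lit 0) (T.ls (nat_lit 2) (nat_lit 4)) (T.ts (nat_lit 3) (T.im (nat_lit 5) (nat_lit 3)) (T.ts (nat_lit 2) (T.im (nat_lit 7) (nat_lit 2)) (T.nw (T.ls (nat_lit 2) (nat_lit 3))))))) (T.ts (nat_lit 2) (T.im (nat_lit 7) (nat_lit 1)) (T.nw (T.ts (nat_lit 4) (T.ls (nat_lit 2) (nat_lit 3)) (T.ts (nat_lit 2) (T.ls (nat_lit 3) (nat_lit 4)) (T.ts (nat_lit 1) (T.ls (nat_lit 2) (nat_lit 4)) (T.ts (nat_lit 0) (T.ls (nat_lit 2) (nat_lit 3)) (T.ts (nat_lit 3) (T.im (nat_lit 7) (nat_lit 2)) T.ie))))))))))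
def d194 : T := (T.ts (nat_lit 1) (T.ts (nat_lit 3) (T.ts (nat_lit 3) (T.ls (nat_lit 2) (nat_lit 3)) (T.ts (nat_lit 2) (T.ls (nat_lit 3) (nat_lit 4)) (T.ts (nat_lit 0) (T.ls (nat_lit 2) (nat_lit 4)) (T.ts (nat_lit 1) (T.im (nat_lit 7) (nat_lit 2)) (T.nw (T.ls (nat_lit 2) (nat_lit 3))))))) (T.ts (nat_lit 2) (T.ts (nat_lit 3) (T.ls (nat_lit 2) (nat_lit 3)) (T.ts (nat_lit 2) (T.ls (nat_lit 2) (nat_lit 3)) (T.ts (nat_lit 0) (T.ls (nat_lit 2) (nat_lit 4)) (T.ts (nat_lit 1) (T.im (nat_lit 7) (nat_lit 2)) (T.nw (T.ls (nat_lit 2) (nat_lit 3))))))) (T.ts (nat_lit 0) (T.ts (nat_lit 2) (T.ls (nat_lit 2) (nat_lit 3)) (T.ts (nat_lit 3) (T.im (nat_lit 5) (nat_lit 3)) (T.ts (nat_lit 1) (T.im (nat_lit 7) (nat_lit 2)) (T.ts (nat_lit 0) (T.im (nat_lit 3) (nat_lit 4)) (T.nw (T.ls (nat_lit 2) (nat_lit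 3))))))) (T.ts (nat_lit 1) (T.im (nat_lit 7) (nat_lit 1)) (T.nw (T.ts (nat_lit 4) (T.ls (nat_lit 2) (nat_lit 3)) (T.ts (nat_lit 3) (T.ls (nat_lit 2) (nat_lit 3)) (T.ts (nat_lit 1) (T.ls (nat_lit 2) (nat_lit 4)) (T.ts (nat_lit 0) (T.ls (nat_lit 2) (nat_lit 3)) (T.ts (nat_lit 2) (T.im (nat_lit 7) (nat_lit 2)) T.ie)))))))))) (T.ts (nat_lit 0) (T.im (nat_lit 5) (nat_lit 2)) (T.nw (T.ts (nat_lit 4) (T.ts (nat_lit 4) (T.ls (nat_lit 2) (nat_lit 3)) (T.ts (nat_lit 3) (T.ls (nat_lit 2) (nat_lit 3)) (T.ts (nat_lit 2) (T.ls (nat_lit 3) (nat_lit 4)) (T.ts (nat_lit 1) (T.ls (nat_lit 2) (nat_lit 4)) (T.ts (nat_lit 0) (T.im (nat_lit 7) (nat_lit 2)) T.ie))))) (T.ts (nat_lit 3) (T.ts (nat_lit 4) (T.ls (nat_lit 2) (nat_lit 3)) (T.ts (nat_lit 3) (T.ls (nat_lit 2) (nat_lit 3)) (T.ts (nat_lit 2) (T.ls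 (nat_lit 3) (nat_lit 4)) (T.ts (nat_lit 1) (T.ls (nat_lit 2) (nat_lit 4)) (T.ts (nat_lit 0) (T.im (nat_lit 7) (nat_lit 2)) T.ie))))) (T.ts (nat_lit 2) (T.ts (nat_lit 4) (T.ls (nat_lit 3) (nat_lit 4)) (T.ts (nat_lit 3) (T.ls (nat_lit 2) (nat_lit 3)) (T.ts (nat_lit 2) (T.ls (nat_lit 3) (nat_lit 4)) (T.ts (nat_lit 1) (T.ls (nat_lit 2) (nat_lit 4)) (T.ts (nat_lit 0) (T.im (nat_lit 7) (nat_lit 2)) T.ie))))) (T.ts (nat_lit 1) (T.ts (nat_lit 3) (T.ls (nat_lit 2) (nat_lit 3)) (T.ts (nat_lit 2) (T.ls (nat_lit 3) (nat_lit 4)) (T.ts (nat_lit 1) (T.ls (nat_lit 2) (nat_lit 4)) (T.ts (nat_lit 4) (T.im (nat_lit 5) (nat_lit 3)) (T.ts (nat_lit 0) (T.im (nat_lit 7) (nat_lit 2)) T.ie))))) (T.ts (nat_lit 0) (T.im (nat_lit 7) (nat_lit 1)) T.ie))))))))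
def d195 : T := (T.ts (nat_lit 1) (T.ts (nat_lit 3) (T.ts (nat_lit 3) (T.ls (nat_lit 2) (nat_lit 3)) (T.ts (nat_lit 2) (T.ls (nat_lit 3) (nat_lit 4)) (T.ts (nat_lit 0) (T.ls (nat_lit 2) (nat_lit 4)) (T.ts (nat_lit 1) (T.im (nat_lit 7) (nat_lit 2)) (T.nw (T.ls (nat_lit 2) (nat_lit 3))))))) (T.ts (nat_lit 2) (T.ts (nat_lit 3) (T.ls (nat_lit 2) (nat_lit 3)) (T.ts (nat_lit 2) (T.ls (nat_lit 2) (nat_lit 3)) (T.ts (nat_lit 0) (T.ls (nat_lit 2) (nat_lit 4)) (T.ts (nat_lit 1) (T.im (nat_lit 7) (nat_lit 2)) (T.nw (T.ls (nat_lit 2) (nat_lit 3))))))) (T.ts (nat_lit 0) (T.ts (nat_lit 3) (T.ls (nat_lit 2) (nat_lit 4)) (T.ts (nat_lit 2) (T.im (nat_lit 5) (nat_lit 3)) (T.ts (nat_lit 1) (T.im (nat_lit 7) (nat_lit 2)) (T.ts (nat_lit 0) (T.im (nat_lit 3) (nat_lit 4)) (T.nw (T.ls (nat_lit 2) (nat_lit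 3))))))) (T.ts (nat_lit 1) (T.im (nat_lit 7) (nat_lit 1)) (T.nw (T.ts (nat_lit 4) (T.ls (nat_lit 2) (nat_lit 3)) (T.ts (nat_lit 3) (T.ls (nat_lit 2) (nat_lit 3)) (T.ts (nat_lit 1) (T.ls (nat_lit 2) (nat_lit 4)) (T.ts (nat_lit 0) (T.ls (nat_lit 2) (nat_lit 3)) (T.ts (nat_lit 2) (T.im (nat_lit 7) (nat_lit 2)) T.ie)))))))))) (T.ts (nat_lit 0) (T.im (nat_lit 5) (nat_lit 2)) (T.nw (T.ts (nat_lit 4) (T.ts (nat_lit 4) (T.ls (nat_lit 2) (nat_lit 3)) (T.ts (nat_lit 3) (T.ls (nat_lit 2) (nat_lit 3)) (T.ts (nat_lit 2) (T.ls (nat_lit 3) (nat_lit 4)) (T.ts (nat_lit 1) (T.ls (nat_lit 2) (nat_lit 4)) (T.ts (nat_lit 0) (T.im (nat_lit 7) (nat_lit 2)) T.ie))))) (T.ts (nat_lit 3) (T.ts (nat_lit 4) (T.ls (nat_lit 2) (nat_lit 3)) (T.ts (nat_lit 3) (T.ls (nat_lit 2) (nat_lit 3)) (T.ts (nat_lit 2) (T.ls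 (nat_lit 3) (nat_lit 4)) (T.ts (nat_lit 1) (T.ls (nat_lit 2) (nat_lit 4)) (T.ts (nat_lit 0) (T.im (nat_lit 7) (nat_lit 2)) T.ie))))) (T.ts (nat_lit 2) (T.ts (nat_lit 4) (T.ls (nat_lit 3) (nat_lit 4)) (T.ts (nat_lit 3) (T.ls (nat_lit 2) (nat_lit 3)) (T.ts (nat_lit 2) (T.ls (nat_lit 3) (nat_lit 4)) (T.ts (nat_lit 1) (T.ls (nat_lit 2) (nat_lit 4)) (T.ts (nat_lit 0) (T.im (nat_lit 7) (nat_lit 2)) T.ie))))) (T.ts (nat_lit 1) (T.ts (nat_lit 4) (T.ls (nat_lit 2) (nat_lit 4)) (T.ts (nat_lit 2) (T.ls (nat_lit 3) (nat_lit 4)) (T.ts (nat_lit 1) (T.ls (nat_lit 2) (nat_lit 4)) (T.ts (nat_lit 3) (T.im (nat_lit 5) (nat_lit 3)) (T.ts (nat_lit 0) (T.im (nat_lit 7) (nat_lit 2)) T.ie))))) (T.ts (nat_lit 0) (T.im (nat_lit 7) (nat_lit 1)) T.ie))))))))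
def d196 : T := (T.ts (nat_lit 3) (T.ts (nat_lit 2) (T.ts (nat_lit 2) (T.ls (nat_lit 2) (nat_lit 3)) (T.ts (nat_lit 1) (T.ls (nat_lit 3) (nat_lit 4)) (T.ts (nat_lit 0) (T.ls (nat_lit 2) (nat_lit 4)) (T.ts (nat_lit 3) (T.im (nat_lit 7) (nat_lit 2)) (T.nw (T.ls (nat_lit 2) (nat_lit 3))))))) (T.ts (nat_lit 1) (T.ts (nat_lit 2) (T.ls (nat_lit 2) (nat_lit 3)) (T.ts (nat_lit 1) (T.ls (nat_lit 3) (nat_lit 4)) (T.ts (nat_lit 3) (T.im (nat_lit 7) (nat_lit 2)) (T.ts (nat_lit 0) (T.im (nat_lit 1) (nat_lit 5)) (T.nw (T.ls (nat_lit 2) (nat_lit 3))))))) (T.ts (nat_lit 0) (T.ts (nat_lit 1) (T.ls (nat_lit 3) (nat_lit 4)) (T.ts (nat_lit 0) (T.ls (nat_lit 2) (nat_lit 4)) (T.ts (nat_lit 3) (T.im (nat_lit 7) (nat_lit 2)) (T.ts (nat_lit 2) (T.im (nat_lit 5) (nat_lit 3)) (T.nw (T.ls (nat_lit 2) (nat_lit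 3))))))) (T.ts (nat_lit 3) (T.im (nat_lit 7) (nat_lit 1)) (T.nw (T.ts (nat_lit 3) (T.ls (nat_lit 2) (nat_lit 3)) (T.ts (nat_lit 2) (T.ls (nat_lit 3) (nat_lit 4)) (T.ts (nat_lit 1) (T.ls (nat_lit 2) (nat_lit 4)) (T.ts (nat_lit 0) (T.ls (nat_lit 2) (nat_lit 3)) (T.ts (nat_lit 4) (T.im (nat_lit 7) (nat_lit 2)) T.ie)))))))))) (T.ts (nat_lit 2) (T.ts (nat_lit 3) (T.ts (nat_lit 3) (T.ls (nat_lit 2) (nat_lit 3)) (T.ts (nat_lit 1) (T.ls (nat_lit 3) (nat_lit 4)) (T.ts (nat_lit 0) (T.ls (nat_lit 2) (nat_lit 4)) (T.ts (nat_lit 2) (T.im (nat_lit 7) (nat_lit 2)) (T.nw (T.ls (nat_lit 2) (nat_lit 3))))))) (T.ts (nat_lit 1) (T.ts (nat_lit 3) (T.ls (nat_lit 3) (nat_lit 4)) (T.ts (nat_lit 1) (T.ls (nat_lit 3) (nat_lit 4)) (T.ts (nat_lit 0) (T.ls (nat_lit 2) (nat_lit 4)) (T.ts (nat_lit 2) (T.im (nat_lit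 7) (nat_lit 2)) (T.nw (T.ls (nat_lit 2) (nat_lit 3))))))) (T.ts (nat_lit 0) (T.ts (nat_lit 3) (T.ls (nat_lit 2) (nat_lit 4)) (T.ts (nat_lit 1) (T.ls (nat_lit 3) (nat_lit 4)) (T.ts (nat_lit 0) (T.ls (nat_lit 2) (nat_lit 4)) (T.ts (nat_lit 2) (T.im (nat_lit 5) (nat_lit 3)) (T.nw (T.ls (nat_lit 2) (nat_lit 3))))))) (T.ts (nat_lit 2) (T.im (nat_lit 7) (nat_lit 1)) (T.nw (T.ts (nat_lit 4) (T.ls (nat_lit 2) (nat_lit 3)) (T.ts (nat_lit 2) (T.ls (nat_lit 3) (nat_lit 4)) (T.ts (nat_lit 1) (T.ls (nat_lit 2) (nat_lit 4)) (T.ts (nat_lit 0) (T.ls (nat_lit 2) (nat_lit 3)) (T.ts (nat_lit 3) (T.im (nat_lit 7) (nat_lit 2)) T.ie)))))))))) d195))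
def d197 : T := (T.ts (nat_lit 1) (T.ts (nat_lit 3) (T.ts (nat_lit 3) (T.ls (nat_lit 2) (nat_lit 3)) (T.ts (nat_lit 2) (T.ls (nat_lit 3) (nat_lit 4)) (T.ts (nat_lit 0) (T.ls (nat_lit 2) (nat_lit 4)) (T.ts (nat_lit 1) (T.im (nat_lit 7) (nat_lit 2)) (T.nw (T.ls (nat_lit 2) (nat_lit 3))))))) (T.ts (nat_lit 2) (T.ts (nat_lit 3) (T.ls (nat_lit 2) (nat_lit 3)) (T.ts (nat_lit 2) (T.ls (nat_lit 2) (nat_lit 3)) (T.ts (nat_lit 0) (T.ls (nat_lit 2) (nat_lit 4)) (T.ts (nat_lit 1) (T.im (nat_lit 7) (nat_lit 2)) (T.nw (T.ls (nat_lit 2) (nat_lit 3))))))) (T.ts (nat_lit 0) (T.ts (nat_lit 3) (T.ls (nat_lit 2) (nat_lit 4)) (T.ts (nat_lit 2) (T.ls (nat_lit 2) (nat_lit 3)) (T.ts (nat_lit 1) (T.im (nat_lit 5) (nat_lit 3)) (T.ts (nat_lit 0) (T.im (nat_lit 3) (nat_lit 4)) (T.nw (T.ls (nat_lit 2) (nat_lit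 3))))))) (T.ts (nat_lit 1) (T.im (nat_lit 7) (nat_lit 1)) (T.nw (T.ts (nat_lit 4) (T.ls (nat_lit 2) (nat_lit 3)) (T.ts (nat_lit 3) (T.ls (nat_lit 2) (nat_lit 3)) (T.ts (nat_lit 1) (T.ls (nat_lit 2) (nat_lit 4)) (T.ts (nat_lit 0) (T.ls (nat_lit 2) (nat_lit 3)) (T.ts (nat_lit 2) (T.im (nat_lit 7) (nat_lit 2)) T.ie)))))))))) (T.ts (nat_lit 0) (T.im (nat_lit 3) (nat_lit 3)) (T.nw (T.ts (nat_lit 4) (T.ts (nat_lit 4) (T.ls (nat_lit 2) (nat_lit 3)) (T.ts (nat_lit 3) (T.ls (nat_lit 2) (nat_lit 3)) (T.ts (nat_lit 2) (T.ls (nat_lit 3) (nat_lit 4)) (T.ts (nat_lit 1) (T.ls (nat_lit 2) (nat_lit 4)) (T.ts (nat_lit 0) (T.im (nat_lit 7) (nat_lit 2)) T.ie))))) (T.ts (nat_lit 3) (T.ts (nat_lit 4) (T.ls (nat_lit 2) (nat_lit 3)) (T.ts (nat_lit 3) (T.ls (nat_lit 2) (nat_lit 3)) (T.ts (nat_lit 2) (T.ls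 (nat_lit 3) (nat_lit 4)) (T.ts (nat_lit 1) (T.ls (nat_lit 2) (nat_lit 4)) (T.ts (nat_lit 0) (T.im (nat_lit 7) (nat_lit 2)) T.ie))))) (T.ts (nat_lit 2) (T.ts (nat_lit 4) (T.ls (nat_lit 3) (nat_lit 4)) (T.ts (nat_lit 3) (T.ls (nat_lit 2) (nat_lit 3)) (T.ts (nat_lit 2) (T.ls (nat_lit 3) (nat_lit 4)) (T.ts (nat_lit 1) (T.ls (nat_lit 2) (nat_lit 4)) (T.ts (nat_lit 0) (T.im (nat_lit 7) (nat_lit 2)) T.ie))))) (T.ts (nat_lit 1) (T.ts (nat_lit 4) (T.ls (nat_lit 2) (nat_lit 4)) (T.ts (nat_lit 3) (T.ls (nat_lit 2) (nat_lit 3)) (T.ts (nat_lit 1) (T.ls (nat_lit 2) (nat_lit 4)) (T.ts (nat_lit 2) (T.im (nat_lit 5) (nat_lit 3)) (T.ts (nat_lit 0) (T.im (nat_lit 7) (nat_lit 2)) T.ie))))) (T.ts (nat_lit 0) (T.im (nat_lit 7) (nat_lit 1)) T.ie))))))))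
def d198 : T := (T.ts (nat_lit 3) (T.ts (nat_lit 2) (T.ts (nat_lit 2) (T.ls (nat_lit 2) (nat_lit 3)) (T.ts (nat_lit 1) (T.ls (nat_lit 3) (nat_lit 4)) (T.ts (nat_lit 0) (T.ls (nat_lit 2) (nat_lit 4)) (T.ts (nat_lit 3) (T.im (nat_lit 7) (nat_lit 2)) (T.nw (T.ls (nat_lit 2) (nat_lit 3))))))) (T.ts (nat_lit 1) (T.ts (nat_lit 2) (T.ls (nat_lit 2) (nat_lit 3)) (T.ts (nat_lit 1) (T.ls (nat_lit 3) (nat_lit 4)) (T.ts (nat_lit 0) (T.ls (nat_lit 2) (nat_lit 4)) (T.ts (nat_lit 3) (T.im (nat_lit 7) (nat_lit 2)) (T.nw (T.ls (nat_lit 2) (nat_lit 3))))))) (T.ts (nat_lit 0) (T.ts (nat_lit 2) (T.ls (nat_lit 2) (nat_lit 3)) (T.ts (nat_lit 0) (T.ls (nat_lit 2) (nat_lit 4)) (T.ts (nat_lit 3) (T.im (nat_lit 7) (nat_lit 2)) (T.ts (nat_lit 1) (T.im (nat_lit 5) (nat_lit 3)) (T.nw (T.ls (nat_lit 2) (nat_lit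 3))))))) (T.ts (nat_lit 3) (T.im (nat_lit 7) (nat_lit 1)) (T.nw (T.ts (nat_lit 3) (T.ls (nat_lit 2) (nat_lit 3)) (T.ts (nat_lit 2) (T.ls (nat_lit 3) (nat_lit 4)) (T.ts (nat_lit 1) (T.ls (nat_lit 2) (nat_lit 4)) (T.ts (nat_lit 0) (T.ls (nat_lit 2) (nat_lit 3)) (T.ts (nat_lit 4) (T.im (nat_lit 7) (nat_lit 2)) T.ie)))))))))) (T.ts (nat_lit 2) (T.ts (nat_lit 3) (T.ts (nat_lit 3) (T.ls (nat_lit 2) (nat_lit 3)) (T.ts (nat_lit 1) (T.ls (nat_lit 3) (nat_lit 4)) (T.ts (nat_lit 0) (T.ls (nat_lit 2) (nat_lit 4)) (T.ts (nat_lit 2) (T.im (nat_lit 7) (nat_lit 2)) (T.nw (T.ls (nat_lit 2) (nat_lit 3))))))) (T.ts (nat_lit 1) (T.ts (nat_lit 3) (T.ls (nat_lit 3) (nat_lit 4)) (T.ts (nat_lit 1) (T.ls (nat_lit 3) (nat_lit 4)) (T.ts (nat_lit 0) (T.ls (nat_lit 2) (nat_lit 4)) (T.ts (nat_lit 2) (T.im (nat_lit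 7) (nat_lit 2)) (T.nw (T.ls (nat_lit 2) (nat_lit 3))))))) (T.ts (nat_lit 0) (T.ts (nat_lit 3) (T.ls (nat_lit 2) (nat_lit 4)) (T.ts (nat_lit 0) (T.ls (nat_lit 2) (nat_lit 4)) (T.ts (nat_lit 2) (T.im (nat_lit 7) (nat_lit 2)) (T.ts (nat_lit 1) (T.im (nat_lit 5) (nat_lit 3)) (T.nw (T.ls (nat_lit 2) (nat_lit 3))))))) (T.ts (nat_lit 2) (T.im (nat_lit 7) (nat_lit 1)) (T.nw (T.ts (nat_lit 4) (T.ls (nat_lit 2) (nat_lit 3)) (T.ts (nat_lit 2) (T.ls (nat_lit 3) (nat_lit 4)) (T.ts (nat_lit 1) (T.ls (nat_lit 2) (nat_lit 4)) (T.ts (nat_lit 0) (T.ls (nat_lit 2) (nat_lit 3)) (T.ts (nat_lit 3) (T.im (nat_lit 7) (nat_lit 2)) T.ie)))))))))) d197))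
def d199 : T := (T.ts (nat_lit 2) (T.ts (nat_lit 4) (T.ts (nat_lit 4) (T.ls (nat_lit 2) (nat_lit 3)) (T.ts (nat_lit 3) (T.ls (nat_lit 3) (nat_lit 4)) (T.ts (nat_lit 1) (T.ls (nat_lit 2) (nat_lit 4)) (T.ts (nat_lit 0) (T.ls (nat_lit 2) (nat_lit 3)) (T.ts (nat_lit 2) (T.im (nat_lit 7) (nat_lit 2)) T.ie))))) (T.ts (nat_lit 3) (T.ts (nat_lit 4) (T.ls (nat_lit 2) (nat_lit 3)) (T.ts (nat_lit 3) (T.ls (nat_lit 2) (nat_lit 3)) (T.ts (nat_lit 1) (T.ls (nat_lit 2) (nat_lit 4)) (T.ts (nat_lit 0) (T.ls (nat_lit 2) (nat_lit 3)) (T.ts (nat_lit 2) (T.im (nat_lit 7) (nat_lit 2)) T.ie))))) (T.ts (nat_lit 1) (T.ts (nat_lit 4) (T.ls (nat_lit 2) (nat_lit 4)) (T.ts (nat_lit 3) (T.ls (nat_lit 2) (nat_lit 3)) (T.ts (nat_lit 2) (T.im (nat_lit 7) (nat_lit 2)) (T.ts (nat_lit 1) (T.im (nat_lit 3) (nat_lit 4))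 (T.ts (nat_lit 0) (T.im (nat_lit 5) (nat_lit 3)) T.ie))))) (T.ts (nat_lit 0) (T.ts (nat_lit 4) (T.ls (nat_lit 2) (nat_lit 3)) (T.ts (nat_lit 3) (T.ls (nat_lit 2) (nat_lit 3)) (T.ts (nat_lit 1) (T.ls (nat_lit 2) (nat_lit 4)) (T.ts (nat_lit 0) (T.ls (nat_lit 2) (nat_lit 3)) (T.ts (nat_lit 2) (T.im (nat_lit 7) (nat_lit 2)) T.ie))))) (T.ts (nat_lit 2) (T.im (nat_lit 7) (nat_lit 1)) T.ie))))) (T.ts (nat_lit 0) (T.ts (nat_lit 4) (T.ts (nat_lit 4) (T.ls (nat_lit 2) (nat_lit 3)) (T.ts (nat_lit 3) (T.ls (nat_lit 2) (nat_lit 3)) (T.ts (nat_lit 2) (T.ls (nat_lit 3) (nat_lit 4)) (T.ts (nat_lit 1) (T.ls (nat_lit 2) (nat_lit 4)) (T.ts (nat_lit 0) (T.im (nat_lit 7) (nat_lit 2)) T.ie))))) (T.ts (nat_lit 3) (T.ts (nat_lit 4) (T.ls (nat_lit 2) (nat_lit 3)) (T.ts (nat_lit 3) (T.ls (nat_lit 2) (nat_lit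 3)) (T.ts (nat_lit 2) (T.ls (nat_lit 3) (nat_lit 4)) (T.ts (nat_lit 1) (T.ls (nat_lit 2) (nat_lit 4)) (T.ts (nat_lit 0) (T.im (nat_lit 7) (nat_lit 2)) T.ie))))) (T.ts (nat_lit 2) (T.ts (nat_lit 4) (T.ls (nat_lit 3) (nat_lit 4)) (T.ts (nat_lit 3) (T.ls (nat_lit 2) (nat_lit 3)) (T.ts (nat_lit 2) (T.ls (nat_lit 3) (nat_lit 4)) (T.ts (nat_lit 1) (T.ls (nat_lit 2) (nat_lit 4)) (T.ts (nat_lit 0) (T.im (nat_lit 7) (nat_lit 2)) T.ie))))) (T.ts (nat_lit 1) (T.ts (nat_lit 4) (T.ls (nat_lit 2) (nat_lit 4)) (T.ts (nat_lit 3) (T.ls (nat_lit 2) (nat_lit 3)) (T.ts (nat_lit 2) (T.ls (nat_lit 3) (nat_lit 4)) (T.ts (nat_lit 1) (T.ls (nat_lit 2) (nat_lit 4)) (T.ts (nat_lit 0) (T.im (nat_lit 5) (nat_lit 3)) T.ie))))) (T.ts (nat_lit 0) (T.im (nat_lit 7) (nat_lit 1)) T.ie))))) (T.ts (nat_lit 1) (T.im (nat_lit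 5) (nat_lit 2)) T.ie)))
def d200 : T := (T.ts (nat_lit 4) (T.ts (nat_lit 3) (T.ts (nat_lit 3) (T.ls (nat_lit 2) (nat_lit 3)) (T.ts (nat_lit 2) (T.ls (nat_lit 3) (nat_lit 4)) (T.ts (nat_lit 1) (T.ls (nat_lit 2) (nat_lit 4)) (T.ts (nat_lit 0) (T.ls (nat_lit 2) (nat_lit 3)) (T.ts (nat_lit 4) (T.im (nat_lit 7) (nat_lit 2)) T.ie))))) (T.ts (nat_lit 2) (T.ts (nat_lit 3) (T.ls (nat_lit 2) (nat_lit 3)) (T.ts (nat_lit 2) (T.ls (nat_lit 3) (nat_lit 4)) (T.ts (nat_lit 1) (T.ls (nat_lit 2) (nat_lit 4)) (T.ts (nat_lit 0) (T.ls (nat_lit 2) (nat_lit 3)) (T.ts (nat_lit 4) (T.im (nat_lit 7) (nat_lit 2)) T.ie))))) (T.ts (nat_lit 1) (T.ts (nat_lit 3) (T.ls (nat_lit 2) (nat_lit 3)) (T.ts (nat_lit 2) (T.ls (nat_lit 3) (nat_lit 4)) (T.ts (nat_lit 1) (T.ls (nat_lit 2) (nat_lit 4)) (T.ts (nat_lit 4) (T.im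 (nat_lit 7) (nat_lit 2)) (T.ts (nat_lit 0) (T.im (nat_lit 5) (nat_lit 3)) T.ie))))) (T.ts (nat_lit 0) (T.ts (nat_lit 3) (T.ls (nat_lit 2) (nat_lit 3)) (T.ts (nat_lit 2) (T.ls (nat_lit 3) (nat_lit 4)) (T.ts (nat_lit 1) (T.ls (nat_lit 2) (nat_lit 4)) (T.ts (nat_lit 0) (T.ls (nat_lit 2) (nat_lit 3)) (T.ts (nat_lit 4) (T.im (nat_lit 7) (nat_lit 2)) T.ie))))) (T.ts (nat_lit 4) (T.im (nat_lit 7) (nat_lit 1)) T.ie))))) (T.ts (nat_lit 3) (T.ts (nat_lit 4) (T.ts (nat_lit 4) (T.ls (nat_lit 2) (nat_lit 3)) (T.ts (nat_lit 2) (T.ls (nat_lit 3) (nat_lit 4)) (T.ts (nat_lit 1) (T.ls (nat_lit 2) (nat_lit 4)) (T.ts (nat_lit 0) (T.ls (nat_lit 2) (nat_lit 3)) (T.ts (nat_lit 3) (T.im (nat_lit 7) (nat_lit 2)) T.ie))))) (T.ts (nat_lit 2) (T.ts (nat_lit 4) (T.ls (nat_lit 3) (nat_lit 4)) (T.ts (nat_lit 2)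 (T.ls (nat_lit 3) (nat_lit 4)) (T.ts (nat_lit 1) (T.ls (nat_lit 2) (nat_lit 4)) (T.ts (nat_lit 0) (T.ls (nat_lit 2) (nat_lit 3)) (T.ts (nat_lit 3) (T.im (nat_lit 7) (nat_lit 2)) T.ie))))) (T.ts (nat_lit 1) (T.ts (nat_lit 4) (T.ls (nat_lit 2) (nat_lit 4)) (T.ts (nat_lit 2) (T.ls (nat_lit 3) (nat_lit 4)) (T.ts (nat_lit 1) (T.ls (nat_lit 2) (nat_lit 4)) (T.ts (nat_lit 3) (T.im (nat_lit 7) (nat_lit 2)) (T.ts (nat_lit 0) (T.im (nat_lit 5) (nat_lit 3)) T.ie))))) (T.ts (nat_lit 0) (T.ts (nat_lit 4) (T.ls (nat_lit 2) (nat_lit 3)) (T.ts (nat_lit 2) (T.ls (nat_lit 3) (nat_lit 4)) (T.ts (nat_lit 1) (T.ls (nat_lit 2) (nat_lit 4)) (T.ts (nat_lit 0) (T.ls (nat_lit 2) (nat_lit 3)) (T.ts (nat_lit 3) (T.im (nat_lit 7) (nat_lit 2)) T.ie))))) (T.ts (nat_lit 3) (T.im (nat_lit 7) (nat_lit 1)) T.ie)))))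 d199))
def d201 : T := (T.ts (nat_lit 3) (T.ts (nat_lit 3) (T.ts (nat_lit 2) (T.ts (nat_lit 2) (T.ls (nat_lit 2) (nat_lit 3)) (T.ts (nat_lit 1) (T.ls (nat_lit 3) (nat_lit 4)) (T.ts (nat_lit 0) (T.ls (nat_lit 2) (nat_lit 4)) (T.ts (nat_lit 3) (T.im (nat_lit 7) (nat_lit 2)) (T.nw (T.ls (nat_lit 2) (nat_lit 3))))))) (T.ts (nat_lit 1) (T.ts (nat_lit 2) (T.ls (nat_lit 2) (nat_lit 3)) (T.ts (nat_lit 1) (T.ls (nat_lit 3) (nat_lit 4)) (T.ts (nat_lit 0) (T.ls (nat_lit 2) (nat_lit 4)) (T.ts (nat_lit 3) (T.im (nat_lit 7) (nat_lit 2)) (T.nw (T.ls (nat_lit 2) (nat_lit 3))))))) (T.ts (nat_lit 0) (T.ts (nat_lit 2) (T.ls (nat_lit 2) (nat_lit 3)) (T.ts (nat_lit 1) (T.ls (nat_lit 3) (nat_lit 4)) (T.ts (nat_lit 0) (T.ls (nat_lit 2) (nat_lit 4)) (T.ts (nat_lit 3) (T.im (nat_lit 5) (nat_lit 3)) (T.nw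 (T.ls (nat_lit 2) (nat_lit 3))))))) (T.ts (nat_lit 3) (T.im (nat_lit 7) (nat_lit 1)) (T.nw (T.ts (nat_lit 3) (T.ls (nat_lit 2) (nat_lit 3)) (T.ts (nat_lit 2) (T.ls (nat_lit 3) (nat_lit 4)) (T.ts (nat_lit 1) (T.ls (nat_lit 2) (nat_lit 4)) (T.ts (nat_lit 0) (T.ls (nat_lit 2) (nat_lit 3)) (T.ts (nat_lit 4) (T.im (nat_lit 7) (nat_lit 2)) T.ie)))))))))) (T.ts (nat_lit 2) d193 d194)) (T.ts (nat_lit 2) d196 (T.ts (nat_lit 1) d198 (T.ts (nat_lit 0) (T.im (nat_lit 5) (nat_lit 1)) (T.nw d200)))))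
def d202 : T := (T.ts (nat_lit 4) (T.ts (nat_lit 4) (T.ls (nat_lit 2) (nat_lit 3)) (T.ts (nat_lit 2) (T.ts (nat_lit 4) (T.ts (nat_lit 3) (T.ts (nat_lit 4) (T.ts (nat_lit 2) (T.im (nat_lit 7) (nat_lit 4)) (T.sk (T.ls (nat_lit 2) (nat_lit 3)))) (T.sk (T.ls (nat_lit 2) (nat_lit 3)))) (T.sk (T.ls (nat_lit 2) (nat_lit 3)))) (T.ts (nat_lit 1) (T.ls (nat_lit 2) (nat_lit 3)) (T.sk (T.ls (nat_lit 2) (nat_lit 3))))) (T.ts (nat_lit 1) (T.ls (nat_lit 2) (nat_lit 4)) (T.ts (nat_lit 0) (T.ls (nat_lit 2) (nat_lit 3)) (T.ts (nat_lit 3) (T.im (nat_lit 7) (nat_lit 2)) T.ie))))) (T.ts (nat_lit 2) (T.ts (nat_lit 4) (T.ls (nat_lit 3) (nat_lit 4)) (T.ts (nat_lit 2) (T.ls (nat_lit 3) (nat_lit 4)) (T.ts (nat_lit 1) (T.ls (nat_lit 2) (nat_lit 4)) (T.ts (nat_lit 0) (T.ls (nat_lit 2) (nat_lit 3)) (T.ts (nat_lit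 3) (T.im (nat_lit 7) (nat_lit 2)) T.ie))))) (T.ts (nat_lit 1) (T.ts (nat_lit 4) (T.ls (nat_lit 2) (nat_lit 4)) (T.ts (nat_lit 2) (T.ls (nat_lit 3) (nat_lit 4)) (T.ts (nat_lit 1) (T.ls (nat_lit 2) (nat_lit 4)) (T.ts (nat_lit 0) (T.ls (nat_lit 2) (nat_lit 3)) (T.ts (nat_lit 3) (T.im (nat_lit 7) (nat_lit 2)) T.ie))))) (T.ts (nat_lit 0) (T.ts (nat_lit 2) (T.ls (nat_lit 3) (nat_lit 4)) (T.ts (nat_lit 1) (T.ls (nat_lit 2) (nat_lit 4)) (T.ts (nat_lit 0) (T.ls (nat_lit 2) (nat_lit 3)) (T.ts (nat_lit 4) (T.im (nat_lit 5) (nat_lit 3)) (T.ts (nat_lit 3) (T.im (nat_lit 7) (nat_lit 2)) T.ie))))) (T.ts (nat_lit 3) (T.im (nat_lit 7) (nat_lit 1)) T.ie)))))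
def d203 : T := (T.ts (nat_lit 2) (T.ts (nat_lit 4) (T.ts (nat_lit 4) (T.ls (nat_lit 2) (nat_lit 3)) (T.ts (nat_lit 3) (T.ls (nat_lit 3) (nat_lit 4)) (T.ts (nat_lit 1) (T.ls (nat_lit 2) (nat_lit 4)) (T.ts (nat_lit 0) (T.ls (nat_lit 2) (nat_lit 3)) (T.ts (nat_lit 2) (T.im (nat_lit 7) (nat_lit 2)) T.ie))))) (T.ts (nat_lit 3) (T.ts (nat_lit 4) (T.ls (nat_lit 2) (nat_lit 3)) (T.ts (nat_lit 3) (T.ls (nat_lit 2) (nat_lit 3)) (T.ts (nat_lit 1) (T.ls (nat_lit 2) (nat_lit 4)) (T.ts (nat_lit 0) (T.ls (nat_lit 2) (nat_lit 3)) (T.ts (nat_lit 2) (T.im (nat_lit 7) (nat_lit 2)) T.ie))))) (T.ts (nat_lit 1) (T.ts (nat_lit 4) (T.ls (nat_lit 2) (nat_lit 4)) (T.ts (nat_lit 3) (T.ls (nat_lit 2) (nat_lit 3)) (T.ts (nat_lit 1) (T.ls (nat_lit 2) (nat_lit 4)) (T.ts (nat_lit 2) (T.im (nat_lit 7) (nat_lit 2))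 (T.ts (nat_lit 0) (T.im (nat_lit 3) (nat_lit 4)) T.ie))))) (T.ts (nat_lit 0) (T.ts (nat_lit 3) (T.ls (nat_lit 2) (nat_lit 3)) (T.ts (nat_lit 1) (T.ls (nat_lit 2) (nat_lit 4)) (T.ts (nat_lit 0) (T.ls (nat_lit 2) (nat_lit 3)) (T.ts (nat_lit 4) (T.im (nat_lit 5) (nat_lit 3)) (T.ts (nat_lit 2) (T.im (nat_lit 7) (nat_lit 2)) T.ie))))) (T.ts (nat_lit 2) (T.im (nat_lit 7) (nat_lit 1)) T.ie))))) (T.ts (nat_lit 1) (T.ts (nat_lit 4) (T.ts (nat_lit 4) (T.ls (nat_lit 2) (nat_lit 3)) (T.ts (nat_lit 3) (T.ls (nat_lit 2) (nat_lit 4)) (T.ts (nat_lit 2) (T.ls (nat_lit 3) (nat_lit 4)) (T.ts (nat_lit 0) (T.ls (nat_lit 2) (nat_lit 3)) (T.ts (nat_lit 1) (T.im (nat_lit 7) (nat_lit 2)) T.ie))))) (T.ts (nat_lit 3) (T.ts (nat_lit 4) (T.ls (nat_lit 2) (nat_lit 3)) (T.ts (nat_lit 3) (T.ls (nat_lit 2) (nat_lit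 3)) (T.ts (nat_lit 2) (T.ls (nat_lit 3) (nat_lit 4)) (T.ts (nat_lit 0) (T.ls (nat_lit 2) (nat_lit 3)) (T.ts (nat_lit 1) (T.im (nat_lit 7) (nat_lit 2)) T.ie))))) (T.ts (nat_lit 2) (T.ts (nat_lit 4) (T.ls (nat_lit 3) (nat_lit 4)) (T.ts (nat_lit 3) (T.ls (nat_lit 2) (nat_lit 3)) (T.ts (nat_lit 2) (T.ls (nat_lit 3) (nat_lit 4)) (T.ts (nat_lit 0) (T.ls (nat_lit 2) (nat_lit 3)) (T.ts (nat_lit 1) (T.im (nat_lit 7) (nat_lit 2)) T.ie))))) (T.ts (nat_lit 0) (T.ts (nat_lit 3) (T.ls (nat_lit 2) (nat_lit 3)) (T.ts (nat_lit 2) (T.ls (nat_lit 3) (nat_lit 4)) (T.ts (nat_lit 0) (T.ls (nat_lit 2) (nat_lit 3)) (T.ts (nat_lit 4) (T.im (nat_lit 5) (nat_lit 3)) (T.ts (nat_lit 1) (T.im (nat_lit 7) (nat_lit 2)) T.ie))))) (T.ts (nat_lit 1) (T.im (nat_lit 7) (nat_lit 1)) T.ie))))) (T.ts (nat_lit 0) (T.im (nat_lit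 5) (nat_lit 2)) T.ie)))
def d204 : T := (T.ts (nat_lit 2) (T.ts (nat_lit 4) (T.ts (nat_lit 4) (T.ls (nat_lit 2) (nat_lit 3)) (T.ts (nat_lit 3) (T.ls (nat_lit 3) (nat_lit 4)) (T.ts (nat_lit 1) (T.ls (nat_lit 2) (nat_lit 4)) (T.ts (nat_lit 0) (T.ls (nat_lit 2) (nat_lit 3)) (T.ts (nat_lit 2) (T.im (nat_lit 7) (nat_lit 2)) T.ie))))) (T.ts (nat_lit 3) (T.ts (nat_lit 4) (T.ls (nat_lit 2) (nat_lit 3)) (T.ts (nat_lit 3) (T.ls (nat_lit 2) (nat_lit 3)) (T.ts (nat_lit 1) (T.ls (nat_lit 2) (nat_lit 4)) (T.ts (nat_lit 0) (T.ls (nat_lit 2) (nat_lit 3)) (T.ts (nat_lit 2) (T.im (nat_lit 7) (nat_lit 2)) T.ie))))) (T.ts (nat_lit 1) (T.ts (nat_lit 4) (T.ls (nat_lit 2) (nat_lit 4)) (T.ts (nat_lit 3) (T.ls (nat_lit 2) (nat_lit 3)) (T.ts (nat_lit 1) (T.ls (nat_lit 2) (nat_lit 4)) (T.ts (nat_lit 2) (T.im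 (nat_lit 7) (nat_lit 2)) (T.ts (nat_lit 0) (T.im (nat_lit 3) (nat_lit 4)) T.ie))))) (T.ts (nat_lit 0) (T.ts (nat_lit 4) (T.ls (nat_lit 2) (nat_lit 3)) (T.ts (nat_lit 1) (T.ls (nat_lit 2) (nat_lit 4)) (T.ts (nat_lit 0) (T.ls (nat_lit 2) (nat_lit 3)) (T.ts (nat_lit 3) (T.im (nat_lit 5) (nat_lit 3)) (T.ts (nat_lit 2) (T.im (nat_lit 7) (nat_lit 2)) T.ie))))) (T.ts (nat_lit 2) (T.im (nat_lit 7) (nat_lit 1)) T.ie))))) (T.ts (nat_lit 1) (T.ts (nat_lit 4) (T.ts (nat_lit 4) (T.ls (nat_lit 2) (nat_lit 3)) (T.ts (nat_lit 3) (T.ls (nat_lit 2) (nat_lit 4)) (T.ts (nat_lit 2) (T.ls (nat_lit 3) (nat_lit 4)) (T.ts (nat_lit 0) (T.ls (nat_lit 2) (nat_lit 3)) (T.ts (nat_lit 1) (T.im (nat_lit 7) (nat_lit 2)) T.ie))))) (T.ts (nat_lit 3) (T.ts (nat_lit 4) (T.ls (nat_lit 2) (nat_lit 3)) (T.ts (nat_lit 3)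 (T.ls (nat_lit 2) (nat_lit 3)) (T.ts (nat_lit 2) (T.ls (nat_lit 3) (nat_lit 4)) (T.ts (nat_lit 0) (T.ls (nat_lit 2) (nat_lit 3)) (T.ts (nat_lit 1) (T.im (nat_lit 7) (nat_lit 2)) T.ie))))) (T.ts (nat_lit 2) (T.ts (nat_lit 4) (T.ls (nat_lit 3) (nat_lit 4)) (T.ts (nat_lit 3) (T.ls (nat_lit 2) (nat_lit 3)) (T.ts (nat_lit 2) (T.ls (nat_lit 3) (nat_lit 4)) (T.ts (nat_lit 0) (T.ls (nat_lit 2) (nat_lit 3)) (T.ts (nat_lit 1) (T.im (nat_lit 7) (nat_lit 2)) T.ie))))) (T.ts (nat_lit 0) (T.ts (nat_lit 4) (T.ls (nat_lit 2) (nat_lit 3)) (T.ts (nat_lit 2) (T.ls (nat_lit 3) (nat_lit 4)) (T.ts (nat_lit 0) (T.ls (nat_lit 2) (nat_lit 3)) (T.ts (nat_lit 3) (T.im (nat_lit 5) (nat_lit 3)) (T.ts (nat_lit 1) (T.im (nat_lit 7) (nat_lit 2)) T.ie))))) (T.ts (nat_lit 1) (T.im (nat_lit 7) (nat_lit 1)) T.ie)))))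 (T.ts (nat_lit 0) (T.im (nat_lit 5) (nat_lit 2)) T.ie)))
def d205 : T := (T.ts (nat_lit 4) (T.ts (nat_lit 3) (T.ts (nat_lit 3) (T.ls (nat_lit 2) (nat_lit 3)) (T.ts (nat_lit 2) (T.ls (nat_lit 3) (nat_lit 4)) (T.ts (nat_lit 1) (T.ls (nat_lit 2) (nat_lit 4)) (T.ts (nat_lit 0) (T.ls (nat_lit 2) (nat_lit 3)) (T.ts (nat_lit 4) (T.im (nat_lit 7) (nat_lit 2)) T.ie))))) (T.ts (nat_lit 2) (T.ts (nat_lit 3) (T.ls (nat_lit 2) (nat_lit 3)) (T.ts (nat_lit 2) (T.ls (nat_lit 3) (nat_lit 4)) (T.ts (nat_lit 0) (T.ls (nat_lit 2) (nat_lit 3)) (T.ts (nat_lit 4) (T.im (nat_lit 7) (nat_lit 2)) (T.ts (nat_lit 1) (T.im (nat_lit 1) (nat_lit 5)) T.ie))))) (T.ts (nat_lit 1) (T.ts (nat_lit 3) (T.ls (nat_lit 2) (nat_lit 3)) (T.ts (nat_lit 2) (T.ls (nat_lit 3) (nat_lit 4)) (T.ts (nat_lit 1) (T.ls (nat_lit 2) (nat_lit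 4)) (T.ts (nat_lit 0) (T.ls (nat_lit 2) (nat_lit 3)) (T.ts (nat_lit 4) (T.im (nat_lit 7) (nat_lit 2)) T.ie))))) (T.ts (nat_lit 0) (T.ts (nat_lit 2) (T.ls (nat_lit 3) (nat_lit 4)) (T.ts (nat_lit 1) (T.ls (nat_lit 2) (nat_lit 4)) (T.ts (nat_lit 0) (T.ls (nat_lit 2) (nat_lit 3)) (T.ts (nat_lit 4) (T.im (nat_lit 7) (nat_lit 2)) (T.ts (nat_lit 3) (T.im (nat_lit 5) (nat_lit 3)) T.ie))))) (T.ts (nat_lit 4) (T.im (nat_lit 7) (nat_lit 1)) T.ie))))) (T.ts (nat_lit 3) (T.ts (nat_lit 4) (T.ts (nat_lit 4) (T.ls (nat_lit 2) (nat_lit 3)) (T.ts (nat_lit 2) (T.ls (nat_lit 3) (nat_lit 4)) (T.ts (nat_lit 1) (T.ls (nat_lit 2) (nat_lit 4)) (T.ts (nat_lit 0) (T.ls (nat_lit 2) (nat_lit 3)) (T.ts (nat_lit 3) (T.im (nat_lit 7) (nat_lit 2)) T.ie))))) (T.ts (nat_lit 2) (T.ts (nat_lit 4) (T.ls (nat_lit 3) (nat_lit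 4)) (T.ts (nat_lit 2) (T.ls (nat_lit 3) (nat_lit 4)) (T.ts (nat_lit 1) (T.ls (nat_lit 2) (nat_lit 4)) (T.ts (nat_lit 0) (T.ls (nat_lit 2) (nat_lit 3)) (T.ts (nat_lit 3) (T.im (nat_lit 7) (nat_lit 2)) T.ie))))) (T.ts (nat_lit 1) (T.ts (nat_lit 4) (T.ls (nat_lit 2) (nat_lit 4)) (T.ts (nat_lit 2) (T.ls (nat_lit 3) (nat_lit 4)) (T.ts (nat_lit 1) (T.ls (nat_lit 2) (nat_lit 4)) (T.ts (nat_lit 0) (T.ls (nat_lit 2) (nat_lit 3)) (T.ts (nat_lit 3) (T.im (nat_lit 7) (nat_lit 2)) T.ie))))) (T.ts (nat_lit 0) (T.ts (nat_lit 4) (T.ls (nat_lit 2) (nat_lit 3)) (T.ts (nat_lit 2) (T.ls (nat_lit 3) (nat_lit 4)) (T.ts (nat_lit 1) (T.ls (nat_lit 2) (nat_lit 4)) (T.ts (nat_lit 0) (T.ls (nat_lit 2) (nat_lit 3)) (T.ts (nat_lit 3) (T.im (nat_lit 5) (nat_lit 3)) T.ie))))) (T.ts (nat_lit 3) (T.im (nat_lit 7)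 (nat_lit 1)) T.ie))))) d204))
def d206 : T := (T.ts (nat_lit 3) (T.ts (nat_lit 4) (T.ts (nat_lit 4) (T.ls (nat_lit 2) (nat_lit 3)) (T.ts (nat_lit 2) (T.ls (nat_lit 3) (nat_lit 4)) (T.ts (nat_lit 1) (T.ls (nat_lit 2) (nat_lit 4)) (T.ts (nat_lit 0) (T.ls (nat_lit 2) (nat_lit 3)) (T.ts (nat_lit 3) (T.im (nat_lit 7) (nat_lit 2)) T.ie))))) (T.ts (nat_lit 2) (T.ts (nat_lit 4) (T.ls (nat_lit 3) (nat_lit 4)) (T.ts (nat_lit 2) (T.ls (nat_lit 3) (nat_lit 4)) (T.ts (nat_lit 1) (T.ls (nat_lit 2) (nat_lit 4)) (T.ts (nat_lit 0) (T.ls (nat_lit 2) (nat_lit 3)) (T.ts (nat_lit 3) (T.im (nat_lit 7) (nat_lit 2)) T.ie))))) (T.ts (nat_lit 1) (T.ts (nat_lit 4) (T.ls (nat_lit 2) (nat_lit 4)) (T.ts (nat_lit 2) (T.ls (nat_lit 3) (nat_lit 4)) (T.ts (nat_lit 1) (T.ls (nat_lit 2) (nat_lit 4)) (T.ts (nat_lit 0)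 (T.ls (nat_lit 2) (nat_lit 3)) (T.ts (nat_lit 3) (T.im (nat_lit 7) (nat_lit 2)) T.ie))))) (T.ts (nat_lit 0) (T.ts (nat_lit 4) (T.ls (nat_lit 2) (nat_lit 3)) (T.ts (nat_lit 1) (T.ls (nat_lit 2) (nat_lit 4)) (T.ts (nat_lit 0) (T.ls (nat_lit 2) (nat_lit 3)) (T.ts (nat_lit 3) (T.im (nat_lit 7) (nat_lit 2)) (T.ts (nat_lit 2) (T.im (nat_lit 5) (nat_lit 3)) T.ie))))) (T.ts (nat_lit 3) (T.im (nat_lit 7) (nat_lit 1)) T.ie))))) (T.ts (nat_lit 2) (T.ts (nat_lit 4) (T.ts (nat_lit 4) (T.ls (nat_lit 2) (nat_lit 3)) (T.ts (nat_lit 3) (T.ls (nat_lit 3) (nat_lit 4)) (T.ts (nat_lit 1) (T.ls (nat_lit 2) (nat_lit 4)) (T.ts (nat_lit 0) (T.ls (nat_lit 2) (nat_lit 3)) (T.ts (nat_lit 2) (T.im (nat_lit 7) (nat_lit 2)) T.ie))))) (T.ts (nat_lit 3) (T.ts (nat_lit 4) (T.ls (nat_lit 2) (nat_lit 3)) (T.ts (nat_lit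 3) (T.ls (nat_lit 2) (nat_lit 3)) (T.ts (nat_lit 1) (T.ls (nat_lit 2) (nat_lit 4)) (T.ts (nat_lit 0) (T.ls (nat_lit 2) (nat_lit 3)) (T.ts (nat_lit 2) (T.im (nat_lit 7) (nat_lit 2)) T.ie))))) (T.ts (nat_lit 1) (T.ts (nat_lit 4) (T.ls (nat_lit 2) (nat_lit 4)) (T.ts (nat_lit 3) (T.ls (nat_lit 2) (nat_lit 3)) (T.ts (nat_lit 1) (T.ls (nat_lit 2) (nat_lit 4)) (T.ts (nat_lit 2) (T.im (nat_lit 7) (nat_lit 2)) (T.ts (nat_lit 0) (T.im (nat_lit 3) (nat_lit 4)) T.ie))))) (T.ts (nat_lit 0) (T.ts (nat_lit 4) (T.ls (nat_lit 2) (nat_lit 3)) (T.ts (nat_lit 3) (T.ls (nat_lit 2) (nat_lit 3)) (T.ts (nat_lit 1) (T.ls (nat_lit 2) (nat_lit 4)) (T.ts (nat_lit 0) (T.ls (nat_lit 2) (nat_lit 3)) (T.ts (nat_lit 2) (T.im (nat_lit 5) (nat_lit 3)) T.ie))))) (T.ts (nat_lit 2) (T.im (nat_lit 7) (nat_lit 1)) T.ie)))))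 (T.ts (nat_lit 1) (T.im (nat_lit 3) (nat_lit 3)) (T.ts (nat_lit 0) (T.im (nat_lit 5) (nat_lit 2)) T.ie))))
def d207 : T := (T.ts (nat_lit 2) (T.ts (nat_lit 4) (T.ts (nat_lit 4) (T.ls (nat_lit 2) (nat_lit 3)) (T.ts (nat_lit 3) (T.ls (nat_lit 3) (nat_lit 4)) (T.ts (nat_lit 1) (T.ls (nat_lit 2) (nat_lit 4)) (T.ts (nat_lit 0) (T.ls (nat_lit 2) (nat_lit 3)) (T.ts (nat_lit 2) (T.im (nat_lit 7) (nat_lit 2)) T.ie))))) (T.ts (nat_lit 3) (T.ts (nat_lit 4) (T.ls (nat_lit 2) (nat_lit 3)) (T.ts (nat_lit 3) (T.ls (nat_lit 2) (nat_lit 3)) (T.ts (nat_lit 1) (T.ls (nat_lit 2) (nat_lit 4)) (T.ts (nat_lit 0) (T.ls (nat_lit 2) (nat_lit 3)) (T.ts (nat_lit 2) (T.im (nat_lit 7) (nat_lit 2)) T.ie))))) (T.ts (nat_lit 1) (T.ts (nat_lit 4) (T.ls (nat_lit 2) (nat_lit 4)) (T.ts (nat_lit 3) (T.ls (nat_lit 2) (nat_lit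 3)) (T.ts (nat_lit 1) (T.ls (nat_lit 2) (nat_lit 4)) (T.ts (nat_lit 2) (T.im (nat_lit 7) (nat_lit 2)) (T.ts (nat_lit 0) (T.im (nat_lit 3) (nat_lit 4)) T.ie))))) (T.ts (nat_lit 0) (T.ts (nat_lit 4) (T.ls (nat_lit 2) (nat_lit 3)) (T.ts (nat_lit 3) (T.ls (nat_lit 2) (nat_lit 3)) (T.ts (nat_lit 0) (T.ls (nat_lit 2) (nat_lit 3)) (T.ts (nat_lit 2) (T.im (nat_lit 7) (nat_lit 2)) (T.ts (nat_lit 1) (T.im (nat_lit 5) (nat_lit 3)) T.ie))))) (T.ts (nat_lit 2) (T.im (nat_lit 7) (nat_lit 1)) T.ie))))) (T.ts (nat_lit 1) (T.ts (nat_lit 4) (T.ts (nat_lit 4) (T.ls (nat_lit 2) (nat_lit 3)) (T.ts (nat_lit 3) (T.ls (nat_lit 2) (nat_lit 4)) (T.ts (nat_lit 2) (T.ls (nat_lit 3) (nat_lit 4)) (T.ts (nat_lit 0) (T.ls (nat_lit 2) (nat_lit 3)) (T.ts (nat_lit 1) (T.im (nat_lit 7) (nat_lit 2)) T.ie))))) (T.ts (nat_lit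 3) (T.ts (nat_lit 4) (T.ls (nat_lit 2) (nat_lit 3)) (T.ts (nat_lit 3) (T.ls (nat_lit 2) (nat_lit 3)) (T.ts (nat_lit 2) (T.ls (nat_lit 3) (nat_lit 4)) (T.ts (nat_lit 0) (T.ls (nat_lit 2) (nat_lit 3)) (T.ts (nat_lit 1) (T.im (nat_lit 7) (nat_lit 2)) T.ie))))) (T.ts (nat_lit 2) (T.ts (nat_lit 4) (T.ls (nat_lit 3) (nat_lit 4)) (T.ts (nat_lit 3) (T.ls (nat_lit 2) (nat_lit 3)) (T.ts (nat_lit 2) (T.ls (nat_lit 3) (nat_lit 4)) (T.ts (nat_lit 0) (T.ls (nat_lit 2) (nat_lit 3)) (T.ts (nat_lit 1) (T.im (nat_lit 7) (nat_lit 2)) T.ie))))) (T.ts (nat_lit 0) (T.ts (nat_lit 4) (T.ls (nat_lit 2) (nat_lit 3)) (T.ts (nat_lit 3) (T.ls (nat_lit 2) (nat_lit 3)) (T.ts (nat_lit 2) (T.ls (nat_lit 3) (nat_lit 4)) (T.ts (nat_lit 0) (T.ls (nat_lit 2) (nat_lit 3)) (T.ts (nat_lit 1) (T.im (nat_lit 5) (nat_lit 3))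 T.ie))))) (T.ts (nat_lit 1) (T.im (nat_lit 7) (nat_lit 1)) T.ie))))) (T.ts (nat_lit 0) (T.im (nat_lit 5) (nat_lit 2)) T.ie)))
def d208 : T := (T.ts (nat_lit 4) (T.ts (nat_lit 3) (T.ts (nat_lit 3) (T.ls (nat_lit 2) (nat_lit 3)) (T.ts (nat_lit 2) (T.ls (nat_lit 3) (nat_lit 4)) (T.ts (nat_lit 1) (T.ls (nat_lit 2) (nat_lit 4)) (T.ts (nat_lit 0) (T.ls (nat_lit 2) (nat_lit 3)) (T.ts (nat_lit 4) (T.im (nat_lit 7) (nat_lit 2)) T.ie))))) (T.ts (nat_lit 2) (T.ts (nat_lit 3) (T.ls (nat_lit 2) (nat_lit 3)) (T.ts (nat_lit 2) (T.ls (nat_lit 3) (nat_lit 4)) (T.ts (nat_lit 1) (T.ls (nat_lit 2) (nat_lit 4)) (T.ts (nat_lit 0) (T.ls (nat_lit 2) (nat_lit 3)) (T.ts (nat_lit 4) (T.im (nat_lit 7) (nat_lit 2)) T.ie))))) (T.ts (nat_lit 1) (T.ts (nat_lit 3) (T.ls (nat_lit 2) (nat_lit 3)) (T.ts (nat_lit 2)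 (T.ls (nat_lit 3) (nat_lit 4)) (T.ts (nat_lit 1) (T.ls (nat_lit 2) (nat_lit 4)) (T.ts (nat_lit 0) (T.ls (nat_lit 2) (nat_lit 3)) (T.ts (nat_lit 4) (T.im (nat_lit 7) (nat_lit 2)) T.ie))))) (T.ts (nat_lit 0) (T.ts (nat_lit 3) (T.ls (nat_lit 2) (nat_lit 3)) (T.ts (nat_lit 2) (T.ls (nat_lit 3) (nat_lit 4)) (T.ts (nat_lit 0) (T.ls (nat_lit 2) (nat_lit 3)) (T.ts (nat_lit 4) (T.im (nat_lit 7) (nat_lit 2)) (T.ts (nat_lit 1) (T.im (nat_lit 5) (nat_lit 3)) T.ie))))) (T.ts (nat_lit 4) (T.im (nat_lit 7) (nat_lit 1)) T.ie))))) (T.ts (nat_lit 3) (T.ts (nat_lit 4) (T.ts (nat_lit 4) (T.ls (nat_lit 2) (nat_lit 3)) (T.ts (nat_lit 2) (T.ls (nat_lit 3) (nat_lit 4)) (T.ts (nat_lit 1) (T.ls (nat_lit 2) (nat_lit 4)) (T.ts (nat_lit 0) (T.ls (nat_lit 2) (nat_lit 3)) (T.ts (nat_lit 3) (T.im (nat_lit 7) (nat_lit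 2)) T.ie))))) (T.ts (nat_lit 2) (T.ts (nat_lit 4) (T.ls (nat_lit 3) (nat_lit 4)) (T.ts (nat_lit 2) (T.ls (nat_lit 3) (nat_lit 4)) (T.ts (nat_lit 1) (T.ls (nat_lit 2) (nat_lit 4)) (T.ts (nat_lit 0) (T.ls (nat_lit 2) (nat_lit 3)) (T.ts (nat_lit 3) (T.im (nat_lit 7) (nat_lit 2)) T.ie))))) (T.ts (nat_lit 1) (T.ts (nat_lit 4) (T.ls (nat_lit 2) (nat_lit 4)) (T.ts (nat_lit 2) (T.ls (nat_lit 3) (nat_lit 4)) (T.ts (nat_lit 1) (T.ls (nat_lit 2) (nat_lit 4)) (T.ts (nat_lit 0) (T.ls (nat_lit 2) (nat_lit 3)) (T.ts (nat_lit 3) (T.im (nat_lit 7) (nat_lit 2)) T.ie))))) (T.ts (nat_lit 0) (T.ts (nat_lit 4) (T.ls (nat_lit 2) (nat_lit 3)) (T.ts (nat_lit 2) (T.ls (nat_lit 3) (nat_lit 4)) (T.ts (nat_lit 0) (T.ls (nat_lit 2) (nat_lit 3)) (T.ts (nat_lit 3) (T.im (nat_lit 7) (nat_lit 2)) (T.ts (nat_lit 1)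 (T.im (nat_lit 5) (nat_lit 3)) T.ie))))) (T.ts (nat_lit 3) (T.im (nat_lit 7) (nat_lit 1)) T.ie))))) d207))
def d209 : T := (T.ts (nat_lit 3) d205 (T.ts (nat_lit 2) (T.ts (nat_lit 4) (T.ts (nat_lit 3) (T.ts (nat_lit 3) (T.ls (nat_lit 2) (nat_lit 3)) (T.ts (nat_lit 2) (T.ls (nat_lit 3) (nat_lit 4)) (T.ts (nat_lit 1) (T.ls (nat_lit 2) (nat_lit 4)) (T.ts (nat_lit 0) (T.ls (nat_lit 2) (nat_lit 3)) (T.ts (nat_lit 4) (T.im (nat_lit 7) (nat_lit 2)) T.ie))))) (T.ts (nat_lit 2) (T.ts (nat_lit 3) (T.ls (nat_lit 2) (nat_lit 3)) (T.ts (nat_lit 2) (T.ls (nat_lit 3) (nat_lit 4)) (T.ts (nat_lit 1) (T.ls (nat_lit 2) (nat_lit 4)) (T.ts (nat_lit 0) (T.ls (nat_lit 2) (nat_lit 3)) (T.ts (nat_lit 4) (T.im (nat_lit 7) (nat_lit 2)) T.ie))))) (T.ts (nat_lit 1) (T.ts (nat_lit 3) (T.ls (nat_lit 2) (nat_lit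 3)) (T.ts (nat_lit 2) (T.ls (nat_lit 3) (nat_lit 4)) (T.ts (nat_lit 1) (T.ls (nat_lit 2) (nat_lit 4)) (T.ts (nat_lit 0) (T.ls (nat_lit 2) (nat_lit 3)) (T.ts (nat_lit 4) (T.im (nat_lit 7) (nat_lit 2)) T.ie))))) (T.ts (nat_lit 0) (T.ts (nat_lit 3) (T.ls (nat_lit 2) (nat_lit 3)) (T.ts (nat_lit 1) (T.ls (nat_lit 2) (nat_lit 4)) (T.ts (nat_lit 0) (T.ls (nat_lit 2) (nat_lit 3)) (T.ts (nat_lit 4) (T.im (nat_lit 7) (nat_lit 2)) (T.ts (nat_lit 2) (T.im (nat_lit 5) (nat_lit 3)) T.ie))))) (T.ts (nat_lit 4) (T.im (nat_lit 7) (nat_lit 1)) T.ie))))) d206) (T.ts (nat_lit 1) d208 (T.ts (nat_lit 0) (T.im (nat_lit 5) (nat_lit 1)) T.ie))))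
def d210 : T := (T.ts (nat_lit 1) (T.im (nat_lit 3) (nat_lit 2)) (T.nw (T.ts (nat_lit 4) (T.ts (nat_lit 4) (T.ts (nat_lit 3) (T.ts (nat_lit 3) (T.ls (nat_lit 2) (nat_lit 3)) (T.ts (nat_lit 2) (T.ls (nat_lit 3) (nat_lit 4)) (T.ts (nat_lit 1) (T.ls (nat_lit 2) (nat_lit 4)) (T.ts (nat_lit 0) (T.ls (nat_lit 2) (nat_lit 3)) (T.ts (nat_lit 4) (T.im (nat_lit 7) (nat_lit 2)) T.ie))))) (T.ts (nat_lit 2) (T.ts (nat_lit 3) (T.ls (nat_lit 2) (nat_lit 3)) (T.ts (nat_lit 2) (T.ls (nat_lit 3) (nat_lit 4)) (T.ts (nat_lit 1) (T.ls (nat_lit 2) (nat_lit 4)) (T.ts (nat_lit 0) (T.ls (nat_lit 2) (nat_lit 3)) (T.ts (nat_lit 4) (T.im (nat_lit 7) (nat_lit 2)) T.ie))))) (T.ts (nat_lit 1) (T.ts (nat_lit 3) (T.ls (nat_lit 2) (nat_lit 3)) (T.ts (nat_lit 2) (T.ls (nat_lit 3) (nat_lit 4)) (T.ts (nat_lit 1) (T.ls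 (nat_lit 2) (nat_lit 4)) (T.ts (nat_lit 0) (T.ls (nat_lit 2) (nat_lit 3)) (T.ts (nat_lit 4) (T.im (nat_lit 7) (nat_lit 2)) T.ie))))) (T.ts (nat_lit 0) (T.ts (nat_lit 3) (T.ls (nat_lit 2) (nat_lit 3)) (T.ts (nat_lit 2) (T.ls (nat_lit 3) (nat_lit 4)) (T.ts (nat_lit 1) (T.ls (nat_lit 2) (nat_lit 4)) (T.ts (nat_lit 0) (T.ls (nat_lit 2) (nat_lit 3)) (T.ts (nat_lit 4) (T.im (nat_lit 5) (nat_lit 3)) T.ie))))) (T.ts (nat_lit 4) (T.im (nat_lit 7) (nat_lit 1)) T.ie))))) (T.ts (nat_lit 3) d202 d203)) d209)))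
def d211 : T := (T.im (nat_lit 1) (nat_lit 1))
def d212 : T := (T.ts (nat_lit 0) (T.ts (nat_lit 3) (T.ts (nat_lit 2) (T.ts (nat_lit 1) (T.ts (nat_lit 3) (T.ts (nat_lit 2) (T.ts (nat_lit 2) (T.ts (nat_lit 3) (T.ts (nat_lit 3) (T.l1 (nat_lit 12300) (nat_lit 4) (nat_lit 20500)) (T.tp (T.sk (T.ls (nat_lit 3) (nat_lit 4))))) (T.tp (T.sk (T.ls (nat_lit 3) (nat_lit 4))))) (T.tp (T.sk (T.ls (nat_lit 3) (nat_lit 4))))) (T.tp (T.sk (T.ls (nat_lit 3) (nat_lit 4))))) (T.tp (T.sk (T.ls (nat_lit 3) (nat_lit 4))))) (T.tp (T.sk (T.ls (nat_lit 3) (nat_lit 4))))) (T.tp (T.sk (T.ls (nat_lit 3) (nat_lit 4))))) (T.tp (T.sk (T.ls (nat_lit 3) (nat_lit 4))))) (T.ts (nat_lit 3) (T.im (nat_lit 7) (nat_lit 2)) (T.nw (T.ts (nat_lit 4) (T.ts (nat_lit 3) (T.ts (nat_lit 2) (T.ts (nat_lit 4) (T.ts (nat_lit 3) (T.ts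 (nat_lit 3) (T.ts (nat_lit 4) (T.ts (nat_lit 4) (T.l1 (nat_lit 12300) (nat_lit 3) (nat_lit 20500)) (T.tp (T.sk (T.ls (nat_lit 3) (nat_lit 4))))) (T.tp (T.sk (T.ls (nat_lit 3) (nat_lit 4))))) (T.tp (T.sk (T.ls (nat_lit 3) (nat_lit 4))))) (T.tp (T.sk (T.ls (nat_lit 3) (nat_lit 4))))) (T.tp (T.sk (T.ls (nat_lit 3) (nat_lit 4))))) (T.tp (T.sk (T.ls (nat_lit 3) (nat_lit 4))))) (T.tp (T.sk (T.ls (nat_lit 3) (nat_lit 4))))) (T.tp (T.sk (T.ls (nat_lit 3) (nat_lit 4))))))))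
def d213 : T := (T.ts (nat_lit 1) (T.tp (T.ts (nat_lit 0) (T.ls (nat_lit 3) (nat_lit 4)) (T.ts (nat_lit 2) (T.im (nat_lit 5) (nat_lit 3)) (T.ts (nat_lit 1) (T.im (nat_lit 3) (nat_lit 4)) (T.nw (T.ts (nat_lit 3) (T.ts (nat_lit 2) (T.im (nat_lit 7) (nat_lit 3)) (T.sk (T.ls (nat_lit 3) (nat_lit 4)))) (T.sk (T.ls (nat_lit 3) (nat_lit 4))))))))) (T.ts (nat_lit 0) (T.ts (nat_lit 1) (T.ls (nat_lit 3) (nat_lit 4)) (T.ts (nat_lit 0) (T.ls (nat_lit 3) (nat_lit 4)) (T.ts (nat_lit 2) (T.im (nat_lit 7) (nat_lit 2)) (T.nw (T.ts (nat_lit 3) (T.ts (nat_lit 2) (T.ts (nat_lit 1) (T.ts (nat_lit 3) (T.ts (nat_lit 2) (T.ts (nat_lit 2) (T.ts (nat_lit 3) (T.ts (nat_lit 3) (T.l1 (nat_lit 12300) (nat_lit 4) (nat_lit 20500)) (T.tp (T.sk (T.ls (nat_lit 3) (nat_lit 4))))) (T.tp (T.sk (T.ls (nat_lit 3) (nat_lit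 4))))) (T.tp (T.sk (T.ls (nat_lit 3) (nat_lit 4))))) (T.tp (T.sk (T.ls (nat_lit 3) (nat_lit 4))))) (T.tp (T.sk (T.ls (nat_lit 3) (nat_lit 4))))) (T.tp (T.sk (T.ls (nat_lit 3) (nat_lit 4))))) (T.tp (T.sk (T.ls (nat_lit 3) (nat_lit 4))))) (T.tp (T.sk (T.ls (nat_lit 3) (nat_lit 4))))))))) (T.ts (nat_lit 2) (T.im (nat_lit 7) (nat_lit 1)) (T.nw (T.ts (nat_lit 2) (T.ls (nat_lit 3) (nat_lit 4)) (T.ts (nat_lit 1) (T.ls (nat_lit 3) (nat_lit 4)) d212))))))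
def d214 : T := (T.ts (nat_lit 0) (T.ts (nat_lit 3) (T.ts (nat_lit 2) (T.ts (nat_lit 1) (T.ts (nat_lit 3) (T.ts (nat_lit 2) (T.ts (nat_lit 2) (T.ts (nat_lit 3) (T.ts (nat_lit 1) (T.l1 (nat_lit 12300) (nat_lit 4) (nat_lit 20500)) (T.tp (T.sk (T.ls (nat_lit 3) (nat_lit 4))))) (T.tp (T.sk (T.ls (nat_lit 3) (nat_lit 4))))) (T.tp (T.sk (T.ls (nat_lit 3) (nat_lit 4))))) (T.tp (T.sk (T.ls (nat_lit 3) (nat_lit 4))))) (T.tp (T.sk (T.ls (nat_lit 3) (nat_lit 4))))) (T.tp (T.sk (T.ls (nat_lit 3) (nat_lit 4))))) (T.tp (T.sk (T.ls (nat_lit 3) (nat_lit 4))))) (T.tp (T.sk (T.ls (nat_lit 3) (nat_lit 4))))) (T.ts (nat_lit 1) (T.im (nat_lit 7) (nat_lit 2)) (T.nw (T.ts (nat_lit 4) (T.ts (nat_lit 3) (T.ts (nat_lit 2) (T.ts (nat_lit 4) (T.ts (nat_lit 3) (T.ts (nat_lit 3) (T.ts (nat_lit 4) (T.ts (nat_lit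 2) (T.l1 (nat_lit 12300) (nat_lit 3) (nat_lit 20500)) (T.tp (T.sk (T.ls (nat_lit 3) (nat_lit 4))))) (T.tp (T.sk (T.ls (nat_lit 3) (nat_lit 4))))) (T.tp (T.sk (T.ls (nat_lit 3) (nat_lit 4))))) (T.tp (T.sk (T.ls (nat_lit 3) (nat_lit 4))))) (T.tp (T.sk (T.ls (nat_lit 3) (nat_lit 4))))) (T.tp (T.sk (T.ls (nat_lit 3) (nat_lit 4))))) (T.tp (T.sk (T.ls (nat_lit 3) (nat_lit 4))))) (T.tp (T.sk (T.ls (nat_lit 3) (nat_lit 4))))))))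
def d215 : T := (T.ts (nat_lit 2) (T.ts (nat_lit 2) (T.ls (nat_lit 3) (nat_lit 4)) (T.ts (nat_lit 1) (T.ls (nat_lit 3) (nat_lit 4)) (T.ts (nat_lit 0) (T.im (nat_lit 7) (nat_lit 2)) (T.nw (T.ts (nat_lit 3) (T.ts (nat_lit 2) (T.ts (nat_lit 1) (T.ts (nat_lit 3) (T.ts (nat_lit 2) (T.ts (nat_lit 2) (T.ts (nat_lit 3) (T.ts (nat_lit 1) (T.l1 (nat_lit 12300) (nat_lit 4) (nat_lit 20500)) (T.tp (T.sk (T.ls (nat_lit 3) (nat_lit 4))))) (T.tp (T.sk (T.ls (nat_lit 3) (nat_lit 4))))) (T.tp (T.sk (T.ls (nat_lit 3) (nat_lit 4))))) (T.tp (T.sk (T.ls (nat_lit 3) (nat_lit 4))))) (T.tp (T.sk (T.ls (nat_lit 3) (nat_lit 4))))) (T.tp (T.sk (T.ls (nat_lit 3) (nat_lit 4))))) (T.tp (T.sk (T.ls (nat_lit 3) (nat_lit 4))))) (T.tp (T.sk (T.ls (nat_lit 3) (nat_lit 4))))))))) (T.ts (nat_lit 1) (T.ts (nat_lit 1) (T.ls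 (nat_lit 3) (nat_lit 4)) (T.ts (nat_lit 2) (T.im (nat_lit 5) (nat_lit 3)) (T.ts (nat_lit 0) (T.im (nat_lit 7) (nat_lit 2)) (T.nw (T.ts (nat_lit 3) (T.ts (nat_lit 2) (T.ts (nat_lit 1) (T.ts (nat_lit 3) (T.ts (nat_lit 2) (T.ts (nat_lit 2) (T.ts (nat_lit 3) (T.ts (nat_lit 1) (T.l1 (nat_lit 12300) (nat_lit 4) (nat_lit 20500)) (T.sk (T.lf (nat_lit 16569) (nat_lit 3) (nat_lit 12300) (nat_lit 4) (nat_lit 20500)))) (T.sk (T.lf (nat_lit 16569) (nat_lit 3) (nat_lit 12300) (nat_lit 4) (nat_lit 20500)))) (T.tp (T.sk (T.ls (nat_lit 3) (nat_lit 4))))) (T.tp (T.sk (T.ls (nat_lit 3) (nat_lit 4))))) (T.tp (T.sk (T.ls (nat_lit 3) (nat_lit 4))))) (T.tp (T.sk (T.ls (nat_lit 3) (nat_lit 4))))) (T.tp (T.sk (T.ls (nat_lit 3) (nat_lit 4))))) (T.tp (T.sk (T.ls (nat_lit 3) (nat_lit 4))))))))) (T.ts (nat_lit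 0) (T.im (nat_lit 7) (nat_lit 1)) (T.nw (T.ts (nat_lit 3) (T.tp (T.ts (nat_lit 2) (T.ts (nat_lit 1) (T.ts (nat_lit 3) (T.ts (nat_lit 2) (T.im (nat_lit 9) (nat_lit 3)) (T.sk (T.ls (nat_lit 3) (nat_lit 4)))) (T.sk (T.ls (nat_lit 3) (nat_lit 4)))) (T.sk (T.ls (nat_lit 3) (nat_lit 4)))) (T.sk (T.ls (nat_lit 3) (nat_lit 4))))) (T.ts (nat_lit 2) (T.ls (nat_lit 3) (nat_lit 4)) d214))))))
def d216 : T := (T.ts (nat_lit 1) (T.ts (nat_lit 3) (T.ls (nat_lit 3) (nat_lit 4)) (T.ts (nat_lit 2) (T.ls (nat_lit 3) (nat_lit 4)) (T.ts (nat_lit 1) (T.ls (nat_lit 3) (nat_lit 4)) (T.ts (nat_lit 0) (T.im (nat_lit 7) (nat_lit 2)) (T.nw (T.ts (nat_lit 4) (T.ts (nat_lit 3) (T.ts (nat_lit 2) (T.ts (nat_lit 4) (T.ts (nat_lit 3) (T.ts (nat_lit 3) (T.ts (nat_lit 4) (T.ts (nat_lit 1) (T.l1 (nat_lit 12300) (nat_lit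 3) (nat_lit 20500)) (T.tp (T.sk (T.ls (nat_lit 3) (nat_lit 4))))) (T.tp (T.sk (T.ls (nat_lit 3) (nat_lit 4))))) (T.tp (T.sk (T.ls (nat_lit 3) (nat_lit 4))))) (T.tp (T.sk (T.ls (nat_lit 3) (nat_lit 4))))) (T.tp (T.sk (T.ls (nat_lit 3) (nat_lit 4))))) (T.tp (T.sk (T.ls (nat_lit 3) (nat_lit 4))))) (T.tp (T.sk (T.ls (nat_lit 3) (nat_lit 4))))) (T.tp (T.sk (T.ls (nat_lit 3) (nat_lit 4)))))))))) (T.ts (nat_lit 0) (T.im (nat_lit 7) (nat_lit 1)) (T.nw (T.ts (nat_lit 4) (T.tp (T.ts (nat_lit 3) (T.ts (nat_lit 2) (T.ts (nat_lit 4) (T.ts (nat_lit 3) (T.im (nat_lit 9) (nat_lit 3)) (T.sk (T.ls (nat_lit 3) (nat_lit 4)))) (T.sk (T.ls (nat_lit 3) (nat_lit 4)))) (T.sk (T.ls (nat_lit 3) (nat_lit 4)))) (T.sk (T.ls (nat_lit 3) (nat_lit 4))))) (T.ts (nat_lit 3) (T.ls (nat_lit 3) (nat_lit 4)) (T.ts (nat_lit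 2) (T.ls (nat_lit 3) (nat_lit 4)) (T.ts (nat_lit 0) (T.ts (nat_lit 4) (T.ts (nat_lit 3) (T.ts (nat_lit 2) (T.ts (nat_lit 4) (T.ts (nat_lit 3) (T.ts (nat_lit 3) (T.ts (nat_lit 4) (T.ts (nat_lit 1) (T.l1 (nat_lit 12300) (nat_lit 3) (nat_lit 20500)) (T.tp (T.sk (T.ls (nat_lit 3) (nat_lit 4))))) (T.tp (T.sk (T.ls (nat_lit 3) (nat_lit 4))))) (T.tp (T.sk (T.ls (nat_lit 3) (nat_lit 4))))) (T.tp (T.sk (T.ls (nat_lit 3) (nat_lit 4))))) (T.tp (T.sk (T.ls (nat_lit 3) (nat_lit 4))))) (T.tp (T.sk (T.ls (nat_lit 3) (nat_lit 4))))) (T.tp (T.sk (T.ls (nat_lit 3) (nat_lit 4))))) (T.tp (T.sk (T.ls (nat_lit 3) (nat_lit 4))))) (T.tp (T.ts (nat_lit 1) (T.im (nat_lit 7) (nat_lit 2)) T.ie)))))))))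
def d217 : T := (T.ts (nat_lit 3) (T.ts (nat_lit 3) (T.ls (nat_lit 3) (nat_lit 4)) (T.ts (nat_lit 2) (T.ts (nat_lit 3) (T.ls (nat_lit 3) (nat_lit 4)) (T.ts (nat_lit 1) (T.ts (nat_lit 3) (T.ts (nat_lit 2) (T.ts (nat_lit 2) (T.l1 (nat_lit 12300) (nat_lit 4) (nat_lit 20500)) (T.tp (T.sk (T.ls (nat_lit 3) (nat_lit 4))))) (T.tp (T.sk (T.ls (nat_lit 3) (nat_lit 4))))) (T.tp (T.sk (T.ls (nat_lit 3) (nat_lit 4))))) (T.tp (T.sk (T.ls (nat_lit 3) (nat_lit 4)))))) (T.ts (nat_lit 1) (T.ls (nat_lit 3) (nat_lit 4)) (T.ts (nat_lit 0) (T.im (nat_lit 7) (nat_lit 2)) (T.nw (T.ts (nat_lit 4) (T.ts (nat_lit 3) (T.ts (nat_lit 2) (T.ts (nat_lit 4) (T.ts (nat_lit 3) (T.ts (nat_lit 3) (T.ts (nat_lit 4) (T.ts (nat_lit 1) (T.l1 (nat_lit 12300) (nat_lit 3) (nat_lit 20500)) (T.tp (T.sk (T.ls (nat_lit 3) (nat_lit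 4))))) (T.tp (T.sk (T.ls (nat_lit 3) (nat_lit 4))))) (T.tp (T.sk (T.ls (nat_lit 3) (nat_lit 4))))) (T.tp (T.sk (T.ls (nat_lit 3) (nat_lit 4))))) (T.tp (T.sk (T.ls (nat_lit 3) (nat_lit 4))))) (T.tp (T.sk (T.ls (nat_lit 3) (nat_lit 4))))) (T.tp (T.sk (T.ls (nat_lit 3) (nat_lit 4))))) (T.tp (T.sk (T.ls (nat_lit 3) (nat_lit 4)))))))))) (T.ts (nat_lit 2) (T.ts (nat_lit 2) (T.ls (nat_lit 3) (nat_lit 4)) (T.ts (nat_lit 1) (T.ls (nat_lit 3) (nat_lit 4)) (T.ts (nat_lit 3) (T.im (nat_lit 5) (nat_lit 3)) (T.ts (nat_lit 0) (T.im (nat_lit 7) (nat_lit 2)) (T.nw (T.ts (nat_lit 4) (T.ts (nat_lit 3) (T.ts (nat_lit 2) (T.ts (nat_lit 4) (T.ts (nat_lit 3) (T.ts (nat_lit 3) (T.ts (nat_lit 4) (T.ts (nat_lit 1) (T.l1 (nat_lit 12300) (nat_lit 3) (nat_lit 20500)) (T.sk (T.lf (nat_lit 16569) (nat_lit 3) (nat_lit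 20500) (nat_lit 4) (nat_lit 12300)))) (T.sk (T.lf (nat_lit 16569) (nat_lit 3) (nat_lit 20500) (nat_lit 4) (nat_lit 12300)))) (T.tp (T.sk (T.ls (nat_lit 3) (nat_lit 4))))) (T.tp (T.sk (T.ls (nat_lit 3) (nat_lit 4))))) (T.tp (T.sk (T.ls (nat_lit 3) (nat_lit 4))))) (T.tp (T.sk (T.ls (nat_lit 3) (nat_lit 4))))) (T.tp (T.sk (T.ls (nat_lit 3) (nat_lit 4))))) (T.tp (T.sk (T.ls (nat_lit 3) (nat_lit 4)))))))))) d216))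
def d218 : T := (T.ts (nat_lit 2) d213 (T.ts (nat_lit 0) d215 (T.ts (nat_lit 1) (T.im (nat_lit 3) (nat_lit 3)) (T.nw d217))))
def d219 : T := (T.ts (nat_lit 0) (T.ts (nat_lit 3) (T.ts (nat_lit 2) (T.ts (nat_lit 1) (T.ts (nat_lit 3) (T.ts (nat_lit 2) (T.ts (nat_lit 2) (T.ts (nat_lit 1) (T.ts (nat_lit 1) (T.l1 (nat_lit 12300) (nat_lit 4) (nat_lit 20500)) (T.tp (T.sk (T.ls (nat_lit 3) (nat_lit 4))))) (T.tp (T.sk (T.ls (nat_lit 3) (nat_lit 4))))) (T.tp (T.sk (T.ls (nat_lit 3) (nat_lit 4))))) (T.tp (T.sk (T.ls (nat_lit 3) (nat_lit 4))))) (T.tp (T.sk (T.ls (nat_lit 3) (nat_lit 4))))) (T.tp (T.sk (T.ls (nat_lit 3) (nat_lit 4))))) (T.tp (T.sk (T.ls (nat_lit 3) (nat_lit 4))))) (T.tp (T.sk (T.ls (nat_lit 3) (nat_lit 4))))) (T.ts (nat_lit 1) (T.im (nat_lit 7) (nat_lit 2)) (T.nw (T.ts (nat_lit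 4) (T.ts (nat_lit 3) (T.ts (nat_lit 2) (T.ts (nat_lit 4) (T.ts (nat_lit 3) (T.ts (nat_lit 3) (T.ts (nat_lit 2) (T.ts (nat_lit 2) (T.l1 (nat_lit 12300) (nat_lit 3) (nat_lit 20500)) (T.tp (T.sk (T.ls (nat_lit 3) (nat_lit 4))))) (T.tp (T.sk (T.ls (nat_lit 3) (nat_lit 4))))) (T.tp (T.sk (T.ls (nat_lit 3) (nat_lit 4))))) (T.tp (T.sk (T.ls (nat_lit 3) (nat_lit 4))))) (T.tp (T.sk (T.ls (nat_lit 3) (nat_lit 4))))) (T.tp (T.sk (T.ls (nat_lit 3) (nat_lit 4))))) (T.tp (T.sk (T.ls (nat_lit 3) (nat_lit 4))))) (T.tp (T.sk (T.ls (nat_lit 3) (nat_lit 4))))))))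
def d220 : T := (T.ts (nat_lit 2) (T.ts (nat_lit 2) (T.ls (nat_lit 3) (nat_lit 4)) (T.ts (nat_lit 1) (T.ls (nat_lit 3) (nat_lit 4)) (T.ts (nat_lit 0) (T.im (nat_lit 7) (nat_lit 2)) (T.nw (T.ts (nat_lit 3) (T.ts (nat_lit 2) (T.ts (nat_lit 1) (T.ts (nat_lit 3) (T.ts (nat_lit 2) (T.ts (nat_lit 2) (T.ts (nat_lit 1) (T.ts (nat_lit 1) (T.l1 (nat_lit 12300) (nat_lit 4) (nat_lit 20500)) (T.tp (T.sk (T.ls (nat_lit 3) (nat_lit 4))))) (T.tp (T.sk (T.ls (nat_lit 3) (nat_lit 4))))) (T.tp (T.sk (T.ls (nat_lit 3) (nat_lit 4))))) (T.tp (T.sk (T.ls (nat_lit 3) (nat_lit 4))))) (T.tp (T.sk (T.ls (nat_lit 3) (nat_lit 4))))) (T.tp (T.sk (T.ls (nat_lit 3) (nat_lit 4))))) (T.tp (T.sk (T.ls (nat_lit 3) (nat_lit 4))))) (T.tp (T.sk (T.ls (nat_lit 3) (nat_lit 4))))))))) (T.ts (nat_lit 1) (T.ts (nat_lit 2) (T.ls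 (nat_lit 3) (nat_lit 4)) (T.ts (nat_lit 1) (T.ls (nat_lit 3) (nat_lit 4)) (T.ts (nat_lit 0) (T.im (nat_lit 5) (nat_lit 3)) (T.nw (T.ts (nat_lit 3) (T.ts (nat_lit 2) (T.ts (nat_lit 1) (T.ts (nat_lit 3) (T.ts (nat_lit 2) (T.ts (nat_lit 2) (T.ts (nat_lit 1) (T.ts (nat_lit 1) (T.l1 (nat_lit 12300) (nat_lit 4) (nat_lit 20500)) (T.sk (T.lf (nat_lit 16569) (nat_lit 3) (nat_lit 12300) (nat_lit 4) (nat_lit 20500)))) (T.sk (T.lf (nat_lit 16569) (nat_lit 3) (nat_lit 12300) (nat_lit 4) (nat_lit 20500)))) (T.tp (T.sk (T.ls (nat_lit 3) (nat_lit 4))))) (T.tp (T.sk (T.ls (nat_lit 3) (nat_lit 4))))) (T.tp (T.sk (T.ls (nat_lit 3) (nat_lit 4))))) (T.tp (T.sk (T.ls (nat_lit 3) (nat_lit 4))))) (T.tp (T.sk (T.ls (nat_lit 3) (nat_lit 4))))) (T.tp (T.sk (T.ls (nat_lit 3) (nat_lit 4))))))))) (T.ts (nat_lit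 0) (T.im (nat_lit 7) (nat_lit 1)) (T.nw (T.ts (nat_lit 3) (T.tp (T.ts (nat_lit 2) (T.ts (nat_lit 1) (T.ts (nat_lit 3) (T.ts (nat_lit 2) (T.im (nat_lit 9) (nat_lit 3)) (T.sk (T.ls (nat_lit 3) (nat_lit 4)))) (T.sk (T.ls (nat_lit 3) (nat_lit 4)))) (T.sk (T.ls (nat_lit 3) (nat_lit 4)))) (T.sk (T.ls (nat_lit 3) (nat_lit 4))))) (T.ts (nat_lit 2) (T.ls (nat_lit 3) (nat_lit 4)) d219))))))
def d221 : T := (T.ts (nat_lit 1) (T.ts (nat_lit 3) (T.ls (nat_lit 3) (nat_lit 4)) (T.ts (nat_lit 2) (T.ls (nat_lit 3) (nat_lit 4)) (T.ts (nat_lit 1) (T.ls (nat_lit 3) (nat_lit 4)) (T.ts (nat_lit 0) (T.im (nat_lit 7) (nat_lit 2)) (T.nw (T.ts (nat_lit 4) (T.ts (nat_lit 3) (T.ts (nat_lit 2) (T.ts (nat_lit 4) (T.ts (nat_lit 3) (T.ts (nat_lit 3) (T.ts (nat_lit 2) (T.ts (nat_lit 1) (T.l1 (nat_lit 12300) (nat_lit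 3) (nat_lit 20500)) (T.tp (T.sk (T.ls (nat_lit 3) (nat_lit 4))))) (T.tp (T.sk (T.ls (nat_lit 3) (nat_lit 4))))) (T.tp (T.sk (T.ls (nat_lit 3) (nat_lit 4))))) (T.tp (T.sk (T.ls (nat_lit 3) (nat_lit 4))))) (T.tp (T.sk (T.ls (nat_lit 3) (nat_lit 4))))) (T.tp (T.sk (T.ls (nat_lit 3) (nat_lit 4))))) (T.tp (T.sk (T.ls (nat_lit 3) (nat_lit 4))))) (T.tp (T.sk (T.ls (nat_lit 3) (nat_lit 4)))))))))) (T.ts (nat_lit 0) (T.im (nat_lit 7) (nat_lit 1)) (T.nw (T.ts (nat_lit 4) (T.tp (T.ts (nat_lit 3) (T.ts (nat_lit 2) (T.ts (nat_lit 4) (T.ts (nat_lit 3) (T.im (nat_lit 9) (nat_lit 3)) (T.sk (T.ls (nat_lit 3) (nat_lit 4)))) (T.sk (T.ls (nat_lit 3) (nat_lit 4)))) (T.sk (T.ls (nat_lit 3) (nat_lit 4)))) (T.sk (T.ls (nat_lit 3) (nat_lit 4))))) (T.ts (nat_lit 3) (T.ls (nat_lit 3) (nat_lit 4)) (T.ts (nat_lit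 2) (T.ls (nat_lit 3) (nat_lit 4)) (T.ts (nat_lit 0) (T.ts (nat_lit 4) (T.ts (nat_lit 3) (T.ts (nat_lit 2) (T.ts (nat_lit 4) (T.ts (nat_lit 3) (T.ts (nat_lit 3) (T.ts (nat_lit 2) (T.ts (nat_lit 1) (T.l1 (nat_lit 12300) (nat_lit 3) (nat_lit 20500)) (T.tp (T.sk (T.ls (nat_lit 3) (nat_lit 4))))) (T.tp (T.sk (T.ls (nat_lit 3) (nat_lit 4))))) (T.tp (T.sk (T.ls (nat_lit 3) (nat_lit 4))))) (T.tp (T.sk (T.ls (nat_lit 3) (nat_lit 4))))) (T.tp (T.sk (T.ls (nat_lit 3) (nat_lit 4))))) (T.tp (T.sk (T.ls (nat_lit 3) (nat_lit 4))))) (T.tp (T.sk (T.ls (nat_lit 3) (nat_lit 4))))) (T.tp (T.sk (T.ls (nat_lit 3) (nat_lit 4))))) (T.tp (T.ts (nat_lit 1) (T.im (nat_lit 7) (nat_lit 2)) T.ie)))))))))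
def d222 : T := (T.ts (nat_lit 3) (T.ts (nat_lit 3) (T.ls (nat_lit 3) (nat_lit 4)) (T.ts (nat_lit 2) (T.ts (nat_lit 3) (T.ls (nat_lit 3) (nat_lit 4)) (T.ts (nat_lit 1) (T.ts (nat_lit 3) (T.ts (nat_lit 2) (T.ts (nat_lit 2) (T.l1 (nat_lit 12300) (nat_lit 4) (nat_lit 20500)) (T.tp (T.sk (T.ls (nat_lit 3) (nat_lit 4))))) (T.tp (T.sk (T.ls (nat_lit 3) (nat_lit 4))))) (T.tp (T.sk (T.ls (nat_lit 3) (nat_lit 4))))) (T.tp (T.sk (T.ls (nat_lit 3) (nat_lit 4)))))) (T.ts (nat_lit 1) (T.ls (nat_lit 3) (nat_lit 4)) (T.ts (nat_lit 0) (T.im (nat_lit 7) (nat_lit 2)) (T.nw (T.ts (nat_lit 4) (T.ts (nat_lit 3) (T.ts (nat_lit 2) (T.ts (nat_lit 4) (T.ts (nat_lit 3) (T.ts (nat_lit 3) (T.ts (nat_lit 2) (T.ts (nat_lit 1) (T.l1 (nat_lit 12300) (nat_lit 3) (nat_lit 20500)) (T.tp (T.sk (T.ls (nat_lit 3) (nat_lit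 4))))) (T.tp (T.sk (T.ls (nat_lit 3) (nat_lit 4))))) (T.tp (T.sk (T.ls (nat_lit 3) (nat_lit 4))))) (T.tp (T.sk (T.ls (nat_lit 3) (nat_lit 4))))) (T.tp (T.sk (T.ls (nat_lit 3) (nat_lit 4))))) (T.tp (T.sk (T.ls (nat_lit 3) (nat_lit 4))))) (T.tp (T.sk (T.ls (nat_lit 3) (nat_lit 4))))) (T.tp (T.sk (T.ls (nat_lit 3) (nat_lit 4)))))))))) (T.ts (nat_lit 2) (T.ts (nat_lit 3) (T.ls (nat_lit 3) (nat_lit 4)) (T.ts (nat_lit 2) (T.ls (nat_lit 3) (nat_lit 4)) (T.ts (nat_lit 1) (T.im (nat_lit 5) (nat_lit 3)) (T.ts (nat_lit 0) (T.im (nat_lit 7) (nat_lit 2)) (T.nw (T.ts (nat_lit 4) (T.ts (nat_lit 3) (T.ts (nat_lit 2) (T.ts (nat_lit 4) (T.ts (nat_lit 3) (T.ts (nat_lit 3) (T.ts (nat_lit 2) (T.ts (nat_lit 1) (T.l1 (nat_lit 12300) (nat_lit 3) (nat_lit 20500)) (T.sk (T.lf (nat_lit 16569) (nat_lit 3) (nat_lit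 20500) (nat_lit 4) (nat_lit 12300)))) (T.sk (T.lf (nat_lit 16569) (nat_lit 3) (nat_lit 20500) (nat_lit 4) (nat_lit 12300)))) (T.tp (T.sk (T.ls (nat_lit 3) (nat_lit 4))))) (T.tp (T.sk (T.ls (nat_lit 3) (nat_lit 4))))) (T.tp (T.sk (T.ls (nat_lit 3) (nat_lit 4))))) (T.tp (T.sk (T.ls (nat_lit 3) (nat_lit 4))))) (T.tp (T.sk (T.ls (nat_lit 3) (nat_lit 4))))) (T.tp (T.sk (T.ls (nat_lit 3) (nat_lit 4)))))))))) d221))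
def d223 : T := (T.ts (nat_lit 0) d220 (T.ts (nat_lit 2) (T.im (nat_lit 1) (nat_lit 4)) (T.ts (nat_lit 1) (T.im (nat_lit 5) (nat_lit 2)) (T.nw d222))))
def d224 : T := (T.ts (nat_lit 0) (T.ts (nat_lit 3) (T.ts (nat_lit 2) (T.ts (nat_lit 1) (T.ts (nat_lit 3) (T.ts (nat_lit 2) (T.ts (nat_lit 2) (T.ts (nat_lit 0) (T.ts (nat_lit 3) (T.l1 (nat_lit 12300) (nat_lit 4) (nat_lit 20500)) (T.tp (T.sk (T.ls (nat_lit 3) (nat_lit 4))))) (T.tp (T.sk (T.ls (nat_lit 3) (nat_lit 4))))) (T.tp (T.sk (T.ls (nat_lit 3) (nat_lit 4))))) (T.tp (T.sk (T.ls (nat_lit 3) (nat_lit 4))))) (T.tp (T.sk (T.ls (nat_lit 3) (nat_lit 4))))) (T.tp (T.sk (T.ls (nat_lit 3) (nat_lit 4))))) (T.tp (T.sk (T.ls (nat_lit 3) (nat_lit 4))))) (T.tp (T.sk (T.ls (nat_lit 3) (nat_lit 4))))) (T.ts (nat_lit 3) (T.im (nat_lit 7) (nat_lit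 2)) (T.nw (T.ts (nat_lit 4) (T.ts (nat_lit 3) (T.ts (nat_lit 2) (T.ts (nat_lit 4) (T.ts (nat_lit 3) (T.ts (nat_lit 3) (T.ts (nat_lit 1) (T.ts (nat_lit 4) (T.l1 (nat_lit 12300) (nat_lit 3) (nat_lit 20500)) (T.tp (T.sk (T.ls (nat_lit 3) (nat_lit 4))))) (T.tp (T.sk (T.ls (nat_lit 3) (nat_lit 4))))) (T.tp (T.sk (T.ls (nat_lit 3) (nat_lit 4))))) (T.tp (T.sk (T.ls (nat_lit 3) (nat_lit 4))))) (T.tp (T.sk (T.ls (nat_lit 3) (nat_lit 4))))) (T.tp (T.sk (T.ls (nat_lit 3) (nat_lit 4))))) (T.tp (T.sk (T.ls (nat_lit 3) (nat_lit 4))))) (T.tp (T.sk (T.ls (nat_lit 3) (nat_lit 4))))))))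
def d225 : T := (T.ts (nat_lit 0) (T.ts (nat_lit 3) (T.ts (nat_lit 2) (T.ts (nat_lit 1) (T.ts (nat_lit 3) (T.ts (nat_lit 2) (T.ts (nat_lit 2) (T.ts (nat_lit 0) (T.ts (nat_lit 3) (T.l1 (nat_lit 12300) (nat_lit 4) (nat_lit 20500)) (T.tp (T.sk (T.ls (nat_lit 3) (nat_lit 4))))) (T.tp (T.sk (T.ls (nat_lit 3) (nat_lit 4))))) (T.tp (T.sk (T.ls (nat_lit 3) (nat_lit 4))))) (T.tp (T.sk (T.ls (nat_lit 3) (nat_lit 4))))) (T.tp (T.sk (T.ls (nat_lit 3) (nat_lit 4))))) (T.tp (T.sk (T.ls (nat_lit 3) (nat_lit 4))))) (T.tp (T.sk (T.ls (nat_lit 3) (nat_lit 4))))) (T.tp (T.sk (T.ls (nat_lit 3) (nat_lit 4))))) (T.ts (nat_lit 3) (T.im (nat_lit 7) (nat_lit 2)) (T.nw (T.ts (nat_lit 4) (T.ts (nat_lit 3) (T.ts (nat_lit 2) (T.ts (nat_lit 4) (T.ts (nat_lit 3) (T.ts (nat_lit 3) (T.ts (nat_lit 1) (T.ts (nat_lit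 4) (T.l1 (nat_lit 12300) (nat_lit 3) (nat_lit 20500)) (T.tp (T.sk (T.ls (nat_lit 3) (nat_lit 4))))) (T.tp (T.sk (T.ls (nat_lit 3) (nat_lit 4))))) (T.tp (T.sk (T.ls (nat_lit 3) (nat_lit 4))))) (T.tp (T.sk (T.ls (nat_lit 3) (nat_lit 4))))) (T.tp (T.sk (T.ls (nat_lit 3) (nat_lit 4))))) (T.tp (T.sk (T.ls (nat_lit 3) (nat_lit 4))))) (T.tp (T.sk (T.ls (nat_lit 3) (nat_lit 4))))) (T.tp (T.sk (T.ls (nat_lit 3) (nat_lit 4))))))))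
def d226 : T := (T.ts (nat_lit 1) (T.ts (nat_lit 4) (T.ts (nat_lit 3) (T.ts (nat_lit 2) (T.ts (nat_lit 4) (T.ts (nat_lit 3) (T.ts (nat_lit 3) (T.ts (nat_lit 1) (T.ts (nat_lit 4) (T.l1 (nat_lit 12300) (nat_lit 4) (nat_lit 20500)) (T.tp (T.sk (T.ls (nat_lit 3) (nat_lit 4))))) (T.tp (T.sk (T.ls (nat_lit 3) (nat_lit 4))))) (T.tp (T.sk (T.ls (nat_lit 3) (nat_lit 4))))) (T.tp (T.sk (T.ls (nat_lit 3) (nat_lit 4))))) (T.tp (T.sk (T.ls (nat_lit 3) (nat_lit 4))))) (T.tp (T.sk (T.ls (nat_lit 3) (nat_lit 4))))) (T.tp (T.sk (T.ls (nat_lit 3) (nat_lit 4))))) (T.tp (T.sk (T.ls (nat_lit 3) (nat_lit 4))))) (T.ts (nat_lit 0) (T.ts (nat_lit 4) (T.ts (nat_lit 3) (T.ts (nat_lit 2) (T.ts (nat_lit 4) (T.ts (nat_lit 3) (T.ts (nat_lit 3) (T.ts (nat_lit 1) (T.ts (nat_lit 4) (T.l1 (nat_lit 12300) (nat_lit 3)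 (nat_lit 20500)) (T.tp (T.sk (T.ls (nat_lit 3) (nat_lit 4))))) (T.tp (T.sk (T.ls (nat_lit 3) (nat_lit 4))))) (T.tp (T.sk (T.ls (nat_lit 3) (nat_lit 4))))) (T.tp (T.sk (T.ls (nat_lit 3) (nat_lit 4))))) (T.tp (T.sk (T.ls (nat_lit 3) (nat_lit 4))))) (T.tp (T.sk (T.ls (nat_lit 3) (nat_lit 4))))) (T.tp (T.sk (T.ls (nat_lit 3) (nat_lit 4))))) (T.tp (T.sk (T.ls (nat_lit 3) (nat_lit 4))))) (T.tp (T.ts (nat_lit 4) (T.im (nat_lit 7) (nat_lit 2)) T.ie))))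
def d227 : T := (T.ts (nat_lit 0) (T.ts (nat_lit 3) (T.ts (nat_lit 2) (T.ts (nat_lit 1) (T.ts (nat_lit 3) (T.ts (nat_lit 2) (T.ts (nat_lit 2) (T.ts (nat_lit 0) (T.ts (nat_lit 1) (T.l1 (nat_lit 12300) (nat_lit 4) (nat_lit 20500)) (T.tp (T.sk (T.ls (nat_lit 3) (nat_lit 4))))) (T.tp (T.sk (T.ls (nat_lit 3) (nat_lit 4))))) (T.tp (T.sk (T.ls (nat_lit 3) (nat_lit 4))))) (T.tp (T.sk (T.ls (nat_lit 3) (nat_lit 4))))) (T.tp (T.sk (T.ls (nat_lit 3) (nat_lit 4))))) (T.tp (T.sk (T.ls (nat_lit 3) (nat_lit 4))))) (T.tp (T.sk (T.ls (nat_lit 3) (nat_lit 4))))) (T.tp (T.sk (T.ls (nat_lit 3) (nat_lit 4))))) (T.ts (nat_lit 1) (T.im (nat_lit 7) (nat_lit 2)) (T.nw (T.ts (nat_lit 4) (T.ts (nat_lit 3) (T.ts (nat_lit 2) (T.ts (nat_lit 4) (T.ts (nat_lit 3) (T.ts (nat_lit 3) (T.ts (nat_lit 1) (T.ts (nat_lit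 2) (T.l1 (nat_lit 12300) (nat_lit 3) (nat_lit 20500)) (T.tp (T.sk (T.ls (nat_lit 3) (nat_lit 4))))) (T.tp (T.sk (T.ls (nat_lit 3) (nat_lit 4))))) (T.tp (T.sk (T.ls (nat_lit 3) (nat_lit 4))))) (T.tp (T.sk (T.ls (nat_lit 3) (nat_lit 4))))) (T.tp (T.sk (T.ls (nat_lit 3) (nat_lit 4))))) (T.tp (T.sk (T.ls (nat_lit 3) (nat_lit 4))))) (T.tp (T.sk (T.ls (nat_lit 3) (nat_lit 4))))) (T.tp (T.sk (T.ls (nat_lit 3) (nat_lit 4))))))))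
def d228 : T := (T.ts (nat_lit 0) (T.ts (nat_lit 3) (T.ts (nat_lit 2) (T.ts (nat_lit 1) (T.ts (nat_lit 3) (T.ts (nat_lit 2) (T.ts (nat_lit 2) (T.ts (nat_lit 0) (T.ts (nat_lit 1) (T.l1 (nat_lit 12300) (nat_lit 4) (nat_lit 20500)) (T.tp (T.sk (T.ls (nat_lit 3) (nat_lit 4))))) (T.tp (T.sk (T.ls (nat_lit 3) (nat_lit 4))))) (T.tp (T.sk (T.ls (nat_lit 3) (nat_lit 4))))) (T.tp (T.sk (T.ls (nat_lit 3) (nat_lit 4))))) (T.tp (T.sk (T.ls (nat_lit 3) (nat_lit 4))))) (T.tp (T.sk (T.ls (nat_lit 3) (nat_lit 4))))) (T.tp (T.sk (T.ls (nat_lit 3) (nat_lit 4))))) (T.tp (T.sk (T.ls (nat_lit 3) (nat_lit 4))))) (T.ts (nat_lit 1) (T.im (nat_lit 7) (nat_lit 2)) (T.nw (T.ts (nat_lit 4) (T.ts (nat_lit 3) (T.ts (nat_lit 2) (T.ts (nat_lit 4) (T.ts (nat_lit 3) (T.ts (nat_lit 3) (T.ts (nat_lit 1) (T.ts (nat_lit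 2) (T.l1 (nat_lit 12300) (nat_lit 3) (nat_lit 20500)) (T.tp (T.sk (T.ls (nat_lit 3) (nat_lit 4))))) (T.tp (T.sk (T.ls (nat_lit 3) (nat_lit 4))))) (T.tp (T.sk (T.ls (nat_lit 3) (nat_lit 4))))) (T.tp (T.sk (T.ls (nat_lit 3) (nat_lit 4))))) (T.tp (T.sk (T.ls (nat_lit 3) (nat_lit 4))))) (T.tp (T.sk (T.ls (nat_lit 3) (nat_lit 4))))) (T.tp (T.sk (T.ls (nat_lit 3) (nat_lit 4))))) (T.tp (T.sk (T.ls (nat_lit 3) (nat_lit 4))))))))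
def d229 : T := (T.ts (nat_lit 1) (T.ts (nat_lit 4) (T.ts (nat_lit 3) (T.ts (nat_lit 2) (T.ts (nat_lit 4) (T.ts (nat_lit 3) (T.ts (nat_lit 3) (T.ts (nat_lit 1) (T.ts (nat_lit 2) (T.l1 (nat_lit 12300) (nat_lit 4) (nat_lit 20500)) (T.tp (T.sk (T.ls (nat_lit 3) (nat_lit 4))))) (T.tp (T.sk (T.ls (nat_lit 3) (nat_lit 4))))) (T.tp (T.sk (T.ls (nat_lit 3) (nat_lit 4))))) (T.tp (T.sk (T.ls (nat_lit 3) (nat_lit 4))))) (T.tp (T.sk (T.ls (nat_lit 3) (nat_lit 4))))) (T.tp (T.sk (T.ls (nat_lit 3) (nat_lit 4))))) (T.tp (T.sk (T.ls (nat_lit 3) (nat_lit 4))))) (T.tp (T.sk (T.ls (nat_lit 3) (nat_lit 4))))) (T.ts (nat_lit 0) (T.ts (nat_lit 4) (T.ts (nat_lit 3) (T.ts (nat_lit 2) (T.ts (nat_lit 4) (T.ts (nat_lit 3) (T.ts (nat_lit 3) (T.ts (nat_lit 1) (T.ts (nat_lit 2) (T.l1 (nat_lit 12300) (nat_lit 3)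 (nat_lit 20500)) (T.tp (T.sk (T.ls (nat_lit 3) (nat_lit 4))))) (T.tp (T.sk (T.ls (nat_lit 3) (nat_lit 4))))) (T.tp (T.sk (T.ls (nat_lit 3) (nat_lit 4))))) (T.tp (T.sk (T.ls (nat_lit 3) (nat_lit 4))))) (T.tp (T.sk (T.ls (nat_lit 3) (nat_lit 4))))) (T.tp (T.sk (T.ls (nat_lit 3) (nat_lit 4))))) (T.tp (T.sk (T.ls (nat_lit 3) (nat_lit 4))))) (T.tp (T.sk (T.ls (nat_lit 3) (nat_lit 4))))) (T.tp (T.ts (nat_lit 2) (T.im (nat_lit 7) (nat_lit 2)) T.ie))))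
def d230 : T := (T.ts (nat_lit 2) (T.ts (nat_lit 3) (T.ls (nat_lit 3) (nat_lit 4)) (T.ts (nat_lit 2) (T.ls (nat_lit 3) (nat_lit 4)) (T.ts (nat_lit 1) (T.im (nat_lit 7) (nat_lit 2)) (T.ts (nat_lit 0) (T.im (nat_lit 5) (nat_lit 3)) (T.nw (T.ts (nat_lit 4) (T.ts (nat_lit 3) (T.ts (nat_lit 2) (T.ts (nat_lit 4) (T.ts (nat_lit 3) (T.ts (nat_lit 3) (T.ts (nat_lit 1) (T.ts (nat_lit 2) (T.l1 (nat_lit 12300) (nat_lit 3) (nat_lit 20500)) (T.sk (T.lf (nat_lit 16569) (nat_lit 3) (nat_lit 20500) (nat_lit 4) (nat_lit 12300)))) (T.sk (T.lf (nat_lit 16569) (nat_lit 3) (nat_lit 20500) (nat_lit 4) (nat_lit 12300)))) (T.tp (T.sk (T.ls (nat_lit 3) (nat_lit 4))))) (T.tp (T.sk (T.ls (nat_lit 3) (nat_lit 4))))) (T.tp (T.sk (T.ls (nat_lit 3) (nat_lit 4))))) (T.tp (T.sk (T.ls (nat_lit 3) (nat_lit 4))))) (T.tp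 (T.sk (T.ls (nat_lit 3) (nat_lit 4))))) (T.tp (T.sk (T.ls (nat_lit 3) (nat_lit 4)))))))))) (T.ts (nat_lit 0) (T.ts (nat_lit 3) (T.tp (T.ts (nat_lit 2) (T.ts (nat_lit 1) (T.ts (nat_lit 3) (T.ts (nat_lit 2) (T.im (nat_lit 9) (nat_lit 3)) (T.sk (T.ls (nat_lit 3) (nat_lit 4)))) (T.sk (T.ls (nat_lit 3) (nat_lit 4)))) (T.sk (T.ls (nat_lit 3) (nat_lit 4)))) (T.sk (T.ls (nat_lit 3) (nat_lit 4))))) (T.ts (nat_lit 2) (T.ls (nat_lit 3) (nat_lit 4)) d228)) (T.ts (nat_lit 1) (T.im (nat_lit 7) (nat_lit 1)) (T.nw (T.ts (nat_lit 4) (T.tp (T.ts (nat_lit 3) (T.ts (nat_lit 2) (T.ts (nat_lit 4) (T.ts (nat_lit 3) (T.im (nat_lit 9) (nat_lit 3)) (T.sk (T.ls (nat_lit 3) (nat_lit 4)))) (T.sk (T.ls (nat_lit 3) (nat_lit 4)))) (T.sk (T.ls (nat_lit 3) (nat_lit 4)))) (T.sk (T.ls (nat_lit 3) (nat_lit 4))))) (T.ts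 (nat_lit 3) (T.ls (nat_lit 3) (nat_lit 4)) d229))))))
def d231 : T := (T.ts (nat_lit 1) (T.ts (nat_lit 3) (T.ls (nat_lit 3) (nat_lit 4)) (T.ts (nat_lit 2) (T.ls (nat_lit 3) (nat_lit 4)) (T.ts (nat_lit 1) (T.ls (nat_lit 3) (nat_lit 4)) (T.ts (nat_lit 0) (T.im (nat_lit 7) (nat_lit 2)) (T.nw (T.ts (nat_lit 4) (T.ts (nat_lit 3) (T.ts (nat_lit 2) (T.ts (nat_lit 4) (T.ts (nat_lit 3) (T.ts (nat_lit 3) (T.ts (nat_lit 1) (T.ts (nat_lit 1) (T.l1 (nat_lit 12300) (nat_lit 3) (nat_lit 20500)) (T.tp (T.sk (T.ls (nat_lit 3) (nat_lit 4))))) (T.tp (T.sk (T.ls (nat_lit 3) (nat_lit 4))))) (T.tp (T.sk (T.ls (nat_lit 3) (nat_lit 4))))) (T.tp (T.sk (T.ls (nat_lit 3) (nat_lit 4))))) (T.tp (T.sk (T.ls (nat_lit 3) (nat_lit 4))))) (T.tp (T.sk (T.ls (nat_lit 3) (nat_lit 4))))) (T.tp (T.sk (T.ls (nat_lit 3)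 (nat_lit 4))))) (T.tp (T.sk (T.ls (nat_lit 3) (nat_lit 4)))))))))) (T.ts (nat_lit 0) (T.im (nat_lit 7) (nat_lit 1)) (T.nw (T.ts (nat_lit 4) (T.tp (T.ts (nat_lit 3) (T.ts (nat_lit 2) (T.ts (nat_lit 4) (T.ts (nat_lit 3) (T.im (nat_lit 9) (nat_lit 3)) (T.sk (T.ls (nat_lit 3) (nat_lit 4)))) (T.sk (T.ls (nat_lit 3) (nat_lit 4)))) (T.sk (T.ls (nat_lit 3) (nat_lit 4)))) (T.sk (T.ls (nat_lit 3) (nat_lit 4))))) (T.ts (nat_lit 3) (T.ls (nat_lit 3) (nat_lit 4)) (T.ts (nat_lit 2) (T.ls (nat_lit 3) (nat_lit 4)) (T.ts (nat_lit 0) (T.ts (nat_lit 4) (T.ts (nat_lit 3) (T.ts (nat_lit 2) (T.ts (nat_lit 4) (T.ts (nat_lit 3) (T.ts (nat_lit 3) (T.ts (nat_lit 1) (T.ts (nat_lit 1) (T.l1 (nat_lit 12300) (nat_lit 3) (nat_lit 20500)) (T.tp (T.sk (T.ls (nat_lit 3) (nat_lit 4))))) (T.tp (T.sk (T.ls (nat_lit 3)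 (nat_lit 4))))) (T.tp (T.sk (T.ls (nat_lit 3) (nat_lit 4))))) (T.tp (T.sk (T.ls (nat_lit 3) (nat_lit 4))))) (T.tp (T.sk (T.ls (nat_lit 3) (nat_lit 4))))) (T.tp (T.sk (T.ls (nat_lit 3) (nat_lit 4))))) (T.tp (T.sk (T.ls (nat_lit 3) (nat_lit 4))))) (T.tp (T.sk (T.ls (nat_lit 3) (nat_lit 4))))) (T.tp (T.ts (nat_lit 1) (T.im (nat_lit 7) (nat_lit 2)) T.ie)))))))))
def d232 : T := (T.ts (nat_lit 3) (T.ts (nat_lit 3) (T.ls (nat_lit 3) (nat_lit 4)) (T.ts (nat_lit 2) (T.ts (nat_lit 3) (T.ls (nat_lit 3) (nat_lit 4)) (T.ts (nat_lit 1) (T.ts (nat_lit 3) (T.ts (nat_lit 2) (T.ts (nat_lit 2) (T.l1 (nat_lit 12300) (nat_lit 4) (nat_lit 20500)) (T.tp (T.sk (T.ls (nat_lit 3) (nat_lit 4))))) (T.tp (T.sk (T.ls (nat_lit 3) (nat_lit 4))))) (T.tp (T.sk (T.ls (nat_lit 3) (nat_lit 4))))) (T.tp (T.sk (T.ls (nat_lit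 3) (nat_lit 4)))))) (T.ts (nat_lit 1) (T.ls (nat_lit 3) (nat_lit 4)) (T.ts (nat_lit 0) (T.im (nat_lit 7) (nat_lit 2)) (T.nw (T.ts (nat_lit 4) (T.ts (nat_lit 3) (T.ts (nat_lit 2) (T.ts (nat_lit 4) (T.ts (nat_lit 3) (T.ts (nat_lit 3) (T.ts (nat_lit 1) (T.ts (nat_lit 1) (T.l1 (nat_lit 12300) (nat_lit 3) (nat_lit 20500)) (T.tp (T.sk (T.ls (nat_lit 3) (nat_lit 4))))) (T.tp (T.sk (T.ls (nat_lit 3) (nat_lit 4))))) (T.tp (T.sk (T.ls (nat_lit 3) (nat_lit 4))))) (T.tp (T.sk (T.ls (nat_lit 3) (nat_lit 4))))) (T.tp (T.sk (T.ls (nat_lit 3) (nat_lit 4))))) (T.tp (T.sk (T.ls (nat_lit 3) (nat_lit 4))))) (T.tp (T.sk (T.ls (nat_lit 3) (nat_lit 4))))) (T.tp (T.sk (T.ls (nat_lit 3) (nat_lit 4)))))))))) (T.ts (nat_lit 2) (T.ts (nat_lit 3) (T.ls (nat_lit 3) (nat_lit 4)) (T.ts (nat_lit 2) (T.ls (nat_lit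 3) (nat_lit 4)) (T.ts (nat_lit 1) (T.ls (nat_lit 3) (nat_lit 4)) (T.ts (nat_lit 0) (T.im (nat_lit 5) (nat_lit 3)) (T.nw (T.ts (nat_lit 4) (T.ts (nat_lit 3) (T.ts (nat_lit 2) (T.ts (nat_lit 4) (T.ts (nat_lit 3) (T.ts (nat_lit 3) (T.ts (nat_lit 1) (T.ts (nat_lit 1) (T.l1 (nat_lit 12300) (nat_lit 3) (nat_lit 20500)) (T.sk (T.lf (nat_lit 16569) (nat_lit 3) (nat_lit 20500) (nat_lit 4) (nat_lit 12300)))) (T.sk (T.lf (nat_lit 16569) (nat_lit 3) (nat_lit 20500) (nat_lit 4) (nat_lit 12300)))) (T.tp (T.sk (T.ls (nat_lit 3) (nat_lit 4))))) (T.tp (T.sk (T.ls (nat_lit 3) (nat_lit 4))))) (T.tp (T.sk (T.ls (nat_lit 3) (nat_lit 4))))) (T.tp (T.sk (T.ls (nat_lit 3) (nat_lit 4))))) (T.tp (T.sk (T.ls (nat_lit 3) (nat_lit 4))))) (T.tp (T.sk (T.ls (nat_lit 3) (nat_lit 4)))))))))) d231))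
def d233 : T := (T.ts (nat_lit 4) (T.ls (nat_lit 3) (nat_lit 4)) (T.ts (nat_lit 3) (T.ts (nat_lit 4) (T.ls (nat_lit 3) (nat_lit 4)) (T.ts (nat_lit 2) (T.ts (nat_lit 4) (T.ts (nat_lit 3) (T.ts (nat_lit 3) (T.l1 (nat_lit 12300) (nat_lit 3) (nat_lit 20500)) (T.tp (T.sk (T.ls (nat_lit 3) (nat_lit 4))))) (T.tp (T.sk (T.ls (nat_lit 3) (nat_lit 4))))) (T.tp (T.sk (T.ls (nat_lit 3) (nat_lit 4))))) (T.tp (T.sk (T.ls (nat_lit 3) (nat_lit 4)))))) (T.ts (nat_lit 2) (T.ls (nat_lit 3) (nat_lit 4)) (T.ts (nat_lit 1) (T.ts (nat_lit 4) (T.ts (nat_lit 3) (T.ts (nat_lit 2) (T.ts (nat_lit 4) (T.ts (nat_lit 3) (T.ts (nat_lit 3) (T.ts (nat_lit 1) (T.ts (nat_lit 0) (T.l1 (nat_lit 12300) (nat_lit 4) (nat_lit 20500)) (T.tp (T.sk (T.ls (nat_lit 3) (nat_lit 4))))) (T.tp (T.sk (T.ls (nat_lit 3) (nat_lit 4)))))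 (T.tp (T.sk (T.ls (nat_lit 3) (nat_lit 4))))) (T.tp (T.sk (T.ls (nat_lit 3) (nat_lit 4))))) (T.tp (T.sk (T.ls (nat_lit 3) (nat_lit 4))))) (T.tp (T.sk (T.ls (nat_lit 3) (nat_lit 4))))) (T.tp (T.sk (T.ls (nat_lit 3) (nat_lit 4))))) (T.tp (T.sk (T.ls (nat_lit 3) (nat_lit 4))))) (T.tp (T.ts (nat_lit 0) (T.im (nat_lit 7) (nat_lit 2)) T.ie))))))
def d234 : T := (T.ts (nat_lit 1) (T.ts (nat_lit 4) (T.tp (T.ts (nat_lit 3) (T.ts (nat_lit 2) (T.ts (nat_lit 4) (T.ts (nat_lit 3) (T.im (nat_lit 9) (nat_lit 3)) (T.sk (T.ls (nat_lit 3) (nat_lit 4)))) (T.sk (T.ls (nat_lit 3) (nat_lit 4)))) (T.sk (T.ls (nat_lit 3) (nat_lit 4)))) (T.sk (T.ls (nat_lit 3) (nat_lit 4))))) (T.ts (nat_lit 3) (T.ls (nat_lit 3) (nat_lit 4)) (T.ts (nat_lit 2) (T.ls (nat_lit 3) (nat_lit 4)) (T.ts (nat_lit 1) (T.ts (nat_lit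 4) (T.ts (nat_lit 3) (T.ts (nat_lit 2) (T.ts (nat_lit 4) (T.ts (nat_lit 3) (T.ts (nat_lit 3) (T.ts (nat_lit 1) (T.ts (nat_lit 0) (T.l1 (nat_lit 12300) (nat_lit 4) (nat_lit 20500)) (T.tp (T.sk (T.ls (nat_lit 3) (nat_lit 4))))) (T.tp (T.sk (T.ls (nat_lit 3) (nat_lit 4))))) (T.tp (T.sk (T.ls (nat_lit 3) (nat_lit 4))))) (T.tp (T.sk (T.ls (nat_lit 3) (nat_lit 4))))) (T.tp (T.sk (T.ls (nat_lit 3) (nat_lit 4))))) (T.tp (T.sk (T.ls (nat_lit 3) (nat_lit 4))))) (T.tp (T.sk (T.ls (nat_lit 3) (nat_lit 4))))) (T.tp (T.sk (T.ls (nat_lit 3) (nat_lit 4))))) (T.tp (T.ts (nat_lit 0) (T.im (nat_lit 7) (nat_lit 2)) T.ie)))))) (T.tp (T.ts (nat_lit 0) (T.im (nat_lit 7) (nat_lit 1)) T.ie)))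
def d235 : T := (T.ts (nat_lit 4) d233 (T.ts (nat_lit 3) (T.tp (T.ts (nat_lit 4) (T.ls (nat_lit 3) (nat_lit 4)) (T.ts (nat_lit 3) (T.ls (nat_lit 3) (nat_lit 4)) (T.ts (nat_lit 2) (T.ls (nat_lit 3) (nat_lit 4)) (T.ts (nat_lit 1) (T.im (nat_lit 5) (nat_lit 3)) (T.ts (nat_lit 0) (T.im (nat_lit 7) (nat_lit 2)) T.ie)))))) (T.ts (nat_lit 2) (T.ts (nat_lit 4) (T.ls (nat_lit 3) (nat_lit 4)) (T.ts (nat_lit 3) (T.ls (nat_lit 3) (nat_lit 4)) (T.ts (nat_lit 2) (T.ls (nat_lit 3) (nat_lit 4)) (T.ts (nat_lit 1) (T.ts (nat_lit 4) (T.ts (nat_lit 3) (T.ts (nat_lit 2) (T.ts (nat_lit 4) (T.ts (nat_lit 3) (T.ts (nat_lit 3) (T.ts (nat_lit 1) (T.ts (nat_lit 0) (T.l1 (nat_lit 12300) (nat_lit 4) (nat_lit 20500)) (T.tp (T.sk (T.ls (nat_lit 3) (nat_lit 4))))) (T.tp (T.sk (T.ls (nat_lit 3) (nat_lit 4))))) (T.tp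 (T.sk (T.ls (nat_lit 3) (nat_lit 4))))) (T.tp (T.sk (T.ls (nat_lit 3) (nat_lit 4))))) (T.tp (T.sk (T.ls (nat_lit 3) (nat_lit 4))))) (T.tp (T.sk (T.ls (nat_lit 3) (nat_lit 4))))) (T.tp (T.sk (T.ls (nat_lit 3) (nat_lit 4))))) (T.tp (T.sk (T.ls (nat_lit 3) (nat_lit 4))))) (T.tp (T.ts (nat_lit 0) (T.im (nat_lit 7) (nat_lit 2)) T.ie)))))) d234)))
def d236 : T := (T.ts (nat_lit 1) (T.im (nat_lit 5) (nat_lit 1)) (T.nw (T.ts (nat_lit 3) (T.ts (nat_lit 2) (T.tp (T.ts (nat_lit 1) (T.ts (nat_lit 3) (T.ts (nat_lit 2) (T.im (nat_lit 7) (nat_lit 3)) (T.sk (T.ls (nat_lit 3) (nat_lit 4)))) (T.sk (T.ls (nat_lit 3) (nat_lit 4)))) (T.ts (nat_lit 3) (T.im (nat_lit 7) (nat_lit 2)) (T.ts (nat_lit 2) (T.im (nat_lit 3) (nat_lit 4)) (T.ts (nat_lit 0) (T.im (nat_lit 5) (nat_lit 3)) (T.nw (T.ts (nat_lit 4)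 (T.ts (nat_lit 3) (T.im (nat_lit 7) (nat_lit 3)) (T.sk (T.ls (nat_lit 3) (nat_lit 4)))) (T.sk (T.ls (nat_lit 3) (nat_lit 4)))))))))) (T.ts (nat_lit 1) (T.ts (nat_lit 2) (T.ls (nat_lit 3) (nat_lit 4)) (T.ts (nat_lit 1) (T.ls (nat_lit 3) (nat_lit 4)) d224)) (T.ts (nat_lit 0) (T.ts (nat_lit 2) (T.ls (nat_lit 3) (nat_lit 4)) (T.ts (nat_lit 1) (T.ls (nat_lit 3) (nat_lit 4)) d225)) (T.ts (nat_lit 3) (T.im (nat_lit 7) (nat_lit 1)) (T.nw (T.ts (nat_lit 3) (T.ls (nat_lit 3) (nat_lit 4)) (T.ts (nat_lit 2) (T.ls (nat_lit 3) (nat_lit 4)) d226))))))) (T.ts (nat_lit 1) (T.ts (nat_lit 3) (T.ts (nat_lit 3) (T.ls (nat_lit 3) (nat_lit 4)) (T.ts (nat_lit 2) (T.ls (nat_lit 3) (nat_lit 4)) d227)) d230) (T.ts (nat_lit 0) d232 (T.ts (nat_lit 2) (T.im (nat_lit 5) (nat_lit 2)) (T.nw d235)))))))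
def d237 : T := (T.im (nat_lit 3) (nat_lit 2))
def d238 : T := (T.im (nat_lit 1) (nat_lit 3))
def d239 : T := (T.ts (nat_lit 0) (T.ts (nat_lit 3) (T.ts (nat_lit 2) (T.ts (nat_lit 1) (T.ts (nat_lit 3) (T.ts (nat_lit 2) (T.ts (nat_lit 0) (T.ts (nat_lit 3) (T.ts (nat_lit 3) (T.l1 (nat_lit 12300) (nat_lit 4) (nat_lit 20500)) (T.tp (T.sk (T.ls (nat_lit 3) (nat_lit 4))))) (T.tp (T.sk (T.ls (nat_lit 3) (nat_lit 4))))) (T.tp (T.sk (T.ls (nat_lit 3) (nat_lit 4))))) (T.tp (T.sk (T.ls (nat_lit 3) (nat_lit 4))))) (T.tp (T.sk (T.ls (nat_lit 3) (nat_lit 4))))) (T.tp (T.sk (T.ls (nat_lit 3) (nat_lit 4))))) (T.tp (T.sk (T.ls (nat_lit 3) (nat_lit 4))))) (T.tp (T.sk (T.ls (nat_lit 3) (nat_lit 4))))) (T.ts (nat_lit 3) (T.im (nat_lit 7) (nat_lit 2)) (T.nw (T.ts (nat_lit 4) (T.ts (nat_lit 3) (T.ts (nat_lit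 2) (T.ts (nat_lit 4) (T.ts (nat_lit 3) (T.ts (nat_lit 1) (T.ts (nat_lit 4) (T.ts (nat_lit 4) (T.l1 (nat_lit 12300) (nat_lit 3) (nat_lit 20500)) (T.tp (T.sk (T.ls (nat_lit 3) (nat_lit 4))))) (T.tp (T.sk (T.ls (nat_lit 3) (nat_lit 4))))) (T.tp (T.sk (T.ls (nat_lit 3) (nat_lit 4))))) (T.tp (T.sk (T.ls (nat_lit 3) (nat_lit 4))))) (T.tp (T.sk (T.ls (nat_lit 3) (nat_lit 4))))) (T.tp (T.sk (T.ls (nat_lit 3) (nat_lit 4))))) (T.tp (T.sk (T.ls (nat_lit 3) (nat_lit 4))))) (T.tp (T.sk (T.ls (nat_lit 3) (nat_lit 4))))))))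
def d240 : T := (T.ts (nat_lit 0) (T.ts (nat_lit 3) (T.ts (nat_lit 2) (T.ts (nat_lit 1) (T.ts (nat_lit 3) (T.ts (nat_lit 2) (T.ts (nat_lit 0) (T.ts (nat_lit 3) (T.ts (nat_lit 3) (T.l1 (nat_lit 12300) (nat_lit 4) (nat_lit 20500)) (T.tp (T.sk (T.ls (nat_lit 3) (nat_lit 4))))) (T.tp (T.sk (T.ls (nat_lit 3) (nat_lit 4))))) (T.tp (T.sk (T.ls (nat_lit 3) (nat_lit 4))))) (T.tp (T.sk (T.ls (nat_lit 3) (nat_lit 4))))) (T.tp (T.sk (T.ls (nat_lit 3) (nat_lit 4))))) (T.tp (T.sk (T.ls (nat_lit 3) (nat_lit 4))))) (T.tp (T.sk (T.ls (nat_lit 3) (nat_lit 4))))) (T.tp (T.sk (T.ls (nat_lit 3) (nat_lit 4))))) (T.ts (nat_lit 3) (T.im (nat_lit 5) (nat_lit 3)) (T.nw (T.ts (nat_lit 4) (T.ts (nat_lit 3) (T.ts (nat_lit 2) (T.ts (nat_lit 4) (T.ts (nat_lit 3) (T.ts (nat_lit 1) (T.ts (nat_lit 4) (T.ts (nat_lit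 4) (T.l1 (nat_lit 12300) (nat_lit 3) (nat_lit 20500)) (T.tp (T.sk (T.ls (nat_lit 3) (nat_lit 4))))) (T.tp (T.sk (T.ls (nat_lit 3) (nat_lit 4))))) (T.tp (T.sk (T.ls (nat_lit 3) (nat_lit 4))))) (T.tp (T.sk (T.ls (nat_lit 3) (nat_lit 4))))) (T.tp (T.sk (T.ls (nat_lit 3) (nat_lit 4))))) (T.tp (T.sk (T.ls (nat_lit 3) (nat_lit 4))))) (T.tp (T.sk (T.ls (nat_lit 3) (nat_lit 4))))) (T.tp (T.sk (T.ls (nat_lit 3) (nat_lit 4))))))))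
def d241 : T := (T.ts (nat_lit 1) (T.ts (nat_lit 4) (T.ts (nat_lit 3) (T.ts (nat_lit 2) (T.ts (nat_lit 4) (T.ts (nat_lit 3) (T.ts (nat_lit 1) (T.ts (nat_lit 4) (T.ts (nat_lit 4) (T.l1 (nat_lit 12300) (nat_lit 4) (nat_lit 20500)) (T.tp (T.sk (T.ls (nat_lit 3) (nat_lit 4))))) (T.tp (T.sk (T.ls (nat_lit 3) (nat_lit 4))))) (T.tp (T.sk (T.ls (nat_lit 3) (nat_lit 4))))) (T.tp (T.sk (T.ls (nat_lit 3) (nat_lit 4))))) (T.tp (T.sk (T.ls (nat_lit 3) (nat_lit 4))))) (T.tp (T.sk (T.ls (nat_lit 3) (nat_lit 4))))) (T.tp (T.sk (T.ls (nat_lit 3) (nat_lit 4))))) (T.tp (T.sk (T.ls (nat_lit 3) (nat_lit 4))))) (T.ts (nat_lit 0) (T.ts (nat_lit 4) (T.ts (nat_lit 3) (T.ts (nat_lit 2) (T.ts (nat_lit 4) (T.ts (nat_lit 3) (T.ts (nat_lit 1) (T.ts (nat_lit 4) (T.ts (nat_lit 4) (T.l1 (nat_lit 12300) (nat_lit 3)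 (nat_lit 20500)) (T.tp (T.sk (T.ls (nat_lit 3) (nat_lit 4))))) (T.tp (T.sk (T.ls (nat_lit 3) (nat_lit 4))))) (T.tp (T.sk (T.ls (nat_lit 3) (nat_lit 4))))) (T.tp (T.sk (T.ls (nat_lit 3) (nat_lit 4))))) (T.tp (T.sk (T.ls (nat_lit 3) (nat_lit 4))))) (T.tp (T.sk (T.ls (nat_lit 3) (nat_lit 4))))) (T.tp (T.sk (T.ls (nat_lit 3) (nat_lit 4))))) (T.tp (T.sk (T.ls (nat_lit 3) (nat_lit 4))))) (T.tp (T.ts (nat_lit 4) (T.im (nat_lit 7) (nat_lit 2)) T.ie))))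
def d242 : T := (T.ts (nat_lit 0) (T.ts (nat_lit 3) (T.ts (nat_lit 2) (T.ts (nat_lit 1) (T.ts (nat_lit 3) (T.ts (nat_lit 2) (T.ts (nat_lit 0) (T.ts (nat_lit 3) (T.ts (nat_lit 1) (T.l1 (nat_lit 12300) (nat_lit 4) (nat_lit 20500)) (T.tp (T.sk (T.ls (nat_lit 3) (nat_lit 4))))) (T.tp (T.sk (T.ls (nat_lit 3) (nat_lit 4))))) (T.tp (T.sk (T.ls (nat_lit 3) (nat_lit 4))))) (T.tp (T.sk (T.ls (nat_lit 3) (nat_lit 4))))) (T.tp (T.sk (T.ls (nat_lit 3) (nat_lit 4))))) (T.tp (T.sk (T.ls (nat_lit 3) (nat_lit 4))))) (T.tp (T.sk (T.ls (nat_lit 3) (nat_lit 4))))) (T.tp (T.sk (T.ls (nat_lit 3) (nat_lit 4))))) (T.ts (nat_lit 1) (T.im (nat_lit 7) (nat_lit 2)) (T.nw (T.ts (nat_lit 4) (T.ts (nat_lit 3) (T.ts (nat_lit 2) (T.ts (nat_lit 4) (T.ts (nat_lit 3) (T.ts (nat_lit 1) (T.ts (nat_lit 4) (T.ts (nat_lit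 2) (T.l1 (nat_lit 12300) (nat_lit 3) (nat_lit 20500)) (T.tp (T.sk (T.ls (nat_lit 3) (nat_lit 4))))) (T.tp (T.sk (T.ls (nat_lit 3) (nat_lit 4))))) (T.tp (T.sk (T.ls (nat_lit 3) (nat_lit 4))))) (T.tp (T.sk (T.ls (nat_lit 3) (nat_lit 4))))) (T.tp (T.sk (T.ls (nat_lit 3) (nat_lit 4))))) (T.tp (T.sk (T.ls (nat_lit 3) (nat_lit 4))))) (T.tp (T.sk (T.ls (nat_lit 3) (nat_lit 4))))) (T.tp (T.sk (T.ls (nat_lit 3) (nat_lit 4))))))))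
def d243 : T := (T.ts (nat_lit 0) (T.ts (nat_lit 3) (T.ts (nat_lit 2) (T.ts (nat_lit 1) (T.ts (nat_lit 3) (T.ts (nat_lit 2) (T.ts (nat_lit 0) (T.ts (nat_lit 3) (T.ts (nat_lit 1) (T.l1 (nat_lit 12300) (nat_lit 4) (nat_lit 20500)) (T.sk (T.lf (nat_lit 16569) (nat_lit 3) (nat_lit 12300) (nat_lit 4) (nat_lit 20500)))) (T.sk (T.lf (nat_lit 16569) (nat_lit 3) (nat_lit 12300) (nat_lit 4) (nat_lit 20500)))) (T.tp (T.sk (T.ls (nat_lit 3) (nat_lit 4))))) (T.tp (T.sk (T.ls (nat_lit 3) (nat_lit 4))))) (T.tp (T.sk (T.ls (nat_lit 3) (nat_lit 4))))) (T.tp (T.sk (T.ls (nat_lit 3) (nat_lit 4))))) (T.tp (T.sk (T.ls (nat_lit 3) (nat_lit 4))))) (T.tp (T.sk (T.ls (nat_lit 3) (nat_lit 4))))) (T.ts (nat_lit 1) (T.im (nat_lit 7) (nat_lit 2)) (T.nw (T.ts (nat_lit 4) (T.ts (nat_lit 3) (T.ts (nat_lit 2) (T.ts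 (nat_lit 4) (T.ts (nat_lit 3) (T.ts (nat_lit 1) (T.ts (nat_lit 4) (T.ts (nat_lit 2) (T.l1 (nat_lit 12300) (nat_lit 3) (nat_lit 20500)) (T.sk (T.lf (nat_lit 16569) (nat_lit 3) (nat_lit 20500) (nat_lit 4) (nat_lit 12300)))) (T.sk (T.lf (nat_lit 16569) (nat_lit 3) (nat_lit 20500) (nat_lit 4) (nat_lit 12300)))) (T.tp (T.sk (T.ls (nat_lit 3) (nat_lit 4))))) (T.tp (T.sk (T.ls (nat_lit 3) (nat_lit 4))))) (T.tp (T.sk (T.ls (nat_lit 3) (nat_lit 4))))) (T.tp (T.sk (T.ls (nat_lit 3) (nat_lit 4))))) (T.tp (T.sk (T.ls (nat_lit 3) (nat_lit 4))))) (T.tp (T.sk (T.ls (nat_lit 3) (nat_lit 4))))))))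
def d244 : T := (T.ts (nat_lit 0) (T.ts (nat_lit 3) (T.ts (nat_lit 2) (T.ts (nat_lit 1) (T.ts (nat_lit 3) (T.ts (nat_lit 2) (T.ts (nat_lit 0) (T.ts (nat_lit 3) (T.ts (nat_lit 1) (T.l1 (nat_lit 12300) (nat_lit 4) (nat_lit 20500)) (T.tp (T.sk (T.ls (nat_lit 3) (nat_lit 4))))) (T.tp (T.sk (T.ls (nat_lit 3) (nat_lit 4))))) (T.tp (T.sk (T.ls (nat_lit 3) (nat_lit 4))))) (T.tp (T.sk (T.ls (nat_lit 3) (nat_lit 4))))) (T.tp (T.sk (T.ls (nat_lit 3) (nat_lit 4))))) (T.tp (T.sk (T.ls (nat_lit 3) (nat_lit 4))))) (T.tp (T.sk (T.ls (nat_lit 3) (nat_lit 4))))) (T.tp (T.sk (T.ls (nat_lit 3) (nat_lit 4))))) (T.ts (nat_lit 3) (T.im (nat_lit 5) (nat_lit 3)) (T.ts (nat_lit 1) (T.im (nat_lit 7) (nat_lit 2)) (T.nw (T.ts (nat_lit 4) (T.ts (nat_lit 3) (T.ts (nat_lit 2) (T.ts (nat_lit 4) (T.ts (nat_lit 3)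 (T.ts (nat_lit 1) (T.ts (nat_lit 4) (T.ts (nat_lit 2) (T.l1 (nat_lit 12300) (nat_lit 3) (nat_lit 20500)) (T.tp (T.sk (T.ls (nat_lit 3) (nat_lit 4))))) (T.tp (T.sk (T.ls (nat_lit 3) (nat_lit 4))))) (T.tp (T.sk (T.ls (nat_lit 3) (nat_lit 4))))) (T.tp (T.sk (T.ls (nat_lit 3) (nat_lit 4))))) (T.tp (T.sk (T.ls (nat_lit 3) (nat_lit 4))))) (T.tp (T.sk (T.ls (nat_lit 3) (nat_lit 4))))) (T.tp (T.sk (T.ls (nat_lit 3) (nat_lit 4))))) (T.tp (T.sk (T.ls (nat_lit 3) (nat_lit 4)))))))))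
def d245 : T := (T.ts (nat_lit 1) (T.ts (nat_lit 4) (T.ts (nat_lit 3) (T.ts (nat_lit 2) (T.ts (nat_lit 4) (T.ts (nat_lit 3) (T.ts (nat_lit 1) (T.ts (nat_lit 4) (T.ts (nat_lit 2) (T.l1 (nat_lit 12300) (nat_lit 4) (nat_lit 20500)) (T.tp (T.sk (T.ls (nat_lit 3) (nat_lit 4))))) (T.tp (T.sk (T.ls (nat_lit 3) (nat_lit 4))))) (T.tp (T.sk (T.ls (nat_lit 3) (nat_lit 4))))) (T.tp (T.sk (T.ls (nat_lit 3) (nat_lit 4))))) (T.tp (T.sk (T.ls (nat_lit 3) (nat_lit 4))))) (T.tp (T.sk (T.ls (nat_lit 3) (nat_lit 4))))) (T.tp (T.sk (T.ls (nat_lit 3) (nat_lit 4))))) (T.tp (T.sk (T.ls (nat_lit 3) (nat_lit 4))))) (T.ts (nat_lit 0) (T.ts (nat_lit 4) (T.ts (nat_lit 3) (T.ts (nat_lit 2) (T.ts (nat_lit 4) (T.ts (nat_lit 3) (T.ts (nat_lit 1) (T.ts (nat_lit 4) (T.ts (nat_lit 2) (T.l1 (nat_lit 12300) (nat_lit 3)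 (nat_lit 20500)) (T.tp (T.sk (T.ls (nat_lit 3) (nat_lit 4))))) (T.tp (T.sk (T.ls (nat_lit 3) (nat_lit 4))))) (T.tp (T.sk (T.ls (nat_lit 3) (nat_lit 4))))) (T.tp (T.sk (T.ls (nat_lit 3) (nat_lit 4))))) (T.tp (T.sk (T.ls (nat_lit 3) (nat_lit 4))))) (T.tp (T.sk (T.ls (nat_lit 3) (nat_lit 4))))) (T.tp (T.sk (T.ls (nat_lit 3) (nat_lit 4))))) (T.tp (T.sk (T.ls (nat_lit 3) (nat_lit 4))))) (T.tp (T.ts (nat_lit 2) (T.im (nat_lit 7) (nat_lit 2)) T.ie))))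
def d246 : T := (T.ts (nat_lit 4) (T.ls (nat_lit 3) (nat_lit 4)) (T.ts (nat_lit 3) (T.ts (nat_lit 4) (T.ls (nat_lit 3) (nat_lit 4)) (T.ts (nat_lit 2) (T.ts (nat_lit 4) (T.ts (nat_lit 3) (T.ts (nat_lit 1) (T.l1 (nat_lit 12300) (nat_lit 3) (nat_lit 20500)) (T.tp (T.sk (T.ls (nat_lit 3) (nat_lit 4))))) (T.tp (T.sk (T.ls (nat_lit 3) (nat_lit 4))))) (T.tp (T.sk (T.ls (nat_lit 3) (nat_lit 4))))) (T.tp (T.sk (T.ls (nat_lit 3) (nat_lit 4)))))) (T.ts (nat_lit 2) (T.ls (nat_lit 3) (nat_lit 4)) (T.ts (nat_lit 1) (T.ts (nat_lit 4) (T.ts (nat_lit 3) (T.ts (nat_lit 2) (T.ts (nat_lit 4) (T.ts (nat_lit 3) (T.ts (nat_lit 1) (T.ts (nat_lit 4) (T.ts (nat_lit 0) (T.l1 (nat_lit 12300) (nat_lit 4) (nat_lit 20500)) (T.tp (T.sk (T.ls (nat_lit 3) (nat_lit 4))))) (T.tp (T.sk (T.ls (nat_lit 3) (nat_lit 4)))))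 (T.tp (T.sk (T.ls (nat_lit 3) (nat_lit 4))))) (T.tp (T.sk (T.ls (nat_lit 3) (nat_lit 4))))) (T.tp (T.sk (T.ls (nat_lit 3) (nat_lit 4))))) (T.tp (T.sk (T.ls (nat_lit 3) (nat_lit 4))))) (T.tp (T.sk (T.ls (nat_lit 3) (nat_lit 4))))) (T.tp (T.sk (T.ls (nat_lit 3) (nat_lit 4))))) (T.tp (T.ts (nat_lit 0) (T.im (nat_lit 7) (nat_lit 2)) T.ie))))))
def d247 : T := (T.ts (nat_lit 2) (T.ts (nat_lit 4) (T.ls (nat_lit 3) (nat_lit 4)) (T.ts (nat_lit 3) (T.ls (nat_lit 3) (nat_lit 4)) (T.ts (nat_lit 2) (T.ls (nat_lit 3) (nat_lit 4)) (T.ts (nat_lit 1) (T.ts (nat_lit 4) (T.ts (nat_lit 3) (T.ts (nat_lit 2) (T.ts (nat_lit 4) (T.ts (nat_lit 3) (T.ts (nat_lit 1) (T.ts (nat_lit 4) (T.ts (nat_lit 0) (T.l1 (nat_lit 12300) (nat_lit 4) (nat_lit 20500)) (T.tp (T.sk (T.ls (nat_lit 3) (nat_lit 4))))) (T.tp (T.sk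 (T.ls (nat_lit 3) (nat_lit 4))))) (T.tp (T.sk (T.ls (nat_lit 3) (nat_lit 4))))) (T.tp (T.sk (T.ls (nat_lit 3) (nat_lit 4))))) (T.tp (T.sk (T.ls (nat_lit 3) (nat_lit 4))))) (T.tp (T.sk (T.ls (nat_lit 3) (nat_lit 4))))) (T.tp (T.sk (T.ls (nat_lit 3) (nat_lit 4))))) (T.tp (T.sk (T.ls (nat_lit 3) (nat_lit 4))))) (T.tp (T.ts (nat_lit 0) (T.im (nat_lit 7) (nat_lit 2)) T.ie)))))) (T.ts (nat_lit 1) (T.ts (nat_lit 3) (T.ls (nat_lit 3) (nat_lit 4)) (T.ts (nat_lit 2) (T.ls (nat_lit 3) (nat_lit 4)) (T.ts (nat_lit 1) (T.ts (nat_lit 4) (T.ts (nat_lit 3) (T.ts (nat_lit 2) (T.ts (nat_lit 4) (T.ts (nat_lit 3) (T.ts (nat_lit 1) (T.ts (nat_lit 4) (T.ts (nat_lit 0) (T.l1 (nat_lit 12300) (nat_lit 4) (nat_lit 20500)) (T.tp (T.sk (T.ls (nat_lit 3) (nat_lit 4))))) (T.tp (T.sk (T.ls (nat_lit 3) (nat_lit 4)))))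 (T.tp (T.sk (T.ls (nat_lit 3) (nat_lit 4))))) (T.tp (T.sk (T.ls (nat_lit 3) (nat_lit 4))))) (T.tp (T.sk (T.ls (nat_lit 3) (nat_lit 4))))) (T.tp (T.sk (T.ls (nat_lit 3) (nat_lit 4))))) (T.tp (T.sk (T.ls (nat_lit 3) (nat_lit 4))))) (T.tp (T.sk (T.ls (nat_lit 3) (nat_lit 4))))) (T.tp (T.ts (nat_lit 4) (T.im (nat_lit 5) (nat_lit 3)) (T.ts (nat_lit 0) (T.im (nat_lit 7) (nat_lit 2)) T.ie)))))) (T.tp (T.ts (nat_lit 0) (T.im (nat_lit 7) (nat_lit 1)) T.ie))))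
def d248 : T := (T.ts (nat_lit 1) (T.ts (nat_lit 3) (T.ts (nat_lit 3) (T.ls (nat_lit 3) (nat_lit 4)) (T.ts (nat_lit 2) (T.ls (nat_lit 3) (nat_lit 4)) d242)) (T.ts (nat_lit 2) (T.ts (nat_lit 3) (T.ls (nat_lit 3) (nat_lit 4)) (T.ts (nat_lit 2) (T.ls (nat_lit 3) (nat_lit 4)) d243)) (T.ts (nat_lit 0) (T.ts (nat_lit 2) (T.ls (nat_lit 3) (nat_lit 4)) d244) (T.ts (nat_lit 1) (T.im (nat_lit 7) (nat_lit 1)) (T.nw (T.ts (nat_lit 4) (T.tp (T.ts (nat_lit 3) (T.ts (nat_lit 2) (T.ts (nat_lit 4) (T.ts (nat_lit 3) (T.im (nat_lit 9) (nat_lit 3)) (T.sk (T.ls (nat_lit 3) (nat_lit 4)))) (T.sk (T.ls (nat_lit 3) (nat_lit 4)))) (T.sk (T.ls (nat_lit 3) (nat_lit 4)))) (T.sk (T.ls (nat_lit 3) (nat_lit 4))))) (T.ts (nat_lit 3) (T.ls (nat_lit 3) (nat_lit 4)) d245))))))) (T.ts (nat_lit 2) (T.im (nat_lit 3) (nat_lit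 3)) (T.ts (nat_lit 0) (T.im (nat_lit 5) (nat_lit 2)) (T.nw (T.ts (nat_lit 4) d246 (T.ts (nat_lit 3) (T.ts (nat_lit 4) (T.ls (nat_lit 3) (nat_lit 4)) (T.ts (nat_lit 3) (T.ls (nat_lit 3) (nat_lit 4)) (T.ts (nat_lit 2) (T.ls (nat_lit 3) (nat_lit 4)) (T.ts (nat_lit 1) (T.ts (nat_lit 4) (T.ts (nat_lit 3) (T.ts (nat_lit 2) (T.ts (nat_lit 4) (T.ts (nat_lit 3) (T.ts (nat_lit 1) (T.ts (nat_lit 4) (T.ts (nat_lit 0) (T.l1 (nat_lit 12300) (nat_lit 4) (nat_lit 20500)) (T.sk (T.lf (nat_lit 16569) (nat_lit 3) (nat_lit 12300) (nat_lit 4) (nat_lit 20500)))) (T.sk (T.lf (nat_lit 16569) (nat_lit 3) (nat_lit 12300) (nat_lit 4) (nat_lit 20500)))) (T.tp (T.sk (T.ls (nat_lit 3) (nat_lit 4))))) (T.tp (T.sk (T.ls (nat_lit 3) (nat_lit 4))))) (T.tp (T.sk (T.ls (nat_lit 3) (nat_lit 4))))) (T.tp (T.sk (T.ls (nat_lit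 3) (nat_lit 4))))) (T.tp (T.sk (T.ls (nat_lit 3) (nat_lit 4))))) (T.tp (T.sk (T.ls (nat_lit 3) (nat_lit 4))))) (T.tp (T.ts (nat_lit 0) (T.im (nat_lit 7) (nat_lit 2)) T.ie)))))) d247))))))
def d249 : T := (T.ts (nat_lit 3) (T.ts (nat_lit 2) (T.tp (T.ts (nat_lit 2) (T.ls (nat_lit 3) (nat_lit 4)) (T.ts (nat_lit 1) (T.ls (nat_lit 3) (nat_lit 4)) (T.ts (nat_lit 3) (T.im (nat_lit 7) (nat_lit 2)) (T.ts (nat_lit 0) (T.im (nat_lit 3) (nat_lit 4)) (T.nw (T.ts (nat_lit 4) (T.ts (nat_lit 3) (T.im (nat_lit 7) (nat_lit 3)) (T.sk (T.ls (nat_lit 3) (nat_lit 4)))) (T.sk (T.ls (nat_lit 3) (nat_lit 4)))))))))) (T.ts (nat_lit 1) (T.ts (nat_lit 2) (T.ls (nat_lit 3) (nat_lit 4)) (T.ts (nat_lit 1) (T.ls (nat_lit 3) (nat_lit 4)) d239)) (T.ts (nat_lit 0) (T.ts (nat_lit 2) (T.ls (nat_lit 3) (nat_lit 4)) (T.ts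 (nat_lit 1) (T.ls (nat_lit 3) (nat_lit 4)) d240)) (T.ts (nat_lit 3) (T.im (nat_lit 7) (nat_lit 1)) (T.nw (T.ts (nat_lit 3) (T.ls (nat_lit 3) (nat_lit 4)) (T.ts (nat_lit 2) (T.ls (nat_lit 3) (nat_lit 4)) d241))))))) d248)
def d250 : T := (T.ts (nat_lit 0) (T.ts (nat_lit 3) (T.ts (nat_lit 2) (T.ts (nat_lit 1) (T.ts (nat_lit 3) (T.ts (nat_lit 2) (T.ts (nat_lit 0) (T.ts (nat_lit 2) (T.ts (nat_lit 3) (T.l1 (nat_lit 12300) (nat_lit 4) (nat_lit 20500)) (T.tp (T.sk (T.ls (nat_lit 3) (nat_lit 4))))) (T.tp (T.sk (T.ls (nat_lit 3) (nat_lit 4))))) (T.tp (T.sk (T.ls (nat_lit 3) (nat_lit 4))))) (T.tp (T.sk (T.ls (nat_lit 3) (nat_lit 4))))) (T.tp (T.sk (T.ls (nat_lit 3) (nat_lit 4))))) (T.tp (T.sk (T.ls (nat_lit 3) (nat_lit 4))))) (T.tp (T.sk (T.ls (nat_lit 3) (nat_lit 4))))) (T.tp (T.sk (T.ls (nat_lit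 3) (nat_lit 4))))) (T.ts (nat_lit 3) (T.im (nat_lit 7) (nat_lit 2)) (T.nw (T.ts (nat_lit 4) (T.ts (nat_lit 3) (T.ts (nat_lit 2) (T.ts (nat_lit 4) (T.ts (nat_lit 3) (T.ts (nat_lit 1) (T.ts (nat_lit 3) (T.ts (nat_lit 4) (T.l1 (nat_lit 12300) (nat_lit 3) (nat_lit 20500)) (T.tp (T.sk (T.ls (nat_lit 3) (nat_lit 4))))) (T.tp (T.sk (T.ls (nat_lit 3) (nat_lit 4))))) (T.tp (T.sk (T.ls (nat_lit 3) (nat_lit 4))))) (T.tp (T.sk (T.ls (nat_lit 3) (nat_lit 4))))) (T.tp (T.sk (T.ls (nat_lit 3) (nat_lit 4))))) (T.tp (T.sk (T.ls (nat_lit 3) (nat_lit 4))))) (T.tp (T.sk (T.ls (nat_lit 3) (nat_lit 4))))) (T.tp (T.sk (T.ls (nat_lit 3) (nat_lit 4))))))))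
def d251 : T := (T.ts (nat_lit 0) (T.ts (nat_lit 3) (T.ts (nat_lit 2) (T.ts (nat_lit 1) (T.ts (nat_lit 3) (T.ts (nat_lit 2) (T.ts (nat_lit 0) (T.ts (nat_lit 2) (T.ts (nat_lit 3) (T.l1 (nat_lit 12300) (nat_lit 4) (nat_lit 20500)) (T.tp (T.sk (T.ls (nat_lit 3) (nat_lit 4))))) (T.tp (T.sk (T.ls (nat_lit 3) (nat_lit 4))))) (T.tp (T.sk (T.ls (nat_lit 3) (nat_lit 4))))) (T.tp (T.sk (T.ls (nat_lit 3) (nat_lit 4))))) (T.tp (T.sk (T.ls (nat_lit 3) (nat_lit 4))))) (T.tp (T.sk (T.ls (nat_lit 3) (nat_lit 4))))) (T.tp (T.sk (T.ls (nat_lit 3) (nat_lit 4))))) (T.tp (T.sk (T.ls (nat_lit 3) (nat_lit 4))))) (T.ts (nat_lit 3) (T.im (nat_lit 7) (nat_lit 2)) (T.ts (nat_lit 2) (T.im (nat_lit 5) (nat_lit 3)) (T.nw (T.ts (nat_lit 4) (T.ts (nat_lit 3) (T.ts (nat_lit 2) (T.ts (nat_lit 4) (T.ts (nat_lit 3)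 (T.ts (nat_lit 1) (T.ts (nat_lit 3) (T.ts (nat_lit 4) (T.l1 (nat_lit 12300) (nat_lit 3) (nat_lit 20500)) (T.tp (T.sk (T.ls (nat_lit 3) (nat_lit 4))))) (T.tp (T.sk (T.ls (nat_lit 3) (nat_lit 4))))) (T.tp (T.sk (T.ls (nat_lit 3) (nat_lit 4))))) (T.tp (T.sk (T.ls (nat_lit 3) (nat_lit 4))))) (T.tp (T.sk (T.ls (nat_lit 3) (nat_lit 4))))) (T.tp (T.sk (T.ls (nat_lit 3) (nat_lit 4))))) (T.tp (T.sk (T.ls (nat_lit 3) (nat_lit 4))))) (T.tp (T.sk (T.ls (nat_lit 3) (nat_lit 4)))))))))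
def d252 : T := (T.ts (nat_lit 1) (T.ts (nat_lit 4) (T.ts (nat_lit 3) (T.ts (nat_lit 2) (T.ts (nat_lit 4) (T.ts (nat_lit 3) (T.ts (nat_lit 1) (T.ts (nat_lit 3) (T.ts (nat_lit 4) (T.l1 (nat_lit 12300) (nat_lit 4) (nat_lit 20500)) (T.tp (T.sk (T.ls (nat_lit 3) (nat_lit 4))))) (T.tp (T.sk (T.ls (nat_lit 3) (nat_lit 4))))) (T.tp (T.sk (T.ls (nat_lit 3) (nat_lit 4))))) (T.tp (T.sk (T.ls (nat_lit 3) (nat_lit 4))))) (T.tp (T.sk (T.ls (nat_lit 3) (nat_lit 4))))) (T.tp (T.sk (T.ls (nat_lit 3) (nat_lit 4))))) (T.tp (T.sk (T.ls (nat_lit 3) (nat_lit 4))))) (T.tp (T.sk (T.ls (nat_lit 3) (nat_lit 4))))) (T.ts (nat_lit 0) (T.ts (nat_lit 4) (T.ts (nat_lit 3) (T.ts (nat_lit 2) (T.ts (nat_lit 4) (T.ts (nat_lit 3) (T.ts (nat_lit 1) (T.ts (nat_lit 3) (T.ts (nat_lit 4) (T.l1 (nat_lit 12300) (nat_lit 3)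 (nat_lit 20500)) (T.tp (T.sk (T.ls (nat_lit 3) (nat_lit 4))))) (T.tp (T.sk (T.ls (nat_lit 3) (nat_lit 4))))) (T.tp (T.sk (T.ls (nat_lit 3) (nat_lit 4))))) (T.tp (T.sk (T.ls (nat_lit 3) (nat_lit 4))))) (T.tp (T.sk (T.ls (nat_lit 3) (nat_lit 4))))) (T.tp (T.sk (T.ls (nat_lit 3) (nat_lit 4))))) (T.tp (T.sk (T.ls (nat_lit 3) (nat_lit 4))))) (T.tp (T.sk (T.ls (nat_lit 3) (nat_lit 4))))) (T.tp (T.ts (nat_lit 4) (T.im (nat_lit 7) (nat_lit 2)) T.ie))))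
def d253 : T := (T.ts (nat_lit 0) (T.ts (nat_lit 3) (T.ts (nat_lit 2) (T.ts (nat_lit 1) (T.ts (nat_lit 3) (T.ts (nat_lit 2) (T.ts (nat_lit 0) (T.ts (nat_lit 2) (T.ts (nat_lit 2) (T.l1 (nat_lit 12300) (nat_lit 4) (nat_lit 20500)) (T.tp (T.sk (T.ls (nat_lit 3) (nat_lit 4))))) (T.tp (T.sk (T.ls (nat_lit 3) (nat_lit 4))))) (T.tp (T.sk (T.ls (nat_lit 3) (nat_lit 4))))) (T.tp (T.sk (T.ls (nat_lit 3) (nat_lit 4))))) (T.tp (T.sk (T.ls (nat_lit 3) (nat_lit 4))))) (T.tp (T.sk (T.ls (nat_lit 3) (nat_lit 4))))) (T.tp (T.sk (T.ls (nat_lit 3) (nat_lit 4))))) (T.tp (T.sk (T.ls (nat_lit 3) (nat_lit 4))))) (T.ts (nat_lit 2) (T.im (nat_lit 7) (nat_lit 2)) (T.nw (T.ts (nat_lit 4) (T.ts (nat_lit 3) (T.ts (nat_lit 2) (T.ts (nat_lit 4) (T.ts (nat_lit 3) (T.ts (nat_lit 1) (T.ts (nat_lit 3) (T.ts (nat_lit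 3) (T.l1 (nat_lit 12300) (nat_lit 3) (nat_lit 20500)) (T.tp (T.sk (T.ls (nat_lit 3) (nat_lit 4))))) (T.tp (T.sk (T.ls (nat_lit 3) (nat_lit 4))))) (T.tp (T.sk (T.ls (nat_lit 3) (nat_lit 4))))) (T.tp (T.sk (T.ls (nat_lit 3) (nat_lit 4))))) (T.tp (T.sk (T.ls (nat_lit 3) (nat_lit 4))))) (T.tp (T.sk (T.ls (nat_lit 3) (nat_lit 4))))) (T.tp (T.sk (T.ls (nat_lit 3) (nat_lit 4))))) (T.tp (T.sk (T.ls (nat_lit 3) (nat_lit 4))))))))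
def d254 : T := (T.ts (nat_lit 0) (T.ts (nat_lit 3) (T.ts (nat_lit 2) (T.ts (nat_lit 1) (T.ts (nat_lit 3) (T.ts (nat_lit 2) (T.ts (nat_lit 0) (T.ts (nat_lit 2) (T.ts (nat_lit 2) (T.l1 (nat_lit 12300) (nat_lit 4) (nat_lit 20500)) (T.tp (T.sk (T.ls (nat_lit 3) (nat_lit 4))))) (T.tp (T.sk (T.ls (nat_lit 3) (nat_lit 4))))) (T.tp (T.sk (T.ls (nat_lit 3) (nat_lit 4))))) (T.tp (T.sk (T.ls (nat_lit 3) (nat_lit 4))))) (T.tp (T.sk (T.ls (nat_lit 3) (nat_lit 4))))) (T.tp (T.sk (T.ls (nat_lit 3) (nat_lit 4))))) (T.tp (T.sk (T.ls (nat_lit 3) (nat_lit 4))))) (T.tp (T.sk (T.ls (nat_lit 3) (nat_lit 4))))) (T.ts (nat_lit 2) (T.im (nat_lit 7) (nat_lit 2)) (T.nw (T.ts (nat_lit 4) (T.ts (nat_lit 3) (T.ts (nat_lit 2) (T.ts (nat_lit 4) (T.ts (nat_lit 3) (T.ts (nat_lit 1) (T.ts (nat_lit 3) (T.ts (nat_lit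 3) (T.l1 (nat_lit 12300) (nat_lit 3) (nat_lit 20500)) (T.tp (T.sk (T.ls (nat_lit 3) (nat_lit 4))))) (T.tp (T.sk (T.ls (nat_lit 3) (nat_lit 4))))) (T.tp (T.sk (T.ls (nat_lit 3) (nat_lit 4))))) (T.tp (T.sk (T.ls (nat_lit 3) (nat_lit 4))))) (T.tp (T.sk (T.ls (nat_lit 3) (nat_lit 4))))) (T.tp (T.sk (T.ls (nat_lit 3) (nat_lit 4))))) (T.tp (T.sk (T.ls (nat_lit 3) (nat_lit 4))))) (T.tp (T.sk (T.ls (nat_lit 3) (nat_lit 4))))))))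
def d255 : T := (T.ts (nat_lit 0) (T.ts (nat_lit 3) (T.ts (nat_lit 2) (T.ts (nat_lit 1) (T.ts (nat_lit 3) (T.ts (nat_lit 2) (T.ts (nat_lit 0) (T.ts (nat_lit 2) (T.ts (nat_lit 2) (T.l1 (nat_lit 12300) (nat_lit 4) (nat_lit 20500)) (T.tp (T.sk (T.ls (nat_lit 3) (nat_lit 4))))) (T.tp (T.sk (T.ls (nat_lit 3) (nat_lit 4))))) (T.tp (T.sk (T.ls (nat_lit 3) (nat_lit 4))))) (T.tp (T.sk (T.ls (nat_lit 3) (nat_lit 4))))) (T.tp (T.sk (T.ls (nat_lit 3) (nat_lit 4))))) (T.tp (T.sk (T.ls (nat_lit 3) (nat_lit 4))))) (T.tp (T.sk (T.ls (nat_lit 3) (nat_lit 4))))) (T.tp (T.sk (T.ls (nat_lit 3) (nat_lit 4))))) (T.ts (nat_lit 2) (T.im (nat_lit 5) (nat_lit 3)) (T.nw (T.ts (nat_lit 4) (T.ts (nat_lit 3) (T.ts (nat_lit 2) (T.ts (nat_lit 4) (T.ts (nat_lit 3) (T.ts (nat_lit 1) (T.ts (nat_lit 3) (T.ts (nat_lit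 3) (T.l1 (nat_lit 12300) (nat_lit 3) (nat_lit 20500)) (T.tp (T.sk (T.ls (nat_lit 3) (nat_lit 4))))) (T.tp (T.sk (T.ls (nat_lit 3) (nat_lit 4))))) (T.tp (T.sk (T.ls (nat_lit 3) (nat_lit 4))))) (T.tp (T.sk (T.ls (nat_lit 3) (nat_lit 4))))) (T.tp (T.sk (T.ls (nat_lit 3) (nat_lit 4))))) (T.tp (T.sk (T.ls (nat_lit 3) (nat_lit 4))))) (T.tp (T.sk (T.ls (nat_lit 3) (nat_lit 4))))) (T.tp (T.sk (T.ls (nat_lit 3) (nat_lit 4))))))))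
def d256 : T := (T.ts (nat_lit 1) (T.ts (nat_lit 4) (T.ts (nat_lit 3) (T.ts (nat_lit 2) (T.ts (nat_lit 4) (T.ts (nat_lit 3) (T.ts (nat_lit 1) (T.ts (nat_lit 3) (T.ts (nat_lit 3) (T.l1 (nat_lit 12300) (nat_lit 4) (nat_lit 20500)) (T.tp (T.sk (T.ls (nat_lit 3) (nat_lit 4))))) (T.tp (T.sk (T.ls (nat_lit 3) (nat_lit 4))))) (T.tp (T.sk (T.ls (nat_lit 3) (nat_lit 4))))) (T.tp (T.sk (T.ls (nat_lit 3) (nat_lit 4))))) (T.tp (T.sk (T.ls (nat_lit 3) (nat_lit 4))))) (T.tp (T.sk (T.ls (nat_lit 3) (nat_lit 4))))) (T.tp (T.sk (T.ls (nat_lit 3) (nat_lit 4))))) (T.tp (T.sk (T.ls (nat_lit 3) (nat_lit 4))))) (T.ts (nat_lit 0) (T.ts (nat_lit 4) (T.ts (nat_lit 3) (T.ts (nat_lit 2) (T.ts (nat_lit 4) (T.ts (nat_lit 3) (T.ts (nat_lit 1) (T.ts (nat_lit 3) (T.ts (nat_lit 3) (T.l1 (nat_lit 12300) (nat_lit 3)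 (nat_lit 20500)) (T.tp (T.sk (T.ls (nat_lit 3) (nat_lit 4))))) (T.tp (T.sk (T.ls (nat_lit 3) (nat_lit 4))))) (T.tp (T.sk (T.ls (nat_lit 3) (nat_lit 4))))) (T.tp (T.sk (T.ls (nat_lit 3) (nat_lit 4))))) (T.tp (T.sk (T.ls (nat_lit 3) (nat_lit 4))))) (T.tp (T.sk (T.ls (nat_lit 3) (nat_lit 4))))) (T.tp (T.sk (T.ls (nat_lit 3) (nat_lit 4))))) (T.tp (T.sk (T.ls (nat_lit 3) (nat_lit 4))))) (T.tp (T.ts (nat_lit 3) (T.im (nat_lit 7) (nat_lit 2)) T.ie))))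
def d257 : T := (T.ts (nat_lit 0) (T.ts (nat_lit 3) (T.ts (nat_lit 2) (T.ts (nat_lit 1) (T.ts (nat_lit 3) (T.ts (nat_lit 2) (T.ts (nat_lit 0) (T.ts (nat_lit 2) (T.ts (nat_lit 1) (T.l1 (nat_lit 12300) (nat_lit 4) (nat_lit 20500)) (T.tp (T.sk (T.ls (nat_lit 3) (nat_lit 4))))) (T.tp (T.sk (T.ls (nat_lit 3) (nat_lit 4))))) (T.tp (T.sk (T.ls (nat_lit 3) (nat_lit 4))))) (T.tp (T.sk (T.ls (nat_lit 3) (nat_lit 4))))) (T.tp (T.sk (T.ls (nat_lit 3) (nat_lit 4))))) (T.tp (T.sk (T.ls (nat_lit 3) (nat_lit 4))))) (T.tp (T.sk (T.ls (nat_lit 3) (nat_lit 4))))) (T.tp (T.sk (T.ls (nat_lit 3) (nat_lit 4))))) (T.ts (nat_lit 2) (T.im (nat_lit 1) (nat_lit 5)) (T.ts (nat_lit 1) (T.im (nat_lit 7) (nat_lit 2)) (T.nw (T.ts (nat_lit 4) (T.ts (nat_lit 3) (T.ts (nat_lit 2) (T.ts (nat_lit 4) (T.ts (nat_lit 3)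 (T.ts (nat_lit 1) (T.ts (nat_lit 3) (T.ts (nat_lit 2) (T.l1 (nat_lit 12300) (nat_lit 3) (nat_lit 20500)) (T.tp (T.sk (T.ls (nat_lit 3) (nat_lit 4))))) (T.tp (T.sk (T.ls (nat_lit 3) (nat_lit 4))))) (T.tp (T.sk (T.ls (nat_lit 3) (nat_lit 4))))) (T.tp (T.sk (T.ls (nat_lit 3) (nat_lit 4))))) (T.tp (T.sk (T.ls (nat_lit 3) (nat_lit 4))))) (T.tp (T.sk (T.ls (nat_lit 3) (nat_lit 4))))) (T.tp (T.sk (T.ls (nat_lit 3) (nat_lit 4))))) (T.tp (T.sk (T.ls (nat_lit 3) (nat_lit 4)))))))))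
def d258 : T := (T.ts (nat_lit 0) (T.ts (nat_lit 3) (T.ts (nat_lit 2) (T.ts (nat_lit 1) (T.ts (nat_lit 3) (T.ts (nat_lit 2) (T.ts (nat_lit 0) (T.ts (nat_lit 2) (T.ts (nat_lit 1) (T.l1 (nat_lit 12300) (nat_lit 4) (nat_lit 20500)) (T.sk (T.lf (nat_lit 16569) (nat_lit 3) (nat_lit 12300) (nat_lit 4) (nat_lit 20500)))) (T.sk (T.lf (nat_lit 16569) (nat_lit 3) (nat_lit 12300) (nat_lit 4) (nat_lit 20500)))) (T.tp (T.sk (T.ls (nat_lit 3) (nat_lit 4))))) (T.tp (T.sk (T.ls (nat_lit 3) (nat_lit 4))))) (T.tp (T.sk (T.ls (nat_lit 3) (nat_lit 4))))) (T.tp (T.sk (T.ls (nat_lit 3) (nat_lit 4))))) (T.tp (T.sk (T.ls (nat_lit 3) (nat_lit 4))))) (T.tp (T.sk (T.ls (nat_lit 3) (nat_lit 4))))) (T.ts (nat_lit 1) (T.im (nat_lit 7) (nat_lit 2)) (T.nw (T.ts (nat_lit 4) (T.ts (nat_lit 3) (T.ts (nat_lit 2) (T.ts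 (nat_lit 4) (T.ts (nat_lit 3) (T.ts (nat_lit 1) (T.ts (nat_lit 3) (T.ts (nat_lit 2) (T.l1 (nat_lit 12300) (nat_lit 3) (nat_lit 20500)) (T.sk (T.lf (nat_lit 16569) (nat_lit 3) (nat_lit 20500) (nat_lit 4) (nat_lit 12300)))) (T.sk (T.lf (nat_lit 16569) (nat_lit 3) (nat_lit 20500) (nat_lit 4) (nat_lit 12300)))) (T.tp (T.sk (T.ls (nat_lit 3) (nat_lit 4))))) (T.tp (T.sk (T.ls (nat_lit 3) (nat_lit 4))))) (T.tp (T.sk (T.ls (nat_lit 3) (nat_lit 4))))) (T.tp (T.sk (T.ls (nat_lit 3) (nat_lit 4))))) (T.tp (T.sk (T.ls (nat_lit 3) (nat_lit 4))))) (T.tp (T.sk (T.ls (nat_lit 3) (nat_lit 4))))))))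
def d259 : T := (T.ts (nat_lit 0) (T.ts (nat_lit 3) (T.ts (nat_lit 2) (T.ts (nat_lit 1) (T.ts (nat_lit 3) (T.ts (nat_lit 2) (T.ts (nat_lit 0) (T.ts (nat_lit 2) (T.ts (nat_lit 1) (T.l1 (nat_lit 12300) (nat_lit 4) (nat_lit 20500)) (T.tp (T.sk (T.ls (nat_lit 3) (nat_lit 4))))) (T.tp (T.sk (T.ls (nat_lit 3) (nat_lit 4))))) (T.tp (T.sk (T.ls (nat_lit 3) (nat_lit 4))))) (T.tp (T.sk (T.ls (nat_lit 3) (nat_lit 4))))) (T.tp (T.sk (T.ls (nat_lit 3) (nat_lit 4))))) (T.tp (T.sk (T.ls (nat_lit 3) (nat_lit 4))))) (T.tp (T.sk (T.ls (nat_lit 3) (nat_lit 4))))) (T.tp (T.sk (T.ls (nat_lit 3) (nat_lit 4))))) (T.ts (nat_lit 2) (T.im (nat_lit 5) (nat_lit 3)) (T.ts (nat_lit 1) (T.im (nat_lit 7) (nat_lit 2)) (T.nw (T.ts (nat_lit 4) (T.ts (nat_lit 3) (T.ts (nat_lit 2) (T.ts (nat_lit 4) (T.ts (nat_lit 3)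 (T.ts (nat_lit 1) (T.ts (nat_lit 3) (T.ts (nat_lit 2) (T.l1 (nat_lit 12300) (nat_lit 3) (nat_lit 20500)) (T.tp (T.sk (T.ls (nat_lit 3) (nat_lit 4))))) (T.tp (T.sk (T.ls (nat_lit 3) (nat_lit 4))))) (T.tp (T.sk (T.ls (nat_lit 3) (nat_lit 4))))) (T.tp (T.sk (T.ls (nat_lit 3) (nat_lit 4))))) (T.tp (T.sk (T.ls (nat_lit 3) (nat_lit 4))))) (T.tp (T.sk (T.ls (nat_lit 3) (nat_lit 4))))) (T.tp (T.sk (T.ls (nat_lit 3) (nat_lit 4))))) (T.tp (T.sk (T.ls (nat_lit 3) (nat_lit 4)))))))))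
def d260 : T := (T.ts (nat_lit 1) (T.ts (nat_lit 4) (T.ts (nat_lit 3) (T.ts (nat_lit 2) (T.ts (nat_lit 4) (T.ts (nat_lit 3) (T.ts (nat_lit 1) (T.ts (nat_lit 3) (T.ts (nat_lit 2) (T.l1 (nat_lit 12300) (nat_lit 4) (nat_lit 20500)) (T.tp (T.sk (T.ls (nat_lit 3) (nat_lit 4))))) (T.tp (T.sk (T.ls (nat_lit 3) (nat_lit 4))))) (T.tp (T.sk (T.ls (nat_lit 3) (nat_lit 4))))) (T.tp (T.sk (T.ls (nat_lit 3) (nat_lit 4))))) (T.tp (T.sk (T.ls (nat_lit 3) (nat_lit 4))))) (T.tp (T.sk (T.ls (nat_lit 3) (nat_lit 4))))) (T.tp (T.sk (T.ls (nat_lit 3) (nat_lit 4))))) (T.tp (T.sk (T.ls (nat_lit 3) (nat_lit 4))))) (T.ts (nat_lit 0) (T.ts (nat_lit 4) (T.ts (nat_lit 3) (T.ts (nat_lit 2) (T.ts (nat_lit 4) (T.ts (nat_lit 3) (T.ts (nat_lit 1) (T.ts (nat_lit 3) (T.ts (nat_lit 2) (T.l1 (nat_lit 12300) (nat_lit 3)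 (nat_lit 20500)) (T.tp (T.sk (T.ls (nat_lit 3) (nat_lit 4))))) (T.tp (T.sk (T.ls (nat_lit 3) (nat_lit 4))))) (T.tp (T.sk (T.ls (nat_lit 3) (nat_lit 4))))) (T.tp (T.sk (T.ls (nat_lit 3) (nat_lit 4))))) (T.tp (T.sk (T.ls (nat_lit 3) (nat_lit 4))))) (T.tp (T.sk (T.ls (nat_lit 3) (nat_lit 4))))) (T.tp (T.sk (T.ls (nat_lit 3) (nat_lit 4))))) (T.tp (T.sk (T.ls (nat_lit 3) (nat_lit 4))))) (T.tp (T.ts (nat_lit 2) (T.im (nat_lit 7) (nat_lit 2)) T.ie))))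
def d261 : T := (T.ts (nat_lit 1) (T.ts (nat_lit 4) (T.tp (T.ts (nat_lit 3) (T.ts (nat_lit 2) (T.ts (nat_lit 4) (T.ts (nat_lit 3) (T.im (nat_lit 9) (nat_lit 3)) (T.sk (T.ls (nat_lit 3) (nat_lit 4)))) (T.sk (T.ls (nat_lit 3) (nat_lit 4)))) (T.sk (T.ls (nat_lit 3) (nat_lit 4)))) (T.sk (T.ls (nat_lit 3) (nat_lit 4))))) (T.ts (nat_lit 2) (T.ls (nat_lit 3) (nat_lit 4)) (T.ts (nat_lit 1) (T.ts (nat_lit 4) (T.ts (nat_lit 3) (T.ts (nat_lit 2) (T.ts (nat_lit 4) (T.ts (nat_lit 3) (T.ts (nat_lit 1) (T.ts (nat_lit 3) (T.ts (nat_lit 0) (T.l1 (nat_lit 12300) (nat_lit 4) (nat_lit 20500)) (T.tp (T.sk (T.ls (nat_lit 3) (nat_lit 4))))) (T.tp (T.sk (T.ls (nat_lit 3) (nat_lit 4))))) (T.tp (T.sk (T.ls (nat_lit 3) (nat_lit 4))))) (T.tp (T.sk (T.ls (nat_lit 3) (nat_lit 4))))) (T.tp (T.sk (T.ls (nat_lit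 3) (nat_lit 4))))) (T.tp (T.sk (T.ls (nat_lit 3) (nat_lit 4))))) (T.tp (T.sk (T.ls (nat_lit 3) (nat_lit 4))))) (T.tp (T.sk (T.ls (nat_lit 3) (nat_lit 4))))) (T.tp (T.ts (nat_lit 3) (T.im (nat_lit 5) (nat_lit 3)) (T.ts (nat_lit 0) (T.im (nat_lit 7) (nat_lit 2)) T.ie)))))) (T.tp (T.ts (nat_lit 0) (T.im (nat_lit 7) (nat_lit 1)) T.ie)))
def d262 : T := (T.ts (nat_lit 3) (T.ts (nat_lit 4) (T.ls (nat_lit 3) (nat_lit 4)) (T.ts (nat_lit 3) (T.ls (nat_lit 3) (nat_lit 4)) (T.ts (nat_lit 2) (T.ls (nat_lit 3) (nat_lit 4)) (T.ts (nat_lit 1) (T.ts (nat_lit 4) (T.ts (nat_lit 3) (T.ts (nat_lit 2) (T.ts (nat_lit 4) (T.ts (nat_lit 3) (T.ts (nat_lit 1) (T.ts (nat_lit 3) (T.ts (nat_lit 0) (T.l1 (nat_lit 12300) (nat_lit 4) (nat_lit 20500)) (T.sk (T.lf (nat_lit 16569) (nat_lit 3) (nat_lit 12300) (nat_lit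 4) (nat_lit 20500)))) (T.sk (T.lf (nat_lit 16569) (nat_lit 3) (nat_lit 12300) (nat_lit 4) (nat_lit 20500)))) (T.tp (T.sk (T.ls (nat_lit 3) (nat_lit 4))))) (T.tp (T.sk (T.ls (nat_lit 3) (nat_lit 4))))) (T.tp (T.sk (T.ls (nat_lit 3) (nat_lit 4))))) (T.tp (T.sk (T.ls (nat_lit 3) (nat_lit 4))))) (T.tp (T.sk (T.ls (nat_lit 3) (nat_lit 4))))) (T.tp (T.sk (T.ls (nat_lit 3) (nat_lit 4))))) (T.tp (T.ts (nat_lit 0) (T.im (nat_lit 7) (nat_lit 2)) T.ie)))))) (T.ts (nat_lit 2) (T.ts (nat_lit 4) (T.ls (nat_lit 3) (nat_lit 4)) (T.ts (nat_lit 3) (T.ls (nat_lit 3) (nat_lit 4)) (T.ts (nat_lit 2) (T.ls (nat_lit 3) (nat_lit 4)) (T.ts (nat_lit 1) (T.ts (nat_lit 4) (T.ts (nat_lit 3) (T.ts (nat_lit 2) (T.ts (nat_lit 4) (T.ts (nat_lit 3) (T.ts (nat_lit 1) (T.ts (nat_lit 3) (T.ts (nat_lit 0) (T.l1 (nat_lit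 12300) (nat_lit 4) (nat_lit 20500)) (T.tp (T.sk (T.ls (nat_lit 3) (nat_lit 4))))) (T.tp (T.sk (T.ls (nat_lit 3) (nat_lit 4))))) (T.tp (T.sk (T.ls (nat_lit 3) (nat_lit 4))))) (T.tp (T.sk (T.ls (nat_lit 3) (nat_lit 4))))) (T.tp (T.sk (T.ls (nat_lit 3) (nat_lit 4))))) (T.tp (T.sk (T.ls (nat_lit 3) (nat_lit 4))))) (T.tp (T.sk (T.ls (nat_lit 3) (nat_lit 4))))) (T.tp (T.sk (T.ls (nat_lit 3) (nat_lit 4))))) (T.tp (T.ts (nat_lit 0) (T.im (nat_lit 7) (nat_lit 2)) T.ie)))))) d261))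
def d263 : T := (T.ts (nat_lit 4) (T.ts (nat_lit 4) (T.ls (nat_lit 3) (nat_lit 4)) (T.ts (nat_lit 3) (T.ts (nat_lit 4) (T.ls (nat_lit 3) (nat_lit 4)) (T.ts (nat_lit 2) (T.ts (nat_lit 4) (T.ts (nat_lit 3) (T.ts (nat_lit 1) (T.l1 (nat_lit 12300) (nat_lit 3) (nat_lit 20500)) (T.sk (T.lf (nat_lit 16569) (nat_lit 3) (nat_lit 20500) (nat_lit 4) (nat_lit 12300)))) (T.sk (T.lf (nat_lit 16569) (nat_lit 3) (nat_lit 20500) (nat_lit 4) (nat_lit 12300)))) (T.tp (T.sk (T.ls (nat_lit 3) (nat_lit 4))))) (T.tp (T.sk (T.ls (nat_lit 3) (nat_lit 4)))))) (T.ts (nat_lit 2) (T.ls (nat_lit 3) (nat_lit 4)) (T.ts (nat_lit 1) (T.ts (nat_lit 4) (T.ts (nat_lit 3) (T.ts (nat_lit 2) (T.ts (nat_lit 4) (T.ts (nat_lit 3) (T.ts (nat_lit 1) (T.ts (nat_lit 3) (T.ts (nat_lit 0) (T.l1 (nat_lit 12300) (nat_lit 4) (nat_lit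 20500)) (T.tp (T.sk (T.ls (nat_lit 3) (nat_lit 4))))) (T.tp (T.sk (T.ls (nat_lit 3) (nat_lit 4))))) (T.tp (T.sk (T.ls (nat_lit 3) (nat_lit 4))))) (T.tp (T.sk (T.ls (nat_lit 3) (nat_lit 4))))) (T.tp (T.sk (T.ls (nat_lit 3) (nat_lit 4))))) (T.tp (T.sk (T.ls (nat_lit 3) (nat_lit 4))))) (T.tp (T.sk (T.ls (nat_lit 3) (nat_lit 4))))) (T.tp (T.sk (T.ls (nat_lit 3) (nat_lit 4))))) (T.tp (T.ts (nat_lit 0) (T.im (nat_lit 7) (nat_lit 2)) T.ie)))))) d262)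
def d264 : T := (T.ts (nat_lit 2) (T.ts (nat_lit 3) (T.ts (nat_lit 3) (T.ls (nat_lit 3) (nat_lit 4)) (T.ts (nat_lit 1) (T.ls (nat_lit 3) (nat_lit 4)) d253)) (T.ts (nat_lit 1) (T.ts (nat_lit 3) (T.ls (nat_lit 3) (nat_lit 4)) (T.ts (nat_lit 1) (T.ls (nat_lit 3) (nat_lit 4)) d254)) (T.ts (nat_lit 0) (T.ts (nat_lit 3) (T.tp (T.ts (nat_lit 2) (T.ts (nat_lit 1) (T.ts (nat_lit 3) (T.ts (nat_lit 2) (T.im (nat_lit 9) (nat_lit 3)) (T.sk (T.ls (nat_lit 3) (nat_lit 4)))) (T.sk (T.ls (nat_lit 3) (nat_lit 4)))) (T.sk (T.ls (nat_lit 3) (nat_lit 4)))) (T.sk (T.ls (nat_lit 3) (nat_lit 4))))) (T.ts (nat_lit 1) (T.ls (nat_lit 3) (nat_lit 4)) d255)) (T.ts (nat_lit 2) (T.im (nat_lit 7) (nat_lit 1)) (T.nw (T.ts (nat_lit 4) (T.tp (T.ts (nat_lit 3) (T.ts (nat_lit 2) (T.ts (nat_lit 4) (T.ts (nat_lit 3) (T.im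 (nat_lit 9) (nat_lit 3)) (T.sk (T.ls (nat_lit 3) (nat_lit 4)))) (T.sk (T.ls (nat_lit 3) (nat_lit 4)))) (T.sk (T.ls (nat_lit 3) (nat_lit 4)))) (T.sk (T.ls (nat_lit 3) (nat_lit 4))))) (T.ts (nat_lit 2) (T.ls (nat_lit 3) (nat_lit 4)) d256))))))) (T.ts (nat_lit 1) (T.ts (nat_lit 3) (T.ts (nat_lit 3) (T.ls (nat_lit 3) (nat_lit 4)) d257) (T.ts (nat_lit 2) (T.ts (nat_lit 3) (T.ls (nat_lit 3) (nat_lit 4)) (T.ts (nat_lit 2) (T.ls (nat_lit 3) (nat_lit 4)) d258)) (T.ts (nat_lit 0) (T.ts (nat_lit 3) (T.tp (T.ts (nat_lit 2) (T.ts (nat_lit 1) (T.ts (nat_lit 3) (T.ts (nat_lit 2) (T.im (nat_lit 9) (nat_lit 3)) (T.sk (T.ls (nat_lit 3) (nat_lit 4)))) (T.sk (T.ls (nat_lit 3) (nat_lit 4)))) (T.sk (T.ls (nat_lit 3) (nat_lit 4)))) (T.sk (T.ls (nat_lit 3) (nat_lit 4))))) d259) (T.ts (nat_lit 1) (T.im (nat_lit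 7) (nat_lit 1)) (T.nw (T.ts (nat_lit 4) (T.tp (T.ts (nat_lit 3) (T.ts (nat_lit 2) (T.ts (nat_lit 4) (T.ts (nat_lit 3) (T.im (nat_lit 9) (nat_lit 3)) (T.sk (T.ls (nat_lit 3) (nat_lit 4)))) (T.sk (T.ls (nat_lit 3) (nat_lit 4)))) (T.sk (T.ls (nat_lit 3) (nat_lit 4)))) (T.sk (T.ls (nat_lit 3) (nat_lit 4))))) (T.ts (nat_lit 3) (T.ls (nat_lit 3) (nat_lit 4)) d260))))))) (T.ts (nat_lit 0) (T.im (nat_lit 5) (nat_lit 2)) (T.nw d263))))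
def d265 : T := (T.ts (nat_lit 3) (T.ts (nat_lit 2) (T.tp (T.ts (nat_lit 2) (T.ls (nat_lit 3) (nat_lit 4)) (T.ts (nat_lit 1) (T.ls (nat_lit 3) (nat_lit 4)) (T.ts (nat_lit 3) (T.im (nat_lit 7) (nat_lit 2)) (T.ts (nat_lit 0) (T.im (nat_lit 3) (nat_lit 4)) (T.nw (T.ts (nat_lit 4) (T.ts (nat_lit 3) (T.im (nat_lit 7) (nat_lit 3)) (T.sk (T.ls (nat_lit 3) (nat_lit 4)))) (T.sk (T.ls (nat_lit 3) (nat_lit 4)))))))))) (T.ts (nat_lit 1) (T.ts (nat_lit 2) (T.ls (nat_lit 3) (nat_lit 4)) (T.ts (nat_lit 1) (T.ls (nat_lit 3) (nat_lit 4)) d250)) (T.ts (nat_lit 0) (T.ts (nat_lit 1) (T.ls (nat_lit 3) (nat_lit 4)) d251) (T.ts (nat_lit 3) (T.im (nat_lit 7) (nat_lit 1)) (T.nw (T.ts (nat_lit 3) (T.ls (nat_lit 3) (nat_lit 4)) (T.ts (nat_lit 2) (T.ls (nat_lit 3) (nat_lit 4)) d252))))))) d264)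
def d266 : T := (T.ts (nat_lit 0) (T.ts (nat_lit 3) (T.ts (nat_lit 2) (T.ts (nat_lit 1) (T.ts (nat_lit 3) (T.ts (nat_lit 2) (T.ts (nat_lit 0) (T.ts (nat_lit 1) (T.ts (nat_lit 3) (T.l1 (nat_lit 12300) (nat_lit 4) (nat_lit 20500)) (T.tp (T.sk (T.ls (nat_lit 3) (nat_lit 4))))) (T.tp (T.sk (T.ls (nat_lit 3) (nat_lit 4))))) (T.tp (T.sk (T.ls (nat_lit 3) (nat_lit 4))))) (T.tp (T.sk (T.ls (nat_lit 3) (nat_lit 4))))) (T.tp (T.sk (T.ls (nat_lit 3) (nat_lit 4))))) (T.tp (T.sk (T.ls (nat_lit 3) (nat_lit 4))))) (T.tp (T.sk (T.ls (nat_lit 3) (nat_lit 4))))) (T.tp (T.sk (T.ls (nat_lit 3) (nat_lit 4))))) (T.ts (nat_lit 3) (T.im (nat_lit 7) (nat_lit 2)) (T.nw (T.ts (nat_lit 4) (T.ts (nat_lit 3) (T.ts (nat_lit 2) (T.ts (nat_lit 4) (T.ts (nat_lit 3) (T.ts (nat_lit 1) (T.ts (nat_lit 2) (T.ts (nat_lit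 4) (T.l1 (nat_lit 12300) (nat_lit 3) (nat_lit 20500)) (T.tp (T.sk (T.ls (nat_lit 3) (nat_lit 4))))) (T.tp (T.sk (T.ls (nat_lit 3) (nat_lit 4))))) (T.tp (T.sk (T.ls (nat_lit 3) (nat_lit 4))))) (T.tp (T.sk (T.ls (nat_lit 3) (nat_lit 4))))) (T.tp (T.sk (T.ls (nat_lit 3) (nat_lit 4))))) (T.tp (T.sk (T.ls (nat_lit 3) (nat_lit 4))))) (T.tp (T.sk (T.ls (nat_lit 3) (nat_lit 4))))) (T.tp (T.sk (T.ls (nat_lit 3) (nat_lit 4))))))))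
def d267 : T := (T.ts (nat_lit 0) (T.ts (nat_lit 3) (T.ts (nat_lit 2) (T.ts (nat_lit 1) (T.ts (nat_lit 3) (T.ts (nat_lit 2) (T.ts (nat_lit 0) (T.ts (nat_lit 1) (T.ts (nat_lit 3) (T.l1 (nat_lit 12300) (nat_lit 4) (nat_lit 20500)) (T.tp (T.sk (T.ls (nat_lit 3) (nat_lit 4))))) (T.tp (T.sk (T.ls (nat_lit 3) (nat_lit 4))))) (T.tp (T.sk (T.ls (nat_lit 3) (nat_lit 4))))) (T.tp (T.sk (T.ls (nat_lit 3) (nat_lit 4))))) (T.tp (T.sk (T.ls (nat_lit 3) (nat_lit 4))))) (T.tp (T.sk (T.ls (nat_lit 3) (nat_lit 4))))) (T.tp (T.sk (T.ls (nat_lit 3) (nat_lit 4))))) (T.tp (T.sk (T.ls (nat_lit 3) (nat_lit 4))))) (T.ts (nat_lit 3) (T.im (nat_lit 7) (nat_lit 2)) (T.ts (nat_lit 1) (T.im (nat_lit 5) (nat_lit 3)) (T.nw (T.ts (nat_lit 4) (T.ts (nat_lit 3) (T.ts (nat_lit 2) (T.ts (nat_lit 4) (T.ts (nat_lit 3)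 (T.ts (nat_lit 1) (T.ts (nat_lit 2) (T.ts (nat_lit 4) (T.l1 (nat_lit 12300) (nat_lit 3) (nat_lit 20500)) (T.tp (T.sk (T.ls (nat_lit 3) (nat_lit 4))))) (T.tp (T.sk (T.ls (nat_lit 3) (nat_lit 4))))) (T.tp (T.sk (T.ls (nat_lit 3) (nat_lit 4))))) (T.tp (T.sk (T.ls (nat_lit 3) (nat_lit 4))))) (T.tp (T.sk (T.ls (nat_lit 3) (nat_lit 4))))) (T.tp (T.sk (T.ls (nat_lit 3) (nat_lit 4))))) (T.tp (T.sk (T.ls (nat_lit 3) (nat_lit 4))))) (T.tp (T.sk (T.ls (nat_lit 3) (nat_lit 4)))))))))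
def d268 : T := (T.ts (nat_lit 1) (T.ts (nat_lit 4) (T.ts (nat_lit 3) (T.ts (nat_lit 2) (T.ts (nat_lit 4) (T.ts (nat_lit 3) (T.ts (nat_lit 1) (T.ts (nat_lit 2) (T.ts (nat_lit 4) (T.l1 (nat_lit 12300) (nat_lit 4) (nat_lit 20500)) (T.tp (T.sk (T.ls (nat_lit 3) (nat_lit 4))))) (T.tp (T.sk (T.ls (nat_lit 3) (nat_lit 4))))) (T.tp (T.sk (T.ls (nat_lit 3) (nat_lit 4))))) (T.tp (T.sk (T.ls (nat_lit 3) (nat_lit 4))))) (T.tp (T.sk (T.ls (nat_lit 3) (nat_lit 4))))) (T.tp (T.sk (T.ls (nat_lit 3) (nat_lit 4))))) (T.tp (T.sk (T.ls (nat_lit 3) (nat_lit 4))))) (T.tp (T.sk (T.ls (nat_lit 3) (nat_lit 4))))) (T.ts (nat_lit 0) (T.ts (nat_lit 4) (T.ts (nat_lit 3) (T.ts (nat_lit 2) (T.ts (nat_lit 4) (T.ts (nat_lit 3) (T.ts (nat_lit 1) (T.ts (nat_lit 2) (T.ts (nat_lit 4) (T.l1 (nat_lit 12300) (nat_lit 3)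 (nat_lit 20500)) (T.tp (T.sk (T.ls (nat_lit 3) (nat_lit 4))))) (T.tp (T.sk (T.ls (nat_lit 3) (nat_lit 4))))) (T.tp (T.sk (T.ls (nat_lit 3) (nat_lit 4))))) (T.tp (T.sk (T.ls (nat_lit 3) (nat_lit 4))))) (T.tp (T.sk (T.ls (nat_lit 3) (nat_lit 4))))) (T.tp (T.sk (T.ls (nat_lit 3) (nat_lit 4))))) (T.tp (T.sk (T.ls (nat_lit 3) (nat_lit 4))))) (T.tp (T.sk (T.ls (nat_lit 3) (nat_lit 4))))) (T.tp (T.ts (nat_lit 4) (T.im (nat_lit 7) (nat_lit 2)) T.ie))))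
def d269 : T := (T.ts (nat_lit 0) (T.ts (nat_lit 3) (T.ts (nat_lit 2) (T.ts (nat_lit 1) (T.ts (nat_lit 3) (T.ts (nat_lit 2) (T.ts (nat_lit 0) (T.ts (nat_lit 1) (T.ts (nat_lit 2) (T.l1 (nat_lit 12300) (nat_lit 4) (nat_lit 20500)) (T.tp (T.sk (T.ls (nat_lit 3) (nat_lit 4))))) (T.tp (T.sk (T.ls (nat_lit 3) (nat_lit 4))))) (T.tp (T.sk (T.ls (nat_lit 3) (nat_lit 4))))) (T.tp (T.sk (T.ls (nat_lit 3) (nat_lit 4))))) (T.tp (T.sk (T.ls (nat_lit 3) (nat_lit 4))))) (T.tp (T.sk (T.ls (nat_lit 3) (nat_lit 4))))) (T.tp (T.sk (T.ls (nat_lit 3) (nat_lit 4))))) (T.tp (T.sk (T.ls (nat_lit 3) (nat_lit 4))))) (T.ts (nat_lit 2) (T.im (nat_lit 7) (nat_lit 2)) (T.nw (T.ts (nat_lit 4) (T.ts (nat_lit 3) (T.ts (nat_lit 2) (T.ts (nat_lit 4) (T.ts (nat_lit 3) (T.ts (nat_lit 1) (T.ts (nat_lit 2) (T.ts (nat_lit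 3) (T.l1 (nat_lit 12300) (nat_lit 3) (nat_lit 20500)) (T.tp (T.sk (T.ls (nat_lit 3) (nat_lit 4))))) (T.tp (T.sk (T.ls (nat_lit 3) (nat_lit 4))))) (T.tp (T.sk (T.ls (nat_lit 3) (nat_lit 4))))) (T.tp (T.sk (T.ls (nat_lit 3) (nat_lit 4))))) (T.tp (T.sk (T.ls (nat_lit 3) (nat_lit 4))))) (T.tp (T.sk (T.ls (nat_lit 3) (nat_lit 4))))) (T.tp (T.sk (T.ls (nat_lit 3) (nat_lit 4))))) (T.tp (T.sk (T.ls (nat_lit 3) (nat_lit 4))))))))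
def d270 : T := (T.ts (nat_lit 0) (T.ts (nat_lit 3) (T.ts (nat_lit 2) (T.ts (nat_lit 1) (T.ts (nat_lit 3) (T.ts (nat_lit 2) (T.ts (nat_lit 0) (T.ts (nat_lit 1) (T.ts (nat_lit 2) (T.l1 (nat_lit 12300) (nat_lit 4) (nat_lit 20500)) (T.tp (T.sk (T.ls (nat_lit 3) (nat_lit 4))))) (T.tp (T.sk (T.ls (nat_lit 3) (nat_lit 4))))) (T.tp (T.sk (T.ls (nat_lit 3) (nat_lit 4))))) (T.tp (T.sk (T.ls (nat_lit 3) (nat_lit 4))))) (T.tp (T.sk (T.ls (nat_lit 3) (nat_lit 4))))) (T.tp (T.sk (T.ls (nat_lit 3) (nat_lit 4))))) (T.tp (T.sk (T.ls (nat_lit 3) (nat_lit 4))))) (T.tp (T.sk (T.ls (nat_lit 3) (nat_lit 4))))) (T.ts (nat_lit 2) (T.im (nat_lit 7) (nat_lit 2)) (T.nw (T.ts (nat_lit 4) (T.ts (nat_lit 3) (T.ts (nat_lit 2) (T.ts (nat_lit 4) (T.ts (nat_lit 3) (T.ts (nat_lit 1) (T.ts (nat_lit 2) (T.ts (nat_lit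 3) (T.l1 (nat_lit 12300) (nat_lit 3) (nat_lit 20500)) (T.tp (T.sk (T.ls (nat_lit 3) (nat_lit 4))))) (T.tp (T.sk (T.ls (nat_lit 3) (nat_lit 4))))) (T.tp (T.sk (T.ls (nat_lit 3) (nat_lit 4))))) (T.tp (T.sk (T.ls (nat_lit 3) (nat_lit 4))))) (T.tp (T.sk (T.ls (nat_lit 3) (nat_lit 4))))) (T.tp (T.sk (T.ls (nat_lit 3) (nat_lit 4))))) (T.tp (T.sk (T.ls (nat_lit 3) (nat_lit 4))))) (T.tp (T.sk (T.ls (nat_lit 3) (nat_lit 4))))))))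
def d271 : T := (T.ts (nat_lit 0) (T.ts (nat_lit 3) (T.ts (nat_lit 2) (T.ts (nat_lit 1) (T.ts (nat_lit 3) (T.ts (nat_lit 2) (T.ts (nat_lit 0) (T.ts (nat_lit 1) (T.ts (nat_lit 2) (T.l1 (nat_lit 12300) (nat_lit 4) (nat_lit 20500)) (T.tp (T.sk (T.ls (nat_lit 3) (nat_lit 4))))) (T.tp (T.sk (T.ls (nat_lit 3) (nat_lit 4))))) (T.tp (T.sk (T.ls (nat_lit 3) (nat_lit 4))))) (T.tp (T.sk (T.ls (nat_lit 3) (nat_lit 4))))) (T.tp (T.sk (T.ls (nat_lit 3) (nat_lit 4))))) (T.tp (T.sk (T.ls (nat_lit 3) (nat_lit 4))))) (T.tp (T.sk (T.ls (nat_lit 3) (nat_lit 4))))) (T.tp (T.sk (T.ls (nat_lit 3) (nat_lit 4))))) (T.ts (nat_lit 2) (T.im (nat_lit 7) (nat_lit 2)) (T.ts (nat_lit 1) (T.im (nat_lit 5) (nat_lit 3)) (T.nw (T.ts (nat_lit 4) (T.ts (nat_lit 3) (T.ts (nat_lit 2) (T.ts (nat_lit 4) (T.ts (nat_lit 3)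 (T.ts (nat_lit 1) (T.ts (nat_lit 2) (T.ts (nat_lit 3) (T.l1 (nat_lit 12300) (nat_lit 3) (nat_lit 20500)) (T.tp (T.sk (T.ls (nat_lit 3) (nat_lit 4))))) (T.tp (T.sk (T.ls (nat_lit 3) (nat_lit 4))))) (T.tp (T.sk (T.ls (nat_lit 3) (nat_lit 4))))) (T.tp (T.sk (T.ls (nat_lit 3) (nat_lit 4))))) (T.tp (T.sk (T.ls (nat_lit 3) (nat_lit 4))))) (T.tp (T.sk (T.ls (nat_lit 3) (nat_lit 4))))) (T.tp (T.sk (T.ls (nat_lit 3) (nat_lit 4))))) (T.tp (T.sk (T.ls (nat_lit 3) (nat_lit 4)))))))))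
def d272 : T := (T.ts (nat_lit 1) (T.ts (nat_lit 4) (T.ts (nat_lit 3) (T.ts (nat_lit 2) (T.ts (nat_lit 4) (T.ts (nat_lit 3) (T.ts (nat_lit 1) (T.ts (nat_lit 2) (T.ts (nat_lit 3) (T.l1 (nat_lit 12300) (nat_lit 4) (nat_lit 20500)) (T.tp (T.sk (T.ls (nat_lit 3) (nat_lit 4))))) (T.tp (T.sk (T.ls (nat_lit 3) (nat_lit 4))))) (T.tp (T.sk (T.ls (nat_lit 3) (nat_lit 4))))) (T.tp (T.sk (T.ls (nat_lit 3) (nat_lit 4))))) (T.tp (T.sk (T.ls (nat_lit 3) (nat_lit 4))))) (T.tp (T.sk (T.ls (nat_lit 3) (nat_lit 4))))) (T.tp (T.sk (T.ls (nat_lit 3) (nat_lit 4))))) (T.tp (T.sk (T.ls (nat_lit 3) (nat_lit 4))))) (T.ts (nat_lit 0) (T.ts (nat_lit 4) (T.ts (nat_lit 3) (T.ts (nat_lit 2) (T.ts (nat_lit 4) (T.ts (nat_lit 3) (T.ts (nat_lit 1) (T.ts (nat_lit 2) (T.ts (nat_lit 3) (T.l1 (nat_lit 12300) (nat_lit 3)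 (nat_lit 20500)) (T.tp (T.sk (T.ls (nat_lit 3) (nat_lit 4))))) (T.tp (T.sk (T.ls (nat_lit 3) (nat_lit 4))))) (T.tp (T.sk (T.ls (nat_lit 3) (nat_lit 4))))) (T.tp (T.sk (T.ls (nat_lit 3) (nat_lit 4))))) (T.tp (T.sk (T.ls (nat_lit 3) (nat_lit 4))))) (T.tp (T.sk (T.ls (nat_lit 3) (nat_lit 4))))) (T.tp (T.sk (T.ls (nat_lit 3) (nat_lit 4))))) (T.tp (T.sk (T.ls (nat_lit 3) (nat_lit 4))))) (T.tp (T.ts (nat_lit 3) (T.im (nat_lit 7) (nat_lit 2)) T.ie))))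
def d273 : T := (T.ts (nat_lit 0) (T.ts (nat_lit 3) (T.ts (nat_lit 2) (T.ts (nat_lit 1) (T.ts (nat_lit 3) (T.ts (nat_lit 2) (T.ts (nat_lit 0) (T.ts (nat_lit 1) (T.ts (nat_lit 1) (T.l1 (nat_lit 12300) (nat_lit 4) (nat_lit 20500)) (T.tp (T.sk (T.ls (nat_lit 3) (nat_lit 4))))) (T.tp (T.sk (T.ls (nat_lit 3) (nat_lit 4))))) (T.tp (T.sk (T.ls (nat_lit 3) (nat_lit 4))))) (T.tp (T.sk (T.ls (nat_lit 3) (nat_lit 4))))) (T.tp (T.sk (T.ls (nat_lit 3) (nat_lit 4))))) (T.tp (T.sk (T.ls (nat_lit 3) (nat_lit 4))))) (T.tp (T.sk (T.ls (nat_lit 3) (nat_lit 4))))) (T.tp (T.sk (T.ls (nat_lit 3) (nat_lit 4))))) (T.ts (nat_lit 1) (T.im (nat_lit 7) (nat_lit 2)) (T.nw (T.ts (nat_lit 4) (T.ts (nat_lit 3) (T.ts (nat_lit 2) (T.ts (nat_lit 4) (T.ts (nat_lit 3) (T.ts (nat_lit 1) (T.ts (nat_lit 2) (T.ts (nat_lit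 2) (T.l1 (nat_lit 12300) (nat_lit 3) (nat_lit 20500)) (T.tp (T.sk (T.ls (nat_lit 3) (nat_lit 4))))) (T.tp (T.sk (T.ls (nat_lit 3) (nat_lit 4))))) (T.tp (T.sk (T.ls (nat_lit 3) (nat_lit 4))))) (T.tp (T.sk (T.ls (nat_lit 3) (nat_lit 4))))) (T.tp (T.sk (T.ls (nat_lit 3) (nat_lit 4))))) (T.tp (T.sk (T.ls (nat_lit 3) (nat_lit 4))))) (T.tp (T.sk (T.ls (nat_lit 3) (nat_lit 4))))) (T.tp (T.sk (T.ls (nat_lit 3) (nat_lit 4))))))))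
def d274 : T := (T.ts (nat_lit 0) (T.ts (nat_lit 3) (T.ts (nat_lit 2) (T.ts (nat_lit 1) (T.ts (nat_lit 3) (T.ts (nat_lit 2) (T.ts (nat_lit 0) (T.ts (nat_lit 1) (T.ts (nat_lit 1) (T.l1 (nat_lit 12300) (nat_lit 4) (nat_lit 20500)) (T.sk (T.lf (nat_lit 16569) (nat_lit 3) (nat_lit 12300) (nat_lit 4) (nat_lit 20500)))) (T.sk (T.lf (nat_lit 16569) (nat_lit 3) (nat_lit 12300) (nat_lit 4) (nat_lit 20500)))) (T.tp (T.sk (T.ls (nat_lit 3) (nat_lit 4))))) (T.tp (T.sk (T.ls (nat_lit 3) (nat_lit 4))))) (T.tp (T.sk (T.ls (nat_lit 3) (nat_lit 4))))) (T.tp (T.sk (T.ls (nat_lit 3) (nat_lit 4))))) (T.tp (T.sk (T.ls (nat_lit 3) (nat_lit 4))))) (T.tp (T.sk (T.ls (nat_lit 3) (nat_lit 4))))) (T.ts (nat_lit 1) (T.im (nat_lit 7) (nat_lit 2)) (T.nw (T.ts (nat_lit 4) (T.ts (nat_lit 3) (T.ts (nat_lit 2) (T.ts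 (nat_lit 4) (T.ts (nat_lit 3) (T.ts (nat_lit 1) (T.ts (nat_lit 2) (T.ts (nat_lit 2) (T.l1 (nat_lit 12300) (nat_lit 3) (nat_lit 20500)) (T.sk (T.lf (nat_lit 16569) (nat_lit 3) (nat_lit 20500) (nat_lit 4) (nat_lit 12300)))) (T.sk (T.lf (nat_lit 16569) (nat_lit 3) (nat_lit 20500) (nat_lit 4) (nat_lit 12300)))) (T.tp (T.sk (T.ls (nat_lit 3) (nat_lit 4))))) (T.tp (T.sk (T.ls (nat_lit 3) (nat_lit 4))))) (T.tp (T.sk (T.ls (nat_lit 3) (nat_lit 4))))) (T.tp (T.sk (T.ls (nat_lit 3) (nat_lit 4))))) (T.tp (T.sk (T.ls (nat_lit 3) (nat_lit 4))))) (T.tp (T.sk (T.ls (nat_lit 3) (nat_lit 4))))))))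
def d275 : T := (T.ts (nat_lit 0) (T.ts (nat_lit 3) (T.ts (nat_lit 2) (T.ts (nat_lit 1) (T.ts (nat_lit 3) (T.ts (nat_lit 2) (T.ts (nat_lit 0) (T.ts (nat_lit 1) (T.ts (nat_lit 1) (T.l1 (nat_lit 12300) (nat_lit 4) (nat_lit 20500)) (T.tp (T.sk (T.ls (nat_lit 3) (nat_lit 4))))) (T.tp (T.sk (T.ls (nat_lit 3) (nat_lit 4))))) (T.tp (T.sk (T.ls (nat_lit 3) (nat_lit 4))))) (T.tp (T.sk (T.ls (nat_lit 3) (nat_lit 4))))) (T.tp (T.sk (T.ls (nat_lit 3) (nat_lit 4))))) (T.tp (T.sk (T.ls (nat_lit 3) (nat_lit 4))))) (T.tp (T.sk (T.ls (nat_lit 3) (nat_lit 4))))) (T.tp (T.sk (T.ls (nat_lit 3) (nat_lit 4))))) (T.ts (nat_lit 1) (T.im (nat_lit 5) (nat_lit 3)) (T.nw (T.ts (nat_lit 4) (T.ts (nat_lit 3) (T.ts (nat_lit 2) (T.ts (nat_lit 4) (T.ts (nat_lit 3) (T.ts (nat_lit 1) (T.ts (nat_lit 2) (T.ts (nat_lit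 2) (T.l1 (nat_lit 12300) (nat_lit 3) (nat_lit 20500)) (T.tp (T.sk (T.ls (nat_lit 3) (nat_lit 4))))) (T.tp (T.sk (T.ls (nat_lit 3) (nat_lit 4))))) (T.tp (T.sk (T.ls (nat_lit 3) (nat_lit 4))))) (T.tp (T.sk (T.ls (nat_lit 3) (nat_lit 4))))) (T.tp (T.sk (T.ls (nat_lit 3) (nat_lit 4))))) (T.tp (T.sk (T.ls (nat_lit 3) (nat_lit 4))))) (T.tp (T.sk (T.ls (nat_lit 3) (nat_lit 4))))) (T.tp (T.sk (T.ls (nat_lit 3) (nat_lit 4))))))))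
def d276 : T := (T.ts (nat_lit 1) (T.ts (nat_lit 4) (T.ts (nat_lit 3) (T.ts (nat_lit 2) (T.ts (nat_lit 4) (T.ts (nat_lit 3) (T.ts (nat_lit 1) (T.ts (nat_lit 2) (T.ts (nat_lit 2) (T.l1 (nat_lit 12300) (nat_lit 4) (nat_lit 20500)) (T.tp (T.sk (T.ls (nat_lit 3) (nat_lit 4))))) (T.tp (T.sk (T.ls (nat_lit 3) (nat_lit 4))))) (T.tp (T.sk (T.ls (nat_lit 3) (nat_lit 4))))) (T.tp (T.sk (T.ls (nat_lit 3) (nat_lit 4))))) (T.tp (T.sk (T.ls (nat_lit 3) (nat_lit 4))))) (T.tp (T.sk (T.ls (nat_lit 3) (nat_lit 4))))) (T.tp (T.sk (T.ls (nat_lit 3) (nat_lit 4))))) (T.tp (T.sk (T.ls (nat_lit 3) (nat_lit 4))))) (T.ts (nat_lit 0) (T.ts (nat_lit 4) (T.ts (nat_lit 3) (T.ts (nat_lit 2) (T.ts (nat_lit 4) (T.ts (nat_lit 3) (T.ts (nat_lit 1) (T.ts (nat_lit 2) (T.ts (nat_lit 2) (T.l1 (nat_lit 12300) (nat_lit 3)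 (nat_lit 20500)) (T.tp (T.sk (T.ls (nat_lit 3) (nat_lit 4))))) (T.tp (T.sk (T.ls (nat_lit 3) (nat_lit 4))))) (T.tp (T.sk (T.ls (nat_lit 3) (nat_lit 4))))) (T.tp (T.sk (T.ls (nat_lit 3) (nat_lit 4))))) (T.tp (T.sk (T.ls (nat_lit 3) (nat_lit 4))))) (T.tp (T.sk (T.ls (nat_lit 3) (nat_lit 4))))) (T.tp (T.sk (T.ls (nat_lit 3) (nat_lit 4))))) (T.tp (T.sk (T.ls (nat_lit 3) (nat_lit 4))))) (T.tp (T.ts (nat_lit 2) (T.im (nat_lit 7) (nat_lit 2)) T.ie))))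
def d277 : T := (T.ts (nat_lit 4) (T.ls (nat_lit 3) (nat_lit 4)) (T.ts (nat_lit 3) (T.ts (nat_lit 4) (T.ls (nat_lit 3) (nat_lit 4)) (T.ts (nat_lit 2) (T.ts (nat_lit 4) (T.ts (nat_lit 3) (T.ts (nat_lit 1) (T.l1 (nat_lit 12300) (nat_lit 3) (nat_lit 20500)) (T.tp (T.sk (T.ls (nat_lit 3) (nat_lit 4))))) (T.tp (T.sk (T.ls (nat_lit 3) (nat_lit 4))))) (T.tp (T.sk (T.ls (nat_lit 3) (nat_lit 4))))) (T.tp (T.sk (T.ls (nat_lit 3) (nat_lit 4)))))) (T.ts (nat_lit 2) (T.ls (nat_lit 3) (nat_lit 4)) (T.ts (nat_lit 1) (T.ts (nat_lit 4) (T.ts (nat_lit 3) (T.ts (nat_lit 2) (T.ts (nat_lit 4) (T.ts (nat_lit 3) (T.ts (nat_lit 1) (T.ts (nat_lit 2) (T.ts (nat_lit 0) (T.l1 (nat_lit 12300) (nat_lit 4) (nat_lit 20500)) (T.tp (T.sk (T.ls (nat_lit 3) (nat_lit 4))))) (T.tp (T.sk (T.ls (nat_lit 3) (nat_lit 4)))))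 (T.tp (T.sk (T.ls (nat_lit 3) (nat_lit 4))))) (T.tp (T.sk (T.ls (nat_lit 3) (nat_lit 4))))) (T.tp (T.sk (T.ls (nat_lit 3) (nat_lit 4))))) (T.tp (T.sk (T.ls (nat_lit 3) (nat_lit 4))))) (T.tp (T.sk (T.ls (nat_lit 3) (nat_lit 4))))) (T.tp (T.sk (T.ls (nat_lit 3) (nat_lit 4))))) (T.tp (T.ts (nat_lit 0) (T.im (nat_lit 7) (nat_lit 2)) T.ie))))))
def d278 : T := (T.ts (nat_lit 1) (T.ts (nat_lit 4) (T.tp (T.ts (nat_lit 3) (T.ts (nat_lit 2) (T.ts (nat_lit 4) (T.ts (nat_lit 3) (T.im (nat_lit 9) (nat_lit 3)) (T.sk (T.ls (nat_lit 3) (nat_lit 4)))) (T.sk (T.ls (nat_lit 3) (nat_lit 4)))) (T.sk (T.ls (nat_lit 3) (nat_lit 4)))) (T.sk (T.ls (nat_lit 3) (nat_lit 4))))) (T.ts (nat_lit 3) (T.ls (nat_lit 3) (nat_lit 4)) (T.ts (nat_lit 1) (T.ts (nat_lit 4) (T.ts (nat_lit 3) (T.ts (nat_lit 2) (T.ts (nat_lit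 4) (T.ts (nat_lit 3) (T.ts (nat_lit 1) (T.ts (nat_lit 2) (T.ts (nat_lit 0) (T.l1 (nat_lit 12300) (nat_lit 4) (nat_lit 20500)) (T.tp (T.sk (T.ls (nat_lit 3) (nat_lit 4))))) (T.tp (T.sk (T.ls (nat_lit 3) (nat_lit 4))))) (T.tp (T.sk (T.ls (nat_lit 3) (nat_lit 4))))) (T.tp (T.sk (T.ls (nat_lit 3) (nat_lit 4))))) (T.tp (T.sk (T.ls (nat_lit 3) (nat_lit 4))))) (T.tp (T.sk (T.ls (nat_lit 3) (nat_lit 4))))) (T.tp (T.sk (T.ls (nat_lit 3) (nat_lit 4))))) (T.tp (T.sk (T.ls (nat_lit 3) (nat_lit 4))))) (T.tp (T.ts (nat_lit 2) (T.im (nat_lit 5) (nat_lit 3)) (T.ts (nat_lit 0) (T.im (nat_lit 7) (nat_lit 2)) T.ie)))))) (T.tp (T.ts (nat_lit 0) (T.im (nat_lit 7) (nat_lit 1)) T.ie)))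
def d279 : T := (T.ts (nat_lit 3) (T.ts (nat_lit 4) (T.ls (nat_lit 3) (nat_lit 4)) (T.ts (nat_lit 3) (T.ls (nat_lit 3) (nat_lit 4)) (T.ts (nat_lit 2) (T.ls (nat_lit 3) (nat_lit 4)) (T.ts (nat_lit 1) (T.ts (nat_lit 4) (T.ts (nat_lit 3) (T.ts (nat_lit 2) (T.ts (nat_lit 4) (T.ts (nat_lit 3) (T.ts (nat_lit 1) (T.ts (nat_lit 2) (T.ts (nat_lit 0) (T.l1 (nat_lit 12300) (nat_lit 4) (nat_lit 20500)) (T.sk (T.lf (nat_lit 16569) (nat_lit 3) (nat_lit 12300) (nat_lit 4) (nat_lit 20500)))) (T.sk (T.lf (nat_lit 16569) (nat_lit 3) (nat_lit 12300) (nat_lit 4) (nat_lit 20500)))) (T.tp (T.sk (T.ls (nat_lit 3) (nat_lit 4))))) (T.tp (T.sk (T.ls (nat_lit 3) (nat_lit 4))))) (T.tp (T.sk (T.ls (nat_lit 3) (nat_lit 4))))) (T.tp (T.sk (T.ls (nat_lit 3) (nat_lit 4))))) (T.tp (T.sk (T.ls (nat_lit 3) (nat_lit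 4))))) (T.tp (T.sk (T.ls (nat_lit 3) (nat_lit 4))))) (T.tp (T.ts (nat_lit 0) (T.im (nat_lit 7) (nat_lit 2)) T.ie)))))) (T.ts (nat_lit 2) (T.ts (nat_lit 4) (T.ls (nat_lit 3) (nat_lit 4)) (T.ts (nat_lit 3) (T.ls (nat_lit 3) (nat_lit 4)) (T.ts (nat_lit 2) (T.ls (nat_lit 3) (nat_lit 4)) (T.ts (nat_lit 1) (T.ts (nat_lit 4) (T.ts (nat_lit 3) (T.ts (nat_lit 2) (T.ts (nat_lit 4) (T.ts (nat_lit 3) (T.ts (nat_lit 1) (T.ts (nat_lit 2) (T.ts (nat_lit 0) (T.l1 (nat_lit 12300) (nat_lit 4) (nat_lit 20500)) (T.tp (T.sk (T.ls (nat_lit 3) (nat_lit 4))))) (T.tp (T.sk (T.ls (nat_lit 3) (nat_lit 4))))) (T.tp (T.sk (T.ls (nat_lit 3) (nat_lit 4))))) (T.tp (T.sk (T.ls (nat_lit 3) (nat_lit 4))))) (T.tp (T.sk (T.ls (nat_lit 3) (nat_lit 4))))) (T.tp (T.sk (T.ls (nat_lit 3) (nat_lit 4))))) (T.tp (T.sk (T.ls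 (nat_lit 3) (nat_lit 4))))) (T.tp (T.sk (T.ls (nat_lit 3) (nat_lit 4))))) (T.tp (T.ts (nat_lit 0) (T.im (nat_lit 7) (nat_lit 2)) T.ie)))))) d278))
def d280 : T := (T.ts (nat_lit 2) (T.ts (nat_lit 3) (T.ts (nat_lit 3) (T.ls (nat_lit 3) (nat_lit 4)) (T.ts (nat_lit 1) (T.ls (nat_lit 3) (nat_lit 4)) d269)) (T.ts (nat_lit 1) (T.ts (nat_lit 3) (T.ls (nat_lit 3) (nat_lit 4)) (T.ts (nat_lit 1) (T.ls (nat_lit 3) (nat_lit 4)) d270)) (T.ts (nat_lit 0) (T.ts (nat_lit 3) (T.tp (T.ts (nat_lit 2) (T.ts (nat_lit 1) (T.ts (nat_lit 3) (T.ts (nat_lit 2) (T.im (nat_lit 9) (nat_lit 3)) (T.sk (T.ls (nat_lit 3) (nat_lit 4)))) (T.sk (T.ls (nat_lit 3) (nat_lit 4)))) (T.sk (T.ls (nat_lit 3) (nat_lit 4)))) (T.sk (T.ls (nat_lit 3) (nat_lit 4))))) d271) (T.ts (nat_lit 2) (T.im (nat_lit 7) (nat_lit 1)) (T.nw (T.ts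 (nat_lit 4) (T.tp (T.ts (nat_lit 3) (T.ts (nat_lit 2) (T.ts (nat_lit 4) (T.ts (nat_lit 3) (T.im (nat_lit 9) (nat_lit 3)) (T.sk (T.ls (nat_lit 3) (nat_lit 4)))) (T.sk (T.ls (nat_lit 3) (nat_lit 4)))) (T.sk (T.ls (nat_lit 3) (nat_lit 4)))) (T.sk (T.ls (nat_lit 3) (nat_lit 4))))) (T.ts (nat_lit 2) (T.ls (nat_lit 3) (nat_lit 4)) d272))))))) (T.ts (nat_lit 1) (T.ts (nat_lit 3) (T.ts (nat_lit 3) (T.ls (nat_lit 3) (nat_lit 4)) (T.ts (nat_lit 2) (T.ls (nat_lit 3) (nat_lit 4)) d273)) (T.ts (nat_lit 2) (T.ts (nat_lit 3) (T.ls (nat_lit 3) (nat_lit 4)) (T.ts (nat_lit 2) (T.ls (nat_lit 3) (nat_lit 4)) d274)) (T.ts (nat_lit 0) (T.ts (nat_lit 3) (T.tp (T.ts (nat_lit 2) (T.ts (nat_lit 1) (T.ts (nat_lit 3) (T.ts (nat_lit 2) (T.im (nat_lit 9) (nat_lit 3)) (T.sk (T.ls (nat_lit 3) (nat_lit 4)))) (T.sk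 (T.ls (nat_lit 3) (nat_lit 4)))) (T.sk (T.ls (nat_lit 3) (nat_lit 4)))) (T.sk (T.ls (nat_lit 3) (nat_lit 4))))) (T.ts (nat_lit 2) (T.ls (nat_lit 3) (nat_lit 4)) d275)) (T.ts (nat_lit 1) (T.im (nat_lit 7) (nat_lit 1)) (T.nw (T.ts (nat_lit 4) (T.tp (T.ts (nat_lit 3) (T.ts (nat_lit 2) (T.ts (nat_lit 4) (T.ts (nat_lit 3) (T.im (nat_lit 9) (nat_lit 3)) (T.sk (T.ls (nat_lit 3) (nat_lit 4)))) (T.sk (T.ls (nat_lit 3) (nat_lit 4)))) (T.sk (T.ls (nat_lit 3) (nat_lit 4)))) (T.sk (T.ls (nat_lit 3) (nat_lit 4))))) (T.ts (nat_lit 3) (T.ls (nat_lit 3) (nat_lit 4)) d276))))))) (T.ts (nat_lit 0) (T.im (nat_lit 5) (nat_lit 2)) (T.nw (T.ts (nat_lit 4) d277 d279)))))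
def d281 : T := (T.ts (nat_lit 3) (T.ts (nat_lit 2) (T.tp (T.ts (nat_lit 2) (T.ls (nat_lit 3) (nat_lit 4)) (T.ts (nat_lit 1) (T.ls (nat_lit 3) (nat_lit 4)) (T.ts (nat_lit 3) (T.im (nat_lit 7) (nat_lit 2)) (T.ts (nat_lit 0) (T.im (nat_lit 3) (nat_lit 4)) (T.nw (T.ts (nat_lit 4) (T.ts (nat_lit 3) (T.im (nat_lit 7) (nat_lit 3)) (T.sk (T.ls (nat_lit 3) (nat_lit 4)))) (T.sk (T.ls (nat_lit 3) (nat_lit 4)))))))))) (T.ts (nat_lit 1) (T.ts (nat_lit 2) (T.ls (nat_lit 3) (nat_lit 4)) (T.ts (nat_lit 1) (T.ls (nat_lit 3) (nat_lit 4)) d266)) (T.ts (nat_lit 0) (T.ts (nat_lit 2) (T.ls (nat_lit 3) (nat_lit 4)) d267) (T.ts (nat_lit 3) (T.im (nat_lit 7) (nat_lit 1)) (T.nw (T.ts (nat_lit 3) (T.ls (nat_lit 3) (nat_lit 4)) (T.ts (nat_lit 2) (T.ls (nat_lit 3) (nat_lit 4)) d268))))))) d280)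
def d282 : T := (T.ts (nat_lit 1) (T.ts (nat_lit 4) (T.ts (nat_lit 3) (T.ts (nat_lit 2) (T.ts (nat_lit 4) (T.ts (nat_lit 3) (T.ts (nat_lit 1) (T.ts (nat_lit 0) (T.ts (nat_lit 4) (T.l1 (nat_lit 12300) (nat_lit 4) (nat_lit 20500)) (T.tp (T.sk (T.ls (nat_lit 3) (nat_lit 4))))) (T.tp (T.sk (T.ls (nat_lit 3) (nat_lit 4))))) (T.tp (T.sk (T.ls (nat_lit 3) (nat_lit 4))))) (T.tp (T.sk (T.ls (nat_lit 3) (nat_lit 4))))) (T.tp (T.sk (T.ls (nat_lit 3) (nat_lit 4))))) (T.tp (T.sk (T.ls (nat_lit 3) (nat_lit 4))))) (T.tp (T.sk (T.ls (nat_lit 3) (nat_lit 4))))) (T.tp (T.sk (T.ls (nat_lit 3) (nat_lit 4))))) (T.ts (nat_lit 0) (T.ts (nat_lit 4) (T.ts (nat_lit 3) (T.ts (nat_lit 2) (T.ts (nat_lit 4) (T.ts (nat_lit 3) (T.ts (nat_lit 1) (T.ts (nat_lit 0) (T.ts (nat_lit 4) (T.l1 (nat_lit 12300) (nat_lit 3)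 (nat_lit 20500)) (T.tp (T.sk (T.ls (nat_lit 3) (nat_lit 4))))) (T.tp (T.sk (T.ls (nat_lit 3) (nat_lit 4))))) (T.tp (T.sk (T.ls (nat_lit 3) (nat_lit 4))))) (T.tp (T.sk (T.ls (nat_lit 3) (nat_lit 4))))) (T.tp (T.sk (T.ls (nat_lit 3) (nat_lit 4))))) (T.tp (T.sk (T.ls (nat_lit 3) (nat_lit 4))))) (T.tp (T.sk (T.ls (nat_lit 3) (nat_lit 4))))) (T.tp (T.sk (T.ls (nat_lit 3) (nat_lit 4))))) (T.tp (T.ts (nat_lit 4) (T.im (nat_lit 7) (nat_lit 2)) T.ie))))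
def d283 : T := (T.ts (nat_lit 1) (T.ts (nat_lit 4) (T.ts (nat_lit 3) (T.ts (nat_lit 2) (T.ts (nat_lit 4) (T.ts (nat_lit 3) (T.ts (nat_lit 1) (T.ts (nat_lit 0) (T.ts (nat_lit 4) (T.l1 (nat_lit 12300) (nat_lit 4) (nat_lit 20500)) (T.tp (T.sk (T.ls (nat_lit 3) (nat_lit 4))))) (T.tp (T.sk (T.ls (nat_lit 3) (nat_lit 4))))) (T.tp (T.sk (T.ls (nat_lit 3) (nat_lit 4))))) (T.tp (T.sk (T.ls (nat_lit 3) (nat_lit 4))))) (T.tp (T.sk (T.ls (nat_lit 3) (nat_lit 4))))) (T.tp (T.sk (T.ls (nat_lit 3) (nat_lit 4))))) (T.tp (T.sk (T.ls (nat_lit 3) (nat_lit 4))))) (T.tp (T.sk (T.ls (nat_lit 3) (nat_lit 4))))) (T.ts (nat_lit 0) (T.ts (nat_lit 4) (T.ts (nat_lit 3) (T.ts (nat_lit 2) (T.ts (nat_lit 4) (T.ts (nat_lit 3) (T.ts (nat_lit 1) (T.ts (nat_lit 0) (T.ts (nat_lit 4) (T.l1 (nat_lit 12300) (nat_lit 3)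 (nat_lit 20500)) (T.tp (T.sk (T.ls (nat_lit 3) (nat_lit 4))))) (T.tp (T.sk (T.ls (nat_lit 3) (nat_lit 4))))) (T.tp (T.sk (T.ls (nat_lit 3) (nat_lit 4))))) (T.tp (T.sk (T.ls (nat_lit 3) (nat_lit 4))))) (T.tp (T.sk (T.ls (nat_lit 3) (nat_lit 4))))) (T.tp (T.sk (T.ls (nat_lit 3) (nat_lit 4))))) (T.tp (T.sk (T.ls (nat_lit 3) (nat_lit 4))))) (T.tp (T.sk (T.ls (nat_lit 3) (nat_lit 4))))) (T.tp (T.ts (nat_lit 4) (T.im (nat_lit 7) (nat_lit 2)) T.ie))))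
def d284 : T := (T.ts (nat_lit 2) (T.ts (nat_lit 3) (T.ls (nat_lit 3) (nat_lit 4)) (T.ts (nat_lit 2) (T.ls (nat_lit 3) (nat_lit 4)) d282)) (T.ts (nat_lit 1) (T.ts (nat_lit 3) (T.ls (nat_lit 3) (nat_lit 4)) (T.ts (nat_lit 2) (T.ls (nat_lit 3) (nat_lit 4)) (T.ts (nat_lit 1) (T.ts (nat_lit 4) (T.ts (nat_lit 3) (T.ts (nat_lit 2) (T.ts (nat_lit 4) (T.ts (nat_lit 3) (T.ts (nat_lit 1) (T.ts (nat_lit 0) (T.ts (nat_lit 4) (T.l1 (nat_lit 12300) (nat_lit 4) (nat_lit 20500)) (T.tp (T.sk (T.ls (nat_lit 3) (nat_lit 4))))) (T.tp (T.sk (T.ls (nat_lit 3) (nat_lit 4))))) (T.tp (T.sk (T.ls (nat_lit 3) (nat_lit 4))))) (T.tp (T.sk (T.ls (nat_lit 3) (nat_lit 4))))) (T.tp (T.sk (T.ls (nat_lit 3) (nat_lit 4))))) (T.tp (T.sk (T.ls (nat_lit 3) (nat_lit 4))))) (T.tp (T.sk (T.ls (nat_lit 3) (nat_lit 4))))) (T.tp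 (T.sk (T.ls (nat_lit 3) (nat_lit 4))))) (T.tp (T.ts (nat_lit 4) (T.im (nat_lit 7) (nat_lit 2)) (T.ts (nat_lit 0) (T.im (nat_lit 5) (nat_lit 3)) T.ie)))))) (T.ts (nat_lit 0) (T.ts (nat_lit 3) (T.ls (nat_lit 3) (nat_lit 4)) (T.ts (nat_lit 2) (T.ls (nat_lit 3) (nat_lit 4)) d283)) (T.tp (T.ts (nat_lit 4) (T.im (nat_lit 7) (nat_lit 1)) T.ie)))))
def d285 : T := (T.ts (nat_lit 1) (T.ts (nat_lit 4) (T.ts (nat_lit 3) (T.ts (nat_lit 2) (T.ts (nat_lit 4) (T.ts (nat_lit 3) (T.ts (nat_lit 1) (T.ts (nat_lit 0) (T.ts (nat_lit 3) (T.l1 (nat_lit 12300) (nat_lit 4) (nat_lit 20500)) (T.tp (T.sk (T.ls (nat_lit 3) (nat_lit 4))))) (T.tp (T.sk (T.ls (nat_lit 3) (nat_lit 4))))) (T.tp (T.sk (T.ls (nat_lit 3) (nat_lit 4))))) (T.tp (T.sk (T.ls (nat_lit 3) (nat_lit 4))))) (T.tp (T.sk (T.ls (nat_lit 3) (nat_lit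 4))))) (T.tp (T.sk (T.ls (nat_lit 3) (nat_lit 4))))) (T.tp (T.sk (T.ls (nat_lit 3) (nat_lit 4))))) (T.tp (T.sk (T.ls (nat_lit 3) (nat_lit 4))))) (T.ts (nat_lit 0) (T.ts (nat_lit 4) (T.ts (nat_lit 3) (T.ts (nat_lit 2) (T.ts (nat_lit 4) (T.ts (nat_lit 3) (T.ts (nat_lit 1) (T.ts (nat_lit 0) (T.ts (nat_lit 3) (T.l1 (nat_lit 12300) (nat_lit 3) (nat_lit 20500)) (T.tp (T.sk (T.ls (nat_lit 3) (nat_lit 4))))) (T.tp (T.sk (T.ls (nat_lit 3) (nat_lit 4))))) (T.tp (T.sk (T.ls (nat_lit 3) (nat_lit 4))))) (T.tp (T.sk (T.ls (nat_lit 3) (nat_lit 4))))) (T.tp (T.sk (T.ls (nat_lit 3) (nat_lit 4))))) (T.tp (T.sk (T.ls (nat_lit 3) (nat_lit 4))))) (T.tp (T.sk (T.ls (nat_lit 3) (nat_lit 4))))) (T.tp (T.sk (T.ls (nat_lit 3) (nat_lit 4))))) (T.tp (T.ts (nat_lit 3) (T.im (nat_lit 7) (nat_lit 2)) T.ie))))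
def d286 : T := (T.ts (nat_lit 1) (T.ts (nat_lit 4) (T.ts (nat_lit 3) (T.ts (nat_lit 2) (T.ts (nat_lit 4) (T.ts (nat_lit 3) (T.ts (nat_lit 1) (T.ts (nat_lit 0) (T.ts (nat_lit 3) (T.l1 (nat_lit 12300) (nat_lit 4) (nat_lit 20500)) (T.tp (T.sk (T.ls (nat_lit 3) (nat_lit 4))))) (T.tp (T.sk (T.ls (nat_lit 3) (nat_lit 4))))) (T.tp (T.sk (T.ls (nat_lit 3) (nat_lit 4))))) (T.tp (T.sk (T.ls (nat_lit 3) (nat_lit 4))))) (T.tp (T.sk (T.ls (nat_lit 3) (nat_lit 4))))) (T.tp (T.sk (T.ls (nat_lit 3) (nat_lit 4))))) (T.tp (T.sk (T.ls (nat_lit 3) (nat_lit 4))))) (T.tp (T.sk (T.ls (nat_lit 3) (nat_lit 4))))) (T.ts (nat_lit 0) (T.ts (nat_lit 4) (T.ts (nat_lit 3) (T.ts (nat_lit 2) (T.ts (nat_lit 4) (T.ts (nat_lit 3) (T.ts (nat_lit 1) (T.ts (nat_lit 0) (T.ts (nat_lit 3) (T.l1 (nat_lit 12300) (nat_lit 3)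 (nat_lit 20500)) (T.tp (T.sk (T.ls (nat_lit 3) (nat_lit 4))))) (T.tp (T.sk (T.ls (nat_lit 3) (nat_lit 4))))) (T.tp (T.sk (T.ls (nat_lit 3) (nat_lit 4))))) (T.tp (T.sk (T.ls (nat_lit 3) (nat_lit 4))))) (T.tp (T.sk (T.ls (nat_lit 3) (nat_lit 4))))) (T.tp (T.sk (T.ls (nat_lit 3) (nat_lit 4))))) (T.tp (T.sk (T.ls (nat_lit 3) (nat_lit 4))))) (T.tp (T.sk (T.ls (nat_lit 3) (nat_lit 4))))) (T.tp (T.ts (nat_lit 3) (T.im (nat_lit 7) (nat_lit 2)) T.ie))))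
def d287 : T := (T.ts (nat_lit 1) (T.ts (nat_lit 4) (T.ts (nat_lit 3) (T.ts (nat_lit 2) (T.ts (nat_lit 4) (T.ts (nat_lit 3) (T.ts (nat_lit 1) (T.ts (nat_lit 0) (T.ts (nat_lit 3) (T.l1 (nat_lit 12300) (nat_lit 4) (nat_lit 20500)) (T.tp (T.sk (T.ls (nat_lit 3) (nat_lit 4))))) (T.tp (T.sk (T.ls (nat_lit 3) (nat_lit 4))))) (T.tp (T.sk (T.ls (nat_lit 3) (nat_lit 4))))) (T.tp (T.sk (T.ls (nat_lit 3) (nat_lit 4))))) (T.tp (T.sk (T.ls (nat_lit 3) (nat_lit 4))))) (T.tp (T.sk (T.ls (nat_lit 3) (nat_lit 4))))) (T.tp (T.sk (T.ls (nat_lit 3) (nat_lit 4))))) (T.tp (T.sk (T.ls (nat_lit 3) (nat_lit 4))))) (T.ts (nat_lit 0) (T.ts (nat_lit 4) (T.ts (nat_lit 3) (T.ts (nat_lit 2) (T.ts (nat_lit 4) (T.ts (nat_lit 3) (T.ts (nat_lit 1) (T.ts (nat_lit 0) (T.ts (nat_lit 3) (T.l1 (nat_lit 12300) (nat_lit 3)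 (nat_lit 20500)) (T.tp (T.sk (T.ls (nat_lit 3) (nat_lit 4))))) (T.tp (T.sk (T.ls (nat_lit 3) (nat_lit 4))))) (T.tp (T.sk (T.ls (nat_lit 3) (nat_lit 4))))) (T.tp (T.sk (T.ls (nat_lit 3) (nat_lit 4))))) (T.tp (T.sk (T.ls (nat_lit 3) (nat_lit 4))))) (T.tp (T.sk (T.ls (nat_lit 3) (nat_lit 4))))) (T.tp (T.sk (T.ls (nat_lit 3) (nat_lit 4))))) (T.tp (T.sk (T.ls (nat_lit 3) (nat_lit 4))))) (T.tp (T.ts (nat_lit 3) (T.im (nat_lit 7) (nat_lit 2)) T.ie))))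
def d288 : T := (T.ts (nat_lit 1) (T.ts (nat_lit 4) (T.tp (T.ts (nat_lit 3) (T.ts (nat_lit 2) (T.ts (nat_lit 4) (T.ts (nat_lit 3) (T.im (nat_lit 9) (nat_lit 3)) (T.sk (T.ls (nat_lit 3) (nat_lit 4)))) (T.sk (T.ls (nat_lit 3) (nat_lit 4)))) (T.sk (T.ls (nat_lit 3) (nat_lit 4)))) (T.sk (T.ls (nat_lit 3) (nat_lit 4))))) (T.ts (nat_lit 2) (T.ls (nat_lit 3) (nat_lit 4)) (T.ts (nat_lit 1) (T.ts (nat_lit 4) (T.ts (nat_lit 3) (T.ts (nat_lit 2) (T.ts (nat_lit 4) (T.ts (nat_lit 3) (T.ts (nat_lit 1) (T.ts (nat_lit 0) (T.ts (nat_lit 3) (T.l1 (nat_lit 12300) (nat_lit 4) (nat_lit 20500)) (T.tp (T.sk (T.ls (nat_lit 3) (nat_lit 4))))) (T.tp (T.sk (T.ls (nat_lit 3) (nat_lit 4))))) (T.tp (T.sk (T.ls (nat_lit 3) (nat_lit 4))))) (T.tp (T.sk (T.ls (nat_lit 3) (nat_lit 4))))) (T.tp (T.sk (T.ls (nat_lit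 3) (nat_lit 4))))) (T.tp (T.sk (T.ls (nat_lit 3) (nat_lit 4))))) (T.tp (T.sk (T.ls (nat_lit 3) (nat_lit 4))))) (T.tp (T.sk (T.ls (nat_lit 3) (nat_lit 4))))) (T.tp (T.ts (nat_lit 3) (T.im (nat_lit 7) (nat_lit 2)) (T.ts (nat_lit 0) (T.im (nat_lit 5) (nat_lit 3)) T.ie)))))) (T.ts (nat_lit 0) (T.ts (nat_lit 4) (T.tp (T.ts (nat_lit 3) (T.ts (nat_lit 2) (T.ts (nat_lit 4) (T.ts (nat_lit 3) (T.im (nat_lit 9) (nat_lit 3)) (T.sk (T.ls (nat_lit 3) (nat_lit 4)))) (T.sk (T.ls (nat_lit 3) (nat_lit 4)))) (T.sk (T.ls (nat_lit 3) (nat_lit 4)))) (T.sk (T.ls (nat_lit 3) (nat_lit 4))))) (T.ts (nat_lit 2) (T.ls (nat_lit 3) (nat_lit 4)) d287)) (T.tp (T.ts (nat_lit 3) (T.im (nat_lit 7) (nat_lit 1)) T.ie))))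
def d289 : T := (T.ts (nat_lit 1) (T.ts (nat_lit 4) (T.ts (nat_lit 3) (T.ts (nat_lit 2) (T.ts (nat_lit 4) (T.ts (nat_lit 3) (T.ts (nat_lit 1) (T.ts (nat_lit 0) (T.ts (nat_lit 2) (T.l1 (nat_lit 12300) (nat_lit 4) (nat_lit 20500)) (T.tp (T.sk (T.ls (nat_lit 3) (nat_lit 4))))) (T.tp (T.sk (T.ls (nat_lit 3) (nat_lit 4))))) (T.tp (T.sk (T.ls (nat_lit 3) (nat_lit 4))))) (T.tp (T.sk (T.ls (nat_lit 3) (nat_lit 4))))) (T.tp (T.sk (T.ls (nat_lit 3) (nat_lit 4))))) (T.tp (T.sk (T.ls (nat_lit 3) (nat_lit 4))))) (T.tp (T.sk (T.ls (nat_lit 3) (nat_lit 4))))) (T.tp (T.sk (T.ls (nat_lit 3) (nat_lit 4))))) (T.ts (nat_lit 0) (T.ts (nat_lit 4) (T.ts (nat_lit 3) (T.ts (nat_lit 2) (T.ts (nat_lit 4) (T.ts (nat_lit 3) (T.ts (nat_lit 1) (T.ts (nat_lit 0) (T.ts (nat_lit 2) (T.l1 (nat_lit 12300) (nat_lit 3)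 (nat_lit 20500)) (T.tp (T.sk (T.ls (nat_lit 3) (nat_lit 4))))) (T.tp (T.sk (T.ls (nat_lit 3) (nat_lit 4))))) (T.tp (T.sk (T.ls (nat_lit 3) (nat_lit 4))))) (T.tp (T.sk (T.ls (nat_lit 3) (nat_lit 4))))) (T.tp (T.sk (T.ls (nat_lit 3) (nat_lit 4))))) (T.tp (T.sk (T.ls (nat_lit 3) (nat_lit 4))))) (T.tp (T.sk (T.ls (nat_lit 3) (nat_lit 4))))) (T.tp (T.sk (T.ls (nat_lit 3) (nat_lit 4))))) (T.tp (T.ts (nat_lit 2) (T.im (nat_lit 7) (nat_lit 2)) T.ie))))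
def d290 : T := (T.ts (nat_lit 1) (T.ts (nat_lit 4) (T.ts (nat_lit 3) (T.ts (nat_lit 2) (T.ts (nat_lit 4) (T.ts (nat_lit 3) (T.ts (nat_lit 1) (T.ts (nat_lit 0) (T.ts (nat_lit 2) (T.l1 (nat_lit 12300) (nat_lit 4) (nat_lit 20500)) (T.sk (T.lf (nat_lit 16569) (nat_lit 3) (nat_lit 12300) (nat_lit 4) (nat_lit 20500)))) (T.sk (T.lf (nat_lit 16569) (nat_lit 3) (nat_lit 12300) (nat_lit 4) (nat_lit 20500)))) (T.tp (T.sk (T.ls (nat_lit 3) (nat_lit 4))))) (T.tp (T.sk (T.ls (nat_lit 3) (nat_lit 4))))) (T.tp (T.sk (T.ls (nat_lit 3) (nat_lit 4))))) (T.tp (T.sk (T.ls (nat_lit 3) (nat_lit 4))))) (T.tp (T.sk (T.ls (nat_lit 3) (nat_lit 4))))) (T.tp (T.sk (T.ls (nat_lit 3) (nat_lit 4))))) (T.ts (nat_lit 0) (T.ts (nat_lit 4) (T.ts (nat_lit 3) (T.ts (nat_lit 2) (T.ts (nat_lit 4) (T.ts (nat_lit 3) (T.ts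 (nat_lit 1) (T.ts (nat_lit 0) (T.ts (nat_lit 2) (T.l1 (nat_lit 12300) (nat_lit 3) (nat_lit 20500)) (T.sk (T.lf (nat_lit 16569) (nat_lit 3) (nat_lit 20500) (nat_lit 4) (nat_lit 12300)))) (T.sk (T.lf (nat_lit 16569) (nat_lit 3) (nat_lit 20500) (nat_lit 4) (nat_lit 12300)))) (T.sk (T.lf (nat_lit 18835) (nat_lit 3) (nat_lit 20500) (nat_lit 4) (nat_lit 16076)))) (T.sk (T.lf (nat_lit 18835) (nat_lit 3) (nat_lit 20500) (nat_lit 4) (nat_lit 16076)))) (T.tp (T.sk (T.ls (nat_lit 3) (nat_lit 4))))) (T.tp (T.sk (T.ls (nat_lit 3) (nat_lit 4))))) (T.tp (T.sk (T.ls (nat_lit 3) (nat_lit 4))))) (T.tp (T.sk (T.ls (nat_lit 3) (nat_lit 4))))) (T.tp (T.ts (nat_lit 2) (T.im (nat_lit 7) (nat_lit 2)) T.ie))))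
def d291 : T := (T.ts (nat_lit 1) (T.ts (nat_lit 4) (T.ts (nat_lit 3) (T.ts (nat_lit 2) (T.ts (nat_lit 4) (T.ts (nat_lit 3) (T.ts (nat_lit 1) (T.ts (nat_lit 0) (T.ts (nat_lit 2) (T.l1 (nat_lit 12300) (nat_lit 4) (nat_lit 20500)) (T.tp (T.sk (T.ls (nat_lit 3) (nat_lit 4))))) (T.tp (T.sk (T.ls (nat_lit 3) (nat_lit 4))))) (T.tp (T.sk (T.ls (nat_lit 3) (nat_lit 4))))) (T.tp (T.sk (T.ls (nat_lit 3) (nat_lit 4))))) (T.tp (T.sk (T.ls (nat_lit 3) (nat_lit 4))))) (T.tp (T.sk (T.ls (nat_lit 3) (nat_lit 4))))) (T.tp (T.sk (T.ls (nat_lit 3) (nat_lit 4))))) (T.tp (T.sk (T.ls (nat_lit 3) (nat_lit 4))))) (T.ts (nat_lit 0) (T.ts (nat_lit 4) (T.ts (nat_lit 3) (T.ts (nat_lit 2) (T.ts (nat_lit 4) (T.ts (nat_lit 3) (T.ts (nat_lit 1) (T.ts (nat_lit 0) (T.ts (nat_lit 2) (T.l1 (nat_lit 12300) (nat_lit 3)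 (nat_lit 20500)) (T.tp (T.sk (T.ls (nat_lit 3) (nat_lit 4))))) (T.tp (T.sk (T.ls (nat_lit 3) (nat_lit 4))))) (T.tp (T.sk (T.ls (nat_lit 3) (nat_lit 4))))) (T.tp (T.sk (T.ls (nat_lit 3) (nat_lit 4))))) (T.tp (T.sk (T.ls (nat_lit 3) (nat_lit 4))))) (T.tp (T.sk (T.ls (nat_lit 3) (nat_lit 4))))) (T.tp (T.sk (T.ls (nat_lit 3) (nat_lit 4))))) (T.tp (T.sk (T.ls (nat_lit 3) (nat_lit 4))))) (T.tp (T.ts (nat_lit 2) (T.im (nat_lit 7) (nat_lit 2)) T.ie))))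
def d292 : T := (T.ts (nat_lit 1) (T.ts (nat_lit 4) (T.tp (T.ts (nat_lit 3) (T.ts (nat_lit 2) (T.ts (nat_lit 4) (T.ts (nat_lit 3) (T.im (nat_lit 9) (nat_lit 3)) (T.sk (T.ls (nat_lit 3) (nat_lit 4)))) (T.sk (T.ls (nat_lit 3) (nat_lit 4)))) (T.sk (T.ls (nat_lit 3) (nat_lit 4)))) (T.sk (T.ls (nat_lit 3) (nat_lit 4))))) (T.ts (nat_lit 3) (T.ls (nat_lit 3) (nat_lit 4)) (T.ts (nat_lit 1) (T.ts (nat_lit 4) (T.ts (nat_lit 3) (T.ts (nat_lit 2) (T.ts (nat_lit 4) (T.ts (nat_lit 3) (T.ts (nat_lit 1) (T.ts (nat_lit 0) (T.ts (nat_lit 2) (T.l1 (nat_lit 12300) (nat_lit 4) (nat_lit 20500)) (T.tp (T.sk (T.ls (nat_lit 3) (nat_lit 4))))) (T.tp (T.sk (T.ls (nat_lit 3) (nat_lit 4))))) (T.tp (T.sk (T.ls (nat_lit 3) (nat_lit 4))))) (T.tp (T.sk (T.ls (nat_lit 3) (nat_lit 4))))) (T.tp (T.sk (T.ls (nat_lit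 3) (nat_lit 4))))) (T.tp (T.sk (T.ls (nat_lit 3) (nat_lit 4))))) (T.tp (T.sk (T.ls (nat_lit 3) (nat_lit 4))))) (T.tp (T.sk (T.ls (nat_lit 3) (nat_lit 4))))) (T.tp (T.ts (nat_lit 2) (T.im (nat_lit 7) (nat_lit 2)) (T.ts (nat_lit 0) (T.im (nat_lit 5) (nat_lit 3)) T.ie)))))) (T.ts (nat_lit 0) (T.ts (nat_lit 4) (T.tp (T.ts (nat_lit 3) (T.ts (nat_lit 2) (T.ts (nat_lit 4) (T.ts (nat_lit 3) (T.im (nat_lit 9) (nat_lit 3)) (T.sk (T.ls (nat_lit 3) (nat_lit 4)))) (T.sk (T.ls (nat_lit 3) (nat_lit 4)))) (T.sk (T.ls (nat_lit 3) (nat_lit 4)))) (T.sk (T.ls (nat_lit 3) (nat_lit 4))))) (T.ts (nat_lit 3) (T.ls (nat_lit 3) (nat_lit 4)) d291)) (T.tp (T.ts (nat_lit 2) (T.im (nat_lit 7) (nat_lit 1)) T.ie))))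
def d293 : T := (T.ts (nat_lit 4) (T.ls (nat_lit 3) (nat_lit 4)) (T.ts (nat_lit 3) (T.ts (nat_lit 4) (T.ls (nat_lit 3) (nat_lit 4)) (T.ts (nat_lit 2) (T.ts (nat_lit 4) (T.ts (nat_lit 3) (T.ts (nat_lit 1) (T.l1 (nat_lit 12300) (nat_lit 3) (nat_lit 20500)) (T.tp (T.sk (T.ls (nat_lit 3) (nat_lit 4))))) (T.tp (T.sk (T.ls (nat_lit 3) (nat_lit 4))))) (T.tp (T.sk (T.ls (nat_lit 3) (nat_lit 4))))) (T.tp (T.sk (T.ls (nat_lit 3) (nat_lit 4)))))) (T.ts (nat_lit 2) (T.ls (nat_lit 3) (nat_lit 4)) (T.ts (nat_lit 1) (T.ts (nat_lit 4) (T.ts (nat_lit 3) (T.ts (nat_lit 2) (T.ts (nat_lit 4) (T.ts (nat_lit 3) (T.ts (nat_lit 1) (T.ts (nat_lit 0) (T.ts (nat_lit 0) (T.l1 (nat_lit 12300) (nat_lit 4) (nat_lit 20500)) (T.tp (T.sk (T.ls (nat_lit 3) (nat_lit 4))))) (T.tp (T.sk (T.ls (nat_lit 3) (nat_lit 4)))))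 (T.tp (T.sk (T.ls (nat_lit 3) (nat_lit 4))))) (T.tp (T.sk (T.ls (nat_lit 3) (nat_lit 4))))) (T.tp (T.sk (T.ls (nat_lit 3) (nat_lit 4))))) (T.tp (T.sk (T.ls (nat_lit 3) (nat_lit 4))))) (T.tp (T.sk (T.ls (nat_lit 3) (nat_lit 4))))) (T.tp (T.sk (T.ls (nat_lit 3) (nat_lit 4))))) (T.tp (T.ts (nat_lit 0) (T.im (nat_lit 7) (nat_lit 2)) T.ie))))))
def d294 : T := (T.ts (nat_lit 1) (T.ts (nat_lit 4) (T.tp (T.ts (nat_lit 3) (T.ts (nat_lit 2) (T.ts (nat_lit 4) (T.ts (nat_lit 3) (T.im (nat_lit 9) (nat_lit 3)) (T.sk (T.ls (nat_lit 3) (nat_lit 4)))) (T.sk (T.ls (nat_lit 3) (nat_lit 4)))) (T.sk (T.ls (nat_lit 3) (nat_lit 4)))) (T.sk (T.ls (nat_lit 3) (nat_lit 4))))) (T.ts (nat_lit 3) (T.ls (nat_lit 3) (nat_lit 4)) (T.ts (nat_lit 2) (T.ls (nat_lit 3) (nat_lit 4)) (T.ts (nat_lit 1) (T.ts (nat_lit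 4) (T.ts (nat_lit 3) (T.ts (nat_lit 2) (T.ts (nat_lit 4) (T.ts (nat_lit 3) (T.ts (nat_lit 1) (T.ts (nat_lit 0) (T.ts (nat_lit 0) (T.l1 (nat_lit 12300) (nat_lit 4) (nat_lit 20500)) (T.tp (T.sk (T.ls (nat_lit 3) (nat_lit 4))))) (T.tp (T.sk (T.ls (nat_lit 3) (nat_lit 4))))) (T.tp (T.sk (T.ls (nat_lit 3) (nat_lit 4))))) (T.tp (T.sk (T.ls (nat_lit 3) (nat_lit 4))))) (T.tp (T.sk (T.ls (nat_lit 3) (nat_lit 4))))) (T.tp (T.sk (T.ls (nat_lit 3) (nat_lit 4))))) (T.tp (T.sk (T.ls (nat_lit 3) (nat_lit 4))))) (T.tp (T.sk (T.ls (nat_lit 3) (nat_lit 4))))) (T.tp (T.ts (nat_lit 0) (T.im (nat_lit 5) (nat_lit 3)) T.ie)))))) (T.tp (T.ts (nat_lit 0) (T.im (nat_lit 7) (nat_lit 1)) T.ie)))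
def d295 : T := (T.ts (nat_lit 3) (T.ts (nat_lit 4) (T.ls (nat_lit 3) (nat_lit 4)) (T.ts (nat_lit 3) (T.ls (nat_lit 3) (nat_lit 4)) (T.ts (nat_lit 2) (T.ls (nat_lit 3) (nat_lit 4)) (T.ts (nat_lit 1) (T.ts (nat_lit 4) (T.ts (nat_lit 3) (T.ts (nat_lit 2) (T.ts (nat_lit 4) (T.ts (nat_lit 3) (T.ts (nat_lit 1) (T.ts (nat_lit 0) (T.ts (nat_lit 0) (T.l1 (nat_lit 12300) (nat_lit 4) (nat_lit 20500)) (T.sk (T.lf (nat_lit 16569) (nat_lit 3) (nat_lit 12300) (nat_lit 4) (nat_lit 20500)))) (T.sk (T.lf (nat_lit 16569) (nat_lit 3) (nat_lit 12300) (nat_lit 4) (nat_lit 20500)))) (T.tp (T.sk (T.ls (nat_lit 3) (nat_lit 4))))) (T.tp (T.sk (T.ls (nat_lit 3) (nat_lit 4))))) (T.tp (T.sk (T.ls (nat_lit 3) (nat_lit 4))))) (T.tp (T.sk (T.ls (nat_lit 3) (nat_lit 4))))) (T.tp (T.sk (T.ls (nat_lit 3) (nat_lit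 4))))) (T.tp (T.sk (T.ls (nat_lit 3) (nat_lit 4))))) (T.tp (T.ts (nat_lit 0) (T.im (nat_lit 7) (nat_lit 2)) T.ie)))))) (T.ts (nat_lit 2) (T.ts (nat_lit 4) (T.ls (nat_lit 3) (nat_lit 4)) (T.ts (nat_lit 3) (T.ls (nat_lit 3) (nat_lit 4)) (T.ts (nat_lit 2) (T.ls (nat_lit 3) (nat_lit 4)) (T.ts (nat_lit 1) (T.ts (nat_lit 4) (T.ts (nat_lit 3) (T.ts (nat_lit 2) (T.ts (nat_lit 4) (T.ts (nat_lit 3) (T.ts (nat_lit 1) (T.ts (nat_lit 0) (T.ts (nat_lit 0) (T.l1 (nat_lit 12300) (nat_lit 4) (nat_lit 20500)) (T.tp (T.sk (T.ls (nat_lit 3) (nat_lit 4))))) (T.tp (T.sk (T.ls (nat_lit 3) (nat_lit 4))))) (T.tp (T.sk (T.ls (nat_lit 3) (nat_lit 4))))) (T.tp (T.sk (T.ls (nat_lit 3) (nat_lit 4))))) (T.tp (T.sk (T.ls (nat_lit 3) (nat_lit 4))))) (T.tp (T.sk (T.ls (nat_lit 3) (nat_lit 4))))) (T.tp (T.sk (T.ls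 (nat_lit 3) (nat_lit 4))))) (T.tp (T.sk (T.ls (nat_lit 3) (nat_lit 4))))) (T.tp (T.ts (nat_lit 0) (T.im (nat_lit 7) (nat_lit 2)) T.ie)))))) d294))
def d296 : T := (T.ts (nat_lit 4) (T.ts (nat_lit 3) (T.tp (T.ts (nat_lit 3) (T.ls (nat_lit 3) (nat_lit 4)) (T.ts (nat_lit 2) (T.ts (nat_lit 4) (T.ts (nat_lit 3) (T.im (nat_lit 7) (nat_lit 3)) (T.sk (T.ls (nat_lit 3) (nat_lit 4)))) (T.sk (T.ls (nat_lit 3) (nat_lit 4)))) (T.ts (nat_lit 0) (T.ts (nat_lit 4) (T.ts (nat_lit 3) (T.im (nat_lit 7) (nat_lit 3)) (T.sk (T.ls (nat_lit 3) (nat_lit 4)))) (T.sk (T.ls (nat_lit 3) (nat_lit 4)))) (T.ts (nat_lit 4) (T.im (nat_lit 7) (nat_lit 2)) (T.ts (nat_lit 1) (T.im (nat_lit 3) (nat_lit 4)) T.ie)))))) d284) (T.ts (nat_lit 3) (T.ts (nat_lit 4) (T.ts (nat_lit 4) (T.ls (nat_lit 3) (nat_lit 4)) (T.ts (nat_lit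 2) (T.ls (nat_lit 3) (nat_lit 4)) d285)) (T.ts (nat_lit 2) (T.ts (nat_lit 4) (T.ls (nat_lit 3) (nat_lit 4)) (T.ts (nat_lit 2) (T.ls (nat_lit 3) (nat_lit 4)) d286)) d288)) (T.ts (nat_lit 2) (T.ts (nat_lit 4) (T.ts (nat_lit 4) (T.ls (nat_lit 3) (nat_lit 4)) (T.ts (nat_lit 3) (T.ls (nat_lit 3) (nat_lit 4)) d289)) (T.ts (nat_lit 3) (T.ts (nat_lit 4) (T.ls (nat_lit 3) (nat_lit 4)) (T.ts (nat_lit 3) (T.ls (nat_lit 3) (nat_lit 4)) d290)) d292)) (T.ts (nat_lit 0) (T.ts (nat_lit 4) d293 d295) (T.tp (T.ts (nat_lit 1) (T.im (nat_lit 5) (nat_lit 2)) T.ie))))))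
def d297 : T := (T.ts (nat_lit 0) (T.im (nat_lit 5) (nat_lit 1)) (T.nw d296))
def d298 : T := (T.ts (nat_lit 0) (T.ts (nat_lit 3) (T.ts (nat_lit 2) (T.ts (nat_lit 1) (T.ts (nat_lit 3) (T.ts (nat_lit 1) (T.ts (nat_lit 2) (T.ts (nat_lit 3) (T.ts (nat_lit 3) (T.l1 (nat_lit 12300) (nat_lit 4) (nat_lit 20500)) (T.tp (T.sk (T.ls (nat_lit 3) (nat_lit 4))))) (T.tp (T.sk (T.ls (nat_lit 3) (nat_lit 4))))) (T.tp (T.sk (T.ls (nat_lit 3) (nat_lit 4))))) (T.tp (T.sk (T.ls (nat_lit 3) (nat_lit 4))))) (T.tp (T.sk (T.ls (nat_lit 3) (nat_lit 4))))) (T.tp (T.sk (T.ls (nat_lit 3) (nat_lit 4))))) (T.tp (T.sk (T.ls (nat_lit 3) (nat_lit 4))))) (T.tp (T.sk (T.ls (nat_lit 3) (nat_lit 4))))) (T.ts (nat_lit 3) (T.im (nat_lit 7) (nat_lit 2)) (T.nw (T.ts (nat_lit 4) (T.ts (nat_lit 3) (T.ts (nat_lit 2) (T.ts (nat_lit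 4) (T.ts (nat_lit 2) (T.ts (nat_lit 3) (T.ts (nat_lit 4) (T.ts (nat_lit 4) (T.l1 (nat_lit 12300) (nat_lit 3) (nat_lit 20500)) (T.tp (T.sk (T.ls (nat_lit 3) (nat_lit 4))))) (T.tp (T.sk (T.ls (nat_lit 3) (nat_lit 4))))) (T.tp (T.sk (T.ls (nat_lit 3) (nat_lit 4))))) (T.tp (T.sk (T.ls (nat_lit 3) (nat_lit 4))))) (T.tp (T.sk (T.ls (nat_lit 3) (nat_lit 4))))) (T.tp (T.sk (T.ls (nat_lit 3) (nat_lit 4))))) (T.tp (T.sk (T.ls (nat_lit 3) (nat_lit 4))))) (T.tp (T.sk (T.ls (nat_lit 3) (nat_lit 4))))))))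
def d299 : T := (T.ts (nat_lit 1) (T.tp (T.ts (nat_lit 1) (T.ls (nat_lit 3) (nat_lit 4)) (T.ts (nat_lit 0) (T.ls (nat_lit 3) (nat_lit 4)) (T.ts (nat_lit 2) (T.im (nat_lit 5) (nat_lit 3)) (T.nw (T.ts (nat_lit 3) (T.ts (nat_lit 2) (T.im (nat_lit 7) (nat_lit 3)) (T.sk (T.ls (nat_lit 3) (nat_lit 4)))) (T.sk (T.ls (nat_lit 3) (nat_lit 4))))))))) (T.ts (nat_lit 0) (T.ts (nat_lit 0) (T.ls (nat_lit 3) (nat_lit 4)) (T.ts (nat_lit 2) (T.im (nat_lit 7) (nat_lit 2)) (T.ts (nat_lit 1) (T.im (nat_lit 3) (nat_lit 4)) (T.nw (T.ts (nat_lit 3) (T.ts (nat_lit 2) (T.ts (nat_lit 1) (T.ts (nat_lit 3) (T.ts (nat_lit 1) (T.ts (nat_lit 2) (T.ts (nat_lit 3) (T.ts (nat_lit 3) (T.l1 (nat_lit 12300) (nat_lit 4) (nat_lit 20500)) (T.tp (T.sk (T.ls (nat_lit 3) (nat_lit 4))))) (T.tp (T.sk (T.ls (nat_lit 3) (nat_lit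 4))))) (T.tp (T.sk (T.ls (nat_lit 3) (nat_lit 4))))) (T.tp (T.sk (T.ls (nat_lit 3) (nat_lit 4))))) (T.tp (T.sk (T.ls (nat_lit 3) (nat_lit 4))))) (T.tp (T.sk (T.ls (nat_lit 3) (nat_lit 4))))) (T.tp (T.sk (T.ls (nat_lit 3) (nat_lit 4))))) (T.tp (T.sk (T.ls (nat_lit 3) (nat_lit 4))))))))) (T.ts (nat_lit 2) (T.im (nat_lit 7) (nat_lit 1)) (T.nw (T.ts (nat_lit 2) (T.ls (nat_lit 3) (nat_lit 4)) (T.ts (nat_lit 1) (T.ls (nat_lit 3) (nat_lit 4)) d298))))))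
def d300 : T := (T.ts (nat_lit 1) (T.ts (nat_lit 3) (T.ls (nat_lit 3) (nat_lit 4)) (T.ts (nat_lit 2) (T.ls (nat_lit 3) (nat_lit 4)) (T.ts (nat_lit 1) (T.ls (nat_lit 3) (nat_lit 4)) (T.ts (nat_lit 0) (T.im (nat_lit 7) (nat_lit 2)) (T.nw (T.ts (nat_lit 4) (T.ts (nat_lit 3) (T.ts (nat_lit 2) (T.ts (nat_lit 4) (T.ts (nat_lit 2) (T.ts (nat_lit 3) (T.ts (nat_lit 4) (T.ts (nat_lit 1) (T.l1 (nat_lit 12300) (nat_lit 3) (nat_lit 20500)) (T.tp (T.sk (T.ls (nat_lit 3) (nat_lit 4))))) (T.tp (T.sk (T.ls (nat_lit 3) (nat_lit 4))))) (T.tp (T.sk (T.ls (nat_lit 3) (nat_lit 4))))) (T.tp (T.sk (T.ls (nat_lit 3) (nat_lit 4))))) (T.tp (T.sk (T.ls (nat_lit 3) (nat_lit 4))))) (T.tp (T.sk (T.ls (nat_lit 3) (nat_lit 4))))) (T.tp (T.sk (T.ls (nat_lit 3) (nat_lit 4))))) (T.tp (T.sk (T.ls (nat_lit 3) (nat_lit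 4)))))))))) (T.ts (nat_lit 0) (T.im (nat_lit 7) (nat_lit 1)) (T.nw (T.ts (nat_lit 4) (T.tp (T.ts (nat_lit 3) (T.ts (nat_lit 2) (T.ts (nat_lit 4) (T.ts (nat_lit 2) (T.im (nat_lit 11) (nat_lit 2)) (T.sk (T.ls (nat_lit 3) (nat_lit 4)))) (T.sk (T.ls (nat_lit 3) (nat_lit 4)))) (T.sk (T.ls (nat_lit 3) (nat_lit 4)))) (T.sk (T.ls (nat_lit 3) (nat_lit 4))))) (T.ts (nat_lit 3) (T.ls (nat_lit 3) (nat_lit 4)) (T.ts (nat_lit 2) (T.ls (nat_lit 3) (nat_lit 4)) (T.ts (nat_lit 0) (T.ts (nat_lit 4) (T.ts (nat_lit 3) (T.ts (nat_lit 2) (T.ts (nat_lit 4) (T.ts (nat_lit 2) (T.ts (nat_lit 3) (T.ts (nat_lit 4) (T.ts (nat_lit 1) (T.l1 (nat_lit 12300) (nat_lit 3) (nat_lit 20500)) (T.tp (T.sk (T.ls (nat_lit 3) (nat_lit 4))))) (T.tp (T.sk (T.ls (nat_lit 3) (nat_lit 4))))) (T.tp (T.sk (T.ls (nat_lit 3) (nat_lit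 4))))) (T.tp (T.sk (T.ls (nat_lit 3) (nat_lit 4))))) (T.tp (T.sk (T.ls (nat_lit 3) (nat_lit 4))))) (T.tp (T.sk (T.ls (nat_lit 3) (nat_lit 4))))) (T.tp (T.sk (T.ls (nat_lit 3) (nat_lit 4))))) (T.tp (T.sk (T.ls (nat_lit 3) (nat_lit 4))))) (T.tp (T.ts (nat_lit 1) (T.im (nat_lit 7) (nat_lit 2)) T.ie)))))))))
def d301 : T := (T.ts (nat_lit 3) (T.ts (nat_lit 3) (T.ls (nat_lit 3) (nat_lit 4)) (T.ts (nat_lit 2) (T.ts (nat_lit 3) (T.ls (nat_lit 3) (nat_lit 4)) (T.ts (nat_lit 1) (T.ts (nat_lit 3) (T.ts (nat_lit 1) (T.ts (nat_lit 2) (T.l1 (nat_lit 12300) (nat_lit 4) (nat_lit 20500)) (T.tp (T.sk (T.ls (nat_lit 3) (nat_lit 4))))) (T.tp (T.sk (T.ls (nat_lit 3) (nat_lit 4))))) (T.tp (T.sk (T.ls (nat_lit 3) (nat_lit 4))))) (T.tp (T.sk (T.ls (nat_lit 3) (nat_lit 4)))))) (T.ts (nat_lit 1) (T.ls (nat_lit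 3) (nat_lit 4)) (T.ts (nat_lit 0) (T.im (nat_lit 7) (nat_lit 2)) (T.nw (T.ts (nat_lit 4) (T.ts (nat_lit 3) (T.ts (nat_lit 2) (T.ts (nat_lit 4) (T.ts (nat_lit 2) (T.ts (nat_lit 3) (T.ts (nat_lit 4) (T.ts (nat_lit 1) (T.l1 (nat_lit 12300) (nat_lit 3) (nat_lit 20500)) (T.tp (T.sk (T.ls (nat_lit 3) (nat_lit 4))))) (T.tp (T.sk (T.ls (nat_lit 3) (nat_lit 4))))) (T.tp (T.sk (T.ls (nat_lit 3) (nat_lit 4))))) (T.tp (T.sk (T.ls (nat_lit 3) (nat_lit 4))))) (T.tp (T.sk (T.ls (nat_lit 3) (nat_lit 4))))) (T.tp (T.sk (T.ls (nat_lit 3) (nat_lit 4))))) (T.tp (T.sk (T.ls (nat_lit 3) (nat_lit 4))))) (T.tp (T.sk (T.ls (nat_lit 3) (nat_lit 4)))))))))) (T.ts (nat_lit 2) (T.ts (nat_lit 2) (T.ls (nat_lit 3) (nat_lit 4)) (T.ts (nat_lit 1) (T.ls (nat_lit 3) (nat_lit 4)) (T.ts (nat_lit 3) (T.im (nat_lit 5)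 (nat_lit 3)) (T.ts (nat_lit 0) (T.im (nat_lit 7) (nat_lit 2)) (T.nw (T.ts (nat_lit 4) (T.ts (nat_lit 3) (T.ts (nat_lit 2) (T.ts (nat_lit 4) (T.ts (nat_lit 2) (T.ts (nat_lit 3) (T.ts (nat_lit 4) (T.ts (nat_lit 1) (T.l1 (nat_lit 12300) (nat_lit 3) (nat_lit 20500)) (T.sk (T.lf (nat_lit 16569) (nat_lit 3) (nat_lit 20500) (nat_lit 4) (nat_lit 12300)))) (T.sk (T.lf (nat_lit 16569) (nat_lit 3) (nat_lit 20500) (nat_lit 4) (nat_lit 12300)))) (T.tp (T.sk (T.ls (nat_lit 3) (nat_lit 4))))) (T.tp (T.sk (T.ls (nat_lit 3) (nat_lit 4))))) (T.tp (T.sk (T.ls (nat_lit 3) (nat_lit 4))))) (T.tp (T.sk (T.ls (nat_lit 3) (nat_lit 4))))) (T.tp (T.sk (T.ls (nat_lit 3) (nat_lit 4))))) (T.tp (T.sk (T.ls (nat_lit 3) (nat_lit 4)))))))))) d300))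
def d302 : T := (T.ts (nat_lit 2) d299 (T.ts (nat_lit 1) (T.im (nat_lit 5) (nat_lit 2)) (T.ts (nat_lit 0) (T.im (nat_lit 3) (nat_lit 3)) (T.nw d301))))
def d303 : T := (T.ts (nat_lit 0) (T.ts (nat_lit 3) (T.ts (nat_lit 2) (T.ts (nat_lit 1) (T.ts (nat_lit 3) (T.ts (nat_lit 1) (T.ts (nat_lit 2) (T.ts (nat_lit 1) (T.ts (nat_lit 1) (T.l1 (nat_lit 12300) (nat_lit 4) (nat_lit 20500)) (T.tp (T.sk (T.ls (nat_lit 3) (nat_lit 4))))) (T.tp (T.sk (T.ls (nat_lit 3) (nat_lit 4))))) (T.tp (T.sk (T.ls (nat_lit 3) (nat_lit 4))))) (T.tp (T.sk (T.ls (nat_lit 3) (nat_lit 4))))) (T.tp (T.sk (T.ls (nat_lit 3) (nat_lit 4))))) (T.tp (T.sk (T.ls (nat_lit 3) (nat_lit 4))))) (T.tp (T.sk (T.ls (nat_lit 3) (nat_lit 4))))) (T.tp (T.sk (T.ls (nat_lit 3) (nat_lit 4))))) (T.ts (nat_lit 1) (T.im (nat_lit 7) (nat_lit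 2)) (T.nw (T.ts (nat_lit 4) (T.ts (nat_lit 3) (T.ts (nat_lit 2) (T.ts (nat_lit 4) (T.ts (nat_lit 2) (T.ts (nat_lit 3) (T.ts (nat_lit 2) (T.ts (nat_lit 2) (T.l1 (nat_lit 12300) (nat_lit 3) (nat_lit 20500)) (T.tp (T.sk (T.ls (nat_lit 3) (nat_lit 4))))) (T.tp (T.sk (T.ls (nat_lit 3) (nat_lit 4))))) (T.tp (T.sk (T.ls (nat_lit 3) (nat_lit 4))))) (T.tp (T.sk (T.ls (nat_lit 3) (nat_lit 4))))) (T.tp (T.sk (T.ls (nat_lit 3) (nat_lit 4))))) (T.tp (T.sk (T.ls (nat_lit 3) (nat_lit 4))))) (T.tp (T.sk (T.ls (nat_lit 3) (nat_lit 4))))) (T.tp (T.sk (T.ls (nat_lit 3) (nat_lit 4))))))))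
def d304 : T := (T.ts (nat_lit 2) (T.ts (nat_lit 2) (T.ls (nat_lit 3) (nat_lit 4)) (T.ts (nat_lit 1) (T.ls (nat_lit 3) (nat_lit 4)) (T.ts (nat_lit 0) (T.im (nat_lit 7) (nat_lit 2)) (T.nw (T.ts (nat_lit 3) (T.ts (nat_lit 2) (T.ts (nat_lit 1) (T.ts (nat_lit 3) (T.ts (nat_lit 1) (T.ts (nat_lit 2) (T.ts (nat_lit 1) (T.ts (nat_lit 1) (T.l1 (nat_lit 12300) (nat_lit 4) (nat_lit 20500)) (T.tp (T.sk (T.ls (nat_lit 3) (nat_lit 4))))) (T.tp (T.sk (T.ls (nat_lit 3) (nat_lit 4))))) (T.tp (T.sk (T.ls (nat_lit 3) (nat_lit 4))))) (T.tp (T.sk (T.ls (nat_lit 3) (nat_lit 4))))) (T.tp (T.sk (T.ls (nat_lit 3) (nat_lit 4))))) (T.tp (T.sk (T.ls (nat_lit 3) (nat_lit 4))))) (T.tp (T.sk (T.ls (nat_lit 3) (nat_lit 4))))) (T.tp (T.sk (T.ls (nat_lit 3) (nat_lit 4))))))))) (T.ts (nat_lit 1) (T.ts (nat_lit 2) (T.ls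 (nat_lit 3) (nat_lit 4)) (T.ts (nat_lit 1) (T.ls (nat_lit 3) (nat_lit 4)) (T.ts (nat_lit 0) (T.im (nat_lit 5) (nat_lit 3)) (T.nw (T.ts (nat_lit 3) (T.ts (nat_lit 2) (T.ts (nat_lit 1) (T.ts (nat_lit 3) (T.ts (nat_lit 1) (T.ts (nat_lit 2) (T.ts (nat_lit 1) (T.ts (nat_lit 1) (T.l1 (nat_lit 12300) (nat_lit 4) (nat_lit 20500)) (T.sk (T.lf (nat_lit 16569) (nat_lit 3) (nat_lit 12300) (nat_lit 4) (nat_lit 20500)))) (T.sk (T.lf (nat_lit 16569) (nat_lit 3) (nat_lit 12300) (nat_lit 4) (nat_lit 20500)))) (T.tp (T.sk (T.ls (nat_lit 3) (nat_lit 4))))) (T.tp (T.sk (T.ls (nat_lit 3) (nat_lit 4))))) (T.tp (T.sk (T.ls (nat_lit 3) (nat_lit 4))))) (T.tp (T.sk (T.ls (nat_lit 3) (nat_lit 4))))) (T.tp (T.sk (T.ls (nat_lit 3) (nat_lit 4))))) (T.tp (T.sk (T.ls (nat_lit 3) (nat_lit 4))))))))) (T.ts (nat_lit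 0) (T.im (nat_lit 7) (nat_lit 1)) (T.nw (T.ts (nat_lit 3) (T.tp (T.ts (nat_lit 2) (T.ts (nat_lit 1) (T.ts (nat_lit 3) (T.ts (nat_lit 1) (T.im (nat_lit 11) (nat_lit 2)) (T.sk (T.ls (nat_lit 3) (nat_lit 4)))) (T.sk (T.ls (nat_lit 3) (nat_lit 4)))) (T.sk (T.ls (nat_lit 3) (nat_lit 4)))) (T.sk (T.ls (nat_lit 3) (nat_lit 4))))) (T.ts (nat_lit 2) (T.ls (nat_lit 3) (nat_lit 4)) d303))))))
def d305 : T := (T.ts (nat_lit 1) (T.ts (nat_lit 3) (T.ls (nat_lit 3) (nat_lit 4)) (T.ts (nat_lit 2) (T.ls (nat_lit 3) (nat_lit 4)) (T.ts (nat_lit 1) (T.ls (nat_lit 3) (nat_lit 4)) (T.ts (nat_lit 0) (T.im (nat_lit 7) (nat_lit 2)) (T.nw (T.ts (nat_lit 4) (T.ts (nat_lit 3) (T.ts (nat_lit 2) (T.ts (nat_lit 4) (T.ts (nat_lit 2) (T.ts (nat_lit 3) (T.ts (nat_lit 2) (T.ts (nat_lit 1) (T.l1 (nat_lit 12300) (nat_lit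 3) (nat_lit 20500)) (T.tp (T.sk (T.ls (nat_lit 3) (nat_lit 4))))) (T.tp (T.sk (T.ls (nat_lit 3) (nat_lit 4))))) (T.tp (T.sk (T.ls (nat_lit 3) (nat_lit 4))))) (T.tp (T.sk (T.ls (nat_lit 3) (nat_lit 4))))) (T.tp (T.sk (T.ls (nat_lit 3) (nat_lit 4))))) (T.tp (T.sk (T.ls (nat_lit 3) (nat_lit 4))))) (T.tp (T.sk (T.ls (nat_lit 3) (nat_lit 4))))) (T.tp (T.sk (T.ls (nat_lit 3) (nat_lit 4)))))))))) (T.ts (nat_lit 0) (T.im (nat_lit 7) (nat_lit 1)) (T.nw (T.ts (nat_lit 4) (T.tp (T.ts (nat_lit 3) (T.ts (nat_lit 2) (T.ts (nat_lit 4) (T.ts (nat_lit 2) (T.im (nat_lit 11) (nat_lit 2)) (T.sk (T.ls (nat_lit 3) (nat_lit 4)))) (T.sk (T.ls (nat_lit 3) (nat_lit 4)))) (T.sk (T.ls (nat_lit 3) (nat_lit 4)))) (T.sk (T.ls (nat_lit 3) (nat_lit 4))))) (T.ts (nat_lit 3) (T.ls (nat_lit 3) (nat_lit 4)) (T.ts (nat_lit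 2) (T.ls (nat_lit 3) (nat_lit 4)) (T.ts (nat_lit 0) (T.ts (nat_lit 4) (T.ts (nat_lit 3) (T.ts (nat_lit 2) (T.ts (nat_lit 4) (T.ts (nat_lit 2) (T.ts (nat_lit 3) (T.ts (nat_lit 2) (T.ts (nat_lit 1) (T.l1 (nat_lit 12300) (nat_lit 3) (nat_lit 20500)) (T.tp (T.sk (T.ls (nat_lit 3) (nat_lit 4))))) (T.tp (T.sk (T.ls (nat_lit 3) (nat_lit 4))))) (T.tp (T.sk (T.ls (nat_lit 3) (nat_lit 4))))) (T.tp (T.sk (T.ls (nat_lit 3) (nat_lit 4))))) (T.tp (T.sk (T.ls (nat_lit 3) (nat_lit 4))))) (T.tp (T.sk (T.ls (nat_lit 3) (nat_lit 4))))) (T.tp (T.sk (T.ls (nat_lit 3) (nat_lit 4))))) (T.tp (T.sk (T.ls (nat_lit 3) (nat_lit 4))))) (T.tp (T.ts (nat_lit 1) (T.im (nat_lit 7) (nat_lit 2)) T.ie)))))))))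
def d306 : T := (T.ts (nat_lit 3) (T.ts (nat_lit 3) (T.ls (nat_lit 3) (nat_lit 4)) (T.ts (nat_lit 2) (T.ts (nat_lit 3) (T.ls (nat_lit 3) (nat_lit 4)) (T.ts (nat_lit 1) (T.ts (nat_lit 3) (T.ts (nat_lit 1) (T.ts (nat_lit 2) (T.l1 (nat_lit 12300) (nat_lit 4) (nat_lit 20500)) (T.tp (T.sk (T.ls (nat_lit 3) (nat_lit 4))))) (T.tp (T.sk (T.ls (nat_lit 3) (nat_lit 4))))) (T.tp (T.sk (T.ls (nat_lit 3) (nat_lit 4))))) (T.tp (T.sk (T.ls (nat_lit 3) (nat_lit 4)))))) (T.ts (nat_lit 1) (T.ls (nat_lit 3) (nat_lit 4)) (T.ts (nat_lit 0) (T.im (nat_lit 7) (nat_lit 2)) (T.nw (T.ts (nat_lit 4) (T.ts (nat_lit 3) (T.ts (nat_lit 2) (T.ts (nat_lit 4) (T.ts (nat_lit 2) (T.ts (nat_lit 3) (T.ts (nat_lit 2) (T.ts (nat_lit 1) (T.l1 (nat_lit 12300) (nat_lit 3) (nat_lit 20500)) (T.tp (T.sk (T.ls (nat_lit 3) (nat_lit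 4))))) (T.tp (T.sk (T.ls (nat_lit 3) (nat_lit 4))))) (T.tp (T.sk (T.ls (nat_lit 3) (nat_lit 4))))) (T.tp (T.sk (T.ls (nat_lit 3) (nat_lit 4))))) (T.tp (T.sk (T.ls (nat_lit 3) (nat_lit 4))))) (T.tp (T.sk (T.ls (nat_lit 3) (nat_lit 4))))) (T.tp (T.sk (T.ls (nat_lit 3) (nat_lit 4))))) (T.tp (T.sk (T.ls (nat_lit 3) (nat_lit 4)))))))))) (T.ts (nat_lit 2) (T.ts (nat_lit 3) (T.ls (nat_lit 3) (nat_lit 4)) (T.ts (nat_lit 2) (T.ls (nat_lit 3) (nat_lit 4)) (T.ts (nat_lit 1) (T.im (nat_lit 5) (nat_lit 3)) (T.ts (nat_lit 0) (T.im (nat_lit 7) (nat_lit 2)) (T.nw (T.ts (nat_lit 4) (T.ts (nat_lit 3) (T.ts (nat_lit 2) (T.ts (nat_lit 4) (T.ts (nat_lit 2) (T.ts (nat_lit 3) (T.ts (nat_lit 2) (T.ts (nat_lit 1) (T.l1 (nat_lit 12300) (nat_lit 3) (nat_lit 20500)) (T.sk (T.lf (nat_lit 16569) (nat_lit 3) (nat_lit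 20500) (nat_lit 4) (nat_lit 12300)))) (T.sk (T.lf (nat_lit 16569) (nat_lit 3) (nat_lit 20500) (nat_lit 4) (nat_lit 12300)))) (T.tp (T.sk (T.ls (nat_lit 3) (nat_lit 4))))) (T.tp (T.sk (T.ls (nat_lit 3) (nat_lit 4))))) (T.tp (T.sk (T.ls (nat_lit 3) (nat_lit 4))))) (T.tp (T.sk (T.ls (nat_lit 3) (nat_lit 4))))) (T.tp (T.sk (T.ls (nat_lit 3) (nat_lit 4))))) (T.tp (T.sk (T.ls (nat_lit 3) (nat_lit 4)))))))))) d305))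
def d307 : T := (T.ts (nat_lit 0) d304 (T.ts (nat_lit 2) (T.im (nat_lit 1) (nat_lit 4)) (T.ts (nat_lit 1) (T.im (nat_lit 5) (nat_lit 2)) (T.nw d306))))
def d308 : T := (T.ts (nat_lit 0) (T.ts (nat_lit 3) (T.ts (nat_lit 2) (T.ts (nat_lit 1) (T.ts (nat_lit 3) (T.ts (nat_lit 1) (T.ts (nat_lit 2) (T.ts (nat_lit 0) (T.ts (nat_lit 3) (T.l1 (nat_lit 12300) (nat_lit 4) (nat_lit 20500)) (T.tp (T.sk (T.ls (nat_lit 3) (nat_lit 4))))) (T.tp (T.sk (T.ls (nat_lit 3) (nat_lit 4))))) (T.tp (T.sk (T.ls (nat_lit 3) (nat_lit 4))))) (T.tp (T.sk (T.ls (nat_lit 3) (nat_lit 4))))) (T.tp (T.sk (T.ls (nat_lit 3) (nat_lit 4))))) (T.tp (T.sk (T.ls (nat_lit 3) (nat_lit 4))))) (T.tp (T.sk (T.ls (nat_lit 3) (nat_lit 4))))) (T.tp (T.sk (T.ls (nat_lit 3) (nat_lit 4))))) (T.ts (nat_lit 3) (T.im (nat_lit 7) (nat_lit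 2)) (T.ts (nat_lit 2) (T.im (nat_lit 3) (nat_lit 4)) (T.nw (T.ts (nat_lit 4) (T.ts (nat_lit 3) (T.ts (nat_lit 2) (T.ts (nat_lit 4) (T.ts (nat_lit 2) (T.ts (nat_lit 3) (T.ts (nat_lit 1) (T.ts (nat_lit 4) (T.l1 (nat_lit 12300) (nat_lit 3) (nat_lit 20500)) (T.tp (T.sk (T.ls (nat_lit 3) (nat_lit 4))))) (T.tp (T.sk (T.ls (nat_lit 3) (nat_lit 4))))) (T.tp (T.sk (T.ls (nat_lit 3) (nat_lit 4))))) (T.tp (T.sk (T.ls (nat_lit 3) (nat_lit 4))))) (T.tp (T.sk (T.ls (nat_lit 3) (nat_lit 4))))) (T.tp (T.sk (T.ls (nat_lit 3) (nat_lit 4))))) (T.tp (T.sk (T.ls (nat_lit 3) (nat_lit 4))))) (T.tp (T.sk (T.ls (nat_lit 3) (nat_lit 4)))))))))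
def d309 : T := (T.ts (nat_lit 0) (T.ts (nat_lit 3) (T.ts (nat_lit 2) (T.ts (nat_lit 1) (T.ts (nat_lit 3) (T.ts (nat_lit 1) (T.ts (nat_lit 2) (T.ts (nat_lit 0) (T.ts (nat_lit 3) (T.l1 (nat_lit 12300) (nat_lit 4) (nat_lit 20500)) (T.tp (T.sk (T.ls (nat_lit 3) (nat_lit 4))))) (T.tp (T.sk (T.ls (nat_lit 3) (nat_lit 4))))) (T.tp (T.sk (T.ls (nat_lit 3) (nat_lit 4))))) (T.tp (T.sk (T.ls (nat_lit 3) (nat_lit 4))))) (T.tp (T.sk (T.ls (nat_lit 3) (nat_lit 4))))) (T.tp (T.sk (T.ls (nat_lit 3) (nat_lit 4))))) (T.tp (T.sk (T.ls (nat_lit 3) (nat_lit 4))))) (T.tp (T.sk (T.ls (nat_lit 3) (nat_lit 4))))) (T.ts (nat_lit 3) (T.im (nat_lit 7) (nat_lit 2)) (T.nw (T.ts (nat_lit 4) (T.ts (nat_lit 3) (T.ts (nat_lit 2) (T.ts (nat_lit 4) (T.ts (nat_lit 2) (T.ts (nat_lit 3) (T.ts (nat_lit 1) (T.ts (nat_lit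 4) (T.l1 (nat_lit 12300) (nat_lit 3) (nat_lit 20500)) (T.tp (T.sk (T.ls (nat_lit 3) (nat_lit 4))))) (T.tp (T.sk (T.ls (nat_lit 3) (nat_lit 4))))) (T.tp (T.sk (T.ls (nat_lit 3) (nat_lit 4))))) (T.tp (T.sk (T.ls (nat_lit 3) (nat_lit 4))))) (T.tp (T.sk (T.ls (nat_lit 3) (nat_lit 4))))) (T.tp (T.sk (T.ls (nat_lit 3) (nat_lit 4))))) (T.tp (T.sk (T.ls (nat_lit 3) (nat_lit 4))))) (T.tp (T.sk (T.ls (nat_lit 3) (nat_lit 4))))))))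
def d310 : T := (T.ts (nat_lit 1) (T.ts (nat_lit 4) (T.ts (nat_lit 3) (T.ts (nat_lit 2) (T.ts (nat_lit 4) (T.ts (nat_lit 2) (T.ts (nat_lit 3) (T.ts (nat_lit 1) (T.ts (nat_lit 4) (T.l1 (nat_lit 12300) (nat_lit 4) (nat_lit 20500)) (T.tp (T.sk (T.ls (nat_lit 3) (nat_lit 4))))) (T.tp (T.sk (T.ls (nat_lit 3) (nat_lit 4))))) (T.tp (T.sk (T.ls (nat_lit 3) (nat_lit 4))))) (T.tp (T.sk (T.ls (nat_lit 3) (nat_lit 4))))) (T.tp (T.sk (T.ls (nat_lit 3) (nat_lit 4))))) (T.tp (T.sk (T.ls (nat_lit 3) (nat_lit 4))))) (T.tp (T.sk (T.ls (nat_lit 3) (nat_lit 4))))) (T.tp (T.sk (T.ls (nat_lit 3) (nat_lit 4))))) (T.ts (nat_lit 0) (T.ts (nat_lit 4) (T.ts (nat_lit 3) (T.ts (nat_lit 2) (T.ts (nat_lit 4) (T.ts (nat_lit 2) (T.ts (nat_lit 3) (T.ts (nat_lit 1) (T.ts (nat_lit 4) (T.l1 (nat_lit 12300) (nat_lit 3)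 (nat_lit 20500)) (T.tp (T.sk (T.ls (nat_lit 3) (nat_lit 4))))) (T.tp (T.sk (T.ls (nat_lit 3) (nat_lit 4))))) (T.tp (T.sk (T.ls (nat_lit 3) (nat_lit 4))))) (T.tp (T.sk (T.ls (nat_lit 3) (nat_lit 4))))) (T.tp (T.sk (T.ls (nat_lit 3) (nat_lit 4))))) (T.tp (T.sk (T.ls (nat_lit 3) (nat_lit 4))))) (T.tp (T.sk (T.ls (nat_lit 3) (nat_lit 4))))) (T.tp (T.sk (T.ls (nat_lit 3) (nat_lit 4))))) (T.tp (T.ts (nat_lit 4) (T.im (nat_lit 7) (nat_lit 2)) T.ie))))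
def d311 : T := (T.ts (nat_lit 0) (T.ts (nat_lit 3) (T.ts (nat_lit 2) (T.ts (nat_lit 1) (T.ts (nat_lit 3) (T.ts (nat_lit 1) (T.ts (nat_lit 2) (T.ts (nat_lit 0) (T.ts (nat_lit 1) (T.l1 (nat_lit 12300) (nat_lit 4) (nat_lit 20500)) (T.tp (T.sk (T.ls (nat_lit 3) (nat_lit 4))))) (T.tp (T.sk (T.ls (nat_lit 3) (nat_lit 4))))) (T.tp (T.sk (T.ls (nat_lit 3) (nat_lit 4))))) (T.tp (T.sk (T.ls (nat_lit 3) (nat_lit 4))))) (T.tp (T.sk (T.ls (nat_lit 3) (nat_lit 4))))) (T.tp (T.sk (T.ls (nat_lit 3) (nat_lit 4))))) (T.tp (T.sk (T.ls (nat_lit 3) (nat_lit 4))))) (T.tp (T.sk (T.ls (nat_lit 3) (nat_lit 4))))) (T.ts (nat_lit 1) (T.im (nat_lit 7) (nat_lit 2)) (T.nw (T.ts (nat_lit 4) (T.ts (nat_lit 3) (T.ts (nat_lit 2) (T.ts (nat_lit 4) (T.ts (nat_lit 2) (T.ts (nat_lit 3) (T.ts (nat_lit 1) (T.ts (nat_lit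 2) (T.l1 (nat_lit 12300) (nat_lit 3) (nat_lit 20500)) (T.tp (T.sk (T.ls (nat_lit 3) (nat_lit 4))))) (T.tp (T.sk (T.ls (nat_lit 3) (nat_lit 4))))) (T.tp (T.sk (T.ls (nat_lit 3) (nat_lit 4))))) (T.tp (T.sk (T.ls (nat_lit 3) (nat_lit 4))))) (T.tp (T.sk (T.ls (nat_lit 3) (nat_lit 4))))) (T.tp (T.sk (T.ls (nat_lit 3) (nat_lit 4))))) (T.tp (T.sk (T.ls (nat_lit 3) (nat_lit 4))))) (T.tp (T.sk (T.ls (nat_lit 3) (nat_lit 4))))))))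
def d312 : T := (T.ts (nat_lit 0) (T.ts (nat_lit 3) (T.ts (nat_lit 2) (T.ts (nat_lit 1) (T.ts (nat_lit 3) (T.ts (nat_lit 1) (T.ts (nat_lit 2) (T.ts (nat_lit 0) (T.ts (nat_lit 1) (T.l1 (nat_lit 12300) (nat_lit 4) (nat_lit 20500)) (T.tp (T.sk (T.ls (nat_lit 3) (nat_lit 4))))) (T.tp (T.sk (T.ls (nat_lit 3) (nat_lit 4))))) (T.tp (T.sk (T.ls (nat_lit 3) (nat_lit 4))))) (T.tp (T.sk (T.ls (nat_lit 3) (nat_lit 4))))) (T.tp (T.sk (T.ls (nat_lit 3) (nat_lit 4))))) (T.tp (T.sk (T.ls (nat_lit 3) (nat_lit 4))))) (T.tp (T.sk (T.ls (nat_lit 3) (nat_lit 4))))) (T.tp (T.sk (T.ls (nat_lit 3) (nat_lit 4))))) (T.ts (nat_lit 1) (T.im (nat_lit 7) (nat_lit 2)) (T.nw (T.ts (nat_lit 4) (T.ts (nat_lit 3) (T.ts (nat_lit 2) (T.ts (nat_lit 4) (T.ts (nat_lit 2) (T.ts (nat_lit 3) (T.ts (nat_lit 1) (T.ts (nat_lit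 2) (T.l1 (nat_lit 12300) (nat_lit 3) (nat_lit 20500)) (T.tp (T.sk (T.ls (nat_lit 3) (nat_lit 4))))) (T.tp (T.sk (T.ls (nat_lit 3) (nat_lit 4))))) (T.tp (T.sk (T.ls (nat_lit 3) (nat_lit 4))))) (T.tp (T.sk (T.ls (nat_lit 3) (nat_lit 4))))) (T.tp (T.sk (T.ls (nat_lit 3) (nat_lit 4))))) (T.tp (T.sk (T.ls (nat_lit 3) (nat_lit 4))))) (T.tp (T.sk (T.ls (nat_lit 3) (nat_lit 4))))) (T.tp (T.sk (T.ls (nat_lit 3) (nat_lit 4))))))))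
def d313 : T := (T.ts (nat_lit 1) (T.ts (nat_lit 4) (T.ts (nat_lit 3) (T.ts (nat_lit 2) (T.ts (nat_lit 4) (T.ts (nat_lit 2) (T.ts (nat_lit 3) (T.ts (nat_lit 1) (T.ts (nat_lit 2) (T.l1 (nat_lit 12300) (nat_lit 4) (nat_lit 20500)) (T.tp (T.sk (T.ls (nat_lit 3) (nat_lit 4))))) (T.tp (T.sk (T.ls (nat_lit 3) (nat_lit 4))))) (T.tp (T.sk (T.ls (nat_lit 3) (nat_lit 4))))) (T.tp (T.sk (T.ls (nat_lit 3) (nat_lit 4))))) (T.tp (T.sk (T.ls (nat_lit 3) (nat_lit 4))))) (T.tp (T.sk (T.ls (nat_lit 3) (nat_lit 4))))) (T.tp (T.sk (T.ls (nat_lit 3) (nat_lit 4))))) (T.tp (T.sk (T.ls (nat_lit 3) (nat_lit 4))))) (T.ts (nat_lit 0) (T.ts (nat_lit 4) (T.ts (nat_lit 3) (T.ts (nat_lit 2) (T.ts (nat_lit 4) (T.ts (nat_lit 2) (T.ts (nat_lit 3) (T.ts (nat_lit 1) (T.ts (nat_lit 2) (T.l1 (nat_lit 12300) (nat_lit 3)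 (nat_lit 20500)) (T.tp (T.sk (T.ls (nat_lit 3) (nat_lit 4))))) (T.tp (T.sk (T.ls (nat_lit 3) (nat_lit 4))))) (T.tp (T.sk (T.ls (nat_lit 3) (nat_lit 4))))) (T.tp (T.sk (T.ls (nat_lit 3) (nat_lit 4))))) (T.tp (T.sk (T.ls (nat_lit 3) (nat_lit 4))))) (T.tp (T.sk (T.ls (nat_lit 3) (nat_lit 4))))) (T.tp (T.sk (T.ls (nat_lit 3) (nat_lit 4))))) (T.tp (T.sk (T.ls (nat_lit 3) (nat_lit 4))))) (T.tp (T.ts (nat_lit 2) (T.im (nat_lit 7) (nat_lit 2)) T.ie))))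
def d314 : T := (T.ts (nat_lit 2) (T.ts (nat_lit 3) (T.ls (nat_lit 3) (nat_lit 4)) (T.ts (nat_lit 2) (T.ls (nat_lit 3) (nat_lit 4)) (T.ts (nat_lit 1) (T.im (nat_lit 7) (nat_lit 2)) (T.ts (nat_lit 0) (T.im (nat_lit 5) (nat_lit 3)) (T.nw (T.ts (nat_lit 4) (T.ts (nat_lit 3) (T.ts (nat_lit 2) (T.ts (nat_lit 4) (T.ts (nat_lit 2) (T.ts (nat_lit 3) (T.ts (nat_lit 1) (T.ts (nat_lit 2) (T.l1 (nat_lit 12300) (nat_lit 3) (nat_lit 20500)) (T.sk (T.lf (nat_lit 16569) (nat_lit 3) (nat_lit 20500) (nat_lit 4) (nat_lit 12300)))) (T.sk (T.lf (nat_lit 16569) (nat_lit 3) (nat_lit 20500) (nat_lit 4) (nat_lit 12300)))) (T.tp (T.sk (T.ls (nat_lit 3) (nat_lit 4))))) (T.tp (T.sk (T.ls (nat_lit 3) (nat_lit 4))))) (T.tp (T.sk (T.ls (nat_lit 3) (nat_lit 4))))) (T.tp (T.sk (T.ls (nat_lit 3) (nat_lit 4))))) (T.tp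 (T.sk (T.ls (nat_lit 3) (nat_lit 4))))) (T.tp (T.sk (T.ls (nat_lit 3) (nat_lit 4)))))))))) (T.ts (nat_lit 0) (T.ts (nat_lit 3) (T.tp (T.ts (nat_lit 2) (T.ts (nat_lit 1) (T.ts (nat_lit 3) (T.ts (nat_lit 1) (T.im (nat_lit 11) (nat_lit 2)) (T.sk (T.ls (nat_lit 3) (nat_lit 4)))) (T.sk (T.ls (nat_lit 3) (nat_lit 4)))) (T.sk (T.ls (nat_lit 3) (nat_lit 4)))) (T.sk (T.ls (nat_lit 3) (nat_lit 4))))) (T.ts (nat_lit 2) (T.ls (nat_lit 3) (nat_lit 4)) d312)) (T.ts (nat_lit 1) (T.im (nat_lit 7) (nat_lit 1)) (T.nw (T.ts (nat_lit 4) (T.tp (T.ts (nat_lit 3) (T.ts (nat_lit 2) (T.ts (nat_lit 4) (T.ts (nat_lit 2) (T.im (nat_lit 11) (nat_lit 2)) (T.sk (T.ls (nat_lit 3) (nat_lit 4)))) (T.sk (T.ls (nat_lit 3) (nat_lit 4)))) (T.sk (T.ls (nat_lit 3) (nat_lit 4)))) (T.sk (T.ls (nat_lit 3) (nat_lit 4))))) (T.ts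 (nat_lit 3) (T.ls (nat_lit 3) (nat_lit 4)) d313))))))
def d315 : T := (T.ts (nat_lit 1) (T.ts (nat_lit 3) (T.ls (nat_lit 3) (nat_lit 4)) (T.ts (nat_lit 2) (T.ls (nat_lit 3) (nat_lit 4)) (T.ts (nat_lit 1) (T.ls (nat_lit 3) (nat_lit 4)) (T.ts (nat_lit 0) (T.im (nat_lit 7) (nat_lit 2)) (T.nw (T.ts (nat_lit 4) (T.ts (nat_lit 3) (T.ts (nat_lit 2) (T.ts (nat_lit 4) (T.ts (nat_lit 2) (T.ts (nat_lit 3) (T.ts (nat_lit 1) (T.ts (nat_lit 1) (T.l1 (nat_lit 12300) (nat_lit 3) (nat_lit 20500)) (T.tp (T.sk (T.ls (nat_lit 3) (nat_lit 4))))) (T.tp (T.sk (T.ls (nat_lit 3) (nat_lit 4))))) (T.tp (T.sk (T.ls (nat_lit 3) (nat_lit 4))))) (T.tp (T.sk (T.ls (nat_lit 3) (nat_lit 4))))) (T.tp (T.sk (T.ls (nat_lit 3) (nat_lit 4))))) (T.tp (T.sk (T.ls (nat_lit 3) (nat_lit 4))))) (T.tp (T.sk (T.ls (nat_lit 3)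 (nat_lit 4))))) (T.tp (T.sk (T.ls (nat_lit 3) (nat_lit 4)))))))))) (T.ts (nat_lit 0) (T.im (nat_lit 7) (nat_lit 1)) (T.nw (T.ts (nat_lit 4) (T.tp (T.ts (nat_lit 3) (T.ts (nat_lit 2) (T.ts (nat_lit 4) (T.ts (nat_lit 2) (T.im (nat_lit 11) (nat_lit 2)) (T.sk (T.ls (nat_lit 3) (nat_lit 4)))) (T.sk (T.ls (nat_lit 3) (nat_lit 4)))) (T.sk (T.ls (nat_lit 3) (nat_lit 4)))) (T.sk (T.ls (nat_lit 3) (nat_lit 4))))) (T.ts (nat_lit 3) (T.ls (nat_lit 3) (nat_lit 4)) (T.ts (nat_lit 2) (T.ls (nat_lit 3) (nat_lit 4)) (T.ts (nat_lit 0) (T.ts (nat_lit 4) (T.ts (nat_lit 3) (T.ts (nat_lit 2) (T.ts (nat_lit 4) (T.ts (nat_lit 2) (T.ts (nat_lit 3) (T.ts (nat_lit 1) (T.ts (nat_lit 1) (T.l1 (nat_lit 12300) (nat_lit 3) (nat_lit 20500)) (T.tp (T.sk (T.ls (nat_lit 3) (nat_lit 4))))) (T.tp (T.sk (T.ls (nat_lit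 3) (nat_lit 4))))) (T.tp (T.sk (T.ls (nat_lit 3) (nat_lit 4))))) (T.tp (T.sk (T.ls (nat_lit 3) (nat_lit 4))))) (T.tp (T.sk (T.ls (nat_lit 3) (nat_lit 4))))) (T.tp (T.sk (T.ls (nat_lit 3) (nat_lit 4))))) (T.tp (T.sk (T.ls (nat_lit 3) (nat_lit 4))))) (T.tp (T.sk (T.ls (nat_lit 3) (nat_lit 4))))) (T.tp (T.ts (nat_lit 1) (T.im (nat_lit 7) (nat_lit 2)) T.ie)))))))))
def d316 : T := (T.ts (nat_lit 3) (T.ts (nat_lit 3) (T.ls (nat_lit 3) (nat_lit 4)) (T.ts (nat_lit 2) (T.ts (nat_lit 3) (T.ls (nat_lit 3) (nat_lit 4)) (T.ts (nat_lit 1) (T.ts (nat_lit 3) (T.ts (nat_lit 1) (T.ts (nat_lit 2) (T.l1 (nat_lit 12300) (nat_lit 4) (nat_lit 20500)) (T.tp (T.sk (T.ls (nat_lit 3) (nat_lit 4))))) (T.tp (T.sk (T.ls (nat_lit 3) (nat_lit 4))))) (T.tp (T.sk (T.ls (nat_lit 3) (nat_lit 4))))) (T.tp (T.sk (T.ls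 (nat_lit 3) (nat_lit 4)))))) (T.ts (nat_lit 1) (T.ls (nat_lit 3) (nat_lit 4)) (T.ts (nat_lit 0) (T.im (nat_lit 7) (nat_lit 2)) (T.nw (T.ts (nat_lit 4) (T.ts (nat_lit 3) (T.ts (nat_lit 2) (T.ts (nat_lit 4) (T.ts (nat_lit 2) (T.ts (nat_lit 3) (T.ts (nat_lit 1) (T.ts (nat_lit 1) (T.l1 (nat_lit 12300) (nat_lit 3) (nat_lit 20500)) (T.tp (T.sk (T.ls (nat_lit 3) (nat_lit 4))))) (T.tp (T.sk (T.ls (nat_lit 3) (nat_lit 4))))) (T.tp (T.sk (T.ls (nat_lit 3) (nat_lit 4))))) (T.tp (T.sk (T.ls (nat_lit 3) (nat_lit 4))))) (T.tp (T.sk (T.ls (nat_lit 3) (nat_lit 4))))) (T.tp (T.sk (T.ls (nat_lit 3) (nat_lit 4))))) (T.tp (T.sk (T.ls (nat_lit 3) (nat_lit 4))))) (T.tp (T.sk (T.ls (nat_lit 3) (nat_lit 4)))))))))) (T.ts (nat_lit 2) (T.ts (nat_lit 3) (T.ls (nat_lit 3) (nat_lit 4)) (T.ts (nat_lit 2) (T.ls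 (nat_lit 3) (nat_lit 4)) (T.ts (nat_lit 1) (T.ls (nat_lit 3) (nat_lit 4)) (T.ts (nat_lit 0) (T.im (nat_lit 5) (nat_lit 3)) (T.nw (T.ts (nat_lit 4) (T.ts (nat_lit 3) (T.ts (nat_lit 2) (T.ts (nat_lit 4) (T.ts (nat_lit 2) (T.ts (nat_lit 3) (T.ts (nat_lit 1) (T.ts (nat_lit 1) (T.l1 (nat_lit 12300) (nat_lit 3) (nat_lit 20500)) (T.sk (T.lf (nat_lit 16569) (nat_lit 3) (nat_lit 20500) (nat_lit 4) (nat_lit 12300)))) (T.sk (T.lf (nat_lit 16569) (nat_lit 3) (nat_lit 20500) (nat_lit 4) (nat_lit 12300)))) (T.tp (T.sk (T.ls (nat_lit 3) (nat_lit 4))))) (T.tp (T.sk (T.ls (nat_lit 3) (nat_lit 4))))) (T.tp (T.sk (T.ls (nat_lit 3) (nat_lit 4))))) (T.tp (T.sk (T.ls (nat_lit 3) (nat_lit 4))))) (T.tp (T.sk (T.ls (nat_lit 3) (nat_lit 4))))) (T.tp (T.sk (T.ls (nat_lit 3) (nat_lit 4)))))))))) d315))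
def d317 : T := (T.ts (nat_lit 4) (T.ls (nat_lit 3) (nat_lit 4)) (T.ts (nat_lit 3) (T.ts (nat_lit 4) (T.ls (nat_lit 3) (nat_lit 4)) (T.ts (nat_lit 2) (T.ts (nat_lit 4) (T.ts (nat_lit 2) (T.ts (nat_lit 3) (T.l1 (nat_lit 12300) (nat_lit 3) (nat_lit 20500)) (T.tp (T.sk (T.ls (nat_lit 3) (nat_lit 4))))) (T.tp (T.sk (T.ls (nat_lit 3) (nat_lit 4))))) (T.tp (T.sk (T.ls (nat_lit 3) (nat_lit 4))))) (T.tp (T.sk (T.ls (nat_lit 3) (nat_lit 4)))))) (T.ts (nat_lit 2) (T.ls (nat_lit 3) (nat_lit 4)) (T.ts (nat_lit 1) (T.ts (nat_lit 4) (T.ts (nat_lit 3) (T.ts (nat_lit 2) (T.ts (nat_lit 4) (T.ts (nat_lit 2) (T.ts (nat_lit 3) (T.ts (nat_lit 1) (T.ts (nat_lit 0) (T.l1 (nat_lit 12300) (nat_lit 4) (nat_lit 20500)) (T.tp (T.sk (T.ls (nat_lit 3) (nat_lit 4))))) (T.tp (T.sk (T.ls (nat_lit 3) (nat_lit 4)))))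 (T.tp (T.sk (T.ls (nat_lit 3) (nat_lit 4))))) (T.tp (T.sk (T.ls (nat_lit 3) (nat_lit 4))))) (T.tp (T.sk (T.ls (nat_lit 3) (nat_lit 4))))) (T.tp (T.sk (T.ls (nat_lit 3) (nat_lit 4))))) (T.tp (T.sk (T.ls (nat_lit 3) (nat_lit 4))))) (T.tp (T.sk (T.ls (nat_lit 3) (nat_lit 4))))) (T.tp (T.ts (nat_lit 0) (T.im (nat_lit 7) (nat_lit 2)) T.ie))))))
def d318 : T := (T.ts (nat_lit 1) (T.ts (nat_lit 4) (T.tp (T.ts (nat_lit 3) (T.ts (nat_lit 2) (T.ts (nat_lit 4) (T.ts (nat_lit 2) (T.im (nat_lit 11) (nat_lit 2)) (T.sk (T.ls (nat_lit 3) (nat_lit 4)))) (T.sk (T.ls (nat_lit 3) (nat_lit 4)))) (T.sk (T.ls (nat_lit 3) (nat_lit 4)))) (T.sk (T.ls (nat_lit 3) (nat_lit 4))))) (T.ts (nat_lit 3) (T.ls (nat_lit 3) (nat_lit 4)) (T.ts (nat_lit 2) (T.ls (nat_lit 3) (nat_lit 4)) (T.ts (nat_lit 1) (T.ts (nat_lit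 4) (T.ts (nat_lit 3) (T.ts (nat_lit 2) (T.ts (nat_lit 4) (T.ts (nat_lit 2) (T.ts (nat_lit 3) (T.ts (nat_lit 1) (T.ts (nat_lit 0) (T.l1 (nat_lit 12300) (nat_lit 4) (nat_lit 20500)) (T.tp (T.sk (T.ls (nat_lit 3) (nat_lit 4))))) (T.tp (T.sk (T.ls (nat_lit 3) (nat_lit 4))))) (T.tp (T.sk (T.ls (nat_lit 3) (nat_lit 4))))) (T.tp (T.sk (T.ls (nat_lit 3) (nat_lit 4))))) (T.tp (T.sk (T.ls (nat_lit 3) (nat_lit 4))))) (T.tp (T.sk (T.ls (nat_lit 3) (nat_lit 4))))) (T.tp (T.sk (T.ls (nat_lit 3) (nat_lit 4))))) (T.tp (T.sk (T.ls (nat_lit 3) (nat_lit 4))))) (T.tp (T.ts (nat_lit 0) (T.im (nat_lit 7) (nat_lit 2)) T.ie)))))) (T.tp (T.ts (nat_lit 0) (T.im (nat_lit 7) (nat_lit 1)) T.ie)))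
def d319 : T := (T.ts (nat_lit 4) d317 (T.ts (nat_lit 3) (T.tp (T.ts (nat_lit 4) (T.ls (nat_lit 3) (nat_lit 4)) (T.ts (nat_lit 3) (T.ls (nat_lit 3) (nat_lit 4)) (T.ts (nat_lit 2) (T.ls (nat_lit 3) (nat_lit 4)) (T.ts (nat_lit 1) (T.im (nat_lit 5) (nat_lit 3)) (T.ts (nat_lit 0) (T.im (nat_lit 7) (nat_lit 2)) T.ie)))))) (T.ts (nat_lit 2) (T.ts (nat_lit 4) (T.ls (nat_lit 3) (nat_lit 4)) (T.ts (nat_lit 3) (T.ls (nat_lit 3) (nat_lit 4)) (T.ts (nat_lit 2) (T.ls (nat_lit 3) (nat_lit 4)) (T.ts (nat_lit 1) (T.ts (nat_lit 4) (T.ts (nat_lit 3) (T.ts (nat_lit 2) (T.ts (nat_lit 4) (T.ts (nat_lit 2) (T.ts (nat_lit 3) (T.ts (nat_lit 1) (T.ts (nat_lit 0) (T.l1 (nat_lit 12300) (nat_lit 4) (nat_lit 20500)) (T.tp (T.sk (T.ls (nat_lit 3) (nat_lit 4))))) (T.tp (T.sk (T.ls (nat_lit 3) (nat_lit 4))))) (T.tp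 (T.sk (T.ls (nat_lit 3) (nat_lit 4))))) (T.tp (T.sk (T.ls (nat_lit 3) (nat_lit 4))))) (T.tp (T.sk (T.ls (nat_lit 3) (nat_lit 4))))) (T.tp (T.sk (T.ls (nat_lit 3) (nat_lit 4))))) (T.tp (T.sk (T.ls (nat_lit 3) (nat_lit 4))))) (T.tp (T.sk (T.ls (nat_lit 3) (nat_lit 4))))) (T.tp (T.ts (nat_lit 0) (T.im (nat_lit 7) (nat_lit 2)) T.ie)))))) d318)))
def d320 : T := (T.ts (nat_lit 1) (T.im (nat_lit 5) (nat_lit 1)) (T.nw (T.ts (nat_lit 3) (T.ts (nat_lit 2) (T.ts (nat_lit 2) (T.ls (nat_lit 3) (nat_lit 4)) (T.ts (nat_lit 1) (T.ts (nat_lit 3) (T.ts (nat_lit 1) (T.im (nat_lit 9) (nat_lit 2)) (T.sk (T.lf (nat_lit 16569) (nat_lit 3) (nat_lit 12300) (nat_lit 4) (nat_lit 20500)))) (T.sk (T.lf (nat_lit 16569) (nat_lit 3) (nat_lit 12300) (nat_lit 4) (nat_lit 20500)))) (T.tp (T.ts (nat_lit 3) (T.im (nat_lit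 7) (nat_lit 2)) (T.ts (nat_lit 0) (T.im (nat_lit 5) (nat_lit 3)) (T.nw (T.ts (nat_lit 4) (T.ts (nat_lit 3) (T.im (nat_lit 7) (nat_lit 3)) (T.sk (T.ls (nat_lit 3) (nat_lit 4)))) (T.sk (T.ls (nat_lit 3) (nat_lit 4)))))))))) (T.ts (nat_lit 1) (T.ts (nat_lit 1) (T.ls (nat_lit 3) (nat_lit 4)) d308) (T.ts (nat_lit 0) (T.ts (nat_lit 2) (T.ls (nat_lit 3) (nat_lit 4)) (T.ts (nat_lit 1) (T.ls (nat_lit 3) (nat_lit 4)) d309)) (T.ts (nat_lit 3) (T.im (nat_lit 7) (nat_lit 1)) (T.nw (T.ts (nat_lit 3) (T.ls (nat_lit 3) (nat_lit 4)) (T.ts (nat_lit 2) (T.ls (nat_lit 3) (nat_lit 4)) d310))))))) (T.ts (nat_lit 1) (T.ts (nat_lit 3) (T.ts (nat_lit 3) (T.ls (nat_lit 3) (nat_lit 4)) (T.ts (nat_lit 2) (T.ls (nat_lit 3) (nat_lit 4)) d311)) d314) (T.ts (nat_lit 0) d316 (T.ts (nat_lit 2) (T.im (nat_lit 5) (nat_lit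 2)) (T.nw d319)))))))
def d321 : T := (T.ts (nat_lit 0) (T.ts (nat_lit 3) (T.ts (nat_lit 2) (T.ts (nat_lit 1) (T.ts (nat_lit 3) (T.ts (nat_lit 1) (T.ts (nat_lit 1) (T.ts (nat_lit 3) (T.ts (nat_lit 3) (T.l1 (nat_lit 12300) (nat_lit 4) (nat_lit 20500)) (T.tp (T.sk (T.ls (nat_lit 3) (nat_lit 4))))) (T.tp (T.sk (T.ls (nat_lit 3) (nat_lit 4))))) (T.tp (T.sk (T.ls (nat_lit 3) (nat_lit 4))))) (T.tp (T.sk (T.ls (nat_lit 3) (nat_lit 4))))) (T.tp (T.sk (T.ls (nat_lit 3) (nat_lit 4))))) (T.tp (T.sk (T.ls (nat_lit 3) (nat_lit 4))))) (T.tp (T.sk (T.ls (nat_lit 3) (nat_lit 4))))) (T.tp (T.sk (T.ls (nat_lit 3) (nat_lit 4))))) (T.ts (nat_lit 3) (T.im (nat_lit 7) (nat_lit 2)) (T.nw (T.ts (nat_lit 4) (T.ts (nat_lit 3) (T.ts (nat_lit 2) (T.ts (nat_lit 4) (T.ts (nat_lit 2) (T.ts (nat_lit 2) (T.ts (nat_lit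 4) (T.ts (nat_lit 4) (T.l1 (nat_lit 12300) (nat_lit 3) (nat_lit 20500)) (T.tp (T.sk (T.ls (nat_lit 3) (nat_lit 4))))) (T.tp (T.sk (T.ls (nat_lit 3) (nat_lit 4))))) (T.tp (T.sk (T.ls (nat_lit 3) (nat_lit 4))))) (T.tp (T.sk (T.ls (nat_lit 3) (nat_lit 4))))) (T.tp (T.sk (T.ls (nat_lit 3) (nat_lit 4))))) (T.tp (T.sk (T.ls (nat_lit 3) (nat_lit 4))))) (T.tp (T.sk (T.ls (nat_lit 3) (nat_lit 4))))) (T.tp (T.sk (T.ls (nat_lit 3) (nat_lit 4))))))))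
def d322 : T := (T.ts (nat_lit 1) (T.tp (T.ts (nat_lit 1) (T.ls (nat_lit 3) (nat_lit 4)) (T.ts (nat_lit 0) (T.ls (nat_lit 3) (nat_lit 4)) (T.ts (nat_lit 2) (T.im (nat_lit 7) (nat_lit 2)) (T.nw (T.ts (nat_lit 3) (T.ts (nat_lit 2) (T.im (nat_lit 7) (nat_lit 3)) (T.sk (T.ls (nat_lit 3) (nat_lit 4)))) (T.sk (T.ls (nat_lit 3) (nat_lit 4))))))))) (T.ts (nat_lit 0) (T.ts (nat_lit 1) (T.ls (nat_lit 3) (nat_lit 4)) (T.ts (nat_lit 2) (T.im (nat_lit 5) (nat_lit 3)) (T.ts (nat_lit 0) (T.im (nat_lit 3) (nat_lit 4)) (T.nw (T.ts (nat_lit 3) (T.ts (nat_lit 2) (T.ts (nat_lit 1) (T.ts (nat_lit 3) (T.ts (nat_lit 1) (T.ts (nat_lit 1) (T.ts (nat_lit 3) (T.ts (nat_lit 3) (T.l1 (nat_lit 12300) (nat_lit 4) (nat_lit 20500)) (T.tp (T.sk (T.ls (nat_lit 3) (nat_lit 4))))) (T.tp (T.sk (T.ls (nat_lit 3) (nat_lit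 4))))) (T.tp (T.sk (T.ls (nat_lit 3) (nat_lit 4))))) (T.tp (T.sk (T.ls (nat_lit 3) (nat_lit 4))))) (T.tp (T.sk (T.ls (nat_lit 3) (nat_lit 4))))) (T.tp (T.sk (T.ls (nat_lit 3) (nat_lit 4))))) (T.tp (T.sk (T.ls (nat_lit 3) (nat_lit 4))))) (T.tp (T.sk (T.ls (nat_lit 3) (nat_lit 4))))))))) (T.ts (nat_lit 2) (T.im (nat_lit 7) (nat_lit 1)) (T.nw (T.ts (nat_lit 2) (T.ls (nat_lit 3) (nat_lit 4)) (T.ts (nat_lit 1) (T.ls (nat_lit 3) (nat_lit 4)) d321))))))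
def d323 : T := (T.ts (nat_lit 0) (T.ts (nat_lit 3) (T.ts (nat_lit 2) (T.ts (nat_lit 1) (T.ts (nat_lit 3) (T.ts (nat_lit 1) (T.ts (nat_lit 1) (T.ts (nat_lit 3) (T.ts (nat_lit 2) (T.l1 (nat_lit 12300) (nat_lit 4) (nat_lit 20500)) (T.tp (T.sk (T.ls (nat_lit 3) (nat_lit 4))))) (T.tp (T.sk (T.ls (nat_lit 3) (nat_lit 4))))) (T.tp (T.sk (T.ls (nat_lit 3) (nat_lit 4))))) (T.tp (T.sk (T.ls (nat_lit 3) (nat_lit 4))))) (T.tp (T.sk (T.ls (nat_lit 3) (nat_lit 4))))) (T.tp (T.sk (T.ls (nat_lit 3) (nat_lit 4))))) (T.tp (T.sk (T.ls (nat_lit 3) (nat_lit 4))))) (T.tp (T.sk (T.ls (nat_lit 3) (nat_lit 4))))) (T.ts (nat_lit 2) (T.im (nat_lit 7) (nat_lit 2)) (T.nw (T.ts (nat_lit 4) (T.ts (nat_lit 3) (T.ts (nat_lit 2) (T.ts (nat_lit 4) (T.ts (nat_lit 2) (T.ts (nat_lit 2) (T.ts (nat_lit 4) (T.ts (nat_lit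 3) (T.l1 (nat_lit 12300) (nat_lit 3) (nat_lit 20500)) (T.tp (T.sk (T.ls (nat_lit 3) (nat_lit 4))))) (T.tp (T.sk (T.ls (nat_lit 3) (nat_lit 4))))) (T.tp (T.sk (T.ls (nat_lit 3) (nat_lit 4))))) (T.tp (T.sk (T.ls (nat_lit 3) (nat_lit 4))))) (T.tp (T.sk (T.ls (nat_lit 3) (nat_lit 4))))) (T.tp (T.sk (T.ls (nat_lit 3) (nat_lit 4))))) (T.tp (T.sk (T.ls (nat_lit 3) (nat_lit 4))))) (T.tp (T.sk (T.ls (nat_lit 3) (nat_lit 4))))))))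
def d324 : T := (T.ts (nat_lit 0) (T.ts (nat_lit 0) (T.ls (nat_lit 3) (nat_lit 4)) (T.ts (nat_lit 2) (T.im (nat_lit 5) (nat_lit 3)) (T.ts (nat_lit 1) (T.im (nat_lit 7) (nat_lit 2)) (T.nw (T.ts (nat_lit 3) (T.ts (nat_lit 2) (T.ts (nat_lit 1) (T.ts (nat_lit 3) (T.ts (nat_lit 1) (T.ts (nat_lit 1) (T.ts (nat_lit 3) (T.ts (nat_lit 2) (T.l1 (nat_lit 12300) (nat_lit 4) (nat_lit 20500)) (T.tp (T.sk (T.ls (nat_lit 3) (nat_lit 4))))) (T.tp (T.sk (T.ls (nat_lit 3) (nat_lit 4))))) (T.tp (T.sk (T.ls (nat_lit 3) (nat_lit 4))))) (T.tp (T.sk (T.ls (nat_lit 3) (nat_lit 4))))) (T.tp (T.sk (T.ls (nat_lit 3) (nat_lit 4))))) (T.tp (T.sk (T.ls (nat_lit 3) (nat_lit 4))))) (T.tp (T.sk (T.ls (nat_lit 3) (nat_lit 4))))) (T.tp (T.sk (T.ls (nat_lit 3) (nat_lit 4))))))))) (T.ts (nat_lit 1) (T.im (nat_lit 7) (nat_lit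 1)) (T.nw (T.ts (nat_lit 3) (T.tp (T.ts (nat_lit 2) (T.ts (nat_lit 1) (T.ts (nat_lit 3) (T.ts (nat_lit 1) (T.im (nat_lit 11) (nat_lit 2)) (T.sk (T.ls (nat_lit 3) (nat_lit 4)))) (T.sk (T.ls (nat_lit 3) (nat_lit 4)))) (T.sk (T.ls (nat_lit 3) (nat_lit 4)))) (T.sk (T.ls (nat_lit 3) (nat_lit 4))))) (T.ts (nat_lit 1) (T.ls (nat_lit 3) (nat_lit 4)) d323)))))
def d325 : T := (T.ts (nat_lit 1) (T.ts (nat_lit 2) (T.ls (nat_lit 3) (nat_lit 4)) (T.ts (nat_lit 1) (T.ls (nat_lit 3) (nat_lit 4)) (T.ts (nat_lit 3) (T.im (nat_lit 5) (nat_lit 3)) (T.ts (nat_lit 0) (T.im (nat_lit 7) (nat_lit 2)) (T.nw (T.ts (nat_lit 4) (T.ts (nat_lit 3) (T.ts (nat_lit 2) (T.ts (nat_lit 4) (T.ts (nat_lit 2) (T.ts (nat_lit 2) (T.ts (nat_lit 4) (T.ts (nat_lit 1) (T.l1 (nat_lit 12300) (nat_lit 3) (nat_lit 20500)) (T.tp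 (T.sk (T.ls (nat_lit 3) (nat_lit 4))))) (T.tp (T.sk (T.ls (nat_lit 3) (nat_lit 4))))) (T.tp (T.sk (T.ls (nat_lit 3) (nat_lit 4))))) (T.tp (T.sk (T.ls (nat_lit 3) (nat_lit 4))))) (T.tp (T.sk (T.ls (nat_lit 3) (nat_lit 4))))) (T.tp (T.sk (T.ls (nat_lit 3) (nat_lit 4))))) (T.tp (T.sk (T.ls (nat_lit 3) (nat_lit 4))))) (T.tp (T.sk (T.ls (nat_lit 3) (nat_lit 4)))))))))) (T.ts (nat_lit 0) (T.im (nat_lit 7) (nat_lit 1)) (T.nw (T.ts (nat_lit 4) (T.tp (T.ts (nat_lit 3) (T.ts (nat_lit 2) (T.ts (nat_lit 4) (T.ts (nat_lit 2) (T.im (nat_lit 11) (nat_lit 2)) (T.sk (T.ls (nat_lit 3) (nat_lit 4)))) (T.sk (T.ls (nat_lit 3) (nat_lit 4)))) (T.sk (T.ls (nat_lit 3) (nat_lit 4)))) (T.sk (T.ls (nat_lit 3) (nat_lit 4))))) (T.ts (nat_lit 3) (T.ls (nat_lit 3) (nat_lit 4)) (T.ts (nat_lit 2) (T.ls (nat_lit 3)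 (nat_lit 4)) (T.ts (nat_lit 0) (T.ts (nat_lit 4) (T.ts (nat_lit 3) (T.ts (nat_lit 2) (T.ts (nat_lit 4) (T.ts (nat_lit 2) (T.ts (nat_lit 2) (T.ts (nat_lit 4) (T.ts (nat_lit 1) (T.l1 (nat_lit 12300) (nat_lit 3) (nat_lit 20500)) (T.tp (T.sk (T.ls (nat_lit 3) (nat_lit 4))))) (T.tp (T.sk (T.ls (nat_lit 3) (nat_lit 4))))) (T.tp (T.sk (T.ls (nat_lit 3) (nat_lit 4))))) (T.tp (T.sk (T.ls (nat_lit 3) (nat_lit 4))))) (T.tp (T.sk (T.ls (nat_lit 3) (nat_lit 4))))) (T.tp (T.sk (T.ls (nat_lit 3) (nat_lit 4))))) (T.tp (T.sk (T.ls (nat_lit 3) (nat_lit 4))))) (T.tp (T.sk (T.ls (nat_lit 3) (nat_lit 4))))) (T.tp (T.ts (nat_lit 1) (T.im (nat_lit 7) (nat_lit 2)) T.ie)))))))))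
def d326 : T := (T.ts (nat_lit 3) (T.ts (nat_lit 3) (T.ls (nat_lit 3) (nat_lit 4)) (T.ts (nat_lit 2) (T.ts (nat_lit 3) (T.ls (nat_lit 3) (nat_lit 4)) (T.ts (nat_lit 1) (T.ts (nat_lit 3) (T.ts (nat_lit 1) (T.ts (nat_lit 1) (T.l1 (nat_lit 12300) (nat_lit 4) (nat_lit 20500)) (T.tp (T.sk (T.ls (nat_lit 3) (nat_lit 4))))) (T.tp (T.sk (T.ls (nat_lit 3) (nat_lit 4))))) (T.tp (T.sk (T.ls (nat_lit 3) (nat_lit 4))))) (T.tp (T.sk (T.ls (nat_lit 3) (nat_lit 4)))))) (T.ts (nat_lit 1) (T.ls (nat_lit 3) (nat_lit 4)) (T.ts (nat_lit 0) (T.im (nat_lit 7) (nat_lit 2)) (T.nw (T.ts (nat_lit 4) (T.ts (nat_lit 3) (T.ts (nat_lit 2) (T.ts (nat_lit 4) (T.ts (nat_lit 2) (T.ts (nat_lit 2) (T.ts (nat_lit 4) (T.ts (nat_lit 1) (T.l1 (nat_lit 12300) (nat_lit 3) (nat_lit 20500)) (T.tp (T.sk (T.ls (nat_lit 3) (nat_lit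 4))))) (T.tp (T.sk (T.ls (nat_lit 3) (nat_lit 4))))) (T.tp (T.sk (T.ls (nat_lit 3) (nat_lit 4))))) (T.tp (T.sk (T.ls (nat_lit 3) (nat_lit 4))))) (T.tp (T.sk (T.ls (nat_lit 3) (nat_lit 4))))) (T.tp (T.sk (T.ls (nat_lit 3) (nat_lit 4))))) (T.tp (T.sk (T.ls (nat_lit 3) (nat_lit 4))))) (T.tp (T.sk (T.ls (nat_lit 3) (nat_lit 4)))))))))) (T.ts (nat_lit 2) (T.ts (nat_lit 3) (T.ls (nat_lit 3) (nat_lit 4)) (T.ts (nat_lit 2) (T.ls (nat_lit 3) (nat_lit 4)) (T.ts (nat_lit 1) (T.ls (nat_lit 3) (nat_lit 4)) (T.ts (nat_lit 0) (T.im (nat_lit 7) (nat_lit 2)) (T.nw (T.ts (nat_lit 4) (T.ts (nat_lit 3) (T.ts (nat_lit 2) (T.ts (nat_lit 4) (T.ts (nat_lit 2) (T.ts (nat_lit 2) (T.ts (nat_lit 4) (T.ts (nat_lit 1) (T.l1 (nat_lit 12300) (nat_lit 3) (nat_lit 20500)) (T.sk (T.lf (nat_lit 16569) (nat_lit 3) (nat_lit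 20500) (nat_lit 4) (nat_lit 12300)))) (T.sk (T.lf (nat_lit 16569) (nat_lit 3) (nat_lit 20500) (nat_lit 4) (nat_lit 12300)))) (T.tp (T.sk (T.ls (nat_lit 3) (nat_lit 4))))) (T.tp (T.sk (T.ls (nat_lit 3) (nat_lit 4))))) (T.tp (T.sk (T.ls (nat_lit 3) (nat_lit 4))))) (T.tp (T.sk (T.ls (nat_lit 3) (nat_lit 4))))) (T.tp (T.sk (T.ls (nat_lit 3) (nat_lit 4))))) (T.tp (T.sk (T.ls (nat_lit 3) (nat_lit 4)))))))))) d325))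
def d327 : T := (T.ts (nat_lit 2) d322 (T.ts (nat_lit 1) (T.ts (nat_lit 2) (T.ts (nat_lit 2) (T.ls (nat_lit 3) (nat_lit 4)) (T.ts (nat_lit 0) (T.ls (nat_lit 3) (nat_lit 4)) (T.ts (nat_lit 1) (T.im (nat_lit 7) (nat_lit 2)) (T.nw (T.ts (nat_lit 3) (T.ts (nat_lit 2) (T.ts (nat_lit 1) (T.ts (nat_lit 3) (T.ts (nat_lit 1) (T.ts (nat_lit 1) (T.ts (nat_lit 3) (T.ts (nat_lit 2) (T.l1 (nat_lit 12300) (nat_lit 4) (nat_lit 20500)) (T.tp (T.sk (T.ls (nat_lit 3) (nat_lit 4))))) (T.tp (T.sk (T.ls (nat_lit 3) (nat_lit 4))))) (T.tp (T.sk (T.ls (nat_lit 3) (nat_lit 4))))) (T.tp (T.sk (T.ls (nat_lit 3) (nat_lit 4))))) (T.tp (T.sk (T.ls (nat_lit 3) (nat_lit 4))))) (T.tp (T.sk (T.ls (nat_lit 3) (nat_lit 4))))) (T.tp (T.sk (T.ls (nat_lit 3) (nat_lit 4))))) (T.tp (T.sk (T.ls (nat_lit 3) (nat_lit 4)))))))))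 d324) (T.ts (nat_lit 0) (T.im (nat_lit 3) (nat_lit 3)) (T.nw d326))))
def d328 : T := (T.ts (nat_lit 0) (T.ts (nat_lit 3) (T.ts (nat_lit 2) (T.ts (nat_lit 1) (T.ts (nat_lit 3) (T.ts (nat_lit 1) (T.ts (nat_lit 1) (T.ts (nat_lit 2) (T.ts (nat_lit 3) (T.l1 (nat_lit 12300) (nat_lit 4) (nat_lit 20500)) (T.tp (T.sk (T.ls (nat_lit 3) (nat_lit 4))))) (T.tp (T.sk (T.ls (nat_lit 3) (nat_lit 4))))) (T.tp (T.sk (T.ls (nat_lit 3) (nat_lit 4))))) (T.tp (T.sk (T.ls (nat_lit 3) (nat_lit 4))))) (T.tp (T.sk (T.ls (nat_lit 3) (nat_lit 4))))) (T.tp (T.sk (T.ls (nat_lit 3) (nat_lit 4))))) (T.tp (T.sk (T.ls (nat_lit 3) (nat_lit 4))))) (T.tp (T.sk (T.ls (nat_lit 3) (nat_lit 4))))) (T.ts (nat_lit 3) (T.im (nat_lit 7) (nat_lit 2)) (T.nw (T.ts (nat_lit 4) (T.ts (nat_lit 3) (T.ts (nat_lit 2) (T.ts (nat_lit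 4) (T.ts (nat_lit 2) (T.ts (nat_lit 2) (T.ts (nat_lit 3) (T.ts (nat_lit 4) (T.l1 (nat_lit 12300) (nat_lit 3) (nat_lit 20500)) (T.tp (T.sk (T.ls (nat_lit 3) (nat_lit 4))))) (T.tp (T.sk (T.ls (nat_lit 3) (nat_lit 4))))) (T.tp (T.sk (T.ls (nat_lit 3) (nat_lit 4))))) (T.tp (T.sk (T.ls (nat_lit 3) (nat_lit 4))))) (T.tp (T.sk (T.ls (nat_lit 3) (nat_lit 4))))) (T.tp (T.sk (T.ls (nat_lit 3) (nat_lit 4))))) (T.tp (T.sk (T.ls (nat_lit 3) (nat_lit 4))))) (T.tp (T.sk (T.ls (nat_lit 3) (nat_lit 4))))))))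
def d329 : T := (T.ts (nat_lit 1) (T.tp (T.ts (nat_lit 1) (T.ls (nat_lit 3) (nat_lit 4)) (T.ts (nat_lit 0) (T.ls (nat_lit 3) (nat_lit 4)) (T.ts (nat_lit 2) (T.im (nat_lit 7) (nat_lit 2)) (T.nw (T.ts (nat_lit 3) (T.ts (nat_lit 2) (T.im (nat_lit 7) (nat_lit 3)) (T.sk (T.ls (nat_lit 3) (nat_lit 4)))) (T.sk (T.ls (nat_lit 3) (nat_lit 4))))))))) (T.ts (nat_lit 0) (T.ts (nat_lit 2) (T.im (nat_lit 7) (nat_lit 2)) (T.ts (nat_lit 1) (T.im (nat_lit 5) (nat_lit 3)) (T.ts (nat_lit 0) (T.im (nat_lit 3) (nat_lit 4)) (T.nw (T.ts (nat_lit 3) (T.ts (nat_lit 2) (T.ts (nat_lit 1) (T.ts (nat_lit 3) (T.ts (nat_lit 1) (T.ts (nat_lit 1) (T.ts (nat_lit 2) (T.ts (nat_lit 3) (T.l1 (nat_lit 12300) (nat_lit 4) (nat_lit 20500)) (T.tp (T.sk (T.ls (nat_lit 3) (nat_lit 4))))) (T.tp (T.sk (T.ls (nat_lit 3) (nat_lit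 4))))) (T.tp (T.sk (T.ls (nat_lit 3) (nat_lit 4))))) (T.tp (T.sk (T.ls (nat_lit 3) (nat_lit 4))))) (T.tp (T.sk (T.ls (nat_lit 3) (nat_lit 4))))) (T.tp (T.sk (T.ls (nat_lit 3) (nat_lit 4))))) (T.tp (T.sk (T.ls (nat_lit 3) (nat_lit 4))))) (T.tp (T.sk (T.ls (nat_lit 3) (nat_lit 4))))))))) (T.ts (nat_lit 2) (T.im (nat_lit 7) (nat_lit 1)) (T.nw (T.ts (nat_lit 2) (T.ls (nat_lit 3) (nat_lit 4)) (T.ts (nat_lit 1) (T.ls (nat_lit 3) (nat_lit 4)) d328))))))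
def d330 : T := (T.ts (nat_lit 0) (T.ts (nat_lit 3) (T.ts (nat_lit 2) (T.ts (nat_lit 1) (T.ts (nat_lit 3) (T.ts (nat_lit 1) (T.ts (nat_lit 1) (T.ts (nat_lit 2) (T.ts (nat_lit 2) (T.l1 (nat_lit 12300) (nat_lit 4) (nat_lit 20500)) (T.tp (T.sk (T.ls (nat_lit 3) (nat_lit 4))))) (T.tp (T.sk (T.ls (nat_lit 3) (nat_lit 4))))) (T.tp (T.sk (T.ls (nat_lit 3) (nat_lit 4))))) (T.tp (T.sk (T.ls (nat_lit 3) (nat_lit 4))))) (T.tp (T.sk (T.ls (nat_lit 3) (nat_lit 4))))) (T.tp (T.sk (T.ls (nat_lit 3) (nat_lit 4))))) (T.tp (T.sk (T.ls (nat_lit 3) (nat_lit 4))))) (T.tp (T.sk (T.ls (nat_lit 3) (nat_lit 4))))) (T.ts (nat_lit 2) (T.im (nat_lit 7) (nat_lit 2)) (T.nw (T.ts (nat_lit 4) (T.ts (nat_lit 3) (T.ts (nat_lit 2) (T.ts (nat_lit 4) (T.ts (nat_lit 2) (T.ts (nat_lit 2) (T.ts (nat_lit 3) (T.ts (nat_lit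 3) (T.l1 (nat_lit 12300) (nat_lit 3) (nat_lit 20500)) (T.tp (T.sk (T.ls (nat_lit 3) (nat_lit 4))))) (T.tp (T.sk (T.ls (nat_lit 3) (nat_lit 4))))) (T.tp (T.sk (T.ls (nat_lit 3) (nat_lit 4))))) (T.tp (T.sk (T.ls (nat_lit 3) (nat_lit 4))))) (T.tp (T.sk (T.ls (nat_lit 3) (nat_lit 4))))) (T.tp (T.sk (T.ls (nat_lit 3) (nat_lit 4))))) (T.tp (T.sk (T.ls (nat_lit 3) (nat_lit 4))))) (T.tp (T.sk (T.ls (nat_lit 3) (nat_lit 4))))))))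
def d331 : T := (T.ts (nat_lit 0) (T.ts (nat_lit 2) (T.ls (nat_lit 3) (nat_lit 4)) (T.ts (nat_lit 0) (T.ls (nat_lit 3) (nat_lit 4)) (T.ts (nat_lit 1) (T.im (nat_lit 5) (nat_lit 3)) (T.nw (T.ts (nat_lit 3) (T.ts (nat_lit 2) (T.ts (nat_lit 1) (T.ts (nat_lit 3) (T.ts (nat_lit 1) (T.ts (nat_lit 1) (T.ts (nat_lit 2) (T.ts (nat_lit 2) (T.l1 (nat_lit 12300) (nat_lit 4) (nat_lit 20500)) (T.tp (T.sk (T.ls (nat_lit 3) (nat_lit 4))))) (T.tp (T.sk (T.ls (nat_lit 3) (nat_lit 4))))) (T.tp (T.sk (T.ls (nat_lit 3) (nat_lit 4))))) (T.tp (T.sk (T.ls (nat_lit 3) (nat_lit 4))))) (T.tp (T.sk (T.ls (nat_lit 3) (nat_lit 4))))) (T.tp (T.sk (T.ls (nat_lit 3) (nat_lit 4))))) (T.tp (T.sk (T.ls (nat_lit 3) (nat_lit 4))))) (T.tp (T.sk (T.ls (nat_lit 3) (nat_lit 4))))))))) (T.ts (nat_lit 1) (T.im (nat_lit 7) (nat_lit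 1)) (T.nw (T.ts (nat_lit 3) (T.tp (T.ts (nat_lit 2) (T.ts (nat_lit 1) (T.ts (nat_lit 3) (T.ts (nat_lit 1) (T.im (nat_lit 11) (nat_lit 2)) (T.sk (T.ls (nat_lit 3) (nat_lit 4)))) (T.sk (T.ls (nat_lit 3) (nat_lit 4)))) (T.sk (T.ls (nat_lit 3) (nat_lit 4)))) (T.sk (T.ls (nat_lit 3) (nat_lit 4))))) (T.ts (nat_lit 1) (T.ls (nat_lit 3) (nat_lit 4)) d330)))))
def d332 : T := (T.ts (nat_lit 1) (T.ts (nat_lit 3) (T.ls (nat_lit 3) (nat_lit 4)) (T.ts (nat_lit 1) (T.ls (nat_lit 3) (nat_lit 4)) (T.ts (nat_lit 2) (T.im (nat_lit 5) (nat_lit 3)) (T.ts (nat_lit 0) (T.im (nat_lit 7) (nat_lit 2)) (T.nw (T.ts (nat_lit 4) (T.ts (nat_lit 3) (T.ts (nat_lit 2) (T.ts (nat_lit 4) (T.ts (nat_lit 2) (T.ts (nat_lit 2) (T.ts (nat_lit 3) (T.ts (nat_lit 1) (T.l1 (nat_lit 12300) (nat_lit 3) (nat_lit 20500)) (T.tp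 (T.sk (T.ls (nat_lit 3) (nat_lit 4))))) (T.tp (T.sk (T.ls (nat_lit 3) (nat_lit 4))))) (T.tp (T.sk (T.ls (nat_lit 3) (nat_lit 4))))) (T.tp (T.sk (T.ls (nat_lit 3) (nat_lit 4))))) (T.tp (T.sk (T.ls (nat_lit 3) (nat_lit 4))))) (T.tp (T.sk (T.ls (nat_lit 3) (nat_lit 4))))) (T.tp (T.sk (T.ls (nat_lit 3) (nat_lit 4))))) (T.tp (T.sk (T.ls (nat_lit 3) (nat_lit 4)))))))))) (T.ts (nat_lit 0) (T.im (nat_lit 7) (nat_lit 1)) (T.nw (T.ts (nat_lit 4) (T.tp (T.ts (nat_lit 3) (T.ts (nat_lit 2) (T.ts (nat_lit 4) (T.ts (nat_lit 2) (T.im (nat_lit 11) (nat_lit 2)) (T.sk (T.ls (nat_lit 3) (nat_lit 4)))) (T.sk (T.ls (nat_lit 3) (nat_lit 4)))) (T.sk (T.ls (nat_lit 3) (nat_lit 4)))) (T.sk (T.ls (nat_lit 3) (nat_lit 4))))) (T.ts (nat_lit 3) (T.ls (nat_lit 3) (nat_lit 4)) (T.ts (nat_lit 2) (T.ls (nat_lit 3)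 (nat_lit 4)) (T.ts (nat_lit 0) (T.ts (nat_lit 4) (T.ts (nat_lit 3) (T.ts (nat_lit 2) (T.ts (nat_lit 4) (T.ts (nat_lit 2) (T.ts (nat_lit 2) (T.ts (nat_lit 3) (T.ts (nat_lit 1) (T.l1 (nat_lit 12300) (nat_lit 3) (nat_lit 20500)) (T.tp (T.sk (T.ls (nat_lit 3) (nat_lit 4))))) (T.tp (T.sk (T.ls (nat_lit 3) (nat_lit 4))))) (T.tp (T.sk (T.ls (nat_lit 3) (nat_lit 4))))) (T.tp (T.sk (T.ls (nat_lit 3) (nat_lit 4))))) (T.tp (T.sk (T.ls (nat_lit 3) (nat_lit 4))))) (T.tp (T.sk (T.ls (nat_lit 3) (nat_lit 4))))) (T.tp (T.sk (T.ls (nat_lit 3) (nat_lit 4))))) (T.tp (T.sk (T.ls (nat_lit 3) (nat_lit 4))))) (T.tp (T.ts (nat_lit 1) (T.im (nat_lit 7) (nat_lit 2)) T.ie)))))))))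
def d333 : T := (T.ts (nat_lit 3) (T.ts (nat_lit 3) (T.ls (nat_lit 3) (nat_lit 4)) (T.ts (nat_lit 2) (T.ts (nat_lit 3) (T.ls (nat_lit 3) (nat_lit 4)) (T.ts (nat_lit 1) (T.ts (nat_lit 3) (T.ts (nat_lit 1) (T.ts (nat_lit 1) (T.l1 (nat_lit 12300) (nat_lit 4) (nat_lit 20500)) (T.sk (T.lf (nat_lit 16569) (nat_lit 3) (nat_lit 12300) (nat_lit 4) (nat_lit 20500)))) (T.sk (T.lf (nat_lit 16569) (nat_lit 3) (nat_lit 12300) (nat_lit 4) (nat_lit 20500)))) (T.tp (T.sk (T.ls (nat_lit 3) (nat_lit 4))))) (T.tp (T.sk (T.ls (nat_lit 3) (nat_lit 4)))))) (T.ts (nat_lit 1) (T.ls (nat_lit 3) (nat_lit 4)) (T.ts (nat_lit 0) (T.im (nat_lit 7) (nat_lit 2)) (T.nw (T.ts (nat_lit 4) (T.ts (nat_lit 3) (T.ts (nat_lit 2) (T.ts (nat_lit 4) (T.ts (nat_lit 2) (T.ts (nat_lit 2) (T.ts (nat_lit 3) (T.ts (nat_lit 1) (T.l1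 (nat_lit 12300) (nat_lit 3) (nat_lit 20500)) (T.tp (T.sk (T.ls (nat_lit 3) (nat_lit 4))))) (T.tp (T.sk (T.ls (nat_lit 3) (nat_lit 4))))) (T.tp (T.sk (T.ls (nat_lit 3) (nat_lit 4))))) (T.tp (T.sk (T.ls (nat_lit 3) (nat_lit 4))))) (T.tp (T.sk (T.ls (nat_lit 3) (nat_lit 4))))) (T.tp (T.sk (T.ls (nat_lit 3) (nat_lit 4))))) (T.tp (T.sk (T.ls (nat_lit 3) (nat_lit 4))))) (T.tp (T.sk (T.ls (nat_lit 3) (nat_lit 4)))))))))) (T.ts (nat_lit 2) (T.ts (nat_lit 3) (T.ls (nat_lit 3) (nat_lit 4)) (T.ts (nat_lit 2) (T.ls (nat_lit 3) (nat_lit 4)) (T.ts (nat_lit 1) (T.ls (nat_lit 3) (nat_lit 4)) (T.ts (nat_lit 0) (T.im (nat_lit 7) (nat_lit 2)) (T.nw (T.ts (nat_lit 4) (T.ts (nat_lit 3) (T.ts (nat_lit 2) (T.ts (nat_lit 4) (T.ts (nat_lit 2) (T.ts (nat_lit 2) (T.ts (nat_lit 3) (T.ts (nat_lit 1) (T.l1 (nat_lit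 12300) (nat_lit 3) (nat_lit 20500)) (T.sk (T.lf (nat_lit 16569) (nat_lit 3) (nat_lit 20500) (nat_lit 4) (nat_lit 12300)))) (T.sk (T.lf (nat_lit 16569) (nat_lit 3) (nat_lit 20500) (nat_lit 4) (nat_lit 12300)))) (T.tp (T.sk (T.ls (nat_lit 3) (nat_lit 4))))) (T.tp (T.sk (T.ls (nat_lit 3) (nat_lit 4))))) (T.tp (T.sk (T.ls (nat_lit 3) (nat_lit 4))))) (T.tp (T.sk (T.ls (nat_lit 3) (nat_lit 4))))) (T.tp (T.sk (T.ls (nat_lit 3) (nat_lit 4))))) (T.tp (T.sk (T.ls (nat_lit 3) (nat_lit 4)))))))))) d332))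
def d334 : T := (T.ts (nat_lit 2) d329 (T.ts (nat_lit 1) (T.ts (nat_lit 2) (T.ts (nat_lit 2) (T.ls (nat_lit 3) (nat_lit 4)) (T.ts (nat_lit 0) (T.ls (nat_lit 3) (nat_lit 4)) (T.ts (nat_lit 1) (T.im (nat_lit 7) (nat_lit 2)) (T.nw (T.ts (nat_lit 3) (T.ts (nat_lit 2) (T.ts (nat_lit 1) (T.ts (nat_lit 3) (T.ts (nat_lit 1) (T.ts (nat_lit 1) (T.ts (nat_lit 2) (T.ts (nat_lit 2) (T.l1 (nat_lit 12300) (nat_lit 4) (nat_lit 20500)) (T.tp (T.sk (T.ls (nat_lit 3) (nat_lit 4))))) (T.tp (T.sk (T.ls (nat_lit 3) (nat_lit 4))))) (T.tp (T.sk (T.ls (nat_lit 3) (nat_lit 4))))) (T.tp (T.sk (T.ls (nat_lit 3) (nat_lit 4))))) (T.tp (T.sk (T.ls (nat_lit 3) (nat_lit 4))))) (T.tp (T.sk (T.ls (nat_lit 3) (nat_lit 4))))) (T.tp (T.sk (T.ls (nat_lit 3) (nat_lit 4))))) (T.tp (T.sk (T.ls (nat_lit 3) (nat_lit 4)))))))))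 d331) (T.ts (nat_lit 0) (T.im (nat_lit 5) (nat_lit 2)) (T.nw d333))))
def d335 : T := (T.ts (nat_lit 0) (T.ts (nat_lit 3) (T.ts (nat_lit 2) (T.ts (nat_lit 1) (T.ts (nat_lit 3) (T.ts (nat_lit 1) (T.ts (nat_lit 1) (T.ts (nat_lit 0) (T.ts (nat_lit 3) (T.l1 (nat_lit 12300) (nat_lit 4) (nat_lit 20500)) (T.tp (T.sk (T.ls (nat_lit 3) (nat_lit 4))))) (T.tp (T.sk (T.ls (nat_lit 3) (nat_lit 4))))) (T.tp (T.sk (T.ls (nat_lit 3) (nat_lit 4))))) (T.tp (T.sk (T.ls (nat_lit 3) (nat_lit 4))))) (T.tp (T.sk (T.ls (nat_lit 3) (nat_lit 4))))) (T.tp (T.sk (T.ls (nat_lit 3) (nat_lit 4))))) (T.tp (T.sk (T.ls (nat_lit 3) (nat_lit 4))))) (T.tp (T.sk (T.ls (nat_lit 3) (nat_lit 4))))) (T.ts (nat_lit 3) (T.im (nat_lit 7) (nat_lit 2)) (T.nw (T.ts (nat_lit 4) (T.ts (nat_lit 3) (T.ts (nat_lit 2) (T.ts (nat_lit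 4) (T.ts (nat_lit 2) (T.ts (nat_lit 2) (T.ts (nat_lit 1) (T.ts (nat_lit 4) (T.l1 (nat_lit 12300) (nat_lit 3) (nat_lit 20500)) (T.tp (T.sk (T.ls (nat_lit 3) (nat_lit 4))))) (T.tp (T.sk (T.ls (nat_lit 3) (nat_lit 4))))) (T.tp (T.sk (T.ls (nat_lit 3) (nat_lit 4))))) (T.tp (T.sk (T.ls (nat_lit 3) (nat_lit 4))))) (T.tp (T.sk (T.ls (nat_lit 3) (nat_lit 4))))) (T.tp (T.sk (T.ls (nat_lit 3) (nat_lit 4))))) (T.tp (T.sk (T.ls (nat_lit 3) (nat_lit 4))))) (T.tp (T.sk (T.ls (nat_lit 3) (nat_lit 4))))))))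
def d336 : T := (T.ts (nat_lit 1) (T.ts (nat_lit 4) (T.ts (nat_lit 3) (T.ts (nat_lit 2) (T.ts (nat_lit 4) (T.ts (nat_lit 2) (T.ts (nat_lit 2) (T.ts (nat_lit 1) (T.ts (nat_lit 4) (T.l1 (nat_lit 12300) (nat_lit 4) (nat_lit 20500)) (T.tp (T.sk (T.ls (nat_lit 3) (nat_lit 4))))) (T.tp (T.sk (T.ls (nat_lit 3) (nat_lit 4))))) (T.tp (T.sk (T.ls (nat_lit 3) (nat_lit 4))))) (T.tp (T.sk (T.ls (nat_lit 3) (nat_lit 4))))) (T.tp (T.sk (T.ls (nat_lit 3) (nat_lit 4))))) (T.tp (T.sk (T.ls (nat_lit 3) (nat_lit 4))))) (T.tp (T.sk (T.ls (nat_lit 3) (nat_lit 4))))) (T.tp (T.sk (T.ls (nat_lit 3) (nat_lit 4))))) (T.ts (nat_lit 0) (T.ts (nat_lit 4) (T.ts (nat_lit 3) (T.ts (nat_lit 2) (T.ts (nat_lit 4) (T.ts (nat_lit 2) (T.ts (nat_lit 2) (T.ts (nat_lit 1) (T.ts (nat_lit 4) (T.l1 (nat_lit 12300) (nat_lit 3)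 (nat_lit 20500)) (T.tp (T.sk (T.ls (nat_lit 3) (nat_lit 4))))) (T.tp (T.sk (T.ls (nat_lit 3) (nat_lit 4))))) (T.tp (T.sk (T.ls (nat_lit 3) (nat_lit 4))))) (T.tp (T.sk (T.ls (nat_lit 3) (nat_lit 4))))) (T.tp (T.sk (T.ls (nat_lit 3) (nat_lit 4))))) (T.tp (T.sk (T.ls (nat_lit 3) (nat_lit 4))))) (T.tp (T.sk (T.ls (nat_lit 3) (nat_lit 4))))) (T.tp (T.sk (T.ls (nat_lit 3) (nat_lit 4))))) (T.tp (T.ts (nat_lit 4) (T.im (nat_lit 7) (nat_lit 2)) T.ie))))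
def d337 : T := (T.ts (nat_lit 2) (T.tp (T.ts (nat_lit 2) (T.ls (nat_lit 3) (nat_lit 4)) (T.ts (nat_lit 1) (T.ts (nat_lit 3) (T.ts (nat_lit 1) (T.im (nat_lit 9) (nat_lit 2)) (T.sk (T.ls (nat_lit 3) (nat_lit 4)))) (T.sk (T.ls (nat_lit 3) (nat_lit 4)))) (T.ts (nat_lit 0) (T.ts (nat_lit 3) (T.ts (nat_lit 2) (T.im (nat_lit 7) (nat_lit 3)) (T.sk (T.ls (nat_lit 3) (nat_lit 4)))) (T.sk (T.ls (nat_lit 3) (nat_lit 4)))) (T.ts (nat_lit 3) (T.im (nat_lit 7) (nat_lit 2)) (T.nw (T.ts (nat_lit 4) (T.ts (nat_lit 3) (T.im (nat_lit 7) (nat_lit 3)) (T.sk (T.ls (nat_lit 3) (nat_lit 4)))) (T.sk (T.ls (nat_lit 3) (nat_lit 4)))))))))) (T.ts (nat_lit 1) (T.ts (nat_lit 2) (T.ls (nat_lit 3) (nat_lit 4)) (T.ts (nat_lit 3) (T.im (nat_lit 7) (nat_lit 2)) (T.ts (nat_lit 1) (T.im (nat_lit 3) (nat_lit 4)) (T.ts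 (nat_lit 0) (T.im (nat_lit 5) (nat_lit 3)) (T.nw (T.ts (nat_lit 4) (T.ts (nat_lit 3) (T.ts (nat_lit 2) (T.ts (nat_lit 4) (T.ts (nat_lit 2) (T.ts (nat_lit 2) (T.ts (nat_lit 1) (T.ts (nat_lit 4) (T.l1 (nat_lit 12300) (nat_lit 3) (nat_lit 20500)) (T.tp (T.sk (T.ls (nat_lit 3) (nat_lit 4))))) (T.tp (T.sk (T.ls (nat_lit 3) (nat_lit 4))))) (T.tp (T.sk (T.ls (nat_lit 3) (nat_lit 4))))) (T.tp (T.sk (T.ls (nat_lit 3) (nat_lit 4))))) (T.tp (T.sk (T.ls (nat_lit 3) (nat_lit 4))))) (T.tp (T.sk (T.ls (nat_lit 3) (nat_lit 4))))) (T.tp (T.sk (T.ls (nat_lit 3) (nat_lit 4))))) (T.tp (T.sk (T.ls (nat_lit 3) (nat_lit 4)))))))))) (T.ts (nat_lit 0) (T.ts (nat_lit 2) (T.ls (nat_lit 3) (nat_lit 4)) (T.ts (nat_lit 1) (T.ls (nat_lit 3) (nat_lit 4)) d335)) (T.ts (nat_lit 3) (T.im (nat_lit 7) (nat_lit 1)) (T.nw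 (T.ts (nat_lit 3) (T.ls (nat_lit 3) (nat_lit 4)) (T.ts (nat_lit 2) (T.ls (nat_lit 3) (nat_lit 4)) d336)))))))
def d338 : T := (T.ts (nat_lit 0) (T.ts (nat_lit 3) (T.ts (nat_lit 2) (T.ts (nat_lit 1) (T.ts (nat_lit 3) (T.ts (nat_lit 1) (T.ts (nat_lit 1) (T.ts (nat_lit 0) (T.ts (nat_lit 2) (T.l1 (nat_lit 12300) (nat_lit 4) (nat_lit 20500)) (T.tp (T.sk (T.ls (nat_lit 3) (nat_lit 4))))) (T.tp (T.sk (T.ls (nat_lit 3) (nat_lit 4))))) (T.tp (T.sk (T.ls (nat_lit 3) (nat_lit 4))))) (T.tp (T.sk (T.ls (nat_lit 3) (nat_lit 4))))) (T.tp (T.sk (T.ls (nat_lit 3) (nat_lit 4))))) (T.tp (T.sk (T.ls (nat_lit 3) (nat_lit 4))))) (T.tp (T.sk (T.ls (nat_lit 3) (nat_lit 4))))) (T.tp (T.sk (T.ls (nat_lit 3) (nat_lit 4))))) (T.ts (nat_lit 2) (T.im (nat_lit 7) (nat_lit 2)) (T.nw (T.ts (nat_lit 4) (T.ts (nat_lit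 3) (T.ts (nat_lit 2) (T.ts (nat_lit 4) (T.ts (nat_lit 2) (T.ts (nat_lit 2) (T.ts (nat_lit 1) (T.ts (nat_lit 3) (T.l1 (nat_lit 12300) (nat_lit 3) (nat_lit 20500)) (T.tp (T.sk (T.ls (nat_lit 3) (nat_lit 4))))) (T.tp (T.sk (T.ls (nat_lit 3) (nat_lit 4))))) (T.tp (T.sk (T.ls (nat_lit 3) (nat_lit 4))))) (T.tp (T.sk (T.ls (nat_lit 3) (nat_lit 4))))) (T.tp (T.sk (T.ls (nat_lit 3) (nat_lit 4))))) (T.tp (T.sk (T.ls (nat_lit 3) (nat_lit 4))))) (T.tp (T.sk (T.ls (nat_lit 3) (nat_lit 4))))) (T.tp (T.sk (T.ls (nat_lit 3) (nat_lit 4))))))))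
def d339 : T := (T.ts (nat_lit 0) (T.ts (nat_lit 3) (T.ts (nat_lit 2) (T.ts (nat_lit 1) (T.ts (nat_lit 3) (T.ts (nat_lit 1) (T.ts (nat_lit 1) (T.ts (nat_lit 0) (T.ts (nat_lit 2) (T.l1 (nat_lit 12300) (nat_lit 4) (nat_lit 20500)) (T.tp (T.sk (T.ls (nat_lit 3) (nat_lit 4))))) (T.tp (T.sk (T.ls (nat_lit 3) (nat_lit 4))))) (T.tp (T.sk (T.ls (nat_lit 3) (nat_lit 4))))) (T.tp (T.sk (T.ls (nat_lit 3) (nat_lit 4))))) (T.tp (T.sk (T.ls (nat_lit 3) (nat_lit 4))))) (T.tp (T.sk (T.ls (nat_lit 3) (nat_lit 4))))) (T.tp (T.sk (T.ls (nat_lit 3) (nat_lit 4))))) (T.tp (T.sk (T.ls (nat_lit 3) (nat_lit 4))))) (T.ts (nat_lit 2) (T.im (nat_lit 7) (nat_lit 2)) (T.nw (T.ts (nat_lit 4) (T.ts (nat_lit 3) (T.ts (nat_lit 2) (T.ts (nat_lit 4) (T.ts (nat_lit 2) (T.ts (nat_lit 2) (T.ts (nat_lit 1) (T.ts (nat_lit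 3) (T.l1 (nat_lit 12300) (nat_lit 3) (nat_lit 20500)) (T.tp (T.sk (T.ls (nat_lit 3) (nat_lit 4))))) (T.tp (T.sk (T.ls (nat_lit 3) (nat_lit 4))))) (T.tp (T.sk (T.ls (nat_lit 3) (nat_lit 4))))) (T.tp (T.sk (T.ls (nat_lit 3) (nat_lit 4))))) (T.tp (T.sk (T.ls (nat_lit 3) (nat_lit 4))))) (T.tp (T.sk (T.ls (nat_lit 3) (nat_lit 4))))) (T.tp (T.sk (T.ls (nat_lit 3) (nat_lit 4))))) (T.tp (T.sk (T.ls (nat_lit 3) (nat_lit 4))))))))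
def d340 : T := (T.ts (nat_lit 1) (T.ts (nat_lit 4) (T.ts (nat_lit 3) (T.ts (nat_lit 2) (T.ts (nat_lit 4) (T.ts (nat_lit 2) (T.ts (nat_lit 2) (T.ts (nat_lit 1) (T.ts (nat_lit 3) (T.l1 (nat_lit 12300) (nat_lit 4) (nat_lit 20500)) (T.tp (T.sk (T.ls (nat_lit 3) (nat_lit 4))))) (T.tp (T.sk (T.ls (nat_lit 3) (nat_lit 4))))) (T.tp (T.sk (T.ls (nat_lit 3) (nat_lit 4))))) (T.tp (T.sk (T.ls (nat_lit 3) (nat_lit 4))))) (T.tp (T.sk (T.ls (nat_lit 3) (nat_lit 4))))) (T.tp (T.sk (T.ls (nat_lit 3) (nat_lit 4))))) (T.tp (T.sk (T.ls (nat_lit 3) (nat_lit 4))))) (T.tp (T.sk (T.ls (nat_lit 3) (nat_lit 4))))) (T.ts (nat_lit 0) (T.ts (nat_lit 4) (T.ts (nat_lit 3) (T.ts (nat_lit 2) (T.ts (nat_lit 4) (T.ts (nat_lit 2) (T.ts (nat_lit 2) (T.ts (nat_lit 1) (T.ts (nat_lit 3) (T.l1 (nat_lit 12300) (nat_lit 3)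 (nat_lit 20500)) (T.tp (T.sk (T.ls (nat_lit 3) (nat_lit 4))))) (T.tp (T.sk (T.ls (nat_lit 3) (nat_lit 4))))) (T.tp (T.sk (T.ls (nat_lit 3) (nat_lit 4))))) (T.tp (T.sk (T.ls (nat_lit 3) (nat_lit 4))))) (T.tp (T.sk (T.ls (nat_lit 3) (nat_lit 4))))) (T.tp (T.sk (T.ls (nat_lit 3) (nat_lit 4))))) (T.tp (T.sk (T.ls (nat_lit 3) (nat_lit 4))))) (T.tp (T.sk (T.ls (nat_lit 3) (nat_lit 4))))) (T.tp (T.ts (nat_lit 3) (T.im (nat_lit 7) (nat_lit 2)) T.ie))))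
def d341 : T := (T.ts (nat_lit 1) (T.ts (nat_lit 3) (T.ls (nat_lit 3) (nat_lit 4)) (T.ts (nat_lit 1) (T.ls (nat_lit 3) (nat_lit 4)) (T.ts (nat_lit 2) (T.im (nat_lit 7) (nat_lit 2)) (T.ts (nat_lit 0) (T.im (nat_lit 5) (nat_lit 3)) (T.nw (T.ts (nat_lit 4) (T.ts (nat_lit 3) (T.ts (nat_lit 2) (T.ts (nat_lit 4) (T.ts (nat_lit 2) (T.ts (nat_lit 2) (T.ts (nat_lit 1) (T.ts (nat_lit 3) (T.l1 (nat_lit 12300) (nat_lit 3) (nat_lit 20500)) (T.tp (T.sk (T.ls (nat_lit 3) (nat_lit 4))))) (T.tp (T.sk (T.ls (nat_lit 3) (nat_lit 4))))) (T.tp (T.sk (T.ls (nat_lit 3) (nat_lit 4))))) (T.tp (T.sk (T.ls (nat_lit 3) (nat_lit 4))))) (T.tp (T.sk (T.ls (nat_lit 3) (nat_lit 4))))) (T.tp (T.sk (T.ls (nat_lit 3) (nat_lit 4))))) (T.tp (T.sk (T.ls (nat_lit 3) (nat_lit 4))))) (T.tp (T.sk (T.ls (nat_lit 3) (nat_lit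 4)))))))))) (T.ts (nat_lit 0) (T.ts (nat_lit 3) (T.tp (T.ts (nat_lit 2) (T.ts (nat_lit 1) (T.ts (nat_lit 3) (T.ts (nat_lit 1) (T.im (nat_lit 11) (nat_lit 2)) (T.sk (T.ls (nat_lit 3) (nat_lit 4)))) (T.sk (T.ls (nat_lit 3) (nat_lit 4)))) (T.sk (T.ls (nat_lit 3) (nat_lit 4)))) (T.sk (T.ls (nat_lit 3) (nat_lit 4))))) (T.ts (nat_lit 1) (T.ls (nat_lit 3) (nat_lit 4)) d339)) (T.ts (nat_lit 2) (T.im (nat_lit 7) (nat_lit 1)) (T.nw (T.ts (nat_lit 4) (T.tp (T.ts (nat_lit 3) (T.ts (nat_lit 2) (T.ts (nat_lit 4) (T.ts (nat_lit 2) (T.im (nat_lit 11) (nat_lit 2)) (T.sk (T.ls (nat_lit 3) (nat_lit 4)))) (T.sk (T.ls (nat_lit 3) (nat_lit 4)))) (T.sk (T.ls (nat_lit 3) (nat_lit 4)))) (T.sk (T.ls (nat_lit 3) (nat_lit 4))))) (T.ts (nat_lit 2) (T.ls (nat_lit 3) (nat_lit 4)) d340))))))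
def d342 : T := (T.ts (nat_lit 1) (T.ts (nat_lit 3) (T.ls (nat_lit 3) (nat_lit 4)) (T.ts (nat_lit 2) (T.ls (nat_lit 3) (nat_lit 4)) (T.ts (nat_lit 1) (T.ls (nat_lit 3) (nat_lit 4)) (T.ts (nat_lit 0) (T.im (nat_lit 5) (nat_lit 3)) (T.nw (T.ts (nat_lit 4) (T.ts (nat_lit 3) (T.ts (nat_lit 2) (T.ts (nat_lit 4) (T.ts (nat_lit 2) (T.ts (nat_lit 2) (T.ts (nat_lit 1) (T.ts (nat_lit 1) (T.l1 (nat_lit 12300) (nat_lit 3) (nat_lit 20500)) (T.tp (T.sk (T.ls (nat_lit 3) (nat_lit 4))))) (T.tp (T.sk (T.ls (nat_lit 3) (nat_lit 4))))) (T.tp (T.sk (T.ls (nat_lit 3) (nat_lit 4))))) (T.tp (T.sk (T.ls (nat_lit 3) (nat_lit 4))))) (T.tp (T.sk (T.ls (nat_lit 3) (nat_lit 4))))) (T.tp (T.sk (T.ls (nat_lit 3) (nat_lit 4))))) (T.tp (T.sk (T.ls (nat_lit 3) (nat_lit 4))))) (T.tp (T.sk (T.ls (nat_lit 3) (nat_lit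 4)))))))))) (T.ts (nat_lit 0) (T.im (nat_lit 7) (nat_lit 1)) (T.nw (T.ts (nat_lit 4) (T.tp (T.ts (nat_lit 3) (T.ts (nat_lit 2) (T.ts (nat_lit 4) (T.ts (nat_lit 2) (T.im (nat_lit 11) (nat_lit 2)) (T.sk (T.ls (nat_lit 3) (nat_lit 4)))) (T.sk (T.ls (nat_lit 3) (nat_lit 4)))) (T.sk (T.ls (nat_lit 3) (nat_lit 4)))) (T.sk (T.ls (nat_lit 3) (nat_lit 4))))) (T.ts (nat_lit 3) (T.ls (nat_lit 3) (nat_lit 4)) (T.ts (nat_lit 2) (T.ls (nat_lit 3) (nat_lit 4)) (T.ts (nat_lit 0) (T.ts (nat_lit 4) (T.ts (nat_lit 3) (T.ts (nat_lit 2) (T.ts (nat_lit 4) (T.ts (nat_lit 2) (T.ts (nat_lit 2) (T.ts (nat_lit 1) (T.ts (nat_lit 1) (T.l1 (nat_lit 12300) (nat_lit 3) (nat_lit 20500)) (T.tp (T.sk (T.ls (nat_lit 3) (nat_lit 4))))) (T.tp (T.sk (T.ls (nat_lit 3) (nat_lit 4))))) (T.tp (T.sk (T.ls (nat_lit 3) (nat_lit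 4))))) (T.tp (T.sk (T.ls (nat_lit 3) (nat_lit 4))))) (T.tp (T.sk (T.ls (nat_lit 3) (nat_lit 4))))) (T.tp (T.sk (T.ls (nat_lit 3) (nat_lit 4))))) (T.tp (T.sk (T.ls (nat_lit 3) (nat_lit 4))))) (T.tp (T.sk (T.ls (nat_lit 3) (nat_lit 4))))) (T.tp (T.ts (nat_lit 1) (T.im (nat_lit 7) (nat_lit 2)) T.ie)))))))))
def d343 : T := (T.ts (nat_lit 3) (T.ts (nat_lit 3) (T.ls (nat_lit 3) (nat_lit 4)) (T.ts (nat_lit 2) (T.ts (nat_lit 3) (T.ls (nat_lit 3) (nat_lit 4)) (T.ts (nat_lit 1) (T.ts (nat_lit 3) (T.ts (nat_lit 1) (T.ts (nat_lit 1) (T.l1 (nat_lit 12300) (nat_lit 4) (nat_lit 20500)) (T.tp (T.sk (T.ls (nat_lit 3) (nat_lit 4))))) (T.tp (T.sk (T.ls (nat_lit 3) (nat_lit 4))))) (T.tp (T.sk (T.ls (nat_lit 3) (nat_lit 4))))) (T.tp (T.sk (T.ls (nat_lit 3) (nat_lit 4)))))) (T.ts (nat_lit 1) (T.ls (nat_lit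 3) (nat_lit 4)) (T.ts (nat_lit 0) (T.im (nat_lit 7) (nat_lit 2)) (T.nw (T.ts (nat_lit 4) (T.ts (nat_lit 3) (T.ts (nat_lit 2) (T.ts (nat_lit 4) (T.ts (nat_lit 2) (T.ts (nat_lit 2) (T.ts (nat_lit 1) (T.ts (nat_lit 1) (T.l1 (nat_lit 12300) (nat_lit 3) (nat_lit 20500)) (T.tp (T.sk (T.ls (nat_lit 3) (nat_lit 4))))) (T.tp (T.sk (T.ls (nat_lit 3) (nat_lit 4))))) (T.tp (T.sk (T.ls (nat_lit 3) (nat_lit 4))))) (T.tp (T.sk (T.ls (nat_lit 3) (nat_lit 4))))) (T.tp (T.sk (T.ls (nat_lit 3) (nat_lit 4))))) (T.tp (T.sk (T.ls (nat_lit 3) (nat_lit 4))))) (T.tp (T.sk (T.ls (nat_lit 3) (nat_lit 4))))) (T.tp (T.sk (T.ls (nat_lit 3) (nat_lit 4)))))))))) (T.ts (nat_lit 2) (T.ts (nat_lit 3) (T.ls (nat_lit 3) (nat_lit 4)) (T.ts (nat_lit 2) (T.ls (nat_lit 3) (nat_lit 4)) (T.ts (nat_lit 1) (T.ls (nat_lit 3)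 (nat_lit 4)) (T.ts (nat_lit 0) (T.im (nat_lit 7) (nat_lit 2)) (T.nw (T.ts (nat_lit 4) (T.ts (nat_lit 3) (T.ts (nat_lit 2) (T.ts (nat_lit 4) (T.ts (nat_lit 2) (T.ts (nat_lit 2) (T.ts (nat_lit 1) (T.ts (nat_lit 1) (T.l1 (nat_lit 12300) (nat_lit 3) (nat_lit 20500)) (T.sk (T.lf (nat_lit 16569) (nat_lit 3) (nat_lit 20500) (nat_lit 4) (nat_lit 12300)))) (T.sk (T.lf (nat_lit 16569) (nat_lit 3) (nat_lit 20500) (nat_lit 4) (nat_lit 12300)))) (T.tp (T.sk (T.ls (nat_lit 3) (nat_lit 4))))) (T.tp (T.sk (T.ls (nat_lit 3) (nat_lit 4))))) (T.tp (T.sk (T.ls (nat_lit 3) (nat_lit 4))))) (T.tp (T.sk (T.ls (nat_lit 3) (nat_lit 4))))) (T.tp (T.sk (T.ls (nat_lit 3) (nat_lit 4))))) (T.tp (T.sk (T.ls (nat_lit 3) (nat_lit 4)))))))))) d342))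
def d344 : T := (T.ts (nat_lit 4) (T.ls (nat_lit 3) (nat_lit 4)) (T.ts (nat_lit 3) (T.ts (nat_lit 4) (T.ls (nat_lit 3) (nat_lit 4)) (T.ts (nat_lit 2) (T.ts (nat_lit 4) (T.ts (nat_lit 2) (T.ts (nat_lit 2) (T.l1 (nat_lit 12300) (nat_lit 3) (nat_lit 20500)) (T.tp (T.sk (T.ls (nat_lit 3) (nat_lit 4))))) (T.tp (T.sk (T.ls (nat_lit 3) (nat_lit 4))))) (T.tp (T.sk (T.ls (nat_lit 3) (nat_lit 4))))) (T.tp (T.sk (T.ls (nat_lit 3) (nat_lit 4)))))) (T.ts (nat_lit 2) (T.ls (nat_lit 3) (nat_lit 4)) (T.ts (nat_lit 1) (T.ts (nat_lit 4) (T.ts (nat_lit 3) (T.ts (nat_lit 2) (T.ts (nat_lit 4) (T.ts (nat_lit 2) (T.ts (nat_lit 2) (T.ts (nat_lit 1) (T.ts (nat_lit 0) (T.l1 (nat_lit 12300) (nat_lit 4) (nat_lit 20500)) (T.tp (T.sk (T.ls (nat_lit 3) (nat_lit 4))))) (T.tp (T.sk (T.ls (nat_lit 3) (nat_lit 4)))))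 (T.tp (T.sk (T.ls (nat_lit 3) (nat_lit 4))))) (T.tp (T.sk (T.ls (nat_lit 3) (nat_lit 4))))) (T.tp (T.sk (T.ls (nat_lit 3) (nat_lit 4))))) (T.tp (T.sk (T.ls (nat_lit 3) (nat_lit 4))))) (T.tp (T.sk (T.ls (nat_lit 3) (nat_lit 4))))) (T.tp (T.sk (T.ls (nat_lit 3) (nat_lit 4))))) (T.tp (T.ts (nat_lit 0) (T.im (nat_lit 7) (nat_lit 2)) T.ie))))))
def d345 : T := (T.ts (nat_lit 1) (T.ts (nat_lit 4) (T.tp (T.ts (nat_lit 3) (T.ts (nat_lit 2) (T.ts (nat_lit 4) (T.ts (nat_lit 2) (T.im (nat_lit 11) (nat_lit 2)) (T.sk (T.ls (nat_lit 3) (nat_lit 4)))) (T.sk (T.ls (nat_lit 3) (nat_lit 4)))) (T.sk (T.ls (nat_lit 3) (nat_lit 4)))) (T.sk (T.ls (nat_lit 3) (nat_lit 4))))) (T.ts (nat_lit 3) (T.ls (nat_lit 3) (nat_lit 4)) (T.ts (nat_lit 2) (T.ls (nat_lit 3) (nat_lit 4)) (T.ts (nat_lit 1) (T.ts (nat_lit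 4) (T.ts (nat_lit 3) (T.ts (nat_lit 2) (T.ts (nat_lit 4) (T.ts (nat_lit 2) (T.ts (nat_lit 2) (T.ts (nat_lit 1) (T.ts (nat_lit 0) (T.l1 (nat_lit 12300) (nat_lit 4) (nat_lit 20500)) (T.tp (T.sk (T.ls (nat_lit 3) (nat_lit 4))))) (T.tp (T.sk (T.ls (nat_lit 3) (nat_lit 4))))) (T.tp (T.sk (T.ls (nat_lit 3) (nat_lit 4))))) (T.tp (T.sk (T.ls (nat_lit 3) (nat_lit 4))))) (T.tp (T.sk (T.ls (nat_lit 3) (nat_lit 4))))) (T.tp (T.sk (T.ls (nat_lit 3) (nat_lit 4))))) (T.tp (T.sk (T.ls (nat_lit 3) (nat_lit 4))))) (T.tp (T.sk (T.ls (nat_lit 3) (nat_lit 4))))) (T.tp (T.ts (nat_lit 0) (T.im (nat_lit 7) (nat_lit 2)) T.ie)))))) (T.tp (T.ts (nat_lit 0) (T.im (nat_lit 7) (nat_lit 1)) T.ie)))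
def d346 : T := (T.ts (nat_lit 0) d343 (T.ts (nat_lit 1) (T.im (nat_lit 5) (nat_lit 2)) (T.nw (T.ts (nat_lit 4) d344 (T.ts (nat_lit 3) (T.ts (nat_lit 4) (T.ls (nat_lit 3) (nat_lit 4)) (T.ts (nat_lit 3) (T.ls (nat_lit 3) (nat_lit 4)) (T.ts (nat_lit 2) (T.ls (nat_lit 3) (nat_lit 4)) (T.ts (nat_lit 1) (T.ts (nat_lit 4) (T.ts (nat_lit 3) (T.ts (nat_lit 2) (T.ts (nat_lit 4) (T.ts (nat_lit 2) (T.ts (nat_lit 2) (T.ts (nat_lit 1) (T.ts (nat_lit 0) (T.l1 (nat_lit 12300) (nat_lit 4) (nat_lit 20500)) (T.sk (T.lf (nat_lit 16569) (nat_lit 3) (nat_lit 12300) (nat_lit 4) (nat_lit 20500)))) (T.sk (T.lf (nat_lit 16569) (nat_lit 3) (nat_lit 12300) (nat_lit 4) (nat_lit 20500)))) (T.sk (T.lf (nat_lit 19131) (nat_lit 3) (nat_lit 16569) (nat_lit 4) (nat_lit 20500)))) (T.sk (T.lf (nat_lit 19131) (nat_lit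 3) (nat_lit 16569) (nat_lit 4) (nat_lit 20500)))) (T.tp (T.sk (T.ls (nat_lit 3) (nat_lit 4))))) (T.tp (T.sk (T.ls (nat_lit 3) (nat_lit 4))))) (T.tp (T.sk (T.ls (nat_lit 3) (nat_lit 4))))) (T.tp (T.sk (T.ls (nat_lit 3) (nat_lit 4))))) (T.tp (T.ts (nat_lit 0) (T.im (nat_lit 7) (nat_lit 2)) T.ie)))))) (T.ts (nat_lit 2) (T.tp (T.ts (nat_lit 4) (T.ls (nat_lit 3) (nat_lit 4)) (T.ts (nat_lit 3) (T.ls (nat_lit 3) (nat_lit 4)) (T.ts (nat_lit 2) (T.ls (nat_lit 3) (nat_lit 4)) (T.ts (nat_lit 1) (T.im (nat_lit 5) (nat_lit 3)) (T.ts (nat_lit 0) (T.im (nat_lit 7) (nat_lit 2)) T.ie)))))) d345))))))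
def d347 : T := (T.ts (nat_lit 0) (T.im (nat_lit 5) (nat_lit 1)) (T.nw (T.ts (nat_lit 3) d337 (T.ts (nat_lit 2) (T.ts (nat_lit 3) (T.ts (nat_lit 3) (T.ls (nat_lit 3) (nat_lit 4)) (T.ts (nat_lit 1) (T.ls (nat_lit 3) (nat_lit 4)) d338)) d341) d346))))
def d348 : T := (T.im (nat_lit 3) (nat_lit 2))
def d349 : T := (T.ts (nat_lit 0) (T.ts (nat_lit 3) (T.ts (nat_lit 2) (T.ts (nat_lit 1) (T.ts (nat_lit 3) (T.ts (nat_lit 1) (T.ts (nat_lit 0) (T.ts (nat_lit 3) (T.ts (nat_lit 3) (T.l1 (nat_lit 12300) (nat_lit 4) (nat_lit 20500)) (T.tp (T.sk (T.ls (nat_lit 3) (nat_lit 4))))) (T.tp (T.sk (T.ls (nat_lit 3) (nat_lit 4))))) (T.tp (T.sk (T.ls (nat_lit 3) (nat_lit 4))))) (T.tp (T.sk (T.ls (nat_lit 3) (nat_lit 4))))) (T.tp (T.sk (T.ls (nat_lit 3) (nat_lit 4))))) (T.tp (T.sk (T.ls (nat_lit 3) (nat_lit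 4))))) (T.tp (T.sk (T.ls (nat_lit 3) (nat_lit 4))))) (T.tp (T.sk (T.ls (nat_lit 3) (nat_lit 4))))) (T.ts (nat_lit 3) (T.im (nat_lit 5) (nat_lit 3)) (T.nw (T.ts (nat_lit 4) (T.ts (nat_lit 3) (T.ts (nat_lit 2) (T.ts (nat_lit 4) (T.ts (nat_lit 2) (T.ts (nat_lit 1) (T.ts (nat_lit 4) (T.ts (nat_lit 4) (T.l1 (nat_lit 12300) (nat_lit 3) (nat_lit 20500)) (T.tp (T.sk (T.ls (nat_lit 3) (nat_lit 4))))) (T.tp (T.sk (T.ls (nat_lit 3) (nat_lit 4))))) (T.tp (T.sk (T.ls (nat_lit 3) (nat_lit 4))))) (T.tp (T.sk (T.ls (nat_lit 3) (nat_lit 4))))) (T.tp (T.sk (T.ls (nat_lit 3) (nat_lit 4))))) (T.tp (T.sk (T.ls (nat_lit 3) (nat_lit 4))))) (T.tp (T.sk (T.ls (nat_lit 3) (nat_lit 4))))) (T.tp (T.sk (T.ls (nat_lit 3) (nat_lit 4))))))))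
def d350 : T := (T.ts (nat_lit 1) (T.ts (nat_lit 4) (T.ts (nat_lit 3) (T.ts (nat_lit 2) (T.ts (nat_lit 4) (T.ts (nat_lit 2) (T.ts (nat_lit 1) (T.ts (nat_lit 4) (T.ts (nat_lit 4) (T.l1 (nat_lit 12300) (nat_lit 4) (nat_lit 20500)) (T.tp (T.sk (T.ls (nat_lit 3) (nat_lit 4))))) (T.tp (T.sk (T.ls (nat_lit 3) (nat_lit 4))))) (T.tp (T.sk (T.ls (nat_lit 3) (nat_lit 4))))) (T.tp (T.sk (T.ls (nat_lit 3) (nat_lit 4))))) (T.tp (T.sk (T.ls (nat_lit 3) (nat_lit 4))))) (T.tp (T.sk (T.ls (nat_lit 3) (nat_lit 4))))) (T.tp (T.sk (T.ls (nat_lit 3) (nat_lit 4))))) (T.tp (T.sk (T.ls (nat_lit 3) (nat_lit 4))))) (T.ts (nat_lit 0) (T.ts (nat_lit 4) (T.ts (nat_lit 3) (T.ts (nat_lit 2) (T.ts (nat_lit 4) (T.ts (nat_lit 2) (T.ts (nat_lit 1) (T.ts (nat_lit 4) (T.ts (nat_lit 4) (T.l1 (nat_lit 12300) (nat_lit 3)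 (nat_lit 20500)) (T.tp (T.sk (T.ls (nat_lit 3) (nat_lit 4))))) (T.tp (T.sk (T.ls (nat_lit 3) (nat_lit 4))))) (T.tp (T.sk (T.ls (nat_lit 3) (nat_lit 4))))) (T.tp (T.sk (T.ls (nat_lit 3) (nat_lit 4))))) (T.tp (T.sk (T.ls (nat_lit 3) (nat_lit 4))))) (T.tp (T.sk (T.ls (nat_lit 3) (nat_lit 4))))) (T.tp (T.sk (T.ls (nat_lit 3) (nat_lit 4))))) (T.tp (T.sk (T.ls (nat_lit 3) (nat_lit 4))))) (T.tp (T.ts (nat_lit 4) (T.im (nat_lit 7) (nat_lit 2)) T.ie))))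
def d351 : T := (T.ts (nat_lit 2) (T.tp (T.ts (nat_lit 2) (T.ls (nat_lit 3) (nat_lit 4)) (T.ts (nat_lit 1) (T.ls (nat_lit 3) (nat_lit 4)) (T.ts (nat_lit 0) (T.ts (nat_lit 3) (T.ts (nat_lit 2) (T.im (nat_lit 7) (nat_lit 3)) (T.sk (T.ls (nat_lit 3) (nat_lit 4)))) (T.sk (T.ls (nat_lit 3) (nat_lit 4)))) (T.ts (nat_lit 3) (T.im (nat_lit 7) (nat_lit 2)) (T.nw (T.ts (nat_lit 4) (T.ts (nat_lit 3) (T.im (nat_lit 7) (nat_lit 3)) (T.sk (T.ls (nat_lit 3) (nat_lit 4)))) (T.sk (T.ls (nat_lit 3) (nat_lit 4)))))))))) (T.ts (nat_lit 1) (T.ts (nat_lit 2) (T.ls (nat_lit 3) (nat_lit 4)) (T.ts (nat_lit 1) (T.ls (nat_lit 3) (nat_lit 4)) (T.ts (nat_lit 3) (T.im (nat_lit 7) (nat_lit 2)) (T.ts (nat_lit 0) (T.im (nat_lit 3) (nat_lit 4)) (T.nw (T.ts (nat_lit 4) (T.ts (nat_lit 3) (T.ts (nat_lit 2) (T.ts (nat_lit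 4) (T.ts (nat_lit 2) (T.ts (nat_lit 1) (T.ts (nat_lit 4) (T.ts (nat_lit 4) (T.l1 (nat_lit 12300) (nat_lit 3) (nat_lit 20500)) (T.tp (T.sk (T.ls (nat_lit 3) (nat_lit 4))))) (T.tp (T.sk (T.ls (nat_lit 3) (nat_lit 4))))) (T.tp (T.sk (T.ls (nat_lit 3) (nat_lit 4))))) (T.tp (T.sk (T.ls (nat_lit 3) (nat_lit 4))))) (T.tp (T.sk (T.ls (nat_lit 3) (nat_lit 4))))) (T.tp (T.sk (T.ls (nat_lit 3) (nat_lit 4))))) (T.tp (T.sk (T.ls (nat_lit 3) (nat_lit 4))))) (T.tp (T.sk (T.ls (nat_lit 3) (nat_lit 4)))))))))) (T.ts (nat_lit 0) (T.ts (nat_lit 2) (T.ls (nat_lit 3) (nat_lit 4)) (T.ts (nat_lit 1) (T.ls (nat_lit 3) (nat_lit 4)) d349)) (T.ts (nat_lit 3) (T.im (nat_lit 7) (nat_lit 1)) (T.nw (T.ts (nat_lit 3) (T.ls (nat_lit 3) (nat_lit 4)) (T.ts (nat_lit 2) (T.ls (nat_lit 3) (nat_lit 4)) d350)))))))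
def d352 : T := (T.ts (nat_lit 4) (T.tp (T.ts (nat_lit 3) (T.ts (nat_lit 2) (T.ts (nat_lit 4) (T.ts (nat_lit 2) (T.im (nat_lit 11) (nat_lit 2)) (T.sk (T.ls (nat_lit 3) (nat_lit 4)))) (T.sk (T.ls (nat_lit 3) (nat_lit 4)))) (T.sk (T.ls (nat_lit 3) (nat_lit 4)))) (T.sk (T.ls (nat_lit 3) (nat_lit 4))))) (T.ts (nat_lit 2) (T.ls (nat_lit 3) (nat_lit 4)) (T.ts (nat_lit 1) (T.tp (T.ts (nat_lit 4) (T.ts (nat_lit 3) (T.im (nat_lit 5) (nat_lit 4)) (T.sk (T.ls (nat_lit 3) (nat_lit 4)))) (T.sk (T.ls (nat_lit 3) (nat_lit 4))))) (T.ts (nat_lit 0) (T.ts (nat_lit 4) (T.ts (nat_lit 3) (T.ts (nat_lit 2) (T.ts (nat_lit 4) (T.ts (nat_lit 2) (T.ts (nat_lit 1) (T.ts (nat_lit 4) (T.ts (nat_lit 3) (T.l1 (nat_lit 12300) (nat_lit 3) (nat_lit 20500)) (T.tp (T.sk (T.ls (nat_lit 3) (nat_lit 4))))) (T.tp (T.sk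 (T.ls (nat_lit 3) (nat_lit 4))))) (T.tp (T.sk (T.ls (nat_lit 3) (nat_lit 4))))) (T.tp (T.sk (T.ls (nat_lit 3) (nat_lit 4))))) (T.tp (T.sk (T.ls (nat_lit 3) (nat_lit 4))))) (T.tp (T.sk (T.ls (nat_lit 3) (nat_lit 4))))) (T.tp (T.sk (T.ls (nat_lit 3) (nat_lit 4))))) (T.tp (T.sk (T.ls (nat_lit 3) (nat_lit 4))))) (T.tp (T.ts (nat_lit 3) (T.im (nat_lit 7) (nat_lit 2)) T.ie))))))
def d353 : T := (T.ts (nat_lit 1) (T.ts (nat_lit 3) (T.l1 (nat_lit 12300) (nat_lit 4) (nat_lit 20500)) (T.ts (nat_lit 1) (T.ls (nat_lit 3) (nat_lit 4)) (T.ts (nat_lit 0) (T.tp (T.ts (nat_lit 3) (T.ts (nat_lit 2) (T.im (nat_lit 5) (nat_lit 4)) (T.sk (T.ls (nat_lit 3) (nat_lit 4)))) (T.sk (T.ls (nat_lit 3) (nat_lit 4))))) (T.ts (nat_lit 2) (T.im (nat_lit 7) (nat_lit 2)) (T.nw (T.ts (nat_lit 4) (T.ts (nat_lit 3) (T.ts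 (nat_lit 2) (T.ts (nat_lit 4) (T.ts (nat_lit 2) (T.ts (nat_lit 1) (T.ts (nat_lit 4) (T.ts (nat_lit 3) (T.l1 (nat_lit 12300) (nat_lit 3) (nat_lit 20500)) (T.tp (T.sk (T.ls (nat_lit 3) (nat_lit 4))))) (T.tp (T.sk (T.ls (nat_lit 3) (nat_lit 4))))) (T.tp (T.sk (T.ls (nat_lit 3) (nat_lit 4))))) (T.tp (T.sk (T.ls (nat_lit 3) (nat_lit 4))))) (T.tp (T.sk (T.ls (nat_lit 3) (nat_lit 4))))) (T.tp (T.sk (T.ls (nat_lit 3) (nat_lit 4))))) (T.tp (T.sk (T.ls (nat_lit 3) (nat_lit 4))))) (T.tp (T.sk (T.ls (nat_lit 3) (nat_lit 4)))))))))) (T.ts (nat_lit 0) (T.ts (nat_lit 1) (T.ls (nat_lit 3) (nat_lit 4)) (T.ts (nat_lit 0) (T.tp (T.ts (nat_lit 3) (T.ts (nat_lit 2) (T.im (nat_lit 5) (nat_lit 4)) (T.sk (T.ls (nat_lit 3) (nat_lit 4)))) (T.sk (T.ls (nat_lit 3) (nat_lit 4))))) (T.ts (nat_lit 3) (T.im (nat_lit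 5) (nat_lit 3)) (T.ts (nat_lit 2) (T.im (nat_lit 7) (nat_lit 2)) (T.nw (T.ts (nat_lit 4) (T.ts (nat_lit 3) (T.ts (nat_lit 2) (T.ts (nat_lit 4) (T.ts (nat_lit 2) (T.ts (nat_lit 1) (T.ts (nat_lit 4) (T.ts (nat_lit 3) (T.l1 (nat_lit 12300) (nat_lit 3) (nat_lit 20500)) (T.tp (T.sk (T.ls (nat_lit 3) (nat_lit 4))))) (T.tp (T.sk (T.ls (nat_lit 3) (nat_lit 4))))) (T.tp (T.sk (T.ls (nat_lit 3) (nat_lit 4))))) (T.tp (T.sk (T.ls (nat_lit 3) (nat_lit 4))))) (T.tp (T.sk (T.ls (nat_lit 3) (nat_lit 4))))) (T.tp (T.sk (T.ls (nat_lit 3) (nat_lit 4))))) (T.tp (T.sk (T.ls (nat_lit 3) (nat_lit 4))))) (T.tp (T.sk (T.ls (nat_lit 3) (nat_lit 4)))))))))) (T.ts (nat_lit 2) (T.im (nat_lit 7) (nat_lit 1)) (T.nw d352))))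
def d354 : T := (T.ts (nat_lit 4) (T.ls (nat_lit 3) (nat_lit 4)) (T.ts (nat_lit 3) (T.ts (nat_lit 4) (T.ls (nat_lit 3) (nat_lit 4)) (T.ts (nat_lit 2) (T.ts (nat_lit 4) (T.ts (nat_lit 2) (T.ts (nat_lit 1) (T.l1 (nat_lit 12300) (nat_lit 3) (nat_lit 20500)) (T.tp (T.sk (T.ls (nat_lit 3) (nat_lit 4))))) (T.tp (T.sk (T.ls (nat_lit 3) (nat_lit 4))))) (T.tp (T.sk (T.ls (nat_lit 3) (nat_lit 4))))) (T.tp (T.sk (T.ls (nat_lit 3) (nat_lit 4)))))) (T.ts (nat_lit 2) (T.ls (nat_lit 3) (nat_lit 4)) (T.ts (nat_lit 1) (T.ts (nat_lit 4) (T.ts (nat_lit 3) (T.ts (nat_lit 2) (T.ts (nat_lit 4) (T.ts (nat_lit 2) (T.ts (nat_lit 1) (T.ts (nat_lit 4) (T.ts (nat_lit 0) (T.l1 (nat_lit 12300) (nat_lit 4) (nat_lit 20500)) (T.tp (T.sk (T.ls (nat_lit 3) (nat_lit 4))))) (T.tp (T.sk (T.ls (nat_lit 3) (nat_lit 4)))))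 (T.tp (T.sk (T.ls (nat_lit 3) (nat_lit 4))))) (T.tp (T.sk (T.ls (nat_lit 3) (nat_lit 4))))) (T.tp (T.sk (T.ls (nat_lit 3) (nat_lit 4))))) (T.tp (T.sk (T.ls (nat_lit 3) (nat_lit 4))))) (T.tp (T.sk (T.ls (nat_lit 3) (nat_lit 4))))) (T.tp (T.sk (T.ls (nat_lit 3) (nat_lit 4))))) (T.tp (T.ts (nat_lit 0) (T.im (nat_lit 7) (nat_lit 2)) T.ie))))))
def d355 : T := (T.ts (nat_lit 2) (T.ts (nat_lit 4) (T.ls (nat_lit 3) (nat_lit 4)) (T.ts (nat_lit 3) (T.ls (nat_lit 3) (nat_lit 4)) (T.ts (nat_lit 2) (T.ls (nat_lit 3) (nat_lit 4)) (T.ts (nat_lit 1) (T.ts (nat_lit 4) (T.ts (nat_lit 3) (T.ts (nat_lit 2) (T.ts (nat_lit 4) (T.ts (nat_lit 2) (T.ts (nat_lit 1) (T.ts (nat_lit 4) (T.ts (nat_lit 0) (T.l1 (nat_lit 12300) (nat_lit 4) (nat_lit 20500)) (T.tp (T.sk (T.ls (nat_lit 3) (nat_lit 4))))) (T.tp (T.sk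 (T.ls (nat_lit 3) (nat_lit 4))))) (T.tp (T.sk (T.ls (nat_lit 3) (nat_lit 4))))) (T.tp (T.sk (T.ls (nat_lit 3) (nat_lit 4))))) (T.tp (T.sk (T.ls (nat_lit 3) (nat_lit 4))))) (T.tp (T.sk (T.ls (nat_lit 3) (nat_lit 4))))) (T.tp (T.sk (T.ls (nat_lit 3) (nat_lit 4))))) (T.tp (T.sk (T.ls (nat_lit 3) (nat_lit 4))))) (T.tp (T.ts (nat_lit 0) (T.im (nat_lit 7) (nat_lit 2)) T.ie)))))) (T.ts (nat_lit 1) (T.ts (nat_lit 3) (T.ls (nat_lit 3) (nat_lit 4)) (T.ts (nat_lit 2) (T.ls (nat_lit 3) (nat_lit 4)) (T.ts (nat_lit 1) (T.ts (nat_lit 4) (T.ts (nat_lit 3) (T.ts (nat_lit 2) (T.ts (nat_lit 4) (T.ts (nat_lit 2) (T.ts (nat_lit 1) (T.ts (nat_lit 4) (T.ts (nat_lit 0) (T.l1 (nat_lit 12300) (nat_lit 4) (nat_lit 20500)) (T.tp (T.sk (T.ls (nat_lit 3) (nat_lit 4))))) (T.tp (T.sk (T.ls (nat_lit 3) (nat_lit 4)))))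 (T.tp (T.sk (T.ls (nat_lit 3) (nat_lit 4))))) (T.tp (T.sk (T.ls (nat_lit 3) (nat_lit 4))))) (T.tp (T.sk (T.ls (nat_lit 3) (nat_lit 4))))) (T.tp (T.sk (T.ls (nat_lit 3) (nat_lit 4))))) (T.tp (T.sk (T.ls (nat_lit 3) (nat_lit 4))))) (T.tp (T.sk (T.ls (nat_lit 3) (nat_lit 4))))) (T.tp (T.ts (nat_lit 4) (T.im (nat_lit 5) (nat_lit 3)) (T.ts (nat_lit 0) (T.im (nat_lit 7) (nat_lit 2)) T.ie)))))) (T.tp (T.ts (nat_lit 0) (T.im (nat_lit 7) (nat_lit 1)) T.ie))))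
def d356 : T := (T.ts (nat_lit 2) (T.ts (nat_lit 3) (T.ts (nat_lit 3) (T.ls (nat_lit 3) (nat_lit 4)) (T.ts (nat_lit 1) (T.ls (nat_lit 3) (nat_lit 4)) (T.ts (nat_lit 0) (T.tp (T.ts (nat_lit 3) (T.ts (nat_lit 2) (T.im (nat_lit 5) (nat_lit 4)) (T.sk (T.ls (nat_lit 3) (nat_lit 4)))) (T.sk (T.ls (nat_lit 3) (nat_lit 4))))) (T.ts (nat_lit 2) (T.im (nat_lit 7) (nat_lit 2)) (T.nw (T.ts (nat_lit 4) (T.ts (nat_lit 3) (T.ts (nat_lit 2) (T.ts (nat_lit 4) (T.ts (nat_lit 2) (T.ts (nat_lit 1) (T.ts (nat_lit 4) (T.ts (nat_lit 3) (T.l1 (nat_lit 12300) (nat_lit 3) (nat_lit 20500)) (T.tp (T.sk (T.ls (nat_lit 3) (nat_lit 4))))) (T.tp (T.sk (T.ls (nat_lit 3) (nat_lit 4))))) (T.tp (T.sk (T.ls (nat_lit 3) (nat_lit 4))))) (T.tp (T.sk (T.ls (nat_lit 3) (nat_lit 4))))) (T.tp (T.sk (T.ls (nat_lit 3) (nat_lit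 4))))) (T.tp (T.sk (T.ls (nat_lit 3) (nat_lit 4))))) (T.tp (T.sk (T.ls (nat_lit 3) (nat_lit 4))))) (T.tp (T.sk (T.ls (nat_lit 3) (nat_lit 4)))))))))) d353) (T.ts (nat_lit 1) (T.im (nat_lit 3) (nat_lit 3)) (T.ts (nat_lit 0) (T.im (nat_lit 5) (nat_lit 2)) (T.nw (T.ts (nat_lit 4) d354 (T.ts (nat_lit 3) (T.ts (nat_lit 4) (T.ls (nat_lit 3) (nat_lit 4)) (T.ts (nat_lit 3) (T.ls (nat_lit 3) (nat_lit 4)) (T.ts (nat_lit 2) (T.ls (nat_lit 3) (nat_lit 4)) (T.ts (nat_lit 1) (T.ts (nat_lit 4) (T.ts (nat_lit 3) (T.ts (nat_lit 2) (T.ts (nat_lit 4) (T.ts (nat_lit 2) (T.ts (nat_lit 1) (T.ts (nat_lit 4) (T.ts (nat_lit 0) (T.l1 (nat_lit 12300) (nat_lit 4) (nat_lit 20500)) (T.sk (T.lf (nat_lit 16569) (nat_lit 3) (nat_lit 12300) (nat_lit 4) (nat_lit 20500)))) (T.sk (T.lf (nat_lit 16569) (nat_lit 3) (nat_lit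 12300) (nat_lit 4) (nat_lit 20500)))) (T.tp (T.sk (T.ls (nat_lit 3) (nat_lit 4))))) (T.tp (T.sk (T.ls (nat_lit 3) (nat_lit 4))))) (T.tp (T.sk (T.ls (nat_lit 3) (nat_lit 4))))) (T.tp (T.sk (T.ls (nat_lit 3) (nat_lit 4))))) (T.tp (T.sk (T.ls (nat_lit 3) (nat_lit 4))))) (T.tp (T.sk (T.ls (nat_lit 3) (nat_lit 4))))) (T.tp (T.ts (nat_lit 0) (T.im (nat_lit 7) (nat_lit 2)) T.ie)))))) d355))))))
def d357 : T := (T.ts (nat_lit 3) d351 d356)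
def d358 : T := (T.ts (nat_lit 0) (T.ts (nat_lit 3) (T.ts (nat_lit 2) (T.ts (nat_lit 1) (T.ts (nat_lit 3) (T.ts (nat_lit 1) (T.ts (nat_lit 0) (T.ts (nat_lit 2) (T.ts (nat_lit 3) (T.l1 (nat_lit 12300) (nat_lit 4) (nat_lit 20500)) (T.tp (T.sk (T.ls (nat_lit 3) (nat_lit 4))))) (T.tp (T.sk (T.ls (nat_lit 3) (nat_lit 4))))) (T.tp (T.sk (T.ls (nat_lit 3) (nat_lit 4))))) (T.tp (T.sk (T.ls (nat_lit 3) (nat_lit 4))))) (T.tp (T.sk (T.ls (nat_lit 3) (nat_lit 4))))) (T.tp (T.sk (T.ls (nat_lit 3) (nat_lit 4))))) (T.tp (T.sk (T.ls (nat_lit 3) (nat_lit 4))))) (T.tp (T.sk (T.ls (nat_lit 3) (nat_lit 4))))) (T.ts (nat_lit 3) (T.im (nat_lit 7) (nat_lit 2)) (T.ts (nat_lit 2) (T.im (nat_lit 5) (nat_lit 3)) (T.nw (T.ts (nat_lit 4) (T.ts (nat_lit 3) (T.ts (nat_lit 2) (T.ts (nat_lit 4) (T.ts (nat_lit 2)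 (T.ts (nat_lit 1) (T.ts (nat_lit 3) (T.ts (nat_lit 4) (T.l1 (nat_lit 12300) (nat_lit 3) (nat_lit 20500)) (T.tp (T.sk (T.ls (nat_lit 3) (nat_lit 4))))) (T.tp (T.sk (T.ls (nat_lit 3) (nat_lit 4))))) (T.tp (T.sk (T.ls (nat_lit 3) (nat_lit 4))))) (T.tp (T.sk (T.ls (nat_lit 3) (nat_lit 4))))) (T.tp (T.sk (T.ls (nat_lit 3) (nat_lit 4))))) (T.tp (T.sk (T.ls (nat_lit 3) (nat_lit 4))))) (T.tp (T.sk (T.ls (nat_lit 3) (nat_lit 4))))) (T.tp (T.sk (T.ls (nat_lit 3) (nat_lit 4)))))))))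
def d359 : T := (T.ts (nat_lit 1) (T.ts (nat_lit 4) (T.ts (nat_lit 3) (T.ts (nat_lit 2) (T.ts (nat_lit 4) (T.ts (nat_lit 2) (T.ts (nat_lit 1) (T.ts (nat_lit 3) (T.ts (nat_lit 4) (T.l1 (nat_lit 12300) (nat_lit 4) (nat_lit 20500)) (T.tp (T.sk (T.ls (nat_lit 3) (nat_lit 4))))) (T.tp (T.sk (T.ls (nat_lit 3) (nat_lit 4))))) (T.tp (T.sk (T.ls (nat_lit 3) (nat_lit 4))))) (T.tp (T.sk (T.ls (nat_lit 3) (nat_lit 4))))) (T.tp (T.sk (T.ls (nat_lit 3) (nat_lit 4))))) (T.tp (T.sk (T.ls (nat_lit 3) (nat_lit 4))))) (T.tp (T.sk (T.ls (nat_lit 3) (nat_lit 4))))) (T.tp (T.sk (T.ls (nat_lit 3) (nat_lit 4))))) (T.ts (nat_lit 0) (T.ts (nat_lit 4) (T.ts (nat_lit 3) (T.ts (nat_lit 2) (T.ts (nat_lit 4) (T.ts (nat_lit 2) (T.ts (nat_lit 1) (T.ts (nat_lit 3) (T.ts (nat_lit 4) (T.l1 (nat_lit 12300) (nat_lit 3)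 (nat_lit 20500)) (T.tp (T.sk (T.ls (nat_lit 3) (nat_lit 4))))) (T.tp (T.sk (T.ls (nat_lit 3) (nat_lit 4))))) (T.tp (T.sk (T.ls (nat_lit 3) (nat_lit 4))))) (T.tp (T.sk (T.ls (nat_lit 3) (nat_lit 4))))) (T.tp (T.sk (T.ls (nat_lit 3) (nat_lit 4))))) (T.tp (T.sk (T.ls (nat_lit 3) (nat_lit 4))))) (T.tp (T.sk (T.ls (nat_lit 3) (nat_lit 4))))) (T.tp (T.sk (T.ls (nat_lit 3) (nat_lit 4))))) (T.tp (T.ts (nat_lit 4) (T.im (nat_lit 7) (nat_lit 2)) T.ie))))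
def d360 : T := (T.ts (nat_lit 2) (T.tp (T.ts (nat_lit 2) (T.ls (nat_lit 3) (nat_lit 4)) (T.ts (nat_lit 1) (T.ls (nat_lit 3) (nat_lit 4)) (T.ts (nat_lit 0) (T.ts (nat_lit 3) (T.ts (nat_lit 2) (T.im (nat_lit 7) (nat_lit 3)) (T.sk (T.ls (nat_lit 3) (nat_lit 4)))) (T.sk (T.ls (nat_lit 3) (nat_lit 4)))) (T.ts (nat_lit 3) (T.im (nat_lit 7) (nat_lit 2)) (T.nw (T.ts (nat_lit 4) (T.ts (nat_lit 3) (T.im (nat_lit 7) (nat_lit 3)) (T.sk (T.ls (nat_lit 3) (nat_lit 4)))) (T.sk (T.ls (nat_lit 3) (nat_lit 4)))))))))) (T.ts (nat_lit 1) (T.ts (nat_lit 2) (T.ls (nat_lit 3) (nat_lit 4)) (T.ts (nat_lit 1) (T.ls (nat_lit 3) (nat_lit 4)) (T.ts (nat_lit 3) (T.im (nat_lit 7) (nat_lit 2)) (T.ts (nat_lit 0) (T.im (nat_lit 3) (nat_lit 4)) (T.nw (T.ts (nat_lit 4) (T.ts (nat_lit 3) (T.ts (nat_lit 2) (T.ts (nat_lit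 4) (T.ts (nat_lit 2) (T.ts (nat_lit 1) (T.ts (nat_lit 3) (T.ts (nat_lit 4) (T.l1 (nat_lit 12300) (nat_lit 3) (nat_lit 20500)) (T.tp (T.sk (T.ls (nat_lit 3) (nat_lit 4))))) (T.tp (T.sk (T.ls (nat_lit 3) (nat_lit 4))))) (T.tp (T.sk (T.ls (nat_lit 3) (nat_lit 4))))) (T.tp (T.sk (T.ls (nat_lit 3) (nat_lit 4))))) (T.tp (T.sk (T.ls (nat_lit 3) (nat_lit 4))))) (T.tp (T.sk (T.ls (nat_lit 3) (nat_lit 4))))) (T.tp (T.sk (T.ls (nat_lit 3) (nat_lit 4))))) (T.tp (T.sk (T.ls (nat_lit 3) (nat_lit 4)))))))))) (T.ts (nat_lit 0) (T.ts (nat_lit 1) (T.ls (nat_lit 3) (nat_lit 4)) d358) (T.ts (nat_lit 3) (T.im (nat_lit 7) (nat_lit 1)) (T.nw (T.ts (nat_lit 3) (T.ls (nat_lit 3) (nat_lit 4)) (T.ts (nat_lit 2) (T.ls (nat_lit 3) (nat_lit 4)) d359)))))))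
def d361 : T := (T.ts (nat_lit 0) (T.ts (nat_lit 3) (T.ts (nat_lit 2) (T.ts (nat_lit 1) (T.ts (nat_lit 3) (T.ts (nat_lit 1) (T.ts (nat_lit 0) (T.ts (nat_lit 2) (T.ts (nat_lit 2) (T.l1 (nat_lit 12300) (nat_lit 4) (nat_lit 20500)) (T.tp (T.sk (T.ls (nat_lit 3) (nat_lit 4))))) (T.tp (T.sk (T.ls (nat_lit 3) (nat_lit 4))))) (T.tp (T.sk (T.ls (nat_lit 3) (nat_lit 4))))) (T.tp (T.sk (T.ls (nat_lit 3) (nat_lit 4))))) (T.tp (T.sk (T.ls (nat_lit 3) (nat_lit 4))))) (T.tp (T.sk (T.ls (nat_lit 3) (nat_lit 4))))) (T.tp (T.sk (T.ls (nat_lit 3) (nat_lit 4))))) (T.tp (T.sk (T.ls (nat_lit 3) (nat_lit 4))))) (T.ts (nat_lit 2) (T.im (nat_lit 7) (nat_lit 2)) (T.nw (T.ts (nat_lit 4) (T.ts (nat_lit 3) (T.ts (nat_lit 2) (T.ts (nat_lit 4) (T.ts (nat_lit 2) (T.ts (nat_lit 1) (T.ts (nat_lit 3) (T.ts (nat_lit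 3) (T.l1 (nat_lit 12300) (nat_lit 3) (nat_lit 20500)) (T.tp (T.sk (T.ls (nat_lit 3) (nat_lit 4))))) (T.tp (T.sk (T.ls (nat_lit 3) (nat_lit 4))))) (T.tp (T.sk (T.ls (nat_lit 3) (nat_lit 4))))) (T.tp (T.sk (T.ls (nat_lit 3) (nat_lit 4))))) (T.tp (T.sk (T.ls (nat_lit 3) (nat_lit 4))))) (T.tp (T.sk (T.ls (nat_lit 3) (nat_lit 4))))) (T.tp (T.sk (T.ls (nat_lit 3) (nat_lit 4))))) (T.tp (T.sk (T.ls (nat_lit 3) (nat_lit 4))))))))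
def d362 : T := (T.ts (nat_lit 0) (T.ts (nat_lit 3) (T.ts (nat_lit 2) (T.ts (nat_lit 1) (T.ts (nat_lit 3) (T.ts (nat_lit 1) (T.ts (nat_lit 0) (T.ts (nat_lit 2) (T.ts (nat_lit 2) (T.l1 (nat_lit 12300) (nat_lit 4) (nat_lit 20500)) (T.tp (T.sk (T.ls (nat_lit 3) (nat_lit 4))))) (T.tp (T.sk (T.ls (nat_lit 3) (nat_lit 4))))) (T.tp (T.sk (T.ls (nat_lit 3) (nat_lit 4))))) (T.tp (T.sk (T.ls (nat_lit 3) (nat_lit 4))))) (T.tp (T.sk (T.ls (nat_lit 3) (nat_lit 4))))) (T.tp (T.sk (T.ls (nat_lit 3) (nat_lit 4))))) (T.tp (T.sk (T.ls (nat_lit 3) (nat_lit 4))))) (T.tp (T.sk (T.ls (nat_lit 3) (nat_lit 4))))) (T.ts (nat_lit 2) (T.im (nat_lit 7) (nat_lit 2)) (T.nw (T.ts (nat_lit 4) (T.ts (nat_lit 3) (T.ts (nat_lit 2) (T.ts (nat_lit 4) (T.ts (nat_lit 2) (T.ts (nat_lit 1) (T.ts (nat_lit 3) (T.ts (nat_lit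 3) (T.l1 (nat_lit 12300) (nat_lit 3) (nat_lit 20500)) (T.tp (T.sk (T.ls (nat_lit 3) (nat_lit 4))))) (T.tp (T.sk (T.ls (nat_lit 3) (nat_lit 4))))) (T.tp (T.sk (T.ls (nat_lit 3) (nat_lit 4))))) (T.tp (T.sk (T.ls (nat_lit 3) (nat_lit 4))))) (T.tp (T.sk (T.ls (nat_lit 3) (nat_lit 4))))) (T.tp (T.sk (T.ls (nat_lit 3) (nat_lit 4))))) (T.tp (T.sk (T.ls (nat_lit 3) (nat_lit 4))))) (T.tp (T.sk (T.ls (nat_lit 3) (nat_lit 4))))))))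
def d363 : T := (T.ts (nat_lit 0) (T.ts (nat_lit 3) (T.ts (nat_lit 2) (T.ts (nat_lit 1) (T.ts (nat_lit 3) (T.ts (nat_lit 1) (T.ts (nat_lit 0) (T.ts (nat_lit 2) (T.ts (nat_lit 2) (T.l1 (nat_lit 12300) (nat_lit 4) (nat_lit 20500)) (T.tp (T.sk (T.ls (nat_lit 3) (nat_lit 4))))) (T.tp (T.sk (T.ls (nat_lit 3) (nat_lit 4))))) (T.tp (T.sk (T.ls (nat_lit 3) (nat_lit 4))))) (T.tp (T.sk (T.ls (nat_lit 3) (nat_lit 4))))) (T.tp (T.sk (T.ls (nat_lit 3) (nat_lit 4))))) (T.tp (T.sk (T.ls (nat_lit 3) (nat_lit 4))))) (T.tp (T.sk (T.ls (nat_lit 3) (nat_lit 4))))) (T.tp (T.sk (T.ls (nat_lit 3) (nat_lit 4))))) (T.ts (nat_lit 2) (T.im (nat_lit 5) (nat_lit 3)) (T.nw (T.ts (nat_lit 4) (T.ts (nat_lit 3) (T.ts (nat_lit 2) (T.ts (nat_lit 4) (T.ts (nat_lit 2) (T.ts (nat_lit 1) (T.ts (nat_lit 3) (T.ts (nat_lit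 3) (T.l1 (nat_lit 12300) (nat_lit 3) (nat_lit 20500)) (T.tp (T.sk (T.ls (nat_lit 3) (nat_lit 4))))) (T.tp (T.sk (T.ls (nat_lit 3) (nat_lit 4))))) (T.tp (T.sk (T.ls (nat_lit 3) (nat_lit 4))))) (T.tp (T.sk (T.ls (nat_lit 3) (nat_lit 4))))) (T.tp (T.sk (T.ls (nat_lit 3) (nat_lit 4))))) (T.tp (T.sk (T.ls (nat_lit 3) (nat_lit 4))))) (T.tp (T.sk (T.ls (nat_lit 3) (nat_lit 4))))) (T.tp (T.sk (T.ls (nat_lit 3) (nat_lit 4))))))))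
def d364 : T := (T.ts (nat_lit 1) (T.ts (nat_lit 4) (T.ts (nat_lit 3) (T.ts (nat_lit 2) (T.ts (nat_lit 4) (T.ts (nat_lit 2) (T.ts (nat_lit 1) (T.ts (nat_lit 3) (T.ts (nat_lit 3) (T.l1 (nat_lit 12300) (nat_lit 4) (nat_lit 20500)) (T.tp (T.sk (T.ls (nat_lit 3) (nat_lit 4))))) (T.tp (T.sk (T.ls (nat_lit 3) (nat_lit 4))))) (T.tp (T.sk (T.ls (nat_lit 3) (nat_lit 4))))) (T.tp (T.sk (T.ls (nat_lit 3) (nat_lit 4))))) (T.tp (T.sk (T.ls (nat_lit 3) (nat_lit 4))))) (T.tp (T.sk (T.ls (nat_lit 3) (nat_lit 4))))) (T.tp (T.sk (T.ls (nat_lit 3) (nat_lit 4))))) (T.tp (T.sk (T.ls (nat_lit 3) (nat_lit 4))))) (T.ts (nat_lit 0) (T.ts (nat_lit 4) (T.ts (nat_lit 3) (T.ts (nat_lit 2) (T.ts (nat_lit 4) (T.ts (nat_lit 2) (T.ts (nat_lit 1) (T.ts (nat_lit 3) (T.ts (nat_lit 3) (T.l1 (nat_lit 12300) (nat_lit 3)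 (nat_lit 20500)) (T.tp (T.sk (T.ls (nat_lit 3) (nat_lit 4))))) (T.tp (T.sk (T.ls (nat_lit 3) (nat_lit 4))))) (T.tp (T.sk (T.ls (nat_lit 3) (nat_lit 4))))) (T.tp (T.sk (T.ls (nat_lit 3) (nat_lit 4))))) (T.tp (T.sk (T.ls (nat_lit 3) (nat_lit 4))))) (T.tp (T.sk (T.ls (nat_lit 3) (nat_lit 4))))) (T.tp (T.sk (T.ls (nat_lit 3) (nat_lit 4))))) (T.tp (T.sk (T.ls (nat_lit 3) (nat_lit 4))))) (T.tp (T.ts (nat_lit 3) (T.im (nat_lit 7) (nat_lit 2)) T.ie))))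
def d365 : T := (T.ts (nat_lit 0) (T.ts (nat_lit 3) (T.ts (nat_lit 2) (T.ts (nat_lit 1) (T.ts (nat_lit 3) (T.ts (nat_lit 1) (T.ts (nat_lit 0) (T.ts (nat_lit 2) (T.ts (nat_lit 1) (T.l1 (nat_lit 12300) (nat_lit 4) (nat_lit 20500)) (T.tp (T.sk (T.ls (nat_lit 3) (nat_lit 4))))) (T.tp (T.sk (T.ls (nat_lit 3) (nat_lit 4))))) (T.tp (T.sk (T.ls (nat_lit 3) (nat_lit 4))))) (T.tp (T.sk (T.ls (nat_lit 3) (nat_lit 4))))) (T.tp (T.sk (T.ls (nat_lit 3) (nat_lit 4))))) (T.tp (T.sk (T.ls (nat_lit 3) (nat_lit 4))))) (T.tp (T.sk (T.ls (nat_lit 3) (nat_lit 4))))) (T.tp (T.sk (T.ls (nat_lit 3) (nat_lit 4))))) (T.ts (nat_lit 1) (T.im (nat_lit 1) (nat_lit 5)) (T.nw (T.ts (nat_lit 4) (T.ts (nat_lit 3) (T.ts (nat_lit 2) (T.ts (nat_lit 4) (T.ts (nat_lit 2) (T.ts (nat_lit 1) (T.ts (nat_lit 3) (T.ts (nat_lit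 2) (T.l1 (nat_lit 12300) (nat_lit 3) (nat_lit 20500)) (T.tp (T.sk (T.ls (nat_lit 3) (nat_lit 4))))) (T.tp (T.sk (T.ls (nat_lit 3) (nat_lit 4))))) (T.tp (T.sk (T.ls (nat_lit 3) (nat_lit 4))))) (T.tp (T.sk (T.ls (nat_lit 3) (nat_lit 4))))) (T.tp (T.sk (T.ls (nat_lit 3) (nat_lit 4))))) (T.tp (T.sk (T.ls (nat_lit 3) (nat_lit 4))))) (T.tp (T.sk (T.ls (nat_lit 3) (nat_lit 4))))) (T.tp (T.sk (T.ls (nat_lit 3) (nat_lit 4))))))))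
def d366 : T := (T.ts (nat_lit 0) (T.ts (nat_lit 3) (T.ts (nat_lit 2) (T.ts (nat_lit 1) (T.ts (nat_lit 3) (T.ts (nat_lit 1) (T.ts (nat_lit 0) (T.ts (nat_lit 2) (T.ts (nat_lit 1) (T.l1 (nat_lit 12300) (nat_lit 4) (nat_lit 20500)) (T.sk (T.lf (nat_lit 16569) (nat_lit 3) (nat_lit 12300) (nat_lit 4) (nat_lit 20500)))) (T.sk (T.lf (nat_lit 16569) (nat_lit 3) (nat_lit 12300) (nat_lit 4) (nat_lit 20500)))) (T.tp (T.sk (T.ls (nat_lit 3) (nat_lit 4))))) (T.tp (T.sk (T.ls (nat_lit 3) (nat_lit 4))))) (T.tp (T.sk (T.ls (nat_lit 3) (nat_lit 4))))) (T.tp (T.sk (T.ls (nat_lit 3) (nat_lit 4))))) (T.tp (T.sk (T.ls (nat_lit 3) (nat_lit 4))))) (T.tp (T.sk (T.ls (nat_lit 3) (nat_lit 4))))) (T.ts (nat_lit 1) (T.im (nat_lit 7) (nat_lit 2)) (T.nw (T.ts (nat_lit 4) (T.ts (nat_lit 3) (T.ts (nat_lit 2) (T.ts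 (nat_lit 4) (T.ts (nat_lit 2) (T.ts (nat_lit 1) (T.ts (nat_lit 3) (T.ts (nat_lit 2) (T.l1 (nat_lit 12300) (nat_lit 3) (nat_lit 20500)) (T.sk (T.lf (nat_lit 16569) (nat_lit 3) (nat_lit 20500) (nat_lit 4) (nat_lit 12300)))) (T.sk (T.lf (nat_lit 16569) (nat_lit 3) (nat_lit 20500) (nat_lit 4) (nat_lit 12300)))) (T.tp (T.sk (T.ls (nat_lit 3) (nat_lit 4))))) (T.tp (T.sk (T.ls (nat_lit 3) (nat_lit 4))))) (T.tp (T.sk (T.ls (nat_lit 3) (nat_lit 4))))) (T.tp (T.sk (T.ls (nat_lit 3) (nat_lit 4))))) (T.tp (T.sk (T.ls (nat_lit 3) (nat_lit 4))))) (T.tp (T.sk (T.ls (nat_lit 3) (nat_lit 4))))))))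
def d367 : T := (T.ts (nat_lit 0) (T.ts (nat_lit 3) (T.ts (nat_lit 2) (T.ts (nat_lit 1) (T.ts (nat_lit 3) (T.ts (nat_lit 1) (T.ts (nat_lit 0) (T.ts (nat_lit 2) (T.ts (nat_lit 1) (T.l1 (nat_lit 12300) (nat_lit 4) (nat_lit 20500)) (T.tp (T.sk (T.ls (nat_lit 3) (nat_lit 4))))) (T.tp (T.sk (T.ls (nat_lit 3) (nat_lit 4))))) (T.tp (T.sk (T.ls (nat_lit 3) (nat_lit 4))))) (T.tp (T.sk (T.ls (nat_lit 3) (nat_lit 4))))) (T.tp (T.sk (T.ls (nat_lit 3) (nat_lit 4))))) (T.tp (T.sk (T.ls (nat_lit 3) (nat_lit 4))))) (T.tp (T.sk (T.ls (nat_lit 3) (nat_lit 4))))) (T.tp (T.sk (T.ls (nat_lit 3) (nat_lit 4))))) (T.ts (nat_lit 2) (T.im (nat_lit 5) (nat_lit 3)) (T.ts (nat_lit 1) (T.im (nat_lit 7) (nat_lit 2)) (T.nw (T.ts (nat_lit 4) (T.ts (nat_lit 3) (T.ts (nat_lit 2) (T.ts (nat_lit 4) (T.ts (nat_lit 2)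 (T.ts (nat_lit 1) (T.ts (nat_lit 3) (T.ts (nat_lit 2) (T.l1 (nat_lit 12300) (nat_lit 3) (nat_lit 20500)) (T.tp (T.sk (T.ls (nat_lit 3) (nat_lit 4))))) (T.tp (T.sk (T.ls (nat_lit 3) (nat_lit 4))))) (T.tp (T.sk (T.ls (nat_lit 3) (nat_lit 4))))) (T.tp (T.sk (T.ls (nat_lit 3) (nat_lit 4))))) (T.tp (T.sk (T.ls (nat_lit 3) (nat_lit 4))))) (T.tp (T.sk (T.ls (nat_lit 3) (nat_lit 4))))) (T.tp (T.sk (T.ls (nat_lit 3) (nat_lit 4))))) (T.tp (T.sk (T.ls (nat_lit 3) (nat_lit 4)))))))))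
def d368 : T := (T.ts (nat_lit 1) (T.ts (nat_lit 4) (T.ts (nat_lit 3) (T.ts (nat_lit 2) (T.ts (nat_lit 4) (T.ts (nat_lit 2) (T.ts (nat_lit 1) (T.ts (nat_lit 3) (T.ts (nat_lit 2) (T.l1 (nat_lit 12300) (nat_lit 4) (nat_lit 20500)) (T.tp (T.sk (T.ls (nat_lit 3) (nat_lit 4))))) (T.tp (T.sk (T.ls (nat_lit 3) (nat_lit 4))))) (T.tp (T.sk (T.ls (nat_lit 3) (nat_lit 4))))) (T.tp (T.sk (T.ls (nat_lit 3) (nat_lit 4))))) (T.tp (T.sk (T.ls (nat_lit 3) (nat_lit 4))))) (T.tp (T.sk (T.ls (nat_lit 3) (nat_lit 4))))) (T.tp (T.sk (T.ls (nat_lit 3) (nat_lit 4))))) (T.tp (T.sk (T.ls (nat_lit 3) (nat_lit 4))))) (T.ts (nat_lit 0) (T.ts (nat_lit 4) (T.ts (nat_lit 3) (T.ts (nat_lit 2) (T.ts (nat_lit 4) (T.ts (nat_lit 2) (T.ts (nat_lit 1) (T.ts (nat_lit 3) (T.ts (nat_lit 2) (T.l1 (nat_lit 12300) (nat_lit 3)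 (nat_lit 20500)) (T.tp (T.sk (T.ls (nat_lit 3) (nat_lit 4))))) (T.tp (T.sk (T.ls (nat_lit 3) (nat_lit 4))))) (T.tp (T.sk (T.ls (nat_lit 3) (nat_lit 4))))) (T.tp (T.sk (T.ls (nat_lit 3) (nat_lit 4))))) (T.tp (T.sk (T.ls (nat_lit 3) (nat_lit 4))))) (T.tp (T.sk (T.ls (nat_lit 3) (nat_lit 4))))) (T.tp (T.sk (T.ls (nat_lit 3) (nat_lit 4))))) (T.tp (T.sk (T.ls (nat_lit 3) (nat_lit 4))))) (T.tp (T.ts (nat_lit 2) (T.im (nat_lit 7) (nat_lit 2)) T.ie))))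
def d369 : T := (T.ts (nat_lit 1) (T.ts (nat_lit 4) (T.tp (T.ts (nat_lit 3) (T.ts (nat_lit 2) (T.ts (nat_lit 4) (T.ts (nat_lit 2) (T.im (nat_lit 11) (nat_lit 2)) (T.sk (T.ls (nat_lit 3) (nat_lit 4)))) (T.sk (T.ls (nat_lit 3) (nat_lit 4)))) (T.sk (T.ls (nat_lit 3) (nat_lit 4)))) (T.sk (T.ls (nat_lit 3) (nat_lit 4))))) (T.ts (nat_lit 2) (T.ls (nat_lit 3) (nat_lit 4)) (T.ts (nat_lit 1) (T.ts (nat_lit 4) (T.ts (nat_lit 3) (T.ts (nat_lit 2) (T.ts (nat_lit 4) (T.ts (nat_lit 2) (T.ts (nat_lit 1) (T.ts (nat_lit 3) (T.ts (nat_lit 0) (T.l1 (nat_lit 12300) (nat_lit 4) (nat_lit 20500)) (T.tp (T.sk (T.ls (nat_lit 3) (nat_lit 4))))) (T.tp (T.sk (T.ls (nat_lit 3) (nat_lit 4))))) (T.tp (T.sk (T.ls (nat_lit 3) (nat_lit 4))))) (T.tp (T.sk (T.ls (nat_lit 3) (nat_lit 4))))) (T.tp (T.sk (T.ls (nat_lit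 3) (nat_lit 4))))) (T.tp (T.sk (T.ls (nat_lit 3) (nat_lit 4))))) (T.tp (T.sk (T.ls (nat_lit 3) (nat_lit 4))))) (T.tp (T.sk (T.ls (nat_lit 3) (nat_lit 4))))) (T.tp (T.ts (nat_lit 3) (T.im (nat_lit 5) (nat_lit 3)) (T.ts (nat_lit 0) (T.im (nat_lit 7) (nat_lit 2)) T.ie)))))) (T.tp (T.ts (nat_lit 0) (T.im (nat_lit 7) (nat_lit 1)) T.ie)))
def d370 : T := (T.ts (nat_lit 3) (T.ts (nat_lit 4) (T.ls (nat_lit 3) (nat_lit 4)) (T.ts (nat_lit 3) (T.ls (nat_lit 3) (nat_lit 4)) (T.ts (nat_lit 2) (T.ls (nat_lit 3) (nat_lit 4)) (T.ts (nat_lit 1) (T.ts (nat_lit 4) (T.ts (nat_lit 3) (T.ts (nat_lit 2) (T.ts (nat_lit 4) (T.ts (nat_lit 2) (T.ts (nat_lit 1) (T.ts (nat_lit 3) (T.ts (nat_lit 0) (T.l1 (nat_lit 12300) (nat_lit 4) (nat_lit 20500)) (T.sk (T.lf (nat_lit 16569) (nat_lit 3) (nat_lit 12300) (nat_lit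 4) (nat_lit 20500)))) (T.sk (T.lf (nat_lit 16569) (nat_lit 3) (nat_lit 12300) (nat_lit 4) (nat_lit 20500)))) (T.tp (T.sk (T.ls (nat_lit 3) (nat_lit 4))))) (T.tp (T.sk (T.ls (nat_lit 3) (nat_lit 4))))) (T.tp (T.sk (T.ls (nat_lit 3) (nat_lit 4))))) (T.tp (T.sk (T.ls (nat_lit 3) (nat_lit 4))))) (T.tp (T.sk (T.ls (nat_lit 3) (nat_lit 4))))) (T.tp (T.sk (T.ls (nat_lit 3) (nat_lit 4))))) (T.tp (T.ts (nat_lit 0) (T.im (nat_lit 7) (nat_lit 2)) T.ie)))))) (T.ts (nat_lit 2) (T.ts (nat_lit 4) (T.ls (nat_lit 3) (nat_lit 4)) (T.ts (nat_lit 3) (T.ls (nat_lit 3) (nat_lit 4)) (T.ts (nat_lit 2) (T.ls (nat_lit 3) (nat_lit 4)) (T.ts (nat_lit 1) (T.ts (nat_lit 4) (T.ts (nat_lit 3) (T.ts (nat_lit 2) (T.ts (nat_lit 4) (T.ts (nat_lit 2) (T.ts (nat_lit 1) (T.ts (nat_lit 3) (T.ts (nat_lit 0) (T.l1 (nat_lit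 12300) (nat_lit 4) (nat_lit 20500)) (T.tp (T.sk (T.ls (nat_lit 3) (nat_lit 4))))) (T.tp (T.sk (T.ls (nat_lit 3) (nat_lit 4))))) (T.tp (T.sk (T.ls (nat_lit 3) (nat_lit 4))))) (T.tp (T.sk (T.ls (nat_lit 3) (nat_lit 4))))) (T.tp (T.sk (T.ls (nat_lit 3) (nat_lit 4))))) (T.tp (T.sk (T.ls (nat_lit 3) (nat_lit 4))))) (T.tp (T.sk (T.ls (nat_lit 3) (nat_lit 4))))) (T.tp (T.sk (T.ls (nat_lit 3) (nat_lit 4))))) (T.tp (T.ts (nat_lit 0) (T.im (nat_lit 7) (nat_lit 2)) T.ie)))))) d369))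
def d371 : T := (T.ts (nat_lit 4) (T.ts (nat_lit 4) (T.ls (nat_lit 3) (nat_lit 4)) (T.ts (nat_lit 3) (T.ts (nat_lit 4) (T.ls (nat_lit 3) (nat_lit 4)) (T.ts (nat_lit 2) (T.ts (nat_lit 4) (T.ts (nat_lit 2) (T.ts (nat_lit 1) (T.l1 (nat_lit 12300) (nat_lit 3) (nat_lit 20500)) (T.sk (T.lf (nat_lit 16569) (nat_lit 3) (nat_lit 20500) (nat_lit 4) (nat_lit 12300)))) (T.sk (T.lf (nat_lit 16569) (nat_lit 3) (nat_lit 20500) (nat_lit 4) (nat_lit 12300)))) (T.tp (T.sk (T.ls (nat_lit 3) (nat_lit 4))))) (T.tp (T.sk (T.ls (nat_lit 3) (nat_lit 4)))))) (T.ts (nat_lit 2) (T.ls (nat_lit 3) (nat_lit 4)) (T.ts (nat_lit 1) (T.ts (nat_lit 4) (T.ts (nat_lit 3) (T.ts (nat_lit 2) (T.ts (nat_lit 4) (T.ts (nat_lit 2) (T.ts (nat_lit 1) (T.ts (nat_lit 3) (T.ts (nat_lit 0) (T.l1 (nat_lit 12300) (nat_lit 4) (nat_lit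 20500)) (T.tp (T.sk (T.ls (nat_lit 3) (nat_lit 4))))) (T.tp (T.sk (T.ls (nat_lit 3) (nat_lit 4))))) (T.tp (T.sk (T.ls (nat_lit 3) (nat_lit 4))))) (T.tp (T.sk (T.ls (nat_lit 3) (nat_lit 4))))) (T.tp (T.sk (T.ls (nat_lit 3) (nat_lit 4))))) (T.tp (T.sk (T.ls (nat_lit 3) (nat_lit 4))))) (T.tp (T.sk (T.ls (nat_lit 3) (nat_lit 4))))) (T.tp (T.sk (T.ls (nat_lit 3) (nat_lit 4))))) (T.tp (T.ts (nat_lit 0) (T.im (nat_lit 7) (nat_lit 2)) T.ie)))))) d370)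
def d372 : T := (T.ts (nat_lit 2) (T.ts (nat_lit 3) (T.ts (nat_lit 3) (T.ls (nat_lit 3) (nat_lit 4)) (T.ts (nat_lit 1) (T.ls (nat_lit 3) (nat_lit 4)) d361)) (T.ts (nat_lit 1) (T.ts (nat_lit 3) (T.ls (nat_lit 3) (nat_lit 4)) (T.ts (nat_lit 1) (T.ls (nat_lit 3) (nat_lit 4)) d362)) (T.ts (nat_lit 0) (T.ts (nat_lit 3) (T.tp (T.ts (nat_lit 2) (T.ts (nat_lit 1) (T.ts (nat_lit 3) (T.ts (nat_lit 1) (T.im (nat_lit 11) (nat_lit 2)) (T.sk (T.ls (nat_lit 3) (nat_lit 4)))) (T.sk (T.ls (nat_lit 3) (nat_lit 4)))) (T.sk (T.ls (nat_lit 3) (nat_lit 4)))) (T.sk (T.ls (nat_lit 3) (nat_lit 4))))) (T.ts (nat_lit 1) (T.ls (nat_lit 3) (nat_lit 4)) d363)) (T.ts (nat_lit 2) (T.im (nat_lit 7) (nat_lit 1)) (T.nw (T.ts (nat_lit 4) (T.tp (T.ts (nat_lit 3) (T.ts (nat_lit 2) (T.ts (nat_lit 4) (T.ts (nat_lit 2) (T.im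 (nat_lit 11) (nat_lit 2)) (T.sk (T.ls (nat_lit 3) (nat_lit 4)))) (T.sk (T.ls (nat_lit 3) (nat_lit 4)))) (T.sk (T.ls (nat_lit 3) (nat_lit 4)))) (T.sk (T.ls (nat_lit 3) (nat_lit 4))))) (T.ts (nat_lit 2) (T.ls (nat_lit 3) (nat_lit 4)) d364))))))) (T.ts (nat_lit 1) (T.ts (nat_lit 3) (T.ts (nat_lit 3) (T.ls (nat_lit 3) (nat_lit 4)) (T.ts (nat_lit 2) (T.ls (nat_lit 3) (nat_lit 4)) d365)) (T.ts (nat_lit 2) (T.ts (nat_lit 3) (T.ls (nat_lit 3) (nat_lit 4)) (T.ts (nat_lit 2) (T.ls (nat_lit 3) (nat_lit 4)) d366)) (T.ts (nat_lit 0) (T.ts (nat_lit 3) (T.tp (T.ts (nat_lit 2) (T.ts (nat_lit 1) (T.ts (nat_lit 3) (T.ts (nat_lit 1) (T.im (nat_lit 11) (nat_lit 2)) (T.sk (T.ls (nat_lit 3) (nat_lit 4)))) (T.sk (T.ls (nat_lit 3) (nat_lit 4)))) (T.sk (T.ls (nat_lit 3) (nat_lit 4)))) (T.sk (T.ls (nat_lit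 3) (nat_lit 4))))) d367) (T.ts (nat_lit 1) (T.im (nat_lit 7) (nat_lit 1)) (T.nw (T.ts (nat_lit 4) (T.tp (T.ts (nat_lit 3) (T.ts (nat_lit 2) (T.ts (nat_lit 4) (T.ts (nat_lit 2) (T.im (nat_lit 11) (nat_lit 2)) (T.sk (T.ls (nat_lit 3) (nat_lit 4)))) (T.sk (T.ls (nat_lit 3) (nat_lit 4)))) (T.sk (T.ls (nat_lit 3) (nat_lit 4)))) (T.sk (T.ls (nat_lit 3) (nat_lit 4))))) (T.ts (nat_lit 3) (T.ls (nat_lit 3) (nat_lit 4)) d368))))))) (T.ts (nat_lit 0) (T.im (nat_lit 5) (nat_lit 2)) (T.nw d371))))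
def d373 : T := (T.ts (nat_lit 3) d360 d372)
def d374 : T := (T.ts (nat_lit 0) (T.ts (nat_lit 3) (T.ts (nat_lit 2) (T.ts (nat_lit 1) (T.ts (nat_lit 3) (T.ts (nat_lit 1) (T.ts (nat_lit 0) (T.ts (nat_lit 1) (T.ts (nat_lit 3) (T.l1 (nat_lit 12300) (nat_lit 4) (nat_lit 20500)) (T.tp (T.sk (T.ls (nat_lit 3) (nat_lit 4))))) (T.tp (T.sk (T.ls (nat_lit 3) (nat_lit 4))))) (T.tp (T.sk (T.ls (nat_lit 3) (nat_lit 4))))) (T.tp (T.sk (T.ls (nat_lit 3) (nat_lit 4))))) (T.tp (T.sk (T.ls (nat_lit 3) (nat_lit 4))))) (T.tp (T.sk (T.ls (nat_lit 3) (nat_lit 4))))) (T.tp (T.sk (T.ls (nat_lit 3) (nat_lit 4))))) (T.tp (T.sk (T.ls (nat_lit 3) (nat_lit 4))))) (T.ts (nat_lit 3) (T.im (nat_lit 7) (nat_lit 2)) (T.ts (nat_lit 1) (T.im (nat_lit 5) (nat_lit 3)) (T.nw (T.ts (nat_lit 4) (T.ts (nat_lit 3) (T.ts (nat_lit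 2) (T.ts (nat_lit 4) (T.ts (nat_lit 2) (T.ts (nat_lit 1) (T.ts (nat_lit 2) (T.ts (nat_lit 4) (T.l1 (nat_lit 12300) (nat_lit 3) (nat_lit 20500)) (T.tp (T.sk (T.ls (nat_lit 3) (nat_lit 4))))) (T.tp (T.sk (T.ls (nat_lit 3) (nat_lit 4))))) (T.tp (T.sk (T.ls (nat_lit 3) (nat_lit 4))))) (T.tp (T.sk (T.ls (nat_lit 3) (nat_lit 4))))) (T.tp (T.sk (T.ls (nat_lit 3) (nat_lit 4))))) (T.tp (T.sk (T.ls (nat_lit 3) (nat_lit 4))))) (T.tp (T.sk (T.ls (nat_lit 3) (nat_lit 4))))) (T.tp (T.sk (T.ls (nat_lit 3) (nat_lit 4)))))))))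
def d375 : T := (T.ts (nat_lit 1) (T.ts (nat_lit 4) (T.ts (nat_lit 3) (T.ts (nat_lit 2) (T.ts (nat_lit 4) (T.ts (nat_lit 2) (T.ts (nat_lit 1) (T.ts (nat_lit 2) (T.ts (nat_lit 4) (T.l1 (nat_lit 12300) (nat_lit 4) (nat_lit 20500)) (T.tp (T.sk (T.ls (nat_lit 3) (nat_lit 4))))) (T.tp (T.sk (T.ls (nat_lit 3) (nat_lit 4))))) (T.tp (T.sk (T.ls (nat_lit 3) (nat_lit 4))))) (T.tp (T.sk (T.ls (nat_lit 3) (nat_lit 4))))) (T.tp (T.sk (T.ls (nat_lit 3) (nat_lit 4))))) (T.tp (T.sk (T.ls (nat_lit 3) (nat_lit 4))))) (T.tp (T.sk (T.ls (nat_lit 3) (nat_lit 4))))) (T.tp (T.sk (T.ls (nat_lit 3) (nat_lit 4))))) (T.ts (nat_lit 0) (T.ts (nat_lit 4) (T.ts (nat_lit 3) (T.ts (nat_lit 2) (T.ts (nat_lit 4) (T.ts (nat_lit 2) (T.ts (nat_lit 1) (T.ts (nat_lit 2) (T.ts (nat_lit 4) (T.l1 (nat_lit 12300) (nat_lit 3)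 (nat_lit 20500)) (T.tp (T.sk (T.ls (nat_lit 3) (nat_lit 4))))) (T.tp (T.sk (T.ls (nat_lit 3) (nat_lit 4))))) (T.tp (T.sk (T.ls (nat_lit 3) (nat_lit 4))))) (T.tp (T.sk (T.ls (nat_lit 3) (nat_lit 4))))) (T.tp (T.sk (T.ls (nat_lit 3) (nat_lit 4))))) (T.tp (T.sk (T.ls (nat_lit 3) (nat_lit 4))))) (T.tp (T.sk (T.ls (nat_lit 3) (nat_lit 4))))) (T.tp (T.sk (T.ls (nat_lit 3) (nat_lit 4))))) (T.tp (T.ts (nat_lit 4) (T.im (nat_lit 7) (nat_lit 2)) T.ie))))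
def d376 : T := (T.ts (nat_lit 2) (T.tp (T.ts (nat_lit 2) (T.ls (nat_lit 3) (nat_lit 4)) (T.ts (nat_lit 1) (T.ls (nat_lit 3) (nat_lit 4)) (T.ts (nat_lit 0) (T.ts (nat_lit 3) (T.ts (nat_lit 2) (T.im (nat_lit 7) (nat_lit 3)) (T.sk (T.ls (nat_lit 3) (nat_lit 4)))) (T.sk (T.ls (nat_lit 3) (nat_lit 4)))) (T.ts (nat_lit 3) (T.im (nat_lit 7) (nat_lit 2)) (T.nw (T.ts (nat_lit 4) (T.ts (nat_lit 3) (T.im (nat_lit 7) (nat_lit 3)) (T.sk (T.ls (nat_lit 3) (nat_lit 4)))) (T.sk (T.ls (nat_lit 3) (nat_lit 4)))))))))) (T.ts (nat_lit 1) (T.ts (nat_lit 2) (T.ls (nat_lit 3) (nat_lit 4)) (T.ts (nat_lit 1) (T.ls (nat_lit 3) (nat_lit 4)) (T.ts (nat_lit 3) (T.im (nat_lit 7) (nat_lit 2)) (T.ts (nat_lit 0) (T.im (nat_lit 3) (nat_lit 4)) (T.nw (T.ts (nat_lit 4) (T.ts (nat_lit 3) (T.ts (nat_lit 2) (T.ts (nat_lit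 4) (T.ts (nat_lit 2) (T.ts (nat_lit 1) (T.ts (nat_lit 2) (T.ts (nat_lit 4) (T.l1 (nat_lit 12300) (nat_lit 3) (nat_lit 20500)) (T.tp (T.sk (T.ls (nat_lit 3) (nat_lit 4))))) (T.tp (T.sk (T.ls (nat_lit 3) (nat_lit 4))))) (T.tp (T.sk (T.ls (nat_lit 3) (nat_lit 4))))) (T.tp (T.sk (T.ls (nat_lit 3) (nat_lit 4))))) (T.tp (T.sk (T.ls (nat_lit 3) (nat_lit 4))))) (T.tp (T.sk (T.ls (nat_lit 3) (nat_lit 4))))) (T.tp (T.sk (T.ls (nat_lit 3) (nat_lit 4))))) (T.tp (T.sk (T.ls (nat_lit 3) (nat_lit 4)))))))))) (T.ts (nat_lit 0) (T.ts (nat_lit 2) (T.ls (nat_lit 3) (nat_lit 4)) d374) (T.ts (nat_lit 3) (T.im (nat_lit 7) (nat_lit 1)) (T.nw (T.ts (nat_lit 3) (T.ls (nat_lit 3) (nat_lit 4)) (T.ts (nat_lit 2) (T.ls (nat_lit 3) (nat_lit 4)) d375)))))))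
def d377 : T := (T.ts (nat_lit 0) (T.ts (nat_lit 3) (T.ts (nat_lit 2) (T.ts (nat_lit 1) (T.ts (nat_lit 3) (T.ts (nat_lit 1) (T.ts (nat_lit 0) (T.ts (nat_lit 1) (T.ts (nat_lit 2) (T.l1 (nat_lit 12300) (nat_lit 4) (nat_lit 20500)) (T.tp (T.sk (T.ls (nat_lit 3) (nat_lit 4))))) (T.tp (T.sk (T.ls (nat_lit 3) (nat_lit 4))))) (T.tp (T.sk (T.ls (nat_lit 3) (nat_lit 4))))) (T.tp (T.sk (T.ls (nat_lit 3) (nat_lit 4))))) (T.tp (T.sk (T.ls (nat_lit 3) (nat_lit 4))))) (T.tp (T.sk (T.ls (nat_lit 3) (nat_lit 4))))) (T.tp (T.sk (T.ls (nat_lit 3) (nat_lit 4))))) (T.tp (T.sk (T.ls (nat_lit 3) (nat_lit 4))))) (T.ts (nat_lit 2) (T.im (nat_lit 7) (nat_lit 2)) (T.nw (T.ts (nat_lit 4) (T.ts (nat_lit 3) (T.ts (nat_lit 2) (T.ts (nat_lit 4) (T.ts (nat_lit 2) (T.ts (nat_lit 1) (T.ts (nat_lit 2) (T.ts (nat_lit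 3) (T.l1 (nat_lit 12300) (nat_lit 3) (nat_lit 20500)) (T.tp (T.sk (T.ls (nat_lit 3) (nat_lit 4))))) (T.tp (T.sk (T.ls (nat_lit 3) (nat_lit 4))))) (T.tp (T.sk (T.ls (nat_lit 3) (nat_lit 4))))) (T.tp (T.sk (T.ls (nat_lit 3) (nat_lit 4))))) (T.tp (T.sk (T.ls (nat_lit 3) (nat_lit 4))))) (T.tp (T.sk (T.ls (nat_lit 3) (nat_lit 4))))) (T.tp (T.sk (T.ls (nat_lit 3) (nat_lit 4))))) (T.tp (T.sk (T.ls (nat_lit 3) (nat_lit 4))))))))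
def d378 : T := (T.ts (nat_lit 0) (T.ts (nat_lit 3) (T.ts (nat_lit 2) (T.ts (nat_lit 1) (T.ts (nat_lit 3) (T.ts (nat_lit 1) (T.ts (nat_lit 0) (T.ts (nat_lit 1) (T.ts (nat_lit 2) (T.l1 (nat_lit 12300) (nat_lit 4) (nat_lit 20500)) (T.tp (T.sk (T.ls (nat_lit 3) (nat_lit 4))))) (T.tp (T.sk (T.ls (nat_lit 3) (nat_lit 4))))) (T.tp (T.sk (T.ls (nat_lit 3) (nat_lit 4))))) (T.tp (T.sk (T.ls (nat_lit 3) (nat_lit 4))))) (T.tp (T.sk (T.ls (nat_lit 3) (nat_lit 4))))) (T.tp (T.sk (T.ls (nat_lit 3) (nat_lit 4))))) (T.tp (T.sk (T.ls (nat_lit 3) (nat_lit 4))))) (T.tp (T.sk (T.ls (nat_lit 3) (nat_lit 4))))) (T.ts (nat_lit 2) (T.im (nat_lit 7) (nat_lit 2)) (T.nw (T.ts (nat_lit 4) (T.ts (nat_lit 3) (T.ts (nat_lit 2) (T.ts (nat_lit 4) (T.ts (nat_lit 2) (T.ts (nat_lit 1) (T.ts (nat_lit 2) (T.ts (nat_lit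 3) (T.l1 (nat_lit 12300) (nat_lit 3) (nat_lit 20500)) (T.tp (T.sk (T.ls (nat_lit 3) (nat_lit 4))))) (T.tp (T.sk (T.ls (nat_lit 3) (nat_lit 4))))) (T.tp (T.sk (T.ls (nat_lit 3) (nat_lit 4))))) (T.tp (T.sk (T.ls (nat_lit 3) (nat_lit 4))))) (T.tp (T.sk (T.ls (nat_lit 3) (nat_lit 4))))) (T.tp (T.sk (T.ls (nat_lit 3) (nat_lit 4))))) (T.tp (T.sk (T.ls (nat_lit 3) (nat_lit 4))))) (T.tp (T.sk (T.ls (nat_lit 3) (nat_lit 4))))))))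
def d379 : T := (T.ts (nat_lit 0) (T.ts (nat_lit 3) (T.ts (nat_lit 2) (T.ts (nat_lit 1) (T.ts (nat_lit 3) (T.ts (nat_lit 1) (T.ts (nat_lit 0) (T.ts (nat_lit 1) (T.ts (nat_lit 2) (T.l1 (nat_lit 12300) (nat_lit 4) (nat_lit 20500)) (T.tp (T.sk (T.ls (nat_lit 3) (nat_lit 4))))) (T.tp (T.sk (T.ls (nat_lit 3) (nat_lit 4))))) (T.tp (T.sk (T.ls (nat_lit 3) (nat_lit 4))))) (T.tp (T.sk (T.ls (nat_lit 3) (nat_lit 4))))) (T.tp (T.sk (T.ls (nat_lit 3) (nat_lit 4))))) (T.tp (T.sk (T.ls (nat_lit 3) (nat_lit 4))))) (T.tp (T.sk (T.ls (nat_lit 3) (nat_lit 4))))) (T.tp (T.sk (T.ls (nat_lit 3) (nat_lit 4))))) (T.ts (nat_lit 2) (T.im (nat_lit 7) (nat_lit 2)) (T.ts (nat_lit 1) (T.im (nat_lit 5) (nat_lit 3)) (T.nw (T.ts (nat_lit 4) (T.ts (nat_lit 3) (T.ts (nat_lit 2) (T.ts (nat_lit 4) (T.ts (nat_lit 2)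 (T.ts (nat_lit 1) (T.ts (nat_lit 2) (T.ts (nat_lit 3) (T.l1 (nat_lit 12300) (nat_lit 3) (nat_lit 20500)) (T.tp (T.sk (T.ls (nat_lit 3) (nat_lit 4))))) (T.tp (T.sk (T.ls (nat_lit 3) (nat_lit 4))))) (T.tp (T.sk (T.ls (nat_lit 3) (nat_lit 4))))) (T.tp (T.sk (T.ls (nat_lit 3) (nat_lit 4))))) (T.tp (T.sk (T.ls (nat_lit 3) (nat_lit 4))))) (T.tp (T.sk (T.ls (nat_lit 3) (nat_lit 4))))) (T.tp (T.sk (T.ls (nat_lit 3) (nat_lit 4))))) (T.tp (T.sk (T.ls (nat_lit 3) (nat_lit 4)))))))))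
def d380 : T := (T.ts (nat_lit 1) (T.ts (nat_lit 4) (T.ts (nat_lit 3) (T.ts (nat_lit 2) (T.ts (nat_lit 4) (T.ts (nat_lit 2) (T.ts (nat_lit 1) (T.ts (nat_lit 2) (T.ts (nat_lit 3) (T.l1 (nat_lit 12300) (nat_lit 4) (nat_lit 20500)) (T.tp (T.sk (T.ls (nat_lit 3) (nat_lit 4))))) (T.tp (T.sk (T.ls (nat_lit 3) (nat_lit 4))))) (T.tp (T.sk (T.ls (nat_lit 3) (nat_lit 4))))) (T.tp (T.sk (T.ls (nat_lit 3) (nat_lit 4))))) (T.tp (T.sk (T.ls (nat_lit 3) (nat_lit 4))))) (T.tp (T.sk (T.ls (nat_lit 3) (nat_lit 4))))) (T.tp (T.sk (T.ls (nat_lit 3) (nat_lit 4))))) (T.tp (T.sk (T.ls (nat_lit 3) (nat_lit 4))))) (T.ts (nat_lit 0) (T.ts (nat_lit 4) (T.ts (nat_lit 3) (T.ts (nat_lit 2) (T.ts (nat_lit 4) (T.ts (nat_lit 2) (T.ts (nat_lit 1) (T.ts (nat_lit 2) (T.ts (nat_lit 3) (T.l1 (nat_lit 12300) (nat_lit 3)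 (nat_lit 20500)) (T.tp (T.sk (T.ls (nat_lit 3) (nat_lit 4))))) (T.tp (T.sk (T.ls (nat_lit 3) (nat_lit 4))))) (T.tp (T.sk (T.ls (nat_lit 3) (nat_lit 4))))) (T.tp (T.sk (T.ls (nat_lit 3) (nat_lit 4))))) (T.tp (T.sk (T.ls (nat_lit 3) (nat_lit 4))))) (T.tp (T.sk (T.ls (nat_lit 3) (nat_lit 4))))) (T.tp (T.sk (T.ls (nat_lit 3) (nat_lit 4))))) (T.tp (T.sk (T.ls (nat_lit 3) (nat_lit 4))))) (T.tp (T.ts (nat_lit 3) (T.im (nat_lit 7) (nat_lit 2)) T.ie))))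
def d381 : T := (T.ts (nat_lit 0) (T.ts (nat_lit 3) (T.ts (nat_lit 2) (T.ts (nat_lit 1) (T.ts (nat_lit 3) (T.ts (nat_lit 1) (T.ts (nat_lit 0) (T.ts (nat_lit 1) (T.ts (nat_lit 1) (T.l1 (nat_lit 12300) (nat_lit 4) (nat_lit 20500)) (T.tp (T.sk (T.ls (nat_lit 3) (nat_lit 4))))) (T.tp (T.sk (T.ls (nat_lit 3) (nat_lit 4))))) (T.tp (T.sk (T.ls (nat_lit 3) (nat_lit 4))))) (T.tp (T.sk (T.ls (nat_lit 3) (nat_lit 4))))) (T.tp (T.sk (T.ls (nat_lit 3) (nat_lit 4))))) (T.tp (T.sk (T.ls (nat_lit 3) (nat_lit 4))))) (T.tp (T.sk (T.ls (nat_lit 3) (nat_lit 4))))) (T.tp (T.sk (T.ls (nat_lit 3) (nat_lit 4))))) (T.ts (nat_lit 1) (T.im (nat_lit 7) (nat_lit 2)) (T.nw (T.ts (nat_lit 4) (T.ts (nat_lit 3) (T.ts (nat_lit 2) (T.ts (nat_lit 4) (T.ts (nat_lit 2) (T.ts (nat_lit 1) (T.ts (nat_lit 2) (T.ts (nat_lit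 2) (T.l1 (nat_lit 12300) (nat_lit 3) (nat_lit 20500)) (T.tp (T.sk (T.ls (nat_lit 3) (nat_lit 4))))) (T.tp (T.sk (T.ls (nat_lit 3) (nat_lit 4))))) (T.tp (T.sk (T.ls (nat_lit 3) (nat_lit 4))))) (T.tp (T.sk (T.ls (nat_lit 3) (nat_lit 4))))) (T.tp (T.sk (T.ls (nat_lit 3) (nat_lit 4))))) (T.tp (T.sk (T.ls (nat_lit 3) (nat_lit 4))))) (T.tp (T.sk (T.ls (nat_lit 3) (nat_lit 4))))) (T.tp (T.sk (T.ls (nat_lit 3) (nat_lit 4))))))))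
def d382 : T := (T.ts (nat_lit 0) (T.ts (nat_lit 3) (T.ts (nat_lit 2) (T.ts (nat_lit 1) (T.ts (nat_lit 3) (T.ts (nat_lit 1) (T.ts (nat_lit 0) (T.ts (nat_lit 1) (T.ts (nat_lit 1) (T.l1 (nat_lit 12300) (nat_lit 4) (nat_lit 20500)) (T.sk (T.lf (nat_lit 16569) (nat_lit 3) (nat_lit 12300) (nat_lit 4) (nat_lit 20500)))) (T.sk (T.lf (nat_lit 16569) (nat_lit 3) (nat_lit 12300) (nat_lit 4) (nat_lit 20500)))) (T.tp (T.sk (T.ls (nat_lit 3) (nat_lit 4))))) (T.tp (T.sk (T.ls (nat_lit 3) (nat_lit 4))))) (T.tp (T.sk (T.ls (nat_lit 3) (nat_lit 4))))) (T.tp (T.sk (T.ls (nat_lit 3) (nat_lit 4))))) (T.tp (T.sk (T.ls (nat_lit 3) (nat_lit 4))))) (T.tp (T.sk (T.ls (nat_lit 3) (nat_lit 4))))) (T.ts (nat_lit 1) (T.im (nat_lit 7) (nat_lit 2)) (T.nw (T.ts (nat_lit 4) (T.ts (nat_lit 3) (T.ts (nat_lit 2) (T.ts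 (nat_lit 4) (T.ts (nat_lit 2) (T.ts (nat_lit 1) (T.ts (nat_lit 2) (T.ts (nat_lit 2) (T.l1 (nat_lit 12300) (nat_lit 3) (nat_lit 20500)) (T.sk (T.lf (nat_lit 16569) (nat_lit 3) (nat_lit 20500) (nat_lit 4) (nat_lit 12300)))) (T.sk (T.lf (nat_lit 16569) (nat_lit 3) (nat_lit 20500) (nat_lit 4) (nat_lit 12300)))) (T.tp (T.sk (T.ls (nat_lit 3) (nat_lit 4))))) (T.tp (T.sk (T.ls (nat_lit 3) (nat_lit 4))))) (T.tp (T.sk (T.ls (nat_lit 3) (nat_lit 4))))) (T.tp (T.sk (T.ls (nat_lit 3) (nat_lit 4))))) (T.tp (T.sk (T.ls (nat_lit 3) (nat_lit 4))))) (T.tp (T.sk (T.ls (nat_lit 3) (nat_lit 4))))))))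
def d383 : T := (T.ts (nat_lit 0) (T.ts (nat_lit 3) (T.ts (nat_lit 2) (T.ts (nat_lit 1) (T.ts (nat_lit 3) (T.ts (nat_lit 1) (T.ts (nat_lit 0) (T.ts (nat_lit 1) (T.ts (nat_lit 1) (T.l1 (nat_lit 12300) (nat_lit 4) (nat_lit 20500)) (T.tp (T.sk (T.ls (nat_lit 3) (nat_lit 4))))) (T.tp (T.sk (T.ls (nat_lit 3) (nat_lit 4))))) (T.tp (T.sk (T.ls (nat_lit 3) (nat_lit 4))))) (T.tp (T.sk (T.ls (nat_lit 3) (nat_lit 4))))) (T.tp (T.sk (T.ls (nat_lit 3) (nat_lit 4))))) (T.tp (T.sk (T.ls (nat_lit 3) (nat_lit 4))))) (T.tp (T.sk (T.ls (nat_lit 3) (nat_lit 4))))) (T.tp (T.sk (T.ls (nat_lit 3) (nat_lit 4))))) (T.ts (nat_lit 1) (T.im (nat_lit 5) (nat_lit 3)) (T.nw (T.ts (nat_lit 4) (T.ts (nat_lit 3) (T.ts (nat_lit 2) (T.ts (nat_lit 4) (T.ts (nat_lit 2) (T.ts (nat_lit 1) (T.ts (nat_lit 2) (T.ts (nat_lit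 2) (T.l1 (nat_lit 12300) (nat_lit 3) (nat_lit 20500)) (T.tp (T.sk (T.ls (nat_lit 3) (nat_lit 4))))) (T.tp (T.sk (T.ls (nat_lit 3) (nat_lit 4))))) (T.tp (T.sk (T.ls (nat_lit 3) (nat_lit 4))))) (T.tp (T.sk (T.ls (nat_lit 3) (nat_lit 4))))) (T.tp (T.sk (T.ls (nat_lit 3) (nat_lit 4))))) (T.tp (T.sk (T.ls (nat_lit 3) (nat_lit 4))))) (T.tp (T.sk (T.ls (nat_lit 3) (nat_lit 4))))) (T.tp (T.sk (T.ls (nat_lit 3) (nat_lit 4))))))))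
def d384 : T := (T.ts (nat_lit 1) (T.ts (nat_lit 4) (T.ts (nat_lit 3) (T.ts (nat_lit 2) (T.ts (nat_lit 4) (T.ts (nat_lit 2) (T.ts (nat_lit 1) (T.ts (nat_lit 2) (T.ts (nat_lit 2) (T.l1 (nat_lit 12300) (nat_lit 4) (nat_lit 20500)) (T.tp (T.sk (T.ls (nat_lit 3) (nat_lit 4))))) (T.tp (T.sk (T.ls (nat_lit 3) (nat_lit 4))))) (T.tp (T.sk (T.ls (nat_lit 3) (nat_lit 4))))) (T.tp (T.sk (T.ls (nat_lit 3) (nat_lit 4))))) (T.tp (T.sk (T.ls (nat_lit 3) (nat_lit 4))))) (T.tp (T.sk (T.ls (nat_lit 3) (nat_lit 4))))) (T.tp (T.sk (T.ls (nat_lit 3) (nat_lit 4))))) (T.tp (T.sk (T.ls (nat_lit 3) (nat_lit 4))))) (T.ts (nat_lit 0) (T.ts (nat_lit 4) (T.ts (nat_lit 3) (T.ts (nat_lit 2) (T.ts (nat_lit 4) (T.ts (nat_lit 2) (T.ts (nat_lit 1) (T.ts (nat_lit 2) (T.ts (nat_lit 2) (T.l1 (nat_lit 12300) (nat_lit 3)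 (nat_lit 20500)) (T.tp (T.sk (T.ls (nat_lit 3) (nat_lit 4))))) (T.tp (T.sk (T.ls (nat_lit 3) (nat_lit 4))))) (T.tp (T.sk (T.ls (nat_lit 3) (nat_lit 4))))) (T.tp (T.sk (T.ls (nat_lit 3) (nat_lit 4))))) (T.tp (T.sk (T.ls (nat_lit 3) (nat_lit 4))))) (T.tp (T.sk (T.ls (nat_lit 3) (nat_lit 4))))) (T.tp (T.sk (T.ls (nat_lit 3) (nat_lit 4))))) (T.tp (T.sk (T.ls (nat_lit 3) (nat_lit 4))))) (T.tp (T.ts (nat_lit 2) (T.im (nat_lit 7) (nat_lit 2)) T.ie))))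
def d385 : T := (T.ts (nat_lit 4) (T.ls (nat_lit 3) (nat_lit 4)) (T.ts (nat_lit 3) (T.ts (nat_lit 4) (T.ls (nat_lit 3) (nat_lit 4)) (T.ts (nat_lit 2) (T.ts (nat_lit 4) (T.ts (nat_lit 2) (T.ts (nat_lit 1) (T.l1 (nat_lit 12300) (nat_lit 3) (nat_lit 20500)) (T.tp (T.sk (T.ls (nat_lit 3) (nat_lit 4))))) (T.tp (T.sk (T.ls (nat_lit 3) (nat_lit 4))))) (T.tp (T.sk (T.ls (nat_lit 3) (nat_lit 4))))) (T.tp (T.sk (T.ls (nat_lit 3) (nat_lit 4)))))) (T.ts (nat_lit 2) (T.ls (nat_lit 3) (nat_lit 4)) (T.ts (nat_lit 1) (T.ts (nat_lit 4) (T.ts (nat_lit 3) (T.ts (nat_lit 2) (T.ts (nat_lit 4) (T.ts (nat_lit 2) (T.ts (nat_lit 1) (T.ts (nat_lit 2) (T.ts (nat_lit 0) (T.l1 (nat_lit 12300) (nat_lit 4) (nat_lit 20500)) (T.tp (T.sk (T.ls (nat_lit 3) (nat_lit 4))))) (T.tp (T.sk (T.ls (nat_lit 3) (nat_lit 4)))))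 (T.tp (T.sk (T.ls (nat_lit 3) (nat_lit 4))))) (T.tp (T.sk (T.ls (nat_lit 3) (nat_lit 4))))) (T.tp (T.sk (T.ls (nat_lit 3) (nat_lit 4))))) (T.tp (T.sk (T.ls (nat_lit 3) (nat_lit 4))))) (T.tp (T.sk (T.ls (nat_lit 3) (nat_lit 4))))) (T.tp (T.sk (T.ls (nat_lit 3) (nat_lit 4))))) (T.tp (T.ts (nat_lit 0) (T.im (nat_lit 7) (nat_lit 2)) T.ie))))))
def d386 : T := (T.ts (nat_lit 1) (T.ts (nat_lit 4) (T.tp (T.ts (nat_lit 3) (T.ts (nat_lit 2) (T.ts (nat_lit 4) (T.ts (nat_lit 2) (T.im (nat_lit 11) (nat_lit 2)) (T.sk (T.ls (nat_lit 3) (nat_lit 4)))) (T.sk (T.ls (nat_lit 3) (nat_lit 4)))) (T.sk (T.ls (nat_lit 3) (nat_lit 4)))) (T.sk (T.ls (nat_lit 3) (nat_lit 4))))) (T.ts (nat_lit 3) (T.ls (nat_lit 3) (nat_lit 4)) (T.ts (nat_lit 1) (T.ts (nat_lit 4) (T.ts (nat_lit 3) (T.ts (nat_lit 2) (T.ts (nat_lit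 4) (T.ts (nat_lit 2) (T.ts (nat_lit 1) (T.ts (nat_lit 2) (T.ts (nat_lit 0) (T.l1 (nat_lit 12300) (nat_lit 4) (nat_lit 20500)) (T.tp (T.sk (T.ls (nat_lit 3) (nat_lit 4))))) (T.tp (T.sk (T.ls (nat_lit 3) (nat_lit 4))))) (T.tp (T.sk (T.ls (nat_lit 3) (nat_lit 4))))) (T.tp (T.sk (T.ls (nat_lit 3) (nat_lit 4))))) (T.tp (T.sk (T.ls (nat_lit 3) (nat_lit 4))))) (T.tp (T.sk (T.ls (nat_lit 3) (nat_lit 4))))) (T.tp (T.sk (T.ls (nat_lit 3) (nat_lit 4))))) (T.tp (T.sk (T.ls (nat_lit 3) (nat_lit 4))))) (T.tp (T.ts (nat_lit 2) (T.im (nat_lit 5) (nat_lit 3)) (T.ts (nat_lit 0) (T.im (nat_lit 7) (nat_lit 2)) T.ie)))))) (T.tp (T.ts (nat_lit 0) (T.im (nat_lit 7) (nat_lit 1)) T.ie)))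
def d387 : T := (T.ts (nat_lit 3) (T.ts (nat_lit 4) (T.ls (nat_lit 3) (nat_lit 4)) (T.ts (nat_lit 3) (T.ls (nat_lit 3) (nat_lit 4)) (T.ts (nat_lit 2) (T.ls (nat_lit 3) (nat_lit 4)) (T.ts (nat_lit 1) (T.ts (nat_lit 4) (T.ts (nat_lit 3) (T.ts (nat_lit 2) (T.ts (nat_lit 4) (T.ts (nat_lit 2) (T.ts (nat_lit 1) (T.ts (nat_lit 2) (T.ts (nat_lit 0) (T.l1 (nat_lit 12300) (nat_lit 4) (nat_lit 20500)) (T.sk (T.lf (nat_lit 16569) (nat_lit 3) (nat_lit 12300) (nat_lit 4) (nat_lit 20500)))) (T.sk (T.lf (nat_lit 16569) (nat_lit 3) (nat_lit 12300) (nat_lit 4) (nat_lit 20500)))) (T.tp (T.sk (T.ls (nat_lit 3) (nat_lit 4))))) (T.tp (T.sk (T.ls (nat_lit 3) (nat_lit 4))))) (T.tp (T.sk (T.ls (nat_lit 3) (nat_lit 4))))) (T.tp (T.sk (T.ls (nat_lit 3) (nat_lit 4))))) (T.tp (T.sk (T.ls (nat_lit 3) (nat_lit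 4))))) (T.tp (T.sk (T.ls (nat_lit 3) (nat_lit 4))))) (T.tp (T.ts (nat_lit 0) (T.im (nat_lit 7) (nat_lit 2)) T.ie)))))) (T.ts (nat_lit 2) (T.ts (nat_lit 4) (T.ls (nat_lit 3) (nat_lit 4)) (T.ts (nat_lit 3) (T.ls (nat_lit 3) (nat_lit 4)) (T.ts (nat_lit 2) (T.ls (nat_lit 3) (nat_lit 4)) (T.ts (nat_lit 1) (T.ts (nat_lit 4) (T.ts (nat_lit 3) (T.ts (nat_lit 2) (T.ts (nat_lit 4) (T.ts (nat_lit 2) (T.ts (nat_lit 1) (T.ts (nat_lit 2) (T.ts (nat_lit 0) (T.l1 (nat_lit 12300) (nat_lit 4) (nat_lit 20500)) (T.tp (T.sk (T.ls (nat_lit 3) (nat_lit 4))))) (T.tp (T.sk (T.ls (nat_lit 3) (nat_lit 4))))) (T.tp (T.sk (T.ls (nat_lit 3) (nat_lit 4))))) (T.tp (T.sk (T.ls (nat_lit 3) (nat_lit 4))))) (T.tp (T.sk (T.ls (nat_lit 3) (nat_lit 4))))) (T.tp (T.sk (T.ls (nat_lit 3) (nat_lit 4))))) (T.tp (T.sk (T.ls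 (nat_lit 3) (nat_lit 4))))) (T.tp (T.sk (T.ls (nat_lit 3) (nat_lit 4))))) (T.tp (T.ts (nat_lit 0) (T.im (nat_lit 7) (nat_lit 2)) T.ie)))))) d386))
def d388 : T := (T.ts (nat_lit 2) (T.ts (nat_lit 3) (T.ts (nat_lit 3) (T.ls (nat_lit 3) (nat_lit 4)) (T.ts (nat_lit 1) (T.ls (nat_lit 3) (nat_lit 4)) d377)) (T.ts (nat_lit 1) (T.ts (nat_lit 3) (T.ls (nat_lit 3) (nat_lit 4)) (T.ts (nat_lit 1) (T.ls (nat_lit 3) (nat_lit 4)) d378)) (T.ts (nat_lit 0) (T.ts (nat_lit 3) (T.tp (T.ts (nat_lit 2) (T.ts (nat_lit 1) (T.ts (nat_lit 3) (T.ts (nat_lit 1) (T.im (nat_lit 11) (nat_lit 2)) (T.sk (T.ls (nat_lit 3) (nat_lit 4)))) (T.sk (T.ls (nat_lit 3) (nat_lit 4)))) (T.sk (T.ls (nat_lit 3) (nat_lit 4)))) (T.sk (T.ls (nat_lit 3) (nat_lit 4))))) d379) (T.ts (nat_lit 2) (T.im (nat_lit 7) (nat_lit 1)) (T.nw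 (T.ts (nat_lit 4) (T.tp (T.ts (nat_lit 3) (T.ts (nat_lit 2) (T.ts (nat_lit 4) (T.ts (nat_lit 2) (T.im (nat_lit 11) (nat_lit 2)) (T.sk (T.ls (nat_lit 3) (nat_lit 4)))) (T.sk (T.ls (nat_lit 3) (nat_lit 4)))) (T.sk (T.ls (nat_lit 3) (nat_lit 4)))) (T.sk (T.ls (nat_lit 3) (nat_lit 4))))) (T.ts (nat_lit 2) (T.ls (nat_lit 3) (nat_lit 4)) d380))))))) (T.ts (nat_lit 1) (T.ts (nat_lit 3) (T.ts (nat_lit 3) (T.ls (nat_lit 3) (nat_lit 4)) (T.ts (nat_lit 2) (T.ls (nat_lit 3) (nat_lit 4)) d381)) (T.ts (nat_lit 2) (T.ts (nat_lit 3) (T.ls (nat_lit 3) (nat_lit 4)) (T.ts (nat_lit 2) (T.ls (nat_lit 3) (nat_lit 4)) d382)) (T.ts (nat_lit 0) (T.ts (nat_lit 3) (T.tp (T.ts (nat_lit 2) (T.ts (nat_lit 1) (T.ts (nat_lit 3) (T.ts (nat_lit 1) (T.im (nat_lit 11) (nat_lit 2)) (T.sk (T.ls (nat_lit 3) (nat_lit 4))))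 (T.sk (T.ls (nat_lit 3) (nat_lit 4)))) (T.sk (T.ls (nat_lit 3) (nat_lit 4)))) (T.sk (T.ls (nat_lit 3) (nat_lit 4))))) (T.ts (nat_lit 2) (T.ls (nat_lit 3) (nat_lit 4)) d383)) (T.ts (nat_lit 1) (T.im (nat_lit 7) (nat_lit 1)) (T.nw (T.ts (nat_lit 4) (T.tp (T.ts (nat_lit 3) (T.ts (nat_lit 2) (T.ts (nat_lit 4) (T.ts (nat_lit 2) (T.im (nat_lit 11) (nat_lit 2)) (T.sk (T.ls (nat_lit 3) (nat_lit 4)))) (T.sk (T.ls (nat_lit 3) (nat_lit 4)))) (T.sk (T.ls (nat_lit 3) (nat_lit 4)))) (T.sk (T.ls (nat_lit 3) (nat_lit 4))))) (T.ts (nat_lit 3) (T.ls (nat_lit 3) (nat_lit 4)) d384))))))) (T.ts (nat_lit 0) (T.im (nat_lit 5) (nat_lit 2)) (T.nw (T.ts (nat_lit 4) d385 d387)))))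
def d389 : T := (T.ts (nat_lit 3) d376 d388)
def d390 : T := (T.ts (nat_lit 1) (T.ts (nat_lit 4) (T.ts (nat_lit 3) (T.ts (nat_lit 2) (T.ts (nat_lit 4) (T.ts (nat_lit 2) (T.ts (nat_lit 1) (T.ts (nat_lit 0) (T.ts (nat_lit 4) (T.l1 (nat_lit 12300) (nat_lit 4) (nat_lit 20500)) (T.tp (T.sk (T.ls (nat_lit 3) (nat_lit 4))))) (T.tp (T.sk (T.ls (nat_lit 3) (nat_lit 4))))) (T.tp (T.sk (T.ls (nat_lit 3) (nat_lit 4))))) (T.tp (T.sk (T.ls (nat_lit 3) (nat_lit 4))))) (T.tp (T.sk (T.ls (nat_lit 3) (nat_lit 4))))) (T.tp (T.sk (T.ls (nat_lit 3) (nat_lit 4))))) (T.tp (T.sk (T.ls (nat_lit 3) (nat_lit 4))))) (T.tp (T.sk (T.ls (nat_lit 3) (nat_lit 4))))) (T.ts (nat_lit 0) (T.ts (nat_lit 4) (T.ts (nat_lit 3) (T.ts (nat_lit 2) (T.ts (nat_lit 4) (T.ts (nat_lit 2) (T.ts (nat_lit 1) (T.ts (nat_lit 0) (T.ts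 (nat_lit 4) (T.l1 (nat_lit 12300) (nat_lit 3) (nat_lit 20500)) (T.tp (T.sk (T.ls (nat_lit 3) (nat_lit 4))))) (T.tp (T.sk (T.ls (nat_lit 3) (nat_lit 4))))) (T.tp (T.sk (T.ls (nat_lit 3) (nat_lit 4))))) (T.tp (T.sk (T.ls (nat_lit 3) (nat_lit 4))))) (T.tp (T.sk (T.ls (nat_lit 3) (nat_lit 4))))) (T.tp (T.sk (T.ls (nat_lit 3) (nat_lit 4))))) (T.tp (T.sk (T.ls (nat_lit 3) (nat_lit 4))))) (T.tp (T.sk (T.ls (nat_lit 3) (nat_lit 4))))) (T.tp (T.ts (nat_lit 4) (T.im (nat_lit 7) (nat_lit 2)) T.ie))))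
def d391 : T := (T.ts (nat_lit 2) (T.ts (nat_lit 3) (T.ls (nat_lit 3) (nat_lit 4)) (T.ts (nat_lit 2) (T.ls (nat_lit 3) (nat_lit 4)) (T.ts (nat_lit 0) (T.ts (nat_lit 4) (T.ts (nat_lit 3) (T.ts (nat_lit 2) (T.ts (nat_lit 4) (T.ts (nat_lit 2) (T.ts (nat_lit 1) (T.ts (nat_lit 0) (T.ts (nat_lit 4) (T.l1 (nat_lit 12300) (nat_lit 3) (nat_lit 20500)) (T.tp (T.sk (T.ls (nat_lit 3) (nat_lit 4))))) (T.tp (T.sk (T.ls (nat_lit 3) (nat_lit 4))))) (T.tp (T.sk (T.ls (nat_lit 3) (nat_lit 4))))) (T.tp (T.sk (T.ls (nat_lit 3) (nat_lit 4))))) (T.tp (T.sk (T.ls (nat_lit 3) (nat_lit 4))))) (T.tp (T.sk (T.ls (nat_lit 3) (nat_lit 4))))) (T.tp (T.sk (T.ls (nat_lit 3) (nat_lit 4))))) (T.tp (T.sk (T.ls (nat_lit 3) (nat_lit 4))))) (T.tp (T.ts (nat_lit 4) (T.im (nat_lit 7) (nat_lit 2)) (T.ts (nat_lit 1) (T.im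 (nat_lit 3) (nat_lit 4)) T.ie)))))) (T.ts (nat_lit 1) (T.ts (nat_lit 3) (T.ls (nat_lit 3) (nat_lit 4)) (T.ts (nat_lit 2) (T.ls (nat_lit 3) (nat_lit 4)) (T.ts (nat_lit 1) (T.ts (nat_lit 4) (T.ts (nat_lit 3) (T.ts (nat_lit 2) (T.ts (nat_lit 4) (T.ts (nat_lit 2) (T.ts (nat_lit 1) (T.ts (nat_lit 0) (T.ts (nat_lit 4) (T.l1 (nat_lit 12300) (nat_lit 4) (nat_lit 20500)) (T.tp (T.sk (T.ls (nat_lit 3) (nat_lit 4))))) (T.tp (T.sk (T.ls (nat_lit 3) (nat_lit 4))))) (T.tp (T.sk (T.ls (nat_lit 3) (nat_lit 4))))) (T.tp (T.sk (T.ls (nat_lit 3) (nat_lit 4))))) (T.tp (T.sk (T.ls (nat_lit 3) (nat_lit 4))))) (T.tp (T.sk (T.ls (nat_lit 3) (nat_lit 4))))) (T.tp (T.sk (T.ls (nat_lit 3) (nat_lit 4))))) (T.tp (T.sk (T.ls (nat_lit 3) (nat_lit 4))))) (T.tp (T.ts (nat_lit 4) (T.im (nat_lit 7) (nat_lit 2)) (T.ts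 (nat_lit 0) (T.im (nat_lit 5) (nat_lit 3)) T.ie)))))) (T.ts (nat_lit 0) (T.ts (nat_lit 3) (T.ls (nat_lit 3) (nat_lit 4)) (T.ts (nat_lit 2) (T.ls (nat_lit 3) (nat_lit 4)) d390)) (T.tp (T.ts (nat_lit 4) (T.im (nat_lit 7) (nat_lit 1)) T.ie)))))
def d392 : T := (T.ts (nat_lit 1) (T.ts (nat_lit 4) (T.ts (nat_lit 3) (T.ts (nat_lit 2) (T.ts (nat_lit 4) (T.ts (nat_lit 2) (T.ts (nat_lit 1) (T.ts (nat_lit 0) (T.ts (nat_lit 3) (T.l1 (nat_lit 12300) (nat_lit 4) (nat_lit 20500)) (T.tp (T.sk (T.ls (nat_lit 3) (nat_lit 4))))) (T.tp (T.sk (T.ls (nat_lit 3) (nat_lit 4))))) (T.tp (T.sk (T.ls (nat_lit 3) (nat_lit 4))))) (T.tp (T.sk (T.ls (nat_lit 3) (nat_lit 4))))) (T.tp (T.sk (T.ls (nat_lit 3) (nat_lit 4))))) (T.tp (T.sk (T.ls (nat_lit 3) (nat_lit 4))))) (T.tp (T.sk (T.ls (nat_lit 3) (nat_lit 4)))))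 (T.tp (T.sk (T.ls (nat_lit 3) (nat_lit 4))))) (T.ts (nat_lit 0) (T.ts (nat_lit 4) (T.ts (nat_lit 3) (T.ts (nat_lit 2) (T.ts (nat_lit 4) (T.ts (nat_lit 2) (T.ts (nat_lit 1) (T.ts (nat_lit 0) (T.ts (nat_lit 3) (T.l1 (nat_lit 12300) (nat_lit 3) (nat_lit 20500)) (T.tp (T.sk (T.ls (nat_lit 3) (nat_lit 4))))) (T.tp (T.sk (T.ls (nat_lit 3) (nat_lit 4))))) (T.tp (T.sk (T.ls (nat_lit 3) (nat_lit 4))))) (T.tp (T.sk (T.ls (nat_lit 3) (nat_lit 4))))) (T.tp (T.sk (T.ls (nat_lit 3) (nat_lit 4))))) (T.tp (T.sk (T.ls (nat_lit 3) (nat_lit 4))))) (T.tp (T.sk (T.ls (nat_lit 3) (nat_lit 4))))) (T.tp (T.sk (T.ls (nat_lit 3) (nat_lit 4))))) (T.tp (T.ts (nat_lit 3) (T.im (nat_lit 7) (nat_lit 2)) T.ie))))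
def d393 : T := (T.ts (nat_lit 1) (T.ts (nat_lit 4) (T.ts (nat_lit 3) (T.ts (nat_lit 2) (T.ts (nat_lit 4) (T.ts (nat_lit 2) (T.ts (nat_lit 1) (T.ts (nat_lit 0) (T.ts (nat_lit 3) (T.l1 (nat_lit 12300) (nat_lit 4) (nat_lit 20500)) (T.tp (T.sk (T.ls (nat_lit 3) (nat_lit 4))))) (T.tp (T.sk (T.ls (nat_lit 3) (nat_lit 4))))) (T.tp (T.sk (T.ls (nat_lit 3) (nat_lit 4))))) (T.tp (T.sk (T.ls (nat_lit 3) (nat_lit 4))))) (T.tp (T.sk (T.ls (nat_lit 3) (nat_lit 4))))) (T.tp (T.sk (T.ls (nat_lit 3) (nat_lit 4))))) (T.tp (T.sk (T.ls (nat_lit 3) (nat_lit 4))))) (T.tp (T.sk (T.ls (nat_lit 3) (nat_lit 4))))) (T.ts (nat_lit 0) (T.ts (nat_lit 4) (T.ts (nat_lit 3) (T.ts (nat_lit 2) (T.ts (nat_lit 4) (T.ts (nat_lit 2) (T.ts (nat_lit 1) (T.ts (nat_lit 0) (T.ts (nat_lit 3) (T.l1 (nat_lit 12300) (nat_lit 3)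 (nat_lit 20500)) (T.tp (T.sk (T.ls (nat_lit 3) (nat_lit 4))))) (T.tp (T.sk (T.ls (nat_lit 3) (nat_lit 4))))) (T.tp (T.sk (T.ls (nat_lit 3) (nat_lit 4))))) (T.tp (T.sk (T.ls (nat_lit 3) (nat_lit 4))))) (T.tp (T.sk (T.ls (nat_lit 3) (nat_lit 4))))) (T.tp (T.sk (T.ls (nat_lit 3) (nat_lit 4))))) (T.tp (T.sk (T.ls (nat_lit 3) (nat_lit 4))))) (T.tp (T.sk (T.ls (nat_lit 3) (nat_lit 4))))) (T.tp (T.ts (nat_lit 3) (T.im (nat_lit 7) (nat_lit 2)) T.ie))))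
def d394 : T := (T.ts (nat_lit 1) (T.ts (nat_lit 4) (T.ts (nat_lit 3) (T.ts (nat_lit 2) (T.ts (nat_lit 4) (T.ts (nat_lit 2) (T.ts (nat_lit 1) (T.ts (nat_lit 0) (T.ts (nat_lit 3) (T.l1 (nat_lit 12300) (nat_lit 4) (nat_lit 20500)) (T.tp (T.sk (T.ls (nat_lit 3) (nat_lit 4))))) (T.tp (T.sk (T.ls (nat_lit 3) (nat_lit 4))))) (T.tp (T.sk (T.ls (nat_lit 3) (nat_lit 4))))) (T.tp (T.sk (T.ls (nat_lit 3) (nat_lit 4))))) (T.tp (T.sk (T.ls (nat_lit 3) (nat_lit 4))))) (T.tp (T.sk (T.ls (nat_lit 3) (nat_lit 4))))) (T.tp (T.sk (T.ls (nat_lit 3) (nat_lit 4))))) (T.tp (T.sk (T.ls (nat_lit 3) (nat_lit 4))))) (T.ts (nat_lit 0) (T.ts (nat_lit 4) (T.ts (nat_lit 3) (T.ts (nat_lit 2) (T.ts (nat_lit 4) (T.ts (nat_lit 2) (T.ts (nat_lit 1) (T.ts (nat_lit 0) (T.ts (nat_lit 3) (T.l1 (nat_lit 12300) (nat_lit 3)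 (nat_lit 20500)) (T.tp (T.sk (T.ls (nat_lit 3) (nat_lit 4))))) (T.tp (T.sk (T.ls (nat_lit 3) (nat_lit 4))))) (T.tp (T.sk (T.ls (nat_lit 3) (nat_lit 4))))) (T.tp (T.sk (T.ls (nat_lit 3) (nat_lit 4))))) (T.tp (T.sk (T.ls (nat_lit 3) (nat_lit 4))))) (T.tp (T.sk (T.ls (nat_lit 3) (nat_lit 4))))) (T.tp (T.sk (T.ls (nat_lit 3) (nat_lit 4))))) (T.tp (T.sk (T.ls (nat_lit 3) (nat_lit 4))))) (T.tp (T.ts (nat_lit 3) (T.im (nat_lit 7) (nat_lit 2)) T.ie))))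
def d395 : T := (T.ts (nat_lit 1) (T.ts (nat_lit 4) (T.ts (nat_lit 3) (T.ts (nat_lit 2) (T.ts (nat_lit 4) (T.ts (nat_lit 2) (T.im (nat_lit 11) (nat_lit 2)) (T.sk (T.lf (nat_lit 19131) (nat_lit 3) (nat_lit 16569) (nat_lit 4) (nat_lit 20500)))) (T.sk (T.lf (nat_lit 19131) (nat_lit 3) (nat_lit 16569) (nat_lit 4) (nat_lit 20500)))) (T.tp (T.sk (T.ls (nat_lit 3) (nat_lit 4))))) (T.tp (T.sk (T.ls (nat_lit 3) (nat_lit 4))))) (T.ts (nat_lit 2) (T.ls (nat_lit 3) (nat_lit 4)) (T.ts (nat_lit 1) (T.ts (nat_lit 4) (T.ts (nat_lit 3) (T.ts (nat_lit 2) (T.ts (nat_lit 4) (T.ts (nat_lit 2) (T.ts (nat_lit 1) (T.ts (nat_lit 0) (T.ts (nat_lit 3) (T.l1 (nat_lit 12300) (nat_lit 4) (nat_lit 20500)) (T.tp (T.sk (T.ls (nat_lit 3) (nat_lit 4))))) (T.tp (T.sk (T.ls (nat_lit 3) (nat_lit 4))))) (T.tp (T.sk (T.ls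 (nat_lit 3) (nat_lit 4))))) (T.tp (T.sk (T.ls (nat_lit 3) (nat_lit 4))))) (T.tp (T.sk (T.ls (nat_lit 3) (nat_lit 4))))) (T.tp (T.sk (T.ls (nat_lit 3) (nat_lit 4))))) (T.tp (T.sk (T.ls (nat_lit 3) (nat_lit 4))))) (T.tp (T.sk (T.ls (nat_lit 3) (nat_lit 4))))) (T.tp (T.ts (nat_lit 3) (T.im (nat_lit 7) (nat_lit 2)) (T.ts (nat_lit 0) (T.im (nat_lit 5) (nat_lit 3)) T.ie)))))) (T.ts (nat_lit 0) (T.ts (nat_lit 4) (T.tp (T.ts (nat_lit 3) (T.ts (nat_lit 2) (T.ts (nat_lit 4) (T.ts (nat_lit 2) (T.im (nat_lit 11) (nat_lit 2)) (T.sk (T.ls (nat_lit 3) (nat_lit 4)))) (T.sk (T.ls (nat_lit 3) (nat_lit 4)))) (T.sk (T.ls (nat_lit 3) (nat_lit 4)))) (T.sk (T.ls (nat_lit 3) (nat_lit 4))))) (T.ts (nat_lit 2) (T.ls (nat_lit 3) (nat_lit 4)) d394)) (T.tp (T.ts (nat_lit 3) (T.im (nat_lit 7) (nat_lit 1)) T.ie))))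
def d396 : T := (T.ts (nat_lit 1) (T.ts (nat_lit 4) (T.ts (nat_lit 3) (T.ts (nat_lit 2) (T.ts (nat_lit 4) (T.ts (nat_lit 2) (T.ts (nat_lit 1) (T.ts (nat_lit 0) (T.ts (nat_lit 2) (T.l1 (nat_lit 12300) (nat_lit 4) (nat_lit 20500)) (T.tp (T.sk (T.ls (nat_lit 3) (nat_lit 4))))) (T.tp (T.sk (T.ls (nat_lit 3) (nat_lit 4))))) (T.tp (T.sk (T.ls (nat_lit 3) (nat_lit 4))))) (T.tp (T.sk (T.ls (nat_lit 3) (nat_lit 4))))) (T.tp (T.sk (T.ls (nat_lit 3) (nat_lit 4))))) (T.tp (T.sk (T.ls (nat_lit 3) (nat_lit 4))))) (T.tp (T.sk (T.ls (nat_lit 3) (nat_lit 4))))) (T.tp (T.sk (T.ls (nat_lit 3) (nat_lit 4))))) (T.ts (nat_lit 0) (T.ts (nat_lit 4) (T.ts (nat_lit 3) (T.ts (nat_lit 2) (T.ts (nat_lit 4) (T.ts (nat_lit 2) (T.ts (nat_lit 1) (T.ts (nat_lit 0) (T.ts (nat_lit 2) (T.l1 (nat_lit 12300) (nat_lit 3)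 (nat_lit 20500)) (T.tp (T.sk (T.ls (nat_lit 3) (nat_lit 4))))) (T.tp (T.sk (T.ls (nat_lit 3) (nat_lit 4))))) (T.tp (T.sk (T.ls (nat_lit 3) (nat_lit 4))))) (T.tp (T.sk (T.ls (nat_lit 3) (nat_lit 4))))) (T.tp (T.sk (T.ls (nat_lit 3) (nat_lit 4))))) (T.tp (T.sk (T.ls (nat_lit 3) (nat_lit 4))))) (T.tp (T.sk (T.ls (nat_lit 3) (nat_lit 4))))) (T.tp (T.sk (T.ls (nat_lit 3) (nat_lit 4))))) (T.tp (T.ts (nat_lit 2) (T.im (nat_lit 7) (nat_lit 2)) T.ie))))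
def d397 : T := (T.ts (nat_lit 1) (T.ts (nat_lit 4) (T.ts (nat_lit 3) (T.ts (nat_lit 2) (T.ts (nat_lit 4) (T.ts (nat_lit 2) (T.ts (nat_lit 1) (T.ts (nat_lit 0) (T.ts (nat_lit 2) (T.l1 (nat_lit 12300) (nat_lit 4) (nat_lit 20500)) (T.sk (T.lf (nat_lit 16569) (nat_lit 3) (nat_lit 12300) (nat_lit 4) (nat_lit 20500)))) (T.sk (T.lf (nat_lit 16569) (nat_lit 3) (nat_lit 12300) (nat_lit 4) (nat_lit 20500)))) (T.tp (T.sk (T.ls (nat_lit 3) (nat_lit 4))))) (T.tp (T.sk (T.ls (nat_lit 3) (nat_lit 4))))) (T.tp (T.sk (T.ls (nat_lit 3) (nat_lit 4))))) (T.tp (T.sk (T.ls (nat_lit 3) (nat_lit 4))))) (T.tp (T.sk (T.ls (nat_lit 3) (nat_lit 4))))) (T.tp (T.sk (T.ls (nat_lit 3) (nat_lit 4))))) (T.ts (nat_lit 0) (T.ts (nat_lit 4) (T.ts (nat_lit 3) (T.ts (nat_lit 2) (T.ts (nat_lit 4) (T.ts (nat_lit 2) (T.ts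 (nat_lit 1) (T.ts (nat_lit 0) (T.ts (nat_lit 2) (T.l1 (nat_lit 12300) (nat_lit 3) (nat_lit 20500)) (T.sk (T.lf (nat_lit 16569) (nat_lit 3) (nat_lit 20500) (nat_lit 4) (nat_lit 12300)))) (T.sk (T.lf (nat_lit 16569) (nat_lit 3) (nat_lit 20500) (nat_lit 4) (nat_lit 12300)))) (T.sk (T.lf (nat_lit 18835) (nat_lit 3) (nat_lit 20500) (nat_lit 4) (nat_lit 16076)))) (T.sk (T.lf (nat_lit 18835) (nat_lit 3) (nat_lit 20500) (nat_lit 4) (nat_lit 16076)))) (T.sk (T.lf (nat_lit 20372) (nat_lit 3) (nat_lit 20500) (nat_lit 4) (nat_lit 18638)))) (T.sk (T.lf (nat_lit 20372) (nat_lit 3) (nat_lit 20500) (nat_lit 4) (nat_lit 18638)))) (T.tp (T.sk (T.ls (nat_lit 3) (nat_lit 4))))) (T.tp (T.sk (T.ls (nat_lit 3) (nat_lit 4))))) (T.tp (T.ts (nat_lit 2) (T.im (nat_lit 7) (nat_lit 2)) T.ie))))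
def d398 : T := (T.ts (nat_lit 1) (T.ts (nat_lit 4) (T.ts (nat_lit 3) (T.ts (nat_lit 2) (T.ts (nat_lit 4) (T.ts (nat_lit 2) (T.ts (nat_lit 1) (T.ts (nat_lit 0) (T.ts (nat_lit 2) (T.l1 (nat_lit 12300) (nat_lit 4) (nat_lit 20500)) (T.tp (T.sk (T.ls (nat_lit 3) (nat_lit 4))))) (T.tp (T.sk (T.ls (nat_lit 3) (nat_lit 4))))) (T.tp (T.sk (T.ls (nat_lit 3) (nat_lit 4))))) (T.tp (T.sk (T.ls (nat_lit 3) (nat_lit 4))))) (T.tp (T.sk (T.ls (nat_lit 3) (nat_lit 4))))) (T.tp (T.sk (T.ls (nat_lit 3) (nat_lit 4))))) (T.tp (T.sk (T.ls (nat_lit 3) (nat_lit 4))))) (T.tp (T.sk (T.ls (nat_lit 3) (nat_lit 4))))) (T.ts (nat_lit 0) (T.ts (nat_lit 4) (T.ts (nat_lit 3) (T.ts (nat_lit 2) (T.ts (nat_lit 4) (T.ts (nat_lit 2) (T.ts (nat_lit 1) (T.ts (nat_lit 0) (T.ts (nat_lit 2) (T.l1 (nat_lit 12300) (nat_lit 3)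 (nat_lit 20500)) (T.tp (T.sk (T.ls (nat_lit 3) (nat_lit 4))))) (T.tp (T.sk (T.ls (nat_lit 3) (nat_lit 4))))) (T.tp (T.sk (T.ls (nat_lit 3) (nat_lit 4))))) (T.tp (T.sk (T.ls (nat_lit 3) (nat_lit 4))))) (T.tp (T.sk (T.ls (nat_lit 3) (nat_lit 4))))) (T.tp (T.sk (T.ls (nat_lit 3) (nat_lit 4))))) (T.tp (T.sk (T.ls (nat_lit 3) (nat_lit 4))))) (T.tp (T.sk (T.ls (nat_lit 3) (nat_lit 4))))) (T.tp (T.ts (nat_lit 2) (T.im (nat_lit 7) (nat_lit 2)) T.ie))))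
def d399 : T := (T.ts (nat_lit 1) (T.ts (nat_lit 4) (T.tp (T.ts (nat_lit 3) (T.ts (nat_lit 2) (T.ts (nat_lit 4) (T.ts (nat_lit 2) (T.im (nat_lit 11) (nat_lit 2)) (T.sk (T.ls (nat_lit 3) (nat_lit 4)))) (T.sk (T.ls (nat_lit 3) (nat_lit 4)))) (T.sk (T.ls (nat_lit 3) (nat_lit 4)))) (T.sk (T.ls (nat_lit 3) (nat_lit 4))))) (T.ts (nat_lit 3) (T.ls (nat_lit 3) (nat_lit 4)) (T.ts (nat_lit 1) (T.ts (nat_lit 4) (T.ts (nat_lit 3) (T.ts (nat_lit 2) (T.ts (nat_lit 4) (T.ts (nat_lit 2) (T.ts (nat_lit 1) (T.ts (nat_lit 0) (T.ts (nat_lit 2) (T.l1 (nat_lit 12300) (nat_lit 4) (nat_lit 20500)) (T.tp (T.sk (T.ls (nat_lit 3) (nat_lit 4))))) (T.tp (T.sk (T.ls (nat_lit 3) (nat_lit 4))))) (T.tp (T.sk (T.ls (nat_lit 3) (nat_lit 4))))) (T.tp (T.sk (T.ls (nat_lit 3) (nat_lit 4))))) (T.tp (T.sk (T.ls (nat_lit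 3) (nat_lit 4))))) (T.tp (T.sk (T.ls (nat_lit 3) (nat_lit 4))))) (T.tp (T.sk (T.ls (nat_lit 3) (nat_lit 4))))) (T.tp (T.sk (T.ls (nat_lit 3) (nat_lit 4))))) (T.tp (T.ts (nat_lit 2) (T.im (nat_lit 7) (nat_lit 2)) (T.ts (nat_lit 0) (T.im (nat_lit 5) (nat_lit 3)) T.ie)))))) (T.ts (nat_lit 0) (T.ts (nat_lit 4) (T.tp (T.ts (nat_lit 3) (T.ts (nat_lit 2) (T.ts (nat_lit 4) (T.ts (nat_lit 2) (T.im (nat_lit 11) (nat_lit 2)) (T.sk (T.ls (nat_lit 3) (nat_lit 4)))) (T.sk (T.ls (nat_lit 3) (nat_lit 4)))) (T.sk (T.ls (nat_lit 3) (nat_lit 4)))) (T.sk (T.ls (nat_lit 3) (nat_lit 4))))) (T.ts (nat_lit 3) (T.ls (nat_lit 3) (nat_lit 4)) d398)) (T.tp (T.ts (nat_lit 2) (T.im (nat_lit 7) (nat_lit 1)) T.ie))))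
def d400 : T := (T.ts (nat_lit 4) (T.ls (nat_lit 3) (nat_lit 4)) (T.ts (nat_lit 3) (T.ts (nat_lit 4) (T.ls (nat_lit 3) (nat_lit 4)) (T.ts (nat_lit 2) (T.ts (nat_lit 4) (T.ts (nat_lit 2) (T.ts (nat_lit 1) (T.l1 (nat_lit 12300) (nat_lit 3) (nat_lit 20500)) (T.tp (T.sk (T.ls (nat_lit 3) (nat_lit 4))))) (T.tp (T.sk (T.ls (nat_lit 3) (nat_lit 4))))) (T.tp (T.sk (T.ls (nat_lit 3) (nat_lit 4))))) (T.tp (T.sk (T.ls (nat_lit 3) (nat_lit 4)))))) (T.ts (nat_lit 2) (T.ls (nat_lit 3) (nat_lit 4)) (T.ts (nat_lit 1) (T.ts (nat_lit 4) (T.ts (nat_lit 3) (T.ts (nat_lit 2) (T.ts (nat_lit 4) (T.ts (nat_lit 2) (T.ts (nat_lit 1) (T.ts (nat_lit 0) (T.ts (nat_lit 0) (T.l1 (nat_lit 12300) (nat_lit 4) (nat_lit 20500)) (T.tp (T.sk (T.ls (nat_lit 3) (nat_lit 4))))) (T.tp (T.sk (T.ls (nat_lit 3) (nat_lit 4)))))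 (T.tp (T.sk (T.ls (nat_lit 3) (nat_lit 4))))) (T.tp (T.sk (T.ls (nat_lit 3) (nat_lit 4))))) (T.tp (T.sk (T.ls (nat_lit 3) (nat_lit 4))))) (T.tp (T.sk (T.ls (nat_lit 3) (nat_lit 4))))) (T.tp (T.sk (T.ls (nat_lit 3) (nat_lit 4))))) (T.tp (T.sk (T.ls (nat_lit 3) (nat_lit 4))))) (T.tp (T.ts (nat_lit 0) (T.im (nat_lit 7) (nat_lit 2)) T.ie))))))
def d401 : T := (T.ts (nat_lit 1) (T.ts (nat_lit 4) (T.tp (T.ts (nat_lit 3) (T.ts (nat_lit 2) (T.ts (nat_lit 4) (T.ts (nat_lit 2) (T.im (nat_lit 11) (nat_lit 2)) (T.sk (T.ls (nat_lit 3) (nat_lit 4)))) (T.sk (T.ls (nat_lit 3) (nat_lit 4)))) (T.sk (T.ls (nat_lit 3) (nat_lit 4)))) (T.sk (T.ls (nat_lit 3) (nat_lit 4))))) (T.ts (nat_lit 3) (T.ls (nat_lit 3) (nat_lit 4)) (T.ts (nat_lit 2) (T.ls (nat_lit 3) (nat_lit 4)) (T.ts (nat_lit 1) (T.ts (nat_lit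 4) (T.ts (nat_lit 3) (T.ts (nat_lit 2) (T.ts (nat_lit 4) (T.ts (nat_lit 2) (T.ts (nat_lit 1) (T.ts (nat_lit 0) (T.ts (nat_lit 0) (T.l1 (nat_lit 12300) (nat_lit 4) (nat_lit 20500)) (T.tp (T.sk (T.ls (nat_lit 3) (nat_lit 4))))) (T.tp (T.sk (T.ls (nat_lit 3) (nat_lit 4))))) (T.tp (T.sk (T.ls (nat_lit 3) (nat_lit 4))))) (T.tp (T.sk (T.ls (nat_lit 3) (nat_lit 4))))) (T.tp (T.sk (T.ls (nat_lit 3) (nat_lit 4))))) (T.tp (T.sk (T.ls (nat_lit 3) (nat_lit 4))))) (T.tp (T.sk (T.ls (nat_lit 3) (nat_lit 4))))) (T.tp (T.sk (T.ls (nat_lit 3) (nat_lit 4))))) (T.tp (T.ts (nat_lit 0) (T.im (nat_lit 5) (nat_lit 3)) T.ie)))))) (T.tp (T.ts (nat_lit 0) (T.im (nat_lit 7) (nat_lit 1)) T.ie)))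
def d402 : T := (T.ts (nat_lit 3) (T.ts (nat_lit 4) (T.ls (nat_lit 3) (nat_lit 4)) (T.ts (nat_lit 3) (T.ls (nat_lit 3) (nat_lit 4)) (T.ts (nat_lit 2) (T.ls (nat_lit 3) (nat_lit 4)) (T.ts (nat_lit 1) (T.ts (nat_lit 4) (T.ts (nat_lit 3) (T.ts (nat_lit 2) (T.ts (nat_lit 4) (T.ts (nat_lit 2) (T.ts (nat_lit 1) (T.ts (nat_lit 0) (T.ts (nat_lit 0) (T.l1 (nat_lit 12300) (nat_lit 4) (nat_lit 20500)) (T.sk (T.lf (nat_lit 16569) (nat_lit 3) (nat_lit 12300) (nat_lit 4) (nat_lit 20500)))) (T.sk (T.lf (nat_lit 16569) (nat_lit 3) (nat_lit 12300) (nat_lit 4) (nat_lit 20500)))) (T.tp (T.sk (T.ls (nat_lit 3) (nat_lit 4))))) (T.tp (T.sk (T.ls (nat_lit 3) (nat_lit 4))))) (T.tp (T.sk (T.ls (nat_lit 3) (nat_lit 4))))) (T.tp (T.sk (T.ls (nat_lit 3) (nat_lit 4))))) (T.tp (T.sk (T.ls (nat_lit 3) (nat_lit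 4))))) (T.tp (T.sk (T.ls (nat_lit 3) (nat_lit 4))))) (T.tp (T.ts (nat_lit 0) (T.im (nat_lit 7) (nat_lit 2)) T.ie)))))) (T.ts (nat_lit 2) (T.ts (nat_lit 4) (T.ls (nat_lit 3) (nat_lit 4)) (T.ts (nat_lit 3) (T.ls (nat_lit 3) (nat_lit 4)) (T.ts (nat_lit 2) (T.ls (nat_lit 3) (nat_lit 4)) (T.ts (nat_lit 1) (T.ts (nat_lit 4) (T.ts (nat_lit 3) (T.ts (nat_lit 2) (T.ts (nat_lit 4) (T.ts (nat_lit 2) (T.ts (nat_lit 1) (T.ts (nat_lit 0) (T.ts (nat_lit 0) (T.l1 (nat_lit 12300) (nat_lit 4) (nat_lit 20500)) (T.tp (T.sk (T.ls (nat_lit 3) (nat_lit 4))))) (T.tp (T.sk (T.ls (nat_lit 3) (nat_lit 4))))) (T.tp (T.sk (T.ls (nat_lit 3) (nat_lit 4))))) (T.tp (T.sk (T.ls (nat_lit 3) (nat_lit 4))))) (T.tp (T.sk (T.ls (nat_lit 3) (nat_lit 4))))) (T.tp (T.sk (T.ls (nat_lit 3) (nat_lit 4))))) (T.tp (T.sk (T.ls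 (nat_lit 3) (nat_lit 4))))) (T.tp (T.sk (T.ls (nat_lit 3) (nat_lit 4))))) (T.tp (T.ts (nat_lit 0) (T.im (nat_lit 7) (nat_lit 2)) T.ie)))))) d401))
def d403 : T := (T.ts (nat_lit 4) (T.ts (nat_lit 3) (T.tp (T.ts (nat_lit 3) (T.ls (nat_lit 3) (nat_lit 4)) (T.ts (nat_lit 2) (T.ts (nat_lit 4) (T.ts (nat_lit 2) (T.im (nat_lit 9) (nat_lit 2)) (T.sk (T.ls (nat_lit 3) (nat_lit 4)))) (T.sk (T.ls (nat_lit 3) (nat_lit 4)))) (T.ts (nat_lit 1) (T.ts (nat_lit 4) (T.ts (nat_lit 3) (T.im (nat_lit 7) (nat_lit 3)) (T.sk (T.ls (nat_lit 3) (nat_lit 4)))) (T.sk (T.ls (nat_lit 3) (nat_lit 4)))) (T.ts (nat_lit 0) (T.ts (nat_lit 4) (T.ts (nat_lit 3) (T.im (nat_lit 7) (nat_lit 3)) (T.sk (T.ls (nat_lit 3) (nat_lit 4)))) (T.sk (T.ls (nat_lit 3) (nat_lit 4)))) (T.ts (nat_lit 4) (T.im (nat_lit 7) (nat_lit 2))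 T.ie)))))) d391) (T.ts (nat_lit 3) (T.ts (nat_lit 4) (T.ts (nat_lit 4) (T.ls (nat_lit 3) (nat_lit 4)) (T.ts (nat_lit 2) (T.ls (nat_lit 3) (nat_lit 4)) d392)) (T.ts (nat_lit 2) (T.ts (nat_lit 4) (T.ls (nat_lit 3) (nat_lit 4)) (T.ts (nat_lit 2) (T.ls (nat_lit 3) (nat_lit 4)) d393)) d395)) (T.ts (nat_lit 2) (T.ts (nat_lit 4) (T.ts (nat_lit 4) (T.ls (nat_lit 3) (nat_lit 4)) (T.ts (nat_lit 3) (T.ls (nat_lit 3) (nat_lit 4)) d396)) (T.ts (nat_lit 3) (T.ts (nat_lit 4) (T.ls (nat_lit 3) (nat_lit 4)) (T.ts (nat_lit 3) (T.ls (nat_lit 3) (nat_lit 4)) d397)) d399)) (T.ts (nat_lit 0) (T.ts (nat_lit 4) d400 d402) (T.tp (T.ts (nat_lit 1) (T.im (nat_lit 5) (nat_lit 2)) T.ie))))))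
def d404 : T := (T.ts (nat_lit 0) (T.im (nat_lit 5) (nat_lit 1)) (T.nw d403))
def d405 : T := (T.im (nat_lit 3) (nat_lit 1))
def d406 : T := (T.ts (nat_lit 0) (T.ts (nat_lit 3) (T.ts (nat_lit 2) (T.ts (nat_lit 1) (T.ts (nat_lit 3) (T.ts (nat_lit 0) (T.ts (nat_lit 2) (T.ts (nat_lit 3) (T.ts (nat_lit 3) (T.l1 (nat_lit 12300) (nat_lit 4) (nat_lit 20500)) (T.tp (T.sk (T.ls (nat_lit 3) (nat_lit 4))))) (T.tp (T.sk (T.ls (nat_lit 3) (nat_lit 4))))) (T.tp (T.sk (T.ls (nat_lit 3) (nat_lit 4))))) (T.tp (T.sk (T.ls (nat_lit 3) (nat_lit 4))))) (T.tp (T.sk (T.ls (nat_lit 3) (nat_lit 4))))) (T.tp (T.sk (T.ls (nat_lit 3) (nat_lit 4))))) (T.tp (T.sk (T.ls (nat_lit 3) (nat_lit 4))))) (T.tp (T.sk (T.ls (nat_lit 3) (nat_lit 4))))) (T.ts (nat_lit 3) (T.im (nat_lit 7) (nat_lit 2)) (T.nw (T.ts (nat_lit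 4) (T.ts (nat_lit 3) (T.ts (nat_lit 2) (T.ts (nat_lit 4) (T.ts (nat_lit 1) (T.ts (nat_lit 3) (T.ts (nat_lit 4) (T.ts (nat_lit 4) (T.l1 (nat_lit 12300) (nat_lit 3) (nat_lit 20500)) (T.tp (T.sk (T.ls (nat_lit 3) (nat_lit 4))))) (T.tp (T.sk (T.ls (nat_lit 3) (nat_lit 4))))) (T.tp (T.sk (T.ls (nat_lit 3) (nat_lit 4))))) (T.tp (T.sk (T.ls (nat_lit 3) (nat_lit 4))))) (T.tp (T.sk (T.ls (nat_lit 3) (nat_lit 4))))) (T.tp (T.sk (T.ls (nat_lit 3) (nat_lit 4))))) (T.tp (T.sk (T.ls (nat_lit 3) (nat_lit 4))))) (T.tp (T.sk (T.ls (nat_lit 3) (nat_lit 4))))))))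
def d407 : T := (T.ts (nat_lit 0) (T.ts (nat_lit 3) (T.ts (nat_lit 2) (T.ts (nat_lit 1) (T.ts (nat_lit 3) (T.ts (nat_lit 0) (T.ts (nat_lit 2) (T.ts (nat_lit 3) (T.ts (nat_lit 3) (T.l1 (nat_lit 12300) (nat_lit 4) (nat_lit 20500)) (T.tp (T.sk (T.ls (nat_lit 3) (nat_lit 4))))) (T.tp (T.sk (T.ls (nat_lit 3) (nat_lit 4))))) (T.tp (T.sk (T.ls (nat_lit 3) (nat_lit 4))))) (T.tp (T.sk (T.ls (nat_lit 3) (nat_lit 4))))) (T.tp (T.sk (T.ls (nat_lit 3) (nat_lit 4))))) (T.tp (T.sk (T.ls (nat_lit 3) (nat_lit 4))))) (T.tp (T.sk (T.ls (nat_lit 3) (nat_lit 4))))) (T.tp (T.sk (T.ls (nat_lit 3) (nat_lit 4))))) (T.ts (nat_lit 3) (T.im (nat_lit 7) (nat_lit 2)) (T.ts (nat_lit 2) (T.im (nat_lit 3) (nat_lit 4)) (T.nw (T.ts (nat_lit 4) (T.ts (nat_lit 3) (T.ts (nat_lit 2) (T.ts (nat_lit 4) (T.ts (nat_lit 1)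 (T.ts (nat_lit 3) (T.ts (nat_lit 4) (T.ts (nat_lit 4) (T.l1 (nat_lit 12300) (nat_lit 3) (nat_lit 20500)) (T.tp (T.sk (T.ls (nat_lit 3) (nat_lit 4))))) (T.tp (T.sk (T.ls (nat_lit 3) (nat_lit 4))))) (T.tp (T.sk (T.ls (nat_lit 3) (nat_lit 4))))) (T.tp (T.sk (T.ls (nat_lit 3) (nat_lit 4))))) (T.tp (T.sk (T.ls (nat_lit 3) (nat_lit 4))))) (T.tp (T.sk (T.ls (nat_lit 3) (nat_lit 4))))) (T.tp (T.sk (T.ls (nat_lit 3) (nat_lit 4))))) (T.tp (T.sk (T.ls (nat_lit 3) (nat_lit 4)))))))))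
def d408 : T := (T.ts (nat_lit 1) (T.ts (nat_lit 4) (T.ts (nat_lit 3) (T.ts (nat_lit 2) (T.ts (nat_lit 4) (T.ts (nat_lit 1) (T.ts (nat_lit 3) (T.ts (nat_lit 4) (T.ts (nat_lit 4) (T.l1 (nat_lit 12300) (nat_lit 4) (nat_lit 20500)) (T.tp (T.sk (T.ls (nat_lit 3) (nat_lit 4))))) (T.tp (T.sk (T.ls (nat_lit 3) (nat_lit 4))))) (T.tp (T.sk (T.ls (nat_lit 3) (nat_lit 4))))) (T.tp (T.sk (T.ls (nat_lit 3) (nat_lit 4))))) (T.tp (T.sk (T.ls (nat_lit 3) (nat_lit 4))))) (T.tp (T.sk (T.ls (nat_lit 3) (nat_lit 4))))) (T.tp (T.sk (T.ls (nat_lit 3) (nat_lit 4))))) (T.tp (T.sk (T.ls (nat_lit 3) (nat_lit 4))))) (T.ts (nat_lit 0) (T.ts (nat_lit 4) (T.ts (nat_lit 3) (T.ts (nat_lit 2) (T.ts (nat_lit 4) (T.ts (nat_lit 1) (T.ts (nat_lit 3) (T.ts (nat_lit 4) (T.ts (nat_lit 4) (T.l1 (nat_lit 12300) (nat_lit 3)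 (nat_lit 20500)) (T.tp (T.sk (T.ls (nat_lit 3) (nat_lit 4))))) (T.tp (T.sk (T.ls (nat_lit 3) (nat_lit 4))))) (T.tp (T.sk (T.ls (nat_lit 3) (nat_lit 4))))) (T.tp (T.sk (T.ls (nat_lit 3) (nat_lit 4))))) (T.tp (T.sk (T.ls (nat_lit 3) (nat_lit 4))))) (T.tp (T.sk (T.ls (nat_lit 3) (nat_lit 4))))) (T.tp (T.sk (T.ls (nat_lit 3) (nat_lit 4))))) (T.tp (T.sk (T.ls (nat_lit 3) (nat_lit 4))))) (T.tp (T.ts (nat_lit 4) (T.im (nat_lit 7) (nat_lit 2)) T.ie))))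
def d409 : T := (T.ts (nat_lit 0) (T.ts (nat_lit 3) (T.ts (nat_lit 2) (T.ts (nat_lit 1) (T.ts (nat_lit 3) (T.ts (nat_lit 0) (T.ts (nat_lit 2) (T.ts (nat_lit 3) (T.ts (nat_lit 1) (T.l1 (nat_lit 12300) (nat_lit 4) (nat_lit 20500)) (T.tp (T.sk (T.ls (nat_lit 3) (nat_lit 4))))) (T.tp (T.sk (T.ls (nat_lit 3) (nat_lit 4))))) (T.tp (T.sk (T.ls (nat_lit 3) (nat_lit 4))))) (T.tp (T.sk (T.ls (nat_lit 3) (nat_lit 4))))) (T.tp (T.sk (T.ls (nat_lit 3) (nat_lit 4))))) (T.tp (T.sk (T.ls (nat_lit 3) (nat_lit 4))))) (T.tp (T.sk (T.ls (nat_lit 3) (nat_lit 4))))) (T.tp (T.sk (T.ls (nat_lit 3) (nat_lit 4))))) (T.ts (nat_lit 1) (T.im (nat_lit 7) (nat_lit 2)) (T.nw (T.ts (nat_lit 4) (T.ts (nat_lit 3) (T.ts (nat_lit 2) (T.ts (nat_lit 4) (T.ts (nat_lit 1) (T.ts (nat_lit 3) (T.ts (nat_lit 4) (T.ts (nat_lit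 2) (T.l1 (nat_lit 12300) (nat_lit 3) (nat_lit 20500)) (T.tp (T.sk (T.ls (nat_lit 3) (nat_lit 4))))) (T.tp (T.sk (T.ls (nat_lit 3) (nat_lit 4))))) (T.tp (T.sk (T.ls (nat_lit 3) (nat_lit 4))))) (T.tp (T.sk (T.ls (nat_lit 3) (nat_lit 4))))) (T.tp (T.sk (T.ls (nat_lit 3) (nat_lit 4))))) (T.tp (T.sk (T.ls (nat_lit 3) (nat_lit 4))))) (T.tp (T.sk (T.ls (nat_lit 3) (nat_lit 4))))) (T.tp (T.sk (T.ls (nat_lit 3) (nat_lit 4))))))))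
def d410 : T := (T.ts (nat_lit 0) (T.ts (nat_lit 3) (T.ts (nat_lit 2) (T.ts (nat_lit 1) (T.ts (nat_lit 3) (T.ts (nat_lit 0) (T.ts (nat_lit 2) (T.ts (nat_lit 3) (T.ts (nat_lit 1) (T.l1 (nat_lit 12300) (nat_lit 4) (nat_lit 20500)) (T.sk (T.lf (nat_lit 16569) (nat_lit 3) (nat_lit 12300) (nat_lit 4) (nat_lit 20500)))) (T.sk (T.lf (nat_lit 16569) (nat_lit 3) (nat_lit 12300) (nat_lit 4) (nat_lit 20500)))) (T.tp (T.sk (T.ls (nat_lit 3) (nat_lit 4))))) (T.tp (T.sk (T.ls (nat_lit 3) (nat_lit 4))))) (T.tp (T.sk (T.ls (nat_lit 3) (nat_lit 4))))) (T.tp (T.sk (T.ls (nat_lit 3) (nat_lit 4))))) (T.tp (T.sk (T.ls (nat_lit 3) (nat_lit 4))))) (T.tp (T.sk (T.ls (nat_lit 3) (nat_lit 4))))) (T.ts (nat_lit 3) (T.im (nat_lit 5) (nat_lit 3)) (T.ts (nat_lit 1) (T.im (nat_lit 7) (nat_lit 2)) (T.nw (T.ts (nat_lit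 4) (T.ts (nat_lit 3) (T.ts (nat_lit 2) (T.ts (nat_lit 4) (T.ts (nat_lit 1) (T.ts (nat_lit 3) (T.ts (nat_lit 4) (T.ts (nat_lit 2) (T.l1 (nat_lit 12300) (nat_lit 3) (nat_lit 20500)) (T.sk (T.lf (nat_lit 16569) (nat_lit 3) (nat_lit 20500) (nat_lit 4) (nat_lit 12300)))) (T.sk (T.lf (nat_lit 16569) (nat_lit 3) (nat_lit 20500) (nat_lit 4) (nat_lit 12300)))) (T.tp (T.sk (T.ls (nat_lit 3) (nat_lit 4))))) (T.tp (T.sk (T.ls (nat_lit 3) (nat_lit 4))))) (T.tp (T.sk (T.ls (nat_lit 3) (nat_lit 4))))) (T.tp (T.sk (T.ls (nat_lit 3) (nat_lit 4))))) (T.tp (T.sk (T.ls (nat_lit 3) (nat_lit 4))))) (T.tp (T.sk (T.ls (nat_lit 3) (nat_lit 4)))))))))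
def d411 : T := (T.ts (nat_lit 0) (T.ts (nat_lit 3) (T.ts (nat_lit 2) (T.ts (nat_lit 1) (T.ts (nat_lit 3) (T.ts (nat_lit 0) (T.ts (nat_lit 2) (T.ts (nat_lit 3) (T.ts (nat_lit 1) (T.l1 (nat_lit 12300) (nat_lit 4) (nat_lit 20500)) (T.tp (T.sk (T.ls (nat_lit 3) (nat_lit 4))))) (T.tp (T.sk (T.ls (nat_lit 3) (nat_lit 4))))) (T.tp (T.sk (T.ls (nat_lit 3) (nat_lit 4))))) (T.tp (T.sk (T.ls (nat_lit 3) (nat_lit 4))))) (T.tp (T.sk (T.ls (nat_lit 3) (nat_lit 4))))) (T.tp (T.sk (T.ls (nat_lit 3) (nat_lit 4))))) (T.tp (T.sk (T.ls (nat_lit 3) (nat_lit 4))))) (T.tp (T.sk (T.ls (nat_lit 3) (nat_lit 4))))) (T.ts (nat_lit 1) (T.im (nat_lit 7) (nat_lit 2)) (T.nw (T.ts (nat_lit 4) (T.ts (nat_lit 3) (T.ts (nat_lit 2) (T.ts (nat_lit 4) (T.ts (nat_lit 1) (T.ts (nat_lit 3) (T.ts (nat_lit 4) (T.ts (nat_lit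 2) (T.l1 (nat_lit 12300) (nat_lit 3) (nat_lit 20500)) (T.tp (T.sk (T.ls (nat_lit 3) (nat_lit 4))))) (T.tp (T.sk (T.ls (nat_lit 3) (nat_lit 4))))) (T.tp (T.sk (T.ls (nat_lit 3) (nat_lit 4))))) (T.tp (T.sk (T.ls (nat_lit 3) (nat_lit 4))))) (T.tp (T.sk (T.ls (nat_lit 3) (nat_lit 4))))) (T.tp (T.sk (T.ls (nat_lit 3) (nat_lit 4))))) (T.tp (T.sk (T.ls (nat_lit 3) (nat_lit 4))))) (T.tp (T.sk (T.ls (nat_lit 3) (nat_lit 4))))))))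
def d412 : T := (T.ts (nat_lit 1) (T.ts (nat_lit 4) (T.ts (nat_lit 3) (T.ts (nat_lit 2) (T.ts (nat_lit 4) (T.ts (nat_lit 1) (T.ts (nat_lit 3) (T.ts (nat_lit 4) (T.ts (nat_lit 2) (T.l1 (nat_lit 12300) (nat_lit 4) (nat_lit 20500)) (T.tp (T.sk (T.ls (nat_lit 3) (nat_lit 4))))) (T.tp (T.sk (T.ls (nat_lit 3) (nat_lit 4))))) (T.tp (T.sk (T.ls (nat_lit 3) (nat_lit 4))))) (T.tp (T.sk (T.ls (nat_lit 3) (nat_lit 4))))) (T.tp (T.sk (T.ls (nat_lit 3) (nat_lit 4))))) (T.tp (T.sk (T.ls (nat_lit 3) (nat_lit 4))))) (T.tp (T.sk (T.ls (nat_lit 3) (nat_lit 4))))) (T.tp (T.sk (T.ls (nat_lit 3) (nat_lit 4))))) (T.ts (nat_lit 0) (T.ts (nat_lit 4) (T.ts (nat_lit 3) (T.ts (nat_lit 2) (T.ts (nat_lit 4) (T.ts (nat_lit 1) (T.ts (nat_lit 3) (T.ts (nat_lit 4) (T.ts (nat_lit 2) (T.l1 (nat_lit 12300) (nat_lit 3)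 (nat_lit 20500)) (T.tp (T.sk (T.ls (nat_lit 3) (nat_lit 4))))) (T.tp (T.sk (T.ls (nat_lit 3) (nat_lit 4))))) (T.tp (T.sk (T.ls (nat_lit 3) (nat_lit 4))))) (T.tp (T.sk (T.ls (nat_lit 3) (nat_lit 4))))) (T.tp (T.sk (T.ls (nat_lit 3) (nat_lit 4))))) (T.tp (T.sk (T.ls (nat_lit 3) (nat_lit 4))))) (T.tp (T.sk (T.ls (nat_lit 3) (nat_lit 4))))) (T.tp (T.sk (T.ls (nat_lit 3) (nat_lit 4))))) (T.tp (T.ts (nat_lit 2) (T.im (nat_lit 7) (nat_lit 2)) T.ie))))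
def d413 : T := (T.ts (nat_lit 0) (T.ts (nat_lit 3) (T.ts (nat_lit 2) (T.ts (nat_lit 1) (T.ts (nat_lit 3) (T.ts (nat_lit 0) (T.ts (nat_lit 2) (T.ts (nat_lit 3) (T.l1 (nat_lit 12300) (nat_lit 4) (nat_lit 20500)) (T.tp (T.sk (T.ls (nat_lit 3) (nat_lit 4))))) (T.tp (T.sk (T.ls (nat_lit 3) (nat_lit 4))))) (T.tp (T.sk (T.ls (nat_lit 3) (nat_lit 4))))) (T.tp (T.sk (T.ls (nat_lit 3) (nat_lit 4))))) (T.tp (T.sk (T.ls (nat_lit 3) (nat_lit 4))))) (T.tp (T.sk (T.ls (nat_lit 3) (nat_lit 4))))) (T.ts (nat_lit 2) (T.ls (nat_lit 3) (nat_lit 4)) d411)) (T.ts (nat_lit 1) (T.im (nat_lit 7) (nat_lit 1)) (T.nw (T.ts (nat_lit 4) (T.ts (nat_lit 3) (T.ts (nat_lit 2) (T.ts (nat_lit 4) (T.ts (nat_lit 1) (T.ts (nat_lit 3) (T.ts (nat_lit 4) (T.l1 (nat_lit 12300) (nat_lit 3) (nat_lit 20500)) (T.tp (T.sk (T.ls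 (nat_lit 3) (nat_lit 4))))) (T.tp (T.sk (T.ls (nat_lit 3) (nat_lit 4))))) (T.tp (T.sk (T.ls (nat_lit 3) (nat_lit 4))))) (T.tp (T.sk (T.ls (nat_lit 3) (nat_lit 4))))) (T.tp (T.sk (T.ls (nat_lit 3) (nat_lit 4))))) (T.tp (T.sk (T.ls (nat_lit 3) (nat_lit 4))))) (T.ts (nat_lit 3) (T.ls (nat_lit 3) (nat_lit 4)) d412)))))
def d414 : T := (T.ts (nat_lit 4) (T.ls (nat_lit 3) (nat_lit 4)) (T.ts (nat_lit 3) (T.ts (nat_lit 4) (T.ls (nat_lit 3) (nat_lit 4)) (T.ts (nat_lit 2) (T.ts (nat_lit 4) (T.ts (nat_lit 1) (T.ts (nat_lit 3) (T.l1 (nat_lit 12300) (nat_lit 3) (nat_lit 20500)) (T.tp (T.sk (T.ls (nat_lit 3) (nat_lit 4))))) (T.tp (T.sk (T.ls (nat_lit 3) (nat_lit 4))))) (T.tp (T.sk (T.ls (nat_lit 3) (nat_lit 4))))) (T.tp (T.sk (T.ls (nat_lit 3) (nat_lit 4)))))) (T.ts (nat_lit 2) (T.ls (nat_lit 3)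 (nat_lit 4)) (T.ts (nat_lit 1) (T.ts (nat_lit 4) (T.ts (nat_lit 3) (T.ts (nat_lit 2) (T.ts (nat_lit 4) (T.ts (nat_lit 1) (T.ts (nat_lit 3) (T.ts (nat_lit 4) (T.ts (nat_lit 0) (T.l1 (nat_lit 12300) (nat_lit 4) (nat_lit 20500)) (T.tp (T.sk (T.ls (nat_lit 3) (nat_lit 4))))) (T.tp (T.sk (T.ls (nat_lit 3) (nat_lit 4))))) (T.tp (T.sk (T.ls (nat_lit 3) (nat_lit 4))))) (T.tp (T.sk (T.ls (nat_lit 3) (nat_lit 4))))) (T.tp (T.sk (T.ls (nat_lit 3) (nat_lit 4))))) (T.tp (T.sk (T.ls (nat_lit 3) (nat_lit 4))))) (T.tp (T.sk (T.ls (nat_lit 3) (nat_lit 4))))) (T.tp (T.sk (T.ls (nat_lit 3) (nat_lit 4))))) (T.tp (T.ts (nat_lit 0) (T.im (nat_lit 7) (nat_lit 2)) T.ie))))))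
def d415 : T := (T.ts (nat_lit 4) (T.ts (nat_lit 3) (T.ts (nat_lit 2) (T.ts (nat_lit 4) (T.ts (nat_lit 1) (T.ts (nat_lit 3) (T.ts (nat_lit 4) (T.l1 (nat_lit 12300) (nat_lit 4) (nat_lit 20500)) (T.tp (T.sk (T.ls (nat_lit 3) (nat_lit 4))))) (T.tp (T.sk (T.ls (nat_lit 3) (nat_lit 4))))) (T.tp (T.sk (T.ls (nat_lit 3) (nat_lit 4))))) (T.tp (T.sk (T.ls (nat_lit 3) (nat_lit 4))))) (T.tp (T.sk (T.ls (nat_lit 3) (nat_lit 4))))) (T.tp (T.sk (T.ls (nat_lit 3) (nat_lit 4))))) (T.ts (nat_lit 3) (T.ls (nat_lit 3) (nat_lit 4)) (T.ts (nat_lit 2) (T.ls (nat_lit 3) (nat_lit 4)) (T.ts (nat_lit 1) (T.ts (nat_lit 4) (T.ts (nat_lit 3) (T.ts (nat_lit 2) (T.ts (nat_lit 4) (T.ts (nat_lit 1) (T.ts (nat_lit 3) (T.ts (nat_lit 4) (T.ts (nat_lit 0) (T.l1 (nat_lit 12300) (nat_lit 4) (nat_lit 20500)) (T.tp (T.sk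 (T.ls (nat_lit 3) (nat_lit 4))))) (T.tp (T.sk (T.ls (nat_lit 3) (nat_lit 4))))) (T.tp (T.sk (T.ls (nat_lit 3) (nat_lit 4))))) (T.tp (T.sk (T.ls (nat_lit 3) (nat_lit 4))))) (T.tp (T.sk (T.ls (nat_lit 3) (nat_lit 4))))) (T.tp (T.sk (T.ls (nat_lit 3) (nat_lit 4))))) (T.tp (T.sk (T.ls (nat_lit 3) (nat_lit 4))))) (T.tp (T.sk (T.ls (nat_lit 3) (nat_lit 4))))) (T.tp (T.ts (nat_lit 0) (T.im (nat_lit 7) (nat_lit 2)) T.ie))))))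
def d416 : T := (T.ts (nat_lit 3) (T.ts (nat_lit 3) (T.ls (nat_lit 3) (nat_lit 4)) (T.ts (nat_lit 2) (T.ls (nat_lit 3) (nat_lit 4)) (T.ts (nat_lit 1) (T.ts (nat_lit 4) (T.ts (nat_lit 3) (T.ts (nat_lit 2) (T.ts (nat_lit 4) (T.ts (nat_lit 1) (T.ts (nat_lit 3) (T.ts (nat_lit 4) (T.ts (nat_lit 0) (T.l1 (nat_lit 12300) (nat_lit 4) (nat_lit 20500)) (T.sk (T.lf (nat_lit 16569) (nat_lit 3) (nat_lit 12300) (nat_lit 4) (nat_lit 20500)))) (T.sk (T.lf (nat_lit 16569) (nat_lit 3) (nat_lit 12300) (nat_lit 4) (nat_lit 20500)))) (T.tp (T.sk (T.ls (nat_lit 3) (nat_lit 4))))) (T.tp (T.sk (T.ls (nat_lit 3) (nat_lit 4))))) (T.tp (T.sk (T.ls (nat_lit 3) (nat_lit 4))))) (T.tp (T.sk (T.ls (nat_lit 3) (nat_lit 4))))) (T.tp (T.sk (T.ls (nat_lit 3) (nat_lit 4))))) (T.tp (T.sk (T.ls (nat_lit 3) (nat_lit 4)))))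 (T.tp (T.ts (nat_lit 4) (T.im (nat_lit 5) (nat_lit 3)) (T.ts (nat_lit 0) (T.im (nat_lit 7) (nat_lit 2)) T.ie)))))) (T.ts (nat_lit 2) (T.ts (nat_lit 4) (T.ls (nat_lit 3) (nat_lit 4)) (T.ts (nat_lit 3) (T.ls (nat_lit 3) (nat_lit 4)) (T.ts (nat_lit 2) (T.ls (nat_lit 3) (nat_lit 4)) (T.ts (nat_lit 1) (T.ts (nat_lit 4) (T.ts (nat_lit 3) (T.ts (nat_lit 2) (T.ts (nat_lit 4) (T.ts (nat_lit 1) (T.ts (nat_lit 3) (T.ts (nat_lit 4) (T.ts (nat_lit 0) (T.l1 (nat_lit 12300) (nat_lit 4) (nat_lit 20500)) (T.tp (T.sk (T.ls (nat_lit 3) (nat_lit 4))))) (T.tp (T.sk (T.ls (nat_lit 3) (nat_lit 4))))) (T.tp (T.sk (T.ls (nat_lit 3) (nat_lit 4))))) (T.tp (T.sk (T.ls (nat_lit 3) (nat_lit 4))))) (T.tp (T.sk (T.ls (nat_lit 3) (nat_lit 4))))) (T.tp (T.sk (T.ls (nat_lit 3) (nat_lit 4))))) (T.tp (T.sk (T.ls (nat_lit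 3) (nat_lit 4))))) (T.tp (T.sk (T.ls (nat_lit 3) (nat_lit 4))))) (T.tp (T.ts (nat_lit 0) (T.im (nat_lit 7) (nat_lit 2)) T.ie)))))) (T.ts (nat_lit 1) d415 (T.tp (T.ts (nat_lit 0) (T.im (nat_lit 7) (nat_lit 1)) T.ie)))))
def d417 : T := (T.ts (nat_lit 3) (T.ts (nat_lit 2) (T.tp (T.ts (nat_lit 2) (T.ls (nat_lit 3) (nat_lit 4)) (T.ts (nat_lit 1) (T.ls (nat_lit 3) (nat_lit 4)) (T.ts (nat_lit 0) (T.ts (nat_lit 3) (T.ts (nat_lit 2) (T.im (nat_lit 7) (nat_lit 3)) (T.sk (T.ls (nat_lit 3) (nat_lit 4)))) (T.sk (T.ls (nat_lit 3) (nat_lit 4)))) (T.ts (nat_lit 3) (T.im (nat_lit 5) (nat_lit 3)) (T.nw (T.ts (nat_lit 4) (T.ts (nat_lit 3) (T.im (nat_lit 7) (nat_lit 3)) (T.sk (T.ls (nat_lit 3) (nat_lit 4)))) (T.sk (T.ls (nat_lit 3) (nat_lit 4)))))))))) (T.ts (nat_lit 1) (T.ts (nat_lit 2) (T.ls (nat_lit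 3) (nat_lit 4)) (T.ts (nat_lit 1) (T.ls (nat_lit 3) (nat_lit 4)) d406)) (T.ts (nat_lit 0) (T.ts (nat_lit 1) (T.ls (nat_lit 3) (nat_lit 4)) d407) (T.ts (nat_lit 3) (T.im (nat_lit 7) (nat_lit 1)) (T.nw (T.ts (nat_lit 3) (T.ls (nat_lit 3) (nat_lit 4)) (T.ts (nat_lit 2) (T.ls (nat_lit 3) (nat_lit 4)) d408))))))) (T.ts (nat_lit 1) (T.ts (nat_lit 3) (T.ts (nat_lit 3) (T.ls (nat_lit 3) (nat_lit 4)) (T.ts (nat_lit 2) (T.ls (nat_lit 3) (nat_lit 4)) d409)) (T.ts (nat_lit 2) (T.ts (nat_lit 2) (T.ls (nat_lit 3) (nat_lit 4)) d410) d413)) (T.ts (nat_lit 2) (T.im (nat_lit 5) (nat_lit 2)) (T.ts (nat_lit 0) (T.im (nat_lit 3) (nat_lit 3)) (T.nw (T.ts (nat_lit 4) d414 d416))))))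
def d418 : T := (T.ts (nat_lit 0) (T.ts (nat_lit 3) (T.ts (nat_lit 2) (T.ts (nat_lit 1) (T.ts (nat_lit 3) (T.ts (nat_lit 0) (T.ts (nat_lit 2) (T.ts (nat_lit 1) (T.ts (nat_lit 1) (T.l1 (nat_lit 12300) (nat_lit 4) (nat_lit 20500)) (T.tp (T.sk (T.ls (nat_lit 3) (nat_lit 4))))) (T.tp (T.sk (T.ls (nat_lit 3) (nat_lit 4))))) (T.tp (T.sk (T.ls (nat_lit 3) (nat_lit 4))))) (T.tp (T.sk (T.ls (nat_lit 3) (nat_lit 4))))) (T.tp (T.sk (T.ls (nat_lit 3) (nat_lit 4))))) (T.tp (T.sk (T.ls (nat_lit 3) (nat_lit 4))))) (T.tp (T.sk (T.ls (nat_lit 3) (nat_lit 4))))) (T.tp (T.sk (T.ls (nat_lit 3) (nat_lit 4))))) (T.ts (nat_lit 1) (T.im (nat_lit 7) (nat_lit 2)) (T.nw (T.ts (nat_lit 4) (T.ts (nat_lit 3) (T.ts (nat_lit 2) (T.ts (nat_lit 4) (T.ts (nat_lit 1) (T.ts (nat_lit 3) (T.ts (nat_lit 2) (T.ts (nat_lit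 2) (T.l1 (nat_lit 12300) (nat_lit 3) (nat_lit 20500)) (T.tp (T.sk (T.ls (nat_lit 3) (nat_lit 4))))) (T.tp (T.sk (T.ls (nat_lit 3) (nat_lit 4))))) (T.tp (T.sk (T.ls (nat_lit 3) (nat_lit 4))))) (T.tp (T.sk (T.ls (nat_lit 3) (nat_lit 4))))) (T.tp (T.sk (T.ls (nat_lit 3) (nat_lit 4))))) (T.tp (T.sk (T.ls (nat_lit 3) (nat_lit 4))))) (T.tp (T.sk (T.ls (nat_lit 3) (nat_lit 4))))) (T.tp (T.sk (T.ls (nat_lit 3) (nat_lit 4))))))))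
def d419 : T := (T.ts (nat_lit 0) (T.ts (nat_lit 3) (T.ts (nat_lit 2) (T.ts (nat_lit 1) (T.ts (nat_lit 3) (T.ts (nat_lit 0) (T.ts (nat_lit 2) (T.ts (nat_lit 1) (T.ts (nat_lit 1) (T.l1 (nat_lit 12300) (nat_lit 4) (nat_lit 20500)) (T.sk (T.lf (nat_lit 16569) (nat_lit 3) (nat_lit 12300) (nat_lit 4) (nat_lit 20500)))) (T.sk (T.lf (nat_lit 16569) (nat_lit 3) (nat_lit 12300) (nat_lit 4) (nat_lit 20500)))) (T.tp (T.sk (T.ls (nat_lit 3) (nat_lit 4))))) (T.tp (T.sk (T.ls (nat_lit 3) (nat_lit 4))))) (T.tp (T.sk (T.ls (nat_lit 3) (nat_lit 4))))) (T.tp (T.sk (T.ls (nat_lit 3) (nat_lit 4))))) (T.tp (T.sk (T.ls (nat_lit 3) (nat_lit 4))))) (T.tp (T.sk (T.ls (nat_lit 3) (nat_lit 4))))) (T.ts (nat_lit 1) (T.im (nat_lit 5) (nat_lit 3)) (T.nw (T.ts (nat_lit 4) (T.ts (nat_lit 3) (T.ts (nat_lit 2) (T.ts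 (nat_lit 4) (T.ts (nat_lit 1) (T.ts (nat_lit 3) (T.ts (nat_lit 2) (T.ts (nat_lit 2) (T.l1 (nat_lit 12300) (nat_lit 3) (nat_lit 20500)) (T.sk (T.lf (nat_lit 16569) (nat_lit 3) (nat_lit 20500) (nat_lit 4) (nat_lit 12300)))) (T.sk (T.lf (nat_lit 16569) (nat_lit 3) (nat_lit 20500) (nat_lit 4) (nat_lit 12300)))) (T.tp (T.sk (T.ls (nat_lit 3) (nat_lit 4))))) (T.tp (T.sk (T.ls (nat_lit 3) (nat_lit 4))))) (T.tp (T.sk (T.ls (nat_lit 3) (nat_lit 4))))) (T.tp (T.sk (T.ls (nat_lit 3) (nat_lit 4))))) (T.tp (T.sk (T.ls (nat_lit 3) (nat_lit 4))))) (T.tp (T.sk (T.ls (nat_lit 3) (nat_lit 4))))))))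
def d420 : T := (T.ts (nat_lit 0) (T.ts (nat_lit 3) (T.ts (nat_lit 2) (T.ts (nat_lit 1) (T.ts (nat_lit 3) (T.ts (nat_lit 0) (T.ts (nat_lit 2) (T.ts (nat_lit 1) (T.ts (nat_lit 1) (T.l1 (nat_lit 12300) (nat_lit 4) (nat_lit 20500)) (T.tp (T.sk (T.ls (nat_lit 3) (nat_lit 4))))) (T.tp (T.sk (T.ls (nat_lit 3) (nat_lit 4))))) (T.tp (T.sk (T.ls (nat_lit 3) (nat_lit 4))))) (T.tp (T.sk (T.ls (nat_lit 3) (nat_lit 4))))) (T.tp (T.sk (T.ls (nat_lit 3) (nat_lit 4))))) (T.tp (T.sk (T.ls (nat_lit 3) (nat_lit 4))))) (T.tp (T.sk (T.ls (nat_lit 3) (nat_lit 4))))) (T.tp (T.sk (T.ls (nat_lit 3) (nat_lit 4))))) (T.ts (nat_lit 1) (T.im (nat_lit 7) (nat_lit 2)) (T.nw (T.ts (nat_lit 4) (T.ts (nat_lit 3) (T.ts (nat_lit 2) (T.ts (nat_lit 4) (T.ts (nat_lit 1) (T.ts (nat_lit 3) (T.ts (nat_lit 2) (T.ts (nat_lit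 2) (T.l1 (nat_lit 12300) (nat_lit 3) (nat_lit 20500)) (T.tp (T.sk (T.ls (nat_lit 3) (nat_lit 4))))) (T.tp (T.sk (T.ls (nat_lit 3) (nat_lit 4))))) (T.tp (T.sk (T.ls (nat_lit 3) (nat_lit 4))))) (T.tp (T.sk (T.ls (nat_lit 3) (nat_lit 4))))) (T.tp (T.sk (T.ls (nat_lit 3) (nat_lit 4))))) (T.tp (T.sk (T.ls (nat_lit 3) (nat_lit 4))))) (T.tp (T.sk (T.ls (nat_lit 3) (nat_lit 4))))) (T.tp (T.sk (T.ls (nat_lit 3) (nat_lit 4))))))))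
def d421 : T := (T.ts (nat_lit 1) (T.ts (nat_lit 4) (T.ts (nat_lit 3) (T.ts (nat_lit 2) (T.ts (nat_lit 4) (T.ts (nat_lit 1) (T.ts (nat_lit 3) (T.ts (nat_lit 2) (T.ts (nat_lit 2) (T.l1 (nat_lit 12300) (nat_lit 4) (nat_lit 20500)) (T.tp (T.sk (T.ls (nat_lit 3) (nat_lit 4))))) (T.tp (T.sk (T.ls (nat_lit 3) (nat_lit 4))))) (T.tp (T.sk (T.ls (nat_lit 3) (nat_lit 4))))) (T.tp (T.sk (T.ls (nat_lit 3) (nat_lit 4))))) (T.tp (T.sk (T.ls (nat_lit 3) (nat_lit 4))))) (T.tp (T.sk (T.ls (nat_lit 3) (nat_lit 4))))) (T.tp (T.sk (T.ls (nat_lit 3) (nat_lit 4))))) (T.tp (T.sk (T.ls (nat_lit 3) (nat_lit 4))))) (T.ts (nat_lit 0) (T.ts (nat_lit 4) (T.ts (nat_lit 3) (T.ts (nat_lit 2) (T.ts (nat_lit 4) (T.ts (nat_lit 1) (T.ts (nat_lit 3) (T.ts (nat_lit 2) (T.ts (nat_lit 2) (T.l1 (nat_lit 12300) (nat_lit 3)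 (nat_lit 20500)) (T.tp (T.sk (T.ls (nat_lit 3) (nat_lit 4))))) (T.tp (T.sk (T.ls (nat_lit 3) (nat_lit 4))))) (T.tp (T.sk (T.ls (nat_lit 3) (nat_lit 4))))) (T.tp (T.sk (T.ls (nat_lit 3) (nat_lit 4))))) (T.tp (T.sk (T.ls (nat_lit 3) (nat_lit 4))))) (T.tp (T.sk (T.ls (nat_lit 3) (nat_lit 4))))) (T.tp (T.sk (T.ls (nat_lit 3) (nat_lit 4))))) (T.tp (T.sk (T.ls (nat_lit 3) (nat_lit 4))))) (T.tp (T.ts (nat_lit 2) (T.im (nat_lit 7) (nat_lit 2)) T.ie))))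
def d422 : T := (T.ts (nat_lit 0) (T.ts (nat_lit 3) (T.ts (nat_lit 2) (T.ts (nat_lit 1) (T.ts (nat_lit 3) (T.ts (nat_lit 0) (T.ts (nat_lit 2) (T.ts (nat_lit 1) (T.l1 (nat_lit 12300) (nat_lit 4) (nat_lit 20500)) (T.tp (T.sk (T.ls (nat_lit 3) (nat_lit 4))))) (T.tp (T.sk (T.ls (nat_lit 3) (nat_lit 4))))) (T.tp (T.sk (T.ls (nat_lit 3) (nat_lit 4))))) (T.tp (T.sk (T.ls (nat_lit 3) (nat_lit 4))))) (T.tp (T.sk (T.ls (nat_lit 3) (nat_lit 4))))) (T.tp (T.sk (T.ls (nat_lit 3) (nat_lit 4))))) (T.ts (nat_lit 2) (T.ls (nat_lit 3) (nat_lit 4)) d420)) (T.ts (nat_lit 1) (T.im (nat_lit 7) (nat_lit 1)) (T.nw (T.ts (nat_lit 4) (T.ts (nat_lit 3) (T.ts (nat_lit 2) (T.ts (nat_lit 4) (T.ts (nat_lit 1) (T.ts (nat_lit 3) (T.ts (nat_lit 2) (T.l1 (nat_lit 12300) (nat_lit 3) (nat_lit 20500)) (T.tp (T.sk (T.ls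 (nat_lit 3) (nat_lit 4))))) (T.tp (T.sk (T.ls (nat_lit 3) (nat_lit 4))))) (T.tp (T.sk (T.ls (nat_lit 3) (nat_lit 4))))) (T.tp (T.sk (T.ls (nat_lit 3) (nat_lit 4))))) (T.tp (T.sk (T.ls (nat_lit 3) (nat_lit 4))))) (T.tp (T.sk (T.ls (nat_lit 3) (nat_lit 4))))) (T.ts (nat_lit 3) (T.ls (nat_lit 3) (nat_lit 4)) d421)))))
def d423 : T := (T.ts (nat_lit 4) (T.ts (nat_lit 3) (T.ts (nat_lit 2) (T.ts (nat_lit 4) (T.ts (nat_lit 1) (T.ts (nat_lit 3) (T.ts (nat_lit 2) (T.l1 (nat_lit 12300) (nat_lit 3) (nat_lit 20500)) (T.tp (T.sk (T.ls (nat_lit 3) (nat_lit 4))))) (T.tp (T.sk (T.ls (nat_lit 3) (nat_lit 4))))) (T.tp (T.sk (T.ls (nat_lit 3) (nat_lit 4))))) (T.tp (T.sk (T.ls (nat_lit 3) (nat_lit 4))))) (T.tp (T.sk (T.ls (nat_lit 3) (nat_lit 4))))) (T.tp (T.sk (T.ls (nat_lit 3) (nat_lit 4))))) (T.ts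 (nat_lit 3) (T.ls (nat_lit 3) (nat_lit 4)) (T.ts (nat_lit 2) (T.ls (nat_lit 3) (nat_lit 4)) (T.ts (nat_lit 0) (T.ts (nat_lit 4) (T.ts (nat_lit 3) (T.ts (nat_lit 2) (T.ts (nat_lit 4) (T.ts (nat_lit 1) (T.ts (nat_lit 3) (T.ts (nat_lit 2) (T.ts (nat_lit 1) (T.l1 (nat_lit 12300) (nat_lit 3) (nat_lit 20500)) (T.tp (T.sk (T.ls (nat_lit 3) (nat_lit 4))))) (T.tp (T.sk (T.ls (nat_lit 3) (nat_lit 4))))) (T.tp (T.sk (T.ls (nat_lit 3) (nat_lit 4))))) (T.tp (T.sk (T.ls (nat_lit 3) (nat_lit 4))))) (T.tp (T.sk (T.ls (nat_lit 3) (nat_lit 4))))) (T.tp (T.sk (T.ls (nat_lit 3) (nat_lit 4))))) (T.tp (T.sk (T.ls (nat_lit 3) (nat_lit 4))))) (T.tp (T.sk (T.ls (nat_lit 3) (nat_lit 4))))) (T.tp (T.ts (nat_lit 1) (T.im (nat_lit 7) (nat_lit 2)) T.ie))))))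
def d424 : T := (T.ts (nat_lit 2) (T.ts (nat_lit 3) (T.ls (nat_lit 3) (nat_lit 4)) (T.ts (nat_lit 2) (T.ls (nat_lit 3) (nat_lit 4)) (T.ts (nat_lit 1) (T.im (nat_lit 5) (nat_lit 3)) (T.ts (nat_lit 0) (T.im (nat_lit 7) (nat_lit 2)) (T.nw (T.ts (nat_lit 4) (T.ts (nat_lit 3) (T.ts (nat_lit 2) (T.ts (nat_lit 4) (T.ts (nat_lit 1) (T.ts (nat_lit 3) (T.ts (nat_lit 2) (T.ts (nat_lit 1) (T.l1 (nat_lit 12300) (nat_lit 3) (nat_lit 20500)) (T.sk (T.lf (nat_lit 16569) (nat_lit 3) (nat_lit 20500) (nat_lit 4) (nat_lit 12300)))) (T.sk (T.lf (nat_lit 16569) (nat_lit 3) (nat_lit 20500) (nat_lit 4) (nat_lit 12300)))) (T.tp (T.sk (T.ls (nat_lit 3) (nat_lit 4))))) (T.tp (T.sk (T.ls (nat_lit 3) (nat_lit 4))))) (T.tp (T.sk (T.ls (nat_lit 3) (nat_lit 4))))) (T.tp (T.sk (T.ls (nat_lit 3) (nat_lit 4))))) (T.tp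 (T.sk (T.ls (nat_lit 3) (nat_lit 4))))) (T.tp (T.sk (T.ls (nat_lit 3) (nat_lit 4)))))))))) (T.ts (nat_lit 1) (T.ts (nat_lit 3) (T.ls (nat_lit 3) (nat_lit 4)) (T.ts (nat_lit 2) (T.ls (nat_lit 3) (nat_lit 4)) (T.ts (nat_lit 1) (T.ls (nat_lit 3) (nat_lit 4)) (T.ts (nat_lit 0) (T.im (nat_lit 7) (nat_lit 2)) (T.nw (T.ts (nat_lit 4) (T.ts (nat_lit 3) (T.ts (nat_lit 2) (T.ts (nat_lit 4) (T.ts (nat_lit 1) (T.ts (nat_lit 3) (T.ts (nat_lit 2) (T.ts (nat_lit 1) (T.l1 (nat_lit 12300) (nat_lit 3) (nat_lit 20500)) (T.tp (T.sk (T.ls (nat_lit 3) (nat_lit 4))))) (T.tp (T.sk (T.ls (nat_lit 3) (nat_lit 4))))) (T.tp (T.sk (T.ls (nat_lit 3) (nat_lit 4))))) (T.tp (T.sk (T.ls (nat_lit 3) (nat_lit 4))))) (T.tp (T.sk (T.ls (nat_lit 3) (nat_lit 4))))) (T.tp (T.sk (T.ls (nat_lit 3) (nat_lit 4))))) (T.tp (T.sk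 (T.ls (nat_lit 3) (nat_lit 4))))) (T.tp (T.sk (T.ls (nat_lit 3) (nat_lit 4)))))))))) (T.ts (nat_lit 0) (T.im (nat_lit 7) (nat_lit 1)) (T.nw d423))))
def d425 : T := (T.ts (nat_lit 3) (T.ts (nat_lit 3) (T.ls (nat_lit 3) (nat_lit 4)) (T.ts (nat_lit 2) (T.ts (nat_lit 3) (T.ls (nat_lit 3) (nat_lit 4)) (T.ts (nat_lit 1) (T.ts (nat_lit 3) (T.ts (nat_lit 0) (T.ts (nat_lit 2) (T.l1 (nat_lit 12300) (nat_lit 4) (nat_lit 20500)) (T.tp (T.sk (T.ls (nat_lit 3) (nat_lit 4))))) (T.tp (T.sk (T.ls (nat_lit 3) (nat_lit 4))))) (T.tp (T.sk (T.ls (nat_lit 3) (nat_lit 4))))) (T.tp (T.sk (T.ls (nat_lit 3) (nat_lit 4)))))) (T.ts (nat_lit 1) (T.ls (nat_lit 3) (nat_lit 4)) (T.ts (nat_lit 0) (T.im (nat_lit 7) (nat_lit 2)) (T.nw (T.ts (nat_lit 4) (T.ts (nat_lit 3) (T.ts (nat_lit 2) (T.ts (nat_lit 4) (T.ts (nat_lit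 1) (T.ts (nat_lit 3) (T.ts (nat_lit 2) (T.ts (nat_lit 1) (T.l1 (nat_lit 12300) (nat_lit 3) (nat_lit 20500)) (T.tp (T.sk (T.ls (nat_lit 3) (nat_lit 4))))) (T.tp (T.sk (T.ls (nat_lit 3) (nat_lit 4))))) (T.tp (T.sk (T.ls (nat_lit 3) (nat_lit 4))))) (T.tp (T.sk (T.ls (nat_lit 3) (nat_lit 4))))) (T.tp (T.sk (T.ls (nat_lit 3) (nat_lit 4))))) (T.tp (T.sk (T.ls (nat_lit 3) (nat_lit 4))))) (T.tp (T.sk (T.ls (nat_lit 3) (nat_lit 4))))) (T.tp (T.sk (T.ls (nat_lit 3) (nat_lit 4)))))))))) d424)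
def d426 : T := (T.ts (nat_lit 4) (T.ls (nat_lit 3) (nat_lit 4)) (T.ts (nat_lit 3) (T.ts (nat_lit 4) (T.ls (nat_lit 3) (nat_lit 4)) (T.ts (nat_lit 2) (T.ts (nat_lit 4) (T.ts (nat_lit 1) (T.ts (nat_lit 3) (T.l1 (nat_lit 12300) (nat_lit 3) (nat_lit 20500)) (T.tp (T.sk (T.ls (nat_lit 3) (nat_lit 4))))) (T.tp (T.sk (T.ls (nat_lit 3) (nat_lit 4))))) (T.tp (T.sk (T.ls (nat_lit 3) (nat_lit 4))))) (T.tp (T.sk (T.ls (nat_lit 3) (nat_lit 4)))))) (T.ts (nat_lit 2) (T.ls (nat_lit 3) (nat_lit 4)) (T.ts (nat_lit 1) (T.ts (nat_lit 4) (T.ts (nat_lit 3) (T.ts (nat_lit 2) (T.ts (nat_lit 4) (T.ts (nat_lit 1) (T.ts (nat_lit 3) (T.ts (nat_lit 2) (T.ts (nat_lit 0) (T.l1 (nat_lit 12300) (nat_lit 4) (nat_lit 20500)) (T.tp (T.sk (T.ls (nat_lit 3) (nat_lit 4))))) (T.tp (T.sk (T.ls (nat_lit 3) (nat_lit 4)))))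 (T.tp (T.sk (T.ls (nat_lit 3) (nat_lit 4))))) (T.tp (T.sk (T.ls (nat_lit 3) (nat_lit 4))))) (T.tp (T.sk (T.ls (nat_lit 3) (nat_lit 4))))) (T.tp (T.sk (T.ls (nat_lit 3) (nat_lit 4))))) (T.tp (T.sk (T.ls (nat_lit 3) (nat_lit 4))))) (T.tp (T.sk (T.ls (nat_lit 3) (nat_lit 4))))) (T.tp (T.ts (nat_lit 0) (T.im (nat_lit 7) (nat_lit 2)) T.ie))))))
def d427 : T := (T.ts (nat_lit 4) (T.ts (nat_lit 3) (T.ts (nat_lit 2) (T.ts (nat_lit 4) (T.ts (nat_lit 1) (T.ts (nat_lit 3) (T.ts (nat_lit 2) (T.l1 (nat_lit 12300) (nat_lit 4) (nat_lit 20500)) (T.tp (T.sk (T.ls (nat_lit 3) (nat_lit 4))))) (T.tp (T.sk (T.ls (nat_lit 3) (nat_lit 4))))) (T.tp (T.sk (T.ls (nat_lit 3) (nat_lit 4))))) (T.tp (T.sk (T.ls (nat_lit 3) (nat_lit 4))))) (T.tp (T.sk (T.ls (nat_lit 3) (nat_lit 4))))) (T.tp (T.sk (T.ls (nat_lit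 3) (nat_lit 4))))) (T.ts (nat_lit 3) (T.ls (nat_lit 3) (nat_lit 4)) (T.ts (nat_lit 2) (T.ls (nat_lit 3) (nat_lit 4)) (T.ts (nat_lit 1) (T.ts (nat_lit 4) (T.ts (nat_lit 3) (T.ts (nat_lit 2) (T.ts (nat_lit 4) (T.ts (nat_lit 1) (T.ts (nat_lit 3) (T.ts (nat_lit 2) (T.ts (nat_lit 0) (T.l1 (nat_lit 12300) (nat_lit 4) (nat_lit 20500)) (T.tp (T.sk (T.ls (nat_lit 3) (nat_lit 4))))) (T.tp (T.sk (T.ls (nat_lit 3) (nat_lit 4))))) (T.tp (T.sk (T.ls (nat_lit 3) (nat_lit 4))))) (T.tp (T.sk (T.ls (nat_lit 3) (nat_lit 4))))) (T.tp (T.sk (T.ls (nat_lit 3) (nat_lit 4))))) (T.tp (T.sk (T.ls (nat_lit 3) (nat_lit 4))))) (T.tp (T.sk (T.ls (nat_lit 3) (nat_lit 4))))) (T.tp (T.sk (T.ls (nat_lit 3) (nat_lit 4))))) (T.tp (T.ts (nat_lit 0) (T.im (nat_lit 7) (nat_lit 2)) T.ie))))))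
def d428 : T := (T.ts (nat_lit 3) (T.ts (nat_lit 4) (T.ls (nat_lit 3) (nat_lit 4)) (T.ts (nat_lit 3) (T.ls (nat_lit 3) (nat_lit 4)) (T.ts (nat_lit 1) (T.ts (nat_lit 4) (T.ts (nat_lit 3) (T.ts (nat_lit 2) (T.ts (nat_lit 4) (T.ts (nat_lit 1) (T.ts (nat_lit 3) (T.ts (nat_lit 2) (T.ts (nat_lit 0) (T.l1 (nat_lit 12300) (nat_lit 4) (nat_lit 20500)) (T.sk (T.lf (nat_lit 16569) (nat_lit 3) (nat_lit 12300) (nat_lit 4) (nat_lit 20500)))) (T.sk (T.lf (nat_lit 16569) (nat_lit 3) (nat_lit 12300) (nat_lit 4) (nat_lit 20500)))) (T.tp (T.sk (T.ls (nat_lit 3) (nat_lit 4))))) (T.tp (T.sk (T.ls (nat_lit 3) (nat_lit 4))))) (T.tp (T.sk (T.ls (nat_lit 3) (nat_lit 4))))) (T.tp (T.sk (T.ls (nat_lit 3) (nat_lit 4))))) (T.tp (T.sk (T.ls (nat_lit 3) (nat_lit 4))))) (T.tp (T.sk (T.ls (nat_lit 3) (nat_lit 4)))))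 (T.tp (T.ts (nat_lit 2) (T.im (nat_lit 5) (nat_lit 3)) (T.ts (nat_lit 0) (T.im (nat_lit 7) (nat_lit 2)) T.ie)))))) (T.ts (nat_lit 2) (T.ts (nat_lit 4) (T.ls (nat_lit 3) (nat_lit 4)) (T.ts (nat_lit 3) (T.ls (nat_lit 3) (nat_lit 4)) (T.ts (nat_lit 2) (T.ls (nat_lit 3) (nat_lit 4)) (T.ts (nat_lit 1) (T.ts (nat_lit 4) (T.ts (nat_lit 3) (T.ts (nat_lit 2) (T.ts (nat_lit 4) (T.ts (nat_lit 1) (T.ts (nat_lit 3) (T.ts (nat_lit 2) (T.ts (nat_lit 0) (T.l1 (nat_lit 12300) (nat_lit 4) (nat_lit 20500)) (T.tp (T.sk (T.ls (nat_lit 3) (nat_lit 4))))) (T.tp (T.sk (T.ls (nat_lit 3) (nat_lit 4))))) (T.tp (T.sk (T.ls (nat_lit 3) (nat_lit 4))))) (T.tp (T.sk (T.ls (nat_lit 3) (nat_lit 4))))) (T.tp (T.sk (T.ls (nat_lit 3) (nat_lit 4))))) (T.tp (T.sk (T.ls (nat_lit 3) (nat_lit 4))))) (T.tp (T.sk (T.ls (nat_lit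 3) (nat_lit 4))))) (T.tp (T.sk (T.ls (nat_lit 3) (nat_lit 4))))) (T.tp (T.ts (nat_lit 0) (T.im (nat_lit 7) (nat_lit 2)) T.ie)))))) (T.ts (nat_lit 1) d427 (T.tp (T.ts (nat_lit 0) (T.im (nat_lit 7) (nat_lit 1)) T.ie)))))
def d429 : T := (T.ts (nat_lit 1) (T.ts (nat_lit 3) (T.ts (nat_lit 3) (T.ls (nat_lit 3) (nat_lit 4)) (T.ts (nat_lit 2) (T.ls (nat_lit 3) (nat_lit 4)) d418)) (T.ts (nat_lit 2) (T.ts (nat_lit 3) (T.ls (nat_lit 3) (nat_lit 4)) (T.ts (nat_lit 2) (T.ls (nat_lit 3) (nat_lit 4)) d419)) d422)) (T.ts (nat_lit 0) d425 (T.ts (nat_lit 3) (T.im (nat_lit 1) (nat_lit 4)) (T.ts (nat_lit 2) (T.im (nat_lit 5) (nat_lit 2)) (T.nw (T.ts (nat_lit 4) d426 d428))))))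
def d430 : T := (T.ts (nat_lit 0) (T.ts (nat_lit 3) (T.ts (nat_lit 2) (T.ts (nat_lit 1) (T.ts (nat_lit 3) (T.ts (nat_lit 0) (T.ts (nat_lit 2) (T.ts (nat_lit 0) (T.ts (nat_lit 3) (T.l1 (nat_lit 12300) (nat_lit 4) (nat_lit 20500)) (T.tp (T.sk (T.ls (nat_lit 3) (nat_lit 4))))) (T.tp (T.sk (T.ls (nat_lit 3) (nat_lit 4))))) (T.tp (T.sk (T.ls (nat_lit 3) (nat_lit 4))))) (T.tp (T.sk (T.ls (nat_lit 3) (nat_lit 4))))) (T.tp (T.sk (T.ls (nat_lit 3) (nat_lit 4))))) (T.tp (T.sk (T.ls (nat_lit 3) (nat_lit 4))))) (T.tp (T.sk (T.ls (nat_lit 3) (nat_lit 4))))) (T.tp (T.sk (T.ls (nat_lit 3) (nat_lit 4))))) (T.ts (nat_lit 3) (T.im (nat_lit 7) (nat_lit 2)) (T.nw (T.ts (nat_lit 4) (T.ts (nat_lit 3) (T.ts (nat_lit 2) (T.ts (nat_lit 4) (T.ts (nat_lit 1) (T.ts (nat_lit 3) (T.ts (nat_lit 1) (T.ts (nat_lit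 4) (T.l1 (nat_lit 12300) (nat_lit 3) (nat_lit 20500)) (T.tp (T.sk (T.ls (nat_lit 3) (nat_lit 4))))) (T.tp (T.sk (T.ls (nat_lit 3) (nat_lit 4))))) (T.tp (T.sk (T.ls (nat_lit 3) (nat_lit 4))))) (T.tp (T.sk (T.ls (nat_lit 3) (nat_lit 4))))) (T.tp (T.sk (T.ls (nat_lit 3) (nat_lit 4))))) (T.tp (T.sk (T.ls (nat_lit 3) (nat_lit 4))))) (T.tp (T.sk (T.ls (nat_lit 3) (nat_lit 4))))) (T.tp (T.sk (T.ls (nat_lit 3) (nat_lit 4))))))))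
def d431 : T := (T.ts (nat_lit 0) (T.ts (nat_lit 3) (T.ts (nat_lit 2) (T.ts (nat_lit 1) (T.ts (nat_lit 3) (T.ts (nat_lit 0) (T.ts (nat_lit 2) (T.ts (nat_lit 0) (T.ts (nat_lit 3) (T.l1 (nat_lit 12300) (nat_lit 4) (nat_lit 20500)) (T.tp (T.sk (T.ls (nat_lit 3) (nat_lit 4))))) (T.tp (T.sk (T.ls (nat_lit 3) (nat_lit 4))))) (T.tp (T.sk (T.ls (nat_lit 3) (nat_lit 4))))) (T.tp (T.sk (T.ls (nat_lit 3) (nat_lit 4))))) (T.tp (T.sk (T.ls (nat_lit 3) (nat_lit 4))))) (T.tp (T.sk (T.ls (nat_lit 3) (nat_lit 4))))) (T.tp (T.sk (T.ls (nat_lit 3) (nat_lit 4))))) (T.tp (T.sk (T.ls (nat_lit 3) (nat_lit 4))))) (T.ts (nat_lit 3) (T.im (nat_lit 7) (nat_lit 2)) (T.ts (nat_lit 2) (T.im (nat_lit 3) (nat_lit 4)) (T.nw (T.ts (nat_lit 4) (T.ts (nat_lit 3) (T.ts (nat_lit 2) (T.ts (nat_lit 4) (T.ts (nat_lit 1)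 (T.ts (nat_lit 3) (T.ts (nat_lit 1) (T.ts (nat_lit 4) (T.l1 (nat_lit 12300) (nat_lit 3) (nat_lit 20500)) (T.tp (T.sk (T.ls (nat_lit 3) (nat_lit 4))))) (T.tp (T.sk (T.ls (nat_lit 3) (nat_lit 4))))) (T.tp (T.sk (T.ls (nat_lit 3) (nat_lit 4))))) (T.tp (T.sk (T.ls (nat_lit 3) (nat_lit 4))))) (T.tp (T.sk (T.ls (nat_lit 3) (nat_lit 4))))) (T.tp (T.sk (T.ls (nat_lit 3) (nat_lit 4))))) (T.tp (T.sk (T.ls (nat_lit 3) (nat_lit 4))))) (T.tp (T.sk (T.ls (nat_lit 3) (nat_lit 4)))))))))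
def d432 : T := (T.ts (nat_lit 1) (T.ts (nat_lit 4) (T.ts (nat_lit 3) (T.ts (nat_lit 2) (T.ts (nat_lit 4) (T.ts (nat_lit 1) (T.ts (nat_lit 3) (T.ts (nat_lit 1) (T.ts (nat_lit 4) (T.l1 (nat_lit 12300) (nat_lit 4) (nat_lit 20500)) (T.tp (T.sk (T.ls (nat_lit 3) (nat_lit 4))))) (T.tp (T.sk (T.ls (nat_lit 3) (nat_lit 4))))) (T.tp (T.sk (T.ls (nat_lit 3) (nat_lit 4))))) (T.tp (T.sk (T.ls (nat_lit 3) (nat_lit 4))))) (T.tp (T.sk (T.ls (nat_lit 3) (nat_lit 4))))) (T.tp (T.sk (T.ls (nat_lit 3) (nat_lit 4))))) (T.tp (T.sk (T.ls (nat_lit 3) (nat_lit 4))))) (T.tp (T.sk (T.ls (nat_lit 3) (nat_lit 4))))) (T.ts (nat_lit 0) (T.ts (nat_lit 4) (T.ts (nat_lit 3) (T.ts (nat_lit 2) (T.ts (nat_lit 4) (T.ts (nat_lit 1) (T.ts (nat_lit 3) (T.ts (nat_lit 1) (T.ts (nat_lit 4) (T.l1 (nat_lit 12300) (nat_lit 3)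 (nat_lit 20500)) (T.tp (T.sk (T.ls (nat_lit 3) (nat_lit 4))))) (T.tp (T.sk (T.ls (nat_lit 3) (nat_lit 4))))) (T.tp (T.sk (T.ls (nat_lit 3) (nat_lit 4))))) (T.tp (T.sk (T.ls (nat_lit 3) (nat_lit 4))))) (T.tp (T.sk (T.ls (nat_lit 3) (nat_lit 4))))) (T.tp (T.sk (T.ls (nat_lit 3) (nat_lit 4))))) (T.tp (T.sk (T.ls (nat_lit 3) (nat_lit 4))))) (T.tp (T.sk (T.ls (nat_lit 3) (nat_lit 4))))) (T.tp (T.ts (nat_lit 4) (T.im (nat_lit 7) (nat_lit 2)) T.ie))))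
def d433 : T := (T.ts (nat_lit 0) (T.ts (nat_lit 3) (T.ts (nat_lit 2) (T.ts (nat_lit 1) (T.ts (nat_lit 3) (T.ts (nat_lit 0) (T.ts (nat_lit 2) (T.ts (nat_lit 0) (T.ts (nat_lit 1) (T.l1 (nat_lit 12300) (nat_lit 4) (nat_lit 20500)) (T.tp (T.sk (T.ls (nat_lit 3) (nat_lit 4))))) (T.tp (T.sk (T.ls (nat_lit 3) (nat_lit 4))))) (T.tp (T.sk (T.ls (nat_lit 3) (nat_lit 4))))) (T.tp (T.sk (T.ls (nat_lit 3) (nat_lit 4))))) (T.tp (T.sk (T.ls (nat_lit 3) (nat_lit 4))))) (T.tp (T.sk (T.ls (nat_lit 3) (nat_lit 4))))) (T.tp (T.sk (T.ls (nat_lit 3) (nat_lit 4))))) (T.tp (T.sk (T.ls (nat_lit 3) (nat_lit 4))))) (T.ts (nat_lit 1) (T.im (nat_lit 7) (nat_lit 2)) (T.nw (T.ts (nat_lit 4) (T.ts (nat_lit 3) (T.ts (nat_lit 2) (T.ts (nat_lit 4) (T.ts (nat_lit 1) (T.ts (nat_lit 3) (T.ts (nat_lit 1) (T.ts (nat_lit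 2) (T.l1 (nat_lit 12300) (nat_lit 3) (nat_lit 20500)) (T.tp (T.sk (T.ls (nat_lit 3) (nat_lit 4))))) (T.tp (T.sk (T.ls (nat_lit 3) (nat_lit 4))))) (T.tp (T.sk (T.ls (nat_lit 3) (nat_lit 4))))) (T.tp (T.sk (T.ls (nat_lit 3) (nat_lit 4))))) (T.tp (T.sk (T.ls (nat_lit 3) (nat_lit 4))))) (T.tp (T.sk (T.ls (nat_lit 3) (nat_lit 4))))) (T.tp (T.sk (T.ls (nat_lit 3) (nat_lit 4))))) (T.tp (T.sk (T.ls (nat_lit 3) (nat_lit 4))))))))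
def d434 : T := (T.ts (nat_lit 0) (T.ts (nat_lit 3) (T.ts (nat_lit 2) (T.ts (nat_lit 1) (T.ts (nat_lit 3) (T.ts (nat_lit 0) (T.ts (nat_lit 2) (T.ts (nat_lit 0) (T.ts (nat_lit 1) (T.l1 (nat_lit 12300) (nat_lit 4) (nat_lit 20500)) (T.tp (T.sk (T.ls (nat_lit 3) (nat_lit 4))))) (T.tp (T.sk (T.ls (nat_lit 3) (nat_lit 4))))) (T.tp (T.sk (T.ls (nat_lit 3) (nat_lit 4))))) (T.tp (T.sk (T.ls (nat_lit 3) (nat_lit 4))))) (T.tp (T.sk (T.ls (nat_lit 3) (nat_lit 4))))) (T.tp (T.sk (T.ls (nat_lit 3) (nat_lit 4))))) (T.tp (T.sk (T.ls (nat_lit 3) (nat_lit 4))))) (T.tp (T.sk (T.ls (nat_lit 3) (nat_lit 4))))) (T.ts (nat_lit 1) (T.im (nat_lit 7) (nat_lit 2)) (T.nw (T.ts (nat_lit 4) (T.ts (nat_lit 3) (T.ts (nat_lit 2) (T.ts (nat_lit 4) (T.ts (nat_lit 1) (T.ts (nat_lit 3) (T.ts (nat_lit 1) (T.ts (nat_lit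 2) (T.l1 (nat_lit 12300) (nat_lit 3) (nat_lit 20500)) (T.tp (T.sk (T.ls (nat_lit 3) (nat_lit 4))))) (T.tp (T.sk (T.ls (nat_lit 3) (nat_lit 4))))) (T.tp (T.sk (T.ls (nat_lit 3) (nat_lit 4))))) (T.tp (T.sk (T.ls (nat_lit 3) (nat_lit 4))))) (T.tp (T.sk (T.ls (nat_lit 3) (nat_lit 4))))) (T.tp (T.sk (T.ls (nat_lit 3) (nat_lit 4))))) (T.tp (T.sk (T.ls (nat_lit 3) (nat_lit 4))))) (T.tp (T.sk (T.ls (nat_lit 3) (nat_lit 4))))))))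
def d435 : T := (T.ts (nat_lit 1) (T.ts (nat_lit 4) (T.ts (nat_lit 3) (T.ts (nat_lit 2) (T.ts (nat_lit 4) (T.ts (nat_lit 1) (T.ts (nat_lit 3) (T.ts (nat_lit 1) (T.ts (nat_lit 2) (T.l1 (nat_lit 12300) (nat_lit 4) (nat_lit 20500)) (T.tp (T.sk (T.ls (nat_lit 3) (nat_lit 4))))) (T.tp (T.sk (T.ls (nat_lit 3) (nat_lit 4))))) (T.tp (T.sk (T.ls (nat_lit 3) (nat_lit 4))))) (T.tp (T.sk (T.ls (nat_lit 3) (nat_lit 4))))) (T.tp (T.sk (T.ls (nat_lit 3) (nat_lit 4))))) (T.tp (T.sk (T.ls (nat_lit 3) (nat_lit 4))))) (T.tp (T.sk (T.ls (nat_lit 3) (nat_lit 4))))) (T.tp (T.sk (T.ls (nat_lit 3) (nat_lit 4))))) (T.ts (nat_lit 0) (T.ts (nat_lit 4) (T.ts (nat_lit 3) (T.ts (nat_lit 2) (T.ts (nat_lit 4) (T.ts (nat_lit 1) (T.ts (nat_lit 3) (T.ts (nat_lit 1) (T.ts (nat_lit 2) (T.l1 (nat_lit 12300) (nat_lit 3)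 (nat_lit 20500)) (T.tp (T.sk (T.ls (nat_lit 3) (nat_lit 4))))) (T.tp (T.sk (T.ls (nat_lit 3) (nat_lit 4))))) (T.tp (T.sk (T.ls (nat_lit 3) (nat_lit 4))))) (T.tp (T.sk (T.ls (nat_lit 3) (nat_lit 4))))) (T.tp (T.sk (T.ls (nat_lit 3) (nat_lit 4))))) (T.tp (T.sk (T.ls (nat_lit 3) (nat_lit 4))))) (T.tp (T.sk (T.ls (nat_lit 3) (nat_lit 4))))) (T.tp (T.sk (T.ls (nat_lit 3) (nat_lit 4))))) (T.tp (T.ts (nat_lit 2) (T.im (nat_lit 7) (nat_lit 2)) T.ie))))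
def d436 : T := (T.ts (nat_lit 2) (T.ts (nat_lit 3) (T.ls (nat_lit 3) (nat_lit 4)) (T.ts (nat_lit 2) (T.ls (nat_lit 3) (nat_lit 4)) (T.ts (nat_lit 1) (T.im (nat_lit 7) (nat_lit 2)) (T.ts (nat_lit 0) (T.im (nat_lit 5) (nat_lit 3)) (T.nw (T.ts (nat_lit 4) (T.ts (nat_lit 3) (T.ts (nat_lit 2) (T.ts (nat_lit 4) (T.ts (nat_lit 1) (T.ts (nat_lit 3) (T.ts (nat_lit 1) (T.ts (nat_lit 2) (T.l1 (nat_lit 12300) (nat_lit 3) (nat_lit 20500)) (T.sk (T.lf (nat_lit 16569) (nat_lit 3) (nat_lit 20500) (nat_lit 4) (nat_lit 12300)))) (T.sk (T.lf (nat_lit 16569) (nat_lit 3) (nat_lit 20500) (nat_lit 4) (nat_lit 12300)))) (T.tp (T.sk (T.ls (nat_lit 3) (nat_lit 4))))) (T.tp (T.sk (T.ls (nat_lit 3) (nat_lit 4))))) (T.tp (T.sk (T.ls (nat_lit 3) (nat_lit 4))))) (T.tp (T.sk (T.ls (nat_lit 3) (nat_lit 4))))) (T.tp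 (T.sk (T.ls (nat_lit 3) (nat_lit 4))))) (T.tp (T.sk (T.ls (nat_lit 3) (nat_lit 4)))))))))) (T.ts (nat_lit 0) (T.ts (nat_lit 3) (T.tp (T.ts (nat_lit 2) (T.ts (nat_lit 1) (T.ts (nat_lit 3) (T.ts (nat_lit 0) (T.ts (nat_lit 2) (T.ts (nat_lit 0) (T.im (nat_lit 13) (nat_lit 2)) (T.sk (T.ls (nat_lit 3) (nat_lit 4)))) (T.sk (T.ls (nat_lit 3) (nat_lit 4)))) (T.sk (T.ls (nat_lit 3) (nat_lit 4)))) (T.sk (T.ls (nat_lit 3) (nat_lit 4)))) (T.sk (T.ls (nat_lit 3) (nat_lit 4)))) (T.sk (T.ls (nat_lit 3) (nat_lit 4))))) (T.ts (nat_lit 2) (T.ls (nat_lit 3) (nat_lit 4)) d434)) (T.ts (nat_lit 1) (T.im (nat_lit 7) (nat_lit 1)) (T.nw (T.ts (nat_lit 4) (T.tp (T.ts (nat_lit 3) (T.ts (nat_lit 2) (T.ts (nat_lit 4) (T.ts (nat_lit 1) (T.ts (nat_lit 3) (T.ts (nat_lit 1) (T.im (nat_lit 13) (nat_lit 2)) (T.sk (T.ls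 (nat_lit 3) (nat_lit 4)))) (T.sk (T.ls (nat_lit 3) (nat_lit 4)))) (T.sk (T.ls (nat_lit 3) (nat_lit 4)))) (T.sk (T.ls (nat_lit 3) (nat_lit 4)))) (T.sk (T.ls (nat_lit 3) (nat_lit 4)))) (T.sk (T.ls (nat_lit 3) (nat_lit 4))))) (T.ts (nat_lit 3) (T.ls (nat_lit 3) (nat_lit 4)) d435))))))
def d437 : T := (T.ts (nat_lit 4) (T.tp (T.ts (nat_lit 3) (T.ts (nat_lit 2) (T.ts (nat_lit 4) (T.ts (nat_lit 1) (T.ts (nat_lit 3) (T.ts (nat_lit 1) (T.im (nat_lit 13) (nat_lit 2)) (T.sk (T.ls (nat_lit 3) (nat_lit 4)))) (T.sk (T.ls (nat_lit 3) (nat_lit 4)))) (T.sk (T.ls (nat_lit 3) (nat_lit 4)))) (T.sk (T.ls (nat_lit 3) (nat_lit 4)))) (T.sk (T.ls (nat_lit 3) (nat_lit 4)))) (T.sk (T.ls (nat_lit 3) (nat_lit 4))))) (T.ts (nat_lit 3) (T.ls (nat_lit 3) (nat_lit 4)) (T.ts (nat_lit 2) (T.ls (nat_lit 3) (nat_lit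 4)) (T.ts (nat_lit 0) (T.ts (nat_lit 4) (T.ts (nat_lit 3) (T.ts (nat_lit 2) (T.ts (nat_lit 4) (T.ts (nat_lit 1) (T.ts (nat_lit 3) (T.ts (nat_lit 1) (T.ts (nat_lit 1) (T.l1 (nat_lit 12300) (nat_lit 3) (nat_lit 20500)) (T.tp (T.sk (T.ls (nat_lit 3) (nat_lit 4))))) (T.tp (T.sk (T.ls (nat_lit 3) (nat_lit 4))))) (T.tp (T.sk (T.ls (nat_lit 3) (nat_lit 4))))) (T.tp (T.sk (T.ls (nat_lit 3) (nat_lit 4))))) (T.tp (T.sk (T.ls (nat_lit 3) (nat_lit 4))))) (T.tp (T.sk (T.ls (nat_lit 3) (nat_lit 4))))) (T.tp (T.sk (T.ls (nat_lit 3) (nat_lit 4))))) (T.tp (T.sk (T.ls (nat_lit 3) (nat_lit 4))))) (T.tp (T.ts (nat_lit 1) (T.im (nat_lit 7) (nat_lit 2)) T.ie))))))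
def d438 : T := (T.ts (nat_lit 2) (T.ts (nat_lit 3) (T.ls (nat_lit 3) (nat_lit 4)) (T.ts (nat_lit 2) (T.ls (nat_lit 3) (nat_lit 4)) (T.ts (nat_lit 1) (T.ls (nat_lit 3) (nat_lit 4)) (T.ts (nat_lit 0) (T.im (nat_lit 5) (nat_lit 3)) (T.nw (T.ts (nat_lit 4) (T.ts (nat_lit 3) (T.ts (nat_lit 2) (T.ts (nat_lit 4) (T.ts (nat_lit 1) (T.ts (nat_lit 3) (T.ts (nat_lit 1) (T.ts (nat_lit 1) (T.l1 (nat_lit 12300) (nat_lit 3) (nat_lit 20500)) (T.sk (T.lf (nat_lit 16569) (nat_lit 3) (nat_lit 20500) (nat_lit 4) (nat_lit 12300)))) (T.sk (T.lf (nat_lit 16569) (nat_lit 3) (nat_lit 20500) (nat_lit 4) (nat_lit 12300)))) (T.tp (T.sk (T.ls (nat_lit 3) (nat_lit 4))))) (T.tp (T.sk (T.ls (nat_lit 3) (nat_lit 4))))) (T.tp (T.sk (T.ls (nat_lit 3) (nat_lit 4))))) (T.tp (T.sk (T.ls (nat_lit 3) (nat_lit 4))))) (T.tp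 (T.sk (T.ls (nat_lit 3) (nat_lit 4))))) (T.tp (T.sk (T.ls (nat_lit 3) (nat_lit 4)))))))))) (T.ts (nat_lit 1) (T.ts (nat_lit 3) (T.ls (nat_lit 3) (nat_lit 4)) (T.ts (nat_lit 2) (T.ls (nat_lit 3) (nat_lit 4)) (T.ts (nat_lit 1) (T.ls (nat_lit 3) (nat_lit 4)) (T.ts (nat_lit 0) (T.im (nat_lit 7) (nat_lit 2)) (T.nw (T.ts (nat_lit 4) (T.ts (nat_lit 3) (T.ts (nat_lit 2) (T.ts (nat_lit 4) (T.ts (nat_lit 1) (T.ts (nat_lit 3) (T.ts (nat_lit 1) (T.ts (nat_lit 1) (T.l1 (nat_lit 12300) (nat_lit 3) (nat_lit 20500)) (T.tp (T.sk (T.ls (nat_lit 3) (nat_lit 4))))) (T.tp (T.sk (T.ls (nat_lit 3) (nat_lit 4))))) (T.tp (T.sk (T.ls (nat_lit 3) (nat_lit 4))))) (T.tp (T.sk (T.ls (nat_lit 3) (nat_lit 4))))) (T.tp (T.sk (T.ls (nat_lit 3) (nat_lit 4))))) (T.tp (T.sk (T.ls (nat_lit 3) (nat_lit 4))))) (T.tp (T.sk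 (T.ls (nat_lit 3) (nat_lit 4))))) (T.tp (T.sk (T.ls (nat_lit 3) (nat_lit 4)))))))))) (T.ts (nat_lit 0) (T.im (nat_lit 7) (nat_lit 1)) (T.nw d437))))
def d439 : T := (T.ts (nat_lit 3) (T.ts (nat_lit 3) (T.ls (nat_lit 3) (nat_lit 4)) (T.ts (nat_lit 2) (T.ts (nat_lit 3) (T.ls (nat_lit 3) (nat_lit 4)) (T.ts (nat_lit 1) (T.ts (nat_lit 3) (T.ts (nat_lit 0) (T.ts (nat_lit 2) (T.l1 (nat_lit 12300) (nat_lit 4) (nat_lit 20500)) (T.tp (T.sk (T.ls (nat_lit 3) (nat_lit 4))))) (T.tp (T.sk (T.ls (nat_lit 3) (nat_lit 4))))) (T.tp (T.sk (T.ls (nat_lit 3) (nat_lit 4))))) (T.tp (T.sk (T.ls (nat_lit 3) (nat_lit 4)))))) (T.ts (nat_lit 1) (T.ls (nat_lit 3) (nat_lit 4)) (T.ts (nat_lit 0) (T.im (nat_lit 7) (nat_lit 2)) (T.nw (T.ts (nat_lit 4) (T.ts (nat_lit 3) (T.ts (nat_lit 2) (T.ts (nat_lit 4) (T.ts (nat_lit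 1) (T.ts (nat_lit 3) (T.ts (nat_lit 1) (T.ts (nat_lit 1) (T.l1 (nat_lit 12300) (nat_lit 3) (nat_lit 20500)) (T.tp (T.sk (T.ls (nat_lit 3) (nat_lit 4))))) (T.tp (T.sk (T.ls (nat_lit 3) (nat_lit 4))))) (T.tp (T.sk (T.ls (nat_lit 3) (nat_lit 4))))) (T.tp (T.sk (T.ls (nat_lit 3) (nat_lit 4))))) (T.tp (T.sk (T.ls (nat_lit 3) (nat_lit 4))))) (T.tp (T.sk (T.ls (nat_lit 3) (nat_lit 4))))) (T.tp (T.sk (T.ls (nat_lit 3) (nat_lit 4))))) (T.tp (T.sk (T.ls (nat_lit 3) (nat_lit 4)))))))))) d438)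
def d440 : T := (T.ts (nat_lit 4) (T.ls (nat_lit 3) (nat_lit 4)) (T.ts (nat_lit 3) (T.ts (nat_lit 4) (T.ls (nat_lit 3) (nat_lit 4)) (T.ts (nat_lit 2) (T.ts (nat_lit 4) (T.ts (nat_lit 1) (T.ts (nat_lit 3) (T.l1 (nat_lit 12300) (nat_lit 3) (nat_lit 20500)) (T.tp (T.sk (T.ls (nat_lit 3) (nat_lit 4))))) (T.tp (T.sk (T.ls (nat_lit 3) (nat_lit 4))))) (T.tp (T.sk (T.ls (nat_lit 3) (nat_lit 4))))) (T.tp (T.sk (T.ls (nat_lit 3) (nat_lit 4)))))) (T.ts (nat_lit 2) (T.ls (nat_lit 3) (nat_lit 4)) (T.ts (nat_lit 1) (T.ts (nat_lit 4) (T.ts (nat_lit 3) (T.ts (nat_lit 2) (T.ts (nat_lit 4) (T.ts (nat_lit 1) (T.ts (nat_lit 3) (T.ts (nat_lit 1) (T.ts (nat_lit 0) (T.l1 (nat_lit 12300) (nat_lit 4) (nat_lit 20500)) (T.tp (T.sk (T.ls (nat_lit 3) (nat_lit 4))))) (T.tp (T.sk (T.ls (nat_lit 3) (nat_lit 4)))))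 (T.tp (T.sk (T.ls (nat_lit 3) (nat_lit 4))))) (T.tp (T.sk (T.ls (nat_lit 3) (nat_lit 4))))) (T.tp (T.sk (T.ls (nat_lit 3) (nat_lit 4))))) (T.tp (T.sk (T.ls (nat_lit 3) (nat_lit 4))))) (T.tp (T.sk (T.ls (nat_lit 3) (nat_lit 4))))) (T.tp (T.sk (T.ls (nat_lit 3) (nat_lit 4))))) (T.tp (T.ts (nat_lit 0) (T.im (nat_lit 7) (nat_lit 2)) T.ie))))))
def d441 : T := (T.ts (nat_lit 4) (T.tp (T.ts (nat_lit 3) (T.ts (nat_lit 2) (T.ts (nat_lit 4) (T.ts (nat_lit 1) (T.ts (nat_lit 3) (T.ts (nat_lit 1) (T.im (nat_lit 13) (nat_lit 2)) (T.sk (T.ls (nat_lit 3) (nat_lit 4)))) (T.sk (T.ls (nat_lit 3) (nat_lit 4)))) (T.sk (T.ls (nat_lit 3) (nat_lit 4)))) (T.sk (T.ls (nat_lit 3) (nat_lit 4)))) (T.sk (T.ls (nat_lit 3) (nat_lit 4)))) (T.sk (T.ls (nat_lit 3) (nat_lit 4))))) (T.ts (nat_lit 3) (T.ls (nat_lit 3)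 (nat_lit 4)) (T.ts (nat_lit 2) (T.ls (nat_lit 3) (nat_lit 4)) (T.ts (nat_lit 1) (T.ts (nat_lit 4) (T.ts (nat_lit 3) (T.ts (nat_lit 2) (T.ts (nat_lit 4) (T.ts (nat_lit 1) (T.ts (nat_lit 3) (T.ts (nat_lit 1) (T.ts (nat_lit 0) (T.l1 (nat_lit 12300) (nat_lit 4) (nat_lit 20500)) (T.tp (T.sk (T.ls (nat_lit 3) (nat_lit 4))))) (T.tp (T.sk (T.ls (nat_lit 3) (nat_lit 4))))) (T.tp (T.sk (T.ls (nat_lit 3) (nat_lit 4))))) (T.tp (T.sk (T.ls (nat_lit 3) (nat_lit 4))))) (T.tp (T.sk (T.ls (nat_lit 3) (nat_lit 4))))) (T.tp (T.sk (T.ls (nat_lit 3) (nat_lit 4))))) (T.tp (T.sk (T.ls (nat_lit 3) (nat_lit 4))))) (T.tp (T.sk (T.ls (nat_lit 3) (nat_lit 4))))) (T.tp (T.ts (nat_lit 0) (T.im (nat_lit 7) (nat_lit 2)) T.ie))))))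
def d442 : T := (T.ts (nat_lit 3) (T.tp (T.ts (nat_lit 4) (T.ls (nat_lit 3) (nat_lit 4)) (T.ts (nat_lit 3) (T.ls (nat_lit 3) (nat_lit 4)) (T.ts (nat_lit 2) (T.ls (nat_lit 3) (nat_lit 4)) (T.ts (nat_lit 1) (T.im (nat_lit 5) (nat_lit 3)) (T.ts (nat_lit 0) (T.im (nat_lit 7) (nat_lit 2)) T.ie)))))) (T.ts (nat_lit 2) (T.ts (nat_lit 4) (T.ls (nat_lit 3) (nat_lit 4)) (T.ts (nat_lit 3) (T.ls (nat_lit 3) (nat_lit 4)) (T.ts (nat_lit 2) (T.ls (nat_lit 3) (nat_lit 4)) (T.ts (nat_lit 1) (T.ts (nat_lit 4) (T.ts (nat_lit 3) (T.ts (nat_lit 2) (T.ts (nat_lit 4) (T.ts (nat_lit 1) (T.ts (nat_lit 3) (T.ts (nat_lit 1) (T.ts (nat_lit 0) (T.l1 (nat_lit 12300) (nat_lit 4) (nat_lit 20500)) (T.tp (T.sk (T.ls (nat_lit 3) (nat_lit 4))))) (T.tp (T.sk (T.ls (nat_lit 3) (nat_lit 4))))) (T.tp (T.sk (T.ls (nat_lit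 3) (nat_lit 4))))) (T.tp (T.sk (T.ls (nat_lit 3) (nat_lit 4))))) (T.tp (T.sk (T.ls (nat_lit 3) (nat_lit 4))))) (T.tp (T.sk (T.ls (nat_lit 3) (nat_lit 4))))) (T.tp (T.sk (T.ls (nat_lit 3) (nat_lit 4))))) (T.tp (T.sk (T.ls (nat_lit 3) (nat_lit 4))))) (T.tp (T.ts (nat_lit 0) (T.im (nat_lit 7) (nat_lit 2)) T.ie)))))) (T.ts (nat_lit 1) d441 (T.tp (T.ts (nat_lit 0) (T.im (nat_lit 7) (nat_lit 1)) T.ie)))))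
def d443 : T := (T.ts (nat_lit 3) (T.ts (nat_lit 2) (T.ts (nat_lit 2) (T.ls (nat_lit 3) (nat_lit 4)) (T.ts (nat_lit 1) (T.ts (nat_lit 3) (T.ts (nat_lit 0) (T.l1 (nat_lit 12300) (nat_lit 4) (nat_lit 20500)) (T.tp (T.sk (T.ls (nat_lit 3) (nat_lit 4))))) (T.tp (T.sk (T.ls (nat_lit 3) (nat_lit 4))))) (T.tp (T.ts (nat_lit 3) (T.im (nat_lit 7) (nat_lit 2)) (T.ts (nat_lit 0) (T.im (nat_lit 5) (nat_lit 3)) (T.nw (T.ts (nat_lit 4) (T.ts (nat_lit 3) (T.im (nat_lit 7) (nat_lit 3)) (T.sk (T.ls (nat_lit 3) (nat_lit 4)))) (T.sk (T.ls (nat_lit 3) (nat_lit 4)))))))))) (T.ts (nat_lit 1) (T.ts (nat_lit 2) (T.ls (nat_lit 3) (nat_lit 4)) (T.ts (nat_lit 1) (T.ls (nat_lit 3) (nat_lit 4)) d430)) (T.ts (nat_lit 0) (T.ts (nat_lit 1) (T.ls (nat_lit 3) (nat_lit 4)) d431) (T.ts (nat_lit 3) (T.im (nat_lit 7)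 (nat_lit 1)) (T.nw (T.ts (nat_lit 3) (T.ls (nat_lit 3) (nat_lit 4)) (T.ts (nat_lit 2) (T.ls (nat_lit 3) (nat_lit 4)) d432))))))) (T.ts (nat_lit 1) (T.ts (nat_lit 3) (T.ts (nat_lit 3) (T.ls (nat_lit 3) (nat_lit 4)) (T.ts (nat_lit 2) (T.ls (nat_lit 3) (nat_lit 4)) d433)) d436) (T.ts (nat_lit 0) d439 (T.ts (nat_lit 2) (T.im (nat_lit 5) (nat_lit 2)) (T.nw (T.ts (nat_lit 4) d440 d442))))))
def d444 : T := (T.ts (nat_lit 1) (T.ts (nat_lit 4) (T.ts (nat_lit 3) (T.ts (nat_lit 2) (T.ts (nat_lit 4) (T.ts (nat_lit 1) (T.ts (nat_lit 3) (T.ts (nat_lit 0) (T.ts (nat_lit 4) (T.l1 (nat_lit 12300) (nat_lit 4) (nat_lit 20500)) (T.tp (T.sk (T.ls (nat_lit 3) (nat_lit 4))))) (T.tp (T.sk (T.ls (nat_lit 3) (nat_lit 4))))) (T.tp (T.sk (T.ls (nat_lit 3) (nat_lit 4))))) (T.tp (T.sk (T.ls (nat_lit 3) (nat_lit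 4))))) (T.tp (T.sk (T.ls (nat_lit 3) (nat_lit 4))))) (T.tp (T.sk (T.ls (nat_lit 3) (nat_lit 4))))) (T.tp (T.sk (T.ls (nat_lit 3) (nat_lit 4))))) (T.tp (T.sk (T.ls (nat_lit 3) (nat_lit 4))))) (T.ts (nat_lit 0) (T.ts (nat_lit 4) (T.ts (nat_lit 3) (T.ts (nat_lit 2) (T.ts (nat_lit 4) (T.ts (nat_lit 1) (T.ts (nat_lit 3) (T.ts (nat_lit 0) (T.ts (nat_lit 4) (T.l1 (nat_lit 12300) (nat_lit 3) (nat_lit 20500)) (T.tp (T.sk (T.ls (nat_lit 3) (nat_lit 4))))) (T.tp (T.sk (T.ls (nat_lit 3) (nat_lit 4))))) (T.tp (T.sk (T.ls (nat_lit 3) (nat_lit 4))))) (T.tp (T.sk (T.ls (nat_lit 3) (nat_lit 4))))) (T.tp (T.sk (T.ls (nat_lit 3) (nat_lit 4))))) (T.tp (T.sk (T.ls (nat_lit 3) (nat_lit 4))))) (T.tp (T.sk (T.ls (nat_lit 3) (nat_lit 4))))) (T.tp (T.sk (T.ls (nat_lit 3) (nat_lit 4))))) (T.tp (T.ts (nat_lit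 4) (T.im (nat_lit 7) (nat_lit 2)) T.ie))))
def d445 : T := (T.ts (nat_lit 1) (T.ts (nat_lit 4) (T.ts (nat_lit 3) (T.ts (nat_lit 2) (T.ts (nat_lit 4) (T.ts (nat_lit 1) (T.ts (nat_lit 3) (T.ts (nat_lit 0) (T.ts (nat_lit 4) (T.l1 (nat_lit 12300) (nat_lit 4) (nat_lit 20500)) (T.tp (T.sk (T.ls (nat_lit 3) (nat_lit 4))))) (T.tp (T.sk (T.ls (nat_lit 3) (nat_lit 4))))) (T.tp (T.sk (T.ls (nat_lit 3) (nat_lit 4))))) (T.tp (T.sk (T.ls (nat_lit 3) (nat_lit 4))))) (T.tp (T.sk (T.ls (nat_lit 3) (nat_lit 4))))) (T.tp (T.sk (T.ls (nat_lit 3) (nat_lit 4))))) (T.tp (T.sk (T.ls (nat_lit 3) (nat_lit 4))))) (T.tp (T.sk (T.ls (nat_lit 3) (nat_lit 4))))) (T.ts (nat_lit 0) (T.ts (nat_lit 4) (T.ts (nat_lit 3) (T.ts (nat_lit 2) (T.ts (nat_lit 4) (T.ts (nat_lit 1) (T.ts (nat_lit 3) (T.ts (nat_lit 0) (T.ts (nat_lit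 4) (T.l1 (nat_lit 12300) (nat_lit 3) (nat_lit 20500)) (T.tp (T.sk (T.ls (nat_lit 3) (nat_lit 4))))) (T.tp (T.sk (T.ls (nat_lit 3) (nat_lit 4))))) (T.tp (T.sk (T.ls (nat_lit 3) (nat_lit 4))))) (T.tp (T.sk (T.ls (nat_lit 3) (nat_lit 4))))) (T.tp (T.sk (T.ls (nat_lit 3) (nat_lit 4))))) (T.tp (T.sk (T.ls (nat_lit 3) (nat_lit 4))))) (T.tp (T.sk (T.ls (nat_lit 3) (nat_lit 4))))) (T.tp (T.sk (T.ls (nat_lit 3) (nat_lit 4))))) (T.tp (T.ts (nat_lit 4) (T.im (nat_lit 7) (nat_lit 2)) (T.ts (nat_lit 3) (T.im (nat_lit 3) (nat_lit 4)) T.ie)))))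
def d446 : T := (T.ts (nat_lit 1) (T.ts (nat_lit 4) (T.ts (nat_lit 3) (T.ts (nat_lit 2) (T.ts (nat_lit 4) (T.ts (nat_lit 1) (T.ts (nat_lit 3) (T.ts (nat_lit 0) (T.ts (nat_lit 4) (T.l1 (nat_lit 12300) (nat_lit 4) (nat_lit 20500)) (T.tp (T.sk (T.ls (nat_lit 3) (nat_lit 4))))) (T.tp (T.sk (T.ls (nat_lit 3) (nat_lit 4))))) (T.tp (T.sk (T.ls (nat_lit 3) (nat_lit 4))))) (T.tp (T.sk (T.ls (nat_lit 3) (nat_lit 4))))) (T.tp (T.sk (T.ls (nat_lit 3) (nat_lit 4))))) (T.tp (T.sk (T.ls (nat_lit 3) (nat_lit 4))))) (T.tp (T.sk (T.ls (nat_lit 3) (nat_lit 4))))) (T.tp (T.sk (T.ls (nat_lit 3) (nat_lit 4))))) (T.ts (nat_lit 0) (T.ts (nat_lit 4) (T.ts (nat_lit 3) (T.ts (nat_lit 2) (T.ts (nat_lit 4) (T.ts (nat_lit 1) (T.ts (nat_lit 3) (T.ts (nat_lit 0) (T.ts (nat_lit 4) (T.l1 (nat_lit 12300) (nat_lit 3)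 (nat_lit 20500)) (T.tp (T.sk (T.ls (nat_lit 3) (nat_lit 4))))) (T.tp (T.sk (T.ls (nat_lit 3) (nat_lit 4))))) (T.tp (T.sk (T.ls (nat_lit 3) (nat_lit 4))))) (T.tp (T.sk (T.ls (nat_lit 3) (nat_lit 4))))) (T.tp (T.sk (T.ls (nat_lit 3) (nat_lit 4))))) (T.tp (T.sk (T.ls (nat_lit 3) (nat_lit 4))))) (T.tp (T.sk (T.ls (nat_lit 3) (nat_lit 4))))) (T.tp (T.sk (T.ls (nat_lit 3) (nat_lit 4))))) (T.tp (T.ts (nat_lit 4) (T.im (nat_lit 7) (nat_lit 2)) T.ie))))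
def d447 : T := (T.ts (nat_lit 1) (T.ts (nat_lit 4) (T.ts (nat_lit 3) (T.ts (nat_lit 2) (T.ts (nat_lit 4) (T.ts (nat_lit 1) (T.ts (nat_lit 3) (T.ts (nat_lit 0) (T.ts (nat_lit 2) (T.l1 (nat_lit 12300) (nat_lit 4) (nat_lit 20500)) (T.tp (T.sk (T.ls (nat_lit 3) (nat_lit 4))))) (T.tp (T.sk (T.ls (nat_lit 3) (nat_lit 4))))) (T.tp (T.sk (T.ls (nat_lit 3) (nat_lit 4))))) (T.tp (T.sk (T.ls (nat_lit 3) (nat_lit 4))))) (T.tp (T.sk (T.ls (nat_lit 3) (nat_lit 4))))) (T.tp (T.sk (T.ls (nat_lit 3) (nat_lit 4))))) (T.tp (T.sk (T.ls (nat_lit 3) (nat_lit 4))))) (T.tp (T.sk (T.ls (nat_lit 3) (nat_lit 4))))) (T.ts (nat_lit 0) (T.ts (nat_lit 4) (T.ts (nat_lit 3) (T.ts (nat_lit 2) (T.ts (nat_lit 4) (T.ts (nat_lit 1) (T.ts (nat_lit 3) (T.ts (nat_lit 0) (T.ts (nat_lit 2) (T.l1 (nat_lit 12300) (nat_lit 3)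 (nat_lit 20500)) (T.tp (T.sk (T.ls (nat_lit 3) (nat_lit 4))))) (T.tp (T.sk (T.ls (nat_lit 3) (nat_lit 4))))) (T.tp (T.sk (T.ls (nat_lit 3) (nat_lit 4))))) (T.tp (T.sk (T.ls (nat_lit 3) (nat_lit 4))))) (T.tp (T.sk (T.ls (nat_lit 3) (nat_lit 4))))) (T.tp (T.sk (T.ls (nat_lit 3) (nat_lit 4))))) (T.tp (T.sk (T.ls (nat_lit 3) (nat_lit 4))))) (T.tp (T.sk (T.ls (nat_lit 3) (nat_lit 4))))) (T.tp (T.ts (nat_lit 2) (T.im (nat_lit 7) (nat_lit 2)) T.ie))))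
def d448 : T := (T.ts (nat_lit 1) (T.ts (nat_lit 4) (T.ts (nat_lit 3) (T.ts (nat_lit 2) (T.ts (nat_lit 4) (T.ts (nat_lit 1) (T.ts (nat_lit 3) (T.ts (nat_lit 0) (T.ts (nat_lit 2) (T.l1 (nat_lit 12300) (nat_lit 4) (nat_lit 20500)) (T.tp (T.sk (T.ls (nat_lit 3) (nat_lit 4))))) (T.tp (T.sk (T.ls (nat_lit 3) (nat_lit 4))))) (T.tp (T.sk (T.ls (nat_lit 3) (nat_lit 4))))) (T.tp (T.sk (T.ls (nat_lit 3) (nat_lit 4))))) (T.tp (T.sk (T.ls (nat_lit 3) (nat_lit 4))))) (T.tp (T.sk (T.ls (nat_lit 3) (nat_lit 4))))) (T.tp (T.sk (T.ls (nat_lit 3) (nat_lit 4))))) (T.tp (T.sk (T.ls (nat_lit 3) (nat_lit 4))))) (T.ts (nat_lit 0) (T.ts (nat_lit 4) (T.ts (nat_lit 3) (T.ts (nat_lit 2) (T.ts (nat_lit 4) (T.ts (nat_lit 1) (T.ts (nat_lit 3) (T.ts (nat_lit 0) (T.ts (nat_lit 2) (T.l1 (nat_lit 12300) (nat_lit 3)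 (nat_lit 20500)) (T.tp (T.sk (T.ls (nat_lit 3) (nat_lit 4))))) (T.tp (T.sk (T.ls (nat_lit 3) (nat_lit 4))))) (T.tp (T.sk (T.ls (nat_lit 3) (nat_lit 4))))) (T.tp (T.sk (T.ls (nat_lit 3) (nat_lit 4))))) (T.tp (T.sk (T.ls (nat_lit 3) (nat_lit 4))))) (T.tp (T.sk (T.ls (nat_lit 3) (nat_lit 4))))) (T.tp (T.sk (T.ls (nat_lit 3) (nat_lit 4))))) (T.tp (T.sk (T.ls (nat_lit 3) (nat_lit 4))))) (T.tp (T.ts (nat_lit 2) (T.im (nat_lit 7) (nat_lit 2)) T.ie))))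
def d449 : T := (T.ts (nat_lit 1) (T.ts (nat_lit 4) (T.ts (nat_lit 3) (T.ts (nat_lit 2) (T.ts (nat_lit 4) (T.ts (nat_lit 1) (T.ts (nat_lit 3) (T.ts (nat_lit 0) (T.ts (nat_lit 2) (T.l1 (nat_lit 12300) (nat_lit 4) (nat_lit 20500)) (T.tp (T.sk (T.ls (nat_lit 3) (nat_lit 4))))) (T.tp (T.sk (T.ls (nat_lit 3) (nat_lit 4))))) (T.tp (T.sk (T.ls (nat_lit 3) (nat_lit 4))))) (T.tp (T.sk (T.ls (nat_lit 3) (nat_lit 4))))) (T.tp (T.sk (T.ls (nat_lit 3) (nat_lit 4))))) (T.tp (T.sk (T.ls (nat_lit 3) (nat_lit 4))))) (T.tp (T.sk (T.ls (nat_lit 3) (nat_lit 4))))) (T.tp (T.sk (T.ls (nat_lit 3) (nat_lit 4))))) (T.ts (nat_lit 0) (T.ts (nat_lit 4) (T.ts (nat_lit 3) (T.ts (nat_lit 2) (T.ts (nat_lit 4) (T.ts (nat_lit 1) (T.ts (nat_lit 3) (T.ts (nat_lit 0) (T.ts (nat_lit 2) (T.l1 (nat_lit 12300) (nat_lit 3)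 (nat_lit 20500)) (T.tp (T.sk (T.ls (nat_lit 3) (nat_lit 4))))) (T.tp (T.sk (T.ls (nat_lit 3) (nat_lit 4))))) (T.tp (T.sk (T.ls (nat_lit 3) (nat_lit 4))))) (T.tp (T.sk (T.ls (nat_lit 3) (nat_lit 4))))) (T.tp (T.sk (T.ls (nat_lit 3) (nat_lit 4))))) (T.tp (T.sk (T.ls (nat_lit 3) (nat_lit 4))))) (T.tp (T.sk (T.ls (nat_lit 3) (nat_lit 4))))) (T.tp (T.sk (T.ls (nat_lit 3) (nat_lit 4))))) (T.tp (T.ts (nat_lit 2) (T.im (nat_lit 7) (nat_lit 2)) T.ie))))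
def d450 : T := (T.ts (nat_lit 1) (T.ts (nat_lit 4) (T.ts (nat_lit 3) (T.ts (nat_lit 2) (T.ts (nat_lit 4) (T.ts (nat_lit 1) (T.ts (nat_lit 3) (T.ts (nat_lit 0) (T.l1 (nat_lit 12300) (nat_lit 4) (nat_lit 20500)) (T.tp (T.sk (T.ls (nat_lit 3) (nat_lit 4))))) (T.tp (T.sk (T.ls (nat_lit 3) (nat_lit 4))))) (T.tp (T.sk (T.ls (nat_lit 3) (nat_lit 4))))) (T.tp (T.sk (T.ls (nat_lit 3) (nat_lit 4))))) (T.tp (T.sk (T.ls (nat_lit 3) (nat_lit 4))))) (T.tp (T.sk (T.ls (nat_lit 3) (nat_lit 4))))) (T.ts (nat_lit 3) (T.ls (nat_lit 3) (nat_lit 4)) d448)) (T.ts (nat_lit 0) (T.ts (nat_lit 4) (T.ts (nat_lit 3) (T.ts (nat_lit 2) (T.ts (nat_lit 4) (T.ts (nat_lit 1) (T.ts (nat_lit 3) (T.ts (nat_lit 0) (T.l1 (nat_lit 12300) (nat_lit 3) (nat_lit 20500)) (T.tp (T.sk (T.ls (nat_lit 3) (nat_lit 4))))) (T.tp (T.sk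 (T.ls (nat_lit 3) (nat_lit 4))))) (T.tp (T.sk (T.ls (nat_lit 3) (nat_lit 4))))) (T.tp (T.sk (T.ls (nat_lit 3) (nat_lit 4))))) (T.tp (T.sk (T.ls (nat_lit 3) (nat_lit 4))))) (T.tp (T.sk (T.ls (nat_lit 3) (nat_lit 4))))) (T.ts (nat_lit 3) (T.ls (nat_lit 3) (nat_lit 4)) d449)) (T.tp (T.ts (nat_lit 2) (T.im (nat_lit 7) (nat_lit 1)) T.ie))))
def d451 : T := (T.ts (nat_lit 4) (T.ls (nat_lit 3) (nat_lit 4)) (T.ts (nat_lit 3) (T.ts (nat_lit 4) (T.ls (nat_lit 3) (nat_lit 4)) (T.ts (nat_lit 2) (T.ts (nat_lit 4) (T.ts (nat_lit 1) (T.ts (nat_lit 3) (T.l1 (nat_lit 12300) (nat_lit 4) (nat_lit 20500)) (T.tp (T.sk (T.ls (nat_lit 3) (nat_lit 4))))) (T.tp (T.sk (T.ls (nat_lit 3) (nat_lit 4))))) (T.tp (T.sk (T.ls (nat_lit 3) (nat_lit 4))))) (T.tp (T.sk (T.ls (nat_lit 3) (nat_lit 4)))))) (T.ts (nat_lit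 2) (T.ls (nat_lit 3) (nat_lit 4)) (T.ts (nat_lit 0) (T.ts (nat_lit 4) (T.ts (nat_lit 3) (T.ts (nat_lit 2) (T.ts (nat_lit 4) (T.ts (nat_lit 1) (T.ts (nat_lit 3) (T.ts (nat_lit 0) (T.ts (nat_lit 1) (T.l1 (nat_lit 12300) (nat_lit 3) (nat_lit 20500)) (T.tp (T.sk (T.ls (nat_lit 3) (nat_lit 4))))) (T.tp (T.sk (T.ls (nat_lit 3) (nat_lit 4))))) (T.tp (T.sk (T.ls (nat_lit 3) (nat_lit 4))))) (T.tp (T.sk (T.ls (nat_lit 3) (nat_lit 4))))) (T.tp (T.sk (T.ls (nat_lit 3) (nat_lit 4))))) (T.tp (T.sk (T.ls (nat_lit 3) (nat_lit 4))))) (T.tp (T.sk (T.ls (nat_lit 3) (nat_lit 4))))) (T.tp (T.sk (T.ls (nat_lit 3) (nat_lit 4))))) (T.tp (T.ts (nat_lit 1) (T.im (nat_lit 7) (nat_lit 2)) T.ie))))))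
def d452 : T := (T.ts (nat_lit 4) (T.ts (nat_lit 3) (T.ts (nat_lit 2) (T.ts (nat_lit 4) (T.ts (nat_lit 1) (T.ts (nat_lit 3) (T.ts (nat_lit 0) (T.l1 (nat_lit 12300) (nat_lit 3) (nat_lit 20500)) (T.tp (T.sk (T.ls (nat_lit 3) (nat_lit 4))))) (T.tp (T.sk (T.ls (nat_lit 3) (nat_lit 4))))) (T.tp (T.sk (T.ls (nat_lit 3) (nat_lit 4))))) (T.tp (T.sk (T.ls (nat_lit 3) (nat_lit 4))))) (T.tp (T.sk (T.ls (nat_lit 3) (nat_lit 4))))) (T.tp (T.sk (T.ls (nat_lit 3) (nat_lit 4))))) (T.ts (nat_lit 3) (T.ls (nat_lit 3) (nat_lit 4)) (T.ts (nat_lit 2) (T.ls (nat_lit 3) (nat_lit 4)) (T.ts (nat_lit 0) (T.ts (nat_lit 4) (T.ts (nat_lit 3) (T.ts (nat_lit 2) (T.ts (nat_lit 4) (T.ts (nat_lit 1) (T.ts (nat_lit 3) (T.ts (nat_lit 0) (T.ts (nat_lit 1) (T.l1 (nat_lit 12300) (nat_lit 3) (nat_lit 20500)) (T.tp (T.sk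 (T.ls (nat_lit 3) (nat_lit 4))))) (T.tp (T.sk (T.ls (nat_lit 3) (nat_lit 4))))) (T.tp (T.sk (T.ls (nat_lit 3) (nat_lit 4))))) (T.tp (T.sk (T.ls (nat_lit 3) (nat_lit 4))))) (T.tp (T.sk (T.ls (nat_lit 3) (nat_lit 4))))) (T.tp (T.sk (T.ls (nat_lit 3) (nat_lit 4))))) (T.tp (T.sk (T.ls (nat_lit 3) (nat_lit 4))))) (T.tp (T.sk (T.ls (nat_lit 3) (nat_lit 4))))) (T.tp (T.ts (nat_lit 1) (T.im (nat_lit 7) (nat_lit 2)) T.ie))))))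
def d453 : T := (T.ts (nat_lit 3) (T.tp (T.ts (nat_lit 4) (T.ls (nat_lit 3) (nat_lit 4)) (T.ts (nat_lit 3) (T.ls (nat_lit 3) (nat_lit 4)) (T.ts (nat_lit 2) (T.ls (nat_lit 3) (nat_lit 4)) (T.ts (nat_lit 1) (T.im (nat_lit 7) (nat_lit 2)) (T.ts (nat_lit 0) (T.im (nat_lit 5) (nat_lit 3)) T.ie)))))) (T.ts (nat_lit 2) (T.ts (nat_lit 4) (T.ls (nat_lit 3) (nat_lit 4)) (T.ts (nat_lit 3) (T.ls (nat_lit 3) (nat_lit 4)) (T.ts (nat_lit 2) (T.ls (nat_lit 3) (nat_lit 4)) (T.ts (nat_lit 0) (T.ts (nat_lit 4) (T.ts (nat_lit 3) (T.ts (nat_lit 2) (T.ts (nat_lit 4) (T.ts (nat_lit 1) (T.ts (nat_lit 3) (T.ts (nat_lit 0) (T.ts (nat_lit 1) (T.l1 (nat_lit 12300) (nat_lit 3) (nat_lit 20500)) (T.tp (T.sk (T.ls (nat_lit 3) (nat_lit 4))))) (T.tp (T.sk (T.ls (nat_lit 3) (nat_lit 4))))) (T.tp (T.sk (T.ls (nat_lit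 3) (nat_lit 4))))) (T.tp (T.sk (T.ls (nat_lit 3) (nat_lit 4))))) (T.tp (T.sk (T.ls (nat_lit 3) (nat_lit 4))))) (T.tp (T.sk (T.ls (nat_lit 3) (nat_lit 4))))) (T.tp (T.sk (T.ls (nat_lit 3) (nat_lit 4))))) (T.tp (T.sk (T.ls (nat_lit 3) (nat_lit 4))))) (T.tp (T.ts (nat_lit 1) (T.im (nat_lit 7) (nat_lit 2)) T.ie)))))) (T.ts (nat_lit 0) d452 (T.tp (T.ts (nat_lit 1) (T.im (nat_lit 7) (nat_lit 1)) T.ie)))))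
def d454 : T := (T.ts (nat_lit 4) (T.ls (nat_lit 3) (nat_lit 4)) (T.ts (nat_lit 3) (T.ts (nat_lit 4) (T.ls (nat_lit 3) (nat_lit 4)) (T.ts (nat_lit 2) (T.ts (nat_lit 4) (T.ts (nat_lit 1) (T.ts (nat_lit 3) (T.l1 (nat_lit 12300) (nat_lit 3) (nat_lit 20500)) (T.tp (T.sk (T.ls (nat_lit 3) (nat_lit 4))))) (T.tp (T.sk (T.ls (nat_lit 3) (nat_lit 4))))) (T.tp (T.sk (T.ls (nat_lit 3) (nat_lit 4))))) (T.tp (T.sk (T.ls (nat_lit 3) (nat_lit 4)))))) (T.ts (nat_lit 2) (T.ls (nat_lit 3) (nat_lit 4)) (T.ts (nat_lit 1) (T.ts (nat_lit 4) (T.ts (nat_lit 3) (T.ts (nat_lit 2) (T.ts (nat_lit 4) (T.ts (nat_lit 1) (T.ts (nat_lit 3) (T.ts (nat_lit 0) (T.ts (nat_lit 0) (T.l1 (nat_lit 12300) (nat_lit 4) (nat_lit 20500)) (T.tp (T.sk (T.ls (nat_lit 3) (nat_lit 4))))) (T.tp (T.sk (T.ls (nat_lit 3) (nat_lit 4)))))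 (T.tp (T.sk (T.ls (nat_lit 3) (nat_lit 4))))) (T.tp (T.sk (T.ls (nat_lit 3) (nat_lit 4))))) (T.tp (T.sk (T.ls (nat_lit 3) (nat_lit 4))))) (T.tp (T.sk (T.ls (nat_lit 3) (nat_lit 4))))) (T.tp (T.sk (T.ls (nat_lit 3) (nat_lit 4))))) (T.tp (T.sk (T.ls (nat_lit 3) (nat_lit 4))))) (T.tp (T.ts (nat_lit 0) (T.im (nat_lit 7) (nat_lit 2)) T.ie))))))
def d455 : T := (T.ts (nat_lit 4) (T.ts (nat_lit 3) (T.ts (nat_lit 2) (T.ts (nat_lit 4) (T.ts (nat_lit 1) (T.ts (nat_lit 3) (T.ts (nat_lit 0) (T.l1 (nat_lit 12300) (nat_lit 4) (nat_lit 20500)) (T.tp (T.sk (T.ls (nat_lit 3) (nat_lit 4))))) (T.tp (T.sk (T.ls (nat_lit 3) (nat_lit 4))))) (T.tp (T.sk (T.ls (nat_lit 3) (nat_lit 4))))) (T.tp (T.sk (T.ls (nat_lit 3) (nat_lit 4))))) (T.tp (T.sk (T.ls (nat_lit 3) (nat_lit 4))))) (T.tp (T.sk (T.ls (nat_lit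 3) (nat_lit 4))))) (T.ts (nat_lit 3) (T.ls (nat_lit 3) (nat_lit 4)) (T.ts (nat_lit 2) (T.ls (nat_lit 3) (nat_lit 4)) (T.ts (nat_lit 1) (T.ts (nat_lit 4) (T.ts (nat_lit 3) (T.ts (nat_lit 2) (T.ts (nat_lit 4) (T.ts (nat_lit 1) (T.ts (nat_lit 3) (T.ts (nat_lit 0) (T.ts (nat_lit 0) (T.l1 (nat_lit 12300) (nat_lit 4) (nat_lit 20500)) (T.tp (T.sk (T.ls (nat_lit 3) (nat_lit 4))))) (T.tp (T.sk (T.ls (nat_lit 3) (nat_lit 4))))) (T.tp (T.sk (T.ls (nat_lit 3) (nat_lit 4))))) (T.tp (T.sk (T.ls (nat_lit 3) (nat_lit 4))))) (T.tp (T.sk (T.ls (nat_lit 3) (nat_lit 4))))) (T.tp (T.sk (T.ls (nat_lit 3) (nat_lit 4))))) (T.tp (T.sk (T.ls (nat_lit 3) (nat_lit 4))))) (T.tp (T.sk (T.ls (nat_lit 3) (nat_lit 4))))) (T.tp (T.ts (nat_lit 0) (T.im (nat_lit 7) (nat_lit 2)) T.ie))))))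
def d456 : T := (T.ts (nat_lit 3) (T.ts (nat_lit 4) (T.ls (nat_lit 3) (nat_lit 4)) (T.ts (nat_lit 3) (T.ls (nat_lit 3) (nat_lit 4)) (T.ts (nat_lit 2) (T.ls (nat_lit 3) (nat_lit 4)) (T.ts (nat_lit 1) (T.ts (nat_lit 4) (T.ts (nat_lit 3) (T.ts (nat_lit 2) (T.ts (nat_lit 4) (T.ts (nat_lit 1) (T.ts (nat_lit 3) (T.ts (nat_lit 0) (T.ts (nat_lit 0) (T.l1 (nat_lit 12300) (nat_lit 4) (nat_lit 20500)) (T.sk (T.lf (nat_lit 16569) (nat_lit 3) (nat_lit 12300) (nat_lit 4) (nat_lit 20500)))) (T.sk (T.lf (nat_lit 16569) (nat_lit 3) (nat_lit 12300) (nat_lit 4) (nat_lit 20500)))) (T.tp (T.sk (T.ls (nat_lit 3) (nat_lit 4))))) (T.tp (T.sk (T.ls (nat_lit 3) (nat_lit 4))))) (T.tp (T.sk (T.ls (nat_lit 3) (nat_lit 4))))) (T.tp (T.sk (T.ls (nat_lit 3) (nat_lit 4))))) (T.tp (T.sk (T.ls (nat_lit 3) (nat_lit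 4))))) (T.tp (T.sk (T.ls (nat_lit 3) (nat_lit 4))))) (T.tp (T.ts (nat_lit 0) (T.im (nat_lit 5) (nat_lit 3)) T.ie)))))) (T.ts (nat_lit 2) (T.ts (nat_lit 4) (T.ls (nat_lit 3) (nat_lit 4)) (T.ts (nat_lit 3) (T.ls (nat_lit 3) (nat_lit 4)) (T.ts (nat_lit 2) (T.ls (nat_lit 3) (nat_lit 4)) (T.ts (nat_lit 1) (T.ts (nat_lit 4) (T.ts (nat_lit 3) (T.ts (nat_lit 2) (T.ts (nat_lit 4) (T.ts (nat_lit 1) (T.ts (nat_lit 3) (T.ts (nat_lit 0) (T.ts (nat_lit 0) (T.l1 (nat_lit 12300) (nat_lit 4) (nat_lit 20500)) (T.tp (T.sk (T.ls (nat_lit 3) (nat_lit 4))))) (T.tp (T.sk (T.ls (nat_lit 3) (nat_lit 4))))) (T.tp (T.sk (T.ls (nat_lit 3) (nat_lit 4))))) (T.tp (T.sk (T.ls (nat_lit 3) (nat_lit 4))))) (T.tp (T.sk (T.ls (nat_lit 3) (nat_lit 4))))) (T.tp (T.sk (T.ls (nat_lit 3) (nat_lit 4))))) (T.tp (T.sk (T.ls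 (nat_lit 3) (nat_lit 4))))) (T.tp (T.sk (T.ls (nat_lit 3) (nat_lit 4))))) (T.tp (T.ts (nat_lit 0) (T.im (nat_lit 7) (nat_lit 2)) T.ie)))))) (T.ts (nat_lit 1) d455 (T.tp (T.ts (nat_lit 0) (T.im (nat_lit 7) (nat_lit 1)) T.ie)))))
def d457 : T := (T.ts (nat_lit 2) (T.ts (nat_lit 4) (T.ts (nat_lit 4) (T.ls (nat_lit 3) (nat_lit 4)) (T.ts (nat_lit 3) (T.ls (nat_lit 3) (nat_lit 4)) d447)) (T.ts (nat_lit 3) (T.ts (nat_lit 4) (T.ls (nat_lit 3) (nat_lit 4)) (T.ts (nat_lit 3) (T.ls (nat_lit 3) (nat_lit 4)) (T.ts (nat_lit 1) (T.ts (nat_lit 4) (T.ts (nat_lit 3) (T.ts (nat_lit 2) (T.ts (nat_lit 4) (T.ts (nat_lit 1) (T.ts (nat_lit 3) (T.ts (nat_lit 0) (T.ts (nat_lit 2) (T.l1 (nat_lit 12300) (nat_lit 4) (nat_lit 20500)) (T.sk (T.lf (nat_lit 16569) (nat_lit 3) (nat_lit 12300) (nat_lit 4) (nat_lit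 20500)))) (T.sk (T.lf (nat_lit 16569) (nat_lit 3) (nat_lit 12300) (nat_lit 4) (nat_lit 20500)))) (T.tp (T.sk (T.ls (nat_lit 3) (nat_lit 4))))) (T.tp (T.sk (T.ls (nat_lit 3) (nat_lit 4))))) (T.tp (T.sk (T.ls (nat_lit 3) (nat_lit 4))))) (T.tp (T.sk (T.ls (nat_lit 3) (nat_lit 4))))) (T.tp (T.sk (T.ls (nat_lit 3) (nat_lit 4))))) (T.tp (T.sk (T.ls (nat_lit 3) (nat_lit 4))))) (T.tp (T.ts (nat_lit 2) (T.im (nat_lit 7) (nat_lit 2)) (T.ts (nat_lit 0) (T.im (nat_lit 5) (nat_lit 3)) T.ie)))))) d450)) (T.ts (nat_lit 1) (T.ts (nat_lit 4) d451 d453) (T.ts (nat_lit 0) (T.ts (nat_lit 4) d454 d456) (T.tp (T.ts (nat_lit 3) (T.im (nat_lit 5) (nat_lit 2)) T.ie)))))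
def d458 : T := (T.ts (nat_lit 2) (T.im (nat_lit 5) (nat_lit 1)) (T.nw (T.ts (nat_lit 4) (T.ts (nat_lit 3) (T.ts (nat_lit 3) (T.ls (nat_lit 3) (nat_lit 4)) (T.ts (nat_lit 2) (T.ts (nat_lit 4) (T.ts (nat_lit 1) (T.l1 (nat_lit 12300) (nat_lit 3) (nat_lit 20500)) (T.sk (T.lf (nat_lit 16569) (nat_lit 3) (nat_lit 20500) (nat_lit 4) (nat_lit 12300)))) (T.sk (T.lf (nat_lit 16569) (nat_lit 3) (nat_lit 20500) (nat_lit 4) (nat_lit 12300)))) (T.tp (T.ts (nat_lit 1) (T.ts (nat_lit 4) (T.ts (nat_lit 3) (T.im (nat_lit 7) (nat_lit 3)) (T.sk (T.ls (nat_lit 3) (nat_lit 4)))) (T.sk (T.ls (nat_lit 3) (nat_lit 4)))) (T.ts (nat_lit 4) (T.im (nat_lit 7) (nat_lit 2)) (T.ts (nat_lit 0) (T.im (nat_lit 5) (nat_lit 3)) T.ie)))))) (T.ts (nat_lit 2) (T.ts (nat_lit 3) (T.ls (nat_lit 3) (nat_lit 4)) (T.ts (nat_lit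 2) (T.ls (nat_lit 3) (nat_lit 4)) d444)) (T.ts (nat_lit 1) (T.ts (nat_lit 2) (T.ls (nat_lit 3) (nat_lit 4)) d445) (T.ts (nat_lit 0) (T.ts (nat_lit 3) (T.ls (nat_lit 3) (nat_lit 4)) (T.ts (nat_lit 2) (T.ls (nat_lit 3) (nat_lit 4)) d446)) (T.tp (T.ts (nat_lit 4) (T.im (nat_lit 7) (nat_lit 1)) T.ie)))))) d457)))
def d459 : T := (T.ts (nat_lit 0) (T.ts (nat_lit 3) (T.ts (nat_lit 2) (T.ts (nat_lit 1) (T.ts (nat_lit 3) (T.ts (nat_lit 0) (T.ts (nat_lit 1) (T.ts (nat_lit 3) (T.ts (nat_lit 3) (T.l1 (nat_lit 12300) (nat_lit 4) (nat_lit 20500)) (T.tp (T.sk (T.ls (nat_lit 3) (nat_lit 4))))) (T.tp (T.sk (T.ls (nat_lit 3) (nat_lit 4))))) (T.tp (T.sk (T.ls (nat_lit 3) (nat_lit 4))))) (T.tp (T.sk (T.ls (nat_lit 3) (nat_lit 4))))) (T.tp (T.sk (T.ls (nat_lit 3) (nat_lit 4))))) (T.tp (T.sk (T.ls (nat_lit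 3) (nat_lit 4))))) (T.tp (T.sk (T.ls (nat_lit 3) (nat_lit 4))))) (T.tp (T.sk (T.ls (nat_lit 3) (nat_lit 4))))) (T.ts (nat_lit 3) (T.im (nat_lit 5) (nat_lit 3)) (T.nw (T.ts (nat_lit 4) (T.ts (nat_lit 3) (T.ts (nat_lit 2) (T.ts (nat_lit 4) (T.ts (nat_lit 1) (T.ts (nat_lit 2) (T.ts (nat_lit 4) (T.ts (nat_lit 4) (T.l1 (nat_lit 12300) (nat_lit 3) (nat_lit 20500)) (T.tp (T.sk (T.ls (nat_lit 3) (nat_lit 4))))) (T.tp (T.sk (T.ls (nat_lit 3) (nat_lit 4))))) (T.tp (T.sk (T.ls (nat_lit 3) (nat_lit 4))))) (T.tp (T.sk (T.ls (nat_lit 3) (nat_lit 4))))) (T.tp (T.sk (T.ls (nat_lit 3) (nat_lit 4))))) (T.tp (T.sk (T.ls (nat_lit 3) (nat_lit 4))))) (T.tp (T.sk (T.ls (nat_lit 3) (nat_lit 4))))) (T.tp (T.sk (T.ls (nat_lit 3) (nat_lit 4))))))))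
def d460 : T := (T.ts (nat_lit 0) (T.ts (nat_lit 3) (T.ts (nat_lit 2) (T.ts (nat_lit 1) (T.ts (nat_lit 3) (T.ts (nat_lit 0) (T.ts (nat_lit 1) (T.ts (nat_lit 3) (T.ts (nat_lit 3) (T.l1 (nat_lit 12300) (nat_lit 4) (nat_lit 20500)) (T.tp (T.sk (T.ls (nat_lit 3) (nat_lit 4))))) (T.tp (T.sk (T.ls (nat_lit 3) (nat_lit 4))))) (T.tp (T.sk (T.ls (nat_lit 3) (nat_lit 4))))) (T.tp (T.sk (T.ls (nat_lit 3) (nat_lit 4))))) (T.tp (T.sk (T.ls (nat_lit 3) (nat_lit 4))))) (T.tp (T.sk (T.ls (nat_lit 3) (nat_lit 4))))) (T.tp (T.sk (T.ls (nat_lit 3) (nat_lit 4))))) (T.tp (T.sk (T.ls (nat_lit 3) (nat_lit 4))))) (T.ts (nat_lit 3) (T.im (nat_lit 7) (nat_lit 2)) (T.ts (nat_lit 1) (T.im (nat_lit 3) (nat_lit 4)) (T.nw (T.ts (nat_lit 4) (T.ts (nat_lit 3) (T.ts (nat_lit 2) (T.ts (nat_lit 4) (T.ts (nat_lit 1)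 (T.ts (nat_lit 2) (T.ts (nat_lit 4) (T.ts (nat_lit 4) (T.l1 (nat_lit 12300) (nat_lit 3) (nat_lit 20500)) (T.tp (T.sk (T.ls (nat_lit 3) (nat_lit 4))))) (T.tp (T.sk (T.ls (nat_lit 3) (nat_lit 4))))) (T.tp (T.sk (T.ls (nat_lit 3) (nat_lit 4))))) (T.tp (T.sk (T.ls (nat_lit 3) (nat_lit 4))))) (T.tp (T.sk (T.ls (nat_lit 3) (nat_lit 4))))) (T.tp (T.sk (T.ls (nat_lit 3) (nat_lit 4))))) (T.tp (T.sk (T.ls (nat_lit 3) (nat_lit 4))))) (T.tp (T.sk (T.ls (nat_lit 3) (nat_lit 4)))))))))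
def d461 : T := (T.ts (nat_lit 1) (T.ts (nat_lit 4) (T.ts (nat_lit 3) (T.ts (nat_lit 2) (T.ts (nat_lit 4) (T.ts (nat_lit 1) (T.ts (nat_lit 2) (T.ts (nat_lit 4) (T.ts (nat_lit 4) (T.l1 (nat_lit 12300) (nat_lit 4) (nat_lit 20500)) (T.tp (T.sk (T.ls (nat_lit 3) (nat_lit 4))))) (T.tp (T.sk (T.ls (nat_lit 3) (nat_lit 4))))) (T.tp (T.sk (T.ls (nat_lit 3) (nat_lit 4))))) (T.tp (T.sk (T.ls (nat_lit 3) (nat_lit 4))))) (T.tp (T.sk (T.ls (nat_lit 3) (nat_lit 4))))) (T.tp (T.sk (T.ls (nat_lit 3) (nat_lit 4))))) (T.tp (T.sk (T.ls (nat_lit 3) (nat_lit 4))))) (T.tp (T.sk (T.ls (nat_lit 3) (nat_lit 4))))) (T.ts (nat_lit 0) (T.ts (nat_lit 4) (T.ts (nat_lit 3) (T.ts (nat_lit 2) (T.ts (nat_lit 4) (T.ts (nat_lit 1) (T.ts (nat_lit 2) (T.ts (nat_lit 4) (T.ts (nat_lit 4) (T.l1 (nat_lit 12300) (nat_lit 3)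 (nat_lit 20500)) (T.tp (T.sk (T.ls (nat_lit 3) (nat_lit 4))))) (T.tp (T.sk (T.ls (nat_lit 3) (nat_lit 4))))) (T.tp (T.sk (T.ls (nat_lit 3) (nat_lit 4))))) (T.tp (T.sk (T.ls (nat_lit 3) (nat_lit 4))))) (T.tp (T.sk (T.ls (nat_lit 3) (nat_lit 4))))) (T.tp (T.sk (T.ls (nat_lit 3) (nat_lit 4))))) (T.tp (T.sk (T.ls (nat_lit 3) (nat_lit 4))))) (T.tp (T.sk (T.ls (nat_lit 3) (nat_lit 4))))) (T.tp (T.ts (nat_lit 4) (T.im (nat_lit 7) (nat_lit 2)) T.ie))))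
def d462 : T := (T.ts (nat_lit 0) (T.ts (nat_lit 3) (T.ts (nat_lit 2) (T.ts (nat_lit 1) (T.ts (nat_lit 3) (T.ts (nat_lit 0) (T.ts (nat_lit 1) (T.ts (nat_lit 3) (T.ts (nat_lit 2) (T.l1 (nat_lit 12300) (nat_lit 4) (nat_lit 20500)) (T.tp (T.sk (T.ls (nat_lit 3) (nat_lit 4))))) (T.tp (T.sk (T.ls (nat_lit 3) (nat_lit 4))))) (T.tp (T.sk (T.ls (nat_lit 3) (nat_lit 4))))) (T.tp (T.sk (T.ls (nat_lit 3) (nat_lit 4))))) (T.tp (T.sk (T.ls (nat_lit 3) (nat_lit 4))))) (T.tp (T.sk (T.ls (nat_lit 3) (nat_lit 4))))) (T.tp (T.sk (T.ls (nat_lit 3) (nat_lit 4))))) (T.tp (T.sk (T.ls (nat_lit 3) (nat_lit 4))))) (T.ts (nat_lit 2) (T.im (nat_lit 7) (nat_lit 2)) (T.nw (T.ts (nat_lit 4) (T.ts (nat_lit 3) (T.ts (nat_lit 2) (T.ts (nat_lit 4) (T.ts (nat_lit 1) (T.ts (nat_lit 2) (T.ts (nat_lit 4) (T.ts (nat_lit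 3) (T.l1 (nat_lit 12300) (nat_lit 3) (nat_lit 20500)) (T.tp (T.sk (T.ls (nat_lit 3) (nat_lit 4))))) (T.tp (T.sk (T.ls (nat_lit 3) (nat_lit 4))))) (T.tp (T.sk (T.ls (nat_lit 3) (nat_lit 4))))) (T.tp (T.sk (T.ls (nat_lit 3) (nat_lit 4))))) (T.tp (T.sk (T.ls (nat_lit 3) (nat_lit 4))))) (T.tp (T.sk (T.ls (nat_lit 3) (nat_lit 4))))) (T.tp (T.sk (T.ls (nat_lit 3) (nat_lit 4))))) (T.tp (T.sk (T.ls (nat_lit 3) (nat_lit 4))))))))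
def d463 : T := (T.ts (nat_lit 0) (T.ts (nat_lit 3) (T.ts (nat_lit 2) (T.ts (nat_lit 1) (T.ts (nat_lit 3) (T.ts (nat_lit 0) (T.ts (nat_lit 1) (T.ts (nat_lit 3) (T.ts (nat_lit 2) (T.l1 (nat_lit 12300) (nat_lit 4) (nat_lit 20500)) (T.tp (T.sk (T.ls (nat_lit 3) (nat_lit 4))))) (T.tp (T.sk (T.ls (nat_lit 3) (nat_lit 4))))) (T.tp (T.sk (T.ls (nat_lit 3) (nat_lit 4))))) (T.tp (T.sk (T.ls (nat_lit 3) (nat_lit 4))))) (T.tp (T.sk (T.ls (nat_lit 3) (nat_lit 4))))) (T.tp (T.sk (T.ls (nat_lit 3) (nat_lit 4))))) (T.tp (T.sk (T.ls (nat_lit 3) (nat_lit 4))))) (T.tp (T.sk (T.ls (nat_lit 3) (nat_lit 4))))) (T.ts (nat_lit 3) (T.im (nat_lit 5) (nat_lit 3)) (T.ts (nat_lit 2) (T.im (nat_lit 7) (nat_lit 2)) (T.nw (T.ts (nat_lit 4) (T.ts (nat_lit 3) (T.ts (nat_lit 2) (T.ts (nat_lit 4) (T.ts (nat_lit 1)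 (T.ts (nat_lit 2) (T.ts (nat_lit 4) (T.ts (nat_lit 3) (T.l1 (nat_lit 12300) (nat_lit 3) (nat_lit 20500)) (T.tp (T.sk (T.ls (nat_lit 3) (nat_lit 4))))) (T.tp (T.sk (T.ls (nat_lit 3) (nat_lit 4))))) (T.tp (T.sk (T.ls (nat_lit 3) (nat_lit 4))))) (T.tp (T.sk (T.ls (nat_lit 3) (nat_lit 4))))) (T.tp (T.sk (T.ls (nat_lit 3) (nat_lit 4))))) (T.tp (T.sk (T.ls (nat_lit 3) (nat_lit 4))))) (T.tp (T.sk (T.ls (nat_lit 3) (nat_lit 4))))) (T.tp (T.sk (T.ls (nat_lit 3) (nat_lit 4)))))))))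
def d464 : T := (T.ts (nat_lit 0) (T.ts (nat_lit 3) (T.ts (nat_lit 2) (T.ts (nat_lit 1) (T.ts (nat_lit 3) (T.ts (nat_lit 0) (T.ts (nat_lit 1) (T.ts (nat_lit 3) (T.ts (nat_lit 2) (T.l1 (nat_lit 12300) (nat_lit 4) (nat_lit 20500)) (T.tp (T.sk (T.ls (nat_lit 3) (nat_lit 4))))) (T.tp (T.sk (T.ls (nat_lit 3) (nat_lit 4))))) (T.tp (T.sk (T.ls (nat_lit 3) (nat_lit 4))))) (T.tp (T.sk (T.ls (nat_lit 3) (nat_lit 4))))) (T.tp (T.sk (T.ls (nat_lit 3) (nat_lit 4))))) (T.tp (T.sk (T.ls (nat_lit 3) (nat_lit 4))))) (T.tp (T.sk (T.ls (nat_lit 3) (nat_lit 4))))) (T.tp (T.sk (T.ls (nat_lit 3) (nat_lit 4))))) (T.ts (nat_lit 2) (T.im (nat_lit 7) (nat_lit 2)) (T.nw (T.ts (nat_lit 4) (T.ts (nat_lit 3) (T.ts (nat_lit 2) (T.ts (nat_lit 4) (T.ts (nat_lit 1) (T.ts (nat_lit 2) (T.ts (nat_lit 4) (T.ts (nat_lit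 3) (T.l1 (nat_lit 12300) (nat_lit 3) (nat_lit 20500)) (T.tp (T.sk (T.ls (nat_lit 3) (nat_lit 4))))) (T.tp (T.sk (T.ls (nat_lit 3) (nat_lit 4))))) (T.tp (T.sk (T.ls (nat_lit 3) (nat_lit 4))))) (T.tp (T.sk (T.ls (nat_lit 3) (nat_lit 4))))) (T.tp (T.sk (T.ls (nat_lit 3) (nat_lit 4))))) (T.tp (T.sk (T.ls (nat_lit 3) (nat_lit 4))))) (T.tp (T.sk (T.ls (nat_lit 3) (nat_lit 4))))) (T.tp (T.sk (T.ls (nat_lit 3) (nat_lit 4))))))))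
def d465 : T := (T.ts (nat_lit 1) (T.ts (nat_lit 4) (T.ts (nat_lit 3) (T.ts (nat_lit 2) (T.ts (nat_lit 4) (T.ts (nat_lit 1) (T.ts (nat_lit 2) (T.ts (nat_lit 4) (T.ts (nat_lit 3) (T.l1 (nat_lit 12300) (nat_lit 4) (nat_lit 20500)) (T.tp (T.sk (T.ls (nat_lit 3) (nat_lit 4))))) (T.tp (T.sk (T.ls (nat_lit 3) (nat_lit 4))))) (T.tp (T.sk (T.ls (nat_lit 3) (nat_lit 4))))) (T.tp (T.sk (T.ls (nat_lit 3) (nat_lit 4))))) (T.tp (T.sk (T.ls (nat_lit 3) (nat_lit 4))))) (T.tp (T.sk (T.ls (nat_lit 3) (nat_lit 4))))) (T.tp (T.sk (T.ls (nat_lit 3) (nat_lit 4))))) (T.tp (T.sk (T.ls (nat_lit 3) (nat_lit 4))))) (T.ts (nat_lit 0) (T.ts (nat_lit 4) (T.ts (nat_lit 3) (T.ts (nat_lit 2) (T.ts (nat_lit 4) (T.ts (nat_lit 1) (T.ts (nat_lit 2) (T.ts (nat_lit 4) (T.ts (nat_lit 3) (T.l1 (nat_lit 12300) (nat_lit 3)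 (nat_lit 20500)) (T.tp (T.sk (T.ls (nat_lit 3) (nat_lit 4))))) (T.tp (T.sk (T.ls (nat_lit 3) (nat_lit 4))))) (T.tp (T.sk (T.ls (nat_lit 3) (nat_lit 4))))) (T.tp (T.sk (T.ls (nat_lit 3) (nat_lit 4))))) (T.tp (T.sk (T.ls (nat_lit 3) (nat_lit 4))))) (T.tp (T.sk (T.ls (nat_lit 3) (nat_lit 4))))) (T.tp (T.sk (T.ls (nat_lit 3) (nat_lit 4))))) (T.tp (T.sk (T.ls (nat_lit 3) (nat_lit 4))))) (T.tp (T.ts (nat_lit 3) (T.im (nat_lit 7) (nat_lit 2)) T.ie))))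
def d466 : T := (T.ts (nat_lit 3) (T.ts (nat_lit 3) (T.ls (nat_lit 3) (nat_lit 4)) (T.ts (nat_lit 1) (T.ls (nat_lit 3) (nat_lit 4)) d462)) (T.ts (nat_lit 1) (T.ts (nat_lit 1) (T.ls (nat_lit 3) (nat_lit 4)) d463) (T.ts (nat_lit 0) (T.ts (nat_lit 3) (T.tp (T.ts (nat_lit 2) (T.ts (nat_lit 1) (T.ts (nat_lit 3) (T.ts (nat_lit 0) (T.ts (nat_lit 1) (T.ts (nat_lit 3) (T.im (nat_lit 11) (nat_lit 3)) (T.sk (T.ls (nat_lit 3) (nat_lit 4)))) (T.sk (T.ls (nat_lit 3) (nat_lit 4)))) (T.sk (T.ls (nat_lit 3) (nat_lit 4)))) (T.sk (T.ls (nat_lit 3) (nat_lit 4)))) (T.sk (T.ls (nat_lit 3) (nat_lit 4)))) (T.sk (T.ls (nat_lit 3) (nat_lit 4))))) (T.ts (nat_lit 1) (T.ls (nat_lit 3) (nat_lit 4)) d464)) (T.ts (nat_lit 2) (T.im (nat_lit 7) (nat_lit 1)) (T.nw (T.ts (nat_lit 4) (T.tp (T.ts (nat_lit 3) (T.ts (nat_lit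 2) (T.ts (nat_lit 4) (T.ts (nat_lit 1) (T.ts (nat_lit 2) (T.ts (nat_lit 4) (T.im (nat_lit 11) (nat_lit 3)) (T.sk (T.ls (nat_lit 3) (nat_lit 4)))) (T.sk (T.ls (nat_lit 3) (nat_lit 4)))) (T.sk (T.ls (nat_lit 3) (nat_lit 4)))) (T.sk (T.ls (nat_lit 3) (nat_lit 4)))) (T.sk (T.ls (nat_lit 3) (nat_lit 4)))) (T.sk (T.ls (nat_lit 3) (nat_lit 4))))) (T.ts (nat_lit 2) (T.ls (nat_lit 3) (nat_lit 4)) d465)))))))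
def d467 : T := (T.ts (nat_lit 4) (T.ls (nat_lit 3) (nat_lit 4)) (T.ts (nat_lit 3) (T.ts (nat_lit 4) (T.ls (nat_lit 3) (nat_lit 4)) (T.ts (nat_lit 2) (T.ts (nat_lit 4) (T.ts (nat_lit 1) (T.ts (nat_lit 2) (T.l1 (nat_lit 12300) (nat_lit 3) (nat_lit 20500)) (T.tp (T.sk (T.ls (nat_lit 3) (nat_lit 4))))) (T.tp (T.sk (T.ls (nat_lit 3) (nat_lit 4))))) (T.tp (T.sk (T.ls (nat_lit 3) (nat_lit 4))))) (T.tp (T.sk (T.ls (nat_lit 3) (nat_lit 4)))))) (T.ts (nat_lit 2) (T.ls (nat_lit 3) (nat_lit 4)) (T.ts (nat_lit 1) (T.ts (nat_lit 4) (T.ts (nat_lit 3) (T.ts (nat_lit 2) (T.ts (nat_lit 4) (T.ts (nat_lit 1) (T.ts (nat_lit 2) (T.ts (nat_lit 4) (T.ts (nat_lit 0) (T.l1 (nat_lit 12300) (nat_lit 4) (nat_lit 20500)) (T.tp (T.sk (T.ls (nat_lit 3) (nat_lit 4))))) (T.tp (T.sk (T.ls (nat_lit 3) (nat_lit 4)))))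 (T.tp (T.sk (T.ls (nat_lit 3) (nat_lit 4))))) (T.tp (T.sk (T.ls (nat_lit 3) (nat_lit 4))))) (T.tp (T.sk (T.ls (nat_lit 3) (nat_lit 4))))) (T.tp (T.sk (T.ls (nat_lit 3) (nat_lit 4))))) (T.tp (T.sk (T.ls (nat_lit 3) (nat_lit 4))))) (T.tp (T.sk (T.ls (nat_lit 3) (nat_lit 4))))) (T.tp (T.ts (nat_lit 0) (T.im (nat_lit 7) (nat_lit 2)) T.ie))))))
def d468 : T := (T.ts (nat_lit 4) (T.tp (T.ts (nat_lit 3) (T.ts (nat_lit 2) (T.ts (nat_lit 4) (T.ts (nat_lit 1) (T.ts (nat_lit 2) (T.ts (nat_lit 4) (T.im (nat_lit 11) (nat_lit 3)) (T.sk (T.ls (nat_lit 3) (nat_lit 4)))) (T.sk (T.ls (nat_lit 3) (nat_lit 4)))) (T.sk (T.ls (nat_lit 3) (nat_lit 4)))) (T.sk (T.ls (nat_lit 3) (nat_lit 4)))) (T.sk (T.ls (nat_lit 3) (nat_lit 4)))) (T.sk (T.ls (nat_lit 3) (nat_lit 4))))) (T.ts (nat_lit 3) (T.ls (nat_lit 3)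 (nat_lit 4)) (T.ts (nat_lit 2) (T.ls (nat_lit 3) (nat_lit 4)) (T.ts (nat_lit 1) (T.ts (nat_lit 4) (T.ts (nat_lit 3) (T.ts (nat_lit 2) (T.ts (nat_lit 4) (T.ts (nat_lit 1) (T.ts (nat_lit 2) (T.ts (nat_lit 4) (T.ts (nat_lit 0) (T.l1 (nat_lit 12300) (nat_lit 4) (nat_lit 20500)) (T.tp (T.sk (T.ls (nat_lit 3) (nat_lit 4))))) (T.tp (T.sk (T.ls (nat_lit 3) (nat_lit 4))))) (T.tp (T.sk (T.ls (nat_lit 3) (nat_lit 4))))) (T.tp (T.sk (T.ls (nat_lit 3) (nat_lit 4))))) (T.tp (T.sk (T.ls (nat_lit 3) (nat_lit 4))))) (T.tp (T.sk (T.ls (nat_lit 3) (nat_lit 4))))) (T.tp (T.sk (T.ls (nat_lit 3) (nat_lit 4))))) (T.tp (T.sk (T.ls (nat_lit 3) (nat_lit 4))))) (T.tp (T.ts (nat_lit 0) (T.im (nat_lit 7) (nat_lit 2)) T.ie))))))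
def d469 : T := (T.ts (nat_lit 3) (T.ts (nat_lit 4) (T.ls (nat_lit 3) (nat_lit 4)) (T.ts (nat_lit 3) (T.ls (nat_lit 3) (nat_lit 4)) (T.ts (nat_lit 2) (T.ls (nat_lit 3) (nat_lit 4)) (T.ts (nat_lit 1) (T.ts (nat_lit 4) (T.ts (nat_lit 3) (T.ts (nat_lit 2) (T.ts (nat_lit 4) (T.ts (nat_lit 1) (T.ts (nat_lit 2) (T.ts (nat_lit 4) (T.ts (nat_lit 0) (T.l1 (nat_lit 12300) (nat_lit 4) (nat_lit 20500)) (T.sk (T.lf (nat_lit 16076) (nat_lit 3) (nat_lit 11478) (nat_lit 4) (nat_lit 20500)))) (T.sk (T.lf (nat_lit 16076) (nat_lit 3) (nat_lit 11478) (nat_lit 4) (nat_lit 20500)))) (T.tp (T.sk (T.ls (nat_lit 3) (nat_lit 4))))) (T.tp (T.sk (T.ls (nat_lit 3) (nat_lit 4))))) (T.tp (T.sk (T.ls (nat_lit 3) (nat_lit 4))))) (T.tp (T.sk (T.ls (nat_lit 3) (nat_lit 4))))) (T.tp (T.sk (T.ls (nat_lit 3) (nat_lit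 4))))) (T.tp (T.sk (T.ls (nat_lit 3) (nat_lit 4))))) (T.tp (T.ts (nat_lit 0) (T.im (nat_lit 7) (nat_lit 2)) T.ie)))))) (T.ts (nat_lit 2) (T.ts (nat_lit 3) (T.ls (nat_lit 3) (nat_lit 4)) (T.ts (nat_lit 2) (T.ls (nat_lit 3) (nat_lit 4)) (T.ts (nat_lit 1) (T.ts (nat_lit 4) (T.ts (nat_lit 3) (T.ts (nat_lit 2) (T.ts (nat_lit 4) (T.ts (nat_lit 1) (T.ts (nat_lit 2) (T.ts (nat_lit 4) (T.ts (nat_lit 0) (T.l1 (nat_lit 12300) (nat_lit 4) (nat_lit 20500)) (T.tp (T.sk (T.ls (nat_lit 3) (nat_lit 4))))) (T.tp (T.sk (T.ls (nat_lit 3) (nat_lit 4))))) (T.tp (T.sk (T.ls (nat_lit 3) (nat_lit 4))))) (T.tp (T.sk (T.ls (nat_lit 3) (nat_lit 4))))) (T.tp (T.sk (T.ls (nat_lit 3) (nat_lit 4))))) (T.tp (T.sk (T.ls (nat_lit 3) (nat_lit 4))))) (T.tp (T.sk (T.ls (nat_lit 3) (nat_lit 4))))) (T.tp (T.sk (T.ls (nat_lit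 3) (nat_lit 4))))) (T.tp (T.ts (nat_lit 4) (T.im (nat_lit 5) (nat_lit 3)) (T.ts (nat_lit 0) (T.im (nat_lit 7) (nat_lit 2)) T.ie)))))) (T.ts (nat_lit 1) d468 (T.tp (T.ts (nat_lit 0) (T.im (nat_lit 7) (nat_lit 1)) T.ie)))))
def d470 : T := (T.ts (nat_lit 3) (T.ts (nat_lit 2) (T.tp (T.ts (nat_lit 2) (T.ls (nat_lit 3) (nat_lit 4)) (T.ts (nat_lit 1) (T.ls (nat_lit 3) (nat_lit 4)) (T.ts (nat_lit 0) (T.ts (nat_lit 3) (T.ts (nat_lit 2) (T.im (nat_lit 7) (nat_lit 3)) (T.sk (T.ls (nat_lit 3) (nat_lit 4)))) (T.sk (T.ls (nat_lit 3) (nat_lit 4)))) (T.ts (nat_lit 3) (T.im (nat_lit 7) (nat_lit 2)) (T.nw (T.ts (nat_lit 4) (T.ts (nat_lit 3) (T.im (nat_lit 7) (nat_lit 3)) (T.sk (T.ls (nat_lit 3) (nat_lit 4)))) (T.sk (T.ls (nat_lit 3) (nat_lit 4)))))))))) (T.ts (nat_lit 1) (T.ts (nat_lit 2) (T.ls (nat_lit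 3) (nat_lit 4)) (T.ts (nat_lit 1) (T.ls (nat_lit 3) (nat_lit 4)) d459)) (T.ts (nat_lit 0) (T.ts (nat_lit 2) (T.ls (nat_lit 3) (nat_lit 4)) d460) (T.ts (nat_lit 3) (T.im (nat_lit 7) (nat_lit 1)) (T.nw (T.ts (nat_lit 3) (T.ls (nat_lit 3) (nat_lit 4)) (T.ts (nat_lit 2) (T.ls (nat_lit 3) (nat_lit 4)) d461))))))) (T.ts (nat_lit 2) d466 (T.ts (nat_lit 1) (T.im (nat_lit 5) (nat_lit 2)) (T.ts (nat_lit 0) (T.im (nat_lit 3) (nat_lit 3)) (T.nw (T.ts (nat_lit 4) d467 d469))))))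
def d471 : T := (T.ts (nat_lit 0) (T.ts (nat_lit 3) (T.ts (nat_lit 2) (T.ts (nat_lit 1) (T.ts (nat_lit 3) (T.ts (nat_lit 0) (T.ts (nat_lit 1) (T.ts (nat_lit 2) (T.ts (nat_lit 3) (T.l1 (nat_lit 12300) (nat_lit 4) (nat_lit 20500)) (T.tp (T.sk (T.ls (nat_lit 3) (nat_lit 4))))) (T.tp (T.sk (T.ls (nat_lit 3) (nat_lit 4))))) (T.tp (T.sk (T.ls (nat_lit 3) (nat_lit 4))))) (T.tp (T.sk (T.ls (nat_lit 3) (nat_lit 4))))) (T.tp (T.sk (T.ls (nat_lit 3) (nat_lit 4))))) (T.tp (T.sk (T.ls (nat_lit 3) (nat_lit 4))))) (T.tp (T.sk (T.ls (nat_lit 3) (nat_lit 4))))) (T.tp (T.sk (T.ls (nat_lit 3) (nat_lit 4))))) (T.ts (nat_lit 3) (T.im (nat_lit 7) (nat_lit 2)) (T.ts (nat_lit 2) (T.im (nat_lit 5) (nat_lit 3)) (T.nw (T.ts (nat_lit 4) (T.ts (nat_lit 3) (T.ts (nat_lit 2) (T.ts (nat_lit 4) (T.ts (nat_lit 1)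 (T.ts (nat_lit 2) (T.ts (nat_lit 3) (T.ts (nat_lit 4) (T.l1 (nat_lit 12300) (nat_lit 3) (nat_lit 20500)) (T.tp (T.sk (T.ls (nat_lit 3) (nat_lit 4))))) (T.tp (T.sk (T.ls (nat_lit 3) (nat_lit 4))))) (T.tp (T.sk (T.ls (nat_lit 3) (nat_lit 4))))) (T.tp (T.sk (T.ls (nat_lit 3) (nat_lit 4))))) (T.tp (T.sk (T.ls (nat_lit 3) (nat_lit 4))))) (T.tp (T.sk (T.ls (nat_lit 3) (nat_lit 4))))) (T.tp (T.sk (T.ls (nat_lit 3) (nat_lit 4))))) (T.tp (T.sk (T.ls (nat_lit 3) (nat_lit 4)))))))))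
def d472 : T := (T.ts (nat_lit 0) (T.ts (nat_lit 3) (T.ts (nat_lit 2) (T.ts (nat_lit 1) (T.ts (nat_lit 3) (T.ts (nat_lit 0) (T.ts (nat_lit 1) (T.ts (nat_lit 2) (T.ts (nat_lit 3) (T.l1 (nat_lit 12300) (nat_lit 4) (nat_lit 20500)) (T.tp (T.sk (T.ls (nat_lit 3) (nat_lit 4))))) (T.tp (T.sk (T.ls (nat_lit 3) (nat_lit 4))))) (T.tp (T.sk (T.ls (nat_lit 3) (nat_lit 4))))) (T.tp (T.sk (T.ls (nat_lit 3) (nat_lit 4))))) (T.tp (T.sk (T.ls (nat_lit 3) (nat_lit 4))))) (T.tp (T.sk (T.ls (nat_lit 3) (nat_lit 4))))) (T.tp (T.sk (T.ls (nat_lit 3) (nat_lit 4))))) (T.tp (T.sk (T.ls (nat_lit 3) (nat_lit 4))))) (T.ts (nat_lit 3) (T.im (nat_lit 7) (nat_lit 2)) (T.ts (nat_lit 1) (T.im (nat_lit 3) (nat_lit 4)) (T.nw (T.ts (nat_lit 4) (T.ts (nat_lit 3) (T.ts (nat_lit 2) (T.ts (nat_lit 4) (T.ts (nat_lit 1)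 (T.ts (nat_lit 2) (T.ts (nat_lit 3) (T.ts (nat_lit 4) (T.l1 (nat_lit 12300) (nat_lit 3) (nat_lit 20500)) (T.tp (T.sk (T.ls (nat_lit 3) (nat_lit 4))))) (T.tp (T.sk (T.ls (nat_lit 3) (nat_lit 4))))) (T.tp (T.sk (T.ls (nat_lit 3) (nat_lit 4))))) (T.tp (T.sk (T.ls (nat_lit 3) (nat_lit 4))))) (T.tp (T.sk (T.ls (nat_lit 3) (nat_lit 4))))) (T.tp (T.sk (T.ls (nat_lit 3) (nat_lit 4))))) (T.tp (T.sk (T.ls (nat_lit 3) (nat_lit 4))))) (T.tp (T.sk (T.ls (nat_lit 3) (nat_lit 4)))))))))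
def d473 : T := (T.ts (nat_lit 1) (T.ts (nat_lit 4) (T.ts (nat_lit 3) (T.ts (nat_lit 2) (T.ts (nat_lit 4) (T.ts (nat_lit 1) (T.ts (nat_lit 2) (T.ts (nat_lit 3) (T.ts (nat_lit 4) (T.l1 (nat_lit 12300) (nat_lit 4) (nat_lit 20500)) (T.tp (T.sk (T.ls (nat_lit 3) (nat_lit 4))))) (T.tp (T.sk (T.ls (nat_lit 3) (nat_lit 4))))) (T.tp (T.sk (T.ls (nat_lit 3) (nat_lit 4))))) (T.tp (T.sk (T.ls (nat_lit 3) (nat_lit 4))))) (T.tp (T.sk (T.ls (nat_lit 3) (nat_lit 4))))) (T.tp (T.sk (T.ls (nat_lit 3) (nat_lit 4))))) (T.tp (T.sk (T.ls (nat_lit 3) (nat_lit 4))))) (T.tp (T.sk (T.ls (nat_lit 3) (nat_lit 4))))) (T.ts (nat_lit 0) (T.ts (nat_lit 4) (T.ts (nat_lit 3) (T.ts (nat_lit 2) (T.ts (nat_lit 4) (T.ts (nat_lit 1) (T.ts (nat_lit 2) (T.ts (nat_lit 3) (T.ts (nat_lit 4) (T.l1 (nat_lit 12300) (nat_lit 3)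 (nat_lit 20500)) (T.tp (T.sk (T.ls (nat_lit 3) (nat_lit 4))))) (T.tp (T.sk (T.ls (nat_lit 3) (nat_lit 4))))) (T.tp (T.sk (T.ls (nat_lit 3) (nat_lit 4))))) (T.tp (T.sk (T.ls (nat_lit 3) (nat_lit 4))))) (T.tp (T.sk (T.ls (nat_lit 3) (nat_lit 4))))) (T.tp (T.sk (T.ls (nat_lit 3) (nat_lit 4))))) (T.tp (T.sk (T.ls (nat_lit 3) (nat_lit 4))))) (T.tp (T.sk (T.ls (nat_lit 3) (nat_lit 4))))) (T.tp (T.ts (nat_lit 4) (T.im (nat_lit 7) (nat_lit 2)) T.ie))))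
def d474 : T := (T.ts (nat_lit 0) (T.ts (nat_lit 3) (T.ts (nat_lit 2) (T.ts (nat_lit 1) (T.ts (nat_lit 3) (T.ts (nat_lit 0) (T.ts (nat_lit 1) (T.ts (nat_lit 2) (T.ts (nat_lit 2) (T.l1 (nat_lit 12300) (nat_lit 4) (nat_lit 20500)) (T.tp (T.sk (T.ls (nat_lit 3) (nat_lit 4))))) (T.tp (T.sk (T.ls (nat_lit 3) (nat_lit 4))))) (T.tp (T.sk (T.ls (nat_lit 3) (nat_lit 4))))) (T.tp (T.sk (T.ls (nat_lit 3) (nat_lit 4))))) (T.tp (T.sk (T.ls (nat_lit 3) (nat_lit 4))))) (T.tp (T.sk (T.ls (nat_lit 3) (nat_lit 4))))) (T.tp (T.sk (T.ls (nat_lit 3) (nat_lit 4))))) (T.tp (T.sk (T.ls (nat_lit 3) (nat_lit 4))))) (T.ts (nat_lit 2) (T.im (nat_lit 7) (nat_lit 2)) (T.nw (T.ts (nat_lit 4) (T.ts (nat_lit 3) (T.ts (nat_lit 2) (T.ts (nat_lit 4) (T.ts (nat_lit 1) (T.ts (nat_lit 2) (T.ts (nat_lit 3) (T.ts (nat_lit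 3) (T.l1 (nat_lit 12300) (nat_lit 3) (nat_lit 20500)) (T.tp (T.sk (T.ls (nat_lit 3) (nat_lit 4))))) (T.tp (T.sk (T.ls (nat_lit 3) (nat_lit 4))))) (T.tp (T.sk (T.ls (nat_lit 3) (nat_lit 4))))) (T.tp (T.sk (T.ls (nat_lit 3) (nat_lit 4))))) (T.tp (T.sk (T.ls (nat_lit 3) (nat_lit 4))))) (T.tp (T.sk (T.ls (nat_lit 3) (nat_lit 4))))) (T.tp (T.sk (T.ls (nat_lit 3) (nat_lit 4))))) (T.tp (T.sk (T.ls (nat_lit 3) (nat_lit 4))))))))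
def d475 : T := (T.ts (nat_lit 0) (T.ts (nat_lit 3) (T.ts (nat_lit 2) (T.ts (nat_lit 1) (T.ts (nat_lit 3) (T.ts (nat_lit 0) (T.ts (nat_lit 1) (T.ts (nat_lit 2) (T.ts (nat_lit 2) (T.l1 (nat_lit 12300) (nat_lit 4) (nat_lit 20500)) (T.tp (T.sk (T.ls (nat_lit 3) (nat_lit 4))))) (T.tp (T.sk (T.ls (nat_lit 3) (nat_lit 4))))) (T.tp (T.sk (T.ls (nat_lit 3) (nat_lit 4))))) (T.tp (T.sk (T.ls (nat_lit 3) (nat_lit 4))))) (T.tp (T.sk (T.ls (nat_lit 3) (nat_lit 4))))) (T.tp (T.sk (T.ls (nat_lit 3) (nat_lit 4))))) (T.tp (T.sk (T.ls (nat_lit 3) (nat_lit 4))))) (T.tp (T.sk (T.ls (nat_lit 3) (nat_lit 4))))) (T.ts (nat_lit 2) (T.im (nat_lit 5) (nat_lit 3)) (T.nw (T.ts (nat_lit 4) (T.ts (nat_lit 3) (T.ts (nat_lit 2) (T.ts (nat_lit 4) (T.ts (nat_lit 1) (T.ts (nat_lit 2) (T.ts (nat_lit 3) (T.ts (nat_lit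 3) (T.l1 (nat_lit 12300) (nat_lit 3) (nat_lit 20500)) (T.tp (T.sk (T.ls (nat_lit 3) (nat_lit 4))))) (T.tp (T.sk (T.ls (nat_lit 3) (nat_lit 4))))) (T.tp (T.sk (T.ls (nat_lit 3) (nat_lit 4))))) (T.tp (T.sk (T.ls (nat_lit 3) (nat_lit 4))))) (T.tp (T.sk (T.ls (nat_lit 3) (nat_lit 4))))) (T.tp (T.sk (T.ls (nat_lit 3) (nat_lit 4))))) (T.tp (T.sk (T.ls (nat_lit 3) (nat_lit 4))))) (T.tp (T.sk (T.ls (nat_lit 3) (nat_lit 4))))))))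
def d476 : T := (T.ts (nat_lit 0) (T.ts (nat_lit 3) (T.ts (nat_lit 2) (T.ts (nat_lit 1) (T.ts (nat_lit 3) (T.ts (nat_lit 0) (T.ts (nat_lit 1) (T.ts (nat_lit 2) (T.ts (nat_lit 2) (T.l1 (nat_lit 12300) (nat_lit 4) (nat_lit 20500)) (T.tp (T.sk (T.ls (nat_lit 3) (nat_lit 4))))) (T.tp (T.sk (T.ls (nat_lit 3) (nat_lit 4))))) (T.tp (T.sk (T.ls (nat_lit 3) (nat_lit 4))))) (T.tp (T.sk (T.ls (nat_lit 3) (nat_lit 4))))) (T.tp (T.sk (T.ls (nat_lit 3) (nat_lit 4))))) (T.tp (T.sk (T.ls (nat_lit 3) (nat_lit 4))))) (T.tp (T.sk (T.ls (nat_lit 3) (nat_lit 4))))) (T.tp (T.sk (T.ls (nat_lit 3) (nat_lit 4))))) (T.ts (nat_lit 2) (T.im (nat_lit 7) (nat_lit 2)) (T.nw (T.ts (nat_lit 4) (T.ts (nat_lit 3) (T.ts (nat_lit 2) (T.ts (nat_lit 4) (T.ts (nat_lit 1) (T.ts (nat_lit 2) (T.ts (nat_lit 3) (T.ts (nat_lit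 3) (T.l1 (nat_lit 12300) (nat_lit 3) (nat_lit 20500)) (T.tp (T.sk (T.ls (nat_lit 3) (nat_lit 4))))) (T.tp (T.sk (T.ls (nat_lit 3) (nat_lit 4))))) (T.tp (T.sk (T.ls (nat_lit 3) (nat_lit 4))))) (T.tp (T.sk (T.ls (nat_lit 3) (nat_lit 4))))) (T.tp (T.sk (T.ls (nat_lit 3) (nat_lit 4))))) (T.tp (T.sk (T.ls (nat_lit 3) (nat_lit 4))))) (T.tp (T.sk (T.ls (nat_lit 3) (nat_lit 4))))) (T.tp (T.sk (T.ls (nat_lit 3) (nat_lit 4))))))))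
def d477 : T := (T.ts (nat_lit 1) (T.ts (nat_lit 4) (T.ts (nat_lit 3) (T.ts (nat_lit 2) (T.ts (nat_lit 4) (T.ts (nat_lit 1) (T.ts (nat_lit 2) (T.ts (nat_lit 3) (T.ts (nat_lit 3) (T.l1 (nat_lit 12300) (nat_lit 4) (nat_lit 20500)) (T.tp (T.sk (T.ls (nat_lit 3) (nat_lit 4))))) (T.tp (T.sk (T.ls (nat_lit 3) (nat_lit 4))))) (T.tp (T.sk (T.ls (nat_lit 3) (nat_lit 4))))) (T.tp (T.sk (T.ls (nat_lit 3) (nat_lit 4))))) (T.tp (T.sk (T.ls (nat_lit 3) (nat_lit 4))))) (T.tp (T.sk (T.ls (nat_lit 3) (nat_lit 4))))) (T.tp (T.sk (T.ls (nat_lit 3) (nat_lit 4))))) (T.tp (T.sk (T.ls (nat_lit 3) (nat_lit 4))))) (T.ts (nat_lit 0) (T.ts (nat_lit 4) (T.ts (nat_lit 3) (T.ts (nat_lit 2) (T.ts (nat_lit 4) (T.ts (nat_lit 1) (T.ts (nat_lit 2) (T.ts (nat_lit 3) (T.ts (nat_lit 3) (T.l1 (nat_lit 12300) (nat_lit 3)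 (nat_lit 20500)) (T.tp (T.sk (T.ls (nat_lit 3) (nat_lit 4))))) (T.tp (T.sk (T.ls (nat_lit 3) (nat_lit 4))))) (T.tp (T.sk (T.ls (nat_lit 3) (nat_lit 4))))) (T.tp (T.sk (T.ls (nat_lit 3) (nat_lit 4))))) (T.tp (T.sk (T.ls (nat_lit 3) (nat_lit 4))))) (T.tp (T.sk (T.ls (nat_lit 3) (nat_lit 4))))) (T.tp (T.sk (T.ls (nat_lit 3) (nat_lit 4))))) (T.tp (T.sk (T.ls (nat_lit 3) (nat_lit 4))))) (T.tp (T.ts (nat_lit 3) (T.im (nat_lit 7) (nat_lit 2)) T.ie))))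
def d478 : T := (T.ts (nat_lit 0) (T.ts (nat_lit 3) (T.ts (nat_lit 2) (T.ts (nat_lit 1) (T.ts (nat_lit 3) (T.ts (nat_lit 0) (T.ts (nat_lit 1) (T.ts (nat_lit 2) (T.l1 (nat_lit 12300) (nat_lit 4) (nat_lit 20500)) (T.tp (T.sk (T.ls (nat_lit 3) (nat_lit 4))))) (T.tp (T.sk (T.ls (nat_lit 3) (nat_lit 4))))) (T.tp (T.sk (T.ls (nat_lit 3) (nat_lit 4))))) (T.tp (T.sk (T.ls (nat_lit 3) (nat_lit 4))))) (T.tp (T.sk (T.ls (nat_lit 3) (nat_lit 4))))) (T.tp (T.sk (T.ls (nat_lit 3) (nat_lit 4))))) (T.ts (nat_lit 1) (T.ls (nat_lit 3) (nat_lit 4)) d476)) (T.ts (nat_lit 2) (T.im (nat_lit 7) (nat_lit 1)) (T.nw (T.ts (nat_lit 4) (T.ts (nat_lit 3) (T.ts (nat_lit 2) (T.ts (nat_lit 4) (T.ts (nat_lit 1) (T.ts (nat_lit 2) (T.ts (nat_lit 3) (T.l1 (nat_lit 12300) (nat_lit 3) (nat_lit 20500)) (T.tp (T.sk (T.ls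 (nat_lit 3) (nat_lit 4))))) (T.tp (T.sk (T.ls (nat_lit 3) (nat_lit 4))))) (T.tp (T.sk (T.ls (nat_lit 3) (nat_lit 4))))) (T.tp (T.sk (T.ls (nat_lit 3) (nat_lit 4))))) (T.tp (T.sk (T.ls (nat_lit 3) (nat_lit 4))))) (T.tp (T.sk (T.ls (nat_lit 3) (nat_lit 4))))) (T.ts (nat_lit 2) (T.ls (nat_lit 3) (nat_lit 4)) d477)))))
def d479 : T := (T.ts (nat_lit 4) (T.ts (nat_lit 3) (T.ts (nat_lit 2) (T.ts (nat_lit 4) (T.ts (nat_lit 1) (T.ts (nat_lit 2) (T.ts (nat_lit 3) (T.l1 (nat_lit 11478) (nat_lit 3) (nat_lit 19131)) (T.tp (T.sk (T.lf (nat_lit 20500) (nat_lit 3) (nat_lit 19131) (nat_lit 4) (nat_lit 20500))))) (T.tp (T.sk (T.lf (nat_lit 20500) (nat_lit 3) (nat_lit 19131) (nat_lit 4) (nat_lit 20500))))) (T.tp (T.sk (T.lf (nat_lit 20500) (nat_lit 3) (nat_lit 19131) (nat_lit 4) (nat_lit 20500)))))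 (T.tp (T.sk (T.lf (nat_lit 20500) (nat_lit 3) (nat_lit 19131) (nat_lit 4) (nat_lit 20500))))) (T.tp (T.sk (T.lf (nat_lit 20500) (nat_lit 3) (nat_lit 19131) (nat_lit 4) (nat_lit 20500))))) (T.tp (T.sk (T.lf (nat_lit 20500) (nat_lit 3) (nat_lit 19131) (nat_lit 4) (nat_lit 20500))))) (T.ts (nat_lit 3) (T.tp (T.lf (nat_lit 20500) (nat_lit 3) (nat_lit 19131) (nat_lit 4) (nat_lit 20500))) (T.ts (nat_lit 2) (T.tp (T.lf (nat_lit 20500) (nat_lit 3) (nat_lit 19131) (nat_lit 4) (nat_lit 20500))) (T.ts (nat_lit 0) (T.ts (nat_lit 4) (T.ts (nat_lit 3) (T.ts (nat_lit 2) (T.ts (nat_lit 4) (T.ts (nat_lit 1) (T.ts (nat_lit 2) (T.ts (nat_lit 3) (T.ts (nat_lit 1) (T.l1 (nat_lit 11478) (nat_lit 3) (nat_lit 19131)) (T.tp (T.sk (T.lf (nat_lit 20500) (nat_lit 3) (nat_lit 19131) (nat_lit 4) (nat_lit 20500)))))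 (T.tp (T.sk (T.lf (nat_lit 20500) (nat_lit 3) (nat_lit 19131) (nat_lit 4) (nat_lit 20500))))) (T.tp (T.sk (T.lf (nat_lit 20500) (nat_lit 3) (nat_lit 19131) (nat_lit 4) (nat_lit 20500))))) (T.tp (T.sk (T.lf (nat_lit 20500) (nat_lit 3) (nat_lit 19131) (nat_lit 4) (nat_lit 20500))))) (T.tp (T.sk (T.lf (nat_lit 20500) (nat_lit 3) (nat_lit 19131) (nat_lit 4) (nat_lit 20500))))) (T.tp (T.sk (T.lf (nat_lit 20500) (nat_lit 3) (nat_lit 19131) (nat_lit 4) (nat_lit 20500))))) (T.tp (T.sk (T.lf (nat_lit 20500) (nat_lit 3) (nat_lit 19131) (nat_lit 4) (nat_lit 20500))))) (T.tp (T.sk (T.lf (nat_lit 20500) (nat_lit 3) (nat_lit 19131) (nat_lit 4) (nat_lit 20500))))) (T.tp (T.ts (nat_lit 1) (T.im (nat_lit 7) (nat_lit 2)) T.ie))))))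
def d480 : T := (T.ts (nat_lit 2) (T.ts (nat_lit 3) (T.tp (T.lf (nat_lit 20500) (nat_lit 3) (nat_lit 19131) (nat_lit 4) (nat_lit 20500))) (T.ts (nat_lit 2) (T.tp (T.lf (nat_lit 20500) (nat_lit 3) (nat_lit 19131) (nat_lit 4) (nat_lit 20500))) (T.ts (nat_lit 1) (T.tp (T.lf (nat_lit 20500) (nat_lit 3) (nat_lit 19131) (nat_lit 4) (nat_lit 20500))) (T.ts (nat_lit 0) (T.im (nat_lit 7) (nat_lit 2)) (T.nw (T.ts (nat_lit 4) (T.ts (nat_lit 3) (T.ts (nat_lit 2) (T.ts (nat_lit 4) (T.ts (nat_lit 1) (T.ts (nat_lit 2) (T.ts (nat_lit 3) (T.ts (nat_lit 1) (T.l1 (nat_lit 11478) (nat_lit 3) (nat_lit 19131)) (T.sk (T.lf (nat_lit 15748) (nat_lit 3) (nat_lit 19131) (nat_lit 4) (nat_lit 12300)))) (T.sk (T.lf (nat_lit 15748) (nat_lit 3) (nat_lit 19131) (nat_lit 4) (nat_lit 12300)))) (T.tp (T.sk (T.lf (nat_lit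 20500) (nat_lit 3) (nat_lit 19131) (nat_lit 4) (nat_lit 20500))))) (T.tp (T.sk (T.lf (nat_lit 20500) (nat_lit 3) (nat_lit 19131) (nat_lit 4) (nat_lit 20500))))) (T.tp (T.sk (T.lf (nat_lit 20500) (nat_lit 3) (nat_lit 19131) (nat_lit 4) (nat_lit 20500))))) (T.tp (T.sk (T.lf (nat_lit 20500) (nat_lit 3) (nat_lit 19131) (nat_lit 4) (nat_lit 20500))))) (T.tp (T.sk (T.lf (nat_lit 20500) (nat_lit 3) (nat_lit 19131) (nat_lit 4) (nat_lit 20500))))) (T.tp (T.sk (T.lf (nat_lit 20500) (nat_lit 3) (nat_lit 19131) (nat_lit 4) (nat_lit 20500)))))))))) (T.ts (nat_lit 1) (T.ts (nat_lit 3) (T.tp (T.lf (nat_lit 20500) (nat_lit 3) (nat_lit 19131) (nat_lit 4) (nat_lit 20500))) (T.ts (nat_lit 1) (T.tp (T.lf (nat_lit 20500) (nat_lit 3) (nat_lit 19131) (nat_lit 4) (nat_lit 20500))) (T.ts (nat_lit 2) (T.im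 (nat_lit 5) (nat_lit 3)) (T.ts (nat_lit 0) (T.im (nat_lit 7) (nat_lit 2)) (T.nw (T.ts (nat_lit 4) (T.ts (nat_lit 3) (T.ts (nat_lit 2) (T.ts (nat_lit 4) (T.ts (nat_lit 1) (T.ts (nat_lit 2) (T.ts (nat_lit 3) (T.ts (nat_lit 1) (T.l1 (nat_lit 11478) (nat_lit 3) (nat_lit 19131)) (T.tp (T.sk (T.lf (nat_lit 20500) (nat_lit 3) (nat_lit 19131) (nat_lit 4) (nat_lit 20500))))) (T.tp (T.sk (T.lf (nat_lit 20500) (nat_lit 3) (nat_lit 19131) (nat_lit 4) (nat_lit 20500))))) (T.tp (T.sk (T.lf (nat_lit 20500) (nat_lit 3) (nat_lit 19131) (nat_lit 4) (nat_lit 20500))))) (T.tp (T.sk (T.lf (nat_lit 20500) (nat_lit 3) (nat_lit 19131) (nat_lit 4) (nat_lit 20500))))) (T.tp (T.sk (T.lf (nat_lit 20500) (nat_lit 3) (nat_lit 19131) (nat_lit 4) (nat_lit 20500))))) (T.tp (T.sk (T.lf (nat_lit 20500) (nat_lit 3)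 (nat_lit 19131) (nat_lit 4) (nat_lit 20500))))) (T.tp (T.sk (T.lf (nat_lit 20500) (nat_lit 3) (nat_lit 19131) (nat_lit 4) (nat_lit 20500))))) (T.tp (T.sk (T.lf (nat_lit 20500) (nat_lit 3) (nat_lit 19131) (nat_lit 4) (nat_lit 20500)))))))))) (T.ts (nat_lit 0) (T.im (nat_lit 7) (nat_lit 1)) (T.nw d479))))
def d481 : T := (T.ts (nat_lit 4) (T.ts (nat_lit 3) (T.ts (nat_lit 2) (T.ts (nat_lit 4) (T.ts (nat_lit 1) (T.ts (nat_lit 2) (T.ts (nat_lit 3) (T.l1 (nat_lit 12300) (nat_lit 4) (nat_lit 20500)) (T.tp (T.sk (T.ls (nat_lit 3) (nat_lit 4))))) (T.tp (T.sk (T.ls (nat_lit 3) (nat_lit 4))))) (T.tp (T.sk (T.ls (nat_lit 3) (nat_lit 4))))) (T.tp (T.sk (T.ls (nat_lit 3) (nat_lit 4))))) (T.tp (T.sk (T.ls (nat_lit 3) (nat_lit 4))))) (T.tp (T.sk (T.ls (nat_lit 3) (nat_lit 4))))) (T.ts (nat_lit 3)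 (T.ls (nat_lit 3) (nat_lit 4)) (T.ts (nat_lit 2) (T.ls (nat_lit 3) (nat_lit 4)) (T.ts (nat_lit 1) (T.ts (nat_lit 4) (T.ts (nat_lit 3) (T.ts (nat_lit 2) (T.ts (nat_lit 4) (T.ts (nat_lit 1) (T.ts (nat_lit 2) (T.ts (nat_lit 3) (T.ts (nat_lit 0) (T.l1 (nat_lit 12300) (nat_lit 4) (nat_lit 20500)) (T.tp (T.sk (T.ls (nat_lit 3) (nat_lit 4))))) (T.tp (T.sk (T.ls (nat_lit 3) (nat_lit 4))))) (T.tp (T.sk (T.ls (nat_lit 3) (nat_lit 4))))) (T.tp (T.sk (T.ls (nat_lit 3) (nat_lit 4))))) (T.tp (T.sk (T.ls (nat_lit 3) (nat_lit 4))))) (T.tp (T.sk (T.ls (nat_lit 3) (nat_lit 4))))) (T.tp (T.sk (T.ls (nat_lit 3) (nat_lit 4))))) (T.tp (T.sk (T.ls (nat_lit 3) (nat_lit 4))))) (T.tp (T.ts (nat_lit 0) (T.im (nat_lit 7) (nat_lit 2)) T.ie))))))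
def d482 : T := (T.ts (nat_lit 3) (T.ts (nat_lit 4) (T.ls (nat_lit 3) (nat_lit 4)) (T.ts (nat_lit 3) (T.ls (nat_lit 3) (nat_lit 4)) (T.ts (nat_lit 2) (T.ls (nat_lit 3) (nat_lit 4)) (T.ts (nat_lit 1) (T.ts (nat_lit 4) (T.ts (nat_lit 3) (T.ts (nat_lit 2) (T.ts (nat_lit 4) (T.ts (nat_lit 1) (T.ts (nat_lit 2) (T.ts (nat_lit 3) (T.ts (nat_lit 0) (T.l1 (nat_lit 12300) (nat_lit 4) (nat_lit 20500)) (T.sk (T.lf (nat_lit 16076) (nat_lit 3) (nat_lit 11478) (nat_lit 4) (nat_lit 20500)))) (T.sk (T.lf (nat_lit 16076) (nat_lit 3) (nat_lit 11478) (nat_lit 4) (nat_lit 20500)))) (T.tp (T.sk (T.ls (nat_lit 3) (nat_lit 4))))) (T.tp (T.sk (T.ls (nat_lit 3) (nat_lit 4))))) (T.tp (T.sk (T.ls (nat_lit 3) (nat_lit 4))))) (T.tp (T.sk (T.ls (nat_lit 3) (nat_lit 4))))) (T.tp (T.sk (T.ls (nat_lit 3) (nat_lit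 4))))) (T.tp (T.sk (T.ls (nat_lit 3) (nat_lit 4))))) (T.tp (T.ts (nat_lit 0) (T.im (nat_lit 7) (nat_lit 2)) T.ie)))))) (T.ts (nat_lit 2) (T.ts (nat_lit 4) (T.ls (nat_lit 3) (nat_lit 4)) (T.ts (nat_lit 2) (T.ls (nat_lit 3) (nat_lit 4)) (T.ts (nat_lit 1) (T.ts (nat_lit 4) (T.ts (nat_lit 3) (T.ts (nat_lit 2) (T.ts (nat_lit 4) (T.ts (nat_lit 1) (T.ts (nat_lit 2) (T.ts (nat_lit 3) (T.ts (nat_lit 0) (T.l1 (nat_lit 12300) (nat_lit 4) (nat_lit 20500)) (T.tp (T.sk (T.ls (nat_lit 3) (nat_lit 4))))) (T.tp (T.sk (T.ls (nat_lit 3) (nat_lit 4))))) (T.tp (T.sk (T.ls (nat_lit 3) (nat_lit 4))))) (T.tp (T.sk (T.ls (nat_lit 3) (nat_lit 4))))) (T.tp (T.sk (T.ls (nat_lit 3) (nat_lit 4))))) (T.tp (T.sk (T.ls (nat_lit 3) (nat_lit 4))))) (T.tp (T.sk (T.ls (nat_lit 3) (nat_lit 4))))) (T.tp (T.sk (T.ls (nat_lit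 3) (nat_lit 4))))) (T.tp (T.ts (nat_lit 3) (T.im (nat_lit 5) (nat_lit 3)) (T.ts (nat_lit 0) (T.im (nat_lit 7) (nat_lit 2)) T.ie)))))) (T.ts (nat_lit 1) d481 (T.tp (T.ts (nat_lit 0) (T.im (nat_lit 7) (nat_lit 1)) T.ie)))))
def d483 : T := (T.ts (nat_lit 4) (T.ts (nat_lit 4) (T.ls (nat_lit 3) (nat_lit 4)) (T.ts (nat_lit 3) (T.ts (nat_lit 4) (T.ls (nat_lit 3) (nat_lit 4)) (T.ts (nat_lit 2) (T.ts (nat_lit 4) (T.ts (nat_lit 1) (T.ts (nat_lit 2) (T.l1 (nat_lit 12300) (nat_lit 3) (nat_lit 20500)) (T.sk (T.lf (nat_lit 16569) (nat_lit 3) (nat_lit 20500) (nat_lit 4) (nat_lit 12300)))) (T.sk (T.lf (nat_lit 16569) (nat_lit 3) (nat_lit 20500) (nat_lit 4) (nat_lit 12300)))) (T.tp (T.sk (T.ls (nat_lit 3) (nat_lit 4))))) (T.tp (T.sk (T.ls (nat_lit 3) (nat_lit 4)))))) (T.ts (nat_lit 2) (T.ls (nat_lit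 3) (nat_lit 4)) (T.ts (nat_lit 1) (T.ts (nat_lit 4) (T.ts (nat_lit 3) (T.ts (nat_lit 2) (T.ts (nat_lit 4) (T.ts (nat_lit 1) (T.ts (nat_lit 2) (T.ts (nat_lit 3) (T.ts (nat_lit 0) (T.l1 (nat_lit 12300) (nat_lit 4) (nat_lit 20500)) (T.tp (T.sk (T.ls (nat_lit 3) (nat_lit 4))))) (T.tp (T.sk (T.ls (nat_lit 3) (nat_lit 4))))) (T.tp (T.sk (T.ls (nat_lit 3) (nat_lit 4))))) (T.tp (T.sk (T.ls (nat_lit 3) (nat_lit 4))))) (T.tp (T.sk (T.ls (nat_lit 3) (nat_lit 4))))) (T.tp (T.sk (T.ls (nat_lit 3) (nat_lit 4))))) (T.tp (T.sk (T.ls (nat_lit 3) (nat_lit 4))))) (T.tp (T.sk (T.ls (nat_lit 3) (nat_lit 4))))) (T.tp (T.ts (nat_lit 0) (T.im (nat_lit 7) (nat_lit 2)) T.ie)))))) d482)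
def d484 : T := (T.ts (nat_lit 0) (T.ts (nat_lit 3) (T.ts (nat_lit 3) (T.tp (T.lf (nat_lit 20500) (nat_lit 3) (nat_lit 19131) (nat_lit 4) (nat_lit 20500))) (T.ts (nat_lit 2) (T.ts (nat_lit 3) (T.lf (nat_lit 19131) (nat_lit 3) (nat_lit 16569) (nat_lit 4) (nat_lit 20500)) (T.ts (nat_lit 1) (T.ts (nat_lit 3) (T.ts (nat_lit 0) (T.ts (nat_lit 1) (T.l1 (nat_lit 12300) (nat_lit 4) (nat_lit 20500)) (T.sk (T.lf (nat_lit 16569) (nat_lit 3) (nat_lit 12300) (nat_lit 4) (nat_lit 20500)))) (T.sk (T.lf (nat_lit 16569) (nat_lit 3) (nat_lit 12300) (nat_lit 4) (nat_lit 20500)))) (T.sk (T.lf (nat_lit 19131) (nat_lit 3) (nat_lit 16569) (nat_lit 4) (nat_lit 20500)))) (T.sk (T.lf (nat_lit 19131) (nat_lit 3) (nat_lit 16569) (nat_lit 4) (nat_lit 20500))))) (T.ts (nat_lit 1) (T.tp (T.lf (nat_lit 20500) (nat_lit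 3) (nat_lit 19131) (nat_lit 4) (nat_lit 20500))) (T.ts (nat_lit 0) (T.im (nat_lit 7) (nat_lit 2)) (T.nw (T.ts (nat_lit 4) (T.ts (nat_lit 3) (T.ts (nat_lit 2) (T.ts (nat_lit 4) (T.ts (nat_lit 1) (T.ts (nat_lit 2) (T.ts (nat_lit 3) (T.ts (nat_lit 1) (T.l1 (nat_lit 11478) (nat_lit 3) (nat_lit 19131)) (T.tp (T.sk (T.lf (nat_lit 20500) (nat_lit 3) (nat_lit 19131) (nat_lit 4) (nat_lit 20500))))) (T.tp (T.sk (T.lf (nat_lit 20500) (nat_lit 3) (nat_lit 19131) (nat_lit 4) (nat_lit 20500))))) (T.tp (T.sk (T.lf (nat_lit 20500) (nat_lit 3) (nat_lit 19131) (nat_lit 4) (nat_lit 20500))))) (T.tp (T.sk (T.lf (nat_lit 20500) (nat_lit 3) (nat_lit 19131) (nat_lit 4) (nat_lit 20500))))) (T.tp (T.sk (T.lf (nat_lit 20500) (nat_lit 3) (nat_lit 19131) (nat_lit 4) (nat_lit 20500))))) (T.tp (T.sk (T.lf (nat_lit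 20500) (nat_lit 3) (nat_lit 19131) (nat_lit 4) (nat_lit 20500))))) (T.tp (T.sk (T.lf (nat_lit 20500) (nat_lit 3) (nat_lit 19131) (nat_lit 4) (nat_lit 20500))))) (T.tp (T.sk (T.lf (nat_lit 20500) (nat_lit 3) (nat_lit 19131) (nat_lit 4) (nat_lit 20500)))))))))) d480) (T.ts (nat_lit 1) (T.im (nat_lit 5) (nat_lit 2)) (T.nw d483)))
def d485 : T := (T.ts (nat_lit 3) (T.ts (nat_lit 2) (T.tp (T.ts (nat_lit 2) (T.ls (nat_lit 3) (nat_lit 4)) (T.ts (nat_lit 1) (T.ls (nat_lit 3) (nat_lit 4)) (T.ts (nat_lit 0) (T.ts (nat_lit 3) (T.ts (nat_lit 2) (T.im (nat_lit 7) (nat_lit 3)) (T.sk (T.ls (nat_lit 3) (nat_lit 4)))) (T.sk (T.ls (nat_lit 3) (nat_lit 4)))) (T.ts (nat_lit 3) (T.im (nat_lit 7) (nat_lit 2)) (T.nw (T.ts (nat_lit 4) (T.ts (nat_lit 3) (T.im (nat_lit 7) (nat_lit 3)) (T.sk (T.ls (nat_lit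 3) (nat_lit 4)))) (T.sk (T.ls (nat_lit 3) (nat_lit 4)))))))))) (T.ts (nat_lit 1) (T.ts (nat_lit 1) (T.ls (nat_lit 3) (nat_lit 4)) d471) (T.ts (nat_lit 0) (T.ts (nat_lit 2) (T.ls (nat_lit 3) (nat_lit 4)) d472) (T.ts (nat_lit 3) (T.im (nat_lit 7) (nat_lit 1)) (T.nw (T.ts (nat_lit 3) (T.ls (nat_lit 3) (nat_lit 4)) (T.ts (nat_lit 2) (T.ls (nat_lit 3) (nat_lit 4)) d473))))))) (T.ts (nat_lit 2) (T.ts (nat_lit 3) (T.ts (nat_lit 3) (T.ls (nat_lit 3) (nat_lit 4)) (T.ts (nat_lit 1) (T.ls (nat_lit 3) (nat_lit 4)) d474)) (T.ts (nat_lit 1) (T.ts (nat_lit 3) (T.ls (nat_lit 3) (nat_lit 4)) (T.ts (nat_lit 1) (T.ls (nat_lit 3) (nat_lit 4)) d475)) d478)) d484))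
def d486 : T := (T.ts (nat_lit 0) (T.ts (nat_lit 3) (T.ts (nat_lit 2) (T.ts (nat_lit 1) (T.ts (nat_lit 3) (T.ts (nat_lit 0) (T.ts (nat_lit 1) (T.ts (nat_lit 0) (T.ts (nat_lit 3) (T.l1 (nat_lit 12300) (nat_lit 4) (nat_lit 20500)) (T.tp (T.sk (T.ls (nat_lit 3) (nat_lit 4))))) (T.tp (T.sk (T.ls (nat_lit 3) (nat_lit 4))))) (T.tp (T.sk (T.ls (nat_lit 3) (nat_lit 4))))) (T.tp (T.sk (T.ls (nat_lit 3) (nat_lit 4))))) (T.tp (T.sk (T.ls (nat_lit 3) (nat_lit 4))))) (T.tp (T.sk (T.ls (nat_lit 3) (nat_lit 4))))) (T.tp (T.sk (T.ls (nat_lit 3) (nat_lit 4))))) (T.tp (T.sk (T.ls (nat_lit 3) (nat_lit 4))))) (T.ts (nat_lit 3) (T.im (nat_lit 7) (nat_lit 2)) (T.ts (nat_lit 1) (T.im (nat_lit 3) (nat_lit 4)) (T.nw (T.ts (nat_lit 4) (T.ts (nat_lit 3) (T.ts (nat_lit 2) (T.ts (nat_lit 4) (T.ts (nat_lit 1)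 (T.ts (nat_lit 2) (T.ts (nat_lit 1) (T.ts (nat_lit 4) (T.l1 (nat_lit 12300) (nat_lit 3) (nat_lit 20500)) (T.tp (T.sk (T.ls (nat_lit 3) (nat_lit 4))))) (T.tp (T.sk (T.ls (nat_lit 3) (nat_lit 4))))) (T.tp (T.sk (T.ls (nat_lit 3) (nat_lit 4))))) (T.tp (T.sk (T.ls (nat_lit 3) (nat_lit 4))))) (T.tp (T.sk (T.ls (nat_lit 3) (nat_lit 4))))) (T.tp (T.sk (T.ls (nat_lit 3) (nat_lit 4))))) (T.tp (T.sk (T.ls (nat_lit 3) (nat_lit 4))))) (T.tp (T.sk (T.ls (nat_lit 3) (nat_lit 4)))))))))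
def d487 : T := (T.ts (nat_lit 1) (T.ts (nat_lit 4) (T.ts (nat_lit 3) (T.ts (nat_lit 2) (T.ts (nat_lit 4) (T.ts (nat_lit 1) (T.ts (nat_lit 2) (T.ts (nat_lit 1) (T.ts (nat_lit 4) (T.l1 (nat_lit 12300) (nat_lit 4) (nat_lit 20500)) (T.tp (T.sk (T.ls (nat_lit 3) (nat_lit 4))))) (T.tp (T.sk (T.ls (nat_lit 3) (nat_lit 4))))) (T.tp (T.sk (T.ls (nat_lit 3) (nat_lit 4))))) (T.tp (T.sk (T.ls (nat_lit 3) (nat_lit 4))))) (T.tp (T.sk (T.ls (nat_lit 3) (nat_lit 4))))) (T.tp (T.sk (T.ls (nat_lit 3) (nat_lit 4))))) (T.tp (T.sk (T.ls (nat_lit 3) (nat_lit 4))))) (T.tp (T.sk (T.ls (nat_lit 3) (nat_lit 4))))) (T.ts (nat_lit 0) (T.ts (nat_lit 4) (T.ts (nat_lit 3) (T.ts (nat_lit 2) (T.ts (nat_lit 4) (T.ts (nat_lit 1) (T.ts (nat_lit 2) (T.ts (nat_lit 1) (T.ts (nat_lit 4) (T.l1 (nat_lit 12300) (nat_lit 3)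 (nat_lit 20500)) (T.tp (T.sk (T.ls (nat_lit 3) (nat_lit 4))))) (T.tp (T.sk (T.ls (nat_lit 3) (nat_lit 4))))) (T.tp (T.sk (T.ls (nat_lit 3) (nat_lit 4))))) (T.tp (T.sk (T.ls (nat_lit 3) (nat_lit 4))))) (T.tp (T.sk (T.ls (nat_lit 3) (nat_lit 4))))) (T.tp (T.sk (T.ls (nat_lit 3) (nat_lit 4))))) (T.tp (T.sk (T.ls (nat_lit 3) (nat_lit 4))))) (T.tp (T.sk (T.ls (nat_lit 3) (nat_lit 4))))) (T.tp (T.ts (nat_lit 4) (T.im (nat_lit 7) (nat_lit 2)) T.ie))))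
def d488 : T := (T.ts (nat_lit 2) (T.ts (nat_lit 2) (T.ls (nat_lit 3) (nat_lit 4)) (T.ts (nat_lit 1) (T.ts (nat_lit 3) (T.ts (nat_lit 0) (T.l1 (nat_lit 12300) (nat_lit 4) (nat_lit 20500)) (T.tp (T.sk (T.ls (nat_lit 3) (nat_lit 4))))) (T.tp (T.sk (T.ls (nat_lit 3) (nat_lit 4))))) (T.tp (T.ts (nat_lit 0) (T.ts (nat_lit 3) (T.ts (nat_lit 2) (T.im (nat_lit 7) (nat_lit 3)) (T.sk (T.ls (nat_lit 3) (nat_lit 4)))) (T.sk (T.ls (nat_lit 3) (nat_lit 4)))) (T.ts (nat_lit 3) (T.im (nat_lit 7) (nat_lit 2)) (T.nw (T.ts (nat_lit 4) (T.ts (nat_lit 3) (T.im (nat_lit 7) (nat_lit 3)) (T.sk (T.ls (nat_lit 3) (nat_lit 4)))) (T.sk (T.ls (nat_lit 3) (nat_lit 4)))))))))) (T.ts (nat_lit 1) (T.ts (nat_lit 2) (T.ls (nat_lit 3) (nat_lit 4)) (T.ts (nat_lit 1) (T.ls (nat_lit 3) (nat_lit 4)) (T.ts (nat_lit 3) (T.im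 (nat_lit 7) (nat_lit 2)) (T.ts (nat_lit 0) (T.im (nat_lit 5) (nat_lit 3)) (T.nw (T.ts (nat_lit 4) (T.ts (nat_lit 3) (T.ts (nat_lit 2) (T.ts (nat_lit 4) (T.ts (nat_lit 1) (T.ts (nat_lit 2) (T.ts (nat_lit 1) (T.ts (nat_lit 4) (T.l1 (nat_lit 12300) (nat_lit 3) (nat_lit 20500)) (T.tp (T.sk (T.ls (nat_lit 3) (nat_lit 4))))) (T.tp (T.sk (T.ls (nat_lit 3) (nat_lit 4))))) (T.tp (T.sk (T.ls (nat_lit 3) (nat_lit 4))))) (T.tp (T.sk (T.ls (nat_lit 3) (nat_lit 4))))) (T.tp (T.sk (T.ls (nat_lit 3) (nat_lit 4))))) (T.tp (T.sk (T.ls (nat_lit 3) (nat_lit 4))))) (T.tp (T.sk (T.ls (nat_lit 3) (nat_lit 4))))) (T.tp (T.sk (T.ls (nat_lit 3) (nat_lit 4)))))))))) (T.ts (nat_lit 0) (T.ts (nat_lit 2) (T.ls (nat_lit 3) (nat_lit 4)) d486) (T.ts (nat_lit 3) (T.im (nat_lit 7) (nat_lit 1)) (T.nw (T.ts (nat_lit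 3) (T.ls (nat_lit 3) (nat_lit 4)) (T.ts (nat_lit 2) (T.ls (nat_lit 3) (nat_lit 4)) d487)))))))
def d489 : T := (T.ts (nat_lit 0) (T.ts (nat_lit 3) (T.ts (nat_lit 2) (T.ts (nat_lit 1) (T.ts (nat_lit 3) (T.ts (nat_lit 0) (T.ts (nat_lit 1) (T.ts (nat_lit 0) (T.ts (nat_lit 2) (T.l1 (nat_lit 12300) (nat_lit 4) (nat_lit 20500)) (T.tp (T.sk (T.ls (nat_lit 3) (nat_lit 4))))) (T.tp (T.sk (T.ls (nat_lit 3) (nat_lit 4))))) (T.tp (T.sk (T.ls (nat_lit 3) (nat_lit 4))))) (T.tp (T.sk (T.ls (nat_lit 3) (nat_lit 4))))) (T.tp (T.sk (T.ls (nat_lit 3) (nat_lit 4))))) (T.tp (T.sk (T.ls (nat_lit 3) (nat_lit 4))))) (T.tp (T.sk (T.ls (nat_lit 3) (nat_lit 4))))) (T.tp (T.sk (T.ls (nat_lit 3) (nat_lit 4))))) (T.ts (nat_lit 2) (T.im (nat_lit 7) (nat_lit 2)) (T.nw (T.ts (nat_lit 4) (T.ts (nat_lit 3) (T.ts (nat_lit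 2) (T.ts (nat_lit 4) (T.ts (nat_lit 1) (T.ts (nat_lit 2) (T.ts (nat_lit 1) (T.ts (nat_lit 3) (T.l1 (nat_lit 12300) (nat_lit 3) (nat_lit 20500)) (T.tp (T.sk (T.ls (nat_lit 3) (nat_lit 4))))) (T.tp (T.sk (T.ls (nat_lit 3) (nat_lit 4))))) (T.tp (T.sk (T.ls (nat_lit 3) (nat_lit 4))))) (T.tp (T.sk (T.ls (nat_lit 3) (nat_lit 4))))) (T.tp (T.sk (T.ls (nat_lit 3) (nat_lit 4))))) (T.tp (T.sk (T.ls (nat_lit 3) (nat_lit 4))))) (T.tp (T.sk (T.ls (nat_lit 3) (nat_lit 4))))) (T.tp (T.sk (T.ls (nat_lit 3) (nat_lit 4))))))))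
def d490 : T := (T.ts (nat_lit 0) (T.ts (nat_lit 3) (T.ts (nat_lit 2) (T.ts (nat_lit 1) (T.ts (nat_lit 3) (T.ts (nat_lit 0) (T.ts (nat_lit 1) (T.ts (nat_lit 0) (T.ts (nat_lit 2) (T.l1 (nat_lit 12300) (nat_lit 4) (nat_lit 20500)) (T.tp (T.sk (T.ls (nat_lit 3) (nat_lit 4))))) (T.tp (T.sk (T.ls (nat_lit 3) (nat_lit 4))))) (T.tp (T.sk (T.ls (nat_lit 3) (nat_lit 4))))) (T.tp (T.sk (T.ls (nat_lit 3) (nat_lit 4))))) (T.tp (T.sk (T.ls (nat_lit 3) (nat_lit 4))))) (T.tp (T.sk (T.ls (nat_lit 3) (nat_lit 4))))) (T.tp (T.sk (T.ls (nat_lit 3) (nat_lit 4))))) (T.tp (T.sk (T.ls (nat_lit 3) (nat_lit 4))))) (T.ts (nat_lit 2) (T.im (nat_lit 7) (nat_lit 2)) (T.nw (T.ts (nat_lit 4) (T.ts (nat_lit 3) (T.ts (nat_lit 2) (T.ts (nat_lit 4) (T.ts (nat_lit 1) (T.ts (nat_lit 2) (T.ts (nat_lit 1) (T.ts (nat_lit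 3) (T.l1 (nat_lit 12300) (nat_lit 3) (nat_lit 20500)) (T.tp (T.sk (T.ls (nat_lit 3) (nat_lit 4))))) (T.tp (T.sk (T.ls (nat_lit 3) (nat_lit 4))))) (T.tp (T.sk (T.ls (nat_lit 3) (nat_lit 4))))) (T.tp (T.sk (T.ls (nat_lit 3) (nat_lit 4))))) (T.tp (T.sk (T.ls (nat_lit 3) (nat_lit 4))))) (T.tp (T.sk (T.ls (nat_lit 3) (nat_lit 4))))) (T.tp (T.sk (T.ls (nat_lit 3) (nat_lit 4))))) (T.tp (T.sk (T.ls (nat_lit 3) (nat_lit 4))))))))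
def d491 : T := (T.ts (nat_lit 1) (T.ts (nat_lit 4) (T.ts (nat_lit 3) (T.ts (nat_lit 2) (T.ts (nat_lit 4) (T.ts (nat_lit 1) (T.ts (nat_lit 2) (T.ts (nat_lit 1) (T.ts (nat_lit 3) (T.l1 (nat_lit 12300) (nat_lit 4) (nat_lit 20500)) (T.tp (T.sk (T.ls (nat_lit 3) (nat_lit 4))))) (T.tp (T.sk (T.ls (nat_lit 3) (nat_lit 4))))) (T.tp (T.sk (T.ls (nat_lit 3) (nat_lit 4))))) (T.tp (T.sk (T.ls (nat_lit 3) (nat_lit 4))))) (T.tp (T.sk (T.ls (nat_lit 3) (nat_lit 4))))) (T.tp (T.sk (T.ls (nat_lit 3) (nat_lit 4))))) (T.tp (T.sk (T.ls (nat_lit 3) (nat_lit 4))))) (T.tp (T.sk (T.ls (nat_lit 3) (nat_lit 4))))) (T.ts (nat_lit 0) (T.ts (nat_lit 4) (T.ts (nat_lit 3) (T.ts (nat_lit 2) (T.ts (nat_lit 4) (T.ts (nat_lit 1) (T.ts (nat_lit 2) (T.ts (nat_lit 1) (T.ts (nat_lit 3) (T.l1 (nat_lit 12300) (nat_lit 3)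 (nat_lit 20500)) (T.tp (T.sk (T.ls (nat_lit 3) (nat_lit 4))))) (T.tp (T.sk (T.ls (nat_lit 3) (nat_lit 4))))) (T.tp (T.sk (T.ls (nat_lit 3) (nat_lit 4))))) (T.tp (T.sk (T.ls (nat_lit 3) (nat_lit 4))))) (T.tp (T.sk (T.ls (nat_lit 3) (nat_lit 4))))) (T.tp (T.sk (T.ls (nat_lit 3) (nat_lit 4))))) (T.tp (T.sk (T.ls (nat_lit 3) (nat_lit 4))))) (T.tp (T.sk (T.ls (nat_lit 3) (nat_lit 4))))) (T.tp (T.ts (nat_lit 3) (T.im (nat_lit 7) (nat_lit 2)) T.ie))))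
def d492 : T := (T.ts (nat_lit 1) (T.ts (nat_lit 3) (T.ls (nat_lit 3) (nat_lit 4)) (T.ts (nat_lit 1) (T.ls (nat_lit 3) (nat_lit 4)) (T.ts (nat_lit 2) (T.im (nat_lit 7) (nat_lit 2)) (T.ts (nat_lit 0) (T.im (nat_lit 5) (nat_lit 3)) (T.nw (T.ts (nat_lit 4) (T.ts (nat_lit 3) (T.ts (nat_lit 2) (T.ts (nat_lit 4) (T.ts (nat_lit 1) (T.ts (nat_lit 2) (T.ts (nat_lit 1) (T.ts (nat_lit 3) (T.l1 (nat_lit 12300) (nat_lit 3) (nat_lit 20500)) (T.tp (T.sk (T.ls (nat_lit 3) (nat_lit 4))))) (T.tp (T.sk (T.ls (nat_lit 3) (nat_lit 4))))) (T.tp (T.sk (T.ls (nat_lit 3) (nat_lit 4))))) (T.tp (T.sk (T.ls (nat_lit 3) (nat_lit 4))))) (T.tp (T.sk (T.ls (nat_lit 3) (nat_lit 4))))) (T.tp (T.sk (T.ls (nat_lit 3) (nat_lit 4))))) (T.tp (T.sk (T.ls (nat_lit 3) (nat_lit 4))))) (T.tp (T.sk (T.ls (nat_lit 3) (nat_lit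 4)))))))))) (T.ts (nat_lit 0) (T.ts (nat_lit 3) (T.tp (T.ts (nat_lit 2) (T.ts (nat_lit 1) (T.ts (nat_lit 3) (T.ts (nat_lit 0) (T.ts (nat_lit 1) (T.ts (nat_lit 0) (T.im (nat_lit 13) (nat_lit 2)) (T.sk (T.ls (nat_lit 3) (nat_lit 4)))) (T.sk (T.ls (nat_lit 3) (nat_lit 4)))) (T.sk (T.ls (nat_lit 3) (nat_lit 4)))) (T.sk (T.ls (nat_lit 3) (nat_lit 4)))) (T.sk (T.ls (nat_lit 3) (nat_lit 4)))) (T.sk (T.ls (nat_lit 3) (nat_lit 4))))) (T.ts (nat_lit 1) (T.ls (nat_lit 3) (nat_lit 4)) d490)) (T.ts (nat_lit 2) (T.im (nat_lit 7) (nat_lit 1)) (T.nw (T.ts (nat_lit 4) (T.ts (nat_lit 3) (T.ts (nat_lit 2) (T.ts (nat_lit 4) (T.ts (nat_lit 1) (T.ts (nat_lit 2) (T.ts (nat_lit 1) (T.im (nat_lit 13) (nat_lit 2)) (T.sk (T.lf (nat_lit 16569) (nat_lit 3) (nat_lit 20500) (nat_lit 4) (nat_lit 12300)))) (T.sk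 (T.lf (nat_lit 16569) (nat_lit 3) (nat_lit 20500) (nat_lit 4) (nat_lit 12300)))) (T.tp (T.sk (T.ls (nat_lit 3) (nat_lit 4))))) (T.tp (T.sk (T.ls (nat_lit 3) (nat_lit 4))))) (T.tp (T.sk (T.ls (nat_lit 3) (nat_lit 4))))) (T.tp (T.sk (T.ls (nat_lit 3) (nat_lit 4))))) (T.ts (nat_lit 2) (T.ls (nat_lit 3) (nat_lit 4)) d491))))))
def d493 : T := (T.ts (nat_lit 4) (T.tp (T.ts (nat_lit 3) (T.ts (nat_lit 2) (T.ts (nat_lit 4) (T.ts (nat_lit 1) (T.ts (nat_lit 2) (T.ts (nat_lit 1) (T.im (nat_lit 13) (nat_lit 2)) (T.sk (T.ls (nat_lit 3) (nat_lit 4)))) (T.sk (T.ls (nat_lit 3) (nat_lit 4)))) (T.sk (T.ls (nat_lit 3) (nat_lit 4)))) (T.sk (T.ls (nat_lit 3) (nat_lit 4)))) (T.sk (T.ls (nat_lit 3) (nat_lit 4)))) (T.sk (T.ls (nat_lit 3) (nat_lit 4))))) (T.ts (nat_lit 3) (T.ls (nat_lit 3) (nat_lit 4)) (T.ts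 (nat_lit 2) (T.ls (nat_lit 3) (nat_lit 4)) (T.ts (nat_lit 0) (T.ts (nat_lit 4) (T.ts (nat_lit 3) (T.ts (nat_lit 2) (T.ts (nat_lit 4) (T.ts (nat_lit 1) (T.ts (nat_lit 2) (T.ts (nat_lit 1) (T.ts (nat_lit 1) (T.l1 (nat_lit 12300) (nat_lit 3) (nat_lit 20500)) (T.tp (T.sk (T.ls (nat_lit 3) (nat_lit 4))))) (T.tp (T.sk (T.ls (nat_lit 3) (nat_lit 4))))) (T.tp (T.sk (T.ls (nat_lit 3) (nat_lit 4))))) (T.tp (T.sk (T.ls (nat_lit 3) (nat_lit 4))))) (T.tp (T.sk (T.ls (nat_lit 3) (nat_lit 4))))) (T.tp (T.sk (T.ls (nat_lit 3) (nat_lit 4))))) (T.tp (T.sk (T.ls (nat_lit 3) (nat_lit 4))))) (T.tp (T.sk (T.ls (nat_lit 3) (nat_lit 4))))) (T.tp (T.ts (nat_lit 1) (T.im (nat_lit 7) (nat_lit 2)) T.ie))))))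
def d494 : T := (T.ts (nat_lit 2) (T.ts (nat_lit 3) (T.ls (nat_lit 3) (nat_lit 4)) (T.ts (nat_lit 2) (T.ls (nat_lit 3) (nat_lit 4)) (T.ts (nat_lit 1) (T.ls (nat_lit 3) (nat_lit 4)) (T.ts (nat_lit 0) (T.im (nat_lit 7) (nat_lit 2)) (T.nw (T.ts (nat_lit 4) (T.ts (nat_lit 3) (T.ts (nat_lit 2) (T.ts (nat_lit 4) (T.ts (nat_lit 1) (T.ts (nat_lit 2) (T.ts (nat_lit 1) (T.ts (nat_lit 1) (T.l1 (nat_lit 12300) (nat_lit 3) (nat_lit 20500)) (T.sk (T.lf (nat_lit 16569) (nat_lit 3) (nat_lit 20500) (nat_lit 4) (nat_lit 12300)))) (T.sk (T.lf (nat_lit 16569) (nat_lit 3) (nat_lit 20500) (nat_lit 4) (nat_lit 12300)))) (T.tp (T.sk (T.ls (nat_lit 3) (nat_lit 4))))) (T.tp (T.sk (T.ls (nat_lit 3) (nat_lit 4))))) (T.tp (T.sk (T.ls (nat_lit 3) (nat_lit 4))))) (T.tp (T.sk (T.ls (nat_lit 3) (nat_lit 4))))) (T.tp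 (T.sk (T.ls (nat_lit 3) (nat_lit 4))))) (T.tp (T.sk (T.ls (nat_lit 3) (nat_lit 4)))))))))) (T.ts (nat_lit 1) (T.ts (nat_lit 3) (T.ls (nat_lit 3) (nat_lit 4)) (T.ts (nat_lit 2) (T.ls (nat_lit 3) (nat_lit 4)) (T.ts (nat_lit 1) (T.ls (nat_lit 3) (nat_lit 4)) (T.ts (nat_lit 0) (T.im (nat_lit 5) (nat_lit 3)) (T.nw (T.ts (nat_lit 4) (T.ts (nat_lit 3) (T.ts (nat_lit 2) (T.ts (nat_lit 4) (T.ts (nat_lit 1) (T.ts (nat_lit 2) (T.ts (nat_lit 1) (T.ts (nat_lit 1) (T.l1 (nat_lit 12300) (nat_lit 3) (nat_lit 20500)) (T.tp (T.sk (T.ls (nat_lit 3) (nat_lit 4))))) (T.tp (T.sk (T.ls (nat_lit 3) (nat_lit 4))))) (T.tp (T.sk (T.ls (nat_lit 3) (nat_lit 4))))) (T.tp (T.sk (T.ls (nat_lit 3) (nat_lit 4))))) (T.tp (T.sk (T.ls (nat_lit 3) (nat_lit 4))))) (T.tp (T.sk (T.ls (nat_lit 3) (nat_lit 4))))) (T.tp (T.sk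 (T.ls (nat_lit 3) (nat_lit 4))))) (T.tp (T.sk (T.ls (nat_lit 3) (nat_lit 4)))))))))) (T.ts (nat_lit 0) (T.im (nat_lit 7) (nat_lit 1)) (T.nw d493))))
def d495 : T := (T.ts (nat_lit 3) (T.ts (nat_lit 3) (T.ls (nat_lit 3) (nat_lit 4)) (T.ts (nat_lit 2) (T.ts (nat_lit 3) (T.ls (nat_lit 3) (nat_lit 4)) (T.ts (nat_lit 1) (T.ts (nat_lit 3) (T.ts (nat_lit 0) (T.ts (nat_lit 1) (T.l1 (nat_lit 12300) (nat_lit 4) (nat_lit 20500)) (T.tp (T.sk (T.ls (nat_lit 3) (nat_lit 4))))) (T.tp (T.sk (T.ls (nat_lit 3) (nat_lit 4))))) (T.tp (T.sk (T.ls (nat_lit 3) (nat_lit 4))))) (T.tp (T.sk (T.ls (nat_lit 3) (nat_lit 4)))))) (T.ts (nat_lit 1) (T.ls (nat_lit 3) (nat_lit 4)) (T.ts (nat_lit 0) (T.im (nat_lit 7) (nat_lit 2)) (T.nw (T.ts (nat_lit 4) (T.ts (nat_lit 3) (T.ts (nat_lit 2) (T.ts (nat_lit 4) (T.ts (nat_lit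 1) (T.ts (nat_lit 2) (T.ts (nat_lit 1) (T.ts (nat_lit 1) (T.l1 (nat_lit 12300) (nat_lit 3) (nat_lit 20500)) (T.tp (T.sk (T.ls (nat_lit 3) (nat_lit 4))))) (T.tp (T.sk (T.ls (nat_lit 3) (nat_lit 4))))) (T.tp (T.sk (T.ls (nat_lit 3) (nat_lit 4))))) (T.tp (T.sk (T.ls (nat_lit 3) (nat_lit 4))))) (T.tp (T.sk (T.ls (nat_lit 3) (nat_lit 4))))) (T.tp (T.sk (T.ls (nat_lit 3) (nat_lit 4))))) (T.tp (T.sk (T.ls (nat_lit 3) (nat_lit 4))))) (T.tp (T.sk (T.ls (nat_lit 3) (nat_lit 4)))))))))) d494)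
def d496 : T := (T.ts (nat_lit 4) (T.ls (nat_lit 3) (nat_lit 4)) (T.ts (nat_lit 3) (T.ts (nat_lit 4) (T.ls (nat_lit 3) (nat_lit 4)) (T.ts (nat_lit 2) (T.ts (nat_lit 4) (T.ts (nat_lit 1) (T.ts (nat_lit 2) (T.l1 (nat_lit 12300) (nat_lit 3) (nat_lit 20500)) (T.tp (T.sk (T.ls (nat_lit 3) (nat_lit 4))))) (T.tp (T.sk (T.ls (nat_lit 3) (nat_lit 4))))) (T.tp (T.sk (T.ls (nat_lit 3) (nat_lit 4))))) (T.tp (T.sk (T.ls (nat_lit 3) (nat_lit 4)))))) (T.ts (nat_lit 2) (T.ls (nat_lit 3) (nat_lit 4)) (T.ts (nat_lit 1) (T.ts (nat_lit 4) (T.ts (nat_lit 3) (T.ts (nat_lit 2) (T.ts (nat_lit 4) (T.ts (nat_lit 1) (T.ts (nat_lit 2) (T.ts (nat_lit 1) (T.ts (nat_lit 0) (T.l1 (nat_lit 12300) (nat_lit 4) (nat_lit 20500)) (T.tp (T.sk (T.ls (nat_lit 3) (nat_lit 4))))) (T.tp (T.sk (T.ls (nat_lit 3) (nat_lit 4)))))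 (T.tp (T.sk (T.ls (nat_lit 3) (nat_lit 4))))) (T.tp (T.sk (T.ls (nat_lit 3) (nat_lit 4))))) (T.tp (T.sk (T.ls (nat_lit 3) (nat_lit 4))))) (T.tp (T.sk (T.ls (nat_lit 3) (nat_lit 4))))) (T.tp (T.sk (T.ls (nat_lit 3) (nat_lit 4))))) (T.tp (T.sk (T.ls (nat_lit 3) (nat_lit 4))))) (T.tp (T.ts (nat_lit 0) (T.im (nat_lit 7) (nat_lit 2)) T.ie))))))
def d497 : T := (T.ts (nat_lit 4) (T.tp (T.ts (nat_lit 3) (T.ts (nat_lit 2) (T.ts (nat_lit 4) (T.ts (nat_lit 1) (T.ts (nat_lit 2) (T.ts (nat_lit 1) (T.im (nat_lit 13) (nat_lit 2)) (T.sk (T.ls (nat_lit 3) (nat_lit 4)))) (T.sk (T.ls (nat_lit 3) (nat_lit 4)))) (T.sk (T.ls (nat_lit 3) (nat_lit 4)))) (T.sk (T.ls (nat_lit 3) (nat_lit 4)))) (T.sk (T.ls (nat_lit 3) (nat_lit 4)))) (T.sk (T.ls (nat_lit 3) (nat_lit 4))))) (T.ts (nat_lit 3) (T.ls (nat_lit 3)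 (nat_lit 4)) (T.ts (nat_lit 2) (T.ls (nat_lit 3) (nat_lit 4)) (T.ts (nat_lit 1) (T.ts (nat_lit 4) (T.ts (nat_lit 3) (T.ts (nat_lit 2) (T.ts (nat_lit 4) (T.ts (nat_lit 1) (T.ts (nat_lit 2) (T.ts (nat_lit 1) (T.ts (nat_lit 0) (T.l1 (nat_lit 12300) (nat_lit 4) (nat_lit 20500)) (T.tp (T.sk (T.ls (nat_lit 3) (nat_lit 4))))) (T.tp (T.sk (T.ls (nat_lit 3) (nat_lit 4))))) (T.tp (T.sk (T.ls (nat_lit 3) (nat_lit 4))))) (T.tp (T.sk (T.ls (nat_lit 3) (nat_lit 4))))) (T.tp (T.sk (T.ls (nat_lit 3) (nat_lit 4))))) (T.tp (T.sk (T.ls (nat_lit 3) (nat_lit 4))))) (T.tp (T.sk (T.ls (nat_lit 3) (nat_lit 4))))) (T.tp (T.sk (T.ls (nat_lit 3) (nat_lit 4))))) (T.tp (T.ts (nat_lit 0) (T.im (nat_lit 7) (nat_lit 2)) T.ie))))))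
def d498 : T := (T.ts (nat_lit 4) d496 (T.ts (nat_lit 3) (T.ts (nat_lit 4) (T.ls (nat_lit 3) (nat_lit 4)) (T.ts (nat_lit 3) (T.ls (nat_lit 3) (nat_lit 4)) (T.ts (nat_lit 2) (T.ls (nat_lit 3) (nat_lit 4)) (T.ts (nat_lit 1) (T.ts (nat_lit 4) (T.ts (nat_lit 3) (T.ts (nat_lit 2) (T.ts (nat_lit 4) (T.ts (nat_lit 1) (T.ts (nat_lit 2) (T.ts (nat_lit 1) (T.ts (nat_lit 0) (T.l1 (nat_lit 12300) (nat_lit 4) (nat_lit 20500)) (T.sk (T.lf (nat_lit 16076) (nat_lit 3) (nat_lit 11478) (nat_lit 4) (nat_lit 20500)))) (T.sk (T.lf (nat_lit 16076) (nat_lit 3) (nat_lit 11478) (nat_lit 4) (nat_lit 20500)))) (T.sk (T.lf (nat_lit 18638) (nat_lit 3) (nat_lit 15748) (nat_lit 4) (nat_lit 20500)))) (T.sk (T.lf (nat_lit 18638) (nat_lit 3) (nat_lit 15748) (nat_lit 4) (nat_lit 20500)))) (T.tp (T.sk (T.ls (nat_lit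 3) (nat_lit 4))))) (T.tp (T.sk (T.ls (nat_lit 3) (nat_lit 4))))) (T.tp (T.sk (T.ls (nat_lit 3) (nat_lit 4))))) (T.tp (T.sk (T.ls (nat_lit 3) (nat_lit 4))))) (T.tp (T.ts (nat_lit 0) (T.im (nat_lit 7) (nat_lit 2)) T.ie)))))) (T.ts (nat_lit 2) (T.tp (T.ts (nat_lit 4) (T.ls (nat_lit 3) (nat_lit 4)) (T.ts (nat_lit 3) (T.ls (nat_lit 3) (nat_lit 4)) (T.ts (nat_lit 2) (T.ls (nat_lit 3) (nat_lit 4)) (T.ts (nat_lit 1) (T.im (nat_lit 5) (nat_lit 3)) (T.ts (nat_lit 0) (T.im (nat_lit 7) (nat_lit 2)) T.ie)))))) (T.ts (nat_lit 1) d497 (T.tp (T.ts (nat_lit 0) (T.im (nat_lit 7) (nat_lit 1)) T.ie))))))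
def d499 : T := (T.ts (nat_lit 3) d488 (T.ts (nat_lit 2) (T.ts (nat_lit 3) (T.ts (nat_lit 3) (T.ls (nat_lit 3) (nat_lit 4)) (T.ts (nat_lit 1) (T.ls (nat_lit 3) (nat_lit 4)) d489)) d492) (T.ts (nat_lit 0) d495 (T.ts (nat_lit 1) (T.im (nat_lit 5) (nat_lit 2)) (T.nw d498)))))
def d500 : T := (T.ts (nat_lit 1) (T.ts (nat_lit 4) (T.ts (nat_lit 3) (T.ts (nat_lit 2) (T.ts (nat_lit 4) (T.ts (nat_lit 1) (T.ts (nat_lit 2) (T.ts (nat_lit 0) (T.ts (nat_lit 4) (T.l1 (nat_lit 12300) (nat_lit 4) (nat_lit 20500)) (T.tp (T.sk (T.ls (nat_lit 3) (nat_lit 4))))) (T.tp (T.sk (T.ls (nat_lit 3) (nat_lit 4))))) (T.tp (T.sk (T.ls (nat_lit 3) (nat_lit 4))))) (T.tp (T.sk (T.ls (nat_lit 3) (nat_lit 4))))) (T.tp (T.sk (T.ls (nat_lit 3) (nat_lit 4))))) (T.tp (T.sk (T.ls (nat_lit 3) (nat_lit 4))))) (T.tp (T.sk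 (T.ls (nat_lit 3) (nat_lit 4))))) (T.tp (T.sk (T.ls (nat_lit 3) (nat_lit 4))))) (T.ts (nat_lit 0) (T.ts (nat_lit 4) (T.ts (nat_lit 3) (T.ts (nat_lit 2) (T.ts (nat_lit 4) (T.ts (nat_lit 1) (T.ts (nat_lit 2) (T.ts (nat_lit 0) (T.ts (nat_lit 4) (T.l1 (nat_lit 12300) (nat_lit 3) (nat_lit 20500)) (T.tp (T.sk (T.ls (nat_lit 3) (nat_lit 4))))) (T.tp (T.sk (T.ls (nat_lit 3) (nat_lit 4))))) (T.tp (T.sk (T.ls (nat_lit 3) (nat_lit 4))))) (T.tp (T.sk (T.ls (nat_lit 3) (nat_lit 4))))) (T.tp (T.sk (T.ls (nat_lit 3) (nat_lit 4))))) (T.tp (T.sk (T.ls (nat_lit 3) (nat_lit 4))))) (T.tp (T.sk (T.ls (nat_lit 3) (nat_lit 4))))) (T.tp (T.sk (T.ls (nat_lit 3) (nat_lit 4))))) (T.tp (T.ts (nat_lit 4) (T.im (nat_lit 7) (nat_lit 2)) (T.ts (nat_lit 2) (T.im (nat_lit 3) (nat_lit 4)) T.ie)))))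
def d501 : T := (T.ts (nat_lit 1) (T.ts (nat_lit 4) (T.ts (nat_lit 3) (T.ts (nat_lit 2) (T.ts (nat_lit 4) (T.ts (nat_lit 1) (T.ts (nat_lit 2) (T.ts (nat_lit 0) (T.ts (nat_lit 4) (T.l1 (nat_lit 12300) (nat_lit 4) (nat_lit 20500)) (T.tp (T.sk (T.ls (nat_lit 3) (nat_lit 4))))) (T.tp (T.sk (T.ls (nat_lit 3) (nat_lit 4))))) (T.tp (T.sk (T.ls (nat_lit 3) (nat_lit 4))))) (T.tp (T.sk (T.ls (nat_lit 3) (nat_lit 4))))) (T.tp (T.sk (T.ls (nat_lit 3) (nat_lit 4))))) (T.tp (T.sk (T.ls (nat_lit 3) (nat_lit 4))))) (T.tp (T.sk (T.ls (nat_lit 3) (nat_lit 4))))) (T.tp (T.sk (T.ls (nat_lit 3) (nat_lit 4))))) (T.ts (nat_lit 0) (T.ts (nat_lit 4) (T.ts (nat_lit 3) (T.ts (nat_lit 2) (T.ts (nat_lit 4) (T.ts (nat_lit 1) (T.ts (nat_lit 2) (T.ts (nat_lit 0) (T.ts (nat_lit 4) (T.l1 (nat_lit 12300) (nat_lit 3)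 (nat_lit 20500)) (T.tp (T.sk (T.ls (nat_lit 3) (nat_lit 4))))) (T.tp (T.sk (T.ls (nat_lit 3) (nat_lit 4))))) (T.tp (T.sk (T.ls (nat_lit 3) (nat_lit 4))))) (T.tp (T.sk (T.ls (nat_lit 3) (nat_lit 4))))) (T.tp (T.sk (T.ls (nat_lit 3) (nat_lit 4))))) (T.tp (T.sk (T.ls (nat_lit 3) (nat_lit 4))))) (T.tp (T.sk (T.ls (nat_lit 3) (nat_lit 4))))) (T.tp (T.sk (T.ls (nat_lit 3) (nat_lit 4))))) (T.tp (T.ts (nat_lit 4) (T.im (nat_lit 7) (nat_lit 2)) T.ie))))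
def d502 : T := (T.ts (nat_lit 3) (T.ts (nat_lit 3) (T.ls (nat_lit 3) (nat_lit 4)) (T.ts (nat_lit 2) (T.ts (nat_lit 4) (T.ts (nat_lit 1) (T.l1 (nat_lit 12300) (nat_lit 3) (nat_lit 20500)) (T.tp (T.sk (T.ls (nat_lit 3) (nat_lit 4))))) (T.tp (T.sk (T.ls (nat_lit 3) (nat_lit 4))))) (T.tp (T.ts (nat_lit 1) (T.ts (nat_lit 4) (T.ts (nat_lit 3) (T.im (nat_lit 7) (nat_lit 3)) (T.sk (T.ls (nat_lit 3) (nat_lit 4)))) (T.sk (T.ls (nat_lit 3) (nat_lit 4)))) (T.ts (nat_lit 0) (T.ts (nat_lit 4) (T.ts (nat_lit 3) (T.im (nat_lit 7) (nat_lit 3)) (T.sk (T.ls (nat_lit 3) (nat_lit 4)))) (T.sk (T.ls (nat_lit 3) (nat_lit 4)))) (T.ts (nat_lit 4) (T.im (nat_lit 7) (nat_lit 2)) T.ie)))))) (T.ts (nat_lit 2) (T.ts (nat_lit 3) (T.ls (nat_lit 3) (nat_lit 4)) (T.ts (nat_lit 2) (T.ls (nat_lit 3) (nat_lit 4)) (T.ts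 (nat_lit 1) (T.ts (nat_lit 4) (T.ts (nat_lit 3) (T.ts (nat_lit 2) (T.ts (nat_lit 4) (T.ts (nat_lit 1) (T.ts (nat_lit 2) (T.ts (nat_lit 0) (T.ts (nat_lit 4) (T.l1 (nat_lit 12300) (nat_lit 4) (nat_lit 20500)) (T.tp (T.sk (T.ls (nat_lit 3) (nat_lit 4))))) (T.tp (T.sk (T.ls (nat_lit 3) (nat_lit 4))))) (T.tp (T.sk (T.ls (nat_lit 3) (nat_lit 4))))) (T.tp (T.sk (T.ls (nat_lit 3) (nat_lit 4))))) (T.tp (T.sk (T.ls (nat_lit 3) (nat_lit 4))))) (T.tp (T.sk (T.ls (nat_lit 3) (nat_lit 4))))) (T.tp (T.sk (T.ls (nat_lit 3) (nat_lit 4))))) (T.tp (T.sk (T.ls (nat_lit 3) (nat_lit 4))))) (T.tp (T.ts (nat_lit 4) (T.im (nat_lit 7) (nat_lit 2)) (T.ts (nat_lit 0) (T.im (nat_lit 5) (nat_lit 3)) T.ie)))))) (T.ts (nat_lit 1) (T.ts (nat_lit 3) (T.ls (nat_lit 3) (nat_lit 4)) d500) (T.ts (nat_lit 0) (T.ts (nat_lit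 3) (T.ls (nat_lit 3) (nat_lit 4)) (T.ts (nat_lit 2) (T.ls (nat_lit 3) (nat_lit 4)) d501)) (T.tp (T.ts (nat_lit 4) (T.im (nat_lit 7) (nat_lit 1)) T.ie))))))
def d503 : T := (T.ts (nat_lit 1) (T.ts (nat_lit 4) (T.ts (nat_lit 3) (T.ts (nat_lit 2) (T.ts (nat_lit 4) (T.ts (nat_lit 1) (T.ts (nat_lit 2) (T.ts (nat_lit 0) (T.ts (nat_lit 3) (T.l1 (nat_lit 12300) (nat_lit 4) (nat_lit 20500)) (T.tp (T.sk (T.ls (nat_lit 3) (nat_lit 4))))) (T.tp (T.sk (T.ls (nat_lit 3) (nat_lit 4))))) (T.tp (T.sk (T.ls (nat_lit 3) (nat_lit 4))))) (T.tp (T.sk (T.ls (nat_lit 3) (nat_lit 4))))) (T.tp (T.sk (T.ls (nat_lit 3) (nat_lit 4))))) (T.tp (T.sk (T.ls (nat_lit 3) (nat_lit 4))))) (T.tp (T.sk (T.ls (nat_lit 3) (nat_lit 4))))) (T.tp (T.sk (T.ls (nat_lit 3) (nat_lit 4))))) (T.ts (nat_lit 0) (T.ts (nat_lit 4) (T.ts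 (nat_lit 3) (T.ts (nat_lit 2) (T.ts (nat_lit 4) (T.ts (nat_lit 1) (T.ts (nat_lit 2) (T.ts (nat_lit 0) (T.ts (nat_lit 3) (T.l1 (nat_lit 12300) (nat_lit 3) (nat_lit 20500)) (T.tp (T.sk (T.ls (nat_lit 3) (nat_lit 4))))) (T.tp (T.sk (T.ls (nat_lit 3) (nat_lit 4))))) (T.tp (T.sk (T.ls (nat_lit 3) (nat_lit 4))))) (T.tp (T.sk (T.ls (nat_lit 3) (nat_lit 4))))) (T.tp (T.sk (T.ls (nat_lit 3) (nat_lit 4))))) (T.tp (T.sk (T.ls (nat_lit 3) (nat_lit 4))))) (T.tp (T.sk (T.ls (nat_lit 3) (nat_lit 4))))) (T.tp (T.sk (T.ls (nat_lit 3) (nat_lit 4))))) (T.tp (T.ts (nat_lit 3) (T.im (nat_lit 7) (nat_lit 2)) T.ie))))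
def d504 : T := (T.ts (nat_lit 1) (T.ts (nat_lit 4) (T.ts (nat_lit 3) (T.ts (nat_lit 2) (T.ts (nat_lit 4) (T.ts (nat_lit 1) (T.ts (nat_lit 2) (T.ts (nat_lit 0) (T.ts (nat_lit 3) (T.l1 (nat_lit 12300) (nat_lit 4) (nat_lit 20500)) (T.tp (T.sk (T.ls (nat_lit 3) (nat_lit 4))))) (T.tp (T.sk (T.ls (nat_lit 3) (nat_lit 4))))) (T.tp (T.sk (T.ls (nat_lit 3) (nat_lit 4))))) (T.tp (T.sk (T.ls (nat_lit 3) (nat_lit 4))))) (T.tp (T.sk (T.ls (nat_lit 3) (nat_lit 4))))) (T.tp (T.sk (T.ls (nat_lit 3) (nat_lit 4))))) (T.tp (T.sk (T.ls (nat_lit 3) (nat_lit 4))))) (T.tp (T.sk (T.ls (nat_lit 3) (nat_lit 4))))) (T.ts (nat_lit 0) (T.ts (nat_lit 4) (T.ts (nat_lit 3) (T.ts (nat_lit 2) (T.ts (nat_lit 4) (T.ts (nat_lit 1) (T.ts (nat_lit 2) (T.ts (nat_lit 0) (T.ts (nat_lit 3) (T.l1 (nat_lit 12300) (nat_lit 3)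 (nat_lit 20500)) (T.tp (T.sk (T.ls (nat_lit 3) (nat_lit 4))))) (T.tp (T.sk (T.ls (nat_lit 3) (nat_lit 4))))) (T.tp (T.sk (T.ls (nat_lit 3) (nat_lit 4))))) (T.tp (T.sk (T.ls (nat_lit 3) (nat_lit 4))))) (T.tp (T.sk (T.ls (nat_lit 3) (nat_lit 4))))) (T.tp (T.sk (T.ls (nat_lit 3) (nat_lit 4))))) (T.tp (T.sk (T.ls (nat_lit 3) (nat_lit 4))))) (T.tp (T.sk (T.ls (nat_lit 3) (nat_lit 4))))) (T.tp (T.ts (nat_lit 3) (T.im (nat_lit 7) (nat_lit 2)) T.ie))))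
def d505 : T := (T.ts (nat_lit 1) (T.ts (nat_lit 4) (T.ts (nat_lit 3) (T.ts (nat_lit 2) (T.ts (nat_lit 4) (T.ts (nat_lit 1) (T.ts (nat_lit 2) (T.ts (nat_lit 0) (T.ts (nat_lit 3) (T.l1 (nat_lit 12300) (nat_lit 4) (nat_lit 20500)) (T.tp (T.sk (T.ls (nat_lit 3) (nat_lit 4))))) (T.tp (T.sk (T.ls (nat_lit 3) (nat_lit 4))))) (T.tp (T.sk (T.ls (nat_lit 3) (nat_lit 4))))) (T.tp (T.sk (T.ls (nat_lit 3) (nat_lit 4))))) (T.tp (T.sk (T.ls (nat_lit 3) (nat_lit 4))))) (T.tp (T.sk (T.ls (nat_lit 3) (nat_lit 4))))) (T.tp (T.sk (T.ls (nat_lit 3) (nat_lit 4))))) (T.tp (T.sk (T.ls (nat_lit 3) (nat_lit 4))))) (T.ts (nat_lit 0) (T.ts (nat_lit 4) (T.ts (nat_lit 3) (T.ts (nat_lit 2) (T.ts (nat_lit 4) (T.ts (nat_lit 1) (T.ts (nat_lit 2) (T.ts (nat_lit 0) (T.ts (nat_lit 3) (T.l1 (nat_lit 12300) (nat_lit 3)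 (nat_lit 20500)) (T.tp (T.sk (T.ls (nat_lit 3) (nat_lit 4))))) (T.tp (T.sk (T.ls (nat_lit 3) (nat_lit 4))))) (T.tp (T.sk (T.ls (nat_lit 3) (nat_lit 4))))) (T.tp (T.sk (T.ls (nat_lit 3) (nat_lit 4))))) (T.tp (T.sk (T.ls (nat_lit 3) (nat_lit 4))))) (T.tp (T.sk (T.ls (nat_lit 3) (nat_lit 4))))) (T.tp (T.sk (T.ls (nat_lit 3) (nat_lit 4))))) (T.tp (T.sk (T.ls (nat_lit 3) (nat_lit 4))))) (T.tp (T.ts (nat_lit 3) (T.im (nat_lit 7) (nat_lit 2)) T.ie))))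
def d506 : T := (T.ts (nat_lit 1) (T.ts (nat_lit 4) (T.ts (nat_lit 3) (T.ts (nat_lit 2) (T.ts (nat_lit 4) (T.ts (nat_lit 1) (T.ts (nat_lit 2) (T.ts (nat_lit 0) (T.l1 (nat_lit 12300) (nat_lit 4) (nat_lit 20500)) (T.sk (T.lf (nat_lit 16076) (nat_lit 3) (nat_lit 11478) (nat_lit 4) (nat_lit 20500)))) (T.sk (T.lf (nat_lit 16076) (nat_lit 3) (nat_lit 11478) (nat_lit 4) (nat_lit 20500)))) (T.tp (T.sk (T.ls (nat_lit 3) (nat_lit 4))))) (T.tp (T.sk (T.ls (nat_lit 3) (nat_lit 4))))) (T.tp (T.sk (T.ls (nat_lit 3) (nat_lit 4))))) (T.tp (T.sk (T.ls (nat_lit 3) (nat_lit 4))))) (T.ts (nat_lit 2) (T.ls (nat_lit 3) (nat_lit 4)) d504)) (T.ts (nat_lit 0) (T.ts (nat_lit 4) (T.ts (nat_lit 3) (T.ts (nat_lit 2) (T.ts (nat_lit 4) (T.ts (nat_lit 1) (T.ts (nat_lit 2) (T.ts (nat_lit 0) (T.l1 (nat_lit 12300)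 (nat_lit 3) (nat_lit 20500)) (T.tp (T.sk (T.ls (nat_lit 3) (nat_lit 4))))) (T.tp (T.sk (T.ls (nat_lit 3) (nat_lit 4))))) (T.tp (T.sk (T.ls (nat_lit 3) (nat_lit 4))))) (T.tp (T.sk (T.ls (nat_lit 3) (nat_lit 4))))) (T.tp (T.sk (T.ls (nat_lit 3) (nat_lit 4))))) (T.tp (T.sk (T.ls (nat_lit 3) (nat_lit 4))))) (T.ts (nat_lit 2) (T.ls (nat_lit 3) (nat_lit 4)) d505)) (T.tp (T.ts (nat_lit 3) (T.im (nat_lit 7) (nat_lit 1)) T.ie))))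
def d507 : T := (T.ts (nat_lit 4) (T.ls (nat_lit 3) (nat_lit 4)) (T.ts (nat_lit 3) (T.ts (nat_lit 4) (T.ls (nat_lit 3) (nat_lit 4)) (T.ts (nat_lit 2) (T.ts (nat_lit 4) (T.ts (nat_lit 1) (T.ts (nat_lit 2) (T.l1 (nat_lit 12300) (nat_lit 4) (nat_lit 20500)) (T.tp (T.sk (T.ls (nat_lit 3) (nat_lit 4))))) (T.tp (T.sk (T.ls (nat_lit 3) (nat_lit 4))))) (T.tp (T.sk (T.ls (nat_lit 3) (nat_lit 4))))) (T.tp (T.sk (T.ls (nat_lit 3) (nat_lit 4)))))) (T.ts (nat_lit 2) (T.ls (nat_lit 3) (nat_lit 4)) (T.ts (nat_lit 0) (T.ts (nat_lit 4) (T.ts (nat_lit 3) (T.ts (nat_lit 2) (T.ts (nat_lit 4) (T.ts (nat_lit 1) (T.ts (nat_lit 2) (T.ts (nat_lit 0) (T.ts (nat_lit 1) (T.l1 (nat_lit 12300) (nat_lit 3) (nat_lit 20500)) (T.tp (T.sk (T.ls (nat_lit 3) (nat_lit 4))))) (T.tp (T.sk (T.ls (nat_lit 3) (nat_lit 4)))))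 (T.tp (T.sk (T.ls (nat_lit 3) (nat_lit 4))))) (T.tp (T.sk (T.ls (nat_lit 3) (nat_lit 4))))) (T.tp (T.sk (T.ls (nat_lit 3) (nat_lit 4))))) (T.tp (T.sk (T.ls (nat_lit 3) (nat_lit 4))))) (T.tp (T.sk (T.ls (nat_lit 3) (nat_lit 4))))) (T.tp (T.sk (T.ls (nat_lit 3) (nat_lit 4))))) (T.tp (T.ts (nat_lit 1) (T.im (nat_lit 7) (nat_lit 2)) T.ie))))))
def d508 : T := (T.ts (nat_lit 4) (T.ts (nat_lit 3) (T.ts (nat_lit 2) (T.ts (nat_lit 4) (T.ts (nat_lit 1) (T.ts (nat_lit 2) (T.ts (nat_lit 0) (T.l1 (nat_lit 12300) (nat_lit 3) (nat_lit 20500)) (T.tp (T.sk (T.ls (nat_lit 3) (nat_lit 4))))) (T.tp (T.sk (T.ls (nat_lit 3) (nat_lit 4))))) (T.tp (T.sk (T.ls (nat_lit 3) (nat_lit 4))))) (T.tp (T.sk (T.ls (nat_lit 3) (nat_lit 4))))) (T.tp (T.sk (T.ls (nat_lit 3) (nat_lit 4))))) (T.tp (T.sk (T.ls (nat_lit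 3) (nat_lit 4))))) (T.ts (nat_lit 3) (T.ls (nat_lit 3) (nat_lit 4)) (T.ts (nat_lit 2) (T.ls (nat_lit 3) (nat_lit 4)) (T.ts (nat_lit 0) (T.ts (nat_lit 4) (T.ts (nat_lit 3) (T.ts (nat_lit 2) (T.ts (nat_lit 4) (T.ts (nat_lit 1) (T.ts (nat_lit 2) (T.ts (nat_lit 0) (T.ts (nat_lit 1) (T.l1 (nat_lit 12300) (nat_lit 3) (nat_lit 20500)) (T.tp (T.sk (T.ls (nat_lit 3) (nat_lit 4))))) (T.tp (T.sk (T.ls (nat_lit 3) (nat_lit 4))))) (T.tp (T.sk (T.ls (nat_lit 3) (nat_lit 4))))) (T.tp (T.sk (T.ls (nat_lit 3) (nat_lit 4))))) (T.tp (T.sk (T.ls (nat_lit 3) (nat_lit 4))))) (T.tp (T.sk (T.ls (nat_lit 3) (nat_lit 4))))) (T.tp (T.sk (T.ls (nat_lit 3) (nat_lit 4))))) (T.tp (T.sk (T.ls (nat_lit 3) (nat_lit 4))))) (T.tp (T.ts (nat_lit 1) (T.im (nat_lit 7) (nat_lit 2)) T.ie))))))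
def d509 : T := (T.ts (nat_lit 4) d507 (T.ts (nat_lit 3) (T.ts (nat_lit 4) (T.ls (nat_lit 3) (nat_lit 4)) (T.ts (nat_lit 3) (T.ls (nat_lit 3) (nat_lit 4)) (T.ts (nat_lit 2) (T.ls (nat_lit 3) (nat_lit 4)) (T.ts (nat_lit 0) (T.ts (nat_lit 4) (T.ts (nat_lit 3) (T.ts (nat_lit 2) (T.ts (nat_lit 4) (T.ts (nat_lit 1) (T.ts (nat_lit 2) (T.ts (nat_lit 0) (T.ts (nat_lit 1) (T.l1 (nat_lit 12300) (nat_lit 3) (nat_lit 20500)) (T.sk (T.lf (nat_lit 16569) (nat_lit 3) (nat_lit 20500) (nat_lit 4) (nat_lit 12300)))) (T.sk (T.lf (nat_lit 16569) (nat_lit 3) (nat_lit 20500) (nat_lit 4) (nat_lit 12300)))) (T.sk (T.lf (nat_lit 19131) (nat_lit 3) (nat_lit 20500) (nat_lit 4) (nat_lit 16569)))) (T.sk (T.lf (nat_lit 19131) (nat_lit 3) (nat_lit 20500) (nat_lit 4) (nat_lit 16569)))) (T.tp (T.sk (T.lf (nat_lit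 20500) (nat_lit 3) (nat_lit 20500) (nat_lit 4) (nat_lit 19131))))) (T.tp (T.sk (T.lf (nat_lit 20500) (nat_lit 3) (nat_lit 20500) (nat_lit 4) (nat_lit 19131))))) (T.tp (T.sk (T.ls (nat_lit 3) (nat_lit 4))))) (T.tp (T.sk (T.ls (nat_lit 3) (nat_lit 4))))) (T.tp (T.ts (nat_lit 1) (T.im (nat_lit 7) (nat_lit 2)) T.ie)))))) (T.ts (nat_lit 2) (T.tp (T.ts (nat_lit 4) (T.ls (nat_lit 3) (nat_lit 4)) (T.ts (nat_lit 3) (T.ls (nat_lit 3) (nat_lit 4)) (T.ts (nat_lit 2) (T.ls (nat_lit 3) (nat_lit 4)) (T.ts (nat_lit 1) (T.im (nat_lit 7) (nat_lit 2)) (T.ts (nat_lit 0) (T.im (nat_lit 5) (nat_lit 3)) T.ie)))))) (T.ts (nat_lit 0) d508 (T.tp (T.ts (nat_lit 1) (T.im (nat_lit 7) (nat_lit 1)) T.ie))))))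
def d510 : T := (T.ts (nat_lit 4) (T.ls (nat_lit 3) (nat_lit 4)) (T.ts (nat_lit 3) (T.ts (nat_lit 4) (T.ls (nat_lit 3) (nat_lit 4)) (T.ts (nat_lit 2) (T.ts (nat_lit 4) (T.ts (nat_lit 1) (T.ts (nat_lit 2) (T.l1 (nat_lit 12300) (nat_lit 3) (nat_lit 20500)) (T.tp (T.sk (T.ls (nat_lit 3) (nat_lit 4))))) (T.tp (T.sk (T.ls (nat_lit 3) (nat_lit 4))))) (T.tp (T.sk (T.ls (nat_lit 3) (nat_lit 4))))) (T.tp (T.sk (T.ls (nat_lit 3) (nat_lit 4)))))) (T.ts (nat_lit 2) (T.ls (nat_lit 3) (nat_lit 4)) (T.ts (nat_lit 1) (T.ts (nat_lit 4) (T.ts (nat_lit 3) (T.ts (nat_lit 2) (T.ts (nat_lit 4) (T.ts (nat_lit 1) (T.ts (nat_lit 2) (T.ts (nat_lit 0) (T.ts (nat_lit 0) (T.l1 (nat_lit 12300) (nat_lit 4) (nat_lit 20500)) (T.tp (T.sk (T.ls (nat_lit 3) (nat_lit 4))))) (T.tp (T.sk (T.ls (nat_lit 3) (nat_lit 4)))))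 (T.tp (T.sk (T.ls (nat_lit 3) (nat_lit 4))))) (T.tp (T.sk (T.ls (nat_lit 3) (nat_lit 4))))) (T.tp (T.sk (T.ls (nat_lit 3) (nat_lit 4))))) (T.tp (T.sk (T.ls (nat_lit 3) (nat_lit 4))))) (T.tp (T.sk (T.ls (nat_lit 3) (nat_lit 4))))) (T.tp (T.sk (T.ls (nat_lit 3) (nat_lit 4))))) (T.tp (T.ts (nat_lit 0) (T.im (nat_lit 7) (nat_lit 2)) T.ie))))))
def d511 : T := (T.ts (nat_lit 4) (T.ts (nat_lit 3) (T.ts (nat_lit 2) (T.ts (nat_lit 4) (T.ts (nat_lit 1) (T.ts (nat_lit 2) (T.ts (nat_lit 0) (T.l1 (nat_lit 12300) (nat_lit 4) (nat_lit 20500)) (T.tp (T.sk (T.ls (nat_lit 3) (nat_lit 4))))) (T.tp (T.sk (T.ls (nat_lit 3) (nat_lit 4))))) (T.tp (T.sk (T.ls (nat_lit 3) (nat_lit 4))))) (T.tp (T.sk (T.ls (nat_lit 3) (nat_lit 4))))) (T.tp (T.sk (T.ls (nat_lit 3) (nat_lit 4))))) (T.tp (T.sk (T.ls (nat_lit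 3) (nat_lit 4))))) (T.ts (nat_lit 3) (T.ls (nat_lit 3) (nat_lit 4)) (T.ts (nat_lit 2) (T.ls (nat_lit 3) (nat_lit 4)) (T.ts (nat_lit 1) (T.ts (nat_lit 4) (T.ts (nat_lit 3) (T.ts (nat_lit 2) (T.ts (nat_lit 4) (T.ts (nat_lit 1) (T.ts (nat_lit 2) (T.ts (nat_lit 0) (T.ts (nat_lit 0) (T.l1 (nat_lit 12300) (nat_lit 4) (nat_lit 20500)) (T.tp (T.sk (T.ls (nat_lit 3) (nat_lit 4))))) (T.tp (T.sk (T.ls (nat_lit 3) (nat_lit 4))))) (T.tp (T.sk (T.ls (nat_lit 3) (nat_lit 4))))) (T.tp (T.sk (T.ls (nat_lit 3) (nat_lit 4))))) (T.tp (T.sk (T.ls (nat_lit 3) (nat_lit 4))))) (T.tp (T.sk (T.ls (nat_lit 3) (nat_lit 4))))) (T.tp (T.sk (T.ls (nat_lit 3) (nat_lit 4))))) (T.tp (T.sk (T.ls (nat_lit 3) (nat_lit 4))))) (T.tp (T.ts (nat_lit 0) (T.im (nat_lit 7) (nat_lit 2)) T.ie))))))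
def d512 : T := (T.ts (nat_lit 3) (T.ts (nat_lit 4) (T.ls (nat_lit 3) (nat_lit 4)) (T.ts (nat_lit 3) (T.ls (nat_lit 3) (nat_lit 4)) (T.ts (nat_lit 2) (T.ls (nat_lit 3) (nat_lit 4)) (T.ts (nat_lit 1) (T.ts (nat_lit 4) (T.ts (nat_lit 3) (T.ts (nat_lit 2) (T.ts (nat_lit 4) (T.ts (nat_lit 1) (T.ts (nat_lit 2) (T.ts (nat_lit 0) (T.ts (nat_lit 0) (T.l1 (nat_lit 12300) (nat_lit 4) (nat_lit 20500)) (T.sk (T.lf (nat_lit 16076) (nat_lit 3) (nat_lit 11478) (nat_lit 4) (nat_lit 20500)))) (T.sk (T.lf (nat_lit 16076) (nat_lit 3) (nat_lit 11478) (nat_lit 4) (nat_lit 20500)))) (T.tp (T.sk (T.ls (nat_lit 3) (nat_lit 4))))) (T.tp (T.sk (T.ls (nat_lit 3) (nat_lit 4))))) (T.tp (T.sk (T.ls (nat_lit 3) (nat_lit 4))))) (T.tp (T.sk (T.ls (nat_lit 3) (nat_lit 4))))) (T.tp (T.sk (T.ls (nat_lit 3) (nat_lit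 4))))) (T.tp (T.sk (T.ls (nat_lit 3) (nat_lit 4))))) (T.tp (T.ts (nat_lit 0) (T.im (nat_lit 7) (nat_lit 2)) T.ie)))))) (T.ts (nat_lit 2) (T.ts (nat_lit 4) (T.ls (nat_lit 3) (nat_lit 4)) (T.ts (nat_lit 3) (T.ls (nat_lit 3) (nat_lit 4)) (T.ts (nat_lit 2) (T.ls (nat_lit 3) (nat_lit 4)) (T.ts (nat_lit 1) (T.ts (nat_lit 4) (T.ts (nat_lit 3) (T.ts (nat_lit 2) (T.ts (nat_lit 4) (T.ts (nat_lit 1) (T.ts (nat_lit 2) (T.ts (nat_lit 0) (T.ts (nat_lit 0) (T.l1 (nat_lit 12300) (nat_lit 4) (nat_lit 20500)) (T.tp (T.sk (T.ls (nat_lit 3) (nat_lit 4))))) (T.tp (T.sk (T.ls (nat_lit 3) (nat_lit 4))))) (T.tp (T.sk (T.ls (nat_lit 3) (nat_lit 4))))) (T.tp (T.sk (T.ls (nat_lit 3) (nat_lit 4))))) (T.tp (T.sk (T.ls (nat_lit 3) (nat_lit 4))))) (T.tp (T.sk (T.ls (nat_lit 3) (nat_lit 4))))) (T.tp (T.sk (T.ls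 (nat_lit 3) (nat_lit 4))))) (T.tp (T.sk (T.ls (nat_lit 3) (nat_lit 4))))) (T.tp (T.ts (nat_lit 0) (T.im (nat_lit 5) (nat_lit 3)) T.ie)))))) (T.ts (nat_lit 1) d511 (T.tp (T.ts (nat_lit 0) (T.im (nat_lit 7) (nat_lit 1)) T.ie)))))
def d513 : T := (T.ts (nat_lit 3) (T.ts (nat_lit 4) (T.ts (nat_lit 4) (T.ls (nat_lit 3) (nat_lit 4)) (T.ts (nat_lit 2) (T.ls (nat_lit 3) (nat_lit 4)) d503)) (T.ts (nat_lit 2) (T.ts (nat_lit 4) (T.ls (nat_lit 3) (nat_lit 4)) (T.ts (nat_lit 2) (T.ls (nat_lit 3) (nat_lit 4)) (T.ts (nat_lit 1) (T.ts (nat_lit 4) (T.ts (nat_lit 3) (T.ts (nat_lit 2) (T.ts (nat_lit 4) (T.ts (nat_lit 1) (T.ts (nat_lit 2) (T.ts (nat_lit 0) (T.ts (nat_lit 3) (T.l1 (nat_lit 12300) (nat_lit 4) (nat_lit 20500)) (T.tp (T.sk (T.ls (nat_lit 3) (nat_lit 4))))) (T.tp (T.sk (T.ls (nat_lit 3) (nat_lit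 4))))) (T.tp (T.sk (T.ls (nat_lit 3) (nat_lit 4))))) (T.tp (T.sk (T.ls (nat_lit 3) (nat_lit 4))))) (T.tp (T.sk (T.ls (nat_lit 3) (nat_lit 4))))) (T.tp (T.sk (T.ls (nat_lit 3) (nat_lit 4))))) (T.tp (T.sk (T.ls (nat_lit 3) (nat_lit 4))))) (T.tp (T.sk (T.ls (nat_lit 3) (nat_lit 4))))) (T.tp (T.ts (nat_lit 3) (T.im (nat_lit 7) (nat_lit 2)) (T.ts (nat_lit 0) (T.im (nat_lit 5) (nat_lit 3)) T.ie)))))) d506)) (T.ts (nat_lit 1) d509 (T.ts (nat_lit 0) (T.ts (nat_lit 4) d510 d512) (T.tp (T.ts (nat_lit 2) (T.im (nat_lit 5) (nat_lit 2)) T.ie)))))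
def d514 : T := (T.ts (nat_lit 1) (T.im (nat_lit 5) (nat_lit 1)) (T.nw (T.ts (nat_lit 4) d502 d513)))
def d515 : T := (T.ts (nat_lit 0) (T.ts (nat_lit 3) (T.ts (nat_lit 2) (T.ts (nat_lit 1) (T.ts (nat_lit 3) (T.ts (nat_lit 0) (T.ts (nat_lit 0) (T.ts (nat_lit 3) (T.ts (nat_lit 3) (T.l1 (nat_lit 12300) (nat_lit 4) (nat_lit 20500)) (T.tp (T.sk (T.ls (nat_lit 3) (nat_lit 4))))) (T.tp (T.sk (T.ls (nat_lit 3) (nat_lit 4))))) (T.tp (T.sk (T.ls (nat_lit 3) (nat_lit 4))))) (T.tp (T.sk (T.ls (nat_lit 3) (nat_lit 4))))) (T.tp (T.sk (T.ls (nat_lit 3) (nat_lit 4))))) (T.tp (T.sk (T.ls (nat_lit 3) (nat_lit 4))))) (T.tp (T.sk (T.ls (nat_lit 3) (nat_lit 4))))) (T.tp (T.sk (T.ls (nat_lit 3) (nat_lit 4))))) (T.ts (nat_lit 3) (T.im (nat_lit 7) (nat_lit 2)) (T.nw (T.ts (nat_lit 4) (T.ts (nat_lit 3) (T.ts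 (nat_lit 2) (T.ts (nat_lit 4) (T.ts (nat_lit 1) (T.ts (nat_lit 1) (T.ts (nat_lit 4) (T.ts (nat_lit 4) (T.l1 (nat_lit 12300) (nat_lit 3) (nat_lit 20500)) (T.tp (T.sk (T.ls (nat_lit 3) (nat_lit 4))))) (T.tp (T.sk (T.ls (nat_lit 3) (nat_lit 4))))) (T.tp (T.sk (T.ls (nat_lit 3) (nat_lit 4))))) (T.tp (T.sk (T.ls (nat_lit 3) (nat_lit 4))))) (T.tp (T.sk (T.ls (nat_lit 3) (nat_lit 4))))) (T.tp (T.sk (T.ls (nat_lit 3) (nat_lit 4))))) (T.tp (T.sk (T.ls (nat_lit 3) (nat_lit 4))))) (T.tp (T.sk (T.ls (nat_lit 3) (nat_lit 4))))))))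
def d516 : T := (T.ts (nat_lit 1) (T.ts (nat_lit 4) (T.ts (nat_lit 3) (T.ts (nat_lit 2) (T.ts (nat_lit 4) (T.ts (nat_lit 1) (T.ts (nat_lit 1) (T.ts (nat_lit 4) (T.ts (nat_lit 4) (T.l1 (nat_lit 12300) (nat_lit 4) (nat_lit 20500)) (T.tp (T.sk (T.ls (nat_lit 3) (nat_lit 4))))) (T.tp (T.sk (T.ls (nat_lit 3) (nat_lit 4))))) (T.tp (T.sk (T.ls (nat_lit 3) (nat_lit 4))))) (T.tp (T.sk (T.ls (nat_lit 3) (nat_lit 4))))) (T.tp (T.sk (T.ls (nat_lit 3) (nat_lit 4))))) (T.tp (T.sk (T.ls (nat_lit 3) (nat_lit 4))))) (T.tp (T.sk (T.ls (nat_lit 3) (nat_lit 4))))) (T.tp (T.sk (T.ls (nat_lit 3) (nat_lit 4))))) (T.ts (nat_lit 0) (T.ts (nat_lit 4) (T.ts (nat_lit 3) (T.ts (nat_lit 2) (T.ts (nat_lit 4) (T.ts (nat_lit 1) (T.ts (nat_lit 1) (T.ts (nat_lit 4) (T.ts (nat_lit 4) (T.l1 (nat_lit 12300) (nat_lit 3)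 (nat_lit 20500)) (T.tp (T.sk (T.ls (nat_lit 3) (nat_lit 4))))) (T.tp (T.sk (T.ls (nat_lit 3) (nat_lit 4))))) (T.tp (T.sk (T.ls (nat_lit 3) (nat_lit 4))))) (T.tp (T.sk (T.ls (nat_lit 3) (nat_lit 4))))) (T.tp (T.sk (T.ls (nat_lit 3) (nat_lit 4))))) (T.tp (T.sk (T.ls (nat_lit 3) (nat_lit 4))))) (T.tp (T.sk (T.ls (nat_lit 3) (nat_lit 4))))) (T.tp (T.sk (T.ls (nat_lit 3) (nat_lit 4))))) (T.tp (T.ts (nat_lit 4) (T.im (nat_lit 7) (nat_lit 2)) T.ie))))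
def d517 : T := (T.ts (nat_lit 2) (T.tp (T.ts (nat_lit 2) (T.ls (nat_lit 3) (nat_lit 4)) (T.ts (nat_lit 1) (T.ls (nat_lit 3) (nat_lit 4)) (T.ts (nat_lit 0) (T.ts (nat_lit 3) (T.ts (nat_lit 2) (T.im (nat_lit 7) (nat_lit 3)) (T.sk (T.ls (nat_lit 3) (nat_lit 4)))) (T.sk (T.ls (nat_lit 3) (nat_lit 4)))) (T.ts (nat_lit 3) (T.im (nat_lit 7) (nat_lit 2)) (T.nw (T.ts (nat_lit 4) (T.ts (nat_lit 3) (T.im (nat_lit 7) (nat_lit 3)) (T.sk (T.ls (nat_lit 3) (nat_lit 4)))) (T.sk (T.ls (nat_lit 3) (nat_lit 4)))))))))) (T.ts (nat_lit 1) (T.ts (nat_lit 2) (T.ls (nat_lit 3) (nat_lit 4)) (T.ts (nat_lit 1) (T.ls (nat_lit 3) (nat_lit 4)) d515)) (T.ts (nat_lit 0) (T.ts (nat_lit 2) (T.ls (nat_lit 3) (nat_lit 4)) (T.ts (nat_lit 1) (T.ls (nat_lit 3) (nat_lit 4)) (T.ts (nat_lit 3) (T.im (nat_lit 5) (nat_lit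 3)) (T.ts (nat_lit 0) (T.im (nat_lit 3) (nat_lit 4)) (T.nw (T.ts (nat_lit 4) (T.ts (nat_lit 3) (T.ts (nat_lit 2) (T.ts (nat_lit 4) (T.ts (nat_lit 1) (T.ts (nat_lit 1) (T.ts (nat_lit 4) (T.ts (nat_lit 4) (T.l1 (nat_lit 12300) (nat_lit 3) (nat_lit 20500)) (T.tp (T.sk (T.ls (nat_lit 3) (nat_lit 4))))) (T.tp (T.sk (T.ls (nat_lit 3) (nat_lit 4))))) (T.tp (T.sk (T.ls (nat_lit 3) (nat_lit 4))))) (T.tp (T.sk (T.ls (nat_lit 3) (nat_lit 4))))) (T.tp (T.sk (T.ls (nat_lit 3) (nat_lit 4))))) (T.tp (T.sk (T.ls (nat_lit 3) (nat_lit 4))))) (T.tp (T.sk (T.ls (nat_lit 3) (nat_lit 4))))) (T.tp (T.sk (T.ls (nat_lit 3) (nat_lit 4)))))))))) (T.ts (nat_lit 3) (T.im (nat_lit 7) (nat_lit 1)) (T.nw (T.ts (nat_lit 3) (T.ls (nat_lit 3) (nat_lit 4)) (T.ts (nat_lit 2) (T.ls (nat_lit 3) (nat_lit 4)) d516)))))))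
def d518 : T := (T.ts (nat_lit 4) (T.tp (T.ts (nat_lit 3) (T.ts (nat_lit 2) (T.ts (nat_lit 4) (T.ts (nat_lit 1) (T.ts (nat_lit 1) (T.im (nat_lit 13) (nat_lit 1)) (T.sk (T.ls (nat_lit 3) (nat_lit 4)))) (T.sk (T.ls (nat_lit 3) (nat_lit 4)))) (T.sk (T.ls (nat_lit 3) (nat_lit 4)))) (T.sk (T.ls (nat_lit 3) (nat_lit 4)))) (T.sk (T.ls (nat_lit 3) (nat_lit 4))))) (T.ts (nat_lit 2) (T.ls (nat_lit 3) (nat_lit 4)) (T.ts (nat_lit 1) (T.tp (T.ts (nat_lit 4) (T.ts (nat_lit 3) (T.im (nat_lit 5) (nat_lit 4)) (T.sk (T.ls (nat_lit 3) (nat_lit 4)))) (T.sk (T.ls (nat_lit 3) (nat_lit 4))))) (T.ts (nat_lit 0) (T.ts (nat_lit 4) (T.ts (nat_lit 3) (T.ts (nat_lit 2) (T.ts (nat_lit 4) (T.ts (nat_lit 1) (T.ts (nat_lit 1) (T.ts (nat_lit 4) (T.ts (nat_lit 3) (T.l1 (nat_lit 12300) (nat_lit 3) (nat_lit 20500)) (T.tp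 (T.sk (T.ls (nat_lit 3) (nat_lit 4))))) (T.tp (T.sk (T.ls (nat_lit 3) (nat_lit 4))))) (T.tp (T.sk (T.ls (nat_lit 3) (nat_lit 4))))) (T.tp (T.sk (T.ls (nat_lit 3) (nat_lit 4))))) (T.tp (T.sk (T.ls (nat_lit 3) (nat_lit 4))))) (T.tp (T.sk (T.ls (nat_lit 3) (nat_lit 4))))) (T.tp (T.sk (T.ls (nat_lit 3) (nat_lit 4))))) (T.tp (T.sk (T.ls (nat_lit 3) (nat_lit 4))))) (T.tp (T.ts (nat_lit 3) (T.im (nat_lit 7) (nat_lit 2)) T.ie))))))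
def d519 : T := (T.ts (nat_lit 1) (T.ts (nat_lit 3) (T.l1 (nat_lit 12300) (nat_lit 4) (nat_lit 20500)) (T.ts (nat_lit 1) (T.ls (nat_lit 3) (nat_lit 4)) (T.ts (nat_lit 0) (T.tp (T.ts (nat_lit 3) (T.ts (nat_lit 2) (T.im (nat_lit 5) (nat_lit 4)) (T.sk (T.ls (nat_lit 3) (nat_lit 4)))) (T.sk (T.ls (nat_lit 3) (nat_lit 4))))) (T.ts (nat_lit 2) (T.im (nat_lit 7) (nat_lit 2)) (T.nw (T.ts (nat_lit 4) (T.ts (nat_lit 3) (T.ts (nat_lit 2) (T.ts (nat_lit 4) (T.ts (nat_lit 1) (T.ts (nat_lit 1) (T.ts (nat_lit 4) (T.ts (nat_lit 3) (T.l1 (nat_lit 12300) (nat_lit 3) (nat_lit 20500)) (T.tp (T.sk (T.ls (nat_lit 3) (nat_lit 4))))) (T.tp (T.sk (T.ls (nat_lit 3) (nat_lit 4))))) (T.tp (T.sk (T.ls (nat_lit 3) (nat_lit 4))))) (T.tp (T.sk (T.ls (nat_lit 3) (nat_lit 4))))) (T.tp (T.sk (T.ls (nat_lit 3) (nat_lit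 4))))) (T.tp (T.sk (T.ls (nat_lit 3) (nat_lit 4))))) (T.tp (T.sk (T.ls (nat_lit 3) (nat_lit 4))))) (T.tp (T.sk (T.ls (nat_lit 3) (nat_lit 4)))))))))) (T.ts (nat_lit 0) (T.ts (nat_lit 1) (T.ls (nat_lit 3) (nat_lit 4)) (T.ts (nat_lit 0) (T.tp (T.ts (nat_lit 3) (T.ts (nat_lit 2) (T.im (nat_lit 5) (nat_lit 4)) (T.sk (T.ls (nat_lit 3) (nat_lit 4)))) (T.sk (T.ls (nat_lit 3) (nat_lit 4))))) (T.ts (nat_lit 3) (T.im (nat_lit 5) (nat_lit 3)) (T.ts (nat_lit 2) (T.im (nat_lit 7) (nat_lit 2)) (T.nw (T.ts (nat_lit 4) (T.ts (nat_lit 3) (T.ts (nat_lit 2) (T.ts (nat_lit 4) (T.ts (nat_lit 1) (T.ts (nat_lit 1) (T.ts (nat_lit 4) (T.ts (nat_lit 3) (T.l1 (nat_lit 12300) (nat_lit 3) (nat_lit 20500)) (T.tp (T.sk (T.ls (nat_lit 3) (nat_lit 4))))) (T.tp (T.sk (T.ls (nat_lit 3) (nat_lit 4))))) (T.tp (T.sk (T.ls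 (nat_lit 3) (nat_lit 4))))) (T.tp (T.sk (T.ls (nat_lit 3) (nat_lit 4))))) (T.tp (T.sk (T.ls (nat_lit 3) (nat_lit 4))))) (T.tp (T.sk (T.ls (nat_lit 3) (nat_lit 4))))) (T.tp (T.sk (T.ls (nat_lit 3) (nat_lit 4))))) (T.tp (T.sk (T.ls (nat_lit 3) (nat_lit 4)))))))))) (T.ts (nat_lit 2) (T.im (nat_lit 7) (nat_lit 1)) (T.nw d518))))
def d520 : T := (T.ts (nat_lit 0) (T.ts (nat_lit 3) (T.ts (nat_lit 2) (T.ts (nat_lit 1) (T.ts (nat_lit 3) (T.ts (nat_lit 0) (T.ts (nat_lit 0) (T.ts (nat_lit 3) (T.ts (nat_lit 1) (T.l1 (nat_lit 12300) (nat_lit 4) (nat_lit 20500)) (T.tp (T.sk (T.ls (nat_lit 3) (nat_lit 4))))) (T.tp (T.sk (T.ls (nat_lit 3) (nat_lit 4))))) (T.tp (T.sk (T.ls (nat_lit 3) (nat_lit 4))))) (T.tp (T.sk (T.ls (nat_lit 3) (nat_lit 4))))) (T.tp (T.sk (T.ls (nat_lit 3) (nat_lit 4))))) (T.tp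 (T.sk (T.ls (nat_lit 3) (nat_lit 4))))) (T.tp (T.sk (T.ls (nat_lit 3) (nat_lit 4))))) (T.tp (T.sk (T.ls (nat_lit 3) (nat_lit 4))))) (T.ts (nat_lit 1) (T.im (nat_lit 7) (nat_lit 2)) (T.nw (T.ts (nat_lit 4) (T.ts (nat_lit 3) (T.ts (nat_lit 2) (T.ts (nat_lit 4) (T.ts (nat_lit 1) (T.ts (nat_lit 1) (T.ts (nat_lit 4) (T.ts (nat_lit 2) (T.l1 (nat_lit 12300) (nat_lit 3) (nat_lit 20500)) (T.tp (T.sk (T.ls (nat_lit 3) (nat_lit 4))))) (T.tp (T.sk (T.ls (nat_lit 3) (nat_lit 4))))) (T.tp (T.sk (T.ls (nat_lit 3) (nat_lit 4))))) (T.tp (T.sk (T.ls (nat_lit 3) (nat_lit 4))))) (T.tp (T.sk (T.ls (nat_lit 3) (nat_lit 4))))) (T.tp (T.sk (T.ls (nat_lit 3) (nat_lit 4))))) (T.tp (T.sk (T.ls (nat_lit 3) (nat_lit 4))))) (T.tp (T.sk (T.ls (nat_lit 3) (nat_lit 4))))))))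
def d521 : T := (T.ts (nat_lit 0) (T.ts (nat_lit 3) (T.ts (nat_lit 2) (T.ts (nat_lit 1) (T.ts (nat_lit 3) (T.ts (nat_lit 0) (T.ts (nat_lit 0) (T.ts (nat_lit 3) (T.ts (nat_lit 1) (T.l1 (nat_lit 12300) (nat_lit 4) (nat_lit 20500)) (T.sk (T.lf (nat_lit 16569) (nat_lit 3) (nat_lit 12300) (nat_lit 4) (nat_lit 20500)))) (T.sk (T.lf (nat_lit 16569) (nat_lit 3) (nat_lit 12300) (nat_lit 4) (nat_lit 20500)))) (T.tp (T.sk (T.ls (nat_lit 3) (nat_lit 4))))) (T.tp (T.sk (T.ls (nat_lit 3) (nat_lit 4))))) (T.tp (T.sk (T.ls (nat_lit 3) (nat_lit 4))))) (T.tp (T.sk (T.ls (nat_lit 3) (nat_lit 4))))) (T.tp (T.sk (T.ls (nat_lit 3) (nat_lit 4))))) (T.tp (T.sk (T.ls (nat_lit 3) (nat_lit 4))))) (T.ts (nat_lit 1) (T.im (nat_lit 7) (nat_lit 2)) (T.nw (T.ts (nat_lit 4) (T.ts (nat_lit 3) (T.ts (nat_lit 2) (T.ts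 (nat_lit 4) (T.ts (nat_lit 1) (T.ts (nat_lit 1) (T.ts (nat_lit 4) (T.ts (nat_lit 2) (T.l1 (nat_lit 12300) (nat_lit 3) (nat_lit 20500)) (T.sk (T.lf (nat_lit 16569) (nat_lit 3) (nat_lit 20500) (nat_lit 4) (nat_lit 12300)))) (T.sk (T.lf (nat_lit 16569) (nat_lit 3) (nat_lit 20500) (nat_lit 4) (nat_lit 12300)))) (T.tp (T.sk (T.ls (nat_lit 3) (nat_lit 4))))) (T.tp (T.sk (T.ls (nat_lit 3) (nat_lit 4))))) (T.tp (T.sk (T.ls (nat_lit 3) (nat_lit 4))))) (T.tp (T.sk (T.ls (nat_lit 3) (nat_lit 4))))) (T.tp (T.sk (T.ls (nat_lit 3) (nat_lit 4))))) (T.tp (T.sk (T.ls (nat_lit 3) (nat_lit 4))))))))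
def d522 : T := (T.ts (nat_lit 0) (T.ts (nat_lit 3) (T.ts (nat_lit 2) (T.ts (nat_lit 1) (T.ts (nat_lit 3) (T.ts (nat_lit 0) (T.ts (nat_lit 0) (T.ts (nat_lit 3) (T.ts (nat_lit 1) (T.l1 (nat_lit 12300) (nat_lit 4) (nat_lit 20500)) (T.tp (T.sk (T.ls (nat_lit 3) (nat_lit 4))))) (T.tp (T.sk (T.ls (nat_lit 3) (nat_lit 4))))) (T.tp (T.sk (T.ls (nat_lit 3) (nat_lit 4))))) (T.tp (T.sk (T.ls (nat_lit 3) (nat_lit 4))))) (T.tp (T.sk (T.ls (nat_lit 3) (nat_lit 4))))) (T.tp (T.sk (T.ls (nat_lit 3) (nat_lit 4))))) (T.tp (T.sk (T.ls (nat_lit 3) (nat_lit 4))))) (T.tp (T.sk (T.ls (nat_lit 3) (nat_lit 4))))) (T.ts (nat_lit 3) (T.im (nat_lit 5) (nat_lit 3)) (T.ts (nat_lit 1) (T.im (nat_lit 7) (nat_lit 2)) (T.nw (T.ts (nat_lit 4) (T.ts (nat_lit 3) (T.ts (nat_lit 2) (T.ts (nat_lit 4) (T.ts (nat_lit 1)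 (T.ts (nat_lit 1) (T.ts (nat_lit 4) (T.ts (nat_lit 2) (T.l1 (nat_lit 12300) (nat_lit 3) (nat_lit 20500)) (T.tp (T.sk (T.ls (nat_lit 3) (nat_lit 4))))) (T.tp (T.sk (T.ls (nat_lit 3) (nat_lit 4))))) (T.tp (T.sk (T.ls (nat_lit 3) (nat_lit 4))))) (T.tp (T.sk (T.ls (nat_lit 3) (nat_lit 4))))) (T.tp (T.sk (T.ls (nat_lit 3) (nat_lit 4))))) (T.tp (T.sk (T.ls (nat_lit 3) (nat_lit 4))))) (T.tp (T.sk (T.ls (nat_lit 3) (nat_lit 4))))) (T.tp (T.sk (T.ls (nat_lit 3) (nat_lit 4)))))))))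
def d523 : T := (T.ts (nat_lit 1) (T.ts (nat_lit 4) (T.ts (nat_lit 3) (T.ts (nat_lit 2) (T.ts (nat_lit 4) (T.ts (nat_lit 1) (T.ts (nat_lit 1) (T.ts (nat_lit 4) (T.ts (nat_lit 2) (T.l1 (nat_lit 12300) (nat_lit 4) (nat_lit 20500)) (T.tp (T.sk (T.ls (nat_lit 3) (nat_lit 4))))) (T.tp (T.sk (T.ls (nat_lit 3) (nat_lit 4))))) (T.tp (T.sk (T.ls (nat_lit 3) (nat_lit 4))))) (T.tp (T.sk (T.ls (nat_lit 3) (nat_lit 4))))) (T.tp (T.sk (T.ls (nat_lit 3) (nat_lit 4))))) (T.tp (T.sk (T.ls (nat_lit 3) (nat_lit 4))))) (T.tp (T.sk (T.ls (nat_lit 3) (nat_lit 4))))) (T.tp (T.sk (T.ls (nat_lit 3) (nat_lit 4))))) (T.ts (nat_lit 0) (T.ts (nat_lit 4) (T.ts (nat_lit 3) (T.ts (nat_lit 2) (T.ts (nat_lit 4) (T.ts (nat_lit 1) (T.ts (nat_lit 1) (T.ts (nat_lit 4) (T.ts (nat_lit 2) (T.l1 (nat_lit 12300) (nat_lit 3)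 (nat_lit 20500)) (T.tp (T.sk (T.ls (nat_lit 3) (nat_lit 4))))) (T.tp (T.sk (T.ls (nat_lit 3) (nat_lit 4))))) (T.tp (T.sk (T.ls (nat_lit 3) (nat_lit 4))))) (T.tp (T.sk (T.ls (nat_lit 3) (nat_lit 4))))) (T.tp (T.sk (T.ls (nat_lit 3) (nat_lit 4))))) (T.tp (T.sk (T.ls (nat_lit 3) (nat_lit 4))))) (T.tp (T.sk (T.ls (nat_lit 3) (nat_lit 4))))) (T.tp (T.sk (T.ls (nat_lit 3) (nat_lit 4))))) (T.tp (T.ts (nat_lit 2) (T.im (nat_lit 7) (nat_lit 2)) T.ie))))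
def d524 : T := (T.ts (nat_lit 4) (T.ls (nat_lit 3) (nat_lit 4)) (T.ts (nat_lit 3) (T.ts (nat_lit 4) (T.ls (nat_lit 3) (nat_lit 4)) (T.ts (nat_lit 2) (T.ts (nat_lit 4) (T.ts (nat_lit 1) (T.ts (nat_lit 1) (T.l1 (nat_lit 12300) (nat_lit 3) (nat_lit 20500)) (T.tp (T.sk (T.ls (nat_lit 3) (nat_lit 4))))) (T.tp (T.sk (T.ls (nat_lit 3) (nat_lit 4))))) (T.tp (T.sk (T.ls (nat_lit 3) (nat_lit 4))))) (T.tp (T.sk (T.ls (nat_lit 3) (nat_lit 4)))))) (T.ts (nat_lit 2) (T.ls (nat_lit 3) (nat_lit 4)) (T.ts (nat_lit 1) (T.ts (nat_lit 4) (T.ts (nat_lit 3) (T.ts (nat_lit 2) (T.ts (nat_lit 4) (T.ts (nat_lit 1) (T.ts (nat_lit 1) (T.ts (nat_lit 4) (T.ts (nat_lit 0) (T.l1 (nat_lit 12300) (nat_lit 4) (nat_lit 20500)) (T.tp (T.sk (T.ls (nat_lit 3) (nat_lit 4))))) (T.tp (T.sk (T.ls (nat_lit 3) (nat_lit 4)))))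 (T.tp (T.sk (T.ls (nat_lit 3) (nat_lit 4))))) (T.tp (T.sk (T.ls (nat_lit 3) (nat_lit 4))))) (T.tp (T.sk (T.ls (nat_lit 3) (nat_lit 4))))) (T.tp (T.sk (T.ls (nat_lit 3) (nat_lit 4))))) (T.tp (T.sk (T.ls (nat_lit 3) (nat_lit 4))))) (T.tp (T.sk (T.ls (nat_lit 3) (nat_lit 4))))) (T.tp (T.ts (nat_lit 0) (T.im (nat_lit 7) (nat_lit 2)) T.ie))))))
def d525 : T := (T.ts (nat_lit 2) (T.ts (nat_lit 4) (T.ls (nat_lit 3) (nat_lit 4)) (T.ts (nat_lit 3) (T.ls (nat_lit 3) (nat_lit 4)) (T.ts (nat_lit 2) (T.ls (nat_lit 3) (nat_lit 4)) (T.ts (nat_lit 1) (T.ts (nat_lit 4) (T.ts (nat_lit 3) (T.ts (nat_lit 2) (T.ts (nat_lit 4) (T.ts (nat_lit 1) (T.ts (nat_lit 1) (T.ts (nat_lit 4) (T.ts (nat_lit 0) (T.l1 (nat_lit 12300) (nat_lit 4) (nat_lit 20500)) (T.tp (T.sk (T.ls (nat_lit 3) (nat_lit 4))))) (T.tp (T.sk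 (T.ls (nat_lit 3) (nat_lit 4))))) (T.tp (T.sk (T.ls (nat_lit 3) (nat_lit 4))))) (T.tp (T.sk (T.ls (nat_lit 3) (nat_lit 4))))) (T.tp (T.sk (T.ls (nat_lit 3) (nat_lit 4))))) (T.tp (T.sk (T.ls (nat_lit 3) (nat_lit 4))))) (T.tp (T.sk (T.ls (nat_lit 3) (nat_lit 4))))) (T.tp (T.sk (T.ls (nat_lit 3) (nat_lit 4))))) (T.tp (T.ts (nat_lit 0) (T.im (nat_lit 7) (nat_lit 2)) T.ie)))))) (T.ts (nat_lit 1) (T.ts (nat_lit 3) (T.ls (nat_lit 3) (nat_lit 4)) (T.ts (nat_lit 2) (T.ls (nat_lit 3) (nat_lit 4)) (T.ts (nat_lit 1) (T.ts (nat_lit 4) (T.ts (nat_lit 3) (T.ts (nat_lit 2) (T.ts (nat_lit 4) (T.ts (nat_lit 1) (T.ts (nat_lit 1) (T.ts (nat_lit 4) (T.ts (nat_lit 0) (T.l1 (nat_lit 12300) (nat_lit 4) (nat_lit 20500)) (T.tp (T.sk (T.ls (nat_lit 3) (nat_lit 4))))) (T.tp (T.sk (T.ls (nat_lit 3) (nat_lit 4)))))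 (T.tp (T.sk (T.ls (nat_lit 3) (nat_lit 4))))) (T.tp (T.sk (T.ls (nat_lit 3) (nat_lit 4))))) (T.tp (T.sk (T.ls (nat_lit 3) (nat_lit 4))))) (T.tp (T.sk (T.ls (nat_lit 3) (nat_lit 4))))) (T.tp (T.sk (T.ls (nat_lit 3) (nat_lit 4))))) (T.tp (T.sk (T.ls (nat_lit 3) (nat_lit 4))))) (T.tp (T.ts (nat_lit 4) (T.im (nat_lit 5) (nat_lit 3)) (T.ts (nat_lit 0) (T.im (nat_lit 7) (nat_lit 2)) T.ie)))))) (T.tp (T.ts (nat_lit 0) (T.im (nat_lit 7) (nat_lit 1)) T.ie))))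
def d526 : T := (T.ts (nat_lit 1) (T.ts (nat_lit 3) (T.ts (nat_lit 3) (T.ls (nat_lit 3) (nat_lit 4)) (T.ts (nat_lit 2) (T.ls (nat_lit 3) (nat_lit 4)) d520)) (T.ts (nat_lit 2) (T.ts (nat_lit 3) (T.ls (nat_lit 3) (nat_lit 4)) (T.ts (nat_lit 2) (T.ls (nat_lit 3) (nat_lit 4)) d521)) (T.ts (nat_lit 0) (T.ts (nat_lit 2) (T.ls (nat_lit 3) (nat_lit 4)) d522) (T.ts (nat_lit 1) (T.im (nat_lit 7) (nat_lit 1)) (T.nw (T.ts (nat_lit 4) (T.tp (T.ts (nat_lit 3) (T.ts (nat_lit 2) (T.ts (nat_lit 4) (T.ts (nat_lit 1) (T.ts (nat_lit 1) (T.im (nat_lit 13) (nat_lit 1)) (T.sk (T.ls (nat_lit 3) (nat_lit 4)))) (T.sk (T.ls (nat_lit 3) (nat_lit 4)))) (T.sk (T.ls (nat_lit 3) (nat_lit 4)))) (T.sk (T.ls (nat_lit 3) (nat_lit 4)))) (T.sk (T.ls (nat_lit 3) (nat_lit 4))))) (T.ts (nat_lit 3) (T.ls (nat_lit 3) (nat_lit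 4)) d523))))))) (T.ts (nat_lit 0) (T.im (nat_lit 3) (nat_lit 3)) (T.nw (T.ts (nat_lit 4) d524 (T.ts (nat_lit 3) (T.ts (nat_lit 4) (T.ls (nat_lit 3) (nat_lit 4)) (T.ts (nat_lit 3) (T.ls (nat_lit 3) (nat_lit 4)) (T.ts (nat_lit 2) (T.ls (nat_lit 3) (nat_lit 4)) (T.ts (nat_lit 1) (T.ts (nat_lit 4) (T.ts (nat_lit 3) (T.ts (nat_lit 2) (T.ts (nat_lit 4) (T.ts (nat_lit 1) (T.ts (nat_lit 1) (T.ts (nat_lit 4) (T.ts (nat_lit 0) (T.l1 (nat_lit 12300) (nat_lit 4) (nat_lit 20500)) (T.sk (T.lf (nat_lit 16569) (nat_lit 3) (nat_lit 12300) (nat_lit 4) (nat_lit 20500)))) (T.sk (T.lf (nat_lit 16569) (nat_lit 3) (nat_lit 12300) (nat_lit 4) (nat_lit 20500)))) (T.tp (T.sk (T.ls (nat_lit 3) (nat_lit 4))))) (T.tp (T.sk (T.ls (nat_lit 3) (nat_lit 4))))) (T.tp (T.sk (T.ls (nat_lit 3) (nat_lit 4))))) (T.tp (T.sk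 (T.ls (nat_lit 3) (nat_lit 4))))) (T.tp (T.sk (T.ls (nat_lit 3) (nat_lit 4))))) (T.tp (T.sk (T.ls (nat_lit 3) (nat_lit 4))))) (T.tp (T.ts (nat_lit 0) (T.im (nat_lit 7) (nat_lit 2)) T.ie)))))) d525)))))
def d527 : T := (T.ts (nat_lit 3) d517 (T.ts (nat_lit 2) (T.ts (nat_lit 3) (T.ts (nat_lit 3) (T.ls (nat_lit 3) (nat_lit 4)) (T.ts (nat_lit 1) (T.ls (nat_lit 3) (nat_lit 4)) (T.ts (nat_lit 0) (T.tp (T.ts (nat_lit 3) (T.ts (nat_lit 2) (T.im (nat_lit 5) (nat_lit 4)) (T.sk (T.ls (nat_lit 3) (nat_lit 4)))) (T.sk (T.ls (nat_lit 3) (nat_lit 4))))) (T.ts (nat_lit 2) (T.im (nat_lit 7) (nat_lit 2)) (T.nw (T.ts (nat_lit 4) (T.ts (nat_lit 3) (T.ts (nat_lit 2) (T.ts (nat_lit 4) (T.ts (nat_lit 1) (T.ts (nat_lit 1) (T.ts (nat_lit 4) (T.ts (nat_lit 3) (T.l1 (nat_lit 12300) (nat_lit 3) (nat_lit 20500))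 (T.tp (T.sk (T.ls (nat_lit 3) (nat_lit 4))))) (T.tp (T.sk (T.ls (nat_lit 3) (nat_lit 4))))) (T.tp (T.sk (T.ls (nat_lit 3) (nat_lit 4))))) (T.tp (T.sk (T.ls (nat_lit 3) (nat_lit 4))))) (T.tp (T.sk (T.ls (nat_lit 3) (nat_lit 4))))) (T.tp (T.sk (T.ls (nat_lit 3) (nat_lit 4))))) (T.tp (T.sk (T.ls (nat_lit 3) (nat_lit 4))))) (T.tp (T.sk (T.ls (nat_lit 3) (nat_lit 4)))))))))) d519) d526))
def d528 : T := (T.ts (nat_lit 0) (T.ts (nat_lit 3) (T.ts (nat_lit 2) (T.ts (nat_lit 1) (T.ts (nat_lit 3) (T.ts (nat_lit 0) (T.ts (nat_lit 0) (T.ts (nat_lit 2) (T.ts (nat_lit 3) (T.l1 (nat_lit 12300) (nat_lit 4) (nat_lit 20500)) (T.tp (T.sk (T.ls (nat_lit 3) (nat_lit 4))))) (T.tp (T.sk (T.ls (nat_lit 3) (nat_lit 4))))) (T.tp (T.sk (T.ls (nat_lit 3) (nat_lit 4))))) (T.tp (T.sk (T.ls (nat_lit 3) (nat_lit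 4))))) (T.tp (T.sk (T.ls (nat_lit 3) (nat_lit 4))))) (T.tp (T.sk (T.ls (nat_lit 3) (nat_lit 4))))) (T.tp (T.sk (T.ls (nat_lit 3) (nat_lit 4))))) (T.tp (T.sk (T.ls (nat_lit 3) (nat_lit 4))))) (T.ts (nat_lit 3) (T.im (nat_lit 7) (nat_lit 2)) (T.nw (T.ts (nat_lit 4) (T.ts (nat_lit 3) (T.ts (nat_lit 2) (T.ts (nat_lit 4) (T.ts (nat_lit 1) (T.ts (nat_lit 1) (T.ts (nat_lit 3) (T.ts (nat_lit 4) (T.l1 (nat_lit 12300) (nat_lit 3) (nat_lit 20500)) (T.tp (T.sk (T.ls (nat_lit 3) (nat_lit 4))))) (T.tp (T.sk (T.ls (nat_lit 3) (nat_lit 4))))) (T.tp (T.sk (T.ls (nat_lit 3) (nat_lit 4))))) (T.tp (T.sk (T.ls (nat_lit 3) (nat_lit 4))))) (T.tp (T.sk (T.ls (nat_lit 3) (nat_lit 4))))) (T.tp (T.sk (T.ls (nat_lit 3) (nat_lit 4))))) (T.tp (T.sk (T.ls (nat_lit 3) (nat_lit 4))))) (T.tp (T.sk (T.ls (nat_lit 3)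 (nat_lit 4))))))))
def d529 : T := (T.ts (nat_lit 1) (T.ts (nat_lit 4) (T.ts (nat_lit 3) (T.ts (nat_lit 2) (T.ts (nat_lit 4) (T.ts (nat_lit 1) (T.ts (nat_lit 1) (T.ts (nat_lit 3) (T.ts (nat_lit 4) (T.l1 (nat_lit 12300) (nat_lit 4) (nat_lit 20500)) (T.tp (T.sk (T.ls (nat_lit 3) (nat_lit 4))))) (T.tp (T.sk (T.ls (nat_lit 3) (nat_lit 4))))) (T.tp (T.sk (T.ls (nat_lit 3) (nat_lit 4))))) (T.tp (T.sk (T.ls (nat_lit 3) (nat_lit 4))))) (T.tp (T.sk (T.ls (nat_lit 3) (nat_lit 4))))) (T.tp (T.sk (T.ls (nat_lit 3) (nat_lit 4))))) (T.tp (T.sk (T.ls (nat_lit 3) (nat_lit 4))))) (T.tp (T.sk (T.ls (nat_lit 3) (nat_lit 4))))) (T.ts (nat_lit 0) (T.ts (nat_lit 4) (T.ts (nat_lit 3) (T.ts (nat_lit 2) (T.ts (nat_lit 4) (T.ts (nat_lit 1) (T.ts (nat_lit 1) (T.ts (nat_lit 3) (T.ts (nat_lit 4) (T.l1 (nat_lit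 12300) (nat_lit 3) (nat_lit 20500)) (T.tp (T.sk (T.ls (nat_lit 3) (nat_lit 4))))) (T.tp (T.sk (T.ls (nat_lit 3) (nat_lit 4))))) (T.tp (T.sk (T.ls (nat_lit 3) (nat_lit 4))))) (T.tp (T.sk (T.ls (nat_lit 3) (nat_lit 4))))) (T.tp (T.sk (T.ls (nat_lit 3) (nat_lit 4))))) (T.tp (T.sk (T.ls (nat_lit 3) (nat_lit 4))))) (T.tp (T.sk (T.ls (nat_lit 3) (nat_lit 4))))) (T.tp (T.sk (T.ls (nat_lit 3) (nat_lit 4))))) (T.tp (T.ts (nat_lit 4) (T.im (nat_lit 7) (nat_lit 2)) T.ie))))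
def d530 : T := (T.ts (nat_lit 2) (T.tp (T.ts (nat_lit 2) (T.ls (nat_lit 3) (nat_lit 4)) (T.ts (nat_lit 1) (T.ls (nat_lit 3) (nat_lit 4)) (T.ts (nat_lit 0) (T.ts (nat_lit 3) (T.ts (nat_lit 2) (T.im (nat_lit 7) (nat_lit 3)) (T.sk (T.ls (nat_lit 3) (nat_lit 4)))) (T.sk (T.ls (nat_lit 3) (nat_lit 4)))) (T.ts (nat_lit 3) (T.im (nat_lit 7) (nat_lit 2)) (T.nw (T.ts (nat_lit 4) (T.ts (nat_lit 3) (T.im (nat_lit 7) (nat_lit 3)) (T.sk (T.ls (nat_lit 3) (nat_lit 4)))) (T.sk (T.ls (nat_lit 3) (nat_lit 4)))))))))) (T.ts (nat_lit 1) (T.ts (nat_lit 2) (T.ls (nat_lit 3) (nat_lit 4)) (T.ts (nat_lit 1) (T.ls (nat_lit 3) (nat_lit 4)) d528)) (T.ts (nat_lit 0) (T.ts (nat_lit 1) (T.ls (nat_lit 3) (nat_lit 4)) (T.ts (nat_lit 3) (T.im (nat_lit 7) (nat_lit 2)) (T.ts (nat_lit 2) (T.im (nat_lit 5) (nat_lit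 3)) (T.ts (nat_lit 0) (T.im (nat_lit 3) (nat_lit 4)) (T.nw (T.ts (nat_lit 4) (T.ts (nat_lit 3) (T.ts (nat_lit 2) (T.ts (nat_lit 4) (T.ts (nat_lit 1) (T.ts (nat_lit 1) (T.ts (nat_lit 3) (T.ts (nat_lit 4) (T.l1 (nat_lit 12300) (nat_lit 3) (nat_lit 20500)) (T.tp (T.sk (T.ls (nat_lit 3) (nat_lit 4))))) (T.tp (T.sk (T.ls (nat_lit 3) (nat_lit 4))))) (T.tp (T.sk (T.ls (nat_lit 3) (nat_lit 4))))) (T.tp (T.sk (T.ls (nat_lit 3) (nat_lit 4))))) (T.tp (T.sk (T.ls (nat_lit 3) (nat_lit 4))))) (T.tp (T.sk (T.ls (nat_lit 3) (nat_lit 4))))) (T.tp (T.sk (T.ls (nat_lit 3) (nat_lit 4))))) (T.tp (T.sk (T.ls (nat_lit 3) (nat_lit 4)))))))))) (T.ts (nat_lit 3) (T.im (nat_lit 7) (nat_lit 1)) (T.nw (T.ts (nat_lit 3) (T.ls (nat_lit 3) (nat_lit 4)) (T.ts (nat_lit 2) (T.ls (nat_lit 3) (nat_lit 4)) d529)))))))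
def d531 : T := (T.ts (nat_lit 0) (T.ts (nat_lit 3) (T.ts (nat_lit 2) (T.ts (nat_lit 1) (T.ts (nat_lit 3) (T.ts (nat_lit 0) (T.ts (nat_lit 0) (T.ts (nat_lit 2) (T.ts (nat_lit 2) (T.l1 (nat_lit 12300) (nat_lit 4) (nat_lit 20500)) (T.tp (T.sk (T.ls (nat_lit 3) (nat_lit 4))))) (T.tp (T.sk (T.ls (nat_lit 3) (nat_lit 4))))) (T.tp (T.sk (T.ls (nat_lit 3) (nat_lit 4))))) (T.tp (T.sk (T.ls (nat_lit 3) (nat_lit 4))))) (T.tp (T.sk (T.ls (nat_lit 3) (nat_lit 4))))) (T.tp (T.sk (T.ls (nat_lit 3) (nat_lit 4))))) (T.tp (T.sk (T.ls (nat_lit 3) (nat_lit 4))))) (T.tp (T.sk (T.ls (nat_lit 3) (nat_lit 4))))) (T.ts (nat_lit 2) (T.im (nat_lit 7) (nat_lit 2)) (T.nw (T.ts (nat_lit 4) (T.ts (nat_lit 3) (T.ts (nat_lit 2) (T.ts (nat_lit 4) (T.ts (nat_lit 1) (T.ts (nat_lit 1) (T.ts (nat_lit 3) (T.ts (nat_lit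 3) (T.l1 (nat_lit 12300) (nat_lit 3) (nat_lit 20500)) (T.tp (T.sk (T.ls (nat_lit 3) (nat_lit 4))))) (T.tp (T.sk (T.ls (nat_lit 3) (nat_lit 4))))) (T.tp (T.sk (T.ls (nat_lit 3) (nat_lit 4))))) (T.tp (T.sk (T.ls (nat_lit 3) (nat_lit 4))))) (T.tp (T.sk (T.ls (nat_lit 3) (nat_lit 4))))) (T.tp (T.sk (T.ls (nat_lit 3) (nat_lit 4))))) (T.tp (T.sk (T.ls (nat_lit 3) (nat_lit 4))))) (T.tp (T.sk (T.ls (nat_lit 3) (nat_lit 4))))))))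
def d532 : T := (T.ts (nat_lit 0) (T.ts (nat_lit 3) (T.ts (nat_lit 2) (T.ts (nat_lit 1) (T.ts (nat_lit 3) (T.ts (nat_lit 0) (T.ts (nat_lit 0) (T.ts (nat_lit 2) (T.ts (nat_lit 2) (T.l1 (nat_lit 12300) (nat_lit 4) (nat_lit 20500)) (T.tp (T.sk (T.ls (nat_lit 3) (nat_lit 4))))) (T.tp (T.sk (T.ls (nat_lit 3) (nat_lit 4))))) (T.tp (T.sk (T.ls (nat_lit 3) (nat_lit 4))))) (T.tp (T.sk (T.ls (nat_lit 3) (nat_lit 4))))) (T.tp (T.sk (T.ls (nat_lit 3) (nat_lit 4))))) (T.tp (T.sk (T.ls (nat_lit 3) (nat_lit 4))))) (T.tp (T.sk (T.ls (nat_lit 3) (nat_lit 4))))) (T.tp (T.sk (T.ls (nat_lit 3) (nat_lit 4))))) (T.ts (nat_lit 2) (T.im (nat_lit 7) (nat_lit 2)) (T.nw (T.ts (nat_lit 4) (T.ts (nat_lit 3) (T.ts (nat_lit 2) (T.ts (nat_lit 4) (T.ts (nat_lit 1) (T.ts (nat_lit 1) (T.ts (nat_lit 3) (T.ts (nat_lit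 3) (T.l1 (nat_lit 12300) (nat_lit 3) (nat_lit 20500)) (T.tp (T.sk (T.ls (nat_lit 3) (nat_lit 4))))) (T.tp (T.sk (T.ls (nat_lit 3) (nat_lit 4))))) (T.tp (T.sk (T.ls (nat_lit 3) (nat_lit 4))))) (T.tp (T.sk (T.ls (nat_lit 3) (nat_lit 4))))) (T.tp (T.sk (T.ls (nat_lit 3) (nat_lit 4))))) (T.tp (T.sk (T.ls (nat_lit 3) (nat_lit 4))))) (T.tp (T.sk (T.ls (nat_lit 3) (nat_lit 4))))) (T.tp (T.sk (T.ls (nat_lit 3) (nat_lit 4))))))))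
def d533 : T := (T.ts (nat_lit 0) (T.ts (nat_lit 3) (T.ts (nat_lit 2) (T.ts (nat_lit 1) (T.ts (nat_lit 3) (T.ts (nat_lit 0) (T.ts (nat_lit 0) (T.ts (nat_lit 2) (T.ts (nat_lit 2) (T.l1 (nat_lit 12300) (nat_lit 4) (nat_lit 20500)) (T.tp (T.sk (T.ls (nat_lit 3) (nat_lit 4))))) (T.tp (T.sk (T.ls (nat_lit 3) (nat_lit 4))))) (T.tp (T.sk (T.ls (nat_lit 3) (nat_lit 4))))) (T.tp (T.sk (T.ls (nat_lit 3) (nat_lit 4))))) (T.tp (T.sk (T.ls (nat_lit 3) (nat_lit 4))))) (T.tp (T.sk (T.ls (nat_lit 3) (nat_lit 4))))) (T.tp (T.sk (T.ls (nat_lit 3) (nat_lit 4))))) (T.tp (T.sk (T.ls (nat_lit 3) (nat_lit 4))))) (T.ts (nat_lit 2) (T.im (nat_lit 5) (nat_lit 3)) (T.nw (T.ts (nat_lit 4) (T.ts (nat_lit 3) (T.ts (nat_lit 2) (T.ts (nat_lit 4) (T.ts (nat_lit 1) (T.ts (nat_lit 1) (T.ts (nat_lit 3) (T.ts (nat_lit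 3) (T.l1 (nat_lit 12300) (nat_lit 3) (nat_lit 20500)) (T.tp (T.sk (T.ls (nat_lit 3) (nat_lit 4))))) (T.tp (T.sk (T.ls (nat_lit 3) (nat_lit 4))))) (T.tp (T.sk (T.ls (nat_lit 3) (nat_lit 4))))) (T.tp (T.sk (T.ls (nat_lit 3) (nat_lit 4))))) (T.tp (T.sk (T.ls (nat_lit 3) (nat_lit 4))))) (T.tp (T.sk (T.ls (nat_lit 3) (nat_lit 4))))) (T.tp (T.sk (T.ls (nat_lit 3) (nat_lit 4))))) (T.tp (T.sk (T.ls (nat_lit 3) (nat_lit 4))))))))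
def d534 : T := (T.ts (nat_lit 1) (T.ts (nat_lit 4) (T.ts (nat_lit 3) (T.ts (nat_lit 2) (T.ts (nat_lit 4) (T.ts (nat_lit 1) (T.ts (nat_lit 1) (T.ts (nat_lit 3) (T.ts (nat_lit 3) (T.l1 (nat_lit 12300) (nat_lit 4) (nat_lit 20500)) (T.tp (T.sk (T.ls (nat_lit 3) (nat_lit 4))))) (T.tp (T.sk (T.ls (nat_lit 3) (nat_lit 4))))) (T.tp (T.sk (T.ls (nat_lit 3) (nat_lit 4))))) (T.tp (T.sk (T.ls (nat_lit 3) (nat_lit 4))))) (T.tp (T.sk (T.ls (nat_lit 3) (nat_lit 4))))) (T.tp (T.sk (T.ls (nat_lit 3) (nat_lit 4))))) (T.tp (T.sk (T.ls (nat_lit 3) (nat_lit 4))))) (T.tp (T.sk (T.ls (nat_lit 3) (nat_lit 4))))) (T.ts (nat_lit 0) (T.ts (nat_lit 4) (T.ts (nat_lit 3) (T.ts (nat_lit 2) (T.ts (nat_lit 4) (T.ts (nat_lit 1) (T.ts (nat_lit 1) (T.ts (nat_lit 3) (T.ts (nat_lit 3) (T.l1 (nat_lit 12300) (nat_lit 3)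 (nat_lit 20500)) (T.tp (T.sk (T.ls (nat_lit 3) (nat_lit 4))))) (T.tp (T.sk (T.ls (nat_lit 3) (nat_lit 4))))) (T.tp (T.sk (T.ls (nat_lit 3) (nat_lit 4))))) (T.tp (T.sk (T.ls (nat_lit 3) (nat_lit 4))))) (T.tp (T.sk (T.ls (nat_lit 3) (nat_lit 4))))) (T.tp (T.sk (T.ls (nat_lit 3) (nat_lit 4))))) (T.tp (T.sk (T.ls (nat_lit 3) (nat_lit 4))))) (T.tp (T.sk (T.ls (nat_lit 3) (nat_lit 4))))) (T.tp (T.ts (nat_lit 3) (T.im (nat_lit 7) (nat_lit 2)) T.ie))))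
def d535 : T := (T.ts (nat_lit 0) (T.ts (nat_lit 3) (T.ts (nat_lit 2) (T.ts (nat_lit 1) (T.ts (nat_lit 3) (T.ts (nat_lit 0) (T.ts (nat_lit 0) (T.ts (nat_lit 2) (T.ts (nat_lit 1) (T.l1 (nat_lit 12300) (nat_lit 4) (nat_lit 20500)) (T.sk (T.lf (nat_lit 16569) (nat_lit 3) (nat_lit 12300) (nat_lit 4) (nat_lit 20500)))) (T.sk (T.lf (nat_lit 16569) (nat_lit 3) (nat_lit 12300) (nat_lit 4) (nat_lit 20500)))) (T.tp (T.sk (T.ls (nat_lit 3) (nat_lit 4))))) (T.tp (T.sk (T.ls (nat_lit 3) (nat_lit 4))))) (T.tp (T.sk (T.ls (nat_lit 3) (nat_lit 4))))) (T.tp (T.sk (T.ls (nat_lit 3) (nat_lit 4))))) (T.tp (T.sk (T.ls (nat_lit 3) (nat_lit 4))))) (T.tp (T.sk (T.ls (nat_lit 3) (nat_lit 4))))) (T.ts (nat_lit 1) (T.im (nat_lit 7) (nat_lit 2)) (T.nw (T.ts (nat_lit 4) (T.ts (nat_lit 3) (T.ts (nat_lit 2) (T.ts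 (nat_lit 4) (T.ts (nat_lit 1) (T.ts (nat_lit 1) (T.ts (nat_lit 3) (T.ts (nat_lit 2) (T.l1 (nat_lit 12300) (nat_lit 3) (nat_lit 20500)) (T.sk (T.lf (nat_lit 16569) (nat_lit 3) (nat_lit 20500) (nat_lit 4) (nat_lit 12300)))) (T.sk (T.lf (nat_lit 16569) (nat_lit 3) (nat_lit 20500) (nat_lit 4) (nat_lit 12300)))) (T.tp (T.sk (T.ls (nat_lit 3) (nat_lit 4))))) (T.tp (T.sk (T.ls (nat_lit 3) (nat_lit 4))))) (T.tp (T.sk (T.ls (nat_lit 3) (nat_lit 4))))) (T.tp (T.sk (T.ls (nat_lit 3) (nat_lit 4))))) (T.tp (T.sk (T.ls (nat_lit 3) (nat_lit 4))))) (T.tp (T.sk (T.ls (nat_lit 3) (nat_lit 4))))))))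
def d536 : T := (T.ts (nat_lit 0) (T.ts (nat_lit 3) (T.ts (nat_lit 2) (T.ts (nat_lit 1) (T.ts (nat_lit 3) (T.ts (nat_lit 0) (T.ts (nat_lit 0) (T.ts (nat_lit 2) (T.ts (nat_lit 1) (T.l1 (nat_lit 12300) (nat_lit 4) (nat_lit 20500)) (T.tp (T.sk (T.ls (nat_lit 3) (nat_lit 4))))) (T.tp (T.sk (T.ls (nat_lit 3) (nat_lit 4))))) (T.tp (T.sk (T.ls (nat_lit 3) (nat_lit 4))))) (T.tp (T.sk (T.ls (nat_lit 3) (nat_lit 4))))) (T.tp (T.sk (T.ls (nat_lit 3) (nat_lit 4))))) (T.tp (T.sk (T.ls (nat_lit 3) (nat_lit 4))))) (T.tp (T.sk (T.ls (nat_lit 3) (nat_lit 4))))) (T.tp (T.sk (T.ls (nat_lit 3) (nat_lit 4))))) (T.ts (nat_lit 2) (T.im (nat_lit 5) (nat_lit 3)) (T.ts (nat_lit 1) (T.im (nat_lit 7) (nat_lit 2)) (T.nw (T.ts (nat_lit 4) (T.ts (nat_lit 3) (T.ts (nat_lit 2) (T.ts (nat_lit 4) (T.ts (nat_lit 1)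 (T.ts (nat_lit 1) (T.ts (nat_lit 3) (T.ts (nat_lit 2) (T.l1 (nat_lit 12300) (nat_lit 3) (nat_lit 20500)) (T.tp (T.sk (T.ls (nat_lit 3) (nat_lit 4))))) (T.tp (T.sk (T.ls (nat_lit 3) (nat_lit 4))))) (T.tp (T.sk (T.ls (nat_lit 3) (nat_lit 4))))) (T.tp (T.sk (T.ls (nat_lit 3) (nat_lit 4))))) (T.tp (T.sk (T.ls (nat_lit 3) (nat_lit 4))))) (T.tp (T.sk (T.ls (nat_lit 3) (nat_lit 4))))) (T.tp (T.sk (T.ls (nat_lit 3) (nat_lit 4))))) (T.tp (T.sk (T.ls (nat_lit 3) (nat_lit 4)))))))))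
def d537 : T := (T.ts (nat_lit 1) (T.ts (nat_lit 4) (T.ts (nat_lit 3) (T.ts (nat_lit 2) (T.ts (nat_lit 4) (T.ts (nat_lit 1) (T.ts (nat_lit 1) (T.ts (nat_lit 3) (T.ts (nat_lit 2) (T.l1 (nat_lit 12300) (nat_lit 4) (nat_lit 20500)) (T.tp (T.sk (T.ls (nat_lit 3) (nat_lit 4))))) (T.tp (T.sk (T.ls (nat_lit 3) (nat_lit 4))))) (T.tp (T.sk (T.ls (nat_lit 3) (nat_lit 4))))) (T.tp (T.sk (T.ls (nat_lit 3) (nat_lit 4))))) (T.tp (T.sk (T.ls (nat_lit 3) (nat_lit 4))))) (T.tp (T.sk (T.ls (nat_lit 3) (nat_lit 4))))) (T.tp (T.sk (T.ls (nat_lit 3) (nat_lit 4))))) (T.tp (T.sk (T.ls (nat_lit 3) (nat_lit 4))))) (T.ts (nat_lit 0) (T.ts (nat_lit 4) (T.ts (nat_lit 3) (T.ts (nat_lit 2) (T.ts (nat_lit 4) (T.ts (nat_lit 1) (T.ts (nat_lit 1) (T.ts (nat_lit 3) (T.ts (nat_lit 2) (T.l1 (nat_lit 12300) (nat_lit 3)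 (nat_lit 20500)) (T.tp (T.sk (T.ls (nat_lit 3) (nat_lit 4))))) (T.tp (T.sk (T.ls (nat_lit 3) (nat_lit 4))))) (T.tp (T.sk (T.ls (nat_lit 3) (nat_lit 4))))) (T.tp (T.sk (T.ls (nat_lit 3) (nat_lit 4))))) (T.tp (T.sk (T.ls (nat_lit 3) (nat_lit 4))))) (T.tp (T.sk (T.ls (nat_lit 3) (nat_lit 4))))) (T.tp (T.sk (T.ls (nat_lit 3) (nat_lit 4))))) (T.tp (T.sk (T.ls (nat_lit 3) (nat_lit 4))))) (T.tp (T.ts (nat_lit 2) (T.im (nat_lit 7) (nat_lit 2)) T.ie))))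
def d538 : T := (T.ts (nat_lit 3) (T.ts (nat_lit 3) (T.ls (nat_lit 3) (nat_lit 4)) (T.ts (nat_lit 2) (T.ls (nat_lit 3) (nat_lit 4)) (T.ts (nat_lit 1) (T.im (nat_lit 7) (nat_lit 2)) (T.ts (nat_lit 0) (T.im (nat_lit 1) (nat_lit 5)) (T.nw (T.ts (nat_lit 4) (T.ts (nat_lit 3) (T.ts (nat_lit 2) (T.ts (nat_lit 4) (T.ts (nat_lit 1) (T.ts (nat_lit 1) (T.ts (nat_lit 3) (T.ts (nat_lit 2) (T.l1 (nat_lit 12300) (nat_lit 3) (nat_lit 20500)) (T.tp (T.sk (T.ls (nat_lit 3) (nat_lit 4))))) (T.tp (T.sk (T.ls (nat_lit 3) (nat_lit 4))))) (T.tp (T.sk (T.ls (nat_lit 3) (nat_lit 4))))) (T.tp (T.sk (T.ls (nat_lit 3) (nat_lit 4))))) (T.tp (T.sk (T.ls (nat_lit 3) (nat_lit 4))))) (T.tp (T.sk (T.ls (nat_lit 3) (nat_lit 4))))) (T.tp (T.sk (T.ls (nat_lit 3) (nat_lit 4))))) (T.tp (T.sk (T.ls (nat_lit 3) (nat_lit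 4)))))))))) (T.ts (nat_lit 2) (T.ts (nat_lit 3) (T.ls (nat_lit 3) (nat_lit 4)) (T.ts (nat_lit 2) (T.ls (nat_lit 3) (nat_lit 4)) d535)) (T.ts (nat_lit 0) (T.ts (nat_lit 3) (T.tp (T.ts (nat_lit 2) (T.ts (nat_lit 1) (T.ts (nat_lit 3) (T.ts (nat_lit 0) (T.ts (nat_lit 0) (T.im (nat_lit 13) (nat_lit 1)) (T.sk (T.ls (nat_lit 3) (nat_lit 4)))) (T.sk (T.ls (nat_lit 3) (nat_lit 4)))) (T.sk (T.ls (nat_lit 3) (nat_lit 4)))) (T.sk (T.ls (nat_lit 3) (nat_lit 4)))) (T.sk (T.ls (nat_lit 3) (nat_lit 4))))) d536) (T.ts (nat_lit 1) (T.im (nat_lit 7) (nat_lit 1)) (T.nw (T.ts (nat_lit 4) (T.tp (T.ts (nat_lit 3) (T.ts (nat_lit 2) (T.ts (nat_lit 4) (T.ts (nat_lit 1) (T.ts (nat_lit 1) (T.im (nat_lit 13) (nat_lit 1)) (T.sk (T.ls (nat_lit 3) (nat_lit 4)))) (T.sk (T.ls (nat_lit 3) (nat_lit 4)))) (T.sk (T.ls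 (nat_lit 3) (nat_lit 4)))) (T.sk (T.ls (nat_lit 3) (nat_lit 4)))) (T.sk (T.ls (nat_lit 3) (nat_lit 4))))) (T.ts (nat_lit 3) (T.ls (nat_lit 3) (nat_lit 4)) d537)))))))
def d539 : T := (T.ts (nat_lit 1) (T.ts (nat_lit 4) (T.tp (T.ts (nat_lit 3) (T.ts (nat_lit 2) (T.ts (nat_lit 4) (T.ts (nat_lit 1) (T.ts (nat_lit 1) (T.im (nat_lit 13) (nat_lit 1)) (T.sk (T.ls (nat_lit 3) (nat_lit 4)))) (T.sk (T.ls (nat_lit 3) (nat_lit 4)))) (T.sk (T.ls (nat_lit 3) (nat_lit 4)))) (T.sk (T.ls (nat_lit 3) (nat_lit 4)))) (T.sk (T.ls (nat_lit 3) (nat_lit 4))))) (T.ts (nat_lit 2) (T.ls (nat_lit 3) (nat_lit 4)) (T.ts (nat_lit 1) (T.ts (nat_lit 4) (T.ts (nat_lit 3) (T.ts (nat_lit 2) (T.ts (nat_lit 4) (T.ts (nat_lit 1) (T.ts (nat_lit 1) (T.ts (nat_lit 3) (T.ts (nat_lit 0) (T.l1 (nat_lit 12300) (nat_lit 4) (nat_lit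 20500)) (T.tp (T.sk (T.ls (nat_lit 3) (nat_lit 4))))) (T.tp (T.sk (T.ls (nat_lit 3) (nat_lit 4))))) (T.tp (T.sk (T.ls (nat_lit 3) (nat_lit 4))))) (T.tp (T.sk (T.ls (nat_lit 3) (nat_lit 4))))) (T.tp (T.sk (T.ls (nat_lit 3) (nat_lit 4))))) (T.tp (T.sk (T.ls (nat_lit 3) (nat_lit 4))))) (T.tp (T.sk (T.ls (nat_lit 3) (nat_lit 4))))) (T.tp (T.sk (T.ls (nat_lit 3) (nat_lit 4))))) (T.tp (T.ts (nat_lit 3) (T.im (nat_lit 5) (nat_lit 3)) (T.ts (nat_lit 0) (T.im (nat_lit 7) (nat_lit 2)) T.ie)))))) (T.tp (T.ts (nat_lit 0) (T.im (nat_lit 7) (nat_lit 1)) T.ie)))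
def d540 : T := (T.ts (nat_lit 3) (T.ts (nat_lit 4) (T.ls (nat_lit 3) (nat_lit 4)) (T.ts (nat_lit 3) (T.ls (nat_lit 3) (nat_lit 4)) (T.ts (nat_lit 2) (T.ls (nat_lit 3) (nat_lit 4)) (T.ts (nat_lit 1) (T.ts (nat_lit 4) (T.ts (nat_lit 3) (T.ts (nat_lit 2) (T.ts (nat_lit 4) (T.ts (nat_lit 1) (T.ts (nat_lit 1) (T.ts (nat_lit 3) (T.ts (nat_lit 0) (T.l1 (nat_lit 12300) (nat_lit 4) (nat_lit 20500)) (T.sk (T.lf (nat_lit 16569) (nat_lit 3) (nat_lit 12300) (nat_lit 4) (nat_lit 20500)))) (T.sk (T.lf (nat_lit 16569) (nat_lit 3) (nat_lit 12300) (nat_lit 4) (nat_lit 20500)))) (T.tp (T.sk (T.ls (nat_lit 3) (nat_lit 4))))) (T.tp (T.sk (T.ls (nat_lit 3) (nat_lit 4))))) (T.tp (T.sk (T.ls (nat_lit 3) (nat_lit 4))))) (T.tp (T.sk (T.ls (nat_lit 3) (nat_lit 4))))) (T.tp (T.sk (T.ls (nat_lit 3) (nat_lit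 4))))) (T.tp (T.sk (T.ls (nat_lit 3) (nat_lit 4))))) (T.tp (T.ts (nat_lit 0) (T.im (nat_lit 7) (nat_lit 2)) T.ie)))))) (T.ts (nat_lit 2) (T.ts (nat_lit 4) (T.ls (nat_lit 3) (nat_lit 4)) (T.ts (nat_lit 3) (T.ls (nat_lit 3) (nat_lit 4)) (T.ts (nat_lit 2) (T.ls (nat_lit 3) (nat_lit 4)) (T.ts (nat_lit 1) (T.ts (nat_lit 4) (T.ts (nat_lit 3) (T.ts (nat_lit 2) (T.ts (nat_lit 4) (T.ts (nat_lit 1) (T.ts (nat_lit 1) (T.ts (nat_lit 3) (T.ts (nat_lit 0) (T.l1 (nat_lit 12300) (nat_lit 4) (nat_lit 20500)) (T.tp (T.sk (T.ls (nat_lit 3) (nat_lit 4))))) (T.tp (T.sk (T.ls (nat_lit 3) (nat_lit 4))))) (T.tp (T.sk (T.ls (nat_lit 3) (nat_lit 4))))) (T.tp (T.sk (T.ls (nat_lit 3) (nat_lit 4))))) (T.tp (T.sk (T.ls (nat_lit 3) (nat_lit 4))))) (T.tp (T.sk (T.ls (nat_lit 3) (nat_lit 4))))) (T.tp (T.sk (T.ls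 (nat_lit 3) (nat_lit 4))))) (T.tp (T.sk (T.ls (nat_lit 3) (nat_lit 4))))) (T.tp (T.ts (nat_lit 0) (T.im (nat_lit 7) (nat_lit 2)) T.ie)))))) d539))
def d541 : T := (T.ts (nat_lit 4) (T.ts (nat_lit 4) (T.ls (nat_lit 3) (nat_lit 4)) (T.ts (nat_lit 3) (T.ts (nat_lit 4) (T.ls (nat_lit 3) (nat_lit 4)) (T.ts (nat_lit 2) (T.ts (nat_lit 4) (T.ts (nat_lit 1) (T.ts (nat_lit 1) (T.l1 (nat_lit 12300) (nat_lit 3) (nat_lit 20500)) (T.sk (T.lf (nat_lit 16569) (nat_lit 3) (nat_lit 20500) (nat_lit 4) (nat_lit 12300)))) (T.sk (T.lf (nat_lit 16569) (nat_lit 3) (nat_lit 20500) (nat_lit 4) (nat_lit 12300)))) (T.tp (T.sk (T.ls (nat_lit 3) (nat_lit 4))))) (T.tp (T.sk (T.ls (nat_lit 3) (nat_lit 4)))))) (T.ts (nat_lit 2) (T.ls (nat_lit 3) (nat_lit 4)) (T.ts (nat_lit 1) (T.ts (nat_lit 4) (T.ts (nat_lit 3) (T.ts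 (nat_lit 2) (T.ts (nat_lit 4) (T.ts (nat_lit 1) (T.ts (nat_lit 1) (T.ts (nat_lit 3) (T.ts (nat_lit 0) (T.l1 (nat_lit 12300) (nat_lit 4) (nat_lit 20500)) (T.tp (T.sk (T.ls (nat_lit 3) (nat_lit 4))))) (T.tp (T.sk (T.ls (nat_lit 3) (nat_lit 4))))) (T.tp (T.sk (T.ls (nat_lit 3) (nat_lit 4))))) (T.tp (T.sk (T.ls (nat_lit 3) (nat_lit 4))))) (T.tp (T.sk (T.ls (nat_lit 3) (nat_lit 4))))) (T.tp (T.sk (T.ls (nat_lit 3) (nat_lit 4))))) (T.tp (T.sk (T.ls (nat_lit 3) (nat_lit 4))))) (T.tp (T.sk (T.ls (nat_lit 3) (nat_lit 4))))) (T.tp (T.ts (nat_lit 0) (T.im (nat_lit 7) (nat_lit 2)) T.ie)))))) d540)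
def d542 : T := (T.ts (nat_lit 2) (T.ts (nat_lit 3) (T.ts (nat_lit 3) (T.ls (nat_lit 3) (nat_lit 4)) (T.ts (nat_lit 1) (T.ls (nat_lit 3) (nat_lit 4)) d531)) (T.ts (nat_lit 1) (T.ts (nat_lit 3) (T.ls (nat_lit 3) (nat_lit 4)) (T.ts (nat_lit 1) (T.ls (nat_lit 3) (nat_lit 4)) d532)) (T.ts (nat_lit 0) (T.ts (nat_lit 3) (T.tp (T.ts (nat_lit 2) (T.ts (nat_lit 1) (T.ts (nat_lit 3) (T.ts (nat_lit 0) (T.ts (nat_lit 0) (T.im (nat_lit 13) (nat_lit 1)) (T.sk (T.ls (nat_lit 3) (nat_lit 4)))) (T.sk (T.ls (nat_lit 3) (nat_lit 4)))) (T.sk (T.ls (nat_lit 3) (nat_lit 4)))) (T.sk (T.ls (nat_lit 3) (nat_lit 4)))) (T.sk (T.ls (nat_lit 3) (nat_lit 4))))) (T.ts (nat_lit 1) (T.ls (nat_lit 3) (nat_lit 4)) d533)) (T.ts (nat_lit 2) (T.im (nat_lit 7) (nat_lit 1)) (T.nw (T.ts (nat_lit 4) (T.tp (T.ts (nat_lit 3)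 (T.ts (nat_lit 2) (T.ts (nat_lit 4) (T.ts (nat_lit 1) (T.ts (nat_lit 1) (T.im (nat_lit 13) (nat_lit 1)) (T.sk (T.ls (nat_lit 3) (nat_lit 4)))) (T.sk (T.ls (nat_lit 3) (nat_lit 4)))) (T.sk (T.ls (nat_lit 3) (nat_lit 4)))) (T.sk (T.ls (nat_lit 3) (nat_lit 4)))) (T.sk (T.ls (nat_lit 3) (nat_lit 4))))) (T.ts (nat_lit 2) (T.ls (nat_lit 3) (nat_lit 4)) d534))))))) (T.ts (nat_lit 1) d538 (T.ts (nat_lit 0) (T.im (nat_lit 5) (nat_lit 2)) (T.nw d541))))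
def d543 : T := (T.ts (nat_lit 3) d530 d542)
def d544 : T := (T.ts (nat_lit 0) (T.ts (nat_lit 3) (T.ts (nat_lit 2) (T.ts (nat_lit 1) (T.ts (nat_lit 3) (T.ts (nat_lit 0) (T.ts (nat_lit 0) (T.ts (nat_lit 1) (T.ts (nat_lit 3) (T.l1 (nat_lit 12300) (nat_lit 4) (nat_lit 20500)) (T.tp (T.sk (T.ls (nat_lit 3) (nat_lit 4))))) (T.tp (T.sk (T.ls (nat_lit 3) (nat_lit 4))))) (T.tp (T.sk (T.ls (nat_lit 3) (nat_lit 4))))) (T.tp (T.sk (T.ls (nat_lit 3) (nat_lit 4))))) (T.tp (T.sk (T.ls (nat_lit 3) (nat_lit 4))))) (T.tp (T.sk (T.ls (nat_lit 3) (nat_lit 4))))) (T.tp (T.sk (T.ls (nat_lit 3) (nat_lit 4))))) (T.tp (T.sk (T.ls (nat_lit 3) (nat_lit 4))))) (T.ts (nat_lit 3) (T.im (nat_lit 7) (nat_lit 2)) (T.nw (T.ts (nat_lit 4) (T.ts (nat_lit 3) (T.ts (nat_lit 2) (T.ts (nat_lit 4) (T.ts (nat_lit 1) (T.ts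 (nat_lit 1) (T.ts (nat_lit 2) (T.ts (nat_lit 4) (T.l1 (nat_lit 12300) (nat_lit 3) (nat_lit 20500)) (T.tp (T.sk (T.ls (nat_lit 3) (nat_lit 4))))) (T.tp (T.sk (T.ls (nat_lit 3) (nat_lit 4))))) (T.tp (T.sk (T.ls (nat_lit 3) (nat_lit 4))))) (T.tp (T.sk (T.ls (nat_lit 3) (nat_lit 4))))) (T.tp (T.sk (T.ls (nat_lit 3) (nat_lit 4))))) (T.tp (T.sk (T.ls (nat_lit 3) (nat_lit 4))))) (T.tp (T.sk (T.ls (nat_lit 3) (nat_lit 4))))) (T.tp (T.sk (T.ls (nat_lit 3) (nat_lit 4))))))))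
def d545 : T := (T.ts (nat_lit 1) (T.ts (nat_lit 4) (T.ts (nat_lit 3) (T.ts (nat_lit 2) (T.ts (nat_lit 4) (T.ts (nat_lit 1) (T.ts (nat_lit 1) (T.ts (nat_lit 2) (T.ts (nat_lit 4) (T.l1 (nat_lit 12300) (nat_lit 4) (nat_lit 20500)) (T.tp (T.sk (T.ls (nat_lit 3) (nat_lit 4))))) (T.tp (T.sk (T.ls (nat_lit 3) (nat_lit 4))))) (T.tp (T.sk (T.ls (nat_lit 3) (nat_lit 4))))) (T.tp (T.sk (T.ls (nat_lit 3) (nat_lit 4))))) (T.tp (T.sk (T.ls (nat_lit 3) (nat_lit 4))))) (T.tp (T.sk (T.ls (nat_lit 3) (nat_lit 4))))) (T.tp (T.sk (T.ls (nat_lit 3) (nat_lit 4))))) (T.tp (T.sk (T.ls (nat_lit 3) (nat_lit 4))))) (T.ts (nat_lit 0) (T.ts (nat_lit 4) (T.ts (nat_lit 3) (T.ts (nat_lit 2) (T.ts (nat_lit 4) (T.ts (nat_lit 1) (T.ts (nat_lit 1) (T.ts (nat_lit 2) (T.ts (nat_lit 4) (T.l1 (nat_lit 12300) (nat_lit 3)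 (nat_lit 20500)) (T.tp (T.sk (T.ls (nat_lit 3) (nat_lit 4))))) (T.tp (T.sk (T.ls (nat_lit 3) (nat_lit 4))))) (T.tp (T.sk (T.ls (nat_lit 3) (nat_lit 4))))) (T.tp (T.sk (T.ls (nat_lit 3) (nat_lit 4))))) (T.tp (T.sk (T.ls (nat_lit 3) (nat_lit 4))))) (T.tp (T.sk (T.ls (nat_lit 3) (nat_lit 4))))) (T.tp (T.sk (T.ls (nat_lit 3) (nat_lit 4))))) (T.tp (T.sk (T.ls (nat_lit 3) (nat_lit 4))))) (T.tp (T.ts (nat_lit 4) (T.im (nat_lit 7) (nat_lit 2)) T.ie))))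
def d546 : T := (T.ts (nat_lit 2) (T.tp (T.ts (nat_lit 2) (T.ls (nat_lit 3) (nat_lit 4)) (T.ts (nat_lit 1) (T.ls (nat_lit 3) (nat_lit 4)) (T.ts (nat_lit 0) (T.ts (nat_lit 3) (T.ts (nat_lit 2) (T.im (nat_lit 7) (nat_lit 3)) (T.sk (T.ls (nat_lit 3) (nat_lit 4)))) (T.sk (T.ls (nat_lit 3) (nat_lit 4)))) (T.ts (nat_lit 3) (T.im (nat_lit 7) (nat_lit 2)) (T.nw (T.ts (nat_lit 4) (T.ts (nat_lit 3) (T.im (nat_lit 7) (nat_lit 3)) (T.sk (T.ls (nat_lit 3) (nat_lit 4)))) (T.sk (T.ls (nat_lit 3) (nat_lit 4)))))))))) (T.ts (nat_lit 1) (T.ts (nat_lit 2) (T.ls (nat_lit 3) (nat_lit 4)) (T.ts (nat_lit 1) (T.ls (nat_lit 3) (nat_lit 4)) d544)) (T.ts (nat_lit 0) (T.ts (nat_lit 2) (T.ls (nat_lit 3) (nat_lit 4)) (T.ts (nat_lit 3) (T.im (nat_lit 7) (nat_lit 2)) (T.ts (nat_lit 1) (T.im (nat_lit 5) (nat_lit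 3)) (T.ts (nat_lit 0) (T.im (nat_lit 3) (nat_lit 4)) (T.nw (T.ts (nat_lit 4) (T.ts (nat_lit 3) (T.ts (nat_lit 2) (T.ts (nat_lit 4) (T.ts (nat_lit 1) (T.ts (nat_lit 1) (T.ts (nat_lit 2) (T.ts (nat_lit 4) (T.l1 (nat_lit 12300) (nat_lit 3) (nat_lit 20500)) (T.tp (T.sk (T.ls (nat_lit 3) (nat_lit 4))))) (T.tp (T.sk (T.ls (nat_lit 3) (nat_lit 4))))) (T.tp (T.sk (T.ls (nat_lit 3) (nat_lit 4))))) (T.tp (T.sk (T.ls (nat_lit 3) (nat_lit 4))))) (T.tp (T.sk (T.ls (nat_lit 3) (nat_lit 4))))) (T.tp (T.sk (T.ls (nat_lit 3) (nat_lit 4))))) (T.tp (T.sk (T.ls (nat_lit 3) (nat_lit 4))))) (T.tp (T.sk (T.ls (nat_lit 3) (nat_lit 4)))))))))) (T.ts (nat_lit 3) (T.im (nat_lit 7) (nat_lit 1)) (T.nw (T.ts (nat_lit 3) (T.ls (nat_lit 3) (nat_lit 4)) (T.ts (nat_lit 2) (T.ls (nat_lit 3) (nat_lit 4)) d545)))))))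
def d547 : T := (T.ts (nat_lit 0) (T.ts (nat_lit 3) (T.ts (nat_lit 2) (T.ts (nat_lit 1) (T.ts (nat_lit 3) (T.ts (nat_lit 0) (T.ts (nat_lit 0) (T.ts (nat_lit 1) (T.ts (nat_lit 2) (T.l1 (nat_lit 12300) (nat_lit 4) (nat_lit 20500)) (T.tp (T.sk (T.ls (nat_lit 3) (nat_lit 4))))) (T.tp (T.sk (T.ls (nat_lit 3) (nat_lit 4))))) (T.tp (T.sk (T.ls (nat_lit 3) (nat_lit 4))))) (T.tp (T.sk (T.ls (nat_lit 3) (nat_lit 4))))) (T.tp (T.sk (T.ls (nat_lit 3) (nat_lit 4))))) (T.tp (T.sk (T.ls (nat_lit 3) (nat_lit 4))))) (T.tp (T.sk (T.ls (nat_lit 3) (nat_lit 4))))) (T.tp (T.sk (T.ls (nat_lit 3) (nat_lit 4))))) (T.ts (nat_lit 2) (T.im (nat_lit 7) (nat_lit 2)) (T.nw (T.ts (nat_lit 4) (T.ts (nat_lit 3) (T.ts (nat_lit 2) (T.ts (nat_lit 4) (T.ts (nat_lit 1) (T.ts (nat_lit 1) (T.ts (nat_lit 2) (T.ts (nat_lit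 3) (T.l1 (nat_lit 12300) (nat_lit 3) (nat_lit 20500)) (T.tp (T.sk (T.ls (nat_lit 3) (nat_lit 4))))) (T.tp (T.sk (T.ls (nat_lit 3) (nat_lit 4))))) (T.tp (T.sk (T.ls (nat_lit 3) (nat_lit 4))))) (T.tp (T.sk (T.ls (nat_lit 3) (nat_lit 4))))) (T.tp (T.sk (T.ls (nat_lit 3) (nat_lit 4))))) (T.tp (T.sk (T.ls (nat_lit 3) (nat_lit 4))))) (T.tp (T.sk (T.ls (nat_lit 3) (nat_lit 4))))) (T.tp (T.sk (T.ls (nat_lit 3) (nat_lit 4))))))))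
def d548 : T := (T.ts (nat_lit 0) (T.ts (nat_lit 3) (T.ts (nat_lit 2) (T.ts (nat_lit 1) (T.ts (nat_lit 3) (T.ts (nat_lit 0) (T.ts (nat_lit 0) (T.ts (nat_lit 1) (T.ts (nat_lit 2) (T.l1 (nat_lit 12300) (nat_lit 4) (nat_lit 20500)) (T.tp (T.sk (T.ls (nat_lit 3) (nat_lit 4))))) (T.tp (T.sk (T.ls (nat_lit 3) (nat_lit 4))))) (T.tp (T.sk (T.ls (nat_lit 3) (nat_lit 4))))) (T.tp (T.sk (T.ls (nat_lit 3) (nat_lit 4))))) (T.tp (T.sk (T.ls (nat_lit 3) (nat_lit 4))))) (T.tp (T.sk (T.ls (nat_lit 3) (nat_lit 4))))) (T.tp (T.sk (T.ls (nat_lit 3) (nat_lit 4))))) (T.tp (T.sk (T.ls (nat_lit 3) (nat_lit 4))))) (T.ts (nat_lit 2) (T.im (nat_lit 7) (nat_lit 2)) (T.nw (T.ts (nat_lit 4) (T.ts (nat_lit 3) (T.ts (nat_lit 2) (T.ts (nat_lit 4) (T.ts (nat_lit 1) (T.ts (nat_lit 1) (T.ts (nat_lit 2) (T.ts (nat_lit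 3) (T.l1 (nat_lit 12300) (nat_lit 3) (nat_lit 20500)) (T.tp (T.sk (T.ls (nat_lit 3) (nat_lit 4))))) (T.tp (T.sk (T.ls (nat_lit 3) (nat_lit 4))))) (T.tp (T.sk (T.ls (nat_lit 3) (nat_lit 4))))) (T.tp (T.sk (T.ls (nat_lit 3) (nat_lit 4))))) (T.tp (T.sk (T.ls (nat_lit 3) (nat_lit 4))))) (T.tp (T.sk (T.ls (nat_lit 3) (nat_lit 4))))) (T.tp (T.sk (T.ls (nat_lit 3) (nat_lit 4))))) (T.tp (T.sk (T.ls (nat_lit 3) (nat_lit 4))))))))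
def d549 : T := (T.ts (nat_lit 0) (T.ts (nat_lit 3) (T.ts (nat_lit 2) (T.ts (nat_lit 1) (T.ts (nat_lit 3) (T.ts (nat_lit 0) (T.ts (nat_lit 0) (T.ts (nat_lit 1) (T.ts (nat_lit 2) (T.l1 (nat_lit 12300) (nat_lit 4) (nat_lit 20500)) (T.tp (T.sk (T.ls (nat_lit 3) (nat_lit 4))))) (T.tp (T.sk (T.ls (nat_lit 3) (nat_lit 4))))) (T.tp (T.sk (T.ls (nat_lit 3) (nat_lit 4))))) (T.tp (T.sk (T.ls (nat_lit 3) (nat_lit 4))))) (T.tp (T.sk (T.ls (nat_lit 3) (nat_lit 4))))) (T.tp (T.sk (T.ls (nat_lit 3) (nat_lit 4))))) (T.tp (T.sk (T.ls (nat_lit 3) (nat_lit 4))))) (T.tp (T.sk (T.ls (nat_lit 3) (nat_lit 4))))) (T.ts (nat_lit 2) (T.im (nat_lit 7) (nat_lit 2)) (T.ts (nat_lit 1) (T.im (nat_lit 5) (nat_lit 3)) (T.nw (T.ts (nat_lit 4) (T.ts (nat_lit 3) (T.ts (nat_lit 2) (T.ts (nat_lit 4) (T.ts (nat_lit 1)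 (T.ts (nat_lit 1) (T.ts (nat_lit 2) (T.ts (nat_lit 3) (T.l1 (nat_lit 12300) (nat_lit 3) (nat_lit 20500)) (T.tp (T.sk (T.ls (nat_lit 3) (nat_lit 4))))) (T.tp (T.sk (T.ls (nat_lit 3) (nat_lit 4))))) (T.tp (T.sk (T.ls (nat_lit 3) (nat_lit 4))))) (T.tp (T.sk (T.ls (nat_lit 3) (nat_lit 4))))) (T.tp (T.sk (T.ls (nat_lit 3) (nat_lit 4))))) (T.tp (T.sk (T.ls (nat_lit 3) (nat_lit 4))))) (T.tp (T.sk (T.ls (nat_lit 3) (nat_lit 4))))) (T.tp (T.sk (T.ls (nat_lit 3) (nat_lit 4)))))))))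
def d550 : T := (T.ts (nat_lit 1) (T.ts (nat_lit 4) (T.ts (nat_lit 3) (T.ts (nat_lit 2) (T.ts (nat_lit 4) (T.ts (nat_lit 1) (T.ts (nat_lit 1) (T.ts (nat_lit 2) (T.ts (nat_lit 3) (T.l1 (nat_lit 12300) (nat_lit 4) (nat_lit 20500)) (T.tp (T.sk (T.ls (nat_lit 3) (nat_lit 4))))) (T.tp (T.sk (T.ls (nat_lit 3) (nat_lit 4))))) (T.tp (T.sk (T.ls (nat_lit 3) (nat_lit 4))))) (T.tp (T.sk (T.ls (nat_lit 3) (nat_lit 4))))) (T.tp (T.sk (T.ls (nat_lit 3) (nat_lit 4))))) (T.tp (T.sk (T.ls (nat_lit 3) (nat_lit 4))))) (T.tp (T.sk (T.ls (nat_lit 3) (nat_lit 4))))) (T.tp (T.sk (T.ls (nat_lit 3) (nat_lit 4))))) (T.ts (nat_lit 0) (T.ts (nat_lit 4) (T.ts (nat_lit 3) (T.ts (nat_lit 2) (T.ts (nat_lit 4) (T.ts (nat_lit 1) (T.ts (nat_lit 1) (T.ts (nat_lit 2) (T.ts (nat_lit 3) (T.l1 (nat_lit 12300) (nat_lit 3)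 (nat_lit 20500)) (T.tp (T.sk (T.ls (nat_lit 3) (nat_lit 4))))) (T.tp (T.sk (T.ls (nat_lit 3) (nat_lit 4))))) (T.tp (T.sk (T.ls (nat_lit 3) (nat_lit 4))))) (T.tp (T.sk (T.ls (nat_lit 3) (nat_lit 4))))) (T.tp (T.sk (T.ls (nat_lit 3) (nat_lit 4))))) (T.tp (T.sk (T.ls (nat_lit 3) (nat_lit 4))))) (T.tp (T.sk (T.ls (nat_lit 3) (nat_lit 4))))) (T.tp (T.sk (T.ls (nat_lit 3) (nat_lit 4))))) (T.tp (T.ts (nat_lit 3) (T.im (nat_lit 7) (nat_lit 2)) T.ie))))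
def d551 : T := (T.ts (nat_lit 3) (T.ts (nat_lit 3) (T.ls (nat_lit 3) (nat_lit 4)) (T.ts (nat_lit 1) (T.ls (nat_lit 3) (nat_lit 4)) d547)) (T.ts (nat_lit 1) (T.ts (nat_lit 3) (T.ls (nat_lit 3) (nat_lit 4)) (T.ts (nat_lit 1) (T.ls (nat_lit 3) (nat_lit 4)) d548)) (T.ts (nat_lit 0) (T.ts (nat_lit 3) (T.ts (nat_lit 2) (T.ts (nat_lit 1) (T.ts (nat_lit 3) (T.ts (nat_lit 0) (T.ts (nat_lit 0) (T.im (nat_lit 13) (nat_lit 1)) (T.sk (T.lf (nat_lit 16569) (nat_lit 3) (nat_lit 12300) (nat_lit 4) (nat_lit 20500)))) (T.tp (T.sk (T.ls (nat_lit 3) (nat_lit 4))))) (T.tp (T.sk (T.ls (nat_lit 3) (nat_lit 4))))) (T.tp (T.sk (T.ls (nat_lit 3) (nat_lit 4))))) (T.tp (T.sk (T.ls (nat_lit 3) (nat_lit 4))))) d549) (T.ts (nat_lit 2) (T.im (nat_lit 7) (nat_lit 1)) (T.nw (T.ts (nat_lit 4) (T.ts (nat_lit 3) (T.ts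 (nat_lit 2) (T.ts (nat_lit 4) (T.ts (nat_lit 1) (T.ts (nat_lit 1) (T.im (nat_lit 13) (nat_lit 1)) (T.sk (T.lf (nat_lit 16569) (nat_lit 3) (nat_lit 20500) (nat_lit 4) (nat_lit 12300)))) (T.tp (T.sk (T.ls (nat_lit 3) (nat_lit 4))))) (T.tp (T.sk (T.ls (nat_lit 3) (nat_lit 4))))) (T.tp (T.sk (T.ls (nat_lit 3) (nat_lit 4))))) (T.tp (T.sk (T.ls (nat_lit 3) (nat_lit 4))))) (T.ts (nat_lit 2) (T.ls (nat_lit 3) (nat_lit 4)) d550)))))))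
def d552 : T := (T.ts (nat_lit 0) (T.ts (nat_lit 3) (T.ts (nat_lit 2) (T.ts (nat_lit 1) (T.ts (nat_lit 3) (T.ts (nat_lit 0) (T.ts (nat_lit 0) (T.ts (nat_lit 1) (T.ts (nat_lit 1) (T.l1 (nat_lit 12300) (nat_lit 4) (nat_lit 20500)) (T.tp (T.sk (T.ls (nat_lit 3) (nat_lit 4))))) (T.tp (T.sk (T.ls (nat_lit 3) (nat_lit 4))))) (T.tp (T.sk (T.ls (nat_lit 3) (nat_lit 4))))) (T.tp (T.sk (T.ls (nat_lit 3) (nat_lit 4))))) (T.tp (T.sk (T.ls (nat_lit 3) (nat_lit 4))))) (T.tp (T.sk (T.ls (nat_lit 3) (nat_lit 4))))) (T.tp (T.sk (T.ls (nat_lit 3) (nat_lit 4))))) (T.tp (T.sk (T.ls (nat_lit 3) (nat_lit 4))))) (T.ts (nat_lit 1) (T.im (nat_lit 7) (nat_lit 2)) (T.nw (T.ts (nat_lit 4) (T.ts (nat_lit 3) (T.ts (nat_lit 2) (T.ts (nat_lit 4) (T.ts (nat_lit 1) (T.ts (nat_lit 1) (T.ts (nat_lit 2) (T.ts (nat_lit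 2) (T.l1 (nat_lit 12300) (nat_lit 3) (nat_lit 20500)) (T.tp (T.sk (T.ls (nat_lit 3) (nat_lit 4))))) (T.tp (T.sk (T.ls (nat_lit 3) (nat_lit 4))))) (T.tp (T.sk (T.ls (nat_lit 3) (nat_lit 4))))) (T.tp (T.sk (T.ls (nat_lit 3) (nat_lit 4))))) (T.tp (T.sk (T.ls (nat_lit 3) (nat_lit 4))))) (T.tp (T.sk (T.ls (nat_lit 3) (nat_lit 4))))) (T.tp (T.sk (T.ls (nat_lit 3) (nat_lit 4))))) (T.tp (T.sk (T.ls (nat_lit 3) (nat_lit 4))))))))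
def d553 : T := (T.ts (nat_lit 0) (T.ts (nat_lit 3) (T.ts (nat_lit 2) (T.ts (nat_lit 1) (T.ts (nat_lit 3) (T.ts (nat_lit 0) (T.ts (nat_lit 0) (T.ts (nat_lit 1) (T.ts (nat_lit 1) (T.l1 (nat_lit 12300) (nat_lit 4) (nat_lit 20500)) (T.sk (T.lf (nat_lit 16569) (nat_lit 3) (nat_lit 12300) (nat_lit 4) (nat_lit 20500)))) (T.sk (T.lf (nat_lit 16569) (nat_lit 3) (nat_lit 12300) (nat_lit 4) (nat_lit 20500)))) (T.tp (T.sk (T.ls (nat_lit 3) (nat_lit 4))))) (T.tp (T.sk (T.ls (nat_lit 3) (nat_lit 4))))) (T.tp (T.sk (T.ls (nat_lit 3) (nat_lit 4))))) (T.tp (T.sk (T.ls (nat_lit 3) (nat_lit 4))))) (T.tp (T.sk (T.ls (nat_lit 3) (nat_lit 4))))) (T.tp (T.sk (T.ls (nat_lit 3) (nat_lit 4))))) (T.ts (nat_lit 1) (T.im (nat_lit 7) (nat_lit 2)) (T.nw (T.ts (nat_lit 4) (T.ts (nat_lit 3) (T.ts (nat_lit 2) (T.ts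 (nat_lit 4) (T.ts (nat_lit 1) (T.ts (nat_lit 1) (T.ts (nat_lit 2) (T.ts (nat_lit 2) (T.l1 (nat_lit 12300) (nat_lit 3) (nat_lit 20500)) (T.sk (T.lf (nat_lit 16569) (nat_lit 3) (nat_lit 20500) (nat_lit 4) (nat_lit 12300)))) (T.sk (T.lf (nat_lit 16569) (nat_lit 3) (nat_lit 20500) (nat_lit 4) (nat_lit 12300)))) (T.tp (T.sk (T.ls (nat_lit 3) (nat_lit 4))))) (T.tp (T.sk (T.ls (nat_lit 3) (nat_lit 4))))) (T.tp (T.sk (T.ls (nat_lit 3) (nat_lit 4))))) (T.tp (T.sk (T.ls (nat_lit 3) (nat_lit 4))))) (T.tp (T.sk (T.ls (nat_lit 3) (nat_lit 4))))) (T.tp (T.sk (T.ls (nat_lit 3) (nat_lit 4))))))))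
def d554 : T := (T.ts (nat_lit 0) (T.ts (nat_lit 3) (T.ts (nat_lit 2) (T.ts (nat_lit 1) (T.ts (nat_lit 3) (T.ts (nat_lit 0) (T.ts (nat_lit 0) (T.ts (nat_lit 1) (T.ts (nat_lit 1) (T.l1 (nat_lit 12300) (nat_lit 4) (nat_lit 20500)) (T.tp (T.sk (T.ls (nat_lit 3) (nat_lit 4))))) (T.tp (T.sk (T.ls (nat_lit 3) (nat_lit 4))))) (T.tp (T.sk (T.ls (nat_lit 3) (nat_lit 4))))) (T.tp (T.sk (T.ls (nat_lit 3) (nat_lit 4))))) (T.tp (T.sk (T.ls (nat_lit 3) (nat_lit 4))))) (T.tp (T.sk (T.ls (nat_lit 3) (nat_lit 4))))) (T.tp (T.sk (T.ls (nat_lit 3) (nat_lit 4))))) (T.tp (T.sk (T.ls (nat_lit 3) (nat_lit 4))))) (T.ts (nat_lit 1) (T.im (nat_lit 5) (nat_lit 3)) (T.nw (T.ts (nat_lit 4) (T.ts (nat_lit 3) (T.ts (nat_lit 2) (T.ts (nat_lit 4) (T.ts (nat_lit 1) (T.ts (nat_lit 1) (T.ts (nat_lit 2) (T.ts (nat_lit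 2) (T.l1 (nat_lit 12300) (nat_lit 3) (nat_lit 20500)) (T.tp (T.sk (T.ls (nat_lit 3) (nat_lit 4))))) (T.tp (T.sk (T.ls (nat_lit 3) (nat_lit 4))))) (T.tp (T.sk (T.ls (nat_lit 3) (nat_lit 4))))) (T.tp (T.sk (T.ls (nat_lit 3) (nat_lit 4))))) (T.tp (T.sk (T.ls (nat_lit 3) (nat_lit 4))))) (T.tp (T.sk (T.ls (nat_lit 3) (nat_lit 4))))) (T.tp (T.sk (T.ls (nat_lit 3) (nat_lit 4))))) (T.tp (T.sk (T.ls (nat_lit 3) (nat_lit 4))))))))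
def d555 : T := (T.ts (nat_lit 1) (T.ts (nat_lit 4) (T.ts (nat_lit 3) (T.ts (nat_lit 2) (T.ts (nat_lit 4) (T.ts (nat_lit 1) (T.ts (nat_lit 1) (T.ts (nat_lit 2) (T.ts (nat_lit 2) (T.l1 (nat_lit 12300) (nat_lit 4) (nat_lit 20500)) (T.tp (T.sk (T.ls (nat_lit 3) (nat_lit 4))))) (T.tp (T.sk (T.ls (nat_lit 3) (nat_lit 4))))) (T.tp (T.sk (T.ls (nat_lit 3) (nat_lit 4))))) (T.tp (T.sk (T.ls (nat_lit 3) (nat_lit 4))))) (T.tp (T.sk (T.ls (nat_lit 3) (nat_lit 4))))) (T.tp (T.sk (T.ls (nat_lit 3) (nat_lit 4))))) (T.tp (T.sk (T.ls (nat_lit 3) (nat_lit 4))))) (T.tp (T.sk (T.ls (nat_lit 3) (nat_lit 4))))) (T.ts (nat_lit 0) (T.ts (nat_lit 4) (T.ts (nat_lit 3) (T.ts (nat_lit 2) (T.ts (nat_lit 4) (T.ts (nat_lit 1) (T.ts (nat_lit 1) (T.ts (nat_lit 2) (T.ts (nat_lit 2) (T.l1 (nat_lit 12300) (nat_lit 3)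 (nat_lit 20500)) (T.tp (T.sk (T.ls (nat_lit 3) (nat_lit 4))))) (T.tp (T.sk (T.ls (nat_lit 3) (nat_lit 4))))) (T.tp (T.sk (T.ls (nat_lit 3) (nat_lit 4))))) (T.tp (T.sk (T.ls (nat_lit 3) (nat_lit 4))))) (T.tp (T.sk (T.ls (nat_lit 3) (nat_lit 4))))) (T.tp (T.sk (T.ls (nat_lit 3) (nat_lit 4))))) (T.tp (T.sk (T.ls (nat_lit 3) (nat_lit 4))))) (T.tp (T.sk (T.ls (nat_lit 3) (nat_lit 4))))) (T.tp (T.ts (nat_lit 2) (T.im (nat_lit 7) (nat_lit 2)) T.ie))))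
def d556 : T := (T.ts (nat_lit 4) (T.ls (nat_lit 3) (nat_lit 4)) (T.ts (nat_lit 3) (T.ts (nat_lit 4) (T.ls (nat_lit 3) (nat_lit 4)) (T.ts (nat_lit 2) (T.ts (nat_lit 4) (T.ts (nat_lit 1) (T.ts (nat_lit 1) (T.l1 (nat_lit 12300) (nat_lit 3) (nat_lit 20500)) (T.tp (T.sk (T.ls (nat_lit 3) (nat_lit 4))))) (T.tp (T.sk (T.ls (nat_lit 3) (nat_lit 4))))) (T.tp (T.sk (T.ls (nat_lit 3) (nat_lit 4))))) (T.tp (T.sk (T.ls (nat_lit 3) (nat_lit 4)))))) (T.ts (nat_lit 2) (T.ls (nat_lit 3) (nat_lit 4)) (T.ts (nat_lit 1) (T.ts (nat_lit 4) (T.ts (nat_lit 3) (T.ts (nat_lit 2) (T.ts (nat_lit 4) (T.ts (nat_lit 1) (T.ts (nat_lit 1) (T.ts (nat_lit 2) (T.ts (nat_lit 0) (T.l1 (nat_lit 12300) (nat_lit 4) (nat_lit 20500)) (T.tp (T.sk (T.ls (nat_lit 3) (nat_lit 4))))) (T.tp (T.sk (T.ls (nat_lit 3) (nat_lit 4)))))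 (T.tp (T.sk (T.ls (nat_lit 3) (nat_lit 4))))) (T.tp (T.sk (T.ls (nat_lit 3) (nat_lit 4))))) (T.tp (T.sk (T.ls (nat_lit 3) (nat_lit 4))))) (T.tp (T.sk (T.ls (nat_lit 3) (nat_lit 4))))) (T.tp (T.sk (T.ls (nat_lit 3) (nat_lit 4))))) (T.tp (T.sk (T.ls (nat_lit 3) (nat_lit 4))))) (T.tp (T.ts (nat_lit 0) (T.im (nat_lit 7) (nat_lit 2)) T.ie))))))
def d557 : T := (T.ts (nat_lit 1) (T.ts (nat_lit 4) (T.tp (T.ts (nat_lit 3) (T.ts (nat_lit 2) (T.ts (nat_lit 4) (T.ts (nat_lit 1) (T.ts (nat_lit 1) (T.im (nat_lit 13) (nat_lit 1)) (T.sk (T.ls (nat_lit 3) (nat_lit 4)))) (T.sk (T.ls (nat_lit 3) (nat_lit 4)))) (T.sk (T.ls (nat_lit 3) (nat_lit 4)))) (T.sk (T.ls (nat_lit 3) (nat_lit 4)))) (T.sk (T.ls (nat_lit 3) (nat_lit 4))))) (T.ts (nat_lit 3) (T.ls (nat_lit 3) (nat_lit 4)) (T.ts (nat_lit 1) (T.ts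 (nat_lit 4) (T.ts (nat_lit 3) (T.ts (nat_lit 2) (T.ts (nat_lit 4) (T.ts (nat_lit 1) (T.ts (nat_lit 1) (T.ts (nat_lit 2) (T.ts (nat_lit 0) (T.l1 (nat_lit 12300) (nat_lit 4) (nat_lit 20500)) (T.tp (T.sk (T.ls (nat_lit 3) (nat_lit 4))))) (T.tp (T.sk (T.ls (nat_lit 3) (nat_lit 4))))) (T.tp (T.sk (T.ls (nat_lit 3) (nat_lit 4))))) (T.tp (T.sk (T.ls (nat_lit 3) (nat_lit 4))))) (T.tp (T.sk (T.ls (nat_lit 3) (nat_lit 4))))) (T.tp (T.sk (T.ls (nat_lit 3) (nat_lit 4))))) (T.tp (T.sk (T.ls (nat_lit 3) (nat_lit 4))))) (T.tp (T.sk (T.ls (nat_lit 3) (nat_lit 4))))) (T.tp (T.ts (nat_lit 2) (T.im (nat_lit 5) (nat_lit 3)) (T.ts (nat_lit 0) (T.im (nat_lit 7) (nat_lit 2)) T.ie)))))) (T.tp (T.ts (nat_lit 0) (T.im (nat_lit 7) (nat_lit 1)) T.ie)))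
def d558 : T := (T.ts (nat_lit 3) (T.ts (nat_lit 4) (T.ls (nat_lit 3) (nat_lit 4)) (T.ts (nat_lit 3) (T.ls (nat_lit 3) (nat_lit 4)) (T.ts (nat_lit 2) (T.ls (nat_lit 3) (nat_lit 4)) (T.ts (nat_lit 1) (T.ts (nat_lit 4) (T.ts (nat_lit 3) (T.ts (nat_lit 2) (T.ts (nat_lit 4) (T.ts (nat_lit 1) (T.ts (nat_lit 1) (T.ts (nat_lit 2) (T.ts (nat_lit 0) (T.l1 (nat_lit 12300) (nat_lit 4) (nat_lit 20500)) (T.sk (T.lf (nat_lit 16569) (nat_lit 3) (nat_lit 12300) (nat_lit 4) (nat_lit 20500)))) (T.sk (T.lf (nat_lit 16569) (nat_lit 3) (nat_lit 12300) (nat_lit 4) (nat_lit 20500)))) (T.tp (T.sk (T.ls (nat_lit 3) (nat_lit 4))))) (T.tp (T.sk (T.ls (nat_lit 3) (nat_lit 4))))) (T.tp (T.sk (T.ls (nat_lit 3) (nat_lit 4))))) (T.tp (T.sk (T.ls (nat_lit 3) (nat_lit 4))))) (T.tp (T.sk (T.ls (nat_lit 3) (nat_lit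 4))))) (T.tp (T.sk (T.ls (nat_lit 3) (nat_lit 4))))) (T.tp (T.ts (nat_lit 0) (T.im (nat_lit 7) (nat_lit 2)) T.ie)))))) (T.ts (nat_lit 2) (T.ts (nat_lit 4) (T.ls (nat_lit 3) (nat_lit 4)) (T.ts (nat_lit 3) (T.ls (nat_lit 3) (nat_lit 4)) (T.ts (nat_lit 2) (T.ls (nat_lit 3) (nat_lit 4)) (T.ts (nat_lit 1) (T.ts (nat_lit 4) (T.ts (nat_lit 3) (T.ts (nat_lit 2) (T.ts (nat_lit 4) (T.ts (nat_lit 1) (T.ts (nat_lit 1) (T.ts (nat_lit 2) (T.ts (nat_lit 0) (T.l1 (nat_lit 12300) (nat_lit 4) (nat_lit 20500)) (T.tp (T.sk (T.ls (nat_lit 3) (nat_lit 4))))) (T.tp (T.sk (T.ls (nat_lit 3) (nat_lit 4))))) (T.tp (T.sk (T.ls (nat_lit 3) (nat_lit 4))))) (T.tp (T.sk (T.ls (nat_lit 3) (nat_lit 4))))) (T.tp (T.sk (T.ls (nat_lit 3) (nat_lit 4))))) (T.tp (T.sk (T.ls (nat_lit 3) (nat_lit 4))))) (T.tp (T.sk (T.ls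 (nat_lit 3) (nat_lit 4))))) (T.tp (T.sk (T.ls (nat_lit 3) (nat_lit 4))))) (T.tp (T.ts (nat_lit 0) (T.im (nat_lit 7) (nat_lit 2)) T.ie)))))) d557))
def d559 : T := (T.ts (nat_lit 1) (T.ts (nat_lit 3) (T.ts (nat_lit 3) (T.ls (nat_lit 3) (nat_lit 4)) (T.ts (nat_lit 2) (T.ls (nat_lit 3) (nat_lit 4)) d552)) (T.ts (nat_lit 2) (T.ts (nat_lit 3) (T.ls (nat_lit 3) (nat_lit 4)) (T.ts (nat_lit 2) (T.ls (nat_lit 3) (nat_lit 4)) d553)) (T.ts (nat_lit 0) (T.ts (nat_lit 3) (T.tp (T.ts (nat_lit 2) (T.ts (nat_lit 1) (T.ts (nat_lit 3) (T.ts (nat_lit 0) (T.ts (nat_lit 0) (T.im (nat_lit 13) (nat_lit 1)) (T.sk (T.ls (nat_lit 3) (nat_lit 4)))) (T.sk (T.ls (nat_lit 3) (nat_lit 4)))) (T.sk (T.ls (nat_lit 3) (nat_lit 4)))) (T.sk (T.ls (nat_lit 3) (nat_lit 4)))) (T.sk (T.ls (nat_lit 3) (nat_lit 4))))) (T.ts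 (nat_lit 2) (T.ls (nat_lit 3) (nat_lit 4)) d554)) (T.ts (nat_lit 1) (T.im (nat_lit 7) (nat_lit 1)) (T.nw (T.ts (nat_lit 4) (T.tp (T.ts (nat_lit 3) (T.ts (nat_lit 2) (T.ts (nat_lit 4) (T.ts (nat_lit 1) (T.ts (nat_lit 1) (T.im (nat_lit 13) (nat_lit 1)) (T.sk (T.ls (nat_lit 3) (nat_lit 4)))) (T.sk (T.ls (nat_lit 3) (nat_lit 4)))) (T.sk (T.ls (nat_lit 3) (nat_lit 4)))) (T.sk (T.ls (nat_lit 3) (nat_lit 4)))) (T.sk (T.ls (nat_lit 3) (nat_lit 4))))) (T.ts (nat_lit 3) (T.ls (nat_lit 3) (nat_lit 4)) d555))))))) (T.ts (nat_lit 0) (T.im (nat_lit 5) (nat_lit 2)) (T.nw (T.ts (nat_lit 4) d556 d558))))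
def d560 : T := (T.ts (nat_lit 3) d546 (T.ts (nat_lit 2) d551 d559))
def d561 : T := (T.ts (nat_lit 1) (T.ts (nat_lit 4) (T.ts (nat_lit 3) (T.ts (nat_lit 2) (T.ts (nat_lit 4) (T.ts (nat_lit 1) (T.ts (nat_lit 1) (T.ts (nat_lit 0) (T.ts (nat_lit 4) (T.l1 (nat_lit 12300) (nat_lit 4) (nat_lit 20500)) (T.tp (T.sk (T.ls (nat_lit 3) (nat_lit 4))))) (T.tp (T.sk (T.ls (nat_lit 3) (nat_lit 4))))) (T.tp (T.sk (T.ls (nat_lit 3) (nat_lit 4))))) (T.tp (T.sk (T.ls (nat_lit 3) (nat_lit 4))))) (T.tp (T.sk (T.ls (nat_lit 3) (nat_lit 4))))) (T.tp (T.sk (T.ls (nat_lit 3) (nat_lit 4))))) (T.tp (T.sk (T.ls (nat_lit 3) (nat_lit 4))))) (T.tp (T.sk (T.ls (nat_lit 3) (nat_lit 4))))) (T.ts (nat_lit 0) (T.ts (nat_lit 4) (T.ts (nat_lit 3) (T.ts (nat_lit 2) (T.ts (nat_lit 4) (T.ts (nat_lit 1) (T.ts (nat_lit 1)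 (T.ts (nat_lit 0) (T.ts (nat_lit 4) (T.l1 (nat_lit 12300) (nat_lit 3) (nat_lit 20500)) (T.tp (T.sk (T.ls (nat_lit 3) (nat_lit 4))))) (T.tp (T.sk (T.ls (nat_lit 3) (nat_lit 4))))) (T.tp (T.sk (T.ls (nat_lit 3) (nat_lit 4))))) (T.tp (T.sk (T.ls (nat_lit 3) (nat_lit 4))))) (T.tp (T.sk (T.ls (nat_lit 3) (nat_lit 4))))) (T.tp (T.sk (T.ls (nat_lit 3) (nat_lit 4))))) (T.tp (T.sk (T.ls (nat_lit 3) (nat_lit 4))))) (T.tp (T.sk (T.ls (nat_lit 3) (nat_lit 4))))) (T.tp (T.ts (nat_lit 4) (T.im (nat_lit 7) (nat_lit 2)) T.ie))))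
def d562 : T := (T.ts (nat_lit 1) (T.ts (nat_lit 4) (T.ts (nat_lit 3) (T.ts (nat_lit 2) (T.ts (nat_lit 4) (T.ts (nat_lit 1) (T.ts (nat_lit 1) (T.ts (nat_lit 0) (T.ts (nat_lit 4) (T.l1 (nat_lit 12300) (nat_lit 4) (nat_lit 20500)) (T.tp (T.sk (T.ls (nat_lit 3) (nat_lit 4))))) (T.tp (T.sk (T.ls (nat_lit 3) (nat_lit 4))))) (T.tp (T.sk (T.ls (nat_lit 3) (nat_lit 4))))) (T.tp (T.sk (T.ls (nat_lit 3) (nat_lit 4))))) (T.tp (T.sk (T.ls (nat_lit 3) (nat_lit 4))))) (T.tp (T.sk (T.ls (nat_lit 3) (nat_lit 4))))) (T.tp (T.sk (T.ls (nat_lit 3) (nat_lit 4))))) (T.tp (T.sk (T.ls (nat_lit 3) (nat_lit 4))))) (T.ts (nat_lit 0) (T.ts (nat_lit 4) (T.ts (nat_lit 3) (T.ts (nat_lit 2) (T.ts (nat_lit 4) (T.ts (nat_lit 1) (T.ts (nat_lit 1) (T.ts (nat_lit 0) (T.ts (nat_lit 4) (T.l1 (nat_lit 12300) (nat_lit 3)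 (nat_lit 20500)) (T.tp (T.sk (T.ls (nat_lit 3) (nat_lit 4))))) (T.tp (T.sk (T.ls (nat_lit 3) (nat_lit 4))))) (T.tp (T.sk (T.ls (nat_lit 3) (nat_lit 4))))) (T.tp (T.sk (T.ls (nat_lit 3) (nat_lit 4))))) (T.tp (T.sk (T.ls (nat_lit 3) (nat_lit 4))))) (T.tp (T.sk (T.ls (nat_lit 3) (nat_lit 4))))) (T.tp (T.sk (T.ls (nat_lit 3) (nat_lit 4))))) (T.tp (T.sk (T.ls (nat_lit 3) (nat_lit 4))))) (T.tp (T.ts (nat_lit 4) (T.im (nat_lit 7) (nat_lit 2)) T.ie))))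
def d563 : T := (T.ts (nat_lit 3) (T.ts (nat_lit 3) (T.ls (nat_lit 3) (nat_lit 4)) (T.ts (nat_lit 2) (T.ts (nat_lit 4) (T.ts (nat_lit 1) (T.l1 (nat_lit 12300) (nat_lit 3) (nat_lit 20500)) (T.tp (T.sk (T.ls (nat_lit 3) (nat_lit 4))))) (T.tp (T.sk (T.ls (nat_lit 3) (nat_lit 4))))) (T.tp (T.ts (nat_lit 1) (T.ts (nat_lit 4) (T.ts (nat_lit 3) (T.im (nat_lit 7) (nat_lit 3)) (T.sk (T.ls (nat_lit 3) (nat_lit 4)))) (T.sk (T.ls (nat_lit 3) (nat_lit 4)))) (T.ts (nat_lit 0) (T.ts (nat_lit 4) (T.ts (nat_lit 3) (T.im (nat_lit 7) (nat_lit 3)) (T.sk (T.ls (nat_lit 3) (nat_lit 4)))) (T.sk (T.ls (nat_lit 3) (nat_lit 4)))) (T.ts (nat_lit 4) (T.im (nat_lit 7) (nat_lit 2)) T.ie)))))) (T.ts (nat_lit 2) (T.ts (nat_lit 3) (T.ls (nat_lit 3) (nat_lit 4)) (T.ts (nat_lit 2) (T.ls (nat_lit 3) (nat_lit 4)) d561))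 (T.ts (nat_lit 1) (T.tp (T.ts (nat_lit 3) (T.ls (nat_lit 3) (nat_lit 4)) (T.ts (nat_lit 2) (T.ls (nat_lit 3) (nat_lit 4)) (T.ts (nat_lit 4) (T.im (nat_lit 7) (nat_lit 2)) (T.ts (nat_lit 1) (T.im (nat_lit 3) (nat_lit 4)) (T.ts (nat_lit 0) (T.im (nat_lit 5) (nat_lit 3)) T.ie)))))) (T.ts (nat_lit 0) (T.ts (nat_lit 3) (T.ls (nat_lit 3) (nat_lit 4)) (T.ts (nat_lit 2) (T.ls (nat_lit 3) (nat_lit 4)) d562)) (T.tp (T.ts (nat_lit 4) (T.im (nat_lit 7) (nat_lit 1)) T.ie))))))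
def d564 : T := (T.ts (nat_lit 1) (T.ts (nat_lit 4) (T.ts (nat_lit 3) (T.ts (nat_lit 2) (T.ts (nat_lit 4) (T.ts (nat_lit 1) (T.ts (nat_lit 1) (T.ts (nat_lit 0) (T.ts (nat_lit 3) (T.l1 (nat_lit 12300) (nat_lit 4) (nat_lit 20500)) (T.tp (T.sk (T.ls (nat_lit 3) (nat_lit 4))))) (T.tp (T.sk (T.ls (nat_lit 3) (nat_lit 4))))) (T.tp (T.sk (T.ls (nat_lit 3) (nat_lit 4))))) (T.tp (T.sk (T.ls (nat_lit 3) (nat_lit 4))))) (T.tp (T.sk (T.ls (nat_lit 3) (nat_lit 4))))) (T.tp (T.sk (T.ls (nat_lit 3) (nat_lit 4))))) (T.tp (T.sk (T.ls (nat_lit 3) (nat_lit 4))))) (T.tp (T.sk (T.ls (nat_lit 3) (nat_lit 4))))) (T.ts (nat_lit 0) (T.ts (nat_lit 4) (T.ts (nat_lit 3) (T.ts (nat_lit 2) (T.ts (nat_lit 4) (T.ts (nat_lit 1) (T.ts (nat_lit 1) (T.ts (nat_lit 0) (T.ts (nat_lit 3) (T.l1 (nat_lit 12300) (nat_lit 3)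 (nat_lit 20500)) (T.tp (T.sk (T.ls (nat_lit 3) (nat_lit 4))))) (T.tp (T.sk (T.ls (nat_lit 3) (nat_lit 4))))) (T.tp (T.sk (T.ls (nat_lit 3) (nat_lit 4))))) (T.tp (T.sk (T.ls (nat_lit 3) (nat_lit 4))))) (T.tp (T.sk (T.ls (nat_lit 3) (nat_lit 4))))) (T.tp (T.sk (T.ls (nat_lit 3) (nat_lit 4))))) (T.tp (T.sk (T.ls (nat_lit 3) (nat_lit 4))))) (T.tp (T.sk (T.ls (nat_lit 3) (nat_lit 4))))) (T.tp (T.ts (nat_lit 3) (T.im (nat_lit 7) (nat_lit 2)) T.ie))))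
def d565 : T := (T.ts (nat_lit 1) (T.ts (nat_lit 4) (T.ts (nat_lit 3) (T.ts (nat_lit 2) (T.ts (nat_lit 4) (T.ts (nat_lit 1) (T.ts (nat_lit 1) (T.ts (nat_lit 0) (T.ts (nat_lit 3) (T.l1 (nat_lit 12300) (nat_lit 4) (nat_lit 20500)) (T.tp (T.sk (T.ls (nat_lit 3) (nat_lit 4))))) (T.tp (T.sk (T.ls (nat_lit 3) (nat_lit 4))))) (T.tp (T.sk (T.ls (nat_lit 3) (nat_lit 4))))) (T.tp (T.sk (T.ls (nat_lit 3) (nat_lit 4))))) (T.tp (T.sk (T.ls (nat_lit 3) (nat_lit 4))))) (T.tp (T.sk (T.ls (nat_lit 3) (nat_lit 4))))) (T.tp (T.sk (T.ls (nat_lit 3) (nat_lit 4))))) (T.tp (T.sk (T.ls (nat_lit 3) (nat_lit 4))))) (T.ts (nat_lit 0) (T.ts (nat_lit 4) (T.ts (nat_lit 3) (T.ts (nat_lit 2) (T.ts (nat_lit 4) (T.ts (nat_lit 1) (T.ts (nat_lit 1) (T.ts (nat_lit 0) (T.ts (nat_lit 3) (T.l1 (nat_lit 12300) (nat_lit 3)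 (nat_lit 20500)) (T.tp (T.sk (T.ls (nat_lit 3) (nat_lit 4))))) (T.tp (T.sk (T.ls (nat_lit 3) (nat_lit 4))))) (T.tp (T.sk (T.ls (nat_lit 3) (nat_lit 4))))) (T.tp (T.sk (T.ls (nat_lit 3) (nat_lit 4))))) (T.tp (T.sk (T.ls (nat_lit 3) (nat_lit 4))))) (T.tp (T.sk (T.ls (nat_lit 3) (nat_lit 4))))) (T.tp (T.sk (T.ls (nat_lit 3) (nat_lit 4))))) (T.tp (T.sk (T.ls (nat_lit 3) (nat_lit 4))))) (T.tp (T.ts (nat_lit 3) (T.im (nat_lit 7) (nat_lit 2)) T.ie))))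
def d566 : T := (T.ts (nat_lit 4) (T.ts (nat_lit 3) (T.ts (nat_lit 2) (T.ts (nat_lit 4) (T.ts (nat_lit 1) (T.ts (nat_lit 1) (T.im (nat_lit 13) (nat_lit 1)) (T.sk (T.lf (nat_lit 16569) (nat_lit 3) (nat_lit 12300) (nat_lit 4) (nat_lit 20500)))) (T.tp (T.sk (T.ls (nat_lit 3) (nat_lit 4))))) (T.tp (T.sk (T.ls (nat_lit 3) (nat_lit 4))))) (T.tp (T.sk (T.ls (nat_lit 3) (nat_lit 4))))) (T.tp (T.sk (T.ls (nat_lit 3) (nat_lit 4))))) (T.ts (nat_lit 2) (T.ls (nat_lit 3) (nat_lit 4)) (T.ts (nat_lit 1) (T.ts (nat_lit 4) (T.ts (nat_lit 3) (T.ts (nat_lit 2) (T.ts (nat_lit 4) (T.ts (nat_lit 1) (T.ts (nat_lit 1) (T.ts (nat_lit 0) (T.ts (nat_lit 3) (T.l1 (nat_lit 12300) (nat_lit 4) (nat_lit 20500)) (T.tp (T.sk (T.ls (nat_lit 3) (nat_lit 4))))) (T.tp (T.sk (T.ls (nat_lit 3) (nat_lit 4))))) (T.tp (T.sk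 (T.ls (nat_lit 3) (nat_lit 4))))) (T.tp (T.sk (T.ls (nat_lit 3) (nat_lit 4))))) (T.tp (T.sk (T.ls (nat_lit 3) (nat_lit 4))))) (T.tp (T.sk (T.ls (nat_lit 3) (nat_lit 4))))) (T.tp (T.sk (T.ls (nat_lit 3) (nat_lit 4))))) (T.tp (T.sk (T.ls (nat_lit 3) (nat_lit 4))))) (T.tp (T.ts (nat_lit 3) (T.im (nat_lit 7) (nat_lit 2)) (T.ts (nat_lit 0) (T.im (nat_lit 5) (nat_lit 3)) T.ie))))))
def d567 : T := (T.ts (nat_lit 1) (T.ts (nat_lit 4) (T.ts (nat_lit 3) (T.ts (nat_lit 2) (T.ts (nat_lit 4) (T.ts (nat_lit 1) (T.ts (nat_lit 1) (T.ts (nat_lit 0) (T.ts (nat_lit 3) (T.l1 (nat_lit 12300) (nat_lit 4) (nat_lit 20500)) (T.tp (T.sk (T.ls (nat_lit 3) (nat_lit 4))))) (T.tp (T.sk (T.ls (nat_lit 3) (nat_lit 4))))) (T.tp (T.sk (T.ls (nat_lit 3) (nat_lit 4))))) (T.tp (T.sk (T.ls (nat_lit 3) (nat_lit 4)))))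 (T.tp (T.sk (T.ls (nat_lit 3) (nat_lit 4))))) (T.tp (T.sk (T.ls (nat_lit 3) (nat_lit 4))))) (T.tp (T.sk (T.ls (nat_lit 3) (nat_lit 4))))) (T.tp (T.sk (T.ls (nat_lit 3) (nat_lit 4))))) (T.ts (nat_lit 0) (T.ts (nat_lit 4) (T.ts (nat_lit 3) (T.ts (nat_lit 2) (T.ts (nat_lit 4) (T.ts (nat_lit 1) (T.ts (nat_lit 1) (T.ts (nat_lit 0) (T.ts (nat_lit 3) (T.l1 (nat_lit 12300) (nat_lit 3) (nat_lit 20500)) (T.tp (T.sk (T.ls (nat_lit 3) (nat_lit 4))))) (T.tp (T.sk (T.ls (nat_lit 3) (nat_lit 4))))) (T.tp (T.sk (T.ls (nat_lit 3) (nat_lit 4))))) (T.tp (T.sk (T.ls (nat_lit 3) (nat_lit 4))))) (T.tp (T.sk (T.ls (nat_lit 3) (nat_lit 4))))) (T.tp (T.sk (T.ls (nat_lit 3) (nat_lit 4))))) (T.tp (T.sk (T.ls (nat_lit 3) (nat_lit 4))))) (T.tp (T.sk (T.ls (nat_lit 3) (nat_lit 4))))) (T.tp (T.ts (nat_lit 3) (T.im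 (nat_lit 7) (nat_lit 2)) T.ie))))
def d568 : T := (T.ts (nat_lit 1) (T.ts (nat_lit 4) (T.ts (nat_lit 3) (T.ts (nat_lit 2) (T.ts (nat_lit 4) (T.ts (nat_lit 1) (T.ts (nat_lit 1) (T.ts (nat_lit 0) (T.ts (nat_lit 2) (T.l1 (nat_lit 12300) (nat_lit 4) (nat_lit 20500)) (T.tp (T.sk (T.ls (nat_lit 3) (nat_lit 4))))) (T.tp (T.sk (T.ls (nat_lit 3) (nat_lit 4))))) (T.tp (T.sk (T.ls (nat_lit 3) (nat_lit 4))))) (T.tp (T.sk (T.ls (nat_lit 3) (nat_lit 4))))) (T.tp (T.sk (T.ls (nat_lit 3) (nat_lit 4))))) (T.tp (T.sk (T.ls (nat_lit 3) (nat_lit 4))))) (T.tp (T.sk (T.ls (nat_lit 3) (nat_lit 4))))) (T.tp (T.sk (T.ls (nat_lit 3) (nat_lit 4))))) (T.ts (nat_lit 0) (T.ts (nat_lit 4) (T.ts (nat_lit 3) (T.ts (nat_lit 2) (T.ts (nat_lit 4) (T.ts (nat_lit 1) (T.ts (nat_lit 1) (T.ts (nat_lit 0) (T.ts (nat_lit 2)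 (T.l1 (nat_lit 12300) (nat_lit 3) (nat_lit 20500)) (T.tp (T.sk (T.ls (nat_lit 3) (nat_lit 4))))) (T.tp (T.sk (T.ls (nat_lit 3) (nat_lit 4))))) (T.tp (T.sk (T.ls (nat_lit 3) (nat_lit 4))))) (T.tp (T.sk (T.ls (nat_lit 3) (nat_lit 4))))) (T.tp (T.sk (T.ls (nat_lit 3) (nat_lit 4))))) (T.tp (T.sk (T.ls (nat_lit 3) (nat_lit 4))))) (T.tp (T.sk (T.ls (nat_lit 3) (nat_lit 4))))) (T.tp (T.sk (T.ls (nat_lit 3) (nat_lit 4))))) (T.tp (T.ts (nat_lit 2) (T.im (nat_lit 7) (nat_lit 2)) T.ie))))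
def d569 : T := (T.ts (nat_lit 1) (T.ts (nat_lit 4) (T.ts (nat_lit 3) (T.ts (nat_lit 2) (T.ts (nat_lit 4) (T.ts (nat_lit 1) (T.ts (nat_lit 1) (T.ts (nat_lit 0) (T.ts (nat_lit 2) (T.l1 (nat_lit 12300) (nat_lit 4) (nat_lit 20500)) (T.sk (T.lf (nat_lit 16569) (nat_lit 3) (nat_lit 12300) (nat_lit 4) (nat_lit 20500)))) (T.sk (T.lf (nat_lit 16569) (nat_lit 3) (nat_lit 12300) (nat_lit 4) (nat_lit 20500)))) (T.tp (T.sk (T.ls (nat_lit 3) (nat_lit 4))))) (T.tp (T.sk (T.ls (nat_lit 3) (nat_lit 4))))) (T.tp (T.sk (T.ls (nat_lit 3) (nat_lit 4))))) (T.tp (T.sk (T.ls (nat_lit 3) (nat_lit 4))))) (T.tp (T.sk (T.ls (nat_lit 3) (nat_lit 4))))) (T.tp (T.sk (T.ls (nat_lit 3) (nat_lit 4))))) (T.ts (nat_lit 0) (T.ts (nat_lit 4) (T.ts (nat_lit 3) (T.ts (nat_lit 2) (T.ts (nat_lit 4) (T.ts (nat_lit 1) (T.ts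 (nat_lit 1) (T.ts (nat_lit 0) (T.ts (nat_lit 2) (T.l1 (nat_lit 12300) (nat_lit 3) (nat_lit 20500)) (T.sk (T.lf (nat_lit 16569) (nat_lit 3) (nat_lit 20500) (nat_lit 4) (nat_lit 12300)))) (T.sk (T.lf (nat_lit 16569) (nat_lit 3) (nat_lit 20500) (nat_lit 4) (nat_lit 12300)))) (T.sk (T.lf (nat_lit 18835) (nat_lit 3) (nat_lit 20500) (nat_lit 4) (nat_lit 16076)))) (T.sk (T.lf (nat_lit 18835) (nat_lit 3) (nat_lit 20500) (nat_lit 4) (nat_lit 16076)))) (T.tp (T.sk (T.ls (nat_lit 3) (nat_lit 4))))) (T.tp (T.sk (T.ls (nat_lit 3) (nat_lit 4))))) (T.tp (T.sk (T.ls (nat_lit 3) (nat_lit 4))))) (T.tp (T.sk (T.ls (nat_lit 3) (nat_lit 4))))) (T.tp (T.ts (nat_lit 2) (T.im (nat_lit 7) (nat_lit 2)) T.ie))))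
def d570 : T := (T.ts (nat_lit 1) (T.ts (nat_lit 4) (T.ts (nat_lit 3) (T.ts (nat_lit 2) (T.ts (nat_lit 4) (T.ts (nat_lit 1) (T.ts (nat_lit 1) (T.ts (nat_lit 0) (T.ts (nat_lit 2) (T.l1 (nat_lit 12300) (nat_lit 4) (nat_lit 20500)) (T.tp (T.sk (T.ls (nat_lit 3) (nat_lit 4))))) (T.tp (T.sk (T.ls (nat_lit 3) (nat_lit 4))))) (T.tp (T.sk (T.ls (nat_lit 3) (nat_lit 4))))) (T.tp (T.sk (T.ls (nat_lit 3) (nat_lit 4))))) (T.tp (T.sk (T.ls (nat_lit 3) (nat_lit 4))))) (T.tp (T.sk (T.ls (nat_lit 3) (nat_lit 4))))) (T.tp (T.sk (T.ls (nat_lit 3) (nat_lit 4))))) (T.tp (T.sk (T.ls (nat_lit 3) (nat_lit 4))))) (T.ts (nat_lit 0) (T.ts (nat_lit 4) (T.ts (nat_lit 3) (T.ts (nat_lit 2) (T.ts (nat_lit 4) (T.ts (nat_lit 1) (T.ts (nat_lit 1) (T.ts (nat_lit 0) (T.ts (nat_lit 2) (T.l1 (nat_lit 12300) (nat_lit 3)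 (nat_lit 20500)) (T.tp (T.sk (T.ls (nat_lit 3) (nat_lit 4))))) (T.tp (T.sk (T.ls (nat_lit 3) (nat_lit 4))))) (T.tp (T.sk (T.ls (nat_lit 3) (nat_lit 4))))) (T.tp (T.sk (T.ls (nat_lit 3) (nat_lit 4))))) (T.tp (T.sk (T.ls (nat_lit 3) (nat_lit 4))))) (T.tp (T.sk (T.ls (nat_lit 3) (nat_lit 4))))) (T.tp (T.sk (T.ls (nat_lit 3) (nat_lit 4))))) (T.tp (T.sk (T.ls (nat_lit 3) (nat_lit 4))))) (T.tp (T.ts (nat_lit 2) (T.im (nat_lit 7) (nat_lit 2)) T.ie))))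
def d571 : T := (T.ts (nat_lit 1) (T.ts (nat_lit 4) (T.tp (T.ts (nat_lit 3) (T.ts (nat_lit 2) (T.ts (nat_lit 4) (T.ts (nat_lit 1) (T.ts (nat_lit 1) (T.im (nat_lit 13) (nat_lit 1)) (T.sk (T.ls (nat_lit 3) (nat_lit 4)))) (T.sk (T.ls (nat_lit 3) (nat_lit 4)))) (T.sk (T.ls (nat_lit 3) (nat_lit 4)))) (T.sk (T.ls (nat_lit 3) (nat_lit 4)))) (T.sk (T.ls (nat_lit 3) (nat_lit 4))))) (T.ts (nat_lit 3) (T.ls (nat_lit 3) (nat_lit 4)) (T.ts (nat_lit 1) (T.ts (nat_lit 4) (T.ts (nat_lit 3) (T.ts (nat_lit 2) (T.ts (nat_lit 4) (T.ts (nat_lit 1) (T.ts (nat_lit 1) (T.ts (nat_lit 0) (T.ts (nat_lit 2) (T.l1 (nat_lit 12300) (nat_lit 4) (nat_lit 20500)) (T.tp (T.sk (T.ls (nat_lit 3) (nat_lit 4))))) (T.tp (T.sk (T.ls (nat_lit 3) (nat_lit 4))))) (T.tp (T.sk (T.ls (nat_lit 3) (nat_lit 4))))) (T.tp (T.sk (T.ls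 (nat_lit 3) (nat_lit 4))))) (T.tp (T.sk (T.ls (nat_lit 3) (nat_lit 4))))) (T.tp (T.sk (T.ls (nat_lit 3) (nat_lit 4))))) (T.tp (T.sk (T.ls (nat_lit 3) (nat_lit 4))))) (T.tp (T.sk (T.ls (nat_lit 3) (nat_lit 4))))) (T.tp (T.ts (nat_lit 2) (T.im (nat_lit 7) (nat_lit 2)) (T.ts (nat_lit 0) (T.im (nat_lit 5) (nat_lit 3)) T.ie)))))) (T.ts (nat_lit 0) (T.ts (nat_lit 4) (T.tp (T.ts (nat_lit 3) (T.ts (nat_lit 2) (T.ts (nat_lit 4) (T.ts (nat_lit 1) (T.ts (nat_lit 1) (T.im (nat_lit 13) (nat_lit 1)) (T.sk (T.ls (nat_lit 3) (nat_lit 4)))) (T.sk (T.ls (nat_lit 3) (nat_lit 4)))) (T.sk (T.ls (nat_lit 3) (nat_lit 4)))) (T.sk (T.ls (nat_lit 3) (nat_lit 4)))) (T.sk (T.ls (nat_lit 3) (nat_lit 4))))) (T.ts (nat_lit 3) (T.ls (nat_lit 3) (nat_lit 4)) d570)) (T.tp (T.ts (nat_lit 2) (T.im (nat_lit 7) (nat_lit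 1)) T.ie))))
def d572 : T := (T.ts (nat_lit 4) (T.ls (nat_lit 3) (nat_lit 4)) (T.ts (nat_lit 3) (T.ts (nat_lit 4) (T.ls (nat_lit 3) (nat_lit 4)) (T.ts (nat_lit 2) (T.ts (nat_lit 4) (T.ts (nat_lit 1) (T.ts (nat_lit 1) (T.l1 (nat_lit 12300) (nat_lit 3) (nat_lit 20500)) (T.tp (T.sk (T.ls (nat_lit 3) (nat_lit 4))))) (T.tp (T.sk (T.ls (nat_lit 3) (nat_lit 4))))) (T.tp (T.sk (T.ls (nat_lit 3) (nat_lit 4))))) (T.tp (T.sk (T.ls (nat_lit 3) (nat_lit 4)))))) (T.ts (nat_lit 2) (T.ls (nat_lit 3) (nat_lit 4)) (T.ts (nat_lit 1) (T.ts (nat_lit 4) (T.ts (nat_lit 3) (T.ts (nat_lit 2) (T.ts (nat_lit 4) (T.ts (nat_lit 1) (T.ts (nat_lit 1) (T.ts (nat_lit 0) (T.ts (nat_lit 0) (T.l1 (nat_lit 12300) (nat_lit 4) (nat_lit 20500)) (T.tp (T.sk (T.ls (nat_lit 3) (nat_lit 4))))) (T.tp (T.sk (T.ls (nat_lit 3)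 (nat_lit 4))))) (T.tp (T.sk (T.ls (nat_lit 3) (nat_lit 4))))) (T.tp (T.sk (T.ls (nat_lit 3) (nat_lit 4))))) (T.tp (T.sk (T.ls (nat_lit 3) (nat_lit 4))))) (T.tp (T.sk (T.ls (nat_lit 3) (nat_lit 4))))) (T.tp (T.sk (T.ls (nat_lit 3) (nat_lit 4))))) (T.tp (T.sk (T.ls (nat_lit 3) (nat_lit 4))))) (T.tp (T.ts (nat_lit 0) (T.im (nat_lit 7) (nat_lit 2)) T.ie))))))
def d573 : T := (T.ts (nat_lit 1) (T.ts (nat_lit 4) (T.tp (T.ts (nat_lit 3) (T.ts (nat_lit 2) (T.ts (nat_lit 4) (T.ts (nat_lit 1) (T.ts (nat_lit 1) (T.im (nat_lit 13) (nat_lit 1)) (T.sk (T.ls (nat_lit 3) (nat_lit 4)))) (T.sk (T.ls (nat_lit 3) (nat_lit 4)))) (T.sk (T.ls (nat_lit 3) (nat_lit 4)))) (T.sk (T.ls (nat_lit 3) (nat_lit 4)))) (T.sk (T.ls (nat_lit 3) (nat_lit 4))))) (T.ts (nat_lit 3) (T.ls (nat_lit 3) (nat_lit 4)) (T.ts (nat_lit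 2) (T.ls (nat_lit 3) (nat_lit 4)) (T.ts (nat_lit 1) (T.ts (nat_lit 4) (T.ts (nat_lit 3) (T.ts (nat_lit 2) (T.ts (nat_lit 4) (T.ts (nat_lit 1) (T.ts (nat_lit 1) (T.ts (nat_lit 0) (T.ts (nat_lit 0) (T.l1 (nat_lit 12300) (nat_lit 4) (nat_lit 20500)) (T.tp (T.sk (T.ls (nat_lit 3) (nat_lit 4))))) (T.tp (T.sk (T.ls (nat_lit 3) (nat_lit 4))))) (T.tp (T.sk (T.ls (nat_lit 3) (nat_lit 4))))) (T.tp (T.sk (T.ls (nat_lit 3) (nat_lit 4))))) (T.tp (T.sk (T.ls (nat_lit 3) (nat_lit 4))))) (T.tp (T.sk (T.ls (nat_lit 3) (nat_lit 4))))) (T.tp (T.sk (T.ls (nat_lit 3) (nat_lit 4))))) (T.tp (T.sk (T.ls (nat_lit 3) (nat_lit 4))))) (T.tp (T.ts (nat_lit 0) (T.im (nat_lit 5) (nat_lit 3)) T.ie)))))) (T.tp (T.ts (nat_lit 0) (T.im (nat_lit 7) (nat_lit 1)) T.ie)))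
def d574 : T := (T.ts (nat_lit 3) (T.ts (nat_lit 4) (T.ls (nat_lit 3) (nat_lit 4)) (T.ts (nat_lit 3) (T.ls (nat_lit 3) (nat_lit 4)) (T.ts (nat_lit 2) (T.ls (nat_lit 3) (nat_lit 4)) (T.ts (nat_lit 1) (T.ts (nat_lit 4) (T.ts (nat_lit 3) (T.ts (nat_lit 2) (T.ts (nat_lit 4) (T.ts (nat_lit 1) (T.ts (nat_lit 1) (T.ts (nat_lit 0) (T.ts (nat_lit 0) (T.l1 (nat_lit 12300) (nat_lit 4) (nat_lit 20500)) (T.sk (T.lf (nat_lit 16569) (nat_lit 3) (nat_lit 12300) (nat_lit 4) (nat_lit 20500)))) (T.sk (T.lf (nat_lit 16569) (nat_lit 3) (nat_lit 12300) (nat_lit 4) (nat_lit 20500)))) (T.tp (T.sk (T.ls (nat_lit 3) (nat_lit 4))))) (T.tp (T.sk (T.ls (nat_lit 3) (nat_lit 4))))) (T.tp (T.sk (T.ls (nat_lit 3) (nat_lit 4))))) (T.tp (T.sk (T.ls (nat_lit 3) (nat_lit 4))))) (T.tp (T.sk (T.ls (nat_lit 3) (nat_lit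 4))))) (T.tp (T.sk (T.ls (nat_lit 3) (nat_lit 4))))) (T.tp (T.ts (nat_lit 0) (T.im (nat_lit 7) (nat_lit 2)) T.ie)))))) (T.ts (nat_lit 2) (T.ts (nat_lit 4) (T.ls (nat_lit 3) (nat_lit 4)) (T.ts (nat_lit 3) (T.ls (nat_lit 3) (nat_lit 4)) (T.ts (nat_lit 2) (T.ls (nat_lit 3) (nat_lit 4)) (T.ts (nat_lit 1) (T.ts (nat_lit 4) (T.ts (nat_lit 3) (T.ts (nat_lit 2) (T.ts (nat_lit 4) (T.ts (nat_lit 1) (T.ts (nat_lit 1) (T.ts (nat_lit 0) (T.ts (nat_lit 0) (T.l1 (nat_lit 12300) (nat_lit 4) (nat_lit 20500)) (T.tp (T.sk (T.ls (nat_lit 3) (nat_lit 4))))) (T.tp (T.sk (T.ls (nat_lit 3) (nat_lit 4))))) (T.tp (T.sk (T.ls (nat_lit 3) (nat_lit 4))))) (T.tp (T.sk (T.ls (nat_lit 3) (nat_lit 4))))) (T.tp (T.sk (T.ls (nat_lit 3) (nat_lit 4))))) (T.tp (T.sk (T.ls (nat_lit 3) (nat_lit 4))))) (T.tp (T.sk (T.ls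 (nat_lit 3) (nat_lit 4))))) (T.tp (T.sk (T.ls (nat_lit 3) (nat_lit 4))))) (T.tp (T.ts (nat_lit 0) (T.im (nat_lit 7) (nat_lit 2)) T.ie)))))) d573))
def d575 : T := (T.ts (nat_lit 3) (T.ts (nat_lit 4) (T.ts (nat_lit 4) (T.ls (nat_lit 3) (nat_lit 4)) (T.ts (nat_lit 2) (T.ls (nat_lit 3) (nat_lit 4)) d564)) (T.ts (nat_lit 2) (T.ts (nat_lit 4) (T.ls (nat_lit 3) (nat_lit 4)) (T.ts (nat_lit 2) (T.ls (nat_lit 3) (nat_lit 4)) d565)) (T.ts (nat_lit 1) d566 (T.ts (nat_lit 0) (T.ts (nat_lit 4) (T.tp (T.ts (nat_lit 3) (T.ts (nat_lit 2) (T.ts (nat_lit 4) (T.ts (nat_lit 1) (T.ts (nat_lit 1) (T.im (nat_lit 13) (nat_lit 1)) (T.sk (T.ls (nat_lit 3) (nat_lit 4)))) (T.sk (T.ls (nat_lit 3) (nat_lit 4)))) (T.sk (T.ls (nat_lit 3) (nat_lit 4)))) (T.sk (T.ls (nat_lit 3) (nat_lit 4)))) (T.sk (T.ls (nat_lit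 3) (nat_lit 4))))) (T.ts (nat_lit 2) (T.ls (nat_lit 3) (nat_lit 4)) d567)) (T.tp (T.ts (nat_lit 3) (T.im (nat_lit 7) (nat_lit 1)) T.ie)))))) (T.ts (nat_lit 2) (T.ts (nat_lit 4) (T.ts (nat_lit 4) (T.ls (nat_lit 3) (nat_lit 4)) (T.ts (nat_lit 3) (T.ls (nat_lit 3) (nat_lit 4)) d568)) (T.ts (nat_lit 3) (T.ts (nat_lit 4) (T.ls (nat_lit 3) (nat_lit 4)) (T.ts (nat_lit 3) (T.ls (nat_lit 3) (nat_lit 4)) d569)) d571)) (T.ts (nat_lit 0) (T.ts (nat_lit 4) d572 d574) (T.tp (T.ts (nat_lit 1) (T.im (nat_lit 5) (nat_lit 2)) T.ie)))))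
def d576 : T := (T.ts (nat_lit 0) (T.im (nat_lit 5) (nat_lit 1)) (T.nw (T.ts (nat_lit 4) d563 d575)))
def d577 : T := (T.im (nat_lit 3) (nat_lit 2))
def d578 : T := (T.ts (nat_lit 1) (T.ts (nat_lit 4) (T.ts (nat_lit 3) (T.ts (nat_lit 2) (T.ts (nat_lit 4) (T.ts (nat_lit 1) (T.ts (nat_lit 0) (T.ts (nat_lit 4) (T.ts (nat_lit 4) (T.l1 (nat_lit 12300) (nat_lit 4) (nat_lit 20500)) (T.tp (T.sk (T.ls (nat_lit 3) (nat_lit 4))))) (T.tp (T.sk (T.ls (nat_lit 3) (nat_lit 4))))) (T.tp (T.sk (T.ls (nat_lit 3) (nat_lit 4))))) (T.tp (T.sk (T.ls (nat_lit 3) (nat_lit 4))))) (T.tp (T.sk (T.ls (nat_lit 3) (nat_lit 4))))) (T.tp (T.sk (T.ls (nat_lit 3) (nat_lit 4))))) (T.tp (T.sk (T.ls (nat_lit 3) (nat_lit 4))))) (T.tp (T.sk (T.ls (nat_lit 3) (nat_lit 4))))) (T.ts (nat_lit 0) (T.ts (nat_lit 4) (T.ts (nat_lit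 3) (T.ts (nat_lit 2) (T.ts (nat_lit 4) (T.ts (nat_lit 1) (T.ts (nat_lit 0) (T.ts (nat_lit 4) (T.ts (nat_lit 4) (T.l1 (nat_lit 12300) (nat_lit 3) (nat_lit 20500)) (T.tp (T.sk (T.ls (nat_lit 3) (nat_lit 4))))) (T.tp (T.sk (T.ls (nat_lit 3) (nat_lit 4))))) (T.tp (T.sk (T.ls (nat_lit 3) (nat_lit 4))))) (T.tp (T.sk (T.ls (nat_lit 3) (nat_lit 4))))) (T.tp (T.sk (T.ls (nat_lit 3) (nat_lit 4))))) (T.tp (T.sk (T.ls (nat_lit 3) (nat_lit 4))))) (T.tp (T.sk (T.ls (nat_lit 3) (nat_lit 4))))) (T.tp (T.sk (T.ls (nat_lit 3) (nat_lit 4))))) (T.tp (T.ts (nat_lit 4) (T.im (nat_lit 7) (nat_lit 2)) T.ie))))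
def d579 : T := (T.ts (nat_lit 1) (T.ts (nat_lit 4) (T.ts (nat_lit 3) (T.ts (nat_lit 2) (T.ts (nat_lit 4) (T.ts (nat_lit 1) (T.ts (nat_lit 0) (T.ts (nat_lit 4) (T.ts (nat_lit 4) (T.l1 (nat_lit 12300) (nat_lit 4) (nat_lit 20500)) (T.tp (T.sk (T.ls (nat_lit 3) (nat_lit 4))))) (T.tp (T.sk (T.ls (nat_lit 3) (nat_lit 4))))) (T.tp (T.sk (T.ls (nat_lit 3) (nat_lit 4))))) (T.tp (T.sk (T.ls (nat_lit 3) (nat_lit 4))))) (T.tp (T.sk (T.ls (nat_lit 3) (nat_lit 4))))) (T.tp (T.sk (T.ls (nat_lit 3) (nat_lit 4))))) (T.tp (T.sk (T.ls (nat_lit 3) (nat_lit 4))))) (T.tp (T.sk (T.ls (nat_lit 3) (nat_lit 4))))) (T.ts (nat_lit 0) (T.ts (nat_lit 4) (T.ts (nat_lit 3) (T.ts (nat_lit 2) (T.ts (nat_lit 4) (T.ts (nat_lit 1) (T.ts (nat_lit 0) (T.ts (nat_lit 4) (T.ts (nat_lit 4) (T.l1 (nat_lit 12300) (nat_lit 3)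 (nat_lit 20500)) (T.tp (T.sk (T.ls (nat_lit 3) (nat_lit 4))))) (T.tp (T.sk (T.ls (nat_lit 3) (nat_lit 4))))) (T.tp (T.sk (T.ls (nat_lit 3) (nat_lit 4))))) (T.tp (T.sk (T.ls (nat_lit 3) (nat_lit 4))))) (T.tp (T.sk (T.ls (nat_lit 3) (nat_lit 4))))) (T.tp (T.sk (T.ls (nat_lit 3) (nat_lit 4))))) (T.tp (T.sk (T.ls (nat_lit 3) (nat_lit 4))))) (T.tp (T.sk (T.ls (nat_lit 3) (nat_lit 4))))) (T.tp (T.ts (nat_lit 4) (T.im (nat_lit 5) (nat_lit 3)) T.ie))))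
def d580 : T := (T.ts (nat_lit 2) (T.ts (nat_lit 3) (T.ls (nat_lit 3) (nat_lit 4)) (T.ts (nat_lit 2) (T.ls (nat_lit 3) (nat_lit 4)) d578)) (T.ts (nat_lit 1) (T.ts (nat_lit 3) (T.ls (nat_lit 3) (nat_lit 4)) (T.ts (nat_lit 2) (T.ls (nat_lit 3) (nat_lit 4)) (T.ts (nat_lit 1) (T.ts (nat_lit 4) (T.ts (nat_lit 3) (T.ts (nat_lit 2) (T.ts (nat_lit 4) (T.ts (nat_lit 1) (T.ts (nat_lit 0) (T.ts (nat_lit 4) (T.ts (nat_lit 4) (T.l1 (nat_lit 12300) (nat_lit 4) (nat_lit 20500)) (T.tp (T.sk (T.ls (nat_lit 3) (nat_lit 4))))) (T.tp (T.sk (T.ls (nat_lit 3) (nat_lit 4))))) (T.tp (T.sk (T.ls (nat_lit 3) (nat_lit 4))))) (T.tp (T.sk (T.ls (nat_lit 3) (nat_lit 4))))) (T.tp (T.sk (T.ls (nat_lit 3) (nat_lit 4))))) (T.tp (T.sk (T.ls (nat_lit 3) (nat_lit 4))))) (T.tp (T.sk (T.ls (nat_lit 3) (nat_lit 4))))) (T.tp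 (T.sk (T.ls (nat_lit 3) (nat_lit 4))))) (T.tp (T.ts (nat_lit 4) (T.im (nat_lit 7) (nat_lit 2)) (T.ts (nat_lit 0) (T.im (nat_lit 3) (nat_lit 4)) T.ie)))))) (T.ts (nat_lit 0) (T.ts (nat_lit 3) (T.ls (nat_lit 3) (nat_lit 4)) (T.ts (nat_lit 2) (T.ls (nat_lit 3) (nat_lit 4)) d579)) (T.tp (T.ts (nat_lit 4) (T.im (nat_lit 7) (nat_lit 1)) T.ie)))))
def d581 : T := (T.ts (nat_lit 4) (T.ts (nat_lit 3) (T.ts (nat_lit 2) (T.ts (nat_lit 4) (T.ts (nat_lit 1) (T.ts (nat_lit 0) (T.ts (nat_lit 4) (T.l1 (nat_lit 12300) (nat_lit 4) (nat_lit 20500)) (T.tp (T.sk (T.ls (nat_lit 3) (nat_lit 4))))) (T.tp (T.sk (T.ls (nat_lit 3) (nat_lit 4))))) (T.tp (T.sk (T.ls (nat_lit 3) (nat_lit 4))))) (T.tp (T.sk (T.ls (nat_lit 3) (nat_lit 4))))) (T.tp (T.sk (T.ls (nat_lit 3) (nat_lit 4))))) (T.tp (T.sk (T.ls (nat_lit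 3) (nat_lit 4))))) (T.ts (nat_lit 2) (T.ls (nat_lit 3) (nat_lit 4)) (T.ts (nat_lit 1) (T.ts (nat_lit 4) (T.ts (nat_lit 3) (T.ts (nat_lit 2) (T.ts (nat_lit 4) (T.ts (nat_lit 1) (T.ts (nat_lit 0) (T.ts (nat_lit 4) (T.ts (nat_lit 3) (T.l1 (nat_lit 12300) (nat_lit 4) (nat_lit 20500)) (T.tp (T.sk (T.ls (nat_lit 3) (nat_lit 4))))) (T.tp (T.sk (T.ls (nat_lit 3) (nat_lit 4))))) (T.tp (T.sk (T.ls (nat_lit 3) (nat_lit 4))))) (T.tp (T.sk (T.ls (nat_lit 3) (nat_lit 4))))) (T.tp (T.sk (T.ls (nat_lit 3) (nat_lit 4))))) (T.tp (T.sk (T.ls (nat_lit 3) (nat_lit 4))))) (T.tp (T.sk (T.ls (nat_lit 3) (nat_lit 4))))) (T.tp (T.sk (T.ls (nat_lit 3) (nat_lit 4))))) (T.tp (T.ts (nat_lit 0) (T.ts (nat_lit 4) (T.ts (nat_lit 3) (T.im (nat_lit 5) (nat_lit 4)) (T.sk (T.ls (nat_lit 3) (nat_lit 4)))) (T.sk (T.ls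 (nat_lit 3) (nat_lit 4)))) (T.ts (nat_lit 3) (T.im (nat_lit 7) (nat_lit 2)) T.ie))))))
def d582 : T := (T.ts (nat_lit 2) (T.ts (nat_lit 4) (T.l1 (nat_lit 12300) (nat_lit 3) (nat_lit 20500)) (T.ts (nat_lit 2) (T.ls (nat_lit 3) (nat_lit 4)) (T.ts (nat_lit 1) (T.ts (nat_lit 4) (T.ts (nat_lit 3) (T.ts (nat_lit 2) (T.ts (nat_lit 4) (T.ts (nat_lit 1) (T.ts (nat_lit 0) (T.ts (nat_lit 4) (T.ts (nat_lit 3) (T.l1 (nat_lit 12300) (nat_lit 4) (nat_lit 20500)) (T.tp (T.sk (T.ls (nat_lit 3) (nat_lit 4))))) (T.tp (T.sk (T.ls (nat_lit 3) (nat_lit 4))))) (T.tp (T.sk (T.ls (nat_lit 3) (nat_lit 4))))) (T.tp (T.sk (T.ls (nat_lit 3) (nat_lit 4))))) (T.tp (T.sk (T.ls (nat_lit 3) (nat_lit 4))))) (T.tp (T.sk (T.ls (nat_lit 3) (nat_lit 4))))) (T.tp (T.sk (T.ls (nat_lit 3) (nat_lit 4))))) (T.tp (T.sk (T.ls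 (nat_lit 3) (nat_lit 4))))) (T.tp (T.ts (nat_lit 0) (T.ts (nat_lit 4) (T.ts (nat_lit 3) (T.im (nat_lit 5) (nat_lit 4)) (T.sk (T.ls (nat_lit 3) (nat_lit 4)))) (T.sk (T.ls (nat_lit 3) (nat_lit 4)))) (T.ts (nat_lit 3) (T.im (nat_lit 7) (nat_lit 2)) T.ie)))))) (T.ts (nat_lit 1) d581 (T.ts (nat_lit 0) (T.ts (nat_lit 2) (T.ls (nat_lit 3) (nat_lit 4)) (T.ts (nat_lit 1) (T.ts (nat_lit 4) (T.ts (nat_lit 3) (T.ts (nat_lit 2) (T.ts (nat_lit 4) (T.ts (nat_lit 1) (T.ts (nat_lit 0) (T.ts (nat_lit 4) (T.ts (nat_lit 3) (T.l1 (nat_lit 12300) (nat_lit 4) (nat_lit 20500)) (T.tp (T.sk (T.ls (nat_lit 3) (nat_lit 4))))) (T.tp (T.sk (T.ls (nat_lit 3) (nat_lit 4))))) (T.tp (T.sk (T.ls (nat_lit 3) (nat_lit 4))))) (T.tp (T.sk (T.ls (nat_lit 3) (nat_lit 4))))) (T.tp (T.sk (T.ls (nat_lit 3) (nat_lit 4))))) (T.tp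 (T.sk (T.ls (nat_lit 3) (nat_lit 4))))) (T.tp (T.sk (T.ls (nat_lit 3) (nat_lit 4))))) (T.tp (T.sk (T.ls (nat_lit 3) (nat_lit 4))))) (T.tp (T.ts (nat_lit 0) (T.ts (nat_lit 4) (T.ts (nat_lit 3) (T.im (nat_lit 5) (nat_lit 4)) (T.sk (T.ls (nat_lit 3) (nat_lit 4)))) (T.sk (T.ls (nat_lit 3) (nat_lit 4)))) (T.ts (nat_lit 4) (T.im (nat_lit 5) (nat_lit 3)) (T.ts (nat_lit 3) (T.im (nat_lit 7) (nat_lit 2)) T.ie)))))) (T.tp (T.ts (nat_lit 3) (T.im (nat_lit 7) (nat_lit 1)) T.ie)))))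
def d583 : T := (T.ts (nat_lit 1) (T.ts (nat_lit 4) (T.ts (nat_lit 3) (T.ts (nat_lit 2) (T.ts (nat_lit 4) (T.ts (nat_lit 1) (T.ts (nat_lit 0) (T.ts (nat_lit 4) (T.ts (nat_lit 2) (T.l1 (nat_lit 12300) (nat_lit 4) (nat_lit 20500)) (T.tp (T.sk (T.ls (nat_lit 3) (nat_lit 4))))) (T.tp (T.sk (T.ls (nat_lit 3) (nat_lit 4))))) (T.tp (T.sk (T.ls (nat_lit 3) (nat_lit 4))))) (T.tp (T.sk (T.ls (nat_lit 3) (nat_lit 4))))) (T.tp (T.sk (T.ls (nat_lit 3) (nat_lit 4))))) (T.tp (T.sk (T.ls (nat_lit 3) (nat_lit 4))))) (T.tp (T.sk (T.ls (nat_lit 3) (nat_lit 4))))) (T.tp (T.sk (T.ls (nat_lit 3) (nat_lit 4))))) (T.ts (nat_lit 0) (T.ts (nat_lit 4) (T.ts (nat_lit 3) (T.ts (nat_lit 2) (T.ts (nat_lit 4) (T.ts (nat_lit 1) (T.ts (nat_lit 0) (T.ts (nat_lit 4) (T.ts (nat_lit 2) (T.l1 (nat_lit 12300) (nat_lit 3)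 (nat_lit 20500)) (T.tp (T.sk (T.ls (nat_lit 3) (nat_lit 4))))) (T.tp (T.sk (T.ls (nat_lit 3) (nat_lit 4))))) (T.tp (T.sk (T.ls (nat_lit 3) (nat_lit 4))))) (T.tp (T.sk (T.ls (nat_lit 3) (nat_lit 4))))) (T.tp (T.sk (T.ls (nat_lit 3) (nat_lit 4))))) (T.tp (T.sk (T.ls (nat_lit 3) (nat_lit 4))))) (T.tp (T.sk (T.ls (nat_lit 3) (nat_lit 4))))) (T.tp (T.sk (T.ls (nat_lit 3) (nat_lit 4))))) (T.tp (T.ts (nat_lit 2) (T.im (nat_lit 7) (nat_lit 2)) T.ie))))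
def d584 : T := (T.ts (nat_lit 1) (T.ts (nat_lit 4) (T.ts (nat_lit 3) (T.ts (nat_lit 2) (T.ts (nat_lit 4) (T.ts (nat_lit 1) (T.ts (nat_lit 0) (T.ts (nat_lit 4) (T.ts (nat_lit 2) (T.l1 (nat_lit 12300) (nat_lit 4) (nat_lit 20500)) (T.sk (T.lf (nat_lit 16569) (nat_lit 3) (nat_lit 12300) (nat_lit 4) (nat_lit 20500)))) (T.sk (T.lf (nat_lit 16569) (nat_lit 3) (nat_lit 12300) (nat_lit 4) (nat_lit 20500)))) (T.tp (T.sk (T.ls (nat_lit 3) (nat_lit 4))))) (T.tp (T.sk (T.ls (nat_lit 3) (nat_lit 4))))) (T.tp (T.sk (T.ls (nat_lit 3) (nat_lit 4))))) (T.tp (T.sk (T.ls (nat_lit 3) (nat_lit 4))))) (T.tp (T.sk (T.ls (nat_lit 3) (nat_lit 4))))) (T.tp (T.sk (T.ls (nat_lit 3) (nat_lit 4))))) (T.ts (nat_lit 0) (T.ts (nat_lit 4) (T.ts (nat_lit 3) (T.ts (nat_lit 2) (T.ts (nat_lit 4) (T.ts (nat_lit 1) (T.ts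 (nat_lit 0) (T.ts (nat_lit 4) (T.ts (nat_lit 2) (T.l1 (nat_lit 12300) (nat_lit 3) (nat_lit 20500)) (T.sk (T.lf (nat_lit 16569) (nat_lit 3) (nat_lit 20500) (nat_lit 4) (nat_lit 12300)))) (T.sk (T.lf (nat_lit 16569) (nat_lit 3) (nat_lit 20500) (nat_lit 4) (nat_lit 12300)))) (T.tp (T.sk (T.ls (nat_lit 3) (nat_lit 4))))) (T.tp (T.sk (T.ls (nat_lit 3) (nat_lit 4))))) (T.tp (T.sk (T.ls (nat_lit 3) (nat_lit 4))))) (T.tp (T.sk (T.ls (nat_lit 3) (nat_lit 4))))) (T.tp (T.sk (T.ls (nat_lit 3) (nat_lit 4))))) (T.tp (T.sk (T.ls (nat_lit 3) (nat_lit 4))))) (T.tp (T.ts (nat_lit 2) (T.im (nat_lit 7) (nat_lit 2)) T.ie))))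
def d585 : T := (T.ts (nat_lit 1) (T.ts (nat_lit 4) (T.ts (nat_lit 3) (T.ts (nat_lit 2) (T.ts (nat_lit 4) (T.ts (nat_lit 1) (T.ts (nat_lit 0) (T.ts (nat_lit 4) (T.ts (nat_lit 2) (T.l1 (nat_lit 12300) (nat_lit 4) (nat_lit 20500)) (T.tp (T.sk (T.ls (nat_lit 3) (nat_lit 4))))) (T.tp (T.sk (T.ls (nat_lit 3) (nat_lit 4))))) (T.tp (T.sk (T.ls (nat_lit 3) (nat_lit 4))))) (T.tp (T.sk (T.ls (nat_lit 3) (nat_lit 4))))) (T.tp (T.sk (T.ls (nat_lit 3) (nat_lit 4))))) (T.tp (T.sk (T.ls (nat_lit 3) (nat_lit 4))))) (T.tp (T.sk (T.ls (nat_lit 3) (nat_lit 4))))) (T.tp (T.sk (T.ls (nat_lit 3) (nat_lit 4))))) (T.ts (nat_lit 0) (T.ts (nat_lit 4) (T.ts (nat_lit 3) (T.ts (nat_lit 2) (T.ts (nat_lit 4) (T.ts (nat_lit 1) (T.ts (nat_lit 0) (T.ts (nat_lit 4) (T.ts (nat_lit 2) (T.l1 (nat_lit 12300) (nat_lit 3)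 (nat_lit 20500)) (T.tp (T.sk (T.ls (nat_lit 3) (nat_lit 4))))) (T.tp (T.sk (T.ls (nat_lit 3) (nat_lit 4))))) (T.tp (T.sk (T.ls (nat_lit 3) (nat_lit 4))))) (T.tp (T.sk (T.ls (nat_lit 3) (nat_lit 4))))) (T.tp (T.sk (T.ls (nat_lit 3) (nat_lit 4))))) (T.tp (T.sk (T.ls (nat_lit 3) (nat_lit 4))))) (T.tp (T.sk (T.ls (nat_lit 3) (nat_lit 4))))) (T.tp (T.sk (T.ls (nat_lit 3) (nat_lit 4))))) (T.tp (T.ts (nat_lit 2) (T.im (nat_lit 7) (nat_lit 2)) T.ie))))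
def d586 : T := (T.ts (nat_lit 1) (T.ts (nat_lit 4) (T.ts (nat_lit 3) (T.ts (nat_lit 2) (T.ts (nat_lit 4) (T.ts (nat_lit 1) (T.ts (nat_lit 0) (T.ts (nat_lit 4) (T.ts (nat_lit 2) (T.l1 (nat_lit 12300) (nat_lit 4) (nat_lit 20500)) (T.tp (T.sk (T.ls (nat_lit 3) (nat_lit 4))))) (T.tp (T.sk (T.ls (nat_lit 3) (nat_lit 4))))) (T.tp (T.sk (T.ls (nat_lit 3) (nat_lit 4))))) (T.tp (T.sk (T.ls (nat_lit 3) (nat_lit 4))))) (T.tp (T.sk (T.ls (nat_lit 3) (nat_lit 4))))) (T.tp (T.sk (T.ls (nat_lit 3) (nat_lit 4))))) (T.tp (T.sk (T.ls (nat_lit 3) (nat_lit 4))))) (T.tp (T.sk (T.ls (nat_lit 3) (nat_lit 4))))) (T.ts (nat_lit 0) (T.ts (nat_lit 4) (T.ts (nat_lit 3) (T.ts (nat_lit 2) (T.ts (nat_lit 4) (T.ts (nat_lit 1) (T.ts (nat_lit 0) (T.ts (nat_lit 4) (T.ts (nat_lit 2) (T.l1 (nat_lit 12300) (nat_lit 3)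 (nat_lit 20500)) (T.tp (T.sk (T.ls (nat_lit 3) (nat_lit 4))))) (T.tp (T.sk (T.ls (nat_lit 3) (nat_lit 4))))) (T.tp (T.sk (T.ls (nat_lit 3) (nat_lit 4))))) (T.tp (T.sk (T.ls (nat_lit 3) (nat_lit 4))))) (T.tp (T.sk (T.ls (nat_lit 3) (nat_lit 4))))) (T.tp (T.sk (T.ls (nat_lit 3) (nat_lit 4))))) (T.tp (T.sk (T.ls (nat_lit 3) (nat_lit 4))))) (T.tp (T.sk (T.ls (nat_lit 3) (nat_lit 4))))) (T.tp (T.ts (nat_lit 4) (T.im (nat_lit 5) (nat_lit 3)) (T.ts (nat_lit 2) (T.im (nat_lit 7) (nat_lit 2)) T.ie)))))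
def d587 : T := (T.ts (nat_lit 3) (T.ts (nat_lit 4) (T.ts (nat_lit 4) (T.ls (nat_lit 3) (nat_lit 4)) (T.ts (nat_lit 2) (T.ls (nat_lit 3) (nat_lit 4)) (T.ts (nat_lit 1) (T.ts (nat_lit 4) (T.ts (nat_lit 3) (T.ts (nat_lit 2) (T.ts (nat_lit 4) (T.ts (nat_lit 1) (T.ts (nat_lit 0) (T.ts (nat_lit 4) (T.ts (nat_lit 3) (T.l1 (nat_lit 12300) (nat_lit 4) (nat_lit 20500)) (T.tp (T.sk (T.ls (nat_lit 3) (nat_lit 4))))) (T.tp (T.sk (T.ls (nat_lit 3) (nat_lit 4))))) (T.tp (T.sk (T.ls (nat_lit 3) (nat_lit 4))))) (T.tp (T.sk (T.ls (nat_lit 3) (nat_lit 4))))) (T.tp (T.sk (T.ls (nat_lit 3) (nat_lit 4))))) (T.tp (T.sk (T.ls (nat_lit 3) (nat_lit 4))))) (T.tp (T.sk (T.ls (nat_lit 3) (nat_lit 4))))) (T.tp (T.sk (T.ls (nat_lit 3) (nat_lit 4))))) (T.tp (T.ts (nat_lit 0) (T.ts (nat_lit 4) (T.ts (nat_lit 3)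 (T.im (nat_lit 5) (nat_lit 4)) (T.sk (T.ls (nat_lit 3) (nat_lit 4)))) (T.sk (T.ls (nat_lit 3) (nat_lit 4)))) (T.ts (nat_lit 3) (T.im (nat_lit 7) (nat_lit 2)) T.ie)))))) d582) (T.ts (nat_lit 2) (T.ts (nat_lit 4) (T.ts (nat_lit 4) (T.ls (nat_lit 3) (nat_lit 4)) (T.ts (nat_lit 3) (T.ls (nat_lit 3) (nat_lit 4)) d583)) (T.ts (nat_lit 3) (T.ts (nat_lit 4) (T.ls (nat_lit 3) (nat_lit 4)) (T.ts (nat_lit 3) (T.ls (nat_lit 3) (nat_lit 4)) d584)) (T.ts (nat_lit 1) (T.ts (nat_lit 4) (T.ts (nat_lit 3) (T.ts (nat_lit 2) (T.ts (nat_lit 4) (T.ts (nat_lit 1) (T.ts (nat_lit 0) (T.ts (nat_lit 4) (T.l1 (nat_lit 12300) (nat_lit 4) (nat_lit 20500)) (T.tp (T.sk (T.ls (nat_lit 3) (nat_lit 4))))) (T.tp (T.sk (T.ls (nat_lit 3) (nat_lit 4))))) (T.tp (T.sk (T.ls (nat_lit 3) (nat_lit 4))))) (T.tp (T.sk (T.ls (nat_lit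 3) (nat_lit 4))))) (T.tp (T.sk (T.ls (nat_lit 3) (nat_lit 4))))) (T.tp (T.sk (T.ls (nat_lit 3) (nat_lit 4))))) (T.ts (nat_lit 3) (T.ls (nat_lit 3) (nat_lit 4)) d585)) (T.ts (nat_lit 0) (T.ts (nat_lit 3) (T.ls (nat_lit 3) (nat_lit 4)) d586) (T.tp (T.ts (nat_lit 2) (T.im (nat_lit 7) (nat_lit 1)) T.ie)))))) (T.tp (T.ts (nat_lit 1) (T.im (nat_lit 3) (nat_lit 3)) (T.ts (nat_lit 0) (T.im (nat_lit 5) (nat_lit 2)) T.ie)))))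
def d588 : T := (T.ts (nat_lit 4) (T.ts (nat_lit 3) (T.tp (T.ts (nat_lit 3) (T.ls (nat_lit 3) (nat_lit 4)) (T.ts (nat_lit 2) (T.ls (nat_lit 3) (nat_lit 4)) (T.ts (nat_lit 1) (T.ts (nat_lit 4) (T.ts (nat_lit 3) (T.im (nat_lit 7) (nat_lit 3)) (T.sk (T.ls (nat_lit 3) (nat_lit 4)))) (T.sk (T.ls (nat_lit 3) (nat_lit 4)))) (T.ts (nat_lit 0) (T.ts (nat_lit 4) (T.ts (nat_lit 3) (T.im (nat_lit 7) (nat_lit 3)) (T.sk (T.ls (nat_lit 3) (nat_lit 4)))) (T.sk (T.ls (nat_lit 3) (nat_lit 4)))) (T.ts (nat_lit 4) (T.im (nat_lit 7) (nat_lit 2)) T.ie)))))) d580) d587)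
def d589 : T := (T.ts (nat_lit 1) (T.ts (nat_lit 4) (T.ts (nat_lit 3) (T.ts (nat_lit 2) (T.ts (nat_lit 4) (T.ts (nat_lit 1) (T.ts (nat_lit 0) (T.ts (nat_lit 3) (T.ts (nat_lit 4) (T.l1 (nat_lit 12300) (nat_lit 4) (nat_lit 20500)) (T.tp (T.sk (T.ls (nat_lit 3) (nat_lit 4))))) (T.tp (T.sk (T.ls (nat_lit 3) (nat_lit 4))))) (T.tp (T.sk (T.ls (nat_lit 3) (nat_lit 4))))) (T.tp (T.sk (T.ls (nat_lit 3) (nat_lit 4))))) (T.tp (T.sk (T.ls (nat_lit 3) (nat_lit 4))))) (T.tp (T.sk (T.ls (nat_lit 3) (nat_lit 4))))) (T.tp (T.sk (T.ls (nat_lit 3) (nat_lit 4))))) (T.tp (T.sk (T.ls (nat_lit 3) (nat_lit 4))))) (T.ts (nat_lit 0) (T.ts (nat_lit 4) (T.ts (nat_lit 3) (T.ts (nat_lit 2) (T.ts (nat_lit 4) (T.ts (nat_lit 1) (T.ts (nat_lit 0) (T.ts (nat_lit 3) (T.ts (nat_lit 4) (T.l1 (nat_lit 12300) (nat_lit 3)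 (nat_lit 20500)) (T.tp (T.sk (T.ls (nat_lit 3) (nat_lit 4))))) (T.tp (T.sk (T.ls (nat_lit 3) (nat_lit 4))))) (T.tp (T.sk (T.ls (nat_lit 3) (nat_lit 4))))) (T.tp (T.sk (T.ls (nat_lit 3) (nat_lit 4))))) (T.tp (T.sk (T.ls (nat_lit 3) (nat_lit 4))))) (T.tp (T.sk (T.ls (nat_lit 3) (nat_lit 4))))) (T.tp (T.sk (T.ls (nat_lit 3) (nat_lit 4))))) (T.tp (T.sk (T.ls (nat_lit 3) (nat_lit 4))))) (T.tp (T.ts (nat_lit 4) (T.im (nat_lit 7) (nat_lit 2)) T.ie))))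
def d590 : T := (T.ts (nat_lit 1) (T.ts (nat_lit 4) (T.ts (nat_lit 3) (T.ts (nat_lit 2) (T.ts (nat_lit 4) (T.ts (nat_lit 1) (T.ts (nat_lit 0) (T.ts (nat_lit 3) (T.ts (nat_lit 4) (T.l1 (nat_lit 12300) (nat_lit 4) (nat_lit 20500)) (T.tp (T.sk (T.ls (nat_lit 3) (nat_lit 4))))) (T.tp (T.sk (T.ls (nat_lit 3) (nat_lit 4))))) (T.tp (T.sk (T.ls (nat_lit 3) (nat_lit 4))))) (T.tp (T.sk (T.ls (nat_lit 3) (nat_lit 4))))) (T.tp (T.sk (T.ls (nat_lit 3) (nat_lit 4))))) (T.tp (T.sk (T.ls (nat_lit 3) (nat_lit 4))))) (T.tp (T.sk (T.ls (nat_lit 3) (nat_lit 4))))) (T.tp (T.sk (T.ls (nat_lit 3) (nat_lit 4))))) (T.ts (nat_lit 0) (T.ts (nat_lit 4) (T.ts (nat_lit 3) (T.ts (nat_lit 2) (T.ts (nat_lit 4) (T.ts (nat_lit 1) (T.ts (nat_lit 0) (T.ts (nat_lit 3) (T.ts (nat_lit 4) (T.l1 (nat_lit 12300) (nat_lit 3)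 (nat_lit 20500)) (T.tp (T.sk (T.ls (nat_lit 3) (nat_lit 4))))) (T.tp (T.sk (T.ls (nat_lit 3) (nat_lit 4))))) (T.tp (T.sk (T.ls (nat_lit 3) (nat_lit 4))))) (T.tp (T.sk (T.ls (nat_lit 3) (nat_lit 4))))) (T.tp (T.sk (T.ls (nat_lit 3) (nat_lit 4))))) (T.tp (T.sk (T.ls (nat_lit 3) (nat_lit 4))))) (T.tp (T.sk (T.ls (nat_lit 3) (nat_lit 4))))) (T.tp (T.sk (T.ls (nat_lit 3) (nat_lit 4))))) (T.tp (T.ts (nat_lit 4) (T.im (nat_lit 7) (nat_lit 2)) (T.ts (nat_lit 3) (T.im (nat_lit 5) (nat_lit 3)) T.ie)))))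
def d591 : T := (T.ts (nat_lit 3) (T.tp (T.ts (nat_lit 3) (T.ls (nat_lit 3) (nat_lit 4)) (T.ts (nat_lit 2) (T.ls (nat_lit 3) (nat_lit 4)) (T.ts (nat_lit 1) (T.ts (nat_lit 4) (T.ts (nat_lit 3) (T.im (nat_lit 7) (nat_lit 3)) (T.sk (T.ls (nat_lit 3) (nat_lit 4)))) (T.sk (T.ls (nat_lit 3) (nat_lit 4)))) (T.ts (nat_lit 0) (T.ts (nat_lit 4) (T.ts (nat_lit 3) (T.im (nat_lit 7) (nat_lit 3)) (T.sk (T.ls (nat_lit 3) (nat_lit 4)))) (T.sk (T.ls (nat_lit 3) (nat_lit 4)))) (T.ts (nat_lit 4) (T.im (nat_lit 7) (nat_lit 2)) T.ie)))))) (T.ts (nat_lit 2) (T.ts (nat_lit 3) (T.ls (nat_lit 3) (nat_lit 4)) (T.ts (nat_lit 2) (T.ls (nat_lit 3) (nat_lit 4)) d589)) (T.ts (nat_lit 1) (T.ts (nat_lit 3) (T.ls (nat_lit 3) (nat_lit 4)) (T.ts (nat_lit 2) (T.ls (nat_lit 3) (nat_lit 4)) (T.ts (nat_lit 1) (T.ts (nat_lit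 4) (T.ts (nat_lit 3) (T.ts (nat_lit 2) (T.ts (nat_lit 4) (T.ts (nat_lit 1) (T.ts (nat_lit 0) (T.ts (nat_lit 3) (T.ts (nat_lit 4) (T.l1 (nat_lit 12300) (nat_lit 4) (nat_lit 20500)) (T.tp (T.sk (T.ls (nat_lit 3) (nat_lit 4))))) (T.tp (T.sk (T.ls (nat_lit 3) (nat_lit 4))))) (T.tp (T.sk (T.ls (nat_lit 3) (nat_lit 4))))) (T.tp (T.sk (T.ls (nat_lit 3) (nat_lit 4))))) (T.tp (T.sk (T.ls (nat_lit 3) (nat_lit 4))))) (T.tp (T.sk (T.ls (nat_lit 3) (nat_lit 4))))) (T.tp (T.sk (T.ls (nat_lit 3) (nat_lit 4))))) (T.tp (T.sk (T.ls (nat_lit 3) (nat_lit 4))))) (T.tp (T.ts (nat_lit 4) (T.im (nat_lit 7) (nat_lit 2)) (T.ts (nat_lit 0) (T.im (nat_lit 3) (nat_lit 4)) T.ie)))))) (T.ts (nat_lit 0) (T.ts (nat_lit 2) (T.ls (nat_lit 3) (nat_lit 4)) d590) (T.tp (T.ts (nat_lit 4) (T.im (nat_lit 7) (nat_lit 1))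 T.ie))))))
def d592 : T := (T.ts (nat_lit 1) (T.ts (nat_lit 4) (T.ts (nat_lit 3) (T.ts (nat_lit 2) (T.ts (nat_lit 4) (T.ts (nat_lit 1) (T.ts (nat_lit 0) (T.ts (nat_lit 3) (T.ts (nat_lit 3) (T.l1 (nat_lit 12300) (nat_lit 4) (nat_lit 20500)) (T.tp (T.sk (T.ls (nat_lit 3) (nat_lit 4))))) (T.tp (T.sk (T.ls (nat_lit 3) (nat_lit 4))))) (T.tp (T.sk (T.ls (nat_lit 3) (nat_lit 4))))) (T.tp (T.sk (T.ls (nat_lit 3) (nat_lit 4))))) (T.tp (T.sk (T.ls (nat_lit 3) (nat_lit 4))))) (T.tp (T.sk (T.ls (nat_lit 3) (nat_lit 4))))) (T.tp (T.sk (T.ls (nat_lit 3) (nat_lit 4))))) (T.tp (T.sk (T.ls (nat_lit 3) (nat_lit 4))))) (T.ts (nat_lit 0) (T.ts (nat_lit 4) (T.ts (nat_lit 3) (T.ts (nat_lit 2) (T.ts (nat_lit 4) (T.ts (nat_lit 1) (T.ts (nat_lit 0) (T.ts (nat_lit 3) (T.ts (nat_lit 3) (T.l1 (nat_lit 12300)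 (nat_lit 3) (nat_lit 20500)) (T.tp (T.sk (T.ls (nat_lit 3) (nat_lit 4))))) (T.tp (T.sk (T.ls (nat_lit 3) (nat_lit 4))))) (T.tp (T.sk (T.ls (nat_lit 3) (nat_lit 4))))) (T.tp (T.sk (T.ls (nat_lit 3) (nat_lit 4))))) (T.tp (T.sk (T.ls (nat_lit 3) (nat_lit 4))))) (T.tp (T.sk (T.ls (nat_lit 3) (nat_lit 4))))) (T.tp (T.sk (T.ls (nat_lit 3) (nat_lit 4))))) (T.tp (T.sk (T.ls (nat_lit 3) (nat_lit 4))))) (T.tp (T.ts (nat_lit 3) (T.im (nat_lit 7) (nat_lit 2)) T.ie))))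
def d593 : T := (T.ts (nat_lit 1) (T.ts (nat_lit 4) (T.ts (nat_lit 3) (T.ts (nat_lit 2) (T.ts (nat_lit 4) (T.ts (nat_lit 1) (T.ts (nat_lit 0) (T.ts (nat_lit 3) (T.ts (nat_lit 3) (T.l1 (nat_lit 12300) (nat_lit 4) (nat_lit 20500)) (T.tp (T.sk (T.ls (nat_lit 3) (nat_lit 4))))) (T.tp (T.sk (T.ls (nat_lit 3) (nat_lit 4))))) (T.tp (T.sk (T.ls (nat_lit 3) (nat_lit 4))))) (T.tp (T.sk (T.ls (nat_lit 3) (nat_lit 4))))) (T.tp (T.sk (T.ls (nat_lit 3) (nat_lit 4))))) (T.tp (T.sk (T.ls (nat_lit 3) (nat_lit 4))))) (T.tp (T.sk (T.ls (nat_lit 3) (nat_lit 4))))) (T.tp (T.sk (T.ls (nat_lit 3) (nat_lit 4))))) (T.ts (nat_lit 0) (T.ts (nat_lit 4) (T.ts (nat_lit 3) (T.ts (nat_lit 2) (T.ts (nat_lit 4) (T.ts (nat_lit 1) (T.ts (nat_lit 0) (T.ts (nat_lit 3) (T.ts (nat_lit 3) (T.l1 (nat_lit 12300) (nat_lit 3)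 (nat_lit 20500)) (T.tp (T.sk (T.ls (nat_lit 3) (nat_lit 4))))) (T.tp (T.sk (T.ls (nat_lit 3) (nat_lit 4))))) (T.tp (T.sk (T.ls (nat_lit 3) (nat_lit 4))))) (T.tp (T.sk (T.ls (nat_lit 3) (nat_lit 4))))) (T.tp (T.sk (T.ls (nat_lit 3) (nat_lit 4))))) (T.tp (T.sk (T.ls (nat_lit 3) (nat_lit 4))))) (T.tp (T.sk (T.ls (nat_lit 3) (nat_lit 4))))) (T.tp (T.sk (T.ls (nat_lit 3) (nat_lit 4))))) (T.tp (T.ts (nat_lit 3) (T.im (nat_lit 7) (nat_lit 2)) T.ie))))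
def d594 : T := (T.ts (nat_lit 1) (T.ts (nat_lit 4) (T.ts (nat_lit 3) (T.ts (nat_lit 2) (T.ts (nat_lit 4) (T.ts (nat_lit 1) (T.ts (nat_lit 0) (T.ts (nat_lit 3) (T.ts (nat_lit 3) (T.l1 (nat_lit 12300) (nat_lit 4) (nat_lit 20500)) (T.tp (T.sk (T.ls (nat_lit 3) (nat_lit 4))))) (T.tp (T.sk (T.ls (nat_lit 3) (nat_lit 4))))) (T.tp (T.sk (T.ls (nat_lit 3) (nat_lit 4))))) (T.tp (T.sk (T.ls (nat_lit 3) (nat_lit 4))))) (T.tp (T.sk (T.ls (nat_lit 3) (nat_lit 4))))) (T.tp (T.sk (T.ls (nat_lit 3) (nat_lit 4))))) (T.tp (T.sk (T.ls (nat_lit 3) (nat_lit 4))))) (T.tp (T.sk (T.ls (nat_lit 3) (nat_lit 4))))) (T.ts (nat_lit 0) (T.ts (nat_lit 4) (T.ts (nat_lit 3) (T.ts (nat_lit 2) (T.ts (nat_lit 4) (T.ts (nat_lit 1) (T.ts (nat_lit 0) (T.ts (nat_lit 3) (T.ts (nat_lit 3) (T.l1 (nat_lit 12300) (nat_lit 3)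 (nat_lit 20500)) (T.tp (T.sk (T.ls (nat_lit 3) (nat_lit 4))))) (T.tp (T.sk (T.ls (nat_lit 3) (nat_lit 4))))) (T.tp (T.sk (T.ls (nat_lit 3) (nat_lit 4))))) (T.tp (T.sk (T.ls (nat_lit 3) (nat_lit 4))))) (T.tp (T.sk (T.ls (nat_lit 3) (nat_lit 4))))) (T.tp (T.sk (T.ls (nat_lit 3) (nat_lit 4))))) (T.tp (T.sk (T.ls (nat_lit 3) (nat_lit 4))))) (T.tp (T.sk (T.ls (nat_lit 3) (nat_lit 4))))) (T.tp (T.ts (nat_lit 3) (T.im (nat_lit 7) (nat_lit 2)) T.ie))))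
def d595 : T := (T.ts (nat_lit 1) (T.ts (nat_lit 4) (T.ts (nat_lit 3) (T.ts (nat_lit 2) (T.ts (nat_lit 4) (T.ts (nat_lit 1) (T.ts (nat_lit 0) (T.ts (nat_lit 3) (T.ts (nat_lit 3) (T.l1 (nat_lit 12300) (nat_lit 4) (nat_lit 20500)) (T.tp (T.sk (T.ls (nat_lit 3) (nat_lit 4))))) (T.tp (T.sk (T.ls (nat_lit 3) (nat_lit 4))))) (T.tp (T.sk (T.ls (nat_lit 3) (nat_lit 4))))) (T.tp (T.sk (T.ls (nat_lit 3) (nat_lit 4))))) (T.tp (T.sk (T.ls (nat_lit 3) (nat_lit 4))))) (T.tp (T.sk (T.ls (nat_lit 3) (nat_lit 4))))) (T.tp (T.sk (T.ls (nat_lit 3) (nat_lit 4))))) (T.tp (T.sk (T.ls (nat_lit 3) (nat_lit 4))))) (T.ts (nat_lit 0) (T.ts (nat_lit 4) (T.ts (nat_lit 3) (T.ts (nat_lit 2) (T.ts (nat_lit 4) (T.ts (nat_lit 1) (T.ts (nat_lit 0) (T.ts (nat_lit 3) (T.ts (nat_lit 3) (T.l1 (nat_lit 12300) (nat_lit 3)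 (nat_lit 20500)) (T.tp (T.sk (T.ls (nat_lit 3) (nat_lit 4))))) (T.tp (T.sk (T.ls (nat_lit 3) (nat_lit 4))))) (T.tp (T.sk (T.ls (nat_lit 3) (nat_lit 4))))) (T.tp (T.sk (T.ls (nat_lit 3) (nat_lit 4))))) (T.tp (T.sk (T.ls (nat_lit 3) (nat_lit 4))))) (T.tp (T.sk (T.ls (nat_lit 3) (nat_lit 4))))) (T.tp (T.sk (T.ls (nat_lit 3) (nat_lit 4))))) (T.tp (T.sk (T.ls (nat_lit 3) (nat_lit 4))))) (T.tp (T.ts (nat_lit 3) (T.im (nat_lit 5) (nat_lit 3)) T.ie))))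
def d596 : T := (T.ts (nat_lit 1) (T.ts (nat_lit 4) (T.ts (nat_lit 3) (T.ts (nat_lit 2) (T.ts (nat_lit 4) (T.ts (nat_lit 1) (T.ts (nat_lit 0) (T.ts (nat_lit 3) (T.l1 (nat_lit 12300) (nat_lit 4) (nat_lit 20500)) (T.tp (T.sk (T.ls (nat_lit 3) (nat_lit 4))))) (T.tp (T.sk (T.ls (nat_lit 3) (nat_lit 4))))) (T.tp (T.sk (T.ls (nat_lit 3) (nat_lit 4))))) (T.tp (T.sk (T.ls (nat_lit 3) (nat_lit 4))))) (T.tp (T.sk (T.ls (nat_lit 3) (nat_lit 4))))) (T.tp (T.sk (T.ls (nat_lit 3) (nat_lit 4))))) (T.ts (nat_lit 2) (T.ls (nat_lit 3) (nat_lit 4)) d594)) (T.ts (nat_lit 0) (T.ts (nat_lit 4) (T.ts (nat_lit 3) (T.ts (nat_lit 2) (T.ts (nat_lit 4) (T.ts (nat_lit 1) (T.ts (nat_lit 0) (T.ts (nat_lit 3) (T.l1 (nat_lit 12300) (nat_lit 3) (nat_lit 20500)) (T.tp (T.sk (T.ls (nat_lit 3) (nat_lit 4))))) (T.tp (T.sk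 (T.ls (nat_lit 3) (nat_lit 4))))) (T.tp (T.sk (T.ls (nat_lit 3) (nat_lit 4))))) (T.tp (T.sk (T.ls (nat_lit 3) (nat_lit 4))))) (T.tp (T.sk (T.ls (nat_lit 3) (nat_lit 4))))) (T.tp (T.sk (T.ls (nat_lit 3) (nat_lit 4))))) (T.ts (nat_lit 2) (T.ls (nat_lit 3) (nat_lit 4)) d595)) (T.tp (T.ts (nat_lit 3) (T.im (nat_lit 7) (nat_lit 1)) T.ie))))
def d597 : T := (T.ts (nat_lit 1) (T.ts (nat_lit 4) (T.ts (nat_lit 3) (T.ts (nat_lit 2) (T.ts (nat_lit 4) (T.ts (nat_lit 1) (T.ts (nat_lit 0) (T.ts (nat_lit 3) (T.ts (nat_lit 2) (T.l1 (nat_lit 12300) (nat_lit 4) (nat_lit 20500)) (T.sk (T.lf (nat_lit 16569) (nat_lit 3) (nat_lit 12300) (nat_lit 4) (nat_lit 20500)))) (T.sk (T.lf (nat_lit 16569) (nat_lit 3) (nat_lit 12300) (nat_lit 4) (nat_lit 20500)))) (T.tp (T.sk (T.ls (nat_lit 3) (nat_lit 4))))) (T.tp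 (T.sk (T.ls (nat_lit 3) (nat_lit 4))))) (T.tp (T.sk (T.ls (nat_lit 3) (nat_lit 4))))) (T.tp (T.sk (T.ls (nat_lit 3) (nat_lit 4))))) (T.tp (T.sk (T.ls (nat_lit 3) (nat_lit 4))))) (T.tp (T.sk (T.ls (nat_lit 3) (nat_lit 4))))) (T.ts (nat_lit 0) (T.ts (nat_lit 4) (T.ts (nat_lit 3) (T.ts (nat_lit 2) (T.ts (nat_lit 4) (T.ts (nat_lit 1) (T.ts (nat_lit 0) (T.ts (nat_lit 3) (T.ts (nat_lit 2) (T.l1 (nat_lit 12300) (nat_lit 3) (nat_lit 20500)) (T.sk (T.lf (nat_lit 16569) (nat_lit 3) (nat_lit 20500) (nat_lit 4) (nat_lit 12300)))) (T.sk (T.lf (nat_lit 16569) (nat_lit 3) (nat_lit 20500) (nat_lit 4) (nat_lit 12300)))) (T.tp (T.sk (T.ls (nat_lit 3) (nat_lit 4))))) (T.tp (T.sk (T.ls (nat_lit 3) (nat_lit 4))))) (T.tp (T.sk (T.ls (nat_lit 3) (nat_lit 4))))) (T.tp (T.sk (T.ls (nat_lit 3) (nat_lit 4)))))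 (T.tp (T.sk (T.ls (nat_lit 3) (nat_lit 4))))) (T.tp (T.sk (T.ls (nat_lit 3) (nat_lit 4))))) (T.tp (T.ts (nat_lit 2) (T.im (nat_lit 7) (nat_lit 2)) T.ie))))
def d598 : T := (T.ts (nat_lit 1) (T.ts (nat_lit 4) (T.ts (nat_lit 3) (T.ts (nat_lit 2) (T.ts (nat_lit 4) (T.ts (nat_lit 1) (T.ts (nat_lit 0) (T.ts (nat_lit 3) (T.ts (nat_lit 2) (T.l1 (nat_lit 12300) (nat_lit 4) (nat_lit 20500)) (T.tp (T.sk (T.ls (nat_lit 3) (nat_lit 4))))) (T.tp (T.sk (T.ls (nat_lit 3) (nat_lit 4))))) (T.tp (T.sk (T.ls (nat_lit 3) (nat_lit 4))))) (T.tp (T.sk (T.ls (nat_lit 3) (nat_lit 4))))) (T.tp (T.sk (T.ls (nat_lit 3) (nat_lit 4))))) (T.tp (T.sk (T.ls (nat_lit 3) (nat_lit 4))))) (T.tp (T.sk (T.ls (nat_lit 3) (nat_lit 4))))) (T.tp (T.sk (T.ls (nat_lit 3) (nat_lit 4))))) (T.ts (nat_lit 0) (T.ts (nat_lit 4) (T.ts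 (nat_lit 3) (T.ts (nat_lit 2) (T.ts (nat_lit 4) (T.ts (nat_lit 1) (T.ts (nat_lit 0) (T.ts (nat_lit 3) (T.ts (nat_lit 2) (T.l1 (nat_lit 12300) (nat_lit 3) (nat_lit 20500)) (T.tp (T.sk (T.ls (nat_lit 3) (nat_lit 4))))) (T.tp (T.sk (T.ls (nat_lit 3) (nat_lit 4))))) (T.tp (T.sk (T.ls (nat_lit 3) (nat_lit 4))))) (T.tp (T.sk (T.ls (nat_lit 3) (nat_lit 4))))) (T.tp (T.sk (T.ls (nat_lit 3) (nat_lit 4))))) (T.tp (T.sk (T.ls (nat_lit 3) (nat_lit 4))))) (T.tp (T.sk (T.ls (nat_lit 3) (nat_lit 4))))) (T.tp (T.sk (T.ls (nat_lit 3) (nat_lit 4))))) (T.tp (T.ts (nat_lit 2) (T.im (nat_lit 7) (nat_lit 2)) T.ie))))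
def d599 : T := (T.ts (nat_lit 1) (T.ts (nat_lit 4) (T.ts (nat_lit 3) (T.ts (nat_lit 2) (T.ts (nat_lit 4) (T.ts (nat_lit 1) (T.ts (nat_lit 0) (T.ts (nat_lit 3) (T.ts (nat_lit 2) (T.l1 (nat_lit 12300) (nat_lit 4) (nat_lit 20500)) (T.tp (T.sk (T.ls (nat_lit 3) (nat_lit 4))))) (T.tp (T.sk (T.ls (nat_lit 3) (nat_lit 4))))) (T.tp (T.sk (T.ls (nat_lit 3) (nat_lit 4))))) (T.tp (T.sk (T.ls (nat_lit 3) (nat_lit 4))))) (T.tp (T.sk (T.ls (nat_lit 3) (nat_lit 4))))) (T.tp (T.sk (T.ls (nat_lit 3) (nat_lit 4))))) (T.tp (T.sk (T.ls (nat_lit 3) (nat_lit 4))))) (T.tp (T.sk (T.ls (nat_lit 3) (nat_lit 4))))) (T.ts (nat_lit 0) (T.ts (nat_lit 4) (T.ts (nat_lit 3) (T.ts (nat_lit 2) (T.ts (nat_lit 4) (T.ts (nat_lit 1) (T.ts (nat_lit 0) (T.ts (nat_lit 3) (T.ts (nat_lit 2) (T.l1 (nat_lit 12300) (nat_lit 3)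 (nat_lit 20500)) (T.tp (T.sk (T.ls (nat_lit 3) (nat_lit 4))))) (T.tp (T.sk (T.ls (nat_lit 3) (nat_lit 4))))) (T.tp (T.sk (T.ls (nat_lit 3) (nat_lit 4))))) (T.tp (T.sk (T.ls (nat_lit 3) (nat_lit 4))))) (T.tp (T.sk (T.ls (nat_lit 3) (nat_lit 4))))) (T.tp (T.sk (T.ls (nat_lit 3) (nat_lit 4))))) (T.tp (T.sk (T.ls (nat_lit 3) (nat_lit 4))))) (T.tp (T.sk (T.ls (nat_lit 3) (nat_lit 4))))) (T.tp (T.ts (nat_lit 3) (T.im (nat_lit 5) (nat_lit 3)) (T.ts (nat_lit 2) (T.im (nat_lit 7) (nat_lit 2)) T.ie)))))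
def d600 : T := (T.ts (nat_lit 1) (T.ts (nat_lit 4) (T.ts (nat_lit 3) (T.ts (nat_lit 2) (T.ts (nat_lit 4) (T.ts (nat_lit 1) (T.ts (nat_lit 0) (T.ts (nat_lit 3) (T.l1 (nat_lit 12300) (nat_lit 4) (nat_lit 20500)) (T.tp (T.sk (T.ls (nat_lit 3) (nat_lit 4))))) (T.tp (T.sk (T.ls (nat_lit 3) (nat_lit 4))))) (T.tp (T.sk (T.ls (nat_lit 3) (nat_lit 4))))) (T.tp (T.sk (T.ls (nat_lit 3) (nat_lit 4))))) (T.tp (T.sk (T.ls (nat_lit 3) (nat_lit 4))))) (T.tp (T.sk (T.ls (nat_lit 3) (nat_lit 4))))) (T.ts (nat_lit 3) (T.ls (nat_lit 3) (nat_lit 4)) d598)) (T.ts (nat_lit 0) (T.ts (nat_lit 4) (T.ts (nat_lit 3) (T.ts (nat_lit 2) (T.ts (nat_lit 4) (T.ts (nat_lit 1) (T.ts (nat_lit 0) (T.ts (nat_lit 3) (T.l1 (nat_lit 12300) (nat_lit 3) (nat_lit 20500)) (T.tp (T.sk (T.ls (nat_lit 3) (nat_lit 4))))) (T.tp (T.sk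 (T.ls (nat_lit 3) (nat_lit 4))))) (T.tp (T.sk (T.ls (nat_lit 3) (nat_lit 4))))) (T.tp (T.sk (T.ls (nat_lit 3) (nat_lit 4))))) (T.tp (T.sk (T.ls (nat_lit 3) (nat_lit 4))))) (T.tp (T.sk (T.ls (nat_lit 3) (nat_lit 4))))) d599) (T.tp (T.ts (nat_lit 2) (T.im (nat_lit 7) (nat_lit 1)) T.ie))))
def d601 : T := (T.ts (nat_lit 4) (T.ts (nat_lit 3) (T.ts (nat_lit 2) (T.ts (nat_lit 4) (T.ts (nat_lit 1) (T.ts (nat_lit 0) (T.ts (nat_lit 3) (T.l1 (nat_lit 12300) (nat_lit 3) (nat_lit 20500)) (T.tp (T.sk (T.ls (nat_lit 3) (nat_lit 4))))) (T.tp (T.sk (T.ls (nat_lit 3) (nat_lit 4))))) (T.tp (T.sk (T.ls (nat_lit 3) (nat_lit 4))))) (T.tp (T.sk (T.ls (nat_lit 3) (nat_lit 4))))) (T.tp (T.sk (T.ls (nat_lit 3) (nat_lit 4))))) (T.tp (T.sk (T.ls (nat_lit 3) (nat_lit 4))))) (T.ts (nat_lit 2) (T.ls (nat_lit 3)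 (nat_lit 4)) (T.ts (nat_lit 0) (T.ts (nat_lit 4) (T.ts (nat_lit 3) (T.ts (nat_lit 2) (T.ts (nat_lit 4) (T.ts (nat_lit 1) (T.ts (nat_lit 0) (T.ts (nat_lit 3) (T.ts (nat_lit 1) (T.l1 (nat_lit 12300) (nat_lit 3) (nat_lit 20500)) (T.tp (T.sk (T.ls (nat_lit 3) (nat_lit 4))))) (T.tp (T.sk (T.ls (nat_lit 3) (nat_lit 4))))) (T.tp (T.sk (T.ls (nat_lit 3) (nat_lit 4))))) (T.tp (T.sk (T.ls (nat_lit 3) (nat_lit 4))))) (T.tp (T.sk (T.ls (nat_lit 3) (nat_lit 4))))) (T.tp (T.sk (T.ls (nat_lit 3) (nat_lit 4))))) (T.tp (T.sk (T.ls (nat_lit 3) (nat_lit 4))))) (T.tp (T.sk (T.ls (nat_lit 3) (nat_lit 4))))) (T.tp (T.ts (nat_lit 3) (T.im (nat_lit 5) (nat_lit 3)) (T.ts (nat_lit 1) (T.im (nat_lit 7) (nat_lit 2)) T.ie))))))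
def d602 : T := (T.ts (nat_lit 3) (T.ts (nat_lit 4) (T.ls (nat_lit 3) (nat_lit 4)) (T.ts (nat_lit 3) (T.ls (nat_lit 3) (nat_lit 4)) (T.ts (nat_lit 2) (T.ls (nat_lit 3) (nat_lit 4)) (T.ts (nat_lit 0) (T.ts (nat_lit 4) (T.ts (nat_lit 3) (T.ts (nat_lit 2) (T.ts (nat_lit 4) (T.ts (nat_lit 1) (T.ts (nat_lit 0) (T.ts (nat_lit 3) (T.ts (nat_lit 1) (T.l1 (nat_lit 12300) (nat_lit 3) (nat_lit 20500)) (T.sk (T.lf (nat_lit 16569) (nat_lit 3) (nat_lit 20500) (nat_lit 4) (nat_lit 12300)))) (T.sk (T.lf (nat_lit 16569) (nat_lit 3) (nat_lit 20500) (nat_lit 4) (nat_lit 12300)))) (T.tp (T.sk (T.ls (nat_lit 3) (nat_lit 4))))) (T.tp (T.sk (T.ls (nat_lit 3) (nat_lit 4))))) (T.tp (T.sk (T.ls (nat_lit 3) (nat_lit 4))))) (T.tp (T.sk (T.ls (nat_lit 3) (nat_lit 4))))) (T.tp (T.sk (T.ls (nat_lit 3) (nat_lit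 4))))) (T.tp (T.sk (T.ls (nat_lit 3) (nat_lit 4))))) (T.tp (T.ts (nat_lit 1) (T.im (nat_lit 7) (nat_lit 2)) T.ie)))))) (T.ts (nat_lit 2) (T.ts (nat_lit 4) (T.ls (nat_lit 3) (nat_lit 4)) (T.ts (nat_lit 3) (T.ls (nat_lit 3) (nat_lit 4)) (T.ts (nat_lit 2) (T.ls (nat_lit 3) (nat_lit 4)) (T.ts (nat_lit 0) (T.ts (nat_lit 4) (T.ts (nat_lit 3) (T.ts (nat_lit 2) (T.ts (nat_lit 4) (T.ts (nat_lit 1) (T.ts (nat_lit 0) (T.ts (nat_lit 3) (T.ts (nat_lit 1) (T.l1 (nat_lit 12300) (nat_lit 3) (nat_lit 20500)) (T.tp (T.sk (T.ls (nat_lit 3) (nat_lit 4))))) (T.tp (T.sk (T.ls (nat_lit 3) (nat_lit 4))))) (T.tp (T.sk (T.ls (nat_lit 3) (nat_lit 4))))) (T.tp (T.sk (T.ls (nat_lit 3) (nat_lit 4))))) (T.tp (T.sk (T.ls (nat_lit 3) (nat_lit 4))))) (T.tp (T.sk (T.ls (nat_lit 3) (nat_lit 4))))) (T.tp (T.sk (T.ls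 (nat_lit 3) (nat_lit 4))))) (T.tp (T.sk (T.ls (nat_lit 3) (nat_lit 4))))) (T.tp (T.ts (nat_lit 1) (T.im (nat_lit 7) (nat_lit 2)) T.ie)))))) (T.ts (nat_lit 0) d601 (T.tp (T.ts (nat_lit 1) (T.im (nat_lit 7) (nat_lit 1)) T.ie)))))
def d603 : T := (T.ts (nat_lit 1) (T.ts (nat_lit 4) (T.ts (nat_lit 4) (T.ls (nat_lit 3) (nat_lit 4)) (T.ts (nat_lit 3) (T.ts (nat_lit 4) (T.lf (nat_lit 19131) (nat_lit 3) (nat_lit 16569) (nat_lit 4) (nat_lit 20500)) (T.ts (nat_lit 2) (T.ts (nat_lit 4) (T.ts (nat_lit 1) (T.ts (nat_lit 0) (T.l1 (nat_lit 12300) (nat_lit 4) (nat_lit 20500)) (T.sk (T.lf (nat_lit 16569) (nat_lit 3) (nat_lit 12300) (nat_lit 4) (nat_lit 20500)))) (T.sk (T.lf (nat_lit 16569) (nat_lit 3) (nat_lit 12300) (nat_lit 4) (nat_lit 20500)))) (T.sk (T.lf (nat_lit 19131) (nat_lit 3) (nat_lit 16569)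 (nat_lit 4) (nat_lit 20500)))) (T.sk (T.lf (nat_lit 19131) (nat_lit 3) (nat_lit 16569) (nat_lit 4) (nat_lit 20500))))) (T.ts (nat_lit 2) (T.ls (nat_lit 3) (nat_lit 4)) (T.ts (nat_lit 0) (T.ts (nat_lit 4) (T.ts (nat_lit 3) (T.ts (nat_lit 2) (T.ts (nat_lit 4) (T.ts (nat_lit 1) (T.ts (nat_lit 0) (T.ts (nat_lit 3) (T.ts (nat_lit 1) (T.l1 (nat_lit 12300) (nat_lit 3) (nat_lit 20500)) (T.tp (T.sk (T.ls (nat_lit 3) (nat_lit 4))))) (T.tp (T.sk (T.ls (nat_lit 3) (nat_lit 4))))) (T.tp (T.sk (T.ls (nat_lit 3) (nat_lit 4))))) (T.tp (T.sk (T.ls (nat_lit 3) (nat_lit 4))))) (T.tp (T.sk (T.ls (nat_lit 3) (nat_lit 4))))) (T.tp (T.sk (T.ls (nat_lit 3) (nat_lit 4))))) (T.tp (T.sk (T.ls (nat_lit 3) (nat_lit 4))))) (T.tp (T.sk (T.ls (nat_lit 3) (nat_lit 4))))) (T.tp (T.ts (nat_lit 1) (T.im (nat_lit 7)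 (nat_lit 2)) T.ie)))))) d602) (T.tp (T.ts (nat_lit 0) (T.im (nat_lit 5) (nat_lit 2)) T.ie)))
def d604 : T := (T.ts (nat_lit 3) (T.ts (nat_lit 4) (T.ts (nat_lit 4) (T.ls (nat_lit 3) (nat_lit 4)) (T.ts (nat_lit 2) (T.ls (nat_lit 3) (nat_lit 4)) d592)) (T.ts (nat_lit 2) (T.ts (nat_lit 4) (T.ls (nat_lit 3) (nat_lit 4)) (T.ts (nat_lit 2) (T.ls (nat_lit 3) (nat_lit 4)) d593)) d596)) (T.ts (nat_lit 2) (T.ts (nat_lit 4) (T.ts (nat_lit 4) (T.ls (nat_lit 3) (nat_lit 4)) (T.ts (nat_lit 3) (T.ls (nat_lit 3) (nat_lit 4)) (T.ts (nat_lit 0) (T.ts (nat_lit 4) (T.ts (nat_lit 3) (T.ts (nat_lit 2) (T.ts (nat_lit 4) (T.ts (nat_lit 1) (T.ts (nat_lit 0) (T.ts (nat_lit 3) (T.ts (nat_lit 2) (T.l1 (nat_lit 12300) (nat_lit 3) (nat_lit 20500)) (T.tp (T.sk (T.ls (nat_lit 3) (nat_lit 4))))) (T.tp (T.sk (T.ls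 (nat_lit 3) (nat_lit 4))))) (T.tp (T.sk (T.ls (nat_lit 3) (nat_lit 4))))) (T.tp (T.sk (T.ls (nat_lit 3) (nat_lit 4))))) (T.tp (T.sk (T.ls (nat_lit 3) (nat_lit 4))))) (T.tp (T.sk (T.ls (nat_lit 3) (nat_lit 4))))) (T.tp (T.sk (T.ls (nat_lit 3) (nat_lit 4))))) (T.tp (T.sk (T.ls (nat_lit 3) (nat_lit 4))))) (T.tp (T.ts (nat_lit 2) (T.im (nat_lit 7) (nat_lit 2)) (T.ts (nat_lit 1) (T.im (nat_lit 1) (nat_lit 5)) T.ie)))))) (T.ts (nat_lit 3) (T.ts (nat_lit 4) (T.ls (nat_lit 3) (nat_lit 4)) (T.ts (nat_lit 3) (T.ls (nat_lit 3) (nat_lit 4)) d597)) d600)) d603))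
def d605 : T := (T.ts (nat_lit 4) d591 d604)
def d606 : T := (T.ts (nat_lit 1) (T.ts (nat_lit 4) (T.ts (nat_lit 3) (T.ts (nat_lit 2) (T.ts (nat_lit 4) (T.ts (nat_lit 1) (T.ts (nat_lit 0) (T.ts (nat_lit 2) (T.ts (nat_lit 4) (T.l1 (nat_lit 12300) (nat_lit 4) (nat_lit 20500)) (T.tp (T.sk (T.ls (nat_lit 3) (nat_lit 4))))) (T.tp (T.sk (T.ls (nat_lit 3) (nat_lit 4))))) (T.tp (T.sk (T.ls (nat_lit 3) (nat_lit 4))))) (T.tp (T.sk (T.ls (nat_lit 3) (nat_lit 4))))) (T.tp (T.sk (T.ls (nat_lit 3) (nat_lit 4))))) (T.tp (T.sk (T.ls (nat_lit 3) (nat_lit 4))))) (T.tp (T.sk (T.ls (nat_lit 3) (nat_lit 4))))) (T.tp (T.sk (T.ls (nat_lit 3) (nat_lit 4))))) (T.ts (nat_lit 0) (T.ts (nat_lit 4) (T.ts (nat_lit 3) (T.ts (nat_lit 2) (T.ts (nat_lit 4) (T.ts (nat_lit 1) (T.ts (nat_lit 0) (T.ts (nat_lit 2) (T.ts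 (nat_lit 4) (T.l1 (nat_lit 12300) (nat_lit 3) (nat_lit 20500)) (T.tp (T.sk (T.ls (nat_lit 3) (nat_lit 4))))) (T.tp (T.sk (T.ls (nat_lit 3) (nat_lit 4))))) (T.tp (T.sk (T.ls (nat_lit 3) (nat_lit 4))))) (T.tp (T.sk (T.ls (nat_lit 3) (nat_lit 4))))) (T.tp (T.sk (T.ls (nat_lit 3) (nat_lit 4))))) (T.tp (T.sk (T.ls (nat_lit 3) (nat_lit 4))))) (T.tp (T.sk (T.ls (nat_lit 3) (nat_lit 4))))) (T.tp (T.sk (T.ls (nat_lit 3) (nat_lit 4))))) (T.tp (T.ts (nat_lit 4) (T.im (nat_lit 7) (nat_lit 2)) T.ie))))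
def d607 : T := (T.ts (nat_lit 1) (T.ts (nat_lit 4) (T.ts (nat_lit 3) (T.ts (nat_lit 2) (T.ts (nat_lit 4) (T.ts (nat_lit 1) (T.ts (nat_lit 0) (T.ts (nat_lit 2) (T.ts (nat_lit 4) (T.l1 (nat_lit 12300) (nat_lit 4) (nat_lit 20500)) (T.tp (T.sk (T.ls (nat_lit 3) (nat_lit 4))))) (T.tp (T.sk (T.ls (nat_lit 3) (nat_lit 4))))) (T.tp (T.sk (T.ls (nat_lit 3) (nat_lit 4))))) (T.tp (T.sk (T.ls (nat_lit 3) (nat_lit 4))))) (T.tp (T.sk (T.ls (nat_lit 3) (nat_lit 4))))) (T.tp (T.sk (T.ls (nat_lit 3) (nat_lit 4))))) (T.tp (T.sk (T.ls (nat_lit 3) (nat_lit 4))))) (T.tp (T.sk (T.ls (nat_lit 3) (nat_lit 4))))) (T.ts (nat_lit 0) (T.ts (nat_lit 4) (T.ts (nat_lit 3) (T.ts (nat_lit 2) (T.ts (nat_lit 4) (T.ts (nat_lit 1) (T.ts (nat_lit 0) (T.ts (nat_lit 2) (T.ts (nat_lit 4) (T.l1 (nat_lit 12300) (nat_lit 3)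 (nat_lit 20500)) (T.tp (T.sk (T.ls (nat_lit 3) (nat_lit 4))))) (T.tp (T.sk (T.ls (nat_lit 3) (nat_lit 4))))) (T.tp (T.sk (T.ls (nat_lit 3) (nat_lit 4))))) (T.tp (T.sk (T.ls (nat_lit 3) (nat_lit 4))))) (T.tp (T.sk (T.ls (nat_lit 3) (nat_lit 4))))) (T.tp (T.sk (T.ls (nat_lit 3) (nat_lit 4))))) (T.tp (T.sk (T.ls (nat_lit 3) (nat_lit 4))))) (T.tp (T.sk (T.ls (nat_lit 3) (nat_lit 4))))) (T.tp (T.ts (nat_lit 4) (T.im (nat_lit 7) (nat_lit 2)) (T.ts (nat_lit 2) (T.im (nat_lit 5) (nat_lit 3)) T.ie)))))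
def d608 : T := (T.ts (nat_lit 3) (T.tp (T.ts (nat_lit 3) (T.ls (nat_lit 3) (nat_lit 4)) (T.ts (nat_lit 2) (T.ls (nat_lit 3) (nat_lit 4)) (T.ts (nat_lit 1) (T.ts (nat_lit 4) (T.ts (nat_lit 3) (T.im (nat_lit 7) (nat_lit 3)) (T.sk (T.ls (nat_lit 3) (nat_lit 4)))) (T.sk (T.ls (nat_lit 3) (nat_lit 4)))) (T.ts (nat_lit 0) (T.ts (nat_lit 4) (T.ts (nat_lit 3) (T.im (nat_lit 7) (nat_lit 3)) (T.sk (T.ls (nat_lit 3) (nat_lit 4)))) (T.sk (T.ls (nat_lit 3) (nat_lit 4)))) (T.ts (nat_lit 4) (T.im (nat_lit 7) (nat_lit 2)) T.ie)))))) (T.ts (nat_lit 2) (T.ts (nat_lit 3) (T.ls (nat_lit 3) (nat_lit 4)) (T.ts (nat_lit 2) (T.ls (nat_lit 3) (nat_lit 4)) d606)) (T.ts (nat_lit 1) (T.ts (nat_lit 3) (T.ls (nat_lit 3) (nat_lit 4)) (T.ts (nat_lit 2) (T.ls (nat_lit 3) (nat_lit 4)) (T.ts (nat_lit 1) (T.ts (nat_lit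 4) (T.ts (nat_lit 3) (T.ts (nat_lit 2) (T.ts (nat_lit 4) (T.ts (nat_lit 1) (T.ts (nat_lit 0) (T.ts (nat_lit 2) (T.ts (nat_lit 4) (T.l1 (nat_lit 12300) (nat_lit 4) (nat_lit 20500)) (T.tp (T.sk (T.ls (nat_lit 3) (nat_lit 4))))) (T.tp (T.sk (T.ls (nat_lit 3) (nat_lit 4))))) (T.tp (T.sk (T.ls (nat_lit 3) (nat_lit 4))))) (T.tp (T.sk (T.ls (nat_lit 3) (nat_lit 4))))) (T.tp (T.sk (T.ls (nat_lit 3) (nat_lit 4))))) (T.tp (T.sk (T.ls (nat_lit 3) (nat_lit 4))))) (T.tp (T.sk (T.ls (nat_lit 3) (nat_lit 4))))) (T.tp (T.sk (T.ls (nat_lit 3) (nat_lit 4))))) (T.tp (T.ts (nat_lit 4) (T.im (nat_lit 7) (nat_lit 2)) (T.ts (nat_lit 0) (T.im (nat_lit 3) (nat_lit 4)) T.ie)))))) (T.ts (nat_lit 0) (T.ts (nat_lit 3) (T.ls (nat_lit 3) (nat_lit 4)) d607) (T.tp (T.ts (nat_lit 4) (T.im (nat_lit 7) (nat_lit 1))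 T.ie))))))
def d609 : T := (T.ts (nat_lit 1) (T.ts (nat_lit 4) (T.ts (nat_lit 3) (T.ts (nat_lit 2) (T.ts (nat_lit 4) (T.ts (nat_lit 1) (T.ts (nat_lit 0) (T.ts (nat_lit 2) (T.ts (nat_lit 3) (T.l1 (nat_lit 12300) (nat_lit 4) (nat_lit 20500)) (T.tp (T.sk (T.ls (nat_lit 3) (nat_lit 4))))) (T.tp (T.sk (T.ls (nat_lit 3) (nat_lit 4))))) (T.tp (T.sk (T.ls (nat_lit 3) (nat_lit 4))))) (T.tp (T.sk (T.ls (nat_lit 3) (nat_lit 4))))) (T.tp (T.sk (T.ls (nat_lit 3) (nat_lit 4))))) (T.tp (T.sk (T.ls (nat_lit 3) (nat_lit 4))))) (T.tp (T.sk (T.ls (nat_lit 3) (nat_lit 4))))) (T.tp (T.sk (T.ls (nat_lit 3) (nat_lit 4))))) (T.ts (nat_lit 0) (T.ts (nat_lit 4) (T.ts (nat_lit 3) (T.ts (nat_lit 2) (T.ts (nat_lit 4) (T.ts (nat_lit 1) (T.ts (nat_lit 0) (T.ts (nat_lit 2) (T.ts (nat_lit 3) (T.l1 (nat_lit 12300)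 (nat_lit 3) (nat_lit 20500)) (T.tp (T.sk (T.ls (nat_lit 3) (nat_lit 4))))) (T.tp (T.sk (T.ls (nat_lit 3) (nat_lit 4))))) (T.tp (T.sk (T.ls (nat_lit 3) (nat_lit 4))))) (T.tp (T.sk (T.ls (nat_lit 3) (nat_lit 4))))) (T.tp (T.sk (T.ls (nat_lit 3) (nat_lit 4))))) (T.tp (T.sk (T.ls (nat_lit 3) (nat_lit 4))))) (T.tp (T.sk (T.ls (nat_lit 3) (nat_lit 4))))) (T.tp (T.sk (T.ls (nat_lit 3) (nat_lit 4))))) (T.tp (T.ts (nat_lit 3) (T.im (nat_lit 7) (nat_lit 2)) T.ie))))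
def d610 : T := (T.ts (nat_lit 1) (T.ts (nat_lit 4) (T.ts (nat_lit 3) (T.ts (nat_lit 2) (T.ts (nat_lit 4) (T.ts (nat_lit 1) (T.ts (nat_lit 0) (T.ts (nat_lit 2) (T.ts (nat_lit 3) (T.l1 (nat_lit 12300) (nat_lit 4) (nat_lit 20500)) (T.tp (T.sk (T.ls (nat_lit 3) (nat_lit 4))))) (T.tp (T.sk (T.ls (nat_lit 3) (nat_lit 4))))) (T.tp (T.sk (T.ls (nat_lit 3) (nat_lit 4))))) (T.tp (T.sk (T.ls (nat_lit 3) (nat_lit 4))))) (T.tp (T.sk (T.ls (nat_lit 3) (nat_lit 4))))) (T.tp (T.sk (T.ls (nat_lit 3) (nat_lit 4))))) (T.tp (T.sk (T.ls (nat_lit 3) (nat_lit 4))))) (T.tp (T.sk (T.ls (nat_lit 3) (nat_lit 4))))) (T.ts (nat_lit 0) (T.ts (nat_lit 4) (T.ts (nat_lit 3) (T.ts (nat_lit 2) (T.ts (nat_lit 4) (T.ts (nat_lit 1) (T.ts (nat_lit 0) (T.ts (nat_lit 2) (T.ts (nat_lit 3) (T.l1 (nat_lit 12300) (nat_lit 3)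 (nat_lit 20500)) (T.tp (T.sk (T.ls (nat_lit 3) (nat_lit 4))))) (T.tp (T.sk (T.ls (nat_lit 3) (nat_lit 4))))) (T.tp (T.sk (T.ls (nat_lit 3) (nat_lit 4))))) (T.tp (T.sk (T.ls (nat_lit 3) (nat_lit 4))))) (T.tp (T.sk (T.ls (nat_lit 3) (nat_lit 4))))) (T.tp (T.sk (T.ls (nat_lit 3) (nat_lit 4))))) (T.tp (T.sk (T.ls (nat_lit 3) (nat_lit 4))))) (T.tp (T.sk (T.ls (nat_lit 3) (nat_lit 4))))) (T.tp (T.ts (nat_lit 3) (T.im (nat_lit 7) (nat_lit 2)) T.ie))))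
def d611 : T := (T.ts (nat_lit 1) (T.ts (nat_lit 4) (T.ts (nat_lit 3) (T.ts (nat_lit 2) (T.ts (nat_lit 4) (T.ts (nat_lit 1) (T.ts (nat_lit 0) (T.ts (nat_lit 2) (T.ts (nat_lit 3) (T.l1 (nat_lit 12300) (nat_lit 4) (nat_lit 20500)) (T.tp (T.sk (T.ls (nat_lit 3) (nat_lit 4))))) (T.tp (T.sk (T.ls (nat_lit 3) (nat_lit 4))))) (T.tp (T.sk (T.ls (nat_lit 3) (nat_lit 4))))) (T.tp (T.sk (T.ls (nat_lit 3) (nat_lit 4))))) (T.tp (T.sk (T.ls (nat_lit 3) (nat_lit 4))))) (T.tp (T.sk (T.ls (nat_lit 3) (nat_lit 4))))) (T.tp (T.sk (T.ls (nat_lit 3) (nat_lit 4))))) (T.tp (T.sk (T.ls (nat_lit 3) (nat_lit 4))))) (T.ts (nat_lit 0) (T.ts (nat_lit 4) (T.ts (nat_lit 3) (T.ts (nat_lit 2) (T.ts (nat_lit 4) (T.ts (nat_lit 1) (T.ts (nat_lit 0) (T.ts (nat_lit 2) (T.ts (nat_lit 3) (T.l1 (nat_lit 12300) (nat_lit 3)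 (nat_lit 20500)) (T.tp (T.sk (T.ls (nat_lit 3) (nat_lit 4))))) (T.tp (T.sk (T.ls (nat_lit 3) (nat_lit 4))))) (T.tp (T.sk (T.ls (nat_lit 3) (nat_lit 4))))) (T.tp (T.sk (T.ls (nat_lit 3) (nat_lit 4))))) (T.tp (T.sk (T.ls (nat_lit 3) (nat_lit 4))))) (T.tp (T.sk (T.ls (nat_lit 3) (nat_lit 4))))) (T.tp (T.sk (T.ls (nat_lit 3) (nat_lit 4))))) (T.tp (T.sk (T.ls (nat_lit 3) (nat_lit 4))))) (T.tp (T.ts (nat_lit 3) (T.im (nat_lit 7) (nat_lit 2)) T.ie))))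
def d612 : T := (T.ts (nat_lit 1) (T.ts (nat_lit 4) (T.ts (nat_lit 3) (T.ts (nat_lit 2) (T.ts (nat_lit 4) (T.ts (nat_lit 1) (T.ts (nat_lit 0) (T.ts (nat_lit 2) (T.ts (nat_lit 3) (T.l1 (nat_lit 12300) (nat_lit 4) (nat_lit 20500)) (T.tp (T.sk (T.ls (nat_lit 3) (nat_lit 4))))) (T.tp (T.sk (T.ls (nat_lit 3) (nat_lit 4))))) (T.tp (T.sk (T.ls (nat_lit 3) (nat_lit 4))))) (T.tp (T.sk (T.ls (nat_lit 3) (nat_lit 4))))) (T.tp (T.sk (T.ls (nat_lit 3) (nat_lit 4))))) (T.tp (T.sk (T.ls (nat_lit 3) (nat_lit 4))))) (T.tp (T.sk (T.ls (nat_lit 3) (nat_lit 4))))) (T.tp (T.sk (T.ls (nat_lit 3) (nat_lit 4))))) (T.ts (nat_lit 0) (T.ts (nat_lit 4) (T.ts (nat_lit 3) (T.ts (nat_lit 2) (T.ts (nat_lit 4) (T.ts (nat_lit 1) (T.ts (nat_lit 0) (T.ts (nat_lit 2) (T.ts (nat_lit 3) (T.l1 (nat_lit 12300) (nat_lit 3)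 (nat_lit 20500)) (T.tp (T.sk (T.ls (nat_lit 3) (nat_lit 4))))) (T.tp (T.sk (T.ls (nat_lit 3) (nat_lit 4))))) (T.tp (T.sk (T.ls (nat_lit 3) (nat_lit 4))))) (T.tp (T.sk (T.ls (nat_lit 3) (nat_lit 4))))) (T.tp (T.sk (T.ls (nat_lit 3) (nat_lit 4))))) (T.tp (T.sk (T.ls (nat_lit 3) (nat_lit 4))))) (T.tp (T.sk (T.ls (nat_lit 3) (nat_lit 4))))) (T.tp (T.sk (T.ls (nat_lit 3) (nat_lit 4))))) (T.tp (T.ts (nat_lit 3) (T.im (nat_lit 7) (nat_lit 2)) (T.ts (nat_lit 2) (T.im (nat_lit 5) (nat_lit 3)) T.ie)))))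
def d613 : T := (T.ts (nat_lit 2) (T.ts (nat_lit 4) (T.ls (nat_lit 3) (nat_lit 4)) (T.ts (nat_lit 2) (T.ls (nat_lit 3) (nat_lit 4)) d610)) (T.ts (nat_lit 1) (T.ts (nat_lit 4) (T.ts (nat_lit 3) (T.ts (nat_lit 2) (T.ts (nat_lit 4) (T.ts (nat_lit 1) (T.ts (nat_lit 0) (T.ts (nat_lit 2) (T.l1 (nat_lit 12300) (nat_lit 4) (nat_lit 20500)) (T.sk (T.lf (nat_lit 16569) (nat_lit 3) (nat_lit 12300) (nat_lit 4) (nat_lit 20500)))) (T.sk (T.lf (nat_lit 16569) (nat_lit 3) (nat_lit 12300) (nat_lit 4) (nat_lit 20500)))) (T.tp (T.sk (T.ls (nat_lit 3) (nat_lit 4))))) (T.tp (T.sk (T.ls (nat_lit 3) (nat_lit 4))))) (T.tp (T.sk (T.ls (nat_lit 3) (nat_lit 4))))) (T.tp (T.sk (T.ls (nat_lit 3) (nat_lit 4))))) (T.ts (nat_lit 2) (T.ls (nat_lit 3) (nat_lit 4)) d611)) (T.ts (nat_lit 0) (T.ts (nat_lit 4) (T.ts (nat_lit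 3) (T.ts (nat_lit 2) (T.ts (nat_lit 4) (T.ts (nat_lit 1) (T.ts (nat_lit 0) (T.ts (nat_lit 2) (T.l1 (nat_lit 12300) (nat_lit 3) (nat_lit 20500)) (T.sk (T.lf (nat_lit 16569) (nat_lit 3) (nat_lit 20500) (nat_lit 4) (nat_lit 12300)))) (T.sk (T.lf (nat_lit 16569) (nat_lit 3) (nat_lit 20500) (nat_lit 4) (nat_lit 12300)))) (T.sk (T.lf (nat_lit 18835) (nat_lit 3) (nat_lit 20500) (nat_lit 4) (nat_lit 16076)))) (T.sk (T.lf (nat_lit 18835) (nat_lit 3) (nat_lit 20500) (nat_lit 4) (nat_lit 16076)))) (T.tp (T.sk (T.ls (nat_lit 3) (nat_lit 4))))) (T.tp (T.sk (T.ls (nat_lit 3) (nat_lit 4))))) d612) (T.tp (T.ts (nat_lit 3) (T.im (nat_lit 7) (nat_lit 1)) T.ie)))))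
def d614 : T := (T.ts (nat_lit 1) (T.ts (nat_lit 4) (T.ts (nat_lit 3) (T.ts (nat_lit 2) (T.ts (nat_lit 4) (T.ts (nat_lit 1) (T.ts (nat_lit 0) (T.ts (nat_lit 2) (T.ts (nat_lit 2) (T.l1 (nat_lit 12300) (nat_lit 4) (nat_lit 20500)) (T.tp (T.sk (T.ls (nat_lit 3) (nat_lit 4))))) (T.tp (T.sk (T.ls (nat_lit 3) (nat_lit 4))))) (T.tp (T.sk (T.ls (nat_lit 3) (nat_lit 4))))) (T.tp (T.sk (T.ls (nat_lit 3) (nat_lit 4))))) (T.tp (T.sk (T.ls (nat_lit 3) (nat_lit 4))))) (T.tp (T.sk (T.ls (nat_lit 3) (nat_lit 4))))) (T.tp (T.sk (T.ls (nat_lit 3) (nat_lit 4))))) (T.tp (T.sk (T.ls (nat_lit 3) (nat_lit 4))))) (T.ts (nat_lit 0) (T.ts (nat_lit 4) (T.ts (nat_lit 3) (T.ts (nat_lit 2) (T.ts (nat_lit 4) (T.ts (nat_lit 1) (T.ts (nat_lit 0) (T.ts (nat_lit 2) (T.ts (nat_lit 2) (T.l1 (nat_lit 12300) (nat_lit 3)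 (nat_lit 20500)) (T.tp (T.sk (T.ls (nat_lit 3) (nat_lit 4))))) (T.tp (T.sk (T.ls (nat_lit 3) (nat_lit 4))))) (T.tp (T.sk (T.ls (nat_lit 3) (nat_lit 4))))) (T.tp (T.sk (T.ls (nat_lit 3) (nat_lit 4))))) (T.tp (T.sk (T.ls (nat_lit 3) (nat_lit 4))))) (T.tp (T.sk (T.ls (nat_lit 3) (nat_lit 4))))) (T.tp (T.sk (T.ls (nat_lit 3) (nat_lit 4))))) (T.tp (T.sk (T.ls (nat_lit 3) (nat_lit 4))))) (T.tp (T.ts (nat_lit 2) (T.im (nat_lit 7) (nat_lit 2)) T.ie))))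
def d615 : T := (T.ts (nat_lit 1) (T.ts (nat_lit 4) (T.ts (nat_lit 3) (T.ts (nat_lit 2) (T.ts (nat_lit 4) (T.ts (nat_lit 1) (T.ts (nat_lit 0) (T.ts (nat_lit 2) (T.ts (nat_lit 2) (T.l1 (nat_lit 12300) (nat_lit 4) (nat_lit 20500)) (T.sk (T.lf (nat_lit 16569) (nat_lit 3) (nat_lit 12300) (nat_lit 4) (nat_lit 20500)))) (T.sk (T.lf (nat_lit 16569) (nat_lit 3) (nat_lit 12300) (nat_lit 4) (nat_lit 20500)))) (T.tp (T.sk (T.ls (nat_lit 3) (nat_lit 4))))) (T.tp (T.sk (T.ls (nat_lit 3) (nat_lit 4))))) (T.tp (T.sk (T.ls (nat_lit 3) (nat_lit 4))))) (T.tp (T.sk (T.ls (nat_lit 3) (nat_lit 4))))) (T.tp (T.sk (T.ls (nat_lit 3) (nat_lit 4))))) (T.tp (T.sk (T.ls (nat_lit 3) (nat_lit 4))))) (T.ts (nat_lit 0) (T.ts (nat_lit 4) (T.ts (nat_lit 3) (T.ts (nat_lit 2) (T.ts (nat_lit 4) (T.ts (nat_lit 1) (T.ts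 (nat_lit 0) (T.ts (nat_lit 2) (T.ts (nat_lit 2) (T.l1 (nat_lit 12300) (nat_lit 3) (nat_lit 20500)) (T.sk (T.lf (nat_lit 16569) (nat_lit 3) (nat_lit 20500) (nat_lit 4) (nat_lit 12300)))) (T.sk (T.lf (nat_lit 16569) (nat_lit 3) (nat_lit 20500) (nat_lit 4) (nat_lit 12300)))) (T.tp (T.sk (T.ls (nat_lit 3) (nat_lit 4))))) (T.tp (T.sk (T.ls (nat_lit 3) (nat_lit 4))))) (T.tp (T.sk (T.ls (nat_lit 3) (nat_lit 4))))) (T.tp (T.sk (T.ls (nat_lit 3) (nat_lit 4))))) (T.tp (T.sk (T.ls (nat_lit 3) (nat_lit 4))))) (T.tp (T.sk (T.ls (nat_lit 3) (nat_lit 4))))) (T.tp (T.ts (nat_lit 2) (T.im (nat_lit 7) (nat_lit 2)) T.ie))))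
def d616 : T := (T.ts (nat_lit 1) (T.ts (nat_lit 4) (T.ts (nat_lit 3) (T.ts (nat_lit 2) (T.ts (nat_lit 4) (T.ts (nat_lit 1) (T.ts (nat_lit 0) (T.ts (nat_lit 2) (T.ts (nat_lit 2) (T.l1 (nat_lit 12300) (nat_lit 4) (nat_lit 20500)) (T.tp (T.sk (T.ls (nat_lit 3) (nat_lit 4))))) (T.tp (T.sk (T.ls (nat_lit 3) (nat_lit 4))))) (T.tp (T.sk (T.ls (nat_lit 3) (nat_lit 4))))) (T.tp (T.sk (T.ls (nat_lit 3) (nat_lit 4))))) (T.tp (T.sk (T.ls (nat_lit 3) (nat_lit 4))))) (T.tp (T.sk (T.ls (nat_lit 3) (nat_lit 4))))) (T.tp (T.sk (T.ls (nat_lit 3) (nat_lit 4))))) (T.tp (T.sk (T.ls (nat_lit 3) (nat_lit 4))))) (T.ts (nat_lit 0) (T.ts (nat_lit 4) (T.ts (nat_lit 3) (T.ts (nat_lit 2) (T.ts (nat_lit 4) (T.ts (nat_lit 1) (T.ts (nat_lit 0) (T.ts (nat_lit 2) (T.ts (nat_lit 2) (T.l1 (nat_lit 12300) (nat_lit 3)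 (nat_lit 20500)) (T.tp (T.sk (T.ls (nat_lit 3) (nat_lit 4))))) (T.tp (T.sk (T.ls (nat_lit 3) (nat_lit 4))))) (T.tp (T.sk (T.ls (nat_lit 3) (nat_lit 4))))) (T.tp (T.sk (T.ls (nat_lit 3) (nat_lit 4))))) (T.tp (T.sk (T.ls (nat_lit 3) (nat_lit 4))))) (T.tp (T.sk (T.ls (nat_lit 3) (nat_lit 4))))) (T.tp (T.sk (T.ls (nat_lit 3) (nat_lit 4))))) (T.tp (T.sk (T.ls (nat_lit 3) (nat_lit 4))))) (T.tp (T.ts (nat_lit 2) (T.im (nat_lit 7) (nat_lit 2)) T.ie))))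
def d617 : T := (T.ts (nat_lit 1) (T.ts (nat_lit 4) (T.ts (nat_lit 3) (T.ts (nat_lit 2) (T.ts (nat_lit 4) (T.ts (nat_lit 1) (T.ts (nat_lit 0) (T.ts (nat_lit 2) (T.ts (nat_lit 2) (T.l1 (nat_lit 12300) (nat_lit 4) (nat_lit 20500)) (T.tp (T.sk (T.ls (nat_lit 3) (nat_lit 4))))) (T.tp (T.sk (T.ls (nat_lit 3) (nat_lit 4))))) (T.tp (T.sk (T.ls (nat_lit 3) (nat_lit 4))))) (T.tp (T.sk (T.ls (nat_lit 3) (nat_lit 4))))) (T.tp (T.sk (T.ls (nat_lit 3) (nat_lit 4))))) (T.tp (T.sk (T.ls (nat_lit 3) (nat_lit 4))))) (T.tp (T.sk (T.ls (nat_lit 3) (nat_lit 4))))) (T.tp (T.sk (T.ls (nat_lit 3) (nat_lit 4))))) (T.ts (nat_lit 0) (T.ts (nat_lit 4) (T.ts (nat_lit 3) (T.ts (nat_lit 2) (T.ts (nat_lit 4) (T.ts (nat_lit 1) (T.ts (nat_lit 0) (T.ts (nat_lit 2) (T.ts (nat_lit 2) (T.l1 (nat_lit 12300) (nat_lit 3)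 (nat_lit 20500)) (T.tp (T.sk (T.ls (nat_lit 3) (nat_lit 4))))) (T.tp (T.sk (T.ls (nat_lit 3) (nat_lit 4))))) (T.tp (T.sk (T.ls (nat_lit 3) (nat_lit 4))))) (T.tp (T.sk (T.ls (nat_lit 3) (nat_lit 4))))) (T.tp (T.sk (T.ls (nat_lit 3) (nat_lit 4))))) (T.tp (T.sk (T.ls (nat_lit 3) (nat_lit 4))))) (T.tp (T.sk (T.ls (nat_lit 3) (nat_lit 4))))) (T.tp (T.sk (T.ls (nat_lit 3) (nat_lit 4))))) (T.tp (T.ts (nat_lit 2) (T.im (nat_lit 5) (nat_lit 3)) T.ie))))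
def d618 : T := (T.ts (nat_lit 1) (T.ts (nat_lit 4) (T.ts (nat_lit 3) (T.ts (nat_lit 2) (T.ts (nat_lit 4) (T.ts (nat_lit 1) (T.ts (nat_lit 0) (T.ts (nat_lit 2) (T.l1 (nat_lit 12300) (nat_lit 4) (nat_lit 20500)) (T.tp (T.sk (T.ls (nat_lit 3) (nat_lit 4))))) (T.tp (T.sk (T.ls (nat_lit 3) (nat_lit 4))))) (T.tp (T.sk (T.ls (nat_lit 3) (nat_lit 4))))) (T.tp (T.sk (T.ls (nat_lit 3) (nat_lit 4))))) (T.tp (T.sk (T.ls (nat_lit 3) (nat_lit 4))))) (T.tp (T.sk (T.ls (nat_lit 3) (nat_lit 4))))) (T.ts (nat_lit 3) (T.ls (nat_lit 3) (nat_lit 4)) d616)) (T.ts (nat_lit 0) (T.ts (nat_lit 4) (T.ts (nat_lit 3) (T.ts (nat_lit 2) (T.ts (nat_lit 4) (T.ts (nat_lit 1) (T.ts (nat_lit 0) (T.ts (nat_lit 2) (T.l1 (nat_lit 12300) (nat_lit 3) (nat_lit 20500)) (T.tp (T.sk (T.ls (nat_lit 3) (nat_lit 4))))) (T.tp (T.sk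 (T.ls (nat_lit 3) (nat_lit 4))))) (T.tp (T.sk (T.ls (nat_lit 3) (nat_lit 4))))) (T.tp (T.sk (T.ls (nat_lit 3) (nat_lit 4))))) (T.tp (T.sk (T.ls (nat_lit 3) (nat_lit 4))))) (T.tp (T.sk (T.ls (nat_lit 3) (nat_lit 4))))) (T.ts (nat_lit 3) (T.ls (nat_lit 3) (nat_lit 4)) d617)) (T.tp (T.ts (nat_lit 2) (T.im (nat_lit 7) (nat_lit 1)) T.ie))))
def d619 : T := (T.ts (nat_lit 4) (T.ls (nat_lit 3) (nat_lit 4)) (T.ts (nat_lit 3) (T.ts (nat_lit 4) (T.ls (nat_lit 3) (nat_lit 4)) (T.ts (nat_lit 2) (T.ts (nat_lit 4) (T.ts (nat_lit 1) (T.ts (nat_lit 0) (T.l1 (nat_lit 12300) (nat_lit 4) (nat_lit 20500)) (T.tp (T.sk (T.ls (nat_lit 3) (nat_lit 4))))) (T.tp (T.sk (T.ls (nat_lit 3) (nat_lit 4))))) (T.tp (T.sk (T.ls (nat_lit 3) (nat_lit 4))))) (T.tp (T.sk (T.ls (nat_lit 3) (nat_lit 4)))))) (T.ts (nat_lit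 2) (T.ls (nat_lit 3) (nat_lit 4)) (T.ts (nat_lit 0) (T.ts (nat_lit 4) (T.ts (nat_lit 3) (T.ts (nat_lit 2) (T.ts (nat_lit 4) (T.ts (nat_lit 1) (T.ts (nat_lit 0) (T.ts (nat_lit 2) (T.ts (nat_lit 1) (T.l1 (nat_lit 12300) (nat_lit 3) (nat_lit 20500)) (T.tp (T.sk (T.ls (nat_lit 3) (nat_lit 4))))) (T.tp (T.sk (T.ls (nat_lit 3) (nat_lit 4))))) (T.tp (T.sk (T.ls (nat_lit 3) (nat_lit 4))))) (T.tp (T.sk (T.ls (nat_lit 3) (nat_lit 4))))) (T.tp (T.sk (T.ls (nat_lit 3) (nat_lit 4))))) (T.tp (T.sk (T.ls (nat_lit 3) (nat_lit 4))))) (T.tp (T.sk (T.ls (nat_lit 3) (nat_lit 4))))) (T.tp (T.sk (T.ls (nat_lit 3) (nat_lit 4))))) (T.tp (T.ts (nat_lit 1) (T.im (nat_lit 7) (nat_lit 2)) T.ie))))))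
def d620 : T := (T.ts (nat_lit 4) (T.ts (nat_lit 3) (T.ts (nat_lit 2) (T.ts (nat_lit 4) (T.ts (nat_lit 1) (T.ts (nat_lit 0) (T.ts (nat_lit 2) (T.l1 (nat_lit 12300) (nat_lit 3) (nat_lit 20500)) (T.tp (T.sk (T.ls (nat_lit 3) (nat_lit 4))))) (T.tp (T.sk (T.ls (nat_lit 3) (nat_lit 4))))) (T.tp (T.sk (T.ls (nat_lit 3) (nat_lit 4))))) (T.tp (T.sk (T.ls (nat_lit 3) (nat_lit 4))))) (T.tp (T.sk (T.ls (nat_lit 3) (nat_lit 4))))) (T.tp (T.sk (T.ls (nat_lit 3) (nat_lit 4))))) (T.ts (nat_lit 3) (T.ls (nat_lit 3) (nat_lit 4)) (T.ts (nat_lit 0) (T.ts (nat_lit 4) (T.ts (nat_lit 3) (T.ts (nat_lit 2) (T.ts (nat_lit 4) (T.ts (nat_lit 1) (T.ts (nat_lit 0) (T.ts (nat_lit 2) (T.ts (nat_lit 1) (T.l1 (nat_lit 12300) (nat_lit 3) (nat_lit 20500)) (T.tp (T.sk (T.ls (nat_lit 3) (nat_lit 4))))) (T.tp (T.sk (T.ls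 (nat_lit 3) (nat_lit 4))))) (T.tp (T.sk (T.ls (nat_lit 3) (nat_lit 4))))) (T.tp (T.sk (T.ls (nat_lit 3) (nat_lit 4))))) (T.tp (T.sk (T.ls (nat_lit 3) (nat_lit 4))))) (T.tp (T.sk (T.ls (nat_lit 3) (nat_lit 4))))) (T.tp (T.sk (T.ls (nat_lit 3) (nat_lit 4))))) (T.tp (T.sk (T.ls (nat_lit 3) (nat_lit 4))))) (T.tp (T.ts (nat_lit 2) (T.im (nat_lit 5) (nat_lit 3)) (T.ts (nat_lit 1) (T.im (nat_lit 7) (nat_lit 2)) T.ie))))))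
def d621 : T := (T.ts (nat_lit 3) (T.ts (nat_lit 4) (T.ls (nat_lit 3) (nat_lit 4)) (T.ts (nat_lit 3) (T.ls (nat_lit 3) (nat_lit 4)) (T.ts (nat_lit 2) (T.ls (nat_lit 3) (nat_lit 4)) (T.ts (nat_lit 0) (T.ts (nat_lit 4) (T.ts (nat_lit 3) (T.ts (nat_lit 2) (T.ts (nat_lit 4) (T.ts (nat_lit 1) (T.ts (nat_lit 0) (T.ts (nat_lit 2) (T.ts (nat_lit 1) (T.l1 (nat_lit 12300) (nat_lit 3) (nat_lit 20500)) (T.sk (T.lf (nat_lit 16569) (nat_lit 3) (nat_lit 20500) (nat_lit 4) (nat_lit 12300)))) (T.sk (T.lf (nat_lit 16569) (nat_lit 3) (nat_lit 20500) (nat_lit 4) (nat_lit 12300)))) (T.tp (T.sk (T.ls (nat_lit 3) (nat_lit 4))))) (T.tp (T.sk (T.ls (nat_lit 3) (nat_lit 4))))) (T.tp (T.sk (T.ls (nat_lit 3) (nat_lit 4))))) (T.tp (T.sk (T.ls (nat_lit 3) (nat_lit 4))))) (T.tp (T.sk (T.ls (nat_lit 3) (nat_lit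 4))))) (T.tp (T.sk (T.ls (nat_lit 3) (nat_lit 4))))) (T.tp (T.ts (nat_lit 1) (T.im (nat_lit 7) (nat_lit 2)) T.ie)))))) (T.ts (nat_lit 2) (T.ts (nat_lit 4) (T.ls (nat_lit 3) (nat_lit 4)) (T.ts (nat_lit 3) (T.ls (nat_lit 3) (nat_lit 4)) (T.ts (nat_lit 2) (T.ls (nat_lit 3) (nat_lit 4)) (T.ts (nat_lit 0) (T.ts (nat_lit 4) (T.ts (nat_lit 3) (T.ts (nat_lit 2) (T.ts (nat_lit 4) (T.ts (nat_lit 1) (T.ts (nat_lit 0) (T.ts (nat_lit 2) (T.ts (nat_lit 1) (T.l1 (nat_lit 12300) (nat_lit 3) (nat_lit 20500)) (T.tp (T.sk (T.ls (nat_lit 3) (nat_lit 4))))) (T.tp (T.sk (T.ls (nat_lit 3) (nat_lit 4))))) (T.tp (T.sk (T.ls (nat_lit 3) (nat_lit 4))))) (T.tp (T.sk (T.ls (nat_lit 3) (nat_lit 4))))) (T.tp (T.sk (T.ls (nat_lit 3) (nat_lit 4))))) (T.tp (T.sk (T.ls (nat_lit 3) (nat_lit 4))))) (T.tp (T.sk (T.ls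 (nat_lit 3) (nat_lit 4))))) (T.tp (T.sk (T.ls (nat_lit 3) (nat_lit 4))))) (T.tp (T.ts (nat_lit 1) (T.im (nat_lit 7) (nat_lit 2)) T.ie)))))) (T.ts (nat_lit 0) d620 (T.tp (T.ts (nat_lit 1) (T.im (nat_lit 7) (nat_lit 1)) T.ie)))))
def d622 : T := (T.ts (nat_lit 4) d608 (T.ts (nat_lit 3) (T.ts (nat_lit 4) (T.ts (nat_lit 4) (T.ls (nat_lit 3) (nat_lit 4)) (T.ts (nat_lit 2) (T.ls (nat_lit 3) (nat_lit 4)) d609)) d613) (T.ts (nat_lit 2) (T.ts (nat_lit 4) (T.ts (nat_lit 4) (T.ls (nat_lit 3) (nat_lit 4)) (T.ts (nat_lit 3) (T.ls (nat_lit 3) (nat_lit 4)) d614)) (T.ts (nat_lit 3) (T.ts (nat_lit 4) (T.ls (nat_lit 3) (nat_lit 4)) (T.ts (nat_lit 3) (T.ls (nat_lit 3) (nat_lit 4)) d615)) d618)) (T.ts (nat_lit 1) (T.ts (nat_lit 4) d619 d621) (T.tp (T.ts (nat_lit 0) (T.im (nat_lit 5) (nat_lit 2)) T.ie))))))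
def d623 : T := (T.ts (nat_lit 1) (T.ts (nat_lit 4) (T.ts (nat_lit 3) (T.ts (nat_lit 2) (T.ts (nat_lit 4) (T.ts (nat_lit 1) (T.ts (nat_lit 0) (T.ts (nat_lit 1) (T.ts (nat_lit 4) (T.l1 (nat_lit 12300) (nat_lit 4) (nat_lit 20500)) (T.tp (T.sk (T.ls (nat_lit 3) (nat_lit 4))))) (T.tp (T.sk (T.ls (nat_lit 3) (nat_lit 4))))) (T.tp (T.sk (T.ls (nat_lit 3) (nat_lit 4))))) (T.tp (T.sk (T.ls (nat_lit 3) (nat_lit 4))))) (T.tp (T.sk (T.ls (nat_lit 3) (nat_lit 4))))) (T.tp (T.sk (T.ls (nat_lit 3) (nat_lit 4))))) (T.tp (T.sk (T.ls (nat_lit 3) (nat_lit 4))))) (T.tp (T.sk (T.ls (nat_lit 3) (nat_lit 4))))) (T.ts (nat_lit 0) (T.ts (nat_lit 4) (T.ts (nat_lit 3) (T.ts (nat_lit 2) (T.ts (nat_lit 4) (T.ts (nat_lit 1) (T.ts (nat_lit 0) (T.ts (nat_lit 1) (T.ts (nat_lit 4) (T.l1 (nat_lit 12300) (nat_lit 3)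 (nat_lit 20500)) (T.tp (T.sk (T.ls (nat_lit 3) (nat_lit 4))))) (T.tp (T.sk (T.ls (nat_lit 3) (nat_lit 4))))) (T.tp (T.sk (T.ls (nat_lit 3) (nat_lit 4))))) (T.tp (T.sk (T.ls (nat_lit 3) (nat_lit 4))))) (T.tp (T.sk (T.ls (nat_lit 3) (nat_lit 4))))) (T.tp (T.sk (T.ls (nat_lit 3) (nat_lit 4))))) (T.tp (T.sk (T.ls (nat_lit 3) (nat_lit 4))))) (T.tp (T.sk (T.ls (nat_lit 3) (nat_lit 4))))) (T.tp (T.ts (nat_lit 4) (T.im (nat_lit 7) (nat_lit 2)) T.ie))))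
def d624 : T := (T.ts (nat_lit 1) (T.ts (nat_lit 3) (T.ls (nat_lit 3) (nat_lit 4)) (T.ts (nat_lit 2) (T.ls (nat_lit 3) (nat_lit 4)) (T.ts (nat_lit 1) (T.ts (nat_lit 4) (T.ts (nat_lit 3) (T.ts (nat_lit 2) (T.ts (nat_lit 4) (T.ts (nat_lit 1) (T.ts (nat_lit 0) (T.ts (nat_lit 1) (T.ts (nat_lit 4) (T.l1 (nat_lit 12300) (nat_lit 4) (nat_lit 20500)) (T.tp (T.sk (T.ls (nat_lit 3) (nat_lit 4))))) (T.tp (T.sk (T.ls (nat_lit 3) (nat_lit 4))))) (T.tp (T.sk (T.ls (nat_lit 3) (nat_lit 4))))) (T.tp (T.sk (T.ls (nat_lit 3) (nat_lit 4))))) (T.tp (T.sk (T.ls (nat_lit 3) (nat_lit 4))))) (T.tp (T.sk (T.ls (nat_lit 3) (nat_lit 4))))) (T.tp (T.sk (T.ls (nat_lit 3) (nat_lit 4))))) (T.tp (T.sk (T.ls (nat_lit 3) (nat_lit 4))))) (T.tp (T.ts (nat_lit 4) (T.im (nat_lit 7) (nat_lit 2)) (T.ts (nat_lit 0) (T.im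 (nat_lit 3) (nat_lit 4)) T.ie)))))) (T.ts (nat_lit 0) (T.ts (nat_lit 3) (T.ls (nat_lit 3) (nat_lit 4)) (T.ts (nat_lit 2) (T.ls (nat_lit 3) (nat_lit 4)) (T.ts (nat_lit 0) (T.ts (nat_lit 4) (T.ts (nat_lit 3) (T.ts (nat_lit 2) (T.ts (nat_lit 4) (T.ts (nat_lit 1) (T.ts (nat_lit 0) (T.ts (nat_lit 1) (T.ts (nat_lit 4) (T.l1 (nat_lit 12300) (nat_lit 3) (nat_lit 20500)) (T.tp (T.sk (T.ls (nat_lit 3) (nat_lit 4))))) (T.tp (T.sk (T.ls (nat_lit 3) (nat_lit 4))))) (T.tp (T.sk (T.ls (nat_lit 3) (nat_lit 4))))) (T.tp (T.sk (T.ls (nat_lit 3) (nat_lit 4))))) (T.tp (T.sk (T.ls (nat_lit 3) (nat_lit 4))))) (T.tp (T.sk (T.ls (nat_lit 3) (nat_lit 4))))) (T.tp (T.sk (T.ls (nat_lit 3) (nat_lit 4))))) (T.tp (T.sk (T.ls (nat_lit 3) (nat_lit 4))))) (T.tp (T.ts (nat_lit 4) (T.im (nat_lit 7) (nat_lit 2)) (T.ts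 (nat_lit 1) (T.im (nat_lit 5) (nat_lit 3)) T.ie)))))) (T.tp (T.ts (nat_lit 4) (T.im (nat_lit 7) (nat_lit 1)) T.ie))))
def d625 : T := (T.ts (nat_lit 1) (T.ts (nat_lit 4) (T.ts (nat_lit 3) (T.ts (nat_lit 2) (T.ts (nat_lit 4) (T.ts (nat_lit 1) (T.ts (nat_lit 0) (T.ts (nat_lit 1) (T.ts (nat_lit 3) (T.l1 (nat_lit 12300) (nat_lit 4) (nat_lit 20500)) (T.tp (T.sk (T.ls (nat_lit 3) (nat_lit 4))))) (T.tp (T.sk (T.ls (nat_lit 3) (nat_lit 4))))) (T.tp (T.sk (T.ls (nat_lit 3) (nat_lit 4))))) (T.tp (T.sk (T.ls (nat_lit 3) (nat_lit 4))))) (T.tp (T.sk (T.ls (nat_lit 3) (nat_lit 4))))) (T.tp (T.sk (T.ls (nat_lit 3) (nat_lit 4))))) (T.tp (T.sk (T.ls (nat_lit 3) (nat_lit 4))))) (T.tp (T.sk (T.ls (nat_lit 3) (nat_lit 4))))) (T.ts (nat_lit 0) (T.ts (nat_lit 4) (T.ts (nat_lit 3) (T.ts (nat_lit 2) (T.ts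 (nat_lit 4) (T.ts (nat_lit 1) (T.ts (nat_lit 0) (T.ts (nat_lit 1) (T.ts (nat_lit 3) (T.l1 (nat_lit 12300) (nat_lit 3) (nat_lit 20500)) (T.tp (T.sk (T.ls (nat_lit 3) (nat_lit 4))))) (T.tp (T.sk (T.ls (nat_lit 3) (nat_lit 4))))) (T.tp (T.sk (T.ls (nat_lit 3) (nat_lit 4))))) (T.tp (T.sk (T.ls (nat_lit 3) (nat_lit 4))))) (T.tp (T.sk (T.ls (nat_lit 3) (nat_lit 4))))) (T.tp (T.sk (T.ls (nat_lit 3) (nat_lit 4))))) (T.tp (T.sk (T.ls (nat_lit 3) (nat_lit 4))))) (T.tp (T.sk (T.ls (nat_lit 3) (nat_lit 4))))) (T.tp (T.ts (nat_lit 3) (T.im (nat_lit 7) (nat_lit 2)) T.ie))))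
def d626 : T := (T.ts (nat_lit 1) (T.ts (nat_lit 4) (T.ts (nat_lit 3) (T.ts (nat_lit 2) (T.ts (nat_lit 4) (T.ts (nat_lit 1) (T.ts (nat_lit 0) (T.ts (nat_lit 1) (T.ts (nat_lit 3) (T.l1 (nat_lit 12300) (nat_lit 4) (nat_lit 20500)) (T.tp (T.sk (T.ls (nat_lit 3) (nat_lit 4))))) (T.tp (T.sk (T.ls (nat_lit 3) (nat_lit 4))))) (T.tp (T.sk (T.ls (nat_lit 3) (nat_lit 4))))) (T.tp (T.sk (T.ls (nat_lit 3) (nat_lit 4))))) (T.tp (T.sk (T.ls (nat_lit 3) (nat_lit 4))))) (T.tp (T.sk (T.ls (nat_lit 3) (nat_lit 4))))) (T.tp (T.sk (T.ls (nat_lit 3) (nat_lit 4))))) (T.tp (T.sk (T.ls (nat_lit 3) (nat_lit 4))))) (T.ts (nat_lit 0) (T.ts (nat_lit 4) (T.ts (nat_lit 3) (T.ts (nat_lit 2) (T.ts (nat_lit 4) (T.ts (nat_lit 1) (T.ts (nat_lit 0) (T.ts (nat_lit 1) (T.ts (nat_lit 3) (T.l1 (nat_lit 12300) (nat_lit 3)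 (nat_lit 20500)) (T.tp (T.sk (T.ls (nat_lit 3) (nat_lit 4))))) (T.tp (T.sk (T.ls (nat_lit 3) (nat_lit 4))))) (T.tp (T.sk (T.ls (nat_lit 3) (nat_lit 4))))) (T.tp (T.sk (T.ls (nat_lit 3) (nat_lit 4))))) (T.tp (T.sk (T.ls (nat_lit 3) (nat_lit 4))))) (T.tp (T.sk (T.ls (nat_lit 3) (nat_lit 4))))) (T.tp (T.sk (T.ls (nat_lit 3) (nat_lit 4))))) (T.tp (T.sk (T.ls (nat_lit 3) (nat_lit 4))))) (T.tp (T.ts (nat_lit 3) (T.im (nat_lit 7) (nat_lit 2)) T.ie))))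
def d627 : T := (T.ts (nat_lit 1) (T.ts (nat_lit 4) (T.ts (nat_lit 3) (T.ts (nat_lit 2) (T.ts (nat_lit 4) (T.ts (nat_lit 1) (T.ts (nat_lit 0) (T.ts (nat_lit 1) (T.ts (nat_lit 3) (T.l1 (nat_lit 12300) (nat_lit 4) (nat_lit 20500)) (T.tp (T.sk (T.ls (nat_lit 3) (nat_lit 4))))) (T.tp (T.sk (T.ls (nat_lit 3) (nat_lit 4))))) (T.tp (T.sk (T.ls (nat_lit 3) (nat_lit 4))))) (T.tp (T.sk (T.ls (nat_lit 3) (nat_lit 4))))) (T.tp (T.sk (T.ls (nat_lit 3) (nat_lit 4))))) (T.tp (T.sk (T.ls (nat_lit 3) (nat_lit 4))))) (T.tp (T.sk (T.ls (nat_lit 3) (nat_lit 4))))) (T.tp (T.sk (T.ls (nat_lit 3) (nat_lit 4))))) (T.ts (nat_lit 0) (T.ts (nat_lit 4) (T.ts (nat_lit 3) (T.ts (nat_lit 2) (T.ts (nat_lit 4) (T.ts (nat_lit 1) (T.ts (nat_lit 0) (T.ts (nat_lit 1) (T.ts (nat_lit 3) (T.l1 (nat_lit 12300) (nat_lit 3)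 (nat_lit 20500)) (T.tp (T.sk (T.ls (nat_lit 3) (nat_lit 4))))) (T.tp (T.sk (T.ls (nat_lit 3) (nat_lit 4))))) (T.tp (T.sk (T.ls (nat_lit 3) (nat_lit 4))))) (T.tp (T.sk (T.ls (nat_lit 3) (nat_lit 4))))) (T.tp (T.sk (T.ls (nat_lit 3) (nat_lit 4))))) (T.tp (T.sk (T.ls (nat_lit 3) (nat_lit 4))))) (T.tp (T.sk (T.ls (nat_lit 3) (nat_lit 4))))) (T.tp (T.sk (T.ls (nat_lit 3) (nat_lit 4))))) (T.tp (T.ts (nat_lit 3) (T.im (nat_lit 7) (nat_lit 2)) T.ie))))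
def d628 : T := (T.ts (nat_lit 4) (T.ts (nat_lit 3) (T.ts (nat_lit 2) (T.ts (nat_lit 4) (T.ts (nat_lit 1) (T.ts (nat_lit 0) (T.ts (nat_lit 1) (T.im (nat_lit 13) (nat_lit 2)) (T.sk (T.lf (nat_lit 16569) (nat_lit 3) (nat_lit 20500) (nat_lit 4) (nat_lit 12300)))) (T.sk (T.lf (nat_lit 16569) (nat_lit 3) (nat_lit 20500) (nat_lit 4) (nat_lit 12300)))) (T.tp (T.sk (T.ls (nat_lit 3) (nat_lit 4))))) (T.tp (T.sk (T.ls (nat_lit 3) (nat_lit 4))))) (T.tp (T.sk (T.ls (nat_lit 3) (nat_lit 4))))) (T.tp (T.sk (T.ls (nat_lit 3) (nat_lit 4))))) (T.ts (nat_lit 2) (T.ls (nat_lit 3) (nat_lit 4)) (T.ts (nat_lit 0) (T.ts (nat_lit 4) (T.ts (nat_lit 3) (T.ts (nat_lit 2) (T.ts (nat_lit 4) (T.ts (nat_lit 1) (T.ts (nat_lit 0) (T.ts (nat_lit 1) (T.ts (nat_lit 3) (T.l1 (nat_lit 12300) (nat_lit 3) (nat_lit 20500))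 (T.tp (T.sk (T.ls (nat_lit 3) (nat_lit 4))))) (T.tp (T.sk (T.ls (nat_lit 3) (nat_lit 4))))) (T.tp (T.sk (T.ls (nat_lit 3) (nat_lit 4))))) (T.tp (T.sk (T.ls (nat_lit 3) (nat_lit 4))))) (T.tp (T.sk (T.ls (nat_lit 3) (nat_lit 4))))) (T.tp (T.sk (T.ls (nat_lit 3) (nat_lit 4))))) (T.tp (T.sk (T.ls (nat_lit 3) (nat_lit 4))))) (T.tp (T.sk (T.ls (nat_lit 3) (nat_lit 4))))) (T.tp (T.ts (nat_lit 3) (T.im (nat_lit 7) (nat_lit 2)) (T.ts (nat_lit 1) (T.im (nat_lit 5) (nat_lit 3)) T.ie))))))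
def d629 : T := (T.ts (nat_lit 1) (T.ts (nat_lit 4) (T.ts (nat_lit 3) (T.ts (nat_lit 2) (T.ts (nat_lit 4) (T.ts (nat_lit 1) (T.ts (nat_lit 0) (T.ts (nat_lit 1) (T.ts (nat_lit 2) (T.l1 (nat_lit 12300) (nat_lit 4) (nat_lit 20500)) (T.tp (T.sk (T.ls (nat_lit 3) (nat_lit 4))))) (T.tp (T.sk (T.ls (nat_lit 3) (nat_lit 4))))) (T.tp (T.sk (T.ls (nat_lit 3) (nat_lit 4))))) (T.tp (T.sk (T.ls (nat_lit 3) (nat_lit 4))))) (T.tp (T.sk (T.ls (nat_lit 3) (nat_lit 4))))) (T.tp (T.sk (T.ls (nat_lit 3) (nat_lit 4))))) (T.tp (T.sk (T.ls (nat_lit 3) (nat_lit 4))))) (T.tp (T.sk (T.ls (nat_lit 3) (nat_lit 4))))) (T.ts (nat_lit 0) (T.ts (nat_lit 4) (T.ts (nat_lit 3) (T.ts (nat_lit 2) (T.ts (nat_lit 4) (T.ts (nat_lit 1) (T.ts (nat_lit 0) (T.ts (nat_lit 1) (T.ts (nat_lit 2) (T.l1 (nat_lit 12300) (nat_lit 3)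 (nat_lit 20500)) (T.tp (T.sk (T.ls (nat_lit 3) (nat_lit 4))))) (T.tp (T.sk (T.ls (nat_lit 3) (nat_lit 4))))) (T.tp (T.sk (T.ls (nat_lit 3) (nat_lit 4))))) (T.tp (T.sk (T.ls (nat_lit 3) (nat_lit 4))))) (T.tp (T.sk (T.ls (nat_lit 3) (nat_lit 4))))) (T.tp (T.sk (T.ls (nat_lit 3) (nat_lit 4))))) (T.tp (T.sk (T.ls (nat_lit 3) (nat_lit 4))))) (T.tp (T.sk (T.ls (nat_lit 3) (nat_lit 4))))) (T.tp (T.ts (nat_lit 2) (T.im (nat_lit 7) (nat_lit 2)) T.ie))))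
def d630 : T := (T.ts (nat_lit 1) (T.ts (nat_lit 4) (T.ts (nat_lit 3) (T.ts (nat_lit 2) (T.ts (nat_lit 4) (T.ts (nat_lit 1) (T.ts (nat_lit 0) (T.ts (nat_lit 1) (T.ts (nat_lit 2) (T.l1 (nat_lit 12300) (nat_lit 4) (nat_lit 20500)) (T.sk (T.lf (nat_lit 16569) (nat_lit 3) (nat_lit 12300) (nat_lit 4) (nat_lit 20500)))) (T.sk (T.lf (nat_lit 16569) (nat_lit 3) (nat_lit 12300) (nat_lit 4) (nat_lit 20500)))) (T.sk (T.lf (nat_lit 18835) (nat_lit 3) (nat_lit 16076) (nat_lit 4) (nat_lit 20500)))) (T.sk (T.lf (nat_lit 18835) (nat_lit 3) (nat_lit 16076) (nat_lit 4) (nat_lit 20500)))) (T.tp (T.sk (T.ls (nat_lit 3) (nat_lit 4))))) (T.tp (T.sk (T.ls (nat_lit 3) (nat_lit 4))))) (T.tp (T.sk (T.ls (nat_lit 3) (nat_lit 4))))) (T.tp (T.sk (T.ls (nat_lit 3) (nat_lit 4))))) (T.ts (nat_lit 0) (T.ts (nat_lit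 4) (T.ts (nat_lit 3) (T.ts (nat_lit 2) (T.ts (nat_lit 4) (T.ts (nat_lit 1) (T.ts (nat_lit 0) (T.ts (nat_lit 1) (T.ts (nat_lit 2) (T.l1 (nat_lit 12300) (nat_lit 3) (nat_lit 20500)) (T.sk (T.lf (nat_lit 16569) (nat_lit 3) (nat_lit 20500) (nat_lit 4) (nat_lit 12300)))) (T.sk (T.lf (nat_lit 16569) (nat_lit 3) (nat_lit 20500) (nat_lit 4) (nat_lit 12300)))) (T.tp (T.sk (T.ls (nat_lit 3) (nat_lit 4))))) (T.tp (T.sk (T.ls (nat_lit 3) (nat_lit 4))))) (T.tp (T.sk (T.ls (nat_lit 3) (nat_lit 4))))) (T.tp (T.sk (T.ls (nat_lit 3) (nat_lit 4))))) (T.tp (T.sk (T.ls (nat_lit 3) (nat_lit 4))))) (T.tp (T.sk (T.ls (nat_lit 3) (nat_lit 4))))) (T.tp (T.ts (nat_lit 2) (T.im (nat_lit 7) (nat_lit 2)) T.ie))))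
def d631 : T := (T.ts (nat_lit 1) (T.ts (nat_lit 4) (T.ts (nat_lit 3) (T.ts (nat_lit 2) (T.ts (nat_lit 4) (T.ts (nat_lit 1) (T.ts (nat_lit 0) (T.ts (nat_lit 1) (T.ts (nat_lit 2) (T.l1 (nat_lit 12300) (nat_lit 4) (nat_lit 20500)) (T.tp (T.sk (T.ls (nat_lit 3) (nat_lit 4))))) (T.tp (T.sk (T.ls (nat_lit 3) (nat_lit 4))))) (T.tp (T.sk (T.ls (nat_lit 3) (nat_lit 4))))) (T.tp (T.sk (T.ls (nat_lit 3) (nat_lit 4))))) (T.tp (T.sk (T.ls (nat_lit 3) (nat_lit 4))))) (T.tp (T.sk (T.ls (nat_lit 3) (nat_lit 4))))) (T.tp (T.sk (T.ls (nat_lit 3) (nat_lit 4))))) (T.tp (T.sk (T.ls (nat_lit 3) (nat_lit 4))))) (T.ts (nat_lit 0) (T.ts (nat_lit 4) (T.ts (nat_lit 3) (T.ts (nat_lit 2) (T.ts (nat_lit 4) (T.ts (nat_lit 1) (T.ts (nat_lit 0) (T.ts (nat_lit 1) (T.ts (nat_lit 2) (T.l1 (nat_lit 12300) (nat_lit 3)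 (nat_lit 20500)) (T.tp (T.sk (T.ls (nat_lit 3) (nat_lit 4))))) (T.tp (T.sk (T.ls (nat_lit 3) (nat_lit 4))))) (T.tp (T.sk (T.ls (nat_lit 3) (nat_lit 4))))) (T.tp (T.sk (T.ls (nat_lit 3) (nat_lit 4))))) (T.tp (T.sk (T.ls (nat_lit 3) (nat_lit 4))))) (T.tp (T.sk (T.ls (nat_lit 3) (nat_lit 4))))) (T.tp (T.sk (T.ls (nat_lit 3) (nat_lit 4))))) (T.tp (T.sk (T.ls (nat_lit 3) (nat_lit 4))))) (T.tp (T.ts (nat_lit 2) (T.im (nat_lit 7) (nat_lit 2)) T.ie))))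
def d632 : T := (T.ts (nat_lit 4) (T.tp (T.ts (nat_lit 3) (T.ts (nat_lit 2) (T.ts (nat_lit 4) (T.ts (nat_lit 1) (T.ts (nat_lit 0) (T.ts (nat_lit 1) (T.im (nat_lit 13) (nat_lit 2)) (T.sk (T.ls (nat_lit 3) (nat_lit 4)))) (T.sk (T.ls (nat_lit 3) (nat_lit 4)))) (T.sk (T.ls (nat_lit 3) (nat_lit 4)))) (T.sk (T.ls (nat_lit 3) (nat_lit 4)))) (T.sk (T.ls (nat_lit 3) (nat_lit 4)))) (T.sk (T.ls (nat_lit 3) (nat_lit 4))))) (T.ts (nat_lit 3) (T.ls (nat_lit 3) (nat_lit 4)) (T.ts (nat_lit 0) (T.ts (nat_lit 4) (T.ts (nat_lit 3) (T.ts (nat_lit 2) (T.ts (nat_lit 4) (T.ts (nat_lit 1) (T.ts (nat_lit 0) (T.ts (nat_lit 1) (T.ts (nat_lit 2) (T.l1 (nat_lit 12300) (nat_lit 3) (nat_lit 20500)) (T.tp (T.sk (T.ls (nat_lit 3) (nat_lit 4))))) (T.tp (T.sk (T.ls (nat_lit 3) (nat_lit 4))))) (T.tp (T.sk (T.ls (nat_lit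 3) (nat_lit 4))))) (T.tp (T.sk (T.ls (nat_lit 3) (nat_lit 4))))) (T.tp (T.sk (T.ls (nat_lit 3) (nat_lit 4))))) (T.tp (T.sk (T.ls (nat_lit 3) (nat_lit 4))))) (T.tp (T.sk (T.ls (nat_lit 3) (nat_lit 4))))) (T.tp (T.sk (T.ls (nat_lit 3) (nat_lit 4))))) (T.tp (T.ts (nat_lit 2) (T.im (nat_lit 7) (nat_lit 2)) (T.ts (nat_lit 1) (T.im (nat_lit 5) (nat_lit 3)) T.ie))))))
def d633 : T := (T.ts (nat_lit 4) (T.ls (nat_lit 3) (nat_lit 4)) (T.ts (nat_lit 3) (T.ts (nat_lit 4) (T.ls (nat_lit 3) (nat_lit 4)) (T.ts (nat_lit 2) (T.ts (nat_lit 4) (T.ts (nat_lit 1) (T.ts (nat_lit 0) (T.l1 (nat_lit 12300) (nat_lit 4) (nat_lit 20500)) (T.tp (T.sk (T.ls (nat_lit 3) (nat_lit 4))))) (T.tp (T.sk (T.ls (nat_lit 3) (nat_lit 4))))) (T.tp (T.sk (T.ls (nat_lit 3) (nat_lit 4))))) (T.tp (T.sk (T.ls (nat_lit 3) (nat_lit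 4)))))) (T.ts (nat_lit 2) (T.ls (nat_lit 3) (nat_lit 4)) (T.ts (nat_lit 0) (T.ts (nat_lit 4) (T.ts (nat_lit 3) (T.ts (nat_lit 2) (T.ts (nat_lit 4) (T.ts (nat_lit 1) (T.ts (nat_lit 0) (T.ts (nat_lit 1) (T.ts (nat_lit 1) (T.l1 (nat_lit 12300) (nat_lit 3) (nat_lit 20500)) (T.tp (T.sk (T.ls (nat_lit 3) (nat_lit 4))))) (T.tp (T.sk (T.ls (nat_lit 3) (nat_lit 4))))) (T.tp (T.sk (T.ls (nat_lit 3) (nat_lit 4))))) (T.tp (T.sk (T.ls (nat_lit 3) (nat_lit 4))))) (T.tp (T.sk (T.ls (nat_lit 3) (nat_lit 4))))) (T.tp (T.sk (T.ls (nat_lit 3) (nat_lit 4))))) (T.tp (T.sk (T.ls (nat_lit 3) (nat_lit 4))))) (T.tp (T.sk (T.ls (nat_lit 3) (nat_lit 4))))) (T.tp (T.ts (nat_lit 1) (T.im (nat_lit 7) (nat_lit 2)) T.ie))))))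
def d634 : T := (T.ts (nat_lit 4) (T.tp (T.ts (nat_lit 3) (T.ts (nat_lit 2) (T.ts (nat_lit 4) (T.ts (nat_lit 1) (T.ts (nat_lit 0) (T.ts (nat_lit 1) (T.im (nat_lit 13) (nat_lit 2)) (T.sk (T.ls (nat_lit 3) (nat_lit 4)))) (T.sk (T.ls (nat_lit 3) (nat_lit 4)))) (T.sk (T.ls (nat_lit 3) (nat_lit 4)))) (T.sk (T.ls (nat_lit 3) (nat_lit 4)))) (T.sk (T.ls (nat_lit 3) (nat_lit 4)))) (T.sk (T.ls (nat_lit 3) (nat_lit 4))))) (T.ts (nat_lit 3) (T.ls (nat_lit 3) (nat_lit 4)) (T.ts (nat_lit 2) (T.ls (nat_lit 3) (nat_lit 4)) (T.ts (nat_lit 0) (T.ts (nat_lit 4) (T.ts (nat_lit 3) (T.ts (nat_lit 2) (T.ts (nat_lit 4) (T.ts (nat_lit 1) (T.ts (nat_lit 0) (T.ts (nat_lit 1) (T.ts (nat_lit 1) (T.l1 (nat_lit 12300) (nat_lit 3) (nat_lit 20500)) (T.tp (T.sk (T.ls (nat_lit 3) (nat_lit 4))))) (T.tp (T.sk (T.ls (nat_lit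 3) (nat_lit 4))))) (T.tp (T.sk (T.ls (nat_lit 3) (nat_lit 4))))) (T.tp (T.sk (T.ls (nat_lit 3) (nat_lit 4))))) (T.tp (T.sk (T.ls (nat_lit 3) (nat_lit 4))))) (T.tp (T.sk (T.ls (nat_lit 3) (nat_lit 4))))) (T.tp (T.sk (T.ls (nat_lit 3) (nat_lit 4))))) (T.tp (T.sk (T.ls (nat_lit 3) (nat_lit 4))))) (T.tp (T.ts (nat_lit 1) (T.im (nat_lit 5) (nat_lit 3)) T.ie))))))
def d635 : T := (T.ts (nat_lit 3) (T.ts (nat_lit 4) (T.ls (nat_lit 3) (nat_lit 4)) (T.ts (nat_lit 3) (T.ls (nat_lit 3) (nat_lit 4)) (T.ts (nat_lit 2) (T.ls (nat_lit 3) (nat_lit 4)) (T.ts (nat_lit 0) (T.ts (nat_lit 4) (T.ts (nat_lit 3) (T.ts (nat_lit 2) (T.ts (nat_lit 4) (T.ts (nat_lit 1) (T.ts (nat_lit 0) (T.ts (nat_lit 1) (T.ts (nat_lit 1) (T.l1 (nat_lit 12300) (nat_lit 3) (nat_lit 20500)) (T.sk (T.lf (nat_lit 16569) (nat_lit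 3) (nat_lit 20500) (nat_lit 4) (nat_lit 12300)))) (T.sk (T.lf (nat_lit 16569) (nat_lit 3) (nat_lit 20500) (nat_lit 4) (nat_lit 12300)))) (T.tp (T.sk (T.ls (nat_lit 3) (nat_lit 4))))) (T.tp (T.sk (T.ls (nat_lit 3) (nat_lit 4))))) (T.tp (T.sk (T.ls (nat_lit 3) (nat_lit 4))))) (T.tp (T.sk (T.ls (nat_lit 3) (nat_lit 4))))) (T.tp (T.sk (T.ls (nat_lit 3) (nat_lit 4))))) (T.tp (T.sk (T.ls (nat_lit 3) (nat_lit 4))))) (T.tp (T.ts (nat_lit 1) (T.im (nat_lit 7) (nat_lit 2)) T.ie)))))) (T.ts (nat_lit 2) (T.ts (nat_lit 4) (T.ls (nat_lit 3) (nat_lit 4)) (T.ts (nat_lit 3) (T.ls (nat_lit 3) (nat_lit 4)) (T.ts (nat_lit 2) (T.ls (nat_lit 3) (nat_lit 4)) (T.ts (nat_lit 0) (T.ts (nat_lit 4) (T.ts (nat_lit 3) (T.ts (nat_lit 2) (T.ts (nat_lit 4) (T.ts (nat_lit 1) (T.ts (nat_lit 0) (T.ts (nat_lit 1) (T.ts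 (nat_lit 1) (T.l1 (nat_lit 12300) (nat_lit 3) (nat_lit 20500)) (T.tp (T.sk (T.ls (nat_lit 3) (nat_lit 4))))) (T.tp (T.sk (T.ls (nat_lit 3) (nat_lit 4))))) (T.tp (T.sk (T.ls (nat_lit 3) (nat_lit 4))))) (T.tp (T.sk (T.ls (nat_lit 3) (nat_lit 4))))) (T.tp (T.sk (T.ls (nat_lit 3) (nat_lit 4))))) (T.tp (T.sk (T.ls (nat_lit 3) (nat_lit 4))))) (T.tp (T.sk (T.ls (nat_lit 3) (nat_lit 4))))) (T.tp (T.sk (T.ls (nat_lit 3) (nat_lit 4))))) (T.tp (T.ts (nat_lit 1) (T.im (nat_lit 7) (nat_lit 2)) T.ie)))))) (T.ts (nat_lit 0) d634 (T.tp (T.ts (nat_lit 1) (T.im (nat_lit 7) (nat_lit 1)) T.ie)))))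
def d636 : T := (T.ts (nat_lit 3) (T.ts (nat_lit 4) (T.ts (nat_lit 4) (T.ls (nat_lit 3) (nat_lit 4)) (T.ts (nat_lit 2) (T.ls (nat_lit 3) (nat_lit 4)) d625)) (T.ts (nat_lit 2) (T.ts (nat_lit 4) (T.ls (nat_lit 3) (nat_lit 4)) (T.ts (nat_lit 2) (T.ls (nat_lit 3) (nat_lit 4)) d626)) (T.ts (nat_lit 1) (T.ts (nat_lit 4) (T.tp (T.ts (nat_lit 3) (T.ts (nat_lit 2) (T.ts (nat_lit 4) (T.ts (nat_lit 1) (T.ts (nat_lit 0) (T.ts (nat_lit 1) (T.im (nat_lit 13) (nat_lit 2)) (T.sk (T.ls (nat_lit 3) (nat_lit 4)))) (T.sk (T.ls (nat_lit 3) (nat_lit 4)))) (T.sk (T.ls (nat_lit 3) (nat_lit 4)))) (T.sk (T.ls (nat_lit 3) (nat_lit 4)))) (T.sk (T.ls (nat_lit 3) (nat_lit 4)))) (T.sk (T.ls (nat_lit 3) (nat_lit 4))))) (T.ts (nat_lit 2) (T.ls (nat_lit 3) (nat_lit 4)) d627)) (T.ts (nat_lit 0) d628 (T.tp (T.ts (nat_lit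 3) (T.im (nat_lit 7) (nat_lit 1)) T.ie)))))) (T.ts (nat_lit 2) (T.ts (nat_lit 4) (T.ts (nat_lit 4) (T.ls (nat_lit 3) (nat_lit 4)) (T.ts (nat_lit 3) (T.ls (nat_lit 3) (nat_lit 4)) d629)) (T.ts (nat_lit 3) (T.ts (nat_lit 4) (T.ls (nat_lit 3) (nat_lit 4)) (T.ts (nat_lit 3) (T.ls (nat_lit 3) (nat_lit 4)) d630)) (T.ts (nat_lit 1) (T.ts (nat_lit 4) (T.tp (T.ts (nat_lit 3) (T.ts (nat_lit 2) (T.ts (nat_lit 4) (T.ts (nat_lit 1) (T.ts (nat_lit 0) (T.ts (nat_lit 1) (T.im (nat_lit 13) (nat_lit 2)) (T.sk (T.ls (nat_lit 3) (nat_lit 4)))) (T.sk (T.ls (nat_lit 3) (nat_lit 4)))) (T.sk (T.ls (nat_lit 3) (nat_lit 4)))) (T.sk (T.ls (nat_lit 3) (nat_lit 4)))) (T.sk (T.ls (nat_lit 3) (nat_lit 4)))) (T.sk (T.ls (nat_lit 3) (nat_lit 4))))) (T.ts (nat_lit 3) (T.ls (nat_lit 3) (nat_lit 4)) d631)) (T.ts (nat_lit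 0) d632 (T.tp (T.ts (nat_lit 2) (T.im (nat_lit 7) (nat_lit 1)) T.ie)))))) (T.ts (nat_lit 1) (T.ts (nat_lit 4) d633 d635) (T.tp (T.ts (nat_lit 0) (T.im (nat_lit 5) (nat_lit 2)) T.ie)))))
def d637 : T := (T.ts (nat_lit 1) (T.ts (nat_lit 4) (T.ts (nat_lit 3) (T.ts (nat_lit 3) (T.ls (nat_lit 3) (nat_lit 4)) (T.ts (nat_lit 2) (T.ts (nat_lit 4) (T.ts (nat_lit 1) (T.l1 (nat_lit 12300) (nat_lit 4) (nat_lit 20500)) (T.tp (T.sk (T.ls (nat_lit 3) (nat_lit 4))))) (T.tp (T.sk (T.ls (nat_lit 3) (nat_lit 4))))) (T.tp (T.ts (nat_lit 1) (T.ts (nat_lit 4) (T.ts (nat_lit 3) (T.im (nat_lit 7) (nat_lit 3)) (T.sk (T.ls (nat_lit 3) (nat_lit 4)))) (T.sk (T.ls (nat_lit 3) (nat_lit 4)))) (T.ts (nat_lit 0) (T.ts (nat_lit 4) (T.ts (nat_lit 3) (T.im (nat_lit 7) (nat_lit 3)) (T.sk (T.ls (nat_lit 3) (nat_lit 4))))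 (T.sk (T.ls (nat_lit 3) (nat_lit 4)))) (T.ts (nat_lit 4) (T.im (nat_lit 7) (nat_lit 2)) T.ie)))))) (T.ts (nat_lit 2) (T.ts (nat_lit 3) (T.ls (nat_lit 3) (nat_lit 4)) (T.ts (nat_lit 2) (T.ls (nat_lit 3) (nat_lit 4)) d623)) d624)) d636) (T.tp (T.ts (nat_lit 0) (T.im (nat_lit 5) (nat_lit 1)) T.ie)))
def d638 : T := (T.ts (nat_lit 0) (T.ts (nat_lit 2) (T.ts (nat_lit 2) (T.im (nat_lit 3) (nat_lit 4)) (T.ts (nat_lit 1) (T.im (nat_lit 5) (nat_lit 3)) (T.ts (nat_lit 0) (T.im (nat_lit 7) (nat_lit 2)) (T.nw (T.ls (nat_lit 2) (nat_lit 4)))))) (T.ts (nat_lit 1) (T.ts (nat_lit 2) (T.ls (nat_lit 2) (nat_lit 3)) (T.ts (nat_lit 1) (T.ls (nat_lit 2) (nat_lit 3)) (T.ts (nat_lit 0) (T.im (nat_lit 7) (nat_lit 2)) (T.nw (T.ls (nat_lit 2) (nat_lit 4)))))) (T.ts (nat_lit 0) (T.im (nat_lit 7) (nat_lit 1))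 (T.nw (T.ts (nat_lit 3) (T.ls (nat_lit 2) (nat_lit 4)) (T.ts (nat_lit 2) (T.ls (nat_lit 2) (nat_lit 3)) (T.ts (nat_lit 0) (T.ls (nat_lit 2) (nat_lit 4)) (T.ts (nat_lit 1) (T.im (nat_lit 7) (nat_lit 2)) (T.nw (T.ls (nat_lit 2) (nat_lit 3))))))))))) (T.ts (nat_lit 2) (T.im (nat_lit 5) (nat_lit 2)) (T.nw (T.ts (nat_lit 3) (T.ts (nat_lit 3) (T.ls (nat_lit 2) (nat_lit 3)) (T.ts (nat_lit 1) (T.ls (nat_lit 3) (nat_lit 4)) (T.ts (nat_lit 2) (T.im (nat_lit 5) (nat_lit 3)) (T.ts (nat_lit 0) (T.im (nat_lit 7) (nat_lit 2)) (T.nw (T.ls (nat_lit 2) (nat_lit 3))))))) (T.ts (nat_lit 2) (T.ts (nat_lit 3) (T.ls (nat_lit 2) (nat_lit 3)) (T.ts (nat_lit 2) (T.ls (nat_lit 2) (nat_lit 3)) (T.ts (nat_lit 1) (T.ls (nat_lit 3) (nat_lit 4)) (T.ts (nat_lit 0) (T.im (nat_lit 7) (nat_lit 2)) (T.nw (T.ls (nat_lit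 2) (nat_lit 3))))))) (T.ts (nat_lit 1) (T.ts (nat_lit 3) (T.ls (nat_lit 3) (nat_lit 4)) (T.ts (nat_lit 2) (T.ls (nat_lit 2) (nat_lit 3)) (T.ts (nat_lit 1) (T.ls (nat_lit 3) (nat_lit 4)) (T.ts (nat_lit 0) (T.im (nat_lit 7) (nat_lit 2)) (T.nw (T.ls (nat_lit 2) (nat_lit 3))))))) (T.ts (nat_lit 0) (T.im (nat_lit 7) (nat_lit 1)) (T.nw (T.ts (nat_lit 4) (T.ls (nat_lit 2) (nat_lit 3)) (T.ts (nat_lit 3) (T.ls (nat_lit 2) (nat_lit 3)) (T.ts (nat_lit 2) (T.ls (nat_lit 3) (nat_lit 4)) (T.ts (nat_lit 0) (T.ls (nat_lit 2) (nat_lit 3)) (T.ts (nat_lit 1) (T.im (nat_lit 7) (nat_lit 2)) T.ie)))))))))))))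
def d639 : T := (T.ts (nat_lit 0) (T.ts (nat_lit 2) (T.ts (nat_lit 1) (T.ls (nat_lit 3) (nat_lit 4)) (T.ts (nat_lit 2) (T.im (nat_lit 3) (nat_lit 4)) (T.ts (nat_lit 0) (T.im (nat_lit 5) (nat_lit 3)) (T.nw (T.ls (nat_lit 2) (nat_lit 4)))))) (T.ts (nat_lit 1) (T.ts (nat_lit 2) (T.ls (nat_lit 2) (nat_lit 3)) (T.ts (nat_lit 1) (T.ls (nat_lit 2) (nat_lit 3)) (T.ts (nat_lit 0) (T.im (nat_lit 7) (nat_lit 2)) (T.nw (T.ls (nat_lit 2) (nat_lit 4)))))) (T.ts (nat_lit 0) (T.im (nat_lit 7) (nat_lit 1)) (T.nw (T.ts (nat_lit 3) (T.ls (nat_lit 2) (nat_lit 4)) (T.ts (nat_lit 2) (T.ls (nat_lit 2) (nat_lit 3)) (T.ts (nat_lit 0) (T.ls (nat_lit 2) (nat_lit 4)) (T.ts (nat_lit 1) (T.im (nat_lit 7) (nat_lit 2)) (T.nw (T.ls (nat_lit 2) (nat_lit 3))))))))))) (T.ts (nat_lit 2) (T.im (nat_lit 3) (nat_lit 3))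 (T.nw (T.ts (nat_lit 3) (T.ts (nat_lit 3) (T.ls (nat_lit 2) (nat_lit 3)) (T.ts (nat_lit 2) (T.ls (nat_lit 2) (nat_lit 4)) (T.ts (nat_lit 1) (T.im (nat_lit 5) (nat_lit 3)) (T.ts (nat_lit 0) (T.im (nat_lit 7) (nat_lit 2)) (T.nw (T.ls (nat_lit 2) (nat_lit 3))))))) (T.ts (nat_lit 2) (T.ts (nat_lit 3) (T.ls (nat_lit 2) (nat_lit 3)) (T.ts (nat_lit 2) (T.ls (nat_lit 2) (nat_lit 3)) (T.ts (nat_lit 1) (T.ls (nat_lit 3) (nat_lit 4)) (T.ts (nat_lit 0) (T.im (nat_lit 7) (nat_lit 2)) (T.nw (T.ls (nat_lit 2) (nat_lit 3))))))) (T.ts (nat_lit 1) (T.ts (nat_lit 3) (T.ls (nat_lit 3) (nat_lit 4)) (T.ts (nat_lit 2) (T.ls (nat_lit 2) (nat_lit 3)) (T.ts (nat_lit 1) (T.ls (nat_lit 3) (nat_lit 4)) (T.ts (nat_lit 0) (T.im (nat_lit 7) (nat_lit 2)) (T.nw (T.ls (nat_lit 2) (nat_lit 3))))))) (T.ts (nat_lit 0)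 (T.im (nat_lit 7) (nat_lit 1)) (T.nw (T.ts (nat_lit 4) (T.ls (nat_lit 2) (nat_lit 3)) (T.ts (nat_lit 3) (T.ls (nat_lit 2) (nat_lit 3)) (T.ts (nat_lit 2) (T.ls (nat_lit 3) (nat_lit 4)) (T.ts (nat_lit 0) (T.ls (nat_lit 2) (nat_lit 3)) (T.ts (nat_lit 1) (T.im (nat_lit 7) (nat_lit 2)) T.ie)))))))))))))
def d640 : T := (T.ts (nat_lit 0) (T.ts (nat_lit 3) (T.ts (nat_lit 3) (T.ls (nat_lit 2) (nat_lit 3)) (T.ts (nat_lit 2) (T.ls (nat_lit 2) (nat_lit 4)) (T.ts (nat_lit 1) (T.ls (nat_lit 3) (nat_lit 4)) (T.ts (nat_lit 0) (T.im (nat_lit 5) (nat_lit 3)) (T.nw (T.ls (nat_lit 2) (nat_lit 3))))))) (T.ts (nat_lit 2) (T.ts (nat_lit 3) (T.ls (nat_lit 2) (nat_lit 3)) (T.ts (nat_lit 2) (T.ls (nat_lit 2) (nat_lit 3)) (T.ts (nat_lit 1) (T.ls (nat_lit 3) (nat_lit 4)) (T.ts (nat_lit 0) (T.im (nat_lit 7)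 (nat_lit 2)) (T.nw (T.ls (nat_lit 2) (nat_lit 3))))))) (T.ts (nat_lit 1) (T.ts (nat_lit 3) (T.ls (nat_lit 3) (nat_lit 4)) (T.ts (nat_lit 2) (T.ls (nat_lit 2) (nat_lit 3)) (T.ts (nat_lit 1) (T.ls (nat_lit 3) (nat_lit 4)) (T.ts (nat_lit 0) (T.im (nat_lit 7) (nat_lit 2)) (T.nw (T.ls (nat_lit 2) (nat_lit 3))))))) (T.ts (nat_lit 0) (T.im (nat_lit 7) (nat_lit 1)) (T.nw (T.ts (nat_lit 4) (T.ls (nat_lit 2) (nat_lit 3)) (T.ts (nat_lit 3) (T.ls (nat_lit 2) (nat_lit 3)) (T.ts (nat_lit 2) (T.ls (nat_lit 3) (nat_lit 4)) (T.ts (nat_lit 0) (T.ls (nat_lit 2) (nat_lit 3)) (T.ts (nat_lit 1) (T.im (nat_lit 7) (nat_lit 2)) T.ie)))))))))) (T.ts (nat_lit 3) (T.im (nat_lit 5) (nat_lit 2)) (T.nw (T.ts (nat_lit 4) (T.ts (nat_lit 4) (T.ls (nat_lit 2) (nat_lit 3)) (T.ts (nat_lit 3) (T.ls (nat_lit 2) (nat_lit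 3)) (T.ts (nat_lit 2) (T.ls (nat_lit 3) (nat_lit 4)) (T.ts (nat_lit 1) (T.im (nat_lit 5) (nat_lit 3)) (T.ts (nat_lit 0) (T.im (nat_lit 7) (nat_lit 2)) T.ie))))) (T.ts (nat_lit 3) (T.ts (nat_lit 4) (T.ls (nat_lit 2) (nat_lit 3)) (T.ts (nat_lit 3) (T.ls (nat_lit 2) (nat_lit 3)) (T.ts (nat_lit 2) (T.ls (nat_lit 3) (nat_lit 4)) (T.ts (nat_lit 1) (T.ls (nat_lit 2) (nat_lit 4)) (T.ts (nat_lit 0) (T.im (nat_lit 7) (nat_lit 2)) T.ie))))) (T.ts (nat_lit 2) (T.ts (nat_lit 4) (T.ls (nat_lit 3) (nat_lit 4)) (T.ts (nat_lit 3) (T.ls (nat_lit 2) (nat_lit 3)) (T.ts (nat_lit 2) (T.ls (nat_lit 3) (nat_lit 4)) (T.ts (nat_lit 1) (T.ls (nat_lit 2) (nat_lit 4)) (T.ts (nat_lit 0) (T.im (nat_lit 7) (nat_lit 2)) T.ie))))) (T.ts (nat_lit 1) (T.ts (nat_lit 4) (T.ls (nat_lit 2) (nat_lit 4)) (T.ts (nat_lit 3)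 (T.ls (nat_lit 2) (nat_lit 3)) (T.ts (nat_lit 2) (T.ls (nat_lit 3) (nat_lit 4)) (T.ts (nat_lit 1) (T.ls (nat_lit 2) (nat_lit 4)) (T.ts (nat_lit 0) (T.im (nat_lit 7) (nat_lit 2)) T.ie))))) (T.ts (nat_lit 0) (T.im (nat_lit 7) (nat_lit 1)) T.ie))))))))
def d641 : T := (T.ts (nat_lit 2) (T.ts (nat_lit 3) (T.ts (nat_lit 3) (T.ls (nat_lit 2) (nat_lit 3)) (T.ts (nat_lit 1) (T.ls (nat_lit 3) (nat_lit 4)) (T.ts (nat_lit 2) (T.im (nat_lit 7) (nat_lit 2)) (T.ts (nat_lit 0) (T.im (nat_lit 5) (nat_lit 3)) (T.nw (T.ls (nat_lit 2) (nat_lit 3))))))) (T.ts (nat_lit 1) (T.ts (nat_lit 3) (T.ls (nat_lit 3) (nat_lit 4)) (T.ts (nat_lit 1) (T.ls (nat_lit 3) (nat_lit 4)) (T.ts (nat_lit 0) (T.ls (nat_lit 2) (nat_lit 4)) (T.ts (nat_lit 2) (T.im (nat_lit 7) (nat_lit 2)) (T.nw (T.ls (nat_lit 2) (nat_lit 3)))))))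 (T.ts (nat_lit 0) (T.ts (nat_lit 3) (T.ls (nat_lit 2) (nat_lit 4)) (T.ts (nat_lit 1) (T.ls (nat_lit 3) (nat_lit 4)) (T.ts (nat_lit 0) (T.ls (nat_lit 2) (nat_lit 4)) (T.ts (nat_lit 2) (T.im (nat_lit 7) (nat_lit 2)) (T.nw (T.ls (nat_lit 2) (nat_lit 3))))))) (T.ts (nat_lit 2) (T.im (nat_lit 7) (nat_lit 1)) (T.nw (T.ts (nat_lit 4) (T.ls (nat_lit 2) (nat_lit 3)) (T.ts (nat_lit 2) (T.ls (nat_lit 3) (nat_lit 4)) (T.ts (nat_lit 1) (T.ls (nat_lit 2) (nat_lit 4)) (T.ts (nat_lit 0) (T.ls (nat_lit 2) (nat_lit 3)) (T.ts (nat_lit 3) (T.im (nat_lit 7) (nat_lit 2)) T.ie)))))))))) (T.ts (nat_lit 1) (T.ts (nat_lit 3) (T.ts (nat_lit 2) (T.ls (nat_lit 3) (nat_lit 4)) (T.ts (nat_lit 3) (T.im (nat_lit 3) (nat_lit 4)) (T.ts (nat_lit 1) (T.im (nat_lit 7) (nat_lit 2)) (T.ts (nat_lit 0) (T.im (nat_lit 5) (nat_lit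 3)) (T.nw (T.ls (nat_lit 2) (nat_lit 3))))))) (T.ts (nat_lit 2) (T.ts (nat_lit 3) (T.ls (nat_lit 2) (nat_lit 3)) (T.ts (nat_lit 2) (T.ls (nat_lit 2) (nat_lit 3)) (T.ts (nat_lit 0) (T.ls (nat_lit 2) (nat_lit 4)) (T.ts (nat_lit 1) (T.im (nat_lit 7) (nat_lit 2)) (T.nw (T.ls (nat_lit 2) (nat_lit 3))))))) (T.ts (nat_lit 0) (T.ts (nat_lit 3) (T.ls (nat_lit 2) (nat_lit 4)) (T.ts (nat_lit 2) (T.ls (nat_lit 2) (nat_lit 3)) (T.ts (nat_lit 0) (T.ls (nat_lit 2) (nat_lit 4)) (T.ts (nat_lit 1) (T.im (nat_lit 7) (nat_lit 2)) (T.nw (T.ls (nat_lit 2) (nat_lit 3))))))) (T.ts (nat_lit 1) (T.im (nat_lit 7) (nat_lit 1)) (T.nw (T.ts (nat_lit 4) (T.ls (nat_lit 2) (nat_lit 3)) (T.ts (nat_lit 3) (T.ls (nat_lit 2) (nat_lit 3)) (T.ts (nat_lit 1) (T.ls (nat_lit 2) (nat_lit 4)) (T.ts (nat_lit 0) (T.ls (nat_lit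 2) (nat_lit 3)) (T.ts (nat_lit 2) (T.im (nat_lit 7) (nat_lit 2)) T.ie)))))))))) d640))
def d642 : T := (T.ts (nat_lit 1) (T.ts (nat_lit 1) (T.ts (nat_lit 2) (T.ts (nat_lit 2) (T.ls (nat_lit 2) (nat_lit 3)) (T.ts (nat_lit 0) (T.ls (nat_lit 3) (nat_lit 4)) (T.ts (nat_lit 1) (T.im (nat_lit 5) (nat_lit 3)) (T.nw (T.ls (nat_lit 2) (nat_lit 4)))))) (T.ts (nat_lit 0) (T.ts (nat_lit 2) (T.ls (nat_lit 3) (nat_lit 4)) (T.ts (nat_lit 0) (T.ls (nat_lit 3) (nat_lit 4)) (T.ts (nat_lit 1) (T.im (nat_lit 7) (nat_lit 2)) (T.nw (T.ls (nat_lit 2) (nat_lit 4)))))) (T.ts (nat_lit 1) (T.im (nat_lit 7) (nat_lit 1)) (T.nw (T.ts (nat_lit 3) (T.ls (nat_lit 2) (nat_lit 4)) (T.ts (nat_lit 1) (T.ls (nat_lit 3) (nat_lit 4)) (T.ts (nat_lit 0) (T.ls (nat_lit 2) (nat_lit 4)) (T.ts (nat_lit 2) (T.im (nat_lit 7) (nat_lit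 2)) (T.nw (T.ls (nat_lit 2) (nat_lit 3))))))))))) d638) (T.ts (nat_lit 0) (T.ts (nat_lit 1) (T.ts (nat_lit 2) (T.ts (nat_lit 2) (T.ls (nat_lit 2) (nat_lit 3)) (T.ts (nat_lit 1) (T.im (nat_lit 7) (nat_lit 2)) (T.ts (nat_lit 0) (T.im (nat_lit 5) (nat_lit 3)) (T.nw (T.ls (nat_lit 2) (nat_lit 4)))))) (T.ts (nat_lit 0) (T.ts (nat_lit 2) (T.ls (nat_lit 3) (nat_lit 4)) (T.ts (nat_lit 0) (T.ls (nat_lit 3) (nat_lit 4)) (T.ts (nat_lit 1) (T.im (nat_lit 7) (nat_lit 2)) (T.nw (T.ls (nat_lit 2) (nat_lit 4)))))) (T.ts (nat_lit 1) (T.im (nat_lit 7) (nat_lit 1)) (T.nw (T.ts (nat_lit 3) (T.ls (nat_lit 2) (nat_lit 4)) (T.ts (nat_lit 1) (T.ls (nat_lit 3) (nat_lit 4)) (T.ts (nat_lit 0) (T.ls (nat_lit 2) (nat_lit 4)) (T.ts (nat_lit 2) (T.im (nat_lit 7) (nat_lit 2)) (T.nw (T.ls (nat_lit 2) (nat_lit 3)))))))))))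 d639) (T.ts (nat_lit 2) (T.im (nat_lit 5) (nat_lit 1)) (T.nw d641))))
def d643 : T := (T.tp d642)
def d644 : T := (T.ts (nat_lit 0) (T.ts (nat_lit 3) (T.ts (nat_lit 2) (T.ts (nat_lit 1) (T.ts (nat_lit 1) (T.ts (nat_lit 3) (T.ts (nat_lit 2) (T.ts (nat_lit 3) (T.ts (nat_lit 3) (T.l1 (nat_lit 12300) (nat_lit 4) (nat_lit 20500)) (T.tp (T.sk (T.ls (nat_lit 3) (nat_lit 4))))) (T.tp (T.sk (T.ls (nat_lit 3) (nat_lit 4))))) (T.tp (T.sk (T.ls (nat_lit 3) (nat_lit 4))))) (T.tp (T.sk (T.ls (nat_lit 3) (nat_lit 4))))) (T.tp (T.sk (T.ls (nat_lit 3) (nat_lit 4))))) (T.tp (T.sk (T.ls (nat_lit 3) (nat_lit 4))))) (T.tp (T.sk (T.ls (nat_lit 3) (nat_lit 4))))) (T.tp (T.sk (T.ls (nat_lit 3) (nat_lit 4))))) (T.ts (nat_lit 3) (T.im (nat_lit 7) (nat_lit 2)) (T.nw (T.ts (nat_lit 4) (T.ts (nat_lit 3) (T.ts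 (nat_lit 2) (T.ts (nat_lit 2) (T.ts (nat_lit 4) (T.ts (nat_lit 3) (T.ts (nat_lit 4) (T.ts (nat_lit 4) (T.l1 (nat_lit 12300) (nat_lit 3) (nat_lit 20500)) (T.tp (T.sk (T.ls (nat_lit 3) (nat_lit 4))))) (T.tp (T.sk (T.ls (nat_lit 3) (nat_lit 4))))) (T.tp (T.sk (T.ls (nat_lit 3) (nat_lit 4))))) (T.tp (T.sk (T.ls (nat_lit 3) (nat_lit 4))))) (T.tp (T.sk (T.ls (nat_lit 3) (nat_lit 4))))) (T.tp (T.sk (T.ls (nat_lit 3) (nat_lit 4))))) (T.tp (T.sk (T.ls (nat_lit 3) (nat_lit 4))))) (T.tp (T.sk (T.ls (nat_lit 3) (nat_lit 4))))))))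
def d645 : T := (T.ts (nat_lit 1) (T.tp (T.ts (nat_lit 1) (T.ls (nat_lit 3) (nat_lit 4)) (T.ts (nat_lit 0) (T.ls (nat_lit 3) (nat_lit 4)) (T.ts (nat_lit 2) (T.im (nat_lit 5) (nat_lit 3)) (T.nw (T.ts (nat_lit 3) (T.ts (nat_lit 2) (T.im (nat_lit 7) (nat_lit 3)) (T.sk (T.ls (nat_lit 3) (nat_lit 4)))) (T.sk (T.ls (nat_lit 3) (nat_lit 4))))))))) (T.ts (nat_lit 0) (T.ts (nat_lit 1) (T.ls (nat_lit 3) (nat_lit 4)) (T.ts (nat_lit 0) (T.ls (nat_lit 3) (nat_lit 4)) (T.ts (nat_lit 2) (T.im (nat_lit 7) (nat_lit 2)) (T.nw (T.ts (nat_lit 3) (T.ts (nat_lit 2) (T.ts (nat_lit 1) (T.ts (nat_lit 1) (T.ts (nat_lit 3) (T.ts (nat_lit 2) (T.ts (nat_lit 3) (T.ts (nat_lit 3) (T.l1 (nat_lit 12300) (nat_lit 4) (nat_lit 20500)) (T.tp (T.sk (T.ls (nat_lit 3) (nat_lit 4))))) (T.tp (T.sk (T.ls (nat_lit 3) (nat_lit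 4))))) (T.tp (T.sk (T.ls (nat_lit 3) (nat_lit 4))))) (T.tp (T.sk (T.ls (nat_lit 3) (nat_lit 4))))) (T.tp (T.sk (T.ls (nat_lit 3) (nat_lit 4))))) (T.tp (T.sk (T.ls (nat_lit 3) (nat_lit 4))))) (T.tp (T.sk (T.ls (nat_lit 3) (nat_lit 4))))) (T.tp (T.sk (T.ls (nat_lit 3) (nat_lit 4))))))))) (T.ts (nat_lit 2) (T.im (nat_lit 7) (nat_lit 1)) (T.nw (T.ts (nat_lit 2) (T.ls (nat_lit 3) (nat_lit 4)) (T.ts (nat_lit 1) (T.ls (nat_lit 3) (nat_lit 4)) d644))))))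
def d646 : T := (T.ts (nat_lit 0) (T.ts (nat_lit 3) (T.ts (nat_lit 2) (T.ts (nat_lit 1) (T.ts (nat_lit 1) (T.ts (nat_lit 3) (T.ts (nat_lit 2) (T.ts (nat_lit 3) (T.ts (nat_lit 1) (T.l1 (nat_lit 12300) (nat_lit 4) (nat_lit 20500)) (T.tp (T.sk (T.ls (nat_lit 3) (nat_lit 4))))) (T.tp (T.sk (T.ls (nat_lit 3) (nat_lit 4))))) (T.tp (T.sk (T.ls (nat_lit 3) (nat_lit 4))))) (T.tp (T.sk (T.ls (nat_lit 3) (nat_lit 4))))) (T.tp (T.sk (T.ls (nat_lit 3) (nat_lit 4))))) (T.tp (T.sk (T.ls (nat_lit 3) (nat_lit 4))))) (T.tp (T.sk (T.ls (nat_lit 3) (nat_lit 4))))) (T.tp (T.sk (T.ls (nat_lit 3) (nat_lit 4))))) (T.ts (nat_lit 1) (T.im (nat_lit 7) (nat_lit 2)) (T.nw (T.ts (nat_lit 4) (T.ts (nat_lit 3) (T.ts (nat_lit 2) (T.ts (nat_lit 2) (T.ts (nat_lit 4) (T.ts (nat_lit 3) (T.ts (nat_lit 4) (T.ts (nat_lit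 2) (T.l1 (nat_lit 12300) (nat_lit 3) (nat_lit 20500)) (T.tp (T.sk (T.ls (nat_lit 3) (nat_lit 4))))) (T.tp (T.sk (T.ls (nat_lit 3) (nat_lit 4))))) (T.tp (T.sk (T.ls (nat_lit 3) (nat_lit 4))))) (T.tp (T.sk (T.ls (nat_lit 3) (nat_lit 4))))) (T.tp (T.sk (T.ls (nat_lit 3) (nat_lit 4))))) (T.tp (T.sk (T.ls (nat_lit 3) (nat_lit 4))))) (T.tp (T.sk (T.ls (nat_lit 3) (nat_lit 4))))) (T.tp (T.sk (T.ls (nat_lit 3) (nat_lit 4))))))))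
def d647 : T := (T.ts (nat_lit 2) (T.ts (nat_lit 2) (T.ls (nat_lit 3) (nat_lit 4)) (T.ts (nat_lit 1) (T.im (nat_lit 3) (nat_lit 4)) (T.ts (nat_lit 0) (T.im (nat_lit 7) (nat_lit 2)) (T.nw (T.ts (nat_lit 3) (T.ts (nat_lit 2) (T.ts (nat_lit 1) (T.ts (nat_lit 1) (T.ts (nat_lit 3) (T.ts (nat_lit 2) (T.ts (nat_lit 3) (T.ts (nat_lit 1) (T.l1 (nat_lit 12300) (nat_lit 4) (nat_lit 20500)) (T.tp (T.sk (T.ls (nat_lit 3) (nat_lit 4))))) (T.tp (T.sk (T.ls (nat_lit 3) (nat_lit 4))))) (T.tp (T.sk (T.ls (nat_lit 3) (nat_lit 4))))) (T.tp (T.sk (T.ls (nat_lit 3) (nat_lit 4))))) (T.tp (T.sk (T.ls (nat_lit 3) (nat_lit 4))))) (T.tp (T.sk (T.ls (nat_lit 3) (nat_lit 4))))) (T.tp (T.sk (T.ls (nat_lit 3) (nat_lit 4))))) (T.tp (T.sk (T.ls (nat_lit 3) (nat_lit 4))))))))) (T.ts (nat_lit 1) (T.ts (nat_lit 1) (T.ls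 (nat_lit 3) (nat_lit 4)) (T.ts (nat_lit 2) (T.im (nat_lit 5) (nat_lit 3)) (T.ts (nat_lit 0) (T.im (nat_lit 7) (nat_lit 2)) (T.nw (T.ts (nat_lit 3) (T.ts (nat_lit 2) (T.ts (nat_lit 1) (T.ts (nat_lit 1) (T.ts (nat_lit 3) (T.ts (nat_lit 2) (T.ts (nat_lit 3) (T.ts (nat_lit 1) (T.l1 (nat_lit 12300) (nat_lit 4) (nat_lit 20500)) (T.sk (T.lf (nat_lit 16569) (nat_lit 3) (nat_lit 12300) (nat_lit 4) (nat_lit 20500)))) (T.sk (T.lf (nat_lit 16569) (nat_lit 3) (nat_lit 12300) (nat_lit 4) (nat_lit 20500)))) (T.tp (T.sk (T.ls (nat_lit 3) (nat_lit 4))))) (T.tp (T.sk (T.ls (nat_lit 3) (nat_lit 4))))) (T.tp (T.sk (T.ls (nat_lit 3) (nat_lit 4))))) (T.tp (T.sk (T.ls (nat_lit 3) (nat_lit 4))))) (T.tp (T.sk (T.ls (nat_lit 3) (nat_lit 4))))) (T.tp (T.sk (T.ls (nat_lit 3) (nat_lit 4))))))))) (T.ts (nat_lit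 0) (T.im (nat_lit 7) (nat_lit 1)) (T.nw (T.ts (nat_lit 3) (T.tp (T.ts (nat_lit 2) (T.ts (nat_lit 1) (T.ts (nat_lit 1) (T.im (nat_lit 11) (nat_lit 1)) (T.sk (T.ls (nat_lit 3) (nat_lit 4)))) (T.sk (T.ls (nat_lit 3) (nat_lit 4)))) (T.sk (T.ls (nat_lit 3) (nat_lit 4))))) (T.ts (nat_lit 2) (T.ls (nat_lit 3) (nat_lit 4)) d646))))))
def d648 : T := (T.ts (nat_lit 1) (T.ts (nat_lit 3) (T.ls (nat_lit 3) (nat_lit 4)) (T.ts (nat_lit 2) (T.ls (nat_lit 3) (nat_lit 4)) (T.ts (nat_lit 1) (T.ls (nat_lit 3) (nat_lit 4)) (T.ts (nat_lit 0) (T.im (nat_lit 7) (nat_lit 2)) (T.nw (T.ts (nat_lit 4) (T.ts (nat_lit 3) (T.ts (nat_lit 2) (T.ts (nat_lit 2) (T.ts (nat_lit 4) (T.ts (nat_lit 3) (T.ts (nat_lit 4) (T.ts (nat_lit 1) (T.l1 (nat_lit 12300) (nat_lit 3) (nat_lit 20500)) (T.tp (T.sk (T.ls (nat_lit 3) (nat_lit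 4))))) (T.tp (T.sk (T.ls (nat_lit 3) (nat_lit 4))))) (T.tp (T.sk (T.ls (nat_lit 3) (nat_lit 4))))) (T.tp (T.sk (T.ls (nat_lit 3) (nat_lit 4))))) (T.tp (T.sk (T.ls (nat_lit 3) (nat_lit 4))))) (T.tp (T.sk (T.ls (nat_lit 3) (nat_lit 4))))) (T.tp (T.sk (T.ls (nat_lit 3) (nat_lit 4))))) (T.tp (T.sk (T.ls (nat_lit 3) (nat_lit 4)))))))))) (T.ts (nat_lit 0) (T.im (nat_lit 7) (nat_lit 1)) (T.nw (T.ts (nat_lit 4) (T.tp (T.ts (nat_lit 3) (T.ts (nat_lit 2) (T.ts (nat_lit 2) (T.im (nat_lit 11) (nat_lit 1)) (T.sk (T.ls (nat_lit 3) (nat_lit 4)))) (T.sk (T.ls (nat_lit 3) (nat_lit 4)))) (T.sk (T.ls (nat_lit 3) (nat_lit 4))))) (T.ts (nat_lit 3) (T.ls (nat_lit 3) (nat_lit 4)) (T.ts (nat_lit 2) (T.ls (nat_lit 3) (nat_lit 4)) (T.ts (nat_lit 0) (T.ts (nat_lit 4) (T.ts (nat_lit 3) (T.ts (nat_lit 2) (T.ts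 (nat_lit 2) (T.ts (nat_lit 4) (T.ts (nat_lit 3) (T.ts (nat_lit 4) (T.ts (nat_lit 1) (T.l1 (nat_lit 12300) (nat_lit 3) (nat_lit 20500)) (T.tp (T.sk (T.ls (nat_lit 3) (nat_lit 4))))) (T.tp (T.sk (T.ls (nat_lit 3) (nat_lit 4))))) (T.tp (T.sk (T.ls (nat_lit 3) (nat_lit 4))))) (T.tp (T.sk (T.ls (nat_lit 3) (nat_lit 4))))) (T.tp (T.sk (T.ls (nat_lit 3) (nat_lit 4))))) (T.tp (T.sk (T.ls (nat_lit 3) (nat_lit 4))))) (T.tp (T.sk (T.ls (nat_lit 3) (nat_lit 4))))) (T.tp (T.sk (T.ls (nat_lit 3) (nat_lit 4))))) (T.tp (T.ts (nat_lit 1) (T.im (nat_lit 7) (nat_lit 2)) T.ie)))))))))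
def d649 : T := (T.ts (nat_lit 3) (T.ts (nat_lit 3) (T.ls (nat_lit 3) (nat_lit 4)) (T.ts (nat_lit 2) (T.ts (nat_lit 3) (T.ls (nat_lit 3) (nat_lit 4)) (T.ts (nat_lit 1) (T.ts (nat_lit 1) (T.ts (nat_lit 3) (T.ts (nat_lit 2) (T.l1 (nat_lit 12300) (nat_lit 4) (nat_lit 20500)) (T.tp (T.sk (T.ls (nat_lit 3) (nat_lit 4))))) (T.tp (T.sk (T.ls (nat_lit 3) (nat_lit 4))))) (T.tp (T.sk (T.ls (nat_lit 3) (nat_lit 4))))) (T.tp (T.sk (T.ls (nat_lit 3) (nat_lit 4)))))) (T.ts (nat_lit 1) (T.ls (nat_lit 3) (nat_lit 4)) (T.ts (nat_lit 0) (T.im (nat_lit 7) (nat_lit 2)) (T.nw (T.ts (nat_lit 4) (T.ts (nat_lit 3) (T.ts (nat_lit 2) (T.ts (nat_lit 2) (T.ts (nat_lit 4) (T.ts (nat_lit 3) (T.ts (nat_lit 4) (T.ts (nat_lit 1) (T.l1 (nat_lit 12300) (nat_lit 3) (nat_lit 20500)) (T.tp (T.sk (T.ls (nat_lit 3) (nat_lit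 4))))) (T.tp (T.sk (T.ls (nat_lit 3) (nat_lit 4))))) (T.tp (T.sk (T.ls (nat_lit 3) (nat_lit 4))))) (T.tp (T.sk (T.ls (nat_lit 3) (nat_lit 4))))) (T.tp (T.sk (T.ls (nat_lit 3) (nat_lit 4))))) (T.tp (T.sk (T.ls (nat_lit 3) (nat_lit 4))))) (T.tp (T.sk (T.ls (nat_lit 3) (nat_lit 4))))) (T.tp (T.sk (T.ls (nat_lit 3) (nat_lit 4)))))))))) (T.ts (nat_lit 2) (T.ts (nat_lit 2) (T.ls (nat_lit 3) (nat_lit 4)) (T.ts (nat_lit 1) (T.ls (nat_lit 3) (nat_lit 4)) (T.ts (nat_lit 3) (T.im (nat_lit 5) (nat_lit 3)) (T.ts (nat_lit 0) (T.im (nat_lit 7) (nat_lit 2)) (T.nw (T.ts (nat_lit 4) (T.ts (nat_lit 3) (T.ts (nat_lit 2) (T.ts (nat_lit 2) (T.ts (nat_lit 4) (T.ts (nat_lit 3) (T.ts (nat_lit 4) (T.ts (nat_lit 1) (T.l1 (nat_lit 12300) (nat_lit 3) (nat_lit 20500)) (T.sk (T.lf (nat_lit 16569) (nat_lit 3) (nat_lit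 20500) (nat_lit 4) (nat_lit 12300)))) (T.sk (T.lf (nat_lit 16569) (nat_lit 3) (nat_lit 20500) (nat_lit 4) (nat_lit 12300)))) (T.tp (T.sk (T.ls (nat_lit 3) (nat_lit 4))))) (T.tp (T.sk (T.ls (nat_lit 3) (nat_lit 4))))) (T.tp (T.sk (T.ls (nat_lit 3) (nat_lit 4))))) (T.tp (T.sk (T.ls (nat_lit 3) (nat_lit 4))))) (T.tp (T.sk (T.ls (nat_lit 3) (nat_lit 4))))) (T.tp (T.sk (T.ls (nat_lit 3) (nat_lit 4)))))))))) d648))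
def d650 : T := (T.ts (nat_lit 2) d645 (T.ts (nat_lit 0) d647 (T.ts (nat_lit 1) (T.im (nat_lit 5) (nat_lit 2)) (T.nw d649))))
def d651 : T := (T.ts (nat_lit 1) (T.ts (nat_lit 3) (T.ls (nat_lit 3) (nat_lit 4)) (T.ts (nat_lit 2) (T.ls (nat_lit 3) (nat_lit 4)) (T.ts (nat_lit 1) (T.ls (nat_lit 3) (nat_lit 4)) (T.ts (nat_lit 0) (T.im (nat_lit 7) (nat_lit 2)) (T.nw (T.ts (nat_lit 4) (T.ts (nat_lit 3) (T.ts (nat_lit 2) (T.ts (nat_lit 2) (T.ts (nat_lit 4) (T.ts (nat_lit 3) (T.ts (nat_lit 2) (T.ts (nat_lit 1) (T.l1 (nat_lit 12300) (nat_lit 3) (nat_lit 20500)) (T.tp (T.sk (T.ls (nat_lit 3) (nat_lit 4))))) (T.tp (T.sk (T.ls (nat_lit 3) (nat_lit 4))))) (T.tp (T.sk (T.ls (nat_lit 3) (nat_lit 4))))) (T.tp (T.sk (T.ls (nat_lit 3) (nat_lit 4))))) (T.tp (T.sk (T.ls (nat_lit 3) (nat_lit 4))))) (T.tp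 (T.sk (T.ls (nat_lit 3) (nat_lit 4))))) (T.tp (T.sk (T.ls (nat_lit 3) (nat_lit 4))))) (T.tp (T.sk (T.ls (nat_lit 3) (nat_lit 4)))))))))) (T.ts (nat_lit 0) (T.im (nat_lit 7) (nat_lit 1)) (T.nw (T.ts (nat_lit 4) (T.tp (T.ts (nat_lit 3) (T.ts (nat_lit 2) (T.ts (nat_lit 2) (T.im (nat_lit 11) (nat_lit 1)) (T.sk (T.ls (nat_lit 3) (nat_lit 4)))) (T.sk (T.ls (nat_lit 3) (nat_lit 4)))) (T.sk (T.ls (nat_lit 3) (nat_lit 4))))) (T.ts (nat_lit 3) (T.ls (nat_lit 3) (nat_lit 4)) (T.ts (nat_lit 2) (T.ls (nat_lit 3) (nat_lit 4)) (T.ts (nat_lit 0) (T.ts (nat_lit 4) (T.ts (nat_lit 3) (T.ts (nat_lit 2) (T.ts (nat_lit 2) (T.ts (nat_lit 4) (T.ts (nat_lit 3) (T.ts (nat_lit 2) (T.ts (nat_lit 1) (T.l1 (nat_lit 12300) (nat_lit 3) (nat_lit 20500)) (T.tp (T.sk (T.ls (nat_lit 3) (nat_lit 4))))) (T.tp (T.sk (T.ls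 (nat_lit 3) (nat_lit 4))))) (T.tp (T.sk (T.ls (nat_lit 3) (nat_lit 4))))) (T.tp (T.sk (T.ls (nat_lit 3) (nat_lit 4))))) (T.tp (T.sk (T.ls (nat_lit 3) (nat_lit 4))))) (T.tp (T.sk (T.ls (nat_lit 3) (nat_lit 4))))) (T.tp (T.sk (T.ls (nat_lit 3) (nat_lit 4))))) (T.tp (T.sk (T.ls (nat_lit 3) (nat_lit 4))))) (T.tp (T.ts (nat_lit 1) (T.im (nat_lit 7) (nat_lit 2)) T.ie)))))))))
def d652 : T := (T.ts (nat_lit 3) (T.ts (nat_lit 3) (T.ls (nat_lit 3) (nat_lit 4)) (T.ts (nat_lit 2) (T.ts (nat_lit 3) (T.ls (nat_lit 3) (nat_lit 4)) (T.ts (nat_lit 1) (T.ts (nat_lit 1) (T.ts (nat_lit 3) (T.ts (nat_lit 2) (T.l1 (nat_lit 12300) (nat_lit 4) (nat_lit 20500)) (T.tp (T.sk (T.ls (nat_lit 3) (nat_lit 4))))) (T.tp (T.sk (T.ls (nat_lit 3) (nat_lit 4))))) (T.tp (T.sk (T.ls (nat_lit 3) (nat_lit 4))))) (T.tp (T.sk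 (T.ls (nat_lit 3) (nat_lit 4)))))) (T.ts (nat_lit 1) (T.ls (nat_lit 3) (nat_lit 4)) (T.ts (nat_lit 0) (T.im (nat_lit 7) (nat_lit 2)) (T.nw (T.ts (nat_lit 4) (T.ts (nat_lit 3) (T.ts (nat_lit 2) (T.ts (nat_lit 2) (T.ts (nat_lit 4) (T.ts (nat_lit 3) (T.ts (nat_lit 2) (T.ts (nat_lit 1) (T.l1 (nat_lit 12300) (nat_lit 3) (nat_lit 20500)) (T.tp (T.sk (T.ls (nat_lit 3) (nat_lit 4))))) (T.tp (T.sk (T.ls (nat_lit 3) (nat_lit 4))))) (T.tp (T.sk (T.ls (nat_lit 3) (nat_lit 4))))) (T.tp (T.sk (T.ls (nat_lit 3) (nat_lit 4))))) (T.tp (T.sk (T.ls (nat_lit 3) (nat_lit 4))))) (T.tp (T.sk (T.ls (nat_lit 3) (nat_lit 4))))) (T.tp (T.sk (T.ls (nat_lit 3) (nat_lit 4))))) (T.tp (T.sk (T.ls (nat_lit 3) (nat_lit 4)))))))))) (T.ts (nat_lit 2) (T.ts (nat_lit 3) (T.ls (nat_lit 3) (nat_lit 4)) (T.ts (nat_lit 2)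 (T.ls (nat_lit 3) (nat_lit 4)) (T.ts (nat_lit 1) (T.im (nat_lit 5) (nat_lit 3)) (T.ts (nat_lit 0) (T.im (nat_lit 7) (nat_lit 2)) (T.nw (T.ts (nat_lit 4) (T.ts (nat_lit 3) (T.ts (nat_lit 2) (T.ts (nat_lit 2) (T.ts (nat_lit 4) (T.ts (nat_lit 3) (T.ts (nat_lit 2) (T.ts (nat_lit 1) (T.l1 (nat_lit 12300) (nat_lit 3) (nat_lit 20500)) (T.sk (T.lf (nat_lit 16569) (nat_lit 3) (nat_lit 20500) (nat_lit 4) (nat_lit 12300)))) (T.sk (T.lf (nat_lit 16569) (nat_lit 3) (nat_lit 20500) (nat_lit 4) (nat_lit 12300)))) (T.tp (T.sk (T.ls (nat_lit 3) (nat_lit 4))))) (T.tp (T.sk (T.ls (nat_lit 3) (nat_lit 4))))) (T.tp (T.sk (T.ls (nat_lit 3) (nat_lit 4))))) (T.tp (T.sk (T.ls (nat_lit 3) (nat_lit 4))))) (T.tp (T.sk (T.ls (nat_lit 3) (nat_lit 4))))) (T.tp (T.sk (T.ls (nat_lit 3) (nat_lit 4)))))))))) d651))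
def d653 : T := (T.ts (nat_lit 0) (T.ts (nat_lit 3) (T.ts (nat_lit 2) (T.ts (nat_lit 1) (T.ts (nat_lit 1) (T.ts (nat_lit 3) (T.ts (nat_lit 2) (T.ts (nat_lit 0) (T.ts (nat_lit 3) (T.l1 (nat_lit 12300) (nat_lit 4) (nat_lit 20500)) (T.tp (T.sk (T.ls (nat_lit 3) (nat_lit 4))))) (T.tp (T.sk (T.ls (nat_lit 3) (nat_lit 4))))) (T.tp (T.sk (T.ls (nat_lit 3) (nat_lit 4))))) (T.tp (T.sk (T.ls (nat_lit 3) (nat_lit 4))))) (T.tp (T.sk (T.ls (nat_lit 3) (nat_lit 4))))) (T.tp (T.sk (T.ls (nat_lit 3) (nat_lit 4))))) (T.tp (T.sk (T.ls (nat_lit 3) (nat_lit 4))))) (T.tp (T.sk (T.ls (nat_lit 3) (nat_lit 4))))) (T.ts (nat_lit 3) (T.im (nat_lit 7) (nat_lit 2)) (T.nw (T.ts (nat_lit 4) (T.ts (nat_lit 3) (T.ts (nat_lit 2) (T.ts (nat_lit 2) (T.ts (nat_lit 4) (T.ts (nat_lit 3) (T.ts (nat_lit 1) (T.ts (nat_lit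 4) (T.l1 (nat_lit 12300) (nat_lit 3) (nat_lit 20500)) (T.tp (T.sk (T.ls (nat_lit 3) (nat_lit 4))))) (T.tp (T.sk (T.ls (nat_lit 3) (nat_lit 4))))) (T.tp (T.sk (T.ls (nat_lit 3) (nat_lit 4))))) (T.tp (T.sk (T.ls (nat_lit 3) (nat_lit 4))))) (T.tp (T.sk (T.ls (nat_lit 3) (nat_lit 4))))) (T.tp (T.sk (T.ls (nat_lit 3) (nat_lit 4))))) (T.tp (T.sk (T.ls (nat_lit 3) (nat_lit 4))))) (T.tp (T.sk (T.ls (nat_lit 3) (nat_lit 4))))))))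
def d654 : T := (T.ts (nat_lit 0) (T.ts (nat_lit 3) (T.ts (nat_lit 2) (T.ts (nat_lit 1) (T.ts (nat_lit 1) (T.ts (nat_lit 3) (T.ts (nat_lit 2) (T.ts (nat_lit 0) (T.ts (nat_lit 3) (T.l1 (nat_lit 12300) (nat_lit 4) (nat_lit 20500)) (T.tp (T.sk (T.ls (nat_lit 3) (nat_lit 4))))) (T.tp (T.sk (T.ls (nat_lit 3) (nat_lit 4))))) (T.tp (T.sk (T.ls (nat_lit 3) (nat_lit 4))))) (T.tp (T.sk (T.ls (nat_lit 3) (nat_lit 4))))) (T.tp (T.sk (T.ls (nat_lit 3) (nat_lit 4))))) (T.tp (T.sk (T.ls (nat_lit 3) (nat_lit 4))))) (T.tp (T.sk (T.ls (nat_lit 3) (nat_lit 4))))) (T.tp (T.sk (T.ls (nat_lit 3) (nat_lit 4))))) (T.ts (nat_lit 3) (T.im (nat_lit 7) (nat_lit 2)) (T.nw (T.ts (nat_lit 4) (T.ts (nat_lit 3) (T.ts (nat_lit 2) (T.ts (nat_lit 2) (T.ts (nat_lit 4) (T.ts (nat_lit 3) (T.ts (nat_lit 1) (T.ts (nat_lit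 4) (T.l1 (nat_lit 12300) (nat_lit 3) (nat_lit 20500)) (T.tp (T.sk (T.ls (nat_lit 3) (nat_lit 4))))) (T.tp (T.sk (T.ls (nat_lit 3) (nat_lit 4))))) (T.tp (T.sk (T.ls (nat_lit 3) (nat_lit 4))))) (T.tp (T.sk (T.ls (nat_lit 3) (nat_lit 4))))) (T.tp (T.sk (T.ls (nat_lit 3) (nat_lit 4))))) (T.tp (T.sk (T.ls (nat_lit 3) (nat_lit 4))))) (T.tp (T.sk (T.ls (nat_lit 3) (nat_lit 4))))) (T.tp (T.sk (T.ls (nat_lit 3) (nat_lit 4))))))))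
def d655 : T := (T.ts (nat_lit 1) (T.ts (nat_lit 4) (T.ts (nat_lit 3) (T.ts (nat_lit 2) (T.ts (nat_lit 2) (T.ts (nat_lit 4) (T.ts (nat_lit 3) (T.ts (nat_lit 1) (T.ts (nat_lit 4) (T.l1 (nat_lit 12300) (nat_lit 4) (nat_lit 20500)) (T.tp (T.sk (T.ls (nat_lit 3) (nat_lit 4))))) (T.tp (T.sk (T.ls (nat_lit 3) (nat_lit 4))))) (T.tp (T.sk (T.ls (nat_lit 3) (nat_lit 4))))) (T.tp (T.sk (T.ls (nat_lit 3) (nat_lit 4))))) (T.tp (T.sk (T.ls (nat_lit 3) (nat_lit 4))))) (T.tp (T.sk (T.ls (nat_lit 3) (nat_lit 4))))) (T.tp (T.sk (T.ls (nat_lit 3) (nat_lit 4))))) (T.tp (T.sk (T.ls (nat_lit 3) (nat_lit 4))))) (T.ts (nat_lit 0) (T.ts (nat_lit 4) (T.ts (nat_lit 3) (T.ts (nat_lit 2) (T.ts (nat_lit 2) (T.ts (nat_lit 4) (T.ts (nat_lit 3) (T.ts (nat_lit 1) (T.ts (nat_lit 4) (T.l1 (nat_lit 12300) (nat_lit 3)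 (nat_lit 20500)) (T.tp (T.sk (T.ls (nat_lit 3) (nat_lit 4))))) (T.tp (T.sk (T.ls (nat_lit 3) (nat_lit 4))))) (T.tp (T.sk (T.ls (nat_lit 3) (nat_lit 4))))) (T.tp (T.sk (T.ls (nat_lit 3) (nat_lit 4))))) (T.tp (T.sk (T.ls (nat_lit 3) (nat_lit 4))))) (T.tp (T.sk (T.ls (nat_lit 3) (nat_lit 4))))) (T.tp (T.sk (T.ls (nat_lit 3) (nat_lit 4))))) (T.tp (T.sk (T.ls (nat_lit 3) (nat_lit 4))))) (T.tp (T.ts (nat_lit 4) (T.im (nat_lit 7) (nat_lit 2)) T.ie))))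
def d656 : T := (T.ts (nat_lit 0) (T.ts (nat_lit 3) (T.ts (nat_lit 2) (T.ts (nat_lit 1) (T.ts (nat_lit 1) (T.ts (nat_lit 3) (T.ts (nat_lit 2) (T.ts (nat_lit 0) (T.ts (nat_lit 1) (T.l1 (nat_lit 12300) (nat_lit 4) (nat_lit 20500)) (T.tp (T.sk (T.ls (nat_lit 3) (nat_lit 4))))) (T.tp (T.sk (T.ls (nat_lit 3) (nat_lit 4))))) (T.tp (T.sk (T.ls (nat_lit 3) (nat_lit 4))))) (T.tp (T.sk (T.ls (nat_lit 3) (nat_lit 4))))) (T.tp (T.sk (T.ls (nat_lit 3) (nat_lit 4))))) (T.tp (T.sk (T.ls (nat_lit 3) (nat_lit 4))))) (T.tp (T.sk (T.ls (nat_lit 3) (nat_lit 4))))) (T.tp (T.sk (T.ls (nat_lit 3) (nat_lit 4))))) (T.ts (nat_lit 2) (T.im (nat_lit 3) (nat_lit 4)) (T.ts (nat_lit 1) (T.im (nat_lit 7) (nat_lit 2)) (T.nw (T.ts (nat_lit 4) (T.ts (nat_lit 3) (T.ts (nat_lit 2) (T.ts (nat_lit 2) (T.ts (nat_lit 4)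 (T.ts (nat_lit 3) (T.ts (nat_lit 1) (T.ts (nat_lit 2) (T.l1 (nat_lit 12300) (nat_lit 3) (nat_lit 20500)) (T.tp (T.sk (T.ls (nat_lit 3) (nat_lit 4))))) (T.tp (T.sk (T.ls (nat_lit 3) (nat_lit 4))))) (T.tp (T.sk (T.ls (nat_lit 3) (nat_lit 4))))) (T.tp (T.sk (T.ls (nat_lit 3) (nat_lit 4))))) (T.tp (T.sk (T.ls (nat_lit 3) (nat_lit 4))))) (T.tp (T.sk (T.ls (nat_lit 3) (nat_lit 4))))) (T.tp (T.sk (T.ls (nat_lit 3) (nat_lit 4))))) (T.tp (T.sk (T.ls (nat_lit 3) (nat_lit 4)))))))))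
def d657 : T := (T.ts (nat_lit 0) (T.ts (nat_lit 3) (T.ts (nat_lit 2) (T.ts (nat_lit 1) (T.ts (nat_lit 1) (T.ts (nat_lit 3) (T.ts (nat_lit 2) (T.ts (nat_lit 0) (T.ts (nat_lit 1) (T.l1 (nat_lit 12300) (nat_lit 4) (nat_lit 20500)) (T.tp (T.sk (T.ls (nat_lit 3) (nat_lit 4))))) (T.tp (T.sk (T.ls (nat_lit 3) (nat_lit 4))))) (T.tp (T.sk (T.ls (nat_lit 3) (nat_lit 4))))) (T.tp (T.sk (T.ls (nat_lit 3) (nat_lit 4))))) (T.tp (T.sk (T.ls (nat_lit 3) (nat_lit 4))))) (T.tp (T.sk (T.ls (nat_lit 3) (nat_lit 4))))) (T.tp (T.sk (T.ls (nat_lit 3) (nat_lit 4))))) (T.tp (T.sk (T.ls (nat_lit 3) (nat_lit 4))))) (T.ts (nat_lit 1) (T.im (nat_lit 7) (nat_lit 2)) (T.nw (T.ts (nat_lit 4) (T.ts (nat_lit 3) (T.ts (nat_lit 2) (T.ts (nat_lit 2) (T.ts (nat_lit 4) (T.ts (nat_lit 3) (T.ts (nat_lit 1) (T.ts (nat_lit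 2) (T.l1 (nat_lit 12300) (nat_lit 3) (nat_lit 20500)) (T.tp (T.sk (T.ls (nat_lit 3) (nat_lit 4))))) (T.tp (T.sk (T.ls (nat_lit 3) (nat_lit 4))))) (T.tp (T.sk (T.ls (nat_lit 3) (nat_lit 4))))) (T.tp (T.sk (T.ls (nat_lit 3) (nat_lit 4))))) (T.tp (T.sk (T.ls (nat_lit 3) (nat_lit 4))))) (T.tp (T.sk (T.ls (nat_lit 3) (nat_lit 4))))) (T.tp (T.sk (T.ls (nat_lit 3) (nat_lit 4))))) (T.tp (T.sk (T.ls (nat_lit 3) (nat_lit 4))))))))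
def d658 : T := (T.ts (nat_lit 1) (T.ts (nat_lit 4) (T.ts (nat_lit 3) (T.ts (nat_lit 2) (T.ts (nat_lit 2) (T.ts (nat_lit 4) (T.ts (nat_lit 3) (T.ts (nat_lit 1) (T.ts (nat_lit 2) (T.l1 (nat_lit 12300) (nat_lit 4) (nat_lit 20500)) (T.tp (T.sk (T.ls (nat_lit 3) (nat_lit 4))))) (T.tp (T.sk (T.ls (nat_lit 3) (nat_lit 4))))) (T.tp (T.sk (T.ls (nat_lit 3) (nat_lit 4))))) (T.tp (T.sk (T.ls (nat_lit 3) (nat_lit 4))))) (T.tp (T.sk (T.ls (nat_lit 3) (nat_lit 4))))) (T.tp (T.sk (T.ls (nat_lit 3) (nat_lit 4))))) (T.tp (T.sk (T.ls (nat_lit 3) (nat_lit 4))))) (T.tp (T.sk (T.ls (nat_lit 3) (nat_lit 4))))) (T.ts (nat_lit 0) (T.ts (nat_lit 4) (T.ts (nat_lit 3) (T.ts (nat_lit 2) (T.ts (nat_lit 2) (T.ts (nat_lit 4) (T.ts (nat_lit 3) (T.ts (nat_lit 1) (T.ts (nat_lit 2) (T.l1 (nat_lit 12300) (nat_lit 3)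 (nat_lit 20500)) (T.tp (T.sk (T.ls (nat_lit 3) (nat_lit 4))))) (T.tp (T.sk (T.ls (nat_lit 3) (nat_lit 4))))) (T.tp (T.sk (T.ls (nat_lit 3) (nat_lit 4))))) (T.tp (T.sk (T.ls (nat_lit 3) (nat_lit 4))))) (T.tp (T.sk (T.ls (nat_lit 3) (nat_lit 4))))) (T.tp (T.sk (T.ls (nat_lit 3) (nat_lit 4))))) (T.tp (T.sk (T.ls (nat_lit 3) (nat_lit 4))))) (T.tp (T.sk (T.ls (nat_lit 3) (nat_lit 4))))) (T.tp (T.ts (nat_lit 2) (T.im (nat_lit 7) (nat_lit 2)) T.ie))))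
def d659 : T := (T.ts (nat_lit 2) (T.ts (nat_lit 3) (T.ls (nat_lit 3) (nat_lit 4)) (T.ts (nat_lit 2) (T.ls (nat_lit 3) (nat_lit 4)) (T.ts (nat_lit 1) (T.im (nat_lit 7) (nat_lit 2)) (T.ts (nat_lit 0) (T.im (nat_lit 5) (nat_lit 3)) (T.nw (T.ts (nat_lit 4) (T.ts (nat_lit 3) (T.ts (nat_lit 2) (T.ts (nat_lit 2) (T.ts (nat_lit 4) (T.ts (nat_lit 3) (T.ts (nat_lit 1) (T.ts (nat_lit 2) (T.l1 (nat_lit 12300) (nat_lit 3) (nat_lit 20500)) (T.sk (T.lf (nat_lit 16569) (nat_lit 3) (nat_lit 20500) (nat_lit 4) (nat_lit 12300)))) (T.sk (T.lf (nat_lit 16569) (nat_lit 3) (nat_lit 20500) (nat_lit 4) (nat_lit 12300)))) (T.tp (T.sk (T.ls (nat_lit 3) (nat_lit 4))))) (T.tp (T.sk (T.ls (nat_lit 3) (nat_lit 4))))) (T.tp (T.sk (T.ls (nat_lit 3) (nat_lit 4))))) (T.tp (T.sk (T.ls (nat_lit 3) (nat_lit 4))))) (T.tp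 (T.sk (T.ls (nat_lit 3) (nat_lit 4))))) (T.tp (T.sk (T.ls (nat_lit 3) (nat_lit 4)))))))))) (T.ts (nat_lit 0) (T.ts (nat_lit 3) (T.tp (T.ts (nat_lit 2) (T.ts (nat_lit 1) (T.ts (nat_lit 1) (T.im (nat_lit 11) (nat_lit 1)) (T.sk (T.ls (nat_lit 3) (nat_lit 4)))) (T.sk (T.ls (nat_lit 3) (nat_lit 4)))) (T.sk (T.ls (nat_lit 3) (nat_lit 4))))) (T.ts (nat_lit 2) (T.ls (nat_lit 3) (nat_lit 4)) d657)) (T.ts (nat_lit 1) (T.im (nat_lit 7) (nat_lit 1)) (T.nw (T.ts (nat_lit 4) (T.tp (T.ts (nat_lit 3) (T.ts (nat_lit 2) (T.ts (nat_lit 2) (T.im (nat_lit 11) (nat_lit 1)) (T.sk (T.ls (nat_lit 3) (nat_lit 4)))) (T.sk (T.ls (nat_lit 3) (nat_lit 4)))) (T.sk (T.ls (nat_lit 3) (nat_lit 4))))) (T.ts (nat_lit 3) (T.ls (nat_lit 3) (nat_lit 4)) d658))))))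
def d660 : T := (T.ts (nat_lit 1) (T.ts (nat_lit 3) (T.ls (nat_lit 3) (nat_lit 4)) (T.ts (nat_lit 2) (T.ls (nat_lit 3) (nat_lit 4)) (T.ts (nat_lit 1) (T.ls (nat_lit 3) (nat_lit 4)) (T.ts (nat_lit 0) (T.im (nat_lit 7) (nat_lit 2)) (T.nw (T.ts (nat_lit 4) (T.ts (nat_lit 3) (T.ts (nat_lit 2) (T.ts (nat_lit 2) (T.ts (nat_lit 4) (T.ts (nat_lit 3) (T.ts (nat_lit 1) (T.ts (nat_lit 1) (T.l1 (nat_lit 12300) (nat_lit 3) (nat_lit 20500)) (T.tp (T.sk (T.ls (nat_lit 3) (nat_lit 4))))) (T.tp (T.sk (T.ls (nat_lit 3) (nat_lit 4))))) (T.tp (T.sk (T.ls (nat_lit 3) (nat_lit 4))))) (T.tp (T.sk (T.ls (nat_lit 3) (nat_lit 4))))) (T.tp (T.sk (T.ls (nat_lit 3) (nat_lit 4))))) (T.tp (T.sk (T.ls (nat_lit 3) (nat_lit 4))))) (T.tp (T.sk (T.ls (nat_lit 3) (nat_lit 4))))) (T.tp (T.sk (T.ls (nat_lit 3) (nat_lit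 4)))))))))) (T.ts (nat_lit 0) (T.im (nat_lit 7) (nat_lit 1)) (T.nw (T.ts (nat_lit 4) (T.tp (T.ts (nat_lit 3) (T.ts (nat_lit 2) (T.ts (nat_lit 2) (T.im (nat_lit 11) (nat_lit 1)) (T.sk (T.ls (nat_lit 3) (nat_lit 4)))) (T.sk (T.ls (nat_lit 3) (nat_lit 4)))) (T.sk (T.ls (nat_lit 3) (nat_lit 4))))) (T.ts (nat_lit 3) (T.ls (nat_lit 3) (nat_lit 4)) (T.ts (nat_lit 2) (T.ls (nat_lit 3) (nat_lit 4)) (T.ts (nat_lit 0) (T.ts (nat_lit 4) (T.ts (nat_lit 3) (T.ts (nat_lit 2) (T.ts (nat_lit 2) (T.ts (nat_lit 4) (T.ts (nat_lit 3) (T.ts (nat_lit 1) (T.ts (nat_lit 1) (T.l1 (nat_lit 12300) (nat_lit 3) (nat_lit 20500)) (T.tp (T.sk (T.ls (nat_lit 3) (nat_lit 4))))) (T.tp (T.sk (T.ls (nat_lit 3) (nat_lit 4))))) (T.tp (T.sk (T.ls (nat_lit 3) (nat_lit 4))))) (T.tp (T.sk (T.ls (nat_lit 3) (nat_lit 4))))) (T.tp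 (T.sk (T.ls (nat_lit 3) (nat_lit 4))))) (T.tp (T.sk (T.ls (nat_lit 3) (nat_lit 4))))) (T.tp (T.sk (T.ls (nat_lit 3) (nat_lit 4))))) (T.tp (T.sk (T.ls (nat_lit 3) (nat_lit 4))))) (T.tp (T.ts (nat_lit 1) (T.im (nat_lit 7) (nat_lit 2)) T.ie)))))))))
def d661 : T := (T.ts (nat_lit 3) (T.ts (nat_lit 3) (T.ls (nat_lit 3) (nat_lit 4)) (T.ts (nat_lit 2) (T.ts (nat_lit 3) (T.ls (nat_lit 3) (nat_lit 4)) (T.ts (nat_lit 1) (T.ts (nat_lit 1) (T.ts (nat_lit 3) (T.ts (nat_lit 2) (T.l1 (nat_lit 12300) (nat_lit 4) (nat_lit 20500)) (T.tp (T.sk (T.ls (nat_lit 3) (nat_lit 4))))) (T.tp (T.sk (T.ls (nat_lit 3) (nat_lit 4))))) (T.tp (T.sk (T.ls (nat_lit 3) (nat_lit 4))))) (T.tp (T.sk (T.ls (nat_lit 3) (nat_lit 4)))))) (T.ts (nat_lit 1) (T.ls (nat_lit 3) (nat_lit 4)) (T.ts (nat_lit 0) (T.im (nat_lit 7) (nat_lit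 2)) (T.nw (T.ts (nat_lit 4) (T.ts (nat_lit 3) (T.ts (nat_lit 2) (T.ts (nat_lit 2) (T.ts (nat_lit 4) (T.ts (nat_lit 3) (T.ts (nat_lit 1) (T.ts (nat_lit 1) (T.l1 (nat_lit 12300) (nat_lit 3) (nat_lit 20500)) (T.tp (T.sk (T.ls (nat_lit 3) (nat_lit 4))))) (T.tp (T.sk (T.ls (nat_lit 3) (nat_lit 4))))) (T.tp (T.sk (T.ls (nat_lit 3) (nat_lit 4))))) (T.tp (T.sk (T.ls (nat_lit 3) (nat_lit 4))))) (T.tp (T.sk (T.ls (nat_lit 3) (nat_lit 4))))) (T.tp (T.sk (T.ls (nat_lit 3) (nat_lit 4))))) (T.tp (T.sk (T.ls (nat_lit 3) (nat_lit 4))))) (T.tp (T.sk (T.ls (nat_lit 3) (nat_lit 4)))))))))) (T.ts (nat_lit 2) (T.ts (nat_lit 3) (T.ls (nat_lit 3) (nat_lit 4)) (T.ts (nat_lit 2) (T.ls (nat_lit 3) (nat_lit 4)) (T.ts (nat_lit 1) (T.ls (nat_lit 3) (nat_lit 4)) (T.ts (nat_lit 0) (T.im (nat_lit 5) (nat_lit 3))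 (T.nw (T.ts (nat_lit 4) (T.ts (nat_lit 3) (T.ts (nat_lit 2) (T.ts (nat_lit 2) (T.ts (nat_lit 4) (T.ts (nat_lit 3) (T.ts (nat_lit 1) (T.ts (nat_lit 1) (T.l1 (nat_lit 12300) (nat_lit 3) (nat_lit 20500)) (T.sk (T.lf (nat_lit 16569) (nat_lit 3) (nat_lit 20500) (nat_lit 4) (nat_lit 12300)))) (T.sk (T.lf (nat_lit 16569) (nat_lit 3) (nat_lit 20500) (nat_lit 4) (nat_lit 12300)))) (T.tp (T.sk (T.ls (nat_lit 3) (nat_lit 4))))) (T.tp (T.sk (T.ls (nat_lit 3) (nat_lit 4))))) (T.tp (T.sk (T.ls (nat_lit 3) (nat_lit 4))))) (T.tp (T.sk (T.ls (nat_lit 3) (nat_lit 4))))) (T.tp (T.sk (T.ls (nat_lit 3) (nat_lit 4))))) (T.tp (T.sk (T.ls (nat_lit 3) (nat_lit 4)))))))))) d660))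
def d662 : T := (T.ts (nat_lit 4) (T.ls (nat_lit 3) (nat_lit 4)) (T.ts (nat_lit 3) (T.ts (nat_lit 4) (T.ls (nat_lit 3) (nat_lit 4)) (T.ts (nat_lit 2) (T.ts (nat_lit 2) (T.ts (nat_lit 4) (T.ts (nat_lit 3) (T.l1 (nat_lit 12300) (nat_lit 3) (nat_lit 20500)) (T.tp (T.sk (T.ls (nat_lit 3) (nat_lit 4))))) (T.tp (T.sk (T.ls (nat_lit 3) (nat_lit 4))))) (T.tp (T.sk (T.ls (nat_lit 3) (nat_lit 4))))) (T.tp (T.sk (T.ls (nat_lit 3) (nat_lit 4)))))) (T.ts (nat_lit 2) (T.ls (nat_lit 3) (nat_lit 4)) (T.ts (nat_lit 1) (T.ts (nat_lit 4) (T.ts (nat_lit 3) (T.ts (nat_lit 2) (T.ts (nat_lit 2) (T.ts (nat_lit 4) (T.ts (nat_lit 3) (T.ts (nat_lit 1) (T.ts (nat_lit 0) (T.l1 (nat_lit 12300) (nat_lit 4) (nat_lit 20500)) (T.tp (T.sk (T.ls (nat_lit 3) (nat_lit 4))))) (T.tp (T.sk (T.ls (nat_lit 3) (nat_lit 4)))))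 (T.tp (T.sk (T.ls (nat_lit 3) (nat_lit 4))))) (T.tp (T.sk (T.ls (nat_lit 3) (nat_lit 4))))) (T.tp (T.sk (T.ls (nat_lit 3) (nat_lit 4))))) (T.tp (T.sk (T.ls (nat_lit 3) (nat_lit 4))))) (T.tp (T.sk (T.ls (nat_lit 3) (nat_lit 4))))) (T.tp (T.sk (T.ls (nat_lit 3) (nat_lit 4))))) (T.tp (T.ts (nat_lit 0) (T.im (nat_lit 7) (nat_lit 2)) T.ie))))))
def d663 : T := (T.ts (nat_lit 2) (T.ts (nat_lit 4) (T.ls (nat_lit 3) (nat_lit 4)) (T.ts (nat_lit 3) (T.ls (nat_lit 3) (nat_lit 4)) (T.ts (nat_lit 2) (T.ls (nat_lit 3) (nat_lit 4)) (T.ts (nat_lit 1) (T.ts (nat_lit 4) (T.ts (nat_lit 3) (T.ts (nat_lit 2) (T.ts (nat_lit 2) (T.ts (nat_lit 4) (T.ts (nat_lit 3) (T.ts (nat_lit 1) (T.ts (nat_lit 0) (T.l1 (nat_lit 12300) (nat_lit 4) (nat_lit 20500)) (T.tp (T.sk (T.ls (nat_lit 3) (nat_lit 4))))) (T.tp (T.sk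 (T.ls (nat_lit 3) (nat_lit 4))))) (T.tp (T.sk (T.ls (nat_lit 3) (nat_lit 4))))) (T.tp (T.sk (T.ls (nat_lit 3) (nat_lit 4))))) (T.tp (T.sk (T.ls (nat_lit 3) (nat_lit 4))))) (T.tp (T.sk (T.ls (nat_lit 3) (nat_lit 4))))) (T.tp (T.sk (T.ls (nat_lit 3) (nat_lit 4))))) (T.tp (T.sk (T.ls (nat_lit 3) (nat_lit 4))))) (T.tp (T.ts (nat_lit 0) (T.im (nat_lit 7) (nat_lit 2)) T.ie)))))) (T.ts (nat_lit 1) (T.ts (nat_lit 4) (T.tp (T.ts (nat_lit 3) (T.ts (nat_lit 2) (T.ts (nat_lit 2) (T.im (nat_lit 11) (nat_lit 1)) (T.sk (T.ls (nat_lit 3) (nat_lit 4)))) (T.sk (T.ls (nat_lit 3) (nat_lit 4)))) (T.sk (T.ls (nat_lit 3) (nat_lit 4))))) (T.ts (nat_lit 3) (T.ls (nat_lit 3) (nat_lit 4)) (T.ts (nat_lit 2) (T.ls (nat_lit 3) (nat_lit 4)) (T.ts (nat_lit 1) (T.ts (nat_lit 4) (T.ts (nat_lit 3) (T.ts (nat_lit 2)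 (T.ts (nat_lit 2) (T.ts (nat_lit 4) (T.ts (nat_lit 3) (T.ts (nat_lit 1) (T.ts (nat_lit 0) (T.l1 (nat_lit 12300) (nat_lit 4) (nat_lit 20500)) (T.tp (T.sk (T.ls (nat_lit 3) (nat_lit 4))))) (T.tp (T.sk (T.ls (nat_lit 3) (nat_lit 4))))) (T.tp (T.sk (T.ls (nat_lit 3) (nat_lit 4))))) (T.tp (T.sk (T.ls (nat_lit 3) (nat_lit 4))))) (T.tp (T.sk (T.ls (nat_lit 3) (nat_lit 4))))) (T.tp (T.sk (T.ls (nat_lit 3) (nat_lit 4))))) (T.tp (T.sk (T.ls (nat_lit 3) (nat_lit 4))))) (T.tp (T.sk (T.ls (nat_lit 3) (nat_lit 4))))) (T.tp (T.ts (nat_lit 0) (T.im (nat_lit 7) (nat_lit 2)) T.ie)))))) (T.tp (T.ts (nat_lit 0) (T.im (nat_lit 7) (nat_lit 1)) T.ie))))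
def d664 : T := (T.ts (nat_lit 3) (T.ts (nat_lit 2) (T.tp (T.ts (nat_lit 2) (T.ls (nat_lit 3) (nat_lit 4)) (T.ts (nat_lit 1) (T.ts (nat_lit 3) (T.ls (nat_lit 3) (nat_lit 4)) (T.ts (nat_lit 1) (T.im (nat_lit 9) (nat_lit 1)) (T.sk (T.ls (nat_lit 3) (nat_lit 4))))) (T.ts (nat_lit 3) (T.im (nat_lit 7) (nat_lit 2)) (T.ts (nat_lit 0) (T.im (nat_lit 5) (nat_lit 3)) (T.nw (T.ts (nat_lit 4) (T.ts (nat_lit 3) (T.im (nat_lit 7) (nat_lit 3)) (T.sk (T.ls (nat_lit 3) (nat_lit 4)))) (T.sk (T.ls (nat_lit 3) (nat_lit 4)))))))))) (T.ts (nat_lit 1) (T.ts (nat_lit 2) (T.ls (nat_lit 3) (nat_lit 4)) (T.ts (nat_lit 1) (T.ls (nat_lit 3) (nat_lit 4)) d653)) (T.ts (nat_lit 0) (T.ts (nat_lit 2) (T.ls (nat_lit 3) (nat_lit 4)) (T.ts (nat_lit 1) (T.ls (nat_lit 3) (nat_lit 4)) d654)) (T.ts (nat_lit 3) (T.im (nat_lit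 7) (nat_lit 1)) (T.nw (T.ts (nat_lit 3) (T.ls (nat_lit 3) (nat_lit 4)) (T.ts (nat_lit 2) (T.ls (nat_lit 3) (nat_lit 4)) d655))))))) (T.ts (nat_lit 1) (T.ts (nat_lit 3) (T.ts (nat_lit 3) (T.ls (nat_lit 3) (nat_lit 4)) d656) d659) (T.ts (nat_lit 0) d661 (T.ts (nat_lit 2) (T.im (nat_lit 5) (nat_lit 2)) (T.nw (T.ts (nat_lit 4) d662 (T.ts (nat_lit 3) (T.tp (T.ts (nat_lit 4) (T.ls (nat_lit 3) (nat_lit 4)) (T.ts (nat_lit 3) (T.ls (nat_lit 3) (nat_lit 4)) (T.ts (nat_lit 2) (T.ls (nat_lit 3) (nat_lit 4)) (T.ts (nat_lit 1) (T.im (nat_lit 5) (nat_lit 3)) (T.ts (nat_lit 0) (T.im (nat_lit 7) (nat_lit 2)) T.ie)))))) d663)))))))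
def d665 : T := (T.ts (nat_lit 0) (T.ts (nat_lit 2) (T.im (nat_lit 3) (nat_lit 3)) (T.ts (nat_lit 1) (T.im (nat_lit 5) (nat_lit 2)) (T.ts (nat_lit 0) (T.im (nat_lit 1) (nat_lit 4)) (T.nw d652)))) (T.ts (nat_lit 1) (T.im (nat_lit 5) (nat_lit 1)) (T.nw d664)))
def d666 : T := (T.ts (nat_lit 1) (T.ts (nat_lit 3) (T.ts (nat_lit 3) (T.ls (nat_lit 2) (nat_lit 3)) (T.ts (nat_lit 2) (T.ls (nat_lit 3) (nat_lit 4)) (T.ts (nat_lit 1) (T.im (nat_lit 7) (nat_lit 2)) (T.ts (nat_lit 0) (T.im (nat_lit 3) (nat_lit 4)) (T.nw (T.ls (nat_lit 2) (nat_lit 3))))))) (T.ts (nat_lit 2) (T.ts (nat_lit 3) (T.ls (nat_lit 2) (nat_lit 3)) (T.ts (nat_lit 2) (T.ls (nat_lit 2) (nat_lit 3)) (T.ts (nat_lit 0) (T.ls (nat_lit 2) (nat_lit 4)) (T.ts (nat_lit 1) (T.im (nat_lit 7) (nat_lit 2)) (T.nw (T.ls (nat_lit 2) (nat_lit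 3))))))) (T.ts (nat_lit 0) (T.ts (nat_lit 2) (T.ls (nat_lit 2) (nat_lit 3)) (T.ts (nat_lit 0) (T.ls (nat_lit 2) (nat_lit 4)) (T.ts (nat_lit 3) (T.im (nat_lit 5) (nat_lit 3)) (T.ts (nat_lit 1) (T.im (nat_lit 7) (nat_lit 2)) (T.nw (T.ls (nat_lit 2) (nat_lit 3))))))) (T.ts (nat_lit 1) (T.im (nat_lit 7) (nat_lit 1)) (T.nw (T.ts (nat_lit 4) (T.ls (nat_lit 2) (nat_lit 3)) (T.ts (nat_lit 3) (T.ls (nat_lit 2) (nat_lit 3)) (T.ts (nat_lit 1) (T.ls (nat_lit 2) (nat_lit 4)) (T.ts (nat_lit 0) (T.ls (nat_lit 2) (nat_lit 3)) (T.ts (nat_lit 2) (T.im (nat_lit 7) (nat_lit 2)) T.ie)))))))))) (T.ts (nat_lit 0) (T.im (nat_lit 5) (nat_lit 2)) (T.nw (T.ts (nat_lit 4) (T.ts (nat_lit 4) (T.ls (nat_lit 2) (nat_lit 3)) (T.ts (nat_lit 3) (T.ls (nat_lit 2) (nat_lit 3)) (T.ts (nat_lit 2) (T.ls (nat_lit 3) (nat_lit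 4)) (T.ts (nat_lit 1) (T.ls (nat_lit 2) (nat_lit 4)) (T.ts (nat_lit 0) (T.im (nat_lit 7) (nat_lit 2)) T.ie))))) (T.ts (nat_lit 3) (T.ts (nat_lit 4) (T.ls (nat_lit 2) (nat_lit 3)) (T.ts (nat_lit 3) (T.ls (nat_lit 2) (nat_lit 3)) (T.ts (nat_lit 2) (T.ls (nat_lit 3) (nat_lit 4)) (T.ts (nat_lit 1) (T.ls (nat_lit 2) (nat_lit 4)) (T.ts (nat_lit 0) (T.im (nat_lit 7) (nat_lit 2)) T.ie))))) (T.ts (nat_lit 2) (T.ts (nat_lit 4) (T.ls (nat_lit 3) (nat_lit 4)) (T.ts (nat_lit 3) (T.ls (nat_lit 2) (nat_lit 3)) (T.ts (nat_lit 2) (T.ls (nat_lit 3) (nat_lit 4)) (T.ts (nat_lit 1) (T.ls (nat_lit 2) (nat_lit 4)) (T.ts (nat_lit 0) (T.im (nat_lit 7) (nat_lit 2)) T.ie))))) (T.ts (nat_lit 1) (T.ts (nat_lit 3) (T.ls (nat_lit 2) (nat_lit 3)) (T.ts (nat_lit 2) (T.ls (nat_lit 3) (nat_lit 4)) (T.ts (nat_lit 1)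 (T.ls (nat_lit 2) (nat_lit 4)) (T.ts (nat_lit 4) (T.im (nat_lit 5) (nat_lit 3)) (T.ts (nat_lit 0) (T.im (nat_lit 7) (nat_lit 2)) T.ie))))) (T.ts (nat_lit 0) (T.im (nat_lit 7) (nat_lit 1)) T.ie))))))))
def d667 : T := (T.ts (nat_lit 2) (T.ts (nat_lit 3) (T.ts (nat_lit 3) (T.ls (nat_lit 2) (nat_lit 3)) (T.ts (nat_lit 1) (T.ls (nat_lit 3) (nat_lit 4)) (T.ts (nat_lit 0) (T.ls (nat_lit 2) (nat_lit 4)) (T.ts (nat_lit 2) (T.im (nat_lit 7) (nat_lit 2)) (T.nw (T.ls (nat_lit 2) (nat_lit 3))))))) (T.ts (nat_lit 1) (T.ts (nat_lit 3) (T.ls (nat_lit 3) (nat_lit 4)) (T.ts (nat_lit 1) (T.ts (nat_lit 3) (T.ts (nat_lit 2) (T.ts (nat_lit 1) (T.ts (nat_lit 1) (T.im (nat_lit 7) (nat_lit 4)) (T.sk (T.ls (nat_lit 2) (nat_lit 4)))) (T.sk (T.ls (nat_lit 2) (nat_lit 4)))) (T.sk (T.ls (nat_lit 2) (nat_lit 4))))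 (T.sk (T.ls (nat_lit 2) (nat_lit 4)))) (T.ts (nat_lit 0) (T.ls (nat_lit 2) (nat_lit 4)) (T.ts (nat_lit 2) (T.im (nat_lit 7) (nat_lit 2)) (T.nw (T.ls (nat_lit 2) (nat_lit 3))))))) (T.ts (nat_lit 0) (T.ts (nat_lit 1) (T.ls (nat_lit 3) (nat_lit 4)) (T.ts (nat_lit 0) (T.ls (nat_lit 2) (nat_lit 4)) (T.ts (nat_lit 3) (T.im (nat_lit 5) (nat_lit 3)) (T.ts (nat_lit 2) (T.im (nat_lit 7) (nat_lit 2)) (T.nw (T.ls (nat_lit 2) (nat_lit 3))))))) (T.ts (nat_lit 2) (T.im (nat_lit 7) (nat_lit 1)) (T.nw (T.ts (nat_lit 4) (T.ls (nat_lit 2) (nat_lit 3)) (T.ts (nat_lit 2) (T.ls (nat_lit 3) (nat_lit 4)) (T.ts (nat_lit 1) (T.ls (nat_lit 2) (nat_lit 4)) (T.ts (nat_lit 0) (T.ls (nat_lit 2) (nat_lit 3)) (T.ts (nat_lit 3) (T.im (nat_lit 7) (nat_lit 2)) T.ie)))))))))) d666)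
def d668 : T := (T.ts (nat_lit 1) (T.ts (nat_lit 3) (T.ts (nat_lit 3) (T.ls (nat_lit 2) (nat_lit 3)) (T.ts (nat_lit 2) (T.ls (nat_lit 3) (nat_lit 4)) (T.ts (nat_lit 1) (T.im (nat_lit 7) (nat_lit 2)) (T.ts (nat_lit 0) (T.im (nat_lit 3) (nat_lit 4)) (T.nw (T.ls (nat_lit 2) (nat_lit 3))))))) (T.ts (nat_lit 2) (T.ts (nat_lit 3) (T.ls (nat_lit 2) (nat_lit 3)) (T.ts (nat_lit 2) (T.ls (nat_lit 2) (nat_lit 3)) (T.ts (nat_lit 0) (T.ls (nat_lit 2) (nat_lit 4)) (T.ts (nat_lit 1) (T.im (nat_lit 7) (nat_lit 2)) (T.nw (T.ls (nat_lit 2) (nat_lit 3))))))) (T.ts (nat_lit 0) (T.ts (nat_lit 3) (T.ls (nat_lit 2) (nat_lit 4)) (T.ts (nat_lit 0) (T.ls (nat_lit 2) (nat_lit 4)) (T.ts (nat_lit 2) (T.im (nat_lit 5) (nat_lit 3)) (T.ts (nat_lit 1) (T.im (nat_lit 7) (nat_lit 2)) (T.nw (T.ls (nat_lit 2) (nat_lit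 3))))))) (T.ts (nat_lit 1) (T.im (nat_lit 7) (nat_lit 1)) (T.nw (T.ts (nat_lit 4) (T.ls (nat_lit 2) (nat_lit 3)) (T.ts (nat_lit 3) (T.ls (nat_lit 2) (nat_lit 3)) (T.ts (nat_lit 1) (T.ls (nat_lit 2) (nat_lit 4)) (T.ts (nat_lit 0) (T.ls (nat_lit 2) (nat_lit 3)) (T.ts (nat_lit 2) (T.im (nat_lit 7) (nat_lit 2)) T.ie)))))))))) (T.ts (nat_lit 0) (T.im (nat_lit 5) (nat_lit 2)) (T.nw (T.ts (nat_lit 4) (T.ts (nat_lit 4) (T.ls (nat_lit 2) (nat_lit 3)) (T.ts (nat_lit 3) (T.ls (nat_lit 2) (nat_lit 3)) (T.ts (nat_lit 2) (T.ls (nat_lit 3) (nat_lit 4)) (T.ts (nat_lit 1) (T.ls (nat_lit 2) (nat_lit 4)) (T.ts (nat_lit 0) (T.im (nat_lit 7) (nat_lit 2)) T.ie))))) (T.ts (nat_lit 3) (T.ts (nat_lit 4) (T.ls (nat_lit 2) (nat_lit 3)) (T.ts (nat_lit 3) (T.ls (nat_lit 2) (nat_lit 3)) (T.ts (nat_lit 2) (T.ls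 (nat_lit 3) (nat_lit 4)) (T.ts (nat_lit 1) (T.ls (nat_lit 2) (nat_lit 4)) (T.ts (nat_lit 0) (T.im (nat_lit 7) (nat_lit 2)) T.ie))))) (T.ts (nat_lit 2) (T.ts (nat_lit 4) (T.ls (nat_lit 3) (nat_lit 4)) (T.ts (nat_lit 3) (T.ls (nat_lit 2) (nat_lit 3)) (T.ts (nat_lit 2) (T.ls (nat_lit 3) (nat_lit 4)) (T.ts (nat_lit 1) (T.ls (nat_lit 2) (nat_lit 4)) (T.ts (nat_lit 0) (T.im (nat_lit 7) (nat_lit 2)) T.ie))))) (T.ts (nat_lit 1) (T.ts (nat_lit 4) (T.ls (nat_lit 2) (nat_lit 4)) (T.ts (nat_lit 2) (T.ls (nat_lit 3) (nat_lit 4)) (T.ts (nat_lit 1) (T.ls (nat_lit 2) (nat_lit 4)) (T.ts (nat_lit 3) (T.im (nat_lit 5) (nat_lit 3)) (T.ts (nat_lit 0) (T.im (nat_lit 7) (nat_lit 2)) T.ie))))) (T.ts (nat_lit 0) (T.im (nat_lit 7) (nat_lit 1)) T.ie))))))))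
def d669 : T := (T.ts (nat_lit 3) (T.ts (nat_lit 2) (T.ts (nat_lit 2) (T.ls (nat_lit 2) (nat_lit 3)) (T.ts (nat_lit 1) (T.ls (nat_lit 3) (nat_lit 4)) (T.ts (nat_lit 0) (T.ls (nat_lit 2) (nat_lit 4)) (T.ts (nat_lit 3) (T.im (nat_lit 7) (nat_lit 2)) (T.nw (T.ls (nat_lit 2) (nat_lit 3))))))) (T.ts (nat_lit 1) (T.ts (nat_lit 2) (T.ls (nat_lit 2) (nat_lit 3)) (T.ts (nat_lit 1) (T.ls (nat_lit 3) (nat_lit 4)) (T.ts (nat_lit 0) (T.ls (nat_lit 2) (nat_lit 4)) (T.ts (nat_lit 3) (T.im (nat_lit 7) (nat_lit 2)) (T.nw (T.ls (nat_lit 2) (nat_lit 3))))))) (T.ts (nat_lit 0) (T.ts (nat_lit 1) (T.ls (nat_lit 3) (nat_lit 4)) (T.ts (nat_lit 0) (T.ls (nat_lit 2) (nat_lit 4)) (T.ts (nat_lit 3) (T.im (nat_lit 7) (nat_lit 2)) (T.ts (nat_lit 2) (T.im (nat_lit 5) (nat_lit 3)) (T.nw (T.ls (nat_lit 2) (nat_lit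 3))))))) (T.ts (nat_lit 3) (T.im (nat_lit 7) (nat_lit 1)) (T.nw (T.ts (nat_lit 3) (T.ls (nat_lit 2) (nat_lit 3)) (T.ts (nat_lit 2) (T.ls (nat_lit 3) (nat_lit 4)) (T.ts (nat_lit 1) (T.ls (nat_lit 2) (nat_lit 4)) (T.ts (nat_lit 0) (T.ls (nat_lit 2) (nat_lit 3)) (T.ts (nat_lit 4) (T.im (nat_lit 7) (nat_lit 2)) T.ie)))))))))) (T.ts (nat_lit 2) (T.ts (nat_lit 3) (T.ts (nat_lit 3) (T.ls (nat_lit 2) (nat_lit 3)) (T.ts (nat_lit 1) (T.ls (nat_lit 3) (nat_lit 4)) (T.ts (nat_lit 0) (T.ls (nat_lit 2) (nat_lit 4)) (T.ts (nat_lit 2) (T.im (nat_lit 7) (nat_lit 2)) (T.nw (T.ls (nat_lit 2) (nat_lit 3))))))) (T.ts (nat_lit 1) (T.ts (nat_lit 3) (T.ls (nat_lit 3) (nat_lit 4)) (T.ts (nat_lit 1) (T.ls (nat_lit 3) (nat_lit 4)) (T.ts (nat_lit 0) (T.ls (nat_lit 2) (nat_lit 4)) (T.ts (nat_lit 2) (T.im (nat_lit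 7) (nat_lit 2)) (T.nw (T.ls (nat_lit 2) (nat_lit 3))))))) (T.ts (nat_lit 0) (T.ts (nat_lit 3) (T.ls (nat_lit 2) (nat_lit 4)) (T.ts (nat_lit 1) (T.ls (nat_lit 3) (nat_lit 4)) (T.ts (nat_lit 0) (T.ls (nat_lit 2) (nat_lit 4)) (T.ts (nat_lit 2) (T.im (nat_lit 5) (nat_lit 3)) (T.nw (T.ls (nat_lit 2) (nat_lit 3))))))) (T.ts (nat_lit 2) (T.im (nat_lit 7) (nat_lit 1)) (T.nw (T.ts (nat_lit 4) (T.ls (nat_lit 2) (nat_lit 3)) (T.ts (nat_lit 2) (T.ls (nat_lit 3) (nat_lit 4)) (T.ts (nat_lit 1) (T.ls (nat_lit 2) (nat_lit 4)) (T.ts (nat_lit 0) (T.ls (nat_lit 2) (nat_lit 3)) (T.ts (nat_lit 3) (T.im (nat_lit 7) (nat_lit 2)) T.ie)))))))))) d668))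
def d670 : T := (T.ts (nat_lit 1) (T.ts (nat_lit 3) (T.ts (nat_lit 3) (T.ls (nat_lit 2) (nat_lit 3)) (T.ts (nat_lit 2) (T.ls (nat_lit 3) (nat_lit 4)) (T.ts (nat_lit 1) (T.im (nat_lit 7) (nat_lit 2)) (T.ts (nat_lit 0) (T.im (nat_lit 3) (nat_lit 4)) (T.nw (T.ls (nat_lit 2) (nat_lit 3))))))) (T.ts (nat_lit 2) (T.ts (nat_lit 3) (T.ls (nat_lit 2) (nat_lit 3)) (T.ts (nat_lit 2) (T.ls (nat_lit 2) (nat_lit 3)) (T.ts (nat_lit 0) (T.ls (nat_lit 2) (nat_lit 4)) (T.ts (nat_lit 1) (T.im (nat_lit 7) (nat_lit 2)) (T.nw (T.ls (nat_lit 2) (nat_lit 3))))))) (T.ts (nat_lit 0) (T.ts (nat_lit 3) (T.ls (nat_lit 2) (nat_lit 4)) (T.ts (nat_lit 2) (T.ls (nat_lit 2) (nat_lit 3)) (T.ts (nat_lit 0) (T.ls (nat_lit 2) (nat_lit 4)) (T.ts (nat_lit 1) (T.im (nat_lit 5) (nat_lit 3)) (T.nw (T.ls (nat_lit 2) (nat_lit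 3))))))) (T.ts (nat_lit 1) (T.im (nat_lit 7) (nat_lit 1)) (T.nw (T.ts (nat_lit 4) (T.ls (nat_lit 2) (nat_lit 3)) (T.ts (nat_lit 3) (T.ls (nat_lit 2) (nat_lit 3)) (T.ts (nat_lit 1) (T.ls (nat_lit 2) (nat_lit 4)) (T.ts (nat_lit 0) (T.ls (nat_lit 2) (nat_lit 3)) (T.ts (nat_lit 2) (T.im (nat_lit 7) (nat_lit 2)) T.ie)))))))))) (T.ts (nat_lit 3) (T.im (nat_lit 3) (nat_lit 3)) (T.ts (nat_lit 0) (T.im (nat_lit 5) (nat_lit 2)) (T.nw (T.ts (nat_lit 4) (T.ts (nat_lit 4) (T.ls (nat_lit 2) (nat_lit 3)) (T.ts (nat_lit 3) (T.ls (nat_lit 2) (nat_lit 3)) (T.ts (nat_lit 2) (T.ls (nat_lit 3) (nat_lit 4)) (T.ts (nat_lit 1) (T.ls (nat_lit 2) (nat_lit 4)) (T.ts (nat_lit 0) (T.im (nat_lit 7) (nat_lit 2)) T.ie))))) (T.ts (nat_lit 3) (T.ts (nat_lit 4) (T.ls (nat_lit 2) (nat_lit 3)) (T.ts (nat_lit 3) (T.ls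 (nat_lit 2) (nat_lit 3)) (T.ts (nat_lit 2) (T.ls (nat_lit 3) (nat_lit 4)) (T.ts (nat_lit 1) (T.ls (nat_lit 2) (nat_lit 4)) (T.ts (nat_lit 0) (T.im (nat_lit 7) (nat_lit 2)) T.ie))))) (T.ts (nat_lit 2) (T.ts (nat_lit 4) (T.ls (nat_lit 3) (nat_lit 4)) (T.ts (nat_lit 3) (T.ls (nat_lit 2) (nat_lit 3)) (T.ts (nat_lit 2) (T.ls (nat_lit 3) (nat_lit 4)) (T.ts (nat_lit 1) (T.ls (nat_lit 2) (nat_lit 4)) (T.ts (nat_lit 0) (T.im (nat_lit 7) (nat_lit 2)) T.ie))))) (T.ts (nat_lit 1) (T.ts (nat_lit 4) (T.ls (nat_lit 2) (nat_lit 4)) (T.ts (nat_lit 3) (T.ls (nat_lit 2) (nat_lit 3)) (T.ts (nat_lit 1) (T.ls (nat_lit 2) (nat_lit 4)) (T.ts (nat_lit 2) (T.im (nat_lit 5) (nat_lit 3)) (T.ts (nat_lit 0) (T.im (nat_lit 7) (nat_lit 2)) T.ie))))) (T.ts (nat_lit 0) (T.im (nat_lit 7) (nat_lit 1)) T.ie)))))))))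
def d671 : T := (T.ts (nat_lit 2) (T.ts (nat_lit 4) (T.ts (nat_lit 4) (T.ls (nat_lit 2) (nat_lit 3)) (T.ts (nat_lit 3) (T.ls (nat_lit 3) (nat_lit 4)) (T.ts (nat_lit 0) (T.ls (nat_lit 2) (nat_lit 3)) (T.ts (nat_lit 2) (T.im (nat_lit 7) (nat_lit 2)) (T.ts (nat_lit 1) (T.im (nat_lit 3) (nat_lit 4)) T.ie))))) (T.ts (nat_lit 3) (T.ts (nat_lit 4) (T.ls (nat_lit 2) (nat_lit 3)) (T.ts (nat_lit 3) (T.ls (nat_lit 2) (nat_lit 3)) (T.ts (nat_lit 1) (T.ls (nat_lit 2) (nat_lit 4)) (T.ts (nat_lit 0) (T.ls (nat_lit 2) (nat_lit 3)) (T.ts (nat_lit 2) (T.im (nat_lit 7) (nat_lit 2)) T.ie))))) (T.ts (nat_lit 1) (T.ts (nat_lit 4) (T.ls (nat_lit 2) (nat_lit 4)) (T.ts (nat_lit 3) (T.ls (nat_lit 2) (nat_lit 3)) (T.ts (nat_lit 1) (T.ls (nat_lit 2) (nat_lit 4)) (T.ts (nat_lit 2) (T.im (nat_lit 7) (nat_lit 2))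 (T.ts (nat_lit 0) (T.im (nat_lit 5) (nat_lit 3)) T.ie))))) (T.ts (nat_lit 0) (T.ts (nat_lit 4) (T.ls (nat_lit 2) (nat_lit 3)) (T.ts (nat_lit 3) (T.ls (nat_lit 2) (nat_lit 3)) (T.ts (nat_lit 1) (T.ls (nat_lit 2) (nat_lit 4)) (T.ts (nat_lit 0) (T.ls (nat_lit 2) (nat_lit 3)) (T.ts (nat_lit 2) (T.im (nat_lit 7) (nat_lit 2)) T.ie))))) (T.ts (nat_lit 2) (T.im (nat_lit 7) (nat_lit 1)) T.ie))))) (T.ts (nat_lit 0) (T.ts (nat_lit 4) (T.ts (nat_lit 4) (T.ls (nat_lit 2) (nat_lit 3)) (T.ts (nat_lit 3) (T.ls (nat_lit 2) (nat_lit 3)) (T.ts (nat_lit 2) (T.ls (nat_lit 3) (nat_lit 4)) (T.ts (nat_lit 1) (T.ls (nat_lit 2) (nat_lit 4)) (T.ts (nat_lit 0) (T.im (nat_lit 7) (nat_lit 2)) T.ie))))) (T.ts (nat_lit 3) (T.ts (nat_lit 4) (T.ls (nat_lit 2) (nat_lit 3)) (T.ts (nat_lit 3) (T.ls (nat_lit 2) (nat_lit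 3)) (T.ts (nat_lit 2) (T.ls (nat_lit 3) (nat_lit 4)) (T.ts (nat_lit 1) (T.ls (nat_lit 2) (nat_lit 4)) (T.ts (nat_lit 0) (T.im (nat_lit 7) (nat_lit 2)) T.ie))))) (T.ts (nat_lit 2) (T.ts (nat_lit 4) (T.ls (nat_lit 3) (nat_lit 4)) (T.ts (nat_lit 3) (T.ls (nat_lit 2) (nat_lit 3)) (T.ts (nat_lit 2) (T.ls (nat_lit 3) (nat_lit 4)) (T.ts (nat_lit 1) (T.ls (nat_lit 2) (nat_lit 4)) (T.ts (nat_lit 0) (T.im (nat_lit 7) (nat_lit 2)) T.ie))))) (T.ts (nat_lit 1) (T.ts (nat_lit 4) (T.ls (nat_lit 2) (nat_lit 4)) (T.ts (nat_lit 3) (T.ls (nat_lit 2) (nat_lit 3)) (T.ts (nat_lit 2) (T.ls (nat_lit 3) (nat_lit 4)) (T.ts (nat_lit 1) (T.ls (nat_lit 2) (nat_lit 4)) (T.ts (nat_lit 0) (T.im (nat_lit 5) (nat_lit 3)) T.ie))))) (T.ts (nat_lit 0) (T.im (nat_lit 7) (nat_lit 1)) T.ie))))) (T.ts (nat_lit 1) (T.im (nat_lit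 5) (nat_lit 2)) T.ie)))
def d672 : T := (T.ts (nat_lit 4) (T.ts (nat_lit 3) (T.ts (nat_lit 3) (T.ls (nat_lit 2) (nat_lit 3)) (T.ts (nat_lit 2) (T.ts (nat_lit 4) (T.ls (nat_lit 3) (nat_lit 4)) (T.ts (nat_lit 2) (T.im (nat_lit 9) (nat_lit 1)) (T.sk (T.ls (nat_lit 2) (nat_lit 3))))) (T.ts (nat_lit 1) (T.ls (nat_lit 2) (nat_lit 4)) (T.ts (nat_lit 0) (T.ls (nat_lit 2) (nat_lit 3)) (T.ts (nat_lit 4) (T.im (nat_lit 7) (nat_lit 2)) T.ie))))) (T.ts (nat_lit 2) (T.ts (nat_lit 3) (T.ls (nat_lit 2) (nat_lit 3)) (T.ts (nat_lit 2) (T.ls (nat_lit 3) (nat_lit 4)) (T.ts (nat_lit 1) (T.ls (nat_lit 2) (nat_lit 4)) (T.ts (nat_lit 0) (T.ls (nat_lit 2) (nat_lit 3)) (T.ts (nat_lit 4) (T.im (nat_lit 7) (nat_lit 2)) T.ie))))) (T.ts (nat_lit 1) (T.ts (nat_lit 3) (T.ls (nat_lit 2) (nat_lit 3)) (T.ts (nat_lit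 2) (T.ls (nat_lit 3) (nat_lit 4)) (T.ts (nat_lit 1) (T.ls (nat_lit 2) (nat_lit 4)) (T.ts (nat_lit 4) (T.im (nat_lit 7) (nat_lit 2)) (T.ts (nat_lit 0) (T.im (nat_lit 5) (nat_lit 3)) T.ie))))) (T.ts (nat_lit 0) (T.ts (nat_lit 3) (T.ls (nat_lit 2) (nat_lit 3)) (T.ts (nat_lit 2) (T.ls (nat_lit 3) (nat_lit 4)) (T.ts (nat_lit 1) (T.ls (nat_lit 2) (nat_lit 4)) (T.ts (nat_lit 0) (T.ls (nat_lit 2) (nat_lit 3)) (T.ts (nat_lit 4) (T.im (nat_lit 7) (nat_lit 2)) T.ie))))) (T.ts (nat_lit 4) (T.im (nat_lit 7) (nat_lit 1)) T.ie))))) (T.ts (nat_lit 3) (T.ts (nat_lit 4) (T.ts (nat_lit 4) (T.ls (nat_lit 2) (nat_lit 3)) (T.ts (nat_lit 2) (T.ls (nat_lit 3) (nat_lit 4)) (T.ts (nat_lit 1) (T.ls (nat_lit 2) (nat_lit 4)) (T.ts (nat_lit 0) (T.ls (nat_lit 2) (nat_lit 3)) (T.ts (nat_lit 3) (T.im (nat_lit 7)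 (nat_lit 2)) T.ie))))) (T.ts (nat_lit 2) (T.ts (nat_lit 4) (T.ls (nat_lit 3) (nat_lit 4)) (T.ts (nat_lit 2) (T.ls (nat_lit 3) (nat_lit 4)) (T.ts (nat_lit 1) (T.ls (nat_lit 2) (nat_lit 4)) (T.ts (nat_lit 0) (T.ls (nat_lit 2) (nat_lit 3)) (T.ts (nat_lit 3) (T.im (nat_lit 7) (nat_lit 2)) T.ie))))) (T.ts (nat_lit 1) (T.ts (nat_lit 4) (T.ls (nat_lit 2) (nat_lit 4)) (T.ts (nat_lit 2) (T.ls (nat_lit 3) (nat_lit 4)) (T.ts (nat_lit 1) (T.ls (nat_lit 2) (nat_lit 4)) (T.ts (nat_lit 3) (T.im (nat_lit 7) (nat_lit 2)) (T.ts (nat_lit 0) (T.im (nat_lit 5) (nat_lit 3)) T.ie))))) (T.ts (nat_lit 0) (T.ts (nat_lit 4) (T.ls (nat_lit 2) (nat_lit 3)) (T.ts (nat_lit 2) (T.ls (nat_lit 3) (nat_lit 4)) (T.ts (nat_lit 1) (T.ls (nat_lit 2) (nat_lit 4)) (T.ts (nat_lit 0) (T.ls (nat_lit 2) (nat_lit 3)) (T.ts (nat_lit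 3) (T.im (nat_lit 7) (nat_lit 2)) T.ie))))) (T.ts (nat_lit 3) (T.im (nat_lit 7) (nat_lit 1)) T.ie))))) d671))
def d673 : T := (T.ts (nat_lit 3) (T.ts (nat_lit 3) (T.ts (nat_lit 2) (T.ts (nat_lit 2) (T.ls (nat_lit 2) (nat_lit 3)) (T.ts (nat_lit 1) (T.ls (nat_lit 3) (nat_lit 4)) (T.ts (nat_lit 0) (T.ls (nat_lit 2) (nat_lit 4)) (T.ts (nat_lit 3) (T.im (nat_lit 7) (nat_lit 2)) (T.nw (T.ls (nat_lit 2) (nat_lit 3))))))) (T.ts (nat_lit 1) (T.ts (nat_lit 2) (T.ls (nat_lit 2) (nat_lit 3)) (T.ts (nat_lit 1) (T.ls (nat_lit 3) (nat_lit 4)) (T.ts (nat_lit 0) (T.ls (nat_lit 2) (nat_lit 4)) (T.ts (nat_lit 3) (T.im (nat_lit 7) (nat_lit 2)) (T.nw (T.ls (nat_lit 2) (nat_lit 3))))))) (T.ts (nat_lit 0) (T.ts (nat_lit 2) (T.ls (nat_lit 2) (nat_lit 3)) (T.ts (nat_lit 1) (T.ls (nat_lit 3) (nat_lit 4)) (T.ts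 (nat_lit 0) (T.ls (nat_lit 2) (nat_lit 4)) (T.ts (nat_lit 3) (T.im (nat_lit 5) (nat_lit 3)) (T.nw (T.ls (nat_lit 2) (nat_lit 3))))))) (T.ts (nat_lit 3) (T.im (nat_lit 7) (nat_lit 1)) (T.nw (T.ts (nat_lit 3) (T.ls (nat_lit 2) (nat_lit 3)) (T.ts (nat_lit 2) (T.ls (nat_lit 3) (nat_lit 4)) (T.ts (nat_lit 1) (T.ls (nat_lit 2) (nat_lit 4)) (T.ts (nat_lit 0) (T.ls (nat_lit 2) (nat_lit 3)) (T.ts (nat_lit 4) (T.im (nat_lit 7) (nat_lit 2)) T.ie)))))))))) d667) (T.ts (nat_lit 2) d669 (T.ts (nat_lit 1) (T.ts (nat_lit 2) (T.ts (nat_lit 3) (T.ts (nat_lit 3) (T.ls (nat_lit 2) (nat_lit 3)) (T.ts (nat_lit 1) (T.ls (nat_lit 3) (nat_lit 4)) (T.ts (nat_lit 0) (T.ls (nat_lit 2) (nat_lit 4)) (T.ts (nat_lit 2) (T.im (nat_lit 7) (nat_lit 2)) (T.nw (T.ls (nat_lit 2) (nat_lit 3))))))) (T.ts (nat_lit 1) (T.ts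 (nat_lit 3) (T.ls (nat_lit 3) (nat_lit 4)) (T.ts (nat_lit 1) (T.ls (nat_lit 3) (nat_lit 4)) (T.ts (nat_lit 0) (T.ls (nat_lit 2) (nat_lit 4)) (T.ts (nat_lit 2) (T.im (nat_lit 7) (nat_lit 2)) (T.nw (T.ls (nat_lit 2) (nat_lit 3))))))) (T.ts (nat_lit 0) (T.ts (nat_lit 3) (T.ls (nat_lit 2) (nat_lit 4)) (T.ts (nat_lit 0) (T.ls (nat_lit 2) (nat_lit 4)) (T.ts (nat_lit 2) (T.im (nat_lit 7) (nat_lit 2)) (T.ts (nat_lit 1) (T.im (nat_lit 5) (nat_lit 3)) (T.nw (T.ls (nat_lit 2) (nat_lit 3))))))) (T.ts (nat_lit 2) (T.im (nat_lit 7) (nat_lit 1)) (T.nw (T.ts (nat_lit 4) (T.ls (nat_lit 2) (nat_lit 3)) (T.ts (nat_lit 2) (T.ls (nat_lit 3) (nat_lit 4)) (T.ts (nat_lit 1) (T.ls (nat_lit 2) (nat_lit 4)) (T.ts (nat_lit 0) (T.ls (nat_lit 2) (nat_lit 3)) (T.ts (nat_lit 3) (T.im (nat_lit 7) (nat_lit 2)) T.ie))))))))))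 d670) (T.ts (nat_lit 0) (T.im (nat_lit 5) (nat_lit 1)) (T.nw d672)))))
def d674 : T := (T.tp (T.ts (nat_lit 0) (T.im (nat_lit 3) (nat_lit 2)) (T.nw d673)))
def d675 : T := (T.ts (nat_lit 0) (T.ts (nat_lit 2) (T.ts (nat_lit 2) (T.ls (nat_lit 2) (nat_lit 3)) (T.ts (nat_lit 1) (T.im (nat_lit 5) (nat_lit 3)) (T.ts (nat_lit 0) (T.im (nat_lit 7) (nat_lit 2)) (T.nw (T.ls (nat_lit 2) (nat_lit 4)))))) (T.ts (nat_lit 1) (T.ts (nat_lit 1) (T.ls (nat_lit 2) (nat_lit 3)) (T.ts (nat_lit 2) (T.im (nat_lit 3) (nat_lit 4)) (T.ts (nat_lit 0) (T.im (nat_lit 7) (nat_lit 2)) (T.nw (T.ls (nat_lit 2) (nat_lit 4)))))) (T.ts (nat_lit 0) (T.im (nat_lit 7) (nat_lit 1)) (T.nw (T.ts (nat_lit 3) (T.ls (nat_lit 2) (nat_lit 4)) (T.ts (nat_lit 2) (T.ls (nat_lit 2) (nat_lit 3)) (T.ts (nat_lit 0) (T.ls (nat_lit 2)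 (nat_lit 4)) (T.ts (nat_lit 1) (T.im (nat_lit 7) (nat_lit 2)) (T.nw (T.ls (nat_lit 2) (nat_lit 3))))))))))) (T.ts (nat_lit 2) (T.im (nat_lit 5) (nat_lit 2)) (T.nw (T.ts (nat_lit 3) (T.ts (nat_lit 3) (T.ls (nat_lit 2) (nat_lit 3)) (T.ts (nat_lit 1) (T.ls (nat_lit 3) (nat_lit 4)) (T.ts (nat_lit 2) (T.im (nat_lit 5) (nat_lit 3)) (T.ts (nat_lit 0) (T.im (nat_lit 7) (nat_lit 2)) (T.nw (T.ls (nat_lit 2) (nat_lit 3))))))) (T.ts (nat_lit 2) (T.ts (nat_lit 3) (T.ls (nat_lit 2) (nat_lit 3)) (T.ts (nat_lit 2) (T.ls (nat_lit 2) (nat_lit 3)) (T.ts (nat_lit 1) (T.ls (nat_lit 3) (nat_lit 4)) (T.ts (nat_lit 0) (T.im (nat_lit 7) (nat_lit 2)) (T.nw (T.ls (nat_lit 2) (nat_lit 3))))))) (T.ts (nat_lit 1) (T.ts (nat_lit 3) (T.ls (nat_lit 3) (nat_lit 4)) (T.ts (nat_lit 2) (T.ls (nat_lit 2) (nat_lit 3))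 (T.ts (nat_lit 1) (T.ls (nat_lit 3) (nat_lit 4)) (T.ts (nat_lit 0) (T.im (nat_lit 7) (nat_lit 2)) (T.nw (T.ls (nat_lit 2) (nat_lit 3))))))) (T.ts (nat_lit 0) (T.im (nat_lit 7) (nat_lit 1)) (T.nw (T.ts (nat_lit 4) (T.ls (nat_lit 2) (nat_lit 3)) (T.ts (nat_lit 3) (T.ls (nat_lit 2) (nat_lit 3)) (T.ts (nat_lit 2) (T.ls (nat_lit 3) (nat_lit 4)) (T.ts (nat_lit 0) (T.ls (nat_lit 2) (nat_lit 3)) (T.ts (nat_lit 1) (T.im (nat_lit 7) (nat_lit 2)) T.ie)))))))))))))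
def d676 : T := (T.ts (nat_lit 0) (T.ts (nat_lit 2) (T.ts (nat_lit 2) (T.ls (nat_lit 2) (nat_lit 3)) (T.ts (nat_lit 1) (T.ls (nat_lit 3) (nat_lit 4)) (T.ts (nat_lit 0) (T.im (nat_lit 5) (nat_lit 3)) (T.nw (T.ls (nat_lit 2) (nat_lit 4)))))) (T.ts (nat_lit 1) (T.ts (nat_lit 1) (T.ls (nat_lit 2) (nat_lit 3)) (T.ts (nat_lit 2) (T.im (nat_lit 3) (nat_lit 4)) (T.ts (nat_lit 0) (T.im (nat_lit 7) (nat_lit 2)) (T.nw (T.ls (nat_lit 2) (nat_lit 4)))))) (T.ts (nat_lit 0) (T.im (nat_lit 7) (nat_lit 1)) (T.nw (T.ts (nat_lit 3) (T.ls (nat_lit 2) (nat_lit 4)) (T.ts (nat_lit 2) (T.ls (nat_lit 2) (nat_lit 3)) (T.ts (nat_lit 0) (T.ls (nat_lit 2) (nat_lit 4)) (T.ts (nat_lit 1) (T.im (nat_lit 7) (nat_lit 2)) (T.nw (T.ls (nat_lit 2) (nat_lit 3))))))))))) (T.ts (nat_lit 2) (T.im (nat_lit 5) (nat_lit 2))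 (T.ts (nat_lit 1) (T.im (nat_lit 3) (nat_lit 3)) (T.nw (T.ts (nat_lit 3) (T.ts (nat_lit 3) (T.ls (nat_lit 2) (nat_lit 3)) (T.ts (nat_lit 2) (T.ls (nat_lit 2) (nat_lit 4)) (T.ts (nat_lit 1) (T.im (nat_lit 5) (nat_lit 3)) (T.ts (nat_lit 0) (T.im (nat_lit 7) (nat_lit 2)) (T.nw (T.ls (nat_lit 2) (nat_lit 3))))))) (T.ts (nat_lit 2) (T.ts (nat_lit 3) (T.ls (nat_lit 2) (nat_lit 3)) (T.ts (nat_lit 2) (T.ls (nat_lit 2) (nat_lit 3)) (T.ts (nat_lit 1) (T.ls (nat_lit 3) (nat_lit 4)) (T.ts (nat_lit 0) (T.im (nat_lit 7) (nat_lit 2)) (T.nw (T.ls (nat_lit 2) (nat_lit 3))))))) (T.ts (nat_lit 1) (T.ts (nat_lit 3) (T.ls (nat_lit 3) (nat_lit 4)) (T.ts (nat_lit 2) (T.ls (nat_lit 2) (nat_lit 3)) (T.ts (nat_lit 1) (T.ls (nat_lit 3) (nat_lit 4)) (T.ts (nat_lit 0) (T.im (nat_lit 7) (nat_lit 2)) (T.nw (T.ls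 (nat_lit 2) (nat_lit 3))))))) (T.ts (nat_lit 0) (T.im (nat_lit 7) (nat_lit 1)) (T.nw (T.ts (nat_lit 4) (T.ls (nat_lit 2) (nat_lit 3)) (T.ts (nat_lit 3) (T.ls (nat_lit 2) (nat_lit 3)) (T.ts (nat_lit 2) (T.ls (nat_lit 3) (nat_lit 4)) (T.ts (nat_lit 0) (T.ls (nat_lit 2) (nat_lit 3)) (T.ts (nat_lit 1) (T.im (nat_lit 7) (nat_lit 2)) T.ie))))))))))))))
def d677 : T := (T.ts (nat_lit 0) (T.ts (nat_lit 3) (T.ts (nat_lit 3) (T.ls (nat_lit 2) (nat_lit 3)) (T.ts (nat_lit 2) (T.ls (nat_lit 2) (nat_lit 4)) (T.ts (nat_lit 1) (T.ls (nat_lit 3) (nat_lit 4)) (T.ts (nat_lit 0) (T.im (nat_lit 5) (nat_lit 3)) (T.nw (T.ls (nat_lit 2) (nat_lit 3))))))) (T.ts (nat_lit 2) (T.ts (nat_lit 3) (T.ls (nat_lit 2) (nat_lit 3)) (T.ts (nat_lit 2) (T.ls (nat_lit 2) (nat_lit 3)) (T.ts (nat_lit 1) (T.ls (nat_lit 3)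 (nat_lit 4)) (T.ts (nat_lit 0) (T.im (nat_lit 7) (nat_lit 2)) (T.nw (T.ls (nat_lit 2) (nat_lit 3))))))) (T.ts (nat_lit 1) (T.ts (nat_lit 3) (T.ls (nat_lit 3) (nat_lit 4)) (T.ts (nat_lit 2) (T.ls (nat_lit 2) (nat_lit 3)) (T.ts (nat_lit 1) (T.ls (nat_lit 3) (nat_lit 4)) (T.ts (nat_lit 0) (T.im (nat_lit 7) (nat_lit 2)) (T.nw (T.ls (nat_lit 2) (nat_lit 3))))))) (T.ts (nat_lit 0) (T.im (nat_lit 7) (nat_lit 1)) (T.nw (T.ts (nat_lit 4) (T.ls (nat_lit 2) (nat_lit 3)) (T.ts (nat_lit 3) (T.ls (nat_lit 2) (nat_lit 3)) (T.ts (nat_lit 2) (T.ls (nat_lit 3) (nat_lit 4)) (T.ts (nat_lit 0) (T.ls (nat_lit 2) (nat_lit 3)) (T.ts (nat_lit 1) (T.im (nat_lit 7) (nat_lit 2)) T.ie)))))))))) (T.ts (nat_lit 3) (T.im (nat_lit 5) (nat_lit 2)) (T.nw (T.ts (nat_lit 4) (T.ts (nat_lit 4) (T.ls (nat_lit 2) (nat_lit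 3)) (T.ts (nat_lit 3) (T.ls (nat_lit 2) (nat_lit 3)) (T.ts (nat_lit 2) (T.ls (nat_lit 3) (nat_lit 4)) (T.ts (nat_lit 1) (T.im (nat_lit 5) (nat_lit 3)) (T.ts (nat_lit 0) (T.im (nat_lit 7) (nat_lit 2)) T.ie))))) (T.ts (nat_lit 3) (T.ts (nat_lit 4) (T.ls (nat_lit 2) (nat_lit 3)) (T.ts (nat_lit 3) (T.ls (nat_lit 2) (nat_lit 3)) (T.ts (nat_lit 2) (T.ls (nat_lit 3) (nat_lit 4)) (T.ts (nat_lit 1) (T.ls (nat_lit 2) (nat_lit 4)) (T.ts (nat_lit 0) (T.im (nat_lit 7) (nat_lit 2)) T.ie))))) (T.ts (nat_lit 2) (T.ts (nat_lit 4) (T.ls (nat_lit 3) (nat_lit 4)) (T.ts (nat_lit 3) (T.ls (nat_lit 2) (nat_lit 3)) (T.ts (nat_lit 2) (T.ls (nat_lit 3) (nat_lit 4)) (T.ts (nat_lit 1) (T.ls (nat_lit 2) (nat_lit 4)) (T.ts (nat_lit 0) (T.im (nat_lit 7) (nat_lit 2)) T.ie))))) (T.ts (nat_lit 1) (T.ts (nat_lit 4)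 (T.ls (nat_lit 2) (nat_lit 4)) (T.ts (nat_lit 3) (T.ls (nat_lit 2) (nat_lit 3)) (T.ts (nat_lit 2) (T.ls (nat_lit 3) (nat_lit 4)) (T.ts (nat_lit 1) (T.ls (nat_lit 2) (nat_lit 4)) (T.ts (nat_lit 0) (T.im (nat_lit 7) (nat_lit 2)) T.ie))))) (T.ts (nat_lit 0) (T.im (nat_lit 7) (nat_lit 1)) T.ie))))))))
def d678 : T := (T.ts (nat_lit 2) (T.ts (nat_lit 3) (T.ts (nat_lit 3) (T.ls (nat_lit 2) (nat_lit 3)) (T.ts (nat_lit 1) (T.ls (nat_lit 3) (nat_lit 4)) (T.ts (nat_lit 2) (T.im (nat_lit 7) (nat_lit 2)) (T.ts (nat_lit 0) (T.im (nat_lit 5) (nat_lit 3)) (T.nw (T.ls (nat_lit 2) (nat_lit 3))))))) (T.ts (nat_lit 1) (T.ts (nat_lit 3) (T.ls (nat_lit 3) (nat_lit 4)) (T.ts (nat_lit 1) (T.ls (nat_lit 3) (nat_lit 4)) (T.ts (nat_lit 0) (T.ls (nat_lit 2) (nat_lit 4)) (T.ts (nat_lit 2) (T.im (nat_lit 7) (nat_lit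 2)) (T.nw (T.ls (nat_lit 2) (nat_lit 3))))))) (T.ts (nat_lit 0) (T.ts (nat_lit 3) (T.ls (nat_lit 2) (nat_lit 4)) (T.ts (nat_lit 1) (T.ls (nat_lit 3) (nat_lit 4)) (T.ts (nat_lit 0) (T.ls (nat_lit 2) (nat_lit 4)) (T.ts (nat_lit 2) (T.im (nat_lit 7) (nat_lit 2)) (T.nw (T.ls (nat_lit 2) (nat_lit 3))))))) (T.ts (nat_lit 2) (T.im (nat_lit 7) (nat_lit 1)) (T.nw (T.ts (nat_lit 4) (T.ls (nat_lit 2) (nat_lit 3)) (T.ts (nat_lit 2) (T.ls (nat_lit 3) (nat_lit 4)) (T.ts (nat_lit 1) (T.ls (nat_lit 2) (nat_lit 4)) (T.ts (nat_lit 0) (T.ls (nat_lit 2) (nat_lit 3)) (T.ts (nat_lit 3) (T.im (nat_lit 7) (nat_lit 2)) T.ie)))))))))) (T.ts (nat_lit 1) (T.ts (nat_lit 3) (T.ts (nat_lit 3) (T.ls (nat_lit 2) (nat_lit 3)) (T.ts (nat_lit 2) (T.ls (nat_lit 3) (nat_lit 4)) (T.ts (nat_lit 1) (T.im (nat_lit 7) (nat_lit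 2)) (T.ts (nat_lit 0) (T.im (nat_lit 5) (nat_lit 3)) (T.nw (T.ls (nat_lit 2) (nat_lit 3))))))) (T.ts (nat_lit 2) (T.ts (nat_lit 2) (T.ls (nat_lit 2) (nat_lit 3)) (T.ts (nat_lit 0) (T.ls (nat_lit 2) (nat_lit 4)) (T.ts (nat_lit 3) (T.im (nat_lit 3) (nat_lit 4)) (T.ts (nat_lit 1) (T.im (nat_lit 7) (nat_lit 2)) (T.nw (T.ls (nat_lit 2) (nat_lit 3))))))) (T.ts (nat_lit 0) (T.ts (nat_lit 3) (T.ls (nat_lit 2) (nat_lit 4)) (T.ts (nat_lit 2) (T.ls (nat_lit 2) (nat_lit 3)) (T.ts (nat_lit 0) (T.ls (nat_lit 2) (nat_lit 4)) (T.ts (nat_lit 1) (T.im (nat_lit 7) (nat_lit 2)) (T.nw (T.ls (nat_lit 2) (nat_lit 3))))))) (T.ts (nat_lit 1) (T.im (nat_lit 7) (nat_lit 1)) (T.nw (T.ts (nat_lit 4) (T.ls (nat_lit 2) (nat_lit 3)) (T.ts (nat_lit 3) (T.ls (nat_lit 2) (nat_lit 3)) (T.ts (nat_lit 1) (T.ls (nat_lit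 2) (nat_lit 4)) (T.ts (nat_lit 0) (T.ls (nat_lit 2) (nat_lit 3)) (T.ts (nat_lit 2) (T.im (nat_lit 7) (nat_lit 2)) T.ie)))))))))) d677))
def d679 : T := (T.tp (T.ts (nat_lit 1) (T.ts (nat_lit 1) (T.ts (nat_lit 2) (T.ts (nat_lit 2) (T.ls (nat_lit 2) (nat_lit 3)) (T.ts (nat_lit 0) (T.ls (nat_lit 3) (nat_lit 4)) (T.ts (nat_lit 1) (T.im (nat_lit 5) (nat_lit 3)) (T.nw (T.ls (nat_lit 2) (nat_lit 4)))))) (T.ts (nat_lit 0) (T.ts (nat_lit 2) (T.ls (nat_lit 3) (nat_lit 4)) (T.ts (nat_lit 0) (T.ls (nat_lit 3) (nat_lit 4)) (T.ts (nat_lit 1) (T.im (nat_lit 7) (nat_lit 2)) (T.nw (T.ls (nat_lit 2) (nat_lit 4)))))) (T.ts (nat_lit 1) (T.im (nat_lit 7) (nat_lit 1)) (T.nw (T.ts (nat_lit 3) (T.ls (nat_lit 2) (nat_lit 4)) (T.ts (nat_lit 1) (T.ls (nat_lit 3) (nat_lit 4)) (T.ts (nat_lit 0) (T.ls (nat_lit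 2) (nat_lit 4)) (T.ts (nat_lit 2) (T.im (nat_lit 7) (nat_lit 2)) (T.nw (T.ls (nat_lit 2) (nat_lit 3))))))))))) d675) (T.ts (nat_lit 0) d676 (T.ts (nat_lit 2) (T.im (nat_lit 5) (nat_lit 1)) (T.nw d678)))))
def d680 : T := (T.ts (nat_lit 0) (T.ts (nat_lit 2) (T.ts (nat_lit 2) (T.ls (nat_lit 2) (nat_lit 3)) (T.ts (nat_lit 1) (T.ls (nat_lit 3) (nat_lit 4)) (T.ts (nat_lit 0) (T.im (nat_lit 7) (nat_lit 2)) (T.nw (T.ls (nat_lit 2) (nat_lit 4)))))) (T.ts (nat_lit 1) (T.ts (nat_lit 2) (T.im (nat_lit 5) (nat_lit 3)) (T.ts (nat_lit 1) (T.im (nat_lit 3) (nat_lit 4)) (T.ts (nat_lit 0) (T.im (nat_lit 7) (nat_lit 2)) (T.nw (T.ls (nat_lit 2) (nat_lit 4)))))) (T.ts (nat_lit 0) (T.im (nat_lit 7) (nat_lit 1)) (T.nw (T.ts (nat_lit 3) (T.ls (nat_lit 2) (nat_lit 4)) (T.ts (nat_lit 2) (T.ls (nat_lit 2)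 (nat_lit 3)) (T.ts (nat_lit 0) (T.ls (nat_lit 2) (nat_lit 4)) (T.ts (nat_lit 1) (T.im (nat_lit 7) (nat_lit 2)) (T.nw (T.ls (nat_lit 2) (nat_lit 3))))))))))) (T.ts (nat_lit 1) (T.im (nat_lit 5) (nat_lit 2)) (T.nw (T.ts (nat_lit 3) (T.ts (nat_lit 3) (T.ls (nat_lit 2) (nat_lit 3)) (T.ts (nat_lit 2) (T.ls (nat_lit 2) (nat_lit 4)) (T.ts (nat_lit 1) (T.ls (nat_lit 3) (nat_lit 4)) (T.ts (nat_lit 0) (T.im (nat_lit 7) (nat_lit 2)) (T.nw (T.ls (nat_lit 2) (nat_lit 3))))))) (T.ts (nat_lit 2) (T.ts (nat_lit 2) (T.ls (nat_lit 2) (nat_lit 3)) (T.ts (nat_lit 1) (T.ls (nat_lit 3) (nat_lit 4)) (T.ts (nat_lit 3) (T.im (nat_lit 5) (nat_lit 3)) (T.ts (nat_lit 0) (T.im (nat_lit 7) (nat_lit 2)) (T.nw (T.ls (nat_lit 2) (nat_lit 3))))))) (T.ts (nat_lit 1) (T.ts (nat_lit 3) (T.ls (nat_lit 3) (nat_lit 4))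 (T.ts (nat_lit 2) (T.ls (nat_lit 2) (nat_lit 3)) (T.ts (nat_lit 1) (T.ls (nat_lit 3) (nat_lit 4)) (T.ts (nat_lit 0) (T.im (nat_lit 7) (nat_lit 2)) (T.nw (T.ls (nat_lit 2) (nat_lit 3))))))) (T.ts (nat_lit 0) (T.im (nat_lit 7) (nat_lit 1)) (T.nw (T.ts (nat_lit 4) (T.ls (nat_lit 2) (nat_lit 3)) (T.ts (nat_lit 3) (T.ls (nat_lit 2) (nat_lit 3)) (T.ts (nat_lit 2) (T.ls (nat_lit 3) (nat_lit 4)) (T.ts (nat_lit 0) (T.ls (nat_lit 2) (nat_lit 3)) (T.ts (nat_lit 1) (T.im (nat_lit 7) (nat_lit 2)) T.ie)))))))))))))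
def d681 : T := (T.ts (nat_lit 2) (T.ts (nat_lit 1) (T.ts (nat_lit 1) (T.ls (nat_lit 2) (nat_lit 3)) (T.ts (nat_lit 2) (T.im (nat_lit 7) (nat_lit 2)) (T.ts (nat_lit 0) (T.im (nat_lit 5) (nat_lit 3)) (T.nw (T.ls (nat_lit 2) (nat_lit 4)))))) (T.ts (nat_lit 0) (T.ts (nat_lit 1) (T.ls (nat_lit 2) (nat_lit 3)) (T.ts (nat_lit 0) (T.ls (nat_lit 3) (nat_lit 4)) (T.ts (nat_lit 2) (T.im (nat_lit 7) (nat_lit 2)) (T.nw (T.ls (nat_lit 2) (nat_lit 4)))))) (T.ts (nat_lit 2) (T.im (nat_lit 7) (nat_lit 1)) (T.nw (T.ts (nat_lit 2) (T.ls (nat_lit 2) (nat_lit 3)) (T.ts (nat_lit 1) (T.ls (nat_lit 3) (nat_lit 4)) (T.ts (nat_lit 0) (T.ls (nat_lit 2) (nat_lit 4)) (T.ts (nat_lit 3) (T.im (nat_lit 7) (nat_lit 2)) (T.nw (T.ls (nat_lit 2) (nat_lit 3))))))))))) (T.ts (nat_lit 1) (T.im (nat_lit 3) (nat_lit 3))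 (T.ts (nat_lit 0) (T.im (nat_lit 1) (nat_lit 4)) (T.nw (T.ts (nat_lit 3) (T.ts (nat_lit 3) (T.ls (nat_lit 2) (nat_lit 3)) (T.ts (nat_lit 2) (T.ls (nat_lit 2) (nat_lit 4)) (T.ts (nat_lit 1) (T.ls (nat_lit 3) (nat_lit 4)) (T.ts (nat_lit 0) (T.im (nat_lit 7) (nat_lit 2)) (T.nw (T.ls (nat_lit 2) (nat_lit 3))))))) (T.ts (nat_lit 2) (T.ts (nat_lit 3) (T.ls (nat_lit 2) (nat_lit 3)) (T.ts (nat_lit 2) (T.ls (nat_lit 2) (nat_lit 3)) (T.ts (nat_lit 1) (T.im (nat_lit 5) (nat_lit 3)) (T.ts (nat_lit 0) (T.im (nat_lit 7) (nat_lit 2)) (T.nw (T.ls (nat_lit 2) (nat_lit 3))))))) (T.ts (nat_lit 1) (T.ts (nat_lit 3) (T.ls (nat_lit 3) (nat_lit 4)) (T.ts (nat_lit 2) (T.ls (nat_lit 2) (nat_lit 3)) (T.ts (nat_lit 1) (T.ls (nat_lit 3) (nat_lit 4)) (T.ts (nat_lit 0) (T.im (nat_lit 7) (nat_lit 2)) (T.nw (T.ls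 (nat_lit 2) (nat_lit 3))))))) (T.ts (nat_lit 0) (T.im (nat_lit 7) (nat_lit 1)) (T.nw (T.ts (nat_lit 4) (T.ls (nat_lit 2) (nat_lit 3)) (T.ts (nat_lit 3) (T.ls (nat_lit 2) (nat_lit 3)) (T.ts (nat_lit 2) (T.ls (nat_lit 3) (nat_lit 4)) (T.ts (nat_lit 0) (T.ls (nat_lit 2) (nat_lit 3)) (T.ts (nat_lit 1) (T.im (nat_lit 7) (nat_lit 2)) T.ie))))))))))))))
def d682 : T := (T.ts (nat_lit 0) (T.ts (nat_lit 3) (T.ts (nat_lit 3) (T.ls (nat_lit 2) (nat_lit 3)) (T.ts (nat_lit 2) (T.ls (nat_lit 2) (nat_lit 4)) (T.ts (nat_lit 1) (T.ls (nat_lit 3) (nat_lit 4)) (T.ts (nat_lit 0) (T.im (nat_lit 7) (nat_lit 2)) (T.nw (T.ls (nat_lit 2) (nat_lit 3))))))) (T.ts (nat_lit 2) (T.ts (nat_lit 3) (T.ls (nat_lit 2) (nat_lit 3)) (T.ts (nat_lit 2) (T.ls (nat_lit 2) (nat_lit 3)) (T.ts (nat_lit 1) (T.ls (nat_lit 3)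 (nat_lit 4)) (T.ts (nat_lit 0) (T.im (nat_lit 5) (nat_lit 3)) (T.nw (T.ls (nat_lit 2) (nat_lit 3))))))) (T.ts (nat_lit 1) (T.ts (nat_lit 3) (T.ls (nat_lit 3) (nat_lit 4)) (T.ts (nat_lit 2) (T.ls (nat_lit 2) (nat_lit 3)) (T.ts (nat_lit 1) (T.ls (nat_lit 3) (nat_lit 4)) (T.ts (nat_lit 0) (T.im (nat_lit 7) (nat_lit 2)) (T.nw (T.ls (nat_lit 2) (nat_lit 3))))))) (T.ts (nat_lit 0) (T.im (nat_lit 7) (nat_lit 1)) (T.nw (T.ts (nat_lit 4) (T.ls (nat_lit 2) (nat_lit 3)) (T.ts (nat_lit 3) (T.ls (nat_lit 2) (nat_lit 3)) (T.ts (nat_lit 2) (T.ls (nat_lit 3) (nat_lit 4)) (T.ts (nat_lit 0) (T.ls (nat_lit 2) (nat_lit 3)) (T.ts (nat_lit 1) (T.im (nat_lit 7) (nat_lit 2)) T.ie)))))))))) (T.ts (nat_lit 2) (T.im (nat_lit 5) (nat_lit 2)) (T.nw (T.ts (nat_lit 4) (T.ts (nat_lit 4) (T.ls (nat_lit 2) (nat_lit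 3)) (T.ts (nat_lit 3) (T.ls (nat_lit 2) (nat_lit 3)) (T.ts (nat_lit 2) (T.ls (nat_lit 3) (nat_lit 4)) (T.ts (nat_lit 1) (T.ls (nat_lit 2) (nat_lit 4)) (T.ts (nat_lit 0) (T.im (nat_lit 7) (nat_lit 2)) T.ie))))) (T.ts (nat_lit 3) (T.ts (nat_lit 4) (T.ls (nat_lit 2) (nat_lit 3)) (T.ts (nat_lit 3) (T.ls (nat_lit 2) (nat_lit 3)) (T.ts (nat_lit 2) (T.ls (nat_lit 3) (nat_lit 4)) (T.ts (nat_lit 1) (T.im (nat_lit 5) (nat_lit 3)) (T.ts (nat_lit 0) (T.im (nat_lit 7) (nat_lit 2)) T.ie))))) (T.ts (nat_lit 2) (T.ts (nat_lit 4) (T.ls (nat_lit 3) (nat_lit 4)) (T.ts (nat_lit 3) (T.ls (nat_lit 2) (nat_lit 3)) (T.ts (nat_lit 2) (T.ls (nat_lit 3) (nat_lit 4)) (T.ts (nat_lit 1) (T.ls (nat_lit 2) (nat_lit 4)) (T.ts (nat_lit 0) (T.im (nat_lit 7) (nat_lit 2)) T.ie))))) (T.ts (nat_lit 1) (T.ts (nat_lit 4)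 (T.ls (nat_lit 2) (nat_lit 4)) (T.ts (nat_lit 3) (T.ls (nat_lit 2) (nat_lit 3)) (T.ts (nat_lit 2) (T.ls (nat_lit 3) (nat_lit 4)) (T.ts (nat_lit 1) (T.ls (nat_lit 2) (nat_lit 4)) (T.ts (nat_lit 0) (T.im (nat_lit 7) (nat_lit 2)) T.ie))))) (T.ts (nat_lit 0) (T.im (nat_lit 7) (nat_lit 1)) T.ie))))))))
def d683 : T := (T.ts (nat_lit 3) (T.ts (nat_lit 2) (T.ts (nat_lit 2) (T.ls (nat_lit 2) (nat_lit 3)) (T.ts (nat_lit 1) (T.ts (nat_lit 3) (T.ls (nat_lit 3) (nat_lit 4)) (T.ts (nat_lit 1) (T.im (nat_lit 9) (nat_lit 1)) (T.sk (T.ls (nat_lit 2) (nat_lit 3))))) (T.ts (nat_lit 3) (T.im (nat_lit 7) (nat_lit 2)) (T.ts (nat_lit 0) (T.im (nat_lit 5) (nat_lit 3)) (T.nw (T.ls (nat_lit 2) (nat_lit 3))))))) (T.ts (nat_lit 1) (T.ts (nat_lit 2) (T.ls (nat_lit 2) (nat_lit 3)) (T.ts (nat_lit 1) (T.ls (nat_lit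 3) (nat_lit 4)) (T.ts (nat_lit 0) (T.ls (nat_lit 2) (nat_lit 4)) (T.ts (nat_lit 3) (T.im (nat_lit 7) (nat_lit 2)) (T.nw (T.ls (nat_lit 2) (nat_lit 3))))))) (T.ts (nat_lit 0) (T.ts (nat_lit 2) (T.ls (nat_lit 2) (nat_lit 3)) (T.ts (nat_lit 1) (T.ls (nat_lit 3) (nat_lit 4)) (T.ts (nat_lit 0) (T.ls (nat_lit 2) (nat_lit 4)) (T.ts (nat_lit 3) (T.im (nat_lit 7) (nat_lit 2)) (T.nw (T.ls (nat_lit 2) (nat_lit 3))))))) (T.ts (nat_lit 3) (T.im (nat_lit 7) (nat_lit 1)) (T.nw (T.ts (nat_lit 3) (T.ls (nat_lit 2) (nat_lit 3)) (T.ts (nat_lit 2) (T.ls (nat_lit 3) (nat_lit 4)) (T.ts (nat_lit 1) (T.ls (nat_lit 2) (nat_lit 4)) (T.ts (nat_lit 0) (T.ls (nat_lit 2) (nat_lit 3)) (T.ts (nat_lit 4) (T.im (nat_lit 7) (nat_lit 2)) T.ie)))))))))) (T.ts (nat_lit 1) (T.ts (nat_lit 3) (T.ts (nat_lit 3) (T.ls (nat_lit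 2) (nat_lit 3)) (T.ts (nat_lit 2) (T.ls (nat_lit 3) (nat_lit 4)) (T.ts (nat_lit 0) (T.ls (nat_lit 2) (nat_lit 4)) (T.ts (nat_lit 1) (T.im (nat_lit 7) (nat_lit 2)) (T.nw (T.ls (nat_lit 2) (nat_lit 3))))))) (T.ts (nat_lit 2) (T.ts (nat_lit 3) (T.ls (nat_lit 2) (nat_lit 3)) (T.ts (nat_lit 2) (T.im (nat_lit 3) (nat_lit 4)) (T.ts (nat_lit 1) (T.im (nat_lit 7) (nat_lit 2)) (T.ts (nat_lit 0) (T.im (nat_lit 5) (nat_lit 3)) (T.nw (T.ls (nat_lit 2) (nat_lit 3))))))) (T.ts (nat_lit 0) (T.ts (nat_lit 3) (T.ls (nat_lit 2) (nat_lit 4)) (T.ts (nat_lit 2) (T.ls (nat_lit 2) (nat_lit 3)) (T.ts (nat_lit 0) (T.ls (nat_lit 2) (nat_lit 4)) (T.ts (nat_lit 1) (T.im (nat_lit 7) (nat_lit 2)) (T.nw (T.ls (nat_lit 2) (nat_lit 3))))))) (T.ts (nat_lit 1) (T.im (nat_lit 7) (nat_lit 1)) (T.nw (T.ts (nat_lit 4) (T.ls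 (nat_lit 2) (nat_lit 3)) (T.ts (nat_lit 3) (T.ls (nat_lit 2) (nat_lit 3)) (T.ts (nat_lit 1) (T.ls (nat_lit 2) (nat_lit 4)) (T.ts (nat_lit 0) (T.ls (nat_lit 2) (nat_lit 3)) (T.ts (nat_lit 2) (T.im (nat_lit 7) (nat_lit 2)) T.ie)))))))))) d682))
def d684 : T := (T.tp (T.ts (nat_lit 2) (T.ts (nat_lit 2) (T.ts (nat_lit 1) (T.ts (nat_lit 1) (T.ls (nat_lit 2) (nat_lit 3)) (T.ts (nat_lit 0) (T.ls (nat_lit 3) (nat_lit 4)) (T.ts (nat_lit 2) (T.im (nat_lit 5) (nat_lit 3)) (T.nw (T.ls (nat_lit 2) (nat_lit 4)))))) (T.ts (nat_lit 0) (T.ts (nat_lit 1) (T.ls (nat_lit 2) (nat_lit 3)) (T.ts (nat_lit 0) (T.ls (nat_lit 3) (nat_lit 4)) (T.ts (nat_lit 2) (T.im (nat_lit 7) (nat_lit 2)) (T.nw (T.ls (nat_lit 2) (nat_lit 4)))))) (T.ts (nat_lit 2) (T.im (nat_lit 7) (nat_lit 1)) (T.nw (T.ts (nat_lit 2) (T.ls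 (nat_lit 2) (nat_lit 3)) (T.ts (nat_lit 1) (T.ls (nat_lit 3) (nat_lit 4)) (T.ts (nat_lit 0) (T.ls (nat_lit 2) (nat_lit 4)) (T.ts (nat_lit 3) (T.im (nat_lit 7) (nat_lit 2)) (T.nw (T.ls (nat_lit 2) (nat_lit 3))))))))))) d680) (T.ts (nat_lit 0) d681 (T.ts (nat_lit 1) (T.im (nat_lit 5) (nat_lit 1)) (T.nw d683)))))
def d685 : T := (T.ts (nat_lit 1) (T.ts (nat_lit 3) (T.ts (nat_lit 2) (T.ts (nat_lit 1) (T.ts (nat_lit 1) (T.ts (nat_lit 2) (T.ts (nat_lit 0) (T.ts (nat_lit 3) (T.ts (nat_lit 2) (T.lf (nat_lit 16569) (nat_lit 3) (nat_lit 12300) (nat_lit 4) (nat_lit 20500)) (T.tp (T.sk (T.ls (nat_lit 2) (nat_lit 4))))) (T.tp (T.sk (T.ls (nat_lit 2) (nat_lit 4))))) (T.tp (T.sk (T.ls (nat_lit 2) (nat_lit 4))))) (T.tp (T.sk (T.ls (nat_lit 2) (nat_lit 4))))) (T.tp (T.sk (T.ls (nat_lit 2) (nat_lit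 4))))) (T.tp (T.sk (T.ls (nat_lit 2) (nat_lit 4))))) (T.tp (T.sk (T.ls (nat_lit 2) (nat_lit 4))))) (T.tp (T.sk (T.ls (nat_lit 2) (nat_lit 4))))) (T.ts (nat_lit 0) (T.ls (nat_lit 2) (nat_lit 4)) (T.ts (nat_lit 2) (T.im (nat_lit 7) (nat_lit 2)) (T.nw (T.ts (nat_lit 4) (T.ts (nat_lit 3) (T.ts (nat_lit 2) (T.ts (nat_lit 2) (T.ts (nat_lit 3) (T.ts (nat_lit 1) (T.ts (nat_lit 4) (T.ts (nat_lit 3) (T.lf (nat_lit 16569) (nat_lit 2) (nat_lit 20500) (nat_lit 3) (nat_lit 12300)) (T.tp (T.sk (T.ls (nat_lit 2) (nat_lit 4))))) (T.tp (T.sk (T.ls (nat_lit 2) (nat_lit 4))))) (T.tp (T.sk (T.ls (nat_lit 2) (nat_lit 4))))) (T.tp (T.sk (T.ls (nat_lit 2) (nat_lit 4))))) (T.tp (T.sk (T.ls (nat_lit 2) (nat_lit 4))))) (T.tp (T.sk (T.ls (nat_lit 2) (nat_lit 4))))) (T.tp (T.sk (T.ls (nat_lit 2) (nat_lit 4)))))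 (T.tp (T.sk (T.ls (nat_lit 2) (nat_lit 4)))))))))
def d686 : T := (T.ts (nat_lit 3) (T.tp (T.ts (nat_lit 2) (T.ts (nat_lit 1) (T.im (nat_lit 7) (nat_lit 3)) (T.sk (T.ls (nat_lit 2) (nat_lit 4)))) (T.sk (T.ls (nat_lit 2) (nat_lit 4))))) (T.ts (nat_lit 1) (T.tp (T.ts (nat_lit 3) (T.ts (nat_lit 2) (T.ts (nat_lit 1) (T.ts (nat_lit 1) (T.im (nat_lit 7) (nat_lit 4)) (T.sk (T.ls (nat_lit 2) (nat_lit 4)))) (T.sk (T.ls (nat_lit 2) (nat_lit 4)))) (T.sk (T.ls (nat_lit 2) (nat_lit 4)))) (T.ts (nat_lit 2) (T.ls (nat_lit 2) (nat_lit 4)) (T.sk (T.ls (nat_lit 2) (nat_lit 4)))))) (T.ts (nat_lit 0) (T.ls (nat_lit 2) (nat_lit 4)) (T.ts (nat_lit 2) (T.im (nat_lit 7) (nat_lit 2)) (T.nw (T.ts (nat_lit 4) (T.ts (nat_lit 3) (T.ts (nat_lit 2) (T.ts (nat_lit 2) (T.ts (nat_lit 3) (T.ts (nat_lit 1) (T.ts (nat_lit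 4) (T.ts (nat_lit 3) (T.lf (nat_lit 16569) (nat_lit 2) (nat_lit 20500) (nat_lit 3) (nat_lit 12300)) (T.tp (T.sk (T.ls (nat_lit 2) (nat_lit 4))))) (T.tp (T.sk (T.ls (nat_lit 2) (nat_lit 4))))) (T.tp (T.sk (T.ls (nat_lit 2) (nat_lit 4))))) (T.tp (T.sk (T.ls (nat_lit 2) (nat_lit 4))))) (T.tp (T.sk (T.ls (nat_lit 2) (nat_lit 4))))) (T.tp (T.sk (T.ls (nat_lit 2) (nat_lit 4))))) (T.tp (T.sk (T.ls (nat_lit 2) (nat_lit 4))))) (T.tp (T.sk (T.ls (nat_lit 2) (nat_lit 4))))))))))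
def d687 : T := (T.ts (nat_lit 1) (T.ts (nat_lit 3) (T.ts (nat_lit 2) (T.ts (nat_lit 1) (T.ts (nat_lit 1) (T.ts (nat_lit 2) (T.ts (nat_lit 0) (T.ts (nat_lit 3) (T.ts (nat_lit 2) (T.lf (nat_lit 16569) (nat_lit 3) (nat_lit 12300) (nat_lit 4) (nat_lit 20500)) (T.tp (T.sk (T.ls (nat_lit 2) (nat_lit 4))))) (T.tp (T.sk (T.ls (nat_lit 2) (nat_lit 4))))) (T.tp (T.sk (T.ls (nat_lit 2) (nat_lit 4))))) (T.tp (T.sk (T.ls (nat_lit 2) (nat_lit 4))))) (T.tp (T.sk (T.ls (nat_lit 2) (nat_lit 4))))) (T.tp (T.sk (T.ls (nat_lit 2) (nat_lit 4))))) (T.tp (T.sk (T.ls (nat_lit 2) (nat_lit 4))))) (T.tp (T.sk (T.ls (nat_lit 2) (nat_lit 4))))) (T.ts (nat_lit 0) (T.ls (nat_lit 2) (nat_lit 4)) (T.ts (nat_lit 3) (T.im (nat_lit 5) (nat_lit 3)) (T.ts (nat_lit 2) (T.im (nat_lit 7) (nat_lit 2)) (T.nw (T.ts (nat_lit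 4) (T.ts (nat_lit 3) (T.ts (nat_lit 2) (T.ts (nat_lit 2) (T.ts (nat_lit 3) (T.ts (nat_lit 1) (T.ts (nat_lit 4) (T.ts (nat_lit 3) (T.lf (nat_lit 16569) (nat_lit 2) (nat_lit 20500) (nat_lit 3) (nat_lit 12300)) (T.tp (T.sk (T.ls (nat_lit 2) (nat_lit 4))))) (T.tp (T.sk (T.ls (nat_lit 2) (nat_lit 4))))) (T.tp (T.sk (T.ls (nat_lit 2) (nat_lit 4))))) (T.tp (T.sk (T.ls (nat_lit 2) (nat_lit 4))))) (T.tp (T.sk (T.ls (nat_lit 2) (nat_lit 4))))) (T.tp (T.sk (T.ls (nat_lit 2) (nat_lit 4))))) (T.tp (T.sk (T.ls (nat_lit 2) (nat_lit 4))))) (T.tp (T.sk (T.ls (nat_lit 2) (nat_lit 4))))))))))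
def d688 : T := (T.ts (nat_lit 2) (T.ts (nat_lit 4) (T.ts (nat_lit 3) (T.ts (nat_lit 2) (T.ts (nat_lit 2) (T.ts (nat_lit 3) (T.ts (nat_lit 1) (T.ts (nat_lit 4) (T.ts (nat_lit 3) (T.lf (nat_lit 16569) (nat_lit 3) (nat_lit 12300) (nat_lit 4) (nat_lit 20500)) (T.tp (T.sk (T.ls (nat_lit 2) (nat_lit 4))))) (T.tp (T.sk (T.ls (nat_lit 2) (nat_lit 4))))) (T.tp (T.sk (T.ls (nat_lit 2) (nat_lit 4))))) (T.tp (T.sk (T.ls (nat_lit 2) (nat_lit 4))))) (T.tp (T.sk (T.ls (nat_lit 2) (nat_lit 4))))) (T.tp (T.sk (T.ls (nat_lit 2) (nat_lit 4))))) (T.tp (T.sk (T.ls (nat_lit 2) (nat_lit 4))))) (T.tp (T.sk (T.ls (nat_lit 2) (nat_lit 4))))) (T.ts (nat_lit 1) (T.ls (nat_lit 2) (nat_lit 4)) (T.ts (nat_lit 0) (T.ts (nat_lit 4) (T.ts (nat_lit 3) (T.ts (nat_lit 2) (T.ts (nat_lit 2) (T.ts (nat_lit 3) (T.ts (nat_lit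 1) (T.ts (nat_lit 4) (T.ts (nat_lit 3) (T.lf (nat_lit 16569) (nat_lit 2) (nat_lit 20500) (nat_lit 3) (nat_lit 12300)) (T.tp (T.sk (T.ls (nat_lit 2) (nat_lit 4))))) (T.tp (T.sk (T.ls (nat_lit 2) (nat_lit 4))))) (T.tp (T.sk (T.ls (nat_lit 2) (nat_lit 4))))) (T.tp (T.sk (T.ls (nat_lit 2) (nat_lit 4))))) (T.tp (T.sk (T.ls (nat_lit 2) (nat_lit 4))))) (T.tp (T.sk (T.ls (nat_lit 2) (nat_lit 4))))) (T.tp (T.sk (T.ls (nat_lit 2) (nat_lit 4))))) (T.tp (T.sk (T.ls (nat_lit 2) (nat_lit 4))))) (T.tp (T.ts (nat_lit 3) (T.im (nat_lit 7) (nat_lit 2)) T.ie)))))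
def d689 : T := (T.ts (nat_lit 1) (T.ts (nat_lit 3) (T.ts (nat_lit 3) (T.ls (nat_lit 2) (nat_lit 3)) (T.ts (nat_lit 2) (T.ls (nat_lit 3) (nat_lit 4)) (T.ts (nat_lit 0) (T.ls (nat_lit 2) (nat_lit 4)) (T.ts (nat_lit 1) (T.im (nat_lit 7) (nat_lit 2)) (T.nw (T.ls (nat_lit 2) (nat_lit 3))))))) (T.ts (nat_lit 2) (T.ts (nat_lit 3) (T.ls (nat_lit 2) (nat_lit 3)) (T.ts (nat_lit 2) (T.ls (nat_lit 2) (nat_lit 3)) (T.ts (nat_lit 1) (T.im (nat_lit 7) (nat_lit 2)) (T.ts (nat_lit 0) (T.im (nat_lit 3) (nat_lit 4)) (T.nw (T.ls (nat_lit 2) (nat_lit 3))))))) (T.ts (nat_lit 0) (T.ts (nat_lit 2) (T.ls (nat_lit 2) (nat_lit 3)) (T.ts (nat_lit 0) (T.ls (nat_lit 2) (nat_lit 4)) (T.ts (nat_lit 3) (T.im (nat_lit 5) (nat_lit 3)) (T.ts (nat_lit 1) (T.im (nat_lit 7) (nat_lit 2)) (T.nw (T.ls (nat_lit 2) (nat_lit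 3))))))) (T.ts (nat_lit 1) (T.im (nat_lit 7) (nat_lit 1)) (T.nw (T.ts (nat_lit 4) (T.ls (nat_lit 2) (nat_lit 3)) (T.ts (nat_lit 3) (T.ls (nat_lit 2) (nat_lit 3)) (T.ts (nat_lit 1) (T.ls (nat_lit 2) (nat_lit 4)) (T.ts (nat_lit 0) (T.ls (nat_lit 2) (nat_lit 3)) (T.ts (nat_lit 2) (T.im (nat_lit 7) (nat_lit 2)) T.ie)))))))))) (T.ts (nat_lit 0) (T.im (nat_lit 5) (nat_lit 2)) (T.nw (T.ts (nat_lit 4) (T.ts (nat_lit 4) (T.ls (nat_lit 2) (nat_lit 3)) (T.ts (nat_lit 3) (T.ls (nat_lit 2) (nat_lit 3)) (T.ts (nat_lit 2) (T.ls (nat_lit 3) (nat_lit 4)) (T.ts (nat_lit 1) (T.ls (nat_lit 2) (nat_lit 4)) (T.ts (nat_lit 0) (T.im (nat_lit 7) (nat_lit 2)) T.ie))))) (T.ts (nat_lit 3) (T.ts (nat_lit 4) (T.ls (nat_lit 2) (nat_lit 3)) (T.ts (nat_lit 3) (T.ls (nat_lit 2) (nat_lit 3)) (T.ts (nat_lit 2) (T.ls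 (nat_lit 3) (nat_lit 4)) (T.ts (nat_lit 1) (T.ls (nat_lit 2) (nat_lit 4)) (T.ts (nat_lit 0) (T.im (nat_lit 7) (nat_lit 2)) T.ie))))) (T.ts (nat_lit 2) (T.ts (nat_lit 4) (T.ls (nat_lit 3) (nat_lit 4)) (T.ts (nat_lit 3) (T.ls (nat_lit 2) (nat_lit 3)) (T.ts (nat_lit 2) (T.ls (nat_lit 3) (nat_lit 4)) (T.ts (nat_lit 1) (T.ls (nat_lit 2) (nat_lit 4)) (T.ts (nat_lit 0) (T.im (nat_lit 7) (nat_lit 2)) T.ie))))) (T.ts (nat_lit 1) (T.ts (nat_lit 3) (T.ls (nat_lit 2) (nat_lit 3)) (T.ts (nat_lit 2) (T.ls (nat_lit 3) (nat_lit 4)) (T.ts (nat_lit 1) (T.ls (nat_lit 2) (nat_lit 4)) (T.ts (nat_lit 4) (T.im (nat_lit 5) (nat_lit 3)) (T.ts (nat_lit 0) (T.im (nat_lit 7) (nat_lit 2)) T.ie))))) (T.ts (nat_lit 0) (T.im (nat_lit 7) (nat_lit 1)) T.ie))))))))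
def d690 : T := (T.ts (nat_lit 3) (T.tp (T.ts (nat_lit 2) (T.ts (nat_lit 2) (T.ls (nat_lit 2) (nat_lit 3)) (T.ts (nat_lit 1) (T.ls (nat_lit 3) (nat_lit 4)) (T.ts (nat_lit 0) (T.ls (nat_lit 2) (nat_lit 4)) (T.ts (nat_lit 3) (T.im (nat_lit 7) (nat_lit 2)) (T.nw (T.ls (nat_lit 2) (nat_lit 3))))))) (T.ts (nat_lit 1) (T.ts (nat_lit 2) (T.ls (nat_lit 2) (nat_lit 3)) (T.ts (nat_lit 1) (T.ls (nat_lit 3) (nat_lit 4)) (T.ts (nat_lit 0) (T.ls (nat_lit 2) (nat_lit 4)) (T.ts (nat_lit 3) (T.im (nat_lit 7) (nat_lit 2)) (T.nw (T.ls (nat_lit 2) (nat_lit 3))))))) (T.ts (nat_lit 0) (T.ts (nat_lit 2) (T.ls (nat_lit 2) (nat_lit 3)) (T.ts (nat_lit 1) (T.ls (nat_lit 3) (nat_lit 4)) (T.ts (nat_lit 0) (T.ls (nat_lit 2) (nat_lit 4)) (T.ts (nat_lit 3) (T.im (nat_lit 5) (nat_lit 3)) (T.nw (T.ls (nat_lit 2) (nat_lit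 3))))))) (T.ts (nat_lit 3) (T.im (nat_lit 7) (nat_lit 1)) (T.nw (T.ts (nat_lit 3) (T.ls (nat_lit 2) (nat_lit 3)) (T.ts (nat_lit 2) (T.ls (nat_lit 3) (nat_lit 4)) (T.ts (nat_lit 1) (T.ls (nat_lit 2) (nat_lit 4)) (T.ts (nat_lit 0) (T.ls (nat_lit 2) (nat_lit 3)) (T.ts (nat_lit 4) (T.im (nat_lit 7) (nat_lit 2)) T.ie))))))))))) (T.ts (nat_lit 2) (T.ts (nat_lit 3) (T.ts (nat_lit 3) (T.ls (nat_lit 2) (nat_lit 4)) d685) (T.ts (nat_lit 1) d686 (T.ts (nat_lit 0) d687 (T.ts (nat_lit 2) (T.im (nat_lit 7) (nat_lit 1)) (T.nw (T.ts (nat_lit 4) (T.tp (T.ts (nat_lit 3) (T.ts (nat_lit 2) (T.ts (nat_lit 2) (T.im (nat_lit 11) (nat_lit 1)) (T.sk (T.ls (nat_lit 2) (nat_lit 4)))) (T.sk (T.ls (nat_lit 2) (nat_lit 4)))) (T.sk (T.ls (nat_lit 2) (nat_lit 4))))) d688)))))) (T.tp d689)))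
def d691 : T := (T.ts (nat_lit 1) (T.ts (nat_lit 3) (T.ts (nat_lit 3) (T.ls (nat_lit 2) (nat_lit 3)) (T.ts (nat_lit 2) (T.ls (nat_lit 3) (nat_lit 4)) (T.ts (nat_lit 0) (T.ls (nat_lit 2) (nat_lit 4)) (T.ts (nat_lit 1) (T.im (nat_lit 7) (nat_lit 2)) (T.nw (T.ls (nat_lit 2) (nat_lit 3))))))) (T.ts (nat_lit 2) (T.ts (nat_lit 3) (T.ls (nat_lit 2) (nat_lit 3)) (T.ts (nat_lit 2) (T.ls (nat_lit 2) (nat_lit 3)) (T.ts (nat_lit 1) (T.im (nat_lit 7) (nat_lit 2)) (T.ts (nat_lit 0) (T.im (nat_lit 3) (nat_lit 4)) (T.nw (T.ls (nat_lit 2) (nat_lit 3))))))) (T.ts (nat_lit 0) (T.ts (nat_lit 3) (T.ls (nat_lit 2) (nat_lit 4)) (T.ts (nat_lit 0) (T.ls (nat_lit 2) (nat_lit 4)) (T.ts (nat_lit 2) (T.im (nat_lit 5) (nat_lit 3)) (T.ts (nat_lit 1) (T.im (nat_lit 7) (nat_lit 2)) (T.nw (T.ls (nat_lit 2) (nat_lit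 3))))))) (T.ts (nat_lit 1) (T.im (nat_lit 7) (nat_lit 1)) (T.nw (T.ts (nat_lit 4) (T.ls (nat_lit 2) (nat_lit 3)) (T.ts (nat_lit 3) (T.ls (nat_lit 2) (nat_lit 3)) (T.ts (nat_lit 1) (T.ls (nat_lit 2) (nat_lit 4)) (T.ts (nat_lit 0) (T.ls (nat_lit 2) (nat_lit 3)) (T.ts (nat_lit 2) (T.im (nat_lit 7) (nat_lit 2)) T.ie)))))))))) (T.ts (nat_lit 0) (T.im (nat_lit 5) (nat_lit 2)) (T.nw (T.ts (nat_lit 4) (T.ts (nat_lit 4) (T.ls (nat_lit 2) (nat_lit 3)) (T.ts (nat_lit 3) (T.ls (nat_lit 2) (nat_lit 3)) (T.ts (nat_lit 2) (T.ls (nat_lit 3) (nat_lit 4)) (T.ts (nat_lit 1) (T.ls (nat_lit 2) (nat_lit 4)) (T.ts (nat_lit 0) (T.im (nat_lit 7) (nat_lit 2)) T.ie))))) (T.ts (nat_lit 3) (T.ts (nat_lit 4) (T.ls (nat_lit 2) (nat_lit 3)) (T.ts (nat_lit 3) (T.ls (nat_lit 2) (nat_lit 3)) (T.ts (nat_lit 2) (T.ls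 (nat_lit 3) (nat_lit 4)) (T.ts (nat_lit 1) (T.ls (nat_lit 2) (nat_lit 4)) (T.ts (nat_lit 0) (T.im (nat_lit 7) (nat_lit 2)) T.ie))))) (T.ts (nat_lit 2) (T.ts (nat_lit 4) (T.ls (nat_lit 3) (nat_lit 4)) (T.ts (nat_lit 3) (T.ls (nat_lit 2) (nat_lit 3)) (T.ts (nat_lit 2) (T.ls (nat_lit 3) (nat_lit 4)) (T.ts (nat_lit 1) (T.ls (nat_lit 2) (nat_lit 4)) (T.ts (nat_lit 0) (T.im (nat_lit 7) (nat_lit 2)) T.ie))))) (T.ts (nat_lit 1) (T.ts (nat_lit 4) (T.ls (nat_lit 2) (nat_lit 4)) (T.ts (nat_lit 2) (T.ls (nat_lit 3) (nat_lit 4)) (T.ts (nat_lit 1) (T.ls (nat_lit 2) (nat_lit 4)) (T.ts (nat_lit 3) (T.im (nat_lit 5) (nat_lit 3)) (T.ts (nat_lit 0) (T.im (nat_lit 7) (nat_lit 2)) T.ie))))) (T.ts (nat_lit 0) (T.im (nat_lit 7) (nat_lit 1)) T.ie))))))))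
def d692 : T := (T.ts (nat_lit 3) (T.ts (nat_lit 2) (T.ts (nat_lit 2) (T.ls (nat_lit 2) (nat_lit 3)) (T.ts (nat_lit 1) (T.ls (nat_lit 3) (nat_lit 4)) (T.ts (nat_lit 0) (T.ls (nat_lit 2) (nat_lit 4)) (T.ts (nat_lit 3) (T.im (nat_lit 7) (nat_lit 2)) (T.nw (T.ls (nat_lit 2) (nat_lit 3))))))) (T.ts (nat_lit 1) (T.ts (nat_lit 2) (T.ls (nat_lit 2) (nat_lit 3)) (T.ts (nat_lit 1) (T.ls (nat_lit 3) (nat_lit 4)) (T.ts (nat_lit 0) (T.ls (nat_lit 2) (nat_lit 4)) (T.ts (nat_lit 3) (T.im (nat_lit 7) (nat_lit 2)) (T.nw (T.ls (nat_lit 2) (nat_lit 3))))))) (T.ts (nat_lit 0) (T.ts (nat_lit 1) (T.ls (nat_lit 3) (nat_lit 4)) (T.ts (nat_lit 0) (T.ls (nat_lit 2) (nat_lit 4)) (T.ts (nat_lit 3) (T.im (nat_lit 7) (nat_lit 2)) (T.ts (nat_lit 2) (T.im (nat_lit 5) (nat_lit 3)) (T.nw (T.ls (nat_lit 2) (nat_lit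 3))))))) (T.ts (nat_lit 3) (T.im (nat_lit 7) (nat_lit 1)) (T.nw (T.ts (nat_lit 3) (T.ls (nat_lit 2) (nat_lit 3)) (T.ts (nat_lit 2) (T.ls (nat_lit 3) (nat_lit 4)) (T.ts (nat_lit 1) (T.ls (nat_lit 2) (nat_lit 4)) (T.ts (nat_lit 0) (T.ls (nat_lit 2) (nat_lit 3)) (T.ts (nat_lit 4) (T.im (nat_lit 7) (nat_lit 2)) T.ie)))))))))) (T.ts (nat_lit 2) (T.ts (nat_lit 3) (T.ts (nat_lit 3) (T.ls (nat_lit 2) (nat_lit 3)) (T.ts (nat_lit 1) (T.ls (nat_lit 3) (nat_lit 4)) (T.ts (nat_lit 0) (T.ls (nat_lit 2) (nat_lit 4)) (T.ts (nat_lit 2) (T.im (nat_lit 7) (nat_lit 2)) (T.nw (T.ls (nat_lit 2) (nat_lit 3))))))) (T.ts (nat_lit 1) (T.ts (nat_lit 3) (T.ls (nat_lit 3) (nat_lit 4)) (T.ts (nat_lit 1) (T.ls (nat_lit 3) (nat_lit 4)) (T.ts (nat_lit 0) (T.ls (nat_lit 2) (nat_lit 4)) (T.ts (nat_lit 2) (T.im (nat_lit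 7) (nat_lit 2)) (T.nw (T.ls (nat_lit 2) (nat_lit 3))))))) (T.ts (nat_lit 0) (T.ts (nat_lit 3) (T.ls (nat_lit 2) (nat_lit 4)) (T.ts (nat_lit 1) (T.ls (nat_lit 3) (nat_lit 4)) (T.ts (nat_lit 0) (T.ls (nat_lit 2) (nat_lit 4)) (T.ts (nat_lit 2) (T.im (nat_lit 5) (nat_lit 3)) (T.nw (T.ls (nat_lit 2) (nat_lit 3))))))) (T.ts (nat_lit 2) (T.im (nat_lit 7) (nat_lit 1)) (T.nw (T.ts (nat_lit 4) (T.ls (nat_lit 2) (nat_lit 3)) (T.ts (nat_lit 2) (T.ls (nat_lit 3) (nat_lit 4)) (T.ts (nat_lit 1) (T.ls (nat_lit 2) (nat_lit 4)) (T.ts (nat_lit 0) (T.ls (nat_lit 2) (nat_lit 3)) (T.ts (nat_lit 3) (T.im (nat_lit 7) (nat_lit 2)) T.ie)))))))))) d691))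
def d693 : T := (T.ts (nat_lit 1) (T.ts (nat_lit 3) (T.ts (nat_lit 3) (T.ls (nat_lit 2) (nat_lit 3)) (T.ts (nat_lit 2) (T.ls (nat_lit 3) (nat_lit 4)) (T.ts (nat_lit 0) (T.ls (nat_lit 2) (nat_lit 4)) (T.ts (nat_lit 1) (T.im (nat_lit 7) (nat_lit 2)) (T.nw (T.ls (nat_lit 2) (nat_lit 3))))))) (T.ts (nat_lit 2) (T.ts (nat_lit 3) (T.ls (nat_lit 2) (nat_lit 3)) (T.ts (nat_lit 2) (T.ls (nat_lit 2) (nat_lit 3)) (T.ts (nat_lit 1) (T.im (nat_lit 7) (nat_lit 2)) (T.ts (nat_lit 0) (T.im (nat_lit 3) (nat_lit 4)) (T.nw (T.ls (nat_lit 2) (nat_lit 3))))))) (T.ts (nat_lit 0) (T.ts (nat_lit 3) (T.ls (nat_lit 2) (nat_lit 4)) (T.ts (nat_lit 2) (T.ls (nat_lit 2) (nat_lit 3)) (T.ts (nat_lit 0) (T.ls (nat_lit 2) (nat_lit 4)) (T.ts (nat_lit 1) (T.im (nat_lit 5) (nat_lit 3)) (T.nw (T.ls (nat_lit 2) (nat_lit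 3))))))) (T.ts (nat_lit 1) (T.im (nat_lit 7) (nat_lit 1)) (T.nw (T.ts (nat_lit 4) (T.ls (nat_lit 2) (nat_lit 3)) (T.ts (nat_lit 3) (T.ls (nat_lit 2) (nat_lit 3)) (T.ts (nat_lit 1) (T.ls (nat_lit 2) (nat_lit 4)) (T.ts (nat_lit 0) (T.ls (nat_lit 2) (nat_lit 3)) (T.ts (nat_lit 2) (T.im (nat_lit 7) (nat_lit 2)) T.ie)))))))))) (T.ts (nat_lit 2) (T.im (nat_lit 3) (nat_lit 3)) (T.ts (nat_lit 0) (T.im (nat_lit 5) (nat_lit 2)) (T.nw (T.ts (nat_lit 4) (T.ts (nat_lit 4) (T.ls (nat_lit 2) (nat_lit 3)) (T.ts (nat_lit 3) (T.ls (nat_lit 2) (nat_lit 3)) (T.ts (nat_lit 2) (T.ls (nat_lit 3) (nat_lit 4)) (T.ts (nat_lit 1) (T.ls (nat_lit 2) (nat_lit 4)) (T.ts (nat_lit 0) (T.im (nat_lit 7) (nat_lit 2)) T.ie))))) (T.ts (nat_lit 3) (T.ts (nat_lit 4) (T.ls (nat_lit 2) (nat_lit 3)) (T.ts (nat_lit 3) (T.ls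 (nat_lit 2) (nat_lit 3)) (T.ts (nat_lit 2) (T.ls (nat_lit 3) (nat_lit 4)) (T.ts (nat_lit 1) (T.ls (nat_lit 2) (nat_lit 4)) (T.ts (nat_lit 0) (T.im (nat_lit 7) (nat_lit 2)) T.ie))))) (T.ts (nat_lit 2) (T.ts (nat_lit 4) (T.ls (nat_lit 3) (nat_lit 4)) (T.ts (nat_lit 3) (T.ls (nat_lit 2) (nat_lit 3)) (T.ts (nat_lit 2) (T.ls (nat_lit 3) (nat_lit 4)) (T.ts (nat_lit 1) (T.ls (nat_lit 2) (nat_lit 4)) (T.ts (nat_lit 0) (T.im (nat_lit 7) (nat_lit 2)) T.ie))))) (T.ts (nat_lit 1) (T.ts (nat_lit 4) (T.ls (nat_lit 2) (nat_lit 4)) (T.ts (nat_lit 3) (T.ls (nat_lit 2) (nat_lit 3)) (T.ts (nat_lit 1) (T.ls (nat_lit 2) (nat_lit 4)) (T.ts (nat_lit 2) (T.im (nat_lit 5) (nat_lit 3)) (T.ts (nat_lit 0) (T.im (nat_lit 7) (nat_lit 2)) T.ie))))) (T.ts (nat_lit 0) (T.im (nat_lit 7) (nat_lit 1)) T.ie)))))))))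
def d694 : T := (T.ts (nat_lit 2) (T.ts (nat_lit 4) (T.ts (nat_lit 4) (T.ls (nat_lit 2) (nat_lit 3)) (T.ts (nat_lit 3) (T.ls (nat_lit 3) (nat_lit 4)) (T.ts (nat_lit 1) (T.ls (nat_lit 2) (nat_lit 4)) (T.ts (nat_lit 0) (T.ls (nat_lit 2) (nat_lit 3)) (T.ts (nat_lit 2) (T.im (nat_lit 7) (nat_lit 2)) T.ie))))) (T.ts (nat_lit 3) (T.ts (nat_lit 4) (T.ls (nat_lit 2) (nat_lit 3)) (T.ts (nat_lit 3) (T.ls (nat_lit 2) (nat_lit 3)) (T.ts (nat_lit 0) (T.ls (nat_lit 2) (nat_lit 3)) (T.ts (nat_lit 2) (T.im (nat_lit 7) (nat_lit 2)) (T.ts (nat_lit 1) (T.im (nat_lit 3) (nat_lit 4)) T.ie))))) (T.ts (nat_lit 1) (T.ts (nat_lit 4) (T.ls (nat_lit 2) (nat_lit 4)) (T.ts (nat_lit 3) (T.ls (nat_lit 2) (nat_lit 3)) (T.ts (nat_lit 1) (T.ls (nat_lit 2) (nat_lit 4)) (T.ts (nat_lit 2) (T.im (nat_lit 7) (nat_lit 2))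 (T.ts (nat_lit 0) (T.im (nat_lit 5) (nat_lit 3)) T.ie))))) (T.ts (nat_lit 0) (T.ts (nat_lit 4) (T.ls (nat_lit 2) (nat_lit 3)) (T.ts (nat_lit 3) (T.ls (nat_lit 2) (nat_lit 3)) (T.ts (nat_lit 1) (T.ls (nat_lit 2) (nat_lit 4)) (T.ts (nat_lit 0) (T.ls (nat_lit 2) (nat_lit 3)) (T.ts (nat_lit 2) (T.im (nat_lit 7) (nat_lit 2)) T.ie))))) (T.ts (nat_lit 2) (T.im (nat_lit 7) (nat_lit 1)) T.ie))))) (T.ts (nat_lit 0) (T.ts (nat_lit 4) (T.ts (nat_lit 4) (T.ls (nat_lit 2) (nat_lit 3)) (T.ts (nat_lit 3) (T.ls (nat_lit 2) (nat_lit 3)) (T.ts (nat_lit 2) (T.ls (nat_lit 3) (nat_lit 4)) (T.ts (nat_lit 1) (T.ls (nat_lit 2) (nat_lit 4)) (T.ts (nat_lit 0) (T.im (nat_lit 7) (nat_lit 2)) T.ie))))) (T.ts (nat_lit 3) (T.ts (nat_lit 4) (T.ls (nat_lit 2) (nat_lit 3)) (T.ts (nat_lit 3) (T.ls (nat_lit 2) (nat_lit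 3)) (T.ts (nat_lit 2) (T.ls (nat_lit 3) (nat_lit 4)) (T.ts (nat_lit 1) (T.ls (nat_lit 2) (nat_lit 4)) (T.ts (nat_lit 0) (T.im (nat_lit 7) (nat_lit 2)) T.ie))))) (T.ts (nat_lit 2) (T.ts (nat_lit 4) (T.ls (nat_lit 3) (nat_lit 4)) (T.ts (nat_lit 3) (T.ls (nat_lit 2) (nat_lit 3)) (T.ts (nat_lit 2) (T.ls (nat_lit 3) (nat_lit 4)) (T.ts (nat_lit 1) (T.ls (nat_lit 2) (nat_lit 4)) (T.ts (nat_lit 0) (T.im (nat_lit 7) (nat_lit 2)) T.ie))))) (T.ts (nat_lit 1) (T.ts (nat_lit 4) (T.ls (nat_lit 2) (nat_lit 4)) (T.ts (nat_lit 3) (T.ls (nat_lit 2) (nat_lit 3)) (T.ts (nat_lit 2) (T.ls (nat_lit 3) (nat_lit 4)) (T.ts (nat_lit 1) (T.ls (nat_lit 2) (nat_lit 4)) (T.ts (nat_lit 0) (T.im (nat_lit 5) (nat_lit 3)) T.ie))))) (T.ts (nat_lit 0) (T.im (nat_lit 7) (nat_lit 1)) T.ie))))) (T.ts (nat_lit 1) (T.im (nat_lit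 5) (nat_lit 2)) T.ie)))
def d695 : T := (T.ts (nat_lit 4) (T.ts (nat_lit 3) (T.ts (nat_lit 3) (T.ls (nat_lit 2) (nat_lit 3)) (T.ts (nat_lit 2) (T.ts (nat_lit 4) (T.ls (nat_lit 3) (nat_lit 4)) (T.ts (nat_lit 2) (T.im (nat_lit 9) (nat_lit 1)) (T.sk (T.ls (nat_lit 2) (nat_lit 3))))) (T.ts (nat_lit 1) (T.ls (nat_lit 2) (nat_lit 4)) (T.ts (nat_lit 0) (T.ls (nat_lit 2) (nat_lit 3)) (T.ts (nat_lit 4) (T.im (nat_lit 7) (nat_lit 2)) T.ie))))) (T.ts (nat_lit 2) (T.ts (nat_lit 3) (T.ls (nat_lit 2) (nat_lit 3)) (T.ts (nat_lit 2) (T.ls (nat_lit 3) (nat_lit 4)) (T.ts (nat_lit 1) (T.ls (nat_lit 2) (nat_lit 4)) (T.ts (nat_lit 0) (T.ls (nat_lit 2) (nat_lit 3)) (T.ts (nat_lit 4) (T.im (nat_lit 7) (nat_lit 2)) T.ie))))) (T.ts (nat_lit 1) (T.ts (nat_lit 3) (T.ls (nat_lit 2) (nat_lit 3)) (T.ts (nat_lit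 2) (T.ls (nat_lit 3) (nat_lit 4)) (T.ts (nat_lit 1) (T.ls (nat_lit 2) (nat_lit 4)) (T.ts (nat_lit 4) (T.im (nat_lit 7) (nat_lit 2)) (T.ts (nat_lit 0) (T.im (nat_lit 5) (nat_lit 3)) T.ie))))) (T.ts (nat_lit 0) (T.ts (nat_lit 3) (T.ls (nat_lit 2) (nat_lit 3)) (T.ts (nat_lit 2) (T.ls (nat_lit 3) (nat_lit 4)) (T.ts (nat_lit 1) (T.ls (nat_lit 2) (nat_lit 4)) (T.ts (nat_lit 0) (T.ls (nat_lit 2) (nat_lit 3)) (T.ts (nat_lit 4) (T.im (nat_lit 7) (nat_lit 2)) T.ie))))) (T.ts (nat_lit 4) (T.im (nat_lit 7) (nat_lit 1)) T.ie))))) (T.ts (nat_lit 3) (T.ts (nat_lit 4) (T.ts (nat_lit 4) (T.ls (nat_lit 2) (nat_lit 3)) (T.ts (nat_lit 2) (T.ls (nat_lit 3) (nat_lit 4)) (T.ts (nat_lit 1) (T.ls (nat_lit 2) (nat_lit 4)) (T.ts (nat_lit 0) (T.ls (nat_lit 2) (nat_lit 3)) (T.ts (nat_lit 3) (T.im (nat_lit 7)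 (nat_lit 2)) T.ie))))) (T.ts (nat_lit 2) (T.ts (nat_lit 4) (T.ls (nat_lit 3) (nat_lit 4)) (T.ts (nat_lit 2) (T.ls (nat_lit 3) (nat_lit 4)) (T.ts (nat_lit 1) (T.ls (nat_lit 2) (nat_lit 4)) (T.ts (nat_lit 0) (T.ls (nat_lit 2) (nat_lit 3)) (T.ts (nat_lit 3) (T.im (nat_lit 7) (nat_lit 2)) T.ie))))) (T.ts (nat_lit 1) (T.ts (nat_lit 4) (T.ls (nat_lit 2) (nat_lit 4)) (T.ts (nat_lit 2) (T.ls (nat_lit 3) (nat_lit 4)) (T.ts (nat_lit 1) (T.ls (nat_lit 2) (nat_lit 4)) (T.ts (nat_lit 3) (T.im (nat_lit 7) (nat_lit 2)) (T.ts (nat_lit 0) (T.im (nat_lit 5) (nat_lit 3)) T.ie))))) (T.ts (nat_lit 0) (T.ts (nat_lit 4) (T.ls (nat_lit 2) (nat_lit 3)) (T.ts (nat_lit 2) (T.ls (nat_lit 3) (nat_lit 4)) (T.ts (nat_lit 1) (T.ls (nat_lit 2) (nat_lit 4)) (T.ts (nat_lit 0) (T.ls (nat_lit 2) (nat_lit 3)) (T.ts (nat_lit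 3) (T.im (nat_lit 7) (nat_lit 2)) T.ie))))) (T.ts (nat_lit 3) (T.im (nat_lit 7) (nat_lit 1)) T.ie))))) d694))
def d696 : T := (T.ts (nat_lit 0) (T.im (nat_lit 1) (nat_lit 3)) (T.nw (T.ts (nat_lit 3) d690 (T.tp (T.ts (nat_lit 2) d692 (T.ts (nat_lit 1) (T.ts (nat_lit 3) (T.ts (nat_lit 2) (T.ts (nat_lit 2) (T.ls (nat_lit 2) (nat_lit 3)) (T.ts (nat_lit 1) (T.ls (nat_lit 3) (nat_lit 4)) (T.ts (nat_lit 0) (T.ls (nat_lit 2) (nat_lit 4)) (T.ts (nat_lit 3) (T.im (nat_lit 7) (nat_lit 2)) (T.nw (T.ls (nat_lit 2) (nat_lit 3))))))) (T.ts (nat_lit 1) (T.ts (nat_lit 2) (T.ls (nat_lit 2) (nat_lit 3)) (T.ts (nat_lit 1) (T.ls (nat_lit 3) (nat_lit 4)) (T.ts (nat_lit 0) (T.ls (nat_lit 2) (nat_lit 4)) (T.ts (nat_lit 3) (T.im (nat_lit 7) (nat_lit 2)) (T.nw (T.ls (nat_lit 2) (nat_lit 3))))))) (T.ts (nat_lit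 0) (T.ts (nat_lit 2) (T.ls (nat_lit 2) (nat_lit 3)) (T.ts (nat_lit 0) (T.ls (nat_lit 2) (nat_lit 4)) (T.ts (nat_lit 3) (T.im (nat_lit 7) (nat_lit 2)) (T.ts (nat_lit 1) (T.im (nat_lit 5) (nat_lit 3)) (T.nw (T.ls (nat_lit 2) (nat_lit 3))))))) (T.ts (nat_lit 3) (T.im (nat_lit 7) (nat_lit 1)) (T.nw (T.ts (nat_lit 3) (T.ls (nat_lit 2) (nat_lit 3)) (T.ts (nat_lit 2) (T.ls (nat_lit 3) (nat_lit 4)) (T.ts (nat_lit 1) (T.ls (nat_lit 2) (nat_lit 4)) (T.ts (nat_lit 0) (T.ls (nat_lit 2) (nat_lit 3)) (T.ts (nat_lit 4) (T.im (nat_lit 7) (nat_lit 2)) T.ie)))))))))) d693) (T.ts (nat_lit 0) (T.im (nat_lit 5) (nat_lit 1)) (T.nw d695))))))))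
def d697 : T := (T.im (nat_lit 3) (nat_lit 1))
def d698 : T := (T.ts (nat_lit 0) (T.ts (nat_lit 2) (T.ls (nat_lit 2) (nat_lit 4)) (T.ts (nat_lit 0) (T.ls (nat_lit 2) (nat_lit 4)) (T.ts (nat_lit 3) (T.im (nat_lit 3) (nat_lit 4)) (T.ts (nat_lit 1) (T.im (nat_lit 7) (nat_lit 2)) (T.nw (T.ts (nat_lit 4) (T.ts (nat_lit 3) (T.ts (nat_lit 2) (T.ts (nat_lit 2) (T.ts (nat_lit 1) (T.ts (nat_lit 4) (T.ts (nat_lit 3) (T.ts (nat_lit 2) (T.l1 (nat_lit 12300) (nat_lit 2) (nat_lit 20500)) (T.tp (T.sk (T.ls (nat_lit 2) (nat_lit 4))))) (T.tp (T.sk (T.ls (nat_lit 2) (nat_lit 4))))) (T.tp (T.sk (T.ls (nat_lit 2) (nat_lit 4))))) (T.tp (T.sk (T.ls (nat_lit 2) (nat_lit 4))))) (T.tp (T.sk (T.ls (nat_lit 2) (nat_lit 4))))) (T.tp (T.sk (T.ls (nat_lit 2) (nat_lit 4))))) (T.tp (T.sk (T.ls (nat_lit 2) (nat_lit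 4))))) (T.tp (T.sk (T.ls (nat_lit 2) (nat_lit 4)))))))))) (T.ts (nat_lit 1) (T.im (nat_lit 7) (nat_lit 1)) (T.nw (T.ts (nat_lit 4) (T.tp (T.ts (nat_lit 3) (T.ts (nat_lit 2) (T.im (nat_lit 5) (nat_lit 4)) (T.sk (T.ls (nat_lit 2) (nat_lit 4)))) (T.sk (T.ls (nat_lit 2) (nat_lit 4))))) (T.ts (nat_lit 3) (T.ls (nat_lit 2) (nat_lit 4)) (T.ts (nat_lit 1) (T.ls (nat_lit 2) (nat_lit 4)) (T.ts (nat_lit 0) (T.ts (nat_lit 4) (T.ts (nat_lit 3) (T.ts (nat_lit 2) (T.ts (nat_lit 2) (T.ts (nat_lit 1) (T.ts (nat_lit 4) (T.ts (nat_lit 3) (T.ts (nat_lit 2) (T.l1 (nat_lit 12300) (nat_lit 2) (nat_lit 20500)) (T.tp (T.sk (T.ls (nat_lit 2) (nat_lit 4))))) (T.tp (T.sk (T.ls (nat_lit 2) (nat_lit 4))))) (T.tp (T.sk (T.ls (nat_lit 2) (nat_lit 4))))) (T.tp (T.sk (T.ls (nat_lit 2) (nat_lit 4))))) (T.tp (T.sk (T.ls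 (nat_lit 2) (nat_lit 4))))) (T.tp (T.sk (T.ls (nat_lit 2) (nat_lit 4))))) (T.tp (T.sk (T.ls (nat_lit 2) (nat_lit 4))))) (T.tp (T.sk (T.ls (nat_lit 2) (nat_lit 4))))) (T.tp (T.ts (nat_lit 2) (T.im (nat_lit 7) (nat_lit 2)) T.ie)))))))))
def d699 : T := (T.ts (nat_lit 3) (T.ts (nat_lit 3) (T.ls (nat_lit 2) (nat_lit 4)) (T.ts (nat_lit 0) (T.ls (nat_lit 2) (nat_lit 4)) (T.ts (nat_lit 2) (T.im (nat_lit 5) (nat_lit 3)) (T.ts (nat_lit 1) (T.im (nat_lit 7) (nat_lit 2)) (T.nw (T.ts (nat_lit 4) (T.ts (nat_lit 3) (T.ts (nat_lit 2) (T.ts (nat_lit 2) (T.ts (nat_lit 1) (T.ts (nat_lit 4) (T.ts (nat_lit 3) (T.ts (nat_lit 2) (T.l1 (nat_lit 12300) (nat_lit 2) (nat_lit 20500)) (T.tp (T.sk (T.ls (nat_lit 2) (nat_lit 4))))) (T.tp (T.sk (T.ls (nat_lit 2) (nat_lit 4))))) (T.tp (T.sk (T.ls (nat_lit 2) (nat_lit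 4))))) (T.tp (T.sk (T.ls (nat_lit 2) (nat_lit 4))))) (T.tp (T.sk (T.ls (nat_lit 2) (nat_lit 4))))) (T.tp (T.sk (T.ls (nat_lit 2) (nat_lit 4))))) (T.tp (T.sk (T.ls (nat_lit 2) (nat_lit 4))))) (T.tp (T.sk (T.ls (nat_lit 2) (nat_lit 4)))))))))) (T.ts (nat_lit 2) (T.ts (nat_lit 3) (T.ls (nat_lit 2) (nat_lit 4)) (T.ts (nat_lit 2) (T.ls (nat_lit 2) (nat_lit 4)) (T.ts (nat_lit 0) (T.ls (nat_lit 2) (nat_lit 4)) (T.ts (nat_lit 1) (T.im (nat_lit 7) (nat_lit 2)) (T.nw (T.ts (nat_lit 4) (T.ts (nat_lit 3) (T.ts (nat_lit 2) (T.ts (nat_lit 2) (T.ts (nat_lit 1) (T.ts (nat_lit 4) (T.ts (nat_lit 3) (T.ts (nat_lit 2) (T.l1 (nat_lit 12300) (nat_lit 2) (nat_lit 20500)) (T.sk (T.lf (nat_lit 16569) (nat_lit 2) (nat_lit 20500) (nat_lit 4) (nat_lit 12300)))) (T.sk (T.lf (nat_lit 16569) (nat_lit 2) (nat_lit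 20500) (nat_lit 4) (nat_lit 12300)))) (T.tp (T.sk (T.ls (nat_lit 2) (nat_lit 4))))) (T.tp (T.sk (T.ls (nat_lit 2) (nat_lit 4))))) (T.tp (T.sk (T.ls (nat_lit 2) (nat_lit 4))))) (T.tp (T.sk (T.ls (nat_lit 2) (nat_lit 4))))) (T.tp (T.sk (T.ls (nat_lit 2) (nat_lit 4))))) (T.tp (T.sk (T.ls (nat_lit 2) (nat_lit 4)))))))))) d698))
def d700 : T := (T.ts (nat_lit 0) (T.ts (nat_lit 3) (T.ts (nat_lit 3) (T.ls (nat_lit 2) (nat_lit 3)) (T.ts (nat_lit 1) (T.ls (nat_lit 3) (nat_lit 4)) (T.ts (nat_lit 2) (T.im (nat_lit 5) (nat_lit 3)) (T.ts (nat_lit 0) (T.im (nat_lit 7) (nat_lit 2)) (T.nw (T.ls (nat_lit 2) (nat_lit 3))))))) (T.ts (nat_lit 2) (T.ts (nat_lit 3) (T.ls (nat_lit 2) (nat_lit 3)) (T.ts (nat_lit 2) (T.ls (nat_lit 2) (nat_lit 3)) (T.ts (nat_lit 1) (T.ls (nat_lit 3) (nat_lit 4)) (T.ts (nat_lit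 0) (T.im (nat_lit 7) (nat_lit 2)) (T.nw (T.ls (nat_lit 2) (nat_lit 3))))))) (T.ts (nat_lit 1) (T.ts (nat_lit 3) (T.ls (nat_lit 3) (nat_lit 4)) (T.ts (nat_lit 2) (T.ls (nat_lit 2) (nat_lit 3)) (T.ts (nat_lit 1) (T.ls (nat_lit 3) (nat_lit 4)) (T.ts (nat_lit 0) (T.im (nat_lit 7) (nat_lit 2)) (T.nw (T.ls (nat_lit 2) (nat_lit 3))))))) (T.ts (nat_lit 0) (T.im (nat_lit 7) (nat_lit 1)) (T.nw (T.ts (nat_lit 4) (T.ls (nat_lit 2) (nat_lit 3)) (T.ts (nat_lit 3) (T.ls (nat_lit 2) (nat_lit 3)) (T.ts (nat_lit 2) (T.ls (nat_lit 3) (nat_lit 4)) (T.ts (nat_lit 0) (T.ls (nat_lit 2) (nat_lit 3)) (T.ts (nat_lit 1) (T.im (nat_lit 7) (nat_lit 2)) T.ie)))))))))) (T.ts (nat_lit 3) (T.im (nat_lit 5) (nat_lit 2)) (T.nw (T.ts (nat_lit 4) (T.ts (nat_lit 4) (T.ls (nat_lit 2) (nat_lit 3)) (T.ts (nat_lit 2) (T.ls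 (nat_lit 3) (nat_lit 4)) (T.ts (nat_lit 1) (T.ls (nat_lit 2) (nat_lit 4)) (T.ts (nat_lit 3) (T.im (nat_lit 5) (nat_lit 3)) (T.ts (nat_lit 0) (T.im (nat_lit 7) (nat_lit 2)) T.ie))))) (T.ts (nat_lit 3) (T.ts (nat_lit 4) (T.ls (nat_lit 2) (nat_lit 3)) (T.ts (nat_lit 3) (T.ls (nat_lit 2) (nat_lit 3)) (T.ts (nat_lit 2) (T.ls (nat_lit 3) (nat_lit 4)) (T.ts (nat_lit 1) (T.ls (nat_lit 2) (nat_lit 4)) (T.ts (nat_lit 0) (T.im (nat_lit 7) (nat_lit 2)) T.ie))))) (T.ts (nat_lit 2) (T.ts (nat_lit 4) (T.ls (nat_lit 3) (nat_lit 4)) (T.ts (nat_lit 3) (T.ls (nat_lit 2) (nat_lit 3)) (T.ts (nat_lit 2) (T.ls (nat_lit 3) (nat_lit 4)) (T.ts (nat_lit 1) (T.ls (nat_lit 2) (nat_lit 4)) (T.ts (nat_lit 0) (T.im (nat_lit 7) (nat_lit 2)) T.ie))))) (T.ts (nat_lit 1) (T.ts (nat_lit 4) (T.ls (nat_lit 2) (nat_lit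 4)) (T.ts (nat_lit 3) (T.ls (nat_lit 2) (nat_lit 3)) (T.ts (nat_lit 2) (T.ls (nat_lit 3) (nat_lit 4)) (T.ts (nat_lit 1) (T.ls (nat_lit 2) (nat_lit 4)) (T.ts (nat_lit 0) (T.im (nat_lit 7) (nat_lit 2)) T.ie))))) (T.ts (nat_lit 0) (T.im (nat_lit 7) (nat_lit 1)) T.ie))))))))
def d701 : T := (T.ts (nat_lit 1) (T.ts (nat_lit 3) (T.ts (nat_lit 3) (T.ls (nat_lit 2) (nat_lit 3)) (T.ts (nat_lit 2) (T.ls (nat_lit 3) (nat_lit 4)) (T.ts (nat_lit 0) (T.ls (nat_lit 2) (nat_lit 4)) (T.ts (nat_lit 1) (T.im (nat_lit 5) (nat_lit 3)) (T.nw (T.ls (nat_lit 2) (nat_lit 3))))))) (T.ts (nat_lit 2) (T.ts (nat_lit 3) (T.ls (nat_lit 2) (nat_lit 3)) (T.ts (nat_lit 2) (T.ls (nat_lit 2) (nat_lit 3)) (T.ts (nat_lit 0) (T.ls (nat_lit 2) (nat_lit 4)) (T.ts (nat_lit 1) (T.im (nat_lit 7) (nat_lit 2)) (T.nw (T.ls (nat_lit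 2) (nat_lit 3))))))) (T.ts (nat_lit 0) (T.ts (nat_lit 2) (T.ls (nat_lit 2) (nat_lit 3)) (T.ts (nat_lit 0) (T.ls (nat_lit 2) (nat_lit 4)) (T.ts (nat_lit 3) (T.im (nat_lit 3) (nat_lit 4)) (T.ts (nat_lit 1) (T.im (nat_lit 7) (nat_lit 2)) (T.nw (T.ls (nat_lit 2) (nat_lit 3))))))) (T.ts (nat_lit 1) (T.im (nat_lit 7) (nat_lit 1)) (T.nw (T.ts (nat_lit 4) (T.ls (nat_lit 2) (nat_lit 3)) (T.ts (nat_lit 3) (T.ls (nat_lit 2) (nat_lit 3)) (T.ts (nat_lit 1) (T.ls (nat_lit 2) (nat_lit 4)) (T.ts (nat_lit 0) (T.ls (nat_lit 2) (nat_lit 3)) (T.ts (nat_lit 2) (T.im (nat_lit 7) (nat_lit 2)) T.ie)))))))))) (T.ts (nat_lit 3) (T.im (nat_lit 5) (nat_lit 2)) (T.ts (nat_lit 0) (T.im (nat_lit 3) (nat_lit 3)) (T.nw (T.ts (nat_lit 4) (T.ts (nat_lit 4) (T.ls (nat_lit 2) (nat_lit 3)) (T.ts (nat_lit 3) (T.ls (nat_lit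 2) (nat_lit 3)) (T.ts (nat_lit 1) (T.ls (nat_lit 2) (nat_lit 4)) (T.ts (nat_lit 2) (T.im (nat_lit 5) (nat_lit 3)) (T.ts (nat_lit 0) (T.im (nat_lit 7) (nat_lit 2)) T.ie))))) (T.ts (nat_lit 3) (T.ts (nat_lit 4) (T.ls (nat_lit 2) (nat_lit 3)) (T.ts (nat_lit 3) (T.ls (nat_lit 2) (nat_lit 3)) (T.ts (nat_lit 2) (T.ls (nat_lit 3) (nat_lit 4)) (T.ts (nat_lit 1) (T.ls (nat_lit 2) (nat_lit 4)) (T.ts (nat_lit 0) (T.im (nat_lit 7) (nat_lit 2)) T.ie))))) (T.ts (nat_lit 2) (T.ts (nat_lit 4) (T.ls (nat_lit 3) (nat_lit 4)) (T.ts (nat_lit 3) (T.ls (nat_lit 2) (nat_lit 3)) (T.ts (nat_lit 2) (T.ls (nat_lit 3) (nat_lit 4)) (T.ts (nat_lit 1) (T.ls (nat_lit 2) (nat_lit 4)) (T.ts (nat_lit 0) (T.im (nat_lit 7) (nat_lit 2)) T.ie))))) (T.ts (nat_lit 1) (T.ts (nat_lit 4) (T.ls (nat_lit 2) (nat_lit 4)) (T.ts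 (nat_lit 3) (T.ls (nat_lit 2) (nat_lit 3)) (T.ts (nat_lit 2) (T.ls (nat_lit 3) (nat_lit 4)) (T.ts (nat_lit 1) (T.ls (nat_lit 2) (nat_lit 4)) (T.ts (nat_lit 0) (T.im (nat_lit 7) (nat_lit 2)) T.ie))))) (T.ts (nat_lit 0) (T.im (nat_lit 7) (nat_lit 1)) T.ie)))))))))
def d702 : T := (T.ts (nat_lit 0) (T.ts (nat_lit 3) (T.ts (nat_lit 3) (T.ls (nat_lit 2) (nat_lit 3)) (T.ts (nat_lit 2) (T.ls (nat_lit 2) (nat_lit 4)) (T.ts (nat_lit 1) (T.ls (nat_lit 3) (nat_lit 4)) (T.ts (nat_lit 0) (T.im (nat_lit 5) (nat_lit 3)) (T.nw (T.ls (nat_lit 2) (nat_lit 3))))))) (T.ts (nat_lit 2) (T.ts (nat_lit 3) (T.ls (nat_lit 2) (nat_lit 3)) (T.ts (nat_lit 2) (T.ls (nat_lit 2) (nat_lit 3)) (T.ts (nat_lit 1) (T.ls (nat_lit 3) (nat_lit 4)) (T.ts (nat_lit 0) (T.im (nat_lit 7) (nat_lit 2)) (T.nw (T.ls (nat_lit 2)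 (nat_lit 3))))))) (T.ts (nat_lit 1) (T.ts (nat_lit 3) (T.ls (nat_lit 3) (nat_lit 4)) (T.ts (nat_lit 2) (T.ls (nat_lit 2) (nat_lit 3)) (T.ts (nat_lit 1) (T.ls (nat_lit 3) (nat_lit 4)) (T.ts (nat_lit 0) (T.im (nat_lit 7) (nat_lit 2)) (T.nw (T.ls (nat_lit 2) (nat_lit 3))))))) (T.ts (nat_lit 0) (T.im (nat_lit 7) (nat_lit 1)) (T.nw (T.ts (nat_lit 4) (T.ls (nat_lit 2) (nat_lit 3)) (T.ts (nat_lit 3) (T.ls (nat_lit 2) (nat_lit 3)) (T.ts (nat_lit 2) (T.ls (nat_lit 3) (nat_lit 4)) (T.ts (nat_lit 0) (T.ls (nat_lit 2) (nat_lit 3)) (T.ts (nat_lit 1) (T.im (nat_lit 7) (nat_lit 2)) T.ie)))))))))) (T.ts (nat_lit 3) (T.im (nat_lit 5) (nat_lit 2)) (T.nw (T.ts (nat_lit 4) (T.ts (nat_lit 4) (T.ls (nat_lit 2) (nat_lit 3)) (T.ts (nat_lit 3) (T.ls (nat_lit 2) (nat_lit 3)) (T.ts (nat_lit 2) (T.ls (nat_lit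 3) (nat_lit 4)) (T.ts (nat_lit 1) (T.im (nat_lit 5) (nat_lit 3)) (T.ts (nat_lit 0) (T.im (nat_lit 7) (nat_lit 2)) T.ie))))) (T.ts (nat_lit 3) (T.ts (nat_lit 4) (T.ls (nat_lit 2) (nat_lit 3)) (T.ts (nat_lit 3) (T.ls (nat_lit 2) (nat_lit 3)) (T.ts (nat_lit 2) (T.ls (nat_lit 3) (nat_lit 4)) (T.ts (nat_lit 1) (T.ls (nat_lit 2) (nat_lit 4)) (T.ts (nat_lit 0) (T.im (nat_lit 7) (nat_lit 2)) T.ie))))) (T.ts (nat_lit 2) (T.ts (nat_lit 4) (T.ls (nat_lit 3) (nat_lit 4)) (T.ts (nat_lit 3) (T.ls (nat_lit 2) (nat_lit 3)) (T.ts (nat_lit 2) (T.ls (nat_lit 3) (nat_lit 4)) (T.ts (nat_lit 1) (T.ls (nat_lit 2) (nat_lit 4)) (T.ts (nat_lit 0) (T.im (nat_lit 7) (nat_lit 2)) T.ie))))) (T.ts (nat_lit 1) (T.ts (nat_lit 4) (T.ls (nat_lit 2) (nat_lit 4)) (T.ts (nat_lit 3) (T.ls (nat_lit 2) (nat_lit 3)) (T.ts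 (nat_lit 2) (T.ls (nat_lit 3) (nat_lit 4)) (T.ts (nat_lit 1) (T.ls (nat_lit 2) (nat_lit 4)) (T.ts (nat_lit 0) (T.im (nat_lit 7) (nat_lit 2)) T.ie))))) (T.ts (nat_lit 0) (T.im (nat_lit 7) (nat_lit 1)) T.ie))))))))
def d703 : T := (T.ts (nat_lit 2) (T.ts (nat_lit 3) (T.ts (nat_lit 3) (T.ls (nat_lit 2) (nat_lit 3)) (T.ts (nat_lit 1) (T.ls (nat_lit 3) (nat_lit 4)) (T.ts (nat_lit 2) (T.im (nat_lit 7) (nat_lit 2)) (T.ts (nat_lit 0) (T.im (nat_lit 5) (nat_lit 3)) (T.nw (T.ls (nat_lit 2) (nat_lit 3))))))) (T.ts (nat_lit 1) (T.ts (nat_lit 3) (T.ls (nat_lit 3) (nat_lit 4)) (T.ts (nat_lit 1) (T.ls (nat_lit 3) (nat_lit 4)) (T.ts (nat_lit 0) (T.ls (nat_lit 2) (nat_lit 4)) (T.ts (nat_lit 2) (T.im (nat_lit 7) (nat_lit 2)) (T.nw (T.ls (nat_lit 2) (nat_lit 3))))))) (T.ts (nat_lit 0) (T.ts (nat_lit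 3) (T.ls (nat_lit 2) (nat_lit 4)) (T.ts (nat_lit 1) (T.ls (nat_lit 3) (nat_lit 4)) (T.ts (nat_lit 0) (T.ls (nat_lit 2) (nat_lit 4)) (T.ts (nat_lit 2) (T.im (nat_lit 7) (nat_lit 2)) (T.nw (T.ls (nat_lit 2) (nat_lit 3))))))) (T.ts (nat_lit 2) (T.im (nat_lit 7) (nat_lit 1)) (T.nw (T.ts (nat_lit 4) (T.ls (nat_lit 2) (nat_lit 3)) (T.ts (nat_lit 2) (T.ls (nat_lit 3) (nat_lit 4)) (T.ts (nat_lit 1) (T.ls (nat_lit 2) (nat_lit 4)) (T.ts (nat_lit 0) (T.ls (nat_lit 2) (nat_lit 3)) (T.ts (nat_lit 3) (T.im (nat_lit 7) (nat_lit 2)) T.ie)))))))))) (T.ts (nat_lit 1) (T.ts (nat_lit 3) (T.ts (nat_lit 3) (T.ls (nat_lit 2) (nat_lit 3)) (T.ts (nat_lit 2) (T.ls (nat_lit 3) (nat_lit 4)) (T.ts (nat_lit 1) (T.im (nat_lit 7) (nat_lit 2)) (T.ts (nat_lit 0) (T.im (nat_lit 5) (nat_lit 3)) (T.nw (T.ls (nat_lit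 2) (nat_lit 3))))))) (T.ts (nat_lit 2) (T.ts (nat_lit 3) (T.ls (nat_lit 2) (nat_lit 3)) (T.ts (nat_lit 2) (T.ls (nat_lit 2) (nat_lit 3)) (T.ts (nat_lit 0) (T.ls (nat_lit 2) (nat_lit 4)) (T.ts (nat_lit 1) (T.im (nat_lit 7) (nat_lit 2)) (T.nw (T.ls (nat_lit 2) (nat_lit 3))))))) (T.ts (nat_lit 0) (T.ts (nat_lit 2) (T.ls (nat_lit 2) (nat_lit 3)) (T.ts (nat_lit 0) (T.ls (nat_lit 2) (nat_lit 4)) (T.ts (nat_lit 3) (T.im (nat_lit 3) (nat_lit 4)) (T.ts (nat_lit 1) (T.im (nat_lit 7) (nat_lit 2)) (T.nw (T.ls (nat_lit 2) (nat_lit 3))))))) (T.ts (nat_lit 1) (T.im (nat_lit 7) (nat_lit 1)) (T.nw (T.ts (nat_lit 4) (T.ls (nat_lit 2) (nat_lit 3)) (T.ts (nat_lit 3) (T.ls (nat_lit 2) (nat_lit 3)) (T.ts (nat_lit 1) (T.ls (nat_lit 2) (nat_lit 4)) (T.ts (nat_lit 0) (T.ls (nat_lit 2) (nat_lit 3)) (T.ts (nat_lit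 2) (T.im (nat_lit 7) (nat_lit 2)) T.ie)))))))))) d702))
def d704 : T := (T.ts (nat_lit 1) (T.ts (nat_lit 4) (T.ts (nat_lit 4) (T.ls (nat_lit 2) (nat_lit 3)) (T.ts (nat_lit 3) (T.ls (nat_lit 2) (nat_lit 4)) (T.ts (nat_lit 2) (T.ls (nat_lit 3) (nat_lit 4)) (T.ts (nat_lit 1) (T.im (nat_lit 7) (nat_lit 2)) (T.ts (nat_lit 0) (T.im (nat_lit 5) (nat_lit 3)) T.ie))))) (T.ts (nat_lit 3) (T.ts (nat_lit 4) (T.ls (nat_lit 2) (nat_lit 3)) (T.ts (nat_lit 3) (T.ls (nat_lit 2) (nat_lit 3)) (T.ts (nat_lit 2) (T.ls (nat_lit 3) (nat_lit 4)) (T.ts (nat_lit 0) (T.ls (nat_lit 2) (nat_lit 3)) (T.ts (nat_lit 1) (T.im (nat_lit 7) (nat_lit 2)) T.ie))))) (T.ts (nat_lit 2) (T.ts (nat_lit 4) (T.ls (nat_lit 3) (nat_lit 4)) (T.ts (nat_lit 3) (T.ls (nat_lit 2) (nat_lit 3)) (T.ts (nat_lit 2) (T.ls (nat_lit 3) (nat_lit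 4)) (T.ts (nat_lit 0) (T.ls (nat_lit 2) (nat_lit 3)) (T.ts (nat_lit 1) (T.im (nat_lit 7) (nat_lit 2)) T.ie))))) (T.ts (nat_lit 0) (T.ts (nat_lit 4) (T.ls (nat_lit 2) (nat_lit 3)) (T.ts (nat_lit 3) (T.ls (nat_lit 2) (nat_lit 3)) (T.ts (nat_lit 2) (T.ls (nat_lit 3) (nat_lit 4)) (T.ts (nat_lit 0) (T.ls (nat_lit 2) (nat_lit 3)) (T.ts (nat_lit 1) (T.im (nat_lit 7) (nat_lit 2)) T.ie))))) (T.ts (nat_lit 1) (T.im (nat_lit 7) (nat_lit 1)) T.ie))))) (T.ts (nat_lit 0) (T.ts (nat_lit 4) (T.ts (nat_lit 4) (T.ls (nat_lit 2) (nat_lit 3)) (T.ts (nat_lit 3) (T.ls (nat_lit 2) (nat_lit 3)) (T.ts (nat_lit 2) (T.ls (nat_lit 3) (nat_lit 4)) (T.ts (nat_lit 1) (T.ls (nat_lit 2) (nat_lit 4)) (T.ts (nat_lit 0) (T.im (nat_lit 5) (nat_lit 3)) T.ie))))) (T.ts (nat_lit 3) (T.ts (nat_lit 4) (T.ls (nat_lit 2) (nat_lit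 3)) (T.ts (nat_lit 3) (T.ls (nat_lit 2) (nat_lit 3)) (T.ts (nat_lit 2) (T.ls (nat_lit 3) (nat_lit 4)) (T.ts (nat_lit 1) (T.ls (nat_lit 2) (nat_lit 4)) (T.ts (nat_lit 0) (T.im (nat_lit 7) (nat_lit 2)) T.ie))))) (T.ts (nat_lit 2) (T.ts (nat_lit 4) (T.ls (nat_lit 3) (nat_lit 4)) (T.ts (nat_lit 3) (T.ls (nat_lit 2) (nat_lit 3)) (T.ts (nat_lit 2) (T.ls (nat_lit 3) (nat_lit 4)) (T.ts (nat_lit 1) (T.ls (nat_lit 2) (nat_lit 4)) (T.ts (nat_lit 0) (T.im (nat_lit 7) (nat_lit 2)) T.ie))))) (T.ts (nat_lit 1) (T.ts (nat_lit 4) (T.ls (nat_lit 2) (nat_lit 4)) (T.ts (nat_lit 3) (T.ls (nat_lit 2) (nat_lit 3)) (T.ts (nat_lit 2) (T.ls (nat_lit 3) (nat_lit 4)) (T.ts (nat_lit 1) (T.ls (nat_lit 2) (nat_lit 4)) (T.ts (nat_lit 0) (T.im (nat_lit 7) (nat_lit 2)) T.ie))))) (T.ts (nat_lit 0) (T.im (nat_lit 7)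 (nat_lit 1)) T.ie))))) (T.ts (nat_lit 4) (T.im (nat_lit 5) (nat_lit 2)) T.ie)))
def d705 : T := (T.ts (nat_lit 3) (T.ts (nat_lit 4) (T.ts (nat_lit 4) (T.ls (nat_lit 2) (nat_lit 3)) (T.ts (nat_lit 2) (T.ls (nat_lit 3) (nat_lit 4)) (T.ts (nat_lit 1) (T.ls (nat_lit 2) (nat_lit 4)) (T.ts (nat_lit 3) (T.im (nat_lit 7) (nat_lit 2)) (T.ts (nat_lit 0) (T.im (nat_lit 5) (nat_lit 3)) T.ie))))) (T.ts (nat_lit 2) (T.ts (nat_lit 4) (T.ls (nat_lit 3) (nat_lit 4)) (T.ts (nat_lit 2) (T.ls (nat_lit 3) (nat_lit 4)) (T.ts (nat_lit 1) (T.ls (nat_lit 2) (nat_lit 4)) (T.ts (nat_lit 0) (T.ls (nat_lit 2) (nat_lit 3)) (T.ts (nat_lit 3) (T.im (nat_lit 7) (nat_lit 2)) T.ie))))) (T.ts (nat_lit 1) (T.ts (nat_lit 4) (T.ls (nat_lit 2) (nat_lit 4)) (T.ts (nat_lit 2) (T.ls (nat_lit 3) (nat_lit 4)) (T.ts (nat_lit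 1) (T.ls (nat_lit 2) (nat_lit 4)) (T.ts (nat_lit 0) (T.ls (nat_lit 2) (nat_lit 3)) (T.ts (nat_lit 3) (T.im (nat_lit 7) (nat_lit 2)) T.ie))))) (T.ts (nat_lit 0) (T.ts (nat_lit 4) (T.ls (nat_lit 2) (nat_lit 3)) (T.ts (nat_lit 2) (T.ls (nat_lit 3) (nat_lit 4)) (T.ts (nat_lit 1) (T.ls (nat_lit 2) (nat_lit 4)) (T.ts (nat_lit 0) (T.ls (nat_lit 2) (nat_lit 3)) (T.ts (nat_lit 3) (T.im (nat_lit 7) (nat_lit 2)) T.ie))))) (T.ts (nat_lit 3) (T.im (nat_lit 7) (nat_lit 1)) T.ie))))) (T.ts (nat_lit 2) (T.ts (nat_lit 4) (T.ts (nat_lit 4) (T.ls (nat_lit 2) (nat_lit 3)) (T.ts (nat_lit 3) (T.ls (nat_lit 3) (nat_lit 4)) (T.ts (nat_lit 1) (T.ls (nat_lit 2) (nat_lit 4)) (T.ts (nat_lit 2) (T.im (nat_lit 7) (nat_lit 2)) (T.ts (nat_lit 0) (T.im (nat_lit 5) (nat_lit 3)) T.ie))))) (T.ts (nat_lit 3) (T.ts (nat_lit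 4) (T.ls (nat_lit 2) (nat_lit 3)) (T.ts (nat_lit 3) (T.ls (nat_lit 2) (nat_lit 3)) (T.ts (nat_lit 1) (T.ls (nat_lit 2) (nat_lit 4)) (T.ts (nat_lit 0) (T.ls (nat_lit 2) (nat_lit 3)) (T.ts (nat_lit 2) (T.im (nat_lit 7) (nat_lit 2)) T.ie))))) (T.ts (nat_lit 1) (T.ts (nat_lit 3) (T.ls (nat_lit 2) (nat_lit 3)) (T.ts (nat_lit 1) (T.ls (nat_lit 2) (nat_lit 4)) (T.ts (nat_lit 0) (T.ls (nat_lit 2) (nat_lit 3)) (T.ts (nat_lit 4) (T.im (nat_lit 3) (nat_lit 4)) (T.ts (nat_lit 2) (T.im (nat_lit 7) (nat_lit 2)) T.ie))))) (T.ts (nat_lit 0) (T.ts (nat_lit 4) (T.ls (nat_lit 2) (nat_lit 3)) (T.ts (nat_lit 3) (T.ls (nat_lit 2) (nat_lit 3)) (T.ts (nat_lit 1) (T.ls (nat_lit 2) (nat_lit 4)) (T.ts (nat_lit 0) (T.ls (nat_lit 2) (nat_lit 3)) (T.ts (nat_lit 2) (T.im (nat_lit 7) (nat_lit 2)) T.ie))))) (T.ts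 (nat_lit 2) (T.im (nat_lit 7) (nat_lit 1)) T.ie))))) d704))
def d706 : T := (T.ts (nat_lit 2) (T.ts (nat_lit 2) (T.tp (T.ts (nat_lit 3) (T.ts (nat_lit 3) (T.ls (nat_lit 2) (nat_lit 3)) (T.ts (nat_lit 1) (T.ls (nat_lit 3) (nat_lit 4)) (T.ts (nat_lit 0) (T.ls (nat_lit 2) (nat_lit 4)) (T.ts (nat_lit 2) (T.im (nat_lit 5) (nat_lit 3)) (T.nw (T.ls (nat_lit 2) (nat_lit 3))))))) (T.ts (nat_lit 1) (T.ts (nat_lit 3) (T.ls (nat_lit 3) (nat_lit 4)) (T.ts (nat_lit 1) (T.ls (nat_lit 3) (nat_lit 4)) (T.ts (nat_lit 0) (T.ls (nat_lit 2) (nat_lit 4)) (T.ts (nat_lit 2) (T.im (nat_lit 7) (nat_lit 2)) (T.nw (T.ls (nat_lit 2) (nat_lit 3))))))) (T.ts (nat_lit 0) (T.ts (nat_lit 3) (T.ls (nat_lit 2) (nat_lit 4)) (T.ts (nat_lit 1) (T.ls (nat_lit 3) (nat_lit 4)) (T.ts (nat_lit 0) (T.ls (nat_lit 2) (nat_lit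 4)) (T.ts (nat_lit 2) (T.im (nat_lit 7) (nat_lit 2)) (T.nw (T.ls (nat_lit 2) (nat_lit 3))))))) (T.ts (nat_lit 2) (T.im (nat_lit 7) (nat_lit 1)) (T.nw (T.ts (nat_lit 4) (T.ls (nat_lit 2) (nat_lit 3)) (T.ts (nat_lit 2) (T.ls (nat_lit 3) (nat_lit 4)) (T.ts (nat_lit 1) (T.ls (nat_lit 2) (nat_lit 4)) (T.ts (nat_lit 0) (T.ls (nat_lit 2) (nat_lit 3)) (T.ts (nat_lit 3) (T.im (nat_lit 7) (nat_lit 2)) T.ie))))))))))) (T.ts (nat_lit 1) d699 (T.tp d700))) (T.tp (T.ts (nat_lit 1) (T.ts (nat_lit 2) (T.ts (nat_lit 3) (T.ts (nat_lit 3) (T.ls (nat_lit 2) (nat_lit 3)) (T.ts (nat_lit 0) (T.ls (nat_lit 2) (nat_lit 4)) (T.ts (nat_lit 2) (T.im (nat_lit 7) (nat_lit 2)) (T.ts (nat_lit 1) (T.im (nat_lit 5) (nat_lit 3)) (T.nw (T.ls (nat_lit 2) (nat_lit 3))))))) (T.ts (nat_lit 1) (T.ts (nat_lit 3) (T.ls (nat_lit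 3) (nat_lit 4)) (T.ts (nat_lit 1) (T.ls (nat_lit 3) (nat_lit 4)) (T.ts (nat_lit 0) (T.ls (nat_lit 2) (nat_lit 4)) (T.ts (nat_lit 2) (T.im (nat_lit 7) (nat_lit 2)) (T.nw (T.ls (nat_lit 2) (nat_lit 3))))))) (T.ts (nat_lit 0) (T.ts (nat_lit 3) (T.ls (nat_lit 2) (nat_lit 4)) (T.ts (nat_lit 1) (T.ls (nat_lit 3) (nat_lit 4)) (T.ts (nat_lit 0) (T.ls (nat_lit 2) (nat_lit 4)) (T.ts (nat_lit 2) (T.im (nat_lit 7) (nat_lit 2)) (T.nw (T.ls (nat_lit 2) (nat_lit 3))))))) (T.ts (nat_lit 2) (T.im (nat_lit 7) (nat_lit 1)) (T.nw (T.ts (nat_lit 4) (T.ls (nat_lit 2) (nat_lit 3)) (T.ts (nat_lit 2) (T.ls (nat_lit 3) (nat_lit 4)) (T.ts (nat_lit 1) (T.ls (nat_lit 2) (nat_lit 4)) (T.ts (nat_lit 0) (T.ls (nat_lit 2) (nat_lit 3)) (T.ts (nat_lit 3) (T.im (nat_lit 7) (nat_lit 2)) T.ie)))))))))) d701) (T.ts (nat_lit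 0) d703 (T.ts (nat_lit 3) (T.im (nat_lit 5) (nat_lit 1)) (T.nw d705))))))
def d707 : T := (T.ts (nat_lit 0) (T.ts (nat_lit 3) (T.ts (nat_lit 3) (T.ls (nat_lit 2) (nat_lit 3)) (T.ts (nat_lit 2) (T.ls (nat_lit 2) (nat_lit 4)) (T.ts (nat_lit 1) (T.ls (nat_lit 3) (nat_lit 4)) (T.ts (nat_lit 0) (T.im (nat_lit 7) (nat_lit 2)) (T.nw (T.ls (nat_lit 2) (nat_lit 3))))))) (T.ts (nat_lit 2) (T.ts (nat_lit 2) (T.ls (nat_lit 2) (nat_lit 3)) (T.ts (nat_lit 1) (T.ls (nat_lit 3) (nat_lit 4)) (T.ts (nat_lit 3) (T.im (nat_lit 5) (nat_lit 3)) (T.ts (nat_lit 0) (T.im (nat_lit 7) (nat_lit 2)) (T.nw (T.ls (nat_lit 2) (nat_lit 3))))))) (T.ts (nat_lit 1) (T.ts (nat_lit 3) (T.ls (nat_lit 3) (nat_lit 4)) (T.ts (nat_lit 2) (T.ls (nat_lit 2) (nat_lit 3)) (T.ts (nat_lit 1) (T.ls (nat_lit 3) (nat_lit 4)) (T.ts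 (nat_lit 0) (T.im (nat_lit 7) (nat_lit 2)) (T.nw (T.ls (nat_lit 2) (nat_lit 3))))))) (T.ts (nat_lit 0) (T.im (nat_lit 7) (nat_lit 1)) (T.nw (T.ts (nat_lit 4) (T.ls (nat_lit 2) (nat_lit 3)) (T.ts (nat_lit 3) (T.ls (nat_lit 2) (nat_lit 3)) (T.ts (nat_lit 2) (T.ls (nat_lit 3) (nat_lit 4)) (T.ts (nat_lit 0) (T.ls (nat_lit 2) (nat_lit 3)) (T.ts (nat_lit 1) (T.im (nat_lit 7) (nat_lit 2)) T.ie)))))))))) (T.ts (nat_lit 2) (T.im (nat_lit 5) (nat_lit 2)) (T.nw (T.ts (nat_lit 4) (T.ts (nat_lit 4) (T.ls (nat_lit 2) (nat_lit 3)) (T.ts (nat_lit 3) (T.ls (nat_lit 2) (nat_lit 3)) (T.ts (nat_lit 2) (T.ls (nat_lit 3) (nat_lit 4)) (T.ts (nat_lit 1) (T.ls (nat_lit 2) (nat_lit 4)) (T.ts (nat_lit 0) (T.im (nat_lit 7) (nat_lit 2)) T.ie))))) (T.ts (nat_lit 3) (T.ts (nat_lit 3) (T.ls (nat_lit 2) (nat_lit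 3)) (T.ts (nat_lit 2) (T.ls (nat_lit 3) (nat_lit 4)) (T.ts (nat_lit 1) (T.ls (nat_lit 2) (nat_lit 4)) (T.ts (nat_lit 4) (T.im (nat_lit 5) (nat_lit 3)) (T.ts (nat_lit 0) (T.im (nat_lit 7) (nat_lit 2)) T.ie))))) (T.ts (nat_lit 2) (T.ts (nat_lit 4) (T.ls (nat_lit 3) (nat_lit 4)) (T.ts (nat_lit 3) (T.ls (nat_lit 2) (nat_lit 3)) (T.ts (nat_lit 2) (T.ls (nat_lit 3) (nat_lit 4)) (T.ts (nat_lit 1) (T.ls (nat_lit 2) (nat_lit 4)) (T.ts (nat_lit 0) (T.im (nat_lit 7) (nat_lit 2)) T.ie))))) (T.ts (nat_lit 1) (T.ts (nat_lit 4) (T.ls (nat_lit 2) (nat_lit 4)) (T.ts (nat_lit 3) (T.ls (nat_lit 2) (nat_lit 3)) (T.ts (nat_lit 2) (T.ls (nat_lit 3) (nat_lit 4)) (T.ts (nat_lit 1) (T.ls (nat_lit 2) (nat_lit 4)) (T.ts (nat_lit 0) (T.im (nat_lit 7) (nat_lit 2)) T.ie))))) (T.ts (nat_lit 0) (T.im (nat_lit 7)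 (nat_lit 1)) T.ie))))))))
def d708 : T := (T.ts (nat_lit 3) (T.ts (nat_lit 2) (T.ts (nat_lit 2) (T.ls (nat_lit 2) (nat_lit 3)) (T.ts (nat_lit 1) (T.ls (nat_lit 3) (nat_lit 4)) (T.ts (nat_lit 0) (T.ls (nat_lit 2) (nat_lit 4)) (T.ts (nat_lit 3) (T.im (nat_lit 5) (nat_lit 3)) (T.nw (T.ls (nat_lit 2) (nat_lit 3))))))) (T.ts (nat_lit 1) (T.ts (nat_lit 2) (T.ls (nat_lit 2) (nat_lit 3)) (T.ts (nat_lit 1) (T.ls (nat_lit 3) (nat_lit 4)) (T.ts (nat_lit 0) (T.ls (nat_lit 2) (nat_lit 4)) (T.ts (nat_lit 3) (T.im (nat_lit 7) (nat_lit 2)) (T.nw (T.ls (nat_lit 2) (nat_lit 3))))))) (T.ts (nat_lit 0) (T.ts (nat_lit 2) (T.ls (nat_lit 2) (nat_lit 3)) (T.ts (nat_lit 1) (T.ls (nat_lit 3) (nat_lit 4)) (T.ts (nat_lit 0) (T.ls (nat_lit 2) (nat_lit 4)) (T.ts (nat_lit 3) (T.im (nat_lit 7) (nat_lit 2)) (T.nw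 (T.ls (nat_lit 2) (nat_lit 3))))))) (T.ts (nat_lit 3) (T.im (nat_lit 7) (nat_lit 1)) (T.nw (T.ts (nat_lit 3) (T.ls (nat_lit 2) (nat_lit 3)) (T.ts (nat_lit 2) (T.ls (nat_lit 3) (nat_lit 4)) (T.ts (nat_lit 1) (T.ls (nat_lit 2) (nat_lit 4)) (T.ts (nat_lit 0) (T.ls (nat_lit 2) (nat_lit 3)) (T.ts (nat_lit 4) (T.im (nat_lit 7) (nat_lit 2)) T.ie)))))))))) (T.ts (nat_lit 1) (T.ts (nat_lit 3) (T.ts (nat_lit 3) (T.ls (nat_lit 2) (nat_lit 3)) (T.ts (nat_lit 2) (T.ls (nat_lit 3) (nat_lit 4)) (T.ts (nat_lit 0) (T.ls (nat_lit 2) (nat_lit 4)) (T.ts (nat_lit 1) (T.im (nat_lit 7) (nat_lit 2)) (T.nw (T.ls (nat_lit 2) (nat_lit 3))))))) (T.ts (nat_lit 2) (T.ts (nat_lit 2) (T.ls (nat_lit 2) (nat_lit 3)) (T.ts (nat_lit 0) (T.ls (nat_lit 2) (nat_lit 4)) (T.ts (nat_lit 3) (T.im (nat_lit 5) (nat_lit 3)) (T.ts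 (nat_lit 1) (T.im (nat_lit 7) (nat_lit 2)) (T.nw (T.ls (nat_lit 2) (nat_lit 3))))))) (T.ts (nat_lit 0) (T.ts (nat_lit 3) (T.ls (nat_lit 2) (nat_lit 4)) (T.ts (nat_lit 0) (T.ls (nat_lit 2) (nat_lit 4)) (T.ts (nat_lit 2) (T.im (nat_lit 3) (nat_lit 4)) (T.ts (nat_lit 1) (T.im (nat_lit 7) (nat_lit 2)) (T.nw (T.ls (nat_lit 2) (nat_lit 3))))))) (T.ts (nat_lit 1) (T.im (nat_lit 7) (nat_lit 1)) (T.nw (T.ts (nat_lit 4) (T.ls (nat_lit 2) (nat_lit 3)) (T.ts (nat_lit 3) (T.ls (nat_lit 2) (nat_lit 3)) (T.ts (nat_lit 1) (T.ls (nat_lit 2) (nat_lit 4)) (T.ts (nat_lit 0) (T.ls (nat_lit 2) (nat_lit 3)) (T.ts (nat_lit 2) (T.im (nat_lit 7) (nat_lit 2)) T.ie)))))))))) d707))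
def d709 : T := (T.ts (nat_lit 3) (T.ts (nat_lit 2) (T.ts (nat_lit 2) (T.ls (nat_lit 2) (nat_lit 3)) (T.ts (nat_lit 0) (T.ls (nat_lit 2) (nat_lit 4)) (T.ts (nat_lit 3) (T.im (nat_lit 7) (nat_lit 2)) (T.ts (nat_lit 1) (T.im (nat_lit 5) (nat_lit 3)) (T.nw (T.ls (nat_lit 2) (nat_lit 3))))))) (T.ts (nat_lit 1) (T.ts (nat_lit 2) (T.ls (nat_lit 2) (nat_lit 3)) (T.ts (nat_lit 1) (T.ls (nat_lit 3) (nat_lit 4)) (T.ts (nat_lit 0) (T.ls (nat_lit 2) (nat_lit 4)) (T.ts (nat_lit 3) (T.im (nat_lit 7) (nat_lit 2)) (T.nw (T.ls (nat_lit 2) (nat_lit 3))))))) (T.ts (nat_lit 0) (T.ts (nat_lit 2) (T.ls (nat_lit 2) (nat_lit 3)) (T.ts (nat_lit 1) (T.ls (nat_lit 3) (nat_lit 4)) (T.ts (nat_lit 0) (T.ls (nat_lit 2) (nat_lit 4)) (T.ts (nat_lit 3) (T.im (nat_lit 7) (nat_lit 2)) (T.nw (T.ls (nat_lit 2) (nat_lit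 3))))))) (T.ts (nat_lit 3) (T.im (nat_lit 7) (nat_lit 1)) (T.nw (T.ts (nat_lit 3) (T.ls (nat_lit 2) (nat_lit 3)) (T.ts (nat_lit 2) (T.ls (nat_lit 3) (nat_lit 4)) (T.ts (nat_lit 1) (T.ls (nat_lit 2) (nat_lit 4)) (T.ts (nat_lit 0) (T.ls (nat_lit 2) (nat_lit 3)) (T.ts (nat_lit 4) (T.im (nat_lit 7) (nat_lit 2)) T.ie)))))))))) (T.ts (nat_lit 2) (T.im (nat_lit 5) (nat_lit 2)) (T.ts (nat_lit 1) (T.im (nat_lit 1) (nat_lit 4)) (T.ts (nat_lit 0) (T.im (nat_lit 3) (nat_lit 3)) (T.nw (T.ts (nat_lit 4) (T.ts (nat_lit 4) (T.ls (nat_lit 2) (nat_lit 3)) (T.ts (nat_lit 3) (T.ls (nat_lit 2) (nat_lit 3)) (T.ts (nat_lit 2) (T.ls (nat_lit 3) (nat_lit 4)) (T.ts (nat_lit 1) (T.ls (nat_lit 2) (nat_lit 4)) (T.ts (nat_lit 0) (T.im (nat_lit 7) (nat_lit 2)) T.ie))))) (T.ts (nat_lit 3) (T.ts (nat_lit 4) (T.ls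 (nat_lit 2) (nat_lit 3)) (T.ts (nat_lit 3) (T.ls (nat_lit 2) (nat_lit 3)) (T.ts (nat_lit 1) (T.ls (nat_lit 2) (nat_lit 4)) (T.ts (nat_lit 2) (T.im (nat_lit 5) (nat_lit 3)) (T.ts (nat_lit 0) (T.im (nat_lit 7) (nat_lit 2)) T.ie))))) (T.ts (nat_lit 2) (T.ts (nat_lit 4) (T.ls (nat_lit 3) (nat_lit 4)) (T.ts (nat_lit 3) (T.ls (nat_lit 2) (nat_lit 3)) (T.ts (nat_lit 2) (T.ls (nat_lit 3) (nat_lit 4)) (T.ts (nat_lit 1) (T.ls (nat_lit 2) (nat_lit 4)) (T.ts (nat_lit 0) (T.im (nat_lit 7) (nat_lit 2)) T.ie))))) (T.ts (nat_lit 1) (T.ts (nat_lit 4) (T.ls (nat_lit 2) (nat_lit 4)) (T.ts (nat_lit 3) (T.ls (nat_lit 2) (nat_lit 3)) (T.ts (nat_lit 2) (T.ls (nat_lit 3) (nat_lit 4)) (T.ts (nat_lit 1) (T.ls (nat_lit 2) (nat_lit 4)) (T.ts (nat_lit 0) (T.im (nat_lit 7) (nat_lit 2)) T.ie))))) (T.ts (nat_lit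 0) (T.im (nat_lit 7) (nat_lit 1)) T.ie))))))))))
def d710 : T := (T.ts (nat_lit 0) (T.ts (nat_lit 3) (T.ts (nat_lit 3) (T.ls (nat_lit 2) (nat_lit 3)) (T.ts (nat_lit 2) (T.ls (nat_lit 2) (nat_lit 4)) (T.ts (nat_lit 1) (T.ls (nat_lit 3) (nat_lit 4)) (T.ts (nat_lit 0) (T.im (nat_lit 7) (nat_lit 2)) (T.nw (T.ls (nat_lit 2) (nat_lit 3))))))) (T.ts (nat_lit 2) (T.ts (nat_lit 3) (T.ls (nat_lit 2) (nat_lit 3)) (T.ts (nat_lit 2) (T.ls (nat_lit 2) (nat_lit 3)) (T.ts (nat_lit 1) (T.ls (nat_lit 3) (nat_lit 4)) (T.ts (nat_lit 0) (T.im (nat_lit 5) (nat_lit 3)) (T.nw (T.ls (nat_lit 2) (nat_lit 3))))))) (T.ts (nat_lit 1) (T.ts (nat_lit 3) (T.ls (nat_lit 3) (nat_lit 4)) (T.ts (nat_lit 2) (T.ls (nat_lit 2) (nat_lit 3)) (T.ts (nat_lit 1) (T.ls (nat_lit 3) (nat_lit 4)) (T.ts (nat_lit 0) (T.im (nat_lit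 7) (nat_lit 2)) (T.nw (T.ls (nat_lit 2) (nat_lit 3))))))) (T.ts (nat_lit 0) (T.im (nat_lit 7) (nat_lit 1)) (T.nw (T.ts (nat_lit 4) (T.ls (nat_lit 2) (nat_lit 3)) (T.ts (nat_lit 3) (T.ls (nat_lit 2) (nat_lit 3)) (T.ts (nat_lit 2) (T.ls (nat_lit 3) (nat_lit 4)) (T.ts (nat_lit 0) (T.ls (nat_lit 2) (nat_lit 3)) (T.ts (nat_lit 1) (T.im (nat_lit 7) (nat_lit 2)) T.ie)))))))))) (T.ts (nat_lit 2) (T.im (nat_lit 5) (nat_lit 2)) (T.nw (T.ts (nat_lit 4) (T.ts (nat_lit 4) (T.ls (nat_lit 2) (nat_lit 3)) (T.ts (nat_lit 3) (T.ls (nat_lit 2) (nat_lit 3)) (T.ts (nat_lit 2) (T.ls (nat_lit 3) (nat_lit 4)) (T.ts (nat_lit 1) (T.ls (nat_lit 2) (nat_lit 4)) (T.ts (nat_lit 0) (T.im (nat_lit 7) (nat_lit 2)) T.ie))))) (T.ts (nat_lit 3) (T.ts (nat_lit 4) (T.ls (nat_lit 2) (nat_lit 3)) (T.ts (nat_lit 3) (T.ls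 (nat_lit 2) (nat_lit 3)) (T.ts (nat_lit 2) (T.ls (nat_lit 3) (nat_lit 4)) (T.ts (nat_lit 1) (T.im (nat_lit 5) (nat_lit 3)) (T.ts (nat_lit 0) (T.im (nat_lit 7) (nat_lit 2)) T.ie))))) (T.ts (nat_lit 2) (T.ts (nat_lit 4) (T.ls (nat_lit 3) (nat_lit 4)) (T.ts (nat_lit 3) (T.ls (nat_lit 2) (nat_lit 3)) (T.ts (nat_lit 2) (T.ls (nat_lit 3) (nat_lit 4)) (T.ts (nat_lit 1) (T.ls (nat_lit 2) (nat_lit 4)) (T.ts (nat_lit 0) (T.im (nat_lit 7) (nat_lit 2)) T.ie))))) (T.ts (nat_lit 1) (T.ts (nat_lit 4) (T.ls (nat_lit 2) (nat_lit 4)) (T.ts (nat_lit 3) (T.ls (nat_lit 2) (nat_lit 3)) (T.ts (nat_lit 2) (T.ls (nat_lit 3) (nat_lit 4)) (T.ts (nat_lit 1) (T.ls (nat_lit 2) (nat_lit 4)) (T.ts (nat_lit 0) (T.im (nat_lit 7) (nat_lit 2)) T.ie))))) (T.ts (nat_lit 0) (T.im (nat_lit 7) (nat_lit 1)) T.ie))))))))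
def d711 : T := (T.ts (nat_lit 3) (T.ts (nat_lit 2) (T.ts (nat_lit 2) (T.ls (nat_lit 2) (nat_lit 3)) (T.ts (nat_lit 1) (T.ts (nat_lit 3) (T.ls (nat_lit 3) (nat_lit 4)) (T.ts (nat_lit 1) (T.im (nat_lit 9) (nat_lit 1)) (T.sk (T.ls (nat_lit 2) (nat_lit 3))))) (T.ts (nat_lit 3) (T.im (nat_lit 7) (nat_lit 2)) (T.ts (nat_lit 0) (T.im (nat_lit 5) (nat_lit 3)) (T.nw (T.ls (nat_lit 2) (nat_lit 3))))))) (T.ts (nat_lit 1) (T.ts (nat_lit 2) (T.ls (nat_lit 2) (nat_lit 3)) (T.ts (nat_lit 1) (T.ls (nat_lit 3) (nat_lit 4)) (T.ts (nat_lit 0) (T.ls (nat_lit 2) (nat_lit 4)) (T.ts (nat_lit 3) (T.im (nat_lit 7) (nat_lit 2)) (T.nw (T.ls (nat_lit 2) (nat_lit 3))))))) (T.ts (nat_lit 0) (T.ts (nat_lit 2) (T.ls (nat_lit 2) (nat_lit 3)) (T.ts (nat_lit 1) (T.ls (nat_lit 3) (nat_lit 4)) (T.ts (nat_lit 0) (T.ls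 (nat_lit 2) (nat_lit 4)) (T.ts (nat_lit 3) (T.im (nat_lit 7) (nat_lit 2)) (T.nw (T.ls (nat_lit 2) (nat_lit 3))))))) (T.ts (nat_lit 3) (T.im (nat_lit 7) (nat_lit 1)) (T.nw (T.ts (nat_lit 3) (T.ls (nat_lit 2) (nat_lit 3)) (T.ts (nat_lit 2) (T.ls (nat_lit 3) (nat_lit 4)) (T.ts (nat_lit 1) (T.ls (nat_lit 2) (nat_lit 4)) (T.ts (nat_lit 0) (T.ls (nat_lit 2) (nat_lit 3)) (T.ts (nat_lit 4) (T.im (nat_lit 7) (nat_lit 2)) T.ie)))))))))) (T.ts (nat_lit 1) (T.ts (nat_lit 3) (T.ts (nat_lit 3) (T.ls (nat_lit 2) (nat_lit 3)) (T.ts (nat_lit 2) (T.ls (nat_lit 3) (nat_lit 4)) (T.ts (nat_lit 0) (T.ls (nat_lit 2) (nat_lit 4)) (T.ts (nat_lit 1) (T.im (nat_lit 7) (nat_lit 2)) (T.nw (T.ls (nat_lit 2) (nat_lit 3))))))) (T.ts (nat_lit 2) (T.ts (nat_lit 3) (T.ls (nat_lit 2) (nat_lit 3)) (T.ts (nat_lit 2) (T.ls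 (nat_lit 2) (nat_lit 3)) (T.ts (nat_lit 1) (T.im (nat_lit 7) (nat_lit 2)) (T.ts (nat_lit 0) (T.im (nat_lit 5) (nat_lit 3)) (T.nw (T.ls (nat_lit 2) (nat_lit 3))))))) (T.ts (nat_lit 0) (T.ts (nat_lit 3) (T.ls (nat_lit 2) (nat_lit 4)) (T.ts (nat_lit 0) (T.ls (nat_lit 2) (nat_lit 4)) (T.ts (nat_lit 2) (T.im (nat_lit 3) (nat_lit 4)) (T.ts (nat_lit 1) (T.im (nat_lit 7) (nat_lit 2)) (T.nw (T.ls (nat_lit 2) (nat_lit 3))))))) (T.ts (nat_lit 1) (T.im (nat_lit 7) (nat_lit 1)) (T.nw (T.ts (nat_lit 4) (T.ls (nat_lit 2) (nat_lit 3)) (T.ts (nat_lit 3) (T.ls (nat_lit 2) (nat_lit 3)) (T.ts (nat_lit 1) (T.ls (nat_lit 2) (nat_lit 4)) (T.ts (nat_lit 0) (T.ls (nat_lit 2) (nat_lit 3)) (T.ts (nat_lit 2) (T.im (nat_lit 7) (nat_lit 2)) T.ie)))))))))) d710))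
def d712 : T := (T.ts (nat_lit 1) (T.ts (nat_lit 4) (T.ts (nat_lit 4) (T.ls (nat_lit 2) (nat_lit 3)) (T.ts (nat_lit 3) (T.ls (nat_lit 2) (nat_lit 4)) (T.ts (nat_lit 2) (T.ls (nat_lit 3) (nat_lit 4)) (T.ts (nat_lit 0) (T.ls (nat_lit 2) (nat_lit 3)) (T.ts (nat_lit 1) (T.im (nat_lit 7) (nat_lit 2)) T.ie))))) (T.ts (nat_lit 3) (T.ts (nat_lit 4) (T.ls (nat_lit 2) (nat_lit 3)) (T.ts (nat_lit 3) (T.ls (nat_lit 2) (nat_lit 3)) (T.ts (nat_lit 2) (T.ls (nat_lit 3) (nat_lit 4)) (T.ts (nat_lit 1) (T.im (nat_lit 7) (nat_lit 2)) (T.ts (nat_lit 0) (T.im (nat_lit 5) (nat_lit 3)) T.ie))))) (T.ts (nat_lit 2) (T.ts (nat_lit 4) (T.ls (nat_lit 3) (nat_lit 4)) (T.ts (nat_lit 3) (T.ls (nat_lit 2) (nat_lit 3)) (T.ts (nat_lit 2) (T.ls (nat_lit 3) (nat_lit 4)) (T.ts (nat_lit 0) (T.ls (nat_lit 2) (nat_lit 3))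 (T.ts (nat_lit 1) (T.im (nat_lit 7) (nat_lit 2)) T.ie))))) (T.ts (nat_lit 0) (T.ts (nat_lit 4) (T.ls (nat_lit 2) (nat_lit 3)) (T.ts (nat_lit 3) (T.ls (nat_lit 2) (nat_lit 3)) (T.ts (nat_lit 2) (T.ls (nat_lit 3) (nat_lit 4)) (T.ts (nat_lit 0) (T.ls (nat_lit 2) (nat_lit 3)) (T.ts (nat_lit 1) (T.im (nat_lit 7) (nat_lit 2)) T.ie))))) (T.ts (nat_lit 1) (T.im (nat_lit 7) (nat_lit 1)) T.ie))))) (T.ts (nat_lit 0) (T.ts (nat_lit 4) (T.ts (nat_lit 4) (T.ls (nat_lit 2) (nat_lit 3)) (T.ts (nat_lit 3) (T.ls (nat_lit 2) (nat_lit 3)) (T.ts (nat_lit 2) (T.ls (nat_lit 3) (nat_lit 4)) (T.ts (nat_lit 1) (T.ls (nat_lit 2) (nat_lit 4)) (T.ts (nat_lit 0) (T.im (nat_lit 7) (nat_lit 2)) T.ie))))) (T.ts (nat_lit 3) (T.ts (nat_lit 4) (T.ls (nat_lit 2) (nat_lit 3)) (T.ts (nat_lit 3) (T.ls (nat_lit 2) (nat_lit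 3)) (T.ts (nat_lit 2) (T.ls (nat_lit 3) (nat_lit 4)) (T.ts (nat_lit 1) (T.ls (nat_lit 2) (nat_lit 4)) (T.ts (nat_lit 0) (T.im (nat_lit 5) (nat_lit 3)) T.ie))))) (T.ts (nat_lit 2) (T.ts (nat_lit 4) (T.ls (nat_lit 3) (nat_lit 4)) (T.ts (nat_lit 3) (T.ls (nat_lit 2) (nat_lit 3)) (T.ts (nat_lit 2) (T.ls (nat_lit 3) (nat_lit 4)) (T.ts (nat_lit 1) (T.ls (nat_lit 2) (nat_lit 4)) (T.ts (nat_lit 0) (T.im (nat_lit 7) (nat_lit 2)) T.ie))))) (T.ts (nat_lit 1) (T.ts (nat_lit 4) (T.ls (nat_lit 2) (nat_lit 4)) (T.ts (nat_lit 3) (T.ls (nat_lit 2) (nat_lit 3)) (T.ts (nat_lit 2) (T.ls (nat_lit 3) (nat_lit 4)) (T.ts (nat_lit 1) (T.ls (nat_lit 2) (nat_lit 4)) (T.ts (nat_lit 0) (T.im (nat_lit 7) (nat_lit 2)) T.ie))))) (T.ts (nat_lit 0) (T.im (nat_lit 7) (nat_lit 1)) T.ie))))) (T.ts (nat_lit 3) (T.im (nat_lit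 5) (nat_lit 2)) T.ie)))
def d713 : T := (T.ts (nat_lit 4) (T.ts (nat_lit 3) (T.ts (nat_lit 3) (T.ls (nat_lit 2) (nat_lit 3)) (T.ts (nat_lit 2) (T.ts (nat_lit 4) (T.ts (nat_lit 3) (T.im (nat_lit 7) (nat_lit 3)) (T.sk (T.ls (nat_lit 2) (nat_lit 3)))) (T.ts (nat_lit 2) (T.im (nat_lit 9) (nat_lit 1)) (T.sk (T.ls (nat_lit 2) (nat_lit 3))))) (T.ts (nat_lit 1) (T.ls (nat_lit 2) (nat_lit 4)) (T.ts (nat_lit 4) (T.im (nat_lit 7) (nat_lit 2)) (T.ts (nat_lit 0) (T.im (nat_lit 5) (nat_lit 3)) T.ie))))) (T.ts (nat_lit 2) (T.ts (nat_lit 3) (T.ls (nat_lit 2) (nat_lit 3)) (T.ts (nat_lit 2) (T.ls (nat_lit 3) (nat_lit 4)) (T.ts (nat_lit 1) (T.ls (nat_lit 2) (nat_lit 4)) (T.ts (nat_lit 0) (T.ls (nat_lit 2) (nat_lit 3)) (T.ts (nat_lit 4) (T.im (nat_lit 7) (nat_lit 2)) T.ie))))) (T.ts (nat_lit 1) (T.ts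 (nat_lit 3) (T.ls (nat_lit 2) (nat_lit 3)) (T.ts (nat_lit 2) (T.ls (nat_lit 3) (nat_lit 4)) (T.ts (nat_lit 1) (T.ls (nat_lit 2) (nat_lit 4)) (T.ts (nat_lit 0) (T.ls (nat_lit 2) (nat_lit 3)) (T.ts (nat_lit 4) (T.im (nat_lit 7) (nat_lit 2)) T.ie))))) (T.ts (nat_lit 0) (T.ts (nat_lit 3) (T.ls (nat_lit 2) (nat_lit 3)) (T.ts (nat_lit 2) (T.ls (nat_lit 3) (nat_lit 4)) (T.ts (nat_lit 1) (T.ls (nat_lit 2) (nat_lit 4)) (T.ts (nat_lit 0) (T.ls (nat_lit 2) (nat_lit 3)) (T.ts (nat_lit 4) (T.im (nat_lit 7) (nat_lit 2)) T.ie))))) (T.ts (nat_lit 4) (T.im (nat_lit 7) (nat_lit 1)) T.ie))))) (T.ts (nat_lit 2) (T.ts (nat_lit 4) (T.ts (nat_lit 4) (T.ls (nat_lit 2) (nat_lit 3)) (T.ts (nat_lit 3) (T.ls (nat_lit 3) (nat_lit 4)) (T.ts (nat_lit 1) (T.ls (nat_lit 2) (nat_lit 4)) (T.ts (nat_lit 0) (T.ls (nat_lit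 2) (nat_lit 3)) (T.ts (nat_lit 2) (T.im (nat_lit 7) (nat_lit 2)) T.ie))))) (T.ts (nat_lit 3) (T.ts (nat_lit 4) (T.ls (nat_lit 2) (nat_lit 3)) (T.ts (nat_lit 3) (T.ls (nat_lit 2) (nat_lit 3)) (T.ts (nat_lit 1) (T.ls (nat_lit 2) (nat_lit 4)) (T.ts (nat_lit 2) (T.im (nat_lit 7) (nat_lit 2)) (T.ts (nat_lit 0) (T.im (nat_lit 5) (nat_lit 3)) T.ie))))) (T.ts (nat_lit 1) (T.ts (nat_lit 4) (T.ls (nat_lit 2) (nat_lit 4)) (T.ts (nat_lit 1) (T.ls (nat_lit 2) (nat_lit 4)) (T.ts (nat_lit 0) (T.ls (nat_lit 2) (nat_lit 3)) (T.ts (nat_lit 3) (T.im (nat_lit 3) (nat_lit 4)) (T.ts (nat_lit 2) (T.im (nat_lit 7) (nat_lit 2)) T.ie))))) (T.ts (nat_lit 0) (T.ts (nat_lit 4) (T.ls (nat_lit 2) (nat_lit 3)) (T.ts (nat_lit 3) (T.ls (nat_lit 2) (nat_lit 3)) (T.ts (nat_lit 1) (T.ls (nat_lit 2) (nat_lit 4)) (T.ts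 (nat_lit 0) (T.ls (nat_lit 2) (nat_lit 3)) (T.ts (nat_lit 2) (T.im (nat_lit 7) (nat_lit 2)) T.ie))))) (T.ts (nat_lit 2) (T.im (nat_lit 7) (nat_lit 1)) T.ie))))) d712))
def d714 : T := (T.ts (nat_lit 3) d708 (T.ts (nat_lit 1) d709 (T.ts (nat_lit 0) d711 (T.ts (nat_lit 2) (T.im (nat_lit 5) (nat_lit 1)) (T.nw d713)))))
def d715 : T := (T.ts (nat_lit 3) (T.ts (nat_lit 3) (T.ls (nat_lit 2) (nat_lit 3)) (T.ts (nat_lit 1) (T.ls (nat_lit 3) (nat_lit 4)) (T.ts (nat_lit 0) (T.ls (nat_lit 2) (nat_lit 4)) (T.ts (nat_lit 2) (T.im (nat_lit 7) (nat_lit 2)) (T.nw (T.ls (nat_lit 2) (nat_lit 3))))))) (T.ts (nat_lit 1) (T.ts (nat_lit 3) (T.ls (nat_lit 3) (nat_lit 4)) (T.ts (nat_lit 1) (T.ts (nat_lit 3) (T.ts (nat_lit 2) (T.ts (nat_lit 1) (T.ts (nat_lit 1) (T.im (nat_lit 7) (nat_lit 4)) (T.sk (T.ls (nat_lit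 2) (nat_lit 4)))) (T.sk (T.ls (nat_lit 2) (nat_lit 4)))) (T.sk (T.ls (nat_lit 2) (nat_lit 4)))) (T.ts (nat_lit 0) (T.ls (nat_lit 2) (nat_lit 4)) (T.sk (T.ls (nat_lit 2) (nat_lit 4))))) (T.ts (nat_lit 0) (T.ls (nat_lit 2) (nat_lit 4)) (T.ts (nat_lit 2) (T.im (nat_lit 7) (nat_lit 2)) (T.nw (T.ls (nat_lit 2) (nat_lit 3))))))) (T.ts (nat_lit 0) (T.ts (nat_lit 1) (T.ls (nat_lit 3) (nat_lit 4)) (T.ts (nat_lit 0) (T.ls (nat_lit 2) (nat_lit 4)) (T.ts (nat_lit 3) (T.im (nat_lit 5) (nat_lit 3)) (T.ts (nat_lit 2) (T.im (nat_lit 7) (nat_lit 2)) (T.nw (T.ls (nat_lit 2) (nat_lit 3))))))) (T.ts (nat_lit 2) (T.im (nat_lit 7) (nat_lit 1)) (T.nw (T.ts (nat_lit 4) (T.ls (nat_lit 2) (nat_lit 3)) (T.ts (nat_lit 2) (T.ls (nat_lit 3) (nat_lit 4)) (T.ts (nat_lit 1) (T.ls (nat_lit 2) (nat_lit 4)) (T.ts (nat_lit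 0) (T.ls (nat_lit 2) (nat_lit 3)) (T.ts (nat_lit 3) (T.im (nat_lit 7) (nat_lit 2)) T.ie))))))))))
def d716 : T := (T.ts (nat_lit 1) (T.ts (nat_lit 3) (T.ts (nat_lit 3) (T.ls (nat_lit 2) (nat_lit 3)) (T.ts (nat_lit 2) (T.ls (nat_lit 3) (nat_lit 4)) (T.ts (nat_lit 0) (T.ls (nat_lit 2) (nat_lit 4)) (T.ts (nat_lit 1) (T.im (nat_lit 7) (nat_lit 2)) (T.nw (T.ls (nat_lit 2) (nat_lit 3))))))) (T.ts (nat_lit 2) (T.ts (nat_lit 3) (T.ls (nat_lit 2) (nat_lit 3)) (T.ts (nat_lit 2) (T.ls (nat_lit 2) (nat_lit 3)) (T.ts (nat_lit 0) (T.ls (nat_lit 2) (nat_lit 4)) (T.ts (nat_lit 1) (T.im (nat_lit 7) (nat_lit 2)) (T.nw (T.ls (nat_lit 2) (nat_lit 3))))))) (T.ts (nat_lit 0) (T.ts (nat_lit 2) (T.ls (nat_lit 2) (nat_lit 3)) (T.ts (nat_lit 3) (T.im (nat_lit 5) (nat_lit 3)) (T.ts (nat_lit 1) (T.im (nat_lit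 7) (nat_lit 2)) (T.ts (nat_lit 0) (T.im (nat_lit 3) (nat_lit 4)) (T.nw (T.ls (nat_lit 2) (nat_lit 3))))))) (T.ts (nat_lit 1) (T.im (nat_lit 7) (nat_lit 1)) (T.nw (T.ts (nat_lit 4) (T.ls (nat_lit 2) (nat_lit 3)) (T.ts (nat_lit 3) (T.ls (nat_lit 2) (nat_lit 3)) (T.ts (nat_lit 1) (T.ls (nat_lit 2) (nat_lit 4)) (T.ts (nat_lit 0) (T.ls (nat_lit 2) (nat_lit 3)) (T.ts (nat_lit 2) (T.im (nat_lit 7) (nat_lit 2)) T.ie)))))))))) (T.ts (nat_lit 0) (T.im (nat_lit 5) (nat_lit 2)) (T.nw (T.ts (nat_lit 4) (T.ts (nat_lit 4) (T.ls (nat_lit 2) (nat_lit 3)) (T.ts (nat_lit 3) (T.ls (nat_lit 2) (nat_lit 3)) (T.ts (nat_lit 2) (T.ls (nat_lit 3) (nat_lit 4)) (T.ts (nat_lit 1) (T.ls (nat_lit 2) (nat_lit 4)) (T.ts (nat_lit 0) (T.im (nat_lit 7) (nat_lit 2)) T.ie))))) (T.ts (nat_lit 3) (T.ts (nat_lit 4) (T.ls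 (nat_lit 2) (nat_lit 3)) (T.ts (nat_lit 3) (T.ls (nat_lit 2) (nat_lit 3)) (T.ts (nat_lit 2) (T.ls (nat_lit 3) (nat_lit 4)) (T.ts (nat_lit 1) (T.ls (nat_lit 2) (nat_lit 4)) (T.ts (nat_lit 0) (T.im (nat_lit 7) (nat_lit 2)) T.ie))))) (T.ts (nat_lit 2) (T.ts (nat_lit 4) (T.ls (nat_lit 3) (nat_lit 4)) (T.ts (nat_lit 3) (T.ls (nat_lit 2) (nat_lit 3)) (T.ts (nat_lit 2) (T.ls (nat_lit 3) (nat_lit 4)) (T.ts (nat_lit 1) (T.ls (nat_lit 2) (nat_lit 4)) (T.ts (nat_lit 0) (T.im (nat_lit 7) (nat_lit 2)) T.ie))))) (T.ts (nat_lit 1) (T.ts (nat_lit 3) (T.ls (nat_lit 2) (nat_lit 3)) (T.ts (nat_lit 2) (T.ls (nat_lit 3) (nat_lit 4)) (T.ts (nat_lit 1) (T.ls (nat_lit 2) (nat_lit 4)) (T.ts (nat_lit 4) (T.im (nat_lit 5) (nat_lit 3)) (T.ts (nat_lit 0) (T.im (nat_lit 7) (nat_lit 2)) T.ie))))) (T.ts (nat_lit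 0) (T.im (nat_lit 7) (nat_lit 1)) T.ie))))))))
def d717 : T := (T.ts (nat_lit 1) (T.ts (nat_lit 3) (T.ts (nat_lit 3) (T.ls (nat_lit 2) (nat_lit 3)) (T.ts (nat_lit 2) (T.ls (nat_lit 3) (nat_lit 4)) (T.ts (nat_lit 0) (T.ls (nat_lit 2) (nat_lit 4)) (T.ts (nat_lit 1) (T.im (nat_lit 7) (nat_lit 2)) (T.nw (T.ls (nat_lit 2) (nat_lit 3))))))) (T.ts (nat_lit 2) (T.ts (nat_lit 3) (T.ls (nat_lit 2) (nat_lit 3)) (T.ts (nat_lit 2) (T.ls (nat_lit 2) (nat_lit 3)) (T.ts (nat_lit 0) (T.ls (nat_lit 2) (nat_lit 4)) (T.ts (nat_lit 1) (T.im (nat_lit 7) (nat_lit 2)) (T.nw (T.ls (nat_lit 2) (nat_lit 3))))))) (T.ts (nat_lit 0) (T.ts (nat_lit 3) (T.ls (nat_lit 2) (nat_lit 4)) (T.ts (nat_lit 2) (T.im (nat_lit 5) (nat_lit 3)) (T.ts (nat_lit 1) (T.im (nat_lit 7) (nat_lit 2)) (T.ts (nat_lit 0) (T.im (nat_lit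 3) (nat_lit 4)) (T.nw (T.ls (nat_lit 2) (nat_lit 3))))))) (T.ts (nat_lit 1) (T.im (nat_lit 7) (nat_lit 1)) (T.nw (T.ts (nat_lit 4) (T.ls (nat_lit 2) (nat_lit 3)) (T.ts (nat_lit 3) (T.ls (nat_lit 2) (nat_lit 3)) (T.ts (nat_lit 1) (T.ls (nat_lit 2) (nat_lit 4)) (T.ts (nat_lit 0) (T.ls (nat_lit 2) (nat_lit 3)) (T.ts (nat_lit 2) (T.im (nat_lit 7) (nat_lit 2)) T.ie)))))))))) (T.ts (nat_lit 0) (T.im (nat_lit 5) (nat_lit 2)) (T.nw (T.ts (nat_lit 4) (T.ts (nat_lit 4) (T.ls (nat_lit 2) (nat_lit 3)) (T.ts (nat_lit 3) (T.ls (nat_lit 2) (nat_lit 3)) (T.ts (nat_lit 2) (T.ls (nat_lit 3) (nat_lit 4)) (T.ts (nat_lit 1) (T.ls (nat_lit 2) (nat_lit 4)) (T.ts (nat_lit 0) (T.im (nat_lit 7) (nat_lit 2)) T.ie))))) (T.ts (nat_lit 3) (T.ts (nat_lit 4) (T.ls (nat_lit 2) (nat_lit 3)) (T.ts (nat_lit 3) (T.ls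 (nat_lit 2) (nat_lit 3)) (T.ts (nat_lit 2) (T.ls (nat_lit 3) (nat_lit 4)) (T.ts (nat_lit 1) (T.ls (nat_lit 2) (nat_lit 4)) (T.ts (nat_lit 0) (T.im (nat_lit 7) (nat_lit 2)) T.ie))))) (T.ts (nat_lit 2) (T.ts (nat_lit 4) (T.ls (nat_lit 3) (nat_lit 4)) (T.ts (nat_lit 3) (T.ls (nat_lit 2) (nat_lit 3)) (T.ts (nat_lit 2) (T.ls (nat_lit 3) (nat_lit 4)) (T.ts (nat_lit 1) (T.ls (nat_lit 2) (nat_lit 4)) (T.ts (nat_lit 0) (T.im (nat_lit 7) (nat_lit 2)) T.ie))))) (T.ts (nat_lit 1) (T.ts (nat_lit 4) (T.ls (nat_lit 2) (nat_lit 4)) (T.ts (nat_lit 2) (T.ls (nat_lit 3) (nat_lit 4)) (T.ts (nat_lit 1) (T.ls (nat_lit 2) (nat_lit 4)) (T.ts (nat_lit 3) (T.im (nat_lit 5) (nat_lit 3)) (T.ts (nat_lit 0) (T.im (nat_lit 7) (nat_lit 2)) T.ie))))) (T.ts (nat_lit 0) (T.im (nat_lit 7) (nat_lit 1)) T.ie))))))))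
def d718 : T := (T.ts (nat_lit 3) (T.ts (nat_lit 2) (T.ts (nat_lit 2) (T.ls (nat_lit 2) (nat_lit 3)) (T.ts (nat_lit 1) (T.ls (nat_lit 3) (nat_lit 4)) (T.ts (nat_lit 0) (T.ls (nat_lit 2) (nat_lit 4)) (T.ts (nat_lit 3) (T.im (nat_lit 7) (nat_lit 2)) (T.nw (T.ls (nat_lit 2) (nat_lit 3))))))) (T.ts (nat_lit 1) (T.ts (nat_lit 2) (T.ls (nat_lit 2) (nat_lit 3)) (T.ts (nat_lit 1) (T.ls (nat_lit 3) (nat_lit 4)) (T.ts (nat_lit 0) (T.ls (nat_lit 2) (nat_lit 4)) (T.ts (nat_lit 3) (T.im (nat_lit 7) (nat_lit 2)) (T.nw (T.ls (nat_lit 2) (nat_lit 3))))))) (T.ts (nat_lit 0) (T.ts (nat_lit 1) (T.ls (nat_lit 3) (nat_lit 4)) (T.ts (nat_lit 0) (T.ls (nat_lit 2) (nat_lit 4)) (T.ts (nat_lit 3) (T.im (nat_lit 7) (nat_lit 2)) (T.ts (nat_lit 2) (T.im (nat_lit 5) (nat_lit 3)) (T.nw (T.ls (nat_lit 2) (nat_lit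 3))))))) (T.ts (nat_lit 3) (T.im (nat_lit 7) (nat_lit 1)) (T.nw (T.ts (nat_lit 3) (T.ls (nat_lit 2) (nat_lit 3)) (T.ts (nat_lit 2) (T.ls (nat_lit 3) (nat_lit 4)) (T.ts (nat_lit 1) (T.ls (nat_lit 2) (nat_lit 4)) (T.ts (nat_lit 0) (T.ls (nat_lit 2) (nat_lit 3)) (T.ts (nat_lit 4) (T.im (nat_lit 7) (nat_lit 2)) T.ie)))))))))) (T.ts (nat_lit 2) (T.ts (nat_lit 3) (T.ts (nat_lit 3) (T.ls (nat_lit 2) (nat_lit 3)) (T.ts (nat_lit 1) (T.ls (nat_lit 3) (nat_lit 4)) (T.ts (nat_lit 0) (T.ls (nat_lit 2) (nat_lit 4)) (T.ts (nat_lit 2) (T.im (nat_lit 7) (nat_lit 2)) (T.nw (T.ls (nat_lit 2) (nat_lit 3))))))) (T.ts (nat_lit 1) (T.ts (nat_lit 3) (T.ls (nat_lit 3) (nat_lit 4)) (T.ts (nat_lit 1) (T.ls (nat_lit 3) (nat_lit 4)) (T.ts (nat_lit 0) (T.ls (nat_lit 2) (nat_lit 4)) (T.ts (nat_lit 2) (T.im (nat_lit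 7) (nat_lit 2)) (T.nw (T.ls (nat_lit 2) (nat_lit 3))))))) (T.ts (nat_lit 0) (T.ts (nat_lit 3) (T.ls (nat_lit 2) (nat_lit 4)) (T.ts (nat_lit 1) (T.ls (nat_lit 3) (nat_lit 4)) (T.ts (nat_lit 0) (T.ls (nat_lit 2) (nat_lit 4)) (T.ts (nat_lit 2) (T.im (nat_lit 5) (nat_lit 3)) (T.nw (T.ls (nat_lit 2) (nat_lit 3))))))) (T.ts (nat_lit 2) (T.im (nat_lit 7) (nat_lit 1)) (T.nw (T.ts (nat_lit 4) (T.ls (nat_lit 2) (nat_lit 3)) (T.ts (nat_lit 2) (T.ls (nat_lit 3) (nat_lit 4)) (T.ts (nat_lit 1) (T.ls (nat_lit 2) (nat_lit 4)) (T.ts (nat_lit 0) (T.ls (nat_lit 2) (nat_lit 3)) (T.ts (nat_lit 3) (T.im (nat_lit 7) (nat_lit 2)) T.ie)))))))))) d717))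
def d719 : T := (T.ts (nat_lit 1) (T.ts (nat_lit 3) (T.ts (nat_lit 3) (T.ls (nat_lit 2) (nat_lit 3)) (T.ts (nat_lit 2) (T.ls (nat_lit 3) (nat_lit 4)) (T.ts (nat_lit 0) (T.ls (nat_lit 2) (nat_lit 4)) (T.ts (nat_lit 1) (T.im (nat_lit 7) (nat_lit 2)) (T.nw (T.ls (nat_lit 2) (nat_lit 3))))))) (T.ts (nat_lit 2) (T.ts (nat_lit 3) (T.ls (nat_lit 2) (nat_lit 3)) (T.ts (nat_lit 2) (T.ls (nat_lit 2) (nat_lit 3)) (T.ts (nat_lit 0) (T.ls (nat_lit 2) (nat_lit 4)) (T.ts (nat_lit 1) (T.im (nat_lit 7) (nat_lit 2)) (T.nw (T.ls (nat_lit 2) (nat_lit 3))))))) (T.ts (nat_lit 0) (T.ts (nat_lit 3) (T.ls (nat_lit 2) (nat_lit 4)) (T.ts (nat_lit 2) (T.ls (nat_lit 2) (nat_lit 3)) (T.ts (nat_lit 1) (T.im (nat_lit 5) (nat_lit 3)) (T.ts (nat_lit 0) (T.im (nat_lit 3) (nat_lit 4)) (T.nw (T.ls (nat_lit 2) (nat_lit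 3))))))) (T.ts (nat_lit 1) (T.im (nat_lit 7) (nat_lit 1)) (T.nw (T.ts (nat_lit 4) (T.ls (nat_lit 2) (nat_lit 3)) (T.ts (nat_lit 3) (T.ls (nat_lit 2) (nat_lit 3)) (T.ts (nat_lit 1) (T.ls (nat_lit 2) (nat_lit 4)) (T.ts (nat_lit 0) (T.ls (nat_lit 2) (nat_lit 3)) (T.ts (nat_lit 2) (T.im (nat_lit 7) (nat_lit 2)) T.ie)))))))))) (T.ts (nat_lit 0) (T.im (nat_lit 3) (nat_lit 3)) (T.nw (T.ts (nat_lit 4) (T.ts (nat_lit 4) (T.ls (nat_lit 2) (nat_lit 3)) (T.ts (nat_lit 3) (T.ls (nat_lit 2) (nat_lit 3)) (T.ts (nat_lit 2) (T.ls (nat_lit 3) (nat_lit 4)) (T.ts (nat_lit 1) (T.ls (nat_lit 2) (nat_lit 4)) (T.ts (nat_lit 0) (T.im (nat_lit 7) (nat_lit 2)) T.ie))))) (T.ts (nat_lit 3) (T.ts (nat_lit 4) (T.ls (nat_lit 2) (nat_lit 3)) (T.ts (nat_lit 3) (T.ls (nat_lit 2) (nat_lit 3)) (T.ts (nat_lit 2) (T.ls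 (nat_lit 3) (nat_lit 4)) (T.ts (nat_lit 1) (T.ls (nat_lit 2) (nat_lit 4)) (T.ts (nat_lit 0) (T.im (nat_lit 7) (nat_lit 2)) T.ie))))) (T.ts (nat_lit 2) (T.ts (nat_lit 4) (T.ls (nat_lit 3) (nat_lit 4)) (T.ts (nat_lit 3) (T.ls (nat_lit 2) (nat_lit 3)) (T.ts (nat_lit 2) (T.ls (nat_lit 3) (nat_lit 4)) (T.ts (nat_lit 1) (T.ls (nat_lit 2) (nat_lit 4)) (T.ts (nat_lit 0) (T.im (nat_lit 7) (nat_lit 2)) T.ie))))) (T.ts (nat_lit 1) (T.ts (nat_lit 4) (T.ls (nat_lit 2) (nat_lit 4)) (T.ts (nat_lit 3) (T.ls (nat_lit 2) (nat_lit 3)) (T.ts (nat_lit 1) (T.ls (nat_lit 2) (nat_lit 4)) (T.ts (nat_lit 2) (T.im (nat_lit 5) (nat_lit 3)) (T.ts (nat_lit 0) (T.im (nat_lit 7) (nat_lit 2)) T.ie))))) (T.ts (nat_lit 0) (T.im (nat_lit 7) (nat_lit 1)) T.ie))))))))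
def d720 : T := (T.ts (nat_lit 3) (T.ts (nat_lit 2) (T.ts (nat_lit 2) (T.ls (nat_lit 2) (nat_lit 3)) (T.ts (nat_lit 1) (T.ls (nat_lit 3) (nat_lit 4)) (T.ts (nat_lit 0) (T.ls (nat_lit 2) (nat_lit 4)) (T.ts (nat_lit 3) (T.im (nat_lit 7) (nat_lit 2)) (T.nw (T.ls (nat_lit 2) (nat_lit 3))))))) (T.ts (nat_lit 1) (T.ts (nat_lit 2) (T.ls (nat_lit 2) (nat_lit 3)) (T.ts (nat_lit 1) (T.ls (nat_lit 3) (nat_lit 4)) (T.ts (nat_lit 0) (T.ls (nat_lit 2) (nat_lit 4)) (T.ts (nat_lit 3) (T.im (nat_lit 7) (nat_lit 2)) (T.nw (T.ls (nat_lit 2) (nat_lit 3))))))) (T.ts (nat_lit 0) (T.ts (nat_lit 2) (T.ls (nat_lit 2) (nat_lit 3)) (T.ts (nat_lit 0) (T.ls (nat_lit 2) (nat_lit 4)) (T.ts (nat_lit 3) (T.im (nat_lit 7) (nat_lit 2)) (T.ts (nat_lit 1) (T.im (nat_lit 5) (nat_lit 3)) (T.nw (T.ls (nat_lit 2) (nat_lit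 3))))))) (T.ts (nat_lit 3) (T.im (nat_lit 7) (nat_lit 1)) (T.nw (T.ts (nat_lit 3) (T.ls (nat_lit 2) (nat_lit 3)) (T.ts (nat_lit 2) (T.ls (nat_lit 3) (nat_lit 4)) (T.ts (nat_lit 1) (T.ls (nat_lit 2) (nat_lit 4)) (T.ts (nat_lit 0) (T.ls (nat_lit 2) (nat_lit 3)) (T.ts (nat_lit 4) (T.im (nat_lit 7) (nat_lit 2)) T.ie)))))))))) (T.ts (nat_lit 2) (T.ts (nat_lit 3) (T.ts (nat_lit 3) (T.ls (nat_lit 2) (nat_lit 3)) (T.ts (nat_lit 1) (T.ls (nat_lit 3) (nat_lit 4)) (T.ts (nat_lit 0) (T.ls (nat_lit 2) (nat_lit 4)) (T.ts (nat_lit 2) (T.im (nat_lit 7) (nat_lit 2)) (T.nw (T.ls (nat_lit 2) (nat_lit 3))))))) (T.ts (nat_lit 1) (T.ts (nat_lit 3) (T.ls (nat_lit 3) (nat_lit 4)) (T.ts (nat_lit 1) (T.ls (nat_lit 3) (nat_lit 4)) (T.ts (nat_lit 0) (T.ls (nat_lit 2) (nat_lit 4)) (T.ts (nat_lit 2) (T.im (nat_lit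 7) (nat_lit 2)) (T.nw (T.ls (nat_lit 2) (nat_lit 3))))))) (T.ts (nat_lit 0) (T.ts (nat_lit 3) (T.ls (nat_lit 2) (nat_lit 4)) (T.ts (nat_lit 0) (T.ls (nat_lit 2) (nat_lit 4)) (T.ts (nat_lit 2) (T.im (nat_lit 7) (nat_lit 2)) (T.ts (nat_lit 1) (T.im (nat_lit 5) (nat_lit 3)) (T.nw (T.ls (nat_lit 2) (nat_lit 3))))))) (T.ts (nat_lit 2) (T.im (nat_lit 7) (nat_lit 1)) (T.nw (T.ts (nat_lit 4) (T.ls (nat_lit 2) (nat_lit 3)) (T.ts (nat_lit 2) (T.ls (nat_lit 3) (nat_lit 4)) (T.ts (nat_lit 1) (T.ls (nat_lit 2) (nat_lit 4)) (T.ts (nat_lit 0) (T.ls (nat_lit 2) (nat_lit 3)) (T.ts (nat_lit 3) (T.im (nat_lit 7) (nat_lit 2)) T.ie)))))))))) d719))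
def d721 : T := (T.ts (nat_lit 2) (T.ts (nat_lit 4) (T.ts (nat_lit 4) (T.ls (nat_lit 2) (nat_lit 3)) (T.ts (nat_lit 3) (T.ls (nat_lit 3) (nat_lit 4)) (T.ts (nat_lit 1) (T.ls (nat_lit 2) (nat_lit 4)) (T.ts (nat_lit 0) (T.ls (nat_lit 2) (nat_lit 3)) (T.ts (nat_lit 2) (T.im (nat_lit 7) (nat_lit 2)) T.ie))))) (T.ts (nat_lit 3) (T.ts (nat_lit 4) (T.ls (nat_lit 2) (nat_lit 3)) (T.ts (nat_lit 3) (T.ls (nat_lit 2) (nat_lit 3)) (T.ts (nat_lit 1) (T.ls (nat_lit 2) (nat_lit 4)) (T.ts (nat_lit 0) (T.ls (nat_lit 2) (nat_lit 3)) (T.ts (nat_lit 2) (T.im (nat_lit 7) (nat_lit 2)) T.ie))))) (T.ts (nat_lit 1) (T.ts (nat_lit 4) (T.ls (nat_lit 2) (nat_lit 4)) (T.ts (nat_lit 3) (T.ls (nat_lit 2) (nat_lit 3)) (T.ts (nat_lit 2) (T.im (nat_lit 7) (nat_lit 2)) (T.ts (nat_lit 1) (T.im (nat_lit 3) (nat_lit 4))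 (T.ts (nat_lit 0) (T.im (nat_lit 5) (nat_lit 3)) T.ie))))) (T.ts (nat_lit 0) (T.ts (nat_lit 4) (T.ls (nat_lit 2) (nat_lit 3)) (T.ts (nat_lit 3) (T.ls (nat_lit 2) (nat_lit 3)) (T.ts (nat_lit 1) (T.ls (nat_lit 2) (nat_lit 4)) (T.ts (nat_lit 0) (T.ls (nat_lit 2) (nat_lit 3)) (T.ts (nat_lit 2) (T.im (nat_lit 7) (nat_lit 2)) T.ie))))) (T.ts (nat_lit 2) (T.im (nat_lit 7) (nat_lit 1)) T.ie))))) (T.ts (nat_lit 0) (T.ts (nat_lit 4) (T.ts (nat_lit 4) (T.ls (nat_lit 2) (nat_lit 3)) (T.ts (nat_lit 3) (T.ls (nat_lit 2) (nat_lit 3)) (T.ts (nat_lit 2) (T.ls (nat_lit 3) (nat_lit 4)) (T.ts (nat_lit 1) (T.ls (nat_lit 2) (nat_lit 4)) (T.ts (nat_lit 0) (T.im (nat_lit 7) (nat_lit 2)) T.ie))))) (T.ts (nat_lit 3) (T.ts (nat_lit 4) (T.ls (nat_lit 2) (nat_lit 3)) (T.ts (nat_lit 3) (T.ls (nat_lit 2) (nat_lit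 3)) (T.ts (nat_lit 2) (T.ls (nat_lit 3) (nat_lit 4)) (T.ts (nat_lit 1) (T.ls (nat_lit 2) (nat_lit 4)) (T.ts (nat_lit 0) (T.im (nat_lit 7) (nat_lit 2)) T.ie))))) (T.ts (nat_lit 2) (T.ts (nat_lit 4) (T.ls (nat_lit 3) (nat_lit 4)) (T.ts (nat_lit 3) (T.ls (nat_lit 2) (nat_lit 3)) (T.ts (nat_lit 2) (T.ls (nat_lit 3) (nat_lit 4)) (T.ts (nat_lit 1) (T.ls (nat_lit 2) (nat_lit 4)) (T.ts (nat_lit 0) (T.im (nat_lit 7) (nat_lit 2)) T.ie))))) (T.ts (nat_lit 1) (T.ts (nat_lit 4) (T.ls (nat_lit 2) (nat_lit 4)) (T.ts (nat_lit 3) (T.ls (nat_lit 2) (nat_lit 3)) (T.ts (nat_lit 2) (T.ls (nat_lit 3) (nat_lit 4)) (T.ts (nat_lit 1) (T.ls (nat_lit 2) (nat_lit 4)) (T.ts (nat_lit 0) (T.im (nat_lit 5) (nat_lit 3)) T.ie))))) (T.ts (nat_lit 0) (T.im (nat_lit 7) (nat_lit 1)) T.ie))))) (T.ts (nat_lit 1) (T.im (nat_lit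 5) (nat_lit 2)) T.ie)))
def d722 : T := (T.ts (nat_lit 4) (T.ts (nat_lit 3) (T.ts (nat_lit 3) (T.ls (nat_lit 2) (nat_lit 3)) (T.ts (nat_lit 2) (T.ts (nat_lit 4) (T.ls (nat_lit 3) (nat_lit 4)) (T.ts (nat_lit 2) (T.im (nat_lit 9) (nat_lit 1)) (T.sk (T.ls (nat_lit 2) (nat_lit 3))))) (T.ts (nat_lit 1) (T.ls (nat_lit 2) (nat_lit 4)) (T.ts (nat_lit 0) (T.ls (nat_lit 2) (nat_lit 3)) (T.ts (nat_lit 4) (T.im (nat_lit 7) (nat_lit 2)) T.ie))))) (T.ts (nat_lit 2) (T.ts (nat_lit 3) (T.ls (nat_lit 2) (nat_lit 3)) (T.ts (nat_lit 2) (T.ls (nat_lit 3) (nat_lit 4)) (T.ts (nat_lit 1) (T.ls (nat_lit 2) (nat_lit 4)) (T.ts (nat_lit 0) (T.ls (nat_lit 2) (nat_lit 3)) (T.ts (nat_lit 4) (T.im (nat_lit 7) (nat_lit 2)) T.ie))))) (T.ts (nat_lit 1) (T.ts (nat_lit 3) (T.ls (nat_lit 2) (nat_lit 3)) (T.ts (nat_lit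 2) (T.ls (nat_lit 3) (nat_lit 4)) (T.ts (nat_lit 1) (T.ls (nat_lit 2) (nat_lit 4)) (T.ts (nat_lit 4) (T.im (nat_lit 7) (nat_lit 2)) (T.ts (nat_lit 0) (T.im (nat_lit 5) (nat_lit 3)) T.ie))))) (T.ts (nat_lit 0) (T.ts (nat_lit 3) (T.ls (nat_lit 2) (nat_lit 3)) (T.ts (nat_lit 2) (T.ls (nat_lit 3) (nat_lit 4)) (T.ts (nat_lit 1) (T.ls (nat_lit 2) (nat_lit 4)) (T.ts (nat_lit 0) (T.ls (nat_lit 2) (nat_lit 3)) (T.ts (nat_lit 4) (T.im (nat_lit 7) (nat_lit 2)) T.ie))))) (T.ts (nat_lit 4) (T.im (nat_lit 7) (nat_lit 1)) T.ie))))) (T.ts (nat_lit 3) (T.ts (nat_lit 4) (T.ts (nat_lit 4) (T.ls (nat_lit 2) (nat_lit 3)) (T.ts (nat_lit 2) (T.ls (nat_lit 3) (nat_lit 4)) (T.ts (nat_lit 1) (T.ls (nat_lit 2) (nat_lit 4)) (T.ts (nat_lit 0) (T.ls (nat_lit 2) (nat_lit 3)) (T.ts (nat_lit 3) (T.im (nat_lit 7)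 (nat_lit 2)) T.ie))))) (T.ts (nat_lit 2) (T.ts (nat_lit 4) (T.ls (nat_lit 3) (nat_lit 4)) (T.ts (nat_lit 2) (T.ls (nat_lit 3) (nat_lit 4)) (T.ts (nat_lit 1) (T.ls (nat_lit 2) (nat_lit 4)) (T.ts (nat_lit 0) (T.ls (nat_lit 2) (nat_lit 3)) (T.ts (nat_lit 3) (T.im (nat_lit 7) (nat_lit 2)) T.ie))))) (T.ts (nat_lit 1) (T.ts (nat_lit 4) (T.ls (nat_lit 2) (nat_lit 4)) (T.ts (nat_lit 2) (T.ls (nat_lit 3) (nat_lit 4)) (T.ts (nat_lit 1) (T.ls (nat_lit 2) (nat_lit 4)) (T.ts (nat_lit 3) (T.im (nat_lit 7) (nat_lit 2)) (T.ts (nat_lit 0) (T.im (nat_lit 5) (nat_lit 3)) T.ie))))) (T.ts (nat_lit 0) (T.ts (nat_lit 4) (T.ls (nat_lit 2) (nat_lit 3)) (T.ts (nat_lit 2) (T.ls (nat_lit 3) (nat_lit 4)) (T.ts (nat_lit 1) (T.ls (nat_lit 2) (nat_lit 4)) (T.ts (nat_lit 0) (T.ls (nat_lit 2) (nat_lit 3)) (T.ts (nat_lit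 3) (T.im (nat_lit 7) (nat_lit 2)) T.ie))))) (T.ts (nat_lit 3) (T.im (nat_lit 7) (nat_lit 1)) T.ie))))) d721))
def d723 : T := (T.ts (nat_lit 3) (T.ts (nat_lit 3) (T.ts (nat_lit 2) (T.ts (nat_lit 2) (T.ls (nat_lit 2) (nat_lit 3)) (T.ts (nat_lit 1) (T.ls (nat_lit 3) (nat_lit 4)) (T.ts (nat_lit 0) (T.ls (nat_lit 2) (nat_lit 4)) (T.ts (nat_lit 3) (T.im (nat_lit 7) (nat_lit 2)) (T.nw (T.ls (nat_lit 2) (nat_lit 3))))))) (T.ts (nat_lit 1) (T.ts (nat_lit 2) (T.ls (nat_lit 2) (nat_lit 3)) (T.ts (nat_lit 1) (T.ls (nat_lit 3) (nat_lit 4)) (T.ts (nat_lit 0) (T.ls (nat_lit 2) (nat_lit 4)) (T.ts (nat_lit 3) (T.im (nat_lit 7) (nat_lit 2)) (T.nw (T.ls (nat_lit 2) (nat_lit 3))))))) (T.ts (nat_lit 0) (T.ts (nat_lit 2) (T.ls (nat_lit 2) (nat_lit 3)) (T.ts (nat_lit 1) (T.ls (nat_lit 3) (nat_lit 4)) (T.ts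 (nat_lit 0) (T.ls (nat_lit 2) (nat_lit 4)) (T.ts (nat_lit 3) (T.im (nat_lit 5) (nat_lit 3)) (T.nw (T.ls (nat_lit 2) (nat_lit 3))))))) (T.ts (nat_lit 3) (T.im (nat_lit 7) (nat_lit 1)) (T.nw (T.ts (nat_lit 3) (T.ls (nat_lit 2) (nat_lit 3)) (T.ts (nat_lit 2) (T.ls (nat_lit 3) (nat_lit 4)) (T.ts (nat_lit 1) (T.ls (nat_lit 2) (nat_lit 4)) (T.ts (nat_lit 0) (T.ls (nat_lit 2) (nat_lit 3)) (T.ts (nat_lit 4) (T.im (nat_lit 7) (nat_lit 2)) T.ie)))))))))) (T.ts (nat_lit 2) d715 d716)) (T.ts (nat_lit 2) d718 (T.ts (nat_lit 1) d720 (T.ts (nat_lit 0) (T.im (nat_lit 5) (nat_lit 1)) (T.nw d722)))))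
def d724 : T := (T.ts (nat_lit 4) (T.ts (nat_lit 4) (T.ls (nat_lit 2) (nat_lit 3)) (T.ts (nat_lit 2) (T.ls (nat_lit 3) (nat_lit 4)) (T.ts (nat_lit 1) (T.ls (nat_lit 2) (nat_lit 4)) (T.ts (nat_lit 0) (T.ls (nat_lit 2) (nat_lit 3)) (T.ts (nat_lit 3) (T.im (nat_lit 7) (nat_lit 2)) T.ie))))) (T.ts (nat_lit 2) (T.ts (nat_lit 4) (T.ls (nat_lit 3) (nat_lit 4)) (T.ts (nat_lit 2) (T.ts (nat_lit 4) (T.ts (nat_lit 3) (T.ts (nat_lit 2) (T.ts (nat_lit 2) (T.im (nat_lit 7) (nat_lit 4)) (T.sk (T.ls (nat_lit 2) (nat_lit 3)))) (T.sk (T.ls (nat_lit 2) (nat_lit 3)))) (T.sk (T.ls (nat_lit 2) (nat_lit 3)))) (T.ts (nat_lit 1) (T.ls (nat_lit 2) (nat_lit 3)) (T.sk (T.ls (nat_lit 2) (nat_lit 3))))) (T.ts (nat_lit 1) (T.ls (nat_lit 2) (nat_lit 4)) (T.ts (nat_lit 0) (T.ls (nat_lit 2) (nat_lit 3)) (T.ts (nat_lit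 3) (T.im (nat_lit 7) (nat_lit 2)) T.ie))))) (T.ts (nat_lit 1) (T.ts (nat_lit 4) (T.ls (nat_lit 2) (nat_lit 4)) (T.ts (nat_lit 2) (T.ls (nat_lit 3) (nat_lit 4)) (T.ts (nat_lit 1) (T.ls (nat_lit 2) (nat_lit 4)) (T.ts (nat_lit 0) (T.ls (nat_lit 2) (nat_lit 3)) (T.ts (nat_lit 3) (T.im (nat_lit 7) (nat_lit 2)) T.ie))))) (T.ts (nat_lit 0) (T.ts (nat_lit 2) (T.ls (nat_lit 3) (nat_lit 4)) (T.ts (nat_lit 1) (T.ls (nat_lit 2) (nat_lit 4)) (T.ts (nat_lit 0) (T.ls (nat_lit 2) (nat_lit 3)) (T.ts (nat_lit 4) (T.im (nat_lit 5) (nat_lit 3)) (T.ts (nat_lit 3) (T.im (nat_lit 7) (nat_lit 2)) T.ie))))) (T.ts (nat_lit 3) (T.im (nat_lit 7) (nat_lit 1)) T.ie)))))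
def d725 : T := (T.ts (nat_lit 2) (T.ts (nat_lit 4) (T.ts (nat_lit 4) (T.ls (nat_lit 2) (nat_lit 3)) (T.ts (nat_lit 3) (T.ls (nat_lit 3) (nat_lit 4)) (T.ts (nat_lit 1) (T.ls (nat_lit 2) (nat_lit 4)) (T.ts (nat_lit 0) (T.ls (nat_lit 2) (nat_lit 3)) (T.ts (nat_lit 2) (T.im (nat_lit 7) (nat_lit 2)) T.ie))))) (T.ts (nat_lit 3) (T.ts (nat_lit 4) (T.ls (nat_lit 2) (nat_lit 3)) (T.ts (nat_lit 3) (T.ls (nat_lit 2) (nat_lit 3)) (T.ts (nat_lit 1) (T.ls (nat_lit 2) (nat_lit 4)) (T.ts (nat_lit 0) (T.ls (nat_lit 2) (nat_lit 3)) (T.ts (nat_lit 2) (T.im (nat_lit 7) (nat_lit 2)) T.ie))))) (T.ts (nat_lit 1) (T.ts (nat_lit 4) (T.ls (nat_lit 2) (nat_lit 4)) (T.ts (nat_lit 3) (T.ls (nat_lit 2) (nat_lit 3)) (T.ts (nat_lit 1) (T.ls (nat_lit 2) (nat_lit 4)) (T.ts (nat_lit 2) (T.im (nat_lit 7) (nat_lit 2))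 (T.ts (nat_lit 0) (T.im (nat_lit 3) (nat_lit 4)) T.ie))))) (T.ts (nat_lit 0) (T.ts (nat_lit 3) (T.ls (nat_lit 2) (nat_lit 3)) (T.ts (nat_lit 1) (T.ls (nat_lit 2) (nat_lit 4)) (T.ts (nat_lit 0) (T.ls (nat_lit 2) (nat_lit 3)) (T.ts (nat_lit 4) (T.im (nat_lit 5) (nat_lit 3)) (T.ts (nat_lit 2) (T.im (nat_lit 7) (nat_lit 2)) T.ie))))) (T.ts (nat_lit 2) (T.im (nat_lit 7) (nat_lit 1)) T.ie))))) (T.ts (nat_lit 1) (T.ts (nat_lit 4) (T.ts (nat_lit 4) (T.ls (nat_lit 2) (nat_lit 3)) (T.ts (nat_lit 3) (T.ls (nat_lit 2) (nat_lit 4)) (T.ts (nat_lit 2) (T.ls (nat_lit 3) (nat_lit 4)) (T.ts (nat_lit 0) (T.ls (nat_lit 2) (nat_lit 3)) (T.ts (nat_lit 1) (T.im (nat_lit 7) (nat_lit 2)) T.ie))))) (T.ts (nat_lit 3) (T.ts (nat_lit 4) (T.ls (nat_lit 2) (nat_lit 3)) (T.ts (nat_lit 3) (T.ls (nat_lit 2) (nat_lit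 3)) (T.ts (nat_lit 2) (T.ls (nat_lit 3) (nat_lit 4)) (T.ts (nat_lit 0) (T.ls (nat_lit 2) (nat_lit 3)) (T.ts (nat_lit 1) (T.im (nat_lit 7) (nat_lit 2)) T.ie))))) (T.ts (nat_lit 2) (T.ts (nat_lit 4) (T.ls (nat_lit 3) (nat_lit 4)) (T.ts (nat_lit 3) (T.ls (nat_lit 2) (nat_lit 3)) (T.ts (nat_lit 2) (T.ls (nat_lit 3) (nat_lit 4)) (T.ts (nat_lit 0) (T.ls (nat_lit 2) (nat_lit 3)) (T.ts (nat_lit 1) (T.im (nat_lit 7) (nat_lit 2)) T.ie))))) (T.ts (nat_lit 0) (T.ts (nat_lit 3) (T.ls (nat_lit 2) (nat_lit 3)) (T.ts (nat_lit 2) (T.ls (nat_lit 3) (nat_lit 4)) (T.ts (nat_lit 0) (T.ls (nat_lit 2) (nat_lit 3)) (T.ts (nat_lit 4) (T.im (nat_lit 5) (nat_lit 3)) (T.ts (nat_lit 1) (T.im (nat_lit 7) (nat_lit 2)) T.ie))))) (T.ts (nat_lit 1) (T.im (nat_lit 7) (nat_lit 1)) T.ie))))) (T.ts (nat_lit 0) (T.im (nat_lit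 5) (nat_lit 2)) T.ie)))
def d726 : T := (T.ts (nat_lit 2) (T.ts (nat_lit 4) (T.ts (nat_lit 4) (T.ls (nat_lit 2) (nat_lit 3)) (T.ts (nat_lit 3) (T.ls (nat_lit 3) (nat_lit 4)) (T.ts (nat_lit 1) (T.ls (nat_lit 2) (nat_lit 4)) (T.ts (nat_lit 0) (T.ls (nat_lit 2) (nat_lit 3)) (T.ts (nat_lit 2) (T.im (nat_lit 7) (nat_lit 2)) T.ie))))) (T.ts (nat_lit 3) (T.ts (nat_lit 4) (T.ls (nat_lit 2) (nat_lit 3)) (T.ts (nat_lit 3) (T.ls (nat_lit 2) (nat_lit 3)) (T.ts (nat_lit 1) (T.ls (nat_lit 2) (nat_lit 4)) (T.ts (nat_lit 0) (T.ls (nat_lit 2) (nat_lit 3)) (T.ts (nat_lit 2) (T.im (nat_lit 7) (nat_lit 2)) T.ie))))) (T.ts (nat_lit 1) (T.ts (nat_lit 4) (T.ls (nat_lit 2) (nat_lit 4)) (T.ts (nat_lit 3) (T.ls (nat_lit 2) (nat_lit 3)) (T.ts (nat_lit 1) (T.ls (nat_lit 2) (nat_lit 4)) (T.ts (nat_lit 2) (T.im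 (nat_lit 7) (nat_lit 2)) (T.ts (nat_lit 0) (T.im (nat_lit 3) (nat_lit 4)) T.ie))))) (T.ts (nat_lit 0) (T.ts (nat_lit 4) (T.ls (nat_lit 2) (nat_lit 3)) (T.ts (nat_lit 1) (T.ls (nat_lit 2) (nat_lit 4)) (T.ts (nat_lit 0) (T.ls (nat_lit 2) (nat_lit 3)) (T.ts (nat_lit 3) (T.im (nat_lit 5) (nat_lit 3)) (T.ts (nat_lit 2) (T.im (nat_lit 7) (nat_lit 2)) T.ie))))) (T.ts (nat_lit 2) (T.im (nat_lit 7) (nat_lit 1)) T.ie))))) (T.ts (nat_lit 1) (T.ts (nat_lit 4) (T.ts (nat_lit 4) (T.ls (nat_lit 2) (nat_lit 3)) (T.ts (nat_lit 3) (T.ls (nat_lit 2) (nat_lit 4)) (T.ts (nat_lit 2) (T.ls (nat_lit 3) (nat_lit 4)) (T.ts (nat_lit 0) (T.ls (nat_lit 2) (nat_lit 3)) (T.ts (nat_lit 1) (T.im (nat_lit 7) (nat_lit 2)) T.ie))))) (T.ts (nat_lit 3) (T.ts (nat_lit 4) (T.ls (nat_lit 2) (nat_lit 3)) (T.ts (nat_lit 3)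 (T.ls (nat_lit 2) (nat_lit 3)) (T.ts (nat_lit 2) (T.ls (nat_lit 3) (nat_lit 4)) (T.ts (nat_lit 0) (T.ls (nat_lit 2) (nat_lit 3)) (T.ts (nat_lit 1) (T.im (nat_lit 7) (nat_lit 2)) T.ie))))) (T.ts (nat_lit 2) (T.ts (nat_lit 4) (T.ls (nat_lit 3) (nat_lit 4)) (T.ts (nat_lit 3) (T.ls (nat_lit 2) (nat_lit 3)) (T.ts (nat_lit 2) (T.ls (nat_lit 3) (nat_lit 4)) (T.ts (nat_lit 0) (T.ls (nat_lit 2) (nat_lit 3)) (T.ts (nat_lit 1) (T.im (nat_lit 7) (nat_lit 2)) T.ie))))) (T.ts (nat_lit 0) (T.ts (nat_lit 4) (T.ls (nat_lit 2) (nat_lit 3)) (T.ts (nat_lit 2) (T.ls (nat_lit 3) (nat_lit 4)) (T.ts (nat_lit 0) (T.ls (nat_lit 2) (nat_lit 3)) (T.ts (nat_lit 3) (T.im (nat_lit 5) (nat_lit 3)) (T.ts (nat_lit 1) (T.im (nat_lit 7) (nat_lit 2)) T.ie))))) (T.ts (nat_lit 1) (T.im (nat_lit 7) (nat_lit 1)) T.ie)))))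 (T.ts (nat_lit 0) (T.im (nat_lit 5) (nat_lit 2)) T.ie)))
def d727 : T := (T.ts (nat_lit 4) (T.ts (nat_lit 3) (T.ts (nat_lit 3) (T.ls (nat_lit 2) (nat_lit 3)) (T.ts (nat_lit 2) (T.ls (nat_lit 3) (nat_lit 4)) (T.ts (nat_lit 1) (T.ls (nat_lit 2) (nat_lit 4)) (T.ts (nat_lit 0) (T.ls (nat_lit 2) (nat_lit 3)) (T.ts (nat_lit 4) (T.im (nat_lit 7) (nat_lit 2)) T.ie))))) (T.ts (nat_lit 2) (T.ts (nat_lit 3) (T.ls (nat_lit 2) (nat_lit 3)) (T.ts (nat_lit 2) (T.ls (nat_lit 3) (nat_lit 4)) (T.ts (nat_lit 1) (T.ls (nat_lit 2) (nat_lit 4)) (T.ts (nat_lit 0) (T.ls (nat_lit 2) (nat_lit 3)) (T.ts (nat_lit 4) (T.im (nat_lit 7) (nat_lit 2)) T.ie))))) (T.ts (nat_lit 1) (T.ts (nat_lit 3) (T.ls (nat_lit 2) (nat_lit 3)) (T.ts (nat_lit 2) (T.ls (nat_lit 3) (nat_lit 4)) (T.ts (nat_lit 1) (T.ls (nat_lit 2) (nat_lit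 4)) (T.ts (nat_lit 0) (T.ls (nat_lit 2) (nat_lit 3)) (T.ts (nat_lit 4) (T.im (nat_lit 7) (nat_lit 2)) T.ie))))) (T.ts (nat_lit 0) (T.ts (nat_lit 2) (T.ls (nat_lit 3) (nat_lit 4)) (T.ts (nat_lit 1) (T.ls (nat_lit 2) (nat_lit 4)) (T.ts (nat_lit 0) (T.ls (nat_lit 2) (nat_lit 3)) (T.ts (nat_lit 4) (T.im (nat_lit 7) (nat_lit 2)) (T.ts (nat_lit 3) (T.im (nat_lit 5) (nat_lit 3)) T.ie))))) (T.ts (nat_lit 4) (T.im (nat_lit 7) (nat_lit 1)) T.ie))))) (T.ts (nat_lit 3) (T.ts (nat_lit 4) (T.ts (nat_lit 4) (T.ls (nat_lit 2) (nat_lit 3)) (T.ts (nat_lit 2) (T.ls (nat_lit 3) (nat_lit 4)) (T.ts (nat_lit 1) (T.ls (nat_lit 2) (nat_lit 4)) (T.ts (nat_lit 0) (T.ls (nat_lit 2) (nat_lit 3)) (T.ts (nat_lit 3) (T.im (nat_lit 7) (nat_lit 2)) T.ie))))) (T.ts (nat_lit 2) (T.ts (nat_lit 4) (T.ls (nat_lit 3) (nat_lit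 4)) (T.ts (nat_lit 2) (T.ls (nat_lit 3) (nat_lit 4)) (T.ts (nat_lit 1) (T.ls (nat_lit 2) (nat_lit 4)) (T.ts (nat_lit 0) (T.ls (nat_lit 2) (nat_lit 3)) (T.ts (nat_lit 3) (T.im (nat_lit 7) (nat_lit 2)) T.ie))))) (T.ts (nat_lit 1) (T.ts (nat_lit 4) (T.ls (nat_lit 2) (nat_lit 4)) (T.ts (nat_lit 2) (T.ls (nat_lit 3) (nat_lit 4)) (T.ts (nat_lit 1) (T.ls (nat_lit 2) (nat_lit 4)) (T.ts (nat_lit 0) (T.ls (nat_lit 2) (nat_lit 3)) (T.ts (nat_lit 3) (T.im (nat_lit 7) (nat_lit 2)) T.ie))))) (T.ts (nat_lit 0) (T.ts (nat_lit 4) (T.ls (nat_lit 2) (nat_lit 3)) (T.ts (nat_lit 2) (T.ls (nat_lit 3) (nat_lit 4)) (T.ts (nat_lit 1) (T.ls (nat_lit 2) (nat_lit 4)) (T.ts (nat_lit 0) (T.ls (nat_lit 2) (nat_lit 3)) (T.ts (nat_lit 3) (T.im (nat_lit 5) (nat_lit 3)) T.ie))))) (T.ts (nat_lit 3) (T.im (nat_lit 7)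 (nat_lit 1)) T.ie))))) d726))
def d728 : T := (T.ts (nat_lit 3) (T.ts (nat_lit 4) (T.ts (nat_lit 4) (T.ls (nat_lit 2) (nat_lit 3)) (T.ts (nat_lit 2) (T.ls (nat_lit 3) (nat_lit 4)) (T.ts (nat_lit 1) (T.ls (nat_lit 2) (nat_lit 4)) (T.ts (nat_lit 0) (T.ls (nat_lit 2) (nat_lit 3)) (T.ts (nat_lit 3) (T.im (nat_lit 7) (nat_lit 2)) T.ie))))) (T.ts (nat_lit 2) (T.ts (nat_lit 4) (T.ls (nat_lit 3) (nat_lit 4)) (T.ts (nat_lit 2) (T.ls (nat_lit 3) (nat_lit 4)) (T.ts (nat_lit 1) (T.ls (nat_lit 2) (nat_lit 4)) (T.ts (nat_lit 0) (T.ls (nat_lit 2) (nat_lit 3)) (T.ts (nat_lit 3) (T.im (nat_lit 7) (nat_lit 2)) T.ie))))) (T.ts (nat_lit 1) (T.ts (nat_lit 4) (T.ls (nat_lit 2) (nat_lit 4)) (T.ts (nat_lit 2) (T.ls (nat_lit 3) (nat_lit 4)) (T.ts (nat_lit 1) (T.ls (nat_lit 2) (nat_lit 4)) (T.ts (nat_lit 0)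 (T.ls (nat_lit 2) (nat_lit 3)) (T.ts (nat_lit 3) (T.im (nat_lit 7) (nat_lit 2)) T.ie))))) (T.ts (nat_lit 0) (T.ts (nat_lit 4) (T.ls (nat_lit 2) (nat_lit 3)) (T.ts (nat_lit 1) (T.ls (nat_lit 2) (nat_lit 4)) (T.ts (nat_lit 0) (T.ls (nat_lit 2) (nat_lit 3)) (T.ts (nat_lit 3) (T.im (nat_lit 7) (nat_lit 2)) (T.ts (nat_lit 2) (T.im (nat_lit 5) (nat_lit 3)) T.ie))))) (T.ts (nat_lit 3) (T.im (nat_lit 7) (nat_lit 1)) T.ie))))) (T.ts (nat_lit 2) (T.ts (nat_lit 4) (T.ts (nat_lit 4) (T.ls (nat_lit 2) (nat_lit 3)) (T.ts (nat_lit 3) (T.ls (nat_lit 3) (nat_lit 4)) (T.ts (nat_lit 1) (T.ls (nat_lit 2) (nat_lit 4)) (T.ts (nat_lit 0) (T.ls (nat_lit 2) (nat_lit 3)) (T.ts (nat_lit 2) (T.im (nat_lit 7) (nat_lit 2)) T.ie))))) (T.ts (nat_lit 3) (T.ts (nat_lit 4) (T.ls (nat_lit 2) (nat_lit 3)) (T.ts (nat_lit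 3) (T.ls (nat_lit 2) (nat_lit 3)) (T.ts (nat_lit 1) (T.ls (nat_lit 2) (nat_lit 4)) (T.ts (nat_lit 0) (T.ls (nat_lit 2) (nat_lit 3)) (T.ts (nat_lit 2) (T.im (nat_lit 7) (nat_lit 2)) T.ie))))) (T.ts (nat_lit 1) (T.ts (nat_lit 4) (T.ls (nat_lit 2) (nat_lit 4)) (T.ts (nat_lit 3) (T.ls (nat_lit 2) (nat_lit 3)) (T.ts (nat_lit 1) (T.ls (nat_lit 2) (nat_lit 4)) (T.ts (nat_lit 2) (T.im (nat_lit 7) (nat_lit 2)) (T.ts (nat_lit 0) (T.im (nat_lit 3) (nat_lit 4)) T.ie))))) (T.ts (nat_lit 0) (T.ts (nat_lit 4) (T.ls (nat_lit 2) (nat_lit 3)) (T.ts (nat_lit 3) (T.ls (nat_lit 2) (nat_lit 3)) (T.ts (nat_lit 1) (T.ls (nat_lit 2) (nat_lit 4)) (T.ts (nat_lit 0) (T.ls (nat_lit 2) (nat_lit 3)) (T.ts (nat_lit 2) (T.im (nat_lit 5) (nat_lit 3)) T.ie))))) (T.ts (nat_lit 2) (T.im (nat_lit 7) (nat_lit 1)) T.ie)))))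 (T.ts (nat_lit 1) (T.im (nat_lit 3) (nat_lit 3)) (T.ts (nat_lit 0) (T.im (nat_lit 5) (nat_lit 2)) T.ie))))
def d729 : T := (T.ts (nat_lit 2) (T.ts (nat_lit 4) (T.ts (nat_lit 4) (T.ls (nat_lit 2) (nat_lit 3)) (T.ts (nat_lit 3) (T.ls (nat_lit 3) (nat_lit 4)) (T.ts (nat_lit 1) (T.ls (nat_lit 2) (nat_lit 4)) (T.ts (nat_lit 0) (T.ls (nat_lit 2) (nat_lit 3)) (T.ts (nat_lit 2) (T.im (nat_lit 7) (nat_lit 2)) T.ie))))) (T.ts (nat_lit 3) (T.ts (nat_lit 4) (T.ls (nat_lit 2) (nat_lit 3)) (T.ts (nat_lit 3) (T.ls (nat_lit 2) (nat_lit 3)) (T.ts (nat_lit 1) (T.ls (nat_lit 2) (nat_lit 4)) (T.ts (nat_lit 0) (T.ls (nat_lit 2) (nat_lit 3)) (T.ts (nat_lit 2) (T.im (nat_lit 7) (nat_lit 2)) T.ie))))) (T.ts (nat_lit 1) (T.ts (nat_lit 4) (T.ls (nat_lit 2) (nat_lit 4)) (T.ts (nat_lit 3) (T.ls (nat_lit 2) (nat_lit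 3)) (T.ts (nat_lit 1) (T.ls (nat_lit 2) (nat_lit 4)) (T.ts (nat_lit 2) (T.im (nat_lit 7) (nat_lit 2)) (T.ts (nat_lit 0) (T.im (nat_lit 3) (nat_lit 4)) T.ie))))) (T.ts (nat_lit 0) (T.ts (nat_lit 4) (T.ls (nat_lit 2) (nat_lit 3)) (T.ts (nat_lit 3) (T.ls (nat_lit 2) (nat_lit 3)) (T.ts (nat_lit 0) (T.ls (nat_lit 2) (nat_lit 3)) (T.ts (nat_lit 2) (T.im (nat_lit 7) (nat_lit 2)) (T.ts (nat_lit 1) (T.im (nat_lit 5) (nat_lit 3)) T.ie))))) (T.ts (nat_lit 2) (T.im (nat_lit 7) (nat_lit 1)) T.ie))))) (T.ts (nat_lit 1) (T.ts (nat_lit 4) (T.ts (nat_lit 4) (T.ls (nat_lit 2) (nat_lit 3)) (T.ts (nat_lit 3) (T.ls (nat_lit 2) (nat_lit 4)) (T.ts (nat_lit 2) (T.ls (nat_lit 3) (nat_lit 4)) (T.ts (nat_lit 0) (T.ls (nat_lit 2) (nat_lit 3)) (T.ts (nat_lit 1) (T.im (nat_lit 7) (nat_lit 2)) T.ie))))) (T.ts (nat_lit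 3) (T.ts (nat_lit 4) (T.ls (nat_lit 2) (nat_lit 3)) (T.ts (nat_lit 3) (T.ls (nat_lit 2) (nat_lit 3)) (T.ts (nat_lit 2) (T.ls (nat_lit 3) (nat_lit 4)) (T.ts (nat_lit 0) (T.ls (nat_lit 2) (nat_lit 3)) (T.ts (nat_lit 1) (T.im (nat_lit 7) (nat_lit 2)) T.ie))))) (T.ts (nat_lit 2) (T.ts (nat_lit 4) (T.ls (nat_lit 3) (nat_lit 4)) (T.ts (nat_lit 3) (T.ls (nat_lit 2) (nat_lit 3)) (T.ts (nat_lit 2) (T.ls (nat_lit 3) (nat_lit 4)) (T.ts (nat_lit 0) (T.ls (nat_lit 2) (nat_lit 3)) (T.ts (nat_lit 1) (T.im (nat_lit 7) (nat_lit 2)) T.ie))))) (T.ts (nat_lit 0) (T.ts (nat_lit 4) (T.ls (nat_lit 2) (nat_lit 3)) (T.ts (nat_lit 3) (T.ls (nat_lit 2) (nat_lit 3)) (T.ts (nat_lit 2) (T.ls (nat_lit 3) (nat_lit 4)) (T.ts (nat_lit 0) (T.ls (nat_lit 2) (nat_lit 3)) (T.ts (nat_lit 1) (T.im (nat_lit 5) (nat_lit 3))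 T.ie))))) (T.ts (nat_lit 1) (T.im (nat_lit 7) (nat_lit 1)) T.ie))))) (T.ts (nat_lit 0) (T.im (nat_lit 5) (nat_lit 2)) T.ie)))
def d730 : T := (T.ts (nat_lit 4) (T.ts (nat_lit 3) (T.ts (nat_lit 3) (T.ls (nat_lit 2) (nat_lit 3)) (T.ts (nat_lit 2) (T.ts (nat_lit 4) (T.ls (nat_lit 3) (nat_lit 4)) (T.ts (nat_lit 2) (T.im (nat_lit 9) (nat_lit 1)) (T.sk (T.ls (nat_lit 2) (nat_lit 3))))) (T.ts (nat_lit 1) (T.ls (nat_lit 2) (nat_lit 4)) (T.ts (nat_lit 0) (T.ls (nat_lit 2) (nat_lit 3)) (T.ts (nat_lit 4) (T.im (nat_lit 7) (nat_lit 2)) T.ie))))) (T.ts (nat_lit 2) (T.ts (nat_lit 3) (T.ls (nat_lit 2) (nat_lit 3)) (T.ts (nat_lit 2) (T.ls (nat_lit 3) (nat_lit 4)) (T.ts (nat_lit 1) (T.ls (nat_lit 2) (nat_lit 4)) (T.ts (nat_lit 0) (T.ls (nat_lit 2) (nat_lit 3)) (T.ts (nat_lit 4) (T.im (nat_lit 7) (nat_lit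 2)) T.ie))))) (T.ts (nat_lit 1) (T.ts (nat_lit 3) (T.ls (nat_lit 2) (nat_lit 3)) (T.ts (nat_lit 2) (T.ls (nat_lit 3) (nat_lit 4)) (T.ts (nat_lit 1) (T.ls (nat_lit 2) (nat_lit 4)) (T.ts (nat_lit 0) (T.ls (nat_lit 2) (nat_lit 3)) (T.ts (nat_lit 4) (T.im (nat_lit 7) (nat_lit 2)) T.ie))))) (T.ts (nat_lit 0) (T.ts (nat_lit 3) (T.ls (nat_lit 2) (nat_lit 3)) (T.ts (nat_lit 2) (T.ls (nat_lit 3) (nat_lit 4)) (T.ts (nat_lit 0) (T.ls (nat_lit 2) (nat_lit 3)) (T.ts (nat_lit 4) (T.im (nat_lit 7) (nat_lit 2)) (T.ts (nat_lit 1) (T.im (nat_lit 5) (nat_lit 3)) T.ie))))) (T.ts (nat_lit 4) (T.im (nat_lit 7) (nat_lit 1)) T.ie))))) (T.ts (nat_lit 3) (T.ts (nat_lit 4) (T.ts (nat_lit 4) (T.ls (nat_lit 2) (nat_lit 3)) (T.ts (nat_lit 2) (T.ls (nat_lit 3) (nat_lit 4)) (T.ts (nat_lit 1) (T.ls (nat_lit 2) (nat_lit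 4)) (T.ts (nat_lit 0) (T.ls (nat_lit 2) (nat_lit 3)) (T.ts (nat_lit 3) (T.im (nat_lit 7) (nat_lit 2)) T.ie))))) (T.ts (nat_lit 2) (T.ts (nat_lit 4) (T.ls (nat_lit 3) (nat_lit 4)) (T.ts (nat_lit 2) (T.ls (nat_lit 3) (nat_lit 4)) (T.ts (nat_lit 1) (T.ls (nat_lit 2) (nat_lit 4)) (T.ts (nat_lit 0) (T.ls (nat_lit 2) (nat_lit 3)) (T.ts (nat_lit 3) (T.im (nat_lit 7) (nat_lit 2)) T.ie))))) (T.ts (nat_lit 1) (T.ts (nat_lit 4) (T.ls (nat_lit 2) (nat_lit 4)) (T.ts (nat_lit 2) (T.ls (nat_lit 3) (nat_lit 4)) (T.ts (nat_lit 1) (T.ls (nat_lit 2) (nat_lit 4)) (T.ts (nat_lit 0) (T.ls (nat_lit 2) (nat_lit 3)) (T.ts (nat_lit 3) (T.im (nat_lit 7) (nat_lit 2)) T.ie))))) (T.ts (nat_lit 0) (T.ts (nat_lit 4) (T.ls (nat_lit 2) (nat_lit 3)) (T.ts (nat_lit 2) (T.ls (nat_lit 3) (nat_lit 4)) (T.ts (nat_lit 0)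 (T.ls (nat_lit 2) (nat_lit 3)) (T.ts (nat_lit 3) (T.im (nat_lit 7) (nat_lit 2)) (T.ts (nat_lit 1) (T.im (nat_lit 5) (nat_lit 3)) T.ie))))) (T.ts (nat_lit 3) (T.im (nat_lit 7) (nat_lit 1)) T.ie))))) d729))
def d731 : T := (T.ts (nat_lit 3) d727 (T.ts (nat_lit 2) (T.ts (nat_lit 4) (T.ts (nat_lit 3) (T.ts (nat_lit 3) (T.ls (nat_lit 2) (nat_lit 3)) (T.ts (nat_lit 2) (T.ls (nat_lit 3) (nat_lit 4)) (T.ts (nat_lit 1) (T.ls (nat_lit 2) (nat_lit 4)) (T.ts (nat_lit 0) (T.ls (nat_lit 2) (nat_lit 3)) (T.ts (nat_lit 4) (T.im (nat_lit 7) (nat_lit 2)) T.ie))))) (T.ts (nat_lit 2) (T.ts (nat_lit 3) (T.ls (nat_lit 2) (nat_lit 3)) (T.ts (nat_lit 2) (T.ls (nat_lit 3) (nat_lit 4)) (T.ts (nat_lit 1) (T.ls (nat_lit 2) (nat_lit 4)) (T.ts (nat_lit 0) (T.ls (nat_lit 2) (nat_lit 3)) (T.ts (nat_lit 4) (T.im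 (nat_lit 7) (nat_lit 2)) T.ie))))) (T.ts (nat_lit 1) (T.ts (nat_lit 3) (T.ls (nat_lit 2) (nat_lit 3)) (T.ts (nat_lit 2) (T.ls (nat_lit 3) (nat_lit 4)) (T.ts (nat_lit 1) (T.ls (nat_lit 2) (nat_lit 4)) (T.ts (nat_lit 0) (T.ls (nat_lit 2) (nat_lit 3)) (T.ts (nat_lit 4) (T.im (nat_lit 7) (nat_lit 2)) T.ie))))) (T.ts (nat_lit 0) (T.ts (nat_lit 3) (T.ls (nat_lit 2) (nat_lit 3)) (T.ts (nat_lit 1) (T.ls (nat_lit 2) (nat_lit 4)) (T.ts (nat_lit 0) (T.ls (nat_lit 2) (nat_lit 3)) (T.ts (nat_lit 4) (T.im (nat_lit 7) (nat_lit 2)) (T.ts (nat_lit 2) (T.im (nat_lit 5) (nat_lit 3)) T.ie))))) (T.ts (nat_lit 4) (T.im (nat_lit 7) (nat_lit 1)) T.ie))))) d728) (T.ts (nat_lit 1) d730 (T.ts (nat_lit 0) (T.im (nat_lit 5) (nat_lit 1)) T.ie))))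
def d732 : T := (T.ts (nat_lit 1) (T.im (nat_lit 3) (nat_lit 2)) (T.nw (T.ts (nat_lit 4) (T.ts (nat_lit 4) (T.ts (nat_lit 3) (T.ts (nat_lit 3) (T.ls (nat_lit 2) (nat_lit 3)) (T.ts (nat_lit 2) (T.ls (nat_lit 3) (nat_lit 4)) (T.ts (nat_lit 1) (T.ls (nat_lit 2) (nat_lit 4)) (T.ts (nat_lit 0) (T.ls (nat_lit 2) (nat_lit 3)) (T.ts (nat_lit 4) (T.im (nat_lit 7) (nat_lit 2)) T.ie))))) (T.ts (nat_lit 2) (T.ts (nat_lit 3) (T.ls (nat_lit 2) (nat_lit 3)) (T.ts (nat_lit 2) (T.ls (nat_lit 3) (nat_lit 4)) (T.ts (nat_lit 1) (T.ls (nat_lit 2) (nat_lit 4)) (T.ts (nat_lit 0) (T.ls (nat_lit 2) (nat_lit 3)) (T.ts (nat_lit 4) (T.im (nat_lit 7) (nat_lit 2)) T.ie))))) (T.ts (nat_lit 1) (T.ts (nat_lit 3) (T.ls (nat_lit 2) (nat_lit 3)) (T.ts (nat_lit 2) (T.ls (nat_lit 3) (nat_lit 4)) (T.ts (nat_lit 1) (T.ls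 (nat_lit 2) (nat_lit 4)) (T.ts (nat_lit 0) (T.ls (nat_lit 2) (nat_lit 3)) (T.ts (nat_lit 4) (T.im (nat_lit 7) (nat_lit 2)) T.ie))))) (T.ts (nat_lit 0) (T.ts (nat_lit 3) (T.ls (nat_lit 2) (nat_lit 3)) (T.ts (nat_lit 2) (T.ls (nat_lit 3) (nat_lit 4)) (T.ts (nat_lit 1) (T.ls (nat_lit 2) (nat_lit 4)) (T.ts (nat_lit 0) (T.ls (nat_lit 2) (nat_lit 3)) (T.ts (nat_lit 4) (T.im (nat_lit 5) (nat_lit 3)) T.ie))))) (T.ts (nat_lit 4) (T.im (nat_lit 7) (nat_lit 1)) T.ie))))) (T.ts (nat_lit 3) d724 d725)) d731)))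
def d733 : T := (T.im (nat_lit 1) (nat_lit 2))
def d734 : T := (T.ts (nat_lit 0) (T.ts (nat_lit 3) (T.ts (nat_lit 1) (T.ls (nat_lit 3) (nat_lit 4)) (T.ts (nat_lit 3) (T.im (nat_lit 3) (nat_lit 4)) (T.ts (nat_lit 2) (T.im (nat_lit 5) (nat_lit 3)) (T.ts (nat_lit 0) (T.im (nat_lit 7) (nat_lit 2)) (T.nw (T.ls (nat_lit 2) (nat_lit 3))))))) (T.ts (nat_lit 2) (T.ts (nat_lit 3) (T.ls (nat_lit 2) (nat_lit 3)) (T.ts (nat_lit 2) (T.ls (nat_lit 2) (nat_lit 3)) (T.ts (nat_lit 1) (T.ls (nat_lit 3) (nat_lit 4)) (T.ts (nat_lit 0) (T.im (nat_lit 7) (nat_lit 2)) (T.nw (T.ls (nat_lit 2) (nat_lit 3))))))) (T.ts (nat_lit 1) (T.ts (nat_lit 3) (T.ls (nat_lit 3) (nat_lit 4)) (T.ts (nat_lit 2) (T.ls (nat_lit 2) (nat_lit 3)) (T.ts (nat_lit 1) (T.ls (nat_lit 3) (nat_lit 4)) (T.ts (nat_lit 0) (T.im (nat_lit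 7) (nat_lit 2)) (T.nw (T.ls (nat_lit 2) (nat_lit 3))))))) (T.ts (nat_lit 0) (T.im (nat_lit 7) (nat_lit 1)) (T.nw (T.ts (nat_lit 4) (T.ls (nat_lit 2) (nat_lit 3)) (T.ts (nat_lit 3) (T.ls (nat_lit 2) (nat_lit 3)) (T.ts (nat_lit 2) (T.ls (nat_lit 3) (nat_lit 4)) (T.ts (nat_lit 0) (T.ls (nat_lit 2) (nat_lit 3)) (T.ts (nat_lit 1) (T.im (nat_lit 7) (nat_lit 2)) T.ie)))))))))) (T.ts (nat_lit 3) (T.im (nat_lit 5) (nat_lit 2)) (T.nw (T.ts (nat_lit 4) (T.ts (nat_lit 4) (T.ls (nat_lit 2) (nat_lit 3)) (T.ts (nat_lit 2) (T.ls (nat_lit 3) (nat_lit 4)) (T.ts (nat_lit 1) (T.ls (nat_lit 2) (nat_lit 4)) (T.ts (nat_lit 3) (T.im (nat_lit 5) (nat_lit 3)) (T.ts (nat_lit 0) (T.im (nat_lit 7) (nat_lit 2)) T.ie))))) (T.ts (nat_lit 3) (T.ts (nat_lit 4) (T.ls (nat_lit 2) (nat_lit 3)) (T.ts (nat_lit 3) (T.ls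 (nat_lit 2) (nat_lit 3)) (T.ts (nat_lit 2) (T.ls (nat_lit 3) (nat_lit 4)) (T.ts (nat_lit 1) (T.ls (nat_lit 2) (nat_lit 4)) (T.ts (nat_lit 0) (T.im (nat_lit 7) (nat_lit 2)) T.ie))))) (T.ts (nat_lit 2) (T.ts (nat_lit 4) (T.ls (nat_lit 3) (nat_lit 4)) (T.ts (nat_lit 3) (T.ls (nat_lit 2) (nat_lit 3)) (T.ts (nat_lit 2) (T.ls (nat_lit 3) (nat_lit 4)) (T.ts (nat_lit 1) (T.ls (nat_lit 2) (nat_lit 4)) (T.ts (nat_lit 0) (T.im (nat_lit 7) (nat_lit 2)) T.ie))))) (T.ts (nat_lit 1) (T.ts (nat_lit 4) (T.ls (nat_lit 2) (nat_lit 4)) (T.ts (nat_lit 3) (T.ls (nat_lit 2) (nat_lit 3)) (T.ts (nat_lit 2) (T.ls (nat_lit 3) (nat_lit 4)) (T.ts (nat_lit 1) (T.ls (nat_lit 2) (nat_lit 4)) (T.ts (nat_lit 0) (T.im (nat_lit 7) (nat_lit 2)) T.ie))))) (T.ts (nat_lit 0) (T.im (nat_lit 7) (nat_lit 1)) T.ie))))))))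
def d735 : T := (T.ts (nat_lit 2) (T.ts (nat_lit 3) (T.ts (nat_lit 3) (T.ls (nat_lit 2) (nat_lit 3)) (T.ts (nat_lit 1) (T.ls (nat_lit 3) (nat_lit 4)) (T.ts (nat_lit 0) (T.ls (nat_lit 2) (nat_lit 4)) (T.ts (nat_lit 2) (T.im (nat_lit 5) (nat_lit 3)) (T.nw (T.ls (nat_lit 2) (nat_lit 3))))))) (T.ts (nat_lit 1) (T.ts (nat_lit 3) (T.ls (nat_lit 3) (nat_lit 4)) (T.ts (nat_lit 1) (T.ls (nat_lit 3) (nat_lit 4)) (T.ts (nat_lit 0) (T.ls (nat_lit 2) (nat_lit 4)) (T.ts (nat_lit 2) (T.im (nat_lit 7) (nat_lit 2)) (T.nw (T.ls (nat_lit 2) (nat_lit 3))))))) (T.ts (nat_lit 0) (T.ts (nat_lit 3) (T.ls (nat_lit 2) (nat_lit 4)) (T.ts (nat_lit 1) (T.ls (nat_lit 3) (nat_lit 4)) (T.ts (nat_lit 0) (T.ls (nat_lit 2) (nat_lit 4)) (T.ts (nat_lit 2) (T.im (nat_lit 7) (nat_lit 2)) (T.nw (T.ls (nat_lit 2) (nat_lit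 3))))))) (T.ts (nat_lit 2) (T.im (nat_lit 7) (nat_lit 1)) (T.nw (T.ts (nat_lit 4) (T.ls (nat_lit 2) (nat_lit 3)) (T.ts (nat_lit 2) (T.ls (nat_lit 3) (nat_lit 4)) (T.ts (nat_lit 1) (T.ls (nat_lit 2) (nat_lit 4)) (T.ts (nat_lit 0) (T.ls (nat_lit 2) (nat_lit 3)) (T.ts (nat_lit 3) (T.im (nat_lit 7) (nat_lit 2)) T.ie)))))))))) (T.ts (nat_lit 1) (T.ts (nat_lit 3) (T.ts (nat_lit 3) (T.ls (nat_lit 2) (nat_lit 3)) (T.ts (nat_lit 0) (T.ls (nat_lit 2) (nat_lit 4)) (T.ts (nat_lit 2) (T.im (nat_lit 5) (nat_lit 3)) (T.ts (nat_lit 1) (T.im (nat_lit 7) (nat_lit 2)) (T.nw (T.ls (nat_lit 2) (nat_lit 3))))))) (T.ts (nat_lit 2) (T.ts (nat_lit 3) (T.ls (nat_lit 2) (nat_lit 3)) (T.ts (nat_lit 2) (T.ls (nat_lit 2) (nat_lit 3)) (T.ts (nat_lit 0) (T.ls (nat_lit 2) (nat_lit 4)) (T.ts (nat_lit 1) (T.im (nat_lit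 7) (nat_lit 2)) (T.nw (T.ls (nat_lit 2) (nat_lit 3))))))) (T.ts (nat_lit 0) (T.ts (nat_lit 2) (T.ls (nat_lit 2) (nat_lit 3)) (T.ts (nat_lit 0) (T.ls (nat_lit 2) (nat_lit 4)) (T.ts (nat_lit 3) (T.im (nat_lit 1) (nat_lit 5)) (T.ts (nat_lit 1) (T.im (nat_lit 7) (nat_lit 2)) (T.nw (T.ls (nat_lit 2) (nat_lit 3))))))) (T.ts (nat_lit 1) (T.im (nat_lit 7) (nat_lit 1)) (T.nw (T.ts (nat_lit 4) (T.ls (nat_lit 2) (nat_lit 3)) (T.ts (nat_lit 3) (T.ls (nat_lit 2) (nat_lit 3)) (T.ts (nat_lit 1) (T.ls (nat_lit 2) (nat_lit 4)) (T.ts (nat_lit 0) (T.ls (nat_lit 2) (nat_lit 3)) (T.ts (nat_lit 2) (T.im (nat_lit 7) (nat_lit 2)) T.ie)))))))))) d734))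
def d736 : T := (T.ts (nat_lit 0) (T.ts (nat_lit 3) (T.ts (nat_lit 2) (T.ls (nat_lit 2) (nat_lit 4)) (T.ts (nat_lit 3) (T.im (nat_lit 3) (nat_lit 4)) (T.ts (nat_lit 1) (T.im (nat_lit 5) (nat_lit 3)) (T.ts (nat_lit 0) (T.im (nat_lit 7) (nat_lit 2)) (T.nw (T.ls (nat_lit 2) (nat_lit 3))))))) (T.ts (nat_lit 2) (T.ts (nat_lit 3) (T.ls (nat_lit 2) (nat_lit 3)) (T.ts (nat_lit 2) (T.ls (nat_lit 2) (nat_lit 3)) (T.ts (nat_lit 1) (T.ls (nat_lit 3) (nat_lit 4)) (T.ts (nat_lit 0) (T.im (nat_lit 7) (nat_lit 2)) (T.nw (T.ls (nat_lit 2) (nat_lit 3))))))) (T.ts (nat_lit 1) (T.ts (nat_lit 3) (T.ls (nat_lit 3) (nat_lit 4)) (T.ts (nat_lit 2) (T.ls (nat_lit 2) (nat_lit 3)) (T.ts (nat_lit 1) (T.ls (nat_lit 3) (nat_lit 4)) (T.ts (nat_lit 0) (T.im (nat_lit 7) (nat_lit 2)) (T.nw (T.ls (nat_lit 2) (nat_lit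 3))))))) (T.ts (nat_lit 0) (T.im (nat_lit 7) (nat_lit 1)) (T.nw (T.ts (nat_lit 4) (T.ls (nat_lit 2) (nat_lit 3)) (T.ts (nat_lit 3) (T.ls (nat_lit 2) (nat_lit 3)) (T.ts (nat_lit 2) (T.ls (nat_lit 3) (nat_lit 4)) (T.ts (nat_lit 0) (T.ls (nat_lit 2) (nat_lit 3)) (T.ts (nat_lit 1) (T.im (nat_lit 7) (nat_lit 2)) T.ie)))))))))) (T.ts (nat_lit 3) (T.im (nat_lit 5) (nat_lit 2)) (T.nw (T.ts (nat_lit 4) (T.ts (nat_lit 4) (T.ls (nat_lit 2) (nat_lit 3)) (T.ts (nat_lit 3) (T.ls (nat_lit 2) (nat_lit 3)) (T.ts (nat_lit 1) (T.ls (nat_lit 2) (nat_lit 4)) (T.ts (nat_lit 2) (T.im (nat_lit 5) (nat_lit 3)) (T.ts (nat_lit 0) (T.im (nat_lit 7) (nat_lit 2)) T.ie))))) (T.ts (nat_lit 3) (T.ts (nat_lit 4) (T.ls (nat_lit 2) (nat_lit 3)) (T.ts (nat_lit 3) (T.ls (nat_lit 2) (nat_lit 3)) (T.ts (nat_lit 2) (T.ls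 (nat_lit 3) (nat_lit 4)) (T.ts (nat_lit 1) (T.ls (nat_lit 2) (nat_lit 4)) (T.ts (nat_lit 0) (T.im (nat_lit 7) (nat_lit 2)) T.ie))))) (T.ts (nat_lit 2) (T.ts (nat_lit 4) (T.ls (nat_lit 3) (nat_lit 4)) (T.ts (nat_lit 3) (T.ls (nat_lit 2) (nat_lit 3)) (T.ts (nat_lit 2) (T.ls (nat_lit 3) (nat_lit 4)) (T.ts (nat_lit 1) (T.ls (nat_lit 2) (nat_lit 4)) (T.ts (nat_lit 0) (T.im (nat_lit 7) (nat_lit 2)) T.ie))))) (T.ts (nat_lit 1) (T.ts (nat_lit 4) (T.ls (nat_lit 2) (nat_lit 4)) (T.ts (nat_lit 3) (T.ls (nat_lit 2) (nat_lit 3)) (T.ts (nat_lit 2) (T.ls (nat_lit 3) (nat_lit 4)) (T.ts (nat_lit 1) (T.ls (nat_lit 2) (nat_lit 4)) (T.ts (nat_lit 0) (T.im (nat_lit 7) (nat_lit 2)) T.ie))))) (T.ts (nat_lit 0) (T.im (nat_lit 7) (nat_lit 1)) T.ie))))))))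
def d737 : T := (T.ts (nat_lit 2) (T.ts (nat_lit 3) (T.ts (nat_lit 3) (T.ls (nat_lit 2) (nat_lit 3)) (T.ts (nat_lit 0) (T.ls (nat_lit 2) (nat_lit 4)) (T.ts (nat_lit 2) (T.im (nat_lit 7) (nat_lit 2)) (T.ts (nat_lit 1) (T.im (nat_lit 5) (nat_lit 3)) (T.nw (T.ls (nat_lit 2) (nat_lit 3))))))) (T.ts (nat_lit 1) (T.ts (nat_lit 3) (T.ls (nat_lit 3) (nat_lit 4)) (T.ts (nat_lit 1) (T.ls (nat_lit 3) (nat_lit 4)) (T.ts (nat_lit 0) (T.ls (nat_lit 2) (nat_lit 4)) (T.ts (nat_lit 2) (T.im (nat_lit 7) (nat_lit 2)) (T.nw (T.ls (nat_lit 2) (nat_lit 3))))))) (T.ts (nat_lit 0) (T.ts (nat_lit 3) (T.ls (nat_lit 2) (nat_lit 4)) (T.ts (nat_lit 1) (T.ls (nat_lit 3) (nat_lit 4)) (T.ts (nat_lit 0) (T.ls (nat_lit 2) (nat_lit 4)) (T.ts (nat_lit 2) (T.im (nat_lit 7) (nat_lit 2)) (T.nw (T.ls (nat_lit 2) (nat_lit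 3))))))) (T.ts (nat_lit 2) (T.im (nat_lit 7) (nat_lit 1)) (T.nw (T.ts (nat_lit 4) (T.ls (nat_lit 2) (nat_lit 3)) (T.ts (nat_lit 2) (T.ls (nat_lit 3) (nat_lit 4)) (T.ts (nat_lit 1) (T.ls (nat_lit 2) (nat_lit 4)) (T.ts (nat_lit 0) (T.ls (nat_lit 2) (nat_lit 3)) (T.ts (nat_lit 3) (T.im (nat_lit 7) (nat_lit 2)) T.ie)))))))))) (T.ts (nat_lit 1) (T.ts (nat_lit 3) (T.ts (nat_lit 3) (T.ls (nat_lit 2) (nat_lit 3)) (T.ts (nat_lit 2) (T.ls (nat_lit 3) (nat_lit 4)) (T.ts (nat_lit 0) (T.ls (nat_lit 2) (nat_lit 4)) (T.ts (nat_lit 1) (T.im (nat_lit 5) (nat_lit 3)) (T.nw (T.ls (nat_lit 2) (nat_lit 3))))))) (T.ts (nat_lit 2) (T.ts (nat_lit 3) (T.ls (nat_lit 2) (nat_lit 3)) (T.ts (nat_lit 2) (T.ls (nat_lit 2) (nat_lit 3)) (T.ts (nat_lit 0) (T.ls (nat_lit 2) (nat_lit 4)) (T.ts (nat_lit 1) (T.im (nat_lit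 7) (nat_lit 2)) (T.nw (T.ls (nat_lit 2) (nat_lit 3))))))) (T.ts (nat_lit 0) (T.ts (nat_lit 3) (T.ls (nat_lit 2) (nat_lit 4)) (T.ts (nat_lit 2) (T.ls (nat_lit 2) (nat_lit 3)) (T.ts (nat_lit 0) (T.ls (nat_lit 2) (nat_lit 4)) (T.ts (nat_lit 1) (T.im (nat_lit 7) (nat_lit 2)) (T.nw (T.ls (nat_lit 2) (nat_lit 3))))))) (T.ts (nat_lit 1) (T.im (nat_lit 7) (nat_lit 1)) (T.nw (T.ts (nat_lit 4) (T.ls (nat_lit 2) (nat_lit 3)) (T.ts (nat_lit 3) (T.ls (nat_lit 2) (nat_lit 3)) (T.ts (nat_lit 1) (T.ls (nat_lit 2) (nat_lit 4)) (T.ts (nat_lit 0) (T.ls (nat_lit 2) (nat_lit 3)) (T.ts (nat_lit 2) (T.im (nat_lit 7) (nat_lit 2)) T.ie)))))))))) d736))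
def d738 : T := (T.ts (nat_lit 0) (T.ts (nat_lit 3) (T.ts (nat_lit 2) (T.ls (nat_lit 2) (nat_lit 4)) (T.ts (nat_lit 1) (T.ls (nat_lit 3) (nat_lit 4)) (T.ts (nat_lit 3) (T.im (nat_lit 3) (nat_lit 4)) (T.ts (nat_lit 0) (T.im (nat_lit 5) (nat_lit 3)) (T.nw (T.ls (nat_lit 2) (nat_lit 3))))))) (T.ts (nat_lit 2) (T.ts (nat_lit 3) (T.ls (nat_lit 2) (nat_lit 3)) (T.ts (nat_lit 2) (T.ls (nat_lit 2) (nat_lit 3)) (T.ts (nat_lit 1) (T.ls (nat_lit 3) (nat_lit 4)) (T.ts (nat_lit 0) (T.im (nat_lit 7) (nat_lit 2)) (T.nw (T.ls (nat_lit 2) (nat_lit 3))))))) (T.ts (nat_lit 1) (T.ts (nat_lit 3) (T.ls (nat_lit 3) (nat_lit 4)) (T.ts (nat_lit 2) (T.ls (nat_lit 2) (nat_lit 3)) (T.ts (nat_lit 1) (T.ls (nat_lit 3) (nat_lit 4)) (T.ts (nat_lit 0) (T.im (nat_lit 7) (nat_lit 2)) (T.nw (T.ls (nat_lit 2) (nat_lit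 3))))))) (T.ts (nat_lit 0) (T.im (nat_lit 7) (nat_lit 1)) (T.nw (T.ts (nat_lit 4) (T.ls (nat_lit 2) (nat_lit 3)) (T.ts (nat_lit 3) (T.ls (nat_lit 2) (nat_lit 3)) (T.ts (nat_lit 2) (T.ls (nat_lit 3) (nat_lit 4)) (T.ts (nat_lit 0) (T.ls (nat_lit 2) (nat_lit 3)) (T.ts (nat_lit 1) (T.im (nat_lit 7) (nat_lit 2)) T.ie)))))))))) (T.ts (nat_lit 3) (T.im (nat_lit 3) (nat_lit 3)) (T.nw (T.ts (nat_lit 4) (T.ts (nat_lit 4) (T.ls (nat_lit 2) (nat_lit 3)) (T.ts (nat_lit 3) (T.ls (nat_lit 2) (nat_lit 3)) (T.ts (nat_lit 2) (T.ls (nat_lit 3) (nat_lit 4)) (T.ts (nat_lit 1) (T.im (nat_lit 5) (nat_lit 3)) (T.ts (nat_lit 0) (T.im (nat_lit 7) (nat_lit 2)) T.ie))))) (T.ts (nat_lit 3) (T.ts (nat_lit 4) (T.ls (nat_lit 2) (nat_lit 3)) (T.ts (nat_lit 3) (T.ls (nat_lit 2) (nat_lit 3)) (T.ts (nat_lit 2) (T.ls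 (nat_lit 3) (nat_lit 4)) (T.ts (nat_lit 1) (T.ls (nat_lit 2) (nat_lit 4)) (T.ts (nat_lit 0) (T.im (nat_lit 7) (nat_lit 2)) T.ie))))) (T.ts (nat_lit 2) (T.ts (nat_lit 4) (T.ls (nat_lit 3) (nat_lit 4)) (T.ts (nat_lit 3) (T.ls (nat_lit 2) (nat_lit 3)) (T.ts (nat_lit 2) (T.ls (nat_lit 3) (nat_lit 4)) (T.ts (nat_lit 1) (T.ls (nat_lit 2) (nat_lit 4)) (T.ts (nat_lit 0) (T.im (nat_lit 7) (nat_lit 2)) T.ie))))) (T.ts (nat_lit 1) (T.ts (nat_lit 4) (T.ls (nat_lit 2) (nat_lit 4)) (T.ts (nat_lit 3) (T.ls (nat_lit 2) (nat_lit 3)) (T.ts (nat_lit 2) (T.ls (nat_lit 3) (nat_lit 4)) (T.ts (nat_lit 1) (T.ls (nat_lit 2) (nat_lit 4)) (T.ts (nat_lit 0) (T.im (nat_lit 7) (nat_lit 2)) T.ie))))) (T.ts (nat_lit 0) (T.im (nat_lit 7) (nat_lit 1)) T.ie))))))))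
def d739 : T := (T.ts (nat_lit 2) (T.ts (nat_lit 3) (T.ts (nat_lit 3) (T.ls (nat_lit 2) (nat_lit 3)) (T.ts (nat_lit 1) (T.ls (nat_lit 3) (nat_lit 4)) (T.ts (nat_lit 2) (T.im (nat_lit 7) (nat_lit 2)) (T.ts (nat_lit 0) (T.im (nat_lit 5) (nat_lit 3)) (T.nw (T.ls (nat_lit 2) (nat_lit 3))))))) (T.ts (nat_lit 1) (T.ts (nat_lit 3) (T.ls (nat_lit 3) (nat_lit 4)) (T.ts (nat_lit 1) (T.ls (nat_lit 3) (nat_lit 4)) (T.ts (nat_lit 0) (T.ls (nat_lit 2) (nat_lit 4)) (T.ts (nat_lit 2) (T.im (nat_lit 7) (nat_lit 2)) (T.nw (T.ls (nat_lit 2) (nat_lit 3))))))) (T.ts (nat_lit 0) (T.ts (nat_lit 3) (T.ls (nat_lit 2) (nat_lit 4)) (T.ts (nat_lit 1) (T.ls (nat_lit 3) (nat_lit 4)) (T.ts (nat_lit 0) (T.ls (nat_lit 2) (nat_lit 4)) (T.ts (nat_lit 2) (T.im (nat_lit 7) (nat_lit 2)) (T.nw (T.ls (nat_lit 2) (nat_lit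 3))))))) (T.ts (nat_lit 2) (T.im (nat_lit 7) (nat_lit 1)) (T.nw (T.ts (nat_lit 4) (T.ls (nat_lit 2) (nat_lit 3)) (T.ts (nat_lit 2) (T.ls (nat_lit 3) (nat_lit 4)) (T.ts (nat_lit 1) (T.ls (nat_lit 2) (nat_lit 4)) (T.ts (nat_lit 0) (T.ls (nat_lit 2) (nat_lit 3)) (T.ts (nat_lit 3) (T.im (nat_lit 7) (nat_lit 2)) T.ie)))))))))) (T.ts (nat_lit 1) (T.ts (nat_lit 3) (T.ts (nat_lit 3) (T.ls (nat_lit 2) (nat_lit 3)) (T.ts (nat_lit 2) (T.ls (nat_lit 3) (nat_lit 4)) (T.ts (nat_lit 1) (T.im (nat_lit 7) (nat_lit 2)) (T.ts (nat_lit 0) (T.im (nat_lit 5) (nat_lit 3)) (T.nw (T.ls (nat_lit 2) (nat_lit 3))))))) (T.ts (nat_lit 2) (T.ts (nat_lit 3) (T.ls (nat_lit 2) (nat_lit 3)) (T.ts (nat_lit 2) (T.ls (nat_lit 2) (nat_lit 3)) (T.ts (nat_lit 0) (T.ls (nat_lit 2) (nat_lit 4)) (T.ts (nat_lit 1) (T.im (nat_lit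 7) (nat_lit 2)) (T.nw (T.ls (nat_lit 2) (nat_lit 3))))))) (T.ts (nat_lit 0) (T.ts (nat_lit 3) (T.ls (nat_lit 2) (nat_lit 4)) (T.ts (nat_lit 2) (T.ls (nat_lit 2) (nat_lit 3)) (T.ts (nat_lit 0) (T.ls (nat_lit 2) (nat_lit 4)) (T.ts (nat_lit 1) (T.im (nat_lit 7) (nat_lit 2)) (T.nw (T.ls (nat_lit 2) (nat_lit 3))))))) (T.ts (nat_lit 1) (T.im (nat_lit 7) (nat_lit 1)) (T.nw (T.ts (nat_lit 4) (T.ls (nat_lit 2) (nat_lit 3)) (T.ts (nat_lit 3) (T.ls (nat_lit 2) (nat_lit 3)) (T.ts (nat_lit 1) (T.ls (nat_lit 2) (nat_lit 4)) (T.ts (nat_lit 0) (T.ls (nat_lit 2) (nat_lit 3)) (T.ts (nat_lit 2) (T.im (nat_lit 7) (nat_lit 2)) T.ie)))))))))) d738))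
def d740 : T := (T.ts (nat_lit 1) (T.ts (nat_lit 4) (T.ts (nat_lit 3) (T.ls (nat_lit 2) (nat_lit 4)) (T.ts (nat_lit 2) (T.ls (nat_lit 3) (nat_lit 4)) (T.ts (nat_lit 4) (T.im (nat_lit 3) (nat_lit 4)) (T.ts (nat_lit 1) (T.im (nat_lit 7) (nat_lit 2)) (T.ts (nat_lit 0) (T.im (nat_lit 5) (nat_lit 3)) T.ie))))) (T.ts (nat_lit 3) (T.ts (nat_lit 4) (T.ls (nat_lit 2) (nat_lit 3)) (T.ts (nat_lit 3) (T.ls (nat_lit 2) (nat_lit 3)) (T.ts (nat_lit 2) (T.ls (nat_lit 3) (nat_lit 4)) (T.ts (nat_lit 0) (T.ls (nat_lit 2) (nat_lit 3)) (T.ts (nat_lit 1) (T.im (nat_lit 7) (nat_lit 2)) T.ie))))) (T.ts (nat_lit 2) (T.ts (nat_lit 4) (T.ls (nat_lit 3) (nat_lit 4)) (T.ts (nat_lit 3) (T.ls (nat_lit 2) (nat_lit 3)) (T.ts (nat_lit 2) (T.ls (nat_lit 3) (nat_lit 4)) (T.ts (nat_lit 0) (T.ls (nat_lit 2) (nat_lit 3))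 (T.ts (nat_lit 1) (T.im (nat_lit 7) (nat_lit 2)) T.ie))))) (T.ts (nat_lit 0) (T.ts (nat_lit 4) (T.ls (nat_lit 2) (nat_lit 3)) (T.ts (nat_lit 3) (T.ls (nat_lit 2) (nat_lit 3)) (T.ts (nat_lit 2) (T.ls (nat_lit 3) (nat_lit 4)) (T.ts (nat_lit 0) (T.ls (nat_lit 2) (nat_lit 3)) (T.ts (nat_lit 1) (T.im (nat_lit 7) (nat_lit 2)) T.ie))))) (T.ts (nat_lit 1) (T.im (nat_lit 7) (nat_lit 1)) T.ie))))) (T.ts (nat_lit 0) (T.ts (nat_lit 4) (T.ts (nat_lit 4) (T.ls (nat_lit 2) (nat_lit 3)) (T.ts (nat_lit 3) (T.ls (nat_lit 2) (nat_lit 3)) (T.ts (nat_lit 2) (T.ls (nat_lit 3) (nat_lit 4)) (T.ts (nat_lit 1) (T.ls (nat_lit 2) (nat_lit 4)) (T.ts (nat_lit 0) (T.im (nat_lit 5) (nat_lit 3)) T.ie))))) (T.ts (nat_lit 3) (T.ts (nat_lit 4) (T.ls (nat_lit 2) (nat_lit 3)) (T.ts (nat_lit 3) (T.ls (nat_lit 2) (nat_lit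 3)) (T.ts (nat_lit 2) (T.ls (nat_lit 3) (nat_lit 4)) (T.ts (nat_lit 1) (T.ls (nat_lit 2) (nat_lit 4)) (T.ts (nat_lit 0) (T.im (nat_lit 7) (nat_lit 2)) T.ie))))) (T.ts (nat_lit 2) (T.ts (nat_lit 4) (T.ls (nat_lit 3) (nat_lit 4)) (T.ts (nat_lit 3) (T.ls (nat_lit 2) (nat_lit 3)) (T.ts (nat_lit 2) (T.ls (nat_lit 3) (nat_lit 4)) (T.ts (nat_lit 1) (T.ls (nat_lit 2) (nat_lit 4)) (T.ts (nat_lit 0) (T.im (nat_lit 7) (nat_lit 2)) T.ie))))) (T.ts (nat_lit 1) (T.ts (nat_lit 4) (T.ls (nat_lit 2) (nat_lit 4)) (T.ts (nat_lit 3) (T.ls (nat_lit 2) (nat_lit 3)) (T.ts (nat_lit 2) (T.ls (nat_lit 3) (nat_lit 4)) (T.ts (nat_lit 1) (T.ls (nat_lit 2) (nat_lit 4)) (T.ts (nat_lit 0) (T.im (nat_lit 7) (nat_lit 2)) T.ie))))) (T.ts (nat_lit 0) (T.im (nat_lit 7) (nat_lit 1)) T.ie))))) (T.ts (nat_lit 4) (T.im (nat_lit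 5) (nat_lit 2)) T.ie)))
def d741 : T := (T.ts (nat_lit 3) (T.ts (nat_lit 4) (T.ts (nat_lit 4) (T.ls (nat_lit 2) (nat_lit 3)) (T.ts (nat_lit 2) (T.ls (nat_lit 3) (nat_lit 4)) (T.ts (nat_lit 1) (T.ls (nat_lit 2) (nat_lit 4)) (T.ts (nat_lit 3) (T.im (nat_lit 7) (nat_lit 2)) (T.ts (nat_lit 0) (T.im (nat_lit 5) (nat_lit 3)) T.ie))))) (T.ts (nat_lit 2) (T.ts (nat_lit 4) (T.ls (nat_lit 3) (nat_lit 4)) (T.ts (nat_lit 2) (T.ls (nat_lit 3) (nat_lit 4)) (T.ts (nat_lit 1) (T.ls (nat_lit 2) (nat_lit 4)) (T.ts (nat_lit 0) (T.ls (nat_lit 2) (nat_lit 3)) (T.ts (nat_lit 3) (T.im (nat_lit 7) (nat_lit 2)) T.ie))))) (T.ts (nat_lit 1) (T.ts (nat_lit 4) (T.ls (nat_lit 2) (nat_lit 4)) (T.ts (nat_lit 2) (T.ls (nat_lit 3) (nat_lit 4)) (T.ts (nat_lit 1) (T.ls (nat_lit 2) (nat_lit 4)) (T.ts (nat_lit 0) (T.ls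 (nat_lit 2) (nat_lit 3)) (T.ts (nat_lit 3) (T.im (nat_lit 7) (nat_lit 2)) T.ie))))) (T.ts (nat_lit 0) (T.ts (nat_lit 4) (T.ls (nat_lit 2) (nat_lit 3)) (T.ts (nat_lit 2) (T.ls (nat_lit 3) (nat_lit 4)) (T.ts (nat_lit 1) (T.ls (nat_lit 2) (nat_lit 4)) (T.ts (nat_lit 0) (T.ls (nat_lit 2) (nat_lit 3)) (T.ts (nat_lit 3) (T.im (nat_lit 7) (nat_lit 2)) T.ie))))) (T.ts (nat_lit 3) (T.im (nat_lit 7) (nat_lit 1)) T.ie))))) (T.ts (nat_lit 2) (T.ts (nat_lit 4) (T.ts (nat_lit 4) (T.ls (nat_lit 2) (nat_lit 3)) (T.ts (nat_lit 3) (T.ls (nat_lit 3) (nat_lit 4)) (T.ts (nat_lit 1) (T.ls (nat_lit 2) (nat_lit 4)) (T.ts (nat_lit 2) (T.im (nat_lit 7) (nat_lit 2)) (T.ts (nat_lit 0) (T.im (nat_lit 5) (nat_lit 3)) T.ie))))) (T.ts (nat_lit 3) (T.ts (nat_lit 4) (T.ls (nat_lit 2) (nat_lit 3)) (T.ts (nat_lit 3)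 (T.ls (nat_lit 2) (nat_lit 3)) (T.ts (nat_lit 1) (T.ls (nat_lit 2) (nat_lit 4)) (T.ts (nat_lit 0) (T.ls (nat_lit 2) (nat_lit 3)) (T.ts (nat_lit 2) (T.im (nat_lit 7) (nat_lit 2)) T.ie))))) (T.ts (nat_lit 1) (T.ts (nat_lit 4) (T.ls (nat_lit 2) (nat_lit 4)) (T.ts (nat_lit 3) (T.ls (nat_lit 2) (nat_lit 3)) (T.ts (nat_lit 1) (T.ls (nat_lit 2) (nat_lit 4)) (T.ts (nat_lit 0) (T.ls (nat_lit 2) (nat_lit 3)) (T.ts (nat_lit 2) (T.im (nat_lit 7) (nat_lit 2)) T.ie))))) (T.ts (nat_lit 0) (T.ts (nat_lit 4) (T.ls (nat_lit 2) (nat_lit 3)) (T.ts (nat_lit 3) (T.ls (nat_lit 2) (nat_lit 3)) (T.ts (nat_lit 1) (T.ls (nat_lit 2) (nat_lit 4)) (T.ts (nat_lit 0) (T.ls (nat_lit 2) (nat_lit 3)) (T.ts (nat_lit 2) (T.im (nat_lit 7) (nat_lit 2)) T.ie))))) (T.ts (nat_lit 2) (T.im (nat_lit 7) (nat_lit 1)) T.ie)))))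 d740))
def d742 : T := (T.tp (T.ts (nat_lit 2) d735 (T.ts (nat_lit 1) d737 (T.ts (nat_lit 0) d739 (T.ts (nat_lit 3) (T.im (nat_lit 5) (nat_lit 1)) (T.nw d741))))))
def d743 : T := (T.ts (nat_lit 1) (T.ts (nat_lit 3) (T.ts (nat_lit 2) (T.ts (nat_lit 1) (T.ts (nat_lit 0) (T.ts (nat_lit 3) (T.ts (nat_lit 2) (T.ts (nat_lit 3) (T.ts (nat_lit 3) (T.l1 (nat_lit 12300) (nat_lit 4) (nat_lit 20500)) (T.tp (T.sk (T.ls (nat_lit 2) (nat_lit 4))))) (T.tp (T.sk (T.ls (nat_lit 2) (nat_lit 4))))) (T.tp (T.sk (T.ls (nat_lit 2) (nat_lit 4))))) (T.tp (T.sk (T.ls (nat_lit 2) (nat_lit 4))))) (T.tp (T.sk (T.ls (nat_lit 2) (nat_lit 4))))) (T.tp (T.sk (T.ls (nat_lit 2) (nat_lit 4))))) (T.tp (T.sk (T.ls (nat_lit 2) (nat_lit 4))))) (T.tp (T.sk (T.ls (nat_lit 2) (nat_lit 4))))) (T.ts (nat_lit 0) (T.ls (nat_lit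 2) (nat_lit 4)) (T.ts (nat_lit 3) (T.im (nat_lit 7) (nat_lit 2)) (T.nw (T.ts (nat_lit 4) (T.ts (nat_lit 3) (T.ts (nat_lit 2) (T.ts (nat_lit 1) (T.ts (nat_lit 4) (T.ts (nat_lit 3) (T.ts (nat_lit 4) (T.ts (nat_lit 4) (T.l1 (nat_lit 12300) (nat_lit 2) (nat_lit 20500)) (T.tp (T.sk (T.ls (nat_lit 2) (nat_lit 4))))) (T.tp (T.sk (T.ls (nat_lit 2) (nat_lit 4))))) (T.tp (T.sk (T.ls (nat_lit 2) (nat_lit 4))))) (T.tp (T.sk (T.ls (nat_lit 2) (nat_lit 4))))) (T.tp (T.sk (T.ls (nat_lit 2) (nat_lit 4))))) (T.tp (T.sk (T.ls (nat_lit 2) (nat_lit 4))))) (T.tp (T.sk (T.ls (nat_lit 2) (nat_lit 4))))) (T.tp (T.sk (T.ls (nat_lit 2) (nat_lit 4)))))))))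
def d744 : T := (T.ts (nat_lit 1) (T.ts (nat_lit 3) (T.ts (nat_lit 2) (T.ts (nat_lit 1) (T.ts (nat_lit 0) (T.ts (nat_lit 3) (T.ts (nat_lit 2) (T.ts (nat_lit 3) (T.ts (nat_lit 3) (T.l1 (nat_lit 12300) (nat_lit 4) (nat_lit 20500)) (T.tp (T.sk (T.ls (nat_lit 2) (nat_lit 4))))) (T.tp (T.sk (T.ls (nat_lit 2) (nat_lit 4))))) (T.tp (T.sk (T.ls (nat_lit 2) (nat_lit 4))))) (T.tp (T.sk (T.ls (nat_lit 2) (nat_lit 4))))) (T.tp (T.sk (T.ls (nat_lit 2) (nat_lit 4))))) (T.tp (T.sk (T.ls (nat_lit 2) (nat_lit 4))))) (T.tp (T.sk (T.ls (nat_lit 2) (nat_lit 4))))) (T.tp (T.sk (T.ls (nat_lit 2) (nat_lit 4))))) (T.ts (nat_lit 0) (T.ls (nat_lit 2) (nat_lit 4)) (T.ts (nat_lit 3) (T.im (nat_lit 7) (nat_lit 2)) (T.nw (T.ts (nat_lit 4) (T.ts (nat_lit 3) (T.ts (nat_lit 2) (T.ts (nat_lit 1) (T.ts (nat_lit 4)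 (T.ts (nat_lit 3) (T.ts (nat_lit 4) (T.ts (nat_lit 4) (T.l1 (nat_lit 12300) (nat_lit 2) (nat_lit 20500)) (T.tp (T.sk (T.ls (nat_lit 2) (nat_lit 4))))) (T.tp (T.sk (T.ls (nat_lit 2) (nat_lit 4))))) (T.tp (T.sk (T.ls (nat_lit 2) (nat_lit 4))))) (T.tp (T.sk (T.ls (nat_lit 2) (nat_lit 4))))) (T.tp (T.sk (T.ls (nat_lit 2) (nat_lit 4))))) (T.tp (T.sk (T.ls (nat_lit 2) (nat_lit 4))))) (T.tp (T.sk (T.ls (nat_lit 2) (nat_lit 4))))) (T.tp (T.sk (T.ls (nat_lit 2) (nat_lit 4)))))))))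
def d745 : T := (T.ts (nat_lit 2) (T.ts (nat_lit 4) (T.ts (nat_lit 3) (T.ts (nat_lit 2) (T.ts (nat_lit 1) (T.ts (nat_lit 4) (T.ts (nat_lit 3) (T.ts (nat_lit 4) (T.ts (nat_lit 4) (T.l1 (nat_lit 12300) (nat_lit 4) (nat_lit 20500)) (T.tp (T.sk (T.ls (nat_lit 2) (nat_lit 4))))) (T.tp (T.sk (T.ls (nat_lit 2) (nat_lit 4))))) (T.tp (T.sk (T.ls (nat_lit 2) (nat_lit 4))))) (T.tp (T.sk (T.ls (nat_lit 2) (nat_lit 4))))) (T.tp (T.sk (T.ls (nat_lit 2) (nat_lit 4))))) (T.tp (T.sk (T.ls (nat_lit 2) (nat_lit 4))))) (T.tp (T.sk (T.ls (nat_lit 2) (nat_lit 4))))) (T.tp (T.sk (T.ls (nat_lit 2) (nat_lit 4))))) (T.ts (nat_lit 1) (T.ls (nat_lit 2) (nat_lit 4)) (T.ts (nat_lit 0) (T.ts (nat_lit 4) (T.ts (nat_lit 3) (T.ts (nat_lit 2) (T.ts (nat_lit 1) (T.ts (nat_lit 4) (T.ts (nat_lit 3) (T.ts (nat_lit 4) (T.ts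 (nat_lit 4) (T.l1 (nat_lit 12300) (nat_lit 2) (nat_lit 20500)) (T.tp (T.sk (T.ls (nat_lit 2) (nat_lit 4))))) (T.tp (T.sk (T.ls (nat_lit 2) (nat_lit 4))))) (T.tp (T.sk (T.ls (nat_lit 2) (nat_lit 4))))) (T.tp (T.sk (T.ls (nat_lit 2) (nat_lit 4))))) (T.tp (T.sk (T.ls (nat_lit 2) (nat_lit 4))))) (T.tp (T.sk (T.ls (nat_lit 2) (nat_lit 4))))) (T.tp (T.sk (T.ls (nat_lit 2) (nat_lit 4))))) (T.tp (T.sk (T.ls (nat_lit 2) (nat_lit 4))))) (T.tp (T.ts (nat_lit 4) (T.im (nat_lit 7) (nat_lit 2)) T.ie)))))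
def d746 : T := (T.ts (nat_lit 4) (T.tp (T.ts (nat_lit 3) (T.ts (nat_lit 2) (T.ts (nat_lit 1) (T.ts (nat_lit 4) (T.ts (nat_lit 3) (T.ts (nat_lit 4) (T.im (nat_lit 13) (nat_lit 2)) (T.sk (T.ls (nat_lit 2) (nat_lit 4)))) (T.sk (T.ls (nat_lit 2) (nat_lit 4)))) (T.sk (T.ls (nat_lit 2) (nat_lit 4)))) (T.sk (T.ls (nat_lit 2) (nat_lit 4)))) (T.sk (T.ls (nat_lit 2) (nat_lit 4)))) (T.sk (T.ls (nat_lit 2) (nat_lit 4))))) (T.ts (nat_lit 3) (T.ls (nat_lit 2) (nat_lit 4)) (T.ts (nat_lit 1) (T.ls (nat_lit 2) (nat_lit 4)) (T.ts (nat_lit 0) (T.ts (nat_lit 4) (T.ts (nat_lit 3) (T.ts (nat_lit 2) (T.ts (nat_lit 1) (T.ts (nat_lit 4) (T.ts (nat_lit 3) (T.ts (nat_lit 4) (T.ts (nat_lit 2) (T.l1 (nat_lit 12300) (nat_lit 2) (nat_lit 20500)) (T.tp (T.sk (T.ls (nat_lit 2) (nat_lit 4))))) (T.tp (T.sk (T.ls (nat_lit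 2) (nat_lit 4))))) (T.tp (T.sk (T.ls (nat_lit 2) (nat_lit 4))))) (T.tp (T.sk (T.ls (nat_lit 2) (nat_lit 4))))) (T.tp (T.sk (T.ls (nat_lit 2) (nat_lit 4))))) (T.tp (T.sk (T.ls (nat_lit 2) (nat_lit 4))))) (T.tp (T.sk (T.ls (nat_lit 2) (nat_lit 4))))) (T.tp (T.sk (T.ls (nat_lit 2) (nat_lit 4))))) (T.tp (T.ts (nat_lit 2) (T.im (nat_lit 7) (nat_lit 2)) T.ie))))))
def d747 : T := (T.ts (nat_lit 2) (T.ts (nat_lit 2) (T.ls (nat_lit 2) (nat_lit 4)) (T.ts (nat_lit 0) (T.ls (nat_lit 2) (nat_lit 4)) (T.ts (nat_lit 3) (T.im (nat_lit 5) (nat_lit 3)) (T.ts (nat_lit 1) (T.im (nat_lit 7) (nat_lit 2)) (T.nw (T.ts (nat_lit 4) (T.ts (nat_lit 3) (T.ts (nat_lit 2) (T.ts (nat_lit 1) (T.ts (nat_lit 4) (T.ts (nat_lit 3) (T.ts (nat_lit 4) (T.ts (nat_lit 2) (T.l1 (nat_lit 12300) (nat_lit 2) (nat_lit 20500))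 (T.sk (T.lf (nat_lit 16569) (nat_lit 2) (nat_lit 20500) (nat_lit 4) (nat_lit 12300)))) (T.sk (T.lf (nat_lit 16569) (nat_lit 2) (nat_lit 20500) (nat_lit 4) (nat_lit 12300)))) (T.tp (T.sk (T.ls (nat_lit 2) (nat_lit 4))))) (T.tp (T.sk (T.ls (nat_lit 2) (nat_lit 4))))) (T.tp (T.sk (T.ls (nat_lit 2) (nat_lit 4))))) (T.tp (T.sk (T.ls (nat_lit 2) (nat_lit 4))))) (T.tp (T.sk (T.ls (nat_lit 2) (nat_lit 4))))) (T.tp (T.sk (T.ls (nat_lit 2) (nat_lit 4)))))))))) (T.ts (nat_lit 0) (T.ts (nat_lit 3) (T.ls (nat_lit 2) (nat_lit 4)) (T.ts (nat_lit 2) (T.ls (nat_lit 2) (nat_lit 4)) (T.ts (nat_lit 0) (T.ls (nat_lit 2) (nat_lit 4)) (T.ts (nat_lit 1) (T.im (nat_lit 7) (nat_lit 2)) (T.nw (T.ts (nat_lit 4) (T.ts (nat_lit 3) (T.ts (nat_lit 2) (T.ts (nat_lit 1) (T.ts (nat_lit 4) (T.ts (nat_lit 3) (T.ts (nat_lit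 4) (T.ts (nat_lit 2) (T.l1 (nat_lit 12300) (nat_lit 2) (nat_lit 20500)) (T.tp (T.sk (T.ls (nat_lit 2) (nat_lit 4))))) (T.tp (T.sk (T.ls (nat_lit 2) (nat_lit 4))))) (T.tp (T.sk (T.ls (nat_lit 2) (nat_lit 4))))) (T.tp (T.sk (T.ls (nat_lit 2) (nat_lit 4))))) (T.tp (T.sk (T.ls (nat_lit 2) (nat_lit 4))))) (T.tp (T.sk (T.ls (nat_lit 2) (nat_lit 4))))) (T.tp (T.sk (T.ls (nat_lit 2) (nat_lit 4))))) (T.tp (T.sk (T.ls (nat_lit 2) (nat_lit 4)))))))))) (T.ts (nat_lit 1) (T.im (nat_lit 7) (nat_lit 1)) (T.nw d746))))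
def d748 : T := (T.ts (nat_lit 3) (T.ts (nat_lit 3) (T.ls (nat_lit 2) (nat_lit 4)) (T.ts (nat_lit 2) (T.ts (nat_lit 3) (T.ls (nat_lit 2) (nat_lit 4)) (T.ts (nat_lit 1) (T.ts (nat_lit 0) (T.ts (nat_lit 3) (T.ts (nat_lit 2) (T.l1 (nat_lit 12300) (nat_lit 4) (nat_lit 20500)) (T.tp (T.sk (T.ls (nat_lit 2) (nat_lit 4))))) (T.tp (T.sk (T.ls (nat_lit 2) (nat_lit 4))))) (T.tp (T.sk (T.ls (nat_lit 2) (nat_lit 4))))) (T.tp (T.sk (T.ls (nat_lit 2) (nat_lit 4)))))) (T.ts (nat_lit 0) (T.ls (nat_lit 2) (nat_lit 4)) (T.ts (nat_lit 1) (T.im (nat_lit 7) (nat_lit 2)) (T.nw (T.ts (nat_lit 4) (T.ts (nat_lit 3) (T.ts (nat_lit 2) (T.ts (nat_lit 1) (T.ts (nat_lit 4) (T.ts (nat_lit 3) (T.ts (nat_lit 4) (T.ts (nat_lit 2) (T.l1 (nat_lit 12300) (nat_lit 2) (nat_lit 20500)) (T.tp (T.sk (T.ls (nat_lit 2) (nat_lit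 4))))) (T.tp (T.sk (T.ls (nat_lit 2) (nat_lit 4))))) (T.tp (T.sk (T.ls (nat_lit 2) (nat_lit 4))))) (T.tp (T.sk (T.ls (nat_lit 2) (nat_lit 4))))) (T.tp (T.sk (T.ls (nat_lit 2) (nat_lit 4))))) (T.tp (T.sk (T.ls (nat_lit 2) (nat_lit 4))))) (T.tp (T.sk (T.ls (nat_lit 2) (nat_lit 4))))) (T.tp (T.sk (T.ls (nat_lit 2) (nat_lit 4)))))))))) d747)
def d749 : T := (T.ts (nat_lit 1) (T.ts (nat_lit 3) (T.ts (nat_lit 2) (T.ts (nat_lit 1) (T.ts (nat_lit 0) (T.ts (nat_lit 3) (T.ts (nat_lit 2) (T.ts (nat_lit 3) (T.ts (nat_lit 0) (T.l1 (nat_lit 12300) (nat_lit 4) (nat_lit 20500)) (T.tp (T.sk (T.ls (nat_lit 2) (nat_lit 4))))) (T.tp (T.sk (T.ls (nat_lit 2) (nat_lit 4))))) (T.tp (T.sk (T.ls (nat_lit 2) (nat_lit 4))))) (T.tp (T.sk (T.ls (nat_lit 2) (nat_lit 4))))) (T.tp (T.sk (T.ls (nat_lit 2) (nat_lit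 4))))) (T.tp (T.sk (T.ls (nat_lit 2) (nat_lit 4))))) (T.tp (T.sk (T.ls (nat_lit 2) (nat_lit 4))))) (T.tp (T.sk (T.ls (nat_lit 2) (nat_lit 4))))) (T.ts (nat_lit 2) (T.im (nat_lit 3) (nat_lit 4)) (T.ts (nat_lit 0) (T.im (nat_lit 7) (nat_lit 2)) (T.nw (T.ts (nat_lit 4) (T.ts (nat_lit 3) (T.ts (nat_lit 2) (T.ts (nat_lit 1) (T.ts (nat_lit 4) (T.ts (nat_lit 3) (T.ts (nat_lit 4) (T.ts (nat_lit 1) (T.l1 (nat_lit 12300) (nat_lit 2) (nat_lit 20500)) (T.tp (T.sk (T.ls (nat_lit 2) (nat_lit 4))))) (T.tp (T.sk (T.ls (nat_lit 2) (nat_lit 4))))) (T.tp (T.sk (T.ls (nat_lit 2) (nat_lit 4))))) (T.tp (T.sk (T.ls (nat_lit 2) (nat_lit 4))))) (T.tp (T.sk (T.ls (nat_lit 2) (nat_lit 4))))) (T.tp (T.sk (T.ls (nat_lit 2) (nat_lit 4))))) (T.tp (T.sk (T.ls (nat_lit 2) (nat_lit 4))))) (T.tp (T.sk (T.ls (nat_lit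 2) (nat_lit 4)))))))))
def d750 : T := (T.ts (nat_lit 1) (T.ts (nat_lit 3) (T.ts (nat_lit 2) (T.ts (nat_lit 1) (T.ts (nat_lit 0) (T.ts (nat_lit 3) (T.ts (nat_lit 2) (T.ts (nat_lit 3) (T.ts (nat_lit 0) (T.l1 (nat_lit 12300) (nat_lit 4) (nat_lit 20500)) (T.sk (T.lf (nat_lit 16569) (nat_lit 2) (nat_lit 12300) (nat_lit 4) (nat_lit 20500)))) (T.sk (T.lf (nat_lit 16569) (nat_lit 2) (nat_lit 12300) (nat_lit 4) (nat_lit 20500)))) (T.tp (T.sk (T.ls (nat_lit 2) (nat_lit 4))))) (T.tp (T.sk (T.ls (nat_lit 2) (nat_lit 4))))) (T.tp (T.sk (T.ls (nat_lit 2) (nat_lit 4))))) (T.tp (T.sk (T.ls (nat_lit 2) (nat_lit 4))))) (T.tp (T.sk (T.ls (nat_lit 2) (nat_lit 4))))) (T.tp (T.sk (T.ls (nat_lit 2) (nat_lit 4))))) (T.ts (nat_lit 3) (T.im (nat_lit 5) (nat_lit 3)) (T.ts (nat_lit 0) (T.im (nat_lit 7) (nat_lit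 2)) (T.nw (T.ts (nat_lit 4) (T.ts (nat_lit 3) (T.ts (nat_lit 2) (T.ts (nat_lit 1) (T.ts (nat_lit 4) (T.ts (nat_lit 3) (T.ts (nat_lit 4) (T.ts (nat_lit 1) (T.l1 (nat_lit 12300) (nat_lit 2) (nat_lit 20500)) (T.sk (T.lf (nat_lit 16569) (nat_lit 2) (nat_lit 20500) (nat_lit 4) (nat_lit 12300)))) (T.sk (T.lf (nat_lit 16569) (nat_lit 2) (nat_lit 20500) (nat_lit 4) (nat_lit 12300)))) (T.tp (T.sk (T.ls (nat_lit 2) (nat_lit 4))))) (T.tp (T.sk (T.ls (nat_lit 2) (nat_lit 4))))) (T.tp (T.sk (T.ls (nat_lit 2) (nat_lit 4))))) (T.tp (T.sk (T.ls (nat_lit 2) (nat_lit 4))))) (T.tp (T.sk (T.ls (nat_lit 2) (nat_lit 4))))) (T.tp (T.sk (T.ls (nat_lit 2) (nat_lit 4)))))))))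
def d751 : T := (T.ts (nat_lit 1) (T.ts (nat_lit 3) (T.ts (nat_lit 2) (T.ts (nat_lit 1) (T.ts (nat_lit 0) (T.ts (nat_lit 3) (T.ts (nat_lit 2) (T.ts (nat_lit 3) (T.ts (nat_lit 0) (T.l1 (nat_lit 12300) (nat_lit 4) (nat_lit 20500)) (T.tp (T.sk (T.ls (nat_lit 2) (nat_lit 4))))) (T.tp (T.sk (T.ls (nat_lit 2) (nat_lit 4))))) (T.tp (T.sk (T.ls (nat_lit 2) (nat_lit 4))))) (T.tp (T.sk (T.ls (nat_lit 2) (nat_lit 4))))) (T.tp (T.sk (T.ls (nat_lit 2) (nat_lit 4))))) (T.tp (T.sk (T.ls (nat_lit 2) (nat_lit 4))))) (T.tp (T.sk (T.ls (nat_lit 2) (nat_lit 4))))) (T.tp (T.sk (T.ls (nat_lit 2) (nat_lit 4))))) (T.ts (nat_lit 0) (T.im (nat_lit 7) (nat_lit 2)) (T.nw (T.ts (nat_lit 4) (T.ts (nat_lit 3) (T.ts (nat_lit 2) (T.ts (nat_lit 1) (T.ts (nat_lit 4) (T.ts (nat_lit 3) (T.ts (nat_lit 4) (T.ts (nat_lit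 1) (T.l1 (nat_lit 12300) (nat_lit 2) (nat_lit 20500)) (T.tp (T.sk (T.ls (nat_lit 2) (nat_lit 4))))) (T.tp (T.sk (T.ls (nat_lit 2) (nat_lit 4))))) (T.tp (T.sk (T.ls (nat_lit 2) (nat_lit 4))))) (T.tp (T.sk (T.ls (nat_lit 2) (nat_lit 4))))) (T.tp (T.sk (T.ls (nat_lit 2) (nat_lit 4))))) (T.tp (T.sk (T.ls (nat_lit 2) (nat_lit 4))))) (T.tp (T.sk (T.ls (nat_lit 2) (nat_lit 4))))) (T.tp (T.sk (T.ls (nat_lit 2) (nat_lit 4))))))))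
def d752 : T := (T.ts (nat_lit 2) (T.ts (nat_lit 4) (T.ts (nat_lit 3) (T.ts (nat_lit 2) (T.ts (nat_lit 1) (T.ts (nat_lit 4) (T.ts (nat_lit 3) (T.ts (nat_lit 4) (T.ts (nat_lit 1) (T.l1 (nat_lit 12300) (nat_lit 4) (nat_lit 20500)) (T.tp (T.sk (T.ls (nat_lit 2) (nat_lit 4))))) (T.tp (T.sk (T.ls (nat_lit 2) (nat_lit 4))))) (T.tp (T.sk (T.ls (nat_lit 2) (nat_lit 4))))) (T.tp (T.sk (T.ls (nat_lit 2) (nat_lit 4))))) (T.tp (T.sk (T.ls (nat_lit 2) (nat_lit 4))))) (T.tp (T.sk (T.ls (nat_lit 2) (nat_lit 4))))) (T.tp (T.sk (T.ls (nat_lit 2) (nat_lit 4))))) (T.tp (T.sk (T.ls (nat_lit 2) (nat_lit 4))))) (T.ts (nat_lit 0) (T.ts (nat_lit 4) (T.ts (nat_lit 3) (T.ts (nat_lit 2) (T.ts (nat_lit 1) (T.ts (nat_lit 4) (T.ts (nat_lit 3) (T.ts (nat_lit 4) (T.ts (nat_lit 1) (T.l1 (nat_lit 12300) (nat_lit 2)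 (nat_lit 20500)) (T.tp (T.sk (T.ls (nat_lit 2) (nat_lit 4))))) (T.tp (T.sk (T.ls (nat_lit 2) (nat_lit 4))))) (T.tp (T.sk (T.ls (nat_lit 2) (nat_lit 4))))) (T.tp (T.sk (T.ls (nat_lit 2) (nat_lit 4))))) (T.tp (T.sk (T.ls (nat_lit 2) (nat_lit 4))))) (T.tp (T.sk (T.ls (nat_lit 2) (nat_lit 4))))) (T.tp (T.sk (T.ls (nat_lit 2) (nat_lit 4))))) (T.tp (T.sk (T.ls (nat_lit 2) (nat_lit 4))))) (T.tp (T.ts (nat_lit 1) (T.im (nat_lit 7) (nat_lit 2)) T.ie))))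
def d753 : T := (T.ts (nat_lit 4) (T.ls (nat_lit 2) (nat_lit 4)) (T.ts (nat_lit 3) (T.ts (nat_lit 4) (T.ls (nat_lit 2) (nat_lit 4)) (T.ts (nat_lit 2) (T.ts (nat_lit 1) (T.ts (nat_lit 4) (T.ts (nat_lit 3) (T.l1 (nat_lit 12300) (nat_lit 2) (nat_lit 20500)) (T.tp (T.sk (T.ls (nat_lit 2) (nat_lit 4))))) (T.tp (T.sk (T.ls (nat_lit 2) (nat_lit 4))))) (T.tp (T.sk (T.ls (nat_lit 2) (nat_lit 4))))) (T.tp (T.sk (T.ls (nat_lit 2) (nat_lit 4)))))) (T.ts (nat_lit 2) (T.ts (nat_lit 4) (T.ts (nat_lit 3) (T.ts (nat_lit 2) (T.ts (nat_lit 1) (T.ts (nat_lit 4) (T.ts (nat_lit 3) (T.ts (nat_lit 4) (T.ts (nat_lit 0) (T.l1 (nat_lit 12300) (nat_lit 4) (nat_lit 20500)) (T.tp (T.sk (T.ls (nat_lit 2) (nat_lit 4))))) (T.tp (T.sk (T.ls (nat_lit 2) (nat_lit 4))))) (T.tp (T.sk (T.ls (nat_lit 2) (nat_lit 4)))))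 (T.tp (T.sk (T.ls (nat_lit 2) (nat_lit 4))))) (T.tp (T.sk (T.ls (nat_lit 2) (nat_lit 4))))) (T.tp (T.sk (T.ls (nat_lit 2) (nat_lit 4))))) (T.tp (T.sk (T.ls (nat_lit 2) (nat_lit 4))))) (T.tp (T.sk (T.ls (nat_lit 2) (nat_lit 4))))) (T.tp (T.ts (nat_lit 1) (T.ls (nat_lit 2) (nat_lit 4)) (T.ts (nat_lit 0) (T.im (nat_lit 7) (nat_lit 2)) T.ie))))))
def d754 : T := (T.ts (nat_lit 4) (T.tp (T.ts (nat_lit 3) (T.ts (nat_lit 2) (T.ts (nat_lit 1) (T.ts (nat_lit 4) (T.ts (nat_lit 3) (T.ts (nat_lit 4) (T.im (nat_lit 13) (nat_lit 2)) (T.sk (T.ls (nat_lit 2) (nat_lit 4)))) (T.sk (T.ls (nat_lit 2) (nat_lit 4)))) (T.sk (T.ls (nat_lit 2) (nat_lit 4)))) (T.sk (T.ls (nat_lit 2) (nat_lit 4)))) (T.sk (T.ls (nat_lit 2) (nat_lit 4)))) (T.sk (T.ls (nat_lit 2) (nat_lit 4))))) (T.ts (nat_lit 3) (T.ls (nat_lit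 2) (nat_lit 4)) (T.ts (nat_lit 2) (T.ts (nat_lit 4) (T.ts (nat_lit 3) (T.ts (nat_lit 2) (T.ts (nat_lit 1) (T.ts (nat_lit 4) (T.ts (nat_lit 3) (T.ts (nat_lit 4) (T.ts (nat_lit 0) (T.l1 (nat_lit 12300) (nat_lit 4) (nat_lit 20500)) (T.tp (T.sk (T.ls (nat_lit 2) (nat_lit 4))))) (T.tp (T.sk (T.ls (nat_lit 2) (nat_lit 4))))) (T.tp (T.sk (T.ls (nat_lit 2) (nat_lit 4))))) (T.tp (T.sk (T.ls (nat_lit 2) (nat_lit 4))))) (T.tp (T.sk (T.ls (nat_lit 2) (nat_lit 4))))) (T.tp (T.sk (T.ls (nat_lit 2) (nat_lit 4))))) (T.tp (T.sk (T.ls (nat_lit 2) (nat_lit 4))))) (T.tp (T.sk (T.ls (nat_lit 2) (nat_lit 4))))) (T.tp (T.ts (nat_lit 1) (T.ls (nat_lit 2) (nat_lit 4)) (T.ts (nat_lit 0) (T.im (nat_lit 7) (nat_lit 2)) T.ie))))))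
def d755 : T := (T.ts (nat_lit 3) (T.ts (nat_lit 3) (T.ls (nat_lit 2) (nat_lit 4)) (T.ts (nat_lit 2) (T.ts (nat_lit 4) (T.ts (nat_lit 3) (T.ts (nat_lit 2) (T.ts (nat_lit 1) (T.ts (nat_lit 4) (T.ts (nat_lit 3) (T.ts (nat_lit 4) (T.ts (nat_lit 0) (T.l1 (nat_lit 12300) (nat_lit 4) (nat_lit 20500)) (T.sk (T.lf (nat_lit 16569) (nat_lit 2) (nat_lit 12300) (nat_lit 4) (nat_lit 20500)))) (T.sk (T.lf (nat_lit 16569) (nat_lit 2) (nat_lit 12300) (nat_lit 4) (nat_lit 20500)))) (T.tp (T.sk (T.ls (nat_lit 2) (nat_lit 4))))) (T.tp (T.sk (T.ls (nat_lit 2) (nat_lit 4))))) (T.tp (T.sk (T.ls (nat_lit 2) (nat_lit 4))))) (T.tp (T.sk (T.ls (nat_lit 2) (nat_lit 4))))) (T.tp (T.sk (T.ls (nat_lit 2) (nat_lit 4))))) (T.tp (T.sk (T.ls (nat_lit 2) (nat_lit 4))))) (T.tp (T.ts (nat_lit 1) (T.ls (nat_lit 2) (nat_lit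 4)) (T.ts (nat_lit 4) (T.im (nat_lit 5) (nat_lit 3)) (T.ts (nat_lit 0) (T.im (nat_lit 7) (nat_lit 2)) T.ie)))))) (T.ts (nat_lit 2) d754 (T.ts (nat_lit 1) (T.ts (nat_lit 4) (T.ls (nat_lit 2) (nat_lit 4)) (T.ts (nat_lit 3) (T.ls (nat_lit 2) (nat_lit 4)) (T.ts (nat_lit 2) (T.ts (nat_lit 4) (T.ts (nat_lit 3) (T.ts (nat_lit 2) (T.ts (nat_lit 1) (T.ts (nat_lit 4) (T.ts (nat_lit 3) (T.ts (nat_lit 4) (T.ts (nat_lit 0) (T.l1 (nat_lit 12300) (nat_lit 4) (nat_lit 20500)) (T.tp (T.sk (T.ls (nat_lit 2) (nat_lit 4))))) (T.tp (T.sk (T.ls (nat_lit 2) (nat_lit 4))))) (T.tp (T.sk (T.ls (nat_lit 2) (nat_lit 4))))) (T.tp (T.sk (T.ls (nat_lit 2) (nat_lit 4))))) (T.tp (T.sk (T.ls (nat_lit 2) (nat_lit 4))))) (T.tp (T.sk (T.ls (nat_lit 2) (nat_lit 4))))) (T.tp (T.sk (T.ls (nat_lit 2) (nat_lit 4))))) (T.tp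 (T.sk (T.ls (nat_lit 2) (nat_lit 4))))) (T.tp (T.ts (nat_lit 1) (T.ls (nat_lit 2) (nat_lit 4)) (T.ts (nat_lit 0) (T.im (nat_lit 7) (nat_lit 2)) T.ie)))))) (T.tp (T.ts (nat_lit 0) (T.im (nat_lit 7) (nat_lit 1)) T.ie)))))
def d756 : T := (T.ts (nat_lit 0) (T.ts (nat_lit 3) (T.ts (nat_lit 3) (T.ls (nat_lit 2) (nat_lit 4)) d749) (T.ts (nat_lit 2) (T.ts (nat_lit 2) (T.ls (nat_lit 2) (nat_lit 4)) d750) (T.ts (nat_lit 1) (T.ts (nat_lit 3) (T.tp (T.ts (nat_lit 2) (T.ts (nat_lit 1) (T.ts (nat_lit 0) (T.ts (nat_lit 3) (T.ts (nat_lit 2) (T.ts (nat_lit 3) (T.im (nat_lit 13) (nat_lit 2)) (T.sk (T.ls (nat_lit 2) (nat_lit 4)))) (T.sk (T.ls (nat_lit 2) (nat_lit 4)))) (T.sk (T.ls (nat_lit 2) (nat_lit 4)))) (T.sk (T.ls (nat_lit 2) (nat_lit 4)))) (T.sk (T.ls (nat_lit 2) (nat_lit 4)))) (T.sk (T.ls (nat_lit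 2) (nat_lit 4))))) (T.ts (nat_lit 2) (T.ls (nat_lit 2) (nat_lit 4)) d751)) (T.ts (nat_lit 0) (T.im (nat_lit 7) (nat_lit 1)) (T.nw (T.ts (nat_lit 4) (T.tp (T.ts (nat_lit 3) (T.ts (nat_lit 2) (T.ts (nat_lit 1) (T.ts (nat_lit 4) (T.ts (nat_lit 3) (T.ts (nat_lit 4) (T.im (nat_lit 13) (nat_lit 2)) (T.sk (T.ls (nat_lit 2) (nat_lit 4)))) (T.sk (T.ls (nat_lit 2) (nat_lit 4)))) (T.sk (T.ls (nat_lit 2) (nat_lit 4)))) (T.sk (T.ls (nat_lit 2) (nat_lit 4)))) (T.sk (T.ls (nat_lit 2) (nat_lit 4)))) (T.sk (T.ls (nat_lit 2) (nat_lit 4))))) (T.ts (nat_lit 3) (T.ls (nat_lit 2) (nat_lit 4)) d752))))))) (T.ts (nat_lit 2) (T.im (nat_lit 5) (nat_lit 2)) (T.nw (T.ts (nat_lit 4) d753 d755))))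
def d757 : T := (T.ts (nat_lit 3) (T.ts (nat_lit 2) (T.tp (T.ts (nat_lit 2) (T.ls (nat_lit 2) (nat_lit 4)) (T.ts (nat_lit 1) (T.ts (nat_lit 3) (T.ts (nat_lit 2) (T.im (nat_lit 7) (nat_lit 3)) (T.sk (T.ls (nat_lit 2) (nat_lit 4)))) (T.ts (nat_lit 0) (T.ls (nat_lit 2) (nat_lit 4)) (T.sk (T.ls (nat_lit 2) (nat_lit 4))))) (T.ts (nat_lit 0) (T.ls (nat_lit 2) (nat_lit 4)) (T.ts (nat_lit 3) (T.im (nat_lit 5) (nat_lit 3)) (T.nw (T.ts (nat_lit 4) (T.ts (nat_lit 3) (T.im (nat_lit 7) (nat_lit 3)) (T.sk (T.ls (nat_lit 2) (nat_lit 4)))) (T.sk (T.ls (nat_lit 2) (nat_lit 4)))))))))) (T.ts (nat_lit 1) (T.ts (nat_lit 2) (T.ls (nat_lit 2) (nat_lit 4)) d743) (T.ts (nat_lit 0) (T.ts (nat_lit 2) (T.ls (nat_lit 2) (nat_lit 4)) d744) (T.ts (nat_lit 3) (T.im (nat_lit 7) (nat_lit 1)) (T.nw (T.ts (nat_lit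 3) (T.ls (nat_lit 2) (nat_lit 4)) d745)))))) (T.ts (nat_lit 1) d748 d756))
def d758 : T := (T.ts (nat_lit 1) (T.ts (nat_lit 3) (T.ts (nat_lit 2) (T.ts (nat_lit 1) (T.ts (nat_lit 0) (T.ts (nat_lit 3) (T.ts (nat_lit 2) (T.ts (nat_lit 1) (T.ts (nat_lit 3) (T.l1 (nat_lit 12300) (nat_lit 4) (nat_lit 20500)) (T.tp (T.sk (T.ls (nat_lit 2) (nat_lit 4))))) (T.tp (T.sk (T.ls (nat_lit 2) (nat_lit 4))))) (T.tp (T.sk (T.ls (nat_lit 2) (nat_lit 4))))) (T.tp (T.sk (T.ls (nat_lit 2) (nat_lit 4))))) (T.tp (T.sk (T.ls (nat_lit 2) (nat_lit 4))))) (T.tp (T.sk (T.ls (nat_lit 2) (nat_lit 4))))) (T.tp (T.sk (T.ls (nat_lit 2) (nat_lit 4))))) (T.tp (T.sk (T.ls (nat_lit 2) (nat_lit 4))))) (T.ts (nat_lit 0) (T.ls (nat_lit 2) (nat_lit 4)) (T.ts (nat_lit 3) (T.im (nat_lit 7) (nat_lit 2)) (T.nw (T.ts (nat_lit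 4) (T.ts (nat_lit 3) (T.ts (nat_lit 2) (T.ts (nat_lit 1) (T.ts (nat_lit 4) (T.ts (nat_lit 3) (T.ts (nat_lit 2) (T.ts (nat_lit 4) (T.l1 (nat_lit 12300) (nat_lit 2) (nat_lit 20500)) (T.tp (T.sk (T.ls (nat_lit 2) (nat_lit 4))))) (T.tp (T.sk (T.ls (nat_lit 2) (nat_lit 4))))) (T.tp (T.sk (T.ls (nat_lit 2) (nat_lit 4))))) (T.tp (T.sk (T.ls (nat_lit 2) (nat_lit 4))))) (T.tp (T.sk (T.ls (nat_lit 2) (nat_lit 4))))) (T.tp (T.sk (T.ls (nat_lit 2) (nat_lit 4))))) (T.tp (T.sk (T.ls (nat_lit 2) (nat_lit 4))))) (T.tp (T.sk (T.ls (nat_lit 2) (nat_lit 4)))))))))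
def d759 : T := (T.ts (nat_lit 1) (T.ts (nat_lit 3) (T.ts (nat_lit 2) (T.ts (nat_lit 1) (T.ts (nat_lit 0) (T.ts (nat_lit 3) (T.ts (nat_lit 2) (T.ts (nat_lit 1) (T.ts (nat_lit 3) (T.l1 (nat_lit 12300) (nat_lit 4) (nat_lit 20500)) (T.tp (T.sk (T.ls (nat_lit 2) (nat_lit 4))))) (T.tp (T.sk (T.ls (nat_lit 2) (nat_lit 4))))) (T.tp (T.sk (T.ls (nat_lit 2) (nat_lit 4))))) (T.tp (T.sk (T.ls (nat_lit 2) (nat_lit 4))))) (T.tp (T.sk (T.ls (nat_lit 2) (nat_lit 4))))) (T.tp (T.sk (T.ls (nat_lit 2) (nat_lit 4))))) (T.tp (T.sk (T.ls (nat_lit 2) (nat_lit 4))))) (T.tp (T.sk (T.ls (nat_lit 2) (nat_lit 4))))) (T.ts (nat_lit 0) (T.ls (nat_lit 2) (nat_lit 4)) (T.ts (nat_lit 3) (T.im (nat_lit 7) (nat_lit 2)) (T.nw (T.ts (nat_lit 4) (T.ts (nat_lit 3) (T.ts (nat_lit 2) (T.ts (nat_lit 1) (T.ts (nat_lit 4)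 (T.ts (nat_lit 3) (T.ts (nat_lit 2) (T.ts (nat_lit 4) (T.l1 (nat_lit 12300) (nat_lit 2) (nat_lit 20500)) (T.tp (T.sk (T.ls (nat_lit 2) (nat_lit 4))))) (T.tp (T.sk (T.ls (nat_lit 2) (nat_lit 4))))) (T.tp (T.sk (T.ls (nat_lit 2) (nat_lit 4))))) (T.tp (T.sk (T.ls (nat_lit 2) (nat_lit 4))))) (T.tp (T.sk (T.ls (nat_lit 2) (nat_lit 4))))) (T.tp (T.sk (T.ls (nat_lit 2) (nat_lit 4))))) (T.tp (T.sk (T.ls (nat_lit 2) (nat_lit 4))))) (T.tp (T.sk (T.ls (nat_lit 2) (nat_lit 4)))))))))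
def d760 : T := (T.ts (nat_lit 2) (T.ts (nat_lit 4) (T.ts (nat_lit 3) (T.ts (nat_lit 2) (T.ts (nat_lit 1) (T.ts (nat_lit 4) (T.ts (nat_lit 3) (T.ts (nat_lit 2) (T.ts (nat_lit 4) (T.l1 (nat_lit 12300) (nat_lit 4) (nat_lit 20500)) (T.tp (T.sk (T.ls (nat_lit 2) (nat_lit 4))))) (T.tp (T.sk (T.ls (nat_lit 2) (nat_lit 4))))) (T.tp (T.sk (T.ls (nat_lit 2) (nat_lit 4))))) (T.tp (T.sk (T.ls (nat_lit 2) (nat_lit 4))))) (T.tp (T.sk (T.ls (nat_lit 2) (nat_lit 4))))) (T.tp (T.sk (T.ls (nat_lit 2) (nat_lit 4))))) (T.tp (T.sk (T.ls (nat_lit 2) (nat_lit 4))))) (T.tp (T.sk (T.ls (nat_lit 2) (nat_lit 4))))) (T.ts (nat_lit 1) (T.ls (nat_lit 2) (nat_lit 4)) (T.ts (nat_lit 0) (T.ts (nat_lit 4) (T.ts (nat_lit 3) (T.ts (nat_lit 2) (T.ts (nat_lit 1) (T.ts (nat_lit 4) (T.ts (nat_lit 3) (T.ts (nat_lit 2) (T.ts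 (nat_lit 4) (T.l1 (nat_lit 12300) (nat_lit 2) (nat_lit 20500)) (T.tp (T.sk (T.ls (nat_lit 2) (nat_lit 4))))) (T.tp (T.sk (T.ls (nat_lit 2) (nat_lit 4))))) (T.tp (T.sk (T.ls (nat_lit 2) (nat_lit 4))))) (T.tp (T.sk (T.ls (nat_lit 2) (nat_lit 4))))) (T.tp (T.sk (T.ls (nat_lit 2) (nat_lit 4))))) (T.tp (T.sk (T.ls (nat_lit 2) (nat_lit 4))))) (T.tp (T.sk (T.ls (nat_lit 2) (nat_lit 4))))) (T.tp (T.sk (T.ls (nat_lit 2) (nat_lit 4))))) (T.tp (T.ts (nat_lit 4) (T.im (nat_lit 7) (nat_lit 2)) T.ie)))))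
def d761 : T := (T.ts (nat_lit 4) (T.tp (T.ts (nat_lit 3) (T.ts (nat_lit 2) (T.ts (nat_lit 1) (T.ts (nat_lit 4) (T.ts (nat_lit 3) (T.ts (nat_lit 2) (T.im (nat_lit 9) (nat_lit 4)) (T.sk (T.ls (nat_lit 2) (nat_lit 4)))) (T.sk (T.ls (nat_lit 2) (nat_lit 4)))) (T.sk (T.ls (nat_lit 2) (nat_lit 4)))) (T.sk (T.ls (nat_lit 2) (nat_lit 4)))) (T.sk (T.ls (nat_lit 2) (nat_lit 4)))) (T.sk (T.ls (nat_lit 2) (nat_lit 4))))) (T.ts (nat_lit 3) (T.ls (nat_lit 2) (nat_lit 4)) (T.ts (nat_lit 1) (T.ls (nat_lit 2) (nat_lit 4)) (T.ts (nat_lit 0) (T.ts (nat_lit 4) (T.ts (nat_lit 3) (T.ts (nat_lit 2) (T.ts (nat_lit 1) (T.ts (nat_lit 4) (T.ts (nat_lit 3) (T.ts (nat_lit 2) (T.ts (nat_lit 2) (T.l1 (nat_lit 12300) (nat_lit 2) (nat_lit 20500)) (T.tp (T.sk (T.ls (nat_lit 2) (nat_lit 4))))) (T.tp (T.sk (T.ls (nat_lit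 2) (nat_lit 4))))) (T.tp (T.sk (T.ls (nat_lit 2) (nat_lit 4))))) (T.tp (T.sk (T.ls (nat_lit 2) (nat_lit 4))))) (T.tp (T.sk (T.ls (nat_lit 2) (nat_lit 4))))) (T.tp (T.sk (T.ls (nat_lit 2) (nat_lit 4))))) (T.tp (T.sk (T.ls (nat_lit 2) (nat_lit 4))))) (T.tp (T.sk (T.ls (nat_lit 2) (nat_lit 4))))) (T.tp (T.ts (nat_lit 2) (T.im (nat_lit 7) (nat_lit 2)) T.ie))))))
def d762 : T := (T.ts (nat_lit 2) (T.ts (nat_lit 3) (T.ls (nat_lit 2) (nat_lit 4)) (T.ts (nat_lit 2) (T.ls (nat_lit 2) (nat_lit 4)) (T.ts (nat_lit 0) (T.ls (nat_lit 2) (nat_lit 4)) (T.ts (nat_lit 1) (T.im (nat_lit 5) (nat_lit 3)) (T.nw (T.ts (nat_lit 4) (T.ts (nat_lit 3) (T.ts (nat_lit 2) (T.ts (nat_lit 1) (T.ts (nat_lit 4) (T.ts (nat_lit 3) (T.ts (nat_lit 2) (T.ts (nat_lit 2) (T.l1 (nat_lit 12300) (nat_lit 2) (nat_lit 20500))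 (T.sk (T.lf (nat_lit 16569) (nat_lit 2) (nat_lit 20500) (nat_lit 4) (nat_lit 12300)))) (T.sk (T.lf (nat_lit 16569) (nat_lit 2) (nat_lit 20500) (nat_lit 4) (nat_lit 12300)))) (T.tp (T.sk (T.ls (nat_lit 2) (nat_lit 4))))) (T.tp (T.sk (T.ls (nat_lit 2) (nat_lit 4))))) (T.tp (T.sk (T.ls (nat_lit 2) (nat_lit 4))))) (T.tp (T.sk (T.ls (nat_lit 2) (nat_lit 4))))) (T.tp (T.sk (T.ls (nat_lit 2) (nat_lit 4))))) (T.tp (T.sk (T.ls (nat_lit 2) (nat_lit 4)))))))))) (T.ts (nat_lit 0) (T.ts (nat_lit 3) (T.ls (nat_lit 2) (nat_lit 4)) (T.ts (nat_lit 2) (T.ls (nat_lit 2) (nat_lit 4)) (T.ts (nat_lit 0) (T.ls (nat_lit 2) (nat_lit 4)) (T.ts (nat_lit 1) (T.im (nat_lit 7) (nat_lit 2)) (T.nw (T.ts (nat_lit 4) (T.ts (nat_lit 3) (T.ts (nat_lit 2) (T.ts (nat_lit 1) (T.ts (nat_lit 4) (T.ts (nat_lit 3) (T.ts (nat_lit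 2) (T.ts (nat_lit 2) (T.l1 (nat_lit 12300) (nat_lit 2) (nat_lit 20500)) (T.tp (T.sk (T.ls (nat_lit 2) (nat_lit 4))))) (T.tp (T.sk (T.ls (nat_lit 2) (nat_lit 4))))) (T.tp (T.sk (T.ls (nat_lit 2) (nat_lit 4))))) (T.tp (T.sk (T.ls (nat_lit 2) (nat_lit 4))))) (T.tp (T.sk (T.ls (nat_lit 2) (nat_lit 4))))) (T.tp (T.sk (T.ls (nat_lit 2) (nat_lit 4))))) (T.tp (T.sk (T.ls (nat_lit 2) (nat_lit 4))))) (T.tp (T.sk (T.ls (nat_lit 2) (nat_lit 4)))))))))) (T.ts (nat_lit 1) (T.im (nat_lit 7) (nat_lit 1)) (T.nw d761))))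
def d763 : T := (T.ts (nat_lit 3) (T.ts (nat_lit 3) (T.ls (nat_lit 2) (nat_lit 4)) (T.ts (nat_lit 2) (T.ts (nat_lit 3) (T.ls (nat_lit 2) (nat_lit 4)) (T.ts (nat_lit 1) (T.ts (nat_lit 0) (T.ts (nat_lit 3) (T.ts (nat_lit 2) (T.l1 (nat_lit 12300) (nat_lit 4) (nat_lit 20500)) (T.tp (T.sk (T.ls (nat_lit 2) (nat_lit 4))))) (T.tp (T.sk (T.ls (nat_lit 2) (nat_lit 4))))) (T.tp (T.sk (T.ls (nat_lit 2) (nat_lit 4))))) (T.tp (T.sk (T.ls (nat_lit 2) (nat_lit 4)))))) (T.ts (nat_lit 0) (T.ls (nat_lit 2) (nat_lit 4)) (T.ts (nat_lit 1) (T.im (nat_lit 7) (nat_lit 2)) (T.nw (T.ts (nat_lit 4) (T.ts (nat_lit 3) (T.ts (nat_lit 2) (T.ts (nat_lit 1) (T.ts (nat_lit 4) (T.ts (nat_lit 3) (T.ts (nat_lit 2) (T.ts (nat_lit 2) (T.l1 (nat_lit 12300) (nat_lit 2) (nat_lit 20500)) (T.tp (T.sk (T.ls (nat_lit 2) (nat_lit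 4))))) (T.tp (T.sk (T.ls (nat_lit 2) (nat_lit 4))))) (T.tp (T.sk (T.ls (nat_lit 2) (nat_lit 4))))) (T.tp (T.sk (T.ls (nat_lit 2) (nat_lit 4))))) (T.tp (T.sk (T.ls (nat_lit 2) (nat_lit 4))))) (T.tp (T.sk (T.ls (nat_lit 2) (nat_lit 4))))) (T.tp (T.sk (T.ls (nat_lit 2) (nat_lit 4))))) (T.tp (T.sk (T.ls (nat_lit 2) (nat_lit 4)))))))))) d762)
def d764 : T := (T.ts (nat_lit 4) (T.ls (nat_lit 2) (nat_lit 4)) (T.ts (nat_lit 3) (T.ts (nat_lit 4) (T.ls (nat_lit 2) (nat_lit 4)) (T.ts (nat_lit 2) (T.ts (nat_lit 1) (T.ts (nat_lit 4) (T.ts (nat_lit 3) (T.l1 (nat_lit 12300) (nat_lit 2) (nat_lit 20500)) (T.tp (T.sk (T.ls (nat_lit 2) (nat_lit 4))))) (T.tp (T.sk (T.ls (nat_lit 2) (nat_lit 4))))) (T.tp (T.sk (T.ls (nat_lit 2) (nat_lit 4))))) (T.tp (T.sk (T.ls (nat_lit 2) (nat_lit 4)))))) (T.ts (nat_lit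 2) (T.ts (nat_lit 4) (T.ts (nat_lit 3) (T.ts (nat_lit 2) (T.ts (nat_lit 1) (T.ts (nat_lit 4) (T.ts (nat_lit 3) (T.ts (nat_lit 2) (T.ts (nat_lit 0) (T.l1 (nat_lit 12300) (nat_lit 4) (nat_lit 20500)) (T.tp (T.sk (T.ls (nat_lit 2) (nat_lit 4))))) (T.tp (T.sk (T.ls (nat_lit 2) (nat_lit 4))))) (T.tp (T.sk (T.ls (nat_lit 2) (nat_lit 4))))) (T.tp (T.sk (T.ls (nat_lit 2) (nat_lit 4))))) (T.tp (T.sk (T.ls (nat_lit 2) (nat_lit 4))))) (T.tp (T.sk (T.ls (nat_lit 2) (nat_lit 4))))) (T.tp (T.sk (T.ls (nat_lit 2) (nat_lit 4))))) (T.tp (T.sk (T.ls (nat_lit 2) (nat_lit 4))))) (T.tp (T.ts (nat_lit 1) (T.ls (nat_lit 2) (nat_lit 4)) (T.ts (nat_lit 0) (T.im (nat_lit 7) (nat_lit 2)) T.ie))))))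
def d765 : T := (T.ts (nat_lit 4) (T.tp (T.ts (nat_lit 3) (T.ts (nat_lit 2) (T.ts (nat_lit 1) (T.ts (nat_lit 4) (T.ts (nat_lit 3) (T.ts (nat_lit 2) (T.im (nat_lit 9) (nat_lit 4)) (T.sk (T.ls (nat_lit 2) (nat_lit 4)))) (T.sk (T.ls (nat_lit 2) (nat_lit 4)))) (T.sk (T.ls (nat_lit 2) (nat_lit 4)))) (T.sk (T.ls (nat_lit 2) (nat_lit 4)))) (T.sk (T.ls (nat_lit 2) (nat_lit 4)))) (T.sk (T.ls (nat_lit 2) (nat_lit 4))))) (T.ts (nat_lit 3) (T.ls (nat_lit 2) (nat_lit 4)) (T.ts (nat_lit 2) (T.ts (nat_lit 4) (T.ts (nat_lit 3) (T.ts (nat_lit 2) (T.ts (nat_lit 1) (T.ts (nat_lit 4) (T.ts (nat_lit 3) (T.ts (nat_lit 2) (T.ts (nat_lit 0) (T.l1 (nat_lit 12300) (nat_lit 4) (nat_lit 20500)) (T.tp (T.sk (T.ls (nat_lit 2) (nat_lit 4))))) (T.tp (T.sk (T.ls (nat_lit 2) (nat_lit 4))))) (T.tp (T.sk (T.ls (nat_lit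 2) (nat_lit 4))))) (T.tp (T.sk (T.ls (nat_lit 2) (nat_lit 4))))) (T.tp (T.sk (T.ls (nat_lit 2) (nat_lit 4))))) (T.tp (T.sk (T.ls (nat_lit 2) (nat_lit 4))))) (T.tp (T.sk (T.ls (nat_lit 2) (nat_lit 4))))) (T.tp (T.sk (T.ls (nat_lit 2) (nat_lit 4))))) (T.tp (T.ts (nat_lit 1) (T.ls (nat_lit 2) (nat_lit 4)) (T.ts (nat_lit 0) (T.im (nat_lit 7) (nat_lit 2)) T.ie))))))
def d766 : T := (T.ts (nat_lit 3) (T.tp (T.ts (nat_lit 4) (T.ls (nat_lit 2) (nat_lit 4)) (T.ts (nat_lit 3) (T.ls (nat_lit 2) (nat_lit 4)) (T.ts (nat_lit 1) (T.ls (nat_lit 2) (nat_lit 4)) (T.ts (nat_lit 2) (T.im (nat_lit 5) (nat_lit 3)) (T.ts (nat_lit 0) (T.im (nat_lit 7) (nat_lit 2)) T.ie)))))) (T.ts (nat_lit 2) d765 (T.ts (nat_lit 1) (T.ts (nat_lit 4) (T.ls (nat_lit 2) (nat_lit 4)) (T.ts (nat_lit 3) (T.ls (nat_lit 2) (nat_lit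 4)) (T.ts (nat_lit 2) (T.ts (nat_lit 4) (T.ts (nat_lit 3) (T.ts (nat_lit 2) (T.ts (nat_lit 1) (T.ts (nat_lit 4) (T.ts (nat_lit 3) (T.ts (nat_lit 2) (T.ts (nat_lit 0) (T.l1 (nat_lit 12300) (nat_lit 4) (nat_lit 20500)) (T.tp (T.sk (T.ls (nat_lit 2) (nat_lit 4))))) (T.tp (T.sk (T.ls (nat_lit 2) (nat_lit 4))))) (T.tp (T.sk (T.ls (nat_lit 2) (nat_lit 4))))) (T.tp (T.sk (T.ls (nat_lit 2) (nat_lit 4))))) (T.tp (T.sk (T.ls (nat_lit 2) (nat_lit 4))))) (T.tp (T.sk (T.ls (nat_lit 2) (nat_lit 4))))) (T.tp (T.sk (T.ls (nat_lit 2) (nat_lit 4))))) (T.tp (T.sk (T.ls (nat_lit 2) (nat_lit 4))))) (T.tp (T.ts (nat_lit 1) (T.ls (nat_lit 2) (nat_lit 4)) (T.ts (nat_lit 0) (T.im (nat_lit 7) (nat_lit 2)) T.ie)))))) (T.tp (T.ts (nat_lit 0) (T.im (nat_lit 7) (nat_lit 1)) T.ie)))))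
def d767 : T := (T.ts (nat_lit 3) (T.ts (nat_lit 2) (T.tp (T.ts (nat_lit 2) (T.ls (nat_lit 2) (nat_lit 4)) (T.ts (nat_lit 0) (T.ls (nat_lit 2) (nat_lit 4)) (T.ts (nat_lit 3) (T.im (nat_lit 7) (nat_lit 2)) (T.ts (nat_lit 1) (T.im (nat_lit 5) (nat_lit 3)) (T.nw (T.ts (nat_lit 4) (T.ts (nat_lit 3) (T.im (nat_lit 7) (nat_lit 3)) (T.sk (T.ls (nat_lit 2) (nat_lit 4)))) (T.sk (T.ls (nat_lit 2) (nat_lit 4)))))))))) (T.ts (nat_lit 1) (T.ts (nat_lit 2) (T.ls (nat_lit 2) (nat_lit 4)) d758) (T.ts (nat_lit 0) (T.ts (nat_lit 2) (T.ls (nat_lit 2) (nat_lit 4)) d759) (T.ts (nat_lit 3) (T.im (nat_lit 7) (nat_lit 1)) (T.nw (T.ts (nat_lit 3) (T.ls (nat_lit 2) (nat_lit 4)) d760)))))) (T.ts (nat_lit 1) d763 (T.ts (nat_lit 2) (T.im (nat_lit 5) (nat_lit 2)) (T.ts (nat_lit 0) (T.im (nat_lit 1) (nat_lit 4))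 (T.nw (T.ts (nat_lit 4) d764 d766))))))
def d768 : T := (T.ts (nat_lit 4) (T.ts (nat_lit 3) (T.ts (nat_lit 2) (T.ts (nat_lit 1) (T.ts (nat_lit 4) (T.ts (nat_lit 3) (T.ts (nat_lit 1) (T.l1 (nat_lit 12300) (nat_lit 2) (nat_lit 20500)) (T.tp (T.sk (T.ls (nat_lit 2) (nat_lit 4))))) (T.tp (T.sk (T.ls (nat_lit 2) (nat_lit 4))))) (T.tp (T.sk (T.ls (nat_lit 2) (nat_lit 4))))) (T.tp (T.sk (T.ls (nat_lit 2) (nat_lit 4))))) (T.tp (T.sk (T.ls (nat_lit 2) (nat_lit 4))))) (T.tp (T.sk (T.ls (nat_lit 2) (nat_lit 4))))) (T.ts (nat_lit 3) (T.ls (nat_lit 2) (nat_lit 4)) (T.ts (nat_lit 1) (T.ls (nat_lit 2) (nat_lit 4)) (T.ts (nat_lit 0) (T.ts (nat_lit 4) (T.ts (nat_lit 3) (T.ts (nat_lit 2) (T.ts (nat_lit 1) (T.ts (nat_lit 4) (T.ts (nat_lit 3) (T.ts (nat_lit 1) (T.ts (nat_lit 2) (T.l1 (nat_lit 12300)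 (nat_lit 2) (nat_lit 20500)) (T.tp (T.sk (T.ls (nat_lit 2) (nat_lit 4))))) (T.tp (T.sk (T.ls (nat_lit 2) (nat_lit 4))))) (T.tp (T.sk (T.ls (nat_lit 2) (nat_lit 4))))) (T.tp (T.sk (T.ls (nat_lit 2) (nat_lit 4))))) (T.tp (T.sk (T.ls (nat_lit 2) (nat_lit 4))))) (T.tp (T.sk (T.ls (nat_lit 2) (nat_lit 4))))) (T.tp (T.sk (T.ls (nat_lit 2) (nat_lit 4))))) (T.tp (T.sk (T.ls (nat_lit 2) (nat_lit 4))))) (T.tp (T.ts (nat_lit 2) (T.im (nat_lit 7) (nat_lit 2)) T.ie))))))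
def d769 : T := (T.ts (nat_lit 2) (T.ts (nat_lit 3) (T.ls (nat_lit 2) (nat_lit 4)) (T.ts (nat_lit 2) (T.ls (nat_lit 2) (nat_lit 4)) (T.ts (nat_lit 1) (T.im (nat_lit 7) (nat_lit 2)) (T.ts (nat_lit 0) (T.im (nat_lit 5) (nat_lit 3)) (T.nw (T.ts (nat_lit 4) (T.ts (nat_lit 3) (T.ts (nat_lit 2) (T.ts (nat_lit 1) (T.ts (nat_lit 4) (T.ts (nat_lit 3) (T.ts (nat_lit 1) (T.ts (nat_lit 2) (T.l1 (nat_lit 12300) (nat_lit 2) (nat_lit 20500)) (T.sk (T.lf (nat_lit 16569) (nat_lit 2) (nat_lit 20500) (nat_lit 4) (nat_lit 12300)))) (T.sk (T.lf (nat_lit 16569) (nat_lit 2) (nat_lit 20500) (nat_lit 4) (nat_lit 12300)))) (T.tp (T.sk (T.ls (nat_lit 2) (nat_lit 4))))) (T.tp (T.sk (T.ls (nat_lit 2) (nat_lit 4))))) (T.tp (T.sk (T.ls (nat_lit 2) (nat_lit 4))))) (T.tp (T.sk (T.ls (nat_lit 2) (nat_lit 4))))) (T.tp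 (T.sk (T.ls (nat_lit 2) (nat_lit 4))))) (T.tp (T.sk (T.ls (nat_lit 2) (nat_lit 4)))))))))) (T.ts (nat_lit 0) (T.ts (nat_lit 3) (T.ls (nat_lit 2) (nat_lit 4)) (T.ts (nat_lit 2) (T.ls (nat_lit 2) (nat_lit 4)) (T.ts (nat_lit 0) (T.ls (nat_lit 2) (nat_lit 4)) (T.ts (nat_lit 1) (T.im (nat_lit 7) (nat_lit 2)) (T.nw (T.ts (nat_lit 4) (T.ts (nat_lit 3) (T.ts (nat_lit 2) (T.ts (nat_lit 1) (T.ts (nat_lit 4) (T.ts (nat_lit 3) (T.ts (nat_lit 1) (T.ts (nat_lit 2) (T.l1 (nat_lit 12300) (nat_lit 2) (nat_lit 20500)) (T.tp (T.sk (T.ls (nat_lit 2) (nat_lit 4))))) (T.tp (T.sk (T.ls (nat_lit 2) (nat_lit 4))))) (T.tp (T.sk (T.ls (nat_lit 2) (nat_lit 4))))) (T.tp (T.sk (T.ls (nat_lit 2) (nat_lit 4))))) (T.tp (T.sk (T.ls (nat_lit 2) (nat_lit 4))))) (T.tp (T.sk (T.ls (nat_lit 2) (nat_lit 4))))) (T.tp (T.sk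 (T.ls (nat_lit 2) (nat_lit 4))))) (T.tp (T.sk (T.ls (nat_lit 2) (nat_lit 4)))))))))) (T.ts (nat_lit 1) (T.im (nat_lit 7) (nat_lit 1)) (T.nw d768))))
def d770 : T := (T.ts (nat_lit 3) (T.ts (nat_lit 3) (T.ls (nat_lit 2) (nat_lit 4)) (T.ts (nat_lit 2) (T.ts (nat_lit 3) (T.ls (nat_lit 2) (nat_lit 4)) (T.ts (nat_lit 1) (T.ts (nat_lit 0) (T.ts (nat_lit 3) (T.ts (nat_lit 2) (T.l1 (nat_lit 12300) (nat_lit 4) (nat_lit 20500)) (T.tp (T.sk (T.ls (nat_lit 2) (nat_lit 4))))) (T.tp (T.sk (T.ls (nat_lit 2) (nat_lit 4))))) (T.tp (T.sk (T.ls (nat_lit 2) (nat_lit 4))))) (T.tp (T.sk (T.ls (nat_lit 2) (nat_lit 4)))))) (T.ts (nat_lit 0) (T.ls (nat_lit 2) (nat_lit 4)) (T.ts (nat_lit 1) (T.im (nat_lit 7) (nat_lit 2)) (T.nw (T.ts (nat_lit 4) (T.ts (nat_lit 3) (T.ts (nat_lit 2) (T.ts (nat_lit 1) (T.ts (nat_lit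 4) (T.ts (nat_lit 3) (T.ts (nat_lit 1) (T.ts (nat_lit 2) (T.l1 (nat_lit 12300) (nat_lit 2) (nat_lit 20500)) (T.tp (T.sk (T.ls (nat_lit 2) (nat_lit 4))))) (T.tp (T.sk (T.ls (nat_lit 2) (nat_lit 4))))) (T.tp (T.sk (T.ls (nat_lit 2) (nat_lit 4))))) (T.tp (T.sk (T.ls (nat_lit 2) (nat_lit 4))))) (T.tp (T.sk (T.ls (nat_lit 2) (nat_lit 4))))) (T.tp (T.sk (T.ls (nat_lit 2) (nat_lit 4))))) (T.tp (T.sk (T.ls (nat_lit 2) (nat_lit 4))))) (T.tp (T.sk (T.ls (nat_lit 2) (nat_lit 4)))))))))) d769)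
def d771 : T := (T.ts (nat_lit 1) (T.ts (nat_lit 3) (T.ts (nat_lit 2) (T.ts (nat_lit 1) (T.ts (nat_lit 0) (T.ts (nat_lit 3) (T.ts (nat_lit 2) (T.ts (nat_lit 0) (T.ts (nat_lit 0) (T.l1 (nat_lit 12300) (nat_lit 4) (nat_lit 20500)) (T.tp (T.sk (T.ls (nat_lit 2) (nat_lit 4))))) (T.tp (T.sk (T.ls (nat_lit 2) (nat_lit 4))))) (T.tp (T.sk (T.ls (nat_lit 2) (nat_lit 4))))) (T.tp (T.sk (T.ls (nat_lit 2) (nat_lit 4))))) (T.tp (T.sk (T.ls (nat_lit 2) (nat_lit 4))))) (T.tp (T.sk (T.ls (nat_lit 2) (nat_lit 4))))) (T.tp (T.sk (T.ls (nat_lit 2) (nat_lit 4))))) (T.tp (T.sk (T.ls (nat_lit 2) (nat_lit 4))))) (T.ts (nat_lit 2) (T.im (nat_lit 3) (nat_lit 4)) (T.ts (nat_lit 0) (T.im (nat_lit 7) (nat_lit 2)) (T.nw (T.ts (nat_lit 4) (T.ts (nat_lit 3) (T.ts (nat_lit 2) (T.ts (nat_lit 1) (T.ts (nat_lit 4)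 (T.ts (nat_lit 3) (T.ts (nat_lit 1) (T.ts (nat_lit 1) (T.l1 (nat_lit 12300) (nat_lit 2) (nat_lit 20500)) (T.tp (T.sk (T.ls (nat_lit 2) (nat_lit 4))))) (T.tp (T.sk (T.ls (nat_lit 2) (nat_lit 4))))) (T.tp (T.sk (T.ls (nat_lit 2) (nat_lit 4))))) (T.tp (T.sk (T.ls (nat_lit 2) (nat_lit 4))))) (T.tp (T.sk (T.ls (nat_lit 2) (nat_lit 4))))) (T.tp (T.sk (T.ls (nat_lit 2) (nat_lit 4))))) (T.tp (T.sk (T.ls (nat_lit 2) (nat_lit 4))))) (T.tp (T.sk (T.ls (nat_lit 2) (nat_lit 4)))))))))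
def d772 : T := (T.ts (nat_lit 1) (T.ts (nat_lit 3) (T.ts (nat_lit 2) (T.ts (nat_lit 1) (T.ts (nat_lit 0) (T.ts (nat_lit 3) (T.ts (nat_lit 2) (T.ts (nat_lit 0) (T.ts (nat_lit 0) (T.l1 (nat_lit 12300) (nat_lit 4) (nat_lit 20500)) (T.sk (T.lf (nat_lit 16569) (nat_lit 2) (nat_lit 12300) (nat_lit 4) (nat_lit 20500)))) (T.sk (T.lf (nat_lit 16569) (nat_lit 2) (nat_lit 12300) (nat_lit 4) (nat_lit 20500)))) (T.tp (T.sk (T.ls (nat_lit 2) (nat_lit 4))))) (T.tp (T.sk (T.ls (nat_lit 2) (nat_lit 4))))) (T.tp (T.sk (T.ls (nat_lit 2) (nat_lit 4))))) (T.tp (T.sk (T.ls (nat_lit 2) (nat_lit 4))))) (T.tp (T.sk (T.ls (nat_lit 2) (nat_lit 4))))) (T.tp (T.sk (T.ls (nat_lit 2) (nat_lit 4))))) (T.ts (nat_lit 0) (T.im (nat_lit 5) (nat_lit 3)) (T.nw (T.ts (nat_lit 4) (T.ts (nat_lit 3) (T.ts (nat_lit 2) (T.ts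 (nat_lit 1) (T.ts (nat_lit 4) (T.ts (nat_lit 3) (T.ts (nat_lit 1) (T.ts (nat_lit 1) (T.l1 (nat_lit 12300) (nat_lit 2) (nat_lit 20500)) (T.sk (T.lf (nat_lit 16569) (nat_lit 2) (nat_lit 20500) (nat_lit 4) (nat_lit 12300)))) (T.sk (T.lf (nat_lit 16569) (nat_lit 2) (nat_lit 20500) (nat_lit 4) (nat_lit 12300)))) (T.tp (T.sk (T.ls (nat_lit 2) (nat_lit 4))))) (T.tp (T.sk (T.ls (nat_lit 2) (nat_lit 4))))) (T.tp (T.sk (T.ls (nat_lit 2) (nat_lit 4))))) (T.tp (T.sk (T.ls (nat_lit 2) (nat_lit 4))))) (T.tp (T.sk (T.ls (nat_lit 2) (nat_lit 4))))) (T.tp (T.sk (T.ls (nat_lit 2) (nat_lit 4))))))))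
def d773 : T := (T.ts (nat_lit 1) (T.ts (nat_lit 3) (T.ts (nat_lit 2) (T.ts (nat_lit 1) (T.ts (nat_lit 0) (T.ts (nat_lit 3) (T.ts (nat_lit 2) (T.ts (nat_lit 0) (T.ts (nat_lit 0) (T.l1 (nat_lit 12300) (nat_lit 4) (nat_lit 20500)) (T.tp (T.sk (T.ls (nat_lit 2) (nat_lit 4))))) (T.tp (T.sk (T.ls (nat_lit 2) (nat_lit 4))))) (T.tp (T.sk (T.ls (nat_lit 2) (nat_lit 4))))) (T.tp (T.sk (T.ls (nat_lit 2) (nat_lit 4))))) (T.tp (T.sk (T.ls (nat_lit 2) (nat_lit 4))))) (T.tp (T.sk (T.ls (nat_lit 2) (nat_lit 4))))) (T.tp (T.sk (T.ls (nat_lit 2) (nat_lit 4))))) (T.tp (T.sk (T.ls (nat_lit 2) (nat_lit 4))))) (T.ts (nat_lit 0) (T.im (nat_lit 7) (nat_lit 2)) (T.nw (T.ts (nat_lit 4) (T.ts (nat_lit 3) (T.ts (nat_lit 2) (T.ts (nat_lit 1) (T.ts (nat_lit 4) (T.ts (nat_lit 3) (T.ts (nat_lit 1) (T.ts (nat_lit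 1) (T.l1 (nat_lit 12300) (nat_lit 2) (nat_lit 20500)) (T.tp (T.sk (T.ls (nat_lit 2) (nat_lit 4))))) (T.tp (T.sk (T.ls (nat_lit 2) (nat_lit 4))))) (T.tp (T.sk (T.ls (nat_lit 2) (nat_lit 4))))) (T.tp (T.sk (T.ls (nat_lit 2) (nat_lit 4))))) (T.tp (T.sk (T.ls (nat_lit 2) (nat_lit 4))))) (T.tp (T.sk (T.ls (nat_lit 2) (nat_lit 4))))) (T.tp (T.sk (T.ls (nat_lit 2) (nat_lit 4))))) (T.tp (T.sk (T.ls (nat_lit 2) (nat_lit 4))))))))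
def d774 : T := (T.ts (nat_lit 2) (T.ts (nat_lit 4) (T.ts (nat_lit 3) (T.ts (nat_lit 2) (T.ts (nat_lit 1) (T.ts (nat_lit 4) (T.ts (nat_lit 3) (T.ts (nat_lit 1) (T.ts (nat_lit 1) (T.l1 (nat_lit 12300) (nat_lit 4) (nat_lit 20500)) (T.tp (T.sk (T.ls (nat_lit 2) (nat_lit 4))))) (T.tp (T.sk (T.ls (nat_lit 2) (nat_lit 4))))) (T.tp (T.sk (T.ls (nat_lit 2) (nat_lit 4))))) (T.tp (T.sk (T.ls (nat_lit 2) (nat_lit 4))))) (T.tp (T.sk (T.ls (nat_lit 2) (nat_lit 4))))) (T.tp (T.sk (T.ls (nat_lit 2) (nat_lit 4))))) (T.tp (T.sk (T.ls (nat_lit 2) (nat_lit 4))))) (T.tp (T.sk (T.ls (nat_lit 2) (nat_lit 4))))) (T.ts (nat_lit 0) (T.ts (nat_lit 4) (T.ts (nat_lit 3) (T.ts (nat_lit 2) (T.ts (nat_lit 1) (T.ts (nat_lit 4) (T.ts (nat_lit 3) (T.ts (nat_lit 1) (T.ts (nat_lit 1) (T.l1 (nat_lit 12300) (nat_lit 2)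 (nat_lit 20500)) (T.tp (T.sk (T.ls (nat_lit 2) (nat_lit 4))))) (T.tp (T.sk (T.ls (nat_lit 2) (nat_lit 4))))) (T.tp (T.sk (T.ls (nat_lit 2) (nat_lit 4))))) (T.tp (T.sk (T.ls (nat_lit 2) (nat_lit 4))))) (T.tp (T.sk (T.ls (nat_lit 2) (nat_lit 4))))) (T.tp (T.sk (T.ls (nat_lit 2) (nat_lit 4))))) (T.tp (T.sk (T.ls (nat_lit 2) (nat_lit 4))))) (T.tp (T.sk (T.ls (nat_lit 2) (nat_lit 4))))) (T.tp (T.ts (nat_lit 1) (T.im (nat_lit 7) (nat_lit 2)) T.ie))))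
def d775 : T := (T.ts (nat_lit 1) (T.ts (nat_lit 3) (T.ts (nat_lit 2) (T.ts (nat_lit 1) (T.ts (nat_lit 0) (T.ts (nat_lit 3) (T.ts (nat_lit 2) (T.ts (nat_lit 0) (T.l1 (nat_lit 12300) (nat_lit 4) (nat_lit 20500)) (T.tp (T.sk (T.ls (nat_lit 2) (nat_lit 4))))) (T.tp (T.sk (T.ls (nat_lit 2) (nat_lit 4))))) (T.tp (T.sk (T.ls (nat_lit 2) (nat_lit 4))))) (T.tp (T.sk (T.ls (nat_lit 2) (nat_lit 4))))) (T.tp (T.sk (T.ls (nat_lit 2) (nat_lit 4))))) (T.tp (T.sk (T.ls (nat_lit 2) (nat_lit 4))))) (T.ts (nat_lit 2) (T.ls (nat_lit 2) (nat_lit 4)) d773)) (T.ts (nat_lit 0) (T.im (nat_lit 7) (nat_lit 1)) (T.nw (T.ts (nat_lit 4) (T.ts (nat_lit 3) (T.ts (nat_lit 2) (T.ts (nat_lit 1) (T.ts (nat_lit 4) (T.ts (nat_lit 3) (T.ts (nat_lit 1) (T.l1 (nat_lit 12300) (nat_lit 2) (nat_lit 20500)) (T.tp (T.sk (T.ls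 (nat_lit 2) (nat_lit 4))))) (T.tp (T.sk (T.ls (nat_lit 2) (nat_lit 4))))) (T.tp (T.sk (T.ls (nat_lit 2) (nat_lit 4))))) (T.tp (T.sk (T.ls (nat_lit 2) (nat_lit 4))))) (T.tp (T.sk (T.ls (nat_lit 2) (nat_lit 4))))) (T.tp (T.sk (T.ls (nat_lit 2) (nat_lit 4))))) (T.ts (nat_lit 3) (T.ls (nat_lit 2) (nat_lit 4)) d774)))))
def d776 : T := (T.ts (nat_lit 4) (T.ls (nat_lit 2) (nat_lit 4)) (T.ts (nat_lit 3) (T.ts (nat_lit 4) (T.ls (nat_lit 2) (nat_lit 4)) (T.ts (nat_lit 2) (T.ts (nat_lit 1) (T.ts (nat_lit 4) (T.ts (nat_lit 3) (T.l1 (nat_lit 12300) (nat_lit 2) (nat_lit 20500)) (T.tp (T.sk (T.ls (nat_lit 2) (nat_lit 4))))) (T.tp (T.sk (T.ls (nat_lit 2) (nat_lit 4))))) (T.tp (T.sk (T.ls (nat_lit 2) (nat_lit 4))))) (T.tp (T.sk (T.ls (nat_lit 2) (nat_lit 4)))))) (T.ts (nat_lit 2) (T.ts (nat_lit 4)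 (T.ts (nat_lit 3) (T.ts (nat_lit 2) (T.ts (nat_lit 1) (T.ts (nat_lit 4) (T.ts (nat_lit 3) (T.ts (nat_lit 1) (T.ts (nat_lit 0) (T.l1 (nat_lit 12300) (nat_lit 4) (nat_lit 20500)) (T.tp (T.sk (T.ls (nat_lit 2) (nat_lit 4))))) (T.tp (T.sk (T.ls (nat_lit 2) (nat_lit 4))))) (T.tp (T.sk (T.ls (nat_lit 2) (nat_lit 4))))) (T.tp (T.sk (T.ls (nat_lit 2) (nat_lit 4))))) (T.tp (T.sk (T.ls (nat_lit 2) (nat_lit 4))))) (T.tp (T.sk (T.ls (nat_lit 2) (nat_lit 4))))) (T.tp (T.sk (T.ls (nat_lit 2) (nat_lit 4))))) (T.tp (T.sk (T.ls (nat_lit 2) (nat_lit 4))))) (T.tp (T.ts (nat_lit 1) (T.ls (nat_lit 2) (nat_lit 4)) (T.ts (nat_lit 0) (T.im (nat_lit 7) (nat_lit 2)) T.ie))))))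
def d777 : T := (T.ts (nat_lit 4) (T.ts (nat_lit 3) (T.ts (nat_lit 2) (T.ts (nat_lit 1) (T.ts (nat_lit 4) (T.ts (nat_lit 3) (T.ts (nat_lit 1) (T.l1 (nat_lit 12300) (nat_lit 4) (nat_lit 20500)) (T.tp (T.sk (T.ls (nat_lit 2) (nat_lit 4))))) (T.tp (T.sk (T.ls (nat_lit 2) (nat_lit 4))))) (T.tp (T.sk (T.ls (nat_lit 2) (nat_lit 4))))) (T.tp (T.sk (T.ls (nat_lit 2) (nat_lit 4))))) (T.tp (T.sk (T.ls (nat_lit 2) (nat_lit 4))))) (T.tp (T.sk (T.ls (nat_lit 2) (nat_lit 4))))) (T.ts (nat_lit 3) (T.ls (nat_lit 2) (nat_lit 4)) (T.ts (nat_lit 2) (T.ts (nat_lit 4) (T.ts (nat_lit 3) (T.ts (nat_lit 2) (T.ts (nat_lit 1) (T.ts (nat_lit 4) (T.ts (nat_lit 3) (T.ts (nat_lit 1) (T.ts (nat_lit 0) (T.l1 (nat_lit 12300) (nat_lit 4) (nat_lit 20500)) (T.tp (T.sk (T.ls (nat_lit 2) (nat_lit 4))))) (T.tp (T.sk (T.ls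 (nat_lit 2) (nat_lit 4))))) (T.tp (T.sk (T.ls (nat_lit 2) (nat_lit 4))))) (T.tp (T.sk (T.ls (nat_lit 2) (nat_lit 4))))) (T.tp (T.sk (T.ls (nat_lit 2) (nat_lit 4))))) (T.tp (T.sk (T.ls (nat_lit 2) (nat_lit 4))))) (T.tp (T.sk (T.ls (nat_lit 2) (nat_lit 4))))) (T.tp (T.sk (T.ls (nat_lit 2) (nat_lit 4))))) (T.tp (T.ts (nat_lit 1) (T.ls (nat_lit 2) (nat_lit 4)) (T.ts (nat_lit 0) (T.im (nat_lit 7) (nat_lit 2)) T.ie))))))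
def d778 : T := (T.ts (nat_lit 3) (T.ts (nat_lit 4) (T.ls (nat_lit 2) (nat_lit 4)) (T.ts (nat_lit 3) (T.ls (nat_lit 2) (nat_lit 4)) (T.ts (nat_lit 2) (T.ts (nat_lit 4) (T.ts (nat_lit 3) (T.ts (nat_lit 2) (T.ts (nat_lit 1) (T.ts (nat_lit 4) (T.ts (nat_lit 3) (T.ts (nat_lit 1) (T.ts (nat_lit 0) (T.l1 (nat_lit 12300) (nat_lit 4) (nat_lit 20500)) (T.sk (T.lf (nat_lit 16569) (nat_lit 2) (nat_lit 12300) (nat_lit 4) (nat_lit 20500)))) (T.sk (T.lf (nat_lit 16569) (nat_lit 2) (nat_lit 12300) (nat_lit 4) (nat_lit 20500)))) (T.tp (T.sk (T.ls (nat_lit 2) (nat_lit 4))))) (T.tp (T.sk (T.ls (nat_lit 2) (nat_lit 4))))) (T.tp (T.sk (T.ls (nat_lit 2) (nat_lit 4))))) (T.tp (T.sk (T.ls (nat_lit 2) (nat_lit 4))))) (T.tp (T.sk (T.ls (nat_lit 2) (nat_lit 4))))) (T.tp (T.sk (T.ls (nat_lit 2) (nat_lit 4)))))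 (T.tp (T.ts (nat_lit 1) (T.im (nat_lit 5) (nat_lit 3)) (T.ts (nat_lit 0) (T.im (nat_lit 7) (nat_lit 2)) T.ie)))))) (T.ts (nat_lit 2) d777 (T.ts (nat_lit 1) (T.ts (nat_lit 4) (T.ls (nat_lit 2) (nat_lit 4)) (T.ts (nat_lit 3) (T.ls (nat_lit 2) (nat_lit 4)) (T.ts (nat_lit 2) (T.ts (nat_lit 4) (T.ts (nat_lit 3) (T.ts (nat_lit 2) (T.ts (nat_lit 1) (T.ts (nat_lit 4) (T.ts (nat_lit 3) (T.ts (nat_lit 1) (T.ts (nat_lit 0) (T.l1 (nat_lit 12300) (nat_lit 4) (nat_lit 20500)) (T.tp (T.sk (T.ls (nat_lit 2) (nat_lit 4))))) (T.tp (T.sk (T.ls (nat_lit 2) (nat_lit 4))))) (T.tp (T.sk (T.ls (nat_lit 2) (nat_lit 4))))) (T.tp (T.sk (T.ls (nat_lit 2) (nat_lit 4))))) (T.tp (T.sk (T.ls (nat_lit 2) (nat_lit 4))))) (T.tp (T.sk (T.ls (nat_lit 2) (nat_lit 4))))) (T.tp (T.sk (T.ls (nat_lit 2) (nat_lit 4))))) (T.tp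 (T.sk (T.ls (nat_lit 2) (nat_lit 4))))) (T.tp (T.ts (nat_lit 1) (T.ls (nat_lit 2) (nat_lit 4)) (T.ts (nat_lit 0) (T.im (nat_lit 7) (nat_lit 2)) T.ie)))))) (T.tp (T.ts (nat_lit 0) (T.im (nat_lit 7) (nat_lit 1)) T.ie)))))
def d779 : T := (T.ts (nat_lit 1) d770 (T.ts (nat_lit 0) (T.ts (nat_lit 3) (T.ts (nat_lit 3) (T.ls (nat_lit 2) (nat_lit 4)) d771) (T.ts (nat_lit 2) (T.ts (nat_lit 3) (T.ls (nat_lit 2) (nat_lit 4)) (T.ts (nat_lit 2) (T.ls (nat_lit 2) (nat_lit 4)) d772)) d775)) (T.ts (nat_lit 3) (T.im (nat_lit 3) (nat_lit 3)) (T.ts (nat_lit 2) (T.im (nat_lit 5) (nat_lit 2)) (T.nw (T.ts (nat_lit 4) d776 d778))))))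
def d780 : T := (T.ts (nat_lit 2) (T.ts (nat_lit 4) (T.ts (nat_lit 3) (T.ts (nat_lit 2) (T.ts (nat_lit 1) (T.ts (nat_lit 4) (T.ts (nat_lit 3) (T.ts (nat_lit 0) (T.ts (nat_lit 4) (T.l1 (nat_lit 12300) (nat_lit 4) (nat_lit 20500)) (T.tp (T.sk (T.ls (nat_lit 2) (nat_lit 4))))) (T.tp (T.sk (T.ls (nat_lit 2) (nat_lit 4))))) (T.tp (T.sk (T.ls (nat_lit 2) (nat_lit 4))))) (T.tp (T.sk (T.ls (nat_lit 2) (nat_lit 4))))) (T.tp (T.sk (T.ls (nat_lit 2) (nat_lit 4))))) (T.tp (T.sk (T.ls (nat_lit 2) (nat_lit 4))))) (T.tp (T.sk (T.ls (nat_lit 2) (nat_lit 4))))) (T.tp (T.sk (T.ls (nat_lit 2) (nat_lit 4))))) (T.ts (nat_lit 1) (T.ls (nat_lit 2) (nat_lit 4)) (T.ts (nat_lit 0) (T.ts (nat_lit 4) (T.ts (nat_lit 3) (T.ts (nat_lit 2) (T.ts (nat_lit 1) (T.ts (nat_lit 4) (T.ts (nat_lit 3) (T.ts (nat_lit 0) (T.ts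 (nat_lit 4) (T.l1 (nat_lit 12300) (nat_lit 2) (nat_lit 20500)) (T.tp (T.sk (T.ls (nat_lit 2) (nat_lit 4))))) (T.tp (T.sk (T.ls (nat_lit 2) (nat_lit 4))))) (T.tp (T.sk (T.ls (nat_lit 2) (nat_lit 4))))) (T.tp (T.sk (T.ls (nat_lit 2) (nat_lit 4))))) (T.tp (T.sk (T.ls (nat_lit 2) (nat_lit 4))))) (T.tp (T.sk (T.ls (nat_lit 2) (nat_lit 4))))) (T.tp (T.sk (T.ls (nat_lit 2) (nat_lit 4))))) (T.tp (T.sk (T.ls (nat_lit 2) (nat_lit 4))))) (T.tp (T.ts (nat_lit 4) (T.im (nat_lit 7) (nat_lit 2)) T.ie)))))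
def d781 : T := (T.ts (nat_lit 2) (T.ts (nat_lit 4) (T.ts (nat_lit 3) (T.ts (nat_lit 2) (T.ts (nat_lit 1) (T.ts (nat_lit 4) (T.ts (nat_lit 3) (T.ts (nat_lit 0) (T.ts (nat_lit 4) (T.l1 (nat_lit 12300) (nat_lit 4) (nat_lit 20500)) (T.tp (T.sk (T.ls (nat_lit 2) (nat_lit 4))))) (T.tp (T.sk (T.ls (nat_lit 2) (nat_lit 4))))) (T.tp (T.sk (T.ls (nat_lit 2) (nat_lit 4))))) (T.tp (T.sk (T.ls (nat_lit 2) (nat_lit 4))))) (T.tp (T.sk (T.ls (nat_lit 2) (nat_lit 4))))) (T.tp (T.sk (T.ls (nat_lit 2) (nat_lit 4))))) (T.tp (T.sk (T.ls (nat_lit 2) (nat_lit 4))))) (T.tp (T.sk (T.ls (nat_lit 2) (nat_lit 4))))) (T.ts (nat_lit 1) (T.ls (nat_lit 2) (nat_lit 4)) (T.ts (nat_lit 0) (T.ts (nat_lit 4) (T.ts (nat_lit 3) (T.ts (nat_lit 2) (T.ts (nat_lit 1) (T.ts (nat_lit 4) (T.ts (nat_lit 3) (T.ts (nat_lit 0) (T.ts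 (nat_lit 4) (T.l1 (nat_lit 12300) (nat_lit 2) (nat_lit 20500)) (T.tp (T.sk (T.ls (nat_lit 2) (nat_lit 4))))) (T.tp (T.sk (T.ls (nat_lit 2) (nat_lit 4))))) (T.tp (T.sk (T.ls (nat_lit 2) (nat_lit 4))))) (T.tp (T.sk (T.ls (nat_lit 2) (nat_lit 4))))) (T.tp (T.sk (T.ls (nat_lit 2) (nat_lit 4))))) (T.tp (T.sk (T.ls (nat_lit 2) (nat_lit 4))))) (T.tp (T.sk (T.ls (nat_lit 2) (nat_lit 4))))) (T.tp (T.sk (T.ls (nat_lit 2) (nat_lit 4))))) (T.tp (T.ts (nat_lit 4) (T.im (nat_lit 7) (nat_lit 2)) T.ie)))))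
def d782 : T := (T.ts (nat_lit 2) (T.ts (nat_lit 4) (T.ts (nat_lit 3) (T.ts (nat_lit 2) (T.ts (nat_lit 1) (T.ts (nat_lit 4) (T.ts (nat_lit 3) (T.ts (nat_lit 0) (T.ts (nat_lit 4) (T.l1 (nat_lit 12300) (nat_lit 4) (nat_lit 20500)) (T.tp (T.sk (T.ls (nat_lit 2) (nat_lit 4))))) (T.tp (T.sk (T.ls (nat_lit 2) (nat_lit 4))))) (T.tp (T.sk (T.ls (nat_lit 2) (nat_lit 4))))) (T.tp (T.sk (T.ls (nat_lit 2) (nat_lit 4))))) (T.tp (T.sk (T.ls (nat_lit 2) (nat_lit 4))))) (T.tp (T.sk (T.ls (nat_lit 2) (nat_lit 4))))) (T.tp (T.sk (T.ls (nat_lit 2) (nat_lit 4))))) (T.tp (T.sk (T.ls (nat_lit 2) (nat_lit 4))))) (T.ts (nat_lit 1) (T.ls (nat_lit 2) (nat_lit 4)) (T.ts (nat_lit 0) (T.ts (nat_lit 4) (T.ts (nat_lit 3) (T.ts (nat_lit 2) (T.ts (nat_lit 1) (T.ts (nat_lit 4) (T.ts (nat_lit 3) (T.ts (nat_lit 0) (T.ts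 (nat_lit 4) (T.l1 (nat_lit 12300) (nat_lit 2) (nat_lit 20500)) (T.tp (T.sk (T.ls (nat_lit 2) (nat_lit 4))))) (T.tp (T.sk (T.ls (nat_lit 2) (nat_lit 4))))) (T.tp (T.sk (T.ls (nat_lit 2) (nat_lit 4))))) (T.tp (T.sk (T.ls (nat_lit 2) (nat_lit 4))))) (T.tp (T.sk (T.ls (nat_lit 2) (nat_lit 4))))) (T.tp (T.sk (T.ls (nat_lit 2) (nat_lit 4))))) (T.tp (T.sk (T.ls (nat_lit 2) (nat_lit 4))))) (T.tp (T.sk (T.ls (nat_lit 2) (nat_lit 4))))) (T.tp (T.ts (nat_lit 4) (T.im (nat_lit 7) (nat_lit 2)) T.ie)))))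
def d783 : T := (T.ts (nat_lit 4) (T.ls (nat_lit 2) (nat_lit 4)) (T.ts (nat_lit 3) (T.ts (nat_lit 4) (T.ls (nat_lit 2) (nat_lit 4)) (T.ts (nat_lit 2) (T.ts (nat_lit 1) (T.ts (nat_lit 4) (T.ts (nat_lit 3) (T.l1 (nat_lit 12300) (nat_lit 4) (nat_lit 20500)) (T.tp (T.sk (T.ls (nat_lit 2) (nat_lit 4))))) (T.tp (T.sk (T.ls (nat_lit 2) (nat_lit 4))))) (T.tp (T.sk (T.ls (nat_lit 2) (nat_lit 4))))) (T.tp (T.sk (T.ls (nat_lit 2) (nat_lit 4)))))) (T.ts (nat_lit 1) (T.ls (nat_lit 2) (nat_lit 4)) (T.ts (nat_lit 0) (T.ts (nat_lit 4) (T.ts (nat_lit 3) (T.ts (nat_lit 2) (T.ts (nat_lit 1) (T.ts (nat_lit 4) (T.ts (nat_lit 3) (T.ts (nat_lit 0) (T.ts (nat_lit 2) (T.l1 (nat_lit 12300) (nat_lit 2) (nat_lit 20500)) (T.tp (T.sk (T.ls (nat_lit 2) (nat_lit 4))))) (T.tp (T.sk (T.ls (nat_lit 2) (nat_lit 4)))))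 (T.tp (T.sk (T.ls (nat_lit 2) (nat_lit 4))))) (T.tp (T.sk (T.ls (nat_lit 2) (nat_lit 4))))) (T.tp (T.sk (T.ls (nat_lit 2) (nat_lit 4))))) (T.tp (T.sk (T.ls (nat_lit 2) (nat_lit 4))))) (T.tp (T.sk (T.ls (nat_lit 2) (nat_lit 4))))) (T.tp (T.sk (T.ls (nat_lit 2) (nat_lit 4))))) (T.tp (T.ts (nat_lit 2) (T.im (nat_lit 7) (nat_lit 2)) T.ie))))))
def d784 : T := (T.ts (nat_lit 4) (T.ts (nat_lit 3) (T.ts (nat_lit 2) (T.ts (nat_lit 1) (T.ts (nat_lit 4) (T.ts (nat_lit 3) (T.ts (nat_lit 0) (T.l1 (nat_lit 12300) (nat_lit 2) (nat_lit 20500)) (T.tp (T.sk (T.ls (nat_lit 2) (nat_lit 4))))) (T.tp (T.sk (T.ls (nat_lit 2) (nat_lit 4))))) (T.tp (T.sk (T.ls (nat_lit 2) (nat_lit 4))))) (T.tp (T.sk (T.ls (nat_lit 2) (nat_lit 4))))) (T.tp (T.sk (T.ls (nat_lit 2) (nat_lit 4))))) (T.tp (T.sk (T.ls (nat_lit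 2) (nat_lit 4))))) (T.ts (nat_lit 3) (T.ls (nat_lit 2) (nat_lit 4)) (T.ts (nat_lit 1) (T.ls (nat_lit 2) (nat_lit 4)) (T.ts (nat_lit 0) (T.ts (nat_lit 4) (T.ts (nat_lit 3) (T.ts (nat_lit 2) (T.ts (nat_lit 1) (T.ts (nat_lit 4) (T.ts (nat_lit 3) (T.ts (nat_lit 0) (T.ts (nat_lit 2) (T.l1 (nat_lit 12300) (nat_lit 2) (nat_lit 20500)) (T.tp (T.sk (T.ls (nat_lit 2) (nat_lit 4))))) (T.tp (T.sk (T.ls (nat_lit 2) (nat_lit 4))))) (T.tp (T.sk (T.ls (nat_lit 2) (nat_lit 4))))) (T.tp (T.sk (T.ls (nat_lit 2) (nat_lit 4))))) (T.tp (T.sk (T.ls (nat_lit 2) (nat_lit 4))))) (T.tp (T.sk (T.ls (nat_lit 2) (nat_lit 4))))) (T.tp (T.sk (T.ls (nat_lit 2) (nat_lit 4))))) (T.tp (T.sk (T.ls (nat_lit 2) (nat_lit 4))))) (T.tp (T.ts (nat_lit 2) (T.im (nat_lit 7) (nat_lit 2)) T.ie))))))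
def d785 : T := (T.ts (nat_lit 3) (T.tp (T.ts (nat_lit 4) (T.ls (nat_lit 2) (nat_lit 4)) (T.ts (nat_lit 3) (T.ls (nat_lit 2) (nat_lit 4)) (T.ts (nat_lit 1) (T.ls (nat_lit 2) (nat_lit 4)) (T.ts (nat_lit 2) (T.im (nat_lit 7) (nat_lit 2)) (T.ts (nat_lit 0) (T.im (nat_lit 5) (nat_lit 3)) T.ie)))))) (T.ts (nat_lit 1) (T.ts (nat_lit 4) (T.ls (nat_lit 2) (nat_lit 4)) (T.ts (nat_lit 3) (T.ls (nat_lit 2) (nat_lit 4)) (T.ts (nat_lit 1) (T.ls (nat_lit 2) (nat_lit 4)) (T.ts (nat_lit 0) (T.ts (nat_lit 4) (T.ts (nat_lit 3) (T.ts (nat_lit 2) (T.ts (nat_lit 1) (T.ts (nat_lit 4) (T.ts (nat_lit 3) (T.ts (nat_lit 0) (T.ts (nat_lit 2) (T.l1 (nat_lit 12300) (nat_lit 2) (nat_lit 20500)) (T.tp (T.sk (T.ls (nat_lit 2) (nat_lit 4))))) (T.tp (T.sk (T.ls (nat_lit 2) (nat_lit 4))))) (T.tp (T.sk (T.ls (nat_lit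 2) (nat_lit 4))))) (T.tp (T.sk (T.ls (nat_lit 2) (nat_lit 4))))) (T.tp (T.sk (T.ls (nat_lit 2) (nat_lit 4))))) (T.tp (T.sk (T.ls (nat_lit 2) (nat_lit 4))))) (T.tp (T.sk (T.ls (nat_lit 2) (nat_lit 4))))) (T.tp (T.sk (T.ls (nat_lit 2) (nat_lit 4))))) (T.tp (T.ts (nat_lit 2) (T.im (nat_lit 7) (nat_lit 2)) T.ie)))))) (T.ts (nat_lit 0) d784 (T.tp (T.ts (nat_lit 2) (T.im (nat_lit 7) (nat_lit 1)) T.ie)))))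
def d786 : T := (T.ts (nat_lit 2) (T.ts (nat_lit 4) (T.ts (nat_lit 3) (T.ts (nat_lit 2) (T.ts (nat_lit 1) (T.ts (nat_lit 4) (T.ts (nat_lit 3) (T.ts (nat_lit 0) (T.ts (nat_lit 1) (T.l1 (nat_lit 12300) (nat_lit 4) (nat_lit 20500)) (T.tp (T.sk (T.ls (nat_lit 2) (nat_lit 4))))) (T.tp (T.sk (T.ls (nat_lit 2) (nat_lit 4))))) (T.tp (T.sk (T.ls (nat_lit 2) (nat_lit 4))))) (T.tp (T.sk (T.ls (nat_lit 2) (nat_lit 4))))) (T.tp (T.sk (T.ls (nat_lit 2) (nat_lit 4))))) (T.tp (T.sk (T.ls (nat_lit 2) (nat_lit 4))))) (T.tp (T.sk (T.ls (nat_lit 2) (nat_lit 4))))) (T.tp (T.sk (T.ls (nat_lit 2) (nat_lit 4))))) (T.ts (nat_lit 0) (T.ts (nat_lit 4) (T.ts (nat_lit 3) (T.ts (nat_lit 2) (T.ts (nat_lit 1) (T.ts (nat_lit 4) (T.ts (nat_lit 3) (T.ts (nat_lit 0) (T.ts (nat_lit 1) (T.l1 (nat_lit 12300) (nat_lit 2)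 (nat_lit 20500)) (T.tp (T.sk (T.ls (nat_lit 2) (nat_lit 4))))) (T.tp (T.sk (T.ls (nat_lit 2) (nat_lit 4))))) (T.tp (T.sk (T.ls (nat_lit 2) (nat_lit 4))))) (T.tp (T.sk (T.ls (nat_lit 2) (nat_lit 4))))) (T.tp (T.sk (T.ls (nat_lit 2) (nat_lit 4))))) (T.tp (T.sk (T.ls (nat_lit 2) (nat_lit 4))))) (T.tp (T.sk (T.ls (nat_lit 2) (nat_lit 4))))) (T.tp (T.sk (T.ls (nat_lit 2) (nat_lit 4))))) (T.tp (T.ts (nat_lit 3) (T.im (nat_lit 3) (nat_lit 4)) (T.ts (nat_lit 1) (T.im (nat_lit 7) (nat_lit 2)) T.ie)))))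
def d787 : T := (T.ts (nat_lit 2) (T.ts (nat_lit 4) (T.ts (nat_lit 3) (T.ts (nat_lit 2) (T.ts (nat_lit 1) (T.ts (nat_lit 4) (T.ts (nat_lit 3) (T.ts (nat_lit 0) (T.ts (nat_lit 1) (T.l1 (nat_lit 12300) (nat_lit 4) (nat_lit 20500)) (T.tp (T.sk (T.ls (nat_lit 2) (nat_lit 4))))) (T.tp (T.sk (T.ls (nat_lit 2) (nat_lit 4))))) (T.tp (T.sk (T.ls (nat_lit 2) (nat_lit 4))))) (T.tp (T.sk (T.ls (nat_lit 2) (nat_lit 4))))) (T.tp (T.sk (T.ls (nat_lit 2) (nat_lit 4))))) (T.tp (T.sk (T.ls (nat_lit 2) (nat_lit 4))))) (T.tp (T.sk (T.ls (nat_lit 2) (nat_lit 4))))) (T.tp (T.sk (T.ls (nat_lit 2) (nat_lit 4))))) (T.ts (nat_lit 0) (T.ts (nat_lit 4) (T.ts (nat_lit 3) (T.ts (nat_lit 2) (T.ts (nat_lit 1) (T.ts (nat_lit 4) (T.ts (nat_lit 3) (T.ts (nat_lit 0) (T.ts (nat_lit 1) (T.l1 (nat_lit 12300) (nat_lit 2)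 (nat_lit 20500)) (T.tp (T.sk (T.ls (nat_lit 2) (nat_lit 4))))) (T.tp (T.sk (T.ls (nat_lit 2) (nat_lit 4))))) (T.tp (T.sk (T.ls (nat_lit 2) (nat_lit 4))))) (T.tp (T.sk (T.ls (nat_lit 2) (nat_lit 4))))) (T.tp (T.sk (T.ls (nat_lit 2) (nat_lit 4))))) (T.tp (T.sk (T.ls (nat_lit 2) (nat_lit 4))))) (T.tp (T.sk (T.ls (nat_lit 2) (nat_lit 4))))) (T.tp (T.sk (T.ls (nat_lit 2) (nat_lit 4))))) (T.tp (T.ts (nat_lit 1) (T.im (nat_lit 7) (nat_lit 2)) T.ie))))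
def d788 : T := (T.ts (nat_lit 2) (T.ts (nat_lit 4) (T.ts (nat_lit 3) (T.ts (nat_lit 2) (T.ts (nat_lit 1) (T.ts (nat_lit 4) (T.ts (nat_lit 3) (T.ts (nat_lit 0) (T.ts (nat_lit 1) (T.l1 (nat_lit 12300) (nat_lit 4) (nat_lit 20500)) (T.tp (T.sk (T.ls (nat_lit 2) (nat_lit 4))))) (T.tp (T.sk (T.ls (nat_lit 2) (nat_lit 4))))) (T.tp (T.sk (T.ls (nat_lit 2) (nat_lit 4))))) (T.tp (T.sk (T.ls (nat_lit 2) (nat_lit 4))))) (T.tp (T.sk (T.ls (nat_lit 2) (nat_lit 4))))) (T.tp (T.sk (T.ls (nat_lit 2) (nat_lit 4))))) (T.tp (T.sk (T.ls (nat_lit 2) (nat_lit 4))))) (T.tp (T.sk (T.ls (nat_lit 2) (nat_lit 4))))) (T.ts (nat_lit 0) (T.ts (nat_lit 4) (T.ts (nat_lit 3) (T.ts (nat_lit 2) (T.ts (nat_lit 1) (T.ts (nat_lit 4) (T.ts (nat_lit 3) (T.ts (nat_lit 0) (T.ts (nat_lit 1) (T.l1 (nat_lit 12300) (nat_lit 2)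 (nat_lit 20500)) (T.tp (T.sk (T.ls (nat_lit 2) (nat_lit 4))))) (T.tp (T.sk (T.ls (nat_lit 2) (nat_lit 4))))) (T.tp (T.sk (T.ls (nat_lit 2) (nat_lit 4))))) (T.tp (T.sk (T.ls (nat_lit 2) (nat_lit 4))))) (T.tp (T.sk (T.ls (nat_lit 2) (nat_lit 4))))) (T.tp (T.sk (T.ls (nat_lit 2) (nat_lit 4))))) (T.tp (T.sk (T.ls (nat_lit 2) (nat_lit 4))))) (T.tp (T.sk (T.ls (nat_lit 2) (nat_lit 4))))) (T.tp (T.ts (nat_lit 1) (T.im (nat_lit 7) (nat_lit 2)) T.ie))))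
def d789 : T := (T.ts (nat_lit 2) (T.ts (nat_lit 4) (T.ts (nat_lit 3) (T.ts (nat_lit 2) (T.ts (nat_lit 1) (T.ts (nat_lit 4) (T.ts (nat_lit 3) (T.ts (nat_lit 0) (T.l1 (nat_lit 12300) (nat_lit 4) (nat_lit 20500)) (T.tp (T.sk (T.ls (nat_lit 2) (nat_lit 4))))) (T.tp (T.sk (T.ls (nat_lit 2) (nat_lit 4))))) (T.tp (T.sk (T.ls (nat_lit 2) (nat_lit 4))))) (T.tp (T.sk (T.ls (nat_lit 2) (nat_lit 4))))) (T.tp (T.sk (T.ls (nat_lit 2) (nat_lit 4))))) (T.tp (T.sk (T.ls (nat_lit 2) (nat_lit 4))))) (T.ts (nat_lit 3) (T.ls (nat_lit 2) (nat_lit 4)) d787)) (T.ts (nat_lit 0) (T.ts (nat_lit 4) (T.ts (nat_lit 3) (T.ts (nat_lit 2) (T.ts (nat_lit 1) (T.ts (nat_lit 4) (T.ts (nat_lit 3) (T.ts (nat_lit 0) (T.l1 (nat_lit 12300) (nat_lit 2) (nat_lit 20500)) (T.tp (T.sk (T.ls (nat_lit 2) (nat_lit 4))))) (T.tp (T.sk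 (T.ls (nat_lit 2) (nat_lit 4))))) (T.tp (T.sk (T.ls (nat_lit 2) (nat_lit 4))))) (T.tp (T.sk (T.ls (nat_lit 2) (nat_lit 4))))) (T.tp (T.sk (T.ls (nat_lit 2) (nat_lit 4))))) (T.tp (T.sk (T.ls (nat_lit 2) (nat_lit 4))))) (T.ts (nat_lit 3) (T.ls (nat_lit 2) (nat_lit 4)) d788)) (T.tp (T.ts (nat_lit 1) (T.im (nat_lit 7) (nat_lit 1)) T.ie))))
def d790 : T := (T.ts (nat_lit 4) (T.ls (nat_lit 2) (nat_lit 4)) (T.ts (nat_lit 3) (T.ts (nat_lit 4) (T.ls (nat_lit 2) (nat_lit 4)) (T.ts (nat_lit 2) (T.ts (nat_lit 1) (T.ts (nat_lit 4) (T.ts (nat_lit 3) (T.l1 (nat_lit 12300) (nat_lit 2) (nat_lit 20500)) (T.tp (T.sk (T.ls (nat_lit 2) (nat_lit 4))))) (T.tp (T.sk (T.ls (nat_lit 2) (nat_lit 4))))) (T.tp (T.sk (T.ls (nat_lit 2) (nat_lit 4))))) (T.tp (T.sk (T.ls (nat_lit 2) (nat_lit 4)))))) (T.ts (nat_lit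 2) (T.ts (nat_lit 4) (T.ts (nat_lit 3) (T.ts (nat_lit 2) (T.ts (nat_lit 1) (T.ts (nat_lit 4) (T.ts (nat_lit 3) (T.ts (nat_lit 0) (T.ts (nat_lit 0) (T.l1 (nat_lit 12300) (nat_lit 4) (nat_lit 20500)) (T.tp (T.sk (T.ls (nat_lit 2) (nat_lit 4))))) (T.tp (T.sk (T.ls (nat_lit 2) (nat_lit 4))))) (T.tp (T.sk (T.ls (nat_lit 2) (nat_lit 4))))) (T.tp (T.sk (T.ls (nat_lit 2) (nat_lit 4))))) (T.tp (T.sk (T.ls (nat_lit 2) (nat_lit 4))))) (T.tp (T.sk (T.ls (nat_lit 2) (nat_lit 4))))) (T.tp (T.sk (T.ls (nat_lit 2) (nat_lit 4))))) (T.tp (T.sk (T.ls (nat_lit 2) (nat_lit 4))))) (T.tp (T.ts (nat_lit 1) (T.ls (nat_lit 2) (nat_lit 4)) (T.ts (nat_lit 0) (T.im (nat_lit 7) (nat_lit 2)) T.ie))))))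
def d791 : T := (T.ts (nat_lit 4) (T.ts (nat_lit 3) (T.ts (nat_lit 2) (T.ts (nat_lit 1) (T.ts (nat_lit 4) (T.ts (nat_lit 3) (T.ts (nat_lit 0) (T.l1 (nat_lit 12300) (nat_lit 4) (nat_lit 20500)) (T.tp (T.sk (T.ls (nat_lit 2) (nat_lit 4))))) (T.tp (T.sk (T.ls (nat_lit 2) (nat_lit 4))))) (T.tp (T.sk (T.ls (nat_lit 2) (nat_lit 4))))) (T.tp (T.sk (T.ls (nat_lit 2) (nat_lit 4))))) (T.tp (T.sk (T.ls (nat_lit 2) (nat_lit 4))))) (T.tp (T.sk (T.ls (nat_lit 2) (nat_lit 4))))) (T.ts (nat_lit 3) (T.ls (nat_lit 2) (nat_lit 4)) (T.ts (nat_lit 2) (T.ts (nat_lit 4) (T.ts (nat_lit 3) (T.ts (nat_lit 2) (T.ts (nat_lit 1) (T.ts (nat_lit 4) (T.ts (nat_lit 3) (T.ts (nat_lit 0) (T.ts (nat_lit 0) (T.l1 (nat_lit 12300) (nat_lit 4) (nat_lit 20500)) (T.tp (T.sk (T.ls (nat_lit 2) (nat_lit 4))))) (T.tp (T.sk (T.ls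 (nat_lit 2) (nat_lit 4))))) (T.tp (T.sk (T.ls (nat_lit 2) (nat_lit 4))))) (T.tp (T.sk (T.ls (nat_lit 2) (nat_lit 4))))) (T.tp (T.sk (T.ls (nat_lit 2) (nat_lit 4))))) (T.tp (T.sk (T.ls (nat_lit 2) (nat_lit 4))))) (T.tp (T.sk (T.ls (nat_lit 2) (nat_lit 4))))) (T.tp (T.sk (T.ls (nat_lit 2) (nat_lit 4))))) (T.tp (T.ts (nat_lit 1) (T.ls (nat_lit 2) (nat_lit 4)) (T.ts (nat_lit 0) (T.im (nat_lit 7) (nat_lit 2)) T.ie))))))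
def d792 : T := (T.ts (nat_lit 3) (T.ts (nat_lit 4) (T.ls (nat_lit 2) (nat_lit 4)) (T.ts (nat_lit 3) (T.ls (nat_lit 2) (nat_lit 4)) (T.ts (nat_lit 2) (T.ts (nat_lit 4) (T.ts (nat_lit 3) (T.ts (nat_lit 2) (T.ts (nat_lit 1) (T.ts (nat_lit 4) (T.ts (nat_lit 3) (T.ts (nat_lit 0) (T.ts (nat_lit 0) (T.l1 (nat_lit 12300) (nat_lit 4) (nat_lit 20500)) (T.sk (T.lf (nat_lit 16569) (nat_lit 2) (nat_lit 12300) (nat_lit 4) (nat_lit 20500)))) (T.sk (T.lf (nat_lit 16569) (nat_lit 2) (nat_lit 12300) (nat_lit 4) (nat_lit 20500)))) (T.tp (T.sk (T.ls (nat_lit 2) (nat_lit 4))))) (T.tp (T.sk (T.ls (nat_lit 2) (nat_lit 4))))) (T.tp (T.sk (T.ls (nat_lit 2) (nat_lit 4))))) (T.tp (T.sk (T.ls (nat_lit 2) (nat_lit 4))))) (T.tp (T.sk (T.ls (nat_lit 2) (nat_lit 4))))) (T.tp (T.sk (T.ls (nat_lit 2) (nat_lit 4)))))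 (T.tp (T.ts (nat_lit 1) (T.ls (nat_lit 2) (nat_lit 4)) (T.ts (nat_lit 0) (T.im (nat_lit 5) (nat_lit 3)) T.ie)))))) (T.ts (nat_lit 2) d791 (T.ts (nat_lit 1) (T.ts (nat_lit 4) (T.ls (nat_lit 2) (nat_lit 4)) (T.ts (nat_lit 3) (T.ls (nat_lit 2) (nat_lit 4)) (T.ts (nat_lit 2) (T.ts (nat_lit 4) (T.ts (nat_lit 3) (T.ts (nat_lit 2) (T.ts (nat_lit 1) (T.ts (nat_lit 4) (T.ts (nat_lit 3) (T.ts (nat_lit 0) (T.ts (nat_lit 0) (T.l1 (nat_lit 12300) (nat_lit 4) (nat_lit 20500)) (T.tp (T.sk (T.ls (nat_lit 2) (nat_lit 4))))) (T.tp (T.sk (T.ls (nat_lit 2) (nat_lit 4))))) (T.tp (T.sk (T.ls (nat_lit 2) (nat_lit 4))))) (T.tp (T.sk (T.ls (nat_lit 2) (nat_lit 4))))) (T.tp (T.sk (T.ls (nat_lit 2) (nat_lit 4))))) (T.tp (T.sk (T.ls (nat_lit 2) (nat_lit 4))))) (T.tp (T.sk (T.ls (nat_lit 2) (nat_lit 4))))) (T.tp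 (T.sk (T.ls (nat_lit 2) (nat_lit 4))))) (T.tp (T.ts (nat_lit 1) (T.ls (nat_lit 2) (nat_lit 4)) (T.ts (nat_lit 0) (T.im (nat_lit 7) (nat_lit 2)) T.ie)))))) (T.tp (T.ts (nat_lit 0) (T.im (nat_lit 7) (nat_lit 1)) T.ie)))))
def d793 : T := (T.ts (nat_lit 2) (T.ts (nat_lit 4) d783 d785) (T.ts (nat_lit 1) (T.ts (nat_lit 4) (T.ts (nat_lit 4) (T.ls (nat_lit 2) (nat_lit 4)) d786) (T.ts (nat_lit 3) (T.ts (nat_lit 4) (T.ls (nat_lit 2) (nat_lit 4)) (T.ts (nat_lit 3) (T.ls (nat_lit 2) (nat_lit 4)) (T.ts (nat_lit 2) (T.ts (nat_lit 4) (T.ts (nat_lit 3) (T.ts (nat_lit 2) (T.ts (nat_lit 1) (T.ts (nat_lit 4) (T.ts (nat_lit 3) (T.ts (nat_lit 0) (T.ts (nat_lit 1) (T.l1 (nat_lit 12300) (nat_lit 4) (nat_lit 20500)) (T.sk (T.lf (nat_lit 16569) (nat_lit 2) (nat_lit 12300) (nat_lit 4) (nat_lit 20500)))) (T.sk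 (T.lf (nat_lit 16569) (nat_lit 2) (nat_lit 12300) (nat_lit 4) (nat_lit 20500)))) (T.tp (T.sk (T.ls (nat_lit 2) (nat_lit 4))))) (T.tp (T.sk (T.ls (nat_lit 2) (nat_lit 4))))) (T.tp (T.sk (T.ls (nat_lit 2) (nat_lit 4))))) (T.tp (T.sk (T.ls (nat_lit 2) (nat_lit 4))))) (T.tp (T.sk (T.ls (nat_lit 2) (nat_lit 4))))) (T.tp (T.sk (T.ls (nat_lit 2) (nat_lit 4))))) (T.tp (T.ts (nat_lit 1) (T.im (nat_lit 7) (nat_lit 2)) (T.ts (nat_lit 0) (T.im (nat_lit 5) (nat_lit 3)) T.ie)))))) d789)) (T.ts (nat_lit 0) (T.ts (nat_lit 4) d790 d792) (T.tp (T.ts (nat_lit 3) (T.im (nat_lit 5) (nat_lit 2)) T.ie)))))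
def d794 : T := (T.ts (nat_lit 2) (T.im (nat_lit 5) (nat_lit 1)) (T.nw (T.ts (nat_lit 4) (T.ts (nat_lit 3) (T.ts (nat_lit 3) (T.ls (nat_lit 2) (nat_lit 4)) (T.ts (nat_lit 2) (T.ts (nat_lit 4) (T.tp (T.ts (nat_lit 3) (T.im (nat_lit 7) (nat_lit 3)) (T.sk (T.ls (nat_lit 2) (nat_lit 4))))) (T.ts (nat_lit 1) (T.ts (nat_lit 4) (T.l1 (nat_lit 12300) (nat_lit 2) (nat_lit 20500)) (T.tp (T.sk (T.ls (nat_lit 2) (nat_lit 4))))) (T.tp (T.sk (T.ls (nat_lit 2) (nat_lit 4)))))) (T.tp (T.ts (nat_lit 1) (T.ls (nat_lit 2) (nat_lit 4)) (T.ts (nat_lit 4) (T.im (nat_lit 7) (nat_lit 2)) (T.ts (nat_lit 0) (T.im (nat_lit 5) (nat_lit 3)) T.ie)))))) (T.ts (nat_lit 2) (T.ts (nat_lit 3) (T.ls (nat_lit 2) (nat_lit 4)) d780) (T.ts (nat_lit 1) (T.ts (nat_lit 3) (T.ls (nat_lit 2) (nat_lit 4)) d781) (T.ts (nat_lit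 0) (T.ts (nat_lit 3) (T.ls (nat_lit 2) (nat_lit 4)) d782) (T.tp (T.ts (nat_lit 4) (T.im (nat_lit 7) (nat_lit 1)) T.ie)))))) d793)))
def d795 : T := (T.ts (nat_lit 0) (T.ts (nat_lit 3) (T.ts (nat_lit 3) (T.ls (nat_lit 2) (nat_lit 3)) (T.ts (nat_lit 2) (T.ls (nat_lit 2) (nat_lit 4)) (T.ts (nat_lit 1) (T.im (nat_lit 3) (nat_lit 4)) (T.ts (nat_lit 0) (T.im (nat_lit 7) (nat_lit 2)) (T.nw (T.ls (nat_lit 2) (nat_lit 3))))))) (T.ts (nat_lit 2) (T.ts (nat_lit 3) (T.ls (nat_lit 2) (nat_lit 3)) (T.ts (nat_lit 2) (T.ls (nat_lit 2) (nat_lit 3)) (T.ts (nat_lit 1) (T.ls (nat_lit 3) (nat_lit 4)) (T.ts (nat_lit 0) (T.im (nat_lit 7) (nat_lit 2)) (T.nw (T.ls (nat_lit 2) (nat_lit 3))))))) (T.ts (nat_lit 1) (T.ts (nat_lit 2) (T.ls (nat_lit 2) (nat_lit 3)) (T.ts (nat_lit 1) (T.ls (nat_lit 3) (nat_lit 4))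 (T.ts (nat_lit 3) (T.im (nat_lit 5) (nat_lit 3)) (T.ts (nat_lit 0) (T.im (nat_lit 7) (nat_lit 2)) (T.nw (T.ls (nat_lit 2) (nat_lit 3))))))) (T.ts (nat_lit 0) (T.im (nat_lit 7) (nat_lit 1)) (T.nw (T.ts (nat_lit 4) (T.ls (nat_lit 2) (nat_lit 3)) (T.ts (nat_lit 3) (T.ls (nat_lit 2) (nat_lit 3)) (T.ts (nat_lit 2) (T.ls (nat_lit 3) (nat_lit 4)) (T.ts (nat_lit 0) (T.ls (nat_lit 2) (nat_lit 3)) (T.ts (nat_lit 1) (T.im (nat_lit 7) (nat_lit 2)) T.ie)))))))))) (T.ts (nat_lit 1) (T.im (nat_lit 5) (nat_lit 2)) (T.nw (T.ts (nat_lit 4) (T.ts (nat_lit 4) (T.ls (nat_lit 2) (nat_lit 3)) (T.ts (nat_lit 3) (T.ls (nat_lit 2) (nat_lit 3)) (T.ts (nat_lit 2) (T.ls (nat_lit 3) (nat_lit 4)) (T.ts (nat_lit 1) (T.ls (nat_lit 2) (nat_lit 4)) (T.ts (nat_lit 0) (T.im (nat_lit 7) (nat_lit 2)) T.ie))))) (T.ts (nat_lit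 3) (T.ts (nat_lit 4) (T.ls (nat_lit 2) (nat_lit 3)) (T.ts (nat_lit 3) (T.ls (nat_lit 2) (nat_lit 3)) (T.ts (nat_lit 2) (T.ls (nat_lit 3) (nat_lit 4)) (T.ts (nat_lit 1) (T.ls (nat_lit 2) (nat_lit 4)) (T.ts (nat_lit 0) (T.im (nat_lit 7) (nat_lit 2)) T.ie))))) (T.ts (nat_lit 2) (T.ts (nat_lit 3) (T.ls (nat_lit 2) (nat_lit 3)) (T.ts (nat_lit 2) (T.ls (nat_lit 3) (nat_lit 4)) (T.ts (nat_lit 1) (T.ls (nat_lit 2) (nat_lit 4)) (T.ts (nat_lit 4) (T.im (nat_lit 5) (nat_lit 3)) (T.ts (nat_lit 0) (T.im (nat_lit 7) (nat_lit 2)) T.ie))))) (T.ts (nat_lit 1) (T.ts (nat_lit 4) (T.ls (nat_lit 2) (nat_lit 4)) (T.ts (nat_lit 3) (T.ls (nat_lit 2) (nat_lit 3)) (T.ts (nat_lit 2) (T.ls (nat_lit 3) (nat_lit 4)) (T.ts (nat_lit 1) (T.ls (nat_lit 2) (nat_lit 4)) (T.ts (nat_lit 0) (T.im (nat_lit 7) (nat_lit 2))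 T.ie))))) (T.ts (nat_lit 0) (T.im (nat_lit 7) (nat_lit 1)) T.ie))))))))
def d796 : T := (T.ts (nat_lit 2) (T.ts (nat_lit 3) (T.ts (nat_lit 3) (T.ls (nat_lit 2) (nat_lit 3)) (T.ts (nat_lit 1) (T.ls (nat_lit 3) (nat_lit 4)) (T.ts (nat_lit 0) (T.ls (nat_lit 2) (nat_lit 4)) (T.ts (nat_lit 2) (T.im (nat_lit 7) (nat_lit 2)) (T.nw (T.ls (nat_lit 2) (nat_lit 3))))))) (T.ts (nat_lit 1) (T.ts (nat_lit 1) (T.ls (nat_lit 3) (nat_lit 4)) (T.ts (nat_lit 0) (T.ts (nat_lit 3) (T.ts (nat_lit 2) (T.ts (nat_lit 1) (T.ts (nat_lit 0) (T.im (nat_lit 7) (nat_lit 4)) (T.sk (T.ls (nat_lit 3) (nat_lit 4)))) (T.sk (T.ls (nat_lit 3) (nat_lit 4)))) (T.sk (T.ls (nat_lit 3) (nat_lit 4)))) (T.sk (T.ls (nat_lit 3) (nat_lit 4)))) (T.ts (nat_lit 3) (T.im (nat_lit 5) (nat_lit 3)) (T.ts (nat_lit 2) (T.im (nat_lit 7)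 (nat_lit 2)) (T.nw (T.ls (nat_lit 2) (nat_lit 3))))))) (T.ts (nat_lit 0) (T.ts (nat_lit 3) (T.ls (nat_lit 2) (nat_lit 4)) (T.ts (nat_lit 1) (T.ls (nat_lit 3) (nat_lit 4)) (T.ts (nat_lit 0) (T.ls (nat_lit 2) (nat_lit 4)) (T.ts (nat_lit 2) (T.im (nat_lit 7) (nat_lit 2)) (T.nw (T.ls (nat_lit 2) (nat_lit 3))))))) (T.ts (nat_lit 2) (T.im (nat_lit 7) (nat_lit 1)) (T.nw (T.ts (nat_lit 4) (T.ls (nat_lit 2) (nat_lit 3)) (T.ts (nat_lit 2) (T.ls (nat_lit 3) (nat_lit 4)) (T.ts (nat_lit 1) (T.ls (nat_lit 2) (nat_lit 4)) (T.ts (nat_lit 0) (T.ls (nat_lit 2) (nat_lit 3)) (T.ts (nat_lit 3) (T.im (nat_lit 7) (nat_lit 2)) T.ie)))))))))) d795)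
def d797 : T := (T.ts (nat_lit 0) (T.ts (nat_lit 3) (T.ts (nat_lit 3) (T.ls (nat_lit 2) (nat_lit 3)) (T.ts (nat_lit 2) (T.ls (nat_lit 2) (nat_lit 4)) (T.ts (nat_lit 1) (T.im (nat_lit 3) (nat_lit 4)) (T.ts (nat_lit 0) (T.im (nat_lit 7) (nat_lit 2)) (T.nw (T.ls (nat_lit 2) (nat_lit 3))))))) (T.ts (nat_lit 2) (T.ts (nat_lit 3) (T.ls (nat_lit 2) (nat_lit 3)) (T.ts (nat_lit 2) (T.ls (nat_lit 2) (nat_lit 3)) (T.ts (nat_lit 1) (T.ls (nat_lit 3) (nat_lit 4)) (T.ts (nat_lit 0) (T.im (nat_lit 7) (nat_lit 2)) (T.nw (T.ls (nat_lit 2) (nat_lit 3))))))) (T.ts (nat_lit 1) (T.ts (nat_lit 3) (T.ls (nat_lit 3) (nat_lit 4)) (T.ts (nat_lit 1) (T.ls (nat_lit 3) (nat_lit 4)) (T.ts (nat_lit 2) (T.im (nat_lit 5) (nat_lit 3)) (T.ts (nat_lit 0) (T.im (nat_lit 7) (nat_lit 2)) (T.nw (T.ls (nat_lit 2) (nat_lit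 3))))))) (T.ts (nat_lit 0) (T.im (nat_lit 7) (nat_lit 1)) (T.nw (T.ts (nat_lit 4) (T.ls (nat_lit 2) (nat_lit 3)) (T.ts (nat_lit 3) (T.ls (nat_lit 2) (nat_lit 3)) (T.ts (nat_lit 2) (T.ls (nat_lit 3) (nat_lit 4)) (T.ts (nat_lit 0) (T.ls (nat_lit 2) (nat_lit 3)) (T.ts (nat_lit 1) (T.im (nat_lit 7) (nat_lit 2)) T.ie)))))))))) (T.ts (nat_lit 1) (T.im (nat_lit 5) (nat_lit 2)) (T.nw (T.ts (nat_lit 4) (T.ts (nat_lit 4) (T.ls (nat_lit 2) (nat_lit 3)) (T.ts (nat_lit 3) (T.ls (nat_lit 2) (nat_lit 3)) (T.ts (nat_lit 2) (T.ls (nat_lit 3) (nat_lit 4)) (T.ts (nat_lit 1) (T.ls (nat_lit 2) (nat_lit 4)) (T.ts (nat_lit 0) (T.im (nat_lit 7) (nat_lit 2)) T.ie))))) (T.ts (nat_lit 3) (T.ts (nat_lit 4) (T.ls (nat_lit 2) (nat_lit 3)) (T.ts (nat_lit 3) (T.ls (nat_lit 2) (nat_lit 3)) (T.ts (nat_lit 2) (T.ls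 (nat_lit 3) (nat_lit 4)) (T.ts (nat_lit 1) (T.ls (nat_lit 2) (nat_lit 4)) (T.ts (nat_lit 0) (T.im (nat_lit 7) (nat_lit 2)) T.ie))))) (T.ts (nat_lit 2) (T.ts (nat_lit 4) (T.ls (nat_lit 3) (nat_lit 4)) (T.ts (nat_lit 2) (T.ls (nat_lit 3) (nat_lit 4)) (T.ts (nat_lit 1) (T.ls (nat_lit 2) (nat_lit 4)) (T.ts (nat_lit 3) (T.im (nat_lit 5) (nat_lit 3)) (T.ts (nat_lit 0) (T.im (nat_lit 7) (nat_lit 2)) T.ie))))) (T.ts (nat_lit 1) (T.ts (nat_lit 4) (T.ls (nat_lit 2) (nat_lit 4)) (T.ts (nat_lit 3) (T.ls (nat_lit 2) (nat_lit 3)) (T.ts (nat_lit 2) (T.ls (nat_lit 3) (nat_lit 4)) (T.ts (nat_lit 1) (T.ls (nat_lit 2) (nat_lit 4)) (T.ts (nat_lit 0) (T.im (nat_lit 7) (nat_lit 2)) T.ie))))) (T.ts (nat_lit 0) (T.im (nat_lit 7) (nat_lit 1)) T.ie))))))))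
def d798 : T := (T.ts (nat_lit 3) (T.ts (nat_lit 2) (T.ts (nat_lit 2) (T.ls (nat_lit 2) (nat_lit 3)) (T.ts (nat_lit 1) (T.ls (nat_lit 3) (nat_lit 4)) (T.ts (nat_lit 0) (T.ls (nat_lit 2) (nat_lit 4)) (T.ts (nat_lit 3) (T.im (nat_lit 7) (nat_lit 2)) (T.nw (T.ls (nat_lit 2) (nat_lit 3))))))) (T.ts (nat_lit 1) (T.ts (nat_lit 1) (T.ls (nat_lit 3) (nat_lit 4)) (T.ts (nat_lit 0) (T.ls (nat_lit 2) (nat_lit 4)) (T.ts (nat_lit 3) (T.im (nat_lit 7) (nat_lit 2)) (T.ts (nat_lit 2) (T.im (nat_lit 5) (nat_lit 3)) (T.nw (T.ls (nat_lit 2) (nat_lit 3))))))) (T.ts (nat_lit 0) (T.ts (nat_lit 2) (T.ls (nat_lit 2) (nat_lit 3)) (T.ts (nat_lit 1) (T.ls (nat_lit 3) (nat_lit 4)) (T.ts (nat_lit 0) (T.ls (nat_lit 2) (nat_lit 4)) (T.ts (nat_lit 3) (T.im (nat_lit 7) (nat_lit 2)) (T.nw (T.ls (nat_lit 2) (nat_lit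 3))))))) (T.ts (nat_lit 3) (T.im (nat_lit 7) (nat_lit 1)) (T.nw (T.ts (nat_lit 3) (T.ls (nat_lit 2) (nat_lit 3)) (T.ts (nat_lit 2) (T.ls (nat_lit 3) (nat_lit 4)) (T.ts (nat_lit 1) (T.ls (nat_lit 2) (nat_lit 4)) (T.ts (nat_lit 0) (T.ls (nat_lit 2) (nat_lit 3)) (T.ts (nat_lit 4) (T.im (nat_lit 7) (nat_lit 2)) T.ie)))))))))) (T.ts (nat_lit 2) (T.ts (nat_lit 3) (T.ts (nat_lit 3) (T.ls (nat_lit 2) (nat_lit 3)) (T.ts (nat_lit 1) (T.ls (nat_lit 3) (nat_lit 4)) (T.ts (nat_lit 0) (T.ls (nat_lit 2) (nat_lit 4)) (T.ts (nat_lit 2) (T.im (nat_lit 7) (nat_lit 2)) (T.nw (T.ls (nat_lit 2) (nat_lit 3))))))) (T.ts (nat_lit 1) (T.ts (nat_lit 3) (T.ls (nat_lit 3) (nat_lit 4)) (T.ts (nat_lit 1) (T.ls (nat_lit 3) (nat_lit 4)) (T.ts (nat_lit 0) (T.ls (nat_lit 2) (nat_lit 4)) (T.ts (nat_lit 2) (T.im (nat_lit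 5) (nat_lit 3)) (T.nw (T.ls (nat_lit 2) (nat_lit 3))))))) (T.ts (nat_lit 0) (T.ts (nat_lit 3) (T.ls (nat_lit 2) (nat_lit 4)) (T.ts (nat_lit 1) (T.ls (nat_lit 3) (nat_lit 4)) (T.ts (nat_lit 0) (T.ls (nat_lit 2) (nat_lit 4)) (T.ts (nat_lit 2) (T.im (nat_lit 7) (nat_lit 2)) (T.nw (T.ls (nat_lit 2) (nat_lit 3))))))) (T.ts (nat_lit 2) (T.im (nat_lit 7) (nat_lit 1)) (T.nw (T.ts (nat_lit 4) (T.ls (nat_lit 2) (nat_lit 3)) (T.ts (nat_lit 2) (T.ls (nat_lit 3) (nat_lit 4)) (T.ts (nat_lit 1) (T.ls (nat_lit 2) (nat_lit 4)) (T.ts (nat_lit 0) (T.ls (nat_lit 2) (nat_lit 3)) (T.ts (nat_lit 3) (T.im (nat_lit 7) (nat_lit 2)) T.ie)))))))))) d797))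
def d799 : T := (T.ts (nat_lit 0) (T.ts (nat_lit 3) (T.ts (nat_lit 3) (T.ls (nat_lit 2) (nat_lit 3)) (T.ts (nat_lit 2) (T.ls (nat_lit 2) (nat_lit 4)) (T.ts (nat_lit 1) (T.im (nat_lit 3) (nat_lit 4)) (T.ts (nat_lit 0) (T.im (nat_lit 7) (nat_lit 2)) (T.nw (T.ls (nat_lit 2) (nat_lit 3))))))) (T.ts (nat_lit 2) (T.ts (nat_lit 3) (T.ls (nat_lit 2) (nat_lit 3)) (T.ts (nat_lit 2) (T.ls (nat_lit 2) (nat_lit 3)) (T.ts (nat_lit 1) (T.ls (nat_lit 3) (nat_lit 4)) (T.ts (nat_lit 0) (T.im (nat_lit 7) (nat_lit 2)) (T.nw (T.ls (nat_lit 2) (nat_lit 3))))))) (T.ts (nat_lit 1) (T.ts (nat_lit 3) (T.ls (nat_lit 3) (nat_lit 4)) (T.ts (nat_lit 2) (T.ls (nat_lit 2) (nat_lit 3)) (T.ts (nat_lit 1) (T.ls (nat_lit 3) (nat_lit 4)) (T.ts (nat_lit 0) (T.im (nat_lit 5) (nat_lit 3)) (T.nw (T.ls (nat_lit 2) (nat_lit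 3))))))) (T.ts (nat_lit 0) (T.im (nat_lit 7) (nat_lit 1)) (T.nw (T.ts (nat_lit 4) (T.ls (nat_lit 2) (nat_lit 3)) (T.ts (nat_lit 3) (T.ls (nat_lit 2) (nat_lit 3)) (T.ts (nat_lit 2) (T.ls (nat_lit 3) (nat_lit 4)) (T.ts (nat_lit 0) (T.ls (nat_lit 2) (nat_lit 3)) (T.ts (nat_lit 1) (T.im (nat_lit 7) (nat_lit 2)) T.ie)))))))))) (T.ts (nat_lit 3) (T.im (nat_lit 3) (nat_lit 3)) (T.ts (nat_lit 1) (T.im (nat_lit 5) (nat_lit 2)) (T.nw (T.ts (nat_lit 4) (T.ts (nat_lit 4) (T.ls (nat_lit 2) (nat_lit 3)) (T.ts (nat_lit 3) (T.ls (nat_lit 2) (nat_lit 3)) (T.ts (nat_lit 2) (T.ls (nat_lit 3) (nat_lit 4)) (T.ts (nat_lit 1) (T.ls (nat_lit 2) (nat_lit 4)) (T.ts (nat_lit 0) (T.im (nat_lit 7) (nat_lit 2)) T.ie))))) (T.ts (nat_lit 3) (T.ts (nat_lit 4) (T.ls (nat_lit 2) (nat_lit 3)) (T.ts (nat_lit 3) (T.ls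 (nat_lit 2) (nat_lit 3)) (T.ts (nat_lit 2) (T.ls (nat_lit 3) (nat_lit 4)) (T.ts (nat_lit 1) (T.ls (nat_lit 2) (nat_lit 4)) (T.ts (nat_lit 0) (T.im (nat_lit 7) (nat_lit 2)) T.ie))))) (T.ts (nat_lit 2) (T.ts (nat_lit 4) (T.ls (nat_lit 3) (nat_lit 4)) (T.ts (nat_lit 3) (T.ls (nat_lit 2) (nat_lit 3)) (T.ts (nat_lit 2) (T.ls (nat_lit 3) (nat_lit 4)) (T.ts (nat_lit 1) (T.im (nat_lit 5) (nat_lit 3)) (T.ts (nat_lit 0) (T.im (nat_lit 7) (nat_lit 2)) T.ie))))) (T.ts (nat_lit 1) (T.ts (nat_lit 4) (T.ls (nat_lit 2) (nat_lit 4)) (T.ts (nat_lit 3) (T.ls (nat_lit 2) (nat_lit 3)) (T.ts (nat_lit 2) (T.ls (nat_lit 3) (nat_lit 4)) (T.ts (nat_lit 1) (T.ls (nat_lit 2) (nat_lit 4)) (T.ts (nat_lit 0) (T.im (nat_lit 7) (nat_lit 2)) T.ie))))) (T.ts (nat_lit 0) (T.im (nat_lit 7) (nat_lit 1)) T.ie)))))))))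
def d800 : T := (T.ts (nat_lit 1) (T.ts (nat_lit 4) (T.ts (nat_lit 4) (T.ls (nat_lit 2) (nat_lit 3)) (T.ts (nat_lit 3) (T.ls (nat_lit 2) (nat_lit 4)) (T.ts (nat_lit 0) (T.ls (nat_lit 2) (nat_lit 3)) (T.ts (nat_lit 2) (T.im (nat_lit 3) (nat_lit 4)) (T.ts (nat_lit 1) (T.im (nat_lit 7) (nat_lit 2)) T.ie))))) (T.ts (nat_lit 3) (T.ts (nat_lit 4) (T.ls (nat_lit 2) (nat_lit 3)) (T.ts (nat_lit 3) (T.ls (nat_lit 2) (nat_lit 3)) (T.ts (nat_lit 2) (T.ls (nat_lit 3) (nat_lit 4)) (T.ts (nat_lit 0) (T.ls (nat_lit 2) (nat_lit 3)) (T.ts (nat_lit 1) (T.im (nat_lit 7) (nat_lit 2)) T.ie))))) (T.ts (nat_lit 2) (T.ts (nat_lit 4) (T.ls (nat_lit 3) (nat_lit 4)) (T.ts (nat_lit 3) (T.ls (nat_lit 2) (nat_lit 3)) (T.ts (nat_lit 2) (T.ls (nat_lit 3) (nat_lit 4)) (T.ts (nat_lit 1) (T.im (nat_lit 7) (nat_lit 2))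 (T.ts (nat_lit 0) (T.im (nat_lit 5) (nat_lit 3)) T.ie))))) (T.ts (nat_lit 0) (T.ts (nat_lit 4) (T.ls (nat_lit 2) (nat_lit 3)) (T.ts (nat_lit 3) (T.ls (nat_lit 2) (nat_lit 3)) (T.ts (nat_lit 2) (T.ls (nat_lit 3) (nat_lit 4)) (T.ts (nat_lit 0) (T.ls (nat_lit 2) (nat_lit 3)) (T.ts (nat_lit 1) (T.im (nat_lit 7) (nat_lit 2)) T.ie))))) (T.ts (nat_lit 1) (T.im (nat_lit 7) (nat_lit 1)) T.ie))))) (T.ts (nat_lit 0) (T.ts (nat_lit 4) (T.ts (nat_lit 4) (T.ls (nat_lit 2) (nat_lit 3)) (T.ts (nat_lit 3) (T.ls (nat_lit 2) (nat_lit 3)) (T.ts (nat_lit 2) (T.ls (nat_lit 3) (nat_lit 4)) (T.ts (nat_lit 1) (T.ls (nat_lit 2) (nat_lit 4)) (T.ts (nat_lit 0) (T.im (nat_lit 7) (nat_lit 2)) T.ie))))) (T.ts (nat_lit 3) (T.ts (nat_lit 4) (T.ls (nat_lit 2) (nat_lit 3)) (T.ts (nat_lit 3) (T.ls (nat_lit 2) (nat_lit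 3)) (T.ts (nat_lit 2) (T.ls (nat_lit 3) (nat_lit 4)) (T.ts (nat_lit 1) (T.ls (nat_lit 2) (nat_lit 4)) (T.ts (nat_lit 0) (T.im (nat_lit 7) (nat_lit 2)) T.ie))))) (T.ts (nat_lit 2) (T.ts (nat_lit 4) (T.ls (nat_lit 3) (nat_lit 4)) (T.ts (nat_lit 3) (T.ls (nat_lit 2) (nat_lit 3)) (T.ts (nat_lit 2) (T.ls (nat_lit 3) (nat_lit 4)) (T.ts (nat_lit 1) (T.ls (nat_lit 2) (nat_lit 4)) (T.ts (nat_lit 0) (T.im (nat_lit 5) (nat_lit 3)) T.ie))))) (T.ts (nat_lit 1) (T.ts (nat_lit 4) (T.ls (nat_lit 2) (nat_lit 4)) (T.ts (nat_lit 3) (T.ls (nat_lit 2) (nat_lit 3)) (T.ts (nat_lit 2) (T.ls (nat_lit 3) (nat_lit 4)) (T.ts (nat_lit 1) (T.ls (nat_lit 2) (nat_lit 4)) (T.ts (nat_lit 0) (T.im (nat_lit 7) (nat_lit 2)) T.ie))))) (T.ts (nat_lit 0) (T.im (nat_lit 7) (nat_lit 1)) T.ie))))) (T.ts (nat_lit 2) (T.im (nat_lit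 5) (nat_lit 2)) T.ie)))
def d801 : T := (T.ts (nat_lit 4) (T.ts (nat_lit 3) (T.ts (nat_lit 3) (T.ls (nat_lit 2) (nat_lit 3)) (T.ts (nat_lit 2) (T.ts (nat_lit 4) (T.ls (nat_lit 3) (nat_lit 4)) (T.ts (nat_lit 1) (T.ls (nat_lit 2) (nat_lit 3)) (T.sk (T.ls (nat_lit 2) (nat_lit 3))))) (T.ts (nat_lit 1) (T.ls (nat_lit 2) (nat_lit 4)) (T.ts (nat_lit 0) (T.ls (nat_lit 2) (nat_lit 3)) (T.ts (nat_lit 4) (T.im (nat_lit 7) (nat_lit 2)) T.ie))))) (T.ts (nat_lit 2) (T.ts (nat_lit 3) (T.ls (nat_lit 2) (nat_lit 3)) (T.ts (nat_lit 2) (T.ls (nat_lit 3) (nat_lit 4)) (T.ts (nat_lit 1) (T.ls (nat_lit 2) (nat_lit 4)) (T.ts (nat_lit 4) (T.im (nat_lit 7) (nat_lit 2)) (T.ts (nat_lit 0) (T.im (nat_lit 5) (nat_lit 3)) T.ie))))) (T.ts (nat_lit 1) (T.ts (nat_lit 3) (T.ls (nat_lit 2) (nat_lit 3)) (T.ts (nat_lit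 2) (T.ls (nat_lit 3) (nat_lit 4)) (T.ts (nat_lit 1) (T.ls (nat_lit 2) (nat_lit 4)) (T.ts (nat_lit 0) (T.ls (nat_lit 2) (nat_lit 3)) (T.ts (nat_lit 4) (T.im (nat_lit 7) (nat_lit 2)) T.ie))))) (T.ts (nat_lit 0) (T.ts (nat_lit 3) (T.ls (nat_lit 2) (nat_lit 3)) (T.ts (nat_lit 2) (T.ls (nat_lit 3) (nat_lit 4)) (T.ts (nat_lit 1) (T.ls (nat_lit 2) (nat_lit 4)) (T.ts (nat_lit 0) (T.ls (nat_lit 2) (nat_lit 3)) (T.ts (nat_lit 4) (T.im (nat_lit 7) (nat_lit 2)) T.ie))))) (T.ts (nat_lit 4) (T.im (nat_lit 7) (nat_lit 1)) T.ie))))) (T.ts (nat_lit 3) (T.ts (nat_lit 4) (T.ts (nat_lit 4) (T.ls (nat_lit 2) (nat_lit 3)) (T.ts (nat_lit 2) (T.ls (nat_lit 3) (nat_lit 4)) (T.ts (nat_lit 1) (T.ls (nat_lit 2) (nat_lit 4)) (T.ts (nat_lit 0) (T.ls (nat_lit 2) (nat_lit 3)) (T.ts (nat_lit 3) (T.im (nat_lit 7)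 (nat_lit 2)) T.ie))))) (T.ts (nat_lit 2) (T.ts (nat_lit 4) (T.ls (nat_lit 3) (nat_lit 4)) (T.ts (nat_lit 2) (T.ls (nat_lit 3) (nat_lit 4)) (T.ts (nat_lit 1) (T.ls (nat_lit 2) (nat_lit 4)) (T.ts (nat_lit 3) (T.im (nat_lit 7) (nat_lit 2)) (T.ts (nat_lit 0) (T.im (nat_lit 5) (nat_lit 3)) T.ie))))) (T.ts (nat_lit 1) (T.ts (nat_lit 4) (T.ls (nat_lit 2) (nat_lit 4)) (T.ts (nat_lit 2) (T.ls (nat_lit 3) (nat_lit 4)) (T.ts (nat_lit 1) (T.ls (nat_lit 2) (nat_lit 4)) (T.ts (nat_lit 0) (T.ls (nat_lit 2) (nat_lit 3)) (T.ts (nat_lit 3) (T.im (nat_lit 7) (nat_lit 2)) T.ie))))) (T.ts (nat_lit 0) (T.ts (nat_lit 4) (T.ls (nat_lit 2) (nat_lit 3)) (T.ts (nat_lit 2) (T.ls (nat_lit 3) (nat_lit 4)) (T.ts (nat_lit 1) (T.ls (nat_lit 2) (nat_lit 4)) (T.ts (nat_lit 0) (T.ls (nat_lit 2) (nat_lit 3)) (T.ts (nat_lit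 3) (T.im (nat_lit 7) (nat_lit 2)) T.ie))))) (T.ts (nat_lit 3) (T.im (nat_lit 7) (nat_lit 1)) T.ie))))) d800))
def d802 : T := (T.ts (nat_lit 3) (T.ts (nat_lit 3) (T.ts (nat_lit 2) (T.ts (nat_lit 2) (T.ls (nat_lit 2) (nat_lit 3)) (T.ts (nat_lit 1) (T.ls (nat_lit 3) (nat_lit 4)) (T.ts (nat_lit 0) (T.ls (nat_lit 2) (nat_lit 4)) (T.ts (nat_lit 3) (T.im (nat_lit 7) (nat_lit 2)) (T.nw (T.ls (nat_lit 2) (nat_lit 3))))))) (T.ts (nat_lit 1) (T.ts (nat_lit 2) (T.ls (nat_lit 2) (nat_lit 3)) (T.ts (nat_lit 1) (T.ls (nat_lit 3) (nat_lit 4)) (T.ts (nat_lit 0) (T.ls (nat_lit 2) (nat_lit 4)) (T.ts (nat_lit 3) (T.im (nat_lit 5) (nat_lit 3)) (T.nw (T.ls (nat_lit 2) (nat_lit 3))))))) (T.ts (nat_lit 0) (T.ts (nat_lit 2) (T.ls (nat_lit 2) (nat_lit 3)) (T.ts (nat_lit 1) (T.ls (nat_lit 3) (nat_lit 4)) (T.ts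 (nat_lit 0) (T.ls (nat_lit 2) (nat_lit 4)) (T.ts (nat_lit 3) (T.im (nat_lit 7) (nat_lit 2)) (T.nw (T.ls (nat_lit 2) (nat_lit 3))))))) (T.ts (nat_lit 3) (T.im (nat_lit 7) (nat_lit 1)) (T.nw (T.ts (nat_lit 3) (T.ls (nat_lit 2) (nat_lit 3)) (T.ts (nat_lit 2) (T.ls (nat_lit 3) (nat_lit 4)) (T.ts (nat_lit 1) (T.ls (nat_lit 2) (nat_lit 4)) (T.ts (nat_lit 0) (T.ls (nat_lit 2) (nat_lit 3)) (T.ts (nat_lit 4) (T.im (nat_lit 7) (nat_lit 2)) T.ie)))))))))) d796) (T.ts (nat_lit 2) d798 (T.ts (nat_lit 0) (T.ts (nat_lit 2) (T.ts (nat_lit 3) (T.ts (nat_lit 3) (T.ls (nat_lit 2) (nat_lit 3)) (T.ts (nat_lit 1) (T.ls (nat_lit 3) (nat_lit 4)) (T.ts (nat_lit 0) (T.ls (nat_lit 2) (nat_lit 4)) (T.ts (nat_lit 2) (T.im (nat_lit 7) (nat_lit 2)) (T.nw (T.ls (nat_lit 2) (nat_lit 3))))))) (T.ts (nat_lit 1) (T.ts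 (nat_lit 3) (T.ls (nat_lit 3) (nat_lit 4)) (T.ts (nat_lit 1) (T.ls (nat_lit 3) (nat_lit 4)) (T.ts (nat_lit 2) (T.im (nat_lit 7) (nat_lit 2)) (T.ts (nat_lit 0) (T.im (nat_lit 5) (nat_lit 3)) (T.nw (T.ls (nat_lit 2) (nat_lit 3))))))) (T.ts (nat_lit 0) (T.ts (nat_lit 3) (T.ls (nat_lit 2) (nat_lit 4)) (T.ts (nat_lit 1) (T.ls (nat_lit 3) (nat_lit 4)) (T.ts (nat_lit 0) (T.ls (nat_lit 2) (nat_lit 4)) (T.ts (nat_lit 2) (T.im (nat_lit 7) (nat_lit 2)) (T.nw (T.ls (nat_lit 2) (nat_lit 3))))))) (T.ts (nat_lit 2) (T.im (nat_lit 7) (nat_lit 1)) (T.nw (T.ts (nat_lit 4) (T.ls (nat_lit 2) (nat_lit 3)) (T.ts (nat_lit 2) (T.ls (nat_lit 3) (nat_lit 4)) (T.ts (nat_lit 1) (T.ls (nat_lit 2) (nat_lit 4)) (T.ts (nat_lit 0) (T.ls (nat_lit 2) (nat_lit 3)) (T.ts (nat_lit 3) (T.im (nat_lit 7) (nat_lit 2)) T.ie))))))))))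 d799) (T.ts (nat_lit 1) (T.im (nat_lit 5) (nat_lit 1)) (T.nw d801)))))
def d803 : T := (T.ts (nat_lit 4) (T.ts (nat_lit 4) (T.ls (nat_lit 2) (nat_lit 3)) (T.ts (nat_lit 2) (T.ls (nat_lit 3) (nat_lit 4)) (T.ts (nat_lit 1) (T.ls (nat_lit 2) (nat_lit 4)) (T.ts (nat_lit 0) (T.ls (nat_lit 2) (nat_lit 3)) (T.ts (nat_lit 3) (T.im (nat_lit 7) (nat_lit 2)) T.ie))))) (T.ts (nat_lit 2) (T.ts (nat_lit 4) (T.ls (nat_lit 3) (nat_lit 4)) (T.ts (nat_lit 2) (T.ls (nat_lit 3) (nat_lit 4)) (T.ts (nat_lit 1) (T.ts (nat_lit 4) (T.ts (nat_lit 3) (T.ts (nat_lit 2) (T.ts (nat_lit 1) (T.im (nat_lit 7) (nat_lit 4)) (T.sk (T.ls (nat_lit 2) (nat_lit 3)))) (T.sk (T.ls (nat_lit 2) (nat_lit 3)))) (T.sk (T.ls (nat_lit 2) (nat_lit 3)))) (T.sk (T.ls (nat_lit 2) (nat_lit 3)))) (T.ts (nat_lit 0) (T.ls (nat_lit 2) (nat_lit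 3)) (T.ts (nat_lit 3) (T.im (nat_lit 7) (nat_lit 2)) T.ie))))) (T.ts (nat_lit 1) (T.ts (nat_lit 4) (T.ls (nat_lit 2) (nat_lit 4)) (T.ts (nat_lit 2) (T.ls (nat_lit 3) (nat_lit 4)) (T.ts (nat_lit 1) (T.ls (nat_lit 2) (nat_lit 4)) (T.ts (nat_lit 0) (T.ls (nat_lit 2) (nat_lit 3)) (T.ts (nat_lit 3) (T.im (nat_lit 7) (nat_lit 2)) T.ie))))) (T.ts (nat_lit 0) (T.ts (nat_lit 2) (T.ls (nat_lit 3) (nat_lit 4)) (T.ts (nat_lit 1) (T.ls (nat_lit 2) (nat_lit 4)) (T.ts (nat_lit 0) (T.ls (nat_lit 2) (nat_lit 3)) (T.ts (nat_lit 4) (T.im (nat_lit 5) (nat_lit 3)) (T.ts (nat_lit 3) (T.im (nat_lit 7) (nat_lit 2)) T.ie))))) (T.ts (nat_lit 3) (T.im (nat_lit 7) (nat_lit 1)) T.ie)))))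
def d804 : T := (T.ts (nat_lit 2) (T.ts (nat_lit 4) (T.ts (nat_lit 4) (T.ls (nat_lit 2) (nat_lit 3)) (T.ts (nat_lit 3) (T.ls (nat_lit 3) (nat_lit 4)) (T.ts (nat_lit 1) (T.ls (nat_lit 2) (nat_lit 4)) (T.ts (nat_lit 0) (T.ls (nat_lit 2) (nat_lit 3)) (T.ts (nat_lit 2) (T.im (nat_lit 7) (nat_lit 2)) T.ie))))) (T.ts (nat_lit 3) (T.ts (nat_lit 4) (T.ls (nat_lit 2) (nat_lit 3)) (T.ts (nat_lit 3) (T.ls (nat_lit 2) (nat_lit 3)) (T.ts (nat_lit 1) (T.ls (nat_lit 2) (nat_lit 4)) (T.ts (nat_lit 0) (T.ls (nat_lit 2) (nat_lit 3)) (T.ts (nat_lit 2) (T.im (nat_lit 7) (nat_lit 2)) T.ie))))) (T.ts (nat_lit 1) (T.ts (nat_lit 4) (T.ls (nat_lit 2) (nat_lit 4)) (T.ts (nat_lit 3) (T.ls (nat_lit 2) (nat_lit 3)) (T.ts (nat_lit 1) (T.ls (nat_lit 2) (nat_lit 4)) (T.ts (nat_lit 0) (T.ls (nat_lit 2) (nat_lit 3))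 (T.ts (nat_lit 2) (T.im (nat_lit 7) (nat_lit 2)) T.ie))))) (T.ts (nat_lit 0) (T.ts (nat_lit 3) (T.ls (nat_lit 2) (nat_lit 3)) (T.ts (nat_lit 1) (T.ls (nat_lit 2) (nat_lit 4)) (T.ts (nat_lit 0) (T.ls (nat_lit 2) (nat_lit 3)) (T.ts (nat_lit 4) (T.im (nat_lit 5) (nat_lit 3)) (T.ts (nat_lit 2) (T.im (nat_lit 7) (nat_lit 2)) T.ie))))) (T.ts (nat_lit 2) (T.im (nat_lit 7) (nat_lit 1)) T.ie))))) (T.ts (nat_lit 1) (T.ts (nat_lit 4) (T.ts (nat_lit 4) (T.ls (nat_lit 2) (nat_lit 3)) (T.ts (nat_lit 3) (T.ls (nat_lit 2) (nat_lit 4)) (T.ts (nat_lit 2) (T.ls (nat_lit 3) (nat_lit 4)) (T.ts (nat_lit 1) (T.im (nat_lit 7) (nat_lit 2)) (T.ts (nat_lit 0) (T.im (nat_lit 3) (nat_lit 4)) T.ie))))) (T.ts (nat_lit 3) (T.ts (nat_lit 4) (T.ls (nat_lit 2) (nat_lit 3)) (T.ts (nat_lit 3) (T.ls (nat_lit 2) (nat_lit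 3)) (T.ts (nat_lit 2) (T.ls (nat_lit 3) (nat_lit 4)) (T.ts (nat_lit 0) (T.ls (nat_lit 2) (nat_lit 3)) (T.ts (nat_lit 1) (T.im (nat_lit 7) (nat_lit 2)) T.ie))))) (T.ts (nat_lit 2) (T.ts (nat_lit 4) (T.ls (nat_lit 3) (nat_lit 4)) (T.ts (nat_lit 3) (T.ls (nat_lit 2) (nat_lit 3)) (T.ts (nat_lit 2) (T.ls (nat_lit 3) (nat_lit 4)) (T.ts (nat_lit 0) (T.ls (nat_lit 2) (nat_lit 3)) (T.ts (nat_lit 1) (T.im (nat_lit 7) (nat_lit 2)) T.ie))))) (T.ts (nat_lit 0) (T.ts (nat_lit 3) (T.ls (nat_lit 2) (nat_lit 3)) (T.ts (nat_lit 2) (T.ls (nat_lit 3) (nat_lit 4)) (T.ts (nat_lit 0) (T.ls (nat_lit 2) (nat_lit 3)) (T.ts (nat_lit 4) (T.im (nat_lit 5) (nat_lit 3)) (T.ts (nat_lit 1) (T.im (nat_lit 7) (nat_lit 2)) T.ie))))) (T.ts (nat_lit 1) (T.im (nat_lit 7) (nat_lit 1)) T.ie))))) (T.ts (nat_lit 0) (T.im (nat_lit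 5) (nat_lit 2)) T.ie)))
def d805 : T := (T.ts (nat_lit 2) (T.ts (nat_lit 4) (T.ts (nat_lit 4) (T.ls (nat_lit 2) (nat_lit 3)) (T.ts (nat_lit 3) (T.ls (nat_lit 3) (nat_lit 4)) (T.ts (nat_lit 1) (T.ls (nat_lit 2) (nat_lit 4)) (T.ts (nat_lit 0) (T.ls (nat_lit 2) (nat_lit 3)) (T.ts (nat_lit 2) (T.im (nat_lit 7) (nat_lit 2)) T.ie))))) (T.ts (nat_lit 3) (T.ts (nat_lit 4) (T.ls (nat_lit 2) (nat_lit 3)) (T.ts (nat_lit 3) (T.ls (nat_lit 2) (nat_lit 3)) (T.ts (nat_lit 1) (T.ls (nat_lit 2) (nat_lit 4)) (T.ts (nat_lit 0) (T.ls (nat_lit 2) (nat_lit 3)) (T.ts (nat_lit 2) (T.im (nat_lit 7) (nat_lit 2)) T.ie))))) (T.ts (nat_lit 1) (T.ts (nat_lit 3) (T.ls (nat_lit 2) (nat_lit 3)) (T.ts (nat_lit 1) (T.ls (nat_lit 2) (nat_lit 4)) (T.ts (nat_lit 0) (T.ls (nat_lit 2) (nat_lit 3)) (T.ts (nat_lit 4) (T.im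 (nat_lit 1) (nat_lit 5)) (T.ts (nat_lit 2) (T.im (nat_lit 7) (nat_lit 2)) T.ie))))) (T.ts (nat_lit 0) (T.ts (nat_lit 4) (T.ls (nat_lit 2) (nat_lit 3)) (T.ts (nat_lit 1) (T.ls (nat_lit 2) (nat_lit 4)) (T.ts (nat_lit 0) (T.ls (nat_lit 2) (nat_lit 3)) (T.ts (nat_lit 3) (T.im (nat_lit 5) (nat_lit 3)) (T.ts (nat_lit 2) (T.im (nat_lit 7) (nat_lit 2)) T.ie))))) (T.ts (nat_lit 2) (T.im (nat_lit 7) (nat_lit 1)) T.ie))))) (T.ts (nat_lit 1) (T.ts (nat_lit 4) (T.ts (nat_lit 4) (T.ls (nat_lit 2) (nat_lit 3)) (T.ts (nat_lit 3) (T.ls (nat_lit 2) (nat_lit 4)) (T.ts (nat_lit 2) (T.ls (nat_lit 3) (nat_lit 4)) (T.ts (nat_lit 1) (T.im (nat_lit 7) (nat_lit 2)) (T.ts (nat_lit 0) (T.im (nat_lit 3) (nat_lit 4)) T.ie))))) (T.ts (nat_lit 3) (T.ts (nat_lit 4) (T.ls (nat_lit 2) (nat_lit 3)) (T.ts (nat_lit 3)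 (T.ls (nat_lit 2) (nat_lit 3)) (T.ts (nat_lit 2) (T.ls (nat_lit 3) (nat_lit 4)) (T.ts (nat_lit 0) (T.ls (nat_lit 2) (nat_lit 3)) (T.ts (nat_lit 1) (T.im (nat_lit 7) (nat_lit 2)) T.ie))))) (T.ts (nat_lit 2) (T.ts (nat_lit 4) (T.ls (nat_lit 3) (nat_lit 4)) (T.ts (nat_lit 3) (T.ls (nat_lit 2) (nat_lit 3)) (T.ts (nat_lit 2) (T.ls (nat_lit 3) (nat_lit 4)) (T.ts (nat_lit 0) (T.ls (nat_lit 2) (nat_lit 3)) (T.ts (nat_lit 1) (T.im (nat_lit 7) (nat_lit 2)) T.ie))))) (T.ts (nat_lit 0) (T.ts (nat_lit 4) (T.ls (nat_lit 2) (nat_lit 3)) (T.ts (nat_lit 2) (T.ls (nat_lit 3) (nat_lit 4)) (T.ts (nat_lit 0) (T.ls (nat_lit 2) (nat_lit 3)) (T.ts (nat_lit 3) (T.im (nat_lit 5) (nat_lit 3)) (T.ts (nat_lit 1) (T.im (nat_lit 7) (nat_lit 2)) T.ie))))) (T.ts (nat_lit 1) (T.im (nat_lit 7) (nat_lit 1)) T.ie)))))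 (T.ts (nat_lit 0) (T.im (nat_lit 5) (nat_lit 2)) T.ie)))
def d806 : T := (T.ts (nat_lit 4) (T.ts (nat_lit 3) (T.ts (nat_lit 3) (T.ls (nat_lit 2) (nat_lit 3)) (T.ts (nat_lit 2) (T.ls (nat_lit 3) (nat_lit 4)) (T.ts (nat_lit 1) (T.ls (nat_lit 2) (nat_lit 4)) (T.ts (nat_lit 0) (T.ls (nat_lit 2) (nat_lit 3)) (T.ts (nat_lit 4) (T.im (nat_lit 7) (nat_lit 2)) T.ie))))) (T.ts (nat_lit 2) (T.ts (nat_lit 3) (T.ls (nat_lit 2) (nat_lit 3)) (T.ts (nat_lit 2) (T.ls (nat_lit 3) (nat_lit 4)) (T.ts (nat_lit 1) (T.ls (nat_lit 2) (nat_lit 4)) (T.ts (nat_lit 0) (T.ls (nat_lit 2) (nat_lit 3)) (T.ts (nat_lit 4) (T.im (nat_lit 7) (nat_lit 2)) T.ie))))) (T.ts (nat_lit 1) (T.ts (nat_lit 3) (T.ls (nat_lit 2) (nat_lit 3)) (T.ts (nat_lit 2) (T.ls (nat_lit 3) (nat_lit 4)) (T.ts (nat_lit 1) (T.ls (nat_lit 2) (nat_lit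 4)) (T.ts (nat_lit 0) (T.ls (nat_lit 2) (nat_lit 3)) (T.ts (nat_lit 4) (T.im (nat_lit 7) (nat_lit 2)) T.ie))))) (T.ts (nat_lit 0) (T.ts (nat_lit 2) (T.ls (nat_lit 3) (nat_lit 4)) (T.ts (nat_lit 1) (T.ls (nat_lit 2) (nat_lit 4)) (T.ts (nat_lit 0) (T.ls (nat_lit 2) (nat_lit 3)) (T.ts (nat_lit 4) (T.im (nat_lit 7) (nat_lit 2)) (T.ts (nat_lit 3) (T.im (nat_lit 5) (nat_lit 3)) T.ie))))) (T.ts (nat_lit 4) (T.im (nat_lit 7) (nat_lit 1)) T.ie))))) (T.ts (nat_lit 3) (T.ts (nat_lit 4) (T.ts (nat_lit 4) (T.ls (nat_lit 2) (nat_lit 3)) (T.ts (nat_lit 2) (T.ls (nat_lit 3) (nat_lit 4)) (T.ts (nat_lit 1) (T.ls (nat_lit 2) (nat_lit 4)) (T.ts (nat_lit 0) (T.ls (nat_lit 2) (nat_lit 3)) (T.ts (nat_lit 3) (T.im (nat_lit 7) (nat_lit 2)) T.ie))))) (T.ts (nat_lit 2) (T.ts (nat_lit 4) (T.ls (nat_lit 3) (nat_lit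 4)) (T.ts (nat_lit 2) (T.ls (nat_lit 3) (nat_lit 4)) (T.ts (nat_lit 1) (T.ls (nat_lit 2) (nat_lit 4)) (T.ts (nat_lit 0) (T.ls (nat_lit 2) (nat_lit 3)) (T.ts (nat_lit 3) (T.im (nat_lit 7) (nat_lit 2)) T.ie))))) (T.ts (nat_lit 1) (T.ts (nat_lit 4) (T.ls (nat_lit 2) (nat_lit 4)) (T.ts (nat_lit 2) (T.ls (nat_lit 3) (nat_lit 4)) (T.ts (nat_lit 1) (T.ls (nat_lit 2) (nat_lit 4)) (T.ts (nat_lit 0) (T.ls (nat_lit 2) (nat_lit 3)) (T.ts (nat_lit 3) (T.im (nat_lit 7) (nat_lit 2)) T.ie))))) (T.ts (nat_lit 0) (T.ts (nat_lit 4) (T.ls (nat_lit 2) (nat_lit 3)) (T.ts (nat_lit 2) (T.ls (nat_lit 3) (nat_lit 4)) (T.ts (nat_lit 1) (T.ls (nat_lit 2) (nat_lit 4)) (T.ts (nat_lit 0) (T.ls (nat_lit 2) (nat_lit 3)) (T.ts (nat_lit 3) (T.im (nat_lit 5) (nat_lit 3)) T.ie))))) (T.ts (nat_lit 3) (T.im (nat_lit 7)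 (nat_lit 1)) T.ie))))) d805))
def d807 : T := (T.ts (nat_lit 2) (T.ts (nat_lit 4) (T.ts (nat_lit 4) (T.ls (nat_lit 2) (nat_lit 3)) (T.ts (nat_lit 3) (T.ls (nat_lit 3) (nat_lit 4)) (T.ts (nat_lit 1) (T.ls (nat_lit 2) (nat_lit 4)) (T.ts (nat_lit 0) (T.ls (nat_lit 2) (nat_lit 3)) (T.ts (nat_lit 2) (T.im (nat_lit 7) (nat_lit 2)) T.ie))))) (T.ts (nat_lit 3) (T.ts (nat_lit 4) (T.ls (nat_lit 2) (nat_lit 3)) (T.ts (nat_lit 3) (T.ls (nat_lit 2) (nat_lit 3)) (T.ts (nat_lit 1) (T.ls (nat_lit 2) (nat_lit 4)) (T.ts (nat_lit 0) (T.ls (nat_lit 2) (nat_lit 3)) (T.ts (nat_lit 2) (T.im (nat_lit 7) (nat_lit 2)) T.ie))))) (T.ts (nat_lit 1) (T.ts (nat_lit 4) (T.ls (nat_lit 2) (nat_lit 4)) (T.ts (nat_lit 3) (T.ls (nat_lit 2) (nat_lit 3)) (T.ts (nat_lit 1) (T.ls (nat_lit 2) (nat_lit 4)) (T.ts (nat_lit 0)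 (T.ls (nat_lit 2) (nat_lit 3)) (T.ts (nat_lit 2) (T.im (nat_lit 7) (nat_lit 2)) T.ie))))) (T.ts (nat_lit 0) (T.ts (nat_lit 4) (T.ls (nat_lit 2) (nat_lit 3)) (T.ts (nat_lit 3) (T.ls (nat_lit 2) (nat_lit 3)) (T.ts (nat_lit 1) (T.ls (nat_lit 2) (nat_lit 4)) (T.ts (nat_lit 0) (T.ls (nat_lit 2) (nat_lit 3)) (T.ts (nat_lit 2) (T.im (nat_lit 5) (nat_lit 3)) T.ie))))) (T.ts (nat_lit 2) (T.im (nat_lit 7) (nat_lit 1)) T.ie))))) (T.ts (nat_lit 1) (T.ts (nat_lit 4) (T.ts (nat_lit 4) (T.ls (nat_lit 2) (nat_lit 3)) (T.ts (nat_lit 3) (T.ls (nat_lit 2) (nat_lit 4)) (T.ts (nat_lit 2) (T.ls (nat_lit 3) (nat_lit 4)) (T.ts (nat_lit 1) (T.im (nat_lit 7) (nat_lit 2)) (T.ts (nat_lit 0) (T.im (nat_lit 3) (nat_lit 4)) T.ie))))) (T.ts (nat_lit 3) (T.ts (nat_lit 4) (T.ls (nat_lit 2) (nat_lit 3)) (T.ts (nat_lit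 3) (T.ls (nat_lit 2) (nat_lit 3)) (T.ts (nat_lit 2) (T.ls (nat_lit 3) (nat_lit 4)) (T.ts (nat_lit 0) (T.ls (nat_lit 2) (nat_lit 3)) (T.ts (nat_lit 1) (T.im (nat_lit 7) (nat_lit 2)) T.ie))))) (T.ts (nat_lit 2) (T.ts (nat_lit 4) (T.ls (nat_lit 3) (nat_lit 4)) (T.ts (nat_lit 3) (T.ls (nat_lit 2) (nat_lit 3)) (T.ts (nat_lit 2) (T.ls (nat_lit 3) (nat_lit 4)) (T.ts (nat_lit 0) (T.ls (nat_lit 2) (nat_lit 3)) (T.ts (nat_lit 1) (T.im (nat_lit 7) (nat_lit 2)) T.ie))))) (T.ts (nat_lit 0) (T.ts (nat_lit 4) (T.ls (nat_lit 2) (nat_lit 3)) (T.ts (nat_lit 3) (T.ls (nat_lit 2) (nat_lit 3)) (T.ts (nat_lit 0) (T.ls (nat_lit 2) (nat_lit 3)) (T.ts (nat_lit 2) (T.im (nat_lit 5) (nat_lit 3)) (T.ts (nat_lit 1) (T.im (nat_lit 7) (nat_lit 2)) T.ie))))) (T.ts (nat_lit 1) (T.im (nat_lit 7) (nat_lit 1)) T.ie)))))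 (T.ts (nat_lit 0) (T.im (nat_lit 5) (nat_lit 2)) T.ie)))
def d808 : T := (T.ts (nat_lit 4) (T.ts (nat_lit 3) (T.ts (nat_lit 3) (T.ls (nat_lit 2) (nat_lit 3)) (T.ts (nat_lit 2) (T.ls (nat_lit 3) (nat_lit 4)) (T.ts (nat_lit 1) (T.ls (nat_lit 2) (nat_lit 4)) (T.ts (nat_lit 0) (T.ls (nat_lit 2) (nat_lit 3)) (T.ts (nat_lit 4) (T.im (nat_lit 7) (nat_lit 2)) T.ie))))) (T.ts (nat_lit 2) (T.ts (nat_lit 3) (T.ls (nat_lit 2) (nat_lit 3)) (T.ts (nat_lit 2) (T.ls (nat_lit 3) (nat_lit 4)) (T.ts (nat_lit 1) (T.ls (nat_lit 2) (nat_lit 4)) (T.ts (nat_lit 0) (T.ls (nat_lit 2) (nat_lit 3)) (T.ts (nat_lit 4) (T.im (nat_lit 7) (nat_lit 2)) T.ie))))) (T.ts (nat_lit 1) (T.ts (nat_lit 3) (T.ls (nat_lit 2) (nat_lit 3)) (T.ts (nat_lit 2) (T.ls (nat_lit 3) (nat_lit 4)) (T.ts (nat_lit 1) (T.ls (nat_lit 2) (nat_lit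 4)) (T.ts (nat_lit 0) (T.ls (nat_lit 2) (nat_lit 3)) (T.ts (nat_lit 4) (T.im (nat_lit 7) (nat_lit 2)) T.ie))))) (T.ts (nat_lit 0) (T.ts (nat_lit 3) (T.ls (nat_lit 2) (nat_lit 3)) (T.ts (nat_lit 1) (T.ls (nat_lit 2) (nat_lit 4)) (T.ts (nat_lit 0) (T.ls (nat_lit 2) (nat_lit 3)) (T.ts (nat_lit 4) (T.im (nat_lit 7) (nat_lit 2)) (T.ts (nat_lit 2) (T.im (nat_lit 5) (nat_lit 3)) T.ie))))) (T.ts (nat_lit 4) (T.im (nat_lit 7) (nat_lit 1)) T.ie))))) (T.ts (nat_lit 3) (T.ts (nat_lit 4) (T.ts (nat_lit 4) (T.ls (nat_lit 2) (nat_lit 3)) (T.ts (nat_lit 2) (T.ls (nat_lit 3) (nat_lit 4)) (T.ts (nat_lit 1) (T.ls (nat_lit 2) (nat_lit 4)) (T.ts (nat_lit 0) (T.ls (nat_lit 2) (nat_lit 3)) (T.ts (nat_lit 3) (T.im (nat_lit 7) (nat_lit 2)) T.ie))))) (T.ts (nat_lit 2) (T.ts (nat_lit 4) (T.ls (nat_lit 3) (nat_lit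 4)) (T.ts (nat_lit 2) (T.ls (nat_lit 3) (nat_lit 4)) (T.ts (nat_lit 1) (T.ls (nat_lit 2) (nat_lit 4)) (T.ts (nat_lit 0) (T.ls (nat_lit 2) (nat_lit 3)) (T.ts (nat_lit 3) (T.im (nat_lit 7) (nat_lit 2)) T.ie))))) (T.ts (nat_lit 1) (T.ts (nat_lit 4) (T.ls (nat_lit 2) (nat_lit 4)) (T.ts (nat_lit 2) (T.ls (nat_lit 3) (nat_lit 4)) (T.ts (nat_lit 1) (T.ls (nat_lit 2) (nat_lit 4)) (T.ts (nat_lit 0) (T.ls (nat_lit 2) (nat_lit 3)) (T.ts (nat_lit 3) (T.im (nat_lit 7) (nat_lit 2)) T.ie))))) (T.ts (nat_lit 0) (T.ts (nat_lit 4) (T.ls (nat_lit 2) (nat_lit 3)) (T.ts (nat_lit 1) (T.ls (nat_lit 2) (nat_lit 4)) (T.ts (nat_lit 0) (T.ls (nat_lit 2) (nat_lit 3)) (T.ts (nat_lit 3) (T.im (nat_lit 7) (nat_lit 2)) (T.ts (nat_lit 2) (T.im (nat_lit 5) (nat_lit 3)) T.ie))))) (T.ts (nat_lit 3) (T.im (nat_lit 7)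 (nat_lit 1)) T.ie))))) d807))
def d809 : T := (T.ts (nat_lit 2) (T.ts (nat_lit 4) (T.ts (nat_lit 4) (T.ls (nat_lit 2) (nat_lit 3)) (T.ts (nat_lit 3) (T.ls (nat_lit 3) (nat_lit 4)) (T.ts (nat_lit 1) (T.ls (nat_lit 2) (nat_lit 4)) (T.ts (nat_lit 0) (T.ls (nat_lit 2) (nat_lit 3)) (T.ts (nat_lit 2) (T.im (nat_lit 7) (nat_lit 2)) T.ie))))) (T.ts (nat_lit 3) (T.ts (nat_lit 4) (T.ls (nat_lit 2) (nat_lit 3)) (T.ts (nat_lit 3) (T.ls (nat_lit 2) (nat_lit 3)) (T.ts (nat_lit 1) (T.ls (nat_lit 2) (nat_lit 4)) (T.ts (nat_lit 0) (T.ls (nat_lit 2) (nat_lit 3)) (T.ts (nat_lit 2) (T.im (nat_lit 7) (nat_lit 2)) T.ie))))) (T.ts (nat_lit 1) (T.ts (nat_lit 4) (T.ls (nat_lit 2) (nat_lit 4)) (T.ts (nat_lit 3) (T.ls (nat_lit 2) (nat_lit 3)) (T.ts (nat_lit 1) (T.ls (nat_lit 2) (nat_lit 4)) (T.ts (nat_lit 0)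 (T.ls (nat_lit 2) (nat_lit 3)) (T.ts (nat_lit 2) (T.im (nat_lit 7) (nat_lit 2)) T.ie))))) (T.ts (nat_lit 0) (T.ts (nat_lit 4) (T.ls (nat_lit 2) (nat_lit 3)) (T.ts (nat_lit 3) (T.ls (nat_lit 2) (nat_lit 3)) (T.ts (nat_lit 0) (T.ls (nat_lit 2) (nat_lit 3)) (T.ts (nat_lit 2) (T.im (nat_lit 7) (nat_lit 2)) (T.ts (nat_lit 1) (T.im (nat_lit 5) (nat_lit 3)) T.ie))))) (T.ts (nat_lit 2) (T.im (nat_lit 7) (nat_lit 1)) T.ie))))) (T.ts (nat_lit 1) (T.ts (nat_lit 4) (T.ts (nat_lit 4) (T.ls (nat_lit 2) (nat_lit 3)) (T.ts (nat_lit 3) (T.ls (nat_lit 2) (nat_lit 4)) (T.ts (nat_lit 2) (T.ls (nat_lit 3) (nat_lit 4)) (T.ts (nat_lit 1) (T.im (nat_lit 7) (nat_lit 2)) (T.ts (nat_lit 0) (T.im (nat_lit 3) (nat_lit 4)) T.ie))))) (T.ts (nat_lit 3) (T.ts (nat_lit 4) (T.ls (nat_lit 2) (nat_lit 3)) (T.ts (nat_lit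 3) (T.ls (nat_lit 2) (nat_lit 3)) (T.ts (nat_lit 2) (T.ls (nat_lit 3) (nat_lit 4)) (T.ts (nat_lit 0) (T.ls (nat_lit 2) (nat_lit 3)) (T.ts (nat_lit 1) (T.im (nat_lit 7) (nat_lit 2)) T.ie))))) (T.ts (nat_lit 2) (T.ts (nat_lit 4) (T.ls (nat_lit 3) (nat_lit 4)) (T.ts (nat_lit 3) (T.ls (nat_lit 2) (nat_lit 3)) (T.ts (nat_lit 2) (T.ls (nat_lit 3) (nat_lit 4)) (T.ts (nat_lit 0) (T.ls (nat_lit 2) (nat_lit 3)) (T.ts (nat_lit 1) (T.im (nat_lit 7) (nat_lit 2)) T.ie))))) (T.ts (nat_lit 0) (T.ts (nat_lit 4) (T.ls (nat_lit 2) (nat_lit 3)) (T.ts (nat_lit 3) (T.ls (nat_lit 2) (nat_lit 3)) (T.ts (nat_lit 2) (T.ls (nat_lit 3) (nat_lit 4)) (T.ts (nat_lit 0) (T.ls (nat_lit 2) (nat_lit 3)) (T.ts (nat_lit 1) (T.im (nat_lit 5) (nat_lit 3)) T.ie))))) (T.ts (nat_lit 1) (T.im (nat_lit 7) (nat_lit 1)) T.ie)))))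 (T.ts (nat_lit 4) (T.im (nat_lit 3) (nat_lit 3)) (T.ts (nat_lit 0) (T.im (nat_lit 5) (nat_lit 2)) T.ie))))
def d810 : T := (T.ts (nat_lit 3) d806 (T.ts (nat_lit 2) d808 (T.ts (nat_lit 1) (T.ts (nat_lit 3) (T.ts (nat_lit 4) (T.ts (nat_lit 4) (T.ls (nat_lit 2) (nat_lit 3)) (T.ts (nat_lit 2) (T.ls (nat_lit 3) (nat_lit 4)) (T.ts (nat_lit 1) (T.ls (nat_lit 2) (nat_lit 4)) (T.ts (nat_lit 0) (T.ls (nat_lit 2) (nat_lit 3)) (T.ts (nat_lit 3) (T.im (nat_lit 7) (nat_lit 2)) T.ie))))) (T.ts (nat_lit 2) (T.ts (nat_lit 4) (T.ls (nat_lit 3) (nat_lit 4)) (T.ts (nat_lit 2) (T.ls (nat_lit 3) (nat_lit 4)) (T.ts (nat_lit 1) (T.ls (nat_lit 2) (nat_lit 4)) (T.ts (nat_lit 0) (T.ls (nat_lit 2) (nat_lit 3)) (T.ts (nat_lit 3) (T.im (nat_lit 7) (nat_lit 2)) T.ie))))) (T.ts (nat_lit 1) (T.ts (nat_lit 4) (T.ls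 (nat_lit 2) (nat_lit 4)) (T.ts (nat_lit 2) (T.ls (nat_lit 3) (nat_lit 4)) (T.ts (nat_lit 1) (T.ls (nat_lit 2) (nat_lit 4)) (T.ts (nat_lit 0) (T.ls (nat_lit 2) (nat_lit 3)) (T.ts (nat_lit 3) (T.im (nat_lit 7) (nat_lit 2)) T.ie))))) (T.ts (nat_lit 0) (T.ts (nat_lit 4) (T.ls (nat_lit 2) (nat_lit 3)) (T.ts (nat_lit 2) (T.ls (nat_lit 3) (nat_lit 4)) (T.ts (nat_lit 0) (T.ls (nat_lit 2) (nat_lit 3)) (T.ts (nat_lit 3) (T.im (nat_lit 7) (nat_lit 2)) (T.ts (nat_lit 1) (T.im (nat_lit 5) (nat_lit 3)) T.ie))))) (T.ts (nat_lit 3) (T.im (nat_lit 7) (nat_lit 1)) T.ie))))) d809) (T.ts (nat_lit 0) (T.im (nat_lit 5) (nat_lit 1)) T.ie))))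
def d811 : T := (T.ts (nat_lit 0) (T.im (nat_lit 3) (nat_lit 2)) (T.nw (T.ts (nat_lit 4) (T.ts (nat_lit 4) (T.ts (nat_lit 3) (T.ts (nat_lit 3) (T.ls (nat_lit 2) (nat_lit 3)) (T.ts (nat_lit 2) (T.ls (nat_lit 3) (nat_lit 4)) (T.ts (nat_lit 1) (T.ls (nat_lit 2) (nat_lit 4)) (T.ts (nat_lit 0) (T.ls (nat_lit 2) (nat_lit 3)) (T.ts (nat_lit 4) (T.im (nat_lit 7) (nat_lit 2)) T.ie))))) (T.ts (nat_lit 2) (T.ts (nat_lit 3) (T.ls (nat_lit 2) (nat_lit 3)) (T.ts (nat_lit 2) (T.ls (nat_lit 3) (nat_lit 4)) (T.ts (nat_lit 1) (T.ls (nat_lit 2) (nat_lit 4)) (T.ts (nat_lit 0) (T.ls (nat_lit 2) (nat_lit 3)) (T.ts (nat_lit 4) (T.im (nat_lit 7) (nat_lit 2)) T.ie))))) (T.ts (nat_lit 1) (T.ts (nat_lit 3) (T.ls (nat_lit 2) (nat_lit 3)) (T.ts (nat_lit 2) (T.ls (nat_lit 3) (nat_lit 4)) (T.ts (nat_lit 1) (T.ls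 (nat_lit 2) (nat_lit 4)) (T.ts (nat_lit 0) (T.ls (nat_lit 2) (nat_lit 3)) (T.ts (nat_lit 4) (T.im (nat_lit 7) (nat_lit 2)) T.ie))))) (T.ts (nat_lit 0) (T.ts (nat_lit 3) (T.ls (nat_lit 2) (nat_lit 3)) (T.ts (nat_lit 2) (T.ls (nat_lit 3) (nat_lit 4)) (T.ts (nat_lit 1) (T.ls (nat_lit 2) (nat_lit 4)) (T.ts (nat_lit 0) (T.ls (nat_lit 2) (nat_lit 3)) (T.ts (nat_lit 4) (T.im (nat_lit 5) (nat_lit 3)) T.ie))))) (T.ts (nat_lit 4) (T.im (nat_lit 7) (nat_lit 1)) T.ie))))) (T.ts (nat_lit 3) d803 d804)) d810)))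
def d812 : T := (T.ts (nat_lit 0) (T.ts (nat_lit 3) (T.ts (nat_lit 3) (T.ls (nat_lit 2) (nat_lit 3)) (T.ts (nat_lit 1) (T.ls (nat_lit 3) (nat_lit 4)) (T.ts (nat_lit 2) (T.im (nat_lit 5) (nat_lit 3)) (T.ts (nat_lit 0) (T.im (nat_lit 7) (nat_lit 2)) (T.nw (T.ls (nat_lit 2) (nat_lit 3))))))) (T.ts (nat_lit 2) (T.ts (nat_lit 2) (T.ls (nat_lit 2) (nat_lit 3)) (T.ts (nat_lit 1) (T.ls (nat_lit 3) (nat_lit 4)) (T.ts (nat_lit 3) (T.im (nat_lit 3) (nat_lit 4)) (T.ts (nat_lit 0) (T.im (nat_lit 7) (nat_lit 2)) (T.nw (T.ls (nat_lit 2) (nat_lit 3))))))) (T.ts (nat_lit 1) (T.ts (nat_lit 3) (T.ls (nat_lit 3) (nat_lit 4)) (T.ts (nat_lit 2) (T.ls (nat_lit 2) (nat_lit 3)) (T.ts (nat_lit 1) (T.ls (nat_lit 3) (nat_lit 4)) (T.ts (nat_lit 0) (T.im (nat_lit 7) (nat_lit 2)) (T.nw (T.ls (nat_lit 2) (nat_lit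 3))))))) (T.ts (nat_lit 0) (T.im (nat_lit 7) (nat_lit 1)) (T.nw (T.ts (nat_lit 4) (T.ls (nat_lit 2) (nat_lit 3)) (T.ts (nat_lit 3) (T.ls (nat_lit 2) (nat_lit 3)) (T.ts (nat_lit 2) (T.ls (nat_lit 3) (nat_lit 4)) (T.ts (nat_lit 0) (T.ls (nat_lit 2) (nat_lit 3)) (T.ts (nat_lit 1) (T.im (nat_lit 7) (nat_lit 2)) T.ie)))))))))) (T.ts (nat_lit 3) (T.im (nat_lit 5) (nat_lit 2)) (T.nw (T.ts (nat_lit 4) (T.ts (nat_lit 4) (T.ls (nat_lit 2) (nat_lit 3)) (T.ts (nat_lit 2) (T.ls (nat_lit 3) (nat_lit 4)) (T.ts (nat_lit 1) (T.ls (nat_lit 2) (nat_lit 4)) (T.ts (nat_lit 3) (T.im (nat_lit 5) (nat_lit 3)) (T.ts (nat_lit 0) (T.im (nat_lit 7) (nat_lit 2)) T.ie))))) (T.ts (nat_lit 3) (T.ts (nat_lit 4) (T.ls (nat_lit 2) (nat_lit 3)) (T.ts (nat_lit 3) (T.ls (nat_lit 2) (nat_lit 3)) (T.ts (nat_lit 2) (T.ls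 (nat_lit 3) (nat_lit 4)) (T.ts (nat_lit 1) (T.ls (nat_lit 2) (nat_lit 4)) (T.ts (nat_lit 0) (T.im (nat_lit 7) (nat_lit 2)) T.ie))))) (T.ts (nat_lit 2) (T.ts (nat_lit 4) (T.ls (nat_lit 3) (nat_lit 4)) (T.ts (nat_lit 3) (T.ls (nat_lit 2) (nat_lit 3)) (T.ts (nat_lit 2) (T.ls (nat_lit 3) (nat_lit 4)) (T.ts (nat_lit 1) (T.ls (nat_lit 2) (nat_lit 4)) (T.ts (nat_lit 0) (T.im (nat_lit 7) (nat_lit 2)) T.ie))))) (T.ts (nat_lit 1) (T.ts (nat_lit 4) (T.ls (nat_lit 2) (nat_lit 4)) (T.ts (nat_lit 3) (T.ls (nat_lit 2) (nat_lit 3)) (T.ts (nat_lit 2) (T.ls (nat_lit 3) (nat_lit 4)) (T.ts (nat_lit 1) (T.ls (nat_lit 2) (nat_lit 4)) (T.ts (nat_lit 0) (T.im (nat_lit 7) (nat_lit 2)) T.ie))))) (T.ts (nat_lit 0) (T.im (nat_lit 7) (nat_lit 1)) T.ie))))))))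
def d813 : T := (T.ts (nat_lit 2) (T.ts (nat_lit 3) (T.ts (nat_lit 3) (T.ls (nat_lit 2) (nat_lit 3)) (T.ts (nat_lit 1) (T.ls (nat_lit 3) (nat_lit 4)) (T.ts (nat_lit 0) (T.ls (nat_lit 2) (nat_lit 4)) (T.ts (nat_lit 2) (T.im (nat_lit 5) (nat_lit 3)) (T.nw (T.ls (nat_lit 2) (nat_lit 3))))))) (T.ts (nat_lit 1) (T.ts (nat_lit 3) (T.ls (nat_lit 3) (nat_lit 4)) (T.ts (nat_lit 1) (T.ls (nat_lit 3) (nat_lit 4)) (T.ts (nat_lit 0) (T.ls (nat_lit 2) (nat_lit 4)) (T.ts (nat_lit 2) (T.im (nat_lit 7) (nat_lit 2)) (T.nw (T.ls (nat_lit 2) (nat_lit 3))))))) (T.ts (nat_lit 0) (T.ts (nat_lit 3) (T.ls (nat_lit 2) (nat_lit 4)) (T.ts (nat_lit 1) (T.ls (nat_lit 3) (nat_lit 4)) (T.ts (nat_lit 0) (T.ls (nat_lit 2) (nat_lit 4)) (T.ts (nat_lit 2) (T.im (nat_lit 7) (nat_lit 2)) (T.nw (T.ls (nat_lit 2) (nat_lit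 3))))))) (T.ts (nat_lit 2) (T.im (nat_lit 7) (nat_lit 1)) (T.nw (T.ts (nat_lit 4) (T.ls (nat_lit 2) (nat_lit 3)) (T.ts (nat_lit 2) (T.ls (nat_lit 3) (nat_lit 4)) (T.ts (nat_lit 1) (T.ls (nat_lit 2) (nat_lit 4)) (T.ts (nat_lit 0) (T.ls (nat_lit 2) (nat_lit 3)) (T.ts (nat_lit 3) (T.im (nat_lit 7) (nat_lit 2)) T.ie)))))))))) (T.ts (nat_lit 1) (T.ts (nat_lit 3) (T.ts (nat_lit 3) (T.ls (nat_lit 2) (nat_lit 3)) (T.ts (nat_lit 0) (T.ls (nat_lit 2) (nat_lit 4)) (T.ts (nat_lit 2) (T.im (nat_lit 5) (nat_lit 3)) (T.ts (nat_lit 1) (T.im (nat_lit 7) (nat_lit 2)) (T.nw (T.ls (nat_lit 2) (nat_lit 3))))))) (T.ts (nat_lit 2) (T.ts (nat_lit 3) (T.ls (nat_lit 2) (nat_lit 3)) (T.ts (nat_lit 2) (T.ls (nat_lit 2) (nat_lit 3)) (T.ts (nat_lit 0) (T.ls (nat_lit 2) (nat_lit 4)) (T.ts (nat_lit 1) (T.im (nat_lit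 7) (nat_lit 2)) (T.nw (T.ls (nat_lit 2) (nat_lit 3))))))) (T.ts (nat_lit 0) (T.ts (nat_lit 3) (T.ls (nat_lit 2) (nat_lit 4)) (T.ts (nat_lit 0) (T.ls (nat_lit 2) (nat_lit 4)) (T.ts (nat_lit 2) (T.im (nat_lit 1) (nat_lit 5)) (T.ts (nat_lit 1) (T.im (nat_lit 7) (nat_lit 2)) (T.nw (T.ls (nat_lit 2) (nat_lit 3))))))) (T.ts (nat_lit 1) (T.im (nat_lit 7) (nat_lit 1)) (T.nw (T.ts (nat_lit 4) (T.ls (nat_lit 2) (nat_lit 3)) (T.ts (nat_lit 3) (T.ls (nat_lit 2) (nat_lit 3)) (T.ts (nat_lit 1) (T.ls (nat_lit 2) (nat_lit 4)) (T.ts (nat_lit 0) (T.ls (nat_lit 2) (nat_lit 3)) (T.ts (nat_lit 2) (T.im (nat_lit 7) (nat_lit 2)) T.ie)))))))))) d812))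
def d814 : T := (T.ts (nat_lit 0) (T.ts (nat_lit 3) (T.ts (nat_lit 3) (T.ls (nat_lit 2) (nat_lit 3)) (T.ts (nat_lit 2) (T.ls (nat_lit 2) (nat_lit 4)) (T.ts (nat_lit 1) (T.im (nat_lit 5) (nat_lit 3)) (T.ts (nat_lit 0) (T.im (nat_lit 7) (nat_lit 2)) (T.nw (T.ls (nat_lit 2) (nat_lit 3))))))) (T.ts (nat_lit 2) (T.ts (nat_lit 2) (T.ls (nat_lit 2) (nat_lit 3)) (T.ts (nat_lit 1) (T.ls (nat_lit 3) (nat_lit 4)) (T.ts (nat_lit 3) (T.im (nat_lit 3) (nat_lit 4)) (T.ts (nat_lit 0) (T.im (nat_lit 7) (nat_lit 2)) (T.nw (T.ls (nat_lit 2) (nat_lit 3))))))) (T.ts (nat_lit 1) (T.ts (nat_lit 3) (T.ls (nat_lit 3) (nat_lit 4)) (T.ts (nat_lit 2) (T.ls (nat_lit 2) (nat_lit 3)) (T.ts (nat_lit 1) (T.ls (nat_lit 3) (nat_lit 4)) (T.ts (nat_lit 0) (T.im (nat_lit 7) (nat_lit 2)) (T.nw (T.ls (nat_lit 2) (nat_lit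 3))))))) (T.ts (nat_lit 0) (T.im (nat_lit 7) (nat_lit 1)) (T.nw (T.ts (nat_lit 4) (T.ls (nat_lit 2) (nat_lit 3)) (T.ts (nat_lit 3) (T.ls (nat_lit 2) (nat_lit 3)) (T.ts (nat_lit 2) (T.ls (nat_lit 3) (nat_lit 4)) (T.ts (nat_lit 0) (T.ls (nat_lit 2) (nat_lit 3)) (T.ts (nat_lit 1) (T.im (nat_lit 7) (nat_lit 2)) T.ie)))))))))) (T.ts (nat_lit 3) (T.im (nat_lit 5) (nat_lit 2)) (T.nw (T.ts (nat_lit 4) (T.ts (nat_lit 4) (T.ls (nat_lit 2) (nat_lit 3)) (T.ts (nat_lit 3) (T.ls (nat_lit 2) (nat_lit 3)) (T.ts (nat_lit 1) (T.ls (nat_lit 2) (nat_lit 4)) (T.ts (nat_lit 2) (T.im (nat_lit 5) (nat_lit 3)) (T.ts (nat_lit 0) (T.im (nat_lit 7) (nat_lit 2)) T.ie))))) (T.ts (nat_lit 3) (T.ts (nat_lit 4) (T.ls (nat_lit 2) (nat_lit 3)) (T.ts (nat_lit 3) (T.ls (nat_lit 2) (nat_lit 3)) (T.ts (nat_lit 2) (T.ls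 (nat_lit 3) (nat_lit 4)) (T.ts (nat_lit 1) (T.ls (nat_lit 2) (nat_lit 4)) (T.ts (nat_lit 0) (T.im (nat_lit 7) (nat_lit 2)) T.ie))))) (T.ts (nat_lit 2) (T.ts (nat_lit 4) (T.ls (nat_lit 3) (nat_lit 4)) (T.ts (nat_lit 3) (T.ls (nat_lit 2) (nat_lit 3)) (T.ts (nat_lit 2) (T.ls (nat_lit 3) (nat_lit 4)) (T.ts (nat_lit 1) (T.ls (nat_lit 2) (nat_lit 4)) (T.ts (nat_lit 0) (T.im (nat_lit 7) (nat_lit 2)) T.ie))))) (T.ts (nat_lit 1) (T.ts (nat_lit 4) (T.ls (nat_lit 2) (nat_lit 4)) (T.ts (nat_lit 3) (T.ls (nat_lit 2) (nat_lit 3)) (T.ts (nat_lit 2) (T.ls (nat_lit 3) (nat_lit 4)) (T.ts (nat_lit 1) (T.ls (nat_lit 2) (nat_lit 4)) (T.ts (nat_lit 0) (T.im (nat_lit 7) (nat_lit 2)) T.ie))))) (T.ts (nat_lit 0) (T.im (nat_lit 7) (nat_lit 1)) T.ie))))))))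
def d815 : T := (T.ts (nat_lit 2) (T.ts (nat_lit 3) (T.ts (nat_lit 3) (T.ls (nat_lit 2) (nat_lit 3)) (T.ts (nat_lit 0) (T.ls (nat_lit 2) (nat_lit 4)) (T.ts (nat_lit 2) (T.im (nat_lit 7) (nat_lit 2)) (T.ts (nat_lit 1) (T.im (nat_lit 5) (nat_lit 3)) (T.nw (T.ls (nat_lit 2) (nat_lit 3))))))) (T.ts (nat_lit 1) (T.ts (nat_lit 3) (T.ls (nat_lit 3) (nat_lit 4)) (T.ts (nat_lit 1) (T.ls (nat_lit 3) (nat_lit 4)) (T.ts (nat_lit 0) (T.ls (nat_lit 2) (nat_lit 4)) (T.ts (nat_lit 2) (T.im (nat_lit 7) (nat_lit 2)) (T.nw (T.ls (nat_lit 2) (nat_lit 3))))))) (T.ts (nat_lit 0) (T.ts (nat_lit 3) (T.ls (nat_lit 2) (nat_lit 4)) (T.ts (nat_lit 1) (T.ls (nat_lit 3) (nat_lit 4)) (T.ts (nat_lit 0) (T.ls (nat_lit 2) (nat_lit 4)) (T.ts (nat_lit 2) (T.im (nat_lit 7) (nat_lit 2)) (T.nw (T.ls (nat_lit 2) (nat_lit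 3))))))) (T.ts (nat_lit 2) (T.im (nat_lit 7) (nat_lit 1)) (T.nw (T.ts (nat_lit 4) (T.ls (nat_lit 2) (nat_lit 3)) (T.ts (nat_lit 2) (T.ls (nat_lit 3) (nat_lit 4)) (T.ts (nat_lit 1) (T.ls (nat_lit 2) (nat_lit 4)) (T.ts (nat_lit 0) (T.ls (nat_lit 2) (nat_lit 3)) (T.ts (nat_lit 3) (T.im (nat_lit 7) (nat_lit 2)) T.ie)))))))))) (T.ts (nat_lit 1) (T.ts (nat_lit 3) (T.ts (nat_lit 3) (T.ls (nat_lit 2) (nat_lit 3)) (T.ts (nat_lit 2) (T.ls (nat_lit 3) (nat_lit 4)) (T.ts (nat_lit 0) (T.ls (nat_lit 2) (nat_lit 4)) (T.ts (nat_lit 1) (T.im (nat_lit 5) (nat_lit 3)) (T.nw (T.ls (nat_lit 2) (nat_lit 3))))))) (T.ts (nat_lit 2) (T.ts (nat_lit 3) (T.ls (nat_lit 2) (nat_lit 3)) (T.ts (nat_lit 2) (T.ls (nat_lit 2) (nat_lit 3)) (T.ts (nat_lit 0) (T.ls (nat_lit 2) (nat_lit 4)) (T.ts (nat_lit 1) (T.im (nat_lit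 7) (nat_lit 2)) (T.nw (T.ls (nat_lit 2) (nat_lit 3))))))) (T.ts (nat_lit 0) (T.ts (nat_lit 3) (T.ls (nat_lit 2) (nat_lit 4)) (T.ts (nat_lit 2) (T.ls (nat_lit 2) (nat_lit 3)) (T.ts (nat_lit 0) (T.ls (nat_lit 2) (nat_lit 4)) (T.ts (nat_lit 1) (T.im (nat_lit 7) (nat_lit 2)) (T.nw (T.ls (nat_lit 2) (nat_lit 3))))))) (T.ts (nat_lit 1) (T.im (nat_lit 7) (nat_lit 1)) (T.nw (T.ts (nat_lit 4) (T.ls (nat_lit 2) (nat_lit 3)) (T.ts (nat_lit 3) (T.ls (nat_lit 2) (nat_lit 3)) (T.ts (nat_lit 1) (T.ls (nat_lit 2) (nat_lit 4)) (T.ts (nat_lit 0) (T.ls (nat_lit 2) (nat_lit 3)) (T.ts (nat_lit 2) (T.im (nat_lit 7) (nat_lit 2)) T.ie)))))))))) d814))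
def d816 : T := (T.ts (nat_lit 0) (T.ts (nat_lit 3) (T.ts (nat_lit 3) (T.ls (nat_lit 2) (nat_lit 3)) (T.ts (nat_lit 2) (T.ls (nat_lit 2) (nat_lit 4)) (T.ts (nat_lit 1) (T.ls (nat_lit 3) (nat_lit 4)) (T.ts (nat_lit 0) (T.im (nat_lit 5) (nat_lit 3)) (T.nw (T.ls (nat_lit 2) (nat_lit 3))))))) (T.ts (nat_lit 2) (T.ts (nat_lit 2) (T.ls (nat_lit 2) (nat_lit 3)) (T.ts (nat_lit 1) (T.ls (nat_lit 3) (nat_lit 4)) (T.ts (nat_lit 3) (T.im (nat_lit 3) (nat_lit 4)) (T.ts (nat_lit 0) (T.im (nat_lit 7) (nat_lit 2)) (T.nw (T.ls (nat_lit 2) (nat_lit 3))))))) (T.ts (nat_lit 1) (T.ts (nat_lit 3) (T.ls (nat_lit 3) (nat_lit 4)) (T.ts (nat_lit 2) (T.ls (nat_lit 2) (nat_lit 3)) (T.ts (nat_lit 1) (T.ls (nat_lit 3) (nat_lit 4)) (T.ts (nat_lit 0) (T.im (nat_lit 7) (nat_lit 2)) (T.nw (T.ls (nat_lit 2) (nat_lit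 3))))))) (T.ts (nat_lit 0) (T.im (nat_lit 7) (nat_lit 1)) (T.nw (T.ts (nat_lit 4) (T.ls (nat_lit 2) (nat_lit 3)) (T.ts (nat_lit 3) (T.ls (nat_lit 2) (nat_lit 3)) (T.ts (nat_lit 2) (T.ls (nat_lit 3) (nat_lit 4)) (T.ts (nat_lit 0) (T.ls (nat_lit 2) (nat_lit 3)) (T.ts (nat_lit 1) (T.im (nat_lit 7) (nat_lit 2)) T.ie)))))))))) (T.ts (nat_lit 3) (T.im (nat_lit 5) (nat_lit 2)) (T.ts (nat_lit 2) (T.im (nat_lit 3) (nat_lit 3)) (T.nw (T.ts (nat_lit 4) (T.ts (nat_lit 4) (T.ls (nat_lit 2) (nat_lit 3)) (T.ts (nat_lit 3) (T.ls (nat_lit 2) (nat_lit 3)) (T.ts (nat_lit 2) (T.ls (nat_lit 3) (nat_lit 4)) (T.ts (nat_lit 1) (T.im (nat_lit 5) (nat_lit 3)) (T.ts (nat_lit 0) (T.im (nat_lit 7) (nat_lit 2)) T.ie))))) (T.ts (nat_lit 3) (T.ts (nat_lit 4) (T.ls (nat_lit 2) (nat_lit 3)) (T.ts (nat_lit 3) (T.ls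 (nat_lit 2) (nat_lit 3)) (T.ts (nat_lit 2) (T.ls (nat_lit 3) (nat_lit 4)) (T.ts (nat_lit 1) (T.ls (nat_lit 2) (nat_lit 4)) (T.ts (nat_lit 0) (T.im (nat_lit 7) (nat_lit 2)) T.ie))))) (T.ts (nat_lit 2) (T.ts (nat_lit 4) (T.ls (nat_lit 3) (nat_lit 4)) (T.ts (nat_lit 3) (T.ls (nat_lit 2) (nat_lit 3)) (T.ts (nat_lit 2) (T.ls (nat_lit 3) (nat_lit 4)) (T.ts (nat_lit 1) (T.ls (nat_lit 2) (nat_lit 4)) (T.ts (nat_lit 0) (T.im (nat_lit 7) (nat_lit 2)) T.ie))))) (T.ts (nat_lit 1) (T.ts (nat_lit 4) (T.ls (nat_lit 2) (nat_lit 4)) (T.ts (nat_lit 3) (T.ls (nat_lit 2) (nat_lit 3)) (T.ts (nat_lit 2) (T.ls (nat_lit 3) (nat_lit 4)) (T.ts (nat_lit 1) (T.ls (nat_lit 2) (nat_lit 4)) (T.ts (nat_lit 0) (T.im (nat_lit 7) (nat_lit 2)) T.ie))))) (T.ts (nat_lit 0) (T.im (nat_lit 7) (nat_lit 1)) T.ie)))))))))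
def d817 : T := (T.ts (nat_lit 1) (T.ts (nat_lit 4) (T.ts (nat_lit 4) (T.ls (nat_lit 2) (nat_lit 3)) (T.ts (nat_lit 3) (T.ls (nat_lit 2) (nat_lit 4)) (T.ts (nat_lit 2) (T.ls (nat_lit 3) (nat_lit 4)) (T.ts (nat_lit 1) (T.im (nat_lit 7) (nat_lit 2)) (T.ts (nat_lit 0) (T.im (nat_lit 5) (nat_lit 3)) T.ie))))) (T.ts (nat_lit 3) (T.ts (nat_lit 3) (T.ls (nat_lit 2) (nat_lit 3)) (T.ts (nat_lit 2) (T.ls (nat_lit 3) (nat_lit 4)) (T.ts (nat_lit 0) (T.ls (nat_lit 2) (nat_lit 3)) (T.ts (nat_lit 4) (T.im (nat_lit 3) (nat_lit 4)) (T.ts (nat_lit 1) (T.im (nat_lit 7) (nat_lit 2)) T.ie))))) (T.ts (nat_lit 2) (T.ts (nat_lit 4) (T.ls (nat_lit 3) (nat_lit 4)) (T.ts (nat_lit 3) (T.ls (nat_lit 2) (nat_lit 3)) (T.ts (nat_lit 2) (T.ls (nat_lit 3) (nat_lit 4)) (T.ts (nat_lit 0) (T.ls (nat_lit 2) (nat_lit 3))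 (T.ts (nat_lit 1) (T.im (nat_lit 7) (nat_lit 2)) T.ie))))) (T.ts (nat_lit 0) (T.ts (nat_lit 4) (T.ls (nat_lit 2) (nat_lit 3)) (T.ts (nat_lit 3) (T.ls (nat_lit 2) (nat_lit 3)) (T.ts (nat_lit 2) (T.ls (nat_lit 3) (nat_lit 4)) (T.ts (nat_lit 0) (T.ls (nat_lit 2) (nat_lit 3)) (T.ts (nat_lit 1) (T.im (nat_lit 7) (nat_lit 2)) T.ie))))) (T.ts (nat_lit 1) (T.im (nat_lit 7) (nat_lit 1)) T.ie))))) (T.ts (nat_lit 0) (T.ts (nat_lit 4) (T.ts (nat_lit 4) (T.ls (nat_lit 2) (nat_lit 3)) (T.ts (nat_lit 3) (T.ls (nat_lit 2) (nat_lit 3)) (T.ts (nat_lit 2) (T.ls (nat_lit 3) (nat_lit 4)) (T.ts (nat_lit 1) (T.ls (nat_lit 2) (nat_lit 4)) (T.ts (nat_lit 0) (T.im (nat_lit 5) (nat_lit 3)) T.ie))))) (T.ts (nat_lit 3) (T.ts (nat_lit 4) (T.ls (nat_lit 2) (nat_lit 3)) (T.ts (nat_lit 3) (T.ls (nat_lit 2) (nat_lit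 3)) (T.ts (nat_lit 2) (T.ls (nat_lit 3) (nat_lit 4)) (T.ts (nat_lit 1) (T.ls (nat_lit 2) (nat_lit 4)) (T.ts (nat_lit 0) (T.im (nat_lit 7) (nat_lit 2)) T.ie))))) (T.ts (nat_lit 2) (T.ts (nat_lit 4) (T.ls (nat_lit 3) (nat_lit 4)) (T.ts (nat_lit 3) (T.ls (nat_lit 2) (nat_lit 3)) (T.ts (nat_lit 2) (T.ls (nat_lit 3) (nat_lit 4)) (T.ts (nat_lit 1) (T.ls (nat_lit 2) (nat_lit 4)) (T.ts (nat_lit 0) (T.im (nat_lit 7) (nat_lit 2)) T.ie))))) (T.ts (nat_lit 1) (T.ts (nat_lit 4) (T.ls (nat_lit 2) (nat_lit 4)) (T.ts (nat_lit 3) (T.ls (nat_lit 2) (nat_lit 3)) (T.ts (nat_lit 2) (T.ls (nat_lit 3) (nat_lit 4)) (T.ts (nat_lit 1) (T.ls (nat_lit 2) (nat_lit 4)) (T.ts (nat_lit 0) (T.im (nat_lit 7) (nat_lit 2)) T.ie))))) (T.ts (nat_lit 0) (T.im (nat_lit 7) (nat_lit 1)) T.ie))))) (T.ts (nat_lit 4) (T.im (nat_lit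 5) (nat_lit 2)) T.ie)))
def d818 : T := (T.ts (nat_lit 3) (T.ts (nat_lit 4) (T.ts (nat_lit 4) (T.ls (nat_lit 2) (nat_lit 3)) (T.ts (nat_lit 2) (T.ls (nat_lit 3) (nat_lit 4)) (T.ts (nat_lit 1) (T.ls (nat_lit 2) (nat_lit 4)) (T.ts (nat_lit 3) (T.im (nat_lit 7) (nat_lit 2)) (T.ts (nat_lit 0) (T.im (nat_lit 5) (nat_lit 3)) T.ie))))) (T.ts (nat_lit 2) (T.ts (nat_lit 4) (T.ls (nat_lit 3) (nat_lit 4)) (T.ts (nat_lit 2) (T.ls (nat_lit 3) (nat_lit 4)) (T.ts (nat_lit 1) (T.ls (nat_lit 2) (nat_lit 4)) (T.ts (nat_lit 0) (T.ls (nat_lit 2) (nat_lit 3)) (T.ts (nat_lit 3) (T.im (nat_lit 7) (nat_lit 2)) T.ie))))) (T.ts (nat_lit 1) (T.ts (nat_lit 4) (T.ls (nat_lit 2) (nat_lit 4)) (T.ts (nat_lit 2) (T.ls (nat_lit 3) (nat_lit 4)) (T.ts (nat_lit 1) (T.ls (nat_lit 2) (nat_lit 4)) (T.ts (nat_lit 0) (T.ls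 (nat_lit 2) (nat_lit 3)) (T.ts (nat_lit 3) (T.im (nat_lit 7) (nat_lit 2)) T.ie))))) (T.ts (nat_lit 0) (T.ts (nat_lit 4) (T.ls (nat_lit 2) (nat_lit 3)) (T.ts (nat_lit 2) (T.ls (nat_lit 3) (nat_lit 4)) (T.ts (nat_lit 1) (T.ls (nat_lit 2) (nat_lit 4)) (T.ts (nat_lit 0) (T.ls (nat_lit 2) (nat_lit 3)) (T.ts (nat_lit 3) (T.im (nat_lit 7) (nat_lit 2)) T.ie))))) (T.ts (nat_lit 3) (T.im (nat_lit 7) (nat_lit 1)) T.ie))))) (T.ts (nat_lit 2) (T.ts (nat_lit 4) (T.ts (nat_lit 4) (T.ls (nat_lit 2) (nat_lit 3)) (T.ts (nat_lit 3) (T.ls (nat_lit 3) (nat_lit 4)) (T.ts (nat_lit 1) (T.ls (nat_lit 2) (nat_lit 4)) (T.ts (nat_lit 2) (T.im (nat_lit 7) (nat_lit 2)) (T.ts (nat_lit 0) (T.im (nat_lit 5) (nat_lit 3)) T.ie))))) (T.ts (nat_lit 3) (T.ts (nat_lit 4) (T.ls (nat_lit 2) (nat_lit 3)) (T.ts (nat_lit 3)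 (T.ls (nat_lit 2) (nat_lit 3)) (T.ts (nat_lit 1) (T.ls (nat_lit 2) (nat_lit 4)) (T.ts (nat_lit 0) (T.ls (nat_lit 2) (nat_lit 3)) (T.ts (nat_lit 2) (T.im (nat_lit 7) (nat_lit 2)) T.ie))))) (T.ts (nat_lit 1) (T.ts (nat_lit 4) (T.ls (nat_lit 2) (nat_lit 4)) (T.ts (nat_lit 3) (T.ls (nat_lit 2) (nat_lit 3)) (T.ts (nat_lit 1) (T.ls (nat_lit 2) (nat_lit 4)) (T.ts (nat_lit 0) (T.ls (nat_lit 2) (nat_lit 3)) (T.ts (nat_lit 2) (T.im (nat_lit 7) (nat_lit 2)) T.ie))))) (T.ts (nat_lit 0) (T.ts (nat_lit 4) (T.ls (nat_lit 2) (nat_lit 3)) (T.ts (nat_lit 3) (T.ls (nat_lit 2) (nat_lit 3)) (T.ts (nat_lit 1) (T.ls (nat_lit 2) (nat_lit 4)) (T.ts (nat_lit 0) (T.ls (nat_lit 2) (nat_lit 3)) (T.ts (nat_lit 2) (T.im (nat_lit 7) (nat_lit 2)) T.ie))))) (T.ts (nat_lit 2) (T.im (nat_lit 7) (nat_lit 1)) T.ie)))))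 d817))
def d819 : T := (T.tp (T.ts (nat_lit 2) d813 (T.ts (nat_lit 1) d815 (T.ts (nat_lit 0) (T.ts (nat_lit 1) (T.ts (nat_lit 3) (T.ts (nat_lit 3) (T.ls (nat_lit 2) (nat_lit 3)) (T.ts (nat_lit 2) (T.ls (nat_lit 3) (nat_lit 4)) (T.ts (nat_lit 1) (T.im (nat_lit 7) (nat_lit 2)) (T.ts (nat_lit 0) (T.im (nat_lit 5) (nat_lit 3)) (T.nw (T.ls (nat_lit 2) (nat_lit 3))))))) (T.ts (nat_lit 2) (T.ts (nat_lit 3) (T.ls (nat_lit 2) (nat_lit 3)) (T.ts (nat_lit 2) (T.ls (nat_lit 2) (nat_lit 3)) (T.ts (nat_lit 0) (T.ls (nat_lit 2) (nat_lit 4)) (T.ts (nat_lit 1) (T.im (nat_lit 7) (nat_lit 2)) (T.nw (T.ls (nat_lit 2) (nat_lit 3))))))) (T.ts (nat_lit 0) (T.ts (nat_lit 3) (T.ls (nat_lit 2) (nat_lit 4)) (T.ts (nat_lit 2) (T.ls (nat_lit 2) (nat_lit 3)) (T.ts (nat_lit 0) (T.ls (nat_lit 2) (nat_lit 4)) (T.ts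 (nat_lit 1) (T.im (nat_lit 7) (nat_lit 2)) (T.nw (T.ls (nat_lit 2) (nat_lit 3))))))) (T.ts (nat_lit 1) (T.im (nat_lit 7) (nat_lit 1)) (T.nw (T.ts (nat_lit 4) (T.ls (nat_lit 2) (nat_lit 3)) (T.ts (nat_lit 3) (T.ls (nat_lit 2) (nat_lit 3)) (T.ts (nat_lit 1) (T.ls (nat_lit 2) (nat_lit 4)) (T.ts (nat_lit 0) (T.ls (nat_lit 2) (nat_lit 3)) (T.ts (nat_lit 2) (T.im (nat_lit 7) (nat_lit 2)) T.ie)))))))))) d816) (T.ts (nat_lit 3) (T.im (nat_lit 5) (nat_lit 1)) (T.nw d818))))))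
def d820 : T := (T.ts (nat_lit 0) (T.ts (nat_lit 3) (T.ts (nat_lit 3) (T.ls (nat_lit 2) (nat_lit 3)) (T.ts (nat_lit 2) (T.ls (nat_lit 2) (nat_lit 4)) (T.ts (nat_lit 1) (T.ls (nat_lit 3) (nat_lit 4)) (T.ts (nat_lit 0) (T.im (nat_lit 7) (nat_lit 2)) (T.nw (T.ls (nat_lit 2) (nat_lit 3))))))) (T.ts (nat_lit 2) (T.ts (nat_lit 1) (T.ls (nat_lit 3) (nat_lit 4)) (T.ts (nat_lit 3) (T.im (nat_lit 5) (nat_lit 3)) (T.ts (nat_lit 2) (T.im (nat_lit 3) (nat_lit 4)) (T.ts (nat_lit 0) (T.im (nat_lit 7) (nat_lit 2)) (T.nw (T.ls (nat_lit 2) (nat_lit 3))))))) (T.ts (nat_lit 1) (T.ts (nat_lit 3) (T.ls (nat_lit 3) (nat_lit 4)) (T.ts (nat_lit 2) (T.ls (nat_lit 2) (nat_lit 3)) (T.ts (nat_lit 1) (T.ls (nat_lit 3) (nat_lit 4)) (T.ts (nat_lit 0) (T.im (nat_lit 7) (nat_lit 2)) (T.nw (T.ls (nat_lit 2) (nat_lit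 3))))))) (T.ts (nat_lit 0) (T.im (nat_lit 7) (nat_lit 1)) (T.nw (T.ts (nat_lit 4) (T.ls (nat_lit 2) (nat_lit 3)) (T.ts (nat_lit 3) (T.ls (nat_lit 2) (nat_lit 3)) (T.ts (nat_lit 2) (T.ls (nat_lit 3) (nat_lit 4)) (T.ts (nat_lit 0) (T.ls (nat_lit 2) (nat_lit 3)) (T.ts (nat_lit 1) (T.im (nat_lit 7) (nat_lit 2)) T.ie)))))))))) (T.ts (nat_lit 2) (T.im (nat_lit 5) (nat_lit 2)) (T.nw (T.ts (nat_lit 4) (T.ts (nat_lit 4) (T.ls (nat_lit 2) (nat_lit 3)) (T.ts (nat_lit 3) (T.ls (nat_lit 2) (nat_lit 3)) (T.ts (nat_lit 2) (T.ls (nat_lit 3) (nat_lit 4)) (T.ts (nat_lit 1) (T.ls (nat_lit 2) (nat_lit 4)) (T.ts (nat_lit 0) (T.im (nat_lit 7) (nat_lit 2)) T.ie))))) (T.ts (nat_lit 3) (T.ts (nat_lit 3) (T.ls (nat_lit 2) (nat_lit 3)) (T.ts (nat_lit 2) (T.ls (nat_lit 3) (nat_lit 4)) (T.ts (nat_lit 1) (T.ls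 (nat_lit 2) (nat_lit 4)) (T.ts (nat_lit 4) (T.im (nat_lit 5) (nat_lit 3)) (T.ts (nat_lit 0) (T.im (nat_lit 7) (nat_lit 2)) T.ie))))) (T.ts (nat_lit 2) (T.ts (nat_lit 4) (T.ls (nat_lit 3) (nat_lit 4)) (T.ts (nat_lit 3) (T.ls (nat_lit 2) (nat_lit 3)) (T.ts (nat_lit 2) (T.ls (nat_lit 3) (nat_lit 4)) (T.ts (nat_lit 1) (T.ls (nat_lit 2) (nat_lit 4)) (T.ts (nat_lit 0) (T.im (nat_lit 7) (nat_lit 2)) T.ie))))) (T.ts (nat_lit 1) (T.ts (nat_lit 4) (T.ls (nat_lit 2) (nat_lit 4)) (T.ts (nat_lit 3) (T.ls (nat_lit 2) (nat_lit 3)) (T.ts (nat_lit 2) (T.ls (nat_lit 3) (nat_lit 4)) (T.ts (nat_lit 1) (T.ls (nat_lit 2) (nat_lit 4)) (T.ts (nat_lit 0) (T.im (nat_lit 7) (nat_lit 2)) T.ie))))) (T.ts (nat_lit 0) (T.im (nat_lit 7) (nat_lit 1)) T.ie))))))))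
def d821 : T := (T.ts (nat_lit 3) (T.ts (nat_lit 2) (T.ts (nat_lit 2) (T.ls (nat_lit 2) (nat_lit 3)) (T.ts (nat_lit 1) (T.ls (nat_lit 3) (nat_lit 4)) (T.ts (nat_lit 0) (T.ls (nat_lit 2) (nat_lit 4)) (T.ts (nat_lit 3) (T.im (nat_lit 5) (nat_lit 3)) (T.nw (T.ls (nat_lit 2) (nat_lit 3))))))) (T.ts (nat_lit 1) (T.ts (nat_lit 2) (T.ls (nat_lit 2) (nat_lit 3)) (T.ts (nat_lit 1) (T.ls (nat_lit 3) (nat_lit 4)) (T.ts (nat_lit 0) (T.ls (nat_lit 2) (nat_lit 4)) (T.ts (nat_lit 3) (T.im (nat_lit 7) (nat_lit 2)) (T.nw (T.ls (nat_lit 2) (nat_lit 3))))))) (T.ts (nat_lit 0) (T.ts (nat_lit 2) (T.ls (nat_lit 2) (nat_lit 3)) (T.ts (nat_lit 1) (T.ls (nat_lit 3) (nat_lit 4)) (T.ts (nat_lit 0) (T.ls (nat_lit 2) (nat_lit 4)) (T.ts (nat_lit 3) (T.im (nat_lit 7) (nat_lit 2)) (T.nw (T.ls (nat_lit 2) (nat_lit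 3))))))) (T.ts (nat_lit 3) (T.im (nat_lit 7) (nat_lit 1)) (T.nw (T.ts (nat_lit 3) (T.ls (nat_lit 2) (nat_lit 3)) (T.ts (nat_lit 2) (T.ls (nat_lit 3) (nat_lit 4)) (T.ts (nat_lit 1) (T.ls (nat_lit 2) (nat_lit 4)) (T.ts (nat_lit 0) (T.ls (nat_lit 2) (nat_lit 3)) (T.ts (nat_lit 4) (T.im (nat_lit 7) (nat_lit 2)) T.ie)))))))))) (T.ts (nat_lit 1) (T.ts (nat_lit 3) (T.ts (nat_lit 3) (T.ls (nat_lit 2) (nat_lit 3)) (T.ts (nat_lit 2) (T.ls (nat_lit 3) (nat_lit 4)) (T.ts (nat_lit 0) (T.ls (nat_lit 2) (nat_lit 4)) (T.ts (nat_lit 1) (T.im (nat_lit 7) (nat_lit 2)) (T.nw (T.ls (nat_lit 2) (nat_lit 3))))))) (T.ts (nat_lit 2) (T.ts (nat_lit 2) (T.ls (nat_lit 2) (nat_lit 3)) (T.ts (nat_lit 0) (T.ls (nat_lit 2) (nat_lit 4)) (T.ts (nat_lit 3) (T.im (nat_lit 5) (nat_lit 3)) (T.ts (nat_lit 1) (T.im (nat_lit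 7) (nat_lit 2)) (T.nw (T.ls (nat_lit 2) (nat_lit 3))))))) (T.ts (nat_lit 0) (T.ts (nat_lit 3) (T.ls (nat_lit 2) (nat_lit 4)) (T.ts (nat_lit 2) (T.ls (nat_lit 2) (nat_lit 3)) (T.ts (nat_lit 0) (T.ls (nat_lit 2) (nat_lit 4)) (T.ts (nat_lit 1) (T.im (nat_lit 7) (nat_lit 2)) (T.nw (T.ls (nat_lit 2) (nat_lit 3))))))) (T.ts (nat_lit 1) (T.im (nat_lit 7) (nat_lit 1)) (T.nw (T.ts (nat_lit 4) (T.ls (nat_lit 2) (nat_lit 3)) (T.ts (nat_lit 3) (T.ls (nat_lit 2) (nat_lit 3)) (T.ts (nat_lit 1) (T.ls (nat_lit 2) (nat_lit 4)) (T.ts (nat_lit 0) (T.ls (nat_lit 2) (nat_lit 3)) (T.ts (nat_lit 2) (T.im (nat_lit 7) (nat_lit 2)) T.ie)))))))))) d820))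
def d822 : T := (T.ts (nat_lit 1) (T.ts (nat_lit 3) (T.ts (nat_lit 3) (T.ls (nat_lit 2) (nat_lit 3)) (T.ts (nat_lit 2) (T.ls (nat_lit 3) (nat_lit 4)) (T.ts (nat_lit 0) (T.ls (nat_lit 2) (nat_lit 4)) (T.ts (nat_lit 1) (T.im (nat_lit 7) (nat_lit 2)) (T.nw (T.ls (nat_lit 2) (nat_lit 3))))))) (T.ts (nat_lit 2) (T.ts (nat_lit 3) (T.ls (nat_lit 2) (nat_lit 3)) (T.ts (nat_lit 2) (T.ls (nat_lit 2) (nat_lit 3)) (T.ts (nat_lit 0) (T.ls (nat_lit 2) (nat_lit 4)) (T.ts (nat_lit 1) (T.im (nat_lit 5) (nat_lit 3)) (T.nw (T.ls (nat_lit 2) (nat_lit 3))))))) (T.ts (nat_lit 0) (T.ts (nat_lit 3) (T.ls (nat_lit 2) (nat_lit 4)) (T.ts (nat_lit 2) (T.ls (nat_lit 2) (nat_lit 3)) (T.ts (nat_lit 0) (T.ls (nat_lit 2) (nat_lit 4)) (T.ts (nat_lit 1) (T.im (nat_lit 7) (nat_lit 2)) (T.nw (T.ls (nat_lit 2) (nat_lit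 3))))))) (T.ts (nat_lit 1) (T.im (nat_lit 7) (nat_lit 1)) (T.nw (T.ts (nat_lit 4) (T.ls (nat_lit 2) (nat_lit 3)) (T.ts (nat_lit 3) (T.ls (nat_lit 2) (nat_lit 3)) (T.ts (nat_lit 1) (T.ls (nat_lit 2) (nat_lit 4)) (T.ts (nat_lit 0) (T.ls (nat_lit 2) (nat_lit 3)) (T.ts (nat_lit 2) (T.im (nat_lit 7) (nat_lit 2)) T.ie)))))))))) (T.ts (nat_lit 2) (T.im (nat_lit 5) (nat_lit 2)) (T.ts (nat_lit 0) (T.im (nat_lit 1) (nat_lit 4)) (T.nw (T.ts (nat_lit 4) (T.ts (nat_lit 4) (T.ls (nat_lit 2) (nat_lit 3)) (T.ts (nat_lit 3) (T.ls (nat_lit 2) (nat_lit 3)) (T.ts (nat_lit 2) (T.ls (nat_lit 3) (nat_lit 4)) (T.ts (nat_lit 1) (T.ls (nat_lit 2) (nat_lit 4)) (T.ts (nat_lit 0) (T.im (nat_lit 7) (nat_lit 2)) T.ie))))) (T.ts (nat_lit 3) (T.ts (nat_lit 4) (T.ls (nat_lit 2) (nat_lit 3)) (T.ts (nat_lit 3) (T.ls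 (nat_lit 2) (nat_lit 3)) (T.ts (nat_lit 1) (T.ls (nat_lit 2) (nat_lit 4)) (T.ts (nat_lit 2) (T.im (nat_lit 5) (nat_lit 3)) (T.ts (nat_lit 0) (T.im (nat_lit 7) (nat_lit 2)) T.ie))))) (T.ts (nat_lit 2) (T.ts (nat_lit 4) (T.ls (nat_lit 3) (nat_lit 4)) (T.ts (nat_lit 3) (T.ls (nat_lit 2) (nat_lit 3)) (T.ts (nat_lit 2) (T.ls (nat_lit 3) (nat_lit 4)) (T.ts (nat_lit 1) (T.ls (nat_lit 2) (nat_lit 4)) (T.ts (nat_lit 0) (T.im (nat_lit 7) (nat_lit 2)) T.ie))))) (T.ts (nat_lit 1) (T.ts (nat_lit 4) (T.ls (nat_lit 2) (nat_lit 4)) (T.ts (nat_lit 3) (T.ls (nat_lit 2) (nat_lit 3)) (T.ts (nat_lit 2) (T.ls (nat_lit 3) (nat_lit 4)) (T.ts (nat_lit 1) (T.ls (nat_lit 2) (nat_lit 4)) (T.ts (nat_lit 0) (T.im (nat_lit 7) (nat_lit 2)) T.ie))))) (T.ts (nat_lit 0) (T.im (nat_lit 7) (nat_lit 1)) T.ie)))))))))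
def d823 : T := (T.ts (nat_lit 0) (T.ts (nat_lit 3) (T.ts (nat_lit 3) (T.ls (nat_lit 2) (nat_lit 3)) (T.ts (nat_lit 2) (T.ls (nat_lit 2) (nat_lit 4)) (T.ts (nat_lit 1) (T.ls (nat_lit 3) (nat_lit 4)) (T.ts (nat_lit 0) (T.im (nat_lit 7) (nat_lit 2)) (T.nw (T.ls (nat_lit 2) (nat_lit 3))))))) (T.ts (nat_lit 2) (T.ts (nat_lit 3) (T.ls (nat_lit 2) (nat_lit 3)) (T.ts (nat_lit 1) (T.ls (nat_lit 3) (nat_lit 4)) (T.ts (nat_lit 2) (T.im (nat_lit 3) (nat_lit 4)) (T.ts (nat_lit 0) (T.im (nat_lit 5) (nat_lit 3)) (T.nw (T.ls (nat_lit 2) (nat_lit 3))))))) (T.ts (nat_lit 1) (T.ts (nat_lit 3) (T.ls (nat_lit 3) (nat_lit 4)) (T.ts (nat_lit 2) (T.ls (nat_lit 2) (nat_lit 3)) (T.ts (nat_lit 1) (T.ls (nat_lit 3) (nat_lit 4)) (T.ts (nat_lit 0) (T.im (nat_lit 7) (nat_lit 2)) (T.nw (T.ls (nat_lit 2) (nat_lit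 3))))))) (T.ts (nat_lit 0) (T.im (nat_lit 7) (nat_lit 1)) (T.nw (T.ts (nat_lit 4) (T.ls (nat_lit 2) (nat_lit 3)) (T.ts (nat_lit 3) (T.ls (nat_lit 2) (nat_lit 3)) (T.ts (nat_lit 2) (T.ls (nat_lit 3) (nat_lit 4)) (T.ts (nat_lit 0) (T.ls (nat_lit 2) (nat_lit 3)) (T.ts (nat_lit 1) (T.im (nat_lit 7) (nat_lit 2)) T.ie)))))))))) (T.ts (nat_lit 2) (T.im (nat_lit 3) (nat_lit 3)) (T.nw (T.ts (nat_lit 4) (T.ts (nat_lit 4) (T.ls (nat_lit 2) (nat_lit 3)) (T.ts (nat_lit 3) (T.ls (nat_lit 2) (nat_lit 3)) (T.ts (nat_lit 2) (T.ls (nat_lit 3) (nat_lit 4)) (T.ts (nat_lit 1) (T.ls (nat_lit 2) (nat_lit 4)) (T.ts (nat_lit 0) (T.im (nat_lit 7) (nat_lit 2)) T.ie))))) (T.ts (nat_lit 3) (T.ts (nat_lit 4) (T.ls (nat_lit 2) (nat_lit 3)) (T.ts (nat_lit 3) (T.ls (nat_lit 2) (nat_lit 3)) (T.ts (nat_lit 2) (T.ls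 (nat_lit 3) (nat_lit 4)) (T.ts (nat_lit 1) (T.im (nat_lit 5) (nat_lit 3)) (T.ts (nat_lit 0) (T.im (nat_lit 7) (nat_lit 2)) T.ie))))) (T.ts (nat_lit 2) (T.ts (nat_lit 4) (T.ls (nat_lit 3) (nat_lit 4)) (T.ts (nat_lit 3) (T.ls (nat_lit 2) (nat_lit 3)) (T.ts (nat_lit 2) (T.ls (nat_lit 3) (nat_lit 4)) (T.ts (nat_lit 1) (T.ls (nat_lit 2) (nat_lit 4)) (T.ts (nat_lit 0) (T.im (nat_lit 7) (nat_lit 2)) T.ie))))) (T.ts (nat_lit 1) (T.ts (nat_lit 4) (T.ls (nat_lit 2) (nat_lit 4)) (T.ts (nat_lit 3) (T.ls (nat_lit 2) (nat_lit 3)) (T.ts (nat_lit 2) (T.ls (nat_lit 3) (nat_lit 4)) (T.ts (nat_lit 1) (T.ls (nat_lit 2) (nat_lit 4)) (T.ts (nat_lit 0) (T.im (nat_lit 7) (nat_lit 2)) T.ie))))) (T.ts (nat_lit 0) (T.im (nat_lit 7) (nat_lit 1)) T.ie))))))))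
def d824 : T := (T.ts (nat_lit 3) (T.ts (nat_lit 2) (T.ts (nat_lit 2) (T.ls (nat_lit 2) (nat_lit 3)) (T.ts (nat_lit 1) (T.ts (nat_lit 3) (T.ls (nat_lit 3) (nat_lit 4)) (T.ts (nat_lit 0) (T.ls (nat_lit 2) (nat_lit 4)) (T.sk (T.ls (nat_lit 2) (nat_lit 3))))) (T.ts (nat_lit 3) (T.im (nat_lit 7) (nat_lit 2)) (T.ts (nat_lit 0) (T.im (nat_lit 5) (nat_lit 3)) (T.nw (T.ls (nat_lit 2) (nat_lit 3))))))) (T.ts (nat_lit 1) (T.ts (nat_lit 2) (T.ls (nat_lit 2) (nat_lit 3)) (T.ts (nat_lit 1) (T.ls (nat_lit 3) (nat_lit 4)) (T.ts (nat_lit 0) (T.ls (nat_lit 2) (nat_lit 4)) (T.ts (nat_lit 3) (T.im (nat_lit 7) (nat_lit 2)) (T.nw (T.ls (nat_lit 2) (nat_lit 3))))))) (T.ts (nat_lit 0) (T.ts (nat_lit 2) (T.ls (nat_lit 2) (nat_lit 3)) (T.ts (nat_lit 1) (T.ls (nat_lit 3) (nat_lit 4)) (T.ts (nat_lit 0) (T.ls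 (nat_lit 2) (nat_lit 4)) (T.ts (nat_lit 3) (T.im (nat_lit 7) (nat_lit 2)) (T.nw (T.ls (nat_lit 2) (nat_lit 3))))))) (T.ts (nat_lit 3) (T.im (nat_lit 7) (nat_lit 1)) (T.nw (T.ts (nat_lit 3) (T.ls (nat_lit 2) (nat_lit 3)) (T.ts (nat_lit 2) (T.ls (nat_lit 3) (nat_lit 4)) (T.ts (nat_lit 1) (T.ls (nat_lit 2) (nat_lit 4)) (T.ts (nat_lit 0) (T.ls (nat_lit 2) (nat_lit 3)) (T.ts (nat_lit 4) (T.im (nat_lit 7) (nat_lit 2)) T.ie)))))))))) (T.ts (nat_lit 1) (T.ts (nat_lit 3) (T.ts (nat_lit 3) (T.ls (nat_lit 2) (nat_lit 3)) (T.ts (nat_lit 2) (T.ls (nat_lit 3) (nat_lit 4)) (T.ts (nat_lit 0) (T.ls (nat_lit 2) (nat_lit 4)) (T.ts (nat_lit 1) (T.im (nat_lit 7) (nat_lit 2)) (T.nw (T.ls (nat_lit 2) (nat_lit 3))))))) (T.ts (nat_lit 2) (T.ts (nat_lit 3) (T.ls (nat_lit 2) (nat_lit 3)) (T.ts (nat_lit 2) (T.ls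 (nat_lit 2) (nat_lit 3)) (T.ts (nat_lit 1) (T.im (nat_lit 7) (nat_lit 2)) (T.ts (nat_lit 0) (T.im (nat_lit 5) (nat_lit 3)) (T.nw (T.ls (nat_lit 2) (nat_lit 3))))))) (T.ts (nat_lit 0) (T.ts (nat_lit 3) (T.ls (nat_lit 2) (nat_lit 4)) (T.ts (nat_lit 2) (T.ls (nat_lit 2) (nat_lit 3)) (T.ts (nat_lit 0) (T.ls (nat_lit 2) (nat_lit 4)) (T.ts (nat_lit 1) (T.im (nat_lit 7) (nat_lit 2)) (T.nw (T.ls (nat_lit 2) (nat_lit 3))))))) (T.ts (nat_lit 1) (T.im (nat_lit 7) (nat_lit 1)) (T.nw (T.ts (nat_lit 4) (T.ls (nat_lit 2) (nat_lit 3)) (T.ts (nat_lit 3) (T.ls (nat_lit 2) (nat_lit 3)) (T.ts (nat_lit 1) (T.ls (nat_lit 2) (nat_lit 4)) (T.ts (nat_lit 0) (T.ls (nat_lit 2) (nat_lit 3)) (T.ts (nat_lit 2) (T.im (nat_lit 7) (nat_lit 2)) T.ie)))))))))) d823))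
def d825 : T := (T.ts (nat_lit 1) (T.ts (nat_lit 4) (T.ts (nat_lit 4) (T.ls (nat_lit 2) (nat_lit 3)) (T.ts (nat_lit 3) (T.ls (nat_lit 2) (nat_lit 4)) (T.ts (nat_lit 2) (T.ls (nat_lit 3) (nat_lit 4)) (T.ts (nat_lit 0) (T.ls (nat_lit 2) (nat_lit 3)) (T.ts (nat_lit 1) (T.im (nat_lit 7) (nat_lit 2)) T.ie))))) (T.ts (nat_lit 3) (T.ts (nat_lit 4) (T.ls (nat_lit 2) (nat_lit 3)) (T.ts (nat_lit 2) (T.ls (nat_lit 3) (nat_lit 4)) (T.ts (nat_lit 3) (T.im (nat_lit 3) (nat_lit 4)) (T.ts (nat_lit 1) (T.im (nat_lit 7) (nat_lit 2)) (T.ts (nat_lit 0) (T.im (nat_lit 5) (nat_lit 3)) T.ie))))) (T.ts (nat_lit 2) (T.ts (nat_lit 4) (T.ls (nat_lit 3) (nat_lit 4)) (T.ts (nat_lit 3) (T.ls (nat_lit 2) (nat_lit 3)) (T.ts (nat_lit 2) (T.ls (nat_lit 3) (nat_lit 4)) (T.ts (nat_lit 0) (T.ls (nat_lit 2) (nat_lit 3))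 (T.ts (nat_lit 1) (T.im (nat_lit 7) (nat_lit 2)) T.ie))))) (T.ts (nat_lit 0) (T.ts (nat_lit 4) (T.ls (nat_lit 2) (nat_lit 3)) (T.ts (nat_lit 3) (T.ls (nat_lit 2) (nat_lit 3)) (T.ts (nat_lit 2) (T.ls (nat_lit 3) (nat_lit 4)) (T.ts (nat_lit 0) (T.ls (nat_lit 2) (nat_lit 3)) (T.ts (nat_lit 1) (T.im (nat_lit 7) (nat_lit 2)) T.ie))))) (T.ts (nat_lit 1) (T.im (nat_lit 7) (nat_lit 1)) T.ie))))) (T.ts (nat_lit 0) (T.ts (nat_lit 4) (T.ts (nat_lit 4) (T.ls (nat_lit 2) (nat_lit 3)) (T.ts (nat_lit 3) (T.ls (nat_lit 2) (nat_lit 3)) (T.ts (nat_lit 2) (T.ls (nat_lit 3) (nat_lit 4)) (T.ts (nat_lit 1) (T.ls (nat_lit 2) (nat_lit 4)) (T.ts (nat_lit 0) (T.im (nat_lit 7) (nat_lit 2)) T.ie))))) (T.ts (nat_lit 3) (T.ts (nat_lit 4) (T.ls (nat_lit 2) (nat_lit 3)) (T.ts (nat_lit 3) (T.ls (nat_lit 2) (nat_lit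 3)) (T.ts (nat_lit 2) (T.ls (nat_lit 3) (nat_lit 4)) (T.ts (nat_lit 1) (T.ls (nat_lit 2) (nat_lit 4)) (T.ts (nat_lit 0) (T.im (nat_lit 5) (nat_lit 3)) T.ie))))) (T.ts (nat_lit 2) (T.ts (nat_lit 4) (T.ls (nat_lit 3) (nat_lit 4)) (T.ts (nat_lit 3) (T.ls (nat_lit 2) (nat_lit 3)) (T.ts (nat_lit 2) (T.ls (nat_lit 3) (nat_lit 4)) (T.ts (nat_lit 1) (T.ls (nat_lit 2) (nat_lit 4)) (T.ts (nat_lit 0) (T.im (nat_lit 7) (nat_lit 2)) T.ie))))) (T.ts (nat_lit 1) (T.ts (nat_lit 4) (T.ls (nat_lit 2) (nat_lit 4)) (T.ts (nat_lit 3) (T.ls (nat_lit 2) (nat_lit 3)) (T.ts (nat_lit 2) (T.ls (nat_lit 3) (nat_lit 4)) (T.ts (nat_lit 1) (T.ls (nat_lit 2) (nat_lit 4)) (T.ts (nat_lit 0) (T.im (nat_lit 7) (nat_lit 2)) T.ie))))) (T.ts (nat_lit 0) (T.im (nat_lit 7) (nat_lit 1)) T.ie))))) (T.ts (nat_lit 3) (T.im (nat_lit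 5) (nat_lit 2)) T.ie)))
def d826 : T := (T.ts (nat_lit 4) (T.ts (nat_lit 3) (T.ts (nat_lit 3) (T.ls (nat_lit 2) (nat_lit 3)) (T.ts (nat_lit 2) (T.ts (nat_lit 4) (T.ls (nat_lit 3) (nat_lit 4)) (T.ts (nat_lit 1) (T.ls (nat_lit 2) (nat_lit 3)) (T.sk (T.ls (nat_lit 2) (nat_lit 3))))) (T.ts (nat_lit 1) (T.ls (nat_lit 2) (nat_lit 4)) (T.ts (nat_lit 4) (T.im (nat_lit 7) (nat_lit 2)) (T.ts (nat_lit 0) (T.im (nat_lit 5) (nat_lit 3)) T.ie))))) (T.ts (nat_lit 2) (T.ts (nat_lit 3) (T.ls (nat_lit 2) (nat_lit 3)) (T.ts (nat_lit 2) (T.ls (nat_lit 3) (nat_lit 4)) (T.ts (nat_lit 1) (T.ls (nat_lit 2) (nat_lit 4)) (T.ts (nat_lit 0) (T.ls (nat_lit 2) (nat_lit 3)) (T.ts (nat_lit 4) (T.im (nat_lit 7) (nat_lit 2)) T.ie))))) (T.ts (nat_lit 1) (T.ts (nat_lit 3) (T.ls (nat_lit 2) (nat_lit 3)) (T.ts (nat_lit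 2) (T.ls (nat_lit 3) (nat_lit 4)) (T.ts (nat_lit 1) (T.ls (nat_lit 2) (nat_lit 4)) (T.ts (nat_lit 0) (T.ls (nat_lit 2) (nat_lit 3)) (T.ts (nat_lit 4) (T.im (nat_lit 7) (nat_lit 2)) T.ie))))) (T.ts (nat_lit 0) (T.ts (nat_lit 3) (T.ls (nat_lit 2) (nat_lit 3)) (T.ts (nat_lit 2) (T.ls (nat_lit 3) (nat_lit 4)) (T.ts (nat_lit 1) (T.ls (nat_lit 2) (nat_lit 4)) (T.ts (nat_lit 0) (T.ls (nat_lit 2) (nat_lit 3)) (T.ts (nat_lit 4) (T.im (nat_lit 7) (nat_lit 2)) T.ie))))) (T.ts (nat_lit 4) (T.im (nat_lit 7) (nat_lit 1)) T.ie))))) (T.ts (nat_lit 2) (T.ts (nat_lit 4) (T.ts (nat_lit 4) (T.ls (nat_lit 2) (nat_lit 3)) (T.ts (nat_lit 3) (T.ls (nat_lit 3) (nat_lit 4)) (T.ts (nat_lit 1) (T.ls (nat_lit 2) (nat_lit 4)) (T.ts (nat_lit 0) (T.ls (nat_lit 2) (nat_lit 3)) (T.ts (nat_lit 2) (T.im (nat_lit 7)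 (nat_lit 2)) T.ie))))) (T.ts (nat_lit 3) (T.ts (nat_lit 4) (T.ls (nat_lit 2) (nat_lit 3)) (T.ts (nat_lit 3) (T.ls (nat_lit 2) (nat_lit 3)) (T.ts (nat_lit 1) (T.ls (nat_lit 2) (nat_lit 4)) (T.ts (nat_lit 2) (T.im (nat_lit 7) (nat_lit 2)) (T.ts (nat_lit 0) (T.im (nat_lit 5) (nat_lit 3)) T.ie))))) (T.ts (nat_lit 1) (T.ts (nat_lit 4) (T.ls (nat_lit 2) (nat_lit 4)) (T.ts (nat_lit 3) (T.ls (nat_lit 2) (nat_lit 3)) (T.ts (nat_lit 1) (T.ls (nat_lit 2) (nat_lit 4)) (T.ts (nat_lit 0) (T.ls (nat_lit 2) (nat_lit 3)) (T.ts (nat_lit 2) (T.im (nat_lit 7) (nat_lit 2)) T.ie))))) (T.ts (nat_lit 0) (T.ts (nat_lit 4) (T.ls (nat_lit 2) (nat_lit 3)) (T.ts (nat_lit 3) (T.ls (nat_lit 2) (nat_lit 3)) (T.ts (nat_lit 1) (T.ls (nat_lit 2) (nat_lit 4)) (T.ts (nat_lit 0) (T.ls (nat_lit 2) (nat_lit 3)) (T.ts (nat_lit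 2) (T.im (nat_lit 7) (nat_lit 2)) T.ie))))) (T.ts (nat_lit 2) (T.im (nat_lit 7) (nat_lit 1)) T.ie))))) d825))
def d827 : T := (T.tp (T.ts (nat_lit 3) d821 (T.ts (nat_lit 1) (T.ts (nat_lit 3) (T.ts (nat_lit 2) (T.ts (nat_lit 2) (T.ls (nat_lit 2) (nat_lit 3)) (T.ts (nat_lit 0) (T.ls (nat_lit 2) (nat_lit 4)) (T.ts (nat_lit 3) (T.im (nat_lit 7) (nat_lit 2)) (T.ts (nat_lit 1) (T.im (nat_lit 5) (nat_lit 3)) (T.nw (T.ls (nat_lit 2) (nat_lit 3))))))) (T.ts (nat_lit 1) (T.ts (nat_lit 2) (T.ls (nat_lit 2) (nat_lit 3)) (T.ts (nat_lit 1) (T.ls (nat_lit 3) (nat_lit 4)) (T.ts (nat_lit 0) (T.ls (nat_lit 2) (nat_lit 4)) (T.ts (nat_lit 3) (T.im (nat_lit 7) (nat_lit 2)) (T.nw (T.ls (nat_lit 2) (nat_lit 3))))))) (T.ts (nat_lit 0) (T.ts (nat_lit 2) (T.ls (nat_lit 2) (nat_lit 3)) (T.ts (nat_lit 1) (T.ls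 (nat_lit 3) (nat_lit 4)) (T.ts (nat_lit 0) (T.ls (nat_lit 2) (nat_lit 4)) (T.ts (nat_lit 3) (T.im (nat_lit 7) (nat_lit 2)) (T.nw (T.ls (nat_lit 2) (nat_lit 3))))))) (T.ts (nat_lit 3) (T.im (nat_lit 7) (nat_lit 1)) (T.nw (T.ts (nat_lit 3) (T.ls (nat_lit 2) (nat_lit 3)) (T.ts (nat_lit 2) (T.ls (nat_lit 3) (nat_lit 4)) (T.ts (nat_lit 1) (T.ls (nat_lit 2) (nat_lit 4)) (T.ts (nat_lit 0) (T.ls (nat_lit 2) (nat_lit 3)) (T.ts (nat_lit 4) (T.im (nat_lit 7) (nat_lit 2)) T.ie)))))))))) d822) (T.ts (nat_lit 0) d824 (T.ts (nat_lit 2) (T.im (nat_lit 5) (nat_lit 1)) (T.nw d826))))))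
def d828 : T := (T.ts (nat_lit 2) (T.ts (nat_lit 4) (T.ts (nat_lit 3) (T.ts (nat_lit 2) (T.ts (nat_lit 1) (T.ts (nat_lit 3) (T.ts (nat_lit 0) (T.ts (nat_lit 4) (T.ts (nat_lit 3) (T.lf (nat_lit 16569) (nat_lit 3) (nat_lit 20500) (nat_lit 4) (nat_lit 12300)) (T.tp (T.sk (T.ls (nat_lit 2) (nat_lit 3))))) (T.tp (T.sk (T.ls (nat_lit 2) (nat_lit 3))))) (T.tp (T.sk (T.ls (nat_lit 2) (nat_lit 3))))) (T.tp (T.sk (T.ls (nat_lit 2) (nat_lit 3))))) (T.tp (T.sk (T.ls (nat_lit 2) (nat_lit 3))))) (T.tp (T.sk (T.ls (nat_lit 2) (nat_lit 3))))) (T.tp (T.sk (T.ls (nat_lit 2) (nat_lit 3))))) (T.tp (T.sk (T.ls (nat_lit 2) (nat_lit 3))))) (T.ts (nat_lit 1) (T.ts (nat_lit 4) (T.ts (nat_lit 3) (T.ts (nat_lit 2) (T.ts (nat_lit 1) (T.ts (nat_lit 3) (T.ts (nat_lit 0) (T.ts (nat_lit 4) (T.ts (nat_lit 3) (T.lf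 (nat_lit 16569) (nat_lit 2) (nat_lit 20500) (nat_lit 4) (nat_lit 12300)) (T.tp (T.sk (T.ls (nat_lit 2) (nat_lit 3))))) (T.tp (T.sk (T.ls (nat_lit 2) (nat_lit 3))))) (T.tp (T.sk (T.ls (nat_lit 2) (nat_lit 3))))) (T.tp (T.sk (T.ls (nat_lit 2) (nat_lit 3))))) (T.tp (T.sk (T.ls (nat_lit 2) (nat_lit 3))))) (T.tp (T.sk (T.ls (nat_lit 2) (nat_lit 3))))) (T.tp (T.sk (T.ls (nat_lit 2) (nat_lit 3))))) (T.tp (T.sk (T.ls (nat_lit 2) (nat_lit 3))))) (T.tp (T.ts (nat_lit 0) (T.ls (nat_lit 2) (nat_lit 3)) (T.ts (nat_lit 3) (T.im (nat_lit 7) (nat_lit 2)) T.ie)))))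
def d829 : T := (T.ts (nat_lit 4) (T.tp (T.ts (nat_lit 3) (T.ts (nat_lit 2) (T.im (nat_lit 7) (nat_lit 3)) (T.sk (T.ls (nat_lit 2) (nat_lit 3)))) (T.sk (T.ls (nat_lit 2) (nat_lit 3))))) (T.ts (nat_lit 2) (T.ts (nat_lit 4) (T.ts (nat_lit 3) (T.ts (nat_lit 2) (T.ts (nat_lit 1) (T.ts (nat_lit 3) (T.ts (nat_lit 0) (T.ts (nat_lit 4) (T.ts (nat_lit 3) (T.lf (nat_lit 16569) (nat_lit 3) (nat_lit 20500) (nat_lit 4) (nat_lit 12300)) (T.tp (T.sk (T.ls (nat_lit 2) (nat_lit 3))))) (T.tp (T.sk (T.ls (nat_lit 2) (nat_lit 3))))) (T.tp (T.sk (T.ls (nat_lit 2) (nat_lit 3))))) (T.tp (T.sk (T.ls (nat_lit 2) (nat_lit 3))))) (T.tp (T.sk (T.ls (nat_lit 2) (nat_lit 3))))) (T.tp (T.sk (T.ls (nat_lit 2) (nat_lit 3))))) (T.tp (T.sk (T.ls (nat_lit 2) (nat_lit 3))))) (T.tp (T.sk (T.ls (nat_lit 2) (nat_lit 3)))))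 (T.tp (T.ts (nat_lit 1) (T.ts (nat_lit 4) (T.ts (nat_lit 3) (T.ts (nat_lit 2) (T.ts (nat_lit 1) (T.im (nat_lit 7) (nat_lit 4)) (T.sk (T.ls (nat_lit 2) (nat_lit 3)))) (T.sk (T.ls (nat_lit 2) (nat_lit 3)))) (T.sk (T.ls (nat_lit 2) (nat_lit 3)))) (T.ts (nat_lit 3) (T.ls (nat_lit 2) (nat_lit 3)) (T.sk (T.ls (nat_lit 2) (nat_lit 3))))) (T.ts (nat_lit 0) (T.ls (nat_lit 2) (nat_lit 3)) (T.ts (nat_lit 3) (T.im (nat_lit 7) (nat_lit 2)) T.ie))))))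
def d830 : T := (T.ts (nat_lit 2) (T.ts (nat_lit 4) (T.ts (nat_lit 3) (T.ts (nat_lit 2) (T.ts (nat_lit 1) (T.ts (nat_lit 3) (T.ts (nat_lit 0) (T.ts (nat_lit 4) (T.ts (nat_lit 3) (T.lf (nat_lit 16569) (nat_lit 3) (nat_lit 20500) (nat_lit 4) (nat_lit 12300)) (T.tp (T.sk (T.ls (nat_lit 2) (nat_lit 3))))) (T.tp (T.sk (T.ls (nat_lit 2) (nat_lit 3))))) (T.tp (T.sk (T.ls (nat_lit 2) (nat_lit 3))))) (T.tp (T.sk (T.ls (nat_lit 2) (nat_lit 3))))) (T.tp (T.sk (T.ls (nat_lit 2) (nat_lit 3))))) (T.tp (T.sk (T.ls (nat_lit 2) (nat_lit 3))))) (T.tp (T.sk (T.ls (nat_lit 2) (nat_lit 3))))) (T.tp (T.sk (T.ls (nat_lit 2) (nat_lit 3))))) (T.ts (nat_lit 1) (T.ts (nat_lit 4) (T.ts (nat_lit 3) (T.ts (nat_lit 2) (T.ts (nat_lit 1) (T.ts (nat_lit 3) (T.ts (nat_lit 0) (T.ts (nat_lit 4) (T.ts (nat_lit 3) (T.lf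 (nat_lit 16569) (nat_lit 2) (nat_lit 20500) (nat_lit 4) (nat_lit 12300)) (T.tp (T.sk (T.ls (nat_lit 2) (nat_lit 3))))) (T.tp (T.sk (T.ls (nat_lit 2) (nat_lit 3))))) (T.tp (T.sk (T.ls (nat_lit 2) (nat_lit 3))))) (T.tp (T.sk (T.ls (nat_lit 2) (nat_lit 3))))) (T.tp (T.sk (T.ls (nat_lit 2) (nat_lit 3))))) (T.tp (T.sk (T.ls (nat_lit 2) (nat_lit 3))))) (T.tp (T.sk (T.ls (nat_lit 2) (nat_lit 3))))) (T.tp (T.sk (T.ls (nat_lit 2) (nat_lit 3))))) (T.tp (T.ts (nat_lit 0) (T.ls (nat_lit 2) (nat_lit 3)) (T.ts (nat_lit 3) (T.im (nat_lit 7) (nat_lit 2)) T.ie)))))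
def d831 : T := (T.ts (nat_lit 2) (T.ts (nat_lit 4) (T.ts (nat_lit 3) (T.ts (nat_lit 2) (T.ts (nat_lit 1) (T.ts (nat_lit 3) (T.ts (nat_lit 0) (T.ts (nat_lit 4) (T.ts (nat_lit 3) (T.lf (nat_lit 16569) (nat_lit 3) (nat_lit 20500) (nat_lit 4) (nat_lit 12300)) (T.tp (T.sk (T.ls (nat_lit 2) (nat_lit 3))))) (T.tp (T.sk (T.ls (nat_lit 2) (nat_lit 3))))) (T.tp (T.sk (T.ls (nat_lit 2) (nat_lit 3))))) (T.tp (T.sk (T.ls (nat_lit 2) (nat_lit 3))))) (T.tp (T.sk (T.ls (nat_lit 2) (nat_lit 3))))) (T.tp (T.sk (T.ls (nat_lit 2) (nat_lit 3))))) (T.tp (T.sk (T.ls (nat_lit 2) (nat_lit 3))))) (T.tp (T.sk (T.ls (nat_lit 2) (nat_lit 3))))) (T.ts (nat_lit 1) (T.ts (nat_lit 4) (T.ts (nat_lit 3) (T.ts (nat_lit 2) (T.ts (nat_lit 1) (T.ts (nat_lit 3) (T.ts (nat_lit 0) (T.ts (nat_lit 4) (T.ts (nat_lit 3) (T.lf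 (nat_lit 16569) (nat_lit 2) (nat_lit 20500) (nat_lit 4) (nat_lit 12300)) (T.tp (T.sk (T.ls (nat_lit 2) (nat_lit 3))))) (T.tp (T.sk (T.ls (nat_lit 2) (nat_lit 3))))) (T.tp (T.sk (T.ls (nat_lit 2) (nat_lit 3))))) (T.tp (T.sk (T.ls (nat_lit 2) (nat_lit 3))))) (T.tp (T.sk (T.ls (nat_lit 2) (nat_lit 3))))) (T.tp (T.sk (T.ls (nat_lit 2) (nat_lit 3))))) (T.tp (T.sk (T.ls (nat_lit 2) (nat_lit 3))))) (T.tp (T.sk (T.ls (nat_lit 2) (nat_lit 3))))) (T.tp (T.ts (nat_lit 0) (T.ls (nat_lit 2) (nat_lit 3)) (T.ts (nat_lit 4) (T.im (nat_lit 5) (nat_lit 3)) (T.ts (nat_lit 3) (T.im (nat_lit 7) (nat_lit 2)) T.ie))))))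
def d832 : T := (T.ts (nat_lit 2) (T.ts (nat_lit 4) (T.ts (nat_lit 4) (T.ls (nat_lit 2) (nat_lit 3)) (T.ts (nat_lit 3) (T.ls (nat_lit 3) (nat_lit 4)) (T.ts (nat_lit 1) (T.ls (nat_lit 2) (nat_lit 4)) (T.ts (nat_lit 0) (T.ls (nat_lit 2) (nat_lit 3)) (T.ts (nat_lit 2) (T.im (nat_lit 7) (nat_lit 2)) T.ie))))) (T.ts (nat_lit 3) (T.ts (nat_lit 4) (T.ls (nat_lit 2) (nat_lit 3)) (T.ts (nat_lit 3) (T.ls (nat_lit 2) (nat_lit 3)) (T.ts (nat_lit 1) (T.ls (nat_lit 2) (nat_lit 4)) (T.ts (nat_lit 0) (T.ls (nat_lit 2) (nat_lit 3)) (T.ts (nat_lit 2) (T.im (nat_lit 7) (nat_lit 2)) T.ie))))) (T.ts (nat_lit 1) (T.ts (nat_lit 4) (T.ls (nat_lit 2) (nat_lit 4)) (T.ts (nat_lit 3) (T.ls (nat_lit 2) (nat_lit 3)) (T.ts (nat_lit 1) (T.ls (nat_lit 2) (nat_lit 4)) (T.ts (nat_lit 0) (T.ls (nat_lit 2) (nat_lit 3))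 (T.ts (nat_lit 2) (T.im (nat_lit 7) (nat_lit 2)) T.ie))))) (T.ts (nat_lit 0) (T.ts (nat_lit 3) (T.ls (nat_lit 2) (nat_lit 3)) (T.ts (nat_lit 1) (T.ls (nat_lit 2) (nat_lit 4)) (T.ts (nat_lit 0) (T.ls (nat_lit 2) (nat_lit 3)) (T.ts (nat_lit 4) (T.im (nat_lit 5) (nat_lit 3)) (T.ts (nat_lit 2) (T.im (nat_lit 7) (nat_lit 2)) T.ie))))) (T.ts (nat_lit 2) (T.im (nat_lit 7) (nat_lit 1)) T.ie))))) (T.ts (nat_lit 1) (T.ts (nat_lit 4) (T.ts (nat_lit 4) (T.ls (nat_lit 2) (nat_lit 3)) (T.ts (nat_lit 3) (T.ls (nat_lit 2) (nat_lit 4)) (T.ts (nat_lit 2) (T.ls (nat_lit 3) (nat_lit 4)) (T.ts (nat_lit 0) (T.ls (nat_lit 2) (nat_lit 3)) (T.ts (nat_lit 1) (T.im (nat_lit 7) (nat_lit 2)) T.ie))))) (T.ts (nat_lit 3) (T.ts (nat_lit 4) (T.ls (nat_lit 2) (nat_lit 3)) (T.ts (nat_lit 3) (T.ls (nat_lit 2) (nat_lit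 3)) (T.ts (nat_lit 2) (T.ls (nat_lit 3) (nat_lit 4)) (T.ts (nat_lit 1) (T.im (nat_lit 7) (nat_lit 2)) (T.ts (nat_lit 0) (T.im (nat_lit 3) (nat_lit 4)) T.ie))))) (T.ts (nat_lit 2) (T.ts (nat_lit 4) (T.ls (nat_lit 3) (nat_lit 4)) (T.ts (nat_lit 3) (T.ls (nat_lit 2) (nat_lit 3)) (T.ts (nat_lit 2) (T.ls (nat_lit 3) (nat_lit 4)) (T.ts (nat_lit 0) (T.ls (nat_lit 2) (nat_lit 3)) (T.ts (nat_lit 1) (T.im (nat_lit 7) (nat_lit 2)) T.ie))))) (T.ts (nat_lit 0) (T.ts (nat_lit 3) (T.ls (nat_lit 2) (nat_lit 3)) (T.ts (nat_lit 2) (T.ls (nat_lit 3) (nat_lit 4)) (T.ts (nat_lit 0) (T.ls (nat_lit 2) (nat_lit 3)) (T.ts (nat_lit 4) (T.im (nat_lit 5) (nat_lit 3)) (T.ts (nat_lit 1) (T.im (nat_lit 7) (nat_lit 2)) T.ie))))) (T.ts (nat_lit 1) (T.im (nat_lit 7) (nat_lit 1)) T.ie))))) (T.ts (nat_lit 0) (T.im (nat_lit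 5) (nat_lit 2)) T.ie)))
def d833 : T := (T.ts (nat_lit 4) (T.tp (T.ts (nat_lit 3) (T.ts (nat_lit 3) (T.ls (nat_lit 2) (nat_lit 3)) (T.ts (nat_lit 2) (T.ls (nat_lit 3) (nat_lit 4)) (T.ts (nat_lit 1) (T.ls (nat_lit 2) (nat_lit 4)) (T.ts (nat_lit 0) (T.ls (nat_lit 2) (nat_lit 3)) (T.ts (nat_lit 4) (T.im (nat_lit 7) (nat_lit 2)) T.ie))))) (T.ts (nat_lit 2) (T.ts (nat_lit 3) (T.ls (nat_lit 2) (nat_lit 3)) (T.ts (nat_lit 2) (T.ls (nat_lit 3) (nat_lit 4)) (T.ts (nat_lit 1) (T.ls (nat_lit 2) (nat_lit 4)) (T.ts (nat_lit 0) (T.ls (nat_lit 2) (nat_lit 3)) (T.ts (nat_lit 4) (T.im (nat_lit 7) (nat_lit 2)) T.ie))))) (T.ts (nat_lit 1) (T.ts (nat_lit 3) (T.ls (nat_lit 2) (nat_lit 3)) (T.ts (nat_lit 2) (T.ls (nat_lit 3) (nat_lit 4)) (T.ts (nat_lit 1) (T.ls (nat_lit 2) (nat_lit 4)) (T.ts (nat_lit 0)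 (T.ls (nat_lit 2) (nat_lit 3)) (T.ts (nat_lit 4) (T.im (nat_lit 7) (nat_lit 2)) T.ie))))) (T.ts (nat_lit 0) (T.ts (nat_lit 3) (T.ls (nat_lit 2) (nat_lit 3)) (T.ts (nat_lit 2) (T.ls (nat_lit 3) (nat_lit 4)) (T.ts (nat_lit 1) (T.ls (nat_lit 2) (nat_lit 4)) (T.ts (nat_lit 0) (T.ls (nat_lit 2) (nat_lit 3)) (T.ts (nat_lit 4) (T.im (nat_lit 5) (nat_lit 3)) T.ie))))) (T.ts (nat_lit 4) (T.im (nat_lit 7) (nat_lit 1)) T.ie)))))) (T.ts (nat_lit 3) (T.ts (nat_lit 4) (T.ts (nat_lit 4) (T.ls (nat_lit 2) (nat_lit 3)) d828) (T.ts (nat_lit 2) d829 (T.ts (nat_lit 1) (T.ts (nat_lit 4) (T.ts (nat_lit 3) (T.ts (nat_lit 2) (T.ts (nat_lit 1) (T.ts (nat_lit 3) (T.ts (nat_lit 0) (T.ts (nat_lit 4) (T.lf (nat_lit 16569) (nat_lit 2) (nat_lit 20500) (nat_lit 4) (nat_lit 12300)) (T.tp (T.sk (T.ls (nat_lit 2) (nat_lit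 3))))) (T.tp (T.sk (T.ls (nat_lit 2) (nat_lit 3))))) (T.tp (T.sk (T.ls (nat_lit 2) (nat_lit 3))))) (T.tp (T.sk (T.ls (nat_lit 2) (nat_lit 3))))) (T.tp (T.sk (T.ls (nat_lit 2) (nat_lit 3))))) (T.tp (T.sk (T.ls (nat_lit 2) (nat_lit 3))))) d830) (T.ts (nat_lit 0) d831 (T.tp (T.ts (nat_lit 3) (T.im (nat_lit 7) (nat_lit 1)) T.ie)))))) (T.tp d832)))
def d834 : T := (T.ts (nat_lit 2) (T.ts (nat_lit 4) (T.ts (nat_lit 4) (T.ls (nat_lit 2) (nat_lit 3)) (T.ts (nat_lit 3) (T.ls (nat_lit 3) (nat_lit 4)) (T.ts (nat_lit 1) (T.ls (nat_lit 2) (nat_lit 4)) (T.ts (nat_lit 0) (T.ls (nat_lit 2) (nat_lit 3)) (T.ts (nat_lit 2) (T.im (nat_lit 7) (nat_lit 2)) T.ie))))) (T.ts (nat_lit 3) (T.ts (nat_lit 4) (T.ls (nat_lit 2) (nat_lit 3)) (T.ts (nat_lit 3) (T.ls (nat_lit 2) (nat_lit 3)) (T.ts (nat_lit 1) (T.ls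 (nat_lit 2) (nat_lit 4)) (T.ts (nat_lit 0) (T.ls (nat_lit 2) (nat_lit 3)) (T.ts (nat_lit 2) (T.im (nat_lit 7) (nat_lit 2)) T.ie))))) (T.ts (nat_lit 1) (T.ts (nat_lit 4) (T.ls (nat_lit 2) (nat_lit 4)) (T.ts (nat_lit 1) (T.ls (nat_lit 2) (nat_lit 4)) (T.ts (nat_lit 0) (T.ls (nat_lit 2) (nat_lit 3)) (T.ts (nat_lit 3) (T.im (nat_lit 1) (nat_lit 5)) (T.ts (nat_lit 2) (T.im (nat_lit 7) (nat_lit 2)) T.ie))))) (T.ts (nat_lit 0) (T.ts (nat_lit 4) (T.ls (nat_lit 2) (nat_lit 3)) (T.ts (nat_lit 1) (T.ls (nat_lit 2) (nat_lit 4)) (T.ts (nat_lit 0) (T.ls (nat_lit 2) (nat_lit 3)) (T.ts (nat_lit 3) (T.im (nat_lit 5) (nat_lit 3)) (T.ts (nat_lit 2) (T.im (nat_lit 7) (nat_lit 2)) T.ie))))) (T.ts (nat_lit 2) (T.im (nat_lit 7) (nat_lit 1)) T.ie))))) (T.ts (nat_lit 1) (T.ts (nat_lit 4) (T.ts (nat_lit 4)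 (T.ls (nat_lit 2) (nat_lit 3)) (T.ts (nat_lit 3) (T.ls (nat_lit 2) (nat_lit 4)) (T.ts (nat_lit 2) (T.ls (nat_lit 3) (nat_lit 4)) (T.ts (nat_lit 0) (T.ls (nat_lit 2) (nat_lit 3)) (T.ts (nat_lit 1) (T.im (nat_lit 7) (nat_lit 2)) T.ie))))) (T.ts (nat_lit 3) (T.ts (nat_lit 4) (T.ls (nat_lit 2) (nat_lit 3)) (T.ts (nat_lit 3) (T.ls (nat_lit 2) (nat_lit 3)) (T.ts (nat_lit 2) (T.ls (nat_lit 3) (nat_lit 4)) (T.ts (nat_lit 1) (T.im (nat_lit 7) (nat_lit 2)) (T.ts (nat_lit 0) (T.im (nat_lit 3) (nat_lit 4)) T.ie))))) (T.ts (nat_lit 2) (T.ts (nat_lit 4) (T.ls (nat_lit 3) (nat_lit 4)) (T.ts (nat_lit 3) (T.ls (nat_lit 2) (nat_lit 3)) (T.ts (nat_lit 2) (T.ls (nat_lit 3) (nat_lit 4)) (T.ts (nat_lit 0) (T.ls (nat_lit 2) (nat_lit 3)) (T.ts (nat_lit 1) (T.im (nat_lit 7) (nat_lit 2)) T.ie))))) (T.ts (nat_lit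 0) (T.ts (nat_lit 4) (T.ls (nat_lit 2) (nat_lit 3)) (T.ts (nat_lit 2) (T.ls (nat_lit 3) (nat_lit 4)) (T.ts (nat_lit 0) (T.ls (nat_lit 2) (nat_lit 3)) (T.ts (nat_lit 3) (T.im (nat_lit 5) (nat_lit 3)) (T.ts (nat_lit 1) (T.im (nat_lit 7) (nat_lit 2)) T.ie))))) (T.ts (nat_lit 1) (T.im (nat_lit 7) (nat_lit 1)) T.ie))))) (T.ts (nat_lit 0) (T.im (nat_lit 5) (nat_lit 2)) T.ie)))
def d835 : T := (T.ts (nat_lit 4) (T.ts (nat_lit 3) (T.ts (nat_lit 3) (T.ls (nat_lit 2) (nat_lit 3)) (T.ts (nat_lit 2) (T.ls (nat_lit 3) (nat_lit 4)) (T.ts (nat_lit 1) (T.ls (nat_lit 2) (nat_lit 4)) (T.ts (nat_lit 0) (T.ls (nat_lit 2) (nat_lit 3)) (T.ts (nat_lit 4) (T.im (nat_lit 7) (nat_lit 2)) T.ie))))) (T.ts (nat_lit 2) (T.ts (nat_lit 3) (T.ls (nat_lit 2) (nat_lit 3)) (T.ts (nat_lit 2) (T.ls (nat_lit 3) (nat_lit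 4)) (T.ts (nat_lit 1) (T.ls (nat_lit 2) (nat_lit 4)) (T.ts (nat_lit 0) (T.ls (nat_lit 2) (nat_lit 3)) (T.ts (nat_lit 4) (T.im (nat_lit 7) (nat_lit 2)) T.ie))))) (T.ts (nat_lit 1) (T.ts (nat_lit 3) (T.ls (nat_lit 2) (nat_lit 3)) (T.ts (nat_lit 2) (T.ls (nat_lit 3) (nat_lit 4)) (T.ts (nat_lit 1) (T.ls (nat_lit 2) (nat_lit 4)) (T.ts (nat_lit 0) (T.ls (nat_lit 2) (nat_lit 3)) (T.ts (nat_lit 4) (T.im (nat_lit 7) (nat_lit 2)) T.ie))))) (T.ts (nat_lit 0) (T.ts (nat_lit 2) (T.ls (nat_lit 3) (nat_lit 4)) (T.ts (nat_lit 1) (T.ls (nat_lit 2) (nat_lit 4)) (T.ts (nat_lit 0) (T.ls (nat_lit 2) (nat_lit 3)) (T.ts (nat_lit 4) (T.im (nat_lit 7) (nat_lit 2)) (T.ts (nat_lit 3) (T.im (nat_lit 5) (nat_lit 3)) T.ie))))) (T.ts (nat_lit 4) (T.im (nat_lit 7) (nat_lit 1)) T.ie))))) (T.ts (nat_lit 3) (T.ts (nat_lit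 4) (T.ts (nat_lit 4) (T.ls (nat_lit 2) (nat_lit 3)) (T.ts (nat_lit 2) (T.ls (nat_lit 3) (nat_lit 4)) (T.ts (nat_lit 1) (T.ls (nat_lit 2) (nat_lit 4)) (T.ts (nat_lit 0) (T.ls (nat_lit 2) (nat_lit 3)) (T.ts (nat_lit 3) (T.im (nat_lit 7) (nat_lit 2)) T.ie))))) (T.ts (nat_lit 2) (T.ts (nat_lit 4) (T.ls (nat_lit 3) (nat_lit 4)) (T.ts (nat_lit 2) (T.ls (nat_lit 3) (nat_lit 4)) (T.ts (nat_lit 1) (T.ls (nat_lit 2) (nat_lit 4)) (T.ts (nat_lit 0) (T.ls (nat_lit 2) (nat_lit 3)) (T.ts (nat_lit 3) (T.im (nat_lit 7) (nat_lit 2)) T.ie))))) (T.ts (nat_lit 1) (T.ts (nat_lit 4) (T.ls (nat_lit 2) (nat_lit 4)) (T.ts (nat_lit 2) (T.ls (nat_lit 3) (nat_lit 4)) (T.ts (nat_lit 1) (T.ls (nat_lit 2) (nat_lit 4)) (T.ts (nat_lit 0) (T.ls (nat_lit 2) (nat_lit 3)) (T.ts (nat_lit 3) (T.im (nat_lit 7) (nat_lit 2))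 T.ie))))) (T.ts (nat_lit 0) (T.ts (nat_lit 4) (T.ls (nat_lit 2) (nat_lit 3)) (T.ts (nat_lit 2) (T.ls (nat_lit 3) (nat_lit 4)) (T.ts (nat_lit 1) (T.ls (nat_lit 2) (nat_lit 4)) (T.ts (nat_lit 0) (T.ls (nat_lit 2) (nat_lit 3)) (T.ts (nat_lit 3) (T.im (nat_lit 5) (nat_lit 3)) T.ie))))) (T.ts (nat_lit 3) (T.im (nat_lit 7) (nat_lit 1)) T.ie))))) d834))
def d836 : T := (T.ts (nat_lit 2) (T.ts (nat_lit 4) (T.ts (nat_lit 4) (T.ls (nat_lit 2) (nat_lit 3)) (T.ts (nat_lit 3) (T.ls (nat_lit 3) (nat_lit 4)) (T.ts (nat_lit 1) (T.ls (nat_lit 2) (nat_lit 4)) (T.ts (nat_lit 0) (T.ls (nat_lit 2) (nat_lit 3)) (T.ts (nat_lit 2) (T.im (nat_lit 7) (nat_lit 2)) T.ie))))) (T.ts (nat_lit 3) (T.ts (nat_lit 4) (T.ls (nat_lit 2) (nat_lit 3)) (T.ts (nat_lit 3) (T.ls (nat_lit 2) (nat_lit 3)) (T.ts (nat_lit 1) (T.ls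 (nat_lit 2) (nat_lit 4)) (T.ts (nat_lit 0) (T.ls (nat_lit 2) (nat_lit 3)) (T.ts (nat_lit 2) (T.im (nat_lit 7) (nat_lit 2)) T.ie))))) (T.ts (nat_lit 1) (T.ts (nat_lit 4) (T.ls (nat_lit 2) (nat_lit 4)) (T.ts (nat_lit 3) (T.ls (nat_lit 2) (nat_lit 3)) (T.ts (nat_lit 1) (T.ls (nat_lit 2) (nat_lit 4)) (T.ts (nat_lit 0) (T.ls (nat_lit 2) (nat_lit 3)) (T.ts (nat_lit 2) (T.im (nat_lit 7) (nat_lit 2)) T.ie))))) (T.ts (nat_lit 0) (T.ts (nat_lit 4) (T.ls (nat_lit 2) (nat_lit 3)) (T.ts (nat_lit 3) (T.ls (nat_lit 2) (nat_lit 3)) (T.ts (nat_lit 1) (T.ls (nat_lit 2) (nat_lit 4)) (T.ts (nat_lit 0) (T.ls (nat_lit 2) (nat_lit 3)) (T.ts (nat_lit 2) (T.im (nat_lit 5) (nat_lit 3)) T.ie))))) (T.ts (nat_lit 2) (T.im (nat_lit 7) (nat_lit 1)) T.ie))))) (T.ts (nat_lit 1) (T.ts (nat_lit 4) (T.ts (nat_lit 4)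 (T.ls (nat_lit 2) (nat_lit 3)) (T.ts (nat_lit 3) (T.ls (nat_lit 2) (nat_lit 4)) (T.ts (nat_lit 2) (T.ls (nat_lit 3) (nat_lit 4)) (T.ts (nat_lit 0) (T.ls (nat_lit 2) (nat_lit 3)) (T.ts (nat_lit 1) (T.im (nat_lit 7) (nat_lit 2)) T.ie))))) (T.ts (nat_lit 3) (T.ts (nat_lit 4) (T.ls (nat_lit 2) (nat_lit 3)) (T.ts (nat_lit 3) (T.ls (nat_lit 2) (nat_lit 3)) (T.ts (nat_lit 2) (T.ls (nat_lit 3) (nat_lit 4)) (T.ts (nat_lit 1) (T.im (nat_lit 7) (nat_lit 2)) (T.ts (nat_lit 0) (T.im (nat_lit 3) (nat_lit 4)) T.ie))))) (T.ts (nat_lit 2) (T.ts (nat_lit 4) (T.ls (nat_lit 3) (nat_lit 4)) (T.ts (nat_lit 3) (T.ls (nat_lit 2) (nat_lit 3)) (T.ts (nat_lit 2) (T.ls (nat_lit 3) (nat_lit 4)) (T.ts (nat_lit 0) (T.ls (nat_lit 2) (nat_lit 3)) (T.ts (nat_lit 1) (T.im (nat_lit 7) (nat_lit 2)) T.ie))))) (T.ts (nat_lit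 0) (T.ts (nat_lit 4) (T.ls (nat_lit 2) (nat_lit 3)) (T.ts (nat_lit 3) (T.ls (nat_lit 2) (nat_lit 3)) (T.ts (nat_lit 0) (T.ls (nat_lit 2) (nat_lit 3)) (T.ts (nat_lit 2) (T.im (nat_lit 5) (nat_lit 3)) (T.ts (nat_lit 1) (T.im (nat_lit 7) (nat_lit 2)) T.ie))))) (T.ts (nat_lit 1) (T.im (nat_lit 7) (nat_lit 1)) T.ie))))) (T.ts (nat_lit 0) (T.im (nat_lit 5) (nat_lit 2)) T.ie)))
def d837 : T := (T.ts (nat_lit 4) (T.ts (nat_lit 3) (T.ts (nat_lit 3) (T.ls (nat_lit 2) (nat_lit 3)) (T.ts (nat_lit 2) (T.ls (nat_lit 3) (nat_lit 4)) (T.ts (nat_lit 1) (T.ls (nat_lit 2) (nat_lit 4)) (T.ts (nat_lit 0) (T.ls (nat_lit 2) (nat_lit 3)) (T.ts (nat_lit 4) (T.im (nat_lit 7) (nat_lit 2)) T.ie))))) (T.ts (nat_lit 2) (T.ts (nat_lit 3) (T.ls (nat_lit 2) (nat_lit 3)) (T.ts (nat_lit 2) (T.ls (nat_lit 3) (nat_lit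 4)) (T.ts (nat_lit 1) (T.ls (nat_lit 2) (nat_lit 4)) (T.ts (nat_lit 0) (T.ls (nat_lit 2) (nat_lit 3)) (T.ts (nat_lit 4) (T.im (nat_lit 7) (nat_lit 2)) T.ie))))) (T.ts (nat_lit 1) (T.ts (nat_lit 3) (T.ls (nat_lit 2) (nat_lit 3)) (T.ts (nat_lit 2) (T.ls (nat_lit 3) (nat_lit 4)) (T.ts (nat_lit 1) (T.ls (nat_lit 2) (nat_lit 4)) (T.ts (nat_lit 0) (T.ls (nat_lit 2) (nat_lit 3)) (T.ts (nat_lit 4) (T.im (nat_lit 7) (nat_lit 2)) T.ie))))) (T.ts (nat_lit 0) (T.ts (nat_lit 3) (T.ls (nat_lit 2) (nat_lit 3)) (T.ts (nat_lit 1) (T.ls (nat_lit 2) (nat_lit 4)) (T.ts (nat_lit 0) (T.ls (nat_lit 2) (nat_lit 3)) (T.ts (nat_lit 4) (T.im (nat_lit 7) (nat_lit 2)) (T.ts (nat_lit 2) (T.im (nat_lit 5) (nat_lit 3)) T.ie))))) (T.ts (nat_lit 4) (T.im (nat_lit 7) (nat_lit 1)) T.ie))))) (T.ts (nat_lit 3) (T.ts (nat_lit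 4) (T.ts (nat_lit 4) (T.ls (nat_lit 2) (nat_lit 3)) (T.ts (nat_lit 2) (T.ls (nat_lit 3) (nat_lit 4)) (T.ts (nat_lit 1) (T.ls (nat_lit 2) (nat_lit 4)) (T.ts (nat_lit 0) (T.ls (nat_lit 2) (nat_lit 3)) (T.ts (nat_lit 3) (T.im (nat_lit 7) (nat_lit 2)) T.ie))))) (T.ts (nat_lit 2) (T.ts (nat_lit 4) (T.ls (nat_lit 3) (nat_lit 4)) (T.ts (nat_lit 2) (T.ls (nat_lit 3) (nat_lit 4)) (T.ts (nat_lit 1) (T.ls (nat_lit 2) (nat_lit 4)) (T.ts (nat_lit 0) (T.ls (nat_lit 2) (nat_lit 3)) (T.ts (nat_lit 3) (T.im (nat_lit 7) (nat_lit 2)) T.ie))))) (T.ts (nat_lit 1) (T.ts (nat_lit 4) (T.ls (nat_lit 2) (nat_lit 4)) (T.ts (nat_lit 2) (T.ls (nat_lit 3) (nat_lit 4)) (T.ts (nat_lit 1) (T.ls (nat_lit 2) (nat_lit 4)) (T.ts (nat_lit 0) (T.ls (nat_lit 2) (nat_lit 3)) (T.ts (nat_lit 3) (T.im (nat_lit 7) (nat_lit 2))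 T.ie))))) (T.ts (nat_lit 0) (T.ts (nat_lit 4) (T.ls (nat_lit 2) (nat_lit 3)) (T.ts (nat_lit 1) (T.ls (nat_lit 2) (nat_lit 4)) (T.ts (nat_lit 0) (T.ls (nat_lit 2) (nat_lit 3)) (T.ts (nat_lit 3) (T.im (nat_lit 7) (nat_lit 2)) (T.ts (nat_lit 2) (T.im (nat_lit 5) (nat_lit 3)) T.ie))))) (T.ts (nat_lit 3) (T.im (nat_lit 7) (nat_lit 1)) T.ie))))) d836))
def d838 : T := (T.ts (nat_lit 2) (T.ts (nat_lit 4) (T.ts (nat_lit 4) (T.ls (nat_lit 2) (nat_lit 3)) (T.ts (nat_lit 3) (T.ls (nat_lit 3) (nat_lit 4)) (T.ts (nat_lit 1) (T.ls (nat_lit 2) (nat_lit 4)) (T.ts (nat_lit 0) (T.ls (nat_lit 2) (nat_lit 3)) (T.ts (nat_lit 2) (T.im (nat_lit 7) (nat_lit 2)) T.ie))))) (T.ts (nat_lit 3) (T.ts (nat_lit 4) (T.ls (nat_lit 2) (nat_lit 3)) (T.ts (nat_lit 3) (T.ls (nat_lit 2) (nat_lit 3)) (T.ts (nat_lit 1) (T.ls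 (nat_lit 2) (nat_lit 4)) (T.ts (nat_lit 0) (T.ls (nat_lit 2) (nat_lit 3)) (T.ts (nat_lit 2) (T.im (nat_lit 7) (nat_lit 2)) T.ie))))) (T.ts (nat_lit 1) (T.ts (nat_lit 4) (T.ls (nat_lit 2) (nat_lit 4)) (T.ts (nat_lit 3) (T.ls (nat_lit 2) (nat_lit 3)) (T.ts (nat_lit 1) (T.ls (nat_lit 2) (nat_lit 4)) (T.ts (nat_lit 0) (T.ls (nat_lit 2) (nat_lit 3)) (T.ts (nat_lit 2) (T.im (nat_lit 7) (nat_lit 2)) T.ie))))) (T.ts (nat_lit 0) (T.ts (nat_lit 4) (T.ls (nat_lit 2) (nat_lit 3)) (T.ts (nat_lit 3) (T.ls (nat_lit 2) (nat_lit 3)) (T.ts (nat_lit 0) (T.ls (nat_lit 2) (nat_lit 3)) (T.ts (nat_lit 2) (T.im (nat_lit 7) (nat_lit 2)) (T.ts (nat_lit 1) (T.im (nat_lit 5) (nat_lit 3)) T.ie))))) (T.ts (nat_lit 2) (T.im (nat_lit 7) (nat_lit 1)) T.ie))))) (T.ts (nat_lit 1) (T.ts (nat_lit 4) (T.ts (nat_lit 4)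 (T.ls (nat_lit 2) (nat_lit 3)) (T.ts (nat_lit 3) (T.ls (nat_lit 2) (nat_lit 4)) (T.ts (nat_lit 2) (T.ls (nat_lit 3) (nat_lit 4)) (T.ts (nat_lit 0) (T.ls (nat_lit 2) (nat_lit 3)) (T.ts (nat_lit 1) (T.im (nat_lit 7) (nat_lit 2)) T.ie))))) (T.ts (nat_lit 3) (T.ts (nat_lit 4) (T.ls (nat_lit 2) (nat_lit 3)) (T.ts (nat_lit 3) (T.ls (nat_lit 2) (nat_lit 3)) (T.ts (nat_lit 2) (T.ls (nat_lit 3) (nat_lit 4)) (T.ts (nat_lit 1) (T.im (nat_lit 7) (nat_lit 2)) (T.ts (nat_lit 0) (T.im (nat_lit 3) (nat_lit 4)) T.ie))))) (T.ts (nat_lit 2) (T.ts (nat_lit 4) (T.ls (nat_lit 3) (nat_lit 4)) (T.ts (nat_lit 3) (T.ls (nat_lit 2) (nat_lit 3)) (T.ts (nat_lit 2) (T.ls (nat_lit 3) (nat_lit 4)) (T.ts (nat_lit 0) (T.ls (nat_lit 2) (nat_lit 3)) (T.ts (nat_lit 1) (T.im (nat_lit 7) (nat_lit 2)) T.ie))))) (T.ts (nat_lit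 0) (T.ts (nat_lit 4) (T.ls (nat_lit 2) (nat_lit 3)) (T.ts (nat_lit 3) (T.ls (nat_lit 2) (nat_lit 3)) (T.ts (nat_lit 2) (T.ls (nat_lit 3) (nat_lit 4)) (T.ts (nat_lit 0) (T.ls (nat_lit 2) (nat_lit 3)) (T.ts (nat_lit 1) (T.im (nat_lit 5) (nat_lit 3)) T.ie))))) (T.ts (nat_lit 1) (T.im (nat_lit 7) (nat_lit 1)) T.ie))))) (T.ts (nat_lit 3) (T.im (nat_lit 3) (nat_lit 3)) (T.ts (nat_lit 0) (T.im (nat_lit 5) (nat_lit 2)) T.ie))))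
def d839 : T := (T.ts (nat_lit 1) (T.ts (nat_lit 4) (T.ts (nat_lit 3) (T.ts (nat_lit 3) (T.ls (nat_lit 2) (nat_lit 3)) (T.ts (nat_lit 2) (T.ts (nat_lit 4) (T.ls (nat_lit 3) (nat_lit 4)) (T.ts (nat_lit 1) (T.ls (nat_lit 2) (nat_lit 4)) (T.sk (T.ls (nat_lit 2) (nat_lit 3))))) (T.ts (nat_lit 1) (T.ls (nat_lit 2) (nat_lit 4)) (T.ts (nat_lit 0) (T.ls (nat_lit 2) (nat_lit 3)) (T.ts (nat_lit 4) (T.im (nat_lit 7) (nat_lit 2)) T.ie))))) (T.ts (nat_lit 2) (T.ts (nat_lit 3) (T.ls (nat_lit 2) (nat_lit 3)) (T.ts (nat_lit 2) (T.ls (nat_lit 3) (nat_lit 4)) (T.ts (nat_lit 1) (T.ls (nat_lit 2) (nat_lit 4)) (T.ts (nat_lit 0) (T.ls (nat_lit 2) (nat_lit 3)) (T.ts (nat_lit 4) (T.im (nat_lit 7) (nat_lit 2)) T.ie))))) (T.ts (nat_lit 1) (T.ts (nat_lit 3) (T.ls (nat_lit 2) (nat_lit 3)) (T.ts (nat_lit 2) (T.ls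 (nat_lit 3) (nat_lit 4)) (T.ts (nat_lit 1) (T.ls (nat_lit 2) (nat_lit 4)) (T.ts (nat_lit 0) (T.ls (nat_lit 2) (nat_lit 3)) (T.ts (nat_lit 4) (T.im (nat_lit 7) (nat_lit 2)) T.ie))))) (T.ts (nat_lit 0) (T.ts (nat_lit 3) (T.ls (nat_lit 2) (nat_lit 3)) (T.ts (nat_lit 2) (T.ls (nat_lit 3) (nat_lit 4)) (T.ts (nat_lit 0) (T.ls (nat_lit 2) (nat_lit 3)) (T.ts (nat_lit 4) (T.im (nat_lit 7) (nat_lit 2)) (T.ts (nat_lit 1) (T.im (nat_lit 5) (nat_lit 3)) T.ie))))) (T.ts (nat_lit 4) (T.im (nat_lit 7) (nat_lit 1)) T.ie))))) d838) (T.ts (nat_lit 0) (T.im (nat_lit 5) (nat_lit 1)) T.ie))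
def d840 : T := (T.ts (nat_lit 1) (T.im (nat_lit 1) (nat_lit 3)) (T.ts (nat_lit 0) (T.im (nat_lit 3) (nat_lit 2)) (T.nw (T.ts (nat_lit 4) d833 (T.tp (T.ts (nat_lit 3) d835 (T.ts (nat_lit 2) d837 d839)))))))
def d841 : T := (T.ts (nat_lit 0) (T.ts (nat_lit 3) (T.ts (nat_lit 2) (T.ts (nat_lit 1) (T.ts (nat_lit 0) (T.ts (nat_lit 1) (T.ts (nat_lit 3) (T.ts (nat_lit 2) (T.ts (nat_lit 1) (T.l1 (nat_lit 12300) (nat_lit 4) (nat_lit 20500)) (T.tp (T.sk (T.ls (nat_lit 3) (nat_lit 4))))) (T.tp (T.sk (T.ls (nat_lit 3) (nat_lit 4))))) (T.tp (T.sk (T.ls (nat_lit 3) (nat_lit 4))))) (T.tp (T.sk (T.ls (nat_lit 3) (nat_lit 4))))) (T.tp (T.sk (T.ls (nat_lit 3) (nat_lit 4))))) (T.tp (T.sk (T.ls (nat_lit 3) (nat_lit 4))))) (T.tp (T.sk (T.ls (nat_lit 3) (nat_lit 4))))) (T.tp (T.sk (T.ls (nat_lit 3) (nat_lit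 4))))) (T.ts (nat_lit 2) (T.im (nat_lit 5) (nat_lit 3)) (T.ts (nat_lit 1) (T.im (nat_lit 7) (nat_lit 2)) (T.nw (T.ts (nat_lit 4) (T.ts (nat_lit 3) (T.ts (nat_lit 2) (T.ts (nat_lit 1) (T.ts (nat_lit 2) (T.ts (nat_lit 4) (T.ts (nat_lit 3) (T.ts (nat_lit 2) (T.l1 (nat_lit 12300) (nat_lit 3) (nat_lit 20500)) (T.tp (T.sk (T.ls (nat_lit 3) (nat_lit 4))))) (T.tp (T.sk (T.ls (nat_lit 3) (nat_lit 4))))) (T.tp (T.sk (T.ls (nat_lit 3) (nat_lit 4))))) (T.tp (T.sk (T.ls (nat_lit 3) (nat_lit 4))))) (T.tp (T.sk (T.ls (nat_lit 3) (nat_lit 4))))) (T.tp (T.sk (T.ls (nat_lit 3) (nat_lit 4))))) (T.tp (T.sk (T.ls (nat_lit 3) (nat_lit 4))))) (T.tp (T.sk (T.ls (nat_lit 3) (nat_lit 4)))))))))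
def d842 : T := (T.ts (nat_lit 0) (T.ts (nat_lit 3) (T.ts (nat_lit 2) (T.ts (nat_lit 1) (T.ts (nat_lit 0) (T.ts (nat_lit 1) (T.ts (nat_lit 3) (T.ts (nat_lit 2) (T.ts (nat_lit 1) (T.l1 (nat_lit 12300) (nat_lit 4) (nat_lit 20500)) (T.sk (T.lf (nat_lit 16569) (nat_lit 3) (nat_lit 12300) (nat_lit 4) (nat_lit 20500)))) (T.sk (T.lf (nat_lit 16569) (nat_lit 3) (nat_lit 12300) (nat_lit 4) (nat_lit 20500)))) (T.tp (T.sk (T.ls (nat_lit 3) (nat_lit 4))))) (T.tp (T.sk (T.ls (nat_lit 3) (nat_lit 4))))) (T.tp (T.sk (T.ls (nat_lit 3) (nat_lit 4))))) (T.tp (T.sk (T.ls (nat_lit 3) (nat_lit 4))))) (T.tp (T.sk (T.ls (nat_lit 3) (nat_lit 4))))) (T.tp (T.sk (T.ls (nat_lit 3) (nat_lit 4))))) (T.ts (nat_lit 1) (T.im (nat_lit 7) (nat_lit 2)) (T.nw (T.ts (nat_lit 4) (T.ts (nat_lit 3) (T.ts (nat_lit 2) (T.ts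 (nat_lit 1) (T.ts (nat_lit 2) (T.ts (nat_lit 4) (T.ts (nat_lit 3) (T.ts (nat_lit 2) (T.l1 (nat_lit 12300) (nat_lit 3) (nat_lit 20500)) (T.sk (T.lf (nat_lit 16569) (nat_lit 3) (nat_lit 20500) (nat_lit 4) (nat_lit 12300)))) (T.sk (T.lf (nat_lit 16569) (nat_lit 3) (nat_lit 20500) (nat_lit 4) (nat_lit 12300)))) (T.tp (T.sk (T.ls (nat_lit 3) (nat_lit 4))))) (T.tp (T.sk (T.ls (nat_lit 3) (nat_lit 4))))) (T.tp (T.sk (T.ls (nat_lit 3) (nat_lit 4))))) (T.tp (T.sk (T.ls (nat_lit 3) (nat_lit 4))))) (T.tp (T.sk (T.ls (nat_lit 3) (nat_lit 4))))) (T.tp (T.sk (T.ls (nat_lit 3) (nat_lit 4))))))))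
def d843 : T := (T.ts (nat_lit 1) (T.ts (nat_lit 4) (T.ts (nat_lit 3) (T.ts (nat_lit 2) (T.ts (nat_lit 1) (T.ts (nat_lit 2) (T.ts (nat_lit 4) (T.ts (nat_lit 3) (T.ts (nat_lit 2) (T.l1 (nat_lit 12300) (nat_lit 4) (nat_lit 20500)) (T.tp (T.sk (T.ls (nat_lit 3) (nat_lit 4))))) (T.tp (T.sk (T.ls (nat_lit 3) (nat_lit 4))))) (T.tp (T.sk (T.ls (nat_lit 3) (nat_lit 4))))) (T.tp (T.sk (T.ls (nat_lit 3) (nat_lit 4))))) (T.tp (T.sk (T.ls (nat_lit 3) (nat_lit 4))))) (T.tp (T.sk (T.ls (nat_lit 3) (nat_lit 4))))) (T.tp (T.sk (T.ls (nat_lit 3) (nat_lit 4))))) (T.tp (T.sk (T.ls (nat_lit 3) (nat_lit 4))))) (T.ts (nat_lit 0) (T.ts (nat_lit 4) (T.ts (nat_lit 3) (T.ts (nat_lit 2) (T.ts (nat_lit 1) (T.ts (nat_lit 2) (T.ts (nat_lit 4) (T.ts (nat_lit 3) (T.ts (nat_lit 2) (T.l1 (nat_lit 12300) (nat_lit 3)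 (nat_lit 20500)) (T.tp (T.sk (T.ls (nat_lit 3) (nat_lit 4))))) (T.tp (T.sk (T.ls (nat_lit 3) (nat_lit 4))))) (T.tp (T.sk (T.ls (nat_lit 3) (nat_lit 4))))) (T.tp (T.sk (T.ls (nat_lit 3) (nat_lit 4))))) (T.tp (T.sk (T.ls (nat_lit 3) (nat_lit 4))))) (T.tp (T.sk (T.ls (nat_lit 3) (nat_lit 4))))) (T.tp (T.sk (T.ls (nat_lit 3) (nat_lit 4))))) (T.tp (T.sk (T.ls (nat_lit 3) (nat_lit 4))))) (T.tp (T.ts (nat_lit 2) (T.im (nat_lit 7) (nat_lit 2)) T.ie))))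
def d844 : T := (T.ts (nat_lit 2) (T.ts (nat_lit 3) (T.ls (nat_lit 3) (nat_lit 4)) (T.ts (nat_lit 2) (T.ls (nat_lit 3) (nat_lit 4)) d842)) (T.ts (nat_lit 0) (T.tp (T.ts (nat_lit 3) (T.ts (nat_lit 2) (T.ts (nat_lit 1) (T.im (nat_lit 5) (nat_lit 4)) (T.sk (T.ls (nat_lit 3) (nat_lit 4)))) (T.sk (T.ls (nat_lit 3) (nat_lit 4)))) (T.ts (nat_lit 2) (T.ls (nat_lit 3) (nat_lit 4)) (T.ts (nat_lit 0) (T.ts (nat_lit 3) (T.ts (nat_lit 2) (T.ts (nat_lit 1) (T.ts (nat_lit 0) (T.im (nat_lit 5) (nat_lit 5)) (T.sk (T.ls (nat_lit 3) (nat_lit 4)))) (T.sk (T.ls (nat_lit 3) (nat_lit 4)))) (T.sk (T.ls (nat_lit 3) (nat_lit 4)))) (T.sk (T.ls (nat_lit 3) (nat_lit 4)))) (T.ts (nat_lit 1) (T.im (nat_lit 1) (nat_lit 5)) (T.nw (T.ts (nat_lit 4) (T.ts (nat_lit 3) (T.ts (nat_lit 2) (T.ts (nat_lit 1) (T.im (nat_lit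 5) (nat_lit 5)) (T.sk (T.ls (nat_lit 3) (nat_lit 4)))) (T.sk (T.ls (nat_lit 3) (nat_lit 4)))) (T.sk (T.ls (nat_lit 3) (nat_lit 4)))) (T.sk (T.ls (nat_lit 3) (nat_lit 4)))))))))) (T.ts (nat_lit 1) (T.im (nat_lit 7) (nat_lit 1)) (T.nw (T.ts (nat_lit 4) (T.tp (T.ts (nat_lit 3) (T.ts (nat_lit 2) (T.im (nat_lit 5) (nat_lit 4)) (T.sk (T.ls (nat_lit 3) (nat_lit 4)))) (T.sk (T.ls (nat_lit 3) (nat_lit 4))))) (T.ts (nat_lit 3) (T.ls (nat_lit 3) (nat_lit 4)) d843))))))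
def d845 : T := (T.ts (nat_lit 0) (T.ts (nat_lit 3) (T.ts (nat_lit 3) (T.ls (nat_lit 2) (nat_lit 3)) (T.ts (nat_lit 1) (T.ls (nat_lit 3) (nat_lit 4)) (T.ts (nat_lit 2) (T.im (nat_lit 5) (nat_lit 3)) (T.ts (nat_lit 0) (T.im (nat_lit 7) (nat_lit 2)) (T.nw (T.ls (nat_lit 2) (nat_lit 3))))))) (T.ts (nat_lit 2) (T.ts (nat_lit 3) (T.ls (nat_lit 2) (nat_lit 3)) (T.ts (nat_lit 2) (T.ls (nat_lit 2) (nat_lit 3)) (T.ts (nat_lit 1) (T.ls (nat_lit 3) (nat_lit 4)) (T.ts (nat_lit 0) (T.im (nat_lit 7) (nat_lit 2)) (T.nw (T.ls (nat_lit 2) (nat_lit 3))))))) (T.ts (nat_lit 1) (T.ts (nat_lit 2) (T.ls (nat_lit 2) (nat_lit 3)) (T.ts (nat_lit 1) (T.ls (nat_lit 3) (nat_lit 4)) (T.ts (nat_lit 3) (T.im (nat_lit 3) (nat_lit 4)) (T.ts (nat_lit 0) (T.im (nat_lit 7) (nat_lit 2)) (T.nw (T.ls (nat_lit 2) (nat_lit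 3))))))) (T.ts (nat_lit 0) (T.im (nat_lit 7) (nat_lit 1)) (T.nw (T.ts (nat_lit 4) (T.ls (nat_lit 2) (nat_lit 3)) (T.ts (nat_lit 3) (T.ls (nat_lit 2) (nat_lit 3)) (T.ts (nat_lit 2) (T.ls (nat_lit 3) (nat_lit 4)) (T.ts (nat_lit 0) (T.ls (nat_lit 2) (nat_lit 3)) (T.ts (nat_lit 1) (T.im (nat_lit 7) (nat_lit 2)) T.ie)))))))))) (T.ts (nat_lit 3) (T.im (nat_lit 5) (nat_lit 2)) (T.nw (T.ts (nat_lit 4) (T.ts (nat_lit 4) (T.ls (nat_lit 2) (nat_lit 3)) (T.ts (nat_lit 2) (T.ls (nat_lit 3) (nat_lit 4)) (T.ts (nat_lit 1) (T.ls (nat_lit 2) (nat_lit 4)) (T.ts (nat_lit 3) (T.im (nat_lit 5) (nat_lit 3)) (T.ts (nat_lit 0) (T.im (nat_lit 7) (nat_lit 2)) T.ie))))) (T.ts (nat_lit 3) (T.ts (nat_lit 4) (T.ls (nat_lit 2) (nat_lit 3)) (T.ts (nat_lit 3) (T.ls (nat_lit 2) (nat_lit 3)) (T.ts (nat_lit 2) (T.ls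 (nat_lit 3) (nat_lit 4)) (T.ts (nat_lit 1) (T.ls (nat_lit 2) (nat_lit 4)) (T.ts (nat_lit 0) (T.im (nat_lit 7) (nat_lit 2)) T.ie))))) (T.ts (nat_lit 2) (T.ts (nat_lit 4) (T.ls (nat_lit 3) (nat_lit 4)) (T.ts (nat_lit 3) (T.ls (nat_lit 2) (nat_lit 3)) (T.ts (nat_lit 2) (T.ls (nat_lit 3) (nat_lit 4)) (T.ts (nat_lit 1) (T.ls (nat_lit 2) (nat_lit 4)) (T.ts (nat_lit 0) (T.im (nat_lit 7) (nat_lit 2)) T.ie))))) (T.ts (nat_lit 1) (T.ts (nat_lit 4) (T.ls (nat_lit 2) (nat_lit 4)) (T.ts (nat_lit 3) (T.ls (nat_lit 2) (nat_lit 3)) (T.ts (nat_lit 2) (T.ls (nat_lit 3) (nat_lit 4)) (T.ts (nat_lit 1) (T.ls (nat_lit 2) (nat_lit 4)) (T.ts (nat_lit 0) (T.im (nat_lit 7) (nat_lit 2)) T.ie))))) (T.ts (nat_lit 0) (T.im (nat_lit 7) (nat_lit 1)) T.ie))))))))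
def d846 : T := (T.ts (nat_lit 0) (T.ts (nat_lit 3) (T.ts (nat_lit 3) (T.ls (nat_lit 2) (nat_lit 3)) (T.ts (nat_lit 2) (T.ls (nat_lit 2) (nat_lit 4)) (T.ts (nat_lit 1) (T.im (nat_lit 5) (nat_lit 3)) (T.ts (nat_lit 0) (T.im (nat_lit 7) (nat_lit 2)) (T.nw (T.ls (nat_lit 2) (nat_lit 3))))))) (T.ts (nat_lit 2) (T.ts (nat_lit 3) (T.ls (nat_lit 2) (nat_lit 3)) (T.ts (nat_lit 2) (T.ls (nat_lit 2) (nat_lit 3)) (T.ts (nat_lit 1) (T.ls (nat_lit 3) (nat_lit 4)) (T.ts (nat_lit 0) (T.im (nat_lit 7) (nat_lit 2)) (T.nw (T.ls (nat_lit 2) (nat_lit 3))))))) (T.ts (nat_lit 1) (T.ts (nat_lit 2) (T.ls (nat_lit 2) (nat_lit 3)) (T.ts (nat_lit 1) (T.ls (nat_lit 3) (nat_lit 4)) (T.ts (nat_lit 3) (T.im (nat_lit 3) (nat_lit 4)) (T.ts (nat_lit 0) (T.im (nat_lit 7) (nat_lit 2)) (T.nw (T.ls (nat_lit 2) (nat_lit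 3))))))) (T.ts (nat_lit 0) (T.im (nat_lit 7) (nat_lit 1)) (T.nw (T.ts (nat_lit 4) (T.ls (nat_lit 2) (nat_lit 3)) (T.ts (nat_lit 3) (T.ls (nat_lit 2) (nat_lit 3)) (T.ts (nat_lit 2) (T.ls (nat_lit 3) (nat_lit 4)) (T.ts (nat_lit 0) (T.ls (nat_lit 2) (nat_lit 3)) (T.ts (nat_lit 1) (T.im (nat_lit 7) (nat_lit 2)) T.ie)))))))))) (T.ts (nat_lit 3) (T.im (nat_lit 5) (nat_lit 2)) (T.nw (T.ts (nat_lit 4) (T.ts (nat_lit 4) (T.ls (nat_lit 2) (nat_lit 3)) (T.ts (nat_lit 3) (T.ls (nat_lit 2) (nat_lit 3)) (T.ts (nat_lit 1) (T.ls (nat_lit 2) (nat_lit 4)) (T.ts (nat_lit 2) (T.im (nat_lit 5) (nat_lit 3)) (T.ts (nat_lit 0) (T.im (nat_lit 7) (nat_lit 2)) T.ie))))) (T.ts (nat_lit 3) (T.ts (nat_lit 4) (T.ls (nat_lit 2) (nat_lit 3)) (T.ts (nat_lit 3) (T.ls (nat_lit 2) (nat_lit 3)) (T.ts (nat_lit 2) (T.ls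 (nat_lit 3) (nat_lit 4)) (T.ts (nat_lit 1) (T.ls (nat_lit 2) (nat_lit 4)) (T.ts (nat_lit 0) (T.im (nat_lit 7) (nat_lit 2)) T.ie))))) (T.ts (nat_lit 2) (T.ts (nat_lit 4) (T.ls (nat_lit 3) (nat_lit 4)) (T.ts (nat_lit 3) (T.ls (nat_lit 2) (nat_lit 3)) (T.ts (nat_lit 2) (T.ls (nat_lit 3) (nat_lit 4)) (T.ts (nat_lit 1) (T.ls (nat_lit 2) (nat_lit 4)) (T.ts (nat_lit 0) (T.im (nat_lit 7) (nat_lit 2)) T.ie))))) (T.ts (nat_lit 1) (T.ts (nat_lit 4) (T.ls (nat_lit 2) (nat_lit 4)) (T.ts (nat_lit 3) (T.ls (nat_lit 2) (nat_lit 3)) (T.ts (nat_lit 2) (T.ls (nat_lit 3) (nat_lit 4)) (T.ts (nat_lit 1) (T.ls (nat_lit 2) (nat_lit 4)) (T.ts (nat_lit 0) (T.im (nat_lit 7) (nat_lit 2)) T.ie))))) (T.ts (nat_lit 0) (T.im (nat_lit 7) (nat_lit 1)) T.ie))))))))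
def d847 : T := (T.ts (nat_lit 2) (T.ts (nat_lit 3) (T.ts (nat_lit 3) (T.ls (nat_lit 2) (nat_lit 3)) (T.ts (nat_lit 0) (T.ls (nat_lit 2) (nat_lit 4)) (T.ts (nat_lit 2) (T.im (nat_lit 7) (nat_lit 2)) (T.ts (nat_lit 1) (T.im (nat_lit 5) (nat_lit 3)) (T.nw (T.ls (nat_lit 2) (nat_lit 3))))))) (T.ts (nat_lit 1) (T.ts (nat_lit 3) (T.ls (nat_lit 3) (nat_lit 4)) (T.ts (nat_lit 1) (T.ls (nat_lit 3) (nat_lit 4)) (T.ts (nat_lit 0) (T.ls (nat_lit 2) (nat_lit 4)) (T.ts (nat_lit 2) (T.im (nat_lit 7) (nat_lit 2)) (T.nw (T.ls (nat_lit 2) (nat_lit 3))))))) (T.ts (nat_lit 0) (T.ts (nat_lit 3) (T.ls (nat_lit 2) (nat_lit 4)) (T.ts (nat_lit 1) (T.ls (nat_lit 3) (nat_lit 4)) (T.ts (nat_lit 0) (T.ls (nat_lit 2) (nat_lit 4)) (T.ts (nat_lit 2) (T.im (nat_lit 7) (nat_lit 2)) (T.nw (T.ls (nat_lit 2) (nat_lit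 3))))))) (T.ts (nat_lit 2) (T.im (nat_lit 7) (nat_lit 1)) (T.nw (T.ts (nat_lit 4) (T.ls (nat_lit 2) (nat_lit 3)) (T.ts (nat_lit 2) (T.ls (nat_lit 3) (nat_lit 4)) (T.ts (nat_lit 1) (T.ls (nat_lit 2) (nat_lit 4)) (T.ts (nat_lit 0) (T.ls (nat_lit 2) (nat_lit 3)) (T.ts (nat_lit 3) (T.im (nat_lit 7) (nat_lit 2)) T.ie)))))))))) (T.ts (nat_lit 1) (T.ts (nat_lit 3) (T.ts (nat_lit 3) (T.ls (nat_lit 2) (nat_lit 3)) (T.ts (nat_lit 2) (T.ls (nat_lit 3) (nat_lit 4)) (T.ts (nat_lit 0) (T.ls (nat_lit 2) (nat_lit 4)) (T.ts (nat_lit 1) (T.im (nat_lit 5) (nat_lit 3)) (T.nw (T.ls (nat_lit 2) (nat_lit 3))))))) (T.ts (nat_lit 2) (T.ts (nat_lit 3) (T.ls (nat_lit 2) (nat_lit 3)) (T.ts (nat_lit 2) (T.ls (nat_lit 2) (nat_lit 3)) (T.ts (nat_lit 0) (T.ls (nat_lit 2) (nat_lit 4)) (T.ts (nat_lit 1) (T.im (nat_lit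 7) (nat_lit 2)) (T.nw (T.ls (nat_lit 2) (nat_lit 3))))))) (T.ts (nat_lit 0) (T.ts (nat_lit 3) (T.ls (nat_lit 2) (nat_lit 4)) (T.ts (nat_lit 2) (T.ls (nat_lit 2) (nat_lit 3)) (T.ts (nat_lit 0) (T.ls (nat_lit 2) (nat_lit 4)) (T.ts (nat_lit 1) (T.im (nat_lit 7) (nat_lit 2)) (T.nw (T.ls (nat_lit 2) (nat_lit 3))))))) (T.ts (nat_lit 1) (T.im (nat_lit 7) (nat_lit 1)) (T.nw (T.ts (nat_lit 4) (T.ls (nat_lit 2) (nat_lit 3)) (T.ts (nat_lit 3) (T.ls (nat_lit 2) (nat_lit 3)) (T.ts (nat_lit 1) (T.ls (nat_lit 2) (nat_lit 4)) (T.ts (nat_lit 0) (T.ls (nat_lit 2) (nat_lit 3)) (T.ts (nat_lit 2) (T.im (nat_lit 7) (nat_lit 2)) T.ie)))))))))) d846))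
def d848 : T := (T.ts (nat_lit 0) (T.ts (nat_lit 3) (T.ts (nat_lit 3) (T.ls (nat_lit 2) (nat_lit 3)) (T.ts (nat_lit 2) (T.ls (nat_lit 2) (nat_lit 4)) (T.ts (nat_lit 1) (T.ls (nat_lit 3) (nat_lit 4)) (T.ts (nat_lit 0) (T.im (nat_lit 5) (nat_lit 3)) (T.nw (T.ls (nat_lit 2) (nat_lit 3))))))) (T.ts (nat_lit 2) (T.ts (nat_lit 3) (T.ls (nat_lit 2) (nat_lit 3)) (T.ts (nat_lit 2) (T.ls (nat_lit 2) (nat_lit 3)) (T.ts (nat_lit 1) (T.ls (nat_lit 3) (nat_lit 4)) (T.ts (nat_lit 0) (T.im (nat_lit 7) (nat_lit 2)) (T.nw (T.ls (nat_lit 2) (nat_lit 3))))))) (T.ts (nat_lit 1) (T.ts (nat_lit 2) (T.ls (nat_lit 2) (nat_lit 3)) (T.ts (nat_lit 1) (T.ls (nat_lit 3) (nat_lit 4)) (T.ts (nat_lit 3) (T.im (nat_lit 3) (nat_lit 4)) (T.ts (nat_lit 0) (T.im (nat_lit 7) (nat_lit 2)) (T.nw (T.ls (nat_lit 2) (nat_lit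 3))))))) (T.ts (nat_lit 0) (T.im (nat_lit 7) (nat_lit 1)) (T.nw (T.ts (nat_lit 4) (T.ls (nat_lit 2) (nat_lit 3)) (T.ts (nat_lit 3) (T.ls (nat_lit 2) (nat_lit 3)) (T.ts (nat_lit 2) (T.ls (nat_lit 3) (nat_lit 4)) (T.ts (nat_lit 0) (T.ls (nat_lit 2) (nat_lit 3)) (T.ts (nat_lit 1) (T.im (nat_lit 7) (nat_lit 2)) T.ie)))))))))) (T.ts (nat_lit 3) (T.im (nat_lit 5) (nat_lit 2)) (T.ts (nat_lit 1) (T.im (nat_lit 3) (nat_lit 3)) (T.nw (T.ts (nat_lit 4) (T.ts (nat_lit 4) (T.ls (nat_lit 2) (nat_lit 3)) (T.ts (nat_lit 3) (T.ls (nat_lit 2) (nat_lit 3)) (T.ts (nat_lit 2) (T.ls (nat_lit 3) (nat_lit 4)) (T.ts (nat_lit 1) (T.im (nat_lit 5) (nat_lit 3)) (T.ts (nat_lit 0) (T.im (nat_lit 7) (nat_lit 2)) T.ie))))) (T.ts (nat_lit 3) (T.ts (nat_lit 4) (T.ls (nat_lit 2) (nat_lit 3)) (T.ts (nat_lit 3) (T.ls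 (nat_lit 2) (nat_lit 3)) (T.ts (nat_lit 2) (T.ls (nat_lit 3) (nat_lit 4)) (T.ts (nat_lit 1) (T.ls (nat_lit 2) (nat_lit 4)) (T.ts (nat_lit 0) (T.im (nat_lit 7) (nat_lit 2)) T.ie))))) (T.ts (nat_lit 2) (T.ts (nat_lit 4) (T.ls (nat_lit 3) (nat_lit 4)) (T.ts (nat_lit 3) (T.ls (nat_lit 2) (nat_lit 3)) (T.ts (nat_lit 2) (T.ls (nat_lit 3) (nat_lit 4)) (T.ts (nat_lit 1) (T.ls (nat_lit 2) (nat_lit 4)) (T.ts (nat_lit 0) (T.im (nat_lit 7) (nat_lit 2)) T.ie))))) (T.ts (nat_lit 1) (T.ts (nat_lit 4) (T.ls (nat_lit 2) (nat_lit 4)) (T.ts (nat_lit 3) (T.ls (nat_lit 2) (nat_lit 3)) (T.ts (nat_lit 2) (T.ls (nat_lit 3) (nat_lit 4)) (T.ts (nat_lit 1) (T.ls (nat_lit 2) (nat_lit 4)) (T.ts (nat_lit 0) (T.im (nat_lit 7) (nat_lit 2)) T.ie))))) (T.ts (nat_lit 0) (T.im (nat_lit 7) (nat_lit 1)) T.ie)))))))))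
def d849 : T := (T.ts (nat_lit 1) (T.ts (nat_lit 4) (T.ts (nat_lit 4) (T.ls (nat_lit 2) (nat_lit 3)) (T.ts (nat_lit 3) (T.ls (nat_lit 2) (nat_lit 4)) (T.ts (nat_lit 2) (T.ls (nat_lit 3) (nat_lit 4)) (T.ts (nat_lit 1) (T.im (nat_lit 7) (nat_lit 2)) (T.ts (nat_lit 0) (T.im (nat_lit 5) (nat_lit 3)) T.ie))))) (T.ts (nat_lit 3) (T.ts (nat_lit 4) (T.ls (nat_lit 2) (nat_lit 3)) (T.ts (nat_lit 3) (T.ls (nat_lit 2) (nat_lit 3)) (T.ts (nat_lit 2) (T.ls (nat_lit 3) (nat_lit 4)) (T.ts (nat_lit 0) (T.ls (nat_lit 2) (nat_lit 3)) (T.ts (nat_lit 1) (T.im (nat_lit 7) (nat_lit 2)) T.ie))))) (T.ts (nat_lit 2) (T.ts (nat_lit 3) (T.ls (nat_lit 2) (nat_lit 3)) (T.ts (nat_lit 2) (T.ls (nat_lit 3) (nat_lit 4)) (T.ts (nat_lit 0) (T.ls (nat_lit 2) (nat_lit 3)) (T.ts (nat_lit 4) (T.im (nat_lit 3) (nat_lit 4))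 (T.ts (nat_lit 1) (T.im (nat_lit 7) (nat_lit 2)) T.ie))))) (T.ts (nat_lit 0) (T.ts (nat_lit 4) (T.ls (nat_lit 2) (nat_lit 3)) (T.ts (nat_lit 3) (T.ls (nat_lit 2) (nat_lit 3)) (T.ts (nat_lit 2) (T.ls (nat_lit 3) (nat_lit 4)) (T.ts (nat_lit 0) (T.ls (nat_lit 2) (nat_lit 3)) (T.ts (nat_lit 1) (T.im (nat_lit 7) (nat_lit 2)) T.ie))))) (T.ts (nat_lit 1) (T.im (nat_lit 7) (nat_lit 1)) T.ie))))) (T.ts (nat_lit 0) (T.ts (nat_lit 4) (T.ts (nat_lit 4) (T.ls (nat_lit 2) (nat_lit 3)) (T.ts (nat_lit 3) (T.ls (nat_lit 2) (nat_lit 3)) (T.ts (nat_lit 2) (T.ls (nat_lit 3) (nat_lit 4)) (T.ts (nat_lit 1) (T.ls (nat_lit 2) (nat_lit 4)) (T.ts (nat_lit 0) (T.im (nat_lit 5) (nat_lit 3)) T.ie))))) (T.ts (nat_lit 3) (T.ts (nat_lit 4) (T.ls (nat_lit 2) (nat_lit 3)) (T.ts (nat_lit 3) (T.ls (nat_lit 2) (nat_lit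 3)) (T.ts (nat_lit 2) (T.ls (nat_lit 3) (nat_lit 4)) (T.ts (nat_lit 1) (T.ls (nat_lit 2) (nat_lit 4)) (T.ts (nat_lit 0) (T.im (nat_lit 7) (nat_lit 2)) T.ie))))) (T.ts (nat_lit 2) (T.ts (nat_lit 4) (T.ls (nat_lit 3) (nat_lit 4)) (T.ts (nat_lit 3) (T.ls (nat_lit 2) (nat_lit 3)) (T.ts (nat_lit 2) (T.ls (nat_lit 3) (nat_lit 4)) (T.ts (nat_lit 1) (T.ls (nat_lit 2) (nat_lit 4)) (T.ts (nat_lit 0) (T.im (nat_lit 7) (nat_lit 2)) T.ie))))) (T.ts (nat_lit 1) (T.ts (nat_lit 4) (T.ls (nat_lit 2) (nat_lit 4)) (T.ts (nat_lit 3) (T.ls (nat_lit 2) (nat_lit 3)) (T.ts (nat_lit 2) (T.ls (nat_lit 3) (nat_lit 4)) (T.ts (nat_lit 1) (T.ls (nat_lit 2) (nat_lit 4)) (T.ts (nat_lit 0) (T.im (nat_lit 7) (nat_lit 2)) T.ie))))) (T.ts (nat_lit 0) (T.im (nat_lit 7) (nat_lit 1)) T.ie))))) (T.ts (nat_lit 4) (T.im (nat_lit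 5) (nat_lit 2)) T.ie)))
def d850 : T := (T.ts (nat_lit 3) (T.ts (nat_lit 4) (T.ts (nat_lit 4) (T.ls (nat_lit 2) (nat_lit 3)) (T.ts (nat_lit 2) (T.ls (nat_lit 3) (nat_lit 4)) (T.ts (nat_lit 1) (T.ls (nat_lit 2) (nat_lit 4)) (T.ts (nat_lit 3) (T.im (nat_lit 7) (nat_lit 2)) (T.ts (nat_lit 0) (T.im (nat_lit 5) (nat_lit 3)) T.ie))))) (T.ts (nat_lit 2) (T.ts (nat_lit 4) (T.ls (nat_lit 3) (nat_lit 4)) (T.ts (nat_lit 2) (T.ls (nat_lit 3) (nat_lit 4)) (T.ts (nat_lit 1) (T.ls (nat_lit 2) (nat_lit 4)) (T.ts (nat_lit 0) (T.ls (nat_lit 2) (nat_lit 3)) (T.ts (nat_lit 3) (T.im (nat_lit 7) (nat_lit 2)) T.ie))))) (T.ts (nat_lit 1) (T.ts (nat_lit 4) (T.ls (nat_lit 2) (nat_lit 4)) (T.ts (nat_lit 2) (T.ls (nat_lit 3) (nat_lit 4)) (T.ts (nat_lit 1) (T.ls (nat_lit 2) (nat_lit 4)) (T.ts (nat_lit 0) (T.ls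 (nat_lit 2) (nat_lit 3)) (T.ts (nat_lit 3) (T.im (nat_lit 7) (nat_lit 2)) T.ie))))) (T.ts (nat_lit 0) (T.ts (nat_lit 4) (T.ls (nat_lit 2) (nat_lit 3)) (T.ts (nat_lit 2) (T.ls (nat_lit 3) (nat_lit 4)) (T.ts (nat_lit 1) (T.ls (nat_lit 2) (nat_lit 4)) (T.ts (nat_lit 0) (T.ls (nat_lit 2) (nat_lit 3)) (T.ts (nat_lit 3) (T.im (nat_lit 7) (nat_lit 2)) T.ie))))) (T.ts (nat_lit 3) (T.im (nat_lit 7) (nat_lit 1)) T.ie))))) (T.ts (nat_lit 2) (T.ts (nat_lit 4) (T.ts (nat_lit 4) (T.ls (nat_lit 2) (nat_lit 3)) (T.ts (nat_lit 3) (T.ls (nat_lit 3) (nat_lit 4)) (T.ts (nat_lit 1) (T.ls (nat_lit 2) (nat_lit 4)) (T.ts (nat_lit 2) (T.im (nat_lit 7) (nat_lit 2)) (T.ts (nat_lit 0) (T.im (nat_lit 5) (nat_lit 3)) T.ie))))) (T.ts (nat_lit 3) (T.ts (nat_lit 4) (T.ls (nat_lit 2) (nat_lit 3)) (T.ts (nat_lit 3)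 (T.ls (nat_lit 2) (nat_lit 3)) (T.ts (nat_lit 1) (T.ls (nat_lit 2) (nat_lit 4)) (T.ts (nat_lit 0) (T.ls (nat_lit 2) (nat_lit 3)) (T.ts (nat_lit 2) (T.im (nat_lit 7) (nat_lit 2)) T.ie))))) (T.ts (nat_lit 1) (T.ts (nat_lit 4) (T.ls (nat_lit 2) (nat_lit 4)) (T.ts (nat_lit 3) (T.ls (nat_lit 2) (nat_lit 3)) (T.ts (nat_lit 1) (T.ls (nat_lit 2) (nat_lit 4)) (T.ts (nat_lit 0) (T.ls (nat_lit 2) (nat_lit 3)) (T.ts (nat_lit 2) (T.im (nat_lit 7) (nat_lit 2)) T.ie))))) (T.ts (nat_lit 0) (T.ts (nat_lit 4) (T.ls (nat_lit 2) (nat_lit 3)) (T.ts (nat_lit 3) (T.ls (nat_lit 2) (nat_lit 3)) (T.ts (nat_lit 1) (T.ls (nat_lit 2) (nat_lit 4)) (T.ts (nat_lit 0) (T.ls (nat_lit 2) (nat_lit 3)) (T.ts (nat_lit 2) (T.im (nat_lit 7) (nat_lit 2)) T.ie))))) (T.ts (nat_lit 2) (T.im (nat_lit 7) (nat_lit 1)) T.ie)))))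 d849))
def d851 : T := (T.ts (nat_lit 2) (T.ts (nat_lit 2) (T.tp (T.ts (nat_lit 3) (T.ts (nat_lit 3) (T.ls (nat_lit 2) (nat_lit 3)) (T.ts (nat_lit 1) (T.ls (nat_lit 3) (nat_lit 4)) (T.ts (nat_lit 0) (T.ls (nat_lit 2) (nat_lit 4)) (T.ts (nat_lit 2) (T.im (nat_lit 5) (nat_lit 3)) (T.nw (T.ls (nat_lit 2) (nat_lit 3))))))) (T.ts (nat_lit 1) (T.ts (nat_lit 3) (T.ls (nat_lit 3) (nat_lit 4)) (T.ts (nat_lit 1) (T.ls (nat_lit 3) (nat_lit 4)) (T.ts (nat_lit 0) (T.ls (nat_lit 2) (nat_lit 4)) (T.ts (nat_lit 2) (T.im (nat_lit 7) (nat_lit 2)) (T.nw (T.ls (nat_lit 2) (nat_lit 3))))))) (T.ts (nat_lit 0) (T.ts (nat_lit 3) (T.ls (nat_lit 2) (nat_lit 4)) (T.ts (nat_lit 1) (T.ls (nat_lit 3) (nat_lit 4)) (T.ts (nat_lit 0) (T.ls (nat_lit 2) (nat_lit 4)) (T.ts (nat_lit 2) (T.im (nat_lit 7) (nat_lit 2))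 (T.nw (T.ls (nat_lit 2) (nat_lit 3))))))) (T.ts (nat_lit 2) (T.im (nat_lit 7) (nat_lit 1)) (T.nw (T.ts (nat_lit 4) (T.ls (nat_lit 2) (nat_lit 3)) (T.ts (nat_lit 2) (T.ls (nat_lit 3) (nat_lit 4)) (T.ts (nat_lit 1) (T.ls (nat_lit 2) (nat_lit 4)) (T.ts (nat_lit 0) (T.ls (nat_lit 2) (nat_lit 3)) (T.ts (nat_lit 3) (T.im (nat_lit 7) (nat_lit 2)) T.ie))))))))))) (T.ts (nat_lit 1) (T.ts (nat_lit 3) (T.ts (nat_lit 3) (T.ls (nat_lit 3) (nat_lit 4)) d841) d844) (T.tp d845))) (T.tp (T.ts (nat_lit 1) d847 (T.ts (nat_lit 0) (T.ts (nat_lit 2) (T.ts (nat_lit 3) (T.ts (nat_lit 3) (T.ls (nat_lit 2) (nat_lit 3)) (T.ts (nat_lit 1) (T.ls (nat_lit 3) (nat_lit 4)) (T.ts (nat_lit 2) (T.im (nat_lit 7) (nat_lit 2)) (T.ts (nat_lit 0) (T.im (nat_lit 5) (nat_lit 3)) (T.nw (T.ls (nat_lit 2) (nat_lit 3))))))) (T.ts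 (nat_lit 1) (T.ts (nat_lit 3) (T.ls (nat_lit 3) (nat_lit 4)) (T.ts (nat_lit 1) (T.ls (nat_lit 3) (nat_lit 4)) (T.ts (nat_lit 0) (T.ls (nat_lit 2) (nat_lit 4)) (T.ts (nat_lit 2) (T.im (nat_lit 7) (nat_lit 2)) (T.nw (T.ls (nat_lit 2) (nat_lit 3))))))) (T.ts (nat_lit 0) (T.ts (nat_lit 3) (T.ls (nat_lit 2) (nat_lit 4)) (T.ts (nat_lit 1) (T.ls (nat_lit 3) (nat_lit 4)) (T.ts (nat_lit 0) (T.ls (nat_lit 2) (nat_lit 4)) (T.ts (nat_lit 2) (T.im (nat_lit 7) (nat_lit 2)) (T.nw (T.ls (nat_lit 2) (nat_lit 3))))))) (T.ts (nat_lit 2) (T.im (nat_lit 7) (nat_lit 1)) (T.nw (T.ts (nat_lit 4) (T.ls (nat_lit 2) (nat_lit 3)) (T.ts (nat_lit 2) (T.ls (nat_lit 3) (nat_lit 4)) (T.ts (nat_lit 1) (T.ls (nat_lit 2) (nat_lit 4)) (T.ts (nat_lit 0) (T.ls (nat_lit 2) (nat_lit 3)) (T.ts (nat_lit 3) (T.im (nat_lit 7)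 (nat_lit 2)) T.ie)))))))))) d848) (T.ts (nat_lit 3) (T.im (nat_lit 5) (nat_lit 1)) (T.nw d850))))))
def d852 : T := (T.ts (nat_lit 0) (T.ts (nat_lit 3) (T.ts (nat_lit 3) (T.ls (nat_lit 2) (nat_lit 3)) (T.ts (nat_lit 2) (T.ls (nat_lit 2) (nat_lit 4)) (T.ts (nat_lit 1) (T.ls (nat_lit 3) (nat_lit 4)) (T.ts (nat_lit 0) (T.im (nat_lit 7) (nat_lit 2)) (T.nw (T.ls (nat_lit 2) (nat_lit 3))))))) (T.ts (nat_lit 2) (T.ts (nat_lit 2) (T.ls (nat_lit 2) (nat_lit 3)) (T.ts (nat_lit 1) (T.ls (nat_lit 3) (nat_lit 4)) (T.ts (nat_lit 3) (T.im (nat_lit 5) (nat_lit 3)) (T.ts (nat_lit 0) (T.im (nat_lit 7) (nat_lit 2)) (T.nw (T.ls (nat_lit 2) (nat_lit 3))))))) (T.ts (nat_lit 1) (T.ts (nat_lit 3) (T.ls (nat_lit 3) (nat_lit 4)) (T.ts (nat_lit 1) (T.ls (nat_lit 3) (nat_lit 4)) (T.ts (nat_lit 2) (T.im (nat_lit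 3) (nat_lit 4)) (T.ts (nat_lit 0) (T.im (nat_lit 7) (nat_lit 2)) (T.nw (T.ls (nat_lit 2) (nat_lit 3))))))) (T.ts (nat_lit 0) (T.im (nat_lit 7) (nat_lit 1)) (T.nw (T.ts (nat_lit 4) (T.ls (nat_lit 2) (nat_lit 3)) (T.ts (nat_lit 3) (T.ls (nat_lit 2) (nat_lit 3)) (T.ts (nat_lit 2) (T.ls (nat_lit 3) (nat_lit 4)) (T.ts (nat_lit 0) (T.ls (nat_lit 2) (nat_lit 3)) (T.ts (nat_lit 1) (T.im (nat_lit 7) (nat_lit 2)) T.ie)))))))))) (T.ts (nat_lit 2) (T.im (nat_lit 5) (nat_lit 2)) (T.nw (T.ts (nat_lit 4) (T.ts (nat_lit 4) (T.ls (nat_lit 2) (nat_lit 3)) (T.ts (nat_lit 3) (T.ls (nat_lit 2) (nat_lit 3)) (T.ts (nat_lit 2) (T.ls (nat_lit 3) (nat_lit 4)) (T.ts (nat_lit 1) (T.ls (nat_lit 2) (nat_lit 4)) (T.ts (nat_lit 0) (T.im (nat_lit 7) (nat_lit 2)) T.ie))))) (T.ts (nat_lit 3) (T.ts (nat_lit 3) (T.ls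 (nat_lit 2) (nat_lit 3)) (T.ts (nat_lit 2) (T.ls (nat_lit 3) (nat_lit 4)) (T.ts (nat_lit 1) (T.ls (nat_lit 2) (nat_lit 4)) (T.ts (nat_lit 4) (T.im (nat_lit 5) (nat_lit 3)) (T.ts (nat_lit 0) (T.im (nat_lit 7) (nat_lit 2)) T.ie))))) (T.ts (nat_lit 2) (T.ts (nat_lit 4) (T.ls (nat_lit 3) (nat_lit 4)) (T.ts (nat_lit 3) (T.ls (nat_lit 2) (nat_lit 3)) (T.ts (nat_lit 2) (T.ls (nat_lit 3) (nat_lit 4)) (T.ts (nat_lit 1) (T.ls (nat_lit 2) (nat_lit 4)) (T.ts (nat_lit 0) (T.im (nat_lit 7) (nat_lit 2)) T.ie))))) (T.ts (nat_lit 1) (T.ts (nat_lit 4) (T.ls (nat_lit 2) (nat_lit 4)) (T.ts (nat_lit 3) (T.ls (nat_lit 2) (nat_lit 3)) (T.ts (nat_lit 2) (T.ls (nat_lit 3) (nat_lit 4)) (T.ts (nat_lit 1) (T.ls (nat_lit 2) (nat_lit 4)) (T.ts (nat_lit 0) (T.im (nat_lit 7) (nat_lit 2)) T.ie))))) (T.ts (nat_lit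 0) (T.im (nat_lit 7) (nat_lit 1)) T.ie))))))))
def d853 : T := (T.ts (nat_lit 3) (T.ts (nat_lit 2) (T.ts (nat_lit 2) (T.ls (nat_lit 2) (nat_lit 3)) (T.ts (nat_lit 1) (T.ls (nat_lit 3) (nat_lit 4)) (T.ts (nat_lit 0) (T.ls (nat_lit 2) (nat_lit 4)) (T.ts (nat_lit 3) (T.im (nat_lit 5) (nat_lit 3)) (T.nw (T.ls (nat_lit 2) (nat_lit 3))))))) (T.ts (nat_lit 1) (T.ts (nat_lit 2) (T.ls (nat_lit 2) (nat_lit 3)) (T.ts (nat_lit 1) (T.ls (nat_lit 3) (nat_lit 4)) (T.ts (nat_lit 0) (T.ls (nat_lit 2) (nat_lit 4)) (T.ts (nat_lit 3) (T.im (nat_lit 7) (nat_lit 2)) (T.nw (T.ls (nat_lit 2) (nat_lit 3))))))) (T.ts (nat_lit 0) (T.ts (nat_lit 2) (T.ls (nat_lit 2) (nat_lit 3)) (T.ts (nat_lit 1) (T.ls (nat_lit 3) (nat_lit 4)) (T.ts (nat_lit 0) (T.ls (nat_lit 2) (nat_lit 4)) (T.ts (nat_lit 3) (T.im (nat_lit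 7) (nat_lit 2)) (T.nw (T.ls (nat_lit 2) (nat_lit 3))))))) (T.ts (nat_lit 3) (T.im (nat_lit 7) (nat_lit 1)) (T.nw (T.ts (nat_lit 3) (T.ls (nat_lit 2) (nat_lit 3)) (T.ts (nat_lit 2) (T.ls (nat_lit 3) (nat_lit 4)) (T.ts (nat_lit 1) (T.ls (nat_lit 2) (nat_lit 4)) (T.ts (nat_lit 0) (T.ls (nat_lit 2) (nat_lit 3)) (T.ts (nat_lit 4) (T.im (nat_lit 7) (nat_lit 2)) T.ie)))))))))) (T.ts (nat_lit 1) (T.ts (nat_lit 3) (T.ts (nat_lit 3) (T.ls (nat_lit 2) (nat_lit 3)) (T.ts (nat_lit 2) (T.ls (nat_lit 3) (nat_lit 4)) (T.ts (nat_lit 0) (T.ls (nat_lit 2) (nat_lit 4)) (T.ts (nat_lit 1) (T.im (nat_lit 7) (nat_lit 2)) (T.nw (T.ls (nat_lit 2) (nat_lit 3))))))) (T.ts (nat_lit 2) (T.ts (nat_lit 2) (T.ls (nat_lit 2) (nat_lit 3)) (T.ts (nat_lit 0) (T.ls (nat_lit 2) (nat_lit 4)) (T.ts (nat_lit 3) (T.im (nat_lit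 5) (nat_lit 3)) (T.ts (nat_lit 1) (T.im (nat_lit 7) (nat_lit 2)) (T.nw (T.ls (nat_lit 2) (nat_lit 3))))))) (T.ts (nat_lit 0) (T.ts (nat_lit 3) (T.ls (nat_lit 2) (nat_lit 4)) (T.ts (nat_lit 2) (T.ls (nat_lit 2) (nat_lit 3)) (T.ts (nat_lit 0) (T.ls (nat_lit 2) (nat_lit 4)) (T.ts (nat_lit 1) (T.im (nat_lit 7) (nat_lit 2)) (T.nw (T.ls (nat_lit 2) (nat_lit 3))))))) (T.ts (nat_lit 1) (T.im (nat_lit 7) (nat_lit 1)) (T.nw (T.ts (nat_lit 4) (T.ls (nat_lit 2) (nat_lit 3)) (T.ts (nat_lit 3) (T.ls (nat_lit 2) (nat_lit 3)) (T.ts (nat_lit 1) (T.ls (nat_lit 2) (nat_lit 4)) (T.ts (nat_lit 0) (T.ls (nat_lit 2) (nat_lit 3)) (T.ts (nat_lit 2) (T.im (nat_lit 7) (nat_lit 2)) T.ie)))))))))) d852))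
def d854 : T := (T.ts (nat_lit 1) (T.ts (nat_lit 3) (T.ts (nat_lit 3) (T.ls (nat_lit 2) (nat_lit 3)) (T.ts (nat_lit 2) (T.ls (nat_lit 3) (nat_lit 4)) (T.ts (nat_lit 0) (T.ls (nat_lit 2) (nat_lit 4)) (T.ts (nat_lit 1) (T.im (nat_lit 7) (nat_lit 2)) (T.nw (T.ls (nat_lit 2) (nat_lit 3))))))) (T.ts (nat_lit 2) (T.ts (nat_lit 3) (T.ls (nat_lit 2) (nat_lit 3)) (T.ts (nat_lit 2) (T.ls (nat_lit 2) (nat_lit 3)) (T.ts (nat_lit 0) (T.ls (nat_lit 2) (nat_lit 4)) (T.ts (nat_lit 1) (T.im (nat_lit 5) (nat_lit 3)) (T.nw (T.ls (nat_lit 2) (nat_lit 3))))))) (T.ts (nat_lit 0) (T.ts (nat_lit 3) (T.ls (nat_lit 2) (nat_lit 4)) (T.ts (nat_lit 2) (T.ls (nat_lit 2) (nat_lit 3)) (T.ts (nat_lit 0) (T.ls (nat_lit 2) (nat_lit 4)) (T.ts (nat_lit 1) (T.im (nat_lit 7) (nat_lit 2)) (T.nw (T.ls (nat_lit 2) (nat_lit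 3))))))) (T.ts (nat_lit 1) (T.im (nat_lit 7) (nat_lit 1)) (T.nw (T.ts (nat_lit 4) (T.ls (nat_lit 2) (nat_lit 3)) (T.ts (nat_lit 3) (T.ls (nat_lit 2) (nat_lit 3)) (T.ts (nat_lit 1) (T.ls (nat_lit 2) (nat_lit 4)) (T.ts (nat_lit 0) (T.ls (nat_lit 2) (nat_lit 3)) (T.ts (nat_lit 2) (T.im (nat_lit 7) (nat_lit 2)) T.ie)))))))))) (T.ts (nat_lit 2) (T.im (nat_lit 5) (nat_lit 2)) (T.ts (nat_lit 0) (T.im (nat_lit 1) (nat_lit 4)) (T.nw (T.ts (nat_lit 4) (T.ts (nat_lit 4) (T.ls (nat_lit 2) (nat_lit 3)) (T.ts (nat_lit 3) (T.ls (nat_lit 2) (nat_lit 3)) (T.ts (nat_lit 2) (T.ls (nat_lit 3) (nat_lit 4)) (T.ts (nat_lit 1) (T.ls (nat_lit 2) (nat_lit 4)) (T.ts (nat_lit 0) (T.im (nat_lit 7) (nat_lit 2)) T.ie))))) (T.ts (nat_lit 3) (T.ts (nat_lit 4) (T.ls (nat_lit 2) (nat_lit 3)) (T.ts (nat_lit 3) (T.ls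 (nat_lit 2) (nat_lit 3)) (T.ts (nat_lit 1) (T.ls (nat_lit 2) (nat_lit 4)) (T.ts (nat_lit 2) (T.im (nat_lit 5) (nat_lit 3)) (T.ts (nat_lit 0) (T.im (nat_lit 7) (nat_lit 2)) T.ie))))) (T.ts (nat_lit 2) (T.ts (nat_lit 4) (T.ls (nat_lit 3) (nat_lit 4)) (T.ts (nat_lit 3) (T.ls (nat_lit 2) (nat_lit 3)) (T.ts (nat_lit 2) (T.ls (nat_lit 3) (nat_lit 4)) (T.ts (nat_lit 1) (T.ls (nat_lit 2) (nat_lit 4)) (T.ts (nat_lit 0) (T.im (nat_lit 7) (nat_lit 2)) T.ie))))) (T.ts (nat_lit 1) (T.ts (nat_lit 4) (T.ls (nat_lit 2) (nat_lit 4)) (T.ts (nat_lit 3) (T.ls (nat_lit 2) (nat_lit 3)) (T.ts (nat_lit 2) (T.ls (nat_lit 3) (nat_lit 4)) (T.ts (nat_lit 1) (T.ls (nat_lit 2) (nat_lit 4)) (T.ts (nat_lit 0) (T.im (nat_lit 7) (nat_lit 2)) T.ie))))) (T.ts (nat_lit 0) (T.im (nat_lit 7) (nat_lit 1)) T.ie)))))))))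
def d855 : T := (T.ts (nat_lit 0) (T.ts (nat_lit 3) (T.ts (nat_lit 3) (T.ls (nat_lit 2) (nat_lit 3)) (T.ts (nat_lit 2) (T.ls (nat_lit 2) (nat_lit 4)) (T.ts (nat_lit 1) (T.ls (nat_lit 3) (nat_lit 4)) (T.ts (nat_lit 0) (T.im (nat_lit 7) (nat_lit 2)) (T.nw (T.ls (nat_lit 2) (nat_lit 3))))))) (T.ts (nat_lit 2) (T.ts (nat_lit 3) (T.ls (nat_lit 2) (nat_lit 3)) (T.ts (nat_lit 2) (T.ls (nat_lit 2) (nat_lit 3)) (T.ts (nat_lit 1) (T.ls (nat_lit 3) (nat_lit 4)) (T.ts (nat_lit 0) (T.im (nat_lit 5) (nat_lit 3)) (T.nw (T.ls (nat_lit 2) (nat_lit 3))))))) (T.ts (nat_lit 1) (T.ts (nat_lit 3) (T.ls (nat_lit 3) (nat_lit 4)) (T.ts (nat_lit 1) (T.ls (nat_lit 3) (nat_lit 4)) (T.ts (nat_lit 2) (T.im (nat_lit 3) (nat_lit 4)) (T.ts (nat_lit 0) (T.im (nat_lit 7) (nat_lit 2)) (T.nw (T.ls (nat_lit 2) (nat_lit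 3))))))) (T.ts (nat_lit 0) (T.im (nat_lit 7) (nat_lit 1)) (T.nw (T.ts (nat_lit 4) (T.ls (nat_lit 2) (nat_lit 3)) (T.ts (nat_lit 3) (T.ls (nat_lit 2) (nat_lit 3)) (T.ts (nat_lit 2) (T.ls (nat_lit 3) (nat_lit 4)) (T.ts (nat_lit 0) (T.ls (nat_lit 2) (nat_lit 3)) (T.ts (nat_lit 1) (T.im (nat_lit 7) (nat_lit 2)) T.ie)))))))))) (T.ts (nat_lit 2) (T.im (nat_lit 5) (nat_lit 2)) (T.ts (nat_lit 1) (T.im (nat_lit 3) (nat_lit 3)) (T.nw (T.ts (nat_lit 4) (T.ts (nat_lit 4) (T.ls (nat_lit 2) (nat_lit 3)) (T.ts (nat_lit 3) (T.ls (nat_lit 2) (nat_lit 3)) (T.ts (nat_lit 2) (T.ls (nat_lit 3) (nat_lit 4)) (T.ts (nat_lit 1) (T.ls (nat_lit 2) (nat_lit 4)) (T.ts (nat_lit 0) (T.im (nat_lit 7) (nat_lit 2)) T.ie))))) (T.ts (nat_lit 3) (T.ts (nat_lit 4) (T.ls (nat_lit 2) (nat_lit 3)) (T.ts (nat_lit 3) (T.ls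 (nat_lit 2) (nat_lit 3)) (T.ts (nat_lit 2) (T.ls (nat_lit 3) (nat_lit 4)) (T.ts (nat_lit 1) (T.im (nat_lit 5) (nat_lit 3)) (T.ts (nat_lit 0) (T.im (nat_lit 7) (nat_lit 2)) T.ie))))) (T.ts (nat_lit 2) (T.ts (nat_lit 4) (T.ls (nat_lit 3) (nat_lit 4)) (T.ts (nat_lit 3) (T.ls (nat_lit 2) (nat_lit 3)) (T.ts (nat_lit 2) (T.ls (nat_lit 3) (nat_lit 4)) (T.ts (nat_lit 1) (T.ls (nat_lit 2) (nat_lit 4)) (T.ts (nat_lit 0) (T.im (nat_lit 7) (nat_lit 2)) T.ie))))) (T.ts (nat_lit 1) (T.ts (nat_lit 4) (T.ls (nat_lit 2) (nat_lit 4)) (T.ts (nat_lit 3) (T.ls (nat_lit 2) (nat_lit 3)) (T.ts (nat_lit 2) (T.ls (nat_lit 3) (nat_lit 4)) (T.ts (nat_lit 1) (T.ls (nat_lit 2) (nat_lit 4)) (T.ts (nat_lit 0) (T.im (nat_lit 7) (nat_lit 2)) T.ie))))) (T.ts (nat_lit 0) (T.im (nat_lit 7) (nat_lit 1)) T.ie)))))))))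
def d856 : T := (T.ts (nat_lit 1) (T.ts (nat_lit 4) (T.ts (nat_lit 4) (T.ls (nat_lit 2) (nat_lit 3)) (T.ts (nat_lit 3) (T.ls (nat_lit 2) (nat_lit 4)) (T.ts (nat_lit 2) (T.ls (nat_lit 3) (nat_lit 4)) (T.ts (nat_lit 0) (T.ls (nat_lit 2) (nat_lit 3)) (T.ts (nat_lit 1) (T.im (nat_lit 7) (nat_lit 2)) T.ie))))) (T.ts (nat_lit 3) (T.ts (nat_lit 4) (T.ls (nat_lit 2) (nat_lit 3)) (T.ts (nat_lit 3) (T.ls (nat_lit 2) (nat_lit 3)) (T.ts (nat_lit 2) (T.ls (nat_lit 3) (nat_lit 4)) (T.ts (nat_lit 1) (T.im (nat_lit 7) (nat_lit 2)) (T.ts (nat_lit 0) (T.im (nat_lit 5) (nat_lit 3)) T.ie))))) (T.ts (nat_lit 2) (T.ts (nat_lit 4) (T.ls (nat_lit 3) (nat_lit 4)) (T.ts (nat_lit 2) (T.ls (nat_lit 3) (nat_lit 4)) (T.ts (nat_lit 0) (T.ls (nat_lit 2) (nat_lit 3)) (T.ts (nat_lit 3) (T.im (nat_lit 3) (nat_lit 4))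 (T.ts (nat_lit 1) (T.im (nat_lit 7) (nat_lit 2)) T.ie))))) (T.ts (nat_lit 0) (T.ts (nat_lit 4) (T.ls (nat_lit 2) (nat_lit 3)) (T.ts (nat_lit 3) (T.ls (nat_lit 2) (nat_lit 3)) (T.ts (nat_lit 2) (T.ls (nat_lit 3) (nat_lit 4)) (T.ts (nat_lit 0) (T.ls (nat_lit 2) (nat_lit 3)) (T.ts (nat_lit 1) (T.im (nat_lit 7) (nat_lit 2)) T.ie))))) (T.ts (nat_lit 1) (T.im (nat_lit 7) (nat_lit 1)) T.ie))))) (T.ts (nat_lit 0) (T.ts (nat_lit 4) (T.ts (nat_lit 4) (T.ls (nat_lit 2) (nat_lit 3)) (T.ts (nat_lit 3) (T.ls (nat_lit 2) (nat_lit 3)) (T.ts (nat_lit 2) (T.ls (nat_lit 3) (nat_lit 4)) (T.ts (nat_lit 1) (T.ls (nat_lit 2) (nat_lit 4)) (T.ts (nat_lit 0) (T.im (nat_lit 7) (nat_lit 2)) T.ie))))) (T.ts (nat_lit 3) (T.ts (nat_lit 4) (T.ls (nat_lit 2) (nat_lit 3)) (T.ts (nat_lit 3) (T.ls (nat_lit 2) (nat_lit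 3)) (T.ts (nat_lit 2) (T.ls (nat_lit 3) (nat_lit 4)) (T.ts (nat_lit 1) (T.ls (nat_lit 2) (nat_lit 4)) (T.ts (nat_lit 0) (T.im (nat_lit 5) (nat_lit 3)) T.ie))))) (T.ts (nat_lit 2) (T.ts (nat_lit 4) (T.ls (nat_lit 3) (nat_lit 4)) (T.ts (nat_lit 3) (T.ls (nat_lit 2) (nat_lit 3)) (T.ts (nat_lit 2) (T.ls (nat_lit 3) (nat_lit 4)) (T.ts (nat_lit 1) (T.ls (nat_lit 2) (nat_lit 4)) (T.ts (nat_lit 0) (T.im (nat_lit 7) (nat_lit 2)) T.ie))))) (T.ts (nat_lit 1) (T.ts (nat_lit 4) (T.ls (nat_lit 2) (nat_lit 4)) (T.ts (nat_lit 3) (T.ls (nat_lit 2) (nat_lit 3)) (T.ts (nat_lit 2) (T.ls (nat_lit 3) (nat_lit 4)) (T.ts (nat_lit 1) (T.ls (nat_lit 2) (nat_lit 4)) (T.ts (nat_lit 0) (T.im (nat_lit 7) (nat_lit 2)) T.ie))))) (T.ts (nat_lit 0) (T.im (nat_lit 7) (nat_lit 1)) T.ie))))) (T.ts (nat_lit 3) (T.im (nat_lit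 5) (nat_lit 2)) T.ie)))
def d857 : T := (T.ts (nat_lit 4) (T.ts (nat_lit 3) (T.ts (nat_lit 3) (T.ls (nat_lit 2) (nat_lit 3)) (T.ts (nat_lit 2) (T.ts (nat_lit 4) (T.ts (nat_lit 3) (T.im (nat_lit 7) (nat_lit 3)) (T.sk (T.ls (nat_lit 2) (nat_lit 3)))) (T.ts (nat_lit 1) (T.ls (nat_lit 2) (nat_lit 3)) (T.sk (T.ls (nat_lit 2) (nat_lit 3))))) (T.ts (nat_lit 1) (T.ls (nat_lit 2) (nat_lit 4)) (T.ts (nat_lit 4) (T.im (nat_lit 7) (nat_lit 2)) (T.ts (nat_lit 0) (T.im (nat_lit 5) (nat_lit 3)) T.ie))))) (T.ts (nat_lit 2) (T.ts (nat_lit 3) (T.ls (nat_lit 2) (nat_lit 3)) (T.ts (nat_lit 2) (T.ls (nat_lit 3) (nat_lit 4)) (T.ts (nat_lit 1) (T.ls (nat_lit 2) (nat_lit 4)) (T.ts (nat_lit 0) (T.ls (nat_lit 2) (nat_lit 3)) (T.ts (nat_lit 4) (T.im (nat_lit 7) (nat_lit 2)) T.ie))))) (T.ts (nat_lit 1) (T.ts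 (nat_lit 3) (T.ls (nat_lit 2) (nat_lit 3)) (T.ts (nat_lit 2) (T.ls (nat_lit 3) (nat_lit 4)) (T.ts (nat_lit 1) (T.ls (nat_lit 2) (nat_lit 4)) (T.ts (nat_lit 0) (T.ls (nat_lit 2) (nat_lit 3)) (T.ts (nat_lit 4) (T.im (nat_lit 7) (nat_lit 2)) T.ie))))) (T.ts (nat_lit 0) (T.ts (nat_lit 3) (T.ls (nat_lit 2) (nat_lit 3)) (T.ts (nat_lit 2) (T.ls (nat_lit 3) (nat_lit 4)) (T.ts (nat_lit 1) (T.ls (nat_lit 2) (nat_lit 4)) (T.ts (nat_lit 0) (T.ls (nat_lit 2) (nat_lit 3)) (T.ts (nat_lit 4) (T.im (nat_lit 7) (nat_lit 2)) T.ie))))) (T.ts (nat_lit 4) (T.im (nat_lit 7) (nat_lit 1)) T.ie))))) (T.ts (nat_lit 2) (T.ts (nat_lit 4) (T.ts (nat_lit 4) (T.ls (nat_lit 2) (nat_lit 3)) (T.ts (nat_lit 3) (T.ls (nat_lit 3) (nat_lit 4)) (T.ts (nat_lit 1) (T.ls (nat_lit 2) (nat_lit 4)) (T.ts (nat_lit 0) (T.ls (nat_lit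 2) (nat_lit 3)) (T.ts (nat_lit 2) (T.im (nat_lit 7) (nat_lit 2)) T.ie))))) (T.ts (nat_lit 3) (T.ts (nat_lit 4) (T.ls (nat_lit 2) (nat_lit 3)) (T.ts (nat_lit 3) (T.ls (nat_lit 2) (nat_lit 3)) (T.ts (nat_lit 1) (T.ls (nat_lit 2) (nat_lit 4)) (T.ts (nat_lit 2) (T.im (nat_lit 7) (nat_lit 2)) (T.ts (nat_lit 0) (T.im (nat_lit 5) (nat_lit 3)) T.ie))))) (T.ts (nat_lit 1) (T.ts (nat_lit 4) (T.ls (nat_lit 2) (nat_lit 4)) (T.ts (nat_lit 3) (T.ls (nat_lit 2) (nat_lit 3)) (T.ts (nat_lit 1) (T.ls (nat_lit 2) (nat_lit 4)) (T.ts (nat_lit 0) (T.ls (nat_lit 2) (nat_lit 3)) (T.ts (nat_lit 2) (T.im (nat_lit 7) (nat_lit 2)) T.ie))))) (T.ts (nat_lit 0) (T.ts (nat_lit 4) (T.ls (nat_lit 2) (nat_lit 3)) (T.ts (nat_lit 3) (T.ls (nat_lit 2) (nat_lit 3)) (T.ts (nat_lit 1) (T.ls (nat_lit 2) (nat_lit 4)) (T.ts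 (nat_lit 0) (T.ls (nat_lit 2) (nat_lit 3)) (T.ts (nat_lit 2) (T.im (nat_lit 7) (nat_lit 2)) T.ie))))) (T.ts (nat_lit 2) (T.im (nat_lit 7) (nat_lit 1)) T.ie))))) d856))
def d858 : T := (T.ts (nat_lit 0) (T.ts (nat_lit 3) (T.ts (nat_lit 2) (T.ts (nat_lit 2) (T.ls (nat_lit 2) (nat_lit 3)) (T.ts (nat_lit 1) (T.ts (nat_lit 3) (T.ts (nat_lit 2) (T.im (nat_lit 7) (nat_lit 3)) (T.sk (T.ls (nat_lit 2) (nat_lit 4)))) (T.ts (nat_lit 0) (T.ls (nat_lit 2) (nat_lit 4)) (T.sk (T.ls (nat_lit 2) (nat_lit 4))))) (T.ts (nat_lit 3) (T.im (nat_lit 7) (nat_lit 2)) (T.ts (nat_lit 0) (T.im (nat_lit 5) (nat_lit 3)) (T.nw (T.ls (nat_lit 2) (nat_lit 3))))))) (T.ts (nat_lit 1) (T.ts (nat_lit 2) (T.ls (nat_lit 2) (nat_lit 3)) (T.ts (nat_lit 1) (T.ls (nat_lit 3) (nat_lit 4)) (T.ts (nat_lit 0) (T.ls (nat_lit 2)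 (nat_lit 4)) (T.ts (nat_lit 3) (T.im (nat_lit 7) (nat_lit 2)) (T.nw (T.ls (nat_lit 2) (nat_lit 3))))))) (T.ts (nat_lit 0) (T.ts (nat_lit 2) (T.ls (nat_lit 2) (nat_lit 3)) (T.ts (nat_lit 1) (T.ls (nat_lit 3) (nat_lit 4)) (T.ts (nat_lit 0) (T.ls (nat_lit 2) (nat_lit 4)) (T.ts (nat_lit 3) (T.im (nat_lit 7) (nat_lit 2)) (T.nw (T.ls (nat_lit 2) (nat_lit 3))))))) (T.ts (nat_lit 3) (T.im (nat_lit 7) (nat_lit 1)) (T.nw (T.ts (nat_lit 3) (T.ls (nat_lit 2) (nat_lit 3)) (T.ts (nat_lit 2) (T.ls (nat_lit 3) (nat_lit 4)) (T.ts (nat_lit 1) (T.ls (nat_lit 2) (nat_lit 4)) (T.ts (nat_lit 0) (T.ls (nat_lit 2) (nat_lit 3)) (T.ts (nat_lit 4) (T.im (nat_lit 7) (nat_lit 2)) T.ie)))))))))) d855) (T.ts (nat_lit 2) (T.im (nat_lit 5) (nat_lit 1)) (T.nw d857)))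
def d859 : T := (T.ts (nat_lit 3) d853 (T.ts (nat_lit 1) (T.ts (nat_lit 3) (T.ts (nat_lit 2) (T.ts (nat_lit 2) (T.ls (nat_lit 2) (nat_lit 3)) (T.ts (nat_lit 0) (T.ls (nat_lit 2) (nat_lit 4)) (T.ts (nat_lit 3) (T.im (nat_lit 7) (nat_lit 2)) (T.ts (nat_lit 1) (T.im (nat_lit 5) (nat_lit 3)) (T.nw (T.ls (nat_lit 2) (nat_lit 3))))))) (T.ts (nat_lit 1) (T.ts (nat_lit 2) (T.ls (nat_lit 2) (nat_lit 3)) (T.ts (nat_lit 1) (T.ls (nat_lit 3) (nat_lit 4)) (T.ts (nat_lit 0) (T.ls (nat_lit 2) (nat_lit 4)) (T.ts (nat_lit 3) (T.im (nat_lit 7) (nat_lit 2)) (T.nw (T.ls (nat_lit 2) (nat_lit 3))))))) (T.ts (nat_lit 0) (T.ts (nat_lit 2) (T.ls (nat_lit 2) (nat_lit 3)) (T.ts (nat_lit 1) (T.ls (nat_lit 3) (nat_lit 4)) (T.ts (nat_lit 0) (T.ls (nat_lit 2) (nat_lit 4)) (T.ts (nat_lit 3) (T.im (nat_lit 7) (nat_lit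 2)) (T.nw (T.ls (nat_lit 2) (nat_lit 3))))))) (T.ts (nat_lit 3) (T.im (nat_lit 7) (nat_lit 1)) (T.nw (T.ts (nat_lit 3) (T.ls (nat_lit 2) (nat_lit 3)) (T.ts (nat_lit 2) (T.ls (nat_lit 3) (nat_lit 4)) (T.ts (nat_lit 1) (T.ls (nat_lit 2) (nat_lit 4)) (T.ts (nat_lit 0) (T.ls (nat_lit 2) (nat_lit 3)) (T.ts (nat_lit 4) (T.im (nat_lit 7) (nat_lit 2)) T.ie)))))))))) d854) d858))
def d860 : T := (T.ts (nat_lit 3) (T.ts (nat_lit 3) (T.ls (nat_lit 2) (nat_lit 3)) (T.ts (nat_lit 1) (T.ls (nat_lit 3) (nat_lit 4)) (T.ts (nat_lit 0) (T.ls (nat_lit 2) (nat_lit 4)) (T.ts (nat_lit 2) (T.im (nat_lit 7) (nat_lit 2)) (T.nw (T.ls (nat_lit 2) (nat_lit 3))))))) (T.ts (nat_lit 1) (T.ts (nat_lit 1) (T.ls (nat_lit 3) (nat_lit 4)) (T.ts (nat_lit 0) (T.ts (nat_lit 3) (T.ts (nat_lit 2) (T.ts (nat_lit 1) (T.ts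 (nat_lit 0) (T.im (nat_lit 7) (nat_lit 4)) (T.sk (T.ls (nat_lit 3) (nat_lit 4)))) (T.sk (T.ls (nat_lit 3) (nat_lit 4)))) (T.sk (T.ls (nat_lit 3) (nat_lit 4)))) (T.ts (nat_lit 1) (T.ls (nat_lit 3) (nat_lit 4)) (T.sk (T.ls (nat_lit 3) (nat_lit 4))))) (T.ts (nat_lit 3) (T.im (nat_lit 5) (nat_lit 3)) (T.ts (nat_lit 2) (T.im (nat_lit 7) (nat_lit 2)) (T.nw (T.ls (nat_lit 2) (nat_lit 3))))))) (T.ts (nat_lit 0) (T.ts (nat_lit 3) (T.ls (nat_lit 2) (nat_lit 4)) (T.ts (nat_lit 1) (T.ls (nat_lit 3) (nat_lit 4)) (T.ts (nat_lit 0) (T.ls (nat_lit 2) (nat_lit 4)) (T.ts (nat_lit 2) (T.im (nat_lit 7) (nat_lit 2)) (T.nw (T.ls (nat_lit 2) (nat_lit 3))))))) (T.ts (nat_lit 2) (T.im (nat_lit 7) (nat_lit 1)) (T.nw (T.ts (nat_lit 4) (T.ls (nat_lit 2) (nat_lit 3)) (T.ts (nat_lit 2) (T.ls (nat_lit 3) (nat_lit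 4)) (T.ts (nat_lit 1) (T.ls (nat_lit 2) (nat_lit 4)) (T.ts (nat_lit 0) (T.ls (nat_lit 2) (nat_lit 3)) (T.ts (nat_lit 3) (T.im (nat_lit 7) (nat_lit 2)) T.ie))))))))))
def d861 : T := (T.ts (nat_lit 0) (T.ts (nat_lit 3) (T.ts (nat_lit 3) (T.ls (nat_lit 2) (nat_lit 3)) (T.ts (nat_lit 2) (T.ls (nat_lit 2) (nat_lit 4)) (T.ts (nat_lit 1) (T.ls (nat_lit 3) (nat_lit 4)) (T.ts (nat_lit 0) (T.im (nat_lit 7) (nat_lit 2)) (T.nw (T.ls (nat_lit 2) (nat_lit 3))))))) (T.ts (nat_lit 2) (T.ts (nat_lit 3) (T.ls (nat_lit 2) (nat_lit 3)) (T.ts (nat_lit 2) (T.ls (nat_lit 2) (nat_lit 3)) (T.ts (nat_lit 1) (T.ls (nat_lit 3) (nat_lit 4)) (T.ts (nat_lit 0) (T.im (nat_lit 7) (nat_lit 2)) (T.nw (T.ls (nat_lit 2) (nat_lit 3))))))) (T.ts (nat_lit 1) (T.ts (nat_lit 2) (T.ls (nat_lit 2) (nat_lit 3)) (T.ts (nat_lit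 3) (T.im (nat_lit 5) (nat_lit 3)) (T.ts (nat_lit 1) (T.im (nat_lit 3) (nat_lit 4)) (T.ts (nat_lit 0) (T.im (nat_lit 7) (nat_lit 2)) (T.nw (T.ls (nat_lit 2) (nat_lit 3))))))) (T.ts (nat_lit 0) (T.im (nat_lit 7) (nat_lit 1)) (T.nw (T.ts (nat_lit 4) (T.ls (nat_lit 2) (nat_lit 3)) (T.ts (nat_lit 3) (T.ls (nat_lit 2) (nat_lit 3)) (T.ts (nat_lit 2) (T.ls (nat_lit 3) (nat_lit 4)) (T.ts (nat_lit 0) (T.ls (nat_lit 2) (nat_lit 3)) (T.ts (nat_lit 1) (T.im (nat_lit 7) (nat_lit 2)) T.ie)))))))))) (T.ts (nat_lit 1) (T.im (nat_lit 5) (nat_lit 2)) (T.nw (T.ts (nat_lit 4) (T.ts (nat_lit 4) (T.ls (nat_lit 2) (nat_lit 3)) (T.ts (nat_lit 3) (T.ls (nat_lit 2) (nat_lit 3)) (T.ts (nat_lit 2) (T.ls (nat_lit 3) (nat_lit 4)) (T.ts (nat_lit 1) (T.ls (nat_lit 2) (nat_lit 4)) (T.ts (nat_lit 0) (T.im (nat_lit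 7) (nat_lit 2)) T.ie))))) (T.ts (nat_lit 3) (T.ts (nat_lit 4) (T.ls (nat_lit 2) (nat_lit 3)) (T.ts (nat_lit 3) (T.ls (nat_lit 2) (nat_lit 3)) (T.ts (nat_lit 2) (T.ls (nat_lit 3) (nat_lit 4)) (T.ts (nat_lit 1) (T.ls (nat_lit 2) (nat_lit 4)) (T.ts (nat_lit 0) (T.im (nat_lit 7) (nat_lit 2)) T.ie))))) (T.ts (nat_lit 2) (T.ts (nat_lit 3) (T.ls (nat_lit 2) (nat_lit 3)) (T.ts (nat_lit 2) (T.ls (nat_lit 3) (nat_lit 4)) (T.ts (nat_lit 1) (T.ls (nat_lit 2) (nat_lit 4)) (T.ts (nat_lit 4) (T.im (nat_lit 5) (nat_lit 3)) (T.ts (nat_lit 0) (T.im (nat_lit 7) (nat_lit 2)) T.ie))))) (T.ts (nat_lit 1) (T.ts (nat_lit 4) (T.ls (nat_lit 2) (nat_lit 4)) (T.ts (nat_lit 3) (T.ls (nat_lit 2) (nat_lit 3)) (T.ts (nat_lit 2) (T.ls (nat_lit 3) (nat_lit 4)) (T.ts (nat_lit 1) (T.ls (nat_lit 2) (nat_lit 4)) (T.ts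 (nat_lit 0) (T.im (nat_lit 7) (nat_lit 2)) T.ie))))) (T.ts (nat_lit 0) (T.im (nat_lit 7) (nat_lit 1)) T.ie))))))))
def d862 : T := (T.ts (nat_lit 0) (T.ts (nat_lit 3) (T.ts (nat_lit 3) (T.ls (nat_lit 2) (nat_lit 3)) (T.ts (nat_lit 2) (T.ls (nat_lit 2) (nat_lit 4)) (T.ts (nat_lit 1) (T.ls (nat_lit 3) (nat_lit 4)) (T.ts (nat_lit 0) (T.im (nat_lit 7) (nat_lit 2)) (T.nw (T.ls (nat_lit 2) (nat_lit 3))))))) (T.ts (nat_lit 2) (T.ts (nat_lit 3) (T.ls (nat_lit 2) (nat_lit 3)) (T.ts (nat_lit 2) (T.ls (nat_lit 2) (nat_lit 3)) (T.ts (nat_lit 1) (T.ls (nat_lit 3) (nat_lit 4)) (T.ts (nat_lit 0) (T.im (nat_lit 7) (nat_lit 2)) (T.nw (T.ls (nat_lit 2) (nat_lit 3))))))) (T.ts (nat_lit 1) (T.ts (nat_lit 3) (T.ls (nat_lit 3) (nat_lit 4)) (T.ts (nat_lit 2) (T.im (nat_lit 5) (nat_lit 3)) (T.ts (nat_lit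 1) (T.im (nat_lit 3) (nat_lit 4)) (T.ts (nat_lit 0) (T.im (nat_lit 7) (nat_lit 2)) (T.nw (T.ls (nat_lit 2) (nat_lit 3))))))) (T.ts (nat_lit 0) (T.im (nat_lit 7) (nat_lit 1)) (T.nw (T.ts (nat_lit 4) (T.ls (nat_lit 2) (nat_lit 3)) (T.ts (nat_lit 3) (T.ls (nat_lit 2) (nat_lit 3)) (T.ts (nat_lit 2) (T.ls (nat_lit 3) (nat_lit 4)) (T.ts (nat_lit 0) (T.ls (nat_lit 2) (nat_lit 3)) (T.ts (nat_lit 1) (T.im (nat_lit 7) (nat_lit 2)) T.ie)))))))))) (T.ts (nat_lit 1) (T.im (nat_lit 5) (nat_lit 2)) (T.nw (T.ts (nat_lit 4) (T.ts (nat_lit 4) (T.ls (nat_lit 2) (nat_lit 3)) (T.ts (nat_lit 3) (T.ls (nat_lit 2) (nat_lit 3)) (T.ts (nat_lit 2) (T.ls (nat_lit 3) (nat_lit 4)) (T.ts (nat_lit 1) (T.ls (nat_lit 2) (nat_lit 4)) (T.ts (nat_lit 0) (T.im (nat_lit 7) (nat_lit 2)) T.ie))))) (T.ts (nat_lit 3) (T.ts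 (nat_lit 4) (T.ls (nat_lit 2) (nat_lit 3)) (T.ts (nat_lit 3) (T.ls (nat_lit 2) (nat_lit 3)) (T.ts (nat_lit 2) (T.ls (nat_lit 3) (nat_lit 4)) (T.ts (nat_lit 1) (T.ls (nat_lit 2) (nat_lit 4)) (T.ts (nat_lit 0) (T.im (nat_lit 7) (nat_lit 2)) T.ie))))) (T.ts (nat_lit 2) (T.ts (nat_lit 4) (T.ls (nat_lit 3) (nat_lit 4)) (T.ts (nat_lit 2) (T.ls (nat_lit 3) (nat_lit 4)) (T.ts (nat_lit 1) (T.ls (nat_lit 2) (nat_lit 4)) (T.ts (nat_lit 3) (T.im (nat_lit 5) (nat_lit 3)) (T.ts (nat_lit 0) (T.im (nat_lit 7) (nat_lit 2)) T.ie))))) (T.ts (nat_lit 1) (T.ts (nat_lit 4) (T.ls (nat_lit 2) (nat_lit 4)) (T.ts (nat_lit 3) (T.ls (nat_lit 2) (nat_lit 3)) (T.ts (nat_lit 2) (T.ls (nat_lit 3) (nat_lit 4)) (T.ts (nat_lit 1) (T.ls (nat_lit 2) (nat_lit 4)) (T.ts (nat_lit 0) (T.im (nat_lit 7) (nat_lit 2)) T.ie)))))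 (T.ts (nat_lit 0) (T.im (nat_lit 7) (nat_lit 1)) T.ie))))))))
def d863 : T := (T.ts (nat_lit 3) (T.ts (nat_lit 2) (T.ts (nat_lit 2) (T.ls (nat_lit 2) (nat_lit 3)) (T.ts (nat_lit 1) (T.ls (nat_lit 3) (nat_lit 4)) (T.ts (nat_lit 0) (T.ls (nat_lit 2) (nat_lit 4)) (T.ts (nat_lit 3) (T.im (nat_lit 7) (nat_lit 2)) (T.nw (T.ls (nat_lit 2) (nat_lit 3))))))) (T.ts (nat_lit 1) (T.ts (nat_lit 1) (T.ls (nat_lit 3) (nat_lit 4)) (T.ts (nat_lit 0) (T.ls (nat_lit 2) (nat_lit 4)) (T.ts (nat_lit 3) (T.im (nat_lit 7) (nat_lit 2)) (T.ts (nat_lit 2) (T.im (nat_lit 5) (nat_lit 3)) (T.nw (T.ls (nat_lit 2) (nat_lit 3))))))) (T.ts (nat_lit 0) (T.ts (nat_lit 2) (T.ls (nat_lit 2) (nat_lit 3)) (T.ts (nat_lit 1) (T.ls (nat_lit 3) (nat_lit 4)) (T.ts (nat_lit 0) (T.ls (nat_lit 2) (nat_lit 4)) (T.ts (nat_lit 3)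 (T.im (nat_lit 7) (nat_lit 2)) (T.nw (T.ls (nat_lit 2) (nat_lit 3))))))) (T.ts (nat_lit 3) (T.im (nat_lit 7) (nat_lit 1)) (T.nw (T.ts (nat_lit 3) (T.ls (nat_lit 2) (nat_lit 3)) (T.ts (nat_lit 2) (T.ls (nat_lit 3) (nat_lit 4)) (T.ts (nat_lit 1) (T.ls (nat_lit 2) (nat_lit 4)) (T.ts (nat_lit 0) (T.ls (nat_lit 2) (nat_lit 3)) (T.ts (nat_lit 4) (T.im (nat_lit 7) (nat_lit 2)) T.ie)))))))))) (T.ts (nat_lit 2) (T.ts (nat_lit 3) (T.ts (nat_lit 3) (T.ls (nat_lit 2) (nat_lit 3)) (T.ts (nat_lit 1) (T.ls (nat_lit 3) (nat_lit 4)) (T.ts (nat_lit 0) (T.ls (nat_lit 2) (nat_lit 4)) (T.ts (nat_lit 2) (T.im (nat_lit 7) (nat_lit 2)) (T.nw (T.ls (nat_lit 2) (nat_lit 3))))))) (T.ts (nat_lit 1) (T.ts (nat_lit 3) (T.ls (nat_lit 3) (nat_lit 4)) (T.ts (nat_lit 1) (T.ls (nat_lit 3) (nat_lit 4)) (T.ts (nat_lit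 0) (T.ls (nat_lit 2) (nat_lit 4)) (T.ts (nat_lit 2) (T.im (nat_lit 5) (nat_lit 3)) (T.nw (T.ls (nat_lit 2) (nat_lit 3))))))) (T.ts (nat_lit 0) (T.ts (nat_lit 3) (T.ls (nat_lit 2) (nat_lit 4)) (T.ts (nat_lit 1) (T.ls (nat_lit 3) (nat_lit 4)) (T.ts (nat_lit 0) (T.ls (nat_lit 2) (nat_lit 4)) (T.ts (nat_lit 2) (T.im (nat_lit 7) (nat_lit 2)) (T.nw (T.ls (nat_lit 2) (nat_lit 3))))))) (T.ts (nat_lit 2) (T.im (nat_lit 7) (nat_lit 1)) (T.nw (T.ts (nat_lit 4) (T.ls (nat_lit 2) (nat_lit 3)) (T.ts (nat_lit 2) (T.ls (nat_lit 3) (nat_lit 4)) (T.ts (nat_lit 1) (T.ls (nat_lit 2) (nat_lit 4)) (T.ts (nat_lit 0) (T.ls (nat_lit 2) (nat_lit 3)) (T.ts (nat_lit 3) (T.im (nat_lit 7) (nat_lit 2)) T.ie)))))))))) d862))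
def d864 : T := (T.ts (nat_lit 0) (T.ts (nat_lit 3) (T.ts (nat_lit 3) (T.ls (nat_lit 2) (nat_lit 3)) (T.ts (nat_lit 2) (T.ls (nat_lit 2) (nat_lit 4)) (T.ts (nat_lit 1) (T.ls (nat_lit 3) (nat_lit 4)) (T.ts (nat_lit 0) (T.im (nat_lit 7) (nat_lit 2)) (T.nw (T.ls (nat_lit 2) (nat_lit 3))))))) (T.ts (nat_lit 2) (T.ts (nat_lit 3) (T.ls (nat_lit 2) (nat_lit 3)) (T.ts (nat_lit 2) (T.ls (nat_lit 2) (nat_lit 3)) (T.ts (nat_lit 1) (T.ls (nat_lit 3) (nat_lit 4)) (T.ts (nat_lit 0) (T.im (nat_lit 7) (nat_lit 2)) (T.nw (T.ls (nat_lit 2) (nat_lit 3))))))) (T.ts (nat_lit 1) (T.ts (nat_lit 3) (T.ls (nat_lit 3) (nat_lit 4)) (T.ts (nat_lit 2) (T.ls (nat_lit 2) (nat_lit 3)) (T.ts (nat_lit 1) (T.im (nat_lit 3) (nat_lit 4)) (T.ts (nat_lit 0) (T.im (nat_lit 5) (nat_lit 3)) (T.nw (T.ls (nat_lit 2) (nat_lit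 3))))))) (T.ts (nat_lit 0) (T.im (nat_lit 7) (nat_lit 1)) (T.nw (T.ts (nat_lit 4) (T.ls (nat_lit 2) (nat_lit 3)) (T.ts (nat_lit 3) (T.ls (nat_lit 2) (nat_lit 3)) (T.ts (nat_lit 2) (T.ls (nat_lit 3) (nat_lit 4)) (T.ts (nat_lit 0) (T.ls (nat_lit 2) (nat_lit 3)) (T.ts (nat_lit 1) (T.im (nat_lit 7) (nat_lit 2)) T.ie)))))))))) (T.ts (nat_lit 1) (T.im (nat_lit 3) (nat_lit 3)) (T.nw (T.ts (nat_lit 4) (T.ts (nat_lit 4) (T.ls (nat_lit 2) (nat_lit 3)) (T.ts (nat_lit 3) (T.ls (nat_lit 2) (nat_lit 3)) (T.ts (nat_lit 2) (T.ls (nat_lit 3) (nat_lit 4)) (T.ts (nat_lit 1) (T.ls (nat_lit 2) (nat_lit 4)) (T.ts (nat_lit 0) (T.im (nat_lit 7) (nat_lit 2)) T.ie))))) (T.ts (nat_lit 3) (T.ts (nat_lit 4) (T.ls (nat_lit 2) (nat_lit 3)) (T.ts (nat_lit 3) (T.ls (nat_lit 2) (nat_lit 3)) (T.ts (nat_lit 2) (T.ls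 (nat_lit 3) (nat_lit 4)) (T.ts (nat_lit 1) (T.ls (nat_lit 2) (nat_lit 4)) (T.ts (nat_lit 0) (T.im (nat_lit 7) (nat_lit 2)) T.ie))))) (T.ts (nat_lit 2) (T.ts (nat_lit 4) (T.ls (nat_lit 3) (nat_lit 4)) (T.ts (nat_lit 3) (T.ls (nat_lit 2) (nat_lit 3)) (T.ts (nat_lit 2) (T.ls (nat_lit 3) (nat_lit 4)) (T.ts (nat_lit 1) (T.im (nat_lit 5) (nat_lit 3)) (T.ts (nat_lit 0) (T.im (nat_lit 7) (nat_lit 2)) T.ie))))) (T.ts (nat_lit 1) (T.ts (nat_lit 4) (T.ls (nat_lit 2) (nat_lit 4)) (T.ts (nat_lit 3) (T.ls (nat_lit 2) (nat_lit 3)) (T.ts (nat_lit 2) (T.ls (nat_lit 3) (nat_lit 4)) (T.ts (nat_lit 1) (T.ls (nat_lit 2) (nat_lit 4)) (T.ts (nat_lit 0) (T.im (nat_lit 7) (nat_lit 2)) T.ie))))) (T.ts (nat_lit 0) (T.im (nat_lit 7) (nat_lit 1)) T.ie))))))))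
def d865 : T := (T.ts (nat_lit 3) (T.ts (nat_lit 2) (T.ts (nat_lit 2) (T.ls (nat_lit 2) (nat_lit 3)) (T.ts (nat_lit 1) (T.ts (nat_lit 3) (T.ls (nat_lit 3) (nat_lit 4)) (T.ts (nat_lit 0) (T.ls (nat_lit 2) (nat_lit 4)) (T.sk (T.ls (nat_lit 2) (nat_lit 3))))) (T.ts (nat_lit 0) (T.ls (nat_lit 2) (nat_lit 4)) (T.ts (nat_lit 3) (T.im (nat_lit 7) (nat_lit 2)) (T.nw (T.ls (nat_lit 2) (nat_lit 3))))))) (T.ts (nat_lit 1) (T.ts (nat_lit 2) (T.ls (nat_lit 2) (nat_lit 3)) (T.ts (nat_lit 1) (T.ls (nat_lit 3) (nat_lit 4)) (T.ts (nat_lit 3) (T.im (nat_lit 7) (nat_lit 2)) (T.ts (nat_lit 0) (T.im (nat_lit 5) (nat_lit 3)) (T.nw (T.ls (nat_lit 2) (nat_lit 3))))))) (T.ts (nat_lit 0) (T.ts (nat_lit 2) (T.ls (nat_lit 2) (nat_lit 3)) (T.ts (nat_lit 1) (T.ls (nat_lit 3) (nat_lit 4)) (T.ts (nat_lit 0) (T.ls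 (nat_lit 2) (nat_lit 4)) (T.ts (nat_lit 3) (T.im (nat_lit 7) (nat_lit 2)) (T.nw (T.ls (nat_lit 2) (nat_lit 3))))))) (T.ts (nat_lit 3) (T.im (nat_lit 7) (nat_lit 1)) (T.nw (T.ts (nat_lit 3) (T.ls (nat_lit 2) (nat_lit 3)) (T.ts (nat_lit 2) (T.ls (nat_lit 3) (nat_lit 4)) (T.ts (nat_lit 1) (T.ls (nat_lit 2) (nat_lit 4)) (T.ts (nat_lit 0) (T.ls (nat_lit 2) (nat_lit 3)) (T.ts (nat_lit 4) (T.im (nat_lit 7) (nat_lit 2)) T.ie)))))))))) (T.ts (nat_lit 2) (T.ts (nat_lit 3) (T.ts (nat_lit 3) (T.ls (nat_lit 2) (nat_lit 3)) (T.ts (nat_lit 1) (T.ls (nat_lit 3) (nat_lit 4)) (T.ts (nat_lit 0) (T.ls (nat_lit 2) (nat_lit 4)) (T.ts (nat_lit 2) (T.im (nat_lit 7) (nat_lit 2)) (T.nw (T.ls (nat_lit 2) (nat_lit 3))))))) (T.ts (nat_lit 1) (T.ts (nat_lit 3) (T.ls (nat_lit 3) (nat_lit 4)) (T.ts (nat_lit 1) (T.ls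 (nat_lit 3) (nat_lit 4)) (T.ts (nat_lit 2) (T.im (nat_lit 7) (nat_lit 2)) (T.ts (nat_lit 0) (T.im (nat_lit 5) (nat_lit 3)) (T.nw (T.ls (nat_lit 2) (nat_lit 3))))))) (T.ts (nat_lit 0) (T.ts (nat_lit 3) (T.ls (nat_lit 2) (nat_lit 4)) (T.ts (nat_lit 1) (T.ls (nat_lit 3) (nat_lit 4)) (T.ts (nat_lit 0) (T.ls (nat_lit 2) (nat_lit 4)) (T.ts (nat_lit 2) (T.im (nat_lit 7) (nat_lit 2)) (T.nw (T.ls (nat_lit 2) (nat_lit 3))))))) (T.ts (nat_lit 2) (T.im (nat_lit 7) (nat_lit 1)) (T.nw (T.ts (nat_lit 4) (T.ls (nat_lit 2) (nat_lit 3)) (T.ts (nat_lit 2) (T.ls (nat_lit 3) (nat_lit 4)) (T.ts (nat_lit 1) (T.ls (nat_lit 2) (nat_lit 4)) (T.ts (nat_lit 0) (T.ls (nat_lit 2) (nat_lit 3)) (T.ts (nat_lit 3) (T.im (nat_lit 7) (nat_lit 2)) T.ie)))))))))) d864))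
def d866 : T := (T.ts (nat_lit 1) (T.ts (nat_lit 4) (T.ts (nat_lit 4) (T.ls (nat_lit 2) (nat_lit 3)) (T.ts (nat_lit 3) (T.ls (nat_lit 2) (nat_lit 4)) (T.ts (nat_lit 2) (T.ls (nat_lit 3) (nat_lit 4)) (T.ts (nat_lit 0) (T.ls (nat_lit 2) (nat_lit 3)) (T.ts (nat_lit 1) (T.im (nat_lit 7) (nat_lit 2)) T.ie))))) (T.ts (nat_lit 3) (T.ts (nat_lit 4) (T.ls (nat_lit 2) (nat_lit 3)) (T.ts (nat_lit 3) (T.ls (nat_lit 2) (nat_lit 3)) (T.ts (nat_lit 2) (T.ls (nat_lit 3) (nat_lit 4)) (T.ts (nat_lit 0) (T.ls (nat_lit 2) (nat_lit 3)) (T.ts (nat_lit 1) (T.im (nat_lit 7) (nat_lit 2)) T.ie))))) (T.ts (nat_lit 2) (T.ts (nat_lit 4) (T.ls (nat_lit 3) (nat_lit 4)) (T.ts (nat_lit 3) (T.ls (nat_lit 2) (nat_lit 3)) (T.ts (nat_lit 2) (T.im (nat_lit 3) (nat_lit 4)) (T.ts (nat_lit 1) (T.im (nat_lit 7) (nat_lit 2))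 (T.ts (nat_lit 0) (T.im (nat_lit 5) (nat_lit 3)) T.ie))))) (T.ts (nat_lit 0) (T.ts (nat_lit 4) (T.ls (nat_lit 2) (nat_lit 3)) (T.ts (nat_lit 3) (T.ls (nat_lit 2) (nat_lit 3)) (T.ts (nat_lit 2) (T.ls (nat_lit 3) (nat_lit 4)) (T.ts (nat_lit 0) (T.ls (nat_lit 2) (nat_lit 3)) (T.ts (nat_lit 1) (T.im (nat_lit 7) (nat_lit 2)) T.ie))))) (T.ts (nat_lit 1) (T.im (nat_lit 7) (nat_lit 1)) T.ie))))) (T.ts (nat_lit 0) (T.ts (nat_lit 4) (T.ts (nat_lit 4) (T.ls (nat_lit 2) (nat_lit 3)) (T.ts (nat_lit 3) (T.ls (nat_lit 2) (nat_lit 3)) (T.ts (nat_lit 2) (T.ls (nat_lit 3) (nat_lit 4)) (T.ts (nat_lit 1) (T.ls (nat_lit 2) (nat_lit 4)) (T.ts (nat_lit 0) (T.im (nat_lit 7) (nat_lit 2)) T.ie))))) (T.ts (nat_lit 3) (T.ts (nat_lit 4) (T.ls (nat_lit 2) (nat_lit 3)) (T.ts (nat_lit 3) (T.ls (nat_lit 2) (nat_lit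 3)) (T.ts (nat_lit 2) (T.ls (nat_lit 3) (nat_lit 4)) (T.ts (nat_lit 1) (T.ls (nat_lit 2) (nat_lit 4)) (T.ts (nat_lit 0) (T.im (nat_lit 7) (nat_lit 2)) T.ie))))) (T.ts (nat_lit 2) (T.ts (nat_lit 4) (T.ls (nat_lit 3) (nat_lit 4)) (T.ts (nat_lit 3) (T.ls (nat_lit 2) (nat_lit 3)) (T.ts (nat_lit 2) (T.ls (nat_lit 3) (nat_lit 4)) (T.ts (nat_lit 1) (T.ls (nat_lit 2) (nat_lit 4)) (T.ts (nat_lit 0) (T.im (nat_lit 5) (nat_lit 3)) T.ie))))) (T.ts (nat_lit 1) (T.ts (nat_lit 4) (T.ls (nat_lit 2) (nat_lit 4)) (T.ts (nat_lit 3) (T.ls (nat_lit 2) (nat_lit 3)) (T.ts (nat_lit 2) (T.ls (nat_lit 3) (nat_lit 4)) (T.ts (nat_lit 1) (T.ls (nat_lit 2) (nat_lit 4)) (T.ts (nat_lit 0) (T.im (nat_lit 7) (nat_lit 2)) T.ie))))) (T.ts (nat_lit 0) (T.im (nat_lit 7) (nat_lit 1)) T.ie))))) (T.ts (nat_lit 2) (T.im (nat_lit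 5) (nat_lit 2)) T.ie)))
def d867 : T := (T.ts (nat_lit 4) (T.ts (nat_lit 3) (T.ts (nat_lit 3) (T.ls (nat_lit 2) (nat_lit 3)) (T.ts (nat_lit 2) (T.ts (nat_lit 4) (T.ls (nat_lit 3) (nat_lit 4)) (T.ts (nat_lit 1) (T.ls (nat_lit 2) (nat_lit 3)) (T.sk (T.ls (nat_lit 2) (nat_lit 3))))) (T.ts (nat_lit 1) (T.ls (nat_lit 2) (nat_lit 4)) (T.ts (nat_lit 0) (T.ls (nat_lit 2) (nat_lit 3)) (T.ts (nat_lit 4) (T.im (nat_lit 7) (nat_lit 2)) T.ie))))) (T.ts (nat_lit 2) (T.ts (nat_lit 3) (T.ls (nat_lit 2) (nat_lit 3)) (T.ts (nat_lit 2) (T.ls (nat_lit 3) (nat_lit 4)) (T.ts (nat_lit 1) (T.ls (nat_lit 2) (nat_lit 4)) (T.ts (nat_lit 4) (T.im (nat_lit 7) (nat_lit 2)) (T.ts (nat_lit 0) (T.im (nat_lit 5) (nat_lit 3)) T.ie))))) (T.ts (nat_lit 1) (T.ts (nat_lit 3) (T.ls (nat_lit 2) (nat_lit 3)) (T.ts (nat_lit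 2) (T.ls (nat_lit 3) (nat_lit 4)) (T.ts (nat_lit 1) (T.ls (nat_lit 2) (nat_lit 4)) (T.ts (nat_lit 0) (T.ls (nat_lit 2) (nat_lit 3)) (T.ts (nat_lit 4) (T.im (nat_lit 7) (nat_lit 2)) T.ie))))) (T.ts (nat_lit 0) (T.ts (nat_lit 3) (T.ls (nat_lit 2) (nat_lit 3)) (T.ts (nat_lit 2) (T.ls (nat_lit 3) (nat_lit 4)) (T.ts (nat_lit 1) (T.ls (nat_lit 2) (nat_lit 4)) (T.ts (nat_lit 0) (T.ls (nat_lit 2) (nat_lit 3)) (T.ts (nat_lit 4) (T.im (nat_lit 7) (nat_lit 2)) T.ie))))) (T.ts (nat_lit 4) (T.im (nat_lit 7) (nat_lit 1)) T.ie))))) (T.ts (nat_lit 3) (T.ts (nat_lit 4) (T.ts (nat_lit 4) (T.ls (nat_lit 2) (nat_lit 3)) (T.ts (nat_lit 2) (T.ls (nat_lit 3) (nat_lit 4)) (T.ts (nat_lit 1) (T.ls (nat_lit 2) (nat_lit 4)) (T.ts (nat_lit 0) (T.ls (nat_lit 2) (nat_lit 3)) (T.ts (nat_lit 3) (T.im (nat_lit 7)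 (nat_lit 2)) T.ie))))) (T.ts (nat_lit 2) (T.ts (nat_lit 4) (T.ls (nat_lit 3) (nat_lit 4)) (T.ts (nat_lit 2) (T.ls (nat_lit 3) (nat_lit 4)) (T.ts (nat_lit 1) (T.ls (nat_lit 2) (nat_lit 4)) (T.ts (nat_lit 3) (T.im (nat_lit 7) (nat_lit 2)) (T.ts (nat_lit 0) (T.im (nat_lit 5) (nat_lit 3)) T.ie))))) (T.ts (nat_lit 1) (T.ts (nat_lit 4) (T.ls (nat_lit 2) (nat_lit 4)) (T.ts (nat_lit 2) (T.ls (nat_lit 3) (nat_lit 4)) (T.ts (nat_lit 1) (T.ls (nat_lit 2) (nat_lit 4)) (T.ts (nat_lit 0) (T.ls (nat_lit 2) (nat_lit 3)) (T.ts (nat_lit 3) (T.im (nat_lit 7) (nat_lit 2)) T.ie))))) (T.ts (nat_lit 0) (T.ts (nat_lit 4) (T.ls (nat_lit 2) (nat_lit 3)) (T.ts (nat_lit 2) (T.ls (nat_lit 3) (nat_lit 4)) (T.ts (nat_lit 1) (T.ls (nat_lit 2) (nat_lit 4)) (T.ts (nat_lit 0) (T.ls (nat_lit 2) (nat_lit 3)) (T.ts (nat_lit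 3) (T.im (nat_lit 7) (nat_lit 2)) T.ie))))) (T.ts (nat_lit 3) (T.im (nat_lit 7) (nat_lit 1)) T.ie))))) d866))
def d868 : T := (T.ts (nat_lit 3) (T.ts (nat_lit 3) (T.ts (nat_lit 2) (T.ts (nat_lit 2) (T.ls (nat_lit 2) (nat_lit 3)) (T.ts (nat_lit 1) (T.ls (nat_lit 3) (nat_lit 4)) (T.ts (nat_lit 0) (T.ls (nat_lit 2) (nat_lit 4)) (T.ts (nat_lit 3) (T.im (nat_lit 7) (nat_lit 2)) (T.nw (T.ls (nat_lit 2) (nat_lit 3))))))) (T.ts (nat_lit 1) (T.ts (nat_lit 2) (T.ls (nat_lit 2) (nat_lit 3)) (T.ts (nat_lit 1) (T.ls (nat_lit 3) (nat_lit 4)) (T.ts (nat_lit 0) (T.ls (nat_lit 2) (nat_lit 4)) (T.ts (nat_lit 3) (T.im (nat_lit 5) (nat_lit 3)) (T.nw (T.ls (nat_lit 2) (nat_lit 3))))))) (T.ts (nat_lit 0) (T.ts (nat_lit 2) (T.ls (nat_lit 2) (nat_lit 3)) (T.ts (nat_lit 1) (T.ls (nat_lit 3) (nat_lit 4)) (T.ts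 (nat_lit 0) (T.ls (nat_lit 2) (nat_lit 4)) (T.ts (nat_lit 3) (T.im (nat_lit 7) (nat_lit 2)) (T.nw (T.ls (nat_lit 2) (nat_lit 3))))))) (T.ts (nat_lit 3) (T.im (nat_lit 7) (nat_lit 1)) (T.nw (T.ts (nat_lit 3) (T.ls (nat_lit 2) (nat_lit 3)) (T.ts (nat_lit 2) (T.ls (nat_lit 3) (nat_lit 4)) (T.ts (nat_lit 1) (T.ls (nat_lit 2) (nat_lit 4)) (T.ts (nat_lit 0) (T.ls (nat_lit 2) (nat_lit 3)) (T.ts (nat_lit 4) (T.im (nat_lit 7) (nat_lit 2)) T.ie)))))))))) (T.ts (nat_lit 2) d860 d861)) (T.ts (nat_lit 2) d863 (T.ts (nat_lit 0) d865 (T.ts (nat_lit 1) (T.im (nat_lit 5) (nat_lit 1)) (T.nw d867)))))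
def d869 : T := (T.ts (nat_lit 4) (T.ts (nat_lit 4) (T.ls (nat_lit 2) (nat_lit 3)) (T.ts (nat_lit 2) (T.ls (nat_lit 3) (nat_lit 4)) (T.ts (nat_lit 1) (T.ls (nat_lit 2) (nat_lit 4)) (T.ts (nat_lit 0) (T.ls (nat_lit 2) (nat_lit 3)) (T.ts (nat_lit 3) (T.im (nat_lit 7) (nat_lit 2)) T.ie))))) (T.ts (nat_lit 2) (T.ts (nat_lit 4) (T.ls (nat_lit 3) (nat_lit 4)) (T.ts (nat_lit 2) (T.ls (nat_lit 3) (nat_lit 4)) (T.ts (nat_lit 1) (T.ts (nat_lit 4) (T.ts (nat_lit 3) (T.ts (nat_lit 2) (T.ts (nat_lit 1) (T.im (nat_lit 7) (nat_lit 4)) (T.sk (T.ls (nat_lit 2) (nat_lit 3)))) (T.sk (T.ls (nat_lit 2) (nat_lit 3)))) (T.sk (T.ls (nat_lit 2) (nat_lit 3)))) (T.ts (nat_lit 2) (T.ls (nat_lit 2) (nat_lit 3)) (T.sk (T.ls (nat_lit 2) (nat_lit 3))))) (T.ts (nat_lit 0) (T.ls (nat_lit 2) (nat_lit 3)) (T.ts (nat_lit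 3) (T.im (nat_lit 7) (nat_lit 2)) T.ie))))) (T.ts (nat_lit 1) (T.ts (nat_lit 4) (T.ls (nat_lit 2) (nat_lit 4)) (T.ts (nat_lit 2) (T.ls (nat_lit 3) (nat_lit 4)) (T.ts (nat_lit 1) (T.ls (nat_lit 2) (nat_lit 4)) (T.ts (nat_lit 0) (T.ls (nat_lit 2) (nat_lit 3)) (T.ts (nat_lit 3) (T.im (nat_lit 7) (nat_lit 2)) T.ie))))) (T.ts (nat_lit 0) (T.ts (nat_lit 2) (T.ls (nat_lit 3) (nat_lit 4)) (T.ts (nat_lit 1) (T.ls (nat_lit 2) (nat_lit 4)) (T.ts (nat_lit 0) (T.ls (nat_lit 2) (nat_lit 3)) (T.ts (nat_lit 4) (T.im (nat_lit 5) (nat_lit 3)) (T.ts (nat_lit 3) (T.im (nat_lit 7) (nat_lit 2)) T.ie))))) (T.ts (nat_lit 3) (T.im (nat_lit 7) (nat_lit 1)) T.ie)))))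
def d870 : T := (T.ts (nat_lit 2) (T.ts (nat_lit 4) (T.ts (nat_lit 4) (T.ls (nat_lit 2) (nat_lit 3)) (T.ts (nat_lit 3) (T.ls (nat_lit 3) (nat_lit 4)) (T.ts (nat_lit 1) (T.ls (nat_lit 2) (nat_lit 4)) (T.ts (nat_lit 0) (T.ls (nat_lit 2) (nat_lit 3)) (T.ts (nat_lit 2) (T.im (nat_lit 7) (nat_lit 2)) T.ie))))) (T.ts (nat_lit 3) (T.ts (nat_lit 4) (T.ls (nat_lit 2) (nat_lit 3)) (T.ts (nat_lit 3) (T.ls (nat_lit 2) (nat_lit 3)) (T.ts (nat_lit 1) (T.ls (nat_lit 2) (nat_lit 4)) (T.ts (nat_lit 0) (T.ls (nat_lit 2) (nat_lit 3)) (T.ts (nat_lit 2) (T.im (nat_lit 7) (nat_lit 2)) T.ie))))) (T.ts (nat_lit 1) (T.ts (nat_lit 4) (T.ls (nat_lit 2) (nat_lit 4)) (T.ts (nat_lit 3) (T.ls (nat_lit 2) (nat_lit 3)) (T.ts (nat_lit 1) (T.ls (nat_lit 2) (nat_lit 4)) (T.ts (nat_lit 0) (T.ls (nat_lit 2) (nat_lit 3))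 (T.ts (nat_lit 2) (T.im (nat_lit 7) (nat_lit 2)) T.ie))))) (T.ts (nat_lit 0) (T.ts (nat_lit 3) (T.ls (nat_lit 2) (nat_lit 3)) (T.ts (nat_lit 1) (T.ls (nat_lit 2) (nat_lit 4)) (T.ts (nat_lit 0) (T.ls (nat_lit 2) (nat_lit 3)) (T.ts (nat_lit 4) (T.im (nat_lit 5) (nat_lit 3)) (T.ts (nat_lit 2) (T.im (nat_lit 7) (nat_lit 2)) T.ie))))) (T.ts (nat_lit 2) (T.im (nat_lit 7) (nat_lit 1)) T.ie))))) (T.ts (nat_lit 1) (T.ts (nat_lit 4) (T.ts (nat_lit 4) (T.ls (nat_lit 2) (nat_lit 3)) (T.ts (nat_lit 3) (T.ls (nat_lit 2) (nat_lit 4)) (T.ts (nat_lit 2) (T.ls (nat_lit 3) (nat_lit 4)) (T.ts (nat_lit 0) (T.ls (nat_lit 2) (nat_lit 3)) (T.ts (nat_lit 1) (T.im (nat_lit 7) (nat_lit 2)) T.ie))))) (T.ts (nat_lit 3) (T.ts (nat_lit 4) (T.ls (nat_lit 2) (nat_lit 3)) (T.ts (nat_lit 3) (T.ls (nat_lit 2) (nat_lit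 3)) (T.ts (nat_lit 2) (T.ls (nat_lit 3) (nat_lit 4)) (T.ts (nat_lit 0) (T.ls (nat_lit 2) (nat_lit 3)) (T.ts (nat_lit 1) (T.im (nat_lit 7) (nat_lit 2)) T.ie))))) (T.ts (nat_lit 2) (T.ts (nat_lit 4) (T.ls (nat_lit 3) (nat_lit 4)) (T.ts (nat_lit 3) (T.ls (nat_lit 2) (nat_lit 3)) (T.ts (nat_lit 2) (T.ls (nat_lit 3) (nat_lit 4)) (T.ts (nat_lit 1) (T.im (nat_lit 7) (nat_lit 2)) (T.ts (nat_lit 0) (T.im (nat_lit 3) (nat_lit 4)) T.ie))))) (T.ts (nat_lit 0) (T.ts (nat_lit 3) (T.ls (nat_lit 2) (nat_lit 3)) (T.ts (nat_lit 2) (T.ls (nat_lit 3) (nat_lit 4)) (T.ts (nat_lit 0) (T.ls (nat_lit 2) (nat_lit 3)) (T.ts (nat_lit 4) (T.im (nat_lit 5) (nat_lit 3)) (T.ts (nat_lit 1) (T.im (nat_lit 7) (nat_lit 2)) T.ie))))) (T.ts (nat_lit 1) (T.im (nat_lit 7) (nat_lit 1)) T.ie))))) (T.ts (nat_lit 0) (T.im (nat_lit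 5) (nat_lit 2)) T.ie)))
def d871 : T := (T.ts (nat_lit 2) (T.ts (nat_lit 4) (T.ts (nat_lit 4) (T.ls (nat_lit 2) (nat_lit 3)) (T.ts (nat_lit 3) (T.ls (nat_lit 3) (nat_lit 4)) (T.ts (nat_lit 1) (T.ls (nat_lit 2) (nat_lit 4)) (T.ts (nat_lit 0) (T.ls (nat_lit 2) (nat_lit 3)) (T.ts (nat_lit 2) (T.im (nat_lit 7) (nat_lit 2)) T.ie))))) (T.ts (nat_lit 3) (T.ts (nat_lit 4) (T.ls (nat_lit 2) (nat_lit 3)) (T.ts (nat_lit 3) (T.ls (nat_lit 2) (nat_lit 3)) (T.ts (nat_lit 1) (T.ls (nat_lit 2) (nat_lit 4)) (T.ts (nat_lit 0) (T.ls (nat_lit 2) (nat_lit 3)) (T.ts (nat_lit 2) (T.im (nat_lit 7) (nat_lit 2)) T.ie))))) (T.ts (nat_lit 1) (T.ts (nat_lit 4) (T.ls (nat_lit 2) (nat_lit 4)) (T.ts (nat_lit 3) (T.ls (nat_lit 2) (nat_lit 3)) (T.ts (nat_lit 1) (T.ls (nat_lit 2) (nat_lit 4)) (T.ts (nat_lit 0) (T.ls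 (nat_lit 2) (nat_lit 3)) (T.ts (nat_lit 2) (T.im (nat_lit 1) (nat_lit 5)) T.ie))))) (T.ts (nat_lit 0) (T.ts (nat_lit 4) (T.ls (nat_lit 2) (nat_lit 3)) (T.ts (nat_lit 1) (T.ls (nat_lit 2) (nat_lit 4)) (T.ts (nat_lit 0) (T.ls (nat_lit 2) (nat_lit 3)) (T.ts (nat_lit 3) (T.im (nat_lit 5) (nat_lit 3)) (T.ts (nat_lit 2) (T.im (nat_lit 7) (nat_lit 2)) T.ie))))) (T.ts (nat_lit 2) (T.im (nat_lit 7) (nat_lit 1)) T.ie))))) (T.ts (nat_lit 1) (T.ts (nat_lit 4) (T.ts (nat_lit 4) (T.ls (nat_lit 2) (nat_lit 3)) (T.ts (nat_lit 3) (T.ls (nat_lit 2) (nat_lit 4)) (T.ts (nat_lit 2) (T.ls (nat_lit 3) (nat_lit 4)) (T.ts (nat_lit 0) (T.ls (nat_lit 2) (nat_lit 3)) (T.ts (nat_lit 1) (T.im (nat_lit 7) (nat_lit 2)) T.ie))))) (T.ts (nat_lit 3) (T.ts (nat_lit 4) (T.ls (nat_lit 2) (nat_lit 3)) (T.ts (nat_lit 3)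 (T.ls (nat_lit 2) (nat_lit 3)) (T.ts (nat_lit 2) (T.ls (nat_lit 3) (nat_lit 4)) (T.ts (nat_lit 0) (T.ls (nat_lit 2) (nat_lit 3)) (T.ts (nat_lit 1) (T.im (nat_lit 7) (nat_lit 2)) T.ie))))) (T.ts (nat_lit 2) (T.ts (nat_lit 4) (T.ls (nat_lit 3) (nat_lit 4)) (T.ts (nat_lit 3) (T.ls (nat_lit 2) (nat_lit 3)) (T.ts (nat_lit 2) (T.ls (nat_lit 3) (nat_lit 4)) (T.ts (nat_lit 1) (T.im (nat_lit 7) (nat_lit 2)) (T.ts (nat_lit 0) (T.im (nat_lit 3) (nat_lit 4)) T.ie))))) (T.ts (nat_lit 0) (T.ts (nat_lit 4) (T.ls (nat_lit 2) (nat_lit 3)) (T.ts (nat_lit 2) (T.ls (nat_lit 3) (nat_lit 4)) (T.ts (nat_lit 0) (T.ls (nat_lit 2) (nat_lit 3)) (T.ts (nat_lit 3) (T.im (nat_lit 5) (nat_lit 3)) (T.ts (nat_lit 1) (T.im (nat_lit 7) (nat_lit 2)) T.ie))))) (T.ts (nat_lit 1) (T.im (nat_lit 7) (nat_lit 1)) T.ie)))))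 (T.ts (nat_lit 0) (T.im (nat_lit 5) (nat_lit 2)) T.ie)))
def d872 : T := (T.ts (nat_lit 4) (T.ts (nat_lit 3) (T.ts (nat_lit 3) (T.ls (nat_lit 2) (nat_lit 3)) (T.ts (nat_lit 2) (T.ls (nat_lit 3) (nat_lit 4)) (T.ts (nat_lit 1) (T.ls (nat_lit 2) (nat_lit 4)) (T.ts (nat_lit 0) (T.ls (nat_lit 2) (nat_lit 3)) (T.ts (nat_lit 4) (T.im (nat_lit 7) (nat_lit 2)) T.ie))))) (T.ts (nat_lit 2) (T.ts (nat_lit 3) (T.ls (nat_lit 2) (nat_lit 3)) (T.ts (nat_lit 2) (T.ls (nat_lit 3) (nat_lit 4)) (T.ts (nat_lit 1) (T.ls (nat_lit 2) (nat_lit 4)) (T.ts (nat_lit 0) (T.ls (nat_lit 2) (nat_lit 3)) (T.ts (nat_lit 4) (T.im (nat_lit 7) (nat_lit 2)) T.ie))))) (T.ts (nat_lit 1) (T.ts (nat_lit 3) (T.ls (nat_lit 2) (nat_lit 3)) (T.ts (nat_lit 2) (T.ls (nat_lit 3) (nat_lit 4)) (T.ts (nat_lit 1) (T.ls (nat_lit 2) (nat_lit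 4)) (T.ts (nat_lit 0) (T.ls (nat_lit 2) (nat_lit 3)) (T.ts (nat_lit 4) (T.im (nat_lit 7) (nat_lit 2)) T.ie))))) (T.ts (nat_lit 0) (T.ts (nat_lit 2) (T.ls (nat_lit 3) (nat_lit 4)) (T.ts (nat_lit 1) (T.ls (nat_lit 2) (nat_lit 4)) (T.ts (nat_lit 0) (T.ls (nat_lit 2) (nat_lit 3)) (T.ts (nat_lit 4) (T.im (nat_lit 7) (nat_lit 2)) (T.ts (nat_lit 3) (T.im (nat_lit 5) (nat_lit 3)) T.ie))))) (T.ts (nat_lit 4) (T.im (nat_lit 7) (nat_lit 1)) T.ie))))) (T.ts (nat_lit 3) (T.ts (nat_lit 4) (T.ts (nat_lit 4) (T.ls (nat_lit 2) (nat_lit 3)) (T.ts (nat_lit 2) (T.ls (nat_lit 3) (nat_lit 4)) (T.ts (nat_lit 1) (T.ls (nat_lit 2) (nat_lit 4)) (T.ts (nat_lit 0) (T.ls (nat_lit 2) (nat_lit 3)) (T.ts (nat_lit 3) (T.im (nat_lit 7) (nat_lit 2)) T.ie))))) (T.ts (nat_lit 2) (T.ts (nat_lit 4) (T.ls (nat_lit 3) (nat_lit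 4)) (T.ts (nat_lit 2) (T.ls (nat_lit 3) (nat_lit 4)) (T.ts (nat_lit 1) (T.ls (nat_lit 2) (nat_lit 4)) (T.ts (nat_lit 0) (T.ls (nat_lit 2) (nat_lit 3)) (T.ts (nat_lit 3) (T.im (nat_lit 7) (nat_lit 2)) T.ie))))) (T.ts (nat_lit 1) (T.ts (nat_lit 4) (T.ls (nat_lit 2) (nat_lit 4)) (T.ts (nat_lit 2) (T.ls (nat_lit 3) (nat_lit 4)) (T.ts (nat_lit 1) (T.ls (nat_lit 2) (nat_lit 4)) (T.ts (nat_lit 0) (T.ls (nat_lit 2) (nat_lit 3)) (T.ts (nat_lit 3) (T.im (nat_lit 7) (nat_lit 2)) T.ie))))) (T.ts (nat_lit 0) (T.ts (nat_lit 4) (T.ls (nat_lit 2) (nat_lit 3)) (T.ts (nat_lit 2) (T.ls (nat_lit 3) (nat_lit 4)) (T.ts (nat_lit 1) (T.ls (nat_lit 2) (nat_lit 4)) (T.ts (nat_lit 0) (T.ls (nat_lit 2) (nat_lit 3)) (T.ts (nat_lit 3) (T.im (nat_lit 5) (nat_lit 3)) T.ie))))) (T.ts (nat_lit 3) (T.im (nat_lit 7)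 (nat_lit 1)) T.ie))))) d871))
def d873 : T := (T.ts (nat_lit 2) (T.ts (nat_lit 4) (T.ts (nat_lit 4) (T.ls (nat_lit 2) (nat_lit 3)) (T.ts (nat_lit 3) (T.ls (nat_lit 3) (nat_lit 4)) (T.ts (nat_lit 1) (T.ls (nat_lit 2) (nat_lit 4)) (T.ts (nat_lit 0) (T.ls (nat_lit 2) (nat_lit 3)) (T.ts (nat_lit 2) (T.im (nat_lit 7) (nat_lit 2)) T.ie))))) (T.ts (nat_lit 3) (T.ts (nat_lit 4) (T.ls (nat_lit 2) (nat_lit 3)) (T.ts (nat_lit 3) (T.ls (nat_lit 2) (nat_lit 3)) (T.ts (nat_lit 1) (T.ls (nat_lit 2) (nat_lit 4)) (T.ts (nat_lit 0) (T.ls (nat_lit 2) (nat_lit 3)) (T.ts (nat_lit 2) (T.im (nat_lit 7) (nat_lit 2)) T.ie))))) (T.ts (nat_lit 1) (T.ts (nat_lit 4) (T.ls (nat_lit 2) (nat_lit 4)) (T.ts (nat_lit 3) (T.ls (nat_lit 2) (nat_lit 3)) (T.ts (nat_lit 1) (T.ls (nat_lit 2) (nat_lit 4)) (T.ts (nat_lit 0)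 (T.ls (nat_lit 2) (nat_lit 3)) (T.ts (nat_lit 2) (T.im (nat_lit 7) (nat_lit 2)) T.ie))))) (T.ts (nat_lit 0) (T.ts (nat_lit 4) (T.ls (nat_lit 2) (nat_lit 3)) (T.ts (nat_lit 3) (T.ls (nat_lit 2) (nat_lit 3)) (T.ts (nat_lit 1) (T.ls (nat_lit 2) (nat_lit 4)) (T.ts (nat_lit 0) (T.ls (nat_lit 2) (nat_lit 3)) (T.ts (nat_lit 2) (T.im (nat_lit 5) (nat_lit 3)) T.ie))))) (T.ts (nat_lit 2) (T.im (nat_lit 7) (nat_lit 1)) T.ie))))) (T.ts (nat_lit 1) (T.ts (nat_lit 4) (T.ts (nat_lit 4) (T.ls (nat_lit 2) (nat_lit 3)) (T.ts (nat_lit 3) (T.ls (nat_lit 2) (nat_lit 4)) (T.ts (nat_lit 2) (T.ls (nat_lit 3) (nat_lit 4)) (T.ts (nat_lit 0) (T.ls (nat_lit 2) (nat_lit 3)) (T.ts (nat_lit 1) (T.im (nat_lit 7) (nat_lit 2)) T.ie))))) (T.ts (nat_lit 3) (T.ts (nat_lit 4) (T.ls (nat_lit 2) (nat_lit 3)) (T.ts (nat_lit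 3) (T.ls (nat_lit 2) (nat_lit 3)) (T.ts (nat_lit 2) (T.ls (nat_lit 3) (nat_lit 4)) (T.ts (nat_lit 0) (T.ls (nat_lit 2) (nat_lit 3)) (T.ts (nat_lit 1) (T.im (nat_lit 7) (nat_lit 2)) T.ie))))) (T.ts (nat_lit 2) (T.ts (nat_lit 4) (T.ls (nat_lit 3) (nat_lit 4)) (T.ts (nat_lit 3) (T.ls (nat_lit 2) (nat_lit 3)) (T.ts (nat_lit 2) (T.ls (nat_lit 3) (nat_lit 4)) (T.ts (nat_lit 1) (T.im (nat_lit 7) (nat_lit 2)) (T.ts (nat_lit 0) (T.im (nat_lit 3) (nat_lit 4)) T.ie))))) (T.ts (nat_lit 0) (T.ts (nat_lit 4) (T.ls (nat_lit 2) (nat_lit 3)) (T.ts (nat_lit 3) (T.ls (nat_lit 2) (nat_lit 3)) (T.ts (nat_lit 0) (T.ls (nat_lit 2) (nat_lit 3)) (T.ts (nat_lit 2) (T.im (nat_lit 5) (nat_lit 3)) (T.ts (nat_lit 1) (T.im (nat_lit 7) (nat_lit 2)) T.ie))))) (T.ts (nat_lit 1) (T.im (nat_lit 7) (nat_lit 1)) T.ie)))))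 (T.ts (nat_lit 0) (T.im (nat_lit 5) (nat_lit 2)) T.ie)))
def d874 : T := (T.ts (nat_lit 4) (T.ts (nat_lit 3) (T.ts (nat_lit 3) (T.ls (nat_lit 2) (nat_lit 3)) (T.ts (nat_lit 2) (T.ls (nat_lit 3) (nat_lit 4)) (T.ts (nat_lit 1) (T.ls (nat_lit 2) (nat_lit 4)) (T.ts (nat_lit 0) (T.ls (nat_lit 2) (nat_lit 3)) (T.ts (nat_lit 4) (T.im (nat_lit 7) (nat_lit 2)) T.ie))))) (T.ts (nat_lit 2) (T.ts (nat_lit 3) (T.ls (nat_lit 2) (nat_lit 3)) (T.ts (nat_lit 2) (T.ls (nat_lit 3) (nat_lit 4)) (T.ts (nat_lit 1) (T.ls (nat_lit 2) (nat_lit 4)) (T.ts (nat_lit 0) (T.ls (nat_lit 2) (nat_lit 3)) (T.ts (nat_lit 4) (T.im (nat_lit 7) (nat_lit 2)) T.ie))))) (T.ts (nat_lit 1) (T.ts (nat_lit 3) (T.ls (nat_lit 2) (nat_lit 3)) (T.ts (nat_lit 2) (T.ls (nat_lit 3) (nat_lit 4)) (T.ts (nat_lit 1) (T.ls (nat_lit 2) (nat_lit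 4)) (T.ts (nat_lit 0) (T.ls (nat_lit 2) (nat_lit 3)) (T.ts (nat_lit 4) (T.im (nat_lit 7) (nat_lit 2)) T.ie))))) (T.ts (nat_lit 0) (T.ts (nat_lit 3) (T.ls (nat_lit 2) (nat_lit 3)) (T.ts (nat_lit 1) (T.ls (nat_lit 2) (nat_lit 4)) (T.ts (nat_lit 0) (T.ls (nat_lit 2) (nat_lit 3)) (T.ts (nat_lit 4) (T.im (nat_lit 7) (nat_lit 2)) (T.ts (nat_lit 2) (T.im (nat_lit 5) (nat_lit 3)) T.ie))))) (T.ts (nat_lit 4) (T.im (nat_lit 7) (nat_lit 1)) T.ie))))) (T.ts (nat_lit 3) (T.ts (nat_lit 4) (T.ts (nat_lit 4) (T.ls (nat_lit 2) (nat_lit 3)) (T.ts (nat_lit 2) (T.ls (nat_lit 3) (nat_lit 4)) (T.ts (nat_lit 1) (T.ls (nat_lit 2) (nat_lit 4)) (T.ts (nat_lit 0) (T.ls (nat_lit 2) (nat_lit 3)) (T.ts (nat_lit 3) (T.im (nat_lit 7) (nat_lit 2)) T.ie))))) (T.ts (nat_lit 2) (T.ts (nat_lit 4) (T.ls (nat_lit 3) (nat_lit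 4)) (T.ts (nat_lit 2) (T.ls (nat_lit 3) (nat_lit 4)) (T.ts (nat_lit 1) (T.ls (nat_lit 2) (nat_lit 4)) (T.ts (nat_lit 0) (T.ls (nat_lit 2) (nat_lit 3)) (T.ts (nat_lit 3) (T.im (nat_lit 7) (nat_lit 2)) T.ie))))) (T.ts (nat_lit 1) (T.ts (nat_lit 4) (T.ls (nat_lit 2) (nat_lit 4)) (T.ts (nat_lit 2) (T.ls (nat_lit 3) (nat_lit 4)) (T.ts (nat_lit 1) (T.ls (nat_lit 2) (nat_lit 4)) (T.ts (nat_lit 0) (T.ls (nat_lit 2) (nat_lit 3)) (T.ts (nat_lit 3) (T.im (nat_lit 7) (nat_lit 2)) T.ie))))) (T.ts (nat_lit 0) (T.ts (nat_lit 4) (T.ls (nat_lit 2) (nat_lit 3)) (T.ts (nat_lit 1) (T.ls (nat_lit 2) (nat_lit 4)) (T.ts (nat_lit 0) (T.ls (nat_lit 2) (nat_lit 3)) (T.ts (nat_lit 3) (T.im (nat_lit 7) (nat_lit 2)) (T.ts (nat_lit 2) (T.im (nat_lit 5) (nat_lit 3)) T.ie))))) (T.ts (nat_lit 3) (T.im (nat_lit 7)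 (nat_lit 1)) T.ie))))) d873))
def d875 : T := (T.ts (nat_lit 3) (T.ts (nat_lit 4) (T.ts (nat_lit 4) (T.ls (nat_lit 2) (nat_lit 3)) (T.ts (nat_lit 2) (T.ls (nat_lit 3) (nat_lit 4)) (T.ts (nat_lit 1) (T.ls (nat_lit 2) (nat_lit 4)) (T.ts (nat_lit 0) (T.ls (nat_lit 2) (nat_lit 3)) (T.ts (nat_lit 3) (T.im (nat_lit 7) (nat_lit 2)) T.ie))))) (T.ts (nat_lit 2) (T.ts (nat_lit 4) (T.ls (nat_lit 3) (nat_lit 4)) (T.ts (nat_lit 2) (T.ls (nat_lit 3) (nat_lit 4)) (T.ts (nat_lit 1) (T.ls (nat_lit 2) (nat_lit 4)) (T.ts (nat_lit 0) (T.ls (nat_lit 2) (nat_lit 3)) (T.ts (nat_lit 3) (T.im (nat_lit 7) (nat_lit 2)) T.ie))))) (T.ts (nat_lit 1) (T.ts (nat_lit 4) (T.ls (nat_lit 2) (nat_lit 4)) (T.ts (nat_lit 2) (T.ls (nat_lit 3) (nat_lit 4)) (T.ts (nat_lit 1) (T.ls (nat_lit 2) (nat_lit 4)) (T.ts (nat_lit 0)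 (T.ls (nat_lit 2) (nat_lit 3)) (T.ts (nat_lit 3) (T.im (nat_lit 7) (nat_lit 2)) T.ie))))) (T.ts (nat_lit 0) (T.ts (nat_lit 4) (T.ls (nat_lit 2) (nat_lit 3)) (T.ts (nat_lit 2) (T.ls (nat_lit 3) (nat_lit 4)) (T.ts (nat_lit 0) (T.ls (nat_lit 2) (nat_lit 3)) (T.ts (nat_lit 3) (T.im (nat_lit 7) (nat_lit 2)) (T.ts (nat_lit 1) (T.im (nat_lit 5) (nat_lit 3)) T.ie))))) (T.ts (nat_lit 3) (T.im (nat_lit 7) (nat_lit 1)) T.ie))))) (T.ts (nat_lit 1) (T.ts (nat_lit 4) (T.ts (nat_lit 4) (T.ls (nat_lit 2) (nat_lit 3)) (T.ts (nat_lit 3) (T.ls (nat_lit 2) (nat_lit 4)) (T.ts (nat_lit 2) (T.ls (nat_lit 3) (nat_lit 4)) (T.ts (nat_lit 0) (T.ls (nat_lit 2) (nat_lit 3)) (T.ts (nat_lit 1) (T.im (nat_lit 7) (nat_lit 2)) T.ie))))) (T.ts (nat_lit 3) (T.ts (nat_lit 4) (T.ls (nat_lit 2) (nat_lit 3)) (T.ts (nat_lit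 3) (T.ls (nat_lit 2) (nat_lit 3)) (T.ts (nat_lit 2) (T.ls (nat_lit 3) (nat_lit 4)) (T.ts (nat_lit 0) (T.ls (nat_lit 2) (nat_lit 3)) (T.ts (nat_lit 1) (T.im (nat_lit 7) (nat_lit 2)) T.ie))))) (T.ts (nat_lit 2) (T.ts (nat_lit 4) (T.ls (nat_lit 3) (nat_lit 4)) (T.ts (nat_lit 3) (T.ls (nat_lit 2) (nat_lit 3)) (T.ts (nat_lit 2) (T.ls (nat_lit 3) (nat_lit 4)) (T.ts (nat_lit 1) (T.im (nat_lit 7) (nat_lit 2)) (T.ts (nat_lit 0) (T.im (nat_lit 3) (nat_lit 4)) T.ie))))) (T.ts (nat_lit 0) (T.ts (nat_lit 4) (T.ls (nat_lit 2) (nat_lit 3)) (T.ts (nat_lit 3) (T.ls (nat_lit 2) (nat_lit 3)) (T.ts (nat_lit 2) (T.ls (nat_lit 3) (nat_lit 4)) (T.ts (nat_lit 0) (T.ls (nat_lit 2) (nat_lit 3)) (T.ts (nat_lit 1) (T.im (nat_lit 5) (nat_lit 3)) T.ie))))) (T.ts (nat_lit 1) (T.im (nat_lit 7) (nat_lit 1)) T.ie)))))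 (T.ts (nat_lit 2) (T.im (nat_lit 3) (nat_lit 3)) (T.ts (nat_lit 0) (T.im (nat_lit 5) (nat_lit 2)) T.ie))))
def d876 : T := (T.ts (nat_lit 1) (T.ts (nat_lit 4) (T.ts (nat_lit 3) (T.ts (nat_lit 3) (T.ls (nat_lit 2) (nat_lit 3)) (T.ts (nat_lit 2) (T.ts (nat_lit 4) (T.ls (nat_lit 3) (nat_lit 4)) (T.ts (nat_lit 1) (T.ls (nat_lit 2) (nat_lit 4)) (T.sk (T.ls (nat_lit 2) (nat_lit 3))))) (T.ts (nat_lit 1) (T.ls (nat_lit 2) (nat_lit 4)) (T.ts (nat_lit 0) (T.ls (nat_lit 2) (nat_lit 3)) (T.ts (nat_lit 4) (T.im (nat_lit 7) (nat_lit 2)) T.ie))))) (T.ts (nat_lit 2) (T.ts (nat_lit 3) (T.ls (nat_lit 2) (nat_lit 3)) (T.ts (nat_lit 2) (T.ls (nat_lit 3) (nat_lit 4)) (T.ts (nat_lit 1) (T.ls (nat_lit 2) (nat_lit 4)) (T.ts (nat_lit 0) (T.ls (nat_lit 2) (nat_lit 3)) (T.ts (nat_lit 4) (T.im (nat_lit 7) (nat_lit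 2)) T.ie))))) (T.ts (nat_lit 1) (T.ts (nat_lit 3) (T.ls (nat_lit 2) (nat_lit 3)) (T.ts (nat_lit 2) (T.ls (nat_lit 3) (nat_lit 4)) (T.ts (nat_lit 1) (T.ls (nat_lit 2) (nat_lit 4)) (T.ts (nat_lit 0) (T.ls (nat_lit 2) (nat_lit 3)) (T.ts (nat_lit 4) (T.im (nat_lit 7) (nat_lit 2)) T.ie))))) (T.ts (nat_lit 0) (T.ts (nat_lit 3) (T.ls (nat_lit 2) (nat_lit 3)) (T.ts (nat_lit 2) (T.ls (nat_lit 3) (nat_lit 4)) (T.ts (nat_lit 0) (T.ls (nat_lit 2) (nat_lit 3)) (T.ts (nat_lit 4) (T.im (nat_lit 7) (nat_lit 2)) (T.ts (nat_lit 1) (T.im (nat_lit 5) (nat_lit 3)) T.ie))))) (T.ts (nat_lit 4) (T.im (nat_lit 7) (nat_lit 1)) T.ie))))) d875) (T.ts (nat_lit 0) (T.im (nat_lit 5) (nat_lit 1)) T.ie))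
def d877 : T := (T.ts (nat_lit 4) (T.ts (nat_lit 4) (T.ts (nat_lit 3) (T.ts (nat_lit 3) (T.ls (nat_lit 2) (nat_lit 3)) (T.ts (nat_lit 2) (T.ls (nat_lit 3) (nat_lit 4)) (T.ts (nat_lit 1) (T.ls (nat_lit 2) (nat_lit 4)) (T.ts (nat_lit 0) (T.ls (nat_lit 2) (nat_lit 3)) (T.ts (nat_lit 4) (T.im (nat_lit 7) (nat_lit 2)) T.ie))))) (T.ts (nat_lit 2) (T.ts (nat_lit 3) (T.ls (nat_lit 2) (nat_lit 3)) (T.ts (nat_lit 2) (T.ls (nat_lit 3) (nat_lit 4)) (T.ts (nat_lit 1) (T.ls (nat_lit 2) (nat_lit 4)) (T.ts (nat_lit 0) (T.ls (nat_lit 2) (nat_lit 3)) (T.ts (nat_lit 4) (T.im (nat_lit 7) (nat_lit 2)) T.ie))))) (T.ts (nat_lit 1) (T.ts (nat_lit 3) (T.ls (nat_lit 2) (nat_lit 3)) (T.ts (nat_lit 2) (T.ls (nat_lit 3) (nat_lit 4)) (T.ts (nat_lit 1) (T.ls (nat_lit 2) (nat_lit 4)) (T.ts (nat_lit 0) (T.ls (nat_lit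 2) (nat_lit 3)) (T.ts (nat_lit 4) (T.im (nat_lit 7) (nat_lit 2)) T.ie))))) (T.ts (nat_lit 0) (T.ts (nat_lit 3) (T.ls (nat_lit 2) (nat_lit 3)) (T.ts (nat_lit 2) (T.ls (nat_lit 3) (nat_lit 4)) (T.ts (nat_lit 1) (T.ls (nat_lit 2) (nat_lit 4)) (T.ts (nat_lit 0) (T.ls (nat_lit 2) (nat_lit 3)) (T.ts (nat_lit 4) (T.im (nat_lit 5) (nat_lit 3)) T.ie))))) (T.ts (nat_lit 4) (T.im (nat_lit 7) (nat_lit 1)) T.ie))))) (T.ts (nat_lit 3) d869 d870)) (T.ts (nat_lit 3) d872 (T.ts (nat_lit 2) d874 d876)))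
def d878 : T := (T.ts (nat_lit 0) (T.im (nat_lit 3) (nat_lit 2)) (T.nw d877))
def d879 : T := (T.im (nat_lit 3) (nat_lit 1))
def d880 : T := (T.ts (nat_lit 1) (T.tp (T.ts (nat_lit 4) (T.ts (nat_lit 3) (T.ts (nat_lit 2) (T.im (nat_lit 5) (nat_lit 4)) (T.sk (T.ls (nat_lit 2) (nat_lit 3)))) (T.sk (T.ls (nat_lit 2) (nat_lit 3)))) (T.ts (nat_lit 3) (T.ls (nat_lit 2) (nat_lit 3)) (T.ts (nat_lit 1) (T.ts (nat_lit 4) (T.ts (nat_lit 3) (T.ts (nat_lit 2) (T.ts (nat_lit 1) (T.im (nat_lit 5) (nat_lit 5)) (T.sk (T.ls (nat_lit 2) (nat_lit 3)))) (T.sk (T.ls (nat_lit 2) (nat_lit 3)))) (T.sk (T.ls (nat_lit 2) (nat_lit 3)))) (T.sk (T.ls (nat_lit 2) (nat_lit 3)))) (T.ts (nat_lit 2) (T.im (nat_lit 7) (nat_lit 2)) (T.ts (nat_lit 0) (T.im (nat_lit 1) (nat_lit 5)) T.ie)))))) (T.ts (nat_lit 0) (T.ts (nat_lit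 4) (T.ls (nat_lit 2) (nat_lit 3)) (T.ts (nat_lit 3) (T.ls (nat_lit 2) (nat_lit 3)) (T.ts (nat_lit 1) (T.ts (nat_lit 4) (T.ts (nat_lit 3) (T.ts (nat_lit 2) (T.ts (nat_lit 1) (T.ts (nat_lit 0) (T.ts (nat_lit 4) (T.ts (nat_lit 3) (T.ts (nat_lit 2) (T.l1 (nat_lit 12300) (nat_lit 2) (nat_lit 20500)) (T.tp (T.sk (T.ls (nat_lit 2) (nat_lit 3))))) (T.tp (T.sk (T.ls (nat_lit 2) (nat_lit 3))))) (T.tp (T.sk (T.ls (nat_lit 2) (nat_lit 3))))) (T.tp (T.sk (T.ls (nat_lit 2) (nat_lit 3))))) (T.tp (T.sk (T.ls (nat_lit 2) (nat_lit 3))))) (T.tp (T.sk (T.ls (nat_lit 2) (nat_lit 3))))) (T.tp (T.sk (T.ls (nat_lit 2) (nat_lit 3))))) (T.tp (T.sk (T.ls (nat_lit 2) (nat_lit 3))))) (T.tp (T.ts (nat_lit 0) (T.ls (nat_lit 2) (nat_lit 3)) (T.ts (nat_lit 2) (T.im (nat_lit 7) (nat_lit 2)) T.ie)))))) (T.tp (T.ts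 (nat_lit 2) (T.im (nat_lit 7) (nat_lit 1)) T.ie))))
def d881 : T := (T.ts (nat_lit 4) (T.ts (nat_lit 4) (T.ls (nat_lit 2) (nat_lit 3)) (T.ts (nat_lit 1) (T.ts (nat_lit 4) (T.ts (nat_lit 3) (T.ts (nat_lit 2) (T.ts (nat_lit 1) (T.ts (nat_lit 0) (T.ts (nat_lit 4) (T.ts (nat_lit 3) (T.ts (nat_lit 2) (T.l1 (nat_lit 12300) (nat_lit 2) (nat_lit 20500)) (T.tp (T.sk (T.ls (nat_lit 2) (nat_lit 3))))) (T.tp (T.sk (T.ls (nat_lit 2) (nat_lit 3))))) (T.tp (T.sk (T.ls (nat_lit 2) (nat_lit 3))))) (T.tp (T.sk (T.ls (nat_lit 2) (nat_lit 3))))) (T.tp (T.sk (T.ls (nat_lit 2) (nat_lit 3))))) (T.tp (T.sk (T.ls (nat_lit 2) (nat_lit 3))))) (T.tp (T.sk (T.ls (nat_lit 2) (nat_lit 3))))) (T.tp (T.sk (T.ls (nat_lit 2) (nat_lit 3))))) (T.tp (T.ts (nat_lit 0) (T.ls (nat_lit 2) (nat_lit 3)) (T.ts (nat_lit 3) (T.im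 (nat_lit 5) (nat_lit 3)) (T.ts (nat_lit 2) (T.im (nat_lit 7) (nat_lit 2)) T.ie)))))) (T.ts (nat_lit 3) (T.ts (nat_lit 4) (T.ls (nat_lit 2) (nat_lit 3)) (T.ts (nat_lit 3) (T.ls (nat_lit 2) (nat_lit 3)) (T.ts (nat_lit 1) (T.ts (nat_lit 4) (T.ts (nat_lit 3) (T.ts (nat_lit 2) (T.ts (nat_lit 1) (T.ts (nat_lit 0) (T.ts (nat_lit 4) (T.ts (nat_lit 3) (T.ts (nat_lit 2) (T.l1 (nat_lit 12300) (nat_lit 2) (nat_lit 20500)) (T.sk (T.lf (nat_lit 16569) (nat_lit 2) (nat_lit 20500) (nat_lit 3) (nat_lit 12300)))) (T.sk (T.lf (nat_lit 16569) (nat_lit 2) (nat_lit 20500) (nat_lit 3) (nat_lit 12300)))) (T.tp (T.sk (T.ls (nat_lit 2) (nat_lit 3))))) (T.tp (T.sk (T.ls (nat_lit 2) (nat_lit 3))))) (T.tp (T.sk (T.ls (nat_lit 2) (nat_lit 3))))) (T.tp (T.sk (T.ls (nat_lit 2) (nat_lit 3))))) (T.tp (T.sk (T.ls (nat_lit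 2) (nat_lit 3))))) (T.tp (T.sk (T.ls (nat_lit 2) (nat_lit 3))))) (T.tp (T.ts (nat_lit 0) (T.ls (nat_lit 2) (nat_lit 3)) (T.ts (nat_lit 2) (T.im (nat_lit 7) (nat_lit 2)) T.ie)))))) d880))
def d882 : T := (T.ts (nat_lit 1) (T.ts (nat_lit 4) (T.ts (nat_lit 4) (T.ls (nat_lit 2) (nat_lit 3)) (T.ts (nat_lit 2) (T.ls (nat_lit 3) (nat_lit 4)) (T.ts (nat_lit 0) (T.ls (nat_lit 2) (nat_lit 3)) (T.ts (nat_lit 3) (T.im (nat_lit 5) (nat_lit 3)) (T.ts (nat_lit 1) (T.im (nat_lit 7) (nat_lit 2)) T.ie))))) (T.ts (nat_lit 3) (T.ts (nat_lit 4) (T.ls (nat_lit 2) (nat_lit 3)) (T.ts (nat_lit 3) (T.ls (nat_lit 2) (nat_lit 3)) (T.ts (nat_lit 2) (T.ls (nat_lit 3) (nat_lit 4)) (T.ts (nat_lit 0) (T.ls (nat_lit 2) (nat_lit 3)) (T.ts (nat_lit 1) (T.im (nat_lit 7) (nat_lit 2)) T.ie))))) (T.ts (nat_lit 2) (T.ts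 (nat_lit 4) (T.ls (nat_lit 3) (nat_lit 4)) (T.ts (nat_lit 3) (T.ls (nat_lit 2) (nat_lit 3)) (T.ts (nat_lit 2) (T.ls (nat_lit 3) (nat_lit 4)) (T.ts (nat_lit 0) (T.ls (nat_lit 2) (nat_lit 3)) (T.ts (nat_lit 1) (T.im (nat_lit 7) (nat_lit 2)) T.ie))))) (T.ts (nat_lit 0) (T.ts (nat_lit 3) (T.ls (nat_lit 2) (nat_lit 3)) (T.ts (nat_lit 2) (T.ls (nat_lit 3) (nat_lit 4)) (T.ts (nat_lit 0) (T.ls (nat_lit 2) (nat_lit 3)) (T.ts (nat_lit 4) (T.im (nat_lit 3) (nat_lit 4)) (T.ts (nat_lit 1) (T.im (nat_lit 7) (nat_lit 2)) T.ie))))) (T.ts (nat_lit 1) (T.im (nat_lit 7) (nat_lit 1)) T.ie))))) (T.ts (nat_lit 0) (T.ts (nat_lit 4) (T.ts (nat_lit 4) (T.ls (nat_lit 2) (nat_lit 3)) (T.ts (nat_lit 2) (T.ls (nat_lit 3) (nat_lit 4)) (T.ts (nat_lit 1) (T.ls (nat_lit 2) (nat_lit 4)) (T.ts (nat_lit 3) (T.im (nat_lit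 5) (nat_lit 3)) (T.ts (nat_lit 0) (T.im (nat_lit 7) (nat_lit 2)) T.ie))))) (T.ts (nat_lit 3) (T.ts (nat_lit 4) (T.ls (nat_lit 2) (nat_lit 3)) (T.ts (nat_lit 3) (T.ls (nat_lit 2) (nat_lit 3)) (T.ts (nat_lit 2) (T.ls (nat_lit 3) (nat_lit 4)) (T.ts (nat_lit 1) (T.ls (nat_lit 2) (nat_lit 4)) (T.ts (nat_lit 0) (T.im (nat_lit 7) (nat_lit 2)) T.ie))))) (T.ts (nat_lit 2) (T.ts (nat_lit 4) (T.ls (nat_lit 3) (nat_lit 4)) (T.ts (nat_lit 3) (T.ls (nat_lit 2) (nat_lit 3)) (T.ts (nat_lit 2) (T.ls (nat_lit 3) (nat_lit 4)) (T.ts (nat_lit 1) (T.ls (nat_lit 2) (nat_lit 4)) (T.ts (nat_lit 0) (T.im (nat_lit 7) (nat_lit 2)) T.ie))))) (T.ts (nat_lit 1) (T.ts (nat_lit 4) (T.ls (nat_lit 2) (nat_lit 4)) (T.ts (nat_lit 3) (T.ls (nat_lit 2) (nat_lit 3)) (T.ts (nat_lit 2) (T.ls (nat_lit 3) (nat_lit 4)) (T.ts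 (nat_lit 1) (T.ls (nat_lit 2) (nat_lit 4)) (T.ts (nat_lit 0) (T.im (nat_lit 7) (nat_lit 2)) T.ie))))) (T.ts (nat_lit 0) (T.im (nat_lit 7) (nat_lit 1)) T.ie))))) (T.ts (nat_lit 4) (T.im (nat_lit 5) (nat_lit 2)) T.ie)))
def d883 : T := (T.ts (nat_lit 1) (T.ts (nat_lit 4) (T.ts (nat_lit 4) (T.ls (nat_lit 2) (nat_lit 3)) (T.ts (nat_lit 3) (T.ls (nat_lit 2) (nat_lit 4)) (T.ts (nat_lit 0) (T.ls (nat_lit 2) (nat_lit 3)) (T.ts (nat_lit 2) (T.im (nat_lit 5) (nat_lit 3)) (T.ts (nat_lit 1) (T.im (nat_lit 7) (nat_lit 2)) T.ie))))) (T.ts (nat_lit 3) (T.ts (nat_lit 4) (T.ls (nat_lit 2) (nat_lit 3)) (T.ts (nat_lit 3) (T.ls (nat_lit 2) (nat_lit 3)) (T.ts (nat_lit 2) (T.ls (nat_lit 3) (nat_lit 4)) (T.ts (nat_lit 0) (T.ls (nat_lit 2) (nat_lit 3)) (T.ts (nat_lit 1) (T.im (nat_lit 7) (nat_lit 2)) T.ie)))))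 (T.ts (nat_lit 2) (T.ts (nat_lit 4) (T.ls (nat_lit 3) (nat_lit 4)) (T.ts (nat_lit 3) (T.ls (nat_lit 2) (nat_lit 3)) (T.ts (nat_lit 2) (T.ls (nat_lit 3) (nat_lit 4)) (T.ts (nat_lit 0) (T.ls (nat_lit 2) (nat_lit 3)) (T.ts (nat_lit 1) (T.im (nat_lit 7) (nat_lit 2)) T.ie))))) (T.ts (nat_lit 0) (T.ts (nat_lit 3) (T.ls (nat_lit 2) (nat_lit 3)) (T.ts (nat_lit 2) (T.ls (nat_lit 3) (nat_lit 4)) (T.ts (nat_lit 0) (T.ls (nat_lit 2) (nat_lit 3)) (T.ts (nat_lit 4) (T.im (nat_lit 3) (nat_lit 4)) (T.ts (nat_lit 1) (T.im (nat_lit 7) (nat_lit 2)) T.ie))))) (T.ts (nat_lit 1) (T.im (nat_lit 7) (nat_lit 1)) T.ie))))) (T.ts (nat_lit 0) (T.ts (nat_lit 4) (T.ts (nat_lit 4) (T.ls (nat_lit 2) (nat_lit 3)) (T.ts (nat_lit 3) (T.ls (nat_lit 2) (nat_lit 3)) (T.ts (nat_lit 1) (T.ls (nat_lit 2) (nat_lit 4)) (T.ts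 (nat_lit 2) (T.im (nat_lit 5) (nat_lit 3)) (T.ts (nat_lit 0) (T.im (nat_lit 7) (nat_lit 2)) T.ie))))) (T.ts (nat_lit 3) (T.ts (nat_lit 4) (T.ls (nat_lit 2) (nat_lit 3)) (T.ts (nat_lit 3) (T.ls (nat_lit 2) (nat_lit 3)) (T.ts (nat_lit 2) (T.ls (nat_lit 3) (nat_lit 4)) (T.ts (nat_lit 1) (T.ls (nat_lit 2) (nat_lit 4)) (T.ts (nat_lit 0) (T.im (nat_lit 7) (nat_lit 2)) T.ie))))) (T.ts (nat_lit 2) (T.ts (nat_lit 4) (T.ls (nat_lit 3) (nat_lit 4)) (T.ts (nat_lit 3) (T.ls (nat_lit 2) (nat_lit 3)) (T.ts (nat_lit 2) (T.ls (nat_lit 3) (nat_lit 4)) (T.ts (nat_lit 1) (T.ls (nat_lit 2) (nat_lit 4)) (T.ts (nat_lit 0) (T.im (nat_lit 7) (nat_lit 2)) T.ie))))) (T.ts (nat_lit 1) (T.ts (nat_lit 4) (T.ls (nat_lit 2) (nat_lit 4)) (T.ts (nat_lit 3) (T.ls (nat_lit 2) (nat_lit 3)) (T.ts (nat_lit 2) (T.ls (nat_lit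 3) (nat_lit 4)) (T.ts (nat_lit 1) (T.ls (nat_lit 2) (nat_lit 4)) (T.ts (nat_lit 0) (T.im (nat_lit 7) (nat_lit 2)) T.ie))))) (T.ts (nat_lit 0) (T.im (nat_lit 7) (nat_lit 1)) T.ie))))) (T.ts (nat_lit 4) (T.im (nat_lit 5) (nat_lit 2)) T.ie)))
def d884 : T := (T.ts (nat_lit 3) (T.ts (nat_lit 4) (T.ts (nat_lit 4) (T.ls (nat_lit 2) (nat_lit 3)) (T.ts (nat_lit 1) (T.ls (nat_lit 2) (nat_lit 4)) (T.ts (nat_lit 0) (T.ls (nat_lit 2) (nat_lit 3)) (T.ts (nat_lit 3) (T.im (nat_lit 7) (nat_lit 2)) (T.ts (nat_lit 2) (T.im (nat_lit 5) (nat_lit 3)) T.ie))))) (T.ts (nat_lit 2) (T.ts (nat_lit 4) (T.ls (nat_lit 3) (nat_lit 4)) (T.ts (nat_lit 2) (T.ls (nat_lit 3) (nat_lit 4)) (T.ts (nat_lit 1) (T.ls (nat_lit 2) (nat_lit 4)) (T.ts (nat_lit 0) (T.ls (nat_lit 2) (nat_lit 3)) (T.ts (nat_lit 3) (T.im (nat_lit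 7) (nat_lit 2)) T.ie))))) (T.ts (nat_lit 1) (T.ts (nat_lit 4) (T.ls (nat_lit 2) (nat_lit 4)) (T.ts (nat_lit 2) (T.ls (nat_lit 3) (nat_lit 4)) (T.ts (nat_lit 1) (T.ls (nat_lit 2) (nat_lit 4)) (T.ts (nat_lit 0) (T.ls (nat_lit 2) (nat_lit 3)) (T.ts (nat_lit 3) (T.im (nat_lit 7) (nat_lit 2)) T.ie))))) (T.ts (nat_lit 0) (T.ts (nat_lit 4) (T.ls (nat_lit 2) (nat_lit 3)) (T.ts (nat_lit 2) (T.ls (nat_lit 3) (nat_lit 4)) (T.ts (nat_lit 1) (T.ls (nat_lit 2) (nat_lit 4)) (T.ts (nat_lit 0) (T.ls (nat_lit 2) (nat_lit 3)) (T.ts (nat_lit 3) (T.im (nat_lit 7) (nat_lit 2)) T.ie))))) (T.ts (nat_lit 3) (T.im (nat_lit 7) (nat_lit 1)) T.ie))))) (T.ts (nat_lit 2) (T.ts (nat_lit 4) (T.ts (nat_lit 4) (T.ls (nat_lit 2) (nat_lit 3)) (T.ts (nat_lit 3) (T.ls (nat_lit 3) (nat_lit 4)) (T.ts (nat_lit 1) (T.ls (nat_lit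 2) (nat_lit 4)) (T.ts (nat_lit 0) (T.ls (nat_lit 2) (nat_lit 3)) (T.ts (nat_lit 2) (T.im (nat_lit 5) (nat_lit 3)) T.ie))))) (T.ts (nat_lit 3) (T.ts (nat_lit 4) (T.ls (nat_lit 2) (nat_lit 3)) (T.ts (nat_lit 3) (T.ls (nat_lit 2) (nat_lit 3)) (T.ts (nat_lit 1) (T.ls (nat_lit 2) (nat_lit 4)) (T.ts (nat_lit 0) (T.ls (nat_lit 2) (nat_lit 3)) (T.ts (nat_lit 2) (T.im (nat_lit 7) (nat_lit 2)) T.ie))))) (T.ts (nat_lit 1) (T.ts (nat_lit 4) (T.ls (nat_lit 2) (nat_lit 4)) (T.ts (nat_lit 3) (T.ls (nat_lit 2) (nat_lit 3)) (T.ts (nat_lit 1) (T.ls (nat_lit 2) (nat_lit 4)) (T.ts (nat_lit 0) (T.ls (nat_lit 2) (nat_lit 3)) (T.ts (nat_lit 2) (T.im (nat_lit 7) (nat_lit 2)) T.ie))))) (T.ts (nat_lit 0) (T.ts (nat_lit 4) (T.ls (nat_lit 2) (nat_lit 3)) (T.ts (nat_lit 3) (T.ls (nat_lit 2) (nat_lit 3)) (T.ts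 (nat_lit 1) (T.ls (nat_lit 2) (nat_lit 4)) (T.ts (nat_lit 0) (T.ls (nat_lit 2) (nat_lit 3)) (T.ts (nat_lit 2) (T.im (nat_lit 7) (nat_lit 2)) T.ie))))) (T.ts (nat_lit 2) (T.im (nat_lit 7) (nat_lit 1)) T.ie))))) d883))
def d885 : T := (T.ts (nat_lit 2) (T.ts (nat_lit 4) (T.ts (nat_lit 4) (T.ls (nat_lit 2) (nat_lit 3)) (T.ts (nat_lit 3) (T.ls (nat_lit 3) (nat_lit 4)) (T.ts (nat_lit 0) (T.ls (nat_lit 2) (nat_lit 3)) (T.ts (nat_lit 2) (T.im (nat_lit 7) (nat_lit 2)) (T.ts (nat_lit 1) (T.im (nat_lit 5) (nat_lit 3)) T.ie))))) (T.ts (nat_lit 3) (T.ts (nat_lit 4) (T.ls (nat_lit 2) (nat_lit 3)) (T.ts (nat_lit 3) (T.ls (nat_lit 2) (nat_lit 3)) (T.ts (nat_lit 1) (T.ls (nat_lit 2) (nat_lit 4)) (T.ts (nat_lit 0) (T.ls (nat_lit 2) (nat_lit 3)) (T.ts (nat_lit 2) (T.im (nat_lit 7) (nat_lit 2)) T.ie)))))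 (T.ts (nat_lit 1) (T.ts (nat_lit 4) (T.ls (nat_lit 2) (nat_lit 4)) (T.ts (nat_lit 3) (T.ls (nat_lit 2) (nat_lit 3)) (T.ts (nat_lit 1) (T.ls (nat_lit 2) (nat_lit 4)) (T.ts (nat_lit 0) (T.ls (nat_lit 2) (nat_lit 3)) (T.ts (nat_lit 2) (T.im (nat_lit 7) (nat_lit 2)) T.ie))))) (T.ts (nat_lit 0) (T.ts (nat_lit 4) (T.ls (nat_lit 2) (nat_lit 3)) (T.ts (nat_lit 3) (T.ls (nat_lit 2) (nat_lit 3)) (T.ts (nat_lit 1) (T.ls (nat_lit 2) (nat_lit 4)) (T.ts (nat_lit 0) (T.ls (nat_lit 2) (nat_lit 3)) (T.ts (nat_lit 2) (T.im (nat_lit 7) (nat_lit 2)) T.ie))))) (T.ts (nat_lit 2) (T.im (nat_lit 7) (nat_lit 1)) T.ie))))) (T.ts (nat_lit 1) (T.ts (nat_lit 4) (T.ts (nat_lit 4) (T.ls (nat_lit 2) (nat_lit 3)) (T.ts (nat_lit 3) (T.ls (nat_lit 2) (nat_lit 4)) (T.ts (nat_lit 2) (T.ls (nat_lit 3) (nat_lit 4)) (T.ts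 (nat_lit 0) (T.ls (nat_lit 2) (nat_lit 3)) (T.ts (nat_lit 1) (T.im (nat_lit 5) (nat_lit 3)) T.ie))))) (T.ts (nat_lit 3) (T.ts (nat_lit 4) (T.ls (nat_lit 2) (nat_lit 3)) (T.ts (nat_lit 3) (T.ls (nat_lit 2) (nat_lit 3)) (T.ts (nat_lit 2) (T.ls (nat_lit 3) (nat_lit 4)) (T.ts (nat_lit 0) (T.ls (nat_lit 2) (nat_lit 3)) (T.ts (nat_lit 1) (T.im (nat_lit 7) (nat_lit 2)) T.ie))))) (T.ts (nat_lit 2) (T.ts (nat_lit 4) (T.ls (nat_lit 3) (nat_lit 4)) (T.ts (nat_lit 3) (T.ls (nat_lit 2) (nat_lit 3)) (T.ts (nat_lit 2) (T.ls (nat_lit 3) (nat_lit 4)) (T.ts (nat_lit 0) (T.ls (nat_lit 2) (nat_lit 3)) (T.ts (nat_lit 1) (T.im (nat_lit 7) (nat_lit 2)) T.ie))))) (T.ts (nat_lit 0) (T.ts (nat_lit 3) (T.ls (nat_lit 2) (nat_lit 3)) (T.ts (nat_lit 2) (T.ls (nat_lit 3) (nat_lit 4)) (T.ts (nat_lit 0) (T.ls (nat_lit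 2) (nat_lit 3)) (T.ts (nat_lit 4) (T.im (nat_lit 3) (nat_lit 4)) (T.ts (nat_lit 1) (T.im (nat_lit 7) (nat_lit 2)) T.ie))))) (T.ts (nat_lit 1) (T.im (nat_lit 7) (nat_lit 1)) T.ie))))) (T.ts (nat_lit 4) (T.im (nat_lit 5) (nat_lit 2)) (T.ts (nat_lit 0) (T.im (nat_lit 3) (nat_lit 3)) T.ie))))
def d886 : T := (T.ts (nat_lit 1) (T.ts (nat_lit 4) (T.ts (nat_lit 4) (T.ls (nat_lit 2) (nat_lit 3)) (T.ts (nat_lit 3) (T.ls (nat_lit 2) (nat_lit 4)) (T.ts (nat_lit 2) (T.ls (nat_lit 3) (nat_lit 4)) (T.ts (nat_lit 1) (T.im (nat_lit 7) (nat_lit 2)) (T.ts (nat_lit 0) (T.im (nat_lit 5) (nat_lit 3)) T.ie))))) (T.ts (nat_lit 3) (T.ts (nat_lit 4) (T.ls (nat_lit 2) (nat_lit 3)) (T.ts (nat_lit 3) (T.ls (nat_lit 2) (nat_lit 3)) (T.ts (nat_lit 2) (T.ls (nat_lit 3) (nat_lit 4)) (T.ts (nat_lit 0) (T.ls (nat_lit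 2) (nat_lit 3)) (T.ts (nat_lit 1) (T.im (nat_lit 7) (nat_lit 2)) T.ie))))) (T.ts (nat_lit 2) (T.ts (nat_lit 4) (T.ls (nat_lit 3) (nat_lit 4)) (T.ts (nat_lit 3) (T.ls (nat_lit 2) (nat_lit 3)) (T.ts (nat_lit 2) (T.ls (nat_lit 3) (nat_lit 4)) (T.ts (nat_lit 0) (T.ls (nat_lit 2) (nat_lit 3)) (T.ts (nat_lit 1) (T.im (nat_lit 7) (nat_lit 2)) T.ie))))) (T.ts (nat_lit 0) (T.ts (nat_lit 3) (T.ls (nat_lit 2) (nat_lit 3)) (T.ts (nat_lit 2) (T.ls (nat_lit 3) (nat_lit 4)) (T.ts (nat_lit 0) (T.ls (nat_lit 2) (nat_lit 3)) (T.ts (nat_lit 4) (T.im (nat_lit 3) (nat_lit 4)) (T.ts (nat_lit 1) (T.im (nat_lit 7) (nat_lit 2)) T.ie))))) (T.ts (nat_lit 1) (T.im (nat_lit 7) (nat_lit 1)) T.ie))))) (T.ts (nat_lit 0) (T.ts (nat_lit 4) (T.ts (nat_lit 4) (T.ls (nat_lit 2) (nat_lit 3)) (T.ts (nat_lit 3) (T.ls (nat_lit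 2) (nat_lit 3)) (T.ts (nat_lit 2) (T.ls (nat_lit 3) (nat_lit 4)) (T.ts (nat_lit 1) (T.ls (nat_lit 2) (nat_lit 4)) (T.ts (nat_lit 0) (T.im (nat_lit 5) (nat_lit 3)) T.ie))))) (T.ts (nat_lit 3) (T.ts (nat_lit 4) (T.ls (nat_lit 2) (nat_lit 3)) (T.ts (nat_lit 3) (T.ls (nat_lit 2) (nat_lit 3)) (T.ts (nat_lit 2) (T.ls (nat_lit 3) (nat_lit 4)) (T.ts (nat_lit 1) (T.ls (nat_lit 2) (nat_lit 4)) (T.ts (nat_lit 0) (T.im (nat_lit 7) (nat_lit 2)) T.ie))))) (T.ts (nat_lit 2) (T.ts (nat_lit 4) (T.ls (nat_lit 3) (nat_lit 4)) (T.ts (nat_lit 3) (T.ls (nat_lit 2) (nat_lit 3)) (T.ts (nat_lit 2) (T.ls (nat_lit 3) (nat_lit 4)) (T.ts (nat_lit 1) (T.ls (nat_lit 2) (nat_lit 4)) (T.ts (nat_lit 0) (T.im (nat_lit 7) (nat_lit 2)) T.ie))))) (T.ts (nat_lit 1) (T.ts (nat_lit 4) (T.ls (nat_lit 2) (nat_lit 4)) (T.ts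 (nat_lit 3) (T.ls (nat_lit 2) (nat_lit 3)) (T.ts (nat_lit 2) (T.ls (nat_lit 3) (nat_lit 4)) (T.ts (nat_lit 1) (T.ls (nat_lit 2) (nat_lit 4)) (T.ts (nat_lit 0) (T.im (nat_lit 7) (nat_lit 2)) T.ie))))) (T.ts (nat_lit 0) (T.im (nat_lit 7) (nat_lit 1)) T.ie))))) (T.ts (nat_lit 4) (T.im (nat_lit 5) (nat_lit 2)) T.ie)))
def d887 : T := (T.ts (nat_lit 3) (T.ts (nat_lit 4) (T.ts (nat_lit 4) (T.ls (nat_lit 2) (nat_lit 3)) (T.ts (nat_lit 2) (T.ls (nat_lit 3) (nat_lit 4)) (T.ts (nat_lit 1) (T.ls (nat_lit 2) (nat_lit 4)) (T.ts (nat_lit 3) (T.im (nat_lit 7) (nat_lit 2)) (T.ts (nat_lit 0) (T.im (nat_lit 5) (nat_lit 3)) T.ie))))) (T.ts (nat_lit 2) (T.ts (nat_lit 4) (T.ls (nat_lit 3) (nat_lit 4)) (T.ts (nat_lit 2) (T.ls (nat_lit 3) (nat_lit 4)) (T.ts (nat_lit 1) (T.ls (nat_lit 2) (nat_lit 4)) (T.ts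 (nat_lit 0) (T.ls (nat_lit 2) (nat_lit 3)) (T.ts (nat_lit 3) (T.im (nat_lit 7) (nat_lit 2)) T.ie))))) (T.ts (nat_lit 1) (T.ts (nat_lit 4) (T.ls (nat_lit 2) (nat_lit 4)) (T.ts (nat_lit 2) (T.ls (nat_lit 3) (nat_lit 4)) (T.ts (nat_lit 1) (T.ls (nat_lit 2) (nat_lit 4)) (T.ts (nat_lit 0) (T.ls (nat_lit 2) (nat_lit 3)) (T.ts (nat_lit 3) (T.im (nat_lit 7) (nat_lit 2)) T.ie))))) (T.ts (nat_lit 0) (T.ts (nat_lit 4) (T.ls (nat_lit 2) (nat_lit 3)) (T.ts (nat_lit 2) (T.ls (nat_lit 3) (nat_lit 4)) (T.ts (nat_lit 1) (T.ls (nat_lit 2) (nat_lit 4)) (T.ts (nat_lit 0) (T.ls (nat_lit 2) (nat_lit 3)) (T.ts (nat_lit 3) (T.im (nat_lit 7) (nat_lit 2)) T.ie))))) (T.ts (nat_lit 3) (T.im (nat_lit 7) (nat_lit 1)) T.ie))))) (T.ts (nat_lit 2) (T.ts (nat_lit 4) (T.ts (nat_lit 4) (T.ls (nat_lit 2) (nat_lit 3))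 (T.ts (nat_lit 3) (T.ls (nat_lit 3) (nat_lit 4)) (T.ts (nat_lit 1) (T.ls (nat_lit 2) (nat_lit 4)) (T.ts (nat_lit 2) (T.im (nat_lit 7) (nat_lit 2)) (T.ts (nat_lit 0) (T.im (nat_lit 5) (nat_lit 3)) T.ie))))) (T.ts (nat_lit 3) (T.ts (nat_lit 4) (T.ls (nat_lit 2) (nat_lit 3)) (T.ts (nat_lit 3) (T.ls (nat_lit 2) (nat_lit 3)) (T.ts (nat_lit 1) (T.ls (nat_lit 2) (nat_lit 4)) (T.ts (nat_lit 0) (T.ls (nat_lit 2) (nat_lit 3)) (T.ts (nat_lit 2) (T.im (nat_lit 7) (nat_lit 2)) T.ie))))) (T.ts (nat_lit 1) (T.ts (nat_lit 4) (T.ls (nat_lit 2) (nat_lit 4)) (T.ts (nat_lit 3) (T.ls (nat_lit 2) (nat_lit 3)) (T.ts (nat_lit 1) (T.ls (nat_lit 2) (nat_lit 4)) (T.ts (nat_lit 0) (T.ls (nat_lit 2) (nat_lit 3)) (T.ts (nat_lit 2) (T.im (nat_lit 7) (nat_lit 2)) T.ie))))) (T.ts (nat_lit 0) (T.ts (nat_lit 4) (T.ls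 (nat_lit 2) (nat_lit 3)) (T.ts (nat_lit 3) (T.ls (nat_lit 2) (nat_lit 3)) (T.ts (nat_lit 1) (T.ls (nat_lit 2) (nat_lit 4)) (T.ts (nat_lit 0) (T.ls (nat_lit 2) (nat_lit 3)) (T.ts (nat_lit 2) (T.im (nat_lit 7) (nat_lit 2)) T.ie))))) (T.ts (nat_lit 2) (T.im (nat_lit 7) (nat_lit 1)) T.ie))))) d886))
def d888 : T := (T.ts (nat_lit 2) d884 (T.ts (nat_lit 1) (T.ts (nat_lit 3) (T.ts (nat_lit 4) (T.ts (nat_lit 4) (T.ls (nat_lit 2) (nat_lit 3)) (T.ts (nat_lit 2) (T.ls (nat_lit 3) (nat_lit 4)) (T.ts (nat_lit 0) (T.ls (nat_lit 2) (nat_lit 3)) (T.ts (nat_lit 3) (T.im (nat_lit 7) (nat_lit 2)) (T.ts (nat_lit 1) (T.im (nat_lit 5) (nat_lit 3)) T.ie))))) (T.ts (nat_lit 2) (T.ts (nat_lit 4) (T.ls (nat_lit 3) (nat_lit 4)) (T.ts (nat_lit 2) (T.ls (nat_lit 3) (nat_lit 4)) (T.ts (nat_lit 1) (T.ls (nat_lit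 2) (nat_lit 4)) (T.ts (nat_lit 0) (T.ls (nat_lit 2) (nat_lit 3)) (T.ts (nat_lit 3) (T.im (nat_lit 7) (nat_lit 2)) T.ie))))) (T.ts (nat_lit 1) (T.ts (nat_lit 4) (T.ls (nat_lit 2) (nat_lit 4)) (T.ts (nat_lit 2) (T.ls (nat_lit 3) (nat_lit 4)) (T.ts (nat_lit 1) (T.ls (nat_lit 2) (nat_lit 4)) (T.ts (nat_lit 0) (T.ls (nat_lit 2) (nat_lit 3)) (T.ts (nat_lit 3) (T.im (nat_lit 7) (nat_lit 2)) T.ie))))) (T.ts (nat_lit 0) (T.ts (nat_lit 4) (T.ls (nat_lit 2) (nat_lit 3)) (T.ts (nat_lit 2) (T.ls (nat_lit 3) (nat_lit 4)) (T.ts (nat_lit 1) (T.ls (nat_lit 2) (nat_lit 4)) (T.ts (nat_lit 0) (T.ls (nat_lit 2) (nat_lit 3)) (T.ts (nat_lit 3) (T.im (nat_lit 7) (nat_lit 2)) T.ie))))) (T.ts (nat_lit 3) (T.im (nat_lit 7) (nat_lit 1)) T.ie))))) d885) (T.ts (nat_lit 0) d887 (T.ts (nat_lit 4) (T.im (nat_lit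 5) (nat_lit 1)) T.ie))))
def d889 : T := (T.ts (nat_lit 3) (T.ts (nat_lit 3) (T.tp (T.ts (nat_lit 4) (T.ts (nat_lit 4) (T.ls (nat_lit 2) (nat_lit 3)) (T.ts (nat_lit 2) (T.ls (nat_lit 3) (nat_lit 4)) (T.ts (nat_lit 1) (T.ls (nat_lit 2) (nat_lit 4)) (T.ts (nat_lit 0) (T.ls (nat_lit 2) (nat_lit 3)) (T.ts (nat_lit 3) (T.im (nat_lit 5) (nat_lit 3)) T.ie))))) (T.ts (nat_lit 2) (T.ts (nat_lit 4) (T.ls (nat_lit 3) (nat_lit 4)) (T.ts (nat_lit 2) (T.ls (nat_lit 3) (nat_lit 4)) (T.ts (nat_lit 1) (T.ls (nat_lit 2) (nat_lit 4)) (T.ts (nat_lit 0) (T.ls (nat_lit 2) (nat_lit 3)) (T.ts (nat_lit 3) (T.im (nat_lit 7) (nat_lit 2)) T.ie))))) (T.ts (nat_lit 1) (T.ts (nat_lit 4) (T.ls (nat_lit 2) (nat_lit 4)) (T.ts (nat_lit 2) (T.ls (nat_lit 3) (nat_lit 4)) (T.ts (nat_lit 1) (T.ls (nat_lit 2) (nat_lit 4))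 (T.ts (nat_lit 0) (T.ls (nat_lit 2) (nat_lit 3)) (T.ts (nat_lit 3) (T.im (nat_lit 7) (nat_lit 2)) T.ie))))) (T.ts (nat_lit 0) (T.ts (nat_lit 4) (T.ls (nat_lit 2) (nat_lit 3)) (T.ts (nat_lit 2) (T.ls (nat_lit 3) (nat_lit 4)) (T.ts (nat_lit 1) (T.ls (nat_lit 2) (nat_lit 4)) (T.ts (nat_lit 0) (T.ls (nat_lit 2) (nat_lit 3)) (T.ts (nat_lit 3) (T.im (nat_lit 7) (nat_lit 2)) T.ie))))) (T.ts (nat_lit 3) (T.im (nat_lit 7) (nat_lit 1)) T.ie)))))) (T.ts (nat_lit 2) d881 (T.tp d882))) (T.tp d888))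
def d890 : T := (T.ts (nat_lit 1) (T.ts (nat_lit 4) (T.ts (nat_lit 4) (T.ls (nat_lit 2) (nat_lit 3)) (T.ts (nat_lit 3) (T.ls (nat_lit 2) (nat_lit 4)) (T.ts (nat_lit 2) (T.ls (nat_lit 3) (nat_lit 4)) (T.ts (nat_lit 0) (T.ls (nat_lit 2) (nat_lit 3)) (T.ts (nat_lit 1) (T.im (nat_lit 7) (nat_lit 2)) T.ie))))) (T.ts (nat_lit 3) (T.ts (nat_lit 3) (T.ls (nat_lit 2) (nat_lit 3)) (T.ts (nat_lit 2) (T.ls (nat_lit 3) (nat_lit 4)) (T.ts (nat_lit 0) (T.ls (nat_lit 2) (nat_lit 3)) (T.ts (nat_lit 4) (T.im (nat_lit 5) (nat_lit 3)) (T.ts (nat_lit 1) (T.im (nat_lit 7) (nat_lit 2)) T.ie))))) (T.ts (nat_lit 2) (T.ts (nat_lit 4) (T.ls (nat_lit 3) (nat_lit 4)) (T.ts (nat_lit 3) (T.ls (nat_lit 2) (nat_lit 3)) (T.ts (nat_lit 2) (T.ls (nat_lit 3) (nat_lit 4)) (T.ts (nat_lit 0) (T.ls (nat_lit 2) (nat_lit 3))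 (T.ts (nat_lit 1) (T.im (nat_lit 7) (nat_lit 2)) T.ie))))) (T.ts (nat_lit 0) (T.ts (nat_lit 4) (T.ls (nat_lit 2) (nat_lit 3)) (T.ts (nat_lit 2) (T.ls (nat_lit 3) (nat_lit 4)) (T.ts (nat_lit 0) (T.ls (nat_lit 2) (nat_lit 3)) (T.ts (nat_lit 3) (T.im (nat_lit 3) (nat_lit 4)) (T.ts (nat_lit 1) (T.im (nat_lit 7) (nat_lit 2)) T.ie))))) (T.ts (nat_lit 1) (T.im (nat_lit 7) (nat_lit 1)) T.ie))))) (T.ts (nat_lit 0) (T.ts (nat_lit 4) (T.ts (nat_lit 4) (T.ls (nat_lit 2) (nat_lit 3)) (T.ts (nat_lit 3) (T.ls (nat_lit 2) (nat_lit 3)) (T.ts (nat_lit 2) (T.ls (nat_lit 3) (nat_lit 4)) (T.ts (nat_lit 1) (T.ls (nat_lit 2) (nat_lit 4)) (T.ts (nat_lit 0) (T.im (nat_lit 7) (nat_lit 2)) T.ie))))) (T.ts (nat_lit 3) (T.ts (nat_lit 3) (T.ls (nat_lit 2) (nat_lit 3)) (T.ts (nat_lit 2) (T.ls (nat_lit 3) (nat_lit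 4)) (T.ts (nat_lit 1) (T.ls (nat_lit 2) (nat_lit 4)) (T.ts (nat_lit 4) (T.im (nat_lit 5) (nat_lit 3)) (T.ts (nat_lit 0) (T.im (nat_lit 7) (nat_lit 2)) T.ie))))) (T.ts (nat_lit 2) (T.ts (nat_lit 4) (T.ls (nat_lit 3) (nat_lit 4)) (T.ts (nat_lit 3) (T.ls (nat_lit 2) (nat_lit 3)) (T.ts (nat_lit 2) (T.ls (nat_lit 3) (nat_lit 4)) (T.ts (nat_lit 1) (T.ls (nat_lit 2) (nat_lit 4)) (T.ts (nat_lit 0) (T.im (nat_lit 7) (nat_lit 2)) T.ie))))) (T.ts (nat_lit 1) (T.ts (nat_lit 4) (T.ls (nat_lit 2) (nat_lit 4)) (T.ts (nat_lit 3) (T.ls (nat_lit 2) (nat_lit 3)) (T.ts (nat_lit 2) (T.ls (nat_lit 3) (nat_lit 4)) (T.ts (nat_lit 1) (T.ls (nat_lit 2) (nat_lit 4)) (T.ts (nat_lit 0) (T.im (nat_lit 7) (nat_lit 2)) T.ie))))) (T.ts (nat_lit 0) (T.im (nat_lit 7) (nat_lit 1)) T.ie))))) (T.ts (nat_lit 3) (T.im (nat_lit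 5) (nat_lit 2)) T.ie)))
def d891 : T := (T.ts (nat_lit 4) (T.ts (nat_lit 3) (T.ts (nat_lit 3) (T.ls (nat_lit 2) (nat_lit 3)) (T.ts (nat_lit 2) (T.ls (nat_lit 3) (nat_lit 4)) (T.ts (nat_lit 1) (T.ls (nat_lit 2) (nat_lit 4)) (T.ts (nat_lit 0) (T.ls (nat_lit 2) (nat_lit 3)) (T.ts (nat_lit 4) (T.im (nat_lit 5) (nat_lit 3)) T.ie))))) (T.ts (nat_lit 2) (T.ts (nat_lit 3) (T.ls (nat_lit 2) (nat_lit 3)) (T.ts (nat_lit 2) (T.ls (nat_lit 3) (nat_lit 4)) (T.ts (nat_lit 1) (T.ls (nat_lit 2) (nat_lit 4)) (T.ts (nat_lit 0) (T.ls (nat_lit 2) (nat_lit 3)) (T.ts (nat_lit 4) (T.im (nat_lit 7) (nat_lit 2)) T.ie))))) (T.ts (nat_lit 1) (T.ts (nat_lit 3) (T.ls (nat_lit 2) (nat_lit 3)) (T.ts (nat_lit 2) (T.ls (nat_lit 3) (nat_lit 4)) (T.ts (nat_lit 1) (T.ls (nat_lit 2) (nat_lit 4)) (T.ts (nat_lit 0) (T.ls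 (nat_lit 2) (nat_lit 3)) (T.ts (nat_lit 4) (T.im (nat_lit 7) (nat_lit 2)) T.ie))))) (T.ts (nat_lit 0) (T.ts (nat_lit 3) (T.ls (nat_lit 2) (nat_lit 3)) (T.ts (nat_lit 2) (T.ls (nat_lit 3) (nat_lit 4)) (T.ts (nat_lit 1) (T.ls (nat_lit 2) (nat_lit 4)) (T.ts (nat_lit 0) (T.ls (nat_lit 2) (nat_lit 3)) (T.ts (nat_lit 4) (T.im (nat_lit 7) (nat_lit 2)) T.ie))))) (T.ts (nat_lit 4) (T.im (nat_lit 7) (nat_lit 1)) T.ie))))) (T.ts (nat_lit 2) (T.ts (nat_lit 4) (T.ts (nat_lit 4) (T.ls (nat_lit 2) (nat_lit 3)) (T.ts (nat_lit 3) (T.ls (nat_lit 3) (nat_lit 4)) (T.ts (nat_lit 1) (T.ls (nat_lit 2) (nat_lit 4)) (T.ts (nat_lit 0) (T.ls (nat_lit 2) (nat_lit 3)) (T.ts (nat_lit 2) (T.im (nat_lit 7) (nat_lit 2)) T.ie))))) (T.ts (nat_lit 3) (T.ts (nat_lit 3) (T.ls (nat_lit 2) (nat_lit 3)) (T.ts (nat_lit 1)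 (T.ls (nat_lit 2) (nat_lit 4)) (T.ts (nat_lit 0) (T.ls (nat_lit 2) (nat_lit 3)) (T.ts (nat_lit 4) (T.im (nat_lit 5) (nat_lit 3)) (T.ts (nat_lit 2) (T.im (nat_lit 7) (nat_lit 2)) T.ie))))) (T.ts (nat_lit 1) (T.ts (nat_lit 4) (T.ls (nat_lit 2) (nat_lit 4)) (T.ts (nat_lit 3) (T.ls (nat_lit 2) (nat_lit 3)) (T.ts (nat_lit 1) (T.ls (nat_lit 2) (nat_lit 4)) (T.ts (nat_lit 0) (T.ls (nat_lit 2) (nat_lit 3)) (T.ts (nat_lit 2) (T.im (nat_lit 7) (nat_lit 2)) T.ie))))) (T.ts (nat_lit 0) (T.ts (nat_lit 4) (T.ls (nat_lit 2) (nat_lit 3)) (T.ts (nat_lit 3) (T.ls (nat_lit 2) (nat_lit 3)) (T.ts (nat_lit 1) (T.ls (nat_lit 2) (nat_lit 4)) (T.ts (nat_lit 0) (T.ls (nat_lit 2) (nat_lit 3)) (T.ts (nat_lit 2) (T.im (nat_lit 7) (nat_lit 2)) T.ie))))) (T.ts (nat_lit 2) (T.im (nat_lit 7) (nat_lit 1)) T.ie)))))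 d890))
def d892 : T := (T.ts (nat_lit 2) (T.ts (nat_lit 4) (T.ts (nat_lit 4) (T.ls (nat_lit 2) (nat_lit 3)) (T.ts (nat_lit 3) (T.ls (nat_lit 3) (nat_lit 4)) (T.ts (nat_lit 1) (T.ls (nat_lit 2) (nat_lit 4)) (T.ts (nat_lit 0) (T.ls (nat_lit 2) (nat_lit 3)) (T.ts (nat_lit 2) (T.im (nat_lit 7) (nat_lit 2)) T.ie))))) (T.ts (nat_lit 3) (T.ts (nat_lit 4) (T.ls (nat_lit 2) (nat_lit 3)) (T.ts (nat_lit 3) (T.ls (nat_lit 2) (nat_lit 3)) (T.ts (nat_lit 1) (T.ls (nat_lit 2) (nat_lit 4)) (T.ts (nat_lit 0) (T.ls (nat_lit 2) (nat_lit 3)) (T.ts (nat_lit 2) (T.im (nat_lit 5) (nat_lit 3)) T.ie))))) (T.ts (nat_lit 1) (T.ts (nat_lit 4) (T.ls (nat_lit 2) (nat_lit 4)) (T.ts (nat_lit 3) (T.ls (nat_lit 2) (nat_lit 3)) (T.ts (nat_lit 1) (T.ls (nat_lit 2) (nat_lit 4)) (T.ts (nat_lit 0) (T.ls (nat_lit 2) (nat_lit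 3)) (T.ts (nat_lit 2) (T.im (nat_lit 7) (nat_lit 2)) T.ie))))) (T.ts (nat_lit 0) (T.ts (nat_lit 4) (T.ls (nat_lit 2) (nat_lit 3)) (T.ts (nat_lit 3) (T.ls (nat_lit 2) (nat_lit 3)) (T.ts (nat_lit 1) (T.ls (nat_lit 2) (nat_lit 4)) (T.ts (nat_lit 0) (T.ls (nat_lit 2) (nat_lit 3)) (T.ts (nat_lit 2) (T.im (nat_lit 7) (nat_lit 2)) T.ie))))) (T.ts (nat_lit 2) (T.im (nat_lit 7) (nat_lit 1)) T.ie))))) (T.ts (nat_lit 0) (T.ts (nat_lit 4) (T.ts (nat_lit 4) (T.ls (nat_lit 2) (nat_lit 3)) (T.ts (nat_lit 3) (T.ls (nat_lit 2) (nat_lit 3)) (T.ts (nat_lit 2) (T.ls (nat_lit 3) (nat_lit 4)) (T.ts (nat_lit 1) (T.ls (nat_lit 2) (nat_lit 4)) (T.ts (nat_lit 0) (T.im (nat_lit 7) (nat_lit 2)) T.ie))))) (T.ts (nat_lit 3) (T.ts (nat_lit 4) (T.ls (nat_lit 2) (nat_lit 3)) (T.ts (nat_lit 3) (T.ls (nat_lit 2) (nat_lit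 3)) (T.ts (nat_lit 1) (T.ls (nat_lit 2) (nat_lit 4)) (T.ts (nat_lit 2) (T.im (nat_lit 5) (nat_lit 3)) (T.ts (nat_lit 0) (T.im (nat_lit 7) (nat_lit 2)) T.ie))))) (T.ts (nat_lit 2) (T.ts (nat_lit 4) (T.ls (nat_lit 3) (nat_lit 4)) (T.ts (nat_lit 3) (T.ls (nat_lit 2) (nat_lit 3)) (T.ts (nat_lit 2) (T.ls (nat_lit 3) (nat_lit 4)) (T.ts (nat_lit 1) (T.ls (nat_lit 2) (nat_lit 4)) (T.ts (nat_lit 0) (T.im (nat_lit 7) (nat_lit 2)) T.ie))))) (T.ts (nat_lit 1) (T.ts (nat_lit 4) (T.ls (nat_lit 2) (nat_lit 4)) (T.ts (nat_lit 3) (T.ls (nat_lit 2) (nat_lit 3)) (T.ts (nat_lit 2) (T.ls (nat_lit 3) (nat_lit 4)) (T.ts (nat_lit 1) (T.ls (nat_lit 2) (nat_lit 4)) (T.ts (nat_lit 0) (T.im (nat_lit 7) (nat_lit 2)) T.ie))))) (T.ts (nat_lit 0) (T.im (nat_lit 7) (nat_lit 1)) T.ie))))) (T.ts (nat_lit 3) (T.im (nat_lit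 5) (nat_lit 2)) (T.ts (nat_lit 1) (T.im (nat_lit 1) (nat_lit 4)) T.ie))))
def d893 : T := (T.ts (nat_lit 2) (T.ts (nat_lit 4) (T.ts (nat_lit 3) (T.ts (nat_lit 2) (T.ts (nat_lit 1) (T.ts (nat_lit 0) (T.ts (nat_lit 3) (T.ts (nat_lit 1) (T.ts (nat_lit 4) (T.lf (nat_lit 19131) (nat_lit 3) (nat_lit 16569) (nat_lit 4) (nat_lit 20500)) (T.tp (T.sk (T.ls (nat_lit 2) (nat_lit 4))))) (T.tp (T.sk (T.ls (nat_lit 2) (nat_lit 4))))) (T.tp (T.sk (T.ls (nat_lit 2) (nat_lit 4))))) (T.tp (T.sk (T.ls (nat_lit 2) (nat_lit 4))))) (T.tp (T.sk (T.ls (nat_lit 2) (nat_lit 4))))) (T.tp (T.sk (T.ls (nat_lit 2) (nat_lit 4))))) (T.tp (T.sk (T.ls (nat_lit 2) (nat_lit 4))))) (T.tp (T.sk (T.ls (nat_lit 2) (nat_lit 4))))) (T.ts (nat_lit 1) (T.ls (nat_lit 2) (nat_lit 4)) (T.ts (nat_lit 0) (T.ts (nat_lit 4) (T.ts (nat_lit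 3) (T.ts (nat_lit 2) (T.ts (nat_lit 1) (T.ts (nat_lit 0) (T.ts (nat_lit 3) (T.ts (nat_lit 1) (T.ts (nat_lit 4) (T.lf (nat_lit 19131) (nat_lit 2) (nat_lit 20500) (nat_lit 3) (nat_lit 16569)) (T.tp (T.sk (T.ls (nat_lit 2) (nat_lit 4))))) (T.tp (T.sk (T.ls (nat_lit 2) (nat_lit 4))))) (T.tp (T.sk (T.ls (nat_lit 2) (nat_lit 4))))) (T.tp (T.sk (T.ls (nat_lit 2) (nat_lit 4))))) (T.tp (T.sk (T.ls (nat_lit 2) (nat_lit 4))))) (T.tp (T.sk (T.ls (nat_lit 2) (nat_lit 4))))) (T.tp (T.sk (T.ls (nat_lit 2) (nat_lit 4))))) (T.tp (T.sk (T.ls (nat_lit 2) (nat_lit 4))))) (T.tp (T.ts (nat_lit 4) (T.im (nat_lit 7) (nat_lit 2)) T.ie)))))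
def d894 : T := (T.ts (nat_lit 2) (T.ts (nat_lit 4) (T.ts (nat_lit 3) (T.ts (nat_lit 2) (T.ts (nat_lit 1) (T.ts (nat_lit 0) (T.ts (nat_lit 3) (T.ts (nat_lit 1) (T.ts (nat_lit 4) (T.lf (nat_lit 19131) (nat_lit 3) (nat_lit 16569) (nat_lit 4) (nat_lit 20500)) (T.tp (T.sk (T.ls (nat_lit 2) (nat_lit 4))))) (T.tp (T.sk (T.ls (nat_lit 2) (nat_lit 4))))) (T.tp (T.sk (T.ls (nat_lit 2) (nat_lit 4))))) (T.tp (T.sk (T.ls (nat_lit 2) (nat_lit 4))))) (T.tp (T.sk (T.ls (nat_lit 2) (nat_lit 4))))) (T.tp (T.sk (T.ls (nat_lit 2) (nat_lit 4))))) (T.tp (T.sk (T.ls (nat_lit 2) (nat_lit 4))))) (T.tp (T.sk (T.ls (nat_lit 2) (nat_lit 4))))) (T.ts (nat_lit 1) (T.ls (nat_lit 2) (nat_lit 4)) (T.ts (nat_lit 0) (T.ts (nat_lit 4) (T.ts (nat_lit 3) (T.ts (nat_lit 2) (T.ts (nat_lit 1) (T.ts (nat_lit 0) (T.ts (nat_lit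 3) (T.ts (nat_lit 1) (T.ts (nat_lit 4) (T.lf (nat_lit 19131) (nat_lit 2) (nat_lit 20500) (nat_lit 3) (nat_lit 16569)) (T.tp (T.sk (T.ls (nat_lit 2) (nat_lit 4))))) (T.tp (T.sk (T.ls (nat_lit 2) (nat_lit 4))))) (T.tp (T.sk (T.ls (nat_lit 2) (nat_lit 4))))) (T.tp (T.sk (T.ls (nat_lit 2) (nat_lit 4))))) (T.tp (T.sk (T.ls (nat_lit 2) (nat_lit 4))))) (T.tp (T.sk (T.ls (nat_lit 2) (nat_lit 4))))) (T.tp (T.sk (T.ls (nat_lit 2) (nat_lit 4))))) (T.tp (T.sk (T.ls (nat_lit 2) (nat_lit 4))))) (T.tp (T.ts (nat_lit 4) (T.im (nat_lit 7) (nat_lit 2)) T.ie)))))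
def d895 : T := (T.ts (nat_lit 2) (T.ts (nat_lit 4) (T.ts (nat_lit 3) (T.ts (nat_lit 2) (T.ts (nat_lit 1) (T.ts (nat_lit 0) (T.ts (nat_lit 3) (T.ts (nat_lit 1) (T.ts (nat_lit 4) (T.lf (nat_lit 19131) (nat_lit 3) (nat_lit 16569) (nat_lit 4) (nat_lit 20500)) (T.tp (T.sk (T.ls (nat_lit 2) (nat_lit 4))))) (T.tp (T.sk (T.ls (nat_lit 2) (nat_lit 4))))) (T.tp (T.sk (T.ls (nat_lit 2) (nat_lit 4))))) (T.tp (T.sk (T.ls (nat_lit 2) (nat_lit 4))))) (T.tp (T.sk (T.ls (nat_lit 2) (nat_lit 4))))) (T.tp (T.sk (T.ls (nat_lit 2) (nat_lit 4))))) (T.tp (T.sk (T.ls (nat_lit 2) (nat_lit 4))))) (T.tp (T.sk (T.ls (nat_lit 2) (nat_lit 4))))) (T.ts (nat_lit 1) (T.ls (nat_lit 2) (nat_lit 4)) (T.ts (nat_lit 0) (T.ts (nat_lit 4) (T.ts (nat_lit 3) (T.ts (nat_lit 2) (T.ts (nat_lit 1) (T.ts (nat_lit 0) (T.ts (nat_lit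 3) (T.ts (nat_lit 1) (T.ts (nat_lit 4) (T.lf (nat_lit 19131) (nat_lit 2) (nat_lit 20500) (nat_lit 3) (nat_lit 16569)) (T.tp (T.sk (T.ls (nat_lit 2) (nat_lit 4))))) (T.tp (T.sk (T.ls (nat_lit 2) (nat_lit 4))))) (T.tp (T.sk (T.ls (nat_lit 2) (nat_lit 4))))) (T.tp (T.sk (T.ls (nat_lit 2) (nat_lit 4))))) (T.tp (T.sk (T.ls (nat_lit 2) (nat_lit 4))))) (T.tp (T.sk (T.ls (nat_lit 2) (nat_lit 4))))) (T.tp (T.sk (T.ls (nat_lit 2) (nat_lit 4))))) (T.tp (T.sk (T.ls (nat_lit 2) (nat_lit 4))))) (T.tp (T.ts (nat_lit 4) (T.im (nat_lit 7) (nat_lit 2)) T.ie)))))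
def d896 : T := (T.ts (nat_lit 2) (T.ts (nat_lit 4) (T.ts (nat_lit 4) (T.ls (nat_lit 2) (nat_lit 3)) (T.ts (nat_lit 3) (T.ls (nat_lit 3) (nat_lit 4)) (T.ts (nat_lit 1) (T.ls (nat_lit 2) (nat_lit 4)) (T.ts (nat_lit 0) (T.ls (nat_lit 2) (nat_lit 3)) (T.ts (nat_lit 2) (T.im (nat_lit 7) (nat_lit 2)) T.ie))))) (T.ts (nat_lit 3) (T.ts (nat_lit 4) (T.ls (nat_lit 2) (nat_lit 3)) (T.ts (nat_lit 3) (T.ls (nat_lit 2) (nat_lit 3)) (T.ts (nat_lit 0) (T.ls (nat_lit 2) (nat_lit 3)) (T.ts (nat_lit 2) (T.im (nat_lit 7) (nat_lit 2)) (T.ts (nat_lit 1) (T.im (nat_lit 5) (nat_lit 3)) T.ie))))) (T.ts (nat_lit 1) (T.ts (nat_lit 4) (T.ls (nat_lit 2) (nat_lit 4)) (T.ts (nat_lit 3) (T.ls (nat_lit 2) (nat_lit 3)) (T.ts (nat_lit 1) (T.ls (nat_lit 2) (nat_lit 4)) (T.ts (nat_lit 0) (T.ls (nat_lit 2) (nat_lit 3))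 (T.ts (nat_lit 2) (T.im (nat_lit 7) (nat_lit 2)) T.ie))))) (T.ts (nat_lit 0) (T.ts (nat_lit 4) (T.ls (nat_lit 2) (nat_lit 3)) (T.ts (nat_lit 3) (T.ls (nat_lit 2) (nat_lit 3)) (T.ts (nat_lit 1) (T.ls (nat_lit 2) (nat_lit 4)) (T.ts (nat_lit 0) (T.ls (nat_lit 2) (nat_lit 3)) (T.ts (nat_lit 2) (T.im (nat_lit 7) (nat_lit 2)) T.ie))))) (T.ts (nat_lit 2) (T.im (nat_lit 7) (nat_lit 1)) T.ie))))) (T.ts (nat_lit 1) (T.ts (nat_lit 4) (T.ts (nat_lit 4) (T.ls (nat_lit 2) (nat_lit 3)) (T.ts (nat_lit 3) (T.ls (nat_lit 2) (nat_lit 4)) (T.ts (nat_lit 2) (T.ls (nat_lit 3) (nat_lit 4)) (T.ts (nat_lit 0) (T.ls (nat_lit 2) (nat_lit 3)) (T.ts (nat_lit 1) (T.im (nat_lit 7) (nat_lit 2)) T.ie))))) (T.ts (nat_lit 3) (T.ts (nat_lit 4) (T.ls (nat_lit 2) (nat_lit 3)) (T.ts (nat_lit 3) (T.ls (nat_lit 2) (nat_lit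 3)) (T.ts (nat_lit 2) (T.ls (nat_lit 3) (nat_lit 4)) (T.ts (nat_lit 0) (T.ls (nat_lit 2) (nat_lit 3)) (T.ts (nat_lit 1) (T.im (nat_lit 5) (nat_lit 3)) T.ie))))) (T.ts (nat_lit 2) (T.ts (nat_lit 4) (T.ls (nat_lit 3) (nat_lit 4)) (T.ts (nat_lit 3) (T.ls (nat_lit 2) (nat_lit 3)) (T.ts (nat_lit 2) (T.ls (nat_lit 3) (nat_lit 4)) (T.ts (nat_lit 0) (T.ls (nat_lit 2) (nat_lit 3)) (T.ts (nat_lit 1) (T.im (nat_lit 7) (nat_lit 2)) T.ie))))) (T.ts (nat_lit 0) (T.ts (nat_lit 4) (T.ls (nat_lit 2) (nat_lit 3)) (T.ts (nat_lit 2) (T.ls (nat_lit 3) (nat_lit 4)) (T.ts (nat_lit 0) (T.ls (nat_lit 2) (nat_lit 3)) (T.ts (nat_lit 3) (T.im (nat_lit 3) (nat_lit 4)) (T.ts (nat_lit 1) (T.im (nat_lit 7) (nat_lit 2)) T.ie))))) (T.ts (nat_lit 1) (T.im (nat_lit 7) (nat_lit 1)) T.ie))))) (T.ts (nat_lit 3) (T.im (nat_lit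 5) (nat_lit 2)) (T.ts (nat_lit 0) (T.im (nat_lit 3) (nat_lit 3)) T.ie))))
def d897 : T := (T.ts (nat_lit 1) (T.ts (nat_lit 4) (T.ts (nat_lit 4) (T.ls (nat_lit 2) (nat_lit 3)) (T.ts (nat_lit 3) (T.ls (nat_lit 2) (nat_lit 4)) (T.ts (nat_lit 2) (T.ls (nat_lit 3) (nat_lit 4)) (T.ts (nat_lit 0) (T.ls (nat_lit 2) (nat_lit 3)) (T.ts (nat_lit 1) (T.im (nat_lit 7) (nat_lit 2)) T.ie))))) (T.ts (nat_lit 3) (T.ts (nat_lit 4) (T.ls (nat_lit 2) (nat_lit 3)) (T.ts (nat_lit 3) (T.ls (nat_lit 2) (nat_lit 3)) (T.ts (nat_lit 2) (T.ls (nat_lit 3) (nat_lit 4)) (T.ts (nat_lit 1) (T.im (nat_lit 7) (nat_lit 2)) (T.ts (nat_lit 0) (T.im (nat_lit 5) (nat_lit 3)) T.ie))))) (T.ts (nat_lit 2) (T.ts (nat_lit 4) (T.ls (nat_lit 3) (nat_lit 4)) (T.ts (nat_lit 3) (T.ls (nat_lit 2) (nat_lit 3)) (T.ts (nat_lit 2) (T.ls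 (nat_lit 3) (nat_lit 4)) (T.ts (nat_lit 0) (T.ls (nat_lit 2) (nat_lit 3)) (T.ts (nat_lit 1) (T.im (nat_lit 7) (nat_lit 2)) T.ie))))) (T.ts (nat_lit 0) (T.ts (nat_lit 4) (T.ls (nat_lit 2) (nat_lit 3)) (T.ts (nat_lit 2) (T.ls (nat_lit 3) (nat_lit 4)) (T.ts (nat_lit 0) (T.ls (nat_lit 2) (nat_lit 3)) (T.ts (nat_lit 3) (T.im (nat_lit 3) (nat_lit 4)) (T.ts (nat_lit 1) (T.im (nat_lit 7) (nat_lit 2)) T.ie))))) (T.ts (nat_lit 1) (T.im (nat_lit 7) (nat_lit 1)) T.ie))))) (T.ts (nat_lit 0) (T.ts (nat_lit 4) (T.ts (nat_lit 4) (T.ls (nat_lit 2) (nat_lit 3)) (T.ts (nat_lit 3) (T.ls (nat_lit 2) (nat_lit 3)) (T.ts (nat_lit 2) (T.ls (nat_lit 3) (nat_lit 4)) (T.ts (nat_lit 1) (T.ls (nat_lit 2) (nat_lit 4)) (T.ts (nat_lit 0) (T.im (nat_lit 7) (nat_lit 2)) T.ie))))) (T.ts (nat_lit 3) (T.ts (nat_lit 4)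 (T.ls (nat_lit 2) (nat_lit 3)) (T.ts (nat_lit 3) (T.ls (nat_lit 2) (nat_lit 3)) (T.ts (nat_lit 2) (T.ls (nat_lit 3) (nat_lit 4)) (T.ts (nat_lit 1) (T.ls (nat_lit 2) (nat_lit 4)) (T.ts (nat_lit 0) (T.im (nat_lit 5) (nat_lit 3)) T.ie))))) (T.ts (nat_lit 2) (T.ts (nat_lit 4) (T.ls (nat_lit 3) (nat_lit 4)) (T.ts (nat_lit 3) (T.ls (nat_lit 2) (nat_lit 3)) (T.ts (nat_lit 2) (T.ls (nat_lit 3) (nat_lit 4)) (T.ts (nat_lit 1) (T.ls (nat_lit 2) (nat_lit 4)) (T.ts (nat_lit 0) (T.im (nat_lit 7) (nat_lit 2)) T.ie))))) (T.ts (nat_lit 1) (T.ts (nat_lit 4) (T.ls (nat_lit 2) (nat_lit 4)) (T.ts (nat_lit 3) (T.ls (nat_lit 2) (nat_lit 3)) (T.ts (nat_lit 2) (T.ls (nat_lit 3) (nat_lit 4)) (T.ts (nat_lit 1) (T.ls (nat_lit 2) (nat_lit 4)) (T.ts (nat_lit 0) (T.im (nat_lit 7) (nat_lit 2)) T.ie))))) (T.ts (nat_lit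 0) (T.im (nat_lit 7) (nat_lit 1)) T.ie))))) (T.ts (nat_lit 3) (T.im (nat_lit 5) (nat_lit 2)) T.ie)))
def d898 : T := (T.ts (nat_lit 4) (T.ts (nat_lit 3) (T.ts (nat_lit 3) (T.ls (nat_lit 2) (nat_lit 3)) (T.ts (nat_lit 2) (T.ts (nat_lit 4) (T.ls (nat_lit 3) (nat_lit 4)) (T.ts (nat_lit 1) (T.ls (nat_lit 2) (nat_lit 3)) (T.sk (T.ls (nat_lit 2) (nat_lit 3))))) (T.ts (nat_lit 1) (T.ls (nat_lit 2) (nat_lit 4)) (T.ts (nat_lit 4) (T.im (nat_lit 7) (nat_lit 2)) (T.ts (nat_lit 0) (T.im (nat_lit 5) (nat_lit 3)) T.ie))))) (T.ts (nat_lit 2) (T.ts (nat_lit 3) (T.ls (nat_lit 2) (nat_lit 3)) (T.ts (nat_lit 2) (T.ls (nat_lit 3) (nat_lit 4)) (T.ts (nat_lit 1) (T.ls (nat_lit 2) (nat_lit 4)) (T.ts (nat_lit 0) (T.ls (nat_lit 2) (nat_lit 3)) (T.ts (nat_lit 4) (T.im (nat_lit 7) (nat_lit 2)) T.ie))))) (T.ts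 (nat_lit 1) (T.ts (nat_lit 3) (T.ls (nat_lit 2) (nat_lit 3)) (T.ts (nat_lit 2) (T.ls (nat_lit 3) (nat_lit 4)) (T.ts (nat_lit 1) (T.ls (nat_lit 2) (nat_lit 4)) (T.ts (nat_lit 0) (T.ls (nat_lit 2) (nat_lit 3)) (T.ts (nat_lit 4) (T.im (nat_lit 7) (nat_lit 2)) T.ie))))) (T.ts (nat_lit 0) (T.ts (nat_lit 3) (T.ls (nat_lit 2) (nat_lit 3)) (T.ts (nat_lit 2) (T.ls (nat_lit 3) (nat_lit 4)) (T.ts (nat_lit 1) (T.ls (nat_lit 2) (nat_lit 4)) (T.ts (nat_lit 0) (T.ls (nat_lit 2) (nat_lit 3)) (T.ts (nat_lit 4) (T.im (nat_lit 7) (nat_lit 2)) T.ie))))) (T.ts (nat_lit 4) (T.im (nat_lit 7) (nat_lit 1)) T.ie))))) (T.ts (nat_lit 2) (T.ts (nat_lit 4) (T.ts (nat_lit 4) (T.ls (nat_lit 2) (nat_lit 3)) (T.ts (nat_lit 3) (T.ls (nat_lit 3) (nat_lit 4)) (T.ts (nat_lit 1) (T.ls (nat_lit 2) (nat_lit 4)) (T.ts (nat_lit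 0) (T.ls (nat_lit 2) (nat_lit 3)) (T.ts (nat_lit 2) (T.im (nat_lit 7) (nat_lit 2)) T.ie))))) (T.ts (nat_lit 3) (T.ts (nat_lit 4) (T.ls (nat_lit 2) (nat_lit 3)) (T.ts (nat_lit 3) (T.ls (nat_lit 2) (nat_lit 3)) (T.ts (nat_lit 1) (T.ls (nat_lit 2) (nat_lit 4)) (T.ts (nat_lit 2) (T.im (nat_lit 7) (nat_lit 2)) (T.ts (nat_lit 0) (T.im (nat_lit 5) (nat_lit 3)) T.ie))))) (T.ts (nat_lit 1) (T.ts (nat_lit 4) (T.ls (nat_lit 2) (nat_lit 4)) (T.ts (nat_lit 3) (T.ls (nat_lit 2) (nat_lit 3)) (T.ts (nat_lit 1) (T.ls (nat_lit 2) (nat_lit 4)) (T.ts (nat_lit 0) (T.ls (nat_lit 2) (nat_lit 3)) (T.ts (nat_lit 2) (T.im (nat_lit 7) (nat_lit 2)) T.ie))))) (T.ts (nat_lit 0) (T.ts (nat_lit 4) (T.ls (nat_lit 2) (nat_lit 3)) (T.ts (nat_lit 3) (T.ls (nat_lit 2) (nat_lit 3)) (T.ts (nat_lit 1) (T.ls (nat_lit 2)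 (nat_lit 4)) (T.ts (nat_lit 0) (T.ls (nat_lit 2) (nat_lit 3)) (T.ts (nat_lit 2) (T.im (nat_lit 7) (nat_lit 2)) T.ie))))) (T.ts (nat_lit 2) (T.im (nat_lit 7) (nat_lit 1)) T.ie))))) d897))
def d899 : T := (T.ts (nat_lit 2) (T.tp (T.ts (nat_lit 4) (T.ts (nat_lit 3) (T.ts (nat_lit 3) (T.ls (nat_lit 2) (nat_lit 3)) (T.ts (nat_lit 1) (T.ls (nat_lit 2) (nat_lit 4)) (T.ts (nat_lit 0) (T.ls (nat_lit 2) (nat_lit 3)) (T.ts (nat_lit 4) (T.im (nat_lit 7) (nat_lit 2)) (T.ts (nat_lit 2) (T.im (nat_lit 5) (nat_lit 3)) T.ie))))) (T.ts (nat_lit 2) (T.ts (nat_lit 3) (T.ls (nat_lit 2) (nat_lit 3)) (T.ts (nat_lit 2) (T.ls (nat_lit 3) (nat_lit 4)) (T.ts (nat_lit 1) (T.ls (nat_lit 2) (nat_lit 4)) (T.ts (nat_lit 0) (T.ls (nat_lit 2) (nat_lit 3)) (T.ts (nat_lit 4) (T.im (nat_lit 7) (nat_lit 2)) T.ie)))))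 (T.ts (nat_lit 1) (T.ts (nat_lit 3) (T.ls (nat_lit 2) (nat_lit 3)) (T.ts (nat_lit 2) (T.ls (nat_lit 3) (nat_lit 4)) (T.ts (nat_lit 1) (T.ls (nat_lit 2) (nat_lit 4)) (T.ts (nat_lit 0) (T.ls (nat_lit 2) (nat_lit 3)) (T.ts (nat_lit 4) (T.im (nat_lit 7) (nat_lit 2)) T.ie))))) (T.ts (nat_lit 0) (T.ts (nat_lit 3) (T.ls (nat_lit 2) (nat_lit 3)) (T.ts (nat_lit 2) (T.ls (nat_lit 3) (nat_lit 4)) (T.ts (nat_lit 1) (T.ls (nat_lit 2) (nat_lit 4)) (T.ts (nat_lit 0) (T.ls (nat_lit 2) (nat_lit 3)) (T.ts (nat_lit 4) (T.im (nat_lit 7) (nat_lit 2)) T.ie))))) (T.ts (nat_lit 4) (T.im (nat_lit 7) (nat_lit 1)) T.ie))))) d892)) (T.ts (nat_lit 1) (T.ts (nat_lit 4) (T.ts (nat_lit 3) (T.tp (T.ts (nat_lit 3) (T.ls (nat_lit 2) (nat_lit 4)) (T.ts (nat_lit 2) (T.ts (nat_lit 4) (T.ts (nat_lit 3) (T.im (nat_lit 7)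 (nat_lit 3)) (T.sk (T.ls (nat_lit 2) (nat_lit 4)))) (T.ts (nat_lit 1) (T.ls (nat_lit 2) (nat_lit 4)) (T.sk (T.ls (nat_lit 2) (nat_lit 4))))) (T.ts (nat_lit 0) (T.ts (nat_lit 4) (T.ts (nat_lit 3) (T.im (nat_lit 7) (nat_lit 3)) (T.sk (T.ls (nat_lit 2) (nat_lit 4)))) (T.sk (T.ls (nat_lit 2) (nat_lit 4)))) (T.ts (nat_lit 4) (T.im (nat_lit 7) (nat_lit 2)) (T.ts (nat_lit 1) (T.im (nat_lit 5) (nat_lit 3)) T.ie)))))) (T.ts (nat_lit 2) (T.ts (nat_lit 3) (T.ls (nat_lit 2) (nat_lit 4)) d893) (T.ts (nat_lit 1) (T.ts (nat_lit 3) (T.ls (nat_lit 2) (nat_lit 4)) d894) (T.ts (nat_lit 0) (T.ts (nat_lit 3) (T.ls (nat_lit 2) (nat_lit 4)) d895) (T.tp (T.ts (nat_lit 4) (T.im (nat_lit 7) (nat_lit 1)) T.ie)))))) (T.tp d896)) (T.tp (T.ts (nat_lit 0) d898 (T.ts (nat_lit 3) (T.im (nat_lit 5) (nat_lit 1)) T.ie)))))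
def d900 : T := (T.ts (nat_lit 4) (T.tp d891) d899)
def d901 : T := (T.ts (nat_lit 4) (T.ts (nat_lit 4) (T.ls (nat_lit 2) (nat_lit 3)) (T.ts (nat_lit 2) (T.ls (nat_lit 3) (nat_lit 4)) (T.ts (nat_lit 1) (T.ls (nat_lit 2) (nat_lit 4)) (T.ts (nat_lit 0) (T.ls (nat_lit 2) (nat_lit 3)) (T.ts (nat_lit 3) (T.im (nat_lit 7) (nat_lit 2)) T.ie))))) (T.ts (nat_lit 2) (T.ts (nat_lit 2) (T.ls (nat_lit 3) (nat_lit 4)) (T.ts (nat_lit 1) (T.ts (nat_lit 4) (T.ts (nat_lit 3) (T.ts (nat_lit 2) (T.ts (nat_lit 1) (T.im (nat_lit 7) (nat_lit 4)) (T.sk (T.ls (nat_lit 3) (nat_lit 4)))) (T.sk (T.ls (nat_lit 3) (nat_lit 4)))) (T.sk (T.ls (nat_lit 3) (nat_lit 4)))) (T.ts (nat_lit 0) (T.ls (nat_lit 3) (nat_lit 4)) (T.sk (T.ls (nat_lit 3) (nat_lit 4))))) (T.ts (nat_lit 0) (T.ls (nat_lit 2) (nat_lit 3)) (T.ts (nat_lit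 4) (T.im (nat_lit 5) (nat_lit 3)) (T.ts (nat_lit 3) (T.im (nat_lit 7) (nat_lit 2)) T.ie))))) (T.ts (nat_lit 1) (T.ts (nat_lit 4) (T.ls (nat_lit 2) (nat_lit 4)) (T.ts (nat_lit 2) (T.ls (nat_lit 3) (nat_lit 4)) (T.ts (nat_lit 1) (T.ls (nat_lit 2) (nat_lit 4)) (T.ts (nat_lit 0) (T.ls (nat_lit 2) (nat_lit 3)) (T.ts (nat_lit 3) (T.im (nat_lit 7) (nat_lit 2)) T.ie))))) (T.ts (nat_lit 0) (T.ts (nat_lit 4) (T.ls (nat_lit 2) (nat_lit 3)) (T.ts (nat_lit 2) (T.ls (nat_lit 3) (nat_lit 4)) (T.ts (nat_lit 1) (T.ls (nat_lit 2) (nat_lit 4)) (T.ts (nat_lit 0) (T.ls (nat_lit 2) (nat_lit 3)) (T.ts (nat_lit 3) (T.im (nat_lit 7) (nat_lit 2)) T.ie))))) (T.ts (nat_lit 3) (T.im (nat_lit 7) (nat_lit 1)) T.ie)))))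
def d902 : T := (T.ts (nat_lit 1) (T.ts (nat_lit 4) (T.ts (nat_lit 4) (T.ls (nat_lit 2) (nat_lit 3)) (T.ts (nat_lit 3) (T.ls (nat_lit 2) (nat_lit 4)) (T.ts (nat_lit 2) (T.ls (nat_lit 3) (nat_lit 4)) (T.ts (nat_lit 0) (T.ls (nat_lit 2) (nat_lit 3)) (T.ts (nat_lit 1) (T.im (nat_lit 7) (nat_lit 2)) T.ie))))) (T.ts (nat_lit 3) (T.ts (nat_lit 4) (T.ls (nat_lit 2) (nat_lit 3)) (T.ts (nat_lit 3) (T.ls (nat_lit 2) (nat_lit 3)) (T.ts (nat_lit 2) (T.ls (nat_lit 3) (nat_lit 4)) (T.ts (nat_lit 0) (T.ls (nat_lit 2) (nat_lit 3)) (T.ts (nat_lit 1) (T.im (nat_lit 7) (nat_lit 2)) T.ie))))) (T.ts (nat_lit 2) (T.ts (nat_lit 3) (T.ls (nat_lit 2) (nat_lit 3)) (T.ts (nat_lit 2) (T.ls (nat_lit 3) (nat_lit 4)) (T.ts (nat_lit 0) (T.ls (nat_lit 2) (nat_lit 3)) (T.ts (nat_lit 4) (T.im (nat_lit 5) (nat_lit 3))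 (T.ts (nat_lit 1) (T.im (nat_lit 7) (nat_lit 2)) T.ie))))) (T.ts (nat_lit 0) (T.ts (nat_lit 4) (T.ls (nat_lit 2) (nat_lit 3)) (T.ts (nat_lit 3) (T.ls (nat_lit 2) (nat_lit 3)) (T.ts (nat_lit 0) (T.ls (nat_lit 2) (nat_lit 3)) (T.ts (nat_lit 2) (T.im (nat_lit 3) (nat_lit 4)) (T.ts (nat_lit 1) (T.im (nat_lit 7) (nat_lit 2)) T.ie))))) (T.ts (nat_lit 1) (T.im (nat_lit 7) (nat_lit 1)) T.ie))))) (T.ts (nat_lit 0) (T.ts (nat_lit 4) (T.ts (nat_lit 4) (T.ls (nat_lit 2) (nat_lit 3)) (T.ts (nat_lit 3) (T.ls (nat_lit 2) (nat_lit 3)) (T.ts (nat_lit 2) (T.ls (nat_lit 3) (nat_lit 4)) (T.ts (nat_lit 1) (T.ls (nat_lit 2) (nat_lit 4)) (T.ts (nat_lit 0) (T.im (nat_lit 7) (nat_lit 2)) T.ie))))) (T.ts (nat_lit 3) (T.ts (nat_lit 4) (T.ls (nat_lit 2) (nat_lit 3)) (T.ts (nat_lit 3) (T.ls (nat_lit 2) (nat_lit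 3)) (T.ts (nat_lit 2) (T.ls (nat_lit 3) (nat_lit 4)) (T.ts (nat_lit 1) (T.ls (nat_lit 2) (nat_lit 4)) (T.ts (nat_lit 0) (T.im (nat_lit 7) (nat_lit 2)) T.ie))))) (T.ts (nat_lit 2) (T.ts (nat_lit 3) (T.ls (nat_lit 2) (nat_lit 3)) (T.ts (nat_lit 2) (T.ls (nat_lit 3) (nat_lit 4)) (T.ts (nat_lit 1) (T.ls (nat_lit 2) (nat_lit 4)) (T.ts (nat_lit 4) (T.im (nat_lit 5) (nat_lit 3)) (T.ts (nat_lit 0) (T.im (nat_lit 7) (nat_lit 2)) T.ie))))) (T.ts (nat_lit 1) (T.ts (nat_lit 4) (T.ls (nat_lit 2) (nat_lit 4)) (T.ts (nat_lit 3) (T.ls (nat_lit 2) (nat_lit 3)) (T.ts (nat_lit 2) (T.ls (nat_lit 3) (nat_lit 4)) (T.ts (nat_lit 1) (T.ls (nat_lit 2) (nat_lit 4)) (T.ts (nat_lit 0) (T.im (nat_lit 7) (nat_lit 2)) T.ie))))) (T.ts (nat_lit 0) (T.im (nat_lit 7) (nat_lit 1)) T.ie))))) (T.ts (nat_lit 2) (T.im (nat_lit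 5) (nat_lit 2)) T.ie)))
def d903 : T := (T.ts (nat_lit 1) (T.ts (nat_lit 4) (T.ts (nat_lit 4) (T.ls (nat_lit 2) (nat_lit 3)) (T.ts (nat_lit 3) (T.ls (nat_lit 2) (nat_lit 4)) (T.ts (nat_lit 2) (T.ls (nat_lit 3) (nat_lit 4)) (T.ts (nat_lit 0) (T.ls (nat_lit 2) (nat_lit 3)) (T.ts (nat_lit 1) (T.im (nat_lit 7) (nat_lit 2)) T.ie))))) (T.ts (nat_lit 3) (T.ts (nat_lit 4) (T.ls (nat_lit 2) (nat_lit 3)) (T.ts (nat_lit 3) (T.ls (nat_lit 2) (nat_lit 3)) (T.ts (nat_lit 2) (T.ls (nat_lit 3) (nat_lit 4)) (T.ts (nat_lit 0) (T.ls (nat_lit 2) (nat_lit 3)) (T.ts (nat_lit 1) (T.im (nat_lit 7) (nat_lit 2)) T.ie))))) (T.ts (nat_lit 2) (T.ts (nat_lit 4) (T.ls (nat_lit 3) (nat_lit 4)) (T.ts (nat_lit 2) (T.ls (nat_lit 3) (nat_lit 4)) (T.ts (nat_lit 0) (T.ls (nat_lit 2) (nat_lit 3)) (T.ts (nat_lit 3) (T.im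 (nat_lit 5) (nat_lit 3)) (T.ts (nat_lit 1) (T.im (nat_lit 7) (nat_lit 2)) T.ie))))) (T.ts (nat_lit 0) (T.ts (nat_lit 4) (T.ls (nat_lit 2) (nat_lit 3)) (T.ts (nat_lit 3) (T.ls (nat_lit 2) (nat_lit 3)) (T.ts (nat_lit 0) (T.ls (nat_lit 2) (nat_lit 3)) (T.ts (nat_lit 2) (T.im (nat_lit 3) (nat_lit 4)) (T.ts (nat_lit 1) (T.im (nat_lit 7) (nat_lit 2)) T.ie))))) (T.ts (nat_lit 1) (T.im (nat_lit 7) (nat_lit 1)) T.ie))))) (T.ts (nat_lit 0) (T.ts (nat_lit 4) (T.ts (nat_lit 4) (T.ls (nat_lit 2) (nat_lit 3)) (T.ts (nat_lit 3) (T.ls (nat_lit 2) (nat_lit 3)) (T.ts (nat_lit 2) (T.lf (nat_lit 20500) (nat_lit 3) (nat_lit 20500) (nat_lit 4) (nat_lit 19131)) (T.ts (nat_lit 1) (T.lf (nat_lit 20500) (nat_lit 2) (nat_lit 20500) (nat_lit 4) (nat_lit 19131)) (T.ts (nat_lit 0) (T.im (nat_lit 7) (nat_lit 2))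 T.ie))))) (T.ts (nat_lit 3) (T.ts (nat_lit 4) (T.ls (nat_lit 2) (nat_lit 3)) (T.ts (nat_lit 3) (T.ls (nat_lit 2) (nat_lit 3)) (T.ts (nat_lit 2) (T.lf (nat_lit 20500) (nat_lit 3) (nat_lit 20500) (nat_lit 4) (nat_lit 19131)) (T.ts (nat_lit 1) (T.lf (nat_lit 20500) (nat_lit 2) (nat_lit 20500) (nat_lit 4) (nat_lit 19131)) (T.ts (nat_lit 0) (T.im (nat_lit 7) (nat_lit 2)) T.ie))))) (T.ts (nat_lit 2) (T.ts (nat_lit 4) (T.lf (nat_lit 20500) (nat_lit 3) (nat_lit 20500) (nat_lit 4) (nat_lit 19131)) (T.ts (nat_lit 2) (T.lf (nat_lit 20500) (nat_lit 3) (nat_lit 20500) (nat_lit 4) (nat_lit 19131)) (T.ts (nat_lit 1) (T.lf (nat_lit 20500) (nat_lit 2) (nat_lit 20500) (nat_lit 4) (nat_lit 19131)) (T.ts (nat_lit 3) (T.im (nat_lit 5) (nat_lit 3)) (T.ts (nat_lit 0) (T.im (nat_lit 7) (nat_lit 2)) T.ie)))))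 (T.ts (nat_lit 1) (T.ts (nat_lit 4) (T.lf (nat_lit 20500) (nat_lit 2) (nat_lit 20500) (nat_lit 4) (nat_lit 19131)) (T.ts (nat_lit 3) (T.ls (nat_lit 2) (nat_lit 3)) (T.ts (nat_lit 2) (T.lf (nat_lit 20500) (nat_lit 3) (nat_lit 20500) (nat_lit 4) (nat_lit 19131)) (T.ts (nat_lit 1) (T.lf (nat_lit 20500) (nat_lit 2) (nat_lit 20500) (nat_lit 4) (nat_lit 19131)) (T.ts (nat_lit 0) (T.im (nat_lit 7) (nat_lit 2)) T.ie))))) (T.ts (nat_lit 0) (T.im (nat_lit 7) (nat_lit 1)) T.ie))))) (T.ts (nat_lit 2) (T.im (nat_lit 5) (nat_lit 2)) T.ie)))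
def d904 : T := (T.ts (nat_lit 4) (T.ts (nat_lit 3) (T.ts (nat_lit 3) (T.ls (nat_lit 2) (nat_lit 3)) (T.ts (nat_lit 2) (T.ls (nat_lit 3) (nat_lit 4)) (T.ts (nat_lit 1) (T.ls (nat_lit 2) (nat_lit 4)) (T.ts (nat_lit 0) (T.ls (nat_lit 2) (nat_lit 3)) (T.ts (nat_lit 4) (T.im (nat_lit 7) (nat_lit 2)) T.ie))))) (T.ts (nat_lit 2) (T.ts (nat_lit 2) (T.ls (nat_lit 3) (nat_lit 4)) (T.ts (nat_lit 1) (T.ls (nat_lit 2) (nat_lit 4)) (T.ts (nat_lit 0) (T.ls (nat_lit 2) (nat_lit 3)) (T.ts (nat_lit 4) (T.im (nat_lit 7) (nat_lit 2)) (T.ts (nat_lit 3) (T.im (nat_lit 5) (nat_lit 3)) T.ie))))) (T.ts (nat_lit 1) (T.ts (nat_lit 3) (T.ls (nat_lit 2) (nat_lit 3)) (T.ts (nat_lit 2) (T.ls (nat_lit 3) (nat_lit 4)) (T.ts (nat_lit 1) (T.ls (nat_lit 2) (nat_lit 4)) (T.ts (nat_lit 0) (T.ls (nat_lit 2) (nat_lit 3))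 (T.ts (nat_lit 4) (T.im (nat_lit 7) (nat_lit 2)) T.ie))))) (T.ts (nat_lit 0) (T.ts (nat_lit 3) (T.ls (nat_lit 2) (nat_lit 3)) (T.ts (nat_lit 2) (T.ls (nat_lit 3) (nat_lit 4)) (T.ts (nat_lit 1) (T.ls (nat_lit 2) (nat_lit 4)) (T.ts (nat_lit 0) (T.ls (nat_lit 2) (nat_lit 3)) (T.ts (nat_lit 4) (T.im (nat_lit 7) (nat_lit 2)) T.ie))))) (T.ts (nat_lit 4) (T.im (nat_lit 7) (nat_lit 1)) T.ie))))) (T.ts (nat_lit 3) (T.ts (nat_lit 4) (T.ts (nat_lit 4) (T.ls (nat_lit 2) (nat_lit 3)) (T.ts (nat_lit 2) (T.ls (nat_lit 3) (nat_lit 4)) (T.ts (nat_lit 1) (T.ls (nat_lit 2) (nat_lit 4)) (T.ts (nat_lit 0) (T.ls (nat_lit 2) (nat_lit 3)) (T.ts (nat_lit 3) (T.im (nat_lit 7) (nat_lit 2)) T.ie))))) (T.ts (nat_lit 2) (T.ts (nat_lit 4) (T.ls (nat_lit 3) (nat_lit 4)) (T.ts (nat_lit 2) (T.ls (nat_lit 3) (nat_lit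 4)) (T.ts (nat_lit 1) (T.ls (nat_lit 2) (nat_lit 4)) (T.ts (nat_lit 0) (T.ls (nat_lit 2) (nat_lit 3)) (T.ts (nat_lit 3) (T.im (nat_lit 5) (nat_lit 3)) T.ie))))) (T.ts (nat_lit 1) (T.ts (nat_lit 4) (T.ls (nat_lit 2) (nat_lit 4)) (T.ts (nat_lit 2) (T.ls (nat_lit 3) (nat_lit 4)) (T.ts (nat_lit 1) (T.ls (nat_lit 2) (nat_lit 4)) (T.ts (nat_lit 0) (T.ls (nat_lit 2) (nat_lit 3)) (T.ts (nat_lit 3) (T.im (nat_lit 7) (nat_lit 2)) T.ie))))) (T.ts (nat_lit 0) (T.ts (nat_lit 4) (T.ls (nat_lit 2) (nat_lit 3)) (T.ts (nat_lit 2) (T.ls (nat_lit 3) (nat_lit 4)) (T.ts (nat_lit 1) (T.ls (nat_lit 2) (nat_lit 4)) (T.ts (nat_lit 0) (T.ls (nat_lit 2) (nat_lit 3)) (T.ts (nat_lit 3) (T.im (nat_lit 7) (nat_lit 2)) T.ie))))) (T.ts (nat_lit 3) (T.im (nat_lit 7) (nat_lit 1)) T.ie))))) d903))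
def d905 : T := (T.ts (nat_lit 3) (T.ts (nat_lit 4) (T.ts (nat_lit 4) (T.ls (nat_lit 2) (nat_lit 3)) (T.ts (nat_lit 2) (T.ls (nat_lit 3) (nat_lit 4)) (T.ts (nat_lit 1) (T.ls (nat_lit 2) (nat_lit 4)) (T.ts (nat_lit 0) (T.ls (nat_lit 2) (nat_lit 3)) (T.ts (nat_lit 3) (T.im (nat_lit 7) (nat_lit 2)) T.ie))))) (T.ts (nat_lit 2) (T.ts (nat_lit 4) (T.ls (nat_lit 3) (nat_lit 4)) (T.ts (nat_lit 2) (T.ls (nat_lit 3) (nat_lit 4)) (T.ts (nat_lit 0) (T.ls (nat_lit 2) (nat_lit 3)) (T.ts (nat_lit 3) (T.im (nat_lit 7) (nat_lit 2)) (T.ts (nat_lit 1) (T.im (nat_lit 5) (nat_lit 3)) T.ie))))) (T.ts (nat_lit 1) (T.ts (nat_lit 4) (T.ls (nat_lit 2) (nat_lit 4)) (T.ts (nat_lit 2) (T.ls (nat_lit 3) (nat_lit 4)) (T.ts (nat_lit 1) (T.ls (nat_lit 2) (nat_lit 4)) (T.ts (nat_lit 0) (T.ls (nat_lit 2) (nat_lit 3))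 (T.ts (nat_lit 3) (T.im (nat_lit 7) (nat_lit 2)) T.ie))))) (T.ts (nat_lit 0) (T.ts (nat_lit 4) (T.ls (nat_lit 2) (nat_lit 3)) (T.ts (nat_lit 2) (T.ls (nat_lit 3) (nat_lit 4)) (T.ts (nat_lit 1) (T.ls (nat_lit 2) (nat_lit 4)) (T.ts (nat_lit 0) (T.ls (nat_lit 2) (nat_lit 3)) (T.ts (nat_lit 3) (T.im (nat_lit 7) (nat_lit 2)) T.ie))))) (T.ts (nat_lit 3) (T.im (nat_lit 7) (nat_lit 1)) T.ie))))) (T.ts (nat_lit 1) (T.ts (nat_lit 4) (T.ts (nat_lit 4) (T.ls (nat_lit 2) (nat_lit 3)) (T.ts (nat_lit 3) (T.ls (nat_lit 2) (nat_lit 4)) (T.ts (nat_lit 2) (T.ls (nat_lit 3) (nat_lit 4)) (T.ts (nat_lit 0) (T.ls (nat_lit 2) (nat_lit 3)) (T.ts (nat_lit 1) (T.im (nat_lit 7) (nat_lit 2)) T.ie))))) (T.ts (nat_lit 3) (T.ts (nat_lit 4) (T.ls (nat_lit 2) (nat_lit 3)) (T.ts (nat_lit 3) (T.ls (nat_lit 2) (nat_lit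 3)) (T.ts (nat_lit 2) (T.ls (nat_lit 3) (nat_lit 4)) (T.ts (nat_lit 0) (T.ls (nat_lit 2) (nat_lit 3)) (T.ts (nat_lit 1) (T.im (nat_lit 7) (nat_lit 2)) T.ie))))) (T.ts (nat_lit 2) (T.ts (nat_lit 4) (T.ls (nat_lit 3) (nat_lit 4)) (T.ts (nat_lit 3) (T.ls (nat_lit 2) (nat_lit 3)) (T.ts (nat_lit 2) (T.ls (nat_lit 3) (nat_lit 4)) (T.ts (nat_lit 0) (T.ls (nat_lit 2) (nat_lit 3)) (T.ts (nat_lit 1) (T.im (nat_lit 5) (nat_lit 3)) T.ie))))) (T.ts (nat_lit 0) (T.ts (nat_lit 4) (T.ls (nat_lit 2) (nat_lit 3)) (T.ts (nat_lit 3) (T.ls (nat_lit 2) (nat_lit 3)) (T.ts (nat_lit 0) (T.ls (nat_lit 2) (nat_lit 3)) (T.ts (nat_lit 2) (T.im (nat_lit 3) (nat_lit 4)) (T.ts (nat_lit 1) (T.im (nat_lit 7) (nat_lit 2)) T.ie))))) (T.ts (nat_lit 1) (T.im (nat_lit 7) (nat_lit 1)) T.ie))))) (T.ts (nat_lit 2) (T.im (nat_lit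 5) (nat_lit 2)) (T.ts (nat_lit 0) (T.im (nat_lit 3) (nat_lit 3)) T.ie))))
def d906 : T := (T.ts (nat_lit 4) (T.ts (nat_lit 3) (T.ts (nat_lit 3) (T.ls (nat_lit 2) (nat_lit 3)) (T.ts (nat_lit 2) (T.ts (nat_lit 4) (T.ts (nat_lit 3) (T.im (nat_lit 7) (nat_lit 3)) (T.sk (T.ls (nat_lit 2) (nat_lit 4)))) (T.ts (nat_lit 1) (T.ls (nat_lit 2) (nat_lit 4)) (T.sk (T.ls (nat_lit 2) (nat_lit 4))))) (T.ts (nat_lit 1) (T.ls (nat_lit 2) (nat_lit 4)) (T.ts (nat_lit 0) (T.ls (nat_lit 2) (nat_lit 3)) (T.ts (nat_lit 4) (T.im (nat_lit 7) (nat_lit 2)) T.ie))))) (T.ts (nat_lit 2) (T.ts (nat_lit 3) (T.ls (nat_lit 2) (nat_lit 3)) (T.ts (nat_lit 2) (T.ls (nat_lit 3) (nat_lit 4)) (T.ts (nat_lit 0) (T.ls (nat_lit 2) (nat_lit 3)) (T.ts (nat_lit 4) (T.im (nat_lit 7) (nat_lit 2)) (T.ts (nat_lit 1) (T.im (nat_lit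 5) (nat_lit 3)) T.ie))))) (T.ts (nat_lit 1) (T.ts (nat_lit 3) (T.ls (nat_lit 2) (nat_lit 3)) (T.ts (nat_lit 2) (T.ls (nat_lit 3) (nat_lit 4)) (T.ts (nat_lit 1) (T.ls (nat_lit 2) (nat_lit 4)) (T.ts (nat_lit 0) (T.ls (nat_lit 2) (nat_lit 3)) (T.ts (nat_lit 4) (T.im (nat_lit 7) (nat_lit 2)) T.ie))))) (T.ts (nat_lit 0) (T.ts (nat_lit 3) (T.ls (nat_lit 2) (nat_lit 3)) (T.ts (nat_lit 2) (T.ls (nat_lit 3) (nat_lit 4)) (T.ts (nat_lit 1) (T.ls (nat_lit 2) (nat_lit 4)) (T.ts (nat_lit 0) (T.ls (nat_lit 2) (nat_lit 3)) (T.ts (nat_lit 4) (T.im (nat_lit 7) (nat_lit 2)) T.ie))))) (T.ts (nat_lit 4) (T.im (nat_lit 7) (nat_lit 1)) T.ie))))) d905)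
def d907 : T := (T.ts (nat_lit 1) (T.ts (nat_lit 4) (T.ts (nat_lit 4) (T.ls (nat_lit 2) (nat_lit 3)) (T.ts (nat_lit 3) (T.ls (nat_lit 2) (nat_lit 4)) (T.ts (nat_lit 2) (T.ls (nat_lit 3) (nat_lit 4)) (T.ts (nat_lit 0) (T.ls (nat_lit 2) (nat_lit 3)) (T.ts (nat_lit 1) (T.im (nat_lit 7) (nat_lit 2)) T.ie))))) (T.ts (nat_lit 3) (T.ts (nat_lit 4) (T.ls (nat_lit 2) (nat_lit 3)) (T.ts (nat_lit 3) (T.ls (nat_lit 2) (nat_lit 3)) (T.ts (nat_lit 2) (T.ls (nat_lit 3) (nat_lit 4)) (T.ts (nat_lit 0) (T.ls (nat_lit 2) (nat_lit 3)) (T.ts (nat_lit 1) (T.im (nat_lit 7) (nat_lit 2)) T.ie))))) (T.ts (nat_lit 2) (T.ts (nat_lit 4) (T.ls (nat_lit 3) (nat_lit 4)) (T.ts (nat_lit 3) (T.ls (nat_lit 2) (nat_lit 3)) (T.ts (nat_lit 2) (T.ls (nat_lit 3) (nat_lit 4)) (T.ts (nat_lit 1) (T.im (nat_lit 7) (nat_lit 2))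 (T.ts (nat_lit 0) (T.im (nat_lit 5) (nat_lit 3)) T.ie))))) (T.ts (nat_lit 0) (T.ts (nat_lit 4) (T.ls (nat_lit 2) (nat_lit 3)) (T.ts (nat_lit 3) (T.ls (nat_lit 2) (nat_lit 3)) (T.ts (nat_lit 0) (T.ls (nat_lit 2) (nat_lit 3)) (T.ts (nat_lit 2) (T.im (nat_lit 3) (nat_lit 4)) (T.ts (nat_lit 1) (T.im (nat_lit 7) (nat_lit 2)) T.ie))))) (T.ts (nat_lit 1) (T.im (nat_lit 7) (nat_lit 1)) T.ie))))) (T.ts (nat_lit 0) (T.ts (nat_lit 4) (T.ts (nat_lit 4) (T.ls (nat_lit 2) (nat_lit 3)) (T.ts (nat_lit 3) (T.ls (nat_lit 2) (nat_lit 3)) (T.ts (nat_lit 2) (T.ls (nat_lit 3) (nat_lit 4)) (T.ts (nat_lit 1) (T.ls (nat_lit 2) (nat_lit 4)) (T.ts (nat_lit 0) (T.im (nat_lit 7) (nat_lit 2)) T.ie))))) (T.ts (nat_lit 3) (T.ts (nat_lit 4) (T.ls (nat_lit 2) (nat_lit 3)) (T.ts (nat_lit 3) (T.ls (nat_lit 2) (nat_lit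 3)) (T.ts (nat_lit 2) (T.ls (nat_lit 3) (nat_lit 4)) (T.ts (nat_lit 1) (T.ls (nat_lit 2) (nat_lit 4)) (T.ts (nat_lit 0) (T.im (nat_lit 7) (nat_lit 2)) T.ie))))) (T.ts (nat_lit 2) (T.ts (nat_lit 4) (T.ls (nat_lit 3) (nat_lit 4)) (T.ts (nat_lit 3) (T.ls (nat_lit 2) (nat_lit 3)) (T.ts (nat_lit 2) (T.ls (nat_lit 3) (nat_lit 4)) (T.ts (nat_lit 1) (T.ls (nat_lit 2) (nat_lit 4)) (T.ts (nat_lit 0) (T.im (nat_lit 5) (nat_lit 3)) T.ie))))) (T.ts (nat_lit 1) (T.ts (nat_lit 4) (T.ls (nat_lit 2) (nat_lit 4)) (T.ts (nat_lit 3) (T.ls (nat_lit 2) (nat_lit 3)) (T.ts (nat_lit 2) (T.ls (nat_lit 3) (nat_lit 4)) (T.ts (nat_lit 1) (T.ls (nat_lit 2) (nat_lit 4)) (T.ts (nat_lit 0) (T.im (nat_lit 7) (nat_lit 2)) T.ie))))) (T.ts (nat_lit 0) (T.im (nat_lit 7) (nat_lit 1)) T.ie))))) (T.ts (nat_lit 2) (T.im (nat_lit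 5) (nat_lit 2)) T.ie)))
def d908 : T := (T.ts (nat_lit 4) (T.ts (nat_lit 3) (T.ts (nat_lit 3) (T.ls (nat_lit 2) (nat_lit 3)) (T.ts (nat_lit 2) (T.ts (nat_lit 4) (T.ls (nat_lit 3) (nat_lit 4)) (T.ts (nat_lit 1) (T.ls (nat_lit 2) (nat_lit 3)) (T.sk (T.ls (nat_lit 2) (nat_lit 3))))) (T.ts (nat_lit 1) (T.ls (nat_lit 2) (nat_lit 4)) (T.ts (nat_lit 0) (T.ls (nat_lit 2) (nat_lit 3)) (T.ts (nat_lit 4) (T.im (nat_lit 7) (nat_lit 2)) T.ie))))) (T.ts (nat_lit 2) (T.ts (nat_lit 3) (T.ls (nat_lit 2) (nat_lit 3)) (T.ts (nat_lit 2) (T.ls (nat_lit 3) (nat_lit 4)) (T.ts (nat_lit 1) (T.ls (nat_lit 2) (nat_lit 4)) (T.ts (nat_lit 4) (T.im (nat_lit 7) (nat_lit 2)) (T.ts (nat_lit 0) (T.im (nat_lit 5) (nat_lit 3)) T.ie))))) (T.ts (nat_lit 1) (T.ts (nat_lit 3) (T.ls (nat_lit 2) (nat_lit 3)) (T.ts (nat_lit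 2) (T.ls (nat_lit 3) (nat_lit 4)) (T.ts (nat_lit 1) (T.ls (nat_lit 2) (nat_lit 4)) (T.ts (nat_lit 0) (T.ls (nat_lit 2) (nat_lit 3)) (T.ts (nat_lit 4) (T.im (nat_lit 7) (nat_lit 2)) T.ie))))) (T.ts (nat_lit 0) (T.ts (nat_lit 3) (T.ls (nat_lit 2) (nat_lit 3)) (T.ts (nat_lit 2) (T.ls (nat_lit 3) (nat_lit 4)) (T.ts (nat_lit 1) (T.ls (nat_lit 2) (nat_lit 4)) (T.ts (nat_lit 0) (T.ls (nat_lit 2) (nat_lit 3)) (T.ts (nat_lit 4) (T.im (nat_lit 7) (nat_lit 2)) T.ie))))) (T.ts (nat_lit 4) (T.im (nat_lit 7) (nat_lit 1)) T.ie))))) (T.ts (nat_lit 3) (T.ts (nat_lit 4) (T.ts (nat_lit 4) (T.ls (nat_lit 2) (nat_lit 3)) (T.ts (nat_lit 2) (T.ls (nat_lit 3) (nat_lit 4)) (T.ts (nat_lit 1) (T.ls (nat_lit 2) (nat_lit 4)) (T.ts (nat_lit 0) (T.ls (nat_lit 2) (nat_lit 3)) (T.ts (nat_lit 3) (T.im (nat_lit 7)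 (nat_lit 2)) T.ie))))) (T.ts (nat_lit 2) (T.ts (nat_lit 4) (T.ls (nat_lit 3) (nat_lit 4)) (T.ts (nat_lit 2) (T.ls (nat_lit 3) (nat_lit 4)) (T.ts (nat_lit 1) (T.ls (nat_lit 2) (nat_lit 4)) (T.ts (nat_lit 3) (T.im (nat_lit 7) (nat_lit 2)) (T.ts (nat_lit 0) (T.im (nat_lit 5) (nat_lit 3)) T.ie))))) (T.ts (nat_lit 1) (T.ts (nat_lit 4) (T.ls (nat_lit 2) (nat_lit 4)) (T.ts (nat_lit 2) (T.ls (nat_lit 3) (nat_lit 4)) (T.ts (nat_lit 1) (T.ls (nat_lit 2) (nat_lit 4)) (T.ts (nat_lit 0) (T.ls (nat_lit 2) (nat_lit 3)) (T.ts (nat_lit 3) (T.im (nat_lit 7) (nat_lit 2)) T.ie))))) (T.ts (nat_lit 0) (T.ts (nat_lit 4) (T.ls (nat_lit 2) (nat_lit 3)) (T.ts (nat_lit 2) (T.ls (nat_lit 3) (nat_lit 4)) (T.ts (nat_lit 1) (T.ls (nat_lit 2) (nat_lit 4)) (T.ts (nat_lit 0) (T.ls (nat_lit 2) (nat_lit 3)) (T.ts (nat_lit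 3) (T.im (nat_lit 7) (nat_lit 2)) T.ie))))) (T.ts (nat_lit 3) (T.im (nat_lit 7) (nat_lit 1)) T.ie))))) d907))
def d909 : T := (T.ts (nat_lit 4) (T.ts (nat_lit 4) (T.ts (nat_lit 3) (T.ts (nat_lit 3) (T.ls (nat_lit 2) (nat_lit 3)) (T.ts (nat_lit 2) (T.ls (nat_lit 3) (nat_lit 4)) (T.ts (nat_lit 1) (T.ls (nat_lit 2) (nat_lit 4)) (T.ts (nat_lit 0) (T.ls (nat_lit 2) (nat_lit 3)) (T.ts (nat_lit 4) (T.im (nat_lit 7) (nat_lit 2)) T.ie))))) (T.ts (nat_lit 2) (T.ts (nat_lit 3) (T.ls (nat_lit 2) (nat_lit 3)) (T.ts (nat_lit 2) (T.ls (nat_lit 3) (nat_lit 4)) (T.ts (nat_lit 1) (T.ls (nat_lit 2) (nat_lit 4)) (T.ts (nat_lit 0) (T.ls (nat_lit 2) (nat_lit 3)) (T.ts (nat_lit 4) (T.im (nat_lit 5) (nat_lit 3)) T.ie))))) (T.ts (nat_lit 1) (T.ts (nat_lit 3) (T.ls (nat_lit 2) (nat_lit 3)) (T.ts (nat_lit 2)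 (T.ls (nat_lit 3) (nat_lit 4)) (T.ts (nat_lit 1) (T.ls (nat_lit 2) (nat_lit 4)) (T.ts (nat_lit 0) (T.ls (nat_lit 2) (nat_lit 3)) (T.ts (nat_lit 4) (T.im (nat_lit 7) (nat_lit 2)) T.ie))))) (T.ts (nat_lit 0) (T.ts (nat_lit 3) (T.ls (nat_lit 2) (nat_lit 3)) (T.ts (nat_lit 2) (T.ls (nat_lit 3) (nat_lit 4)) (T.ts (nat_lit 1) (T.ls (nat_lit 2) (nat_lit 4)) (T.ts (nat_lit 0) (T.ls (nat_lit 2) (nat_lit 3)) (T.ts (nat_lit 4) (T.im (nat_lit 7) (nat_lit 2)) T.ie))))) (T.ts (nat_lit 4) (T.im (nat_lit 7) (nat_lit 1)) T.ie))))) (T.ts (nat_lit 3) d901 d902)) (T.ts (nat_lit 3) d904 (T.ts (nat_lit 1) d906 (T.ts (nat_lit 0) d908 (T.ts (nat_lit 2) (T.im (nat_lit 5) (nat_lit 1)) T.ie)))))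
def d910 : T := (T.ts (nat_lit 4) (T.ts (nat_lit 4) (T.ls (nat_lit 2) (nat_lit 3)) (T.ts (nat_lit 2) (T.ls (nat_lit 3) (nat_lit 4)) (T.ts (nat_lit 1) (T.ls (nat_lit 2) (nat_lit 4)) (T.ts (nat_lit 0) (T.ls (nat_lit 2) (nat_lit 3)) (T.ts (nat_lit 3) (T.im (nat_lit 7) (nat_lit 2)) T.ie))))) (T.ts (nat_lit 2) (T.ts (nat_lit 4) (T.ls (nat_lit 3) (nat_lit 4)) (T.ts (nat_lit 2) (T.ls (nat_lit 3) (nat_lit 4)) (T.ts (nat_lit 1) (T.ts (nat_lit 4) (T.ts (nat_lit 3) (T.ts (nat_lit 2) (T.ts (nat_lit 1) (T.im (nat_lit 7) (nat_lit 4)) (T.sk (T.ls (nat_lit 2) (nat_lit 3)))) (T.sk (T.ls (nat_lit 2) (nat_lit 3)))) (T.sk (T.ls (nat_lit 2) (nat_lit 3)))) (T.ts (nat_lit 0) (T.ls (nat_lit 2) (nat_lit 3)) (T.sk (T.ls (nat_lit 2) (nat_lit 3))))) (T.ts (nat_lit 0) (T.ls (nat_lit 2) (nat_lit 3)) (T.ts (nat_lit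 3) (T.im (nat_lit 7) (nat_lit 2)) T.ie))))) (T.ts (nat_lit 1) (T.ts (nat_lit 4) (T.ls (nat_lit 2) (nat_lit 4)) (T.ts (nat_lit 2) (T.ls (nat_lit 3) (nat_lit 4)) (T.ts (nat_lit 1) (T.ls (nat_lit 2) (nat_lit 4)) (T.ts (nat_lit 0) (T.ls (nat_lit 2) (nat_lit 3)) (T.ts (nat_lit 3) (T.im (nat_lit 7) (nat_lit 2)) T.ie))))) (T.ts (nat_lit 0) (T.ts (nat_lit 2) (T.ls (nat_lit 3) (nat_lit 4)) (T.ts (nat_lit 1) (T.ls (nat_lit 2) (nat_lit 4)) (T.ts (nat_lit 0) (T.ls (nat_lit 2) (nat_lit 3)) (T.ts (nat_lit 4) (T.im (nat_lit 5) (nat_lit 3)) (T.ts (nat_lit 3) (T.im (nat_lit 7) (nat_lit 2)) T.ie))))) (T.ts (nat_lit 3) (T.im (nat_lit 7) (nat_lit 1)) T.ie)))))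
def d911 : T := (T.ts (nat_lit 2) (T.ts (nat_lit 4) (T.ts (nat_lit 4) (T.ls (nat_lit 2) (nat_lit 3)) (T.ts (nat_lit 3) (T.ls (nat_lit 3) (nat_lit 4)) (T.ts (nat_lit 1) (T.ls (nat_lit 2) (nat_lit 4)) (T.ts (nat_lit 0) (T.ls (nat_lit 2) (nat_lit 3)) (T.ts (nat_lit 2) (T.im (nat_lit 7) (nat_lit 2)) T.ie))))) (T.ts (nat_lit 3) (T.ts (nat_lit 4) (T.ls (nat_lit 2) (nat_lit 3)) (T.ts (nat_lit 3) (T.ls (nat_lit 2) (nat_lit 3)) (T.ts (nat_lit 1) (T.ls (nat_lit 2) (nat_lit 4)) (T.ts (nat_lit 0) (T.ls (nat_lit 2) (nat_lit 3)) (T.ts (nat_lit 2) (T.im (nat_lit 7) (nat_lit 2)) T.ie))))) (T.ts (nat_lit 1) (T.ts (nat_lit 4) (T.ls (nat_lit 2) (nat_lit 4)) (T.ts (nat_lit 3) (T.ls (nat_lit 2) (nat_lit 3)) (T.ts (nat_lit 1) (T.ls (nat_lit 2) (nat_lit 4)) (T.ts (nat_lit 0) (T.ls (nat_lit 2) (nat_lit 3))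 (T.ts (nat_lit 2) (T.im (nat_lit 7) (nat_lit 2)) T.ie))))) (T.ts (nat_lit 0) (T.ts (nat_lit 3) (T.ls (nat_lit 2) (nat_lit 3)) (T.ts (nat_lit 1) (T.ls (nat_lit 2) (nat_lit 4)) (T.ts (nat_lit 0) (T.ls (nat_lit 2) (nat_lit 3)) (T.ts (nat_lit 4) (T.im (nat_lit 5) (nat_lit 3)) (T.ts (nat_lit 2) (T.im (nat_lit 7) (nat_lit 2)) T.ie))))) (T.ts (nat_lit 2) (T.im (nat_lit 7) (nat_lit 1)) T.ie))))) (T.ts (nat_lit 1) (T.ts (nat_lit 4) (T.ts (nat_lit 4) (T.ls (nat_lit 2) (nat_lit 3)) (T.ts (nat_lit 3) (T.ls (nat_lit 2) (nat_lit 4)) (T.ts (nat_lit 2) (T.ls (nat_lit 3) (nat_lit 4)) (T.ts (nat_lit 0) (T.ls (nat_lit 2) (nat_lit 3)) (T.ts (nat_lit 1) (T.im (nat_lit 7) (nat_lit 2)) T.ie))))) (T.ts (nat_lit 3) (T.ts (nat_lit 4) (T.ls (nat_lit 2) (nat_lit 3)) (T.ts (nat_lit 3) (T.ls (nat_lit 2) (nat_lit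 3)) (T.ts (nat_lit 2) (T.ls (nat_lit 3) (nat_lit 4)) (T.ts (nat_lit 0) (T.ls (nat_lit 2) (nat_lit 3)) (T.ts (nat_lit 1) (T.im (nat_lit 7) (nat_lit 2)) T.ie))))) (T.ts (nat_lit 2) (T.ts (nat_lit 4) (T.ls (nat_lit 3) (nat_lit 4)) (T.ts (nat_lit 3) (T.ls (nat_lit 2) (nat_lit 3)) (T.ts (nat_lit 2) (T.ls (nat_lit 3) (nat_lit 4)) (T.ts (nat_lit 0) (T.ls (nat_lit 2) (nat_lit 3)) (T.ts (nat_lit 1) (T.im (nat_lit 7) (nat_lit 2)) T.ie))))) (T.ts (nat_lit 0) (T.ts (nat_lit 3) (T.ls (nat_lit 2) (nat_lit 3)) (T.ts (nat_lit 2) (T.ls (nat_lit 3) (nat_lit 4)) (T.ts (nat_lit 4) (T.im (nat_lit 5) (nat_lit 3)) (T.ts (nat_lit 1) (T.im (nat_lit 7) (nat_lit 2)) (T.ts (nat_lit 0) (T.im (nat_lit 3) (nat_lit 4)) T.ie))))) (T.ts (nat_lit 1) (T.im (nat_lit 7) (nat_lit 1)) T.ie))))) (T.ts (nat_lit 0) (T.im (nat_lit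 5) (nat_lit 2)) T.ie)))
def d912 : T := (T.ts (nat_lit 2) (T.ts (nat_lit 4) (T.ts (nat_lit 4) (T.ls (nat_lit 2) (nat_lit 3)) (T.ts (nat_lit 3) (T.ls (nat_lit 3) (nat_lit 4)) (T.ts (nat_lit 1) (T.ls (nat_lit 2) (nat_lit 4)) (T.ts (nat_lit 0) (T.ls (nat_lit 2) (nat_lit 3)) (T.ts (nat_lit 2) (T.im (nat_lit 7) (nat_lit 2)) T.ie))))) (T.ts (nat_lit 3) (T.ts (nat_lit 4) (T.ls (nat_lit 2) (nat_lit 3)) (T.ts (nat_lit 3) (T.ls (nat_lit 2) (nat_lit 3)) (T.ts (nat_lit 1) (T.ls (nat_lit 2) (nat_lit 4)) (T.ts (nat_lit 0) (T.ls (nat_lit 2) (nat_lit 3)) (T.ts (nat_lit 2) (T.im (nat_lit 7) (nat_lit 2)) T.ie))))) (T.ts (nat_lit 1) (T.ts (nat_lit 4) (T.ls (nat_lit 2) (nat_lit 4)) (T.ts (nat_lit 3) (T.ls (nat_lit 2) (nat_lit 3)) (T.ts (nat_lit 1) (T.ls (nat_lit 2) (nat_lit 4)) (T.ts (nat_lit 2) (T.im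 (nat_lit 7) (nat_lit 2)) (T.ts (nat_lit 0) (T.im (nat_lit 1) (nat_lit 5)) T.ie))))) (T.ts (nat_lit 0) (T.ts (nat_lit 4) (T.ls (nat_lit 2) (nat_lit 3)) (T.ts (nat_lit 1) (T.ls (nat_lit 2) (nat_lit 4)) (T.ts (nat_lit 0) (T.ls (nat_lit 2) (nat_lit 3)) (T.ts (nat_lit 3) (T.im (nat_lit 5) (nat_lit 3)) (T.ts (nat_lit 2) (T.im (nat_lit 7) (nat_lit 2)) T.ie))))) (T.ts (nat_lit 2) (T.im (nat_lit 7) (nat_lit 1)) T.ie))))) (T.ts (nat_lit 1) (T.ts (nat_lit 4) (T.ts (nat_lit 4) (T.ls (nat_lit 2) (nat_lit 3)) (T.ts (nat_lit 3) (T.ls (nat_lit 2) (nat_lit 4)) (T.ts (nat_lit 2) (T.ls (nat_lit 3) (nat_lit 4)) (T.ts (nat_lit 0) (T.ls (nat_lit 2) (nat_lit 3)) (T.ts (nat_lit 1) (T.im (nat_lit 7) (nat_lit 2)) T.ie))))) (T.ts (nat_lit 3) (T.ts (nat_lit 4) (T.ls (nat_lit 2) (nat_lit 3)) (T.ts (nat_lit 3)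 (T.ls (nat_lit 2) (nat_lit 3)) (T.ts (nat_lit 2) (T.ls (nat_lit 3) (nat_lit 4)) (T.ts (nat_lit 0) (T.ls (nat_lit 2) (nat_lit 3)) (T.ts (nat_lit 1) (T.im (nat_lit 7) (nat_lit 2)) T.ie))))) (T.ts (nat_lit 2) (T.ts (nat_lit 4) (T.ls (nat_lit 3) (nat_lit 4)) (T.ts (nat_lit 3) (T.ls (nat_lit 2) (nat_lit 3)) (T.ts (nat_lit 2) (T.ls (nat_lit 3) (nat_lit 4)) (T.ts (nat_lit 0) (T.ls (nat_lit 2) (nat_lit 3)) (T.ts (nat_lit 1) (T.im (nat_lit 7) (nat_lit 2)) T.ie))))) (T.ts (nat_lit 0) (T.ts (nat_lit 4) (T.ls (nat_lit 2) (nat_lit 3)) (T.ts (nat_lit 2) (T.ls (nat_lit 3) (nat_lit 4)) (T.ts (nat_lit 3) (T.im (nat_lit 5) (nat_lit 3)) (T.ts (nat_lit 1) (T.im (nat_lit 7) (nat_lit 2)) (T.ts (nat_lit 0) (T.im (nat_lit 3) (nat_lit 4)) T.ie))))) (T.ts (nat_lit 1) (T.im (nat_lit 7) (nat_lit 1)) T.ie)))))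 (T.ts (nat_lit 0) (T.im (nat_lit 5) (nat_lit 2)) T.ie)))
def d913 : T := (T.ts (nat_lit 4) (T.ts (nat_lit 3) (T.ts (nat_lit 3) (T.ls (nat_lit 2) (nat_lit 3)) (T.ts (nat_lit 2) (T.ls (nat_lit 3) (nat_lit 4)) (T.ts (nat_lit 1) (T.ls (nat_lit 2) (nat_lit 4)) (T.ts (nat_lit 0) (T.ls (nat_lit 2) (nat_lit 3)) (T.ts (nat_lit 4) (T.im (nat_lit 7) (nat_lit 2)) T.ie))))) (T.ts (nat_lit 2) (T.ts (nat_lit 3) (T.ls (nat_lit 2) (nat_lit 3)) (T.ts (nat_lit 2) (T.ls (nat_lit 3) (nat_lit 4)) (T.ts (nat_lit 1) (T.ls (nat_lit 2) (nat_lit 4)) (T.ts (nat_lit 0) (T.ls (nat_lit 2) (nat_lit 3)) (T.ts (nat_lit 4) (T.im (nat_lit 7) (nat_lit 2)) T.ie))))) (T.ts (nat_lit 1) (T.ts (nat_lit 3) (T.ls (nat_lit 2) (nat_lit 3)) (T.ts (nat_lit 2) (T.ls (nat_lit 3) (nat_lit 4)) (T.ts (nat_lit 1) (T.ls (nat_lit 2) (nat_lit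 4)) (T.ts (nat_lit 0) (T.ls (nat_lit 2) (nat_lit 3)) (T.ts (nat_lit 4) (T.im (nat_lit 7) (nat_lit 2)) T.ie))))) (T.ts (nat_lit 0) (T.ts (nat_lit 2) (T.ls (nat_lit 3) (nat_lit 4)) (T.ts (nat_lit 1) (T.ls (nat_lit 2) (nat_lit 4)) (T.ts (nat_lit 0) (T.ls (nat_lit 2) (nat_lit 3)) (T.ts (nat_lit 4) (T.im (nat_lit 7) (nat_lit 2)) (T.ts (nat_lit 3) (T.im (nat_lit 5) (nat_lit 3)) T.ie))))) (T.ts (nat_lit 4) (T.im (nat_lit 7) (nat_lit 1)) T.ie))))) (T.ts (nat_lit 3) (T.ts (nat_lit 4) (T.ts (nat_lit 4) (T.ls (nat_lit 2) (nat_lit 3)) (T.ts (nat_lit 2) (T.ls (nat_lit 3) (nat_lit 4)) (T.ts (nat_lit 1) (T.ls (nat_lit 2) (nat_lit 4)) (T.ts (nat_lit 0) (T.ls (nat_lit 2) (nat_lit 3)) (T.ts (nat_lit 3) (T.im (nat_lit 7) (nat_lit 2)) T.ie))))) (T.ts (nat_lit 2) (T.ts (nat_lit 4) (T.ls (nat_lit 3) (nat_lit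 4)) (T.ts (nat_lit 2) (T.ls (nat_lit 3) (nat_lit 4)) (T.ts (nat_lit 1) (T.ls (nat_lit 2) (nat_lit 4)) (T.ts (nat_lit 0) (T.ls (nat_lit 2) (nat_lit 3)) (T.ts (nat_lit 3) (T.im (nat_lit 7) (nat_lit 2)) T.ie))))) (T.ts (nat_lit 1) (T.ts (nat_lit 4) (T.ls (nat_lit 2) (nat_lit 4)) (T.ts (nat_lit 2) (T.ls (nat_lit 3) (nat_lit 4)) (T.ts (nat_lit 1) (T.ls (nat_lit 2) (nat_lit 4)) (T.ts (nat_lit 0) (T.ls (nat_lit 2) (nat_lit 3)) (T.ts (nat_lit 3) (T.im (nat_lit 7) (nat_lit 2)) T.ie))))) (T.ts (nat_lit 0) (T.ts (nat_lit 4) (T.ls (nat_lit 2) (nat_lit 3)) (T.ts (nat_lit 2) (T.ls (nat_lit 3) (nat_lit 4)) (T.ts (nat_lit 1) (T.ls (nat_lit 2) (nat_lit 4)) (T.ts (nat_lit 0) (T.ls (nat_lit 2) (nat_lit 3)) (T.ts (nat_lit 3) (T.im (nat_lit 5) (nat_lit 3)) T.ie))))) (T.ts (nat_lit 3) (T.im (nat_lit 7)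 (nat_lit 1)) T.ie))))) d912))
def d914 : T := (T.ts (nat_lit 2) (T.ts (nat_lit 4) (T.ts (nat_lit 4) (T.ls (nat_lit 2) (nat_lit 3)) (T.ts (nat_lit 3) (T.ls (nat_lit 3) (nat_lit 4)) (T.ts (nat_lit 1) (T.ls (nat_lit 2) (nat_lit 4)) (T.ts (nat_lit 0) (T.ls (nat_lit 2) (nat_lit 3)) (T.ts (nat_lit 2) (T.im (nat_lit 7) (nat_lit 2)) T.ie))))) (T.ts (nat_lit 3) (T.ts (nat_lit 4) (T.ls (nat_lit 2) (nat_lit 3)) (T.ts (nat_lit 3) (T.ls (nat_lit 2) (nat_lit 3)) (T.ts (nat_lit 1) (T.ls (nat_lit 2) (nat_lit 4)) (T.ts (nat_lit 0) (T.ls (nat_lit 2) (nat_lit 3)) (T.ts (nat_lit 2) (T.im (nat_lit 7) (nat_lit 2)) T.ie))))) (T.ts (nat_lit 1) (T.ts (nat_lit 4) (T.ls (nat_lit 2) (nat_lit 4)) (T.ts (nat_lit 3) (T.ls (nat_lit 2) (nat_lit 3)) (T.ts (nat_lit 1) (T.ls (nat_lit 2) (nat_lit 4)) (T.ts (nat_lit 0)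 (T.ls (nat_lit 2) (nat_lit 3)) (T.ts (nat_lit 2) (T.im (nat_lit 7) (nat_lit 2)) T.ie))))) (T.ts (nat_lit 0) (T.ts (nat_lit 4) (T.ls (nat_lit 2) (nat_lit 3)) (T.ts (nat_lit 3) (T.ls (nat_lit 2) (nat_lit 3)) (T.ts (nat_lit 1) (T.ls (nat_lit 2) (nat_lit 4)) (T.ts (nat_lit 0) (T.ls (nat_lit 2) (nat_lit 3)) (T.ts (nat_lit 2) (T.im (nat_lit 5) (nat_lit 3)) T.ie))))) (T.ts (nat_lit 2) (T.im (nat_lit 7) (nat_lit 1)) T.ie))))) (T.ts (nat_lit 1) (T.ts (nat_lit 4) (T.ts (nat_lit 4) (T.ls (nat_lit 2) (nat_lit 3)) (T.ts (nat_lit 3) (T.ls (nat_lit 2) (nat_lit 4)) (T.ts (nat_lit 2) (T.ls (nat_lit 3) (nat_lit 4)) (T.ts (nat_lit 0) (T.ls (nat_lit 2) (nat_lit 3)) (T.ts (nat_lit 1) (T.im (nat_lit 7) (nat_lit 2)) T.ie))))) (T.ts (nat_lit 3) (T.ts (nat_lit 4) (T.ls (nat_lit 2) (nat_lit 3)) (T.ts (nat_lit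 3) (T.ls (nat_lit 2) (nat_lit 3)) (T.ts (nat_lit 2) (T.ls (nat_lit 3) (nat_lit 4)) (T.ts (nat_lit 0) (T.ls (nat_lit 2) (nat_lit 3)) (T.ts (nat_lit 1) (T.im (nat_lit 7) (nat_lit 2)) T.ie))))) (T.ts (nat_lit 2) (T.ts (nat_lit 4) (T.ls (nat_lit 3) (nat_lit 4)) (T.ts (nat_lit 3) (T.ls (nat_lit 2) (nat_lit 3)) (T.ts (nat_lit 2) (T.ls (nat_lit 3) (nat_lit 4)) (T.ts (nat_lit 0) (T.ls (nat_lit 2) (nat_lit 3)) (T.ts (nat_lit 1) (T.im (nat_lit 7) (nat_lit 2)) T.ie))))) (T.ts (nat_lit 0) (T.ts (nat_lit 4) (T.ls (nat_lit 2) (nat_lit 3)) (T.ts (nat_lit 3) (T.ls (nat_lit 2) (nat_lit 3)) (T.ts (nat_lit 2) (T.im (nat_lit 5) (nat_lit 3)) (T.ts (nat_lit 1) (T.im (nat_lit 7) (nat_lit 2)) (T.ts (nat_lit 0) (T.im (nat_lit 3) (nat_lit 4)) T.ie))))) (T.ts (nat_lit 1) (T.im (nat_lit 7) (nat_lit 1)) T.ie)))))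 (T.ts (nat_lit 0) (T.im (nat_lit 5) (nat_lit 2)) T.ie)))
def d915 : T := (T.ts (nat_lit 4) (T.ts (nat_lit 3) (T.ts (nat_lit 3) (T.ls (nat_lit 2) (nat_lit 3)) (T.ts (nat_lit 2) (T.ls (nat_lit 3) (nat_lit 4)) (T.ts (nat_lit 1) (T.ls (nat_lit 2) (nat_lit 4)) (T.ts (nat_lit 0) (T.ls (nat_lit 2) (nat_lit 3)) (T.ts (nat_lit 4) (T.im (nat_lit 7) (nat_lit 2)) T.ie))))) (T.ts (nat_lit 2) (T.ts (nat_lit 3) (T.ls (nat_lit 2) (nat_lit 3)) (T.ts (nat_lit 2) (T.ls (nat_lit 3) (nat_lit 4)) (T.ts (nat_lit 1) (T.ls (nat_lit 2) (nat_lit 4)) (T.ts (nat_lit 0) (T.ls (nat_lit 2) (nat_lit 3)) (T.ts (nat_lit 4) (T.im (nat_lit 7) (nat_lit 2)) T.ie))))) (T.ts (nat_lit 1) (T.ts (nat_lit 3) (T.ls (nat_lit 2) (nat_lit 3)) (T.ts (nat_lit 2) (T.ls (nat_lit 3) (nat_lit 4)) (T.ts (nat_lit 1) (T.ls (nat_lit 2) (nat_lit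 4)) (T.ts (nat_lit 0) (T.ls (nat_lit 2) (nat_lit 3)) (T.ts (nat_lit 4) (T.im (nat_lit 7) (nat_lit 2)) T.ie))))) (T.ts (nat_lit 0) (T.ts (nat_lit 3) (T.ls (nat_lit 2) (nat_lit 3)) (T.ts (nat_lit 1) (T.ls (nat_lit 2) (nat_lit 4)) (T.ts (nat_lit 0) (T.ls (nat_lit 2) (nat_lit 3)) (T.ts (nat_lit 4) (T.im (nat_lit 7) (nat_lit 2)) (T.ts (nat_lit 2) (T.im (nat_lit 5) (nat_lit 3)) T.ie))))) (T.ts (nat_lit 4) (T.im (nat_lit 7) (nat_lit 1)) T.ie))))) (T.ts (nat_lit 3) (T.ts (nat_lit 4) (T.ts (nat_lit 4) (T.ls (nat_lit 2) (nat_lit 3)) (T.ts (nat_lit 2) (T.ls (nat_lit 3) (nat_lit 4)) (T.ts (nat_lit 1) (T.ls (nat_lit 2) (nat_lit 4)) (T.ts (nat_lit 0) (T.ls (nat_lit 2) (nat_lit 3)) (T.ts (nat_lit 3) (T.im (nat_lit 7) (nat_lit 2)) T.ie))))) (T.ts (nat_lit 2) (T.ts (nat_lit 4) (T.ls (nat_lit 3) (nat_lit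 4)) (T.ts (nat_lit 2) (T.ls (nat_lit 3) (nat_lit 4)) (T.ts (nat_lit 1) (T.ls (nat_lit 2) (nat_lit 4)) (T.ts (nat_lit 0) (T.ls (nat_lit 2) (nat_lit 3)) (T.ts (nat_lit 3) (T.im (nat_lit 7) (nat_lit 2)) T.ie))))) (T.ts (nat_lit 1) (T.ts (nat_lit 4) (T.ls (nat_lit 2) (nat_lit 4)) (T.ts (nat_lit 2) (T.ls (nat_lit 3) (nat_lit 4)) (T.ts (nat_lit 1) (T.ls (nat_lit 2) (nat_lit 4)) (T.ts (nat_lit 0) (T.ls (nat_lit 2) (nat_lit 3)) (T.ts (nat_lit 3) (T.im (nat_lit 7) (nat_lit 2)) T.ie))))) (T.ts (nat_lit 0) (T.ts (nat_lit 4) (T.ls (nat_lit 2) (nat_lit 3)) (T.ts (nat_lit 1) (T.ls (nat_lit 2) (nat_lit 4)) (T.ts (nat_lit 0) (T.ls (nat_lit 2) (nat_lit 3)) (T.ts (nat_lit 3) (T.im (nat_lit 7) (nat_lit 2)) (T.ts (nat_lit 2) (T.im (nat_lit 5) (nat_lit 3)) T.ie))))) (T.ts (nat_lit 3) (T.im (nat_lit 7)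 (nat_lit 1)) T.ie))))) d914))
def d916 : T := (T.ts (nat_lit 2) (T.ts (nat_lit 4) (T.ts (nat_lit 4) (T.ls (nat_lit 2) (nat_lit 3)) (T.ts (nat_lit 3) (T.ls (nat_lit 3) (nat_lit 4)) (T.ts (nat_lit 1) (T.ls (nat_lit 2) (nat_lit 4)) (T.ts (nat_lit 0) (T.ls (nat_lit 2) (nat_lit 3)) (T.ts (nat_lit 2) (T.im (nat_lit 7) (nat_lit 2)) T.ie))))) (T.ts (nat_lit 3) (T.ts (nat_lit 4) (T.ls (nat_lit 2) (nat_lit 3)) (T.ts (nat_lit 3) (T.ls (nat_lit 2) (nat_lit 3)) (T.ts (nat_lit 1) (T.ls (nat_lit 2) (nat_lit 4)) (T.ts (nat_lit 0) (T.ls (nat_lit 2) (nat_lit 3)) (T.ts (nat_lit 2) (T.im (nat_lit 7) (nat_lit 2)) T.ie))))) (T.ts (nat_lit 1) (T.ts (nat_lit 4) (T.ls (nat_lit 2) (nat_lit 4)) (T.ts (nat_lit 3) (T.ls (nat_lit 2) (nat_lit 3)) (T.ts (nat_lit 1) (T.ls (nat_lit 2) (nat_lit 4)) (T.ts (nat_lit 0)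 (T.ls (nat_lit 2) (nat_lit 3)) (T.ts (nat_lit 2) (T.im (nat_lit 7) (nat_lit 2)) T.ie))))) (T.ts (nat_lit 0) (T.ts (nat_lit 4) (T.ls (nat_lit 2) (nat_lit 3)) (T.ts (nat_lit 3) (T.ls (nat_lit 2) (nat_lit 3)) (T.ts (nat_lit 0) (T.ls (nat_lit 2) (nat_lit 3)) (T.ts (nat_lit 2) (T.im (nat_lit 7) (nat_lit 2)) (T.ts (nat_lit 1) (T.im (nat_lit 5) (nat_lit 3)) T.ie))))) (T.ts (nat_lit 2) (T.im (nat_lit 7) (nat_lit 1)) T.ie))))) (T.ts (nat_lit 1) (T.ts (nat_lit 4) (T.ts (nat_lit 4) (T.ls (nat_lit 2) (nat_lit 3)) (T.ts (nat_lit 3) (T.ls (nat_lit 2) (nat_lit 4)) (T.ts (nat_lit 2) (T.ls (nat_lit 3) (nat_lit 4)) (T.ts (nat_lit 0) (T.ls (nat_lit 2) (nat_lit 3)) (T.ts (nat_lit 1) (T.im (nat_lit 7) (nat_lit 2)) T.ie))))) (T.ts (nat_lit 3) (T.ts (nat_lit 4) (T.ls (nat_lit 2) (nat_lit 3)) (T.ts (nat_lit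 3) (T.ls (nat_lit 2) (nat_lit 3)) (T.ts (nat_lit 2) (T.ls (nat_lit 3) (nat_lit 4)) (T.ts (nat_lit 0) (T.ls (nat_lit 2) (nat_lit 3)) (T.ts (nat_lit 1) (T.im (nat_lit 7) (nat_lit 2)) T.ie))))) (T.ts (nat_lit 2) (T.ts (nat_lit 4) (T.ls (nat_lit 3) (nat_lit 4)) (T.ts (nat_lit 3) (T.ls (nat_lit 2) (nat_lit 3)) (T.ts (nat_lit 2) (T.ls (nat_lit 3) (nat_lit 4)) (T.ts (nat_lit 0) (T.ls (nat_lit 2) (nat_lit 3)) (T.ts (nat_lit 1) (T.im (nat_lit 7) (nat_lit 2)) T.ie))))) (T.ts (nat_lit 0) (T.ts (nat_lit 4) (T.ls (nat_lit 2) (nat_lit 3)) (T.ts (nat_lit 3) (T.ls (nat_lit 2) (nat_lit 3)) (T.ts (nat_lit 2) (T.ls (nat_lit 3) (nat_lit 4)) (T.ts (nat_lit 1) (T.im (nat_lit 5) (nat_lit 3)) (T.ts (nat_lit 0) (T.im (nat_lit 3) (nat_lit 4)) T.ie))))) (T.ts (nat_lit 1) (T.im (nat_lit 7) (nat_lit 1)) T.ie)))))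 (T.ts (nat_lit 0) (T.im (nat_lit 3) (nat_lit 3)) T.ie)))
def d917 : T := (T.ts (nat_lit 4) (T.ts (nat_lit 3) (T.ts (nat_lit 3) (T.ls (nat_lit 2) (nat_lit 3)) (T.ts (nat_lit 2) (T.ts (nat_lit 4) (T.ls (nat_lit 3) (nat_lit 4)) (T.ts (nat_lit 1) (T.ls (nat_lit 2) (nat_lit 4)) (T.sk (T.ls (nat_lit 2) (nat_lit 3))))) (T.ts (nat_lit 1) (T.ls (nat_lit 2) (nat_lit 4)) (T.ts (nat_lit 0) (T.ls (nat_lit 2) (nat_lit 3)) (T.ts (nat_lit 4) (T.im (nat_lit 7) (nat_lit 2)) T.ie))))) (T.ts (nat_lit 2) (T.ts (nat_lit 3) (T.ls (nat_lit 2) (nat_lit 3)) (T.ts (nat_lit 2) (T.ls (nat_lit 3) (nat_lit 4)) (T.ts (nat_lit 1) (T.ls (nat_lit 2) (nat_lit 4)) (T.ts (nat_lit 0) (T.ls (nat_lit 2) (nat_lit 3)) (T.ts (nat_lit 4) (T.im (nat_lit 7) (nat_lit 2)) T.ie))))) (T.ts (nat_lit 1) (T.ts (nat_lit 3) (T.ls (nat_lit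 2) (nat_lit 3)) (T.ts (nat_lit 2) (T.ls (nat_lit 3) (nat_lit 4)) (T.ts (nat_lit 1) (T.ls (nat_lit 2) (nat_lit 4)) (T.ts (nat_lit 0) (T.ls (nat_lit 2) (nat_lit 3)) (T.ts (nat_lit 4) (T.im (nat_lit 7) (nat_lit 2)) T.ie))))) (T.ts (nat_lit 0) (T.ts (nat_lit 3) (T.ls (nat_lit 2) (nat_lit 3)) (T.ts (nat_lit 2) (T.ls (nat_lit 3) (nat_lit 4)) (T.ts (nat_lit 0) (T.ls (nat_lit 2) (nat_lit 3)) (T.ts (nat_lit 4) (T.im (nat_lit 7) (nat_lit 2)) (T.ts (nat_lit 1) (T.im (nat_lit 5) (nat_lit 3)) T.ie))))) (T.ts (nat_lit 4) (T.im (nat_lit 7) (nat_lit 1)) T.ie))))) (T.ts (nat_lit 3) (T.ts (nat_lit 4) (T.ts (nat_lit 4) (T.ls (nat_lit 2) (nat_lit 3)) (T.ts (nat_lit 2) (T.ls (nat_lit 3) (nat_lit 4)) (T.ts (nat_lit 1) (T.ls (nat_lit 2) (nat_lit 4)) (T.ts (nat_lit 0) (T.ls (nat_lit 2) (nat_lit 3)) (T.ts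 (nat_lit 3) (T.im (nat_lit 7) (nat_lit 2)) T.ie))))) (T.ts (nat_lit 2) (T.ts (nat_lit 4) (T.ls (nat_lit 3) (nat_lit 4)) (T.ts (nat_lit 2) (T.ls (nat_lit 3) (nat_lit 4)) (T.ts (nat_lit 1) (T.ls (nat_lit 2) (nat_lit 4)) (T.ts (nat_lit 0) (T.ls (nat_lit 2) (nat_lit 3)) (T.ts (nat_lit 3) (T.im (nat_lit 7) (nat_lit 2)) T.ie))))) (T.ts (nat_lit 1) (T.ts (nat_lit 4) (T.ls (nat_lit 2) (nat_lit 4)) (T.ts (nat_lit 2) (T.ls (nat_lit 3) (nat_lit 4)) (T.ts (nat_lit 1) (T.ls (nat_lit 2) (nat_lit 4)) (T.ts (nat_lit 0) (T.ls (nat_lit 2) (nat_lit 3)) (T.ts (nat_lit 3) (T.im (nat_lit 7) (nat_lit 2)) T.ie))))) (T.ts (nat_lit 0) (T.ts (nat_lit 4) (T.ls (nat_lit 2) (nat_lit 3)) (T.ts (nat_lit 2) (T.ls (nat_lit 3) (nat_lit 4)) (T.ts (nat_lit 0) (T.ls (nat_lit 2) (nat_lit 3)) (T.ts (nat_lit 3) (T.im (nat_lit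 7) (nat_lit 2)) (T.ts (nat_lit 1) (T.im (nat_lit 5) (nat_lit 3)) T.ie))))) (T.ts (nat_lit 3) (T.im (nat_lit 7) (nat_lit 1)) T.ie))))) d916))
def d918 : T := (T.ts (nat_lit 4) (T.ts (nat_lit 4) (T.ts (nat_lit 3) (T.ts (nat_lit 3) (T.ls (nat_lit 2) (nat_lit 3)) (T.ts (nat_lit 2) (T.ls (nat_lit 3) (nat_lit 4)) (T.ts (nat_lit 1) (T.ls (nat_lit 2) (nat_lit 4)) (T.ts (nat_lit 0) (T.ls (nat_lit 2) (nat_lit 3)) (T.ts (nat_lit 4) (T.im (nat_lit 7) (nat_lit 2)) T.ie))))) (T.ts (nat_lit 2) (T.ts (nat_lit 3) (T.ls (nat_lit 2) (nat_lit 3)) (T.ts (nat_lit 2) (T.ls (nat_lit 3) (nat_lit 4)) (T.ts (nat_lit 1) (T.ls (nat_lit 2) (nat_lit 4)) (T.ts (nat_lit 0) (T.ls (nat_lit 2) (nat_lit 3)) (T.ts (nat_lit 4) (T.im (nat_lit 7) (nat_lit 2)) T.ie))))) (T.ts (nat_lit 1) (T.ts (nat_lit 3) (T.ls (nat_lit 2)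 (nat_lit 3)) (T.ts (nat_lit 2) (T.ls (nat_lit 3) (nat_lit 4)) (T.ts (nat_lit 1) (T.ls (nat_lit 2) (nat_lit 4)) (T.ts (nat_lit 0) (T.ls (nat_lit 2) (nat_lit 3)) (T.ts (nat_lit 4) (T.im (nat_lit 7) (nat_lit 2)) T.ie))))) (T.ts (nat_lit 0) (T.ts (nat_lit 3) (T.ls (nat_lit 2) (nat_lit 3)) (T.ts (nat_lit 2) (T.ls (nat_lit 3) (nat_lit 4)) (T.ts (nat_lit 1) (T.ls (nat_lit 2) (nat_lit 4)) (T.ts (nat_lit 0) (T.ls (nat_lit 2) (nat_lit 3)) (T.ts (nat_lit 4) (T.im (nat_lit 5) (nat_lit 3)) T.ie))))) (T.ts (nat_lit 4) (T.im (nat_lit 7) (nat_lit 1)) T.ie))))) (T.ts (nat_lit 3) d910 d911)) (T.ts (nat_lit 3) d913 (T.ts (nat_lit 2) d915 (T.ts (nat_lit 1) d917 (T.ts (nat_lit 0) (T.im (nat_lit 5) (nat_lit 1)) T.ie)))))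
def d919 : T := (T.ts (nat_lit 0) d918 (T.ts (nat_lit 1) (T.im (nat_lit 3) (nat_lit 2)) T.ie))
def R920 : T := (T.nw (T.ts (nat_lit 0) (T.tp (T.ts (nat_lit 0) d0 (T.nw (T.ts (nat_lit 0) (T.ts (nat_lit 1) d7 (T.ts (nat_lit 0) d8 (T.nw (T.ts (nat_lit 2) d12 d26)))) (T.ts (nat_lit 1) d27 (T.nw (T.ts (nat_lit 2) d40 (T.ts (nat_lit 1) (T.ts (nat_lit 2) d45 d59) (T.ts (nat_lit 0) d60 (T.nw (T.ts (nat_lit 3) d67 (T.ts (nat_lit 2) d75 (T.ts (nat_lit 0) d84 d93))))))))))))) (T.nw (T.ts (nat_lit 1) (T.ts (nat_lit 1) (T.tp (T.ts (nat_lit 0) d100 (T.ts (nat_lit 1) d101 (T.nw (T.ts (nat_lit 1) d105 d119))))) (T.ts (nat_lit 0) d120 (T.nw (T.ts (nat_lit 2) (T.ts (nat_lit 2) d126 (T.ts (nat_lit 1) (T.ts (nat_lit 2) d131 d147) d156)) (T.ts (nat_lit 1) (T.ts (nat_lit 1) d161 d173) (T.ts (nat_lit 0)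 d174 (T.nw (T.ts (nat_lit 3) d182 (T.ts (nat_lit 2) d192 (T.tp (T.ts (nat_lit 0) d201 d210))))))))))) (T.ts (nat_lit 0) d211 (T.nw (T.ts (nat_lit 2) (T.ts (nat_lit 1) (T.ts (nat_lit 1) (T.ts (nat_lit 2) d218 (T.ts (nat_lit 0) d223 d236)) (T.ts (nat_lit 2) d237 (T.ts (nat_lit 0) d238 (T.nw (T.ts (nat_lit 3) d249 (T.ts (nat_lit 2) d265 (T.ts (nat_lit 1) d281 d297))))))) (T.ts (nat_lit 0) (T.ts (nat_lit 1) (T.ts (nat_lit 2) d302 (T.ts (nat_lit 0) d307 d320)) (T.ts (nat_lit 0) (T.ts (nat_lit 2) d327 (T.ts (nat_lit 1) d334 d347)) (T.ts (nat_lit 2) d348 (T.nw (T.ts (nat_lit 3) d357 (T.ts (nat_lit 2) d373 (T.ts (nat_lit 1) d389 d404))))))) (T.ts (nat_lit 2) d405 (T.nw (T.ts (nat_lit 2) (T.ts (nat_lit 3) d417 (T.ts (nat_lit 1) d429 (T.ts (nat_lit 0) d443 d458))) (T.ts (nat_lit 1) (T.ts (nat_lit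 3) d470 (T.ts (nat_lit 2) d485 (T.ts (nat_lit 0) d499 d514))) (T.ts (nat_lit 0) (T.ts (nat_lit 3) d527 (T.ts (nat_lit 2) d543 (T.ts (nat_lit 1) d560 d576))) (T.ts (nat_lit 3) d577 (T.nw (T.ts (nat_lit 4) d588 (T.ts (nat_lit 3) d605 (T.ts (nat_lit 2) d622 d637)))))))))))) (T.ts (nat_lit 0) (T.ts (nat_lit 2) (T.ts (nat_lit 2) d643 (T.ts (nat_lit 1) (T.ts (nat_lit 2) d650 d665) d674)) (T.ts (nat_lit 1) (T.ts (nat_lit 2) d679 (T.ts (nat_lit 1) d684 d696)) (T.ts (nat_lit 0) d697 (T.nw (T.ts (nat_lit 3) d706 (T.tp (T.ts (nat_lit 2) d714 (T.ts (nat_lit 0) d723 d732)))))))) (T.ts (nat_lit 1) d733 (T.nw (T.ts (nat_lit 3) (T.ts (nat_lit 3) d742 (T.ts (nat_lit 2) (T.ts (nat_lit 3) d757 (T.ts (nat_lit 1) d767 (T.ts (nat_lit 0) d779 d794))) (T.tp (T.ts (nat_lit 1) d802 d811)))) (T.ts (nat_lit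 2) (T.ts (nat_lit 3) d819 (T.ts (nat_lit 2) d827 d840)) (T.ts (nat_lit 1) (T.ts (nat_lit 3) d851 (T.tp (T.ts (nat_lit 2) d859 (T.ts (nat_lit 1) d868 d878)))) (T.ts (nat_lit 0) d879 (T.nw (T.ts (nat_lit 4) d889 (T.ts (nat_lit 3) d900 (T.tp (T.ts (nat_lit 2) d909 d919)))))))))))))))))))

end Pool.Agent.H188.Seq
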