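import Pool.Agent.H188.Seq.Pot
import Pool.Graph.R_pool_sql_team_seeded_620a6dc7.H42.Game.Def

/-!
# From the invariant to a strategy of player 1
-/

namespace Pool.Agent.H188.Seq

open Finset

/-- a virtual word played before the game -/
def u0 : List (Fin 5) := [1, 1, 0, 4, 0, 1, 0, 2, 0, 1, 0, 3, 0, 1, 0, 2, 0, 1, 0, 0]

theorem alive_u0 : Alive u0 := by
  have key : ∀ i ∈ List.range 20, i % 2 = 1 → ∀ p ∈ List.range 11, 1 ≤ p →
      ¬ (p + max 1 (p - 1) ≤ (u0.drop i).length ∧
        ∀ k ∈ List.range (max 1 (p - 1)), (u0.drop i)[k]? = (u0.drop i)[k + p]?) := by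
    decide +kernel
  intro i hi p hp1 hp2 hrep
  by_cases h : i < 20
  · exact key i (List.mem_range.2 h) hi p (List.mem_range.2 (by omega)) hp1
      ⟨hrep.1, fun k hk => hrep.2 k (List.mem_range.1 hk)⟩
  · have := hrep.1
    rw [List.length_drop] at this
    have h2 : u0.length = 20 := rfl
    omega

theorem mr_u0 {p : ℕ} (hp : 11 ≤ p) : mr p u0 ≤ 1 := by
  by_cases h : p < 20
  · interval_cases p <;> decide
  · have : u0.drop p = [] := by
      apply List.drop_eq_nil_of_le
      have h2 : u0.length = 20 := rfl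
      omega
    unfold mr
    rw [this]
    simp [u0, lcp]

theorem inv_u0 (R : T) : Inv R u0 := by
  refine ⟨le_rfl, alive_u0, fun N => ?_⟩
  have h1 : ∑ p ∈ Ico 11 N, D p u0 ≤ ∑ p ∈ Ico 11 N, f p := by
    refine sum_le_sum ?_
    intro p hp
    rw [mem_Ico] at hp
    have := mr_u0 hp.1
    unfold D f
    exact pow_anti (by omega)
  have h2 := sum_f_le N
  have h3 : (11478 : ℚ) ≤ val R u0 [] := by exact_mod_cast val_ge R u0 []
  linarith

/-- history of `x` before move `n`, most recent first -/
def hs (x : ℕ → Fin 5) (n : ℕ) : List (Fin 5) := ((List.range n).map x).reverse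

theorem hs_succ (x : ℕ → Fin 5) (n : ℕ) : hs x (n + 1) = x n :: hs x n := by
  simp [hs, List.range_succ]

theorem hs_length (x : ℕ → Fin 5) (n : ℕ) : (hs x n).length = n := by simp [hs]

theorem hs_get (x : ℕ → Fin 5) (n i : ℕ) (h : i < n) (w : List (Fin 5)) :
    (hs x n ++ w)[i]? = some (x (n - 1 - i)) := by
  rw [List.getElem?_append_left (by rw [hs_length]; exact h)]
  induction n generalizing i with
  | zero => omega
  | succ n ih =>
    rw [hs_succ]
    cases i with
    | zero => simp
    | succ i =>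
      rw [List.getElem?_cons_succ, ih i (by omega)]
      congr 2
      omega

theorem no_rep {x : ℕ → Fin 5}
    (H : ∀ n p, 1 ≤ p → ¬ Rep p (hs x (2 * n + 1) ++ u0)) : ¬ H42Game.HasRep x := by
  rintro ⟨l, k, d, hk, hd, h3, hrep⟩
  rcases Nat.lt_or_ge d 2 with h | h
  · have hd1 : d = 1 := by omega
    subst hd1
    have e1 := hrep 1 (by omega) 0 (by norm_num)
    have e2 := hrep 2 (by omega) 0 (by norm_num)
    simp only [Nat.mul_one, Nat.add_zero] at e1 e2
    obtain ⟨n, hn⟩ : ∃ n, 2 * n = l + 1 ∨ 2 * n = l + 2 := ⟨(l + 2) / 2, by omega⟩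
    apply H n 1 le_rfl
    refine ⟨?_, ?_⟩
    · rw [List.length_append, hs_length]; unfold rl; omega
    · intro k hk
      have hk0 : k = 0 := by unfold rl at hk; omega
      subst hk0
      rw [hs_get _ _ _ (by omega), hs_get _ _ _ (by omega)]
      rcases hn with hn | hn
      · rw [show 2 * n + 1 - 1 - 0 = l + 1 by omega, show 2 * n + 1 - 1 - (0 + 1) = l by omega, e1]
      · rw [show 2 * n + 1 - 1 - 0 = l + 2 by omega,
          show 2 * n + 1 - 1 - (0 + 1) = l + 1 by omega, e1, e2]
  · obtain ⟨n, hn⟩ : ∃ n, 2 * n = l + 2 * d - 1 ∨ 2 * n = l + 2 * d - 2 :=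
      ⟨(l + 2 * d - 1) / 2, by omega⟩
    apply H n d (by omega)
    have hrl : rl d = d - 1 := by unfold rl; omega
    refine ⟨?_, ?_⟩
    · rw [List.length_append, hs_length, hrl]; omega
    · intro k hk
      rw [hrl] at hk
      rw [hs_get _ _ _ (by omega), hs_get _ _ _ (by omega)]
      have e1 := hrep 1 (by omega) (2 * n - k - d - l) (by omega)
      rw [show l + 1 * d + (2 * n - k - d - l) = 2 * n + 1 - 1 - k by omega,
        show l + (2 * n - k - d - l) = 2 * n + 1 - 1 - (k + d) by omega] at e1
      rw [e1]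

theorem win {R : T} (hR : chk R R 20 [] 0 [] false = true) : H42Game.PlayerOneWins 5 := by
  classical
  refine ⟨fun l => if h : Inv R (l.reverse ++ u0) then (step hR h).choose else 0, ?_⟩
  intro x hx
  have key : ∀ n, Inv R (hs x (2 * n) ++ u0) := by
    intro n
    induction n with
    | zero => simpa [hs] using inv_u0 R
    | succ n ih =>
      rw [show 2 * (n + 1) = 2 * n + 1 + 1 by ring, hs_succ, hs_succ]
      have h1 : x (2 * n) = (step hR ih).choose := by
        rw [hx n]
        simp only
        rw [dif_pos (show Inv R (((List.range (2 * n)).map x).reverse ++ u0) from ih)]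
        rfl
      have h2 := (step hR ih).choose_spec
      rw [← h1] at h2
      exact h2.2 _
  apply no_rep
  intro n p hp
  have h1 : x (2 * n) = (step hR (key n)).choose := by
    rw [hx n]
    simp only
    rw [dif_pos (show Inv R (((List.range (2 * n)).map x).reverse ++ u0) from key n)]
    rfl
  have h2 := (step hR (key n)).choose_spec
  rw [← h1] at h2
  rw [hs_succ]
  exact h2.1 p hp

end Pool.Agent.H188.Seq
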