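import Pool.Agent.H188.Seq.Sound

/-!
# The potential of the long periods and the invariant of player 1
-/

namespace Pool.Agent.H188.Seq

open Finset

/-- length of the longest common initial segment -/
def lcp : List (Fin 5) → List (Fin 5) → ℕ
  | a :: x, b :: y => if a = b then lcp x y + 1 else 0
  | [], _ => 0
  | _ :: _, [] => 0

theorem lcp_cons_le (b : Fin 5) (x y : List (Fin 5)) : lcp (b :: x) y ≤ lcp x (y.drop 1) + 1 := by
  cases y with
  | nil => simp [lcp]
  | cons c y =>
    simp only [lcp, List.drop_succ_cons, List.drop_zero]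
    split <;> omega

theorem le_lcp : ∀ (n : ℕ) (x y : List (Fin 5)), n ≤ x.length → n ≤ y.length →
    (∀ k < n, x[k]? = y[k]?) → n ≤ lcp x y := by
  intro n
  induction n with
  | zero => intro x y _ _ _; omega
  | succ n ih =>
    intro x y hx hy h
    cases x with
    | nil => simp at hx
    | cons a x =>
      cases y with
      | nil => simp at hy
      | cons b y =>
        have h0 := h 0 (by omega)
        simp only [List.getElem?_cons_zero, Option.some.injEq] at h0
        simp only [lcp, if_pos h0]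
        have := ih x y (by simpa using hx) (by simpa using hy) (fun k hk => by
          simpa using h (k + 1) (by omega))
        omega

/-- the length of the run of period `p` at the end of the game -/
def mr (p : ℕ) (u : List (Fin 5)) : ℕ := lcp u (u.drop p)

def D (p : ℕ) (u : List (Fin 5)) : ℚ := (3 / 5) ^ ((p - 1 - mr p u) / 2)

def f (p : ℕ) : ℚ := (3 / 5) ^ ((p - 2) / 2)

theorem D_nonneg (p : ℕ) (u : List (Fin 5)) : 0 ≤ D p u := by unfold D; positivity

theorem f_nonneg (p : ℕ) : 0 ≤ f p := by unfold f; positivity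

theorem pow_anti {m n : ℕ} (h : m ≤ n) : ((3 : ℚ) / 5) ^ n ≤ (3 / 5) ^ m :=
  pow_le_pow_of_le_one (by norm_num) (by norm_num) h

theorem mr_step_le {p : ℕ} (hp : 2 ≤ p) (a b : Fin 5) (u : List (Fin 5)) :
    mr p (b :: a :: u) ≤ mr p u + 2 := by
  unfold mr
  obtain ⟨q, rfl⟩ : ∃ q, p = q + 2 := ⟨p - 2, by omega⟩
  simp only [List.drop_succ_cons]
  have h1 := lcp_cons_le b (a :: u) (u.drop q)
  have h2 := lcp_cons_le a u ((u.drop q).drop 1)
  rw [List.drop_drop, List.drop_drop] at h2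
  rw [List.drop_drop] at h1
  have : q + (1 + 1) = q + 2 := rfl
  rw [this] at h2
  omega

theorem mr_step_le_one {p : ℕ} (hp : 2 ≤ p) {a : Fin 5} (b : Fin 5) {u : List (Fin 5)}
    (h : u[p - 1]? ≠ some a) : mr p (b :: a :: u) ≤ 1 := by
  unfold mr
  obtain ⟨q, rfl⟩ : ∃ q, p = q + 2 := ⟨p - 2, by omega⟩
  simp only [List.drop_succ_cons]
  have h1 := lcp_cons_le b (a :: u) (u.drop q)
  rw [List.drop_drop] at h1
  have h2 : lcp (a :: u) (u.drop (q + 1)) = 0 := by
    rcases hd : u.drop (q + 1) with _ | ⟨c, w⟩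
    · simp [lcp]
    · have h3 : u[q + 1]? = some c := by
        have : (u.drop (q + 1))[0]? = some c := by rw [hd]; rfl
        rwa [List.getElem?_drop] at this
      simp only [lcp]
      rw [if_neg]
      rintro rfl
      exact h (by rw [show q + 2 - 1 = q + 1 by omega]; exact h3)
  omega

theorem D_step {p : ℕ} (hp : 3 ≤ p) (a b : Fin 5) (u : List (Fin 5)) (h : mr p u + 3 ≤ p) :
    D p (b :: a :: u) ≤ 5 / 3 * D p u := by
  unfold D
  have h1 := mr_step_le (show 2 ≤ p by omega) a b u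
  obtain ⟨e, he⟩ : ∃ e, (p - 1 - mr p u) / 2 = e + 1 := ⟨(p - 1 - mr p u) / 2 - 1, by omega⟩
  rw [he, pow_succ]
  have h2 : ((3 : ℚ) / 5) ^ ((p - 1 - mr p (b :: a :: u)) / 2) ≤ (3 / 5) ^ e :=
    pow_anti (by omega)
  linarith

theorem D_step_f {p : ℕ} (hp : 3 ≤ p) {a : Fin 5} (b : Fin 5) {u : List (Fin 5)}
    (h : u[p - 1]? ≠ some a) : D p (b :: a :: u) ≤ f p := by
  unfold D f
  have h1 := mr_step_le_one (show 2 ≤ p by omega) b h
  exact pow_anti (by omega)

theorem f_le {p : ℕ} (hp : 3 ≤ p) (u : List (Fin 5)) : f p ≤ 5 / 3 * D p u := by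
  unfold D f
  have h1 : ((3 : ℚ) / 5) ^ ((p - 1) / 2) ≤ (3 / 5) ^ ((p - 1 - mr p u) / 2) :=
    pow_anti (by omega)
  have h2 : ((3 : ℚ) / 5) ^ ((p - 2) / 2) ≤ 5 / 3 * (3 / 5) ^ ((p - 1) / 2) := by
    obtain ⟨e, he⟩ : ∃ e, (p - 1) / 2 = e + 1 := ⟨(p - 1) / 2 - 1, by omega⟩
    rw [he, pow_succ]
    have h3 : ((3 : ℚ) / 5) ^ ((p - 2) / 2) ≤ (3 / 5) ^ e := pow_anti (by omega)
    linarith
  linarith

/-- a move of player 1 completing a repetition of a long period -/
theorem killed {p : ℕ} (hp : 11 ≤ p) {a : Fin 5} {u : List (Fin 5)} (h : Rep p (a :: u)) :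
    u[p - 1]? = some a ∧ p ≤ mr p u + 2 := by
  obtain ⟨h1, h2⟩ := h
  have hr : rl p = p - 1 := by unfold rl; omega
  rw [hr] at h1 h2
  simp only [List.length_cons] at h1
  constructor
  · have := h2 0 (by omega)
    rw [List.getElem?_cons_zero, Nat.zero_add,
      show p = (p - 1) + 1 by omega, List.getElem?_cons_succ] at this
    exact this.symm
  · have : p - 2 ≤ mr p u := by
      unfold mr
      refine le_lcp _ _ _ (by omega) (by rw [List.length_drop]; omega) ?_
      intro k hk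
      have := h2 (k + 1) (by omega)
      rw [List.getElem?_cons_succ, show k + 1 + p = (p + k) + 1 by omega,
        List.getElem?_cons_succ] at this
      rw [this, List.getElem?_drop]
    omega

theorem D_killed {p : ℕ} {u : List (Fin 5)} (h : p ≤ mr p u + 2) : D p u = 1 := by
  unfold D
  rw [show (p - 1 - mr p u) / 2 = 0 by omega, pow_zero]

theorem sum_f_aux (n : ℕ) : ∑ p ∈ Ico 11 (12 + 2 * n), f p = 324 / 625 - 5 * (3 / 5) ^ (n + 5) := by
  induction n with
  | zero => rw [show (12 + 2 * 0) = 12 by norm_num]; simp [f]; norm_num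
  | succ n ih =>
    rw [show 12 + 2 * (n + 1) = 12 + 2 * n + 1 + 1 by ring, sum_Ico_succ_top (by omega),
      sum_Ico_succ_top (by omega), ih]
    unfold f
    rw [show (12 + 2 * n - 2) / 2 = n + 5 by omega, show (12 + 2 * n + 1 - 2) / 2 = n + 5 by omega,
      pow_succ _ (n + 5)]
    ring

theorem sum_f_le (N : ℕ) : ∑ p ∈ Ico 11 N, f p ≤ 324 / 625 := by
  have h1 : ∑ p ∈ Ico 11 N, f p ≤ ∑ p ∈ Ico 11 (12 + 2 * N), f p :=
    sum_le_sum_of_subset_of_nonneg (Ico_subset_Ico le_rfl (by omega)) fun p _ _ => f_nonneg p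
  rw [sum_f_aux] at h1
  have : (0 : ℚ) ≤ (3 / 5) ^ (N + 5) := by positivity
  linarith

theorem sum_f_ge {N : ℕ} (hN : 40 ≤ N) : 518 / 1000 ≤ ∑ p ∈ Ico 11 N, f p := by
  have h1 : ∑ p ∈ Ico 11 (12 + 2 * 14), f p ≤ ∑ p ∈ Ico 11 N, f p :=
    sum_le_sum_of_subset_of_nonneg (Ico_subset_Ico le_rfl (by omega)) fun p _ _ => f_nonneg p
  rw [sum_f_aux] at h1
  refine le_trans ?_ h1
  norm_num

/-- bound for the potential after the move `a` -/
def Sa (a : Fin 5) (u : List (Fin 5)) (N : ℕ) : ℚ :=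
  ∑ p ∈ Ico 11 N, if u[p - 1]? = some a then 5 / 3 * D p u else f p

theorem Sa_killed {a : Fin 5} {u : List (Fin 5)} {p : ℕ} (hp : 11 ≤ p) (h : Rep p (a :: u))
    {N : ℕ} (hN : 40 ≤ N) (hpN : p < N) : 205 / 100 ≤ Sa a u N := by
  obtain ⟨h1, h2⟩ := killed hp h
  have h3 : ∑ q ∈ Ico 11 N, (if q = p then 5 / 3 - f p else 0) + ∑ q ∈ Ico 11 N, f q ≤ Sa a u N := by
    rw [← sum_add_distrib]
    unfold Sa
    refine sum_le_sum ?_
    intro q hq
    rw [mem_Ico] at hq
    by_cases hqp : q = p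
    · subst hqp
      rw [if_pos rfl, if_pos h1, D_killed h2]
      linarith
    · rw [if_neg hqp, zero_add]
      split
      · exact f_le (by omega) u
      · exact le_rfl
  rw [sum_ite_eq' (Ico 11 N) p, if_pos (mem_Ico.2 ⟨hp, hpN⟩)] at h3
  have h4 := sum_f_ge hN
  have h5 : f p ≤ (3 / 5) ^ 4 := pow_anti (by omega)
  norm_num at h5
  linarith

theorem D_sum_le {a : Fin 5} {u : List (Fin 5)}
    (hr : ∀ p, 11 ≤ p → u[p - 1]? = some a → mr p u + 3 ≤ p) (b : Fin 5) (N : ℕ) :
    ∑ p ∈ Ico 11 N, D p (b :: a :: u) ≤ Sa a u N := by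
  unfold Sa
  refine sum_le_sum ?_
  intro p hp
  rw [mem_Ico] at hp
  split
  · rename_i h1
    exact D_step (by omega) a b u (hr p hp.1 h1)
  · rename_i h1
    exact D_step_f (by omega) b h1

/-- The invariant of player 1, at his turns. -/
def Inv (R : T) (u : List (Fin 5)) : Prop :=
  20 ≤ u.length ∧ Alive u ∧ ∀ N, 10000 * ∑ p ∈ Ico 11 N, D p u < (val R u [] : ℚ)

theorem Sa_mono (a : Fin 5) (u : List (Fin 5)) {M N : ℕ} (h : M ≤ N) : Sa a u M ≤ Sa a u N := by
  unfold Sa
  refine sum_le_sum_of_subset_of_nonneg (Ico_subset_Ico le_rfl h) ?_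
  intro p _ _
  split
  · have := D_nonneg p u; positivity
  · exact f_nonneg p

theorem lcp_le_length : ∀ (x y : List (Fin 5)), lcp x y ≤ x.length ∧ lcp x y ≤ y.length ∧
    ∀ k < lcp x y, x[k]? = y[k]? := by
  intro x
  induction x with
  | nil => intro y; simp [lcp]
  | cons a x ih =>
    intro y
    cases y with
    | nil => simp [lcp]
    | cons b y =>
      simp only [lcp]
      split
      · rename_i hab
        obtain ⟨h1, h2, h3⟩ := ih y
        refine ⟨by simpa using h1, by simpa using h2, ?_⟩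
        intro k hk
        cases k with
        | zero => simp [hab]
        | succ k => simpa using h3 k (by omega)
      · simp

/-- if the run is long enough, the move is a repetition -/
theorem rep_of_run {p : ℕ} (hp : 2 ≤ p) {a : Fin 5} {u : List (Fin 5)} (h1 : u[p - 1]? = some a)
    (h2 : p ≤ mr p u + 2) : Rep p (a :: u) := by
  obtain ⟨h3, h4, h5⟩ := lcp_le_length u (u.drop p)
  unfold mr at h2
  rw [List.length_drop] at h4
  have hr : rl p = p - 1 := by unfold rl; omega
  obtain ⟨h6, -⟩ := List.getElem?_eq_some_iff.1 h1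
  refine ⟨?_, ?_⟩
  · rw [hr, List.length_cons]; omega
  · rw [hr]
    intro k hk
    cases k with
    | zero =>
      rw [List.getElem?_cons_zero, Nat.zero_add, show p = (p - 1) + 1 by omega,
        List.getElem?_cons_succ]
      exact h1.symm
    | succ k =>
      rw [List.getElem?_cons_succ, show k + 1 + p = (p + k) + 1 by omega,
        List.getElem?_cons_succ, h5 k (by omega), List.getElem?_drop]

theorem alive_step {a b : Fin 5} {u : List (Fin 5)} (hu : Alive u) (ha : Okm a u) :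
    Alive (b :: a :: u) := by
  intro i hi p hp1 hp2
  rcases Nat.lt_or_ge i 2 with h | h
  · have : i = 1 := by omega
    subst this
    exact ha p hp1 hp2
  · obtain ⟨j, rfl⟩ : ∃ j, i = j + 2 := ⟨i - 2, by omega⟩
    exact hu j (by omega) p hp1 hp2

theorem option_bound {R : T} {u : List (Fin 5)} (hI : Inv R u) {a : Fin 5} {va : ℕ}
    (ha : Okm a u) (hv : va ≤ 20500) (hval : ∀ c, va ≤ val R (c :: a :: u) [])
    (hno : ¬ ((∀ p, 1 ≤ p → ¬ Rep p (a :: u)) ∧ ∀ b, Inv R (b :: a :: u))) :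
    ∃ N0, ∀ N, N0 ≤ N → (va : ℚ) ≤ 10000 * Sa a u N := by
  by_cases hk : ∀ p, 1 ≤ p → ¬ Rep p (a :: u)
  · have : ∃ b, ¬ Inv R (b :: a :: u) := by
      by_contra hcon
      push Not at hcon
      exact hno ⟨hk, hcon⟩
    obtain ⟨b, hb⟩ := this
    have h2 : ∃ N, (val R (b :: a :: u) [] : ℚ) ≤ 10000 * ∑ p ∈ Ico 11 N, D p (b :: a :: u) := by
      by_contra hcon
      push Not at hcon
      exact hb ⟨by have := hI.1; simp only [List.length_cons]; omega, alive_step hI.2.1 ha, hcon⟩
    obtain ⟨N0, hN0⟩ := h2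
    refine ⟨N0, fun N hN => ?_⟩
    have h3 : ∑ p ∈ Ico 11 N0, D p (b :: a :: u) ≤ Sa a u N0 := by
      refine D_sum_le ?_ b N0
      intro p hp h4
      by_contra hcon
      exact hk p (by omega) (rep_of_run (by omega) h4 (by omega))
    have h4 := Sa_mono a u hN
    have h5 : (va : ℚ) ≤ val R (b :: a :: u) [] := by exact_mod_cast hval b
    linarith
  · push Not at hk
    obtain ⟨p, hp, hrep⟩ := hk
    have hp11 : 11 ≤ p := by
      by_contra hcon
      exact ha p hp (by omega) hrep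
    refine ⟨max 40 (p + 1), fun N hN => ?_⟩
    have h3 := Sa_killed hp11 hrep (N := N) (by omega) (by omega)
    have h4 : (va : ℚ) ≤ 20500 := by exact_mod_cast hv
    linarith

theorem step {R : T} (hR : chk R R 20 [] 0 [] false = true) {u : List (Fin 5)} (hI : Inv R u) :
    ∃ a, (∀ p, 1 ≤ p → ¬ Rep p (a :: u)) ∧ ∀ b, Inv R (b :: a :: u) := by
  by_contra hcon
  have hno : ∀ a, ¬ ((∀ p, 1 ≤ p → ¬ Rep p (a :: u)) ∧ ∀ b, Inv R (b :: a :: u)) :=
    fun a h => hcon ⟨a, h⟩
  have hG : Goal R u (val R u []) := by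
    have := chk_sound R R 20 [] 0 [] false hR [] [] u List.nodup_nil rfl List.Forall₂.nil
      (by simp) hI.1 (by simpa using hI.2.1)
    simpa using this
  obtain ⟨a, b, va, vb, hva, hvb, oka, okb, hval, hvbl, hor⟩ := hG
  obtain ⟨Na, hNa⟩ := option_bound hI oka hva hval (hno a)
  obtain ⟨Nb, hNb⟩ := option_bound hI okb hvb hvbl (hno b)
  have ha := hNa (max Na Nb) (le_max_left _ _)
  have hb := hNb (max Na Nb) (le_max_right _ _)
  have hS := hI.2.2 (max Na Nb)
  set N := max Na Nb
  rcases hor with ⟨hab, h1⟩ | h1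
  · have h2 : Sa a u N + Sa b u N ≤ 5 / 3 * ∑ p ∈ Ico 11 N, D p u + ∑ p ∈ Ico 11 N, f p := by
      unfold Sa
      rw [mul_sum, ← sum_add_distrib, ← sum_add_distrib]
      refine sum_le_sum ?_
      intro p hp
      rw [mem_Ico] at hp
      have h3 := f_le (show 3 ≤ p by omega) u
      by_cases ha' : u[p - 1]? = some a
      · have hb' : u[p - 1]? ≠ some b := by
          rw [ha']; intro h; exact hab (Option.some.inj h)
        rw [if_pos ha', if_neg hb']
      · rw [if_neg ha']
        split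
        · linarith
        · linarith
    have h3 := sum_f_le N
    have h4 : 5 * (val R u [] : ℚ) + 15552 ≤ 3 * (va + vb) := by exact_mod_cast h1
    linarith
  · have h2 : Sa a u N ≤ 5 / 3 * ∑ p ∈ Ico 11 N, D p u := by
      unfold Sa
      rw [mul_sum]
      refine sum_le_sum ?_
      intro p hp
      rw [mem_Ico] at hp
      split
      · exact le_rfl
      · exact f_le (by omega) u
    have h4 : 5 * (val R u [] : ℚ) ≤ 3 * va := by exact_mod_cast h1
    linarith

end Pool.Agent.H188.Seq
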