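import Pool.Agent.H188.Seq.Tree

/-!
# Soundness of the checker
-/

namespace Pool.Agent.H188.Seq

theorem band_t {a b : Bool} (h : band a b = true) : a = true ∧ b = true := by
  cases a <;> cases b <;> simp_all [band]

theorem bor_t {a b : Bool} (h : bor a b = true) : a = true ∨ b = true := by
  cases a <;> cases b <;> simp_all [bor]

/-- the value of a tree on a word, given the list of the letters seen so far -/
def val : T → List (Fin 5) → List (Fin 5) → ℕ
  | .lf w _ _ _ _, _, _ => max w 11478
  | .l1 w _ _, _, _ => max w 11478
  | .ls _ _, _, _ => 20500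
  | .im _ _, _, _ => 20500
  | .ie, _, _ => 20500
  | .ts _ _ _, [], _ => 20500
  | .ts j y n, x :: xs, seen => if seen[j]? = some x then val y xs seen else val n (x :: xs) seen
  | .nw _, [], _ => 20500
  | .nw t, x :: xs, seen => val t xs (x :: seen)
  | .sk _, [], _ => 20500
  | .sk t, _ :: xs, seen => val t xs seen
  | .tp _, _, _ => 20500

theorem val_ge (t : T) : ∀ w s, 11478 ≤ val t w s := by
  induction t with
  | lf w a va b vb => intro _ _; simp [val]
  | l1 w a va => intro _ _; simp [val]
  | ls a b => intro _ _; simp [val]
  | im a b => intro _ _; simp [val]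
  | ie => intro _ _; simp [val]
  | ts j y n ihy ihn =>
    intro w s
    cases w with
    | nil => simp [val]
    | cons x xs =>
      simp only [val]
      split
      · exact ihy _ _
      · exact ihn _ _
  | nw t ih =>
    intro w s
    cases w with
    | nil => simp [val]
    | cons x xs => simpa only [val] using ih _ _
  | sk t ih =>
    intro w s
    cases w with
    | nil => simp [val]
    | cons x xs => simpa only [val] using ih _ _
  | tp t _ => intro _ _; simp [val]

/-- the knowledge `e` is correct for the letter `x`, where `F` maps classes to letters -/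
def EM (F : ℕ → Fin 5) : E → Fin 5 → Prop
  | .k c, x => c < 5 ∧ F c = x
  | .u m, x => ∀ c ∈ m, F c ≠ x

/-- the knowledge `r` is correct for the word `w` -/
def PM (F : ℕ → Fin 5) : List E → List (Fin 5) → Prop
  | [], _ => True
  | _ :: _, [] => False
  | e :: es, x :: xs => EM F e x ∧ PM F es xs

def Inj5 (F : ℕ → Fin 5) : Prop := ∀ a b, a < 5 → b < 5 → F a = F b → a = b

theorem memN_sound {c : ℕ} {m : List ℕ} (h : memN c m = true) : c ∈ m := by
  induction m with
  | nil => simp [memN] at h
  | cons d m ih =>
    have h' : bor (Nat.beq c d) (memN c m) = true := h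
    rcases bor_t h' with h1 | h1
    · have := Nat.eq_of_beq_eq_true h1
      simp [this]
    · exact List.mem_cons_of_mem _ (ih h1)

theorem eq_sound {F : ℕ → Fin 5} {e f : E} {x y : Fin 5} (h : E.eq e f = true)
    (hx : EM F e x) (hy : EM F f y) : x = y := by
  cases e with
  | k a =>
    cases f with
    | k b =>
      have h' : Nat.beq a b = true := h
      have := Nat.eq_of_beq_eq_true h'
      subst this
      exact hx.2.symm.trans hy.2
    | u m => exact absurd h (by simp [E.eq])
  | u m => exact absurd h (by simp [E.eq])

theorem ne_sound {F : ℕ → Fin 5} (hF : Inj5 F) {e f : E} {x y : Fin 5} (h : E.ne e f = true)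
    (hx : EM F e x) (hy : EM F f y) : x ≠ y := by
  cases e with
  | k a =>
    cases f with
    | k b =>
      intro hxy
      have := hF a b hx.1 hy.1 (hx.2.trans (hxy.trans hy.2.symm))
      subst this
      have h' : bif' (Nat.beq a a) false true = true := h
      simp [bif'] at h'
    | u m =>
      have h' : memN a m = true := h
      intro hxy
      exact hy a (memN_sound h') (hx.2.trans hxy)
  | u m =>
    cases f with
    | k b =>
      have h' : memN b m = true := h
      intro hxy
      exact hx b (memN_sound h') (hy.2.trans hxy.symm)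
    | u m' => exact absurd h (by simp [E.ne])

theorem nth_sound {s : List E} : ∀ {j : ℕ} {f : E → Bool}, nth s j f = true →
    ∃ e, s[j]? = some e ∧ f e = true := by
  induction s with
  | nil => intro j f h; simp [nth] at h
  | cons e s ih =>
    intro j f h
    cases j with
    | zero => exact ⟨e, by simp, h⟩
    | succ j =>
      have h' : nth s j f = true := h
      obtain ⟨e', h1, h2⟩ := ih h'
      exact ⟨e', by simpa using h1, h2⟩

theorem lk_sound {F : ℕ → Fin 5} (hF : Inj5 F) (t : T) :
    ∀ (v : ℕ) (r s : List E) (w seen : List (Fin 5)), v ≤ 20500 → lk t v r s = true →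
      PM F r w → List.Forall₂ (EM F) s seen → v ≤ val t w seen := by
  induction t with
  | lf w' a va b vb =>
    intro v r s w seen hv h hr hs
    have h' : Nat.ble v w' = true := h
    have := Nat.le_of_ble_eq_true h'
    simp only [val]
    omega
  | l1 w' a va =>
    intro v r s w seen hv h hr hs
    have h' : Nat.ble v w' = true := h
    have := Nat.le_of_ble_eq_true h'
    simp only [val]
    omega
  | ls a b => intro v r s w seen hv h hr hs; simpa only [val] using hv
  | im a b => intro v r s w seen hv h hr hs; simpa only [val] using hv
  | ie => intro v r s w seen hv h hr hs; simpa only [val] using hv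
  | tp t _ => intro v r s w seen hv h hr hs; simpa only [val] using hv
  | ts j y n ihy ihn =>
    intro v r s w seen hv h hr hs
    cases r with
    | nil =>
      have h' : Nat.ble v 11478 = true := h
      exact (Nat.le_of_ble_eq_true h').trans (val_ge _ _ _)
    | cons e es =>
      cases w with
      | nil => exact hr.elim
      | cons x xs =>
        have h' : nth s j (fun f => bif' (E.eq e f) (lk y v es s)
          (bif' (E.ne e f) (lk n v (e :: es) s) (band (lk y v es s) (lk n v (e :: es) s)))) = true := h
        obtain ⟨f, hf, h2⟩ := nth_sound h'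
        obtain ⟨z, hz, hfz⟩ : ∃ z, seen[j]? = some z ∧ EM F f z := by
          have hlen := hs.length_eq
          obtain ⟨hj, hjf⟩ := List.getElem?_eq_some_iff.1 hf
          refine ⟨seen[j]'(hlen ▸ hj), by simp, ?_⟩
          have := (List.forall₂_iff_get.1 hs).2 j hj (hlen ▸ hj)
          simpa [hjf] using this
        simp only [val]
        rcases hq : E.eq e f with _ | _
        · rw [hq] at h2
          have h2 : bif' (E.ne e f) (lk n v (e :: es) s)
            (band (lk y v es s) (lk n v (e :: es) s)) = true := h2
          rcases hq' : E.ne e f with _ | _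
          · rw [hq'] at h2
            obtain ⟨h3, h4⟩ := band_t h2
            split
            · exact ihy v es s xs seen hv h3 hr.2 hs
            · exact ihn v (e :: es) s (x :: xs) seen hv h4 hr hs
          · rw [hq'] at h2
            rw [if_neg]
            · exact ihn v (e :: es) s (x :: xs) seen hv h2 hr hs
            · rw [hz]
              intro hcon
              exact ne_sound hF hq' hr.1 hfz (Option.some.inj hcon).symm
        · rw [hq] at h2
          rw [if_pos]
          · exact ihy v es s xs seen hv h2 hr.2 hs
          · rw [hz, eq_sound hq hr.1 hfz]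
  | nw t ih =>
    intro v r s w seen hv h hr hs
    cases r with
    | nil =>
      have h' : Nat.ble v 11478 = true := h
      exact (Nat.le_of_ble_eq_true h').trans (val_ge _ _ _)
    | cons e es =>
      cases w with
      | nil => exact hr.elim
      | cons x xs =>
        simp only [val]
        exact ih v es (e :: s) xs (x :: seen) hv h hr.2 (List.Forall₂.cons hr.1 hs)
  | sk t ih =>
    intro v r s w seen hv h hr hs
    cases r with
    | nil =>
      have h' : Nat.ble v 11478 = true := h
      exact (Nat.le_of_ble_eq_true h').trans (val_ge _ _ _)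
    | cons e es =>
      cases w with
      | nil => exact hr.elim
      | cons x xs =>
        simp only [val]
        exact ih v es s xs seen hv h hr.2 hs

theorem mis_sound {F : ℕ → Fin 5} (hF : Inj5 F) : ∀ (n : ℕ) (X Y : List E) (x y : List (Fin 5)),
    mis n X Y = true → PM F X x → PM F Y y →
      ∃ k < n, ∃ a b, x[k]? = some a ∧ y[k]? = some b ∧ a ≠ b := by
  intro n
  induction n with
  | zero => intro X Y x y h; exact absurd h (by simp [mis])
  | succ n ih =>
    intro X Y x y h hX hY
    cases X with
    | nil => exact absurd h (by simp [mis])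
    | cons e X =>
      cases Y with
      | nil => exact absurd h (by simp [mis])
      | cons f Y =>
        cases x with
        | nil => exact hX.elim
        | cons a x =>
          cases y with
          | nil => exact hY.elim
          | cons b y =>
            have h' : bor (E.ne e f) (mis n X Y) = true := h
            rcases bor_t h' with h1 | h1
            · exact ⟨0, by omega, a, b, by simp, by simp, ne_sound hF h1 hX.1 hY.1⟩
            · obtain ⟨k, hk, a', b', h2, h3, h4⟩ := ih X Y x y h1 hX.2 hY.2
              exact ⟨k + 1, by omega, a', b', by simpa using h2, by simpa using h3, h4⟩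

theorem eqs_sound {F : ℕ → Fin 5} : ∀ (n : ℕ) (X Y : List E) (x y : List (Fin 5)),
    eqs n X Y = true → PM F X x → PM F Y y →
      n ≤ x.length ∧ n ≤ y.length ∧ ∀ k < n, x[k]? = y[k]? := by
  intro n
  induction n with
  | zero => intro X Y x y _ _ _; exact ⟨by omega, by omega, by omega⟩
  | succ n ih =>
    intro X Y x y h hX hY
    cases X with
    | nil => exact absurd h (by simp [eqs])
    | cons e X =>
      cases Y with
      | nil => exact absurd h (by simp [eqs])
      | cons f Y =>
        cases x with
        | nil => exact hX.elim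
        | cons a x =>
          cases y with
          | nil => exact hY.elim
          | cons b y =>
            have h' : band (E.eq e f) (eqs n X Y) = true := h
            obtain ⟨h1, h2⟩ := band_t h'
            obtain ⟨h3, h4, h5⟩ := ih X Y x y h2 hX.2 hY.2
            refine ⟨by simpa using h3, by simpa using h4, ?_⟩
            intro k hk
            cases k with
            | zero => simp [eq_sound h1 hX.1 hY.1]
            | succ k => simpa using h5 k (by omega)

theorem PM_drop {F : ℕ → Fin 5} : ∀ (n : ℕ) (X : List E) (x : List (Fin 5)), PM F X x →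
    PM F (X.drop n) (x.drop n) := by
  intro n
  induction n with
  | zero => intro X x h; simpa using h
  | succ n ih =>
    intro X x h
    cases X with
    | nil => simp [PM]
    | cons e X =>
      cases x with
      | nil => exact h.elim
      | cons a x => simpa using ih X x h.2

theorem drp_eq : ∀ (n : ℕ) (X : List E) (f : List E → Bool), drp n X f = f (X.drop n) := by
  intro n
  induction n with
  | zero => intro X f; rfl
  | succ n ih =>
    intro X f
    cases X with
    | nil => rfl
    | cons e X => exact ih X f

/-- the length of the comparison for a repetition of period `p` ending with a move of player 1 -/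
def rl (p : ℕ) : ℕ := max 1 (p - 1)

/-- `X` begins with a forbidden repetition of period `p` -/
def Rep (p : ℕ) (X : List (Fin 5)) : Prop :=
  p + rl p ≤ X.length ∧ ∀ k < rl p, X[k]? = X[k + p]?

/-- all moves of player 1 (odd places of the word) obey the rules for the periods up to `10` -/
def Alive (W : List (Fin 5)) : Prop :=
  ∀ i, i % 2 = 1 → ∀ p, 1 ≤ p → p ≤ 10 → ¬ Rep p (W.drop i)

/-- the letter `a` is an allowed move of player 1 for the periods up to `10` -/
def Okm (a : Fin 5) (W : List (Fin 5)) : Prop := ∀ p, 1 ≤ p → p ≤ 10 → ¬ Rep p (a :: W)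

theorem bad_sound {F : ℕ → Fin 5} {K : List E} {W : List (Fin 5)} {i p : ℕ}
    (h : bad K i p = true) (hK : PM F K W) : ¬ Alive W := by
  intro hA
  unfold bad at h
  obtain ⟨h1, h⟩ := band_t h
  obtain ⟨h2, h⟩ := band_t h
  obtain ⟨h3, h⟩ := band_t h
  have h1 := Nat.eq_of_beq_eq_true h1
  have h2 := Nat.le_of_ble_eq_true h2
  have h3 := Nat.le_of_ble_eq_true h3
  rw [drp_eq, drp_eq] at h
  have hr : bif' (Nat.ble p 2) 1 (p - 1) = rl p := by
    unfold rl
    rcases hq : Nat.ble p 2 with _ | _
    · have : ¬ p ≤ 2 := by
        intro hc
        rw [Nat.ble_eq_true_of_le hc] at hq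
        exact absurd hq (by simp)
      show p - 1 = _
      omega
    · have := Nat.le_of_ble_eq_true hq
      show 1 = _
      omega
  rw [hr] at h
  have hX := PM_drop i K W hK
  have hY := PM_drop p _ _ hX
  obtain ⟨h4, h5, h6⟩ := eqs_sound _ _ _ _ _ h hX hY
  apply hA i h1 p h2 h3
  refine ⟨?_, ?_⟩
  · rw [List.length_drop] at h5
    have : 1 ≤ rl p := by unfold rl; omega
    omega
  · intro k hk
    rw [h6 k hk, List.getElem?_drop, Nat.add_comm]

theorem okopt_sound {F : ℕ → Fin 5} (hF : Inj5 F) {K : List E} {W : List (Fin 5)} {a b : ℕ}
    (ha : a < 5) (hb : b < 5) (hK : PM F K W) : ∀ (n q : ℕ) (D : List E) ,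
    okopt K a b n q D = true → PM F D (W.drop (q + 1)) → ∀ q', q ≤ q' → q' < q + n →
      ¬ Rep (q' + 2) (F a :: W) ∧ ¬ Rep (q' + 2) (F b :: W) := by
  intro n
  induction n with
  | zero => intro q D _ _ q' h1 h2; omega
  | succ n ih =>
    intro q D h hD q' h1 h2
    cases D with
    | nil => exact absurd h (by simp [okopt])
    | cons d D =>
      have h' : band (bor (band (E.ne (E.k a) d) (E.ne (E.k b) d)) (mis q K D))
        (okopt K a b n (q + 1) D) = true := h
      obtain ⟨h3, h4⟩ := band_t h'
      rcases hW : W.drop (q + 1) with _ | ⟨x, xs⟩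
      · rw [hW] at hD; exact hD.elim
      · rw [hW] at hD
        have hxs : xs = W.drop (q + 2) := by
          have : W.drop (q + 2) = (W.drop (q + 1)).drop 1 := by rw [List.drop_drop]
          rw [this, hW]; rfl
        have hx : W[q + 1]? = some x := by
          have : (W.drop (q + 1))[0]? = some x := by rw [hW]; rfl
          rwa [List.getElem?_drop] at this
        rcases Nat.eq_or_lt_of_le h1 with h5 | h5
        · subst h5
          rcases bor_t h3 with h6 | h6
          · obtain ⟨h7, h8⟩ := band_t h6
            have e1 : F a ≠ x := ne_sound hF h7 (x := F a) (y := x) ⟨ha, rfl⟩ hD.1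
            have e2 : F b ≠ x := ne_sound hF h8 (x := F b) (y := x) ⟨hb, rfl⟩ hD.1
            constructor
            · rintro ⟨-, h9⟩
              have := h9 0 (by unfold rl; omega)
              rw [Nat.zero_add, List.getElem?_cons_zero, List.getElem?_cons_succ, hx] at this
              exact e1 (Option.some.inj this)
            · rintro ⟨-, h9⟩
              have := h9 0 (by unfold rl; omega)
              rw [Nat.zero_add, List.getElem?_cons_zero, List.getElem?_cons_succ, hx] at this
              exact e2 (Option.some.inj this)
          · obtain ⟨k, hk, a', b', e1, e2, e3⟩ := mis_sound hF _ _ _ _ _ h6 hK hD.2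
            rw [hxs, List.getElem?_drop] at e2
            have key : ∀ z : Fin 5, ¬ Rep (q + 2) (z :: W) := by
              rintro z ⟨-, h9⟩
              have := h9 (k + 1) (by unfold rl; omega)
              rw [List.getElem?_cons_succ, show k + 1 + (q + 2) = (q + 2 + k) + 1 by omega,
                List.getElem?_cons_succ, e1, e2] at this
              exact e3 (Option.some.inj this)
            exact ⟨key _, key _⟩
        · refine ih (q + 1) D h4 ?_ q' (by omega) (by omega)
          rw [← hxs]; exact hD.2

theorem okopts_sound {F : ℕ → Fin 5} (hF : Inj5 F) {K : List E} {W : List (Fin 5)} {a b : ℕ}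
    (ha : a < 5) (hb : b < 5) (hK : PM F K W) (h : okopts K a b = true) :
    Okm (F a) W ∧ Okm (F b) W := by
  cases K with
  | nil => exact absurd h (by simp [okopts])
  | cons d K =>
    cases W with
    | nil => exact hK.elim
    | cons x W =>
      have h' : band (band (E.ne (E.k a) d) (E.ne (E.k b) d)) (okopt (d :: K) a b 9 0 K) = true := h
      obtain ⟨h1, h2⟩ := band_t h'
      obtain ⟨h3, h4⟩ := band_t h1
      have e1 : F a ≠ x := ne_sound hF h3 (x := F a) (y := x) ⟨ha, rfl⟩ hK.1
      have e2 : F b ≠ x := ne_sound hF h4 (x := F b) (y := x) ⟨hb, rfl⟩ hK.1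
      have h5 := okopt_sound hF ha hb hK 9 0 K h2 (by simpa using hK.2)
      constructor
      · intro p hp1 hp2
        rcases Nat.eq_or_lt_of_le hp1 with h6 | h6
        · subst h6
          rintro ⟨-, h9⟩
          have := h9 0 (by unfold rl; omega)
          rw [Nat.zero_add, List.getElem?_cons_zero, List.getElem?_cons_succ,
            List.getElem?_cons_zero] at this
          exact e1 (Option.some.inj this)
        · have := (h5 (p - 2) (by omega) (by omega)).1
          rwa [show p - 2 + 2 = p by omega] at this
      · intro p hp1 hp2
        rcases Nat.eq_or_lt_of_le hp1 with h6 | h6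
        · subst h6
          rintro ⟨-, h9⟩
          have := h9 0 (by unfold rl; omega)
          rw [Nat.zero_add, List.getElem?_cons_zero, List.getElem?_cons_succ,
            List.getElem?_cons_zero] at this
          exact e2 (Option.some.inj this)
        · have := (h5 (p - 2) (by omega) (by omega)).2
          rwa [show p - 2 + 2 = p by omega] at this

/-- classes to letters -/
def EA (A : List (Fin 5)) : E → Fin 5 → Prop
  | .k c, x => A[c]? = some x
  | .u m, x => ∀ c ∈ m, ∃ y, A[c]? = some y ∧ y ≠ x

theorem EA_mono {A : List (Fin 5)} {z : Fin 5} {e : E} {x : Fin 5} (h : EA A e x) :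
    EA (A ++ [z]) e x := by
  have key : ∀ (c : ℕ) (y : Fin 5), A[c]? = some y → (A ++ [z])[c]? = some y := by
    intro c y hc
    obtain ⟨h1, -⟩ := List.getElem?_eq_some_iff.1 hc
    rw [List.getElem?_append_left h1, hc]
  cases e with
  | k c => exact key c x h
  | u m =>
    intro c hc
    obtain ⟨y, h1, h2⟩ := h c hc
    exact ⟨y, key c y h1, h2⟩

theorem exists_F {A : List (Fin 5)} (hA : A.Nodup) :
    ∃ F : ℕ → Fin 5, Inj5 F ∧ ∀ c y, A[c]? = some y → c < 5 ∧ F c = y := by
  classical
  let B := A ++ (List.finRange 5).filter (fun x => x ∉ A)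
  have hB : B.Nodup := by
    refine List.Nodup.append hA ((List.nodup_finRange 5).filter _) ?_
    intro x h1 h2
    simp only [List.mem_filter] at h2
    simp_all
  have hBm : ∀ x, x ∈ B := by
    intro x
    by_cases hx : x ∈ A
    · exact List.mem_append_left _ hx
    · refine List.mem_append_right _ ?_
      simp [List.mem_filter, hx]
  have hlen : B.length = 5 := by
    have h1 : B.toFinset = Finset.univ := by
      ext x; simp [hBm x]
    have h2 := List.toFinset_card_of_nodup hB
    rw [h1] at h2
    simpa using h2.symm
  refine ⟨fun c => B.getD c 0, ?_, ?_⟩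
  · intro a b ha hb hab
    have ha' : a < B.length := by omega
    have hb' : b < B.length := by omega
    simp only [List.getD_eq_getElem?_getD, List.getElem?_eq_getElem ha',
      List.getElem?_eq_getElem hb', Option.getD_some] at hab
    exact (List.Nodup.getElem_inj_iff hB).1 hab
  · intro c y hc
    obtain ⟨h1, h2⟩ := List.getElem?_eq_some_iff.1 hc
    have h3 : A.length ≤ B.length := by simp [B]
    refine ⟨by omega, ?_⟩
    have h4 : c < B.length := by omega
    simp only [List.getD_eq_getElem?_getD, List.getElem?_eq_getElem h4, Option.getD_some]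
    have : B[c]? = some y := by
      simp only [B]
      rw [List.getElem?_append_left h1, hc]
    rw [List.getElem?_eq_getElem h4] at this
    exact Option.some.inj this

theorem PM_of_forall₂ {F : ℕ → Fin 5} {K : List E} {w : List (Fin 5)}
    (h : List.Forall₂ (EM F) K w) (r : List (Fin 5)) : PM F K (w ++ r) := by
  induction h with
  | nil => cases r <;> simp [PM]
  | cons h1 _ ih => exact ⟨h1, ih⟩

theorem forall₂_rev {F : ℕ → Fin 5} {K : List E} {w : List (Fin 5)}
    (h : List.Forall₂ (EM F) K w) : List.Forall₂ (EM F) K.reverse w.reverse :=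
  List.forall₂_reverse_iff.2 h

theorem revE_eq : ∀ (K A : List E) (f : List E → Bool), revE K A f = f (K.reverse ++ A) := by
  intro K
  induction K with
  | nil => intro A f; rfl
  | cons e K ih =>
    intro A f
    have : revE (e :: K) A f = revE K (e :: A) f := rfl
    rw [this, ih]
    simp

/-- The inequality on which the strategy of player 1 rests. -/
def Goal (R : T) (W : List (Fin 5)) (V : ℕ) : Prop :=
  ∃ (a b : Fin 5) (va vb : ℕ), va ≤ 20500 ∧ vb ≤ 20500 ∧ Okm a W ∧ Okm b W ∧
    (∀ c, va ≤ val R (c :: a :: W) []) ∧ (∀ c, vb ≤ val R (c :: b :: W) []) ∧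
    ((a ≠ b ∧ 5 * V + 15552 ≤ 3 * (va + vb)) ∨ 5 * V ≤ 3 * va)

theorem F_surj {F : ℕ → Fin 5} (hF : Inj5 F) (x : Fin 5) : ∃ c < 5, F c = x := by
  have hinj : Function.Injective (fun c : Fin 5 => F c) := by
    intro a b hab
    exact Fin.ext (hF _ _ a.2 b.2 hab)
  obtain ⟨c, hc⟩ := (Finite.injective_iff_surjective.1 hinj) x
  exact ⟨c, c.2, hc⟩

theorem all5_sound {F : ℕ → Fin 5} (hF : Inj5 F) {R : T} {K : List E} {W : List (Fin 5)}
    {a v : ℕ} (ha : a < 5) (hv : v ≤ 20500) (hK : PM F K W) (h : all5 R K a v = true) :
    ∀ c, v ≤ val R (c :: F a :: W) [] := by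
  intro x
  obtain ⟨c, hc, rfl⟩ := F_surj hF x
  obtain ⟨h0, h⟩ := band_t h
  obtain ⟨h1, h⟩ := band_t h
  obtain ⟨h2, h⟩ := band_t h
  obtain ⟨h3, h4⟩ := band_t h
  have key : lk R v (E.k c :: E.k a :: K) [] = true := by
    interval_cases c <;> assumption
  exact lk_sound hF R v _ [] _ [] hv key ⟨⟨hc, rfl⟩, ⟨ha, rfl⟩, hK⟩ List.Forall₂.nil

theorem allex_sound {cnt : ℕ} {ex : List ℕ} (h : allex cnt ex = true) : ∀ c < cnt, c ∈ ex := by
  induction cnt with
  | zero => intro c hc; omega
  | succ n ih =>
    have h' : band (memN n ex) (allex n ex) = true := h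
    obtain ⟨h1, h2⟩ := band_t h'
    intro c hc
    rcases Nat.lt_succ_iff_lt_or_eq.1 hc with h3 | h3
    · exact ih h2 c h3
    · subst h3; exact memN_sound h1

theorem bif_f {a x : Bool} (h : bif' a false x = true) : a = false ∧ x = true := by
  cases a <;> simp_all [bif']

theorem chk_sound (R : T) (t : T) : ∀ (fuel : ℕ) (K : List E) (cnt : ℕ) (ex : List ℕ) (top : Bool),
    chk R t fuel K cnt ex top = true → ∀ A pre rest : List (Fin 5), A.Nodup → A.length = cnt →
      List.Forall₂ (EA A) K pre → (∀ c ∈ ex, ∃ y, A[c]? = some y ∧ ∀ x ∈ rest.head?, y ≠ x) →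
      fuel ≤ rest.length → Alive (pre.reverse ++ rest) →
      Goal R (pre.reverse ++ rest) (bif top then 20500 else val t rest A.reverse) := by
  induction t with
  | lf w a va b vb =>
    intro fuel K cnt ex top h A pre rest hA hcnt hK hex hf hal
    obtain ⟨h1, h⟩ := band_t h
    obtain ⟨h2, h⟩ := bif_f h
    obtain ⟨h3, h⟩ := band_t h
    obtain ⟨h4, h⟩ := band_t h
    obtain ⟨h5, h⟩ := band_t h
    obtain ⟨h6, h⟩ := band_t h
    obtain ⟨h7, h⟩ := band_t h
    obtain ⟨h8, h⟩ := band_t h
    rw [revE_eq, List.append_nil] at h
    obtain ⟨h9, h⟩ := band_t h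
    obtain ⟨h10, h11⟩ := band_t h
    have h3 := Nat.le_of_ble_eq_true h3
    have h4 := Nat.le_of_ble_eq_true h4
    have h5 := Nat.le_of_ble_eq_true h5
    have h6 := Nat.le_of_ble_eq_true h6
    have h7 := Nat.le_of_ble_eq_true h7
    have h8 := Nat.le_of_ble_eq_true h8
    obtain ⟨F, hF, hFA⟩ := exists_F hA
    have hEM : List.Forall₂ (EM F) K pre := by
      refine hK.imp ?_
      intro e x hx
      cases e with
      | k c => exact hFA c x hx
      | u m =>
        intro c hc
        obtain ⟨y, h1, h2⟩ := hx c hc
        rw [(hFA c y h1).2]; exact h2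
    have hPM := PM_of_forall₂ (forall₂_rev hEM) rest
    obtain ⟨ok1, ok2⟩ := okopts_sound hF (by omega) (by omega) hPM h9
    refine ⟨F a, F b, va, vb, h5, h6, ok1, ok2, all5_sound hF (by omega) h5 hPM h10,
      all5_sound hF (by omega) h6 hPM h11, Or.inl ⟨?_, ?_⟩⟩
    · intro hab
      have := hF a b (by omega) (by omega) hab
      subst this
      rw [Nat.beq_refl] at h2
      exact absurd h2 (by simp)
    · cases top with
      | false =>
        simp only [cond_false, val]
        omega
      | true =>
        have h1 : w = 20500 := Nat.eq_of_beq_eq_true h1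
        simp only [cond_true]
        omega
  | l1 w a va =>
    intro fuel K cnt ex top h A pre rest hA hcnt hK hex hf hal
    obtain ⟨h1, h⟩ := bif_f h
    obtain ⟨h3, h⟩ := band_t h
    obtain ⟨h5, h⟩ := band_t h
    obtain ⟨h7, h⟩ := band_t h
    obtain ⟨h8, h⟩ := band_t h
    rw [revE_eq, List.append_nil] at h
    obtain ⟨h9, h10⟩ := band_t h
    have h3 := Nat.le_of_ble_eq_true h3
    have h5 := Nat.le_of_ble_eq_true h5
    have h7 := Nat.le_of_ble_eq_true h7
    have h8 := Nat.le_of_ble_eq_true h8
    obtain ⟨F, hF, hFA⟩ := exists_F hA
    have hEM : List.Forall₂ (EM F) K pre := by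
      refine hK.imp ?_
      intro e x hx
      cases e with
      | k c => exact hFA c x hx
      | u m =>
        intro c hc
        obtain ⟨y, h1, h2⟩ := hx c hc
        rw [(hFA c y h1).2]; exact h2
    have hPM := PM_of_forall₂ (forall₂_rev hEM) rest
    obtain ⟨ok1, -⟩ := okopts_sound hF (by omega) (by omega) hPM h9
    refine ⟨F a, F a, va, va, h5, h5, ok1, ok1, all5_sound hF (by omega) h5 hPM h10,
      all5_sound hF (by omega) h5 hPM h10, Or.inr ?_⟩
    subst h1
    simp only [cond_false, val]
    omega
  | ls a b =>
    intro fuel K cnt ex top h A pre rest hA hcnt hK hex hf hal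
    obtain ⟨h2, h⟩ := bif_f h
    obtain ⟨h3, h⟩ := band_t h
    obtain ⟨h4, h⟩ := band_t h
    rw [revE_eq, List.append_nil] at h
    obtain ⟨h9, h⟩ := band_t h
    obtain ⟨h10, h11⟩ := band_t h
    have h3 := Nat.le_of_ble_eq_true h3
    have h4 := Nat.le_of_ble_eq_true h4
    obtain ⟨F, hF, hFA⟩ := exists_F hA
    have hEM : List.Forall₂ (EM F) K pre := by
      refine hK.imp ?_
      intro e x hx
      cases e with
      | k c => exact hFA c x hx
      | u m =>
        intro c hc
        obtain ⟨y, h1, h2⟩ := hx c hc
        rw [(hFA c y h1).2]; exact h2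
    have hPM := PM_of_forall₂ (forall₂_rev hEM) rest
    obtain ⟨ok1, ok2⟩ := okopts_sound hF (by omega) (by omega) hPM h9
    refine ⟨F a, F b, 20500, 20500, le_rfl, le_rfl, ok1, ok2,
      all5_sound hF (by omega) le_rfl hPM h10,
      all5_sound hF (by omega) le_rfl hPM h11, Or.inl ⟨?_, ?_⟩⟩
    · intro hab
      have := hF a b (by omega) (by omega) hab
      subst this
      rw [Nat.beq_refl] at h2
      exact absurd h2 (by simp)
    · cases top <;> simp [val]
  | im i p =>
    intro fuel K cnt ex top h A pre rest hA hcnt hK hex hf hal
    have h' : revE K [] (fun K => bad K i p) = true := h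
    rw [revE_eq, List.append_nil] at h'
    obtain ⟨F, hF, hFA⟩ := exists_F hA
    have hEM : List.Forall₂ (EM F) K pre := by
      refine hK.imp ?_
      intro e x hx
      cases e with
      | k c => exact hFA c x hx
      | u m =>
        intro c hc
        obtain ⟨y, h1, h2⟩ := hx c hc
        rw [(hFA c y h1).2]; exact h2
    exact absurd hal (bad_sound h' (PM_of_forall₂ (forall₂_rev hEM) rest))
  | ie =>
    intro fuel K cnt ex top h A pre rest hA hcnt hK hex hf hal
    obtain ⟨h1, h⟩ := band_t h
    obtain ⟨h2, h⟩ := band_t h
    have h1 := Nat.le_of_ble_eq_true h1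
    have h2 := Nat.eq_of_beq_eq_true h2
    have h3 := allex_sound h
    cases rest with
    | nil => simp at hf; omega
    | cons x xs =>
      exfalso
      have hmem : x ∈ A := by
        have h4 : A.toFinset = Finset.univ := by
          apply Finset.eq_univ_of_card
          rw [List.toFinset_card_of_nodup hA, hcnt, h2]
          simp
        have : x ∈ A.toFinset := by rw [h4]; exact Finset.mem_univ _
        simpa using this
      obtain ⟨c, hc, hcx⟩ := List.mem_iff_getElem.1 hmem
      obtain ⟨y, h5, h6⟩ := hex c (h3 c (by omega))
      rw [List.getElem?_eq_getElem hc] at h5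
      exact h6 x (by simp) ((Option.some.inj h5).symm.trans hcx)
  | ts j y n ihy ihn =>
    intro fuel K cnt ex top h A pre rest hA hcnt hK hex hf hal
    cases fuel with
    | zero => exact absurd h (by simp [chk])
    | succ fuel =>
      have h' : band (Nat.blt j cnt) (band (chk R y fuel (E.k (cnt - 1 - j) :: K) cnt [] top)
        (chk R n (fuel + 1) K cnt ((cnt - 1 - j) :: ex) top)) = true := h
      obtain ⟨h1, h'⟩ := band_t h'
      obtain ⟨h2, h3⟩ := band_t h'
      have h1 : j < cnt := Nat.le_of_ble_eq_true h1
      cases rest with
      | nil => simp at hf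
      | cons x xs =>
        have hidx : A.reverse[j]? = A[cnt - 1 - j]? := by
          rw [List.getElem?_reverse (by omega), hcnt]
        obtain ⟨z, hz⟩ : ∃ z, A[cnt - 1 - j]? = some z :=
          ⟨_, List.getElem?_eq_getElem (by omega)⟩
        by_cases hxz : z = x
        · subst hxz
          have := ihy fuel _ cnt [] top h2 A (z :: pre) xs hA hcnt
            (List.Forall₂.cons hz hK) (by simp) (by simpa using hf) (by simpa using hal)
          simp only [val]
          rw [hidx, if_pos hz]
          simpa using this
        · have := ihn (fuel + 1) K cnt _ top h3 A pre (x :: xs) hA hcnt hK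
            (by
              intro c hc
              rcases List.mem_cons.1 hc with h4 | h4
              · subst h4
                exact ⟨z, hz, by simpa using hxz⟩
              · exact hex c h4) hf hal
          simp only [val]
          rw [hidx, if_neg]
          · exact this
          · rw [hz]; intro hcon; exact hxz (Option.some.inj hcon)
  | nw t ih =>
    intro fuel K cnt ex top h A pre rest hA hcnt hK hex hf hal
    cases fuel with
    | zero => exact absurd h (by simp [chk])
    | succ fuel =>
      have h' : band (Nat.ble cnt 4) (band (allex cnt ex)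
        (chk R t fuel (E.k cnt :: K) (cnt + 1) [] top)) = true := h
      obtain ⟨h1, h'⟩ := band_t h'
      obtain ⟨h2, h3⟩ := band_t h'
      have h2 := allex_sound h2
      cases rest with
      | nil => simp at hf
      | cons x xs =>
        have hxA : x ∉ A := by
          intro hmem
          obtain ⟨c, hc, hcx⟩ := List.mem_iff_getElem.1 hmem
          obtain ⟨y, h5, h6⟩ := hex c (h2 c (by omega))
          rw [List.getElem?_eq_getElem hc] at h5
          exact h6 x (by simp) ((Option.some.inj h5).symm.trans hcx)
        have := ih fuel _ (cnt + 1) [] top h3 (A ++ [x]) (x :: pre) xs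
          (by
            rw [List.nodup_append]
            refine ⟨hA, by simp, ?_⟩
            intro a ha b hb
            simp only [List.mem_singleton] at hb
            subst hb
            intro hab
            exact hxA (hab ▸ ha))
          (by simp [hcnt])
          (List.Forall₂.cons (show (A ++ [x])[cnt]? = some x by
              rw [← hcnt]; simp)
            (hK.imp fun e y hy => EA_mono hy))
          (by simp) (by simpa using hf) (by simpa using hal)
        simp only [val]
        simpa using this
  | sk t ih =>
    intro fuel K cnt ex top h A pre rest hA hcnt hK hex hf hal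
    cases fuel with
    | zero => exact absurd h (by simp [chk])
    | succ fuel =>
      have h' : chk R t fuel (E.u ex :: K) cnt [] top = true := h
      cases rest with
      | nil => simp at hf
      | cons x xs =>
        have := ih fuel _ cnt [] top h' A (x :: pre) xs hA hcnt
          (List.Forall₂.cons (show EA A (E.u ex) x from fun c hc => by
            obtain ⟨y, h5, h6⟩ := hex c hc
            exact ⟨y, h5, h6 x (by simp)⟩) hK)
          (by simp) (by simpa using hf) (by simpa using hal)
        simp only [val]
        simpa using this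
  | tp t ih =>
    intro fuel K cnt ex top h A pre rest hA hcnt hK hex hf hal
    have h' : chk R t fuel K cnt ex true = true := h
    have := ih fuel K cnt ex true h' A pre rest hA hcnt hK hex hf hal
    cases top <;> simpa [val] using this

end Pool.Agent.H188.Seq
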