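import Mathlib

/-!
# Decision trees on words (certificate format and checker)

Words are lists of letters, the most recent letter first.
-/

namespace Pool.Agent.H188.Seq

/-- What is known about one letter: it is the letter of class `c`, or it is none of the letters of
the classes in the list `m`. -/
inductive E : Type
  | k (c : Nat)
  | u (m : List Nat)

/-- Decision trees reading a word from its most recent letter on. -/
inductive T : Type
  /-- leaf of value `w` with two options `a`, `b` with guaranteed values `va`, `vb` -/
  | lf (w a va b vb : Nat)
  /-- leaf of value `w` with one option -/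
  | l1 (w a va : Nat)
  /-- leaf of value `CAP` with two options of value `CAP` -/
  | ls (a b : Nat)
  /-- impossible: the known letters contain a forbidden repetition of period `p` at place `i` -/
  | im (i p : Nat)
  /-- impossible: all five letters are excluded -/
  | ie
  /-- is the current letter the `j`-th element of the list of letters seen so far? -/
  | ts (j : Nat) (y n : T)
  /-- the current letter is new -/
  | nw (t : T)
  /-- skip the current letter -/
  | sk (t : T)
  /-- the value is `CAP` in the whole subtree -/
  | tp (t : T)

/-- `bor`/`band` with fast kernel reduction -/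
@[reducible] noncomputable def band (a b : Bool) : Bool := Bool.rec false b a
@[reducible] noncomputable def bor (a b : Bool) : Bool := Bool.rec b true a
@[reducible] noncomputable def bif' {α : Type} (a : Bool) (x y : α) : α := Bool.rec y x a

noncomputable def memN (c : Nat) (m : List Nat) : Bool :=
  List.rec false (fun d _ ih => bor (Nat.beq c d) ih) m

noncomputable def E.eq (e f : E) : Bool :=
  E.rec (fun a => E.rec (fun b => Nat.beq a b) (fun _ => false) f) (fun _ => false) e

noncomputable def E.ne (e f : E) : Bool :=
  E.rec (fun a => E.rec (fun b => bif' (Nat.beq a b) false true) (fun m => memN a m) f)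
    (fun m => E.rec (fun b => memN b m) (fun _ => false) f) e

/-- `s[j]` with continuation -/
noncomputable def nth (s : List E) : Nat → (E → Bool) → Bool :=
  List.rec (motive := fun _ => Nat → (E → Bool) → Bool) (fun _ _ => false)
    (fun e _ ih j f => Nat.rec (motive := fun _ => Bool) (f e) (fun j' _ => ih j' f) j) s

/-- `lk t v r s = true` certifies that the value of the tree `t` is at least `v` on all words
matching the knowledge `r`, when the letters seen so far match `s`. -/
noncomputable def lk (t : T) : Nat → List E → List E → Bool :=
  T.rec (motive := fun _ => Nat → List E → List E → Bool)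
    (fun w _ _ _ _ v _ _ => Nat.ble v w)
    (fun w _ _ v _ _ => Nat.ble v w)
    (fun _ _ v _ _ => Nat.ble v 20500)
    (fun _ _ v _ _ => Nat.ble v 20500)
    (fun v _ _ => Nat.ble v 20500)
    (fun j _ _ ihy ihn v r s =>
      List.rec (motive := fun _ => Bool) (Nat.ble v 11478)
        (fun e es _ => nth s j (fun f => bif' (E.eq e f) (ihy v es s)
          (bif' (E.ne e f) (ihn v r s) (band (ihy v es s) (ihn v r s))))) r)
    (fun _ ih v r s => List.rec (motive := fun _ => Bool) (Nat.ble v 11478)
        (fun e es _ => ih v es (e :: s)) r)
    (fun _ ih v r s => List.rec (motive := fun _ => Bool) (Nat.ble v 11478)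
        (fun _ es _ => ih v es s) r)
    (fun _ _ v _ _ => Nat.ble v 20500)
    t

/-- all five answers of the second player -/
noncomputable def all5 (R : T) (K : List E) (a v : Nat) : Bool :=
  band (lk R v (E.k 0 :: E.k a :: K) []) <|
  band (lk R v (E.k 1 :: E.k a :: K) []) <|
  band (lk R v (E.k 2 :: E.k a :: K) []) <|
  band (lk R v (E.k 3 :: E.k a :: K) []) (lk R v (E.k 4 :: E.k a :: K) [])

/-- among the first `n` letters of `X` and `Y` there is a place where they surely differ -/
noncomputable def mis (n : Nat) : List E → List E → Bool :=
  Nat.rec (motive := fun _ => List E → List E → Bool) (fun _ _ => false)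
    (fun _ ih X Y => List.rec (motive := fun _ => Bool) false
      (fun x X' _ => List.rec (motive := fun _ => Bool) false
        (fun y Y' _ => bor (E.ne x y) (ih X' Y')) Y) X) n

/-- the first `n` letters of `X` and `Y` are known and surely equal -/
noncomputable def eqs (n : Nat) : List E → List E → Bool :=
  Nat.rec (motive := fun _ => List E → List E → Bool) (fun _ _ => true)
    (fun _ ih X Y => List.rec (motive := fun _ => Bool) false
      (fun x X' _ => List.rec (motive := fun _ => Bool) false
        (fun y Y' _ => band (E.eq x y) (ih X' Y')) Y) X) n

/-- `drp n X f = f (X.drop n)` -/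
noncomputable def drp (n : Nat) : List E → (List E → Bool) → Bool :=
  Nat.rec (motive := fun _ => List E → (List E → Bool) → Bool) (fun X f => f X)
    (fun _ ih X f => List.rec (motive := fun _ => Bool) (f []) (fun _ X' _ => ih X' f) X) n

/-- both letters `a`, `b` are allowed after `K`, for the periods `p0, ..., p0 + n - 1`, where
`D = K.drop (p0 - 1)` -/
noncomputable def okopt (K : List E) (a b : Nat) (n : Nat) : Nat → List E → Bool :=
  Nat.rec (motive := fun _ => Nat → List E → Bool) (fun _ _ => true)
    (fun _ ih q D => List.rec (motive := fun _ => Bool) false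
      (fun d D' _ => band (bor (band (E.ne (E.k a) d) (E.ne (E.k b) d)) (mis q K D'))
        (ih (Nat.succ q) D')) D) n

noncomputable def okopts (K : List E) (a b : Nat) : Bool :=
  List.rec (motive := fun _ => Bool) false
    (fun d D' _ => band (band (E.ne (E.k a) d) (E.ne (E.k b) d)) (okopt K a b 9 0 D')) K

/-- is there a forbidden repetition of period `p` at place `i` -/
noncomputable def bad (K : List E) (i p : Nat) : Bool :=
  band (Nat.beq (i % 2) 1) <| band (Nat.ble 1 p) <| band (Nat.ble p 10) <|
    drp i K (fun X => drp p X (fun Y => eqs (bif' (Nat.ble p 2) 1 (p - 1)) X Y))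

noncomputable def revE (K : List E) : List E → (List E → Bool) → Bool :=
  List.rec (motive := fun _ => List E → (List E → Bool) → Bool) (fun A f => f A)
    (fun e _ ih A f => ih (e :: A) f) K

/-- all classes `< cnt` are in `ex` -/
noncomputable def allex (cnt : Nat) (ex : List Nat) : Bool :=
  Nat.rec (motive := fun _ => Bool) true (fun c ih => band (memN c ex) ih) cnt

/-- The checker. `K`: knowledge, the most recently read (oldest) letter first; `cnt`: number of
classes seen; `ex`: the classes which the current letter is known to avoid; `top`: whether we are
below a node `tp`. -/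
noncomputable def chk (R : T) (t : T) : Nat → List E → Nat → List Nat → Bool → Bool :=
  T.rec (motive := fun _ => Nat → List E → Nat → List Nat → Bool → Bool)
    (fun w a va b vb _ K _ _ top => band (bif' top (Nat.beq w 20500) true) <|
      bif' (Nat.beq a b) false <|
      band (Nat.ble a 4) <| band (Nat.ble b 4) <| band (Nat.ble va 20500) <|
      band (Nat.ble vb 20500) <| band (Nat.ble 11478 w) <|
      band (Nat.ble (5 * w + 15552) (3 * (va + vb))) <|
      revE K [] (fun K => band (okopts K a b) (band (all5 R K a va) (all5 R K b vb))))
    (fun w a va _ K _ _ top => bif' top false <|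
      band (Nat.ble a 4) <| band (Nat.ble va 20500) <| band (Nat.ble 11478 w) <|
      band (Nat.ble (5 * w) (3 * va)) <|
      revE K [] (fun K => band (okopts K a a) (all5 R K a va)))
    (fun a b _ K _ _ _ => bif' (Nat.beq a b) false <|
      band (Nat.ble a 4) <| band (Nat.ble b 4) <|
      revE K [] (fun K => band (okopts K a b) (band (all5 R K a 20500) (all5 R K b 20500))))
    (fun i p _ K _ _ _ => revE K [] (fun K => bad K i p))
    (fun fuel _ cnt ex _ => band (Nat.ble 1 fuel) (band (Nat.beq cnt 5) (allex 5 ex)))
    (fun j _ _ ihy ihn fuel K cnt ex top => Nat.rec (motive := fun _ => Bool) false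
      (fun fuel' _ => band (Nat.blt j cnt)
        (band (ihy fuel' (E.k (cnt - 1 - j) :: K) cnt [] top)
          (ihn fuel K cnt ((cnt - 1 - j) :: ex) top))) fuel)
    (fun _ ih fuel K cnt ex top => Nat.rec (motive := fun _ => Bool) false
      (fun fuel' _ => band (Nat.ble cnt 4) (band (allex cnt ex)
        (ih fuel' (E.k cnt :: K) (cnt + 1) [] top))) fuel)
    (fun _ ih fuel K cnt ex top => Nat.rec (motive := fun _ => Bool) false
      (fun fuel' _ => ih fuel' (E.u ex :: K) cnt [] top) fuel)
    (fun _ ih fuel K cnt ex _ => ih fuel K cnt ex true)
    t

end Pool.Agent.H188.Seq
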